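import Pool.Agent.P.MP_b8021b_nt.CM.Act0

/-! Library L2: the action on the upper half plane (first half in `Act0`). -/

namespace Pool.Agent.P.MP_b8021b_nt.CM

open Complex hiding Gamma
open UpperHalfPlane hiding I
open CongruenceSubgroup Function
open scoped Real MatrixGroups Modular Topology

noncomputable section

attribute [local simp] castZ_apply

/-! ### elliptic elements -/

theorem Ell.det_pos {Y : M2} (h : Ell Y) : 0 < Y.det := by
  have := sq_nonneg Y.trace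
  unfold Ell at h; linarith
theorem ell_iff (Y : M2) : Ell Y ↔ (Y 0 0 - Y 1 1) ^ 2 + 4 * (Y 0 1 * Y 1 0) < 0 := by
  rw [Ell, Matrix.trace_fin_two, Matrix.det_fin_two]
  constructor <;> intro h <;> linarith
theorem Ell.c_ne {Y : M2} (h : Ell Y) : Y 1 0 ≠ 0 := by
  intro h0
  rw [ell_iff, h0] at h
  linarith [sq_nonneg (Y 0 0 - Y 1 1)]
theorem Ell.isElliptic {Y : M2} (h : Ell Y) : (toR (toG Y)).IsElliptic := by
  have h1 := h.det_pos.ne'
  have h2 : ((Y.trace ^ 2 : ℚ) : ℝ) < ((4 * Y.det : ℚ) : ℝ) := Rat.cast_lt.2 h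
  change Matrix.discr _ < 0
  rw [Matrix.discr_fin_two, det_toR_toG h1, Matrix.trace_fin_two, toR_apply, toR_apply, toG_val h1]
  rw [Matrix.trace_fin_two, Rat.cast_pow, Rat.cast_add, Rat.cast_mul, Rat.cast_ofNat] at h2
  linarith
theorem Ell.act_eq_iff {Y : M2} (h : Ell Y) (τ : ℍ) : act Y τ = τ ↔ τ = fix Y := by
  rw [fix, dif_pos h.isElliptic, act, actH_apply]
  apply gl_smul_eq_self_iff_eq_fixedPt
  rw [det_toR_toG h.det_pos.ne']; exact_mod_cast h.det_pos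
theorem Ell.act_fix {Y : M2} (h : Ell Y) : act Y (fix Y) = fix Y := (h.act_eq_iff _).2 rfl
theorem act_self_iff {Y : M2} (h : 0 < Y.det) (τ : ℍ) :
    act Y τ = τ ↔ (Y 1 0 : ℂ) * τ ^ 2 + (Y 1 1 - Y 0 0) * τ - Y 0 1 = 0 := by
  rw [act_eq_iff h]
  constructor <;> intro h <;> linear_combination h
theorem ell_of_fixed {Y : M2} (h : 0 < Y.det) {τ : ℍ} (hτ : act Y τ = τ) :
    Ell Y ∨ ∃ a : ℚ, Y = a • (1 : M2) := by
  rw [act_self_iff h] at hτ
  have hy := τ.im_pos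
  have h1 := congrArg Complex.im hτ
  have h2 := congrArg Complex.re hτ
  simp [pow_two] at h1 h2
  have h3 : (Y 1 0 : ℝ) * (2 * τ.re) + (Y 1 1 - Y 0 0) = 0 := by
    apply mul_left_cancel₀ hy.ne'; linarith
  by_cases hc : Y 1 0 = 0
  · right
    have hc' : (Y 1 0 : ℝ) = 0 := by exact_mod_cast hc
    rw [hc'] at h2 h3
    have h4 : (Y 1 1 : ℝ) = Y 0 0 := by linarith
    have h5 : (Y 0 1 : ℝ) = 0 := by rw [h4] at h2; linarith
    have h4' : Y 1 1 = Y 0 0 := by exact_mod_cast h4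
    have h5' : Y 0 1 = 0 := by exact_mod_cast h5
    exact ⟨Y 0 0, by ext i j; fin_cases i <;> fin_cases j <;> simp [hc, h4', h5']⟩
  · left
    have hc' : (Y 1 0 : ℝ) ≠ 0 := by exact_mod_cast hc
    rw [ell_iff]
    have h4 : ((Y 0 0 : ℝ) - Y 1 1) ^ 2 + 4 * (Y 0 1 * Y 1 0) = -4 * (Y 1 0 * τ.im) ^ 2 := by
      have e1 : (Y 0 0 : ℝ) - Y 1 1 = Y 1 0 * (2 * τ.re) := by linarith
      have e2 : (Y 0 1 : ℝ) = Y 1 0 * (τ.re * τ.re - τ.im * τ.im) + (Y 1 1 - Y 0 0) * τ.re := by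
        linarith
      have e3 : (Y 1 1 : ℝ) - Y 0 0 = -(Y 1 0 * (2 * τ.re)) := by linarith
      rw [e2, e3, e1]; ring
    have h5 : 0 < ((Y 1 0 : ℝ) * τ.im) ^ 2 := by positivity
    have h6 : ((Y 0 0 : ℝ) - Y 1 1) ^ 2 + 4 * (Y 0 1 * Y 1 0) < 0 := by linarith
    exact_mod_cast h6
theorem ell_affine {a : ℚ} (ha : a ≠ 0) (b : ℚ) (Y : M2) :
    Ell (a • Y + b • (1 : M2)) ↔ Ell Y := by
  rw [ell_iff, ell_iff]
  have h : 0 < a ^ 2 := by positivity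
  have e1 : ((a • Y + b • (1 : M2)) 0 0 - (a • Y + b • (1 : M2)) 1 1) ^ 2 +
      4 * ((a • Y + b • (1 : M2)) 0 1 * (a • Y + b • (1 : M2)) 1 0) =
      a ^ 2 * ((Y 0 0 - Y 1 1) ^ 2 + 4 * (Y 0 1 * Y 1 0)) := by
    simp; ring
  rw [e1]
  constructor
  · intro h1; by_contra h2; exact absurd h1 (not_lt.2 (mul_nonneg h.le (not_lt.1 h2)))
  · exact mul_neg_of_pos_of_neg h
theorem Ell.fix_affine {Y : M2} (h : Ell Y) {a : ℚ} (ha : a ≠ 0) (b : ℚ) :
    fix (a • Y + b • (1 : M2)) = fix Y := by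
  have h' := (ell_affine ha b Y).2 h
  symm
  rw [← h'.act_eq_iff, act_self_iff h'.det_pos]
  have := (act_self_iff h.det_pos _).1 h.act_fix
  simp
  linear_combination (a : ℂ) * this
theorem val_mul_inv (g : GQ) : g.1 * (g⁻¹).1 = 1 := g.mul_inv
theorem val_inv_mul (g : GQ) : (g⁻¹).1 * g.1 = 1 := g.inv_mul
theorem det_conj (g : GQ) (Y : M2) : (g.1 * Y * (g⁻¹).1).det = Y.det := by
  rw [Matrix.det_mul, Matrix.det_mul, mul_right_comm, ← Matrix.det_mul, val_mul_inv]; simp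
theorem trace_conj (g : GQ) (Y : M2) : (g.1 * Y * (g⁻¹).1).trace = Y.trace := by
  rw [Matrix.trace_mul_comm, ← mul_assoc, val_inv_mul, one_mul]
theorem ell_conj (g : GQ) (Y : M2) : Ell (g.1 * Y * (g⁻¹).1) ↔ Ell Y := by
  rw [Ell, Ell, det_conj, trace_conj]
theorem actH_mul (g h : GQ) (τ : ℍ) : actH (g * h) τ = actH g (actH h τ) := by
  rw [map_mul]; rfl
theorem actH_inv_actH (g : GQ) (τ : ℍ) : actH g⁻¹ (actH g τ) = τ := by
  rw [← actH_mul, inv_mul_cancel, map_one]; rfl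
theorem actH_actH_inv (g : GQ) (τ : ℍ) : actH g (actH g⁻¹ τ) = τ := by
  rw [← actH_mul, mul_inv_cancel, map_one]; rfl
theorem Ell.fix_conj {Y : M2} (h : Ell Y) (g : GQ) :
    fix (g.1 * Y * (g⁻¹).1) = actH g (fix Y) := by
  have h' := (ell_conj g Y).2 h
  have hd := h.det_pos.ne'
  symm
  rw [← h'.act_eq_iff, act_mul _ (GQ_det_ne _), act_mul (GQ_det_ne _) hd, act_val, act_val,
    actH_inv_actH, h.act_fix]
  rw [Matrix.det_mul]; exact mul_ne_zero (GQ_det_ne _) hd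
theorem Ell.inv {Y : GQ} (h : Ell Y.1) : Ell (Y⁻¹).1 ∧ fix (Y⁻¹).1 = fix Y.1 := by
  have hd := GQ_det_ne Y
  have e1 : (Y⁻¹).1 = (-(Y.1.det)⁻¹) • Y.1 + (Y.1.trace / Y.1.det) • (1 : M2) := by
    have : Y.1 * ((-(Y.1.det)⁻¹) • Y.1 + (Y.1.trace / Y.1.det) • (1 : M2)) = 1 := by
      have h2 := Matrix.det_fin_two Y.1
      generalize Y.1.det = D at hd h2
      ext i j
      fin_cases i <;> fin_cases j <;>
        simp [Matrix.mul_apply, Fin.sum_univ_two, Matrix.trace_fin_two] <;> field_simp <;>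
        first | ring1 | (rw [h2]; ring1)
    calc (Y⁻¹).1 = (Y⁻¹).1 * (Y.1 * _) := by rw [this, mul_one]
      _ = _ := by rw [← mul_assoc, val_inv_mul, one_mul]
  have ha : -(Y.1.det)⁻¹ ≠ 0 := neg_ne_zero.2 (inv_ne_zero hd)
  rw [e1]
  exact ⟨(ell_affine ha _ _).2 h, h.fix_affine ha _⟩
/-- the derivative of an elliptic transformation at its fixed point is not one -/
theorem Ell.simple {Y : M2} (h : Ell Y) : ∃ c C : ℝ, 0 < c ∧ ∀ᶠ τ : ℍ in 𝓝 (fix Y),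
    c * ‖(τ : ℂ) - fix Y‖ ≤ ‖(τ : ℂ) - act Y τ‖ ∧ ‖(τ : ℂ) - act Y τ‖ ≤ C * ‖(τ : ℂ) - fix Y‖ := by
  have hd := h.det_pos
  set z : ℍ := fix Y with hz
  have h0 := (act_self_iff hd z).1 h.act_fix
  let G : ℍ → ℂ := fun τ => ((Y 1 0 : ℂ) * (τ + z) + (Y 1 1 - Y 0 0)) / ((Y 1 0 : ℂ) * τ + Y 1 1)
  have hG : ∀ τ : ℍ, (τ : ℂ) - act Y τ = G τ * (τ - z) := fun τ => by
    have := den_ne_zero hd.ne' τ
    rw [coe_act hd]
    simp only [G]
    rw [div_mul_eq_mul_div, eq_div_iff this, sub_mul, div_mul_cancel₀ _ this]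
    linear_combination h0
  have hc : Continuous G := by
    refine Continuous.div (by fun_prop) (by fun_prop) fun τ => den_ne_zero hd.ne' τ
  have hG0 : G z ≠ 0 := by
    refine div_ne_zero (fun h1 => ?_) (den_ne_zero hd.ne' z)
    have h2 := congrArg Complex.im h1
    have h3 : (Y 1 0 : ℝ) ≠ 0 := by exact_mod_cast h.c_ne
    simp [h.c_ne] at h2
    linarith [z.im_pos]
  have hp : 0 < ‖G z‖ := norm_pos_iff.2 hG0
  refine ⟨‖G z‖ / 2, 2 * ‖G z‖, by positivity, ?_⟩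
  have h1 : ∀ᶠ τ in 𝓝 z, ‖G z‖ / 2 < ‖G τ‖ :=
    hc.norm.continuousAt.eventually (lt_mem_nhds (by linarith))
  have h2 : ∀ᶠ τ in 𝓝 z, ‖G τ‖ < 2 * ‖G z‖ :=
    hc.norm.continuousAt.eventually (gt_mem_nhds (by linarith))
  filter_upwards [h1, h2] with τ h1 h2
  rw [hG, norm_mul]
  constructor <;> gcongr
theorem bil_eq_trace (Y Z : M2) : bil Y Z = (Z.adjugate * Y).trace := by
  rw [Matrix.trace_fin_two, Matrix.mul_apply, Matrix.mul_apply]
  simp [bil, Matrix.adjugate_fin_two, Fin.sum_univ_two]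
  ring
theorem det_add_bil (Y Z : M2) : (Y + Z).det = Y.det + bil Y Z + Z.det := by
  simp [bil, Matrix.det_fin_two]; ring
theorem tz_co {Y : M2} (h : Y.trace = 0) : tz (co Y) = Y := by
  rw [Matrix.trace_fin_two] at h
  have h' : -Y 0 0 = Y 1 1 := by linarith
  ext i j; fin_cases i <;> fin_cases j <;> simp [tz, co, h']
theorem co_tz (Y : Q3) : co (tz Y) = Y := by simp [tz, co]
theorem det_tz (Y : Q3) : (tz Y).det = q3 Y := by
  simp [tz, q3, Matrix.det_fin_two]; ring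
theorem trace_tz (Y : Q3) : (tz Y).trace = 0 := by simp [tz, Matrix.trace_fin_two]
theorem countable_not_gen : {τ : ℍ | ¬ Gen τ}.Countable := by
  have : Countable Z2 := inferInstanceAs (Countable (Fin 2 → Fin 2 → ℤ))
  refine (Set.countable_range fun Y : Z2 => fix (castZ Y)).mono fun τ hτ => ?_
  simp only [Gen, Set.mem_ofPred_eq, not_forall] at hτ
  obtain ⟨Y, h1, h2, h3⟩ := hτ
  have h1' : 0 < (castZ Y).det := by rw [castZ_det]; exact_mod_cast h1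
  rcases ell_of_fixed h1' h2 with h | ⟨a, ha⟩
  · exact ⟨Y, ((h.act_eq_iff τ).1 h2).symm⟩
  · exfalso
    refine h3 ⟨Y 0 0, castZ_injective ?_⟩
    have : a = Y 0 0 := by simpa using (congrFun (congrFun ha 0) 0).symm
    rw [castZ_smul, castZ_one, ha, this]
theorem dense_gen : Dense {τ : ℍ | Gen τ} := by
  have h1 : Dense (UpperHalfPlane.coe '' {τ : ℍ | ¬ Gen τ})ᶜ :=
    (countable_not_gen.image _).dense_compl ℝ
  refine (h1.preimage isOpenEmbedding_coe.isOpenMap).mono fun τ hτ => ?_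
  by_contra h
  exact hτ ⟨τ, h, rfl⟩

/-! ### stabilisers, weights and finite sets -/

theorem finite_of_bdd (M : ℕ) (hM : 0 < M) (B : ℝ) :
    {Y : M2 | IsInt ((M : ℚ) • Y) ∧ ∀ i j, |(Y i j : ℝ)| ≤ B}.Finite := by
  have hM' : (M : ℚ) ≠ 0 := by exact_mod_cast hM.ne'
  obtain ⟨N, hN⟩ := exists_nat_ge (M * B)
  have h1 : (Set.pi Set.univ fun _ : Fin 2 => Set.pi Set.univ fun _ : Fin 2 =>
      Set.Icc (-N : ℤ) N).Finite :=
    Set.Finite.pi fun _ => Set.Finite.pi fun _ => Set.finite_Icc _ _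
  refine (h1.image fun Z : Z2 => (M : ℚ)⁻¹ • castZ Z).subset ?_
  rintro Y ⟨h2, h3⟩
  obtain ⟨Z, hZ⟩ := (isInt_M2 _).1 h2
  refine ⟨Z, fun i _ j _ => ?_, ?_⟩
  · have h4 : ((Z i j : ℚ) : ℝ) = ((M * Y i j : ℚ) : ℝ) := by
      rw [← castZ_apply, hZ]; rfl
    push_cast at h4
    have h5 : |(Z i j : ℝ)| ≤ N := by
      rw [h4, abs_mul, Nat.abs_cast]
      exact (mul_le_mul_of_nonneg_left (h3 i j) (Nat.cast_nonneg M)).trans hN
    have h6 : |Z i j| ≤ N := by exact_mod_cast h5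
    exact abs_le.1 h6
  · simp only [hZ, smul_smul, inv_mul_cancel₀ hM', one_smul]

theorem abs_mul_im_le (c d : ℚ) (τ : ℍ) : |(c : ℝ)| * τ.im ≤ ‖(c : ℂ) * τ + d‖ := by
  have := Complex.abs_im_le_norm ((c : ℂ) * τ + d)
  simpa [abs_mul, abs_of_pos τ.im_pos] using this

theorem coef_le_of_norm_le {c d : ℚ} {τ : ℍ} {δ A R : ℝ} (hδ : 0 < δ) (h1 : δ ≤ τ.im)
    (h2 : ‖(τ : ℂ)‖ ≤ A) (h : ‖(c : ℂ) * τ + d‖ ≤ R) :
    |(c : ℝ)| ≤ R / δ + (R + R / δ * A) ∧ |(d : ℝ)| ≤ R / δ + (R + R / δ * A) := by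
  have hR : 0 ≤ R := (norm_nonneg _).trans h
  have hA : 0 ≤ A := (norm_nonneg _).trans h2
  have h3 : |(c : ℝ)| ≤ R / δ := by
    rw [le_div_iff₀ hδ]
    exact ((mul_le_mul_of_nonneg_left h1 (abs_nonneg _)).trans (abs_mul_im_le c d τ)).trans h
  have h4 : |(d : ℝ)| ≤ R + R / δ * A := by
    have e1 : (d : ℂ) = ((c : ℂ) * τ + d) - c * τ := by ring
    have e2 : ‖(d : ℂ)‖ = |(d : ℝ)| := by rw [← Complex.ofReal_ratCast, Complex.norm_real]; rfl
    have e3 : ‖(c : ℂ)‖ = |(c : ℝ)| := by rw [← Complex.ofReal_ratCast, Complex.norm_real]; rfl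
    rw [← e2, e1]
    refine (norm_sub_le _ _).trans (add_le_add h ?_)
    rw [norm_mul, e3]
    exact mul_le_mul h3 h2 (norm_nonneg _) (by positivity)
  constructor
  · have : 0 ≤ R + R / δ * A := by positivity
    linarith
  · have : 0 ≤ R / δ := by positivity
    linarith

theorem compact_bounds {K : Set ℍ} (hK : IsCompact K) :
    ∃ δ A : ℝ, 0 < δ ∧ 1 ≤ A ∧ ∀ τ ∈ K, δ ≤ τ.im ∧ ‖(τ : ℂ)‖ ≤ A := by
  rcases K.eq_empty_or_nonempty with rfl | hne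
  · exact ⟨1, 1, one_pos, le_rfl, fun _ h => h.elim⟩
  obtain ⟨z, -, h⟩ := hK.exists_isMinOn hne UpperHalfPlane.continuous_im.continuousOn
  obtain ⟨w, -, h'⟩ := hK.exists_isMaxOn hne UpperHalfPlane.continuous_coe.norm.continuousOn
  exact ⟨z.im, max 1 ‖(w : ℂ)‖, z.im_pos, le_max_left _ _, fun τ hτ =>
    ⟨h hτ, le_max_of_le_right (h' hτ)⟩⟩

/-- properness -/
theorem finite_of_compact (M : ℕ) (hM : 0 < M) (n : ℚ) {K K' : Set ℍ} (hK : IsCompact K)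
    (hK' : IsCompact K') : {Y : M2 | IsInt ((M : ℚ) • Y) ∧ 0 < Y.det ∧ Y.det ≤ n ∧
      ∃ τ ∈ K, act Y τ ∈ K'}.Finite := by
  obtain ⟨δ, A, hδ, hA, h⟩ := compact_bounds hK
  obtain ⟨δ', A', hδ', hA', h'⟩ := compact_bounds hK'
  set R : ℝ := √(n * A / δ') * A' with hR
  refine (finite_of_bdd M hM (R / δ + (R + R / δ * A))).subset ?_
  rintro Y ⟨h1, h2, h3, τ, h4, h5⟩
  refine ⟨h1, ?_⟩
  obtain ⟨h6, h7⟩ := h τ h4
  obtain ⟨h8, h9⟩ := h' _ h5
  have hden := den_ne_zero h2.ne' τ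
  have hp : 0 < ‖(Y 1 0 : ℂ) * τ + Y 1 1‖ := norm_pos_iff.2 hden
  have h10 : ‖(Y 1 0 : ℂ) * τ + Y 1 1‖ ≤ √(n * A / δ') := by
    apply Real.le_sqrt_of_sq_le
    rw [im_act h2, le_div_iff₀ (by positivity)] at h8
    rw [le_div_iff₀ hδ', mul_comm]
    refine h8.trans (mul_le_mul (by exact_mod_cast h3) ?_ τ.im_pos.le ?_)
    · exact (le_abs_self _).trans ((Complex.abs_im_le_norm (τ : ℂ)).trans h7)
    · exact_mod_cast h2.le.trans h3
  have h11 : ‖(Y 1 0 : ℂ) * τ + Y 1 1‖ ≤ R :=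
    h10.trans (le_mul_of_one_le_right (Real.sqrt_nonneg _) hA')
  have h12 : ‖(Y 0 0 : ℂ) * τ + Y 0 1‖ ≤ R := by
    rw [← (act_eq_iff h2 τ _).1 rfl, norm_mul, mul_comm]
    exact mul_le_mul h10 h9 (norm_nonneg _) (Real.sqrt_nonneg _)
  have h13 := coef_le_of_norm_le hδ h6 h7 h11
  have h14 := coef_le_of_norm_le hδ h6 h7 h12
  intro i j
  fin_cases i <;> fin_cases j
  exacts [h14.1, h14.2, h13.1, h13.2]

theorem inv_le_abs_of_isInt {M : ℕ} (hM : 0 < M) {c : ℚ} (h : IsInt ((M : ℚ) • c)) (hc : c ≠ 0) :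
    (M : ℝ)⁻¹ ≤ |(c : ℝ)| := by
  obtain ⟨k, hk⟩ := (isInt_rat _).1 h
  have hM' : (0 : ℝ) < M := by exact_mod_cast hM
  have hk0 : k ≠ 0 := by
    rintro rfl
    simp [hc, hM.ne'] at hk
  have h1 : (1 : ℝ) ≤ |(k : ℝ)| := by exact_mod_cast Int.one_le_abs hk0
  have h2 : (M : ℝ) * c = k := by exact_mod_cast hk
  rw [inv_le_iff_one_le_mul₀' hM', ← Nat.abs_cast (R := ℝ) M, ← abs_mul, h2]
  exact h1

theorem finite_ell (M : ℕ) (hM : 0 < M) (n : ℚ) :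
    {Y : M2 | IsInt ((M : ℚ) • Y) ∧ Y.det ≤ n ∧ Ell Y ∧ fix Y ∈ 𝒟}.Finite := by
  have hK := ModularGroup.isCompact_truncatedFundamentalDomain (M * √n)
  refine (finite_of_compact M hM n hK hK).subset ?_
  rintro Y ⟨h1, h2, h3, h4⟩
  have hd := h3.det_pos
  have hM' : (0 : ℝ) < M := by exact_mod_cast hM
  have h5 : (fix Y).im ≤ M * √n := by
    have h6 := im_act hd (fix Y)
    have hp : 0 < ‖(Y 1 0 : ℂ) * fix Y + Y 1 1‖ := norm_pos_iff.2 (den_ne_zero hd.ne' _)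
    rw [h3.act_fix, eq_div_iff (by positivity), mul_comm] at h6
    have h7 := mul_right_cancel₀ (fix Y).im_pos.ne' h6
    have h8 : ‖(Y 1 0 : ℂ) * fix Y + Y 1 1‖ ≤ √n := by
      apply Real.le_sqrt_of_sq_le
      rw [h7]; exact_mod_cast h2
    have h9 := inv_le_abs_of_isInt hM ((isInt_M2' _).1 h1 1 0) h3.c_ne
    have h10 := ((mul_le_mul_of_nonneg_right h9 (fix Y).im_pos.le).trans
      (abs_mul_im_le (Y 1 0) (Y 1 1) (fix Y))).trans h8
    rwa [inv_mul_le_iff₀ hM'] at h10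
  exact ⟨h1, hd, h2, fix Y, ⟨h4, h5⟩, by rw [h3.act_fix]; exact ⟨h4, h5⟩⟩

theorem finite_toD' (M : ℕ) (hM : 0 < M) (n : ℚ) (τ : ℍ) :
    {Y : M2 | IsInt ((M : ℚ) • Y) ∧ 0 < Y.det ∧ Y.det ≤ n ∧ act Y τ ∈ 𝒟}.Finite := by
  have hM' : (0 : ℝ) < M := by exact_mod_cast hM
  set ε : ℝ := (M : ℝ)⁻¹ * min τ.im 1 with hε
  have hε0 : 0 < ε := mul_pos (inv_pos.2 hM') (lt_min τ.im_pos one_pos)
  have hK := ModularGroup.isCompact_truncatedFundamentalDomain (n * τ.im / ε ^ 2)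
  refine (finite_of_compact M hM n (isCompact_singleton (x := τ)) hK).subset ?_
  rintro Y ⟨h1, h2, h3, h4⟩
  refine ⟨h1, h2, h3, τ, rfl, h4, ?_⟩
  have h5 : ε ≤ ‖(Y 1 0 : ℂ) * τ + Y 1 1‖ := by
    by_cases hc : Y 1 0 = 0
    · have hd : Y 1 1 ≠ 0 := by
        intro hd
        rw [Matrix.det_fin_two, hc, hd] at h2
        simp at h2
      have h9 := inv_le_abs_of_isInt hM ((isInt_M2' _).1 h1 1 1) hd
      have e2 : ‖(Y 1 1 : ℂ)‖ = |(Y 1 1 : ℝ)| := by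
        rw [← Complex.ofReal_ratCast, Complex.norm_real]; rfl
      rw [hc, Rat.cast_zero, zero_mul, zero_add, e2]
      exact (mul_le_of_le_one_right (inv_pos.2 hM').le (min_le_right _ _)).trans h9
    · have h9 := inv_le_abs_of_isInt hM ((isInt_M2' _).1 h1 1 0) hc
      refine le_trans ?_ (abs_mul_im_le (Y 1 0) (Y 1 1) τ)
      exact mul_le_mul h9 (min_le_left _ _) (lt_min τ.im_pos one_pos).le (abs_nonneg _)
  have h3' : (Y.det : ℝ) ≤ n := by exact_mod_cast h3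
  have h2' : (0 : ℝ) < Y.det := by exact_mod_cast h2
  have hy := τ.im_pos
  have hn : (0 : ℝ) ≤ n := h2'.le.trans h3'
  rw [im_act h2]
  gcongr

theorem finite_SL_of_finite {P : SL → Prop} {S : Set M2} (hS : S.Finite)
    (h : ∀ γ, P γ → castZ γ.1 ∈ S) : {γ : SL | P γ}.Finite :=
  (hS.preimage (f := fun γ : SL => castZ γ.1)
    (castZ_injective.comp Subtype.val_injective).injOn).subset h

theorem isInt_one_smul_castZ (Z : Z2) : IsInt (((1 : ℕ) : ℚ) • castZ Z) := by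
  rw [Nat.cast_one, one_smul]; exact (isInt_M2 _).2 ⟨Z, rfl⟩

theorem finite_stab (τ σ : ℍ) : {γ : SL | γ • τ = σ}.Finite := by
  refine finite_SL_of_finite (finite_of_compact 1 one_pos 1 (isCompact_singleton (x := τ))
    (isCompact_singleton (x := σ))) fun γ h => ?_
  refine ⟨isInt_one_smul_castZ _, by rw [det_castZ_SL]; exact one_pos, (det_castZ_SL γ).le, τ, rfl,
    ?_⟩
  rw [act_SL]; exact h
theorem finite_stab_G0 (τ : ℍ) : {γ : GQ | γ ∈ G0 ∧ actH γ τ = τ}.Finite := by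
  refine ((finite_stab τ τ).image iota).subset ?_
  rintro _ ⟨⟨γ, rfl⟩, h⟩
  exact ⟨γ, by rwa [actH_iota] at h, rfl⟩
theorem Gamma_free {N : ℕ} (h : 3 ≤ N) {γ : SL} (hγ : γ ∈ Gamma N) {τ : ℍ} (e : γ • τ = τ) :
    γ = 1 := by
  have h1 : red N (1 : Z2) = 1 := by
    ext i j; fin_cases i <;> fin_cases j <;> simp [red_apply]
  rw [mem_Gamma_iff_red, ← h1, red_eq_iff] at hγ
  obtain ⟨K, hK⟩ := hγ
  have hd := γ.det_coe
  have hN : (3 : ℤ) ≤ N := by exact_mod_cast h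
  have k : ∀ i j, γ.1 i j = (1 : Z2) i j + N * K i j := fun i j => by rw [hK]; rfl
  have k00 : γ.1 0 0 = 1 + N * K 0 0 := k 0 0
  have k01 : γ.1 0 1 = N * K 0 1 := (k 0 1).trans (zero_add _)
  have k10 : γ.1 1 0 = N * K 1 0 := (k 1 0).trans (zero_add _)
  have k11 : γ.1 1 1 = 1 + N * K 1 1 := k 1 1
  rw [Matrix.det_fin_two] at hd
  rw [← act_SL] at e
  rcases ell_of_fixed (by rw [det_castZ_SL]; exact one_pos) e with h2 | ⟨a, ha⟩
  · exfalso
    rw [Ell, det_castZ_SL, Matrix.trace_fin_two, castZ_apply, castZ_apply] at h2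
    have h3 : (γ.1 0 0 + γ.1 1 1) ^ 2 < 4 := by exact_mod_cast h2
    set D := K 0 0 * K 1 1 - K 0 1 * K 1 0 with hD
    have h4 : γ.1 0 0 + γ.1 1 1 = 2 - (N : ℤ) ^ 2 * D := by
      rw [k00, k01, k10, k11] at hd
      rw [k00, k11, hD]; linarith
    rw [h4] at h3
    have h5 : (9 : ℤ) ≤ (N : ℤ) ^ 2 := by nlinarith
    rcases lt_trichotomy D 0 with h6 | h6 | h6
    · have : (N : ℤ) ^ 2 * D ≤ 0 := mul_nonpos_of_nonneg_of_nonpos (sq_nonneg _) h6.le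
      nlinarith
    · rw [h6] at h3; norm_num at h3
    · have : (9 : ℤ) ≤ (N : ℤ) ^ 2 * D := by nlinarith
      nlinarith
  · have a01 : γ.1 0 1 = 0 := by simpa using congrFun (congrFun ha 0) 1
    have a10 : γ.1 1 0 = 0 := by simpa using congrFun (congrFun ha 1) 0
    have a00 : (γ.1 0 0 : ℚ) = a := by simpa using congrFun (congrFun ha 0) 0
    have a11 : (γ.1 1 1 : ℚ) = a := by simpa using congrFun (congrFun ha 1) 1
    have h3 : γ.1 1 1 = γ.1 0 0 := by exact_mod_cast a11.trans a00.symm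
    rw [a01, h3, zero_mul, sub_zero] at hd
    have h4 : γ.1 0 0 = 1 := by
      rcases Int.eq_one_or_neg_one_of_mul_eq_one hd with h5 | h5
      · exact h5
      · exfalso
        have h6 : (N : ℤ) ∣ 2 := ⟨-K 0 0, by linarith⟩
        have := Int.le_of_dvd two_pos h6
        omega
    ext i j
    fin_cases i <;> fin_cases j <;> simp [a01, a10, h3, h4]
theorem finite_toD (τ : ℍ) : {γ : SL | γ • τ ∈ 𝒟}.Finite := by
  refine finite_SL_of_finite (finite_toD' 1 one_pos 1 τ) fun γ h => ?_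
  refine ⟨isInt_one_smul_castZ _, by rw [det_castZ_SL]; exact one_pos, (det_castZ_SL γ).le, ?_⟩
  rw [act_SL]; exact h
theorem b0_nonneg (τ : ℍ) : 0 ≤ b0 τ := by
  unfold b0; split_ifs <;> positivity
theorem b0_le_one (τ : ℍ) : b0 τ ≤ 1 := by
  unfold b0; split_ifs
  · exact Nat.cast_inv_le_one _
  · exact zero_le_one
theorem card_toD_ne_zero (τ : ℍ) : Nat.card {γ : SL // γ • τ ∈ 𝒟} ≠ 0 := by
  have : Finite {γ : SL // γ • τ ∈ 𝒟} := finite_toD τ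
  obtain ⟨γ, hγ⟩ := ModularGroup.exists_smul_mem_fd τ
  have : Nonempty {γ : SL // γ • τ ∈ 𝒟} := ⟨⟨γ, hγ⟩⟩
  exact Nat.card_pos.ne'
theorem b0_ne_zero_iff (τ : ℍ) : b0 τ ≠ 0 ↔ τ ∈ 𝒟 := by
  unfold b0; split_ifs with h
  · simpa [h] using card_toD_ne_zero τ
  · simpa using h
theorem countable_SL : Countable SL :=
  have : Countable Z2 := inferInstanceAs (Countable (Fin 2 → Fin 2 → ℤ))
  Subtype.countable
theorem measurable_b0 : Measurable b0 := by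
  have := countable_SL
  have hD : MeasurableSet 𝒟 := ModularGroup.isClosed_fd.measurableSet
  have h1 : Measurable fun τ : ℍ => {γ : SL | γ • τ ∈ 𝒟} :=
    measurable_set_iff.2 fun γ => (measurableSet_setOfPred.1 ((continuous_SL γ).measurable hD))
  have h2 : Measurable fun τ : ℍ => (({γ : SL | γ • τ ∈ 𝒟}.ncard : ℝ))⁻¹ :=
    (measurable_from_nat.comp (measurable_ncard.comp h1)).inv
  exact Measurable.ite hD h2 measurable_const
theorem card_toD_smul (γ : SL) (τ : ℍ) :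
    Nat.card {δ : SL // δ • γ • τ ∈ 𝒟} = Nat.card {δ : SL // δ • τ ∈ 𝒟} :=
  Nat.card_congr ((Equiv.mulRight γ).subtypeEquiv fun δ => by simp [mul_smul])
theorem b0_sum (τ : ℍ) : ∑ᶠ γ : SL, b0 (γ • τ) = 1 := by
  have h0 := card_toD_ne_zero τ
  rw [finsum_eq_sum_of_support_subset (s := (finite_toD τ).toFinset)]
  · rw [Finset.sum_congr rfl (g := fun _ => ((Nat.card {δ : SL // δ • τ ∈ 𝒟} : ℝ))⁻¹)]
    · rw [Finset.sum_const, nsmul_eq_mul, ← Set.ncard_eq_toFinset_card _ (finite_toD τ)]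
      exact mul_inv_cancel₀ (by exact_mod_cast h0)
    · intro γ hγ
      rw [Set.Finite.mem_toFinset] at hγ
      rw [b0, if_pos (show γ • τ ∈ 𝒟 from hγ), card_toD_smul]
  · intro γ hγ
    simpa using (b0_ne_zero_iff _).1 hγ

end

end Pool.Agent.P.MP_b8021b_nt.CM
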