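import Pool.Agent.P.MP_b8021b_nt.CM.Defs

/-! Library L2, first half: exponentials, integrality, groups, formulas for the action. -/

namespace Pool.Agent.P.MP_b8021b_nt.CM

open Complex hiding Gamma
open UpperHalfPlane hiding I
open CongruenceSubgroup Function
open scoped Real MatrixGroups Modular Topology

noncomputable section

/-! ### exponentials -/

theorem e_add (z w : ℂ) : e (z + w) = e z * e w := by
  simp only [e, mul_add, Complex.exp_add]
theorem e_zero : e 0 = 1 := by simp [e]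
theorem e_ne_zero (z : ℂ) : e z ≠ 0 := Complex.exp_ne_zero _
theorem e_int (n : ℤ) : e n = 1 := by
  rw [e, mul_comm]; exact Complex.exp_int_mul_two_pi_mul_I n
theorem e_eq_one_iff (z : ℂ) : e z = 1 ↔ ∃ n : ℤ, z = n := by
  rw [e, Complex.exp_eq_one_iff]
  refine exists_congr fun n => ?_
  constructor
  · intro h
    have h2 : (2 * π * I : ℂ) ≠ 0 := Complex.two_pi_I_ne_zero
    apply mul_left_cancel₀ h2
    rw [h, mul_comm]
  · rintro rfl; ring
theorem norm_e (z : ℂ) : ‖e z‖ = Real.exp (-2 * π * z.im) := by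
  rw [e, Complex.norm_exp]; congr 1; simp
theorem e_nat_mul (n : ℕ) (z : ℂ) : e (n * z) = e z ^ n := by
  rw [e, e, ← Complex.exp_nat_mul]; congr 1; ring
theorem eq_add (a b : ℚ) : eq (a + b) = eq a * eq b := by
  simp only [eq, Rat.cast_add, e_add]
theorem eq_zero : eq 0 = 1 := by simp [eq, e_zero]
theorem norm_eq (a : ℚ) : ‖eq a‖ = 1 := by
  rw [eq, norm_e]; simp
theorem isInt_rat (a : ℚ) : IsInt a ↔ ∃ n : ℤ, a = n :=
  ⟨fun ⟨n, h⟩ => ⟨n, h.symm⟩, fun ⟨n, h⟩ => ⟨n, h.symm⟩⟩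
theorem eq_eq_one_iff (a : ℚ) : eq a = 1 ↔ IsInt a := by
  rw [eq, e_eq_one_iff, isInt_rat]
  refine exists_congr fun n => ?_
  exact_mod_cast Iff.rfl
theorem conj_eq (a : ℚ) : (starRingEnd ℂ) (eq a) = eq (-a) := by
  rw [eq, eq, e, e, ← Complex.exp_conj]
  congr 1
  simp [map_ofNat]
theorem eq_int (n : ℤ) : eq n = 1 := (eq_eq_one_iff _).2 ((isInt_rat _).2 ⟨n, rfl⟩)
theorem eq_ne_zero (a : ℚ) : eq a ≠ 0 := e_ne_zero _
theorem eM_intCast (M : ℕ) [NeZero M] (a : ℤ) : eM M (a : ZMod M) = eq ((a : ℚ) / M) := by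
  have hM : (M : ℚ) ≠ 0 := by exact_mod_cast NeZero.ne M
  have h1 : (((a : ZMod M).val : ℤ) : ℚ) = ((a % M : ℤ) : ℚ) := by rw [ZMod.val_intCast]
  have h2 : ((a % M + M * (a / M) : ℤ) : ℚ) = a := by rw [Int.emod_add_mul_ediv]
  have h3 : (a : ℚ) / M = ((a : ZMod M).val : ℚ) / M + ((a / M : ℤ) : ℚ) := by
    push_cast at h1 h2
    rw [h1]; field_simp; linarith
  rw [h3, eq_add, eq_int, mul_one, eM]
theorem eM_add (M : ℕ) [NeZero M] (a b : ZMod M) : eM M (a + b) = eM M a * eM M b := by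
  obtain ⟨a, rfl⟩ := ZMod.intCast_surjective a
  obtain ⟨b, rfl⟩ := ZMod.intCast_surjective b
  rw [← Int.cast_add, eM_intCast, eM_intCast, eM_intCast, ← eq_add]
  congr 1; push_cast; ring
theorem eM_zero (M : ℕ) : eM M 0 = 1 := by simp [eM, eq_zero]
theorem eM_eq_stdAddChar (M : ℕ) [NeZero M] (a : ZMod M) : eM M a = ZMod.stdAddChar a := by
  obtain ⟨a, rfl⟩ := ZMod.intCast_surjective a
  rw [eM_intCast, ZMod.stdAddChar_coe, eq, e]
  congr 1; push_cast; ring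
theorem sum_eM (M : ℕ) [NeZero M] (a : ZMod M) :
    ∑ x : ZMod M, eM M (x * a) = if a = 0 then (M : ℂ) else 0 := by
  simp only [eM_eq_stdAddChar]
  rw [AddChar.sum_mulShift a (ZMod.isPrimitive_stdAddChar M)]
  split_ifs <;> simp [ZMod.card]

/-! ### integrality -/

theorem isInt_prod {W W' : Type} [AddCommGroup W] [Module ℚ W] [Lat W] [AddCommGroup W']
    [Module ℚ W'] [Lat W'] (x : W × W') : IsInt x ↔ IsInt x.1 ∧ IsInt x.2 := Iff.rfl
theorem isInt_M2' (Y : M2) : IsInt Y ↔ ∀ i j, IsInt (Y i j) :=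
  ⟨fun h i j => h i trivial j trivial, fun h i _ j _ => h i j⟩
theorem isInt_M2 (Y : M2) : IsInt Y ↔ ∃ Z : Z2, castZ Z = Y := by
  rw [isInt_M2']
  constructor
  · intro h
    choose Z hZ using fun i j => (isInt_rat _).1 (h i j)
    exact ⟨Matrix.of Z, by ext i j; simp [castZ, hZ]⟩
  · rintro ⟨Z, rfl⟩ i j
    exact (isInt_rat _).2 ⟨Z i j, rfl⟩
theorem castZ_apply (Y : Z2) (i j : Fin 2) : castZ Y i j = (Y i j : ℚ) := rfl
attribute [local simp] castZ_apply
theorem red_apply (M : ℕ) (Y : Z2) (i j : Fin 2) : red M Y i j = (Y i j : ZMod M) := rfl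
theorem castZ_injective : Injective castZ := fun Y Z h => by
  ext i j
  have := congrFun (congrFun h i) j
  simpa using this
theorem castZ_mul (Y Z : Z2) : castZ (Y * Z) = castZ Y * castZ Z :=
  Matrix.map_mul (f := Int.castRingHom ℚ)
theorem castZ_add (Y Z : Z2) : castZ (Y + Z) = castZ Y + castZ Z := by
  ext i j; simp
theorem castZ_smul (a : ℤ) (Y : Z2) : castZ (a • Y) = (a : ℚ) • castZ Y := by
  ext i j; simp only [castZ_apply, Matrix.smul_apply, smul_eq_mul, Int.cast_mul]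
theorem castZ_one : castZ 1 = 1 := by
  ext i j; fin_cases i <;> fin_cases j <;> simp
theorem castZ_det (Y : Z2) : (castZ Y).det = (Y.det : ℚ) := by
  simp [Matrix.det_fin_two]
theorem red_mul (M : ℕ) (Y Z : Z2) : red M (Y * Z) = red M Y * red M Z :=
  Matrix.map_mul (f := Int.castRingHom (ZMod M))
theorem red_det (M : ℕ) (Y : Z2) : (red M Y).det = (Y.det : ZMod M) := by
  simp [Matrix.det_fin_two, red_apply]
theorem red_eq_iff (M : ℕ) (Y Z : Z2) : red M Y = red M Z ↔ ∃ K : Z2, Y = Z + (M : ℤ) • K := by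
  constructor
  · intro h
    have h1 : ∀ i j, ∃ k : ℤ, Y i j = Z i j + M * k := fun i j => by
      have := congrFun (congrFun h i) j
      rw [red_apply, red_apply, eq_comm, ZMod.intCast_eq_intCast_iff_dvd_sub] at this
      obtain ⟨k, hk⟩ := this
      exact ⟨k, by linarith⟩
    choose K hK using h1
    exact ⟨Matrix.of K, by ext i j; simp [hK i j]⟩
  · rintro ⟨K, rfl⟩
    ext i j
    simp only [red_apply, Matrix.add_apply, Matrix.smul_apply, smul_eq_mul, Int.cast_add,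
      Int.cast_mul, Int.cast_natCast, ZMod.natCast_self, zero_mul, add_zero]
theorem mem_Gamma_iff_red (M : ℕ) (γ : SL) : γ ∈ Gamma M ↔ red M γ.1 = 1 := by
  rw [Gamma_mem, ← Matrix.ext_iff]
  simp [Fin.forall_fin_two, red_apply, and_assoc]

/-! ### groups -/

theorem iota_val (γ : SL) : (iota γ).1 = castZ γ.1 := rfl
theorem iota_injective : Injective iota := fun γ δ h => by
  have : castZ γ.1 = castZ δ.1 := by rw [← iota_val, ← iota_val, h]
  exact Subtype.ext (castZ_injective this)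
theorem mem_G0 (g : GQ) : g ∈ G0 ↔ IsInt g.1 ∧ g.1.det = 1 := by
  constructor
  · rintro ⟨γ, rfl⟩
    refine ⟨(isInt_M2 _).2 ⟨γ.1, rfl⟩, ?_⟩
    rw [iota_val, castZ_det, γ.det_coe]; simp
  · rintro ⟨h1, h2⟩
    obtain ⟨Z, hZ⟩ := (isInt_M2 _).1 h1
    have h3 : Z.det = 1 := by
      have := castZ_det Z
      rw [hZ, h2] at this
      exact_mod_cast this.symm
    exact ⟨⟨Z, h3⟩, Units.ext hZ⟩
theorem Gam_one : Gam 1 = G0 := by
  rw [Gam, Gamma_one_top, G0, MonoidHom.range_eq_map]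
theorem Gamma_le {M N : ℕ} (h : M ∣ N) : Gamma N ≤ Gamma M := by
  intro γ hγ
  rw [mem_Gamma_iff_red] at hγ ⊢
  have h1 : ∀ K : ℕ, red K (1 : Z2) = 1 := fun K => by
    ext i j; fin_cases i <;> fin_cases j <;> simp [red_apply]
  rw [← h1, red_eq_iff] at hγ ⊢
  obtain ⟨K, hK⟩ := hγ
  obtain ⟨c, rfl⟩ := h
  exact ⟨(c : ℤ) • K, by rw [hK, smul_smul]; push_cast; rfl⟩
theorem Gam_le {M N : ℕ} (h : M ∣ N) : Gam N ≤ Gam M := Subgroup.map_mono (Gamma_le h)
theorem relIndex_Gam (M : ℕ) : (Gam M).relIndex G0 = (Gamma M).index := by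
  rw [Gam, G0, MonoidHom.range_eq_map, Subgroup.relIndex_map_map_of_injective _ _ iota_injective,
    Subgroup.relIndex_top_right]
theorem Gam_le_G0 (M : ℕ) : Gam M ≤ G0 := Gam_one ▸ Gam_le (one_dvd M)
theorem index_Gamma_ne_zero {M : ℕ} (h : 0 < M) : (Gamma M).index ≠ 0 := by
  have : NeZero M := ⟨h.ne'⟩
  exact Subgroup.FiniteIndex.index_ne_zero
theorem fi_Gam {M : ℕ} (h : 0 < M) : FI (Gam M) G0 :=
  ⟨Gam_le_G0 M, by rw [relIndex_Gam]; exact index_Gamma_ne_zero h⟩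
theorem relIndex_Gam2 (M N : ℕ) :
    ((Gam M).prod (Gam N)).relIndex GG0 = (Gamma M).index * (Gamma N).index := by
  have h1 : (Gam M).prod (Gam N) = ((Gamma M).prod (Gamma N)).map (iota.prodMap iota) := by
    ext ⟨a, b⟩
    simp only [Gam, Subgroup.mem_prod, Subgroup.mem_map, Prod.exists, MonoidHom.coe_prodMap,
      Prod.map_apply, Prod.mk.injEq]
    constructor
    · rintro ⟨⟨x, hx, rfl⟩, y, hy, rfl⟩; exact ⟨x, y, ⟨hx, hy⟩, rfl, rfl⟩
    · rintro ⟨x, y, ⟨hx, hy⟩, rfl, rfl⟩; exact ⟨⟨x, hx, rfl⟩, y, hy, rfl⟩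
  have h2 : GG0 = (⊤ : Subgroup (SL × SL)).map (iota.prodMap iota) := by
    ext ⟨a, b⟩
    simp only [GG0, G0, Subgroup.mem_prod, Subgroup.mem_map, Prod.exists, MonoidHom.coe_prodMap,
      Prod.map_apply, Prod.mk.injEq, MonoidHom.mem_range, Subgroup.mem_top, true_and]
    constructor
    · rintro ⟨⟨x, rfl⟩, y, rfl⟩; exact ⟨x, y, rfl, rfl⟩
    · rintro ⟨x, y, rfl, rfl⟩; exact ⟨⟨x, rfl⟩, y, rfl⟩
  have h3 : Injective (iota.prodMap iota) := iota_injective.prodMap iota_injective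
  rw [h1, h2, Subgroup.relIndex_map_map_of_injective _ _ h3, Subgroup.relIndex_top_right,
    Subgroup.index_prod]
theorem fi_Gam2 {M N : ℕ} (h : 0 < M) (h' : 0 < N) : FI ((Gam M).prod (Gam N)) GG0 :=
  ⟨Subgroup.prod_mono (Gam_le_G0 M) (Gam_le_G0 N), by
    rw [relIndex_Gam2]; exact mul_ne_zero (index_Gamma_ne_zero h) (index_Gamma_ne_zero h')⟩
theorem toG_val {Y : M2} (h : Y.det ≠ 0) : (toG Y).1 = Y := by
  rw [toG, dif_pos h]; rfl
theorem GQ_det_ne (g : GQ) : g.1.det ≠ 0 := g.det_ne_zero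
theorem toG_self (g : GQ) : toG g.1 = g := Units.ext (toG_val (GQ_det_ne g))
theorem nn_val (b : ℚ) : (nn b).1 = !![1, b; 0, 1] := toG_val (by simp)

/-! ### formulas for the action -/

theorem toR_apply (g : GQ) (i j : Fin 2) : toR g i j = (g.1 i j : ℝ) := rfl
theorem actH_apply (g : GQ) (τ : ℍ) : actH g τ = toR g • τ := rfl
theorem toR_det (g : GQ) : (toR g).1.det = (g.1.det : ℝ) := by
  simp [Matrix.det_fin_two, toR_apply]
theorem actH_iota (γ : SL) (τ : ℍ) : actH (iota γ) τ = γ • τ := by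
  rw [actH_apply]
  have : toR (iota γ) = Matrix.SpecialLinearGroup.mapGL ℝ γ := by
    ext i j; rw [toR_apply, iota_val]; simp
  rw [this]; rfl
theorem levU_iff (N : ℕ) (u : ℍ → ℂ) : LevU N u ↔ Inv actH (Gam N) u := by
  constructor
  · rintro h _ ⟨γ, hγ, rfl⟩ τ
    rw [actH_iota]; exact h γ hγ τ
  · intro h γ hγ τ
    rw [← actH_iota]; exact h _ ⟨γ, hγ, rfl⟩ τ
theorem LevU.mono {M N : ℕ} {u : ℍ → ℂ} (h : LevU M u) (hd : M ∣ N) : LevU N u :=
  fun γ hγ τ => h γ (Gamma_le hd hγ) τ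
theorem act_val (g : GQ) (τ : ℍ) : act g.1 τ = actH g τ := by rw [act, toG_self]
theorem act_SL (γ : SL) (τ : ℍ) : act (castZ γ.1) τ = γ • τ := by
  rw [← iota_val, act_val, actH_iota]
theorem toG_mul {Y Z : M2} (hY : Y.det ≠ 0) (hZ : Z.det ≠ 0) : toG (Y * Z) = toG Y * toG Z := by
  apply Units.ext
  rw [Units.val_mul, toG_val hY, toG_val hZ, toG_val]
  rw [Matrix.det_mul]; exact mul_ne_zero hY hZ
theorem act_mul {Y Z : M2} (hY : Y.det ≠ 0) (hZ : Z.det ≠ 0) (τ : ℍ) :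
    act (Y * Z) τ = act Y (act Z τ) := by
  rw [act, toG_mul hY hZ, map_mul]; rfl
theorem toG_one : toG 1 = 1 := toG_self 1
theorem act_one (τ : ℍ) : act 1 τ = τ := by rw [act, toG_one, map_one]; rfl
theorem act_scalar {a : ℚ} (ha : a ≠ 0) (τ : ℍ) : act (a • (1 : M2)) τ = τ := by
  have h0 : (a • (1 : M2)).det ≠ 0 := by simp [ha]
  have h1 : (a : ℝ) ≠ 0 := by exact_mod_cast ha
  have : toR (toG (a • (1 : M2))) = Matrix.GeneralLinearGroup.scalar (Fin 2) (Units.mk0 _ h1) := by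
    ext i j
    rw [toR_apply, toG_val h0]
    fin_cases i <;> fin_cases j <;> simp
  rw [act, actH_apply, this, glScalar_smul]
theorem act_smul {a : ℚ} (ha : a ≠ 0) (Y : M2) (τ : ℍ) : act (a • Y) τ = act Y τ := by
  by_cases h : Y.det = 0
  · have h' : (a • Y).det = 0 := by simp [h]
    simp only [act, toG, h, h', ne_eq, not_true_eq_false, dite_false]
  · have h0 : (a • (1 : M2)).det ≠ 0 := by simp [ha]
    rw [← act_scalar ha (act Y τ), ← act_mul h0 h]; simp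
theorem denom_toG {Y : M2} (h : Y.det ≠ 0) (z : ℂ) :
    denom (toR (toG Y)) z = (Y 1 0 : ℂ) * z + Y 1 1 := by
  simp [denom, toR_apply, toG_val h]
theorem num_toG {Y : M2} (h : Y.det ≠ 0) (z : ℂ) :
    num (toR (toG Y)) z = (Y 0 0 : ℂ) * z + Y 0 1 := by
  simp [num, toR_apply, toG_val h]
theorem den_ne_zero {Y : M2} (h : Y.det ≠ 0) (τ : ℍ) : (Y 1 0 : ℂ) * τ + Y 1 1 ≠ 0 := by
  rw [← denom_toG h]; exact denom_ne_zero _ _
theorem det_toR_toG {Y : M2} (h : Y.det ≠ 0) : (toR (toG Y)).1.det = (Y.det : ℝ) := by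
  rw [toR_det, toG_val h]
theorem coe_act {Y : M2} (h : 0 < Y.det) (τ : ℍ) :
    (act Y τ : ℂ) = ((Y 0 0 : ℂ) * τ + Y 0 1) / ((Y 1 0 : ℂ) * τ + Y 1 1) := by
  rw [act, actH_apply, coe_smul_of_det_pos, num_toG h.ne', denom_toG h.ne']
  rw [Matrix.GeneralLinearGroup.val_det_apply, det_toR_toG h.ne']
  exact_mod_cast h
theorem im_act {Y : M2} (h : 0 < Y.det) (τ : ℍ) :
    (act Y τ).im = (Y.det : ℝ) * τ.im / ‖(Y 1 0 : ℂ) * τ + Y 1 1‖ ^ 2 := by
  rw [act, actH_apply, im_smul_eq_div_normSq, denom_toG h.ne',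
    Matrix.GeneralLinearGroup.val_det_apply, det_toR_toG h.ne', abs_of_pos (by exact_mod_cast h),
    Complex.normSq_eq_norm_sq]
theorem act_eq_iff {Y : M2} (h : 0 < Y.det) (τ σ : ℍ) :
    act Y τ = σ ↔ (σ : ℂ) * ((Y 1 0 : ℂ) * τ + Y 1 1) = (Y 0 0 : ℂ) * τ + Y 0 1 := by
  rw [UpperHalfPlane.ext_iff, coe_act h, div_eq_iff (den_ne_zero h.ne' τ), eq_comm]
theorem continuous_actH (g : GQ) : Continuous (actH g) := continuous_const_smul (toR g)
theorem continuous_act (Y : M2) : Continuous (act Y) := continuous_actH _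
theorem continuous_SL (γ : SL) : Continuous fun τ : ℍ => γ • τ := by
  simpa only [← actH_iota] using continuous_actH (iota γ)
theorem coe_nn (b : ℚ) (τ : ℍ) : (actH (nn b) τ : ℂ) = τ + b := by
  rw [← act_val, nn_val, coe_act (by simp)]; simp
theorem coe_dil {j : ℚ} (h : 0 < j) (τ : ℍ) : (dil j τ : ℂ) = j * τ := by
  rw [dil, coe_act (by simpa using h)]; simp
theorem coe_S (τ : ℍ) : ((ModularGroup.S • τ : ℍ) : ℂ) = -1 / τ := by
  rw [modular_S_smul]; simp [neg_div, inv_neg]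
theorem coe_T (τ : ℍ) : ((ModularGroup.T • τ : ℍ) : ℂ) = τ + 1 := by
  rw [modular_T_smul]; simp [add_comm]
theorem det_castZ_SL (γ : SL) : (castZ γ.1).det = 1 := by rw [castZ_det, γ.det_coe]; simp
theorem jf_eq (γ : SL) (τ : ℍ) : jf γ τ = (castZ γ.1 1 0 : ℂ) * τ + castZ γ.1 1 1 := by simp [jf]
theorem jf_ne_zero (γ : SL) (τ : ℍ) : jf γ τ ≠ 0 := by
  rw [jf_eq]; exact den_ne_zero (by rw [det_castZ_SL]; exact one_ne_zero) τ
theorem coe_SL (γ : SL) (τ : ℍ) :
    ((γ • τ : ℍ) : ℂ) = (((γ 0 0 : ℤ) : ℂ) * τ + (γ 0 1 : ℤ)) / jf γ τ := by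
  rw [← act_SL, coe_act (by rw [det_castZ_SL]; exact one_pos), jf_eq]; simp
theorem jf_mul (γ δ : SL) (τ : ℍ) : jf (γ * δ) τ = jf γ (δ • τ) * jf δ τ := by
  have h := jf_ne_zero δ τ
  rw [jf, jf, coe_SL, add_mul, mul_assoc, div_mul_cancel₀ _ h]
  simp [jf, Matrix.mul_apply, Fin.sum_univ_two]; ring
theorem jf_S (τ : ℍ) : jf ModularGroup.S τ = τ := by simp [jf, ModularGroup.S]
theorem jf_T (τ : ℍ) : jf ModularGroup.T τ = 1 := by simp [jf, ModularGroup.T]
theorem jf_one (τ : ℍ) : jf 1 τ = 1 := by simp [jf]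
theorem im_SL (γ : SL) (τ : ℍ) : (γ • τ).im = τ.im / ‖jf γ τ‖ ^ 2 := by
  rw [← act_SL, im_act (by rw [det_castZ_SL]; exact one_pos), jf_eq, det_castZ_SL]; simp
theorem one_le_jf (γ : SL) {τ : ℍ} (h : τ ∈ 𝒟) : 1 ≤ ‖jf γ τ‖ := by
  obtain ⟨h1, h2⟩ := h
  have hd := γ.det_coe
  rw [Matrix.det_fin_two] at hd
  set c := γ.1 1 0 with hc
  set d := γ.1 1 1 with hd'
  have hcd : (1 : ℤ) ≤ c ^ 2 - |c| * |d| + d ^ 2 := by
    have h0 : c ≠ 0 ∨ d ≠ 0 := by
      by_contra hh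
      push Not at hh
      rw [hh.1, hh.2] at hd; simp at hd
    rw [← sq_abs c, ← sq_abs d]
    rcases h0 with h0 | h0
    · have := Int.one_le_abs h0
      nlinarith [sq_nonneg (|c| - 2 * |d|), abs_nonneg d]
    · have := Int.one_le_abs h0
      nlinarith [sq_nonneg (2 * |c| - |d|), abs_nonneg c]
  have hcd' : (1 : ℝ) ≤ (c : ℝ) ^ 2 - |(c : ℝ)| * |(d : ℝ)| + (d : ℝ) ^ 2 := by exact_mod_cast hcd
  have e1 : ‖jf γ τ‖ ^ 2 = (c : ℝ) ^ 2 * normSq τ + 2 * (c * d * τ.re) + d ^ 2 := by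
    rw [← Complex.normSq_eq_norm_sq]
    simp [jf, normSq_apply, ← hc, ← hd']; ring
  have h3 : |(c : ℝ) * d * τ.re| ≤ |(c : ℝ)| * |(d : ℝ)| * (1 / 2) := by
    rw [abs_mul, abs_mul]; gcongr
  have h4 := neg_abs_le ((c : ℝ) * d * τ.re)
  have h5 : (c : ℝ) ^ 2 ≤ (c : ℝ) ^ 2 * normSq τ := le_mul_of_one_le_right (sq_nonneg _) h1
  have h6 : 1 ≤ ‖jf γ τ‖ ^ 2 := by rw [e1]; linarith
  exact (one_le_sq_iff₀ (norm_nonneg _)).1 h6
theorem coe_pt (u : ℝ) {y : ℝ} (h : 0 < y) : (pt u y : ℂ) = u + y * I := by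
  rw [pt, ofComplex_apply_of_im_pos (by simpa using h)]
theorem pt_self (τ : ℍ) : pt τ.re τ.im = τ := by
  rw [pt, UpperHalfPlane.re_add_im, ofComplex_apply]
theorem continuous_pt {y : ℝ} (h : 0 < y) : Continuous fun u => pt u y := by
  rw [isOpenEmbedding_coe.isInducing.continuous_iff]
  have : (UpperHalfPlane.coe ∘ fun u => pt u y) = fun u : ℝ => (u : ℂ) + y * I :=
    funext fun u => coe_pt u h
  rw [this]; fun_prop
theorem measurable_ofComplex : Measurable (ofComplex : ℂ → ℍ) := by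
  rw [← measurableEmbedding_coe.measurable_comp_iff]
  have : (UpperHalfPlane.coe ∘ (ofComplex : ℂ → ℍ)) =
      fun w : ℂ => if 0 < w.im then w else ((Classical.choice inferInstance : ℍ) : ℂ) := by
    funext w
    simp only [comp_apply, ofComplex_apply_eq_ite]
    split_ifs <;> rfl
  rw [this]
  exact Measurable.ite (measurableSet_lt measurable_const Complex.measurable_im) measurable_id
    measurable_const
theorem measurable_pt : Measurable fun p : ℝ × ℝ => pt p.1 p.2 :=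
  measurable_ofComplex.comp (by fun_prop)
theorem vm_mul (w : Q2) (γ δ : SL) : vm w (γ * δ) = vm (vm w γ) δ := by
  ext <;> simp [vm, Matrix.mul_apply, Fin.sum_univ_two] <;> ring
theorem vm_one (w : Q2) : vm w 1 = w := by
  ext <;> simp [vm]
theorem lin_smul (w : Q2) (γ : SL) (τ : ℍ) : lin w (γ • τ) = lin (vm w γ) τ / jf γ τ := by
  have h := jf_ne_zero γ τ
  rw [lin, coe_SL, eq_div_iff h, add_mul, mul_assoc, div_mul_cancel₀ _ h]
  simp [jf, lin, vm]; ring
theorem gau_smul (w : Q2) (γ : SL) (τ : ℍ) (t : ℝ) : gau w (γ • τ) t = gau (vm w γ) τ t := by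
  have h : ‖jf γ τ‖ ≠ 0 := norm_ne_zero_iff.2 (jf_ne_zero γ τ)
  have h' := τ.im_pos.ne'
  rw [gau, gau, lin_smul, im_SL, norm_div]
  congr 2
  field_simp

/-- induction over the generators; the second form is for laws of the shape
`F v (γ τ) = j * F (ρ γ v) τ` -/
theorem SL_induction {P : SL → Prop} (hS : P ModularGroup.S) (hT : P ModularGroup.T)
    (hT' : P ModularGroup.T⁻¹) (hmul : ∀ γ δ, P γ → P δ → P (γ * δ)) (γ : SL) : P γ := by
  have h1 : P 1 := by simpa using hmul _ _ hT hT'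
  have hS' : P ModularGroup.S⁻¹ := by
    have : ModularGroup.S⁻¹ = ModularGroup.S * (ModularGroup.S * ModularGroup.S) := by decide
    rw [this]; exact hmul _ _ hS (hmul _ _ hS hS)
  have hγ : γ ∈ Subgroup.closure ({ModularGroup.S, ModularGroup.T} : Set SL) := by
    rw [SpecialLinearGroup.SL2Z_generators]; trivial
  induction hγ using Subgroup.closure_induction'' with
  | one => exact h1
  | mem x hx => rcases hx with rfl | rfl; exacts [hS, hT]
  | inv_mem x hx => rcases hx with rfl | rfl; exacts [hS', hT']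
  | mul x y _ _ hx hy => exact hmul _ _ hx hy

end

end Pool.Agent.P.MP_b8021b_nt.CM
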