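import Pool.Agent.P.MP_b8021b_nt.CM.Defs

/-! Convolutions on the plane with exponential bounds (tools for the package Asm). -/

namespace Pool.Agent.P.MP_b8021b_nt.CM

open Complex hiding Gamma
open MeasureTheory Filter
open scoped Real Topology

noncomputable section

namespace AsmP

def dot (x α : ℝ × ℝ) : ℝ := x.1 * α.1 + x.2 * α.2

/-- measurable with exponent `x` -/
def EX (F : ℝ × ℝ → ℂ) (x : ℝ × ℝ) : Prop := Measurable F ∧ Expo F x

/-- exponential moment -/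
def Mo (k : ℝ → ℂ) (t : ℝ) : Prop :=
  Measurable k ∧ Integrable fun u => ‖k u‖ * Real.exp (t * u)

theorem int_abs {ε : ℝ} (h : 0 < ε) : Integrable fun u : ℝ => Real.exp (-(ε * |u|)) := by
  rw [← integrableOn_univ, ← Set.Iic_union_Ioi (a := (0 : ℝ)), integrableOn_union]
  constructor
  · refine (integrableOn_exp_mul_Iic h 0).congr_fun (fun u hu => ?_) measurableSet_Iic
    simp only [Set.mem_Iic] at hu
    simp only [abs_of_nonpos hu]; congr 1; ring
  · refine (integrableOn_exp_mul_Ioi (neg_lt_zero.2 h) 0).congr_fun (fun u hu => ?_)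
      measurableSet_Ioi
    simp only [Set.mem_Ioi] at hu
    simp only [abs_of_pos hu]; congr 1; ring

theorem mo_of {k : ℝ → ℂ} (hk : Measurable k) {t ε C1 C2 : ℝ} (hε : 0 < ε)
    (h1 : ∀ u, ‖k u‖ ≤ C1 * Real.exp (-((t - ε) * u)))
    (h2 : ∀ u, ‖k u‖ ≤ C2 * Real.exp (-((t + ε) * u))) : Mo k t := by
  refine ⟨hk, ?_⟩
  refine ((int_abs hε).const_mul (|C1| + |C2|)).mono' ?_ (Eventually.of_forall fun u => ?_)
  · exact (hk.norm.mul (by fun_prop)).aestronglyMeasurable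
  · rw [Real.norm_of_nonneg (by positivity)]
    have e0 := Real.exp_pos (t * u)
    have e1 := Real.exp_pos (-(ε * |u|))
    rcases le_total u 0 with hu | hu
    · have : Real.exp (-((t - ε) * u)) * Real.exp (t * u) = Real.exp (-(ε * |u|)) := by
        rw [← Real.exp_add, abs_of_nonpos hu]; congr 1; ring
      calc ‖k u‖ * Real.exp (t * u) ≤ C1 * Real.exp (-((t - ε) * u)) * Real.exp (t * u) :=
            mul_le_mul_of_nonneg_right (h1 u) e0.le
        _ = C1 * Real.exp (-(ε * |u|)) := by rw [mul_assoc, this]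
        _ ≤ _ := mul_le_mul_of_nonneg_right
            (by linarith [le_abs_self C1, abs_nonneg C2]) e1.le
    · have : Real.exp (-((t + ε) * u)) * Real.exp (t * u) = Real.exp (-(ε * |u|)) := by
        rw [← Real.exp_add, abs_of_nonneg hu]; congr 1; ring
      calc ‖k u‖ * Real.exp (t * u) ≤ C2 * Real.exp (-((t + ε) * u)) * Real.exp (t * u) :=
            mul_le_mul_of_nonneg_right (h2 u) e0.le
        _ = C2 * Real.exp (-(ε * |u|)) := by rw [mul_assoc, this]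
        _ ≤ _ := mul_le_mul_of_nonneg_right
            (by linarith [le_abs_self C2, abs_nonneg C1]) e1.le

theorem mo_half {k : ℝ → ℂ} (h : Half k) {t : ℝ} (ht : 0 < t) : Mo k t := by
  obtain ⟨C1, h1⟩ := h.2 (t - t) (by simp)
  obtain ⟨C2, h2⟩ := h.2 (t + t) (by linarith)
  exact mo_of h.1 ht h1 h2

theorem mo_full {k : ℝ → ℂ} (h : Full k) (t : ℝ) : Mo k t := by
  obtain ⟨C1, h1⟩ := h.2 (t - 1)
  obtain ⟨C2, h2⟩ := h.2 (t + 1)
  exact mo_of h.1 one_pos h1 h2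

theorem Mo.shift {k : ℝ → ℂ} {t : ℝ} (h : Mo k t) (c : ℝ) : Mo (fun u => k (u + c)) t := by
  refine ⟨h.1.comp (measurable_add_const c), ?_⟩
  have h1 := (h.2.comp_add_right c).mul_const (Real.exp (-(t * c)))
  refine h1.congr (Eventually.of_forall fun u => ?_)
  simp only
  rw [mul_assoc, ← Real.exp_add]; congr 2; ring

theorem Mo.add {k l : ℝ → ℂ} {t : ℝ} (h : Mo k t) (h' : Mo l t) : Mo (fun u => k u + l u) t := by
  refine ⟨h.1.add h'.1, ?_⟩
  refine (h.2.add h'.2).mono' ?_ (Eventually.of_forall fun u => ?_)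
  · exact ((h.1.add h'.1).norm.mul (by fun_prop)).aestronglyMeasurable
  · rw [Real.norm_of_nonneg (by positivity)]
    simp only [Pi.add_apply]
    rw [← add_mul]
    exact mul_le_mul_of_nonneg_right (norm_add_le _ _) (Real.exp_pos _).le

theorem Mo.cmul {k : ℝ → ℂ} {t : ℝ} (h : Mo k t) (a : ℂ) : Mo (fun u => a * k u) t := by
  refine ⟨h.1.const_mul a, ?_⟩
  refine (h.2.const_mul ‖a‖).congr (Eventually.of_forall fun u => ?_)
  simp only [norm_mul]; ring

/-- `flat` with a general step -/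
def fl (c : ℝ) (k : ℝ → ℂ) (u : ℝ) : ℂ :=
  k u + (-(1 + cexp 1)) * k (u + 2 * c) + cexp 1 * k (u + 4 * c)

theorem flat_eq (k : ℝ → ℂ) : flat k = fl 1 k := by
  funext u; simp only [flat, fl, mul_one]; ring

theorem Mo.fl {k : ℝ → ℂ} {t : ℝ} (h : Mo k t) (c : ℝ) : Mo (fl c k) t :=
  (h.add ((h.shift _).cmul _)).add ((h.shift _).cmul _)

theorem expo_iff {F : ℝ × ℝ → ℂ} {x : ℝ × ℝ} :
    Expo F x ↔ ∃ C : ℝ, 0 ≤ C ∧ ∀ ξ, ‖F ξ‖ ≤ C * Real.exp (-dot x ξ) := by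
  constructor
  · rintro ⟨C, h⟩
    exact ⟨|C|, abs_nonneg _, fun ξ => (h ξ).trans
      (mul_le_mul_of_nonneg_right (le_abs_self C) (Real.exp_pos _).le)⟩
  · rintro ⟨C, -, h⟩
    exact ⟨C, h⟩

theorem EX.add {F G : ℝ × ℝ → ℂ} {x : ℝ × ℝ} (h : EX F x) (h' : EX G x) :
    EX (fun ξ => F ξ + G ξ) x := by
  obtain ⟨C, hC⟩ := h.2
  obtain ⟨D, hD⟩ := h'.2
  refine ⟨h.1.add h'.1, C + D, fun ξ => (norm_add_le _ _).trans ?_⟩
  rw [add_mul]; exact add_le_add (hC ξ) (hD ξ)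

theorem EX.cmul {F : ℝ × ℝ → ℂ} {x : ℝ × ℝ} (h : EX F x) (a : ℂ) :
    EX (fun ξ => a * F ξ) x := by
  obtain ⟨C, hC⟩ := h.2
  refine ⟨h.1.const_mul a, ‖a‖ * C, fun ξ => ?_⟩
  rw [norm_mul, mul_assoc]; exact mul_le_mul_of_nonneg_left (hC ξ) (norm_nonneg _)

theorem EX.shift {F : ℝ × ℝ → ℂ} {x : ℝ × ℝ} (h : EX F x) (b : ℝ × ℝ) :
    EX (fun ξ => F (ξ + b)) x := by
  obtain ⟨C, hC⟩ := h.2
  refine ⟨h.1.comp (measurable_add_const b), C * Real.exp (-dot x b), fun ξ => (hC _).trans ?_⟩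
  rw [mul_assoc, ← Real.exp_add]
  refine le_of_eq ?_
  congr 2; simp only [dot, Prod.fst_add, Prod.snd_add]; ring

theorem EX.sum {m : ℕ} {F : Fin m → ℝ × ℝ → ℂ} {x : ℝ × ℝ} (h : ∀ i, EX (F i) x) :
    EX (fun ξ => ∑ i, F i ξ) x := by
  choose C hC using fun i => (h i).2
  refine ⟨Finset.measurable_sum _ fun i _ => (h i).1, ∑ i, C i, fun ξ => ?_⟩
  rw [Finset.sum_mul]
  exact (norm_sum_le _ _).trans (Finset.sum_le_sum fun i _ => hC i ξ)

theorem EX.swap {F : ℝ × ℝ → ℂ} {x : ℝ × ℝ} (h : EX F x) :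
    EX (fun ξ => F ξ.swap) x.swap := by
  obtain ⟨C, hC⟩ := h.2
  refine ⟨h.1.comp measurable_swap, C, fun ξ => (hC _).trans (le_of_eq ?_)⟩
  simp only [Prod.fst_swap, Prod.snd_swap]; congr 2; ring

theorem EX.refl {F : ℝ × ℝ → ℂ} {x : ℝ × ℝ} (h : EX F x) :
    EX (fun ξ => F (-ξ.1, ξ.2)) (-x.1, x.2) := by
  obtain ⟨C, hC⟩ := h.2
  refine ⟨h.1.comp (by fun_prop), C, fun ξ => (hC _).trans (le_of_eq ?_)⟩
  simp only; congr 2; ring

theorem EX.conv {F : ℝ × ℝ → ℂ} {x y z : ℝ × ℝ} (h : EX F x) (h' : EX F y) {a : ℝ} (ha : 0 ≤ a)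
    (ha' : a ≤ 1) (h1 : z.1 = a * x.1 + (1 - a) * y.1) (h2 : z.2 = a * x.2 + (1 - a) * y.2) :
    EX F z := by
  obtain ⟨C, C0, hC⟩ := expo_iff.1 h.2
  obtain ⟨D, D0, hD⟩ := expo_iff.1 h'.2
  refine ⟨h.1, expo_iff.2 ⟨C + D, by linarith, fun ξ => ?_⟩⟩
  have e : dot z ξ = a * dot x ξ + (1 - a) * dot y ξ := by simp only [dot, h1, h2]; ring
  have e0 := Real.exp_pos (-dot z ξ)
  rcases le_total (dot x ξ) (dot y ξ) with hh | hh
  · have : Real.exp (-dot y ξ) ≤ Real.exp (-dot z ξ) := by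
      apply Real.exp_le_exp.2; rw [e]; nlinarith
    calc ‖F ξ‖ ≤ D * Real.exp (-dot y ξ) := hD ξ
      _ ≤ D * Real.exp (-dot z ξ) := mul_le_mul_of_nonneg_left this D0
      _ ≤ _ := mul_le_mul_of_nonneg_right (by linarith) e0.le
  · have : Real.exp (-dot x ξ) ≤ Real.exp (-dot z ξ) := by
      apply Real.exp_le_exp.2; rw [e]; nlinarith
    calc ‖F ξ‖ ≤ C * Real.exp (-dot x ξ) := hC ξ
      _ ≤ C * Real.exp (-dot z ξ) := mul_le_mul_of_nonneg_left this C0
      _ ≤ _ := mul_le_mul_of_nonneg_right (by linarith) e0.le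

theorem dot_sub (x ξ α : ℝ × ℝ) (u : ℝ) : -dot x (ξ - u • α) = -dot x ξ + dot x α * u := by
  simp only [dot, Prod.fst_sub, Prod.snd_sub, Prod.smul_fst, Prod.smul_snd, smul_eq_mul]; ring

theorem cv_bound {F : ℝ × ℝ → ℂ} {x : ℝ × ℝ} {C : ℝ}
    (hC : ∀ ξ, ‖F ξ‖ ≤ C * Real.exp (-dot x ξ)) (α ξ : ℝ × ℝ) (k : ℝ → ℂ) (u : ℝ) :
    ‖F (ξ - u • α) * k u‖ ≤ C * Real.exp (-dot x ξ) * (‖k u‖ * Real.exp (dot x α * u)) := by
  rw [norm_mul]
  calc _ ≤ C * Real.exp (-dot x (ξ - u • α)) * ‖k u‖ :=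
        mul_le_mul_of_nonneg_right (hC _) (norm_nonneg _)
    _ = _ := by rw [dot_sub, Real.exp_add]; ring

theorem cv_int {F : ℝ × ℝ → ℂ} {x α : ℝ × ℝ} {k : ℝ → ℂ} (h : EX F x) (hk : Mo k (dot x α))
    (ξ : ℝ × ℝ) : Integrable fun u : ℝ => F (ξ - u • α) * k u := by
  obtain ⟨C, -, hC⟩ := expo_iff.1 h.2
  refine (hk.2.const_mul (C * Real.exp (-dot x ξ))).mono' ?_
    (Eventually.of_forall fun u => cv_bound hC α ξ k u)
  exact ((h.1.comp (by fun_prop)).mul hk.1).aestronglyMeasurable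

theorem cv_meas {F : ℝ × ℝ → ℂ} {k : ℝ → ℂ} (h : Measurable F) (hk : Measurable k) (α : ℝ × ℝ) :
    Measurable (cv α F k) := by
  have : StronglyMeasurable (Function.uncurry fun (ξ : ℝ × ℝ) (u : ℝ) => F (ξ - u • α) * k u) := by
    apply Measurable.stronglyMeasurable
    exact (h.comp (by fun_prop)).mul (hk.comp measurable_snd)
  exact (this.integral_prod_right (ν := volume)).measurable

theorem EX.cv {F : ℝ × ℝ → ℂ} {x α : ℝ × ℝ} {k : ℝ → ℂ} (h : EX F x) (hk : Mo k (dot x α)) :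
    EX (cv α F k) x := by
  obtain ⟨C, -, hC⟩ := expo_iff.1 h.2
  refine ⟨cv_meas h.1 hk.1 α, C * ∫ u, ‖k u‖ * Real.exp (dot x α * u), fun ξ => ?_⟩
  have := norm_integral_le_of_norm_le (hk.2.const_mul (C * Real.exp (-dot x ξ)))
    (Eventually.of_forall fun u => cv_bound hC α ξ k u)
  rw [integral_const_mul] at this
  refine this.trans (le_of_eq ?_)
  simp only [dot]; ring

theorem cv_comm {F : ℝ × ℝ → ℂ} {x α β : ℝ × ℝ} {k l : ℝ → ℂ} (h : EX F x)
    (hk : Mo k (dot x α)) (hl : Mo l (dot x β)) : cv α (cv β F l) k = cv β (cv α F k) l := by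
  funext ξ
  obtain ⟨C, -, hC⟩ := expo_iff.1 h.2
  have hi : Integrable (Function.uncurry fun u v : ℝ => F (ξ - u • α - v • β) * l v * k u)
      (volume.prod volume) := by
    refine ((hk.2.mul_prod hl.2).const_mul (C * Real.exp (-dot x ξ))).mono' ?_
      (Eventually.of_forall fun z => ?_)
    · apply Measurable.aestronglyMeasurable
      exact ((h.1.comp (by fun_prop)).mul (hl.1.comp measurable_snd)).mul
        (hk.1.comp measurable_fst)
    · obtain ⟨u, v⟩ := z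
      simp only [Function.uncurry]
      rw [norm_mul]
      calc _ ≤ C * Real.exp (-dot x (ξ - u • α)) * (‖l v‖ * Real.exp (dot x β * v)) * ‖k u‖ :=
            mul_le_mul_of_nonneg_right (cv_bound hC β _ l v) (norm_nonneg _)
        _ = _ := by rw [dot_sub, Real.exp_add]; ring
  have := integral_integral_swap hi
  simp only [CM.cv]
  simp_rw [← integral_mul_const]
  rw [this]
  refine integral_congr_ae (Eventually.of_forall fun v => ?_)
  refine integral_congr_ae (Eventually.of_forall fun u => ?_)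
  simp only
  rw [sub_right_comm]; ring

theorem cv_sum {m : ℕ} {F : Fin m → ℝ × ℝ → ℂ} {x α : ℝ × ℝ} {k : ℝ → ℂ} (h : ∀ i, EX (F i) x)
    (hk : Mo k (dot x α)) : cv α (fun ξ => ∑ i, F i ξ) k = fun ξ => ∑ i, cv α (F i) k ξ := by
  funext ξ
  simp only [CM.cv]
  simp_rw [Finset.sum_mul]
  exact integral_finsetSum _ fun i _ => cv_int (h i) hk ξ

theorem cv_swap (F : ℝ × ℝ → ℂ) (α : ℝ × ℝ) (k : ℝ → ℂ) :
    cv α (fun ξ => F ξ.swap) k = fun ξ => cv α.swap F k ξ.swap := by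
  funext ξ
  simp only [CM.cv]
  rfl

theorem cv_refl (F : ℝ × ℝ → ℂ) (α : ℝ × ℝ) (k : ℝ → ℂ) :
    cv α (fun ξ => F (-ξ.1, ξ.2)) k = fun ξ => cv (-α.1, α.2) F k (-ξ.1, ξ.2) := by
  funext ξ
  simp only [CM.cv]
  refine integral_congr_ae (Eventually.of_forall fun u => ?_)
  simp only
  congr 2
  ext
  · simp; ring
  · simp

theorem cv_shift (F : ℝ × ℝ → ℂ) (α ξ : ℝ × ℝ) (k : ℝ → ℂ) (c : ℝ) :
    cv α F (fun u => k (u + c)) ξ = cv α F k (ξ + c • α) := by
  simp only [CM.cv]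
  rw [← integral_add_right_eq_self (fun u : ℝ => F (ξ + c • α - u • α) * k u) c]
  refine integral_congr_ae (Eventually.of_forall fun u => ?_)
  simp only
  congr 2
  rw [add_smul]; abel

/-- the difference operator matching `fl` -/
def DD (β : ℝ × ℝ) (F : ℝ × ℝ → ℂ) (ξ : ℝ × ℝ) : ℂ :=
  F ξ + (-(1 + cexp 1)) * F (ξ + (2 : ℝ) • β) + cexp 1 * F (ξ + (4 : ℝ) • β)

theorem EX.DD {F : ℝ × ℝ → ℂ} {x : ℝ × ℝ} (h : EX F x) (β : ℝ × ℝ) : EX (DD β F) x :=
  (h.add ((h.shift _).cmul _)).add ((h.shift _).cmul _)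

theorem cv_fl {F : ℝ × ℝ → ℂ} {x α : ℝ × ℝ} {k : ℝ → ℂ} (h : EX F x) (hk : Mo k (dot x α))
    (c : ℝ) : cv α F (fl c k) = DD (c • α) (cv α F k) := by
  funext ξ
  have i0 := cv_int h hk ξ
  have i1 := cv_int h (hk.shift (2 * c)) ξ
  have i2 := cv_int h (hk.shift (4 * c)) ξ
  simp only [DD, smul_smul]
  rw [← cv_shift, ← cv_shift]
  simp only [CM.cv]
  have i3 : Integrable fun u : ℝ => F (ξ - u • α) * k u +
      -(1 + cexp 1) * (F (ξ - u • α) * k (u + 2 * c)) := i0.add (i1.const_mul _)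
  rw [← integral_const_mul, ← integral_const_mul, ← integral_add i0 (i1.const_mul _),
    ← integral_add i3 (i2.const_mul _)]
  refine integral_congr_ae (Eventually.of_forall fun u => ?_)
  simp only [fl]; ring

/-- exponents at the four corners give two sided decay -/
theorem four {F : ℝ × ℝ → ℂ} {x : ℝ × ℝ} {ε : ℝ}
    (h : ∀ a b : ℝ, |a| = ε → |b| = ε → EX F (x.1 + a, x.2 + b)) (hε : 0 ≤ ε) :
    ∃ C : ℝ, ∀ ξ, ‖F ξ‖ * Real.exp (dot x ξ) ≤
      C * (Real.exp (-(ε * |ξ.1|)) * Real.exp (-(ε * |ξ.2|))) := by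
  have p : |ε| = ε := abs_of_nonneg hε
  have q : |-ε| = ε := by rw [abs_neg, p]
  obtain ⟨C1, c1, h1⟩ := expo_iff.1 (h ε ε p p).2
  obtain ⟨C2, c2, h2⟩ := expo_iff.1 (h ε (-ε) p q).2
  obtain ⟨C3, c3, h3⟩ := expo_iff.1 (h (-ε) ε q p).2
  obtain ⟨C4, c4, h4⟩ := expo_iff.1 (h (-ε) (-ε) q q).2
  refine ⟨C1 + C2 + C3 + C4, fun ξ => ?_⟩
  have key : ∀ (C a b : ℝ), C ≤ C1 + C2 + C3 + C4 → a * ξ.1 = ε * |ξ.1| → b * ξ.2 = ε * |ξ.2| →
      ‖F ξ‖ ≤ C * Real.exp (-dot (x.1 + a, x.2 + b) ξ) → ‖F ξ‖ * Real.exp (dot x ξ) ≤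
      (C1 + C2 + C3 + C4) * (Real.exp (-(ε * |ξ.1|)) * Real.exp (-(ε * |ξ.2|))) := by
    intro C a b hC ha hb hh
    calc _ ≤ C * Real.exp (-dot (x.1 + a, x.2 + b) ξ) * Real.exp (dot x ξ) :=
          mul_le_mul_of_nonneg_right hh (Real.exp_pos _).le
      _ = C * (Real.exp (-(ε * |ξ.1|)) * Real.exp (-(ε * |ξ.2|))) := by
          rw [mul_assoc, ← Real.exp_add, ← Real.exp_add, ← ha, ← hb]
          congr 2; simp only [dot]; ring
      _ ≤ _ := mul_le_mul_of_nonneg_right hC (by positivity)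
  rcases le_total 0 ξ.1 with u | u <;> rcases le_total 0 ξ.2 with v | v
  · exact key C1 _ _ (by linarith) (by rw [abs_of_nonneg u]) (by rw [abs_of_nonneg v]) (h1 ξ)
  · exact key C2 _ _ (by linarith) (by rw [abs_of_nonneg u]) (by rw [abs_of_nonpos v]; ring) (h2 ξ)
  · exact key C3 _ _ (by linarith) (by rw [abs_of_nonpos u]; ring) (by rw [abs_of_nonneg v]) (h3 ξ)
  · exact key C4 _ _ (by linarith) (by rw [abs_of_nonpos u]; ring)
      (by rw [abs_of_nonpos v]; ring) (h4 ξ)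

theorem int_four {F : ℝ × ℝ → ℂ} {x : ℝ × ℝ} {ε : ℝ}
    (h : ∀ a b : ℝ, |a| = ε → |b| = ε → EX F (x.1 + a, x.2 + b)) (hε : 0 < ε) :
    Integrable fun ξ => ‖F ξ‖ * Real.exp (dot x ξ) := by
  obtain ⟨C, hC⟩ := four h hε.le
  have hm : Measurable F := (h ε ε (abs_of_pos hε) (abs_of_pos hε)).1
  refine (((int_abs hε).mul_prod (int_abs hε)).const_mul C).mono' ?_
    (Eventually.of_forall fun ξ => ?_)
  · apply Measurable.aestronglyMeasurable
    exact hm.norm.mul (by unfold dot; fun_prop)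
  · rw [Real.norm_of_nonneg (by positivity)]; exact hC ξ

/-- two dimensional Laplace transform -/
def Lp (F : ℝ × ℝ → ℂ) (s t : ℂ) : ℂ := ∫ ξ : ℝ × ℝ, F ξ * cexp (s * ξ.1 + t * ξ.2)

theorem norm_lp (z s t : ℂ) (ξ : ℝ × ℝ) :
    ‖z * cexp (s * ξ.1 + t * ξ.2)‖ = ‖z‖ * Real.exp (dot (s.re, t.re) ξ) := by
  rw [norm_mul, norm_exp]; simp [dot]

theorem int_lp {F : ℝ × ℝ → ℂ} (hm : Measurable F) {s t : ℂ}
    (h : Integrable fun ξ => ‖F ξ‖ * Real.exp (dot (s.re, t.re) ξ)) :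
    Integrable fun ξ : ℝ × ℝ => F ξ * cexp (s * ξ.1 + t * ξ.2) := by
  refine h.mono' ?_ (Eventually.of_forall fun ξ => (norm_lp _ _ _ _).le)
  exact (hm.mul (by fun_prop)).aestronglyMeasurable

theorem lp_cv {F : ℝ × ℝ → ℂ} (hm : Measurable F) {s t : ℂ} {α : ℝ × ℝ} {k : ℝ → ℂ}
    (h : Integrable fun ξ : ℝ × ℝ => F ξ * cexp (s * ξ.1 + t * ξ.2))
    (hk : Mo k (dot (s.re, t.re) α)) :
    Lp (cv α F k) s t = Lp F s t * LK k (s * α.1 + t * α.2) := by
  set F' : ℝ × ℝ → ℂ := fun ξ => F ξ * cexp (s * ξ.1 + t * ξ.2) with hF'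
  set k' : ℝ → ℂ := fun u => k u * cexp ((s * α.1 + t * α.2) * u) with hk'
  have mF : Measurable F' := hm.mul (by fun_prop)
  have mk : Measurable k' := hk.1.mul (by fun_prop)
  have ik : Integrable k' := by
    refine hk.2.mono' mk.aestronglyMeasurable (Eventually.of_forall fun u => le_of_eq ?_)
    simp only [hk']
    rw [norm_mul, norm_exp]; simp [dot]
  have hi : Integrable (Function.uncurry fun (ξ : ℝ × ℝ) (u : ℝ) => F' (ξ - u • α) * k' u)
      (volume.prod volume) := by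
    rw [integrable_prod_iff']
    · refine ⟨Eventually.of_forall fun u => ?_, ?_⟩
      · exact (h.comp_sub_right (u • α)).mul_const (k' u)
      · refine (ik.norm.const_mul (∫ ξ, ‖F' ξ‖)).congr (Eventually.of_forall fun u => ?_)
        simp only [Function.uncurry, norm_mul]
        rw [integral_mul_const, integral_sub_right_eq_self (fun ξ => ‖F' ξ‖) (u • α)]
    · apply Measurable.aestronglyMeasurable
      exact (mF.comp (by fun_prop)).mul (mk.comp measurable_snd)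
  have := integral_integral_swap hi
  simp_rw [integral_mul_const, integral_sub_right_eq_self F'] at this
  rw [integral_const_mul] at this
  unfold Lp LK
  rw [← this]
  refine integral_congr_ae (Eventually.of_forall fun ξ => ?_)
  simp only [CM.cv]
  rw [← integral_mul_const]
  refine integral_congr_ae (Eventually.of_forall fun u => ?_)
  simp only [hF', hk', Prod.fst_sub, Prod.snd_sub, Prod.smul_fst, Prod.smul_snd, smul_eq_mul]
  have e : cexp (s * ξ.1 + t * ξ.2) = cexp (s * ((ξ.1 - u * α.1 : ℝ) : ℂ) +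
      t * ((ξ.2 - u * α.2 : ℝ) : ℂ)) * cexp ((s * α.1 + t * α.2) * u) := by
    rw [← Complex.exp_add]; congr 1; push_cast; ring
  rw [e]; ring

theorem lp_diff {F : ℝ × ℝ → ℂ} (h : ∀ x, EX F x) :
    Differentiable ℂ fun w => Lp F (w / 2) (1 / 2 + w / 2) := by
  intro w0
  have hm := (h 0).1
  set R : ℝ := ‖w0‖ + 3 with hR
  obtain ⟨C, hC⟩ := four (F := F) (x := 0) (ε := R + 1) (fun a b _ _ => h _) (by positivity)
  have hi : ∀ s t : ℂ, Integrable fun ξ : ℝ × ℝ => F ξ * cexp (s * ξ.1 + t * ξ.2) := fun s t =>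
    int_lp hm (int_four (fun a b _ _ => h _) one_pos)
  refine (hasDerivAt_integral_of_dominated_loc_of_deriv_le (μ := volume)
    (F := fun w (ξ : ℝ × ℝ) => F ξ * cexp (w / 2 * ξ.1 + (1 / 2 + w / 2) * ξ.2))
    (F' := fun w (ξ : ℝ × ℝ) => F ξ * (cexp (w / 2 * ξ.1 + (1 / 2 + w / 2) * ξ.2) *
      (1 / 2 * ξ.1 + 1 / 2 * ξ.2)))
    (bound := fun ξ => C * (Real.exp (-(1 * |ξ.1|)) * Real.exp (-(1 * |ξ.2|))))
    (Metric.ball_mem_nhds w0 one_pos) (Eventually.of_forall fun w => (hi _ _).1) (hi _ _) ?_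
    (Eventually.of_forall fun ξ w hw => ?_)
    (((int_abs one_pos).mul_prod (int_abs one_pos)).const_mul C)
    (Eventually.of_forall fun ξ w _ => ?_)).2.differentiableAt
  · exact (hm.mul (by fun_prop)).aestronglyMeasurable
  · have h1 := hC ξ
    have e0 : dot 0 ξ = 0 := by simp [dot]
    rw [e0, Real.exp_zero, mul_one] at h1
    have hw' : ‖w‖ ≤ ‖w0‖ + 1 := by
      have := mem_ball_iff_norm.1 hw
      linarith [norm_sub_norm_le w w0]
    have hre : |w.re| ≤ ‖w0‖ + 1 := (abs_re_le_norm w).trans hw'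
    have a1 := abs_nonneg ξ.1
    have a2 := abs_nonneg ξ.2
    have n0 := norm_nonneg w0
    have b1 : ‖cexp (w / 2 * ξ.1 + (1 / 2 + w / 2) * ξ.2)‖ ≤
        Real.exp ((R - 1) * (|ξ.1| + |ξ.2|)) := by
      rw [norm_exp]
      apply Real.exp_le_exp.2
      have : (w / 2 * ξ.1 + (1 / 2 + w / 2) * ξ.2).re =
          w.re * ξ.1 / 2 + ξ.2 / 2 + w.re * ξ.2 / 2 := by simp; ring
      rw [this, hR]
      have c1 : w.re * ξ.1 ≤ (‖w0‖ + 1) * |ξ.1| := (le_abs_self _).trans (by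
        rw [abs_mul]; exact mul_le_mul_of_nonneg_right hre a1)
      have c2 : w.re * ξ.2 ≤ (‖w0‖ + 1) * |ξ.2| := (le_abs_self _).trans (by
        rw [abs_mul]; exact mul_le_mul_of_nonneg_right hre a2)
      nlinarith [le_abs_self ξ.2, mul_nonneg n0 a1, mul_nonneg n0 a2]
    have b2 : ‖(1 / 2 * ξ.1 + 1 / 2 * ξ.2 : ℂ)‖ ≤ Real.exp (|ξ.1| + |ξ.2|) := by
      have : (1 / 2 * ξ.1 + 1 / 2 * ξ.2 : ℂ) = ((1 / 2 * ξ.1 + 1 / 2 * ξ.2 : ℝ) : ℂ) := by
        push_cast; ring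
      rw [this, norm_real, Real.norm_eq_abs]
      refine le_trans ?_ (Real.add_one_le_exp _)
      rw [abs_le]
      constructor <;> linarith [le_abs_self ξ.1, le_abs_self ξ.2, neg_abs_le ξ.1, neg_abs_le ξ.2]
    rw [norm_mul, norm_mul]
    calc _ ≤ ‖F ξ‖ * (Real.exp ((R - 1) * (|ξ.1| + |ξ.2|)) * Real.exp (|ξ.1| + |ξ.2|)) :=
          mul_le_mul_of_nonneg_left (mul_le_mul b1 b2 (norm_nonneg _) (Real.exp_pos _).le)
            (norm_nonneg _)
      _ ≤ C * (Real.exp (-((R + 1) * |ξ.1|)) * Real.exp (-((R + 1) * |ξ.2|))) *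
          (Real.exp ((R - 1) * (|ξ.1| + |ξ.2|)) * Real.exp (|ξ.1| + |ξ.2|)) :=
          mul_le_mul_of_nonneg_right h1 (by positivity)
      _ = _ := by
          rw [mul_assoc]
          simp only [← Real.exp_add]
          congr 2; ring
  · refine HasDerivAt.const_mul _ (HasDerivAt.cexp ?_)
    exact (((hasDerivAt_id w).div_const 2).mul_const _).add
      ((((hasDerivAt_id w).div_const 2).const_add _).mul_const _)

/-- integrability on horizontal lines and lines times kernels -/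
theorem zz_cv {F : ℝ × ℝ → ℂ} {a b : ℝ} (ha : 0 < a) (h1 : EX F (a, b)) (h2 : EX F (-a, b))
    {k : ℝ → ℂ} (hk : ∀ t, Mo k t) (α : ℝ × ℝ) (hz : ∀ v : ℝ, ∫ u : ℝ, F (u, v) = 0) (v : ℝ) :
    ∫ u : ℝ, cv α F k (u, v) = 0 := by
  obtain ⟨C, c0, hC⟩ := expo_iff.1 h1.2
  obtain ⟨D, d0, hD⟩ := expo_iff.1 h2.2
  have hi : Integrable (Function.uncurry fun u t : ℝ => F ((u, v) - t • α) * k t)
      (volume.prod volume) := by
    refine (((int_abs ha).mul_prod ((hk (dot (a, b) α)).2.add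
      (hk (dot (-a, b) α)).2)).const_mul ((C + D) * Real.exp (-(b * v)))).mono' ?_
      (Eventually.of_forall fun z => ?_)
    · apply Measurable.aestronglyMeasurable
      exact (h1.1.comp (by fun_prop)).mul ((hk 0).1.comp measurable_snd)
    · obtain ⟨u, t⟩ := z
      simp only [Function.uncurry, Pi.add_apply]
      have p1 : 0 ≤ ‖k t‖ * Real.exp (dot (a, b) α * t) := by positivity
      have p2 : 0 ≤ ‖k t‖ * Real.exp (dot (-a, b) α * t) := by positivity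
      have p3 : 0 ≤ Real.exp (-(b * v)) * Real.exp (-(a * |u|)) := by positivity
      rcases le_total 0 u with hu | hu
      · refine (cv_bound hC α _ k t).trans ?_
        have : Real.exp (-dot (a, b) (u, v)) = Real.exp (-(b * v)) * Real.exp (-(a * |u|)) := by
          rw [← Real.exp_add, abs_of_nonneg hu]; congr 1; simp only [dot]; ring
        rw [this]
        nlinarith [mul_nonneg (mul_nonneg c0 p3) p2, mul_nonneg (mul_nonneg d0 p3) p2,
          mul_nonneg (mul_nonneg d0 p3) p1]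
      · refine (cv_bound hD α _ k t).trans ?_
        have : Real.exp (-dot (-a, b) (u, v)) = Real.exp (-(b * v)) * Real.exp (-(a * |u|)) := by
          rw [← Real.exp_add, abs_of_nonpos hu]; congr 1; simp only [dot]; ring
        rw [this]
        nlinarith [mul_nonneg (mul_nonneg c0 p3) p2, mul_nonneg (mul_nonneg c0 p3) p1,
          mul_nonneg (mul_nonneg d0 p3) p1]
  have := integral_integral_swap hi
  simp only [CM.cv]
  rw [this]
  have e : ∀ t : ℝ, ∫ u : ℝ, F ((u, v) - t • α) * k t = 0 := by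
    intro t
    rw [integral_mul_const]
    have := integral_sub_right_eq_self (μ := volume) (fun u => F (u, v - t * α.2)) (t * α.1)
    rw [hz] at this
    have e2 : (fun u : ℝ => F ((u, v) - t • α)) = fun u => F (u - t * α.1, v - t * α.2) := rfl
    rw [e2, this, zero_mul]
  simp only [e, integral_zero]

theorem lp_zero {F : ℝ × ℝ → ℂ} (h : ∀ x, EX F x) (hz : ∀ v : ℝ, ∫ u : ℝ, F (u, v) = 0) (t : ℂ) :
    Lp F 0 t = 0 := by
  have hi := int_lp (s := 0) (t := t) (h 0).1 (int_four (fun a b _ _ => h _) one_pos)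
  unfold Lp
  rw [Measure.volume_eq_prod] at hi ⊢
  rw [integral_prod_symm _ hi]
  simp only [zero_mul, zero_add]
  simp_rw [integral_mul_const, hz, zero_mul, integral_zero]

end AsmP

end

end Pool.Agent.P.MP_b8021b_nt.CM
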