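import Pool.Agent.P.MP_b8021b_nt.CM.Lib
import Pool.Agent.P.MP_b8021b_nt.CM.Asm0

/-! Package Asm: analytic continuation of the Laplace transform from two reflections. -/

namespace Pool.Agent.P.MP_b8021b_nt.CM

open Complex hiding Gamma
open MeasureTheory Filter
open scoped Real Topology

noncomputable section

namespace AsmP

theorem base_ex {A : ℝ} {g : ℝ × ℝ → ℂ} (h : Base A g) {x : ℝ × ℝ} (h1 : A < x.1)
    (h2 : x.1 + 2 < x.2) : EX g x := ⟨h.1, h.2 x h1 h2⟩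

theorem kill (P : ℝ → ℂ) (ξ : ℝ × ℝ) : DD ((1 : ℝ) • ((-1, 1) : ℝ × ℝ)) (resT P) ξ = 0 := by
  simp only [DD, resT, Prod.fst_add, Prod.snd_add, Prod.smul_fst, Prod.smul_snd, smul_eq_mul]
  have e1 : ξ.1 + 2 * (1 * -1) + (ξ.2 + 2 * (1 * 1)) = ξ.1 + ξ.2 := by ring
  have e2 : ξ.1 + 4 * (1 * -1) + (ξ.2 + 4 * (1 * 1)) = ξ.1 + ξ.2 := by ring
  have e3 : -(ξ.2 + 2 * (1 * 1) - (ξ.1 + 2 * (1 * -1))) / 4 = -(ξ.2 - ξ.1) / 4 + -1 := by ring
  have e4 : -(ξ.2 + 4 * (1 * 1) - (ξ.1 + 4 * (1 * -1))) / 4 = -(ξ.2 - ξ.1) / 4 + -1 + -1 := by ring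
  rw [e1, e2, e3, e4, Real.exp_add, Real.exp_add, Real.exp_add]
  have e5 : cexp 1 * cexp (-1) = 1 := by rw [← Complex.exp_add]; simp
  have e6 : ((Real.exp (-1) : ℝ) : ℂ) = cexp (-1) := by push_cast; rfl
  rw [ofReal_mul, ofReal_mul, ofReal_mul, e6]
  generalize ((Real.exp (-(ξ.2 - ξ.1) / 4) : ℝ) : ℂ) = r
  linear_combination (r * P (ξ.1 + ξ.2) * (cexp (-1) - 1)) * e5

theorem g1_form {A : ℝ} {f K : ℝ × ℝ → ℂ} {k0 P : ℝ → ℂ} (hf : Base A f) (hk : Half k0)
    (h : ∀ ξ, cv (-1, 1) f k0 ξ = K ξ.swap + resT P ξ) :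
    cv (-1, 1) f (flat k0) = fun ξ => DD ((-1 : ℝ) • ((-1, 1) : ℝ × ℝ)) K ξ.swap := by
  have hx : EX f (A + 1, A + 4) := base_ex hf (by simp) (by simp only; linarith)
  rw [flat_eq, cv_fl hx (mo_half hk (by simp only [dot]; linarith))]
  funext ξ
  have := kill P ξ
  simp only [DD, h] at this ⊢
  have e : ∀ c : ℝ, (ξ + c • (1 : ℝ) • ((-1, 1) : ℝ × ℝ)).swap =
      ξ.swap + c • (-1 : ℝ) • ((-1, 1) : ℝ × ℝ) := by
    intro c; ext <;> simp
  rw [e, e]
  linear_combination this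

theorem q_of {A : ℝ} {F : ℝ × ℝ → ℂ} (h1 : ∀ x : ℝ × ℝ, A < x.1 → x.1 + 2 < x.2 → EX F x)
    (h2 : ∀ x : ℝ × ℝ, A < x.1 → x.1 + 2 < x.2 → EX F x.swap) (x : ℝ × ℝ) (hx : A + 2 < x.1)
    (hy : A + 2 < x.2) : EX F x := by
  have p := h1 (A + 1, x.1 + x.2 - (A + 1)) (by simp) (by simp only; linarith)
  have q := h2 (A + 1, x.1 + x.2 - (A + 1)) (by simp) (by simp only; linarith)
  have hd : 0 < x.1 + x.2 - 2 * (A + 1) := by linarith
  have ha := div_mul_cancel₀ (x.2 - (A + 1)) hd.ne'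
  refine p.conv q (a := (x.2 - (A + 1)) / (x.1 + x.2 - 2 * (A + 1)))
    (div_nonneg (by linarith) hd.le) ((div_le_one hd).2 (by linarith)) ?_ ?_
  · simp only [Prod.fst_swap]; linear_combination ha
  · simp only [Prod.snd_swap]; linear_combination -ha

theorem g1_q {A : ℝ} {f K : ℝ × ℝ → ℂ} {k0 P : ℝ → ℂ} (hf : Base A f) (hk : Half k0)
    (hk' : Full (flat k0)) (hK : ∀ x : ℝ × ℝ, A < x.1 → x.1 + 2 < x.2 → EX K x)
    (h : ∀ ξ, cv (-1, 1) f k0 ξ = K ξ.swap + resT P ξ) (x : ℝ × ℝ) (hx : A + 2 < x.1)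
    (hy : A + 2 < x.2) : EX (cv (-1, 1) f (flat k0)) x := by
  refine q_of (fun x h1 h2 => (base_ex hf h1 h2).cv (mo_full hk' _)) (fun x h1 h2 => ?_) x hx hy
  rw [g1_form hf hk h]
  exact ((hK x h1 h2).DD _).swap

theorem half_plane {B : ℝ} (hB : 0 ≤ B) {F : ℝ × ℝ → ℂ}
    (h1 : ∀ x : ℝ × ℝ, B < x.1 → B < x.2 → EX F x)
    (h2 : ∀ x : ℝ × ℝ, B < x.1 → B < x.2 → EX F (-x.1, x.2)) (x : ℝ × ℝ) (hy : B < x.2) :
    EX F x := by
  have a0 := abs_nonneg x.1
  have p := h1 (B + 1 + |x.1|, x.2) (by simp only; linarith) hy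
  have q := h2 (B + 1 + |x.1|, x.2) (by simp only; linarith) hy
  have hd : 0 < 2 * (B + 1 + |x.1|) := by linarith
  refine p.conv q (a := (B + 1 + |x.1| + x.1) / (2 * (B + 1 + |x.1|)))
    (div_nonneg (by linarith [neg_abs_le x.1]) hd.le)
    ((div_le_one hd).2 (by linarith [le_abs_self x.1])) ?_ ?_
  · simp only; field_simp; ring
  · simp only; ring

theorem plane {B : ℝ} {F : ℝ × ℝ → ℂ} (h1 : ∀ x : ℝ × ℝ, B < x.2 → EX F x)
    (h2 : ∀ x : ℝ × ℝ, B < x.1 → EX F x) (x : ℝ × ℝ) : EX F x := by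
  set T := |B| + |x.1| + |x.2| + 1 with hT
  have p := h1 (x.1 - T, x.2 + T) (by
    simp only; linarith [le_abs_self B, abs_nonneg x.1, neg_abs_le x.2])
  have q := h2 (x.1 + T, x.2 - T) (by
    simp only; linarith [le_abs_self B, abs_nonneg x.2, neg_abs_le x.1])
  refine p.conv q (a := 1 / 2) (by norm_num) (by norm_num) ?_ ?_ <;> simp only <;> ring

theorem oneD {h : ℝ → ℂ} (hm : Measurable h) {p : ℂ} {C D : ℝ}
    (h1 : ∀ v, 0 ≤ v → ‖h v‖ ≤ C * Real.exp (-(1 * v)))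
    (h2 : ∀ v, v < 0 → ‖h v - p‖ ≤ D * Real.exp (1 * v)) :
    (Integrable fun v => h v - h (v + 2)) ∧ ∫ v, (h v - h (v + 2)) = 2 * p := by
  set φ : ℝ → ℂ := fun v => h v - (Set.Iio (0 : ℝ)).indicator (fun _ => p) v with hφ
  have mφ : Measurable φ := hm.sub (measurable_const.indicator measurableSet_Iio)
  have iφ : Integrable φ := by
    refine ((int_abs one_pos).const_mul (|C| + |D|)).mono' mφ.aestronglyMeasurable
      (Eventually.of_forall fun v => ?_)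
    have e1 := Real.exp_pos (-(1 * |v|))
    rcases lt_or_ge v 0 with hv | hv
    · have : φ v = h v - p := by simp [hφ, hv]
      rw [this]
      refine (h2 v hv).trans ?_
      rw [show 1 * v = -(1 * |v|) by rw [abs_of_neg hv]; ring]
      exact mul_le_mul_of_nonneg_right (by linarith [le_abs_self D, abs_nonneg C]) e1.le
    · have : φ v = h v := by simp [hφ, not_lt.2 hv]
      rw [this]
      refine (h1 v hv).trans ?_
      rw [abs_of_nonneg hv]
      exact mul_le_mul_of_nonneg_right (by linarith [le_abs_self C, abs_nonneg D])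
        (Real.exp_pos _).le
  have e : (fun v => h v - h (v + 2)) = fun v => (φ v - φ (v + 2)) +
      (Set.Ico (-2 : ℝ) 0).indicator (fun _ => p) v := by
    funext v
    simp only [hφ, Set.indicator, Set.mem_Iio, Set.mem_Ico]
    by_cases a1 : v < 0 <;> by_cases a2 : v + 2 < 0
    · have : ¬ (-2 ≤ v) := by linarith
      simp [a1, a2, this]
    · have : -2 ≤ v := by linarith
      simp [a1, a2, this]; ring
    · exfalso; linarith
    · simp [a1, a2]
  have i1 : Integrable fun v => φ v - φ (v + 2) := iφ.sub (iφ.comp_add_right 2)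
  have i2 : Integrable ((Set.Ico (-2 : ℝ) 0).indicator fun _ => p) :=
    (integrable_indicator_iff measurableSet_Ico).2 (integrableOn_const (by simp))
  rw [e]
  refine ⟨i1.add i2, ?_⟩
  rw [integral_add i1 i2, integral_sub iφ (iφ.comp_add_right 2), integral_add_right_eq_self φ 2,
    integral_indicator_const _ measurableSet_Ico]
  simp

theorem line {A : ℝ} {F K : ℝ × ℝ → ℂ} {P : ℝ → ℂ} (hF : EX F (A + 1, A + 4))
    (hK : EX K (A + 1, A + 4)) (h : ∀ ξ, F ξ = K ξ.swap + resT P ξ) (σ : ℝ) :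
    ∫ v : ℝ, DD ((1 : ℝ) • ((-1, 1) : ℝ × ℝ)) F (σ / 2 - v, σ / 2 + v) * cexp (v / 2) =
      2 * (1 - cexp (-1)) * P σ := by
  obtain ⟨C, c0, hC⟩ := expo_iff.1 hF.2
  obtain ⟨D, d0, hD⟩ := expo_iff.1 hK.2
  set φ : ℝ → ℂ := fun v => F (σ / 2 - v, σ / 2 + v) * cexp (v / 2) with hφ
  have ne : ∀ v : ℝ, ‖cexp (v / 2)‖ = Real.exp (v / 2) := fun v => by rw [norm_exp]; simp
  have m : Measurable φ := (hF.1.comp (by fun_prop)).mul (by fun_prop)
  obtain ⟨i1, j1⟩ := oneD m (p := P σ) (C := C * Real.exp (-((2 * A + 5) * σ / 2)))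
    (D := D * Real.exp (-((2 * A + 5) * σ / 2))) (fun v hv => by
      simp only [hφ]
      rw [norm_mul, ne]
      refine (mul_le_mul_of_nonneg_right (hC _) (Real.exp_pos _).le).trans ?_
      rw [mul_assoc, mul_assoc, ← Real.exp_add, ← Real.exp_add]
      refine mul_le_mul_of_nonneg_left (Real.exp_le_exp.2 ?_) c0
      simp only [dot]; nlinarith) (fun v hv => by
      have e : φ v - P σ = K (σ / 2 + v, σ / 2 - v) * cexp (v / 2) := by
        simp only [hφ, h, resT, Prod.swap]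
        have e1 : σ / 2 - v + (σ / 2 + v) = σ := by ring
        have e2 : ((Real.exp (-(σ / 2 + v - (σ / 2 - v)) / 4) : ℝ) : ℂ) * cexp (v / 2) = 1 := by
          rw [ofReal_exp, ← Complex.exp_add, ← Complex.exp_zero]; congr 1; push_cast; ring
        rw [e1]
        linear_combination (P σ) * e2
      rw [e, norm_mul, ne]
      refine (mul_le_mul_of_nonneg_right (hD _) (Real.exp_pos _).le).trans ?_
      rw [mul_assoc, mul_assoc, ← Real.exp_add, ← Real.exp_add]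
      refine mul_le_mul_of_nonneg_left (Real.exp_le_exp.2 ?_) d0
      simp only [dot]; nlinarith)
  have i2 := i1.comp_add_right 2
  have j2 := integral_add_right_eq_self (μ := volume) (fun v => φ v - φ (v + 2)) 2
  have e : ∀ v : ℝ, DD ((1 : ℝ) • ((-1, 1) : ℝ × ℝ)) F (σ / 2 - v, σ / 2 + v) * cexp (v / 2) =
      (φ v - φ (v + 2)) - cexp (-1) * (φ (v + 2) - φ (v + 2 + 2)) := by
    intro v
    have a1 : ((σ / 2 - v, σ / 2 + v) : ℝ × ℝ) + (2 : ℝ) • (1 : ℝ) • ((-1, 1) : ℝ × ℝ) =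
        (σ / 2 - (v + 2), σ / 2 + (v + 2)) := by ext <;> simp <;> ring
    have a2 : ((σ / 2 - v, σ / 2 + v) : ℝ × ℝ) + (4 : ℝ) • (1 : ℝ) • ((-1, 1) : ℝ × ℝ) =
        (σ / 2 - (v + 2 + 2), σ / 2 + (v + 2 + 2)) := by ext <;> simp <;> ring
    have b1 : cexp (((v + 2 : ℝ) : ℂ) / 2) = cexp (v / 2) * cexp 1 := by
      rw [← Complex.exp_add]; congr 1; push_cast; ring
    have b2 : cexp (((v + 2 + 2 : ℝ) : ℂ) / 2) = cexp (v / 2) * cexp 1 * cexp 1 := by
      rw [← Complex.exp_add, ← Complex.exp_add]; congr 1; push_cast; ring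
    have e5 : cexp 1 * cexp (-1) = 1 := by rw [← Complex.exp_add]; simp
    simp only [DD, hφ, a1, a2, b1, b2]
    linear_combination (F (σ / 2 - (v + 2), σ / 2 + (v + 2)) * cexp (v / 2) -
      F (σ / 2 - (v + 2 + 2), σ / 2 + (v + 2 + 2)) * cexp (v / 2) * cexp 1) * e5
  simp_rw [e]
  rw [integral_sub i1 (i2.const_mul _), integral_const_mul, j2, j1]
  ring

theorem lp_line {G : ℝ × ℝ → ℂ} {w : ℂ} {Q : ℝ → ℂ}
    (hi : Integrable fun ξ : ℝ × ℝ => G ξ * cexp (w / 2 * ξ.1 + (1 / 2 + w / 2) * ξ.2))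
    (h : ∀ σ : ℝ, ∫ v : ℝ, G (σ / 2 - v, σ / 2 + v) * cexp (v / 2) = Q σ) :
    Lp G (w / 2) (1 / 2 + w / 2) = ∫ σ : ℝ, Q σ * cexp ((1 / 4 + w / 2) * σ) := by
  set f : ℝ × ℝ → ℂ := fun ξ => G ξ * cexp (w / 2 * ξ.1 + (1 / 2 + w / 2) * ξ.2) with hf
  have mp := measurePreserving_prod_sub_swap (volume : Measure ℝ) (volume : Measure ℝ)
  have hi' : Integrable f (volume.prod volume) := hi
  have i2 : Integrable (fun z : ℝ × ℝ => f (z.2, z.1 - z.2)) (volume.prod volume) :=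
    mp.integrable_comp_of_integrable hi'
  have e1 : ∫ z : ℝ × ℝ, f (z.2, z.1 - z.2) ∂(volume.prod volume) =
      ∫ z, f z ∂(volume.prod volume) := by
    have := integral_map (f := f) mp.measurable.aemeasurable (by rw [mp.map_eq]; exact hi'.1)
    rw [mp.map_eq] at this
    exact this.symm
  have e2 : Lp G (w / 2) (1 / 2 + w / 2) = ∫ z, f z ∂(volume.prod volume) := rfl
  rw [e2, ← e1, integral_prod _ i2]
  refine integral_congr_ae (Eventually.of_forall fun σ => ?_)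
  simp only
  rw [← h σ, ← integral_mul_const,
    ← integral_sub_left_eq_self (fun y : ℝ => f (y, σ - y)) volume (σ / 2)]
  refine integral_congr_ae (Eventually.of_forall fun v => ?_)
  simp only [hf]
  rw [show σ - (σ / 2 - v) = σ / 2 + v by ring, mul_assoc, ← Complex.exp_add]
  congr 2; push_cast; ring

theorem lk_flat {k : ℝ → ℂ} (hk : Half k) {r : ℝ} (hr : 0 < r) :
    LK (flat k) r = (1 - cexp (-2 * r)) * (1 - cexp (1 - 2 * r)) * LK k r := by
  have ik : Integrable fun u : ℝ => k u * cexp (r * u) := by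
    refine (mo_half hk hr).2.mono' (hk.1.mul (by fun_prop)).aestronglyMeasurable
      (Eventually.of_forall fun u => le_of_eq ?_)
    rw [norm_mul, norm_exp]; simp
  set f : ℝ → ℂ := fun u => k u * cexp (r * u) with hf
  have i2 := (ik.comp_add_right 2).const_mul ((1 + cexp 1) * cexp (-2 * r))
  have i4 := (ik.comp_add_right 4).const_mul (cexp 1 * cexp (-2 * r) * cexp (-2 * r))
  have e : ∀ u : ℝ, flat k u * cexp (r * u) = f u - (1 + cexp 1) * cexp (-2 * r) * f (u + 2) +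
      cexp 1 * cexp (-2 * r) * cexp (-2 * r) * f (u + 4) := by
    intro u
    have b1 : cexp (-2 * r) * cexp (r * ((u + 2 : ℝ) : ℂ)) = cexp (r * u) := by
      rw [← Complex.exp_add]; congr 1; push_cast; ring
    have b2 : cexp (-2 * r) * cexp (-2 * r) * cexp (r * ((u + 4 : ℝ) : ℂ)) = cexp (r * u) := by
      rw [← Complex.exp_add, ← Complex.exp_add]; congr 1; push_cast; ring
    simp only [flat, hf]
    linear_combination ((1 + cexp 1) * k (u + 2)) * b1 - (cexp 1 * k (u + 4)) * b2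
  have i3 : Integrable fun u => f u - (1 + cexp 1) * cexp (-2 * r) * f (u + 2) := ik.sub i2
  have e3 : cexp (1 - 2 * r) = cexp 1 * cexp (-2 * r) := by
    rw [← Complex.exp_add]; congr 1; ring
  unfold LK
  simp_rw [e]
  rw [integral_add i3 i4, integral_sub ik i2, integral_const_mul, integral_const_mul,
    integral_add_right_eq_self f 2, integral_add_right_eq_self f 4, e3]
  ring

end AsmP

open AsmP in
theorem asm : S_Asm := by
  intro A g k0 κ kχ P m gm hm km Pm hA hg hgm hk0 hkf hκ hχ A1 A2 A3 A4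
  have mf := mo_full hkf
  have mχ := mo_full hχ
  have gx : EX g (A + 1, A + 4) := base_ex hg (by simp) (by simp only; linarith)
  have A2' : cv (1, 0) g kχ = fun ξ => ∑ i, cv (1, 0) (gm i) (km i) (-ξ.1, ξ.2) := funext A2
  have gmx : ∀ i, EX (gm i) (A + 1, A + 4) := fun i =>
    base_ex (hgm i).1 (by simp) (by simp only; linarith)
  have kmx : ∀ i, Mo (km i) (dot (A + 1, A + 4) (1, 0)) := fun i =>
    mo_half (hgm i).2.2 (by simp only [dot]; linarith)
  have rx : ∀ i, EX (fun ξ : ℝ × ℝ => cv (1, 0) (gm i) (km i) (-ξ.1, ξ.2)) (-(A + 1), A + 4) :=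
    fun i => ((gmx i).cv (kmx i)).refl
  -- the function W l
  have hW : ∀ l : ℝ → ℂ, (∀ t, 0 < t → Mo l t) →
      (∀ x : ℝ × ℝ, A + 2 < x.1 → A + 2 < x.2 → EX (cv (-1, 1) g l) x) →
      cv (-1, 1) (cv (1, 1) (cv (1, 0) g kχ) (flat k0)) l =
        cv (1, 1) (cv (1, 0) (cv (-1, 1) g l) kχ) (flat k0) ∧
      ∀ x : ℝ × ℝ, A + 2 < x.2 → EX (cv (-1, 1) (cv (1, 1) (cv (1, 0) g kχ) (flat k0)) l) x := by
    intro l hl hq
    have lx : Mo l (dot (A + 1, A + 4) (-1, 1)) := hl _ (by simp only [dot]; linarith)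
    have e : cv (-1, 1) (cv (1, 1) (cv (1, 0) g kχ) (flat k0)) l =
        cv (1, 1) (cv (1, 0) (cv (-1, 1) g l) kχ) (flat k0) := by
      rw [cv_comm (gx.cv (mχ _)) lx (mf _), cv_comm gx lx (mχ _)]
    refine ⟨e, half_plane (by linarith) (fun x h1 h2 => ?_) (fun x h1 h2 => ?_)⟩
    · rw [e]; exact ((hq x h1 h2).cv (mχ _)).cv (mf _)
    · rw [A2', cv_sum rx (mf _), cv_sum (fun i => (rx i).cv (mf _))
        (hl _ (by simp only [dot]; linarith))]
      refine EX.sum fun i => ?_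
      rw [cv_refl, cv_refl]
      refine EX.refl (EX.cv ?_ (hl _ (by simp only [dot]; linarith)))
      rw [cv_comm (gmx i) (mf _) (kmx i)]
      refine EX.cv ?_ (mo_half (hgm i).2.2 (by simp only [dot]; linarith))
      exact g1_q (hgm i).1 hk0 hkf (fun x a b => base_ex (hgm i).2.1 a b) (A3 i) x h1 h2
  have hK : ∀ x : ℝ × ℝ, A < x.1 → x.1 + 2 < x.2 → EX (cv (-1, 1) g κ) x := fun x a b =>
    (base_ex hg a b).cv (mo_half hκ (by simp only [dot]; linarith))
  have q1 := g1_q hg hk0 hkf hK A1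
  have f1 : cv (-1, 1) g (flat k0) = fun ξ => cv (-1, 1) g (fl (-1) κ) ξ.swap := by
    rw [g1_form hg hk0 A1, cv_fl gx (mo_half hκ (by simp only [dot]; linarith))]
  have f2 : cv (-1, 1) g (fl (-1) κ) = fun ξ => cv (-1, 1) g (flat k0) ξ.swap := by
    rw [f1]; rfl
  obtain ⟨W1, X1⟩ := hW (flat k0) (fun t _ => mf t) q1
  obtain ⟨W2, X2⟩ := hW (fl (-1) κ) (fun t ht => (mo_half hκ ht).fl _) (fun x a b => by
    rw [f2]; exact (q1 x.swap b a).swap)
  set g1 := cv (-1, 1) g (flat k0) with hg1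
  set G := cv (0, 1) (cv (-1, 1) (cv (1, 1) (cv (1, 0) g kχ) (flat k0)) (flat k0)) kχ with hG
  have g1x : EX g1 (A + 3, A + 3) := q1 _ (by simp only; linarith) (by simp only; linarith)
  have GG : G = fun ξ => cv (0, 1) (cv (-1, 1) (cv (1, 1) (cv (1, 0) g kχ) (flat k0))
      (fl (-1) κ)) kχ ξ.swap := by
    rw [hG, W1, W2, cv_comm (g1x.cv (mχ _)) (mχ _) (mf _), cv_comm g1x (mχ _) (mχ _),
      cv_comm (g1x.cv (mχ _)) (mf _) (mχ _), f1, cv_swap, cv_swap, cv_swap]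
    rfl
  have XG : ∀ x, EX G x := plane (B := A + 2) (fun x h => (X1 x h).cv (mχ _)) (fun x h => by
    rw [GG]; exact ((X2 x.swap h).cv (mχ _)).swap)
  refine ⟨fun w => Lp G (w / 2) (1 / 2 + w / 2), lp_diff XG, ?_, fun w hw => ?_⟩
  · simp only [zero_div]
    refine lp_zero XG (fun v => ?_) _
    have p0 : (0 : ℝ) < A + 1 := by linarith
    have x1 : EX (cv (1, 0) g kχ) (A + 1, A + 4) := gx.cv (mχ _)
    have x2 : EX (cv (1, 0) g kχ) (-(A + 1), A + 4) := by rw [A2']; exact EX.sum rx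
    exact zz_cv p0 ((x1.cv (mf _)).cv (mf _)) ((x2.cv (mf _)).cv (mf _)) mχ _
      (zz_cv p0 (x1.cv (mf _)) (x2.cv (mf _)) mf _
        (zz_cv p0 x1 x2 mf _ fun v => A4 (0, v))) v
  · have hint : ∀ F : ℝ × ℝ → ℂ, (∀ x : ℝ × ℝ, A + 2 < x.1 → A + 2 < x.2 → EX F x) →
        Integrable fun ξ : ℝ × ℝ =>
          F ξ * cexp ((w : ℂ) / 2 * ξ.1 + (1 / 2 + (w : ℂ) / 2) * ξ.2) := by
      intro F hF
      refine int_lp (hF (A + 3, A + 3) (by simp only; linarith) (by simp only; linarith)).1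
        (int_four (ε := (w / 2 - (A + 2)) / 2) (fun a b ha hb => hF _ ?_ ?_) (by linarith))
      · have : ((w : ℂ) / 2).re = w / 2 := by simp
        simp only [this]; linarith [neg_abs_le a]
      · have : (1 / 2 + (w : ℂ) / 2).re = 1 / 2 + w / 2 := by simp
        simp only [this]; linarith [neg_abs_le b]
    have q2 : ∀ x : ℝ × ℝ, A + 2 < x.1 → A + 2 < x.2 → EX (cv (1, 0) g1 kχ) x :=
      fun x a b => (q1 x a b).cv (mχ _)
    have q3 : ∀ x : ℝ × ℝ, A + 2 < x.1 → A + 2 < x.2 →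
        EX (cv (1, 1) (cv (1, 0) g1 kχ) (flat k0)) x := fun x a b => (q2 x a b).cv (mf _)
    have k0x : Mo k0 (dot (A + 1, A + 4) (-1, 1)) := mo_half hk0 (by simp only [dot]; linarith)
    have L1 := lp_line (hint g1 q1) (Q := fun σ => 2 * (1 - cexp (-1)) * P σ) (fun σ => by
      rw [hg1, flat_eq, cv_fl gx k0x]
      exact line (gx.cv k0x) (hK _ (by simp) (by simp only; linarith)) A1 σ)
    have L2 := lk_flat hk0 (r := 1 / 2 + w) (by linarith)
    simp only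
    rw [hG, W1, lp_cv ((g1x.cv (mχ _)).cv (mf _)).1 (hint _ q3) (mχ _),
      lp_cv (g1x.cv (mχ _)).1 (hint _ q2) (mf _), lp_cv g1x.1 (hint _ q1) (mχ _), L1]
    simp_rw [mul_assoc (2 * (1 - cexp (-1)))]
    rw [integral_const_mul]
    push_cast at L2 ⊢
    rw [show (w : ℂ) / 2 * 1 + (1 / 2 + w / 2) * 0 = w / 2 by ring,
      show (w : ℂ) / 2 * 1 + (1 / 2 + w / 2) * 1 = 1 / 2 + w by ring,
      show (w : ℂ) / 2 * 0 + (1 / 2 + w / 2) * 1 = 1 / 2 + w / 2 by ring, L2]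
    ring

end

end Pool.Agent.P.MP_b8021b_nt.CM
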