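import Pool.Agent.P.MP_b8021b_nt.CM.BB0

/-! Package P13: invariances and vanishing of the trilinear form. -/

namespace Pool.Agent.P.MP_b8021b_nt.CM

open Complex hiding Gamma
open UpperHalfPlane hiding I
open MeasureTheory CongruenceSubgroup Filter
open scoped Real MatrixGroups ModularForm Topology ComplexConjugate Modular

noncomputable section

namespace BBP

/-- the integrand of the trilinear form -/
def WW (d : ℕ) (u : ℍ → ℂ) (ω : Q3 × ℚ → ℂ) (c : Q2 → ℂ) (τ : ℍ) : ℂ :=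
  (τ.im : ℂ) ^ 2 * JF d u ω τ * EE c τ

theorem BB_eq (d : ℕ) (u : ℍ → ℂ) (ω : Q3 × ℚ → ℂ) (c : Q2 → ℂ) :
    BB d u ω c = hmean (WW d u ω c) := rfl

theorem EE_smul (hE : S_EE) {c : Q2 → ℂ} (hc : SB c) (γ : SL) (τ : ℍ) :
    EE c (γ • τ) = conj (jf γ τ) * EE (fun w => c (vm w γ⁻¹)) τ := by
  rw [← (hE _ (sb_vm hc γ⁻¹)).2.2.1 γ τ]
  simp only [vm_inv]

theorem im_SL_sq (γ : SL) (τ : ℍ) :
    (((γ • τ).im : ℝ) : ℂ) ^ 2 * (jf γ τ ^ 2 * conj (jf γ τ) ^ 2) = (τ.im : ℂ) ^ 2 := by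
  have h := jf_ne_zero γ τ
  have h' : ((‖jf γ τ‖ : ℝ) : ℂ) ^ 2 = jf γ τ * conj (jf γ τ) := by
    rw [mul_conj, normSq_eq_norm_sq]; push_cast; rfl
  have h'' : conj (jf γ τ) ≠ 0 := by simpa using h
  rw [im_SL]
  push_cast
  rw [h']
  field_simp

theorem WW_smul (hE : S_EE) {d : ℕ} {u : ℍ → ℂ} {ω ω' : Q3 × ℚ → ℂ} {c : Q2 → ℂ} (hc : SB c)
    {γ : SL} {τ : ℍ} {a : ℂ}
    (h : JF d u ω (γ • τ) = a * (jf γ τ ^ 2 * conj (jf γ τ) * JF d u ω' τ)) :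
    WW d u ω c (γ • τ) = a * WW d u ω' (fun w => c (vm w γ⁻¹)) τ := by
  rw [WW, WW, h, EE_smul hE hc, ← im_SL_sq γ τ]
  ring

theorem good (hJ : S_JF) (h2 : S_JF2) (hE : S_EE) {d : ℕ} (hd : 0 < d) {u : ℍ → ℂ} (hu : Rec u)
    {ω : Q3 × ℚ → ℂ} (hω : SB ω) {c : Q2 → ℂ} (hc : SB c) : HGood (WW d u ω c) := by
  obtain ⟨c0, -, hJ⟩ := hJ d hd
  obtain ⟨⟨N, hN, h1⟩, h3, -⟩ := h2 d hd u hu ω hω
  obtain ⟨M, hM, hcM⟩ := id hc
  refine hgood_of_bound (N := N * M ^ 2) (a := 0) (by positivity) (fun γ hγ τ => ?_) ?_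
    zero_lt_one fun γ => ?_
  · have e : (fun w => c (vm w γ⁻¹)) = c :=
      funext (lev_Gamma hcM (inv_mem (Gamma_le (dvd_mul_left _ _) hγ)))
    have := WW_smul hE hc (a := 1) (ω' := ω)
      (by rw [h1 γ (Gamma_le (dvd_mul_right _ _) hγ) τ, one_mul])
    rw [this, e, one_mul]
  · exact (((continuous_ofReal.comp UpperHalfPlane.continuous_im).pow 2).mul
      (hJ u hu ω hω).2.1 |>.mul (hE c hc).1).measurable
  · obtain ⟨ω', hω', h4⟩ := h3 γ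
    obtain ⟨K, hK⟩ := dec_bdd (hJ u hu ω' hω').2.2.1 (2 + 1 / 4) (by norm_num)
    obtain ⟨K', hK'⟩ := (hE _ (sb_vm hc γ⁻¹)).2.2.2.2.2.2.2
    refine ⟨|K'| * K, fun τ hτ => ?_⟩
    rw [WW_smul hE hc (a := 1) (ω' := ω') (by rw [h4, one_mul]), one_mul, Real.rpow_zero, mul_one,
      WW, norm_mul, norm_mul, norm_pow, norm_real, Real.norm_of_nonneg τ.im_pos.le]
    have h5 := hK τ hτ
    rw [Real.rpow_add τ.im_pos, Real.rpow_two] at h5
    have h6 : 0 ≤ τ.im ^ (1 / 4 : ℝ) := Real.rpow_nonneg τ.im_pos.le _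
    calc _ ≤ τ.im ^ 2 * ‖JF d u ω' τ‖ * (|K'| * τ.im ^ (1 / 4 : ℝ)) :=
          mul_le_mul_of_nonneg_left ((hK' τ hτ).trans
            (mul_le_mul_of_nonneg_right (le_abs_self _) h6)) (by positivity)
      _ = |K'| * (τ.im ^ 2 * τ.im ^ (1 / 4 : ℝ) * ‖JF d u ω' τ‖) := by ring
      _ ≤ _ := mul_le_mul_of_nonneg_left h5 (abs_nonneg _)

theorem nn_det (b : ℚ) : 0 < (nn b).1.det := by
  rw [nn_val]; simp

theorem im_nn (b : ℚ) (τ : ℍ) : (actH (nn b) τ).im = τ.im := by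
  have := congrArg Complex.im (coe_nn b τ)
  simpa using this

theorem nn_neg (b : ℚ) (τ : ℍ) : actH (nn (-b)) (actH (nn b) τ) = τ := by
  apply UpperHalfPlane.ext
  rw [coe_nn, coe_nn]; push_cast; ring

theorem vm_S_inv (w : Q2) : vm w ModularGroup.S⁻¹ = (-w.2, w.1) := by
  have : w = vm (-w.2, w.1) ModularGroup.S := by
    ext <;> simp [vm, ModularGroup.S]
  conv_lhs => rw [this, vm_inv]

theorem hmean_SL (w : ℍ → ℂ) (γ : SL) : hmean (fun τ => w (γ • τ)) = hmean w := by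
  simp only [← actH_iota]
  exact hmean_act w _

theorem im_dil {j : ℚ} (hj : 0 < j) (τ : ℍ) : ((dil j τ).im : ℂ) = j * τ.im := by
  have := congrArg Complex.im (coe_dil hj τ)
  simp only [coe_im, mul_im, ratCast_re, ratCast_im, zero_mul, add_zero] at this
  rw [this]; push_cast; rfl

theorem dil_dil {j : ℚ} (hj : 0 < j) (τ : ℍ) : dil j⁻¹ (dil j τ) = τ := by
  apply UpperHalfPlane.ext
  have : (j : ℂ) ≠ 0 := by exact_mod_cast hj.ne'
  rw [coe_dil (inv_pos.2 hj), coe_dil hj]; push_cast; field_simp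

theorem isInt_dvd {W : Type} [AddCommGroup W] [Module ℚ W] [Lat W] {x : W} {a b : ℕ} (h : a ∣ b)
    (hx : IsInt ((a : ℚ) • x)) : IsInt ((b : ℚ) • x) := by
  obtain ⟨k, rfl⟩ := h
  have := hx.nsmul k
  rwa [smul_smul, ← Nat.cast_mul, mul_comm] at this

theorem isInt_dil {j : ℚ} {K : ℕ} {w : Q2} (h : IsInt ((K : ℚ) • w)) :
    IsInt (((K * j.den : ℕ) : ℚ) • ((j * w.1, w.2) : Q2)) := by
  obtain ⟨h1, h2⟩ := (isInt_prod _).1 h
  refine (isInt_prod _).2 ⟨?_, isInt_dvd (dvd_mul_right _ _) h2⟩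
  have := h1.zsmul j.num
  simp only [Prod.smul_fst, smul_eq_mul] at this ⊢
  convert this using 1
  rw [← Rat.den_mul_eq_num]; push_cast; ring

theorem isInt_of_dil {j : ℚ} (hj : 0 < j) {K : ℕ} {w : Q2}
    (h : IsInt ((K : ℚ) • ((j * w.1, w.2) : Q2))) :
    IsInt (((K * j.num.natAbs : ℕ) : ℚ) • w) := by
  obtain ⟨h1, h2⟩ := (isInt_prod _).1 h
  refine (isInt_prod _).2 ⟨?_, isInt_dvd (dvd_mul_right _ _) h2⟩
  have := h1.nsmul j.den
  simp only [Prod.smul_fst, smul_eq_mul] at this ⊢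
  convert this using 1
  have e : ((j.num.natAbs : ℕ) : ℚ) = j.num := by
    rw [← Int.cast_natCast, Int.natAbs_of_nonneg (Rat.num_pos.2 hj).le]
  rw [Nat.cast_mul, e, ← Rat.den_mul_eq_num]; ring

theorem lev_dil {j : ℚ} (hj : 0 < j) {K K' : ℕ} {c : Q2 → ℂ} (h : Lev K c)
    (h1 : K * j.den ∣ K') (h2 : K * j.num.natAbs ∣ K') :
    Lev K' fun w : Q2 => c (j * w.1, w.2) := by
  refine ⟨fun x k hk => ?_, fun x hx => isInt_dvd h2 (isInt_of_dil hj (h.2 _ hx))⟩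
  obtain ⟨m, rfl⟩ := h1
  have h3 : IsInt (((1 : ℕ) : ℚ) • k) := by simpa using hk
  have h4 := (isInt_dil (j := j) h3).nsmul m
  beta_reduce
  rw [← h.1 (j * x.1, x.2) _ h4]
  congr 1
  ext <;> simp <;> ring

theorem chiEq_dil {d M M' : ℕ} {j : ℚ} {c : Q2 → ℂ} (hc : SBM M c) (h : ChiEq d M c)
    (h1 : M ∣ M') (h2 : j.den ∣ M') : ChiEq d M' fun w => c (j * w.1, w.2) := by
  rintro n hn w ⟨k, hk⟩
  have e : ((j * ((n : ℚ) • w).1, ((n : ℚ) • w).2) : Q2) = (n : ℚ) • ((j * w.1, w.2) : Q2) := by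
    ext <;> simp; ring
  have hn' : IsCoprime n M := hn.of_isCoprime_of_dvd_right (Int.natCast_dvd_natCast.2 h1)
  simp only [e]
  set x : Q2 := (j * w.1, w.2)
  by_cases hx : ∃ k : ℕ, IsInt (((M ^ k : ℕ) : ℚ) • x)
  · exact h n hn' x hx
  · obtain ⟨k0, hk0⟩ := hc
    have e1 : c x = 0 := by
      by_contra h0
      exact hx ⟨k0, hk0.2 _ h0⟩
    have e2 : c ((n : ℚ) • x) = 0 := by
      by_contra h0
      refine hx ⟨k0, IsInt.of_coprime (a := n) (b := (M' : ℤ) ^ (k + 1)) hn.pow_right ?_ ?_⟩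
      · rw [smul_comm]; exact hk0.2 _ h0
      · rw [smul_comm]
        have := (isInt_dvd (b := M' ^ (k + 1)) (by rw [pow_succ]; exact mul_dvd_mul_left _ h2)
          (isInt_dil (j := j) hk)).nsmul (M ^ k0)
        rwa [Int.cast_pow, Int.cast_natCast, ← Nat.cast_pow]
    rw [e1, e2, mul_zero]

end BBP

open BBP in
theorem bb (hJ : S_JF) (h2 : S_JF2) (hX : S_Mix) (hE : S_EE) (h0 : S_E0) (hC : S_Cusp) : S_BB := by
  intro d hd
  have hg := fun u (hu : Rec u) ω c (hω : SB ω) (hc : SB c) => good hJ h2 hE hd hu hω hc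
  refine ⟨hg, fun M hM => ⟨fun β u => ⟨fun τ => u.1 (actH (nn (-β)) τ),
    u.2.comp_act _ (nn_det _)⟩, ?_⟩⟩
  obtain ⟨c0, hc0, hJ⟩ := hJ d hd
  have hX := (hX d hd).2
  refine ⟨fun u Ω Ω' c hΩ hΩ' hc => ?_, fun u a Ω c hΩ hc => ?_, fun u Ω c c' hΩ hc hc' => ?_,
    fun u a Ω c hΩ hc => ?_, fun u b Ω c hΩ hc => ?_, ⟨c0 * I, ?_, fun u Ω c hΩ hc => ?_⟩,
    fun u β Ω c hΩ hc => ?_, fun Ω c hΩ hc q N hq hN h u => ?_, fun u Ω c hΩ h1 h3 h4 => ?_⟩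
  · simp only [BB_eq]
    rw [← hmean_add (hg _ u.2 _ _ (hX _ hΩ).1 hc) (hg _ u.2 _ _ (hX _ hΩ').1 hc)]
    congr 1
    funext τ
    simp only [WW, Pi.add_apply, (hX _ hΩ).2.1 _ hΩ',
      (hJ _ u.2 _ (hX _ hΩ).1).2.2.2.2.2.2.2.2.1 _ (hX _ hΩ').1]
    ring
  · simp only [BB_eq]
    rw [← hmean_smul]
    congr 1
    funext τ
    simp only [WW, Pi.smul_apply, (hX _ hΩ).2.2.1,
      ((hJ _ u.2 _ (hX _ hΩ).1).2.2.2.2.2.2.2.2.2.1 _).1, smul_eq_mul]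
    ring
  · simp only [BB_eq]
    rw [← hmean_add (hg _ u.2 _ _ (hX _ hΩ).1 hc) (hg _ u.2 _ _ (hX _ hΩ).1 hc')]
    congr 1
    funext τ
    simp only [WW, Pi.add_apply, (hE _ hc).2.2.2.2.2.1 _ hc']
    ring
  · simp only [BB_eq]
    rw [← hmean_smul]
    congr 1
    funext τ
    simp only [WW, Pi.smul_apply, (hE _ hc).2.2.2.2.2.2.1, smul_eq_mul]
    ring
  · simp only [BB_eq]
    rw [← hmean_act (WW d u.1 (unsh Ω) c) (nn b)]
    congr 1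
    funext τ
    rw [WW, WW, im_nn, (hJ _ u.2 _ (hX _ hΩ).1).2.2.2.2.1, (hE _ hc).2.2.2.1,
      ((hX _ hΩ).2.2.2.1 b).2]
  · exact mul_ne_zero (by exact_mod_cast hc0.ne') I_ne_zero
  · simp only [BB_eq]
    rw [← hmean_SL _ ModularGroup.S, ← hmean_smul]
    congr 1
    funext τ
    rw [WW_smul hE hc (a := c0 * I) (ω' := unsh (sO d Ω))
      (by rw [(hJ _ u.2 _ (hX _ hΩ).1).2.2.2.1, (hX _ hΩ).2.2.2.2.1.2, jf_S]; ring)]
    simp only [vm_S_inv]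
    rfl
  · simp only [BB]
    rw [((hX _ hΩ).2.2.2.2.2.1 β).2, ← (hJ _ (u.2.comp_act _ (nn_det (-β))) _
      (hX _ hΩ).1).2.2.2.2.2.2.2.1 (nn β)]
    simp only [nn_neg]
  · have hω := (hX _ hΩ).1
    refine hC (fun u => BB d u (unsh Ω) c) (fun u u' hu hu' => ?_) (fun a u hu => ?_) ?_
      ⟨q, N, hq, hN, fun a k u hu => ?_⟩ u.1 u.2
    · simp only [BB_eq]
      rw [← hmean_add (hg _ hu _ _ hω hc) (hg _ hu' _ _ hω hc)]
      congr 1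
      funext τ
      simp only [WW, Pi.add_apply, (hJ _ hu _ hω).2.2.2.2.2.2.2.2.2.2 _ hu']
      ring
    · simp only [BB_eq]
      rw [← hmean_smul]
      congr 1
      funext τ
      simp only [WW, Pi.smul_apply, ((hJ _ hu _ hω).2.2.2.2.2.2.2.2.2.1 _).2, smul_eq_mul]
      ring
    · obtain ⟨K, hK, hl⟩ := id hω
      refine ⟨K ^ 2, by positivity, fun γ hγ u hu => ?_⟩
      have e : (fun Y : Q3 × ℚ => unsh Ω (co ((iota γ).1 * tz Y.1 * ((iota γ)⁻¹).1), Y.2)) =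
          unsh Ω := funext fun Y => (hl.fst Y.2).conj_Gam ⟨γ, hγ, rfl⟩ Y.1
      have := (hJ _ hu _ hω).2.2.2.2.2.2.2.1 (iota γ)
      simp only [e, actH_iota] at this
      simp only [BB, this]
    · have := h ⟨u, hu⟩ (-a) k
      have e : -((N : ℚ) * ((-a : ℤ) : ℚ) / q ^ k) = N * a / q ^ k := by push_cast; ring
      simp only [e] at this
      exact this
  · simp only [BB, h0 d M c hM h1 h3 h4, Pi.zero_apply, mul_zero]
    exact hmean_zero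

open BBP in
theorem van (_hH : S_Hil) (hX : S_Mix) (hE : S_EE) (hB : S_BB) (hA : S_LocA) (hL : S_LocB) :
    S_Van := by
  intro d M hsq hM hdM u hu ω c hω hc hχ j hj
  have hd : 0 < d := Nat.pos_of_ne_zero hsq.ne_zero
  obtain ⟨Ω, ⟨M0, hM0, hΩ⟩, rfl⟩ := (hX d hd).1 ω hω
  obtain ⟨a, ha⟩ := (hE c (hc.sb hM)).2.2.2.2.1 j hj
  have hp : 0 < j.num.natAbs := Int.natAbs_pos.2 (Rat.num_pos.2 hj).ne'
  have hq := j.den_pos
  set M' := M * j.num.natAbs * j.den * M0 with hM'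
  have hM'0 : 0 < M' := by positivity
  have d1 : M ∣ M' := ⟨j.num.natAbs * j.den * M0, by ring⟩
  have d2 : j.num.natAbs ∣ M' := ⟨M * j.den * M0, by ring⟩
  have d3 : j.den ∣ M' := ⟨M * j.num.natAbs * M0, by ring⟩
  have d4 : M0 ∣ M' ^ 1 := ⟨M * j.num.natAbs * j.den, by ring⟩
  have hc' : SBM M' fun w : Q2 => c (j * w.1, w.2) := by
    obtain ⟨k, hk⟩ := hc
    refine ⟨k + 1, lev_dil hj hk ?_ ?_⟩
    · rw [pow_succ]; exact mul_dvd_mul (pow_dvd_pow_of_dvd d1 k) d3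
    · rw [pow_succ]; exact mul_dvd_mul (pow_dvd_pow_of_dvd d1 k) d2
  obtain ⟨hg, hB⟩ := hB d hd
  obtain ⟨sh, hD⟩ := hB M' hM'0
  have h0 := hA d M' _ sh _ hd hM'0 (hdM.trans d1) hD
    (hL d M' _ sh _ hsq hM'0 (hdM.trans d1) hD) ⟨u, hu⟩ Ω _ ⟨1, hΩ.mono d4⟩ hc'
    (chiEq_dil hc hχ d1 d3)
  have e : (fun τ : ℍ => (τ.im : ℂ) ^ 2 * JF d u (unsh Ω) (dil j τ) * EE c τ) =
      (a / (j : ℂ) ^ 2) • fun τ => WW d u (unsh Ω) (fun w => c (j * w.1, w.2))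
        (actH (toG !![j, 0; 0, 1]) τ) := by
    funext τ
    have h1 := ha (dil j τ)
    rw [dil_dil hj] at h1
    have h2 : (j : ℂ) ≠ 0 := by exact_mod_cast hj.ne'
    change _ = _ * WW _ _ _ _ (dil j τ)
    rw [WW, im_dil hj, h1]
    field_simp
  rw [e]
  refine ⟨((hg u hu _ _ hω (hc'.sb hM'0)).comp_act _).smul _, ?_⟩
  rw [hmean_smul, hmean_act, ← BB_eq]
  exact mul_eq_zero_of_right _ h0

end

end Pool.Agent.P.MP_b8021b_nt.CM
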