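import Pool.Agent.P.MP_b8021b_nt.CM.Borch1

/-! Package P7, second part: duality for Schwartz-Bruhat functions and modularity of `G2`. -/

namespace Pool.Agent.P.MP_b8021b_nt.CM

open Complex hiding Gamma
open UpperHalfPlane hiding I
open MeasureTheory CongruenceSubgroup Filter
open scoped Real MatrixGroups ModularForm Topology ComplexConjugate Modular

noncomputable section

namespace BorchP

variable {M : ℕ}

/-- the function of level `M` with values `c` -/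
def lz (M : ℕ) (c : R2 (M ^ 2) → ℂ) : M2 → ℂ := liftZ M fun Z => c (red (M ^ 2) Z)

/-- the point `Z / M` -/
def sc (M : ℕ) (Z : Z2) : M2 := (M : ℚ)⁻¹ • castZ Z

theorem lz_sc (hM : 0 < M) (c : R2 (M ^ 2) → ℂ) (Z : Z2) : lz M c (sc M Z) = c (red (M ^ 2) Z) :=
  liftZ_castZ hM _ Z

theorem lev_lz (hM : 0 < M) (c : R2 (M ^ 2) → ℂ) : Lev M (lz M c) := lev_liftZ hM c

theorem smul_sc (hM : 0 < M) (Z : Z2) : (M : ℚ) • sc M Z = castZ Z := by
  rw [sc, smul_smul, mul_inv_cancel₀ (by positivity), one_smul]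

theorem exists_sc (hM : 0 < M) {Y : M2} (h : IsInt ((M : ℚ) • Y)) : ∃ Z, Y = sc M Z := by
  obtain ⟨Z, hZ⟩ := (isInt_M2 _).1 h
  exact ⟨Z, by rw [sc, hZ, smul_smul, inv_mul_cancel₀ (by positivity), one_smul]⟩

theorem det_sc (Z : Z2) : (sc M Z).det = (Z.det : ℚ) / M ^ 2 := by
  rw [sc, Matrix.det_smul, castZ_det]
  simp [div_eq_inv_mul]

theorem sc_inj (hM : 0 < M) : Function.Injective (sc M) := fun Y Z h =>
  castZ_injective (by rw [← smul_sc hM, ← smul_sc hM, h])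

theorem sc_neg (Z : Z2) : -sc M Z = sc M (-Z) := by
  ext i j; simp [sc, castZ]

theorem lev_ext (hM : 0 < M) {φ ψ : M2 → ℂ} (h : Lev M φ) (h' : Lev M ψ)
    (e : ∀ Z, φ (sc M Z) = ψ (sc M Z)) : φ = ψ := by
  ext Y
  by_cases hY : IsInt ((M : ℚ) • Y)
  · obtain ⟨Z, rfl⟩ := exists_sc hM hY
    exact e Z
  · rw [not_not.1 (mt (h.2 Y) hY), not_not.1 (mt (h'.2 Y) hY)]

/-- a lift to integral matrices -/
def lf (N : ℕ) (μ : R2 N) : Z2 := μ.map ZMod.cast

theorem red_lf (N : ℕ) (μ : R2 N) : red N (lf N μ) = μ := by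
  ext i j; simp [red, lf]

theorem sc_add (hM : 0 < M) (Z K : Z2) :
    sc M (Z + ((M ^ 2 : ℕ) : ℤ) • K) = sc M Z + (M : ℚ) • castZ K := by
  rw [sc, sc, castZ_add, castZ_smul, smul_add, smul_smul]
  congr 2
  push_cast
  field_simp

theorem lev_red (hM : 0 < M) {φ : M2 → ℂ} (h : Lev M φ) {Y Z : Z2}
    (e : red (M ^ 2) Y = red (M ^ 2) Z) : φ (sc M Y) = φ (sc M Z) := by
  obtain ⟨K, rfl⟩ := (red_eq_iff _ _ _).1 e
  rw [sc_add hM]
  exact h.1 _ _ ((isInt_M2 _).2 ⟨K, rfl⟩)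

theorem eq_lz (hM : 0 < M) {φ : M2 → ℂ} (h : Lev M φ) :
    φ = lz M fun μ => φ (sc M (lf _ μ)) :=
  lev_ext hM h (lev_lz hM _) fun Z => by
    rw [lz_sc hM]; exact lev_red hM h (red_lf _ _).symm

open Classical in
/-- indicator function of a class -/
def dl (M : ℕ) (μ : R2 (M ^ 2)) : M2 → ℂ := lz M fun ν => if ν = μ then 1 else 0

theorem lev_dl (hM : 0 < M) (μ : R2 (M ^ 2)) : Lev M (dl M μ) := lev_lz hM _

theorem lz_eq_sum [NeZero (M ^ 2)] (hM : 0 < M) (c : R2 (M ^ 2) → ℂ) :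
    lz M c = ∑ μ, c μ • dl M μ :=
  lev_ext hM (lev_lz hM _) (Lev.sum _ _ fun μ _ => (lev_dl hM μ).smul _) fun Z => by
    simp [Finset.sum_apply, dl, lz_sc hM]

theorem II_lz [NeZero (M ^ 2)] (hM : 0 < M) (c : R2 (M ^ 2) → ℂ) :
    II (lz M c) = (∑ μ, c μ) / (M : ℂ) ^ 4 := by
  classical
  have inj : Function.Injective fun μ : R2 (M ^ 2) => sc M (lf _ μ) := fun μ ν h => by
    rw [← red_lf _ μ, sc_inj hM h, red_lf]
  rw [II_eq_sum hM (lev_lz hM c) (Finset.univ.image fun μ : R2 (M ^ 2) => sc M (lf _ μ)),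
    Finset.sum_image inj.injOn, idx_M2]
  · push_cast
    congr 1
    exact Finset.sum_congr rfl fun μ _ => by
      have := lz_sc hM c (lf _ μ)
      rwa [red_lf] at this
  · intro x hx
    obtain ⟨Z, rfl⟩ := exists_sc hM ((lev_lz hM c).2 x hx)
    have key : ∀ W : Z2, IsInt ((M : ℚ)⁻¹ • (sc M Z - sc M W)) ↔
        red (M ^ 2) Z = red (M ^ 2) W := fun W => by
      rw [red_eq_iff, isInt_M2]
      refine exists_congr fun K => ?_
      rw [← (sc_inj hM).eq_iff, sc_add hM, eq_inv_smul_iff₀ (by positivity), eq_sub_iff_add_eq',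
        eq_comm]
    refine ⟨sc M (lf _ (red _ Z)), ⟨Finset.mem_image_of_mem _ (Finset.mem_univ _),
      (key _).2 (red_lf _ _).symm⟩, ?_⟩
    rintro y ⟨hy, hy'⟩
    obtain ⟨μ, -, rfl⟩ := Finset.mem_image.1 hy
    rw [(key _).1 hy', red_lf]

theorem eq_bil [NeZero (M ^ 2)] (Y Z : Z2) :
    eq (-bil (sc M Y) (sc M Z)) = eM (M ^ 2) (-bil (red (M ^ 2) Y) (red (M ^ 2) Z)) := by
  have : -bil (red (M ^ 2) Y) (red (M ^ 2) Z) = ((-bil Y Z : ℤ) : ZMod (M ^ 2)) := by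
    simp [bil, red_apply]
  rw [this, eM_intCast]
  congr 1
  simp [bil, sc, castZ_apply]
  ring

theorem FV_lz [NeZero (M ^ 2)] (hM : 0 < M) (c : R2 (M ^ 2) → ℂ) :
    FV (lz M c) = lz M fun ν => (∑ μ, c μ * eM (M ^ 2) (-bil μ ν)) / (M : ℂ) ^ 4 :=
  lev_ext hM ((lev_lz hM c).lev_FV hM) (lev_lz hM _) fun Z => by
    rw [lz_sc hM, ← II_lz hM, FV]
    congr 1
    ext Y
    by_cases hY : IsInt ((M : ℚ) • Y)
    · obtain ⟨W, rfl⟩ := exists_sc hM hY
      rw [lz_sc hM, lz_sc hM, eq_bil]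
    · have h1 : lz M c Y = 0 := not_not.1 (mt ((lev_lz hM _).2 Y) hY)
      rw [h1, zero_mul]
      exact (not_not.1 (mt ((lev_lz hM _).2 Y) hY)).symm

end BorchP

open BorchP in
theorem dualQ (hD : S_Dual) : S_DualQ := by
  classical
  intro G hadd hsm hcon hnp hneg hkey φ ⟨M, hM, hφ⟩
  have : NeZero (M ^ 2) := ⟨by positivity⟩
  have G0 : ∀ n, G 0 n = 0 := fun n => by simpa using hsm 0 0 n
  have hsum : ∀ (c : R2 (M ^ 2) → ℂ) n, G (lz M c) n = ∑ μ, c μ * G (dl M μ) n := fun c n => by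
    rw [lz_eq_sum hM]
    induction (Finset.univ : Finset (R2 (M ^ 2))) using Finset.induction_on with
    | empty => simpa using G0 n
    | insert μ s hμ ih =>
      rw [Finset.sum_insert hμ, Finset.sum_insert hμ, hadd _ _ _ (((lev_dl hM μ).smul _).sb hM)
        ((Lev.sum _ _ fun μ _ => (lev_dl hM μ).smul _).sb hM), hsm, ih]
  have supp : ∀ μ m, G (dl M μ) m ≠ 0 →
      ∃ Z : Z2, red (M ^ 2) Z = μ ∧ m = (Z.det : ℚ) / M ^ 2 := fun μ m h => by
    by_contra hh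
    refine h ((hcon _ 0 m fun Y hY => ?_).trans (G0 m))
    by_contra h0
    obtain ⟨Z, rfl⟩ := exists_sc hM ((lev_dl hM μ).2 Y h0)
    refine hh ⟨Z, ?_, by rw [← hY, det_sc]⟩
    simpa [dl, lz_sc hM] using h0
  have hM' : (M : ℚ) ^ 2 ≠ 0 := by positivity
  obtain ⟨d1, d2⟩ := hD (M ^ 2) (fun μ n => G (dl M μ) ((n : ℚ) / M ^ 2))
    (fun μ => hnp _ _ (by simp))
    (fun μ n h => by
      obtain ⟨Z, rfl, h2⟩ := supp μ _ h
      rw [div_left_inj' hM'] at h2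
      rw [red_det, ← show (n : ℤ) = Z.det by exact_mod_cast h2, Int.cast_natCast])
    (fun μ n => by
      rw [← hneg (dl M μ)]
      congr 1
      refine lev_ext hM (lev_dl hM _) (lev_dl hM μ).neg_arg fun Z => ?_
      have : red (M ^ 2) (-Z) = -red (M ^ 2) Z := by ext i j; simp [red]
      simp only [sc_neg, dl, lz_sc hM, this, neg_eq_iff_eq_neg])
    (fun F C n0 hF h1 h2 => by
      have := hkey M F (fun Y => C (red _ Y) Y.det.toNat) n0 hM hF
        ⟨fun Y hY => by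
          rw [PP, ← h1 _ _ (by omega), Int.toNat_of_nonneg hY.le],
        fun Y hY => h2 _ _ (by omega)⟩
      rw [Finset.sum_comm, ← this]
      refine Finset.sum_congr rfl fun n hn => ?_
      have e := hsum (fun μ => coef (M ^ 2) (F μ) (-n)) ((n : ℚ) / M ^ 2)
      rw [lz] at e
      rw [e]
      exact Finset.sum_congr rfl fun μ _ => by rw [h1 μ n (Finset.mem_Icc.1 hn).1])
  have hs : ∀ μ (τ : ℍ), HasSum (fun m : ℚ => G (dl M μ) m * e (m * τ))
      (∑' n : ℕ, G (dl M μ) ((n : ℚ) / M ^ 2) * e (n * τ / (M ^ 2 : ℕ))) := fun μ τ => by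
    rw [hasSum_pos_lat (M := M ^ 2) (by positivity)]
    · refine (d1 μ τ).of_norm.hasSum.congr_fun fun n => ?_
      push_cast
      rw [div_mul_eq_mul_div]
    · intro m hm
      have h0 := left_ne_zero_of_mul hm
      obtain ⟨Z, -, h2⟩ := supp μ m h0
      refine ⟨le_of_not_gt fun h => h0 (hnp _ _ h.le), (isInt_rat _).2 ⟨Z.det, ?_⟩⟩
      rw [h2, smul_eq_mul]
      push_cast
      field_simp
  have hs' : ∀ (c : R2 (M ^ 2) → ℂ) (τ : ℍ), HasSum (fun m : ℚ => G (lz M c) m * e (m * τ))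
      (∑ μ, c μ * ∑' n : ℕ, G (dl M μ) ((n : ℚ) / M ^ 2) * e (n * τ / (M ^ 2 : ℕ))) := by
    intro c τ
    simp only [hsum, Finset.sum_mul, mul_assoc]
    exact hasSum_sum fun μ _ => (hs μ τ).mul_left _
  rw [eq_lz hM hφ, FV_lz hM]
  refine ⟨fun τ => summable_norm_iff.2 (hs' _ τ).summable, fun τ => ?_⟩
  rw [qs, qs, (hs' _ _).tsum_eq, (hs' _ _).tsum_eq]
  simp only [d2, Finset.mul_sum, Finset.sum_div, Finset.sum_mul]
  rw [Finset.sum_comm]
  refine Finset.sum_congr rfl fun ν _ => Finset.sum_congr rfl fun μ _ => ?_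
  push_cast
  ring

open BorchP in
theorem g2S (hB : S_Borch) (hD : S_DualQ) : S_G2 := by
  classical
  intro u hu σ
  refine hD (G2 u σ) (fun φ ψ n h h' => G2_add hu.hasLev σ h h' n) (fun c φ n => G2_smul c σ φ n)
    (fun φ ψ n h => G2_congr σ h) (fun φ n h => by_contra fun h0 => h.not_gt (G2_supp h0).1)
    (G2_neg σ) fun M _ F C n0 hM hF hC => ?_
  obtain ⟨E, hT, hE, hB⟩ := hB (M ^ 2) F C n0 hF hC
  have hO := tens_inO hT σ
  have h0 := hu.2 (M ^ 2) (by positivity) _ hO (hE σ)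
  set φ : ℕ → M2 → ℂ := fun n => lz M fun μ => coef (M ^ 2) (F μ) (-n) with hφ
  have hl : ∀ n, Lev M (φ n) := fun n => lev_lz hM _
  have gd : ∀ n ∈ Finset.Icc 1 n0, DGood leftA G0 (g2W u σ (φ n) ((n : ℚ) / M ^ 2)) :=
    fun n _ => g2W_good hu.hasLev σ ((hl n).sb hM) _
  change ∑ n ∈ Finset.Icc 1 n0, dmean leftA G0 (g2W u σ (φ n) ((n : ℚ) / M ^ 2)) = 0
  rw [← dmean_sum _ _ gd]
  set w := ∑ n ∈ Finset.Icc 1 n0, g2W u σ (φ n) ((n : ℚ) / M ^ 2) with hw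
  have hM' : (M : ℚ) ^ 2 ≠ 0 := by positivity
  have dne : ∀ Z : Z2, 0 < Z.det → (sc M Z).det ≠ 0 := fun Z h => by
    rw [det_sc]; positivity
  have hact : ∀ Z : Z2, actH (toG (sc M Z)) σ = act (castZ Z) σ := fun Z =>
    act_smul (by positivity) _ _
  have w1 : ∀ Y, w Y ≠ 0 → ∃ Z : Z2, 0 < Z.det ∧ Z.det ≤ n0 ∧ Y = toG (sc M Z) := fun Y hY => by
    rw [hw, Finset.sum_apply] at hY
    obtain ⟨n, hn, h⟩ := Finset.exists_ne_zero_of_sum_ne_zero hY
    rw [g2W] at h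
    split_ifs at h with h1
    · obtain ⟨Z, hZ⟩ := exists_sc hM ((hl n).2 _ (left_ne_zero_of_mul h))
      have h2 := h1.2
      rw [hZ, det_sc, div_left_inj' hM'] at h2
      have h3 : Z.det = n := by exact_mod_cast h2
      obtain ⟨n1, n2⟩ := Finset.mem_Icc.1 hn
      exact ⟨Z, by omega, by omega, by rw [← hZ, toG_self]⟩
    · exact absurd rfl h
  have w2 : ∀ Z : Z2, 0 < Z.det → Z.det ≤ n0 →
      w (toG (sc M Z)) = C Z * u (act (castZ Z) σ) := fun Z z0 z1 => by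
    obtain ⟨n, hn⟩ := Int.eq_ofNat_of_zero_le z0.le
    rw [hw, Finset.sum_apply, Finset.sum_eq_single_of_mem n (Finset.mem_Icc.2 ⟨by omega, by omega⟩)]
    · have : (0 : ℚ) < n := by exact_mod_cast (by omega : 0 < n)
      rw [g2W, toG_val (dne Z z0), det_sc, if_pos ⟨by positivity, by rw [hn, Int.cast_natCast]⟩,
        hact, hφ]
      simp only [lz_sc hM]
      rw [← hC.1 Z z0, PP, hn]
    · intro m _ hm
      rw [g2W, toG_val (dne Z z0), det_sc, if_neg]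
      rintro ⟨-, h⟩
      rw [div_left_inj' hM', hn] at h
      exact hm (by exact_mod_cast h.symm)
  have loc : ∀ y : ℍ, ∃ S : Finset Z2,
      (∀ Y, Y ∈ S ↔ 0 < Y.det ∧ Y.det ≤ n0 ∧ act (castZ Y) σ = y) ∧
      2 * ordAt (E σ) y = ∑ Y ∈ S, C Y := fun y => by
    obtain ⟨S, c, K, c0, hS, h⟩ := hB σ y
    refine ⟨S, hS, (hO.1.1.ord_eq (c := c) (C := K) two_pos c0 ?_).2⟩
    have t : Tendsto (fun z : ℍ => (σ, z)) (𝓝 y) (𝓝 (σ, y)) :=
      (continuous_const.prodMk continuous_id).tendsto y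
    filter_upwards [t.eventually h] with z hz
    rwa [Finset.prod_congr rfl fun Y hY => by rw [((hS Y).1 hY).2.2],
      Finset.prod_pow_eq_pow_sum] at hz
  have sub : ∀ (y : ℍ) (S : Finset Z2),
      (∀ Y, Y ∈ S ↔ 0 < Y.det ∧ Y.det ≤ n0 ∧ act (castZ Y) σ = y) →
      {x | actH x σ = y} ∩ Function.support w =
        ↑(S.image fun Z => toG (sc M Z)) ∩ Function.support w := fun y S hS => by
    ext x
    refine and_congr_left fun hx => ⟨fun h => ?_, fun h => ?_⟩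
    · obtain ⟨Z, z0, z1, rfl⟩ := w1 x hx
      exact Finset.mem_image_of_mem _ ((hS Z).2 ⟨z0, z1, (hact Z).symm.trans h⟩)
    · obtain ⟨Z, hZ, rfl⟩ := Finset.mem_image.1 h
      exact (hact Z).trans ((hS Z).1 hZ).2.2
  have push := (dmean_push (ρ' := actH) (DGood.sum _ _ gd) Set.univ (fun Y => actH Y σ)
    (fun _ _ _ _ => trivial) (fun _ _ => trivial) (fun γ _ x _ => actH_mul γ x σ)
    (fun y => by
      obtain ⟨S, hS, -⟩ := loc y
      exact ((S.image fun Z => toG (sc M Z)).finite_toSet.inter_of_left _).subset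
        (sub y S hS).subset)
    fun x _ => finite_stab_G0 _).2
  rw [← push, ← mul_zero 2, ← h0, ← dmean_smul]
  congr 1
  ext y
  obtain ⟨S, hS, h⟩ := loc y
  rw [finsum_mem_eq_sum_of_inter_support_eq w (sub y S hS), Finset.sum_image, Pi.smul_apply,
    smul_eq_mul, ← mul_assoc, show (2 : ℂ) * (ordAt (E σ) y : ℂ) = ∑ Y ∈ S, (C Y : ℂ) by
      exact_mod_cast h, Finset.sum_mul]
  · refine Finset.sum_congr rfl fun Z hZ => ?_
    obtain ⟨z0, z1, z2⟩ := (hS Z).1 hZ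
    rw [w2 Z z0 z1, z2]
  · intro Y hY Z hZ e
    apply sc_inj hM
    rw [← toG_val (dne Y ((hS Y).1 hY).1), ← toG_val (dne Z ((hS Z).1 hZ).1)]
    exact congrArg Units.val e

end

end Pool.Agent.P.MP_b8021b_nt.CM
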