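import Pool.Agent.P.MP_b8021b_nt.CM.BorchA1

/-! Package P5: construction of the Borcherds product. -/

namespace Pool.Agent.P.MP_b8021b_nt.CM

open UpperHalfPlane hiding I
open Finset Filter
open PowerSeries (coeff constantCoeff)
open scoped Real MatrixGroups Topology

noncomputable section

namespace BorchAP

variable {M : ℕ} {F : R2 M → ℍ → ℂ} {C : Z2 → ℕ} {n0 : ℕ} {c ρ : ℝ}

/-! ### growth -/

def groS (w : ℝ) : Submodule ℂ (ℍ → ℂ) where
  carrier := {f | Gro w f}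
  zero_mem' := ⟨0, fun τ _ => by simp⟩
  add_mem' := fun {f g} ⟨K, hK⟩ ⟨K', hK'⟩ => ⟨K + K', fun τ hτ => by
    rw [add_mul]
    exact (norm_add_le _ _).trans (add_le_add (hK τ hτ) (hK' τ hτ))⟩
  smul_mem' := fun a f ⟨K, hK⟩ => ⟨‖a‖ * K, fun τ hτ => by
    rw [Pi.smul_apply, norm_smul, mul_assoc]
    exact mul_le_mul_of_nonneg_left (hK τ hτ) (norm_nonneg a)⟩

def inOS (M : ℕ) : Submodule ℂ (ℍ → ℂ) where
  carrier := {f | InO M f}
  zero_mem' := inO_const M 0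
  add_mem' := InO.add
  smul_mem' := fun a _ h => InO.smul a h

theorem gro_mono {w w' : ℝ} {f : ℍ → ℂ} (h : Gro w f) (hw : w ≤ w') : Gro w' f := by
  obtain ⟨K, hK⟩ := h
  refine ⟨|K|, fun τ hτ => (hK τ hτ).trans ?_⟩
  have := τ.im_pos
  gcongr
  exact le_abs_self K

theorem im_pt (u : ℝ) {y : ℝ} (hy : 0 < y) : (pt u y).im = y := by
  rw [← coe_im, coe_pt u hy]; simp

theorem gro_of_high (hM : 0 < M) {f : ℍ → ℂ} (h : Hol f) (hp : Per M f) {Y K w : ℝ}
    (hb : ∀ τ : ℍ, Y ≤ τ.im → ‖f τ‖ ≤ K * Real.exp (2 * π * w * τ.im)) : Gro w f := by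
  refine (gro_iff hM h hp w).2 fun n hn => ?_
  have hM' : (0 : ℝ) < M := by exact_mod_cast hM
  have ha : 2 * π * (w + n / M) < 0 := by
    refine mul_neg_of_pos_of_neg (by positivity) ?_
    have : (n : ℝ) / M < -w := (div_lt_iff₀ hM').2 hn
    linarith
  have h1 : Tendsto (fun y : ℝ => K * Real.exp (2 * π * (w + n / M) * y)) atTop (𝓝 (K * 0)) :=
    (Real.tendsto_exp_atBot.comp (tendsto_id.const_mul_atTop_of_neg ha)).const_mul K
  rw [mul_zero] at h1
  refine norm_le_zero_iff.1 (ge_of_tendsto h1 ?_)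
  filter_upwards [eventually_ge_atTop Y, eventually_gt_atTop 0] with y hy hy0
  refine (norm_coef_le hM h hp n hy0 (B := K * Real.exp (2 * π * w * y)) fun u _ _ => ?_).trans
    (le_of_eq ?_)
  · simpa only [im_pt u hy0] using hb (pt u y) (by rwa [im_pt u hy0])
  · rw [mul_assoc, ← Real.exp_add]
    congr 2
    ring

theorem norm_q (τ : ℍ) : ‖e (τ / M)‖ = (Real.exp (2 * π * τ.im / M))⁻¹ := by
  rw [norm_e, ← Real.exp_neg]
  congr 1
  simp [Complex.div_natCast_im]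
  ring

theorem hi_of_le (hM : 0 < M) (hρ : 1 ≤ ρ) {τ : ℍ} (h : M * ρ ≤ τ.im) :
    ρ * ‖e (τ / M)‖ ≤ 1 / 4 := by
  have hM' : (0 : ℝ) < M := by exact_mod_cast hM
  have h1 : ρ ≤ τ.im / M := by rwa [le_div_iff₀ hM', mul_comm]
  have h2 := Real.add_one_le_exp (2 * π * τ.im / M)
  have h3 : 4 * ρ ≤ 2 * π * τ.im / M := by
    rw [mul_div_assoc]
    nlinarith [Real.pi_gt_three]
  rw [norm_q, ← div_eq_mul_inv, div_le_iff₀ (Real.exp_pos _)]
  linarith

theorem hasSum_shift {f : ℕ → ℂ} {v : ℂ} (w : ℕ) (τ : ℍ)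
    (h : HasSum (fun n => f n * e (τ / M) ^ n) v) :
    HasSum (fun n : ℤ => (if 0 ≤ n + w then f (n + w).toNat else 0) * e (n * τ / M))
      (e (-(w * τ) / M) * v) := by
  have hi : Function.Injective fun n : ℕ => (n : ℤ) - w := fun a b hab => by simpa using hab
  refine (hi.hasSum_iff fun n hn => ?_).1 ?_
  · rw [if_neg fun h1 => hn ⟨(n + w).toNat, by simp only; omega⟩, zero_mul]
  · have e1 : ∀ n : ℕ, e (-(w * τ) / M) * (f n * e (τ / M) ^ n) =
        (if 0 ≤ (n : ℤ) - w + w then f ((n : ℤ) - w + w).toNat else 0) *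
          e (((n : ℤ) - w : ℤ) * τ / M) := fun n => by
      rw [if_pos (by omega), sub_add_cancel, Int.toNat_natCast, ← e_nat_mul, mul_left_comm, ← e_add]
      congr 2
      push_cast
      ring
    have := h.mul_left (e (-(w * τ) / M))
    simp only [e1] at this
    exact this

/-! ### gluing two expansions -/

theorem glue (hM : 0 < M) {S : Finset (ℍ → ℂ)} {a b : ℕ → ℍ → ℂ} {Y : ℝ} {w : ℕ} {u : ℍ → ℂ}
    (ha : ∀ m, InO M (a m)) (hS : ∀ m, a m ∈ Submodule.span ℂ (S : Set (ℍ → ℂ)))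
    (hsum : ∀ (n : ℤ) (σ : ℍ), Y < σ.im → Summable fun m => coef M (a m) n * e (σ / M) ^ m)
    (hsym : ∀ τ σ : ℍ, Y < τ.im → Y < σ.im → ∃ v,
      HasSum (fun m => a m τ * e (σ / M) ^ m) (u σ * (e (-(w * τ) / M) * v)) ∧
      HasSum (fun n => b n σ * e (τ / M) ^ n) v) :
    ∃ (r : ℕ) (f g : Fin r → ℍ → ℂ), (∀ i, InO M (f i)) ∧
      (∀ i, g i ∈ Submodule.span ℂ (Set.range b)) ∧ ∀ τ σ : ℍ, Y < σ.im →
        HasSum (fun m => a m τ * e (σ / M) ^ m) (u σ * ∑ i, f i τ * g i σ) := by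
  classical
  let V := Submodule.span ℂ (Set.range a)
  have hV : ∀ v ∈ V, InO M v := fun v hv =>
    (Submodule.span_le (p := inOS M)).2 (by rintro _ ⟨m, rfl⟩; exact ha m) hv
  have : FiniteDimensional ℂ V := Submodule.finiteDimensional_of_le
    (S₂ := Submodule.span ℂ (S : Set (ℍ → ℂ))) (Submodule.span_le.2 (by
      rintro _ ⟨m, rfl⟩; exact hS m))
  let β := Module.finBasis ℂ V
  let f : Fin (Module.finrank ℂ V) → ℍ → ℂ := fun i => (β i : ℍ → ℂ)
  have hf : ∀ i, InO M (f i) := fun i => hV _ (β i).2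
  have hco : ∀ (x : Fin (Module.finrank ℂ V) → ℂ) n,
      coef M (∑ i, x i • f i) n = ∑ i, x i * coef M (f i) n := fun x n => by
    rw [coef_sum _ _ fun i _ => ((hf i).smul (x i)).1.1.continuous]
    simp only [coef_smul]
  have hli : LinearIndependent ℂ fun i n => coef M (f i) n := by
    rw [Fintype.linearIndependent_iff]
    intro x hx
    have h1 : InO M (∑ i, x i • f i) := InO.sum _ _ fun i _ => (hf i).smul _
    have h2 : ∑ i, x i • f i = fun _ => 0 :=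
      eq_of_coef hM h1.1.1 h1.2.per (hol_const 0) (fun _ => rfl) fun n => by
        rw [hco, coef_const hM, ite_self]
        simpa using congrFun hx n
    refine Fintype.linearIndependent_iff.1 β.linearIndependent x (Subtype.ext ?_)
    rw [Submodule.coe_sum]
    exact h2
  obtain ⟨T, k, hk⟩ := exists_dual_points _ hli
  have hrep : ∀ x : Fin (Module.finrank ℂ V) → ℂ, ∀ i,
      ∑ n ∈ T, k i n * coef M (∑ j, x j • f j) n = x i := fun x i => by
    simp only [hco, mul_sum]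
    rw [sum_comm]
    have : ∀ j, ∑ n ∈ T, k i n * (x j * coef M (f j) n) = x j * if i = j then 1 else 0 :=
      fun j => by
        rw [← hk i j, mul_sum]
        exact sum_congr rfl fun n _ => by ring
    simp [this]
  have hexp : ∀ m τ, a m τ = ∑ i, (∑ n ∈ T, k i n * coef M (a m) n) * f i τ := fun m τ => by
    have h1 : a m = ∑ j, β.repr ⟨a m, Submodule.subset_span ⟨m, rfl⟩⟩ j • f j := by
      have h0 := congrArg Subtype.val (β.sum_repr ⟨a m, Submodule.subset_span ⟨m, rfl⟩⟩)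
      rw [Submodule.coe_sum] at h0
      exact h0.symm
    generalize β.repr ⟨a m, Submodule.subset_span ⟨m, rfl⟩⟩ = x at h1
    rw [h1]
    simp only [hrep]
    simp
  refine ⟨_, f, fun i => ∑ n ∈ T, k i n • if 0 ≤ n + w then b (n + w).toNat else 0, hf,
    fun i => Submodule.sum_mem _ fun n _ => Submodule.smul_mem _ _ ?_, fun τ σ hσ => ?_⟩
  · split_ifs
    · exact Submodule.subset_span ⟨_, rfl⟩
    · exact zero_mem _
  obtain ⟨G, hG⟩ : ∃ G : Fin (Module.finrank ℂ V) → ℂ, ∀ τ,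
      HasSum (fun m => a m τ * e (σ / M) ^ m) ((∑ i, G i • f i) τ) := by
    refine ⟨fun i => ∑ n ∈ T, k i n * ∑' m, coef M (a m) n * e (σ / M) ^ m, fun τ => ?_⟩
    have h1 := hasSum_sum (s := univ) fun i _ => (hasSum_sum (s := T) fun n _ =>
      (hsum n σ hσ).hasSum.mul_left (k i n)).mul_right (f i τ)
    have e1 : ∀ m, a m τ * e (σ / M) ^ m =
        ∑ i, (∑ n ∈ T, k i n * (coef M (a m) n * e (σ / M) ^ m)) * f i τ := fun m => by
      rw [hexp m τ, sum_mul]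
      refine sum_congr rfl fun i _ => ?_
      rw [mul_right_comm, sum_mul]
      simp only [mul_assoc]
    simp only [e1, Finset.sum_apply, Pi.smul_apply, smul_eq_mul]
    exact h1
  have h1 : InO M (∑ i, G i • f i) := InO.sum _ _ fun i _ => (hf i).smul _
  have h2 := coef_unique hM h1.1.1 h1.2.per (Y := Y)
    (a := fun n => u σ * if 0 ≤ n + w then b (n + w).toNat σ else 0) fun τ hτ => by
      obtain ⟨v, h3, h4⟩ := hsym τ σ hτ hσ
      rw [(hG τ).unique h3]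
      simpa only [mul_assoc] using (hasSum_shift w τ h4).mul_left (u σ)
  have h3 : ∀ i, G i = u σ * ∑ n ∈ T, k i n * if 0 ≤ n + w then b (n + w).toNat σ else 0 :=
    fun i => by
      rw [← hrep G i, mul_sum]
      exact sum_congr rfl fun n _ => by rw [h2]; ring
  convert hG τ using 1
  simp only [Finset.sum_apply, Pi.smul_apply, smul_eq_mul, h3, ite_apply, Pi.zero_apply]
  rw [mul_sum]
  exact sum_congr rfl fun i _ => by ring

/-! ### the coefficients -/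

def ee (M : ℕ) [NeZero M] (F : R2 M → ℍ → ℂ) (m : ℕ) (τ : ℍ) : ℂ := coeff m (ex (LA M F τ))

theorem ee_inO [NeZero M] (hB : S_BA1) (hF : Inp M F) (m : ℕ) : InO M (ee M F m) := by
  induction m using Nat.strong_induction_on with
  | _ m ih =>
    cases m with
    | zero =>
      have : ee M F 0 = fun _ => 1 := funext fun τ => ex_const (LA_const τ)
      rw [this]
      exact inO_const M 1
    | succ m =>
      have : ee M F (m + 1) = ((m : ℂ) + 1)⁻¹ • ∑ p ∈ antidiagonal m, ee M F p.1 *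
          ((Am M F (p.2 + 1) - fun _ => alpha M F (p.2 + 1) 0) * fun _ => (p.2 : ℂ) + 1) := by
        funext τ
        rw [ee, rec_of_der (ex_der (LA_const τ))]
        simp [ee, LA]
      rw [this]
      refine InO.smul _ (InO.sum _ _ fun p hp => (ih p.1 ?_).mul
        (((hB M F hF _ (Nat.succ_pos _)).1.sub (inO_const M _)).mul (inO_const M _)))
      have := mem_antidiagonal.1 hp
      omega

theorem ee_bound [NeZero M] (hB : S_BA1) (hF : Inp M F) (h : PPN M F C n0) (hA : AB M F ρ)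
    (m : ℕ) {τ : ℍ} (hτ : M * ρ ≤ τ.im) : ‖ee M F m τ‖ ≤
      (2 * ρ) ^ m * KK M n0 C * Real.exp (2 * π * (w2 M n0 C / M) * τ.im) := by
  have hM : 0 < M := Nat.pos_of_ne_zero (NeZero.ne M)
  have h0 : 0 < 2 * ρ := by linarith [hA.1]
  have h1 : ‖(((2 * ρ)⁻¹ : ℝ) : ℂ)‖ = (2 * ρ)⁻¹ := by
    rw [Complex.norm_real, Real.norm_of_nonneg (by positivity)]
  have h2 := (ev_LA hB hF h hA (τ := τ) (p := (((2 * ρ)⁻¹ : ℝ) : ℂ))
    ((hi_of_le hM hA.1 hτ).trans (by norm_num)) (by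
      rw [h1]
      have : ρ ≠ 0 := by linarith
      field_simp
      rfl)).coeff_le m
  rw [h1, inv_pow, ← div_eq_mul_inv, div_le_iff₀ (by positivity)] at h2
  rw [mul_assoc, mul_comm]
  exact h2

def dl (M : ℕ) (F F' : R2 M → ℍ → ℂ) : PowerSeries ℂ :=
  PowerSeries.mk fun m => if m = 0 then 0 else alpha M F' m 0 - alpha M F m 0

theorem dl_const (F F' : R2 M → ℍ → ℂ) : constantCoeff (dl M F F') = 0 := by
  rw [← PowerSeries.coeff_zero_eq_constantCoeff_apply]; simp [dl]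

theorem ex_SL [NeZero M] (hB : S_BA1) (hF : Inp M F) (γ : SL) (τ : ℍ) :
    ex (LA M F (γ • τ)) = ex (LA M (fun μ => F (μ * red M (γ⁻¹).1)) τ) *
      ex (dl M F fun μ => F (μ * red M (γ⁻¹).1)) := by
  rw [← ex_add (LA_const τ) (dl_const _ _)]
  congr 1
  ext m
  simp only [LA, dl, map_add, PowerSeries.coeff_mk]
  split_ifs with hm
  · simp
  · rw [(hB M F hF m (Nat.pos_of_ne_zero hm)).2.2]
    ring

theorem PPN.right (h : PPN M F C n0) (γ : SL) :
    PPN M (fun μ => F (μ * red M γ.1)) (fun Y => C (Y * γ.1)) n0 := by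
  have hd : ∀ Y : Z2, (Y * γ.1).det = Y.det := fun Y => by rw [Matrix.det_mul, γ.2, mul_one]
  refine ⟨fun Y hY => ?_, fun Y hY => h.2 _ (by rwa [hd])⟩
  rw [← h.1 _ (by rwa [hd]), PP, PP, red_mul, hd]

theorem PP_adj (Y : Z2) : PP M (fun μ => F μ.adjugate) Y = PP M F Y.adjugate := by
  have h1 : red M Y.adjugate = (red M Y).adjugate := by
    ext i j
    fin_cases i <;> fin_cases j <;> simp [red, Matrix.adjugate_fin_two]
  rw [PP, PP, h1, Matrix.det_adjugate]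
  simp

theorem PPN.adj (h : PPN M F C n0) :
    PPN M (fun μ => F μ.adjugate) (fun Y => C Y.adjugate) n0 := by
  have hd : ∀ Y : Z2, Y.adjugate.det = Y.det := fun Y => by simp [Matrix.det_adjugate]
  exact ⟨fun Y hY => by rw [PP_adj, h.1 _ (by rwa [hd])], fun Y hY => h.2 _ (by rwa [hd])⟩

theorem gro_ee [NeZero M] (hS : S_Sharp) (hB : S_BA1) (hF : Inp M F) (h : PPN M F C n0) (m : ℕ)
    (γ : SL) : Gro ((w2 M n0 fun Y => C (Y * (γ⁻¹).1) : ℕ) / M) fun τ => ee M F m (γ • τ) := by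
  have hM : 0 < M := Nat.pos_of_ne_zero (NeZero.ne M)
  have hF' := (((hS M).2.2.2.2.1 F hF).2.2 γ⁻¹).1
  obtain ⟨c, hc⟩ := exists_bd hF'
  have : (fun τ => ee M F m (γ • τ)) = ∑ p ∈ antidiagonal m,
      coeff p.2 (ex (dl M F fun μ => F (μ * red M (γ⁻¹).1))) •
        ee M (fun μ => F (μ * red M (γ⁻¹).1)) p.1 := by
    funext τ
    rw [ee, ex_SL hB hF, PowerSeries.coeff_mul, Finset.sum_apply]
    exact sum_congr rfl fun p _ => mul_comm _ _
  rw [this]
  refine (groS _).sum_mem fun p _ => (groS _).smul_mem _ ?_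
  have h1 := ee_inO hB hF' p.1
  exact gro_of_high hM h1.1.1 h1.2.per fun τ hτ =>
    ee_bound hB hF' (PPN.right h γ⁻¹) hc.ab p.1 hτ

theorem w2_le (hc : Bd M F c) (h : PPN M F C n0) : (w2 M n0 C : ℝ) ≤ ∑ t ∈ box M n0,
    t.1 * Real.exp (c * (1 + Real.sqrt |((-(ut t.1 t.2.1 t.2.2).det : ℤ) : ℝ)|)) := by
  rw [w2]
  push_cast [-Int.cast_neg]
  refine sum_le_sum fun t ht => mul_le_mul_of_nonneg_left ?_ (Nat.cast_nonneg _)
  have h1 := (mem_Icc.1 (mem_product.1 ht).1).1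
  have h2 := (mem_Icc.1 (mem_product.1 (mem_product.1 ht).2).2).1
  have h3 := h.1 (ut t.1 t.2.1 t.2.2) (by rw [det_ut]; positivity)
  rw [← Complex.norm_natCast, ← h3]
  exact hc.2 _ _

/-! ### the symmetry -/

def sw (M : ℕ) (t : ℕ × ℕ × ℕ) : ℕ × ℕ × ℕ := (t.2.2, (M - t.2.1) % M, t.1)

theorem mem_box {t : ℕ × ℕ × ℕ} : t ∈ box M n0 ↔
    (1 ≤ t.1 ∧ t.1 ≤ n0) ∧ t.2.1 < M ∧ 1 ≤ t.2.2 ∧ t.2.2 ≤ n0 := by
  simp only [box, mem_product, mem_Icc, mem_range]

theorem sw_mem {t : ℕ × ℕ × ℕ} (ht : t ∈ box M n0) : sw M t ∈ box M n0 := by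
  rw [mem_box] at ht ⊢
  exact ⟨ht.2.2, Nat.mod_lt _ (by omega), ht.1⟩

theorem sw_cases {b : ℕ} (hb : b < M) :
    (b = 0 ∧ (M - b) % M = 0) ∨ (0 < b ∧ (M - b) % M = M - b) := by
  rcases Nat.eq_zero_or_pos b with rfl | h
  · simp
  · exact Or.inr ⟨h, Nat.mod_eq_of_lt (by omega)⟩

theorem sw_sw {t : ℕ × ℕ × ℕ} (ht : t ∈ box M n0) : sw M (sw M t) = t := by
  obtain ⟨a, b, d⟩ := t
  have hb : b < M := (mem_box.1 ht).2.1
  simp only [sw, Prod.mk.injEq, true_and, and_true]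
  rcases sw_cases hb with ⟨h1, h2⟩ | ⟨h1, h2⟩
  · rw [h2, h1]; simp
  · rw [h2, Nat.sub_sub_self hb.le, Nat.mod_eq_of_lt hb]

theorem sw_dvd {b : ℕ} (hb : b < M) : ∃ k : ℤ, (((M - b) % M : ℕ) : ℤ) = -b + M * k := by
  rcases sw_cases hb with ⟨h1, h2⟩ | ⟨h1, h2⟩
  · exact ⟨0, by rw [h2, h1]; simp⟩
  · exact ⟨1, by rw [h2, Nat.cast_sub hb.le]; ring⟩

theorem adj_ut (a b d : ℤ) : (ut a b d).adjugate = ut d (-b) a := by
  ext i j
  fin_cases i <;> fin_cases j <;> simp [ut, Matrix.adjugate_fin_two]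

theorem C_sw (h : PPN M F C n0) (γ : SL) {t : ℕ × ℕ × ℕ} (ht : t ∈ box M n0) :
    C (γ.1 * (ut (sw M t).1 (sw M t).2.1 (sw M t).2.2).adjugate) =
      C (γ.1 * ut t.1 t.2.1 t.2.2) := by
  obtain ⟨a, b, d⟩ := t
  obtain ⟨⟨ha, -⟩, hb, hd, -⟩ := mem_box.1 ht
  obtain ⟨k, hk⟩ := sw_dvd hb
  simp only at ha hb hd hk
  have h1 : ∀ x : ℤ, (γ.1 * ut a x d).det = a * d := fun x => by
    rw [Matrix.det_mul, γ.2, one_mul, det_ut]
  have h2 : red M (ut a (-(-b + M * k)) d) = red M (ut a b d) := by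
    ext i j
    fin_cases i <;> fin_cases j <;> simp [red, ut]
  simp only [sw, adj_ut, hk]
  refine Nat.cast_injective (R := ℂ) ?_
  rw [← h.1 _ (by rw [h1]; positivity), ← h.1 _ (by rw [h1]; positivity), PP, PP, h1, h1, red_mul,
    red_mul, h2]

theorem w2_eq_wpole (h : PPN M F C n0) (γ : SL) :
    (w2 M n0 fun Y => C (Y * (γ⁻¹).1).adjugate) = wpole M n0 C γ := by
  have h1 : (γ⁻¹).1.adjugate = γ.1 := by
    rw [Matrix.SpecialLinearGroup.coe_inv]
    ext i j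
    fin_cases i <;> fin_cases j <;> simp [Matrix.adjugate_fin_two]
  rw [w2, wpole]
  simp only [Matrix.adjugate_mul_distrib, h1]
  refine (sum_nbij' (sw M) (sw M) (fun _ => sw_mem) (fun _ => sw_mem) (fun _ => sw_sw)
    (fun _ => sw_sw) fun t ht => ?_).symm
  rw [C_sw h γ ht]
  rfl

def kk (M n0 : ℕ) (C : Z2 → ℕ) : ℂ :=
  ∏ t ∈ box M n0, (-e (-(t.2.1 : ℂ) / M)) ^ C (ut t.1 t.2.1 t.2.2)

theorem Pr_symm (hM : 0 < M) (h : PPN M F C n0) (τ σ : ℍ) :
    Pr M n0 C τ (e (σ / M)) = kk M n0 C * e (σ / M) ^ w1 M n0 C *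
      (e (-(w2 M n0 C * τ) / M) * Pr M n0 (fun Y => C Y.adjugate) σ (e (τ / M))) := by
  have hM' : (M : ℂ) ≠ 0 := by exact_mod_cast hM.ne'
  have e1 : Pr M n0 (fun Y => C Y.adjugate) σ (e (τ / M)) = ∏ t ∈ box M n0,
      (1 - e ((t.2.1 - t.2.2 * σ) / M) * e (τ / M) ^ t.1) ^ C (ut t.1 t.2.1 t.2.2) := by
    refine (prod_nbij' (sw M) (sw M) (fun _ => sw_mem) (fun _ => sw_mem) (fun _ => sw_sw)
      (fun _ => sw_sw) fun t ht => ?_).symm
    have h1 := C_sw h 1 ht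
    simp only [Matrix.SpecialLinearGroup.coe_one, one_mul] at h1
    obtain ⟨k, hk⟩ := sw_dvd (mem_box.1 ht).2.1
    have hk' : (((M - t.2.1) % M : ℕ) : ℂ) = -t.2.1 + M * k := by
      rw [← Int.cast_natCast, hk]
      push_cast
      rfl
    have h2 : xt M (sw M t) σ = e ((t.2.1 - t.2.2 * σ) / M) := by
      rw [xt, ← mul_one (e (_ / _)), ← e_int k, ← e_add]
      simp only [sw, hk']
      congr 1
      field_simp
      ring
    beta_reduce
    rw [h1, h2]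
    rfl
  have e2 : e (-(w2 M n0 C * τ) / M) = e (-τ / M) ^ w2 M n0 C := by
    rw [← e_nat_mul]
    congr 1
    ring
  rw [e1, e2, Pr, kk, w1, w2, ← prod_pow_eq_pow_sum, ← prod_pow_eq_pow_sum, ← prod_mul_distrib,
    ← prod_mul_distrib, ← prod_mul_distrib]
  refine prod_congr rfl fun t _ => ?_
  rw [pow_mul, pow_mul, ← mul_pow, ← mul_pow, ← mul_pow]
  congr 1
  have e3 : xt M t τ = e (-(t.2.1 : ℂ) / M) * e (-τ / M) ^ t.1 := by
    rw [xt, ← e_nat_mul, ← e_add]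
    congr 1
    ring
  have e4 : e (-(t.2.1 : ℂ) / M) * e (σ / M) ^ t.2.2 * e (-τ / M) ^ t.1 *
      e ((t.2.1 - t.2.2 * σ) / M) * e (τ / M) ^ t.1 = 1 := by
    rw [← e_nat_mul, ← e_nat_mul, ← e_nat_mul, ← e_add, ← e_add, ← e_add, ← e_add, ← e_zero]
    congr 1
    ring
  rw [e3]
  linear_combination -e4

theorem alpha_symm (hF : ∀ μ, F (-μ) = F μ) (m n : ℕ) :
    alpha M F (m + 1) (n + 1 : ℕ) = alpha M (fun μ => F μ.adjugate) (n + 1) (m + 1 : ℕ) := by
  rw [alpha, alpha, neg_inj]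
  refine sum_congr ?_ fun k _ => ?_
  · ext k
    simp only [mem_filter, Nat.mem_divisors, Int.natCast_dvd_natCast]
    simp only [ne_eq, Nat.succ_ne_zero, not_false_eq_true, and_true]
    exact and_comm
  · congr 1
    refine sum_congr rfl fun b _ => ?_
    have h1 : ∀ x y : ℤ, PP M F (ut (-x) b y) = PP M F (ut x (-b) (-y)) := fun x y => by
      have h2 : red M (ut (-x) b y) = -red M (ut x (-b) (-y)) := by
        ext i j
        fin_cases i <;> fin_cases j <;> simp [red, ut]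
      rw [PP, PP, h2, hF, det_ut, det_ut, neg_mul_comm]
    rw [PP_adj, adj_ut, h1, Int.natCast_div, Int.natCast_div]

theorem norm_Pr (τ σ : ℍ) : ‖Pr M n0 C τ (e (σ / M))‖ =
    Real.exp (2 * π * τ.im / M) ^ w2 M n0 C * ∏ t ∈ box M n0,
      ‖e (t.1 * τ / M) - e ((t.2.2 * σ - t.2.1) / M)‖ ^ C (ut t.1 t.2.1 t.2.2) := by
  rw [Pr, norm_prod, w2, ← prod_pow_eq_pow_sum, ← prod_mul_distrib]
  refine prod_congr rfl fun t _ => ?_
  rw [norm_pow, pow_mul, ← mul_pow]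
  congr 1
  have e1 : 1 - xt M t τ * e (σ / M) ^ t.2.2 =
      xt M (t.1, 0, 0) τ * (e (t.1 * τ / M) - e ((t.2.2 * σ - t.2.1) / M)) := by
    rw [mul_sub, xt, xt, ← e_nat_mul, ← e_add, ← e_add, ← e_add, ← e_zero]
    congr 2 <;> simp only [Nat.cast_zero] <;> ring
  rw [e1, norm_mul, norm_xt]

end BorchAP

open BorchAP in
theorem borchA : S_FD → S_Sharp → S_BA1 → S_BorchA := by
  intro hFD hS hB M _ F C n0 hF h
  have hM : 0 < M := Nat.pos_of_ne_zero (NeZero.ne M)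
  obtain ⟨c, hc⟩ := exists_bd hF
  obtain ⟨hneg, hFa, hγ⟩ := (hS M).2.2.2.2.1 F hF
  have hA := hc.ab
  have hAa := (hc.comp Matrix.adjugate).ab
  have hAr := fun γ : SL => (hc.comp fun μ => μ * red M γ.1).ab
  generalize Real.exp (M + 2 * c) = ρ at hA hAa hAr
  have hρ := hA.1
  have hi : ∀ τ : ℍ, M * ρ < τ.im → ρ * ‖e (τ / M)‖ ≤ 1 / 2 := fun τ hτ =>
    (hi_of_le hM hρ hτ.le).trans (by norm_num)
  obtain ⟨S, hS'⟩ := (hFD M hM).1 ((∑ t ∈ box M n0, t.1 *
    Real.exp (c * (1 + Real.sqrt |((-(ut t.1 t.2.1 t.2.2).det : ℤ) : ℝ)|))) / M)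
  have hsum : ∀ (n : ℤ) (σ : ℍ), M * ρ < σ.im →
      Summable fun m => coef M (ee M F m) n * e (σ / M) ^ m := fun n σ hσ => by
    have hy : (0 : ℝ) < M * ρ := by positivity
    refine Summable.of_norm_bounded (summable_geometric_two.mul_left (KK M n0 C *
      Real.exp (2 * π * (w2 M n0 C / M) * (M * ρ)) * Real.exp (2 * π * n * (M * ρ) / M)))
      fun m => ?_
    have h1 := ee_inO hB hF m
    have h2 := norm_coef_le hM h1.1.1 h1.2.per n hy (B := (2 * ρ) ^ m * KK M n0 C *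
      Real.exp (2 * π * (w2 M n0 C / M) * (M * ρ))) fun u _ _ => by
        simpa only [im_pt u hy] using ee_bound hB hF h hA m (τ := pt u (M * ρ)) (im_pt u hy).ge
    have h3 := hi_of_le hM hρ hσ.le
    have h4 : 0 ≤ KK M n0 C := by unfold KK; positivity
    rw [norm_mul, norm_pow]
    refine (mul_le_mul_of_nonneg_right h2 (by positivity)).trans ?_
    calc _ = KK M n0 C * Real.exp (2 * π * (w2 M n0 C / M) * (M * ρ)) *
          Real.exp (2 * π * n * (M * ρ) / M) * (2 * (ρ * ‖e (σ / M)‖)) ^ m := by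
          simp only [mul_pow]; ring
      _ ≤ _ := by gcongr; linarith
  have hsym : ∀ τ σ : ℍ, M * ρ < τ.im → M * ρ < σ.im → ∃ v,
      HasSum (fun m => ee M F m τ * e (σ / M) ^ m)
        (kk M n0 C * e (σ / M) ^ w1 M n0 C * (e (-(w2 M n0 C * τ) / M) * v)) ∧
      HasSum (fun n => ee M (fun μ => F μ.adjugate) n σ * e (τ / M) ^ n) v := fun τ σ hτ hσ => by
    refine ⟨_, ?_, (ev_LA hB hFa (PPN.adj h) hAa (hi σ hσ) (hi τ hτ)).hs⟩
    have h1 := (ev_LA hB hF h hA (hi τ hτ) (hi σ hσ)).hs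
    rw [Pr_symm hM h, Lam_symm hA (hi τ hτ) (hi σ hσ) (alpha_symm hneg), mul_left_comm,
      mul_left_comm (Complex.exp _)] at h1
    exact h1
  obtain ⟨r, f, g, hf, hg, hE⟩ := glue hM (S := S) (a := ee M F)
    (b := ee M fun μ => F μ.adjugate) (Y := M * ρ) (w := w2 M n0 C)
    (u := fun σ => kk M n0 C * e (σ / M) ^ w1 M n0 C) (ee_inO hB hF)
    (fun m => hS' _ (ee_inO hB hF m) fun γ => gro_mono (gro_ee hS hB hF h m γ)
      (div_le_div_of_nonneg_right (w2_le (hc.comp _) (PPN.right h γ⁻¹)) (Nat.cast_nonneg _)))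
    hsum hsym
  refine ⟨fun τ σ => ∑ i, f i τ * g i σ, ⟨r, f, g, fun i => ⟨hf i, ?_⟩, fun _ _ => rfl⟩,
    fun τ h0 => ?_, fun τ γ => ?_, M * ρ, fun γ τ0 σ0 hτ0 hσ0 => ?_⟩
  · exact (Submodule.span_le (p := inOS M)).2 (by rintro _ ⟨m, rfl⟩; exact ee_inO hB hFa m) (hg i)
  · have h1 := seq_unique hM (Y := M * ρ)
      (a := fun n => if 0 ≤ n + (0 : ℕ) then ee M F (n + (0 : ℕ)).toNat τ else 0)
      (fun σ hσ => by
        have h2 := hE τ σ hσ
        rw [show ∑ i, f i τ * g i σ = 0 from congrFun h0 σ, mul_zero] at h2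
        simpa only [mul_zero] using hasSum_shift 0 σ h2) 0
    simp [ee, ex_const (LA_const τ)] at h1
  · have h1 : (fun σ : ℍ => ∑ i, f i τ * g i (γ • σ)) =
        ∑ i, f i τ • fun σ : ℍ => g i (γ • σ) := by
      funext σ
      simp
    rw [h1, ← w2_eq_wpole h γ]
    refine (groS _).sum_mem fun i _ => (groS _).smul_mem _ ?_
    exact (Submodule.span_le (p := (groS _).comap (LinearMap.funLeft ℂ ℂ fun σ : ℍ => γ • σ))).2
      (by rintro _ ⟨m, rfl⟩; exact gro_ee hS hB hFa (PPN.adj h) m γ) (hg i)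
  · have hk : kk M n0 C ≠ 0 :=
      prod_ne_zero_iff.2 fun t _ => pow_ne_zero _ (neg_ne_zero.2 (e_ne_zero _))
    let G : ℍ × ℍ → ℝ := fun p => ‖kk M n0 C‖⁻¹ * Real.exp (2 * π * p.2.im / M) ^ w1 M n0 C *
      (Real.exp 1 * Real.exp 2 *
        Real.exp (2 * π * p.1.im / M) ^ w2 M n0 fun Y => C (Y * (γ⁻¹).1))
    have hG : Continuous G := by fun_prop
    refine ⟨G (τ0, σ0) + 1, ?_⟩
    filter_upwards [hG.continuousAt.eventually (Iio_mem_nhds (lt_add_one _)),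
      (continuous_im.comp continuous_fst).continuousAt.eventually (Ioi_mem_nhds hτ0),
      (continuous_im.comp continuous_snd).continuousAt.eventually (Ioi_mem_nhds hσ0)]
      with p hp hτ hσ
    obtain ⟨τ, σ⟩ := p
    refine le_trans ?_ (mul_le_mul_of_nonneg_right (le_of_lt hp) (by positivity))
    have v1 := ev_LA hB (hγ γ⁻¹).1 (PPN.right h γ⁻¹) (hAr γ⁻¹) (hi τ hτ) (hi σ hσ)
    have v2 := (ev_geom (dl_const F fun μ => F (μ * red M (γ⁻¹).1)) zero_le_two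
      (zero_le_one.trans hρ) (hi σ hσ) fun m => by
        rw [dl, PowerSeries.coeff_mk, if_neg (Nat.succ_ne_zero m), two_mul]
        exact (norm_sub_le _ _).trans (add_le_add (by simpa using (hAr γ⁻¹).2 m 0)
          (by simpa using hA.2 m 0))).ex (dl_const _ _)
    have v3 := (((hAr γ⁻¹).ev_Lp (hi τ hτ) (hi σ hσ)).ex (Lp_const _)).norm_le
    have v4 := (v1.mul v2).hs
    rw [← ex_SL hB hF] at v4
    have v5 := congrArg norm ((hE (γ • τ) σ hσ).unique v4)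
    simp only [norm_mul, norm_pow, norm_q, norm_Pr] at v5
    have h1 : 0 < ‖kk M n0 C‖ := norm_pos_iff.2 hk
    rw [mul_comm, ← eq_mul_inv_iff_mul_eq₀ (by positivity), mul_inv, inv_pow, inv_inv] at v5
    rw [v5]
    simp only [G]
    refine (mul_le_mul_of_nonneg_right (mul_le_mul (mul_le_mul_of_nonneg_right v3 (by positivity))
      v2.norm_le (norm_nonneg _) (by positivity)) (by positivity)).trans (le_of_eq ?_)
    ring

end

end Pool.Agent.P.MP_b8021b_nt.CM
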