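import Pool.Agent.P.MP_b8021b_nt.CM.BorchG1

/-! Package P6: the divisor of a Borcherds product at generic points. -/

namespace Pool.Agent.P.MP_b8021b_nt.CM

open Complex hiding Gamma
open UpperHalfPlane hiding I
open MeasureTheory CongruenceSubgroup Filter
open scoped Real MatrixGroups ModularForm Topology ComplexConjugate Modular

noncomputable section

namespace BorchGP

/-! ### representatives modulo the congruence subgroup -/

theorem exists_reps (M : ℕ) [NeZero M] : ∃ (ι : Type) (_ : Fintype ι) (r : ι → SL),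
    (∀ δ : SL, ∃ i, red M (r i).1 = red M δ.1) ∧
    ∀ δ : SL, ∃ pe : ι ≃ ι, ∀ i, red M (r (pe i)).1 = red M (r i * δ).1 := by
  have := Gamma_normal M
  have key : ∀ g : SL, red M (Quotient.out (g : SL ⧸ Gamma M)).1 = red M g.1 := by
    intro g
    obtain ⟨h, hh⟩ := QuotientGroup.mk_out_eq_mul (Gamma M) g
    rw [hh, Matrix.SpecialLinearGroup.coe_mul, red_mul, (mem_Gamma_iff_red M _).1 h.2, mul_one]
  refine ⟨SL ⧸ Gamma M, Fintype.ofFinite _, Quotient.out, fun δ => ⟨δ, key δ⟩, fun δ =>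
    ⟨Equiv.mulRight (δ : SL ⧸ Gamma M), fun q => ?_⟩⟩
  rw [← key (q.out * δ)]
  simp

theorem red_one (M : ℕ) : red M 1 = 1 := (mem_Gamma_iff_red M 1).1 (one_mem _)

theorem mem_Gamma_of_red {M : ℕ} {g h : SL} (e : red M g.1 = red M h.1) : g * h⁻¹ ∈ Gamma M := by
  rw [mem_Gamma_iff_red, Matrix.SpecialLinearGroup.coe_mul, red_mul, e, ← red_mul,
    ← Matrix.SpecialLinearGroup.coe_mul, mul_inv_cancel]
  exact red_one M

theorem lev_red {M : ℕ} {f : ℍ → ℂ} (hf : LevU M f) {g h : SL} (e : red M g.1 = red M h.1)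
    (σ : ℍ) : f (g • σ) = f (h • σ) := by
  rw [← hf _ (mem_Gamma_of_red e) (h • σ), smul_smul, inv_mul_cancel_right]

theorem ord_red {M : ℕ} {f : ℍ → ℂ} (hf : InO M f) {g h : SL} (e : red M g.1 = red M h.1)
    (σ : ℍ) : ordAt f (g • σ) = ordAt f (h • σ) := by
  rw [← hf.1.1.ord_SL, ← hf.1.1.ord_SL]
  congr 1
  funext x
  exact lev_red hf.2 e x

theorem SL_cancel (γ : SL) (Y : Z2) : (γ⁻¹).1 * (γ.1 * Y) = Y := by
  rw [← Matrix.mul_assoc, ← Matrix.SpecialLinearGroup.coe_mul, inv_mul_cancel,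
    Matrix.SpecialLinearGroup.coe_one, Matrix.one_mul]

theorem SL_cancel' (γ : SL) (Y : Z2) : γ.1 * ((γ⁻¹).1 * Y) = Y := by
  rw [← Matrix.mul_assoc, ← Matrix.SpecialLinearGroup.coe_mul, mul_inv_cancel,
    Matrix.SpecialLinearGroup.coe_one, Matrix.one_mul]

theorem mem_SS_mul {n0 : ℕ} {τ σ : ℍ} {Y : Z2} (h : Y ∈ SS n0 τ σ) (γ : SL) :
    γ.1 * Y ∈ SS n0 τ (γ • σ) := by
  obtain ⟨h1, h2, h3⟩ := mem_SS.1 h
  exact mem_SS.2 ⟨by rwa [det_SL_mul], by rwa [det_SL_mul], by rw [act_SL_mul γ h1, h3]⟩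

theorem sum_SS_smul {n0 : ℕ} (C : Z2 → ℕ) (τ σ : ℍ) (γ : SL) :
    ∑ Y ∈ SS n0 τ (γ • σ), C Y = ∑ Y ∈ SS n0 τ σ, C (γ.1 * Y) := by
  symm
  refine Finset.sum_bij' (fun Y _ => γ.1 * Y) (fun Y _ => (γ⁻¹).1 * Y)
    (fun Y hY => mem_SS_mul hY γ) (fun Y hY => ?_) (fun Y _ => SL_cancel γ Y)
    (fun Y _ => SL_cancel' γ Y) fun _ _ => rfl
  have := mem_SS_mul hY γ⁻¹
  rwa [inv_smul_smul] at this

theorem CC.red_left {M n0 : ℕ} {C : Z2 → ℕ} (hC : CC M n0 C) {g h : SL}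
    (e : red M g.1 = red M h.1) {Y : Z2} (hY : 0 < Y.det) : C (g.1 * Y) = C (h.1 * Y) :=
  hC.congr _ _ (by rwa [det_SL_mul]) (by rw [det_SL_mul, det_SL_mul]) (by rw [red_mul, red_mul, e])

/-! ### periodic sums -/

theorem sum_per {c : ℕ → ℕ} {d : ℕ} (h : ∀ b, c (b + d) = c b) (k : ℕ) :
    ∑ b ∈ Finset.range (k * d), c b = k * ∑ b ∈ Finset.range d, c b := by
  have hk : ∀ k b, c (k * d + b) = c b := by
    intro k
    induction k with
    | zero => simp
    | succ k ih => intro b; rw [show (k + 1) * d + b = k * d + b + d by ring, h, ih]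
  induction k with
  | zero => simp
  | succ k ih =>
    rw [add_mul, one_mul, Finset.sum_range_add, ih, add_mul, one_mul]
    simp only [hk]

theorem sum_per2 {c : ℕ → ℕ} {d M : ℕ} (h : ∀ b, c (b + d) = c b) (h' : ∀ b, c (b + M) = c b) :
    d * ∑ b ∈ Finset.range M, c b = M * ∑ b ∈ Finset.range d, c b := by
  rw [← sum_per h', ← sum_per h, mul_comm]

/-- index set of the Hermite normal forms of determinant at most `n0` -/
def II0 (n0 : ℕ) : Finset (ℕ × ℕ × ℕ) :=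
  (Finset.Icc 1 n0 ×ˢ Finset.range n0 ×ˢ Finset.Icc 1 n0).filter
    fun t => t.2.1 < t.2.2 ∧ t.1 * t.2.2 ≤ n0

/-- the matrix attached to an index -/
def uu (t : ℕ × ℕ × ℕ) : Z2 := ut t.1 t.2.1 t.2.2

theorem det_uu (t : ℕ × ℕ × ℕ) : (uu t).det = (t.1 * t.2.2 : ℕ) := by
  rw [det_ut (by simp [uu, ut])]; simp [uu, ut]

theorem mem_II0 {n0 : ℕ} {t : ℕ × ℕ × ℕ} :
    t ∈ II0 n0 ↔ 0 < t.1 ∧ t.2.1 < t.2.2 ∧ t.1 * t.2.2 ≤ n0 := by
  simp only [II0, Finset.mem_filter, Finset.mem_product, Finset.mem_Icc, Finset.mem_range]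
  constructor
  · rintro ⟨⟨⟨h1, -⟩, -, -⟩, h2, h3⟩
    exact ⟨h1, h2, h3⟩
  · rintro ⟨h1, h2, h3⟩
    have : t.1 ≤ n0 := le_trans (Nat.le_mul_of_pos_right _ (by omega)) h3
    have : t.2.2 ≤ n0 := le_trans (Nat.le_mul_of_pos_left _ h1) h3
    omega

theorem uu_pos {n0 : ℕ} {t : ℕ × ℕ × ℕ} (h : t ∈ II0 n0) : 0 < (uu t).det := by
  obtain ⟨h1, h2, -⟩ := mem_II0.1 h
  rw [det_uu]
  exact_mod_cast Nat.mul_pos h1 (by omega)

theorem uu_uniq {n0 : ℕ} {t t' : ℕ × ℕ × ℕ} (h : t ∈ II0 n0) (h' : t' ∈ II0 n0) {γ γ' : SL}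
    (e : γ.1 * uu t = γ'.1 * uu t') : t = t' := by
  obtain ⟨h1, h2, -⟩ := mem_II0.1 h
  obtain ⟨h1', h2', -⟩ := mem_II0.1 h'
  have hm : 0 < t.1 * t.2.2 := Nat.mul_pos h1 (by omega)
  have hd : t'.1 * t'.2.2 = t.1 * t.2.2 := by
    have := congrArg Matrix.det e
    rw [det_SL_mul, det_SL_mul, det_uu, det_uu] at this
    exact_mod_cast this.symm
  have := (exists_hnf hm (Y := γ.1 * uu t) (by rw [det_SL_mul, det_uu])).unique
    ⟨mem_hnf.2 ⟨_, _, _, hm.ne', rfl, h2, rfl⟩, γ, rfl⟩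
    ⟨mem_hnf.2 ⟨_, _, _, hm.ne', hd, h2', rfl⟩, γ', e⟩
  have e0 := congrFun (congrFun this 0) 0
  have e1 := congrFun (congrFun this 0) 1
  have e2 := congrFun (congrFun this 1) 1
  simp only [ut, Matrix.of_apply, Matrix.cons_val', Matrix.cons_val_zero, Matrix.cons_val_one,
    Matrix.cons_val_fin_one, Nat.cast_inj] at e0 e1 e2
  exact Prod.ext e0 (Prod.ext e1 e2)

theorem exists_uu {n0 : ℕ} {Y : Z2} (h1 : 0 < Y.det) (h2 : Y.det ≤ n0) :
    ∃ t ∈ II0 n0, ∃ γ : SL, Y = γ.1 * uu t := by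
  obtain ⟨g, ⟨hg, γ, e⟩, -⟩ := exists_hnf (m := Y.det.toNat) (by omega) (Y := Y)
    (Int.toNat_of_nonneg h1.le).symm
  obtain ⟨a, b, d, hm, had, hb, rfl⟩ := mem_hnf.1 hg
  refine ⟨(a, b, d), mem_II0.2 ⟨Nat.pos_of_ne_zero ?_, hb, ?_⟩, γ, e⟩
  · rintro rfl; omega
  · change a * d ≤ n0
    omega

theorem count {M n0 : ℕ} {D : Z2 → ℕ} (hD : CC M n0 D)
    (hl : ∀ (γ : SL) (Y : Z2), 0 < Y.det → D (γ.1 * Y) = D Y) :
    ∑ t ∈ box M n0, t.2.2 * D (uu t) = M * ∑ t ∈ II0 n0, D (uu t) := by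
  have e1 : ∑ t ∈ II0 n0, D (uu t) = ∑ a ∈ Finset.Icc 1 n0, ∑ d ∈ Finset.Icc 1 n0,
      ∑ b ∈ Finset.range d, D (uu (a, b, d)) := by
    unfold II0
    rw [Finset.sum_filter, Finset.sum_product]
    refine Finset.sum_congr rfl fun a _ => ?_
    rw [Finset.sum_product_right]
    refine Finset.sum_congr rfl fun d hd => ?_
    rw [Finset.mem_Icc] at hd
    by_cases h : a * d ≤ n0
    · simp only [h, and_true]
      rw [← Finset.sum_filter]
      congr 1
      ext b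
      simp only [Finset.mem_filter, Finset.mem_range]
      omega
    · simp only [h, and_false, if_false, Finset.sum_const_zero]
      symm
      refine Finset.sum_eq_zero fun b _ => hD.big _ ?_
      rw [det_uu]
      exact_mod_cast not_le.1 h
  rw [e1]
  unfold box
  rw [Finset.sum_product, Finset.mul_sum]
  refine Finset.sum_congr rfl fun a ha => ?_
  rw [Finset.sum_product_right, Finset.mul_sum]
  refine Finset.sum_congr rfl fun d hd => ?_
  rw [Finset.mem_Icc] at ha hd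
  have hp : ∀ b, 0 < (uu (a, b, d)).det := fun b => by
    rw [det_uu]; exact_mod_cast Nat.mul_pos ha.1 hd.1
  simp only []
  rw [← Finset.mul_sum]
  refine sum_per2 (c := fun b => D (uu (a, b, d))) (fun b => ?_) fun b => ?_
  · rw [← hl ModularGroup.T _ (hp b)]
    congr 1
    ext i j
    fin_cases i <;> fin_cases j <;>
      simp [uu, ut, ModularGroup.coe_T, Matrix.mul_apply, Fin.sum_univ_two]
  · refine hD.congr _ _ (hp b) (by rw [det_uu, det_uu]) ?_
    ext i j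
    fin_cases i <;> fin_cases j <;> simp [uu, ut, red]

/-! ### polynomials in `j` -/

theorem gro_prod {ι : Type} (s : Finset ι) (w : ι → ℝ) (f : ι → ℍ → ℂ)
    (h : ∀ i ∈ s, Gro (w i) (f i)) : Gro (∑ i ∈ s, w i) (∏ i ∈ s, f i) := by
  classical
  induction s using Finset.induction_on with
  | empty => exact ⟨1, fun τ _ => by simp⟩
  | insert a s ha ih =>
    obtain ⟨K, hK⟩ := h a (Finset.mem_insert_self _ _)
    obtain ⟨K', hK'⟩ := ih fun i hi => h i (Finset.mem_insert_of_mem hi)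
    refine ⟨K * K', fun τ hτ => ?_⟩
    rw [Finset.sum_insert ha, Finset.prod_insert ha, Pi.mul_apply, norm_mul]
    refine (mul_le_mul (hK τ hτ) (hK' τ hτ) (norm_nonneg _)
      ((norm_nonneg _).trans (hK τ hτ))).trans (le_of_eq ?_)
    rw [mul_add, add_mul, Real.exp_add]; ring

theorem hol_poly (Q : Polynomial ℂ) : Hol fun τ => Q.eval (jj τ) := by
  induction Q using Polynomial.induction_on' with
  | add p q hp hq => simp only [Polynomial.eval_add]; exact hp.add hq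
  | monomial n a =>
    simp only [Polynomial.eval_monomial]; exact (inO_jj.1.1.pow n).smul a

theorem ord_poly (hJ : S_J) {P : Polynomial ℂ} (hP : P ≠ 0) {σ : ℍ} (hσ : Gen σ) :
    ordAt (fun τ => P.eval (jj τ)) σ = P.rootMultiplicity (jj σ) := by
  obtain ⟨Q, hQ, hd⟩ := Polynomial.exists_eq_pow_rootMultiplicity_mul_and_not_dvd P hP (jj σ)
  have h1 : Hol fun τ => jj τ - jj σ := inO_jj.1.1.sub (hol_const _)
  have h2 : (fun τ => jj τ - jj σ) ≠ 0 := by
    obtain ⟨x, hx⟩ := hJ.2.1 (jj σ + 1)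
    exact Function.ne_iff.2 ⟨x, by simp [hx]⟩
  have h3 : Q.eval (jj σ) ≠ 0 := fun h => hd (Polynomial.dvd_iff_isRoot.2 h)
  have h4 : (fun τ => Q.eval (jj τ)) ≠ 0 := Function.ne_iff.2 ⟨σ, h3⟩
  have h5 : ordAt (fun τ => jj τ - jj σ) σ = 1 := by
    have := hJ.2.2.1 σ
    rw [gen_card hσ] at this
    omega
  have h6 : (fun τ => jj τ - jj σ) ^ P.rootMultiplicity (jj σ) ≠ 0 := by
    obtain ⟨x, hx⟩ := Function.ne_iff.1 h2
    exact Function.ne_iff.2 ⟨x, pow_ne_zero _ hx⟩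
  have e : (fun τ => P.eval (jj τ)) =
      (fun τ => jj τ - jj σ) ^ P.rootMultiplicity (jj σ) * fun τ => Q.eval (jj τ) := by
    funext τ
    conv_lhs => rw [hQ]
    simp
  rw [e, (h1.pow _).ord_mul (hol_poly Q) h6 h4, h1.ord_pow h2, h5,
    ((hol_poly Q).ord_eq_zero_iff h4 σ).2 h3]
  simp

theorem sum_mult_le (P : Polynomial ℂ) (B : Finset ℂ) :
    ∑ α ∈ B, P.rootMultiplicity α ≤ P.natDegree := by
  classical
  calc ∑ α ∈ B, P.rootMultiplicity α ≤ ∑ α ∈ B ∪ P.roots.toFinset, P.roots.count α := by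
        simp only [Polynomial.count_roots]
        exact Finset.sum_le_sum_of_subset Finset.subset_union_left
    _ = P.roots.card := Multiset.sum_count_eq_card fun a ha =>
        Finset.mem_union_right _ (Multiset.mem_toFinset.2 ha)
    _ ≤ _ := Polynomial.card_roots' P

theorem fibre_le (hJ : S_J) (n0 : ℕ) {D : Z2 → ℕ}
    (hl : ∀ (γ : SL) (Y : Z2), 0 < Y.det → D (γ.1 * Y) = D Y) (τ σ : ℍ) :
    2 * ∑ t ∈ (II0 n0).filter (fun t => jj (act (castZ (uu t)) τ) = jj σ), D (uu t) ≤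
      ∑ Y ∈ SS n0 τ σ, D Y := by
  classical
  have ex : ∀ t : ℕ × ℕ × ℕ, ∃ γ : SL, jj (act (castZ (uu t)) τ) = jj σ →
      γ • act (castZ (uu t)) τ = σ := by
    intro t
    by_cases h : jj (act (castZ (uu t)) τ) = jj σ
    · obtain ⟨γ, hγ⟩ := (hJ.1 _ _).1 h
      exact ⟨γ, fun _ => hγ⟩
    · exact ⟨1, fun h' => absurd h' h⟩
  choose γ hγ using ex
  set T := (II0 n0).filter (fun t => jj (act (castZ (uu t)) τ) = jj σ)
  calc 2 * ∑ t ∈ T, D (uu t) = ∑ p ∈ T ×ˢ (Finset.univ : Finset Bool), D (uu p.1) := by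
        rw [Finset.sum_product, Finset.mul_sum]
        simp
    _ ≤ _ := by
        refine sum_le_of_inj (fun p => (if p.2 then γ p.1 else -γ p.1).1 * uu p.1) ?_ ?_ ?_
        · rintro ⟨t, s⟩ ht ⟨t', s'⟩ ht' e
          have h1 := (Finset.mem_filter.1 (Finset.mem_product.1 ht).1).1
          have h2 := (Finset.mem_filter.1 (Finset.mem_product.1 ht').1).1
          obtain rfl : t = t' := uu_uniq h1 h2 e
          have hne : (γ t).1 * uu t ≠ (-γ t).1 * uu t := by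
            intro h
            rw [Matrix.SpecialLinearGroup.coe_neg, Matrix.neg_mul, eq_neg_iff_add_eq_zero,
              ← two_smul ℤ, smul_eq_zero] at h
            have hp := uu_pos h1
            rw [← det_SL_mul (γ t), h.resolve_left (by norm_num)] at hp
            simp at hp
          cases s <;> cases s'
          · rfl
          · exact absurd e.symm hne
          · exact absurd e hne
          · rfl
        · rintro ⟨t, s⟩ ht
          obtain ⟨h1, h2⟩ := Finset.mem_filter.1 (Finset.mem_product.1 ht).1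
          refine mem_SS.2 ⟨by rw [det_SL_mul]; exact uu_pos h1, ?_, ?_⟩
          · rw [det_SL_mul, det_uu]
            exact_mod_cast (mem_II0.1 h1).2.2
          · rw [act_SL_mul _ (uu_pos h1)]
            cases s
            · exact (ModularGroup.SL_neg_smul _ _).trans (hγ t h2)
            · exact hγ t h2
        · rintro ⟨t, s⟩ ht
          exact (hl _ _ (uu_pos (Finset.mem_filter.1 (Finset.mem_product.1 ht).1).1)).ge

end BorchGP

open BorchGP in
theorem borchG (hL : S_L1) (hJ : S_J) (hS : S_Sharp) (hA : S_BorchA) : S_BorchG := by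
  classical
  intro M _ F C n0 hF hP
  have hM : 0 < M := NeZero.pos M
  obtain ⟨E, hT, h0, hg, Y0, hb⟩ := hA M F C n0 hF hP
  have hC := cc_of hS hF hP
  refine ⟨E, hT, h0, fun τ hτ σ S hSm => ?_⟩
  obtain rfl : S = SS n0 τ σ := by
    ext Y; rw [hSm, mem_SS]
  have low := lower hM hC hT h0 hb hτ
  have hf := tens_hol hT τ
  obtain ⟨ι, _, r, hr1, hr2⟩ := exists_reps M
  have hfr : ∀ i ∈ (Finset.univ : Finset ι),
      Hol (fun x => E τ (r i • x)) ∧ (fun x => E τ (r i • x)) ≠ 0 := by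
    intro i _
    refine ⟨hf.1.1.smulSL _, ?_⟩
    obtain ⟨x, hx⟩ := Function.ne_iff.1 (h0 τ)
    exact Function.ne_iff.2 ⟨(r i)⁻¹ • x, by simpa using hx⟩
  have hN : InO 1 (∏ i, fun x => E τ (r i • x)) := by
    refine ⟨InG.prod _ _ fun i _ => hf.1.smulSL _, fun δ _ x => ?_⟩
    obtain ⟨pe, hpe⟩ := hr2 δ
    simp only [Finset.prod_apply]
    rw [← Equiv.prod_comp pe fun i => E τ (r i • x)]
    exact Finset.prod_congr rfl fun i _ => by rw [lev_red hf.2 (hpe i), mul_smul]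
  have hN0 : (∏ i, fun x => E τ (r i • x)) ≠ 0 := by
    refine (Finset.prod_induction _ (fun f => Hol f ∧ f ≠ 0) ?_ ⟨hol_const 1, one_ne_zero⟩ hfr).2
    rintro f g ⟨f1, f2⟩ ⟨g1, g2⟩
    exact ⟨f1.mul g1, fun h => (f1.mul_eq_zero g1 h).elim f2 g2⟩
  obtain ⟨P, hP1, hP2⟩ := hL _ hN
  have hPe : (∏ i, fun x => E τ (r i • x)) = fun x => P.eval (jj x) := funext hP1
  have hP0 : P ≠ 0 := by
    rintro rfl
    exact hN0 (by rw [hPe]; funext x; simp)
  have hdeg := hP2 _ hP0 (gro_prod Finset.univ _ _ fun i _ => hg τ (r i))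
  have hl : ∀ (γ : SL) (Y : Z2), 0 < Y.det →
      ∑ i, C ((r i).1 * (γ.1 * Y)) = ∑ i, C ((r i).1 * Y) := by
    intro γ Y hY
    obtain ⟨pe, hpe⟩ := hr2 γ
    rw [← Equiv.sum_comp pe fun i => C ((r i).1 * Y)]
    exact Finset.sum_congr rfl fun i _ => by
      rw [hC.red_left (hpe i) hY, Matrix.SpecialLinearGroup.coe_mul, Matrix.mul_assoc]
  have hD : CC M n0 fun Y => ∑ i, C ((r i).1 * Y) :=
    { congr := fun Y Z hY hd hr => Finset.sum_congr rfl fun i _ =>
        hC.congr _ _ (by rwa [det_SL_mul]) (by rw [det_SL_mul, det_SL_mul, hd])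
          (by rw [red_mul, red_mul, hr])
      neg := fun Y hY => Finset.sum_congr rfl fun i _ => by
        rw [Matrix.mul_neg, hC.neg _ (by rwa [det_SL_mul])]
      big := fun Y hY => Finset.sum_eq_zero fun i _ => hC.big _ (by rwa [det_SL_mul]) }
  have hdeg' : P.natDegree ≤ ∑ t ∈ II0 n0, ∑ i, C ((r i).1 * uu t) := by
    have h1 : ∑ i, wpole M n0 C (r i) = M * ∑ t ∈ II0 n0, ∑ i, C ((r i).1 * uu t) := by
      rw [← count hD hl]
      unfold wpole
      rw [Finset.sum_comm]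
      exact Finset.sum_congr rfl fun t _ => (Finset.mul_sum _ _ _).symm
    have hM' : (0 : ℝ) < M := by exact_mod_cast hM
    rw [← Finset.sum_div, ← Nat.cast_sum, h1, Nat.cast_mul, mul_div_cancel_left₀ _ hM'.ne'] at hdeg
    exact_mod_cast hdeg
  set A := (II0 n0).image fun t => jj (act (castZ (uu t)) τ) with hAd
  have ex : ∀ α : ℂ, ∃ x : ℍ, α ∈ A → jj x = α ∧ Gen x := by
    intro α
    by_cases h : α ∈ A
    · obtain ⟨t, ht, e⟩ := Finset.mem_image.1 h
      exact ⟨_, fun _ => ⟨e, gen_act hτ (uu_pos ht)⟩⟩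
    · exact ⟨τ, fun h' => absurd h' h⟩
  choose s hs using ex
  have c1 : ∑ p ∈ A ×ˢ (Finset.univ : Finset ι), 2 * ordAt (E τ) (r p.2 • s p.1) =
      2 * ∑ α ∈ A, P.rootMultiplicity α := by
    rw [Finset.sum_product, Finset.mul_sum]
    refine Finset.sum_congr rfl fun α hα => ?_
    have := ord_poly hJ hP0 (hs α hα).2
    rw [(hs α hα).1, ← hPe, Hol.ord_prod _ _ hfr] at this
    rw [← this, Finset.mul_sum]
    exact Finset.sum_congr rfl fun i _ => by rw [hf.1.1.ord_SL]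
  have c2 : 2 * P.natDegree ≤
      ∑ p ∈ A ×ˢ (Finset.univ : Finset ι), ∑ Y ∈ SS n0 τ (r p.2 • s p.1), C Y := by
    refine (Nat.mul_le_mul_left 2 hdeg').trans ?_
    rw [← Finset.sum_fiberwise_of_maps_to (t := A) (g := fun t => jj (act (castZ (uu t)) τ))
      (fun t ht => Finset.mem_image_of_mem _ ht), Finset.mul_sum, Finset.sum_product]
    refine Finset.sum_le_sum fun α hα => ?_
    have := fibre_le hJ n0 (D := fun Y => ∑ i, C ((r i).1 * Y)) hl τ (s α)
    rw [(hs α hα).1] at this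
    refine this.trans (le_of_eq ?_)
    rw [Finset.sum_comm]
    exact Finset.sum_congr rfl fun i _ => (sum_SS_smul C τ _ _).symm
  have c3 := Finset.sum_le_sum (s := A ×ˢ (Finset.univ : Finset ι))
    fun p _ => low (r p.2 • s p.1)
  have c4 := sum_mult_le P A
  by_cases hσ : jj σ ∈ A
  · have heq := (Finset.sum_eq_sum_iff_of_le (s := A ×ˢ (Finset.univ : Finset ι))
      fun p _ => low (r p.2 • s p.1)).1 (by omega)
    obtain ⟨δ, hδ⟩ := (hJ.1 _ _).1 (hs _ hσ).1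
    obtain ⟨i, hi⟩ := hr1 δ
    have := heq (jj σ, i) (Finset.mem_product.2 ⟨hσ, Finset.mem_univ _⟩)
    simp only [] at this
    rw [ord_red hf hi, hδ, sum_SS_smul] at this
    rw [← this]
    conv_rhs => rw [← hδ, sum_SS_smul]
    exact Finset.sum_congr rfl fun Y hY => hC.red_left hi (mem_SS.1 hY).1
  · have c5 := sum_mult_le P (insert (jj σ) A)
    rw [Finset.sum_insert hσ] at c5
    have c6 : P.rootMultiplicity (jj σ) = 0 := by omega
    have c7 : P.eval (jj σ) ≠ 0 := fun h =>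
      hP0 ((Polynomial.rootMultiplicity_eq_zero_iff.1 c6) h)
    rw [← hP1, Finset.prod_apply, Finset.prod_ne_zero_iff] at c7
    obtain ⟨i, hi⟩ := hr1 1
    have c8 := c7 i (Finset.mem_univ _)
    rw [lev_red hf.2 hi, one_smul] at c8
    rw [(hf.1.1.ord_eq_zero_iff (h0 τ) σ).2 c8]
    symm
    refine Finset.sum_eq_zero fun Y hY => absurd ?_ hσ
    obtain ⟨h1, h2, h3⟩ := mem_SS.1 hY
    obtain ⟨t, ht, γ, rfl⟩ := exists_uu h1 h2
    refine Finset.mem_image.2 ⟨t, ht, (hJ.1 _ _).2 ⟨γ, ?_⟩⟩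
    rw [← act_SL_mul γ (uu_pos ht), h3]

end

end Pool.Agent.P.MP_b8021b_nt.CM
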