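import Pool.Agent.P.MP_b8021b_nt.CM.Count0

/-! Package P32: the lattice counting identity. -/

namespace Pool.Agent.P.MP_b8021b_nt.CM

open scoped MatrixGroups Matrix

noncomputable section

namespace CountP

def mn (u v : Fin 2 → ℚ) : ℚ := u 0 * v 1 - u 1 * v 0

/-- the vectors on which a linear form is integral -/
def intSub (f : (Fin 2 → ℚ) →ₗ[ℚ] ℚ) : Submodule ℤ (Fin 2 → ℚ) where
  carrier := {v | IsInt (f v)}
  add_mem' ha hb := by
    simp only [Set.mem_ofPred_eq, map_add]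
    exact IsInt.add ha hb
  zero_mem' := by
    simp only [Set.mem_ofPred_eq, map_zero]
    exact isInt_zero
  smul_mem' c v hv := by
    simp only [Set.mem_ofPred_eq]
    rw [← Int.cast_smul_eq_zsmul ℚ, map_smul]
    exact IsInt.zsmul (x := f v) hv c

theorem isInt_int (n : ℤ) : IsInt (n : ℚ) := (isInt_rat _).2 ⟨n, rfl⟩

theorem isInt_comb {x y : ℚ} (hx : IsInt x) (hy : IsInt y) (a b : ℤ) : IsInt (a * x + b * y) :=
  IsInt.add (IsInt.zsmul hx a) (IsInt.zsmul hy b)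

theorem lat_vec {κ : Type} [Finite κ] (b : κ → Fin 2 → ℚ) (j0 j1 : κ) (h0 : b j0 = ![1, 0])
    (h1 : b j1 = ![0, 1]) : ∃ q0 q1 : Fin 2 → ℚ, 0 < mn q0 q1 ∧
      (∀ x : Fin 2 → ℚ, (∀ j, IsInt (x ⬝ᵥ b j)) ↔ IsInt (x ⬝ᵥ q0) ∧ IsInt (x ⬝ᵥ q1)) ∧
      ∀ s : ℚ, (∀ j j', IsInt (s * mn (b j) (b j'))) ↔ IsInt (s * mn q0 q1) := by
  set L : Submodule ℤ (Fin 2 → ℚ) := Submodule.span ℤ (Set.range b) with hL
  have hm : ∀ j, b j ∈ L := fun j => Submodule.subset_span ⟨j, rfl⟩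
  have : Submodule.IsLattice ℚ L := by
    refine ⟨Submodule.fg_span (Set.finite_range b), eq_top_iff.2 fun v _ => ?_⟩
    have : v = v 0 • b j0 + v 1 • b j1 := by
      rw [h0, h1]; ext i; fin_cases i <;> simp
    rw [this]
    exact add_mem (Submodule.smul_mem _ _ (Submodule.subset_span (hm j0)))
      (Submodule.smul_mem _ _ (Submodule.subset_span (hm j1)))
  have hr : Module.finrank ℤ L = 2 := by
    rw [Submodule.IsLattice.finrank_of_pi ℚ L]; simp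
  let B := Module.finBasisOfFinrankEq ℤ L hr
  have F1 : ∀ j, ∃ α β : ℤ, ∀ i, b j i = α * (B 0 : Fin 2 → ℚ) i + β * (B 1 : Fin 2 → ℚ) i := by
    intro j
    refine ⟨B.repr ⟨b j, hm j⟩ 0, B.repr ⟨b j, hm j⟩ 1, fun i => ?_⟩
    have := congrFun (congrArg Subtype.val (B.sum_repr ⟨b j, hm j⟩)) i
    rw [Fin.sum_univ_two] at this
    simp only [Submodule.coe_add, Submodule.coe_smul, Pi.add_apply, Pi.smul_apply] at this
    simpa only [zsmul_eq_mul] using this.symm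
  have F2 : ∀ f : (Fin 2 → ℚ) →ₗ[ℚ] ℚ, (∀ j, IsInt (f (b j))) → ∀ v ∈ L, IsInt (f v) :=
    fun f hf v hv => (Submodule.span_le.2 (by rintro _ ⟨j, rfl⟩; exact hf j) : L ≤ intSub f) hv
  have G : ∀ q0 q1 : Fin 2 → ℚ, q0 ∈ L → q1 ∈ L →
      (∀ j, ∃ α β : ℤ, ∀ i, b j i = α * q0 i + β * q1 i) →
      (∀ x : Fin 2 → ℚ, (∀ j, IsInt (x ⬝ᵥ b j)) ↔ IsInt (x ⬝ᵥ q0) ∧ IsInt (x ⬝ᵥ q1)) ∧
      ∀ s : ℚ, (∀ j j', IsInt (s * mn (b j) (b j'))) ↔ IsInt (s * mn q0 q1) := by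
    intro q0 q1 m0 m1 hq
    have lin : ∀ (u w : ℚ), (∀ j, IsInt (u * b j 0 + w * b j 1)) → ∀ v ∈ L,
        IsInt (u * v 0 + w * v 1) := fun u w h v hv => by
      have := F2 (u • LinearMap.proj 0 + w • LinearMap.proj 1) (by simpa using h) v hv
      simpa using this
    refine ⟨fun x => ⟨fun h => ?_, fun h j => ?_⟩, fun s => ⟨fun h => ?_, fun h j j' => ?_⟩⟩
    · simp only [dotProduct, Fin.sum_univ_two] at h ⊢
      exact ⟨lin _ _ h _ m0, lin _ _ h _ m1⟩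
    · obtain ⟨α, β, e⟩ := hq j
      have := isInt_comb h.1 h.2 α β
      simp only [dotProduct, Fin.sum_univ_two, e] at this ⊢
      convert this using 1
      ring
    · have h2 : ∀ j, IsInt (s * q1 1 * b j 0 + (-s * q1 0) * b j 1) := fun j => by
        have := lin (-s * b j 1) (s * b j 0) (fun j' => by
          convert h j j' using 1
          unfold mn
          ring) q1 m1
        convert this using 1
        ring
      convert lin _ _ h2 q0 m0 using 1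
      unfold mn
      ring
    · obtain ⟨α, β, e⟩ := hq j
      obtain ⟨α', β', e'⟩ := hq j'
      convert IsInt.zsmul h (α * β' - β * α') using 1
      simp only [mn, e, e', smul_eq_mul]
      push_cast
      ring
  have hne : mn (B 0) (B 1) ≠ 0 := by
    intro h
    obtain ⟨α, β, e⟩ := F1 j0
    obtain ⟨α', β', e'⟩ := F1 j1
    have : mn (b j0) (b j1) = (α * β' - β * α') * mn (B 0) (B 1) := by
      simp only [mn, e, e']
      ring
    rw [h, h0, h1] at this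
    simp [mn] at this
  rcases lt_or_gt_of_ne hne with h | h
  · refine ⟨B 1, B 0, by unfold mn at h ⊢; linarith, G _ _ (B 1).2 (B 0).2 fun j => ?_⟩
    obtain ⟨α, β, e⟩ := F1 j
    exact ⟨β, α, fun i => by rw [e, add_comm]⟩
  · exact ⟨B 0, B 1, h, G _ _ (B 0).2 (B 1).2 F1⟩

theorem castZ_one : castZ 1 = 1 := by
  ext i j; fin_cases i <;> fin_cases j <;> simp [castZ]

theorem isInt_castZ (X : Z2) : IsInt (castZ X) := (isInt_M2 _).2 ⟨X, rfl⟩

theorem isInt_mul {A B : M2} (hA : IsInt A) (hB : IsInt B) : IsInt (A * B) := by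
  obtain ⟨A, rfl⟩ := (isInt_M2 _).1 hA
  obtain ⟨B, rfl⟩ := (isInt_M2 _).1 hB
  rw [← castZ_mul]
  exact isInt_castZ _

theorem isInt_tr {A : M2} : IsInt Aᵀ ↔ IsInt A := by
  simp only [isInt_M2']
  exact ⟨fun h i j => h j i, fun h i j => h j i⟩

theorem lat {ι : Type} [Finite ι] (M : ι → M2) (a0 : ι) (h0 : M a0 = 1) :
    ∃ (P : Z2) (i : ℕ), 0 < i ∧ P.det = i ∧
      (∀ X : M2, (∀ a, IsInt (X * (M a)ᵀ)) ↔ ∃ U : Z2, X = castZ U * castZ P) ∧
      ∀ s : ℤ, (∀ a b, IsInt ((s : ℚ) • (M a * (M b).adjugate))) ↔ (i : ℤ) ∣ s := by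
  obtain ⟨q0, q1, hq, hx, hs⟩ := lat_vec (fun p : ι × Fin 2 => M p.1 p.2) (a0, 0) (a0, 1)
    (by ext i; fin_cases i <;> simp [h0]) (by ext i; fin_cases i <;> simp [h0])
  let Q : M2 := !![q0 0, q1 0; q0 1, q1 1]
  have hQ : Q.det = mn q0 q1 := by simp only [Q, Matrix.det_fin_two_of, mn]; ring
  have hu : IsUnit Q.det := by rw [hQ]; exact hq.ne'.isUnit
  have key : ∀ X : M2, (∀ a, IsInt (X * (M a)ᵀ)) ↔ IsInt (X * Q) := by
    intro X
    have : ∀ r, (∀ a j, IsInt ((X * (M a)ᵀ) r j)) ↔ ∀ j, IsInt ((X * Q) r j) := fun r => by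
      have := hx (X r)
      rw [Prod.forall] at this
      refine this.trans ?_
      simp [Fin.forall_fin_two, Q, Matrix.mul_apply, dotProduct]
    simp only [isInt_M2']
    exact ⟨fun h r => (this r).1 fun a => h a r, fun h a r => (this r).2 (h r) a⟩
  have hP : IsInt Q⁻¹ := by
    have := (key Q⁻¹).2 (by rw [Matrix.nonsing_inv_mul _ hu, ← castZ_one]; exact isInt_castZ _) a0
    rwa [h0, Matrix.transpose_one, Matrix.mul_one] at this
  obtain ⟨P, hP⟩ := (isInt_M2 _).1 hP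
  have hd : (P.det : ℚ) * mn q0 q1 = 1 := by
    rw [← castZ_det, hP, ← hQ, Matrix.det_nonsing_inv_mul_det _ hu]
  have hpos : 0 < P.det := by
    have : (0 : ℚ) < P.det := by
      by_contra h
      nlinarith
    exact_mod_cast this
  refine ⟨P, P.det.toNat, by omega, by omega, fun X => ?_, fun s => ?_⟩
  · rw [key, isInt_M2, hP]
    constructor
    · rintro ⟨U, e⟩
      exact ⟨U, by rw [e, Matrix.mul_nonsing_inv_cancel_right _ _ hu]⟩
    · rintro ⟨U, rfl⟩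
      exact ⟨U, by rw [Matrix.nonsing_inv_mul_cancel_right _ _ hu]⟩
  · rw [Int.toNat_of_nonneg hpos.le]
    have e1 : IsInt ((s : ℚ) * mn q0 q1) ↔ P.det ∣ s := by
      rw [isInt_rat]
      constructor
      · rintro ⟨n, e⟩
        refine ⟨n, ?_⟩
        have : (s : ℚ) = P.det * n := by rw [← e]; linear_combination (-s : ℚ) * hd
        exact_mod_cast this
      · rintro ⟨n, rfl⟩
        exact ⟨n, by rw [Int.cast_mul]; linear_combination (n : ℚ) * hd⟩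
    rw [← e1, ← hs]
    simp only [isInt_M2', Prod.forall]
    have e2 : ∀ a b r, ((s : ℚ) • (M a * (M b).adjugate)) r 0 = s * mn (M a r) (M b 1) ∧
        ((s : ℚ) • (M a * (M b).adjugate)) r 1 = -(s * mn (M a r) (M b 0)) := fun a b r => by
      simp only [Matrix.adjugate_fin_two, Matrix.mul_apply, Fin.sum_univ_two, mn,
        Matrix.smul_apply, smul_eq_mul, Matrix.of_apply, Matrix.cons_val', Matrix.cons_val_zero,
        Matrix.cons_val_one, Matrix.cons_val_fin_one]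
      constructor <;> ring
    constructor
    · intro h a r b
      rw [Fin.forall_fin_two]
      refine ⟨?_, (e2 a b r).1 ▸ h a b r 0⟩
      have := IsInt.neg (h a b r 1)
      rwa [(e2 a b r).2, neg_neg] at this
    · intro h a b r
      rw [Fin.forall_fin_two, (e2 a b r).1, (e2 a b r).2]
      exact ⟨h a r b 1, IsInt.neg (h a r b 0)⟩

theorem card_eq_cnt (m : ℕ) (Q : Z2 → Prop) :
    Nat.card {X : Z2 // X ∈ hnf m ∧ Q X} = cnt m Q := by
  classical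
  unfold cnt
  exact Nat.subtype_card _ fun X => by simp

theorem castZ_tr (X : Z2) : castZ Xᵀ = (castZ X)ᵀ := rfl

theorem cond_iff {g g' : Z2} (h : g'.det ≠ 0) (y : M2) :
    IsInt ((castZ g'ᵀ)⁻¹ * y * castZ gᵀ) ↔ ∃ A : Z2, castZ g * yᵀ = castZ A * castZ g' := by
  have hu : IsUnit (castZ g').det := by
    rw [castZ_det]; exact (Int.cast_ne_zero.2 h).isUnit
  rw [← isInt_tr, isInt_M2, castZ_tr, castZ_tr, Matrix.transpose_mul, Matrix.transpose_mul,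
    Matrix.transpose_transpose, Matrix.transpose_nonsing_inv, Matrix.transpose_transpose,
    ← Matrix.mul_assoc]
  constructor
  · rintro ⟨A, e⟩
    exact ⟨A, by rw [e, Matrix.nonsing_inv_mul_cancel_right _ _ hu]⟩
  · rintro ⟨A, e⟩
    exact ⟨A, by rw [e, Matrix.mul_nonsing_inv_cancel_right _ _ hu]⟩

theorem card_pairs {m : ℕ} (hm : 0 < m) {y1 y2 ω : M2} (h1 : y1.det = 1) (hω : y1 * ω = y2) :
    Nat.card {g : Z2 × Z2 // g.1 ∈ hnf m ∧ g.2 ∈ hnf m ∧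
        IsInt ((castZ g.2.transpose)⁻¹ * y1 * castZ g.1.transpose) ∧
        IsInt ((castZ g.2.transpose)⁻¹ * y2 * castZ g.1.transpose)} =
      cnt m fun X => IsInt (castZ X * y1ᵀ) ∧ ∃ V : Z2, castZ X * ωᵀ = castZ V * castZ X := by
  have hm0 : ∀ g ∈ hnf m, g.det ≠ 0 := fun g hg => by
    rw [det_of_mem hg]; exact_mod_cast hm.ne'
  have hu : IsUnit y1ᵀ.det := by rw [Matrix.det_transpose, h1]; exact isUnit_one
  have hSL : ∀ g ∈ hnf m, ∀ g' ∈ hnf m, ∀ A : Z2, castZ g * y1ᵀ = castZ A * castZ g' →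
      A.det = 1 := by
    intro g hg g' hg' A e
    have := congrArg Matrix.det e
    rw [Matrix.det_mul, Matrix.det_mul, Matrix.det_transpose, h1, castZ_det, castZ_det, castZ_det,
      det_of_mem hg, det_of_mem hg', mul_comm] at this
    have := mul_right_cancel₀ (by exact_mod_cast hm.ne') this
    exact_mod_cast this.symm
  have h2 : y2ᵀ = ωᵀ * y1ᵀ := by rw [← hω, Matrix.transpose_mul]
  rw [← card_eq_cnt]
  refine Nat.card_congr (Equiv.ofBijective (fun g => ⟨g.1.1, g.2.1, ?_⟩) ⟨?_, ?_⟩)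
  · obtain ⟨⟨g, g'⟩, hg, hg', a1, a2⟩ := g
    obtain ⟨A, eA⟩ := (cond_iff (hm0 _ hg') _).1 a1
    obtain ⟨B, eB⟩ := (cond_iff (hm0 _ hg') _).1 a2
    have hA := hSL _ hg _ hg' _ eA
    refine ⟨by rw [eA, ← castZ_mul]; exact isInt_castZ _, B * A.adjugate, ?_⟩
    have : castZ g * ωᵀ * y1ᵀ = castZ (B * A.adjugate) * castZ g * y1ᵀ := by
      rw [Matrix.mul_assoc, ← h2, eB, Matrix.mul_assoc, eA, ← Matrix.mul_assoc, ← castZ_mul B,
        ← castZ_mul, ← castZ_mul, Matrix.mul_assoc B, Matrix.adjugate_mul, hA, one_smul,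
        Matrix.mul_one]
    simpa only [Matrix.mul_nonsing_inv_cancel_right _ _ hu] using congrArg (· * y1ᵀ⁻¹) this
  · rintro ⟨⟨g, g'⟩, hg, hg', a1, a2⟩ ⟨⟨k, k'⟩, hk, hk', b1, b2⟩ e
    obtain rfl : g = k := congrArg Subtype.val e
    obtain ⟨A, eA⟩ := (cond_iff (hm0 _ hg') _).1 a1
    obtain ⟨B, eB⟩ := (cond_iff (hm0 _ hk') _).1 b1
    have : A * g' = B * k' := castZ_injective (by rw [castZ_mul, castZ_mul, ← eA, ← eB])
    obtain rfl : g' = k' :=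
      hnf_uniq hm hg' hk' ⟨A, hSL _ hg _ hg' _ eA⟩ ⟨B, hSL _ hk _ hk' _ eB⟩ this
    rfl
  · rintro ⟨g, hg, a1, V, eV⟩
    obtain ⟨Z, eZ⟩ := (isInt_M2 _).1 a1
    have hZ : Z.det = m := by
      have := congrArg Matrix.det eZ
      rw [Matrix.det_mul, Matrix.det_transpose, h1, castZ_det, castZ_det, det_of_mem hg,
        mul_one] at this
      exact_mod_cast this
    obtain ⟨g', ⟨hg', γ, rfl⟩, -⟩ := exists_hnf hm hZ
    refine ⟨⟨(g, g'), hg, hg', (cond_iff (hm0 _ hg') _).2 ⟨γ.1, by rw [← eZ, castZ_mul]⟩,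
      (cond_iff (hm0 _ hg') _).2 ⟨V * γ.1, ?_⟩⟩, rfl⟩
    rw [h2, ← Matrix.mul_assoc, eV, Matrix.mul_assoc, ← eZ, castZ_mul, castZ_mul, Matrix.mul_assoc]

/-- `s * x` is an integer -/
def J (s x : ℚ) : Prop := ∃ n : ℤ, s * x = n

theorem smul_iff (s : ℚ) (A : M2) :
    IsInt (s • A) ↔ (J s (A 0 0) ∧ J s (A 0 1)) ∧ J s (A 1 0) ∧ J s (A 1 1) := by
  simp only [isInt_M2', Fin.forall_fin_two, isInt_rat, J, Matrix.smul_apply, smul_eq_mul]

theorem isInt_adj {s : ℚ} {A : M2} (h : IsInt (s • A)) : IsInt (s • A.adjugate) := by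
  rw [smul_iff] at h ⊢
  obtain ⟨⟨h1, a, ha⟩, ⟨b, hb⟩, h2⟩ := h
  rw [Matrix.adjugate_fin_two]
  exact ⟨⟨h2, -a, by simp [ha]⟩, ⟨-b, by simp [hb]⟩, h1⟩

theorem adj_adj (A : M2) : A.adjugate.adjugate = A := by
  ext i j; fin_cases i <;> fin_cases j <;> simp [Matrix.adjugate_fin_two]

theorem isInt_symm {s : ℚ} {A B : M2} (h : IsInt (s • (A * B.adjugate))) :
    IsInt (s • (B * A.adjugate)) := by
  have := isInt_adj h
  rwa [Matrix.adjugate_mul_distrib, adj_adj] at this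

theorem famC {d : ℕ} {y1 y2 ω : M2} (h1 : y1.det = 1) (h2 : y2.det = d) (hω : y1 * ω = y2)
    (hd : ω.det = d) (ha : ω.adjugate = -ω) {s : ℤ} (a1 : IsInt ((s : ℚ) • y1))
    (a2 : IsInt ((s : ℚ) • y2)) (a3 : IsInt ((s : ℚ) • ω))
    (a4 : IsInt ((s : ℚ) • (y2 * y1.adjugate))) (a b : Fin 4) :
    IsInt ((s : ℚ) • (![1, y1, y2, ω] a * (![1, y1, y2, ω] b).adjugate)) := by
  have a0 : IsInt ((s : ℚ) • (1 : M2)) := IsInt.zsmul (castZ_one ▸ isInt_castZ 1) s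
  have dd : ∀ A : M2, IsInt ((s : ℚ) • A) → IsInt ((s : ℚ) • (d : ℚ) • A) := fun A h => by
    rw [smul_comm]; exact IsInt.nsmul h d
  have o : ∀ A : M2, IsInt ((s : ℚ) • A) → IsInt ((s : ℚ) • (A * (1 : M2).adjugate)) :=
    fun A h => by rwa [Matrix.adjugate_one, Matrix.mul_one]
  have b11 : IsInt ((s : ℚ) • (y1 * y1.adjugate)) := by rwa [Matrix.mul_adjugate, h1, one_smul]
  have b22 : IsInt ((s : ℚ) • (y2 * y2.adjugate)) := by
    rw [Matrix.mul_adjugate, h2]; exact dd _ a0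
  have b33 : IsInt ((s : ℚ) • (ω * ω.adjugate)) := by
    rw [Matrix.mul_adjugate, hd]; exact dd _ a0
  have b13 : IsInt ((s : ℚ) • (y1 * ω.adjugate)) := by
    rw [ha, Matrix.mul_neg, hω, smul_neg]; exact a2.neg
  have b23 : IsInt ((s : ℚ) • (y2 * ω.adjugate)) := by
    rw [← hω, Matrix.mul_assoc, Matrix.mul_adjugate, hd, Matrix.mul_smul, Matrix.mul_one]
    exact dd _ a1
  fin_cases a <;> fin_cases b
  exacts [o _ a0, isInt_symm (o _ a1), isInt_symm (o _ a2), isInt_symm (o _ a3),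
    o _ a1, b11, isInt_symm a4, b13, o _ a2, a4, b22, b23, o _ a3, isInt_symm b13,
    isInt_symm b23, b33]

def N0 (y1 y2 : M2) : M2 := !![y1 0 0, y2 0 0; y1 0 1, y2 0 1]

def N1 (y1 y2 : M2) : M2 := !![y1 1 0, y2 1 0; y1 1 1, y2 1 1]

theorem famL {y1 y2 : M2} (hb : bil y1 y2 = 0) {s : ℤ} (a1 : IsInt ((s : ℚ) • y1))
    (a2 : IsInt ((s : ℚ) • y2)) (a3 : IsInt ((s : ℚ) • (y1.adjugate * y2)))
    (a4 : IsInt ((s : ℚ) • (y2 * y1.adjugate))) (a b : Fin 3) :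
    IsInt ((s : ℚ) • (![1, N0 y1 y2, N1 y1 y2] a * (![1, N0 y1 y2, N1 y1 y2] b).adjugate)) := by
  have a0 : IsInt ((s : ℚ) • (1 : M2)) := IsInt.zsmul (castZ_one ▸ isInt_castZ 1) s
  have o : ∀ A : M2, IsInt ((s : ℚ) • A) → IsInt ((s : ℚ) • (A * (1 : M2).adjugate)) :=
    fun A h => by rwa [Matrix.adjugate_one, Matrix.mul_one]
  rw [smul_iff] at a1 a2 a3 a4
  have n0 : IsInt ((s : ℚ) • N0 y1 y2) := (smul_iff _ _).2 ⟨⟨a1.1.1, a2.1.1⟩, a1.1.2, a2.1.2⟩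
  have n1 : IsInt ((s : ℚ) • N1 y1 y2) := (smul_iff _ _).2 ⟨⟨a1.2.1, a2.2.1⟩, a1.2.2, a2.2.2⟩
  obtain ⟨⟨⟨u0, hu0⟩, u1, hu1⟩, ⟨u2, hu2⟩, -⟩ := a3
  obtain ⟨⟨⟨v0, hv0⟩, v1, hv1⟩, ⟨v2, hv2⟩, -⟩ := a4
  unfold bil at hb
  simp only [Matrix.adjugate_fin_two, Matrix.mul_apply, Fin.sum_univ_two, Matrix.of_apply,
    Matrix.cons_val', Matrix.cons_val_zero, Matrix.cons_val_one, Matrix.cons_val_fin_one]
    at hu0 hu1 hu2 hv0 hv1 hv2
  have b00 : IsInt ((s : ℚ) • (N0 y1 y2 * (N0 y1 y2).adjugate)) := by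
    rw [smul_iff]
    simp only [N0, Matrix.adjugate_fin_two, Matrix.mul_apply, Fin.sum_univ_two, Matrix.of_apply,
      Matrix.cons_val', Matrix.cons_val_zero, Matrix.cons_val_one, Matrix.cons_val_fin_one]
    exact ⟨⟨⟨v1, by linear_combination hv1⟩, 0, by push_cast; ring⟩, ⟨0, by push_cast; ring⟩,
      v1, by linear_combination hv1⟩
  have b11 : IsInt ((s : ℚ) • (N1 y1 y2 * (N1 y1 y2).adjugate)) := by
    rw [smul_iff]
    simp only [N1, Matrix.adjugate_fin_two, Matrix.mul_apply, Fin.sum_univ_two, Matrix.of_apply,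
      Matrix.cons_val', Matrix.cons_val_zero, Matrix.cons_val_one, Matrix.cons_val_fin_one]
    exact ⟨⟨⟨-v2, by push_cast; linear_combination -hv2⟩, 0, by push_cast; ring⟩,
      ⟨0, by push_cast; ring⟩, -v2, by push_cast; linear_combination -hv2⟩
  have b01 : IsInt ((s : ℚ) • (N0 y1 y2 * (N1 y1 y2).adjugate)) := by
    rw [smul_iff]
    simp only [N0, N1, Matrix.adjugate_fin_two, Matrix.mul_apply, Fin.sum_univ_two,
      Matrix.of_apply, Matrix.cons_val', Matrix.cons_val_zero, Matrix.cons_val_one,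
      Matrix.cons_val_fin_one]
    exact ⟨⟨⟨-u0 - v0, by push_cast; linear_combination -hu0 - hv0 + (s : ℚ) * hb⟩,
      -u2, by push_cast; linear_combination -hu2⟩, ⟨-u1, by push_cast; linear_combination -hu1⟩,
      u0 - v0, by push_cast; linear_combination hu0 - hv0⟩
  fin_cases a <;> fin_cases b
  exacts [o _ a0, isInt_symm (o _ n0), isInt_symm (o _ n1), o _ n0, b00, b01, o _ n1,
    isInt_symm b01, b11]

theorem famL' {y1 y2 : M2} (hb : bil y1 y2 = 0) {s : ℤ} (h : ∀ a b : Fin 3,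
    IsInt ((s : ℚ) • (![1, N0 y1 y2, N1 y1 y2] a * (![1, N0 y1 y2, N1 y1 y2] b).adjugate))) :
    IsInt ((s : ℚ) • y1) ∧ IsInt ((s : ℚ) • y2) ∧
      IsInt (((2 * s : ℤ) : ℚ) • (y1.adjugate * y2)) ∧
      IsInt (((2 * s : ℤ) : ℚ) • (y2 * y1.adjugate)) := by
  have n0 : IsInt ((s : ℚ) • (N0 y1 y2 * (1 : M2).adjugate)) := h 1 0
  have n1 : IsInt ((s : ℚ) • (N1 y1 y2 * (1 : M2).adjugate)) := h 2 0
  have b00 : IsInt ((s : ℚ) • (N0 y1 y2 * (N0 y1 y2).adjugate)) := h 1 1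
  have b11 : IsInt ((s : ℚ) • (N1 y1 y2 * (N1 y1 y2).adjugate)) := h 2 2
  have b01 : IsInt ((s : ℚ) • (N0 y1 y2 * (N1 y1 y2).adjugate)) := h 1 2
  rw [Matrix.adjugate_one, Matrix.mul_one] at n0 n1
  rw [smul_iff] at n0 n1 b00 b11 b01
  refine ⟨(smul_iff _ _).2 ⟨⟨n0.1.1, n0.2.1⟩, n1.1.1, n1.2.1⟩,
    (smul_iff _ _).2 ⟨⟨n0.1.2, n0.2.2⟩, n1.1.2, n1.2.2⟩, ?_⟩
  obtain ⟨⟨⟨u, hu⟩, -⟩, -⟩ := b00
  obtain ⟨⟨⟨v, hv⟩, -⟩, -⟩ := b11
  obtain ⟨⟨⟨w0, hw0⟩, w1, hw1⟩, ⟨w2, hw2⟩, w3, hw3⟩ := b01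
  unfold bil at hb
  rw [smul_iff, smul_iff]
  simp only [N0, N1, Matrix.adjugate_fin_two, Matrix.mul_apply, Fin.sum_univ_two,
    Matrix.of_apply, Matrix.cons_val', Matrix.cons_val_zero, Matrix.cons_val_one,
    Matrix.cons_val_fin_one] at hu hv hw0 hw1 hw2 hw3 ⊢
  exact ⟨⟨⟨⟨w3 - w0, by push_cast; linear_combination hw3 - hw0 + (s : ℚ) * hb⟩,
      -2 * w2, by push_cast; linear_combination -2 * hw2⟩,
      ⟨-2 * w1, by push_cast; linear_combination -2 * hw1⟩,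
      w0 - w3, by push_cast; linear_combination hw0 - hw3 + (s : ℚ) * hb⟩,
    ⟨⟨-w3 - w0, by push_cast; linear_combination -hw3 - hw0 + (s : ℚ) * hb⟩,
      2 * u, by push_cast; linear_combination 2 * hu⟩,
      ⟨-2 * v, by push_cast; linear_combination -2 * hv⟩,
      w0 + w3, by push_cast; linear_combination hw0 + hw3 + (s : ℚ) * hb⟩

theorem cnt_true (m : ℕ) : cnt m (fun _ => True) = ArithmeticFunction.sigma 1 m := by
  unfold cnt
  rw [Finset.filter_true, card_hnf, ArithmeticFunction.sigma_one_apply]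

theorem lhs_term {y1 y2 : M2} {P : Z2} {i : ℕ} (hi : 0 < i) (hP : P.det = i)
    (h : ∀ X : M2, (∀ a : Fin 3, IsInt (X * (![1, N0 y1 y2, N1 y1 y2] a)ᵀ)) ↔
      ∃ U : Z2, X = castZ U * castZ P) {k : ℕ} (hk : 0 < k) :
    Nat.card {X : Z2 // X ∈ hnf k ∧ IsInt ((X 0 0 : ℚ) • y1 + (X 0 1 : ℚ) • y2) ∧
        IsInt ((X 1 0 : ℚ) • y1 + (X 1 1 : ℚ) • y2)} =
      if i ∣ k then ArithmeticFunction.sigma 1 (k / i) else 0 := by
  rw [card_eq_cnt, ← cnt_true, ← cnt_ite hk hi hP (fun _ _ _ => trivial)]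
  refine cnt_congr fun X _ => ?_
  have e : (∃ X', X = X' * P ∧ True) ↔ ∃ U : Z2, castZ X = castZ U * castZ P := by
    simp only [and_true, ← castZ_mul, castZ_injective.eq_iff]
  rw [e, ← h, Fin.forall_fin_succ, Fin.forall_fin_two]
  have e0 : IsInt (castZ X * (1 : M2)ᵀ) := by
    rw [Matrix.transpose_one, Matrix.mul_one]; exact isInt_castZ X
  change _ ↔ IsInt (castZ X * (1 : M2)ᵀ) ∧ IsInt (castZ X * (N0 y1 y2)ᵀ) ∧
    IsInt (castZ X * (N1 y1 y2)ᵀ)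
  rw [and_iff_right e0]
  simp only [isInt_M2', Fin.forall_fin_two, N0, N1, castZ, Matrix.mul_apply, Fin.sum_univ_two,
    Matrix.transpose_apply, Matrix.map_apply, Matrix.add_apply, Matrix.smul_apply, smul_eq_mul,
    Matrix.of_apply, Matrix.cons_val', Matrix.cons_val_zero, Matrix.cons_val_one,
    Matrix.cons_val_fin_one]
  tauto

theorem rhs_term {d : ℕ} {y1 y2 ω : M2} (hω : y1 * ω = y2)
    (hd : ω.det = d) (ha : ω.adjugate = -ω) {P : Z2} {i : ℕ} (hi : 0 < i) (hP : P.det = i)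
    (h : ∀ X : M2, (∀ a : Fin 4, IsInt (X * (![1, y1, y2, ω] a)ᵀ)) ↔
      ∃ U : Z2, X = castZ U * castZ P) :
    ∃ W : Z2, W.trace = 0 ∧ W.det = d ∧ ∀ m : ℕ, 0 < m →
      (cnt m fun X => IsInt (castZ X * y1ᵀ) ∧ ∃ V : Z2, castZ X * ωᵀ = castZ V * castZ X) =
        if i ∣ m then cnt (m / i) (St W) else 0 := by
  have h' : ∀ X : M2, (IsInt X ∧ IsInt (X * y1ᵀ) ∧ IsInt (X * y2ᵀ) ∧ IsInt (X * ωᵀ)) ↔
      ∃ U : Z2, X = castZ U * castZ P := fun X => by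
    rw [← h, Fin.forall_fin_succ, Fin.forall_fin_succ, Fin.forall_fin_two]
    change _ ↔ IsInt (X * (1 : M2)ᵀ) ∧ IsInt (X * y1ᵀ) ∧ IsInt (X * y2ᵀ) ∧ IsInt (X * ωᵀ)
    rw [Matrix.transpose_one, Matrix.mul_one]
  have h2 : y2ᵀ = ωᵀ * y1ᵀ := by rw [← hω, Matrix.transpose_mul]
  have hP0 : P.det ≠ 0 := by rw [hP]; exact_mod_cast hi.ne'
  have hu : IsUnit (castZ P).det := by
    rw [castZ_det]; exact (Int.cast_ne_zero.2 hP0).isUnit
  have hsq : ωᵀ * ωᵀ = ((-d : ℤ) : ℚ) • (1 : M2) := by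
    have := Matrix.mul_adjugate ω
    rw [ha, hd, Matrix.mul_neg, neg_eq_iff_eq_neg] at this
    rw [← Matrix.transpose_mul, this]
    simp
  obtain ⟨p0, p1, p2, p3⟩ := (h' (castZ P)).2 ⟨1, by rw [castZ_one, Matrix.one_mul]⟩
  obtain ⟨W, hW⟩ := (h' (castZ P * ωᵀ)).1 ⟨p3, by rwa [Matrix.mul_assoc, ← h2], by
    rw [h2, Matrix.mul_assoc, ← Matrix.mul_assoc ωᵀ, hsq, Matrix.smul_mul, Matrix.one_mul,
      Matrix.mul_smul]
    exact p1.zsmul _, by
    rw [Matrix.mul_assoc, hsq, Matrix.mul_smul, Matrix.mul_one]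
    exact p0.zsmul _⟩
  have hWe : castZ W = castZ P * ωᵀ * (castZ P)⁻¹ := by
    rw [hW, Matrix.mul_nonsing_inv_cancel_right _ _ hu]
  refine ⟨W, ?_, ?_, fun m hm => ?_⟩
  · have e1 : (castZ W).trace = 0 := by
      rw [hWe, Matrix.trace_mul_comm, ← Matrix.mul_assoc, Matrix.nonsing_inv_mul _ hu,
        Matrix.one_mul, Matrix.trace_transpose, Matrix.trace_fin_two]
      have := congrFun (congrFun ha 0) 0
      simp [Matrix.adjugate_fin_two] at this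
      linarith
    rw [Matrix.trace_fin_two] at e1 ⊢
    simp only [castZ, Matrix.map_apply] at e1
    exact_mod_cast e1
  · have := congrArg Matrix.det hW
    rw [Matrix.det_mul, Matrix.det_mul, Matrix.det_transpose, hd, mul_comm] at this
    have := mul_right_cancel₀ hu.ne_zero this
    rw [castZ_det] at this
    exact_mod_cast this.symm
  · rw [← cnt_ite hm hi hP (li_St W)]
    refine cnt_congr fun X _ => ⟨?_, ?_⟩
    · rintro ⟨a1, V, eV⟩
      obtain ⟨U, eU⟩ := (h' (castZ X)).1 ⟨isInt_castZ X, a1, by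
        rw [h2, ← Matrix.mul_assoc, eV, Matrix.mul_assoc]
        exact isInt_mul (isInt_castZ V) a1, by rw [eV, ← castZ_mul]; exact isInt_castZ _⟩
      refine ⟨U, castZ_injective (by rw [eU, castZ_mul]), V, cancel hP0 (castZ_injective ?_)⟩
      rw [castZ_mul, castZ_mul, castZ_mul, castZ_mul, Matrix.mul_assoc, ← hW, ← Matrix.mul_assoc,
        ← eU, eV, eU, Matrix.mul_assoc]
    · rintro ⟨U, rfl, V, eV⟩
      refine ⟨by rw [castZ_mul, Matrix.mul_assoc]; exact isInt_mul (isInt_castZ U) p1, V, ?_⟩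
      rw [castZ_mul, Matrix.mul_assoc, hW, ← Matrix.mul_assoc, ← castZ_mul, eV, castZ_mul,
        Matrix.mul_assoc]

theorem adj_eq_neg {A : M2} (h : A 0 0 + A 1 1 = 0) : A.adjugate = -A := by
  ext i j; fin_cases i <;> fin_cases j <;> simp [Matrix.adjugate_fin_two] <;> linarith

end CountP

open CountP in
theorem count : S_Count := by
  rintro d N - hdN y1 y2 h1 hb h2 ⟨t, ht, t1, t2⟩ n hn hnN
  set ω := y1.adjugate * y2 with hωd
  have hω : y1 * ω = y2 := by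
    rw [hωd, ← Matrix.mul_assoc, Matrix.mul_adjugate, h1, one_smul, Matrix.one_mul]
  have hd : ω.det = d := by
    have := congrArg Matrix.det hω
    rwa [Matrix.det_mul, h1, h2, one_mul] at this
  have ha : ω.adjugate = -ω := adj_eq_neg (by
    unfold bil at hb
    simp only [hωd, Matrix.adjugate_fin_two, Matrix.mul_apply, Fin.sum_univ_two, Matrix.of_apply,
      Matrix.cons_val', Matrix.cons_val_zero, Matrix.cons_val_one, Matrix.cons_val_fin_one]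
    linarith)
  obtain ⟨P0, i0, hi0, hP0, hX0, hs0⟩ := lat ![1, N0 y1 y2, N1 y1 y2] 0 rfl
  obtain ⟨P1, i1, hi1, hP1, hX1, hs1⟩ := lat ![1, y1, y2, ω] 0 rfl
  have e01 : (i0 : ℤ) ∣ i1 := by
    have h := (hs1 i1).2 dvd_rfl
    have o : ∀ A : M2, IsInt (((i1 : ℤ) : ℚ) • (A * (1 : M2).adjugate)) →
        IsInt (((i1 : ℤ) : ℚ) • A) := fun A h => by rwa [Matrix.adjugate_one, Matrix.mul_one] at h
    exact (hs0 _).1 (famL hb (o _ (h 1 0)) (o _ (h 2 0)) (o _ (h 3 0)) (h 2 1))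
  have e10 : (i1 : ℤ) ∣ 2 * i0 := by
    obtain ⟨a1, a2, a3, a4⟩ := famL' hb ((hs0 i0).2 dvd_rfl)
    have tw : ∀ A : M2, IsInt (((i0 : ℤ) : ℚ) • A) → IsInt (((2 * i0 : ℤ) : ℚ) • A) := fun A h => by
      rw [Int.cast_mul, mul_smul]; exact h.zsmul 2
    exact (hs1 _).1 (famC h1 h2 hω hd ha (tw _ a1) (tw _ a2) a3 a4)
  have et : (i1 : ℤ) ∣ t * t := by
    have tw : ∀ A : M2, IsInt ((t : ℚ) • A) → IsInt (((t * t : ℤ) : ℚ) • A) := fun A h => by
      rw [Int.cast_mul, mul_smul]; exact h.zsmul t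
    have tm : ∀ A B : M2, IsInt ((t : ℚ) • A) → IsInt ((t : ℚ) • B) →
        IsInt (((t * t : ℤ) : ℚ) • (A * B)) := fun A B hA hB => by
      have := isInt_mul hA hB
      rw [Matrix.smul_mul, Matrix.mul_smul, smul_smul] at this
      exact_mod_cast this
    exact (hs1 _).1 (famC h1 h2 hω hd ha (tw _ t1) (tw _ t2) (tm _ _ (isInt_adj t1) t2)
      (tm _ _ t2 (isInt_adj t1)))
  obtain rfl : i0 = i1 := by
    have ht2 : (t * t).Coprime 2 :=
      Nat.Coprime.coprime_dvd_right ((dvd_mul_right 2 d).trans hdN) (Nat.Coprime.mul_left ht ht)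
    have h12 : i1.Coprime 2 := Nat.Coprime.coprime_dvd_left (by exact_mod_cast et) ht2
    exact Nat.dvd_antisymm (by exact_mod_cast e01)
      (h12.dvd_of_dvd_mul_left (by exact_mod_cast e10))
  obtain ⟨W, hW, hW', hr⟩ := rhs_term hω hd ha hi1 hP1 hX1
  have L : ∀ k ∈ n.divisors, (Nat.card {X : Z2 // X ∈ hnf k ∧
      IsInt ((X 0 0 : ℚ) • y1 + (X 0 1 : ℚ) • y2) ∧
      IsInt ((X 1 0 : ℚ) • y1 + (X 1 1 : ℚ) • y2)} : ℂ) * rK d (n / k) =
      if i0 ∣ k then (ArithmeticFunction.sigma 1 (k / i0) : ℂ) * rK d (n / k) else 0 := by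
    intro k hk
    rw [lhs_term hi0 hP0 hX0 (Nat.pos_of_mem_divisors hk)]
    split_ifs <;> simp
  have R : ∀ m ∈ n.divisors, (ArithmeticFunction.sigma 1 (n / m) : ℂ) *
      (Nat.card {g : Z2 × Z2 // g.1 ∈ hnf m ∧ g.2 ∈ hnf m ∧
        IsInt ((castZ g.2.transpose)⁻¹ * y1 * castZ g.1.transpose) ∧
        IsInt ((castZ g.2.transpose)⁻¹ * y2 * castZ g.1.transpose)} : ℂ) =
      if i0 ∣ m then (ArithmeticFunction.sigma 1 (n / m) : ℂ) * rK d (m / i0) else 0 := by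
    intro m hm
    have hm0 := Nat.pos_of_mem_divisors hm
    rw [card_pairs hm0 h1 hω, hr m hm0]
    split_ifs with h
    · rw [cnt_St _ (Nat.div_pos (Nat.le_of_dvd hm0 h) hi0) (Nat.Coprime.coprime_dvd_right hdN
        (Nat.Coprime.coprime_dvd_left ((Nat.div_dvd_of_dvd h).trans (Nat.dvd_of_mem_divisors hm))
          hnN)) W hW hW']
    · simp
  rw [Finset.sum_congr rfl L, Finset.sum_congr rfl R, sum_ite_dvd hn hi0, sum_ite_dvd hn hi0]
  split_ifs with h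
  · simp only [Nat.mul_div_cancel_left _ hi0, ← Nat.div_div_eq_div_mul]
    rw [← Nat.sum_div_divisors]
    refine Finset.sum_congr rfl fun k hk => ?_
    rw [Nat.div_div_self (Nat.dvd_of_mem_divisors hk) (Nat.mem_divisors.1 hk).2]
  · rfl

end

end Pool.Agent.P.MP_b8021b_nt.CM
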