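import Pool.Agent.P.MP_b8021b_nt.CM.Dual1

/-! Package P8: the duality theorem for vector valued forms of weight two. -/

namespace Pool.Agent.P.MP_b8021b_nt.CM

open Complex hiding Gamma
open UpperHalfPlane hiding I
open MeasureTheory CongruenceSubgroup Filter
open scoped Real MatrixGroups ModularForm Topology ComplexConjugate Modular

noncomputable section

namespace DualP

variable {M : ℕ} [NeZero M]

/-! ### the pairing -/

def GG (g : ℕ → ℂ) : LL :=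
  HahnSeries.ofSuppBddBelow (fun n => if 0 ≤ n then g n.toNat else 0)
    ⟨0, fun _ hn => by_contra fun h => hn (if_neg h)⟩

theorem GG_coeff (g : ℕ → ℂ) (n : ℤ) : (GG g).coeff n = if 0 ≤ n then g n.toNat else 0 := rfl

def Hyp (M : ℕ) [NeZero M] (g : R2 M → ℕ → ℂ) : Prop :=
  ∀ (F : R2 M → ℍ → ℂ) (C : R2 M → ℕ → ℕ) (n0 : ℕ), Inp M F →
    (∀ μ (n : ℕ), 0 < n → coef M (F μ) (-n) = C μ n) → (∀ μ n, n0 < n → C μ n = 0) →
    ∑ μ, ∑ n ∈ Finset.Icc 1 n0, (C μ n : ℂ) * g μ n = 0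

def pr (g : R2 M → ℕ → ℂ) (F : R2 M → ℍ → ℂ) (n0 : ℕ) : ℂ :=
  ∑ μ, ∑ n ∈ Finset.Icc 1 n0, coef M (F μ) (-(n : ℕ)) * g μ n

theorem pr_nat {g : R2 M → ℕ → ℂ} (H : Hyp M g) {F : R2 M → ℍ → ℂ} (hF : Inp M F)
    (hn : ∀ μ (n : ℕ), 0 < n → ∃ m : ℕ, coef M (F μ) (-n) = m) {n1 : ℕ}
    (h1 : ∀ μ (n : ℤ), n < -n1 → coef M (F μ) n = 0) : pr g F n1 = 0 := by
  choose! C hC using hn
  rw [← H F C n1 hF hC fun μ n h => ?_]
  · exact Finset.sum_congr rfl fun μ _ => Finset.sum_congr rfl fun n h => by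
      rw [hC μ n (Finset.mem_Icc.1 h).1]
  · have := hC μ n (by omega)
    rw [h1 μ _ (by omega)] at this
    exact_mod_cast this.symm

theorem den_clear {ι : Type} (s : Finset ι) (q : ι → ℚ) :
    ∃ D K : ℕ, 0 < D ∧ ∀ i ∈ s, ∃ m : ℕ, (D : ℚ) * q i + K = m := by
  classical
  induction s using Finset.induction_on with
  | empty => exact ⟨1, 0, one_pos, by simp⟩
  | insert i s _ ih =>
    obtain ⟨D, K, hD, h⟩ := ih
    refine ⟨D * (q i).den, K * (q i).den + D * (q i).num.natAbs, Nat.mul_pos hD (q i).den_pos,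
      fun j hj => ?_⟩
    rcases Finset.mem_insert.1 hj with rfl | hj
    · obtain ⟨m, hm⟩ := Int.eq_ofNat_of_zero_le (a := (q j).num + (q j).num.natAbs) (by omega)
      refine ⟨D * m + K * (q j).den, ?_⟩
      have h1 : ((q j).num : ℚ) + ((q j).num.natAbs : ℕ) = m := by
        have := congrArg (Int.cast : ℤ → ℚ) hm
        rwa [Int.cast_add, Int.cast_natCast, Int.cast_natCast] at this
      have h2 := Rat.den_mul_eq_num (q j)
      simp only [Nat.cast_add, Nat.cast_mul]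
      linear_combination D * h1 + D * h2
    · obtain ⟨m, hm⟩ := h j hj
      refine ⟨m * (q i).den + D * (q i).num.natAbs, ?_⟩
      simp only [Nat.cast_add, Nat.cast_mul]
      linear_combination (q i).den * hm

theorem inp_pole {F : R2 M → ℍ → ℂ} (hF : Inp M F) :
    ∃ n0 : ℕ, ∀ μ (n : ℤ), n < -n0 → coef M (F μ) n = 0 := by
  choose a ha using fun μ => (hF.cls μ).exists_pole (NeZero.pos M)
    (coef_eq_zero_of_T (hF.cls μ).1 (hF.hT μ)).1
  refine ⟨∑ μ, a μ, fun μ n hn => ha μ n ?_⟩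
  have := Finset.single_le_sum (f := a) (fun _ _ => Nat.zero_le _) (Finset.mem_univ μ)
  omega

theorem inp_comb {F F' : R2 M → ℍ → ℂ} (h : Inp M F) (h' : Inp M F') (a b : ℂ) :
    Inp M fun μ => a • F μ + b • F' μ where
  cls μ := ((h.cls μ).smul a).add ((h'.cls μ).smul b)
  hT μ τ := by simp only [Pi.add_apply, Pi.smul_apply, smul_eq_mul, h.hT, h'.hT]; ring
  hS μ τ := by
    simp only [Pi.add_apply, Pi.smul_apply, smul_eq_mul, h.hS, h'.hS, mul_add,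
      Finset.sum_add_distrib, add_div, ← mul_div_assoc, Finset.mul_sum, mul_left_comm]

theorem pr_rat (hP : S_Fplus) {g : R2 M → ℕ → ℂ} (H : Hyp M g) {F : R2 M → ℍ → ℂ} (hF : Inp M F)
    (hr : ∀ μ, RatExp M (F μ)) :
    ∃ n1 : ℕ, (∀ μ (n : ℤ), n < -n1 → coef M (F μ) n = 0) ∧ pr g F n1 = 0 := by
  obtain ⟨n0, h0⟩ := inp_pole hF
  obtain ⟨F', hF', hk⟩ := hP M n0
  obtain ⟨n1, h1⟩ := inp_pole hF'
  choose q hq using hr
  obtain ⟨D, K, hD, hDK⟩ := den_clear (Finset.univ ×ˢ Finset.Icc 1 n0)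
    fun p : R2 M × ℕ => q p.1 (-(p.2 : ℕ))
  have hc : ∀ μ n, coef M ((D : ℂ) • F μ + (K : ℂ) • F' μ) n =
      D * coef M (F μ) n + K * coef M (F' μ) n := fun μ n => by
    rw [coef_add ((hF.cls μ).1.smul _).continuous ((hF'.cls μ).1.smul _).continuous, coef_smul,
      coef_smul]
  have h2 := pr_nat H hF' (fun μ n hn => (hk μ n hn).imp fun _ h => h.1) (n1 := n0 + n1)
    fun μ n hn => h1 μ n (by omega)
  have h3 := pr_nat H (inp_comb hF hF' D K) (n1 := n0 + n1) (fun μ n hn => ?_) fun μ n hn => by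
    rw [hc, h0 μ n (by omega), h1 μ n (by omega)]; simp
  · refine ⟨n0 + n1, fun μ n hn => h0 μ n (by omega), ?_⟩
    have h4 : pr g (fun μ => (D : ℂ) • F μ + (K : ℂ) • F' μ) (n0 + n1) =
        D * pr g F (n0 + n1) + K * pr g F' (n0 + n1) := by
      simp only [pr, hc, Finset.mul_sum, ← Finset.sum_add_distrib]
      exact Finset.sum_congr rfl fun _ _ => Finset.sum_congr rfl fun _ _ => by ring
    rw [h3, h2, mul_zero, add_zero] at h4
    exact (mul_eq_zero.1 h4.symm).resolve_left (by exact_mod_cast hD.ne')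
  · obtain ⟨k, hk1, hk2⟩ := hk μ n hn
    rw [hc, hk1]
    by_cases h : n ≤ n0 ∧ (n : ZMod M) = μ.det
    · obtain ⟨m, hm⟩ := hDK (μ, n) (by simp [h.1, Nat.succ_le_iff, hn])
      obtain ⟨k, rfl⟩ := Nat.exists_eq_add_of_le (hk2 h.1 h.2)
      refine ⟨m + K * k, ?_⟩
      have h5 : (D : ℂ) * (q μ (-(n : ℕ)) : ℚ) + K = m := by exact_mod_cast hm
      rw [hq]
      push_cast
      linear_combination h5
    · refine ⟨K * k, ?_⟩
      rw [show coef M (F μ) (-n) = 0 from ?_]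
      · simp
      · rcases not_and_or.1 h with h | h
        · exact h0 μ _ (by omega)
        · exact (coef_eq_zero_of_T (hF.cls μ).1 (hF.hT μ)).2 _ fun h' => h (by simpa using h')

theorem ct_zero (hP : S_Fplus) {g : R2 M → ℕ → ℂ} (g0 : ∀ μ, g μ 0 = 0) (H : Hyp M g)
    {F : R2 M → AD M} (hF : Inp M fun μ => (F μ).1) (hr : ∀ μ, RatExp M (F μ).1) :
    (∑ μ, GG (g μ) * io M (F μ)).coeff 0 = 0 := by
  obtain ⟨n1, h1, h2⟩ := pr_rat hP H hF hr
  rw [HahnSeries.coeff_sum, ← h2]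
  refine Finset.sum_congr rfl fun μ _ => ?_
  have l1 : Lo 1 (GG (g μ)) := fun n hn => by
    rw [GG_coeff]
    split_ifs with h
    · rw [show n.toNat = 0 by omega, g0]
    · rfl
  rw [l1.coeff_mul (b := -n1) (y := io M (F μ)) (h1 μ)]
  symm
  refine Finset.sum_nbij' (fun n : ℕ => (n : ℤ)) Int.toNat ?_ ?_ ?_ ?_ ?_
  · intro n hn; simp only [Finset.mem_Icc] at hn ⊢; omega
  · intro n hn; simp only [Finset.mem_Icc] at hn ⊢; omega
  · intro n _; simp
  · intro n hn; simp only [Finset.mem_Icc] at hn ⊢; omega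
  · intro n _
    rw [GG_coeff, if_pos (by omega), io_coeff, zero_sub, mul_comm, Int.toNat_natCast]

/-! ### forms of level one -/

structure Wt (M : ℕ) (w : ℤ) (h : ℍ → ℂ) : Prop where
  ing : InG h
  law : ∀ (γ : SL) τ, h (γ • τ) = jf γ τ ^ w * h τ
  rat : RatExp M h

omit [NeZero M] in
theorem Wt.per {w : ℤ} {h : ℍ → ℂ} (H : Wt M w h) (N : ℕ) : Per N h := fun τ => by
  rw [← T_smul, H.law, jf_TM, one_zpow, one_mul]

theorem Wt.adm {w : ℤ} {h : ℍ → ℂ} (H : Wt M w h) : h ∈ AD M :=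
  InG.adm (NeZero.pos M) H.ing (H.per M)

theorem Wt.mul {w w' : ℤ} {h h' : ℍ → ℂ} (H : Wt M w h) (H' : Wt M w' h') :
    Wt M (w + w') (h * h') where
  ing := H.ing.mul H'.ing
  law γ τ := by
    rw [Pi.mul_apply, Pi.mul_apply, H.law, H'.law, zpow_add₀ (jf_ne_zero γ τ)]; ring
  rat := RatExp.mul (NeZero.pos M) H.ing (H.per M) H'.ing (H'.per M) H.rat H'.rat

theorem Wt.pow {w : ℤ} {h : ℍ → ℂ} (H : Wt M w h) (n : ℕ) : Wt M (n * w) (h ^ n) := by
  induction n with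
  | zero =>
    refine ⟨by rw [pow_zero]; exact inG_const 1, fun γ τ => by simp, fun n => ?_⟩
    rw [pow_zero, show (1 : ℍ → ℂ) = fun _ => 1 from rfl, coef_const (NeZero.pos M)]
    split_ifs
    exacts [⟨1, by simp⟩, ⟨0, by simp⟩]
  | succ n ih =>
    rw [pow_succ, show ((n + 1 : ℕ) : ℤ) * w = n * w + w by push_cast; ring]
    exact ih.mul H

theorem Wt.up {w : ℤ} {h : ℍ → ℂ} (H : Wt 1 w h) : Wt M w h where
  ing := H.ing
  law := H.law
  rat n := by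
    have := coef_level one_pos H.ing.1 (H.per 1) (NeZero.pos M) n
    rw [mul_one] at this
    rw [this]
    split_ifs
    exacts [H.rat _, ⟨0, by simp⟩]

theorem law_of_sl {k : ℤ} {h : ℍ → ℂ} (H : ∀ γ : SL, sl k γ h = h) (γ : SL) (τ : ℍ) :
    h (γ • τ) = jf γ τ ^ k * h τ := by
  rw [← congrFun (H γ) τ, sl, zpow_neg]
  field_simp [zpow_ne_zero k (jf_ne_zero γ τ)]

abbrev E4 : ℍ → ℂ := ModularForm.E₄
abbrev E6 : ℍ → ℂ := ModularForm.E₆
def Di (τ : ℍ) : ℂ := (ModularForm.discriminant τ)⁻¹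

theorem wt4 (hJ : S_J) : Wt M 4 E4 :=
  Wt.up ⟨(inG_levelOne _).1, law_of_sl (inG_levelOne _).2, hJ.2.2.2.2.2.1⟩

theorem wt6 (hJ : S_J) : Wt M 6 E6 :=
  Wt.up ⟨(inG_levelOne _).1, law_of_sl (inG_levelOne _).2, hJ.2.2.2.2.2.2.1⟩

theorem wtD (hJ : S_J) : Wt M (-12) Di :=
  Wt.up ⟨inG_Delta_inv, fun γ τ => by
    rw [Di, Di, law_of_sl inG_Delta.2, mul_inv, zpow_neg], hJ.2.2.2.2.2.2.2.1⟩

theorem jj_eq : jj = E4 * (E4 * (E4 * Di)) := by
  funext τ; simp only [jj, Di, Pi.mul_apply]; ring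

theorem jj_eq' : jj = E6 * (E6 * Di) + fun _ => 1728 := by
  funext τ
  have h1 := ModularForm.discriminant_eq_E₄_cube_sub_E₆_sq τ
  have h2 := ModularForm.discriminant_ne_zero τ
  simp only [jj, Di, Pi.mul_apply, Pi.add_apply]
  field_simp
  linear_combination -1728 * h1

theorem wtj (hJ : S_J) : Wt M 0 jj := by
  rw [jj_eq]
  simpa using (wt4 hJ).mul ((wt4 hJ).mul ((wt4 hJ).mul (wtD hJ)))

theorem der_mul {f g : ℍ → ℂ} (h : Hol f) (h' : Hol g) : der (f * g) = der f * g + f * der g := by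
  funext τ
  have := deriv_mul (h.analyticAt τ).differentiableAt (h'.analyticAt τ).differentiableAt
  refine this.trans ?_
  simp [der]

theorem der_pow {f : ℍ → ℂ} (h : Hol f) (t : ℕ) :
    der (f ^ (t + 1)) = ((t : ℂ) + 1) • (der f * f ^ t) := by
  induction t with
  | zero => simp
  | succ t ih =>
    rw [pow_succ, der_mul (h.pow _) h, ih]
    funext τ
    simp only [Pi.add_apply, Pi.mul_apply, Pi.smul_apply, Pi.pow_apply, smul_eq_mul]
    push_cast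
    ring

def jA (hJ : S_J) (M : ℕ) [NeZero M] : AD M := ⟨jj, (wtj hJ).adm⟩

def dA (f : AD M) : AD M := ⟨der f.1, Adm.deriv (NeZero.pos M) f.2⟩

theorem coef_jj (hJ : S_J) (n : ℤ) :
    coef M jj n = if (M : ℤ) ∣ n then coef 1 jj (n / M) else 0 := by
  have := coef_level one_pos (wtj (M := 1) hJ).ing.1 ((wtj (M := 1) hJ).per 1) (NeZero.pos M) n
  rwa [mul_one] at this

theorem coef_dj (hJ : S_J) (n : ℤ) :
    (io M (dA (jA hJ M))).coeff n = 2 * π * I * n / M * (io M (jA hJ M)).coeff n :=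
  coef_der (NeZero.pos M) (jA hJ M).2.1 (jA hJ M).2.2.1 n

theorem j_facts (hJ : S_J) : Cls M 0 (io M (jA hJ M)) ∧ Lo (-M) (io M (jA hJ M)) ∧
    (io M (jA hJ M)).coeff (-M) = 1 := by
  have hM : (0 : ℤ) < M := by exact_mod_cast NeZero.pos M
  refine ⟨fun n hn => ?_, fun n hn => ?_, ?_⟩
  · exact (coef_jj hJ n).trans (if_neg fun h => hn ((ZMod.intCast_zmod_eq_zero_iff_dvd _ _).2 h))
  · refine (coef_jj hJ n).trans ?_
    split_ifs with h
    · obtain ⟨s, rfl⟩ := h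
      rw [Int.mul_ediv_cancel_left _ hM.ne']
      exact hJ.2.2.2.1 s (by nlinarith)
    · rfl
  · refine (coef_jj hJ _).trans ?_
    rw [if_pos (by simp), Int.neg_ediv_of_dvd dvd_rfl, Int.ediv_self hM.ne']
    exact hJ.2.2.2.2.1

theorem dj_lead (hJ : S_J) : (io M (dA (jA hJ M))).coeff (-M) ≠ 0 := by
  have hM : (M : ℂ) ≠ 0 := by exact_mod_cast NeZero.ne M
  rw [coef_dj, (j_facts hJ).2.2]
  simp [hM, Real.pi_ne_zero]

theorem exists_u (hJ : S_J) (P : LL) (cP : Cls M 0 P)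
    (hP : ∀ t : ℕ, (P * io M (jA hJ M) ^ t).coeff 0 = 0) :
    ∃ u : AD M, (∀ τ, u.1 (ModularGroup.S • τ) = u.1 τ) ∧ P = io M (u * dA (jA hJ M)) := by
  obtain ⟨c1, l1, n1⟩ := j_facts (M := M) hJ
  obtain ⟨a, ha⟩ := exists_lo P
  have hM : (0 : ℤ) < M := by exact_mod_cast NeZero.pos M
  have g1 : ∀ t : ℕ, (io M (dA (jA hJ M)) * io M (jA hJ M) ^ t).coeff 0 = 0 := fun t => by
    have h1 := coef_der (NeZero.pos M) (jA hJ M ^ (t + 1)).2.1 (jA hJ M ^ (t + 1)).2.2.1 0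
    rw [Subalgebra.coe_pow, der_pow (jA hJ M).2.1, coef_smul] at h1
    rw [← map_pow, ← map_mul, io_coeff]
    exact (mul_eq_zero.1 (h1.trans (by simp))).resolve_left (Nat.cast_add_one_ne_zero t)
  obtain ⟨x, ⟨u, hu, rfl⟩, hx⟩ := ps (NeZero.pos M) (J := io M (jA hJ M))
    (J' := io M (dA (jA hJ M))) c1 (fun n hn => by rw [coef_dj, c1 n hn, mul_zero]) l1
    (fun n hn => by rw [coef_dj, l1 n hn, mul_zero]) (by rw [n1]; exact one_ne_zero) (dj_lead hJ)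
    g1 (fun x => ∃ u : AD M, (∀ τ, u.1 (ModularGroup.S • τ) = u.1 τ) ∧ x = io M u)
    ⟨0, fun _ => rfl, (map_zero _).symm⟩ (by
      rintro x c N ⟨u, hu, rfl⟩
      refine ⟨u + algebraMap ℂ _ c * jA hJ M ^ N, fun τ => ?_, by
        rw [map_add, map_mul, map_pow, io_const]⟩
      have := (wtj (M := M) hJ).law ModularGroup.S τ
      change u.1 _ + c * jj _ ^ N = u.1 _ + c * jj _ ^ N
      rw [hu, this, zpow_zero, one_mul]) a.natAbs P cP
    (fun n hn => ha n (by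
      have h1 : -a ≤ a.natAbs := by omega
      have h2 : (a.natAbs : ℤ) ≤ a.natAbs * M := le_mul_of_one_le_right (by omega) (by omega)
      omega)) hP
  exact ⟨u, hu, by rw [map_mul, hx]⟩

/-- multipliers that are allowed at a given point -/
theorem exists_h (hJ : S_J) (m : ℕ) (τ : ℍ) : ∃ h1 h2 D : AD M,
    Wt M (-(2 * m : ℕ)) (h1 * h2).1 ∧ dA (jA hJ M) = h2 * D ∧ h1.1 τ ≠ 0 := by
  obtain ⟨e4, he4⟩ : ∃ e4 : AD M, e4 = ⟨E4, (wt4 hJ).adm⟩ := ⟨_, rfl⟩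
  obtain ⟨e6, he6⟩ : ∃ e6 : AD M, e6 = ⟨E6, (wt6 hJ).adm⟩ := ⟨_, rfl⟩
  obtain ⟨di, hdi⟩ : ∃ di : AD M, di = ⟨Di, (wtD hJ).adm⟩ := ⟨_, rfl⟩
  have a4 := (wt4 (M := M) hJ).ing.1
  have a6 := (wt6 (M := M) hJ).ing.1
  have aD := (wtD (M := M) hJ).ing.1
  have hD : Di τ ≠ 0 := inv_ne_zero (ModularForm.discriminant_ne_zero τ)
  rcases hJ.2.2.2.2.2.2.2.2 τ with h | h
  · have h1 : dA (jA hJ M) = e6 * (2 * dA e6 * di + e6 * dA di) := by
      refine Subtype.ext ?_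
      have h2 : der jj = der (E6 * (E6 * Di)) := by
        funext σ
        rw [jj_eq']
        exact deriv_add_const _
      change der jj = _
      rw [h2, der_mul a6 (a6.mul aD), der_mul a6 aD, he6, hdi]
      change _ = E6 * (2 * der E6 * Di + E6 * der Di)
      ring
    refine ⟨(e4 ^ 2 * di) ^ (m / 2 + 2 * (m % 2)), e6 ^ (m % 2),
      e6 ^ (1 - m % 2) * (2 * dA e6 * di + e6 * dA di), ?_, ?_, ?_⟩
    · have := ((((wt4 (M := M) hJ).pow 2).mul (wtD hJ)).pow (m / 2 + 2 * (m % 2))).mul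
        ((wt6 hJ).pow (m % 2))
      rw [he4, he6, hdi]
      convert this using 1
      · push_cast
        omega
      · rfl
    · rw [← mul_assoc, ← pow_add, show m % 2 + (1 - m % 2) = 1 by omega, pow_one, h1]
    · rw [he4, hdi]
      exact pow_ne_zero _ (mul_ne_zero (pow_ne_zero _ h) hD)
  · have h1 : dA (jA hJ M) = e4 ^ 2 * (3 * dA e4 * di + e4 * dA di) := by
      refine Subtype.ext ?_
      change der jj = _
      rw [jj_eq, der_mul a4 (a4.mul (a4.mul aD)), der_mul a4 (a4.mul aD), der_mul a4 aD, he4, hdi]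
      change _ = E4 ^ 2 * (3 * der E4 * Di + E4 * der Di)
      ring
    refine ⟨(e6 * di) ^ (m / 3 + m % 3), e4 ^ (m % 3),
      e4 ^ (2 - m % 3) * (3 * dA e4 * di + e4 * dA di), ?_, ?_, ?_⟩
    · have := (((wt6 (M := M) hJ).mul (wtD hJ)).pow (m / 3 + m % 3)).mul ((wt4 hJ).pow (m % 3))
      rw [he4, he6, hdi]
      convert this using 1
      · push_cast
        omega
      · rfl
    · rw [← mul_assoc, ← pow_add, show m % 3 + (2 - m % 3) = 2 by omega, h1]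
    · rw [he6, hdi]
      exact pow_ne_zero _ (mul_ne_zero h hD)

/-! ### the family -/

abbrev P2 (M : ℕ) := ZMod M × ZMod M

def UU (M : ℕ) [NeZero M] (k : ℕ) (p : P2 M) (τ : ℍ) : ℂ :=
  (∑ n : ZMod M, eM M (p.2 * n) * GS M k (p.1, n) τ) / (2 * π * I) ^ k

theorem UU_eq (k : ℕ) (p : P2 M) :
    UU M k p = ((2 * π * I) ^ k : ℂ)⁻¹ • ∑ n : ZMod M, eM M (p.2 * n) • GS M k (p.1, n) := by
  funext τ
  simp [UU, Finset.sum_apply, div_eq_inv_mul]

theorem UU_inG (hE : S_Eis) {k : ℕ} (hk : 3 ≤ k) (p : P2 M) : InG (UU M k p) := by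
  rw [UU_eq]
  exact (InG.sum _ _ fun n _ => ((hE M).1 k hk _).smul _).smul _

theorem UU_per (hE : S_Eis) {k : ℕ} (hk : 3 ≤ k) (p : P2 M) : Per M (UU M k p) := fun τ => by
  simp only [UU, ← T_smul, (hE M).2.1 k hk, jf_TM, ModularGroup.coe_T_zpow]
  simp

theorem UU_neg (hE : S_Eis) {k : ℕ} (hk : 3 ≤ k) (p : P2 M) (τ : ℍ) :
    UU M k (-p) τ = (-1) ^ k * UU M k p τ := by
  have h1 : ∀ a : P2 M, GS M k a τ = (-1) ^ k * GS M k (-a) τ := fun a => by
    have := (hE M).2.1 k hk a (-1) τ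
    rw [ModularGroup.SL_neg_smul, one_smul] at this
    rw [this]
    simp [jf]
    rfl
  simp only [UU]
  rw [← mul_div_assoc, Finset.mul_sum, ← Equiv.sum_comp (Equiv.neg (ZMod M))]
  congr 1
  refine Finset.sum_congr rfl fun n _ => ?_
  rw [h1 (_, _)]
  simp [mul_left_comm]

theorem UU_sep (hE : S_Eis) (τ : ℍ) (c : P2 M → ℂ)
    (h : ∀ k, 3 ≤ k → ∑ p, c p * UU M k p τ = 0) : c = 0 := by
  have h1 := (hE M).2.2.2 τ (fun a => ∑ κ, c (a.1, κ) * eM M (κ * a.2)) fun k hk => by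
    have h2 := h k hk
    have h3 : ((2 * π * I) ^ k : ℂ) ≠ 0 := pow_ne_zero _ two_pi_I_ne_zero
    simp only [UU, ← mul_div_assoc, ← Finset.sum_div, div_eq_zero_iff, h3, or_false] at h2
    rw [← h2, Fintype.sum_prod_type, Fintype.sum_prod_type]
    refine Finset.sum_congr rfl fun m _ => ?_
    simp only [Finset.sum_mul, Finset.mul_sum, mul_assoc]
    exact Finset.sum_comm
  funext p
  have h2 : ∑ n : ZMod M, eM M (n * -p.2) * ∑ κ, c (p.1, κ) * eM M (κ * n) = 0 :=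
    Finset.sum_eq_zero fun n _ => by
      rw [show ∑ κ, c (p.1, κ) * eM M (κ * n) = 0 from congrFun h1 (p.1, n), mul_zero]
  simp only [Finset.mul_sum] at h2
  rw [Finset.sum_comm] at h2
  have h3 : ∀ κ, ∑ n : ZMod M, eM M (n * -p.2) * (c (p.1, κ) * eM M (κ * n)) =
      if κ = p.2 then c (p.1, κ) * M else 0 := fun κ => by
    rw [Finset.sum_congr rfl fun n _ => (by
      rw [show n * (κ - p.2) = n * -p.2 + κ * n by ring, eM_add]; ring :
        eM M (n * -p.2) * (c (p.1, κ) * eM M (κ * n)) = c (p.1, κ) * eM M (n * (κ - p.2))),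
      ← Finset.mul_sum, sum_eM]
    simp [sub_eq_zero]
  simp only [h3] at h2
  simpa [NeZero.ne M] using h2

def rows (M : ℕ) : P2 M × P2 M ≃ R2 M where
  toFun p := !![p.2.2, -p.1.2; p.1.1, p.2.1]
  invFun μ := ((μ 1 0, -μ 0 1), (μ 1 1, μ 0 0))
  left_inv p := by simp
  right_inv μ := by ext i j; fin_cases i <;> fin_cases j <;> simp

/-- the vector of weight `k + l` -/
def V2 (M : ℕ) [NeZero M] (k l : ℕ) (μ : R2 M) : ℍ → ℂ :=
  UU M k (μ 1 0, -μ 0 1) * UU M l (μ 1 1, μ 0 0)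

theorem V2_sep (hE : S_Eis) (τ : ℍ) (c : R2 M → ℂ) (hc : ∀ μ, c (-μ) = c μ)
    (h : ∀ k l m, 3 ≤ k → 3 ≤ l → k + l = 2 * m → ∑ μ, c μ * V2 M k l μ τ = 0) : c = 0 := by
  have h1 : ∀ k l, 3 ≤ k → 3 ≤ l → ∑ μ, c μ * V2 M k l μ τ = 0 := by
    intro k l hk hl
    rcases Nat.even_or_odd' (k + l) with ⟨m, hm | hm⟩
    · exact h k l m hk hl hm
    · have h2 : ∑ μ, c μ * V2 M k l μ τ = -∑ μ, c μ * V2 M k l μ τ := by
        conv_lhs => rw [← Equiv.sum_comp (Equiv.neg (R2 M))]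
        rw [← Finset.sum_neg_distrib]
        refine Finset.sum_congr rfl fun μ _ => ?_
        have h3 := UU_neg hE hk (μ 1 0, -μ 0 1) τ
        have h4 := UU_neg hE hl (μ 1 1, μ 0 0) τ
        have h5 : (-1 : ℂ) ^ k * (-1) ^ l = -1 := by rw [← pow_add, hm, pow_succ, pow_mul]; simp
        simp only [Equiv.neg_apply, hc, V2, Pi.mul_apply, Matrix.neg_apply]
        rw [Prod.neg_mk] at h3 h4
        rw [h3, h4]
        linear_combination (c μ * UU M k (μ 1 0, -μ 0 1) τ * UU M l (μ 1 1, μ 0 0) τ) * h5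
      linear_combination h2 / 2
  have h2 : ∀ p q, c (rows M (p, q)) = 0 := by
    intro p
    refine congrFun (UU_sep hE τ (fun q => c (rows M (p, q))) fun l hl => ?_)
    refine congrFun (UU_sep hE τ (fun p => ∑ q, c (rows M (p, q)) * UU M l q τ) fun k hk => ?_) p
    rw [← h1 k l hk hl, ← Equiv.sum_comp (rows M)]
    conv_rhs => rw [Fintype.sum_prod_type]
    refine Finset.sum_congr rfl fun p _ => ?_
    rw [Finset.sum_mul]
    refine Finset.sum_congr rfl fun q _ => ?_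
    simp [V2, rows]
    ring
  funext μ
  simpa using h2 ((rows M).symm μ).1 ((rows M).symm μ).2

theorem V2_inG (hE : S_Eis) {k l : ℕ} (hk : 3 ≤ k) (hl : 3 ≤ l) (μ : R2 M) :
    InG (V2 M k l μ) ∧ Per M (V2 M k l μ) ∧ RatExp M (V2 M k l μ) :=
  ⟨(UU_inG hE hk _).mul (UU_inG hE hl _),
    fun τ => by rw [V2, Pi.mul_apply, Pi.mul_apply, UU_per hE hk, UU_per hE hl],
    RatExp.mul (NeZero.pos M) (UU_inG hE hk _) (UU_per hE hk _) (UU_inG hE hl _) (UU_per hE hl _)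
      ((hE M).2.2.1 k hk _ _) ((hE M).2.2.1 l hl _ _)⟩

theorem V2_inp (hE : S_Eis) (hS : S_Sharp) {k l : ℕ} (hk : 3 ≤ k) (hl : 3 ≤ l) {h : ℍ → ℂ}
    (hh : Wt M (-(k + l : ℕ)) h) : Inp M fun μ => V2 M k l μ * h := by
  have h1 := (hS M).2.1 (fun A => ((2 * π * I) ^ (k + l) : ℂ)⁻¹ •
    (GS M k (A 0 0, A 0 1) * GS M l (A 1 0, A 1 1) * h))
    (fun A => ((((hE M).1 k hk _).mul ((hE M).1 l hl _)).mul hh.ing).smul _) fun A γ τ => by
      simp only [Pi.smul_apply, Pi.mul_apply, (hE M).2.1 k hk, (hE M).2.1 l hl, hh.law, zpow_neg,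
        zpow_natCast, pow_add]
      simp only [Matrix.mul_apply, Fin.sum_univ_two, red, Matrix.map_apply, smul_eq_mul]
      field_simp [jf_ne_zero γ τ]
  convert h1 using 2 with μ
  funext τ
  simp only [unsharp, V2, UU, Pi.mul_apply, Pi.smul_apply, smul_eq_mul, Fintype.sum_prod_type,
    div_mul_div_comm, Finset.sum_mul_sum]
  simp only [Finset.sum_div, Finset.sum_mul]
  refine Finset.sum_congr rfl fun a _ => Finset.sum_congr rfl fun b _ => ?_
  rw [show -(μ 0 1 * a - μ 0 0 * b) = -μ 0 1 * a + μ 0 0 * b by ring, eM_add, pow_add]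
  simp
  ring

def VA (hE : S_Eis) {k l : ℕ} (hk : 3 ≤ k) (hl : 3 ≤ l) (μ : R2 M) : AD M :=
  ⟨V2 M k l μ, InG.adm (NeZero.pos M) (V2_inG hE hk hl μ).1 (V2_inG hE hk hl μ).2.1⟩

theorem exists_W (hJ : S_J) (hE : S_Eis) (hS : S_Sharp) (hP : S_Fplus) {g : R2 M → ℕ → ℂ}
    (g0 : ∀ μ, g μ 0 = 0) (g1 : ∀ μ n, g μ n ≠ 0 → (n : ZMod M) = μ.det) (H : Hyp M g)
    {k l : ℕ} (hk : 3 ≤ k) (hl : 3 ≤ l) {h : AD M} (hh : Wt M (-(k + l : ℕ)) h.1) :
    ∃ u : AD M, (∀ τ, u.1 (ModularGroup.S • τ) = u.1 τ) ∧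
      ∑ μ, GG (g μ) * io M (VA hE hk hl μ * h) = io M (u * dA (jA hJ M)) := by
  refine exists_u hJ _ (fun n hn => ?_) fun t => ?_
  · rw [HahnSeries.coeff_sum]
    refine Finset.sum_eq_zero fun μ _ => ?_
    have c1 : Cls M μ.det (GG (g μ)) := fun n hn => by
      rw [GG_coeff]
      split_ifs with h0
      · lift n to ℕ using h0
        exact by_contra fun h1 => hn (by simpa using g1 μ n h1)
      · rfl
    have h1 := V2_inp hE hS hk hl hh
    have c2 : Cls M (-μ.det) (io M (VA hE hk hl μ * h)) :=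
      (coef_eq_zero_of_T (h1.cls μ).1 (h1.hT μ)).2
    exact c1.mul c2 n (by simpa using hn)
  · have h1 : Wt M (-(k + l : ℕ)) (h * jA hJ M ^ t).1 := by
      have := hh.mul ((wtj hJ).pow t)
      rw [mul_zero, add_zero] at this
      exact this
    rw [← ct_zero hP g0 H (F := fun μ => VA hE hk hl μ * (h * jA hJ M ^ t)) (V2_inp hE hS hk hl h1)
      fun μ => RatExp.mul (NeZero.pos M) (V2_inG hE hk hl μ).1 (V2_inG hE hk hl μ).2.1 h1.ing
        (h1.per M) (V2_inG hE hk hl μ).2.2 h1.rat]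
    simp only [Finset.sum_mul, map_mul, map_pow, mul_assoc]

theorem ne_zero_of_dj (hJ : S_J) {h D : AD M} (e : dA (jA hJ M) = h * D) : h ≠ 0 := by
  rintro rfl
  have := dj_lead (M := M) hJ
  rw [e, zero_mul, map_zero] at this
  exact this rfl

theorem exists_Phi (hJ : S_J) (hE : S_Eis) (hS : S_Sharp) (hP : S_Fplus) {g : R2 M → ℕ → ℂ}
    (g0 : ∀ μ, g μ 0 = 0) (g1 : ∀ μ n, g μ n ≠ 0 → (n : ZMod M) = μ.det)
    (g2 : ∀ μ n, g (-μ) n = g μ n) (H : Hyp M g) (μ : R2 M) :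
    ∃ Φ : AD M, io M Φ = GG (g μ) := by
  refine cramer (fun μ => GG (g μ)) (fun τ c hc => V2_sep hE τ c (fun μ => ?_) ?_) μ
  · have h1 := hc (Pi.single (-μ) 1 - Pi.single μ 1) 0 (by
      simp [mul_sub, Finset.sum_sub_distrib, Pi.single_apply, apply_ite (io M), funext (g2 μ)])
    simp [mul_sub, Finset.sum_sub_distrib, Pi.single_apply, apply_ite Subtype.val,
      ite_apply] at h1
    exact sub_eq_zero.1 h1
  · intro k l m hk hl hm
    obtain ⟨h1, h2, D, hw, hd, h0⟩ := exists_h (M := M) hJ m τ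
    obtain ⟨u, -, hu⟩ := exists_W hJ hE hS hP g0 g1 H hk hl (h := h1 * h2) (hm ▸ hw)
    have h3 : io M h2 ≠ 0 := fun h => ne_zero_of_dj hJ hd (io_inj (by rw [h, map_zero]))
    have h4 := hc (fun μ => VA hE hk hl μ * h1) (u * D) (mul_right_cancel₀ h3 (by
      rw [hd] at hu
      simp only [map_mul, Finset.sum_mul] at hu ⊢
      rw [show io M u * io M D * io M h2 = io M u * (io M h2 * io M D) by ring, ← hu]
      exact Finset.sum_congr rfl fun _ _ => by ring))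
    refine mul_right_cancel₀ h0 ?_
    rw [zero_mul, ← h4, Finset.sum_mul]
    exact Finset.sum_congr rfl fun _ _ => mul_assoc _ _ _

theorem law_S (hJ : S_J) (hE : S_Eis) (hS : S_Sharp) (hP : S_Fplus) {g : R2 M → ℕ → ℂ}
    (g0 : ∀ μ, g μ 0 = 0) (g1 : ∀ μ n, g μ n ≠ 0 → (n : ZMod M) = μ.det)
    (g2 : ∀ μ n, g (-μ) n = g μ n) (H : Hyp M g) {Φ : R2 M → AD M}
    (hΦ : ∀ μ, io M (Φ μ) = GG (g μ)) (ν : R2 M) (τ : ℍ) :
    (τ : ℂ) ^ 2 * (Φ ν).1 τ =
      (∑ μ, eM M (-bil ν μ) * (Φ μ).1 (ModularGroup.S • τ)) / (M : ℂ) ^ 2 := by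
  have ev : ∀ μ, Φ (-μ) = Φ μ := fun μ => io_inj (by rw [hΦ, hΦ, funext (g2 μ)])
  obtain ⟨B, hB⟩ : ∃ B : R2 M → ℍ → ℂ, B = fun ν => ((M : ℂ) ^ 2)⁻¹ •
      (∑ μ, eM M (bil μ ν) • fun τ => (Φ μ).1 (ModularGroup.S • τ)) -
      (fun τ : ℍ => (τ : ℂ)) ^ 2 * (Φ ν).1 := ⟨_, rfl⟩
  have hB1 : ∀ ν, Hol (B ν) := fun ν => by
    rw [hB]
    exact ((Hol.sum _ _ fun μ _ => ((Φ μ).2.1.smulSL _).smul _).smul _).sub
      ((hol_coe.pow 2).mul (Φ ν).2.1)
  have hB2 : ∀ ν τ, B ν τ = (∑ μ, eM M (bil μ ν) * (Φ μ).1 (ModularGroup.S • τ)) / (M : ℂ) ^ 2 -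
      (τ : ℂ) ^ 2 * (Φ ν).1 τ := fun ν τ => by
    simp only [hB, Pi.sub_apply, Pi.smul_apply, Finset.sum_apply, smul_eq_mul, Pi.mul_apply,
      Pi.pow_apply, div_eq_inv_mul]
  have hB3 : ∀ ν τ, ∑ μ, eM M (bil μ (-ν)) * (Φ μ).1 τ = ∑ μ, eM M (bil μ ν) * (Φ μ).1 τ := by
    intro ν τ
    rw [← Equiv.sum_comp (Equiv.neg (R2 M))]
    exact Finset.sum_congr rfl fun μ _ => by rw [Equiv.neg_apply, ev]; simp [bil]
  have h1 := V2_sep hE τ (fun ν => B ν τ) (fun ν => by rw [hB2, hB2, hB3, ev]) ?_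
  · have h2 : B ν τ = 0 := congrFun h1 ν
    rw [hB2, sub_eq_zero, ← hB3] at h2
    rw [← h2]
    congr 1
    exact Finset.sum_congr rfl fun μ _ => by congr 2; simp [bil]; ring
  · intro k l m hk hl hm
    obtain ⟨h1, h2, D, hw, hd, h0⟩ := exists_h (M := M) hJ m τ
    rw [← hm] at hw
    obtain ⟨u, hu1, hu⟩ := exists_W hJ hE hS hP g0 g1 H hk hl hw
    have hI := V2_inp hE hS hk hl hw
    have h3 : ∑ μ, Φ μ * (VA hE hk hl μ * (h1 * h2)) = u * dA (jA hJ M) :=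
      io_inj (by rw [← hu, map_sum]; exact Finset.sum_congr rfl fun μ _ => by rw [map_mul, hΦ])
    have h4 : ∀ σ, ∑ μ, (Φ μ).1 σ * (V2 M k l μ * (h1 * h2).1) σ = u.1 σ * der jj σ := fun σ => by
      have := congrFun (congrArg Subtype.val h3) σ
      rw [AddSubmonoidClass.coe_finsetSum, Finset.sum_apply] at this
      exact this
    have h5 : ∀ σ : ℍ, der jj (ModularGroup.S • σ) = (σ : ℂ) ^ 2 * der jj σ := fun σ => by
      have := der_SL (wtj (M := M) hJ).ing.1 ModularGroup.S σ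
      simp only [(wtj (M := M) hJ).law, zpow_zero, one_mul, jf_S] at this
      rw [this]
      field_simp [σ.ne_zero]
    have h6 : (∑ ν, B ν * V2 M k l ν) * (h1 * h2).1 = 0 := by
      funext σ
      have h7 := h4 (ModularGroup.S • σ)
      rw [hu1, h5, mul_left_comm, ← h4] at h7
      simp only [hI.hS, ← mul_div_assoc, Finset.mul_sum, Finset.sum_div] at h7
      rw [Finset.sum_comm, ← sub_eq_zero, ← Finset.sum_sub_distrib] at h7
      rw [Pi.zero_apply, ← h7, Pi.mul_apply, Finset.sum_apply, Finset.sum_mul]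
      refine Finset.sum_congr rfl fun ν _ => ?_
      simp only [Pi.mul_apply, hB2, sub_mul, Finset.sum_div, Finset.sum_mul]
      congr 1
      · exact Finset.sum_congr rfl fun _ _ => by ring
      · ring
    have h7 : (h1 * h2).1 ≠ 0 := fun h => mul_ne_zero (a := io M h1) (b := io M h2)
      (fun h' => h0 (by rw [io_inj (h'.trans (map_zero _).symm)]; rfl))
      (fun h' => ne_zero_of_dj hJ hd (io_inj (h'.trans (map_zero _).symm)))
      (by rw [← map_mul, show h1 * h2 = 0 from Subtype.ext h, map_zero])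
    have h8 := (Hol.mul_eq_zero (Hol.sum _ _ fun ν _ => (hB1 ν).mul (V2_inG hE hk hl ν).1.1)
      hw.ing.1 h6).resolve_right h7
    have h9 := congrFun h8 τ
    rw [Finset.sum_apply] at h9
    exact h9

end DualP

open DualP in
theorem dual : S_J → S_Eis → S_Sharp → S_Fplus → S_Dual := by
  intro hJ hE hS hP M _ g g0 g1 g2 H
  choose Φ hΦ using exists_Phi hJ hE hS hP g0 g1 g2 H
  have h1 : ∀ μ (τ : ℍ), HasSum (fun n : ℕ => g μ n * e (n * τ / M)) ((Φ μ).1 τ) := by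
    intro μ τ
    have h2 := hasSum_coef (NeZero.pos M) (Φ μ).2.1 (Φ μ).2.2.1 τ
    rw [← (Nat.cast_injective (R := ℤ)).hasSum_iff fun n hn => by
      rw [← io_coeff, hΦ, GG_coeff, if_neg fun h => hn ⟨n.toNat, Int.toNat_of_nonneg h⟩,
        zero_mul]] at h2
    convert h2 using 2 with n
    simp [← io_coeff, hΦ, GG_coeff]
  refine ⟨fun μ τ => (h1 μ τ).summable.norm, fun μ τ => ?_⟩
  have h2 := law_S hJ hE hS hP g0 g1 g2 H hΦ μ (ModularGroup.S • τ)
  have h3 : ModularGroup.S • ModularGroup.S • τ = τ :=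
    UpperHalfPlane.ext (by rw [coe_S, coe_S]; simp)
  rw [h3, coe_S] at h2
  simp only [(h1 _ _).tsum_eq]
  rw [div_mul_eq_mul_div, mul_div_assoc, ← h2]
  field_simp [τ.ne_zero]

end

end Pool.Agent.P.MP_b8021b_nt.CM
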