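import Pool.Agent.P.MP_b8021b_nt.CM.Eig0

/-! Package P31: the Hecke eigen-system. -/

set_option linter.unusedSectionVars false

namespace Pool.Agent.P.MP_b8021b_nt.CM

open Complex hiding Gamma
open UpperHalfPlane hiding I
open CongruenceSubgroup Function
open scoped MatrixGroups

noncomputable section

namespace EigP

/-- Hecke operators on a space of families of functions -/
structure Side (N : ℕ) (W : Type) [AddCommGroup W] [Module ℂ W] where
  sl : W →ₗ[ℂ] (ℍ → ℍ → ℂ)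
  inj : Injective sl
  isRec : ∀ x p, Rec (sl x p)
  lev : ∀ x p, LevU N (sl x p)
  H : R2 N → ℕ → Module.End ℂ W
  sl_H : ∀ ν n x p, sl (H ν n x) p = HK N ν n (sl x p)

variable {N : ℕ} [NeZero N] {W : Type} [AddCommGroup W] [Module ℂ W]

namespace Side

variable (P : Side N W)

def T (n : ℕ) : Module.End ℂ W := P.H !![1, 0; 0, (n : ZMod N)] n

def D (a : (ZMod N)ˣ) : Module.End ℂ W := P.H !![(a : ZMod N)⁻¹, 0; 0, (a : ZMod N)] 1

theorem sl_T (n : ℕ) (x : W) (p : ℍ) : P.sl (P.T n x) p = Tn N n (P.sl x p) := P.sl_H _ _ _ _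

theorem sl_D (a : (ZMod N)ˣ) (x : W) (p : ℍ) : P.sl (P.D a x) p = Dia N a (P.sl x p) :=
  P.sl_H _ _ _ _

theorem op_ext {F G : Module.End ℂ W} (h : ∀ x p, P.sl (F x) p = P.sl (G x) p) : F = G :=
  LinearMap.ext fun x => P.inj (funext (h x))

/-- the set of operators -/
def ops : Set (Module.End ℂ W) := {F | (∃ n, Gd N n ∧ F = P.T n) ∨ ∃ a, F = P.D a}

variable (hHk : S_Hk)
include hHk

theorem T_one : P.T 1 = 1 := P.op_ext fun x p => by
  rw [P.sl_T, (hHk N (NeZero.pos N) _ (P.lev x p)).1, Module.End.one_apply]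

theorem D_one : P.D 1 = 1 := P.op_ext fun x p => by
  rw [P.sl_D, Units.val_one, (hHk N (NeZero.pos N) _ (P.lev x p)).2.1, Module.End.one_apply]

theorem D_mul (a b : (ZMod N)ˣ) : P.D a * P.D b = P.D (a * b) := P.op_ext fun x p => by
  rw [Module.End.mul_apply, P.sl_D, P.sl_D, P.sl_D, Units.val_mul,
    (hHk N (NeZero.pos N) _ (P.lev x p)).2.2.1 a b a.isUnit b.isUnit]

theorem D_T (a : (ZMod N)ˣ) {n : ℕ} (hn : Gd N n) : P.D a * P.T n = P.T n * P.D a :=
  P.op_ext fun x p => by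
    rw [Module.End.mul_apply, Module.End.mul_apply, P.sl_D, P.sl_T, P.sl_T, P.sl_D,
      ((hHk N (NeZero.pos N) _ (P.lev x p)).2.2.2.1 a n a.isUnit hn.1 hn.2).1]

theorem T_T {m n : ℕ} (hm : Gd N m) (hn : Gd N n) : P.T m * P.T n = P.T n * P.T m :=
  P.op_ext fun x p => by
    rw [Module.End.mul_apply, Module.End.mul_apply, P.sl_T, P.sl_T, P.sl_T, P.sl_T,
      (hHk N (NeZero.pos N) _ (P.lev x p)).2.2.2.2.2 m n hm.1 hm.2 hn.1 hn.2]

theorem T_hecke {q n : ℕ} (hq : q.Prime) (hqN : q.Coprime N) (hn : Gd N n) :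
    P.T q * P.T n = P.T (q * n) +
      if q ∣ n then (q : ℂ) • (P.D (ZMod.unitOfCoprime q hqN) * P.T (n / q)) else 0 :=
  P.op_ext fun x p => by
    rw [Module.End.mul_apply, P.sl_T, P.sl_T,
      (hHk N (NeZero.pos N) _ (P.lev x p)).2.2.2.2.1 q n hq hqN hn.1 hn.2, LinearMap.add_apply,
      map_add, Pi.add_apply, P.sl_T]
    congr 1
    split_ifs
    · rw [LinearMap.smul_apply, map_smul, Pi.smul_apply, Module.End.mul_apply, P.sl_D, P.sl_T,
        ZMod.coe_unitOfCoprime]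
    · simp

theorem ops_comm : ∀ F ∈ P.ops, ∀ G ∈ P.ops, F * G = G * F := by
  rintro F (⟨m, hm, rfl⟩ | ⟨a, rfl⟩) G (⟨n, hn, rfl⟩ | ⟨b, rfl⟩)
  · exact P.T_T hHk hm hn
  · exact (P.D_T hHk b hm).symm
  · exact P.D_T hHk a hn
  · rw [P.D_mul hHk, P.D_mul hHk, mul_comm]

omit hHk in
open Classical in
/-- the operator attached to the test function `phi w` -/
def Gop (w : (ZMod N)ˣ → ZMod N → ℂ) (q : ℚ) : Module.End ℂ W :=
  if h : ∃ n : ℕ, Gd N n ∧ q = n then ∑ a, w a h.choose • (P.D a * P.T h.choose) else 0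

omit hHk in
theorem Gop_nat (w : (ZMod N)ˣ → ZMod N → ℂ) {n : ℕ} (hn : Gd N n) :
    P.Gop w n = ∑ a, w a n • (P.D a * P.T n) := by
  have h : ∃ m : ℕ, Gd N m ∧ (n : ℚ) = m := ⟨n, hn, rfl⟩
  have h1 : h.choose = n := by exact_mod_cast h.choose_spec.2.symm
  rw [Gop, dif_pos h, h1]

omit hHk in
theorem Gop_zero (w : (ZMod N)ˣ → ZMod N → ℂ) {q : ℚ} (h : ¬ ∃ n : ℕ, Gd N n ∧ q = n) :
    P.Gop w q = 0 := dif_neg h

theorem sl_Gop (w : (ZMod N)ˣ → ZMod N → ℂ) (q : ℚ) (x : W) (p σ : ℍ) :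
    P.sl (P.Gop w q x) p σ = ((Gamma N).index : ℂ) * G2 (P.sl x p) σ (phi w) q := by
  by_cases h : ∃ n : ℕ, Gd N n ∧ q = n
  · obtain ⟨n, hn, rfl⟩ := h
    rw [P.Gop_nat w hn, G2_phi_nat hHk (P.lev x p) σ w hn]
    simp only [LinearMap.sum_apply, LinearMap.smul_apply, map_sum, map_smul, Finset.sum_apply,
      Pi.smul_apply, smul_eq_mul, Module.End.mul_apply, P.sl_D, P.sl_T]
  · rw [P.Gop_zero w h, G2_phi_zero (P.lev x p) σ w h]
    simp

theorem Gop_lin (hHL : S_HL) (w : (ZMod N)ˣ → ZMod N → ℂ) :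
    ∃ (r : ℕ) (u0 : Fin r → ℍ → ℂ) (σ0 : Fin r → ℍ) (B : Fin r → Module.End ℂ W),
      (∀ i, Rec (u0 i)) ∧ ∀ q, P.Gop w q = ∑ i, G2 (u0 i) (σ0 i) (phi w) q • B i := by
  obtain ⟨r, u0, σ0, S, c, h0, h⟩ := hHL N (NeZero.pos N) (phi w) (sb_phi w)
  refine ⟨r, u0, σ0, fun i => ∑ k ∈ S, c i k • P.Gop w k, h0, fun q => P.op_ext fun x p => ?_⟩
  funext σ
  rw [P.sl_Gop hHk, h _ (P.isRec x p) (P.lev x p) σ q]
  simp only [LinearMap.sum_apply, LinearMap.smul_apply, map_sum, map_smul, Finset.sum_apply,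
    Pi.smul_apply, smul_eq_mul, P.sl_Gop hHk, Finset.mul_sum]
  exact Finset.sum_congr rfl fun i _ => Finset.sum_congr rfl fun k _ => by ring

omit hHk in
/-- the Hecke algebra -/
def alg : Submodule ℂ (Module.End ℂ W) :=
  Submodule.span ℂ {F | ∃ a n, Gd N n ∧ F = P.D a * P.T n}

theorem alg_fg (hHL : S_HL) : P.alg.FG := by
  classical
  obtain ⟨r, u0, σ0, B, -, h⟩ := P.Gop_lin hHk hHL fun a _ => if a = 1 then 1 else 0
  have hfin : (Set.range fun p : (ZMod N)ˣ × Fin r => P.D p.1 * B p.2).Finite := Set.finite_range _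
  have hle : P.alg ≤ Submodule.span ℂ (Set.range fun p : (ZMod N)ˣ × Fin r => P.D p.1 * B p.2) := by
    refine Submodule.span_le.2 ?_
    rintro _ ⟨a, n, hn, rfl⟩
    have h1 := h n
    rw [P.Gop_nat _ hn] at h1
    simp only [ite_smul, one_smul, zero_smul, Finset.sum_ite_eq', Finset.mem_univ, if_true,
      P.D_one hHk, one_mul] at h1
    rw [h1, Finset.mul_sum]
    refine Submodule.sum_mem _ fun i _ => ?_
    rw [mul_smul_comm]
    exact Submodule.smul_mem _ _ (Submodule.subset_span ⟨(a, i), rfl⟩)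
  have := FiniteDimensional.span_of_finite ℂ hfin
  exact (Module.Finite.iff_fg).1 (Submodule.finiteDimensional_of_le hle)

theorem one_mem_alg : (1 : Module.End ℂ W) ∈ P.alg :=
  Submodule.subset_span ⟨1, 1, ⟨one_pos, Nat.coprime_one_left N⟩, by
    rw [P.D_one hHk, P.T_one hHk, one_mul]⟩

omit hHk in
theorem mul_mem_of {F : Module.End ℂ W} (h : ∀ a n, Gd N n → F * (P.D a * P.T n) ∈ P.alg) :
    ∀ G ∈ P.alg, F * G ∈ P.alg := by
  intro G hG
  induction hG using Submodule.span_induction with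
  | mem G hG =>
    obtain ⟨a, n, hn, rfl⟩ := hG
    exact h a n hn
  | zero => simp
  | add a b _ _ ha hb => rw [mul_add]; exact add_mem ha hb
  | smul c a _ ha => rw [mul_smul_comm]; exact Submodule.smul_mem _ _ ha

theorem D_mul_mem (b : (ZMod N)ˣ) : ∀ G ∈ P.alg, P.D b * G ∈ P.alg :=
  P.mul_mem_of fun a n hn => Submodule.subset_span ⟨b * a, n, hn, by rw [← mul_assoc, P.D_mul hHk]⟩

omit hHk in
theorem gd_div {q n : ℕ} (hn : Gd N n) (h : q ∣ n) : Gd N (n / q) :=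
  ⟨Nat.div_pos (Nat.le_of_dvd hn.1 h) (Nat.pos_of_dvd_of_pos h hn.1),
    hn.2.coprime_dvd_left (Nat.div_dvd_of_dvd h)⟩

theorem T_prime_mul_mem {q : ℕ} (hq : q.Prime) (hqN : q.Coprime N) :
    ∀ G ∈ P.alg, P.T q * G ∈ P.alg :=
  P.mul_mem_of fun a n hn => by
    rw [← mul_assoc, ← P.D_T hHk a ⟨hq.pos, hqN⟩, mul_assoc, P.T_hecke hHk hq hqN hn]
    refine P.D_mul_mem hHk a _ (add_mem (Submodule.subset_span ⟨1, q * n,
      ⟨Nat.mul_pos hq.pos hn.1, hqN.mul_left hn.2⟩, by rw [P.D_one hHk, one_mul]⟩) ?_)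
    split_ifs with h
    · exact Submodule.smul_mem _ _ (Submodule.subset_span ⟨_, _, gd_div hn h, rfl⟩)
    · exact zero_mem _

theorem T_mul_mem (m : ℕ) : Gd N m → ∀ G ∈ P.alg, P.T m * G ∈ P.alg := by
  induction m using Nat.strong_induction_on with
  | _ m ih =>
    intro hm G hG
    by_cases h1 : m = 1
    · rw [h1, P.T_one hHk, one_mul]
      exact hG
    · obtain ⟨q, hq, n, rfl⟩ := Nat.exists_prime_and_dvd h1
      have hn : Gd N n := ⟨Nat.pos_of_mul_pos_left hm.1, hm.2.coprime_mul_left⟩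
      have hqN : q.Coprime N := hm.2.coprime_mul_right
      have hlt : n < q * n := lt_mul_of_one_lt_left hn.1 hq.one_lt
      rw [← sub_eq_iff_eq_add.2 (P.T_hecke hHk hq hqN hn), sub_mul, mul_assoc]
      refine sub_mem (P.T_prime_mul_mem hHk hq hqN _ (ih n hlt hn G hG)) ?_
      split_ifs with h
      · rw [smul_mul_assoc, mul_assoc]
        exact Submodule.smul_mem _ _ (P.D_mul_mem hHk _ _
          (ih _ ((Nat.div_le_self n q).trans_lt hlt) (gd_div hn h) G hG))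
      · rw [zero_mul]
        exact zero_mem _

theorem ops_mul_mem : ∀ F ∈ P.ops, ∀ G ∈ P.alg, F * G ∈ P.alg := by
  rintro F (⟨m, hm, rfl⟩ | ⟨a, rfl⟩)
  · exact P.T_mul_mem hHk m hm
  · exact P.D_mul_mem hHk a

omit hHk in
theorem comm_alg {F : Module.End ℂ W} (h : ∀ G ∈ P.ops, F * G = G * F) :
    ∀ G ∈ P.alg, F * G = G * F := by
  intro G hG
  induction hG using Submodule.span_induction with
  | mem G hG =>
    obtain ⟨a, n, hn, rfl⟩ := hG
    rw [← mul_assoc, h _ (Or.inr ⟨a, rfl⟩), mul_assoc, h _ (Or.inl ⟨n, hn, rfl⟩), mul_assoc]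
  | zero => simp
  | add a b _ _ ha hb => rw [mul_add, add_mul, ha, hb]
  | smul c a _ ha => rw [mul_smul_comm, smul_mul_assoc, ha]

/-- the cusp form with the given coefficients -/
theorem form (hHL : S_HL) (hG : S_G2full) (hWV : S_WV) (x : W) (L : W →ₗ[ℂ] ℂ) (lam : ℕ → ℂ)
    (ε θ : DirichletCharacter ℂ N)
    (h : ∀ (a : (ZMod N)ˣ) n, Gd N n → L (P.D a (P.T n x)) = ε a * lam n) (l : ℕ → ℂ)
    (h1 : ∀ n, Gd N n → l n = θ n * lam n) (h2 : ∀ n, ¬ Gd N n → l n = 0) :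
    ∃ f : ℍ → ℂ, Cusp (N ^ 2) f ∧ (∀ τ : ℍ, HasSum (fun n : ℕ => l n * e (n * τ)) (f τ)) ∧
      ∀ γ : SL, ((N ^ 2 : ℕ) : ℤ) ∣ γ 1 0 → CM.sl 2 γ f = (ε * θ ^ 2) (γ 1 1 : ℤ) • f := by
  set w : (ZMod N)ˣ → ZMod N → ℂ := fun a b => ε (a⁻¹ : (ZMod N)ˣ) * θ b with hw
  obtain ⟨r, u0, σ0, B, hu0, hB⟩ := P.Gop_lin hHk hHL w
  set t : ℂ := (Fintype.card (ZMod N)ˣ : ℂ) with ht
  have ht0 : t ≠ 0 := Nat.cast_ne_zero.2 Fintype.card_ne_zero
  set g : Fin r → ℚ → ℂ := fun i => G2 (u0 i) (σ0 i) (phi w) with hg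
  set κ : Fin r → ℂ := fun i => t⁻¹ * L (B i x) with hκ
  have hG' := fun i => hG (u0 i) (hu0 i) (σ0 i) N (NeZero.pos N) (phi w) (lev_phi w)
  have hc : ∀ q, (∑ i, κ i • g i) q = t⁻¹ * L (P.Gop w q x) := fun q => by
    rw [hB q]
    simp only [Finset.sum_apply, Pi.smul_apply, smul_eq_mul, LinearMap.sum_apply,
      LinearMap.smul_apply, map_sum, map_smul, Finset.mul_sum, hκ, hg]
    exact Finset.sum_congr rfl fun i _ => by ring
  have hc1 : ∀ n : ℕ, (∑ i, κ i • g i) n = l n := fun n => by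
    rw [hc]
    by_cases hn : Gd N n
    · rw [P.Gop_nat w hn, h1 n hn]
      have h3 : ∀ a : (ZMod N)ˣ, w a n * (ε a * lam n) = θ n * lam n := fun a => by
        have h4 : ε (a⁻¹ : (ZMod N)ˣ) * ε a = 1 := by rw [← map_mul, Units.inv_mul, map_one]
        rw [hw]
        linear_combination θ n * lam n * h4
      simp only [LinearMap.sum_apply, LinearMap.smul_apply, map_sum, map_smul, smul_eq_mul,
        Module.End.mul_apply, h _ n hn, h3, Finset.sum_const, Finset.card_univ, nsmul_eq_mul]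
      rw [← mul_assoc, inv_mul_cancel₀ ht0, one_mul]
    · rw [P.Gop_zero, h2 n hn]
      · simp
      · rintro ⟨m, hm, e⟩
        obtain rfl : n = m := by exact_mod_cast e
        exact hn hm
  have hc0 : ∀ q : ℚ, q ∉ Set.range (Nat.cast : ℕ → ℚ) → (∑ i, κ i • g i) q = 0 := fun q hq => by
    rw [hc, P.Gop_zero]
    · simp
    · rintro ⟨m, -, e⟩
      exact hq ⟨m, e.symm⟩
  have hconv := Conv.sum Finset.univ (fun i => κ i • g i) fun i _ => ((hG' i).1.smul (κ i)).1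
  have hqs : qs (∑ i, κ i • g i) = ∑ i, κ i • qs (g i) := by
    rw [hconv.2]
    exact Finset.sum_congr rfl fun i _ => ((hG' i).1.smul (κ i)).2
  refine ⟨∑ i, κ i • qs (g i), Cusp.sum _ _ fun i _ => (hG' i).2.2.smul _, fun τ => ?_,
    fun γ hγ => ?_⟩
  · have h3 : HasSum (fun q : ℚ => (∑ i, κ i • g i) q * e (q * τ)) (qs (∑ i, κ i • g i) τ) :=
      (hconv.1 τ).of_norm.hasSum
    rw [← Nat.cast_injective.hasSum_iff (fun q hq => by rw [hc0 q hq, zero_mul]), hqs] at h3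
    refine h3.congr_fun fun n => ?_
    rw [Function.comp_apply, hc1, Rat.cast_natCast]
  · have h3 : omV γ (phi w) = (ε * θ ^ 2) (γ 1 1 : ℤ) • phi w :=
      omV_phi hWV hγ fun d a b hd => by
        rw [← hd, hw]
        simp only [mul_inv_rev, inv_inv, Units.val_mul, Units.val_pow_eq_pow_val, map_mul, map_pow,
          MulChar.mul_apply, MulChar.pow_apply_coe]
        ring
    have h4 : ∀ i, CM.sl 2 γ (qs (g i)) = (ε * θ ^ 2) (γ 1 1 : ℤ) • qs (g i) := fun i => by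
      rw [(hG' i).2.1 γ, h3, ← ((hG' i).1.smul _).2]
      congr 1
      funext q
      rw [G2_smul]
      rfl
    funext τ
    have h5 := fun i => congrFun (h4 i) τ
    simp only [CM.sl, Finset.sum_apply, Pi.smul_apply, smul_eq_mul, Finset.sum_mul,
      Finset.mul_sum] at h5 ⊢
    exact Finset.sum_congr rfl fun i _ => by rw [mul_assoc, h5 i]; ring

/-- the eigen-system attached to a common eigenvector modulo `K` -/
theorem isEig (hHL : S_HL) (hG : S_G2full) (hWV : S_WV) (K : Submodule ℂ W)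
    (hK : ∀ F ∈ P.ops, ∀ x ∈ K, F x ∈ K) (x : W) (L : W →ₗ[ℂ] ℂ) (hL : ∀ z ∈ K, L z = 0)
    (hx : L x = 1) (he : ∀ F ∈ P.ops, F x - L (F x) • x ∈ K) :
    ∃ ε : DirichletCharacter ℂ N, ∀ θ : DirichletCharacter ℂ N, ∃ l : ℕ → ℂ,
      IsEig N l (ε * θ ^ 2) ∧ ∀ n, Gd N n → l n = θ n * L (P.T n x) := by
  classical
  have key : ∀ F ∈ P.ops, ∀ G ∈ P.ops, L (F (G x)) = L (F x) * L (G x) := fun F hF G hG => by
    have h1 := hL _ (hK F hF _ (he G hG))
    rw [map_sub, map_smul, map_sub, map_smul, smul_eq_mul] at h1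
    linear_combination h1
  have hD : ∀ a, P.D a ∈ P.ops := fun a => Or.inr ⟨a, rfl⟩
  have hT : ∀ n, Gd N n → P.T n ∈ P.ops := fun n hn => Or.inl ⟨n, hn, rfl⟩
  let f : (ZMod N)ˣ →* ℂ :=
    { toFun := fun a => L (P.D a x)
      map_one' := by rw [P.D_one hHk, Module.End.one_apply, hx]
      map_mul' := fun a b => by rw [← P.D_mul hHk, Module.End.mul_apply, key _ (hD a) _ (hD b)] }
  set ε : DirichletCharacter ℂ N := MulChar.ofUnitHom f.toHomUnits with hε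
  have hεa : ∀ a : (ZMod N)ˣ, ε a = L (P.D a x) := fun a => by
    rw [hε, MulChar.ofUnitHom_coe]
    rfl
  refine ⟨ε, fun θ => ⟨fun n => if Gd N n then θ n * L (P.T n x) else 0, ⟨?_, ?_, ?_, ?_⟩,
    fun n hn => if_pos hn⟩⟩
  · rw [if_pos ⟨one_pos, Nat.coprime_one_left N⟩, P.T_one hHk, Module.End.one_apply, hx]
    simp
  · intro n hn
    by_contra h
    exact hn (if_neg fun h' => h h'.2)
  · intro q n hq hqN hnN hn0
    have hn : Gd N n := ⟨hn0, hnN⟩
    have hq' : Gd N q := ⟨hq.pos, hqN⟩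
    have h1 := congrArg (fun F : Module.End ℂ W => L (F x)) (P.T_hecke hHk hq hqN hn)
    simp only [Module.End.mul_apply, LinearMap.add_apply, map_add, key _ (hT q hq') _ (hT n hn)]
      at h1
    rw [if_pos hq', if_pos hn, if_pos ⟨Nat.mul_pos hq.pos hn0, hqN.mul_left hnN⟩, Nat.cast_mul,
      map_mul]
    by_cases hd : q ∣ n
    · rw [if_pos hd] at h1 ⊢
      rw [if_pos (gd_div hn hd)]
      rw [LinearMap.smul_apply, map_smul, smul_eq_mul, Module.End.mul_apply,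
        key _ (hD _) _ (hT _ (gd_div hn hd)), ← hεa, ZMod.coe_unitOfCoprime] at h1
      have h2 : θ n = θ q * θ (n / q : ℕ) := by
        rw [← map_mul, ← Nat.cast_mul, Nat.mul_div_cancel' hd]
      rw [MulChar.mul_apply, MulChar.pow_apply' _ two_ne_zero]
      linear_combination θ q * θ n * h1 + θ q * q * ε q * L (P.T (n / q) x) * h2
    · rw [if_neg hd] at h1 ⊢
      rw [LinearMap.zero_apply, map_zero] at h1
      linear_combination θ q * θ n * h1
  · exact P.form hHk hHL hG hWV x L (fun n => L (P.T n x)) ε θ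
      (fun a n hn => by rw [key _ (hD a) _ (hT n hn), hεa]) _ (fun n hn => if_pos hn)
      fun n hn => if_neg hn

end Side

/-! ### the space of functions of two variables -/

/-- the space of admissible functions of level `N` -/
def Sp (N : ℕ) : Submodule ℂ (ℍ → ℍ → ℂ) where
  carrier := {s | InS s ∧ LevS N s}
  add_mem' := fun h h' => ⟨h.1.add h'.1, h.2.add h'.2⟩
  zero_mem' := ⟨inS_zero, fun _ _ _ _ => rfl, fun _ _ _ _ => rfl⟩
  smul_mem' := fun c _ h => ⟨h.1.smul c, h.2.smul c⟩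

/-- the first variable -/
def side1 (N : ℕ) [NeZero N] : Side N (Sp N) where
  sl :=
    { toFun := fun x σ τ => x.1 τ σ
      map_add' := fun _ _ => rfl
      map_smul' := fun _ _ => rfl }
  inj := fun _ _ h => Subtype.ext (funext fun τ => funext fun σ => congrFun (congrFun h σ) τ)
  isRec := fun x p => x.2.1.2.2.1 p
  lev := fun x p => x.2.2.1 p
  H := fun ν n =>
    { toFun := fun x => ⟨op2 (HK N ν n) id x.1, x.2.1.HK_fst (NeZero.pos N) x.2.2 ν n⟩
      map_add' := fun x y => Subtype.ext (funext fun τ => funext fun σ =>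
        congrFun (HK_add (NeZero.pos N) (x.2.2.1 σ) (y.2.2.1 σ) ν n) τ)
      map_smul' := fun c x => Subtype.ext (funext fun τ => funext fun σ =>
        congrFun (HK_smul (u := fun τ' => x.1 τ' σ) c ν n) τ) }
  sl_H := fun _ _ _ _ => rfl

/-- the second variable -/
def side2 (N : ℕ) [NeZero N] : Side N (Sp N) where
  sl := (Sp N).subtype
  inj := Subtype.val_injective
  isRec := fun x p => x.2.1.2.2.2 p
  lev := fun x p => x.2.2.2 p
  H := fun ν n =>
    { toFun := fun x => ⟨op2 id (HK N ν n) x.1, x.2.1.HK_snd (NeZero.pos N) x.2.2 ν n⟩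
      map_add' := fun x y => Subtype.ext (funext fun τ =>
        HK_add (NeZero.pos N) (x.2.2.2 τ) (y.2.2.2 τ) ν n)
      map_smul' := fun c x => Subtype.ext (funext fun τ => HK_smul (u := x.1 τ) c ν n) }
  sl_H := fun _ _ _ _ => rfl

theorem side_comm (μ ν : R2 N) (m n : ℕ) :
    (side1 N).H μ m * (side2 N).H ν n = (side2 N).H ν n * (side1 N).H μ m :=
  LinearMap.ext fun x => Subtype.ext
    ((op2_comm (NeZero.pos N) x.2.2 μ ν m n).1.symm.trans (op2_comm (NeZero.pos N) x.2.2 μ ν m n).2)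

theorem ops_cross : ∀ F ∈ (side1 N).ops, ∀ G ∈ (side2 N).ops, F * G = G * F := by
  rintro F (⟨m, -, rfl⟩ | ⟨a, rfl⟩) G (⟨n, -, rfl⟩ | ⟨b, rfl⟩) <;> exact side_comm _ _ _ _

/-- the basic functional as a linear map -/
def ellL (d : ℕ) (μ : R2 N × R2 N) : Sp N →ₗ[ℂ] ℂ where
  toFun x := ell x.1 d N μ
  map_add' x y := aS_add_s (φ := fun y' y => ind N μ.1 y' * ind N μ.2 y) x.2.1.hasLevS
    y.2.1.hasLevS
    (((lev_ind (NeZero.pos N) μ.1).sb (NeZero.pos N)).tensor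
      ((lev_ind (NeZero.pos N) μ.2).sb (NeZero.pos N))) _ _ _
  map_smul' c _ := aS_smul_s c _ _ _ _

theorem tw_one (μ : R2 N × R2 N) : tw N ((1 : (ZMod N)ˣ) : ZMod N) μ = μ := by
  have h : ((1 : (ZMod N)ˣ) : ZMod N)⁻¹ = 1 := by rw [ZMod.inv_coe_unit, inv_one, Units.val_one]
  rw [tw, h, Units.val_one, ← Matrix.one_fin_two]
  simp

theorem tw_tw (a b : (ZMod N)ˣ) (μ : R2 N × R2 N) :
    tw N b (tw N a μ) = tw N ((a * b : (ZMod N)ˣ) : ZMod N) μ := by
  have h1 : (!![1, 0; 0, (b : ZMod N)⁻¹] * !![1, 0; 0, (a : ZMod N)⁻¹] : R2 N) =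
      !![1, 0; 0, ((a * b : (ZMod N)ˣ) : ZMod N)⁻¹] := by
    rw [ZMod.inv_coe_unit, ZMod.inv_coe_unit, ZMod.inv_coe_unit, mul_inv_rev, Units.val_mul]
    simp
  have h2 : (!![1, 0; 0, (a : ZMod N)] * !![1, 0; 0, (b : ZMod N)] : R2 N) =
      !![1, 0; 0, ((a * b : (ZMod N)ˣ) : ZMod N)] := by
    rw [Units.val_mul]
    simp
  simp only [tw, ← h1, ← h2, mul_assoc]

theorem exists_char (f : (ZMod N)ˣ → ℂ) {a : (ZMod N)ˣ} (ha : f a ≠ 0) :
    ∃ χ : DirichletCharacter ℂ N, ∑ b : (ZMod N)ˣ, χ b * f b ≠ 0 := by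
  classical
  by_contra h
  push Not at h
  have h1 : ∑ χ : DirichletCharacter ℂ N, χ (a : ZMod N)⁻¹ * ∑ b : (ZMod N)ˣ, χ b * f b = 0 := by
    simp [h]
  simp only [Finset.mul_sum, ← mul_assoc] at h1
  rw [Finset.sum_comm] at h1
  simp only [← Finset.sum_mul, DirichletCharacter.sum_char_inv_mul_char_eq ℂ a.isUnit,
    Units.val_inj, ite_mul, zero_mul, Finset.sum_ite_eq, Finset.mem_univ, if_true] at h1
  exact mul_ne_zero (Nat.cast_ne_zero.2 (Nat.totient_pos.2 (NeZero.pos N)).ne') ha h1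

theorem exists_vec (hHk : S_Hk) (hHL : S_HL) (s : Sp N) (l : (ZMod N)ˣ → Sp N →ₗ[ℂ] ℂ)
    (hs : l 1 s ≠ 0) : ∃ (K : Submodule ℂ (Sp N)) (x : Sp N),
      (∀ F ∈ (side1 N).ops ∪ (side2 N).ops, ∀ z ∈ K, F z ∈ K) ∧ (∀ a, ∀ z ∈ K, l a z = 0) ∧
      (∃ a, l a x ≠ 0) ∧ ∀ F ∈ (side1 N).ops ∪ (side2 N).ops, ∃ c : ℂ, F x - c • x ∈ K := by
  set 𝓕 := (side1 N).ops ∪ (side2 N).ops with h𝓕
  set K : Submodule ℂ (Sp N) :=
    ⨅ G ∈ Submonoid.closure 𝓕, ⨅ a, LinearMap.ker ((l a).comp G) with hKd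
  have hmem : ∀ z, z ∈ K ↔ ∀ G ∈ Submonoid.closure 𝓕, ∀ a, l a (G z) = 0 := fun z => by
    simp [hKd, Submodule.mem_iInf]
  have hK' : ∀ F ∈ Submonoid.closure 𝓕, ∀ z ∈ K, F z ∈ K := fun F hF z hz =>
    (hmem _).2 fun G hG a => (hmem z).1 hz (G * F) (mul_mem hG hF) a
  have hK : ∀ F ∈ 𝓕, ∀ z ∈ K, F z ∈ K := fun F hF => hK' F (Submonoid.subset_closure hF)
  have hl : ∀ a, ∀ z ∈ K, l a z = 0 := fun a z hz => (hmem z).1 hz 1 (one_mem _) a
  have hc : ∀ F ∈ 𝓕, ∀ G ∈ 𝓕, F * G = G * F := by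
    rintro F (hF | hF) G (hG | hG)
    · exact (side1 N).ops_comm hHk F hF G hG
    · exact ops_cross F hF G hG
    · exact (ops_cross G hG F hF).symm
    · exact (side2 N).ops_comm hHk F hF G hG
  set A := (side1 N).alg * (side2 N).alg with hA
  have hAF : ∀ F ∈ 𝓕, ∀ G ∈ A, F * G ∈ A := fun F hF G hG => by
    refine Submodule.mul_induction_on hG (fun a ha b hb => ?_) fun a b ha hb => ?_
    · rcases hF with hF | hF
      · rw [← mul_assoc]
        exact Submodule.mul_mem_mul ((side1 N).ops_mul_mem hHk F hF a ha) hb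
      · rw [← mul_assoc, (side1 N).comm_alg (fun G hG => (ops_cross G hG F hF).symm) a ha,
          mul_assoc]
        exact Submodule.mul_mem_mul ha ((side2 N).ops_mul_mem hHk F hF b hb)
    · rw [mul_add]
      exact add_mem ha hb
  set V : Submodule ℂ (Sp N) := A.map (LinearMap.applyₗ s) with hV
  have hfd : FiniteDimensional ℂ V := Module.Finite.iff_fg.2
    ((((side1 N).alg_fg hHk hHL).mul ((side2 N).alg_fg hHk hHL)).map _)
  obtain ⟨x, hx, he⟩ := exists_common 𝓕 hc K hK _ V hfd rfl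
    (by
      rintro F hF _ ⟨G, hG, rfl⟩
      exact ⟨F * G, hAF F hF G hG, rfl⟩)
    fun hle => hs (hl 1 s (hle ⟨1 * 1, Submodule.mul_mem_mul ((side1 N).one_mem_alg hHk)
      ((side2 N).one_mem_alg hHk), by simp⟩))
  refine ⟨K, x, hK, hl, ?_, he⟩
  by_contra h0
  push Not at h0
  refine hx ((hmem x).2 fun G hG a => ?_)
  have h1 : ∃ c : ℂ, G x - c • x ∈ K := by
    induction hG using Submonoid.closure_induction with
    | mem G hG => exact he G hG
    | one => exact ⟨1, by simp⟩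
    | mul F G hF _ h1 h2 =>
      obtain ⟨c, h1⟩ := h1
      obtain ⟨c', h2⟩ := h2
      refine ⟨c' * c, ?_⟩
      have h3 := add_mem (hK' F hF _ h2) (K.smul_mem c' h1)
      rw [map_sub, map_smul, smul_sub, sub_add_sub_cancel, smul_smul] at h3
      exact h3
  obtain ⟨c, h1⟩ := h1
  have h2 := hl a _ h1
  rwa [map_sub, map_smul, h0 a, smul_zero, sub_zero] at h2

end EigP

open EigP in
theorem eig (hHk : S_Hk) (hHL : S_HL) (hG : S_G2full) (hWV : S_WV) : S_Eig := by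
  intro s hs d N hN hl μ hμ
  have : NeZero N := ⟨hN.ne'⟩
  set l : (ZMod N)ˣ → Sp N →ₗ[ℂ] ℂ := fun a => ellL d (tw N a μ) with hld
  obtain ⟨K, x, hK, hlK, ⟨a0, ha0⟩, he⟩ := exists_vec hHk hHL ⟨s, hs, hl⟩ l
    (by simp only [hld, tw_one]; exact hμ)
  set L : Sp N →ₗ[ℂ] ℂ := (l a0 x)⁻¹ • l a0 with hLd
  have hL : ∀ z ∈ K, L z = 0 := fun z hz => by
    rw [hLd, LinearMap.smul_apply, hlK a0 z hz, smul_zero]
  have hx : L x = 1 := by rw [hLd, LinearMap.smul_apply, smul_eq_mul, inv_mul_cancel₀ ha0]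
  have he' : ∀ F ∈ (side1 N).ops ∪ (side2 N).ops, F x - L (F x) • x ∈ K := fun F hF => by
    obtain ⟨c, hc⟩ := he F hF
    have h1 := hL _ hc
    rw [map_sub, map_smul, hx, smul_eq_mul, mul_one, sub_eq_zero] at h1
    rwa [h1]
  obtain ⟨ε1, h1⟩ := (side1 N).isEig hHk hHL hG hWV K (fun F hF => hK F (Or.inl hF)) x L hL hx
    fun F hF => he' F (Or.inl hF)
  obtain ⟨ε2, h2⟩ := (side2 N).isEig hHk hHL hG hWV K (fun F hF => hK F (Or.inr hF)) x L hL hx
    fun F hF => he' F (Or.inr hF)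
  obtain ⟨χ, hχ⟩ := exists_char (fun a => l a x) ha0
  obtain ⟨l1, e1, hl1⟩ := h1 1
  obtain ⟨l2, e2, hl2⟩ := h2 χ⁻¹
  set C := ∑ b : (ZMod N)ˣ, χ b * l b x with hC
  refine ⟨x.1, l1, l2, _, _, Finset.univ.map ⟨Units.val, Units.val_injective⟩,
    fun a => χ a / C, x.2.1, x.2.2, e1, e2, fun m hm hmN => ?_⟩
  have hm' : Gd N m := ⟨hm, hmN⟩
  set m' := ZMod.unitOfCoprime m hmN with hm'd
  have hmm : (m : ZMod N) = m' := (ZMod.coe_unitOfCoprime m hmN).symm
  have hT1 : (side1 N).T m ∈ (side1 N).ops ∪ (side2 N).ops := Or.inl (Or.inl ⟨m, hm', rfl⟩)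
  have hT2 : (side2 N).T m ∈ (side1 N).ops ∪ (side2 N).ops := Or.inr (Or.inl ⟨m, hm', rfl⟩)
  have h3 : ∀ a : (ZMod N)ˣ, ell (op2 (Tn N m) (Tn N m) x.1) d N (tw N m (tw N a μ)) =
      L ((side1 N).T m x) * L ((side2 N).T m x) * l (a * m') x := fun a => by
    have h4 : ell (op2 (Tn N m) (Tn N m) x.1) d N (tw N m (tw N a μ)) =
        l (a * m') ((side1 N).T m ((side2 N).T m x)) := by
      rw [hmm, tw_tw]
      exact congrArg (fun z => ell z d N _) (op2_comm hN x.2.2 _ _ m m).1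
    have h5 := hlK (a * m') _ (hK _ hT1 _ (he' _ hT2))
    have h6 := hlK (a * m') _ (he' _ hT1)
    simp only [map_sub, map_smul, smul_eq_mul] at h5 h6
    rw [h4]
    linear_combination h5 + L ((side2 N).T m x) * h6
  have h7 : ∑ a : (ZMod N)ˣ, χ a * l (a * m') x = χ⁻¹ m * C := by
    rw [hC, Finset.mul_sum]
    refine Fintype.sum_equiv (Equiv.mulRight m') _ _ fun a => ?_
    have h8 : χ⁻¹ (m' : ZMod N) * χ m' = 1 := by
      rw [← MulChar.mul_apply, inv_mul_cancel, MulChar.one_apply_coe]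
    rw [Equiv.coe_mulRight, Units.val_mul, map_mul, hmm]
    linear_combination (-(χ a * l (a * m') x)) * h8
  rw [Finset.sum_map, hl1 m hm', hl2 m hm', hmm, MulChar.one_apply_coe, ← hmm]
  simp only [Function.Embedding.coeFn_mk, h3]
  have h9 : ∀ a : (ZMod N)ˣ, χ a / C * (L ((side1 N).T m x) * L ((side2 N).T m x) * l (a * m') x) =
      L ((side1 N).T m x) * L ((side2 N).T m x) / C * (χ a * l (a * m') x) := fun a => by ring
  simp only [h9]
  rw [← Finset.mul_sum, h7]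
  field_simp

end

end Pool.Agent.P.MP_b8021b_nt.CM
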