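import Pool.Agent.P.MP_b8021b_nt.CM.EisA

/-! Package P3: Eisenstein series with congruence conditions. -/

namespace Pool.Agent.P.MP_b8021b_nt.CM

open Complex hiding Gamma
open UpperHalfPlane hiding I
open MeasureTheory CongruenceSubgroup Filter
open scoped Real MatrixGroups ModularForm Topology ComplexConjugate Modular Nat

noncomputable section

namespace EisP

variable {M : ℕ}

/-- series with rational coefficients -/
def RS (M : ℕ) (f : ℍ → ℂ) : Prop :=
  ∃ a : ℤ → ℚ, ∀ τ : ℍ, HasSum (fun n : ℤ => (a n : ℂ) * e (n * τ / M)) (f τ)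

theorem RS.add {f g : ℍ → ℂ} (h : RS M f) (h' : RS M g) : RS M fun τ => f τ + g τ := by
  obtain ⟨a, ha⟩ := h
  obtain ⟨b, hb⟩ := h'
  exact ⟨a + b, fun τ => ((ha τ).add (hb τ)).congr_fun fun n => by simp [add_mul]⟩

theorem rs_of_family {ι : Type} {f : ℍ → ℂ} (N : ι → ℤ) (b : ι → ℚ)
    (hfin : ∀ n, {i | N i = n ∧ b i ≠ 0}.Finite)
    (h : ∀ τ : ℍ, HasSum (fun i => (b i : ℂ) * e (N i * τ / M)) (f τ)) : RS M f := by
  classical
  refine ⟨fun n => ∑ i ∈ (hfin n).toFinset, b i, fun τ => ?_⟩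
  refine ((Equiv.sigmaFiberEquiv N).hasSum_iff.2 (h τ)).sigma fun n => ?_
  have h1 : HasSum (Set.indicator {i | N i = n} fun i => (b i : ℂ) * e (N i * τ / M))
      (∑ i ∈ (hfin n).toFinset, Set.indicator {i | N i = n}
        (fun i => (b i : ℂ) * e (N i * τ / M)) i) := by
    refine hasSum_sum_of_ne_finset_zero fun i hi => ?_
    by_cases h2 : N i = n
    · have h3 : b i = 0 := by simpa [h2] using hi
      simp [h3]
    · simp [h2]
  have h2 : (∑ i ∈ (hfin n).toFinset, Set.indicator {i | N i = n}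
        (fun i => (b i : ℂ) * e (N i * τ / M)) i) =
      ((∑ i ∈ (hfin n).toFinset, b i : ℚ) : ℂ) * e (n * τ / M) := by
    push_cast
    rw [Finset.sum_mul]
    refine Finset.sum_congr rfl fun i hi => ?_
    have h3 : N i = n := ((hfin n).mem_toFinset.1 hi).1
    simp [h3]
  rw [h2] at h1
  exact hasSum_subtype_iff_indicator.2 h1

theorem rs_const (q : ℚ) : RS M fun _ => (q : ℂ) :=
  rs_of_family (ι := Unit) (fun _ => 0) (fun _ => q) (fun _ => Set.toFinite _) fun τ => by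
    simp [e_zero]

theorem RS.ratExp (hM : 0 < M) {f : ℍ → ℂ} (h : RS M f) (hf : Hol f) : RatExp M f := by
  obtain ⟨a, ha⟩ := h
  have hp : Per M f := fun τ => by
    refine (ha _).unique ((ha τ).congr_fun fun n => ?_)
    have hM' : (M : ℂ) ≠ 0 := by exact_mod_cast hM.ne'
    have : (n : ℂ) * (((M : ℝ) +ᵥ τ : ℍ) : ℂ) / M = n + n * τ / M := by
      rw [coe_vadd]; push_cast; field_simp
    rw [this, e_add, e_int, one_mul]
  exact fun n => ⟨a n, coef_unique hM hf hp (Y := 0) (fun τ _ => ha τ) n⟩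

/-- the twisted Lipschitz sum -/
def LL (M k : ℕ) (κ : ZMod M) (z : ℂ) : ℂ := ∑' n : ℤ, eM M (κ * n) * (z + n) ^ (-(k : ℤ))

theorem norm_eM (a : ZMod M) : ‖eM M a‖ = 1 := norm_eq _

def mE (M : ℕ) [NeZero M] : ZMod M × ℤ ≃ ℤ where
  toFun p := p.1.val + M * p.2
  invFun n := ((n : ZMod M), n / M)
  left_inv p := by
    have hM : (M : ℤ) ≠ 0 := by exact_mod_cast NeZero.ne M
    refine Prod.ext (by simp) ?_
    have h1 : (p.1.val : ℤ) < M := by exact_mod_cast ZMod.val_lt p.1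
    simp only
    rw [Int.add_mul_ediv_left _ _ hM, Int.ediv_eq_zero_of_lt (by positivity) h1, zero_add]
  right_inv n := by
    simp only
    rw [ZMod.val_intCast, Int.emod_add_mul_ediv]

open Classical in
/-- the coefficients of the Lipschitz sum -/
def cc (M j : ℕ) (κ : ZMod M) (ν : ℕ) : ℚ :=
  if κ + ν = 0 then (-1) ^ (j + 1) / j ! * ((ν : ℚ) / M) ^ j else 0

theorem lip [NeZero M] {j : ℕ} (hj : 1 ≤ j) (κ : ZMod M) (z : ℍ) :
    HasSum (fun ν : ℕ => (cc M j κ ν : ℂ) * e (ν * z / M))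
      (LL M (j + 1) κ z / (2 * π * I) ^ (j + 1)) := by
  have hM : (M : ℂ) ≠ 0 := by exact_mod_cast NeZero.ne M
  have hM' : (0 : ℝ) < M := by exact_mod_cast NeZero.pos M
  have hpi : (2 * π * I : ℂ) ≠ 0 := two_pi_I_ne_zero
  have hs : Summable fun n : ℤ => eM M (κ * n) * ((z : ℂ) + n) ^ (-((j + 1 : ℕ) : ℤ)) := by
    have := EisensteinSeries.linear_right_summable (z : ℂ) 1 (k := ((j + 1 : ℕ) : ℤ)) (by omega)
    refine Summable.of_norm (this.norm.congr fun n => ?_)
    rw [norm_mul, norm_eM, one_mul, zpow_neg]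
    simp
  have h1 := (mE M).hasSum_iff.2 hs.hasSum
  have hz : ∀ b : ZMod M, 0 < (((z : ℂ) + b.val) / M).im := fun b => by
    have := z.im_pos
    simp only [div_natCast_im, add_im, coe_im, natCast_im, add_zero]
    positivity
  set C : ℂ := (-2 * π * I) ^ (j + 1) / j ! with hC
  set g : ZMod M → ℂ := fun b => eM M (κ * b) * ((M : ℂ) ^ (j + 1))⁻¹ *
    (C * ∑' ν : ℕ, (ν : ℂ) ^ j * cexp (2 * π * I * (((z : ℂ) + b.val) / M)) ^ ν) with hg
  have h2 : HasSum g (LL M (j + 1) κ z) := by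
    refine h1.prod_fiberwise fun b => ?_
    have h3 := EisensteinSeries.qExpansion_identity hj ⟨_, hz b⟩
    have h4 := EisensteinSeries.linear_right_summable (((z : ℂ) + b.val) / M) 1
      (k := ((j + 1 : ℕ) : ℤ)) (by omega)
    simp only at h3
    simp only [hg]
    rw [← h3]
    have h5 : Summable fun n : ℤ => 1 / (((z : ℂ) + b.val) / M + n) ^ (j + 1) :=
      h4.congr fun n => by rw [zpow_natCast]; simp
    refine (h5.hasSum.mul_left _).congr_fun fun l => ?_
    have e1 : mE M (b, l) = b.val + M * l := rfl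
    have e2 : (z : ℂ) + (b.val + M * l) = M * (((z : ℂ) + b.val) / M + l) := by field_simp; ring
    simp only [Function.comp, e1]
    push_cast
    rw [e2, ← Nat.cast_succ, zpow_neg, zpow_natCast, mul_pow]
    simp [mul_comm, mul_left_comm, mul_assoc]
  have h6 : ∀ b ∈ (Finset.univ : Finset (ZMod M)), HasSum (fun ν : ℕ => eM M (κ * b) *
      ((M : ℂ) ^ (j + 1))⁻¹ * (C * ((ν : ℂ) ^ j *
        cexp (2 * π * I * (((z : ℂ) + b.val) / M)) ^ ν))) (g b) := fun b _ => by
    have := summable_pow_mul_cexp j 1 ⟨_, hz b⟩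
    simp only [PNat.val_ofNat, Nat.cast_one, mul_one] at this
    exact (this.hasSum.mul_left _).mul_left _
  rw [h2.unique (hasSum_fintype g)]
  refine ((hasSum_sum h6).div_const _).congr_fun fun ν => ?_
  have e3 : ∀ b : ZMod M, cexp (2 * π * I * (((z : ℂ) + b.val) / M)) ^ ν =
      e (ν * z / M) * eM M (b * ν) := fun b => by
    have : b * ν = ((b.val * ν : ℤ) : ZMod M) := by simp
    rw [this, eM_intCast, eq, ← e_add, ← e, ← e_nat_mul]
    congr 1
    push_cast
    ring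
  have e4 : ∑ b : ZMod M, eM M (κ * b) * ((M : ℂ) ^ (j + 1))⁻¹ * (C * ((ν : ℂ) ^ j *
      cexp (2 * π * I * (((z : ℂ) + b.val) / M)) ^ ν)) =
      ((M : ℂ) ^ (j + 1))⁻¹ * C * (ν : ℂ) ^ j * e (ν * z / M) *
        ∑ b : ZMod M, eM M (b * (κ + ν)) := by
    rw [Finset.mul_sum]
    refine Finset.sum_congr rfl fun b _ => ?_
    rw [e3, mul_add, eM_add, mul_comm b κ]
    ring
  rw [e4, sum_eM, cc]
  split_ifs
  · have : C = (-1) ^ (j + 1) * (2 * π * I) ^ (j + 1) / j ! := by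
      rw [hC, ← mul_pow]; congr 2; ring
    rw [this]
    push_cast
    rw [div_pow]
    field_simp
    ring
  · simp

theorem norm_cc (j : ℕ) (κ : ZMod M) (ν : ℕ) : ‖(cc M j κ ν : ℂ)‖ ≤ ((M : ℝ) ^ j)⁻¹ * ν ^ j := by
  unfold cc
  split_ifs
  · push_cast
    simp only [norm_mul, norm_div, norm_pow, norm_neg, norm_one, one_pow, Complex.norm_natCast,
      div_pow]
    rw [div_eq_inv_mul ((ν : ℝ) ^ j)]
    refine mul_le_of_le_one_left (by positivity) ?_
    rw [div_le_one (by positivity)]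
    exact_mod_cast Nat.factorial_pos j
  · simp only [Rat.cast_zero, norm_zero]; positivity

theorem rs_half [NeZero M] {j : ℕ} (hj : 1 ≤ j) (κ : ZMod M) (χ : ℕ → ℚ)
    (hχ : ∀ w, ‖(χ w : ℂ)‖ ≤ 1) : RS M fun τ => ∑' w : ℕ,
      (χ w : ℂ) * (LL M (j + 1) κ ((w + 1) * τ) / (2 * π * I) ^ (j + 1)) := by
  have hM' : (0 : ℝ) < M := by exact_mod_cast NeZero.pos M
  refine rs_of_family (ι := ℕ × ℕ) (fun p => (p.2 * (p.1 + 1) : ℕ))
    (fun p => χ p.1 * cc M j κ p.2) (fun n => ?_) fun τ => ?_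
  · refine ((Set.finite_Iic n.toNat).prod (Set.finite_Iic n.toNat)).subset ?_
    rintro ⟨w, ν⟩ ⟨h1, h2⟩
    have h3 : ν ≠ 0 := by
      rintro rfl
      apply h2
      have : j ≠ 0 := by omega
      simp [cc, this]
    have h4 : ν * (w + 1) = n.toNat := by rw [← h1, Int.toNat_natCast]
    have h5 : 1 ≤ ν := Nat.one_le_iff_ne_zero.2 h3
    simp only [Set.mem_prod, Set.mem_Iic]
    constructor <;> nlinarith
  · set r : ℝ := ‖e (τ / M)‖ with hr
    have hr0 : 0 ≤ r := norm_nonneg _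
    have hr1 : r < 1 := by
      rw [hr, norm_e, Real.exp_lt_one_iff]
      have := τ.im_pos
      have h2 : 0 < ((τ : ℂ) / M).im := by
        simp only [div_natCast_im, coe_im]; positivity
      have := Real.pi_pos
      nlinarith [mul_pos this h2]
    have hr2 : ‖r‖ < 1 := by rwa [Real.norm_of_nonneg hr0]
    have s1 : Summable fun w : ℕ => r ^ w := summable_geometric_of_lt_one hr0 hr1
    have s2 : Summable fun ν : ℕ => ((M : ℝ) ^ j)⁻¹ * ((ν : ℝ) ^ j * r ^ ν) :=
      (summable_pow_mul_geometric_of_norm_lt_one j hr2).mul_left _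
    have s3 := s1.mul_of_nonneg s2 (fun _ => by positivity) (fun _ => by positivity)
    have hs : Summable fun p : ℕ × ℕ => ((χ p.1 * cc M j κ p.2 : ℚ) : ℂ) *
        e ((((p.2 * (p.1 + 1) : ℕ) : ℤ) : ℂ) * τ / M) := by
      refine Summable.of_norm_bounded s3 fun ⟨w, ν⟩ => ?_
      simp only [Int.cast_natCast, Rat.cast_mul]
      rw [mul_div_assoc, e_nat_mul, norm_mul, norm_mul, norm_pow, ← hr]
      rcases Nat.eq_zero_or_pos ν with rfl | hν
      · have : j ≠ 0 := by omega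
        simp [cc, this]
      · have h1 : r ^ (ν * (w + 1)) ≤ r ^ (w + ν) :=
          pow_le_pow_of_le_one hr0 hr1.le (by nlinarith)
        calc _ ≤ 1 * (((M : ℝ) ^ j)⁻¹ * ν ^ j) * r ^ (w + ν) := by
              gcongr
              exacts [hχ w, norm_cc j κ ν]
          _ = _ := by ring
    have h2 : ∀ w : ℕ, HasSum (fun ν : ℕ => ((χ w * cc M j κ ν : ℚ) : ℂ) *
        e ((((ν * (w + 1) : ℕ) : ℤ) : ℂ) * τ / M))
        ((χ w : ℂ) * (LL M (j + 1) κ ((w + 1) * τ) / (2 * π * I) ^ (j + 1))) := fun w => by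
      have hz : 0 < (((w : ℂ) + 1) * τ).im := by
        have := τ.im_pos
        simp only [mul_im, add_re, natCast_re, one_re, coe_im, add_im, natCast_im, one_im]
        simp only [add_zero, zero_mul]
        positivity
      refine ((lip hj κ ⟨_, hz⟩).mul_left (χ w : ℂ)).congr_fun fun ν => ?_
      simp only
      push_cast
      rw [mul_assoc, mul_assoc (ν : ℂ)]
    rw [(hs.hasSum.prod_fiberwise h2).tsum_eq]
    exact hs.hasSum

theorem LL_neg [NeZero M] (k : ℕ) (κ : ZMod M) (z : ℂ) :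
    LL M k κ (-z) = (-1) ^ k * LL M k (-κ) z := by
  rw [LL, LL, ← tsum_mul_left, ← tsum_comp_neg]
  refine tsum_congr fun n => ?_
  have : -z + ((-n : ℤ) : ℂ) = -1 * (z + n) := by push_cast; ring
  rw [this, mul_zpow, zpow_neg (-1 : ℂ), zpow_natCast, ← inv_pow, inv_neg_one]
  simp only [Int.cast_neg, mul_neg, neg_mul]
  ring

theorem LL_zero [NeZero M] {k : ℕ} (hk : 2 ≤ k) (κ : ZMod M) :
    ∃ q : ℚ, LL M k κ 0 / (2 * π * I) ^ k = q := by
  have hM' : (0 : ℝ) < M := by exact_mod_cast NeZero.pos M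
  have hpi : (2 * π * I : ℂ) ≠ 0 := two_pi_I_ne_zero
  have hx : ((κ.val : ℝ) / M) ∈ Set.Icc (0 : ℝ) 1 :=
    ⟨by positivity, (div_le_one hM').2 (by exact_mod_cast (ZMod.val_lt κ).le)⟩
  have h := hasSum_one_div_pow_mul_fourier_mul_bernoulliFun hk hx
  refine ⟨-((Polynomial.bernoulli k).eval ((κ.val : ℚ) / M)) / k !, ?_⟩
  have e1 : LL M k κ 0 = _ := Eq.trans (tsum_congr fun n => ?_) h.tsum_eq
  · have e2 : bernoulliFun k ((κ.val : ℝ) / M) =
        (((Polynomial.bernoulli k).eval ((κ.val : ℚ) / M) : ℚ) : ℝ) := by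
      have : ((κ.val : ℝ) / M) = algebraMap ℚ ℝ ((κ.val : ℚ) / M) := by
        rw [map_div₀, map_natCast, map_natCast]
      rw [bernoulliFun, this, Polynomial.eval_map_algebraMap, Polynomial.aeval_algebraMap_apply]
      simp
    rw [e1, e2]
    push_cast
    field_simp
  · have : κ * n = ((κ.val * n : ℤ) : ZMod M) := by simp
    rw [this, eM_intCast, fourier_coe_apply, zero_add, zpow_neg, zpow_natCast, one_div, mul_comm,
      eq, e]
    congr 2
    push_cast
    ring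

theorem hol_F [NeZero M] {k : ℕ} (hk : 3 ≤ k) (m κ : ZMod M) : Hol fun τ =>
    (∑ n : ZMod M, eM M (κ * n) * GS M k (m, n) τ) / (2 * π * I) ^ k := by
  have := (Hol.sum Finset.univ (fun n : ZMod M => eM M (κ * n) • GS M k (m, n))
    fun n _ => (hol_GS hk _).smul _).smul ((2 * π * I) ^ k)⁻¹
  have e1 : (fun τ => (∑ n : ZMod M, eM M (κ * n) * GS M k (m, n) τ) / (2 * π * I) ^ k) =
      ((2 * π * I) ^ k)⁻¹ • ∑ n : ZMod M, eM M (κ * n) • GS M k (m, n) := by
    funext τ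
    simp only [div_eq_inv_mul, Pi.smul_apply, Finset.sum_apply, smul_eq_mul]
  rwa [e1]

open Classical in
def ch (m : ZMod M) (w : ℤ) : ℚ := if (w : ZMod M) = m then 1 else 0

theorem norm_ch (m : ZMod M) (w : ℤ) : ‖(ch m w : ℂ)‖ ≤ 1 := by
  unfold ch; split_ifs <;> simp

theorem rows [NeZero M] {k : ℕ} (hk : 3 ≤ k) (m κ : ZMod M) (τ : ℍ) :
    HasSum (fun w : ℤ => (ch m w : ℂ) * LL M k κ (w * τ))
      (∑ n : ZMod M, eM M (κ * n) * GS M k (m, n) τ) := by
  classical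
  have h1 := sum_GS hk (fun a : ZMod M × ZMod M => if a.1 = m then eM M (κ * a.2) else 0) τ
  have e1 : (∑ a : ZMod M × ZMod M, (if a.1 = m then eM M (κ * a.2) else 0) * GS M k a τ) =
      ∑ n : ZMod M, eM M (κ * n) * GS M k (m, n) τ := by
    rw [Fintype.sum_prod_type, Finset.sum_comm]
    refine Finset.sum_congr rfl fun n _ => ?_
    rw [Finset.sum_eq_single m (fun b _ hb => by simp only [hb, if_false, zero_mul])
      (fun h => (h (Finset.mem_univ _)).elim), if_pos rfl]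
  rw [e1] at h1
  refine h1.prod_fiberwise fun w => ?_
  have h2 := (h1.summable.prod_factor w).hasSum
  have e2 : (∑' c : ℤ, (if ((w : ℤ) : ZMod M) = m then eM M (κ * (c : ZMod M)) else 0) *
      lam (w, c) τ ^ (-(k : ℤ))) = (ch m w : ℂ) * LL M k κ (w * τ) := by
    unfold ch LL lam
    split_ifs
    · rw [Rat.cast_one, one_mul]
    · simp only [zero_mul, tsum_zero, Rat.cast_zero]
  rw [← e2]
  exact h2

theorem rat_GS [NeZero M] {k : ℕ} (hk : 3 ≤ k) (m κ : ZMod M) : RatExp M fun τ =>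
    (∑ n : ZMod M, eM M (κ * n) * GS M k (m, n) τ) / (2 * π * I) ^ k := by
  refine RS.ratExp (NeZero.pos M) ?_ (hol_F hk m κ)
  obtain ⟨j, rfl⟩ : ∃ j, k = j + 1 := ⟨k - 1, by omega⟩
  have hj : 1 ≤ j := by omega
  obtain ⟨q, hq⟩ := LL_zero (k := j + 1) (by omega) κ
  have r1 := rs_half hj κ (fun w => ch m (w + 1)) fun w => norm_ch _ _
  have r2 := rs_half hj (-κ) (fun w => ch m (-(w + 1)) * (-1) ^ (j + 1)) fun w => by
    rw [Rat.cast_mul, norm_mul, Rat.cast_pow, norm_pow, Rat.cast_neg, norm_neg, Rat.cast_one,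
      norm_one, one_pow, mul_one]
    exact norm_ch _ _
  obtain ⟨a, ha⟩ := (r1.add (rs_const (ch m 0 * q))).add r2
  refine ⟨a, fun τ => ?_⟩
  have h1 := (rows hk m κ τ).div_const ((2 * π * I) ^ (j + 1))
  have s1 : Summable fun n : ℕ => (ch m ((n : ℤ) + 1) : ℂ) *
      LL M (j + 1) κ ((((n : ℤ) + 1 : ℤ) : ℂ) * τ) / (2 * π * I) ^ (j + 1) :=
    h1.summable.comp_injective (i := fun n : ℕ => (n : ℤ) + 1) fun a b h => by simpa using h
  have s2 : Summable fun n : ℕ => (ch m (-((n : ℤ) + 1)) : ℂ) *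
      LL M (j + 1) κ (((-((n : ℤ) + 1) : ℤ) : ℂ) * τ) / (2 * π * I) ^ (j + 1) :=
    h1.summable.comp_injective (i := fun n : ℕ => -((n : ℤ) + 1)) fun a b h => by simpa using h
  have h2 := h1.unique (HasSum.of_add_one_of_neg_add_one
    (f := fun w : ℤ => (ch m w : ℂ) * LL M (j + 1) κ (w * τ) / (2 * π * I) ^ (j + 1))
    s1.hasSum s2.hasSum)
  have h3 := ha τ
  simp only at h3 ⊢
  rw [h2]
  refine Eq.subst (motive := fun x : ℂ => HasSum _ x) (Eq.symm ?_) h3
  refine congrArg₂ (· + ·) (congrArg₂ (· + ·) ?_ ?_) ?_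
  · refine tsum_congr fun w => ?_
    rw [mul_div_assoc, Int.cast_add, Int.cast_natCast, Int.cast_one]
  · rw [Int.cast_zero, zero_mul, mul_div_assoc, hq, Rat.cast_mul]
  · refine tsum_congr fun w => ?_
    rw [Int.cast_neg, neg_mul, LL_neg]
    push_cast
    ring

end EisP

theorem eis : S_Eis := fun _ _ =>
  ⟨fun _ hk a => EisP.inG_GS hk a, fun k _ a γ τ => EisP.GS_smul k a γ τ,
    fun _ hk m κ => EisP.rat_GS hk m κ, EisP.indep⟩

end

end Pool.Agent.P.MP_b8021b_nt.CM
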