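import Pool.Agent.P.MP_b8021b_nt.CM.Lib

/-! Package P14: full modularity of `G2`, Hecke linear algebra and cuspidality. -/

namespace Pool.Agent.P.MP_b8021b_nt.CM

open Complex hiding Gamma
open UpperHalfPlane hiding I
open MeasureTheory CongruenceSubgroup Filter
open scoped Real MatrixGroups ModularForm Topology ComplexConjugate Modular

noncomputable section

namespace G2FP

theorem det_int {M : ℕ} {Y : M2} (h : IsInt ((M : ℚ) • Y)) :
    ∃ k : ℤ, ((M ^ 2 : ℕ) : ℚ) * Y.det = k := by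
  obtain ⟨Z, hZ⟩ := (isInt_M2 _).1 h
  refine ⟨Z.det, ?_⟩
  rw [← castZ_det, hZ, Matrix.det_smul]
  simp

theorem supp_G2 {u : ℍ → ℂ} {σ : ℍ} {M : ℕ} {φ : M2 → ℂ} (h : Lev M φ) {n : ℚ}
    (hn : G2 u σ φ n ≠ 0) : 0 < n ∧ ∃ k : ℤ, ((M ^ 2 : ℕ) : ℚ) * n = k := by
  obtain ⟨h0, Y, hY, hφ⟩ := G2_supp hn
  exact ⟨h0, hY ▸ det_int (h.2 Y hφ)⟩

theorem slS (f g : ℍ → ℂ) (h : ∀ τ : ℍ, f (ModularGroup.S • τ) = (τ : ℂ) ^ 2 * g τ) :
    sl 2 ModularGroup.S f = g := by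
  funext τ
  have h0 : (τ : ℂ) ≠ 0 := τ.ne_zero
  rw [sl, h, jf_S, zpow_neg, zpow_ofNat]
  field_simp

theorem slT (c : ℚ → ℂ) : sl 2 ModularGroup.T (qs c) = qs fun m => eq m * c m := by
  funext τ
  rw [sl, jf_T, one_zpow, mul_one, qs, qs]
  refine tsum_congr fun m => ?_
  rw [coe_T, mul_add, mul_one, e_add, eq]
  ring

theorem G2_T (u : ℍ → ℂ) (σ : ℍ) (φ : M2 → ℂ) :
    G2 u σ (fun Y => eq Y.det * φ Y) = fun m => eq m * G2 u σ φ m := by
  funext m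
  rw [← G2_smul]
  exact G2_congr σ fun Y hY => by rw [hY]; rfl

end G2FP

open G2FP in
theorem g2full : S_G2 → S_WV → S_G2full := by
  intro hG hW u hu σ M hM
  have W := hW M hM
  have key : ∀ γ : SL, ∀ φ, Lev M φ → sl 2 γ (qs (G2 u σ φ)) = qs (G2 u σ (omV γ φ)) := by
    have hT : ∀ φ, Lev M φ →
        sl 2 ModularGroup.T (qs (G2 u σ φ)) = qs (G2 u σ (omV ModularGroup.T φ)) := by
      intro φ hφ
      rw [W.hT φ hφ, slT, G2_T]
    refine SL_induction ?_ hT ?_ ?_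
    · intro φ hφ
      rw [W.hS φ hφ]
      exact slS _ _ (hG u hu σ φ (hφ.sb hM)).2
    · intro φ hφ
      have h1 := hT _ (W.lev ModularGroup.T⁻¹ φ hφ)
      rw [← W.mul _ _ _ hφ, inv_mul_cancel, W.triv 1 (one_mem _) φ hφ] at h1
      rw [← h1, ← sl_mul, mul_inv_cancel, sl_one]
    · intro γ δ hγ hδ φ hφ
      rw [sl_mul, hγ φ hφ, hδ _ (W.lev γ φ hφ), W.mul γ δ φ hφ]
  intro φ hφ
  have hc : ∀ ψ, Lev M ψ → Conv (G2 u σ ψ) := fun ψ hψ => (hG u hu σ ψ (hψ.sb hM)).1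
  refine ⟨hc φ hφ, fun γ => key γ φ hφ, (hc φ hφ).hol, fun γ hγ => ?_, fun γ => ?_⟩
  · rw [key γ φ hφ, W.triv γ hγ φ hφ]
  · rw [key γ φ hφ]
    have hp : (0 : ℚ) < ((M ^ 2 : ℕ) : ℚ) := by positivity
    refine (hc _ (W.lev γ φ hφ)).dec (δ := 1 / ((M ^ 2 : ℕ) : ℚ)) (by positivity) fun m hm => ?_
    obtain ⟨h0, k, hk⟩ := supp_G2 (W.lev γ φ hφ) hm
    have h1 : (0 : ℚ) < k := hk ▸ mul_pos hp h0
    have h2 : (1 : ℤ) ≤ k := by exact_mod_cast h1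
    have h3 : (1 : ℚ) ≤ k := by exact_mod_cast h2
    rw [div_le_iff₀ hp]
    linarith

namespace G2FP

/-- coefficient sequences of cusp forms -/
def WW (L : ℕ) : Submodule ℂ (ℚ → ℂ) where
  carrier := {c | Conv c ∧ (∀ m, c m ≠ 0 → IsInt ((L : ℚ) • m)) ∧ Cusp L (qs c)}
  add_mem' := by
    rintro a b ⟨a1, a2, a3⟩ ⟨b1, b2, b3⟩
    refine ⟨(a1.add b1).1, fun m hm => ?_, (a1.add b1).2 ▸ a3.add b3⟩
    by_cases h : a m = 0
    · exact b2 m fun h' => hm (by simp [h, h'])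
    · exact a2 m h
  zero_mem' := by
    refine ⟨fun τ => by simp [summable_zero], fun m hm => absurd rfl hm, ?_⟩
    have : qs (0 : ℚ → ℂ) = 0 := by funext τ; simp [qs]
    rw [this]; exact cusp_zero L
  smul_mem' := by
    rintro a c ⟨c1, c2, c3⟩
    exact ⟨(c1.smul a).1, fun m hm => c2 m fun h => hm (by simp [h]), (c1.smul a).2 ▸ c3.smul a⟩

theorem eq_zero_of_qs {L : ℕ} (hL : 0 < L) {c : ℚ → ℂ} (h : Conv c)
    (hs : ∀ m, c m ≠ 0 → IsInt ((L : ℚ) • m)) (h0 : qs c = 0) : c = 0 := by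
  funext m
  by_contra hm
  obtain ⟨n, hn⟩ := (isInt_rat _).1 (hs m hm)
  have h1 := (h.coef_eq hL hs).2 n
  have h2 : (L : ℚ) ≠ 0 := by positivity
  have h3 : (n : ℚ) / L = m := by rw [← hn, smul_eq_mul]; field_simp
  rw [h0, h3] at h1
  exact hm (by rw [← h1]; simp [coef])

theorem fin_WW (hF : S_FD) {L : ℕ} (hL : 0 < L) : FiniteDimensional ℂ (WW L) := by
  obtain ⟨S, hS⟩ := (hF L hL).2
  let f : WW L →ₗ[ℂ] Submodule.span ℂ (S : Set (ℍ → ℂ)) :=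
    { toFun := fun c => ⟨qs c.1, hS _ c.2.2.2⟩
      map_add' := fun a b => Subtype.ext (a.2.1.add b.2.1).2
      map_smul' := fun a c => Subtype.ext (c.2.1.smul a).2 }
  refine FiniteDimensional.of_injective f ((injective_iff_map_eq_zero f).2 fun c hc => ?_)
  exact Subtype.ext (eq_zero_of_qs hL c.2.1 c.2.2.1 (congrArg Subtype.val hc))

theorem mem_WW (hG : S_G2full) {u : ℍ → ℂ} (hu : Rec u) (σ : ℍ) {M : ℕ} (hM : 0 < M)
    {φ : M2 → ℂ} (h : Lev M φ) : G2 u σ φ ∈ WW (M ^ 2) := by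
  obtain ⟨h1, -, h3⟩ := hG u hu σ M hM φ h
  refine ⟨h1, fun m hm => ?_, h3⟩
  obtain ⟨-, k, hk⟩ := supp_G2 h hm
  exact (isInt_rat _).2 ⟨k, hk⟩

end G2FP

open G2FP in
theorem hl : S_FD → S_G2full → S_HL := by
  classical
  intro hF hG N _ φ hφ
  obtain ⟨M, hM, h⟩ := hφ
  set s : Set (ℚ → ℂ) := {c | ∃ u σ, Rec u ∧ G2 u σ φ = c} with hs
  have := fin_WW hF (pow_pos hM 2)
  have hle : Submodule.span ℂ s ≤ WW (M ^ 2) := by
    rw [Submodule.span_le]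
    rintro _ ⟨u, σ, hu, rfl⟩
    exact mem_WW hG hu σ hM h
  have : FiniteDimensional ℂ (Submodule.span ℂ s) := Submodule.finiteDimensional_of_le hle
  obtain ⟨b, hb, hsp, hli⟩ := Submodule.exists_fun_fin_finrank_span_eq ℂ s
  choose u0 σ0 hu0 hb0 using hb
  obtain ⟨S, c, hc⟩ := exists_dual_points b hli
  refine ⟨_, u0, σ0, S, c, hu0, fun u hu _ σ n => ?_⟩
  have hm : G2 u σ φ ∈ Submodule.span ℂ (Set.range b) :=
    hsp.ge (Submodule.subset_span ⟨u, σ, hu, rfl⟩)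
  obtain ⟨a, ha⟩ := (Submodule.mem_span_range_iff_exists_fun ℂ).1 hm
  have h1 : ∀ i, ∑ k ∈ S, c i k * G2 u σ φ k = a i := by
    intro i
    simp only [← ha, Finset.sum_apply, Pi.smul_apply, smul_eq_mul, Finset.mul_sum]
    rw [Finset.sum_comm]
    simp only [mul_left_comm (c i _), ← Finset.mul_sum, hc]
    simp
  simp only [h1, hb0]
  rw [← ha]
  simp [mul_comm]

namespace G2FP

/-! ### the invariance group of a functional -/

/-- the functional is invariant under the matrix `Y` -/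
def Pv (Λ : (ℍ → ℂ) → ℂ) (Y : M2) : Prop :=
  0 < Y.det ∧ ∀ u, Rec u → Λ (fun τ => u (act Y τ)) = Λ u

variable {Λ : (ℍ → ℂ) → ℂ}

theorem Pv.mul {Y Z : M2} (h : Pv Λ Y) (h' : Pv Λ Z) : Pv Λ (Y * Z) := by
  refine ⟨by rw [Matrix.det_mul]; exact mul_pos h.1 h'.1, fun u hu => ?_⟩
  simp only [act_mul h.1.ne' h'.1.ne']
  have h1 : Rec fun τ => u (act Y τ) :=
    hu.comp_act (toG Y) (by rw [toG_val h.1.ne']; exact h.1)
  exact (h'.2 _ h1).trans (h.2 u hu)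

theorem Pv.smul {Y : M2} (h : Pv Λ Y) {a : ℚ} (ha : a ≠ 0) : Pv Λ (a • Y) := by
  refine ⟨?_, fun u hu => ?_⟩
  · rw [Matrix.det_smul, Fintype.card_fin]
    exact mul_pos (by positivity) h.1
  · simp only [act_smul ha]
    exact h.2 u hu

theorem pv_low {M : ℕ} (hM : ∀ γ ∈ Gamma M, ∀ u, Rec u → Λ (fun τ => u (γ • τ)) = Λ u) (c : ℤ) :
    Pv Λ !![1, 0; (M : ℚ) * c, 1] := by
  let γ : SL := ⟨!![1, 0; M * c, 1], by simp [Matrix.det_fin_two]⟩
  have h1 : castZ γ.1 = !![1, 0; (M : ℚ) * c, 1] := by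
    ext i j; fin_cases i <;> fin_cases j <;> simp [γ, castZ_apply]
  refine ⟨by simp [Matrix.det_fin_two], fun u hu => ?_⟩
  simp only [← h1, act_SL]
  exact hM γ (by simp [γ, Gamma_mem]) u hu

/-- the matrices of the operator `U` -/
def gb (T b : ℚ) : M2 := !![1, b; 0, T]

theorem pv_gb {M q N : ℕ} (hM0 : 0 < M) (hq : q.Prime) (hN : 0 < N)
    (hM : ∀ γ ∈ Gamma M, ∀ u, Rec u → Λ (fun τ => u (γ • τ)) = Λ u)
    (hn : ∀ (a : ℤ) (k : ℕ) u, Rec u → Λ (fun τ => u (actH (nn (N * a / q ^ k)) τ)) = Λ u) :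
    ∃ k : ℕ, 0 < k ∧ ∀ b : ℤ, Pv Λ (gb ((q ^ k : ℕ) : ℚ) (N * b)) := by
  have hup : ∀ (a : ℤ) (k : ℕ), Pv Λ !![1, (N : ℚ) * a / q ^ k; 0, 1] := fun a k =>
    ⟨by simp [Matrix.det_fin_two], hn a k⟩
  obtain ⟨j, m, hm, hj⟩ := Nat.exists_eq_pow_mul_and_not_dvd (Nat.mul_pos hM0 hN).ne' q hq.ne_one
  have hm0 : 0 < m := Nat.pos_of_ne_zero fun h => hm (h ▸ dvd_zero _)
  have hco : Nat.Coprime q m := (Nat.Prime.coprime_iff_not_dvd hq).2 hm
  have h1 := (Nat.ModEq.pow_totient hco).symm.dvd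
  obtain ⟨s, hs⟩ := h1
  set k := m.totient with hk
  refine ⟨2 * k, by have := Nat.totient_pos.2 hm0; omega, fun b => ?_⟩
  have hq0 : (q : ℚ) ≠ 0 := by exact_mod_cast hq.ne_zero
  have hM1 : (M : ℚ) ≠ 0 := by positivity
  have hm1 : (m : ℚ) ≠ 0 := by positivity
  have hs' : (q : ℚ) ^ k - 1 = m * s := by exact_mod_cast hs
  have hj' : (M : ℚ) * N = q ^ j * m := by exact_mod_cast hj
  have hN' : (N : ℚ) = q ^ j * m / M := by rw [← hj']; field_simp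
  have hs2 : (s : ℚ) = (q ^ k - 1) / m := by rw [hs']; field_simp
  have h := (((((hup (-s) (2 * k + j)).mul (pv_low hM (q ^ k))).mul (hup s (k + j))).mul
    (pv_low hM (-1))).mul (hup b 0)).smul (a := (q : ℚ) ^ k) (by positivity)
  convert h using 1
  have e1 : (N : ℚ) * ((-s : ℤ) : ℚ) / q ^ (2 * k + j) = (1 - q ^ k) / ((q ^ k) ^ 2 * M) := by
    rw [hN']; push_cast; rw [hs2]; field_simp; ring
  have e2 : (N : ℚ) * (s : ℚ) / q ^ (k + j) = (q ^ k - 1) / (q ^ k * M) := by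
    rw [hN', hs2]; field_simp; ring
  rw [e1, e2]
  have ht : (q : ℚ) ^ k ≠ 0 := by positivity
  have e3 : ((q ^ (2 * k) : ℕ) : ℚ) = (q ^ k) ^ 2 := by push_cast; ring
  rw [e3]
  push_cast
  generalize (q : ℚ) ^ k = t at ht
  ext i j
  fin_cases i <;> fin_cases j <;> simp [gb] <;> field_simp <;> simp
  ring

/-! ### the test function -/

/-- integral matrices of the shape `(1 0; 0 *)` modulo `N` -/
def Del (N : ℕ) (Y : M2) : Prop :=
  ∃ a b c d : ℤ, Y 0 0 = 1 + N * a ∧ Y 0 1 = N * b ∧ Y 1 0 = N * c ∧ Y 1 1 = d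

open Classical in
def ph (N : ℕ) (Y : M2) : ℂ := if Del N Y then 1 else 0

theorem ph_ne {N : ℕ} {Y : M2} (h : ph N Y ≠ 0) : Del N Y := by
  by_contra h'
  exact h (if_neg h')

theorem ph_congr {N : ℕ} {Y Z : M2} (h : Del N Y ↔ Del N Z) : ph N Y = ph N Z := by
  unfold ph; rw [propext h]

theorem Del.shift {N : ℕ} {Y K : M2} (h : Del N Y) (hK : IsInt K) : Del N (Y + (N : ℚ) • K) := by
  obtain ⟨a, b, c, d, h1, h2, h3, h4⟩ := h
  obtain ⟨Z, rfl⟩ := (isInt_M2 _).1 hK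
  refine ⟨a + Z 0 0, b + Z 0 1, c + Z 1 0, d + N * Z 1 1, ?_, ?_, ?_, ?_⟩ <;>
    simp [castZ_apply, h1, h2, h3, h4] <;> ring

theorem Del.isInt {N : ℕ} {Y : M2} (h : Del N Y) : IsInt Y := by
  obtain ⟨a, b, c, d, h1, h2, h3, h4⟩ := h
  refine (isInt_M2 _).2 ⟨!![1 + N * a, N * b; N * c, d], ?_⟩
  ext i j
  fin_cases i <;> fin_cases j <;> simp [castZ_apply, h1, h2, h3, h4]

theorem lev_ph (N : ℕ) : Lev N (ph N) := by
  refine ⟨fun Y K hK => ph_congr ⟨fun h => ?_, fun h => h.shift hK⟩,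
    fun Y h => (ph_ne h).isInt.nsmul N⟩
  have := h.shift hK.neg
  simpa using this

theorem Del.left {N : ℕ} {Y : M2} (h : Del N Y) {γ : GQ} (hγ : γ ∈ Gam N) : Del N (γ.1 * Y) := by
  obtain ⟨a, b, c, d, h1, h2, h3, h4⟩ := h
  obtain ⟨δ, hδ, rfl⟩ := hγ
  obtain ⟨K, hK⟩ := (red_eq_iff N δ.1 1).1 (by
    rw [(mem_Gamma_iff_red N δ).1 hδ]
    ext i j; fin_cases i <;> fin_cases j <;> simp [red_apply])
  rw [iota_val, hK, castZ_add, castZ_smul, castZ_one]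
  refine ⟨a + K 0 0 * (1 + N * a) + N * K 0 1 * c, b + N * K 0 0 * b + K 0 1 * d,
    c + K 1 0 * (1 + N * a) + N * K 1 1 * c, d + N * K 1 0 * (N * b) + N * K 1 1 * d,
    ?_, ?_, ?_, ?_⟩ <;>
    simp [castZ_apply, Matrix.mul_apply, Fin.sum_univ_two, h1, h2, h3, h4] <;> ring

theorem ph_left {N : ℕ} {γ : GQ} (hγ : γ ∈ Gam N) (Y : M2) : ph N (γ.1 * Y) = ph N Y := by
  refine ph_congr ⟨fun h => ?_, fun h => h.left hγ⟩
  have := h.left (inv_mem hγ)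
  rwa [← Matrix.mul_assoc, ← Units.val_mul, inv_mul_cancel, Units.val_one, Matrix.one_mul] at this

theorem Del.mem_Gam {N : ℕ} {Y : GQ} (h : Del N Y.1) (hd : Y.1.det = 1) : Y ∈ Gam N := by
  obtain ⟨γ, rfl⟩ := (mem_G0 Y).2 ⟨h.isInt, hd⟩
  refine ⟨γ, ?_, rfl⟩
  obtain ⟨a, b, c, d, h1, h2, h3, h4⟩ := h
  simp only [iota_val, castZ_apply] at h1 h2 h3 h4
  have e1 : γ.1 0 0 = 1 + N * a := by exact_mod_cast h1
  have e2 : γ.1 0 1 = N * b := by exact_mod_cast h2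
  have e3 : γ.1 1 0 = N * c := by exact_mod_cast h3
  have e4 := ar_SL_det γ
  have e5 : γ.1 1 1 = 1 + N * (N * b * c - a * γ.1 1 1) := by
    change γ.1 0 0 * γ.1 1 1 - γ.1 0 1 * γ.1 1 0 = 1 at e4
    rw [e1, e2, e3] at e4
    linear_combination e4
  show γ ∈ Gamma N
  rw [Gamma_mem]
  refine ⟨?_, ?_, ?_, ?_⟩
  · rw [e1]; simp
  · rw [e2]; simp
  · rw [e3]; simp
  · rw [e5]; simp

theorem G2_ph_one {N : ℕ} (hN : 0 < N) {u : ℍ → ℂ} (hu : LevU N u) (σ : ℍ) :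
    ((Gamma N).index : ℂ) * G2 u σ (ph N) 1 = u σ := by
  rw [G2_reps hN hu σ (fun γ hγ Y => ph_left hγ Y) one_pos {1} (by simp)]
  · have : ph N 1 = 1 := if_pos ⟨0, 0, 0, 1, by simp⟩
    simp [this]
  · intro Y hY h
    exact ⟨1, ⟨by simp, Y, (ph_ne h).mem_Gam hY, mul_one _⟩, fun Z hZ => by simpa using hZ.1⟩

/-- inverse of `gb` -/
def gi (T b : ℚ) : M2 := !![1, -b / T; 0, 1 / T]

theorem gb_mul_gi {T : ℚ} (hT : T ≠ 0) (b : ℚ) : gb T b * gi T b = 1 := by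
  ext i j
  fin_cases i <;> fin_cases j <;> simp [gb, gi, hT]
  ring

theorem gi_mul_gb {T : ℚ} (hT : T ≠ 0) (b : ℚ) : gi T b * gb T b = 1 := by
  ext i j
  fin_cases i <;> fin_cases j <;> simp [gb, gi, hT]

theorem det_gb (T b : ℚ) : (gb T b).det = T := by simp [gb, Matrix.det_fin_two]

theorem mul_gi_apply (Y : M2) (T b : ℚ) : (Y * gi T b) 0 0 = Y 0 0 ∧
    (Y * gi T b) 0 1 = (Y 0 1 - b * Y 0 0) / T ∧ (Y * gi T b) 1 0 = Y 1 0 ∧
    (Y * gi T b) 1 1 = (Y 1 1 - b * Y 1 0) / T := by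
  refine ⟨?_, ?_, ?_, ?_⟩ <;> simp [gi, Matrix.mul_apply, Fin.sum_univ_two] <;> ring

theorem del_gi_iff {N T : ℕ} (hN : 0 < N) (hT : 0 < T)
    (hco : ∀ a : ℤ, IsCoprime (1 + N * a) (T : ℤ)) {n : ℤ} {Y : M2} (hY : Y.det = n * T)
    {a b c d : ℤ} (h1 : Y 0 0 = 1 + N * a) (h2 : Y 0 1 = N * b) (h3 : Y 1 0 = N * c)
    (h4 : Y 1 1 = d) (β : ℤ) :
    Del N (Y * gi T (N * β)) ↔ (T : ℤ) ∣ b - β * (1 + N * a) := by
  obtain ⟨m1, m2, m3, m4⟩ := mul_gi_apply Y T (N * β)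
  have hN' : (N : ℚ) ≠ 0 := by positivity
  have hT' : (T : ℚ) ≠ 0 := by positivity
  constructor
  · rintro ⟨a', b', c', d', -, e2, -, -⟩
    rw [m2, h1, h2, div_eq_iff hT'] at e2
    refine ⟨b', ?_⟩
    have : (b : ℚ) - β * (1 + N * a) = T * b' := by
      apply mul_left_cancel₀ hN'
      linear_combination e2
    exact_mod_cast this
  · rintro ⟨b', hb⟩
    rw [Matrix.det_fin_two, h1, h2, h3, h4] at hY
    have hY' : (1 + N * a) * d - N * b * (N * c) = n * T := by exact_mod_cast hY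
    have : (T : ℤ) ∣ (1 + N * a) * (d - N * β * (N * c)) :=
      ⟨n + N * N * c * b', by linear_combination hY' + N * N * c * hb⟩
    obtain ⟨d', hd⟩ := (hco a).symm.dvd_of_dvd_mul_left this
    have hb' : (b : ℚ) - β * (1 + N * a) = T * b' := by exact_mod_cast hb
    have hd' : (d : ℚ) - N * β * (N * c) = T * d' := by exact_mod_cast hd
    refine ⟨a, b', c, d', m1.trans h1, ?_, m3.trans h3, ?_⟩
    · rw [m2, h1, h2, div_eq_iff hT']; linear_combination N * hb'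
    · rw [m4, h3, h4, div_eq_iff hT']; linear_combination hd'

theorem Del.mul_gb {N T : ℕ} {Y : M2} (h : Del N Y) (β : ℤ) : Del N (Y * gb T (N * β)) := by
  obtain ⟨a, b, c, d, h1, h2, h3, h4⟩ := h
  refine ⟨a, (1 + N * a) * β + b * T, c, N * c * (N * β) + d * T, ?_, ?_, ?_, ?_⟩ <;>
    simp [gb, Matrix.mul_apply, Fin.sum_univ_two, h1, h2, h3, h4]
  ring

theorem exists_unique_res {T : ℕ} (hT : 0 < T) {x : ℤ} (hx : IsCoprime x (T : ℤ)) (b : ℤ) :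
    ∃ β ∈ Finset.range T, (T : ℤ) ∣ b - (β : ℤ) * x ∧
      ∀ β' ∈ Finset.range T, (T : ℤ) ∣ b - (β' : ℤ) * x → β' = β := by
  obtain ⟨r, s, hrs⟩ := id hx
  have hT' : (0 : ℤ) < T := by exact_mod_cast hT
  have h0 := Int.emod_nonneg (b * r) hT'.ne'
  have h1 := Int.emod_lt_of_pos (b * r) hT'
  have h2 := Int.emod_add_mul_ediv (b * r) T
  obtain ⟨β, hβ⟩ := Int.eq_ofNat_of_zero_le h0
  have h3 : (T : ℤ) ∣ b - (β : ℤ) * x :=
    ⟨b * s + b * r / T * x, by rw [← hβ]; linear_combination (-b) * hrs - x * h2⟩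
  refine ⟨β, Finset.mem_range.2 (by omega), h3, fun β' hβ' h4 => ?_⟩
  have h5 : (T : ℤ) ∣ x * ((β : ℤ) - β') := by
    have e : x * ((β : ℤ) - β') = b - (β' : ℤ) * x - (b - (β : ℤ) * x) := by ring
    exact e ▸ h4.sub h3
  have h6 := hx.symm.dvd_of_dvd_mul_left h5
  have h7 := Finset.mem_range.1 hβ'
  have h8 := Int.eq_zero_of_abs_lt_dvd h6 (abs_lt.2 ⟨by omega, by omega⟩)
  omega

theorem ph_decomp {N T : ℕ} (hN : 0 < N) (hT : 0 < T)
    (hco : ∀ a : ℤ, IsCoprime (1 + N * a) (T : ℤ)) {n : ℤ} {Y : M2} (hY : Y.det = n * T) :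
    ph N Y = ∑ β ∈ Finset.range T, ph N (Y * gi T (N * (β : ℤ))) := by
  have hT' : (T : ℚ) ≠ 0 := by positivity
  by_cases h : Del N Y
  · obtain ⟨a, b, c, d, h1, h2, h3, h4⟩ := id h
    obtain ⟨β, hβ, e1, e2⟩ := exists_unique_res hT (hco a) b
    rw [Finset.sum_eq_single_of_mem β hβ]
    · exact ph_congr ⟨fun _ => (del_gi_iff hN hT hco hY h1 h2 h3 h4 β).2 e1, fun _ => h⟩
    · intro β' hβ' hne
      exact if_neg fun h' => hne (e2 β' hβ' ((del_gi_iff hN hT hco hY h1 h2 h3 h4 β').1 h'))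
  · rw [ph, if_neg h, Finset.sum_eq_zero]
    intro β _
    refine if_neg fun h' => h ?_
    have := h'.mul_gb (T := T) β
    rwa [Matrix.mul_assoc, gi_mul_gb hT', Matrix.mul_one] at this

theorem G2_U {N T : ℕ} (hN : 0 < N) (hT : 0 < T)
    (hco : ∀ a : ℤ, IsCoprime (1 + N * a) (T : ℤ)) {u : ℍ → ℂ} (hu : HasLev u) (σ : ℍ) (n : ℤ) :
    G2 u σ (ph N) (n * T) =
      ∑ β ∈ Finset.range T, G2 u (act (gb T (N * (β : ℤ))) σ) (ph N) n := by
  have hT' : (T : ℚ) ≠ 0 := by positivity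
  have hsb : ∀ b : ℚ, SB fun Y => ph N (Y * gi T b) := fun b =>
    ((lev_ph N).sb hN).comp_inj (LinearMap.mulRight ℚ (gi T b)) fun Y Z h => by
      have := congrArg (· * gb T b) h
      simpa [Matrix.mul_assoc, gi_mul_gb hT'] using this
  rw [G2_congr σ (ψ := ∑ β ∈ Finset.range T, fun Y => ph N (Y * gi T (N * (β : ℤ))))
    (fun Y hY => by rw [ph_decomp hN hT hco hY, Finset.sum_apply]),
    G2_sum hu σ _ _ fun β _ => hsb _]
  refine Finset.sum_congr rfl fun β _ => ?_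
  have hd : (gb T (N * (β : ℤ))).det ≠ 0 := by rw [det_gb]; exact hT'
  have h1 := G2_right (u := u) σ (fun Y => ph N (Y * gi T (N * (β : ℤ)))) (toG (gb T (N * (β : ℤ))))
    (by rw [toG_val hd, det_gb]; positivity) n
  rw [toG_val hd, det_gb] at h1
  rw [← h1]
  simp only [Matrix.mul_assoc, gb_mul_gi hT', Matrix.mul_one]
  rfl

/-! ### the eigenvalue of `U` on cusp forms -/

theorem coe_gb {T : ℚ} (hT : 0 < T) (b : ℚ) (τ : ℍ) : (act (gb T b) τ : ℂ) = (τ + b) / T := by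
  rw [coe_act (by rw [det_gb]; exact hT)]; simp [gb]

theorem im_gb {T : ℚ} (hT : 0 < T) (b : ℚ) (τ : ℍ) : (act (gb T b) τ).im = τ.im / T := by
  rw [← coe_im, coe_gb hT, ← Complex.ofReal_ratCast T, Complex.div_ofReal_im]; simp

theorem geom_eq {T : ℕ} {m : ℚ} (h : IsInt ((T : ℚ) * m)) (h' : ¬ IsInt m) :
    ∑ b ∈ Finset.range T, eq (m * b) = 0 := by
  have h1 : ∀ b : ℕ, eq (m * b) = eq m ^ b := fun b => by
    rw [eq, eq, ← e_nat_mul]; congr 1; push_cast; ring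
  have h2 := geom_sum_mul (eq m) T
  rw [← h1 T, mul_comm m, (eq_eq_one_iff _).2 h, sub_self] at h2
  simp only [h1]
  exact (mul_eq_zero.1 h2).resolve_right fun h3 => h' ((eq_eq_one_iff _).1 (sub_eq_zero.1 h3))

theorem qs_U {a : ℚ → ℂ} (hc : Conv a) (hs : ∀ m, a m ≠ 0 → IsInt m) {T : ℕ} (hT : 0 < T)
    (ha : ∀ n : ℤ, a (n * T) = T * a n) (τ : ℍ) :
    ∑ b ∈ Finset.range T, qs a (act (gb T b) τ) = (T : ℂ) ^ 2 * qs a τ := by
  have hT' : (T : ℚ) ≠ 0 := by positivity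
  have hT'' : (T : ℂ) ≠ 0 := by exact_mod_cast hT.ne'
  simp only [qs]
  rw [← Summable.tsum_finsetSum fun b _ => (hc _).of_norm, ← tsum_mul_left,
    ← (Equiv.mulRight₀ (T : ℚ) hT').tsum_eq]
  refine tsum_congr fun m => ?_
  have h1 : ∀ b : ℕ, e (((m * T : ℚ) : ℂ) * (act (gb T b) τ : ℍ)) = eq (m * b) * e (m * τ) := by
    intro b
    rw [coe_gb (by exact_mod_cast hT), eq, ← e_add]
    congr 1
    push_cast
    field_simp
    ring
  simp only [Equiv.mulRight₀_apply, h1]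
  rw [← Finset.mul_sum, ← Finset.sum_mul]
  by_cases hm : IsInt m
  · obtain ⟨n, rfl⟩ := (isInt_rat _).1 hm
    have h2 : ∀ b : ℕ, eq ((n : ℚ) * b) = 1 := fun b => by exact_mod_cast eq_int (n * b)
    simp only [h2, ha]
    simp
    ring
  · have h2 : a m = 0 := by_contra fun h => hm (hs m h)
    by_cases h3 : a (m * T) = 0
    · simp [h2, h3]
    · rw [geom_eq (mul_comm m _ ▸ hs _ h3) hm, h2]; simp

theorem cusp_U {L T : ℕ} (hL : 0 < L) (hT : 1 < T) {f : ℍ → ℂ} (hf : Cusp L f)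
    (h : ∀ τ, ∑ b ∈ Finset.range T, f (act (gb T b) τ) = (T : ℂ) ^ 2 * f τ) : f = 0 := by
  obtain ⟨z0, hz⟩ := hf.exists_max hL
  set m := z0.im * ‖f z0‖ with hm
  have hT0 : (0 : ℚ) < T := by positivity
  have hT1 : (1 : ℝ) < T := by exact_mod_cast hT
  have step : ∀ z : ℍ, m ≤ z.im * ‖f z‖ → m ≤ (act (gb T 0) z).im * ‖f (act (gb T 0) z)‖ := by
    intro z h1
    obtain ⟨T', rfl⟩ : ∃ T', T = T' + 1 := ⟨T - 1, by omega⟩
    have h2 := norm_sum_le (Finset.range (T' + 1)) fun b => f (act (gb (T' + 1 : ℕ) b) z)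
    rw [h, norm_mul, norm_pow, Complex.norm_natCast] at h2
    have hp : 0 < z.im / ((T' + 1 : ℕ) : ℝ) := div_pos z.im_pos (by positivity)
    have h3 := mul_le_mul_of_nonneg_left h2 hp.le
    rw [Finset.mul_sum, Finset.sum_range_succ'] at h3
    have h4 : ∑ b ∈ Finset.range T', z.im / ((T' + 1 : ℕ) : ℝ) *
        ‖f (act (gb (T' + 1 : ℕ) (b + 1 : ℕ)) z)‖ ≤ ∑ _b ∈ Finset.range T', m :=
      Finset.sum_le_sum fun b _ => by
        have := hz (act (gb (T' + 1 : ℕ) (b + 1 : ℕ)) z)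
        rwa [im_gb hT0, Rat.cast_natCast] at this
    rw [Finset.sum_const, Finset.card_range, nsmul_eq_mul] at h4
    have h5 : z.im / ((T' + 1 : ℕ) : ℝ) * (((T' + 1 : ℕ) : ℝ) ^ 2 * ‖f z‖) =
        (T' + 1) * (z.im * ‖f z‖) := by
      push_cast; field_simp
    have h6 : ((T' : ℝ) + 1) * m ≤ (T' + 1) * (z.im * ‖f z‖) :=
      mul_le_mul_of_nonneg_left h1 (by positivity)
    rw [im_gb hT0, Rat.cast_natCast]
    rw [Nat.cast_zero] at h3
    linarith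
  have iter : ∀ k : ℕ, ∃ w : ℍ, w.im = (T : ℝ) ^ k * (ModularGroup.S⁻¹ • z0).im ∧
      m ≤ (ModularGroup.S • w).im * ‖f (ModularGroup.S • w)‖ := by
    intro k
    induction k with
    | zero => exact ⟨ModularGroup.S⁻¹ • z0, by simp, by rw [smul_inv_smul]⟩
    | succ k ih =>
      obtain ⟨w, h1, h2⟩ := ih
      refine ⟨dil T w, ?_, ?_⟩
      · rw [← coe_im, coe_dil hT0, ← Complex.ofReal_ratCast, Complex.im_ofReal_mul, coe_im, h1,
          Rat.cast_natCast]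
        ring
      · have : ModularGroup.S • dil T w = act (gb T 0) (ModularGroup.S • w) := by
          apply UpperHalfPlane.ext
          rw [coe_S, coe_dil hT0, coe_gb hT0, coe_S]
          simp [div_div, mul_comm]
        rw [this]
        exact step _ h2
  obtain ⟨C, c, hc, hd⟩ := hf.2.2 ModularGroup.S
  have hy := (ModularGroup.S⁻¹ • z0).im_pos
  set y := (ModularGroup.S⁻¹ • z0).im
  have t1 : Tendsto (fun k : ℕ => (T : ℝ) ^ k * y) atTop atTop :=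
    (tendsto_pow_atTop_atTop_of_one_lt hT1).atTop_mul_const hy
  have t2 : Tendsto (fun x : ℝ => C / c * ((c * x) ^ 1 * Real.exp (-(c * x)))) atTop
      (𝓝 (C / c * 0)) :=
    ((Real.tendsto_pow_mul_exp_neg_atTop_nhds_zero 1).comp
      (tendsto_id.const_mul_atTop hc)).const_mul _
  have h0 : m ≤ C / c * 0 := by
    refine ge_of_tendsto (t2.comp t1) ?_
    filter_upwards [t1.eventually_ge_atTop (1 / 2)] with k hk
    obtain ⟨w, h1, h2⟩ := iter k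
    have h3 := hd w (h1 ▸ hk)
    rw [sl, norm_mul, norm_zpow, zpow_neg, zpow_ofNat] at h3
    rw [im_SL, div_mul_eq_mul_div, mul_div_assoc, div_eq_mul_inv] at h2
    refine h2.trans ((mul_le_mul_of_nonneg_left h3 w.im_pos.le).trans_eq ?_)
    simp only [Function.comp, ← h1, neg_mul]
    field_simp
  funext τ
  have h1 := (hz τ).trans h0
  rw [mul_zero] at h1
  exact norm_le_zero_iff.1 (nonpos_of_mul_nonpos_right h1 τ.im_pos)

theorem lam_sum (hadd : ∀ u u', Rec u → Rec u' → Λ (u + u') = Λ u + Λ u')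
    (hsm : ∀ (c : ℂ) u, Rec u → Λ (c • u) = c * Λ u) {ι : Type} (t : Finset ι) (f : ι → ℍ → ℂ)
    (h : ∀ i, Rec (f i)) : Λ (∑ i ∈ t, f i) = ∑ i ∈ t, Λ (f i) := by
  classical
  induction t using Finset.induction_on with
  | empty => simpa using hsm 0 0 rec_zero
  | insert i t hi ih =>
    rw [Finset.sum_insert hi, Finset.sum_insert hi, hadd _ _ (h i) (Rec.sum t f fun j _ => h j), ih]

end G2FP

open G2FP in
theorem cuspS : S_G2full → S_HL → S_Cusp := by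
  rintro hG hH Λ hadd hsm ⟨M, hM0, hM⟩ ⟨q, N, hq, hN, hn⟩ u hu
  obtain ⟨K, hK, huK⟩ := hu.1
  obtain ⟨k, hk, hpv⟩ := pv_gb hM0 hq hN hM hn
  set T := q ^ k with hT
  have hT1 : 1 < T := Nat.one_lt_pow hk.ne' hq.one_lt
  set L := q * N * K with hL
  have hL0 : 0 < L := Nat.mul_pos (Nat.mul_pos hq.pos hN) hK
  have hco : ∀ a : ℤ, IsCoprime (1 + L * a) (T : ℤ) := fun a => by
    rw [hT, Nat.cast_pow]
    exact IsCoprime.pow_right ⟨1, -(N * K * a), by rw [hL]; push_cast; ring⟩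
  have hsb : SB (ph L) := (lev_ph L).sb hL0
  set a : ℚ → ℂ := fun n => Λ fun σ => G2 u σ (ph L) n with ha
  have hU : ∀ n : ℤ, a (n * T) = T * a n := by
    intro n
    have h1 : (fun σ => G2 u σ (ph L) (n * T)) = ∑ β ∈ Finset.range T,
        fun σ => G2 u (act (gb T (L * (β : ℤ))) σ) (ph L) n := by
      funext σ
      rw [G2_U hL0 (by omega) hco hu.hasLev, Finset.sum_apply]
    have h2 : ∀ β : ℕ, Pv Λ (gb T (L * (β : ℤ))) := fun β => by
      convert hpv (q * K * β) using 2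
      rw [hL]; push_cast; ring
    have h3 : Rec fun σ => G2 u σ (ph L) n := hu.rec_G2 hsb n
    have h4 : ∀ β : ℕ, Rec fun σ => G2 u (act (gb T (L * (β : ℤ))) σ) (ph L) n := fun β =>
      h3.comp_act (toG _) (by rw [toG_val (h2 β).1.ne']; exact (h2 β).1)
    simp only [ha]
    rw [h1, lam_sum hadd hsm _ _ h4, Finset.sum_congr rfl fun β _ => (h2 β).2 _ h3]
    simp
  obtain ⟨r, u0, σ0, S, c, hu0, hc⟩ := hH K hK (ph L) hsb
  have hw : ∀ i, Rec (∑ j ∈ S, c i j • fun σ => G2 u σ (ph L) j) := fun i =>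
    Rec.sum _ _ fun j _ => (hu.rec_G2 hsb j).smul _
  have hexp : a = ∑ i, Λ (∑ j ∈ S, c i j • fun σ => G2 u σ (ph L) j) •
      G2 (u0 i) (σ0 i) (ph L) := by
    funext n
    have h1 : (fun σ => G2 u σ (ph L) n) = ∑ i, G2 (u0 i) (σ0 i) (ph L) n •
        ∑ j ∈ S, c i j • fun σ => G2 u σ (ph L) j := by
      funext σ
      rw [hc u hu huK σ n]
      simp
    simp only [ha]
    rw [h1, lam_sum hadd hsm _ _ fun i => (hw i).smul _, Finset.sum_apply]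
    exact Finset.sum_congr rfl fun i _ => by rw [hsm _ _ (hw i), mul_comm]; rfl
  have hW : a ∈ WW (L ^ 2) :=
    hexp ▸ Submodule.sum_mem _ fun i _ => Submodule.smul_mem _ _ (mem_WW hG (hu0 i) _ hL0 (lev_ph L))
  have hs : ∀ m, a m ≠ 0 → IsInt m := by
    intro m hm
    rw [hexp, Finset.sum_apply] at hm
    obtain ⟨i, -, hi⟩ := Finset.exists_ne_zero_of_sum_ne_zero hm
    obtain ⟨-, Y, hY, h1⟩ := G2_supp (right_ne_zero_of_mul hi)
    obtain ⟨Z, rfl⟩ := (isInt_M2 _).1 (ph_ne h1).isInt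
    exact (isInt_rat _).2 ⟨_, by rw [← hY, castZ_det]⟩
  have h0 := cusp_U (pow_pos hL0 2) hT1 hW.2.2 (qs_U hW.1 hs (by omega) hU)
  have h1 := congrFun (eq_zero_of_qs (pow_pos hL0 2) hW.1 hW.2.1 h0) 1
  have h2 : u = ((Gamma L).index : ℂ) • fun σ => G2 u σ (ph L) 1 := by
    funext σ
    exact (G2_ph_one hL0 (huK.mono (dvd_mul_left K _)) σ).symm
  rw [h2, hsm _ _ (hu.rec_G2 hsb 1)]
  exact mul_eq_zero_of_right _ h1

end

end Pool.Agent.P.MP_b8021b_nt.CM
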