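import Pool.Agent.P.MP_b8021b_nt.CM.GZS0

/-! Package P26, second part: the Mellin transform of the mean of `GZ`. -/

namespace Pool.Agent.P.MP_b8021b_nt.CM

open Complex hiding Gamma
open UpperHalfPlane hiding I
open MeasureTheory CongruenceSubgroup Filter
open scoped Real MatrixGroups ModularForm Topology ComplexConjugate Modular ENNReal

noncomputable section

namespace GZSP

variable {d M : ℕ} {C : ℝ} {b : Q2 × Q2 → ℂ}

/-! ### the archimedean integral -/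

theorem lint_gam {p q k : ℝ} (hp : 0 < p) (hq : -1 < q) (hk : 0 < k) :
    ∫⁻ x in Set.Ioi (0 : ℝ), ENNReal.ofReal (x ^ q * Real.exp (-k * x ^ p)) =
      ENNReal.ofReal (k ^ (-(q + 1) / p) * (1 / p) * Real.Gamma ((q + 1) / p)) := by
  rw [← integral_rpow_mul_exp_neg_mul_rpow hp hq hk, ofReal_integral_eq_lintegral_ofReal
    (integrableOn_rpow_mul_exp_neg_mul_rpow hq hp hk)]
  refine (ae_restrict_mem measurableSet_Ioi).mono fun x hx => ?_
  have : 0 < x := hx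
  positivity

theorem lint_exp {t k : ℝ} (ht : 0 < t) (hk : 0 < k) :
    ∫⁻ σ : ℝ, ENNReal.ofReal (Real.exp (σ / 2) ^ t * Real.exp (-k * Real.exp (σ / 2))) =
      ENNReal.ofReal (2 * (k ^ (-t) * Real.Gamma t)) := by
  have h1 := lintegral_image_eq_lintegral_abs_deriv_mul (s := Set.univ)
    (f := fun σ : ℝ => Real.exp (σ / 2)) (f' := fun σ : ℝ => Real.exp (σ / 2) * (1 / 2))
    MeasurableSet.univ (fun σ _ => ((hasDerivAt_id σ).div_const 2).exp.hasDerivWithinAt)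
    (fun a _ c _ h => by have := Real.exp_injective h; linarith)
    fun x => ENNReal.ofReal 2 * ENNReal.ofReal (x ^ (t - 1) * Real.exp (-k * x ^ (1 : ℝ)))
  have h2 : (fun σ : ℝ => Real.exp (σ / 2)) '' Set.univ = Set.Ioi 0 := by
    ext x
    refine ⟨by rintro ⟨σ, -, rfl⟩; exact Real.exp_pos _, fun hx => ⟨2 * Real.log x, trivial, ?_⟩⟩
    simp only [mul_div_cancel_left₀ _ (two_ne_zero' ℝ)]
    exact Real.exp_log hx
  rw [h2, lintegral_const_mul' _ _ ENNReal.ofReal_ne_top, lint_gam one_pos (by linarith) hk,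
    Measure.restrict_univ, ← ENNReal.ofReal_mul zero_le_two] at h1
  simp only [sub_add_cancel, div_one, mul_one] at h1
  rw [h1]
  refine lintegral_congr fun σ => ?_
  have h0 := Real.exp_pos (σ / 2)
  rw [← ENNReal.ofReal_mul zero_le_two, ← ENNReal.ofReal_mul (abs_nonneg _), abs_of_pos
    (by positivity), Real.rpow_one, Real.rpow_sub_one h0.ne']
  congr 1
  field_simp

/-- the integrand after the integration over the real part -/
def HH (t j k ρ y : ℝ) : ℝ := ρ ^ t * (Real.sqrt (π / (4 * π * (ρ / y) * j)) *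
  Real.exp (-4 * π * j * (ρ * y + ρ / y * k)) * (1 / y ^ 2))

theorem measurable_HH (t j k : ℝ) : Measurable fun p : ℝ × ℝ => HH t j k p.1 p.2 := by
  unfold HH
  fun_prop

theorem measurable_EX (d : ℕ) (ρ : ℝ) (X : Q2 × Q2) : Measurable (EX d ρ X) :=
  ((continuous_EX d X).comp (Continuous.prodMk_right ρ)).measurable

theorem lint_z (hd : 0 < d) {x : Q2} (hx : x ≠ 0) (a l : ℚ) (t : ℝ) {ρ : ℝ} (hρ : 0 < ρ) :
    ENNReal.ofReal (ρ ^ t) * ∫⁻ z : ℍ, ENNReal.ofReal (EX d ρ (a • x + l • perp d x, x) z) =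
      ∫⁻ y in Set.Ioi (0 : ℝ), ENNReal.ofReal (HH t (Nm d x) (d * l ^ 2) ρ y) := by
  have hj : (0 : ℝ) < Nm d x := by exact_mod_cast Nm_pos hd hx
  rw [lintegral_coord (measurable_EX d ρ _).ennreal_ofReal, ← lintegral_const_mul' _ _ ENNReal.ofReal_ne_top]
  refine setLIntegral_congr_fun measurableSet_Ioi fun y hy => ?_
  have hy' : 0 < y := hy
  obtain ⟨g1, g2⟩ := integral_gauss (c := 4 * π * (ρ / y) * Nm d x) (by positivity)
  simp only [EX_co d ρ x a l _ hy']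
  rw [← ofReal_integral_eq_lintegral_ofReal ((g1.comp_add_left a).mul_const _)
    (Eventually.of_forall fun u => by positivity), integral_mul_const,
    integral_add_left_eq_self (fun u : ℝ => Real.exp (-(4 * π * (ρ / y) * Nm d x) * u ^ 2)), g2,
    ← ENNReal.ofReal_mul (by positivity), ← ENNReal.ofReal_mul (by positivity), HH, mul_assoc (ρ / y)]

theorem HH_scale (t j k : ℝ) {A y : ℝ} (hA : 0 < A) (hy : 0 < y) : HH t j k (A * y) y =
    A ^ t * Real.sqrt (π / (4 * π * A * j)) * Real.exp (-(4 * π * j * k) * A) *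
      (y ^ (t - 2) * Real.exp (-(4 * π * j * A) * y ^ (2 : ℝ))) := by
  rw [HH, mul_div_cancel_right₀ _ hy.ne', Real.mul_rpow hA.le hy.le, Real.rpow_sub hy,
    Real.rpow_two]
  have : Real.exp (-4 * π * j * (A * y * y + A * k)) =
      Real.exp (-(4 * π * j * k) * A) * Real.exp (-(4 * π * j * A) * y ^ 2) := by
    rw [← Real.exp_add]; congr 1; ring
  rw [this]; ring

def Gr (d : ℕ) (t : ℝ) : ℝ := 1 / 2 * Real.Gamma ((t - 1) / 2) * Real.Gamma (t / 2) *
  (4 * π) ^ (-(t - 1) / 2) * (4 * π * d) ^ (-(t / 2))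

theorem lint_HH {t j k : ℝ} (ht : 1 < t) (hj : 0 < j) (hk : 0 < k) :
    ∫⁻ σ : ℝ, ∫⁻ y in Set.Ioi (0 : ℝ), ENNReal.ofReal (HH t j k (Real.exp (σ / 2)) y) =
      ENNReal.ofReal (1 / 2 * Real.Gamma ((t - 1) / 2) * Real.Gamma (t / 2) *
        (4 * π) ^ (-(t - 1) / 2) * ((4 * π * k) ^ (-(t / 2)) * j ^ (-t))) := by
  have m1 : Measurable fun p : ℝ × ℝ => ENNReal.ofReal (HH t j k (Real.exp (p.1 / 2)) p.2) :=
    ((measurable_HH t j k).comp (f := fun p : ℝ × ℝ => (Real.exp (p.1 / 2), p.2))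
      (by fun_prop)).ennreal_ofReal
  have m2 : Measurable fun p : ℝ × ℝ =>
      ENNReal.ofReal (HH t j k (Real.exp (p.2 / 2) * p.1) p.1) :=
    ((measurable_HH t j k).comp (f := fun p : ℝ × ℝ => (Real.exp (p.2 / 2) * p.1, p.1))
      (by fun_prop)).ennreal_ofReal
  have hG := Real.Gamma_pos_of_pos (s := (t - 1) / 2) (by linarith)
  rw [lintegral_lintegral_swap m1.aemeasurable, setLIntegral_congr_fun measurableSet_Ioi
    (g := fun y => ∫⁻ σ : ℝ, ENNReal.ofReal (HH t j k (Real.exp (σ / 2) * y) y)) fun y hy => ?_,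
    lintegral_lintegral_swap m2.aemeasurable]
  · have e : ∀ σ : ℝ, ∫⁻ y in Set.Ioi (0 : ℝ),
        ENNReal.ofReal (HH t j k (Real.exp (σ / 2) * y) y) =
        ENNReal.ofReal (1 / 4 * Real.Gamma ((t - 1) / 2) * (4 * π) ^ (-(t - 1) / 2) *
          j ^ (-(t / 2))) * ENNReal.ofReal (Real.exp (σ / 2) ^ (t / 2) *
          Real.exp (-(4 * π * j * k) * Real.exp (σ / 2))) := fun σ => by
      have hA := Real.exp_pos (σ / 2)
      generalize Real.exp (σ / 2) = A at hA ⊢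
      rw [setLIntegral_congr_fun measurableSet_Ioi fun y hy => by
        rw [HH_scale t j k hA hy, ENNReal.ofReal_mul (by positivity)],
        lintegral_const_mul' _ _ ENNReal.ofReal_ne_top, lint_gam two_pos (by linarith)
        (by positivity), ← ENNReal.ofReal_mul (by positivity),
        ← ENNReal.ofReal_mul (by positivity)]
      congr 1
      have e1 : t - 2 + 1 = t - 1 := by ring
      have e2 : Real.sqrt (π / (4 * π * A * j)) = 1 / 2 * (A ^ (-(1 / 2) : ℝ) *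
          j ^ (-(1 / 2) : ℝ)) := by
        have e3 : π / (4 * π * A * j) = (1 / 2) ^ 2 * (A * j)⁻¹ := by field_simp; ring
        rw [e3, Real.sqrt_mul (by positivity), Real.sqrt_sq (by positivity), Real.sqrt_inv,
          Real.sqrt_eq_rpow, ← Real.rpow_neg (by positivity), Real.mul_rpow hA.le hj.le]
      have e4 : A ^ (t / 2) = A ^ t * A ^ (-(1 / 2) : ℝ) * A ^ (-(t - 1) / 2) := by
        rw [← Real.rpow_add hA, ← Real.rpow_add hA]; congr 1; ring
      have e5 : j ^ (-(t / 2)) = j ^ (-(1 / 2) : ℝ) * j ^ (-(t - 1) / 2) := by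
        rw [← Real.rpow_add hj]; congr 1; ring
      rw [e1, e2, e4, e5, Real.mul_rpow (by positivity) hA.le, Real.mul_rpow (by positivity) hj.le]
      ring
    simp only [e]
    rw [lintegral_const_mul' _ _ ENNReal.ofReal_ne_top, lint_exp (by linarith) (by positivity),
      ← ENNReal.ofReal_mul (by positivity)]
    congr 1
    have e5 : j ^ (-t) = j ^ (-(t / 2)) * j ^ (-(t / 2)) := by
      rw [← Real.rpow_add hj]; congr 1; ring
    rw [e5, mul_right_comm (4 * π), Real.mul_rpow (by positivity) hj.le]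
    ring
  · have hy' : 0 < y := hy
    simp only
    rw [← lintegral_add_right_eq_self _ (2 * Real.log y)]
    refine lintegral_congr fun σ => ?_
    rw [add_div, Real.exp_add, mul_div_cancel_left₀ _ (two_ne_zero' ℝ), Real.exp_log hy']

theorem lint_all (hd : 0 < d) {X : Q2 × Q2} (hX : det2 X ≠ 0) {t : ℝ} (ht : 1 < t) :
    ∫⁻ σ : ℝ, ENNReal.ofReal (Real.exp (σ / 2) ^ t) *
      ∫⁻ z : ℍ, ENNReal.ofReal (EX d (Real.exp (σ / 2)) X z) =
      ENNReal.ofReal (Gr d t * |(det2 X : ℝ)| ^ (-t)) := by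
  obtain ⟨x', x⟩ := X
  have hx : x ≠ 0 := snd_ne hX
  obtain ⟨a, l, rfl⟩ := exists_co hd hx x'
  have hj : (0 : ℝ) < Nm d x := by exact_mod_cast Nm_pos hd hx
  have hd' : (0 : ℝ) < d := by exact_mod_cast hd
  rw [(Nm_comb d x a l).2.2] at hX ⊢
  have hl : (0 : ℝ) < |(l : ℝ)| := by
    rw [abs_pos]; intro h
    exact hX (by simp [show l = 0 by exact_mod_cast h])
  simp only [lint_z hd hx a l t (Real.exp_pos _)]
  rw [lint_HH ht hj (by rw [← sq_abs]; positivity), Gr]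
  congr 1
  have e : (|(l : ℝ)| ^ 2) ^ (-(t / 2)) = |(l : ℝ)| ^ (-t) := by
    rw [← Real.rpow_two, ← Real.rpow_mul hl.le]; congr 1; ring
  push_cast
  rw [abs_neg, abs_mul, abs_of_pos hj, Real.mul_rpow hl.le hj.le, ← mul_assoc (4 * π), ← sq_abs,
    Real.mul_rpow (x := 4 * π * d) (by positivity) (by positivity), e]
  ring

/-! ### orbits -/

theorem kp_free {X : Q2 × Q2} (h : det2 X ≠ 0) {γ : SL} (e : kp γ X = X) : γ = 1 := by
  obtain ⟨e1, e2⟩ := Prod.ext_iff.1 e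
  obtain ⟨a1, a2⟩ := Prod.ext_iff.1 e1
  obtain ⟨a3, a4⟩ := Prod.ext_iff.1 e2
  simp only [kp, Prod.fst_add, Prod.snd_add, Prod.smul_fst, Prod.smul_snd] at a1 a2 a3 a4
  simp only [zsmul_eq_mul] at a1 a2 a3 a4
  have k : ∀ m n : ℤ, (m : ℚ) * det2 X = n * det2 X → m = n := fun m n hm => by
    exact_mod_cast mul_right_cancel₀ h hm
  have b1 : γ 1 1 = 1 := k _ _ (by
    simp only [det2]; push_cast; linear_combination X.2.2 * a1 - X.2.1 * a2)
  have b2 : γ 0 1 = 0 := k _ _ (by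
    simp only [det2]; push_cast; linear_combination X.1.1 * a2 - X.1.2 * a1)
  have b3 : γ 1 0 = 0 := k _ _ (by
    simp only [det2]; push_cast; linear_combination X.2.2 * a3 - X.2.1 * a4)
  have b4 : γ 0 0 = 1 := k _ _ (by
    simp only [det2]; push_cast; linear_combination X.1.1 * a4 - X.1.2 * a3)
  ext i j
  fin_cases i <;> fin_cases j <;> simp [b1, b2, b3, b4]

theorem exists_red (hM : 0 < M) {X : Q2 × Q2} (h1 : IsInt ((M : ℚ) • X.1))
    (h2 : IsInt ((M : ℚ) • X.2)) (h : det2 X ≠ 0) :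
    ∃ Y, n1 Y ≤ 14 * M * |(det2 Y : ℝ)| ∧ ∃ γ, kp γ Y = X := by
  obtain ⟨x', x⟩ := X
  have hx : x ≠ 0 := snd_ne h
  obtain ⟨a, l, rfl⟩ := exists_co one_pos hx x'
  obtain ⟨e1, e2, e3⟩ := Nm_comb 1 x a l
  have hj : (0 : ℝ) < Nm 1 x := by exact_mod_cast Nm_pos one_pos hx
  have hl : (0 : ℝ) < |(l : ℝ)| := by
    rw [abs_pos]; intro h0
    exact h (by rw [e3]; simp [show l = 0 by exact_mod_cast h0])
  set X : Q2 × Q2 := (a • x + l • perp 1 x, x) with hX
  have e4 : QQ 1 X (pt (-a) |(l : ℝ)|) = 2 * |(det2 X : ℝ)| := by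
    rw [QQ_Nm, norm_sq_H, re_pt _ hl, im_pt _ hl, e3, div_eq_iff hl.ne']
    simp only [hX, e1, e2]
    push_cast
    rw [abs_neg, abs_mul, abs_of_pos hj, ← sq_abs (l : ℝ)]
    ring
  obtain ⟨γ, hγ⟩ := ModularGroup.exists_smul_mem_fd (pt (-a) |(l : ℝ)|)
  have e5 : kp γ (kp γ⁻¹ X) = X := by rw [← kp_mul, inv_mul_cancel, kp_one]
  refine ⟨kp γ⁻¹ X, ?_, γ, e5⟩
  have h3 := n1_le (A := 1 / 2) one_pos hM one_half_pos one_half_pos.le
    (snd_ne (X := kp γ⁻¹ X) (by rwa [det2_kp])) (isInt_kp h1 h2 γ⁻¹).2 (im_fd hγ) hγ.2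
  rw [QQ_smul, e5, e4] at h3
  rw [det2_kp]
  refine h3.trans_eq ?_
  ring

theorem exists_reps (h : Cf M C b) (hM : 0 < M) (hi : ∀ γ X, b (kp γ X) = b X) :
    ∃ R : Set (Q2 × Q2), (∀ Y ∈ R, b Y ≠ 0 ∧ n1 Y ≤ 14 * M * |(det2 Y : ℝ)|) ∧
      ∀ X, b X ≠ 0 → ∃! Y, Y ∈ R ∧ ∃ γ, kp γ Y = X := by
  let P : Q2 × Q2 → Q2 × Q2 → Prop := fun X Y =>
    n1 Y ≤ 14 * M * |(det2 Y : ℝ)| ∧ ∃ γ, kp γ Y = X
  let rep : Q2 × Q2 → Q2 × Q2 := fun X => Classical.epsilon (P X)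
  have h1 : ∀ X, b X ≠ 0 → P X (rep X) := fun X hX => by
    obtain ⟨a1, a2, a3⟩ := h.supp X hX
    exact Classical.epsilon_spec (exists_red hM a1 a2 a3)
  have h2 : ∀ γ X, rep (kp γ X) = rep X := fun γ X => by
    have : P (kp γ X) = P X := by
      funext Y
      refine propext (and_congr_right fun _ => ⟨fun ⟨δ, e⟩ => ⟨δ * γ⁻¹, ?_⟩,
        fun ⟨δ, e⟩ => ⟨δ * γ, ?_⟩⟩)
      · rw [kp_mul, e, ← kp_mul, mul_inv_cancel, kp_one]
      · rw [kp_mul, e]
    simp only [rep, this]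
  refine ⟨{Y | b Y ≠ 0 ∧ rep Y = Y}, fun Y hY => ⟨hY.1, ?_⟩, fun X hX => ?_⟩
  · have := (h1 Y hY.1).1
    rwa [hY.2] at this
  · obtain ⟨-, γ, e⟩ := h1 X hX
    refine ⟨rep X, ⟨⟨by rwa [← hi γ, e], by rw [← h2 γ, e]⟩, γ, e⟩, ?_⟩
    rintro Y ⟨hY, δ, rfl⟩
    rw [h2, hY.2]

/-- the Dirichlet series over reduced representatives converges -/
theorem red_bound (hM : 0 < M) {t : ℝ} (ht : 16 ≤ t) : ∃ K : ℝ, ∀ Y : Q2 × Q2,
    IsInt ((M : ℚ) • Y.1) → IsInt ((M : ℚ) • Y.2) → 1 ≤ |(det2 Y : ℝ)| →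
    n1 Y ≤ 14 * M * |(det2 Y : ℝ)| →
    (1 + |(det2 Y : ℝ)|) ^ 8 * |(det2 Y : ℝ)| ^ (-t) ≤ K * maj M Y := by
  refine ⟨2 ^ 8 * (1 + 14 * M) ^ 8, fun Y h1 h2 h3 h4 => ?_⟩
  refine le_trans ?_ (mul_le_mul_of_nonneg_left (le_maj h1 h2) (by positivity))
  have h0 := n1_nonneg Y
  generalize |(det2 Y : ℝ)| = n at h3 h4 ⊢
  have h5 : n ^ (-t) ≤ (n ^ 16)⁻¹ := by
    rw [← Real.rpow_natCast, ← Real.rpow_neg (by positivity)]
    exact Real.rpow_le_rpow_of_exponent_le h3 (by push_cast; linarith)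
  have h6 : (1 + n) ^ 8 ≤ (2 * n) ^ 8 := by gcongr; linarith
  have h7 : (1 + n1 Y) ^ 8 ≤ ((1 + 14 * M) * n) ^ 8 := by gcongr; linarith
  calc _ ≤ (2 * n) ^ 8 * (n ^ 16)⁻¹ := by gcongr
    _ = 2 ^ 8 * (1 + 14 * M) ^ 8 * (((1 + 14 * M) * n) ^ 8)⁻¹ := by field_simp
    _ ≤ _ := by gcongr

/-! ### unfolding -/

def hX (d : ℕ) (t : ℝ) (X : Q2 × Q2) (p : ℝ × ℍ) : ℝ :=
  Real.exp (p.1 / 2) ^ t * (b0 p.2 * EX d (Real.exp (p.1 / 2)) X p.2)

theorem hX_nonneg (d : ℕ) (t : ℝ) (X : Q2 × Q2) (p : ℝ × ℍ) : 0 ≤ hX d t X p :=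
  mul_nonneg (Real.rpow_nonneg (Real.exp_pos _).le _)
    (mul_nonneg (b0_nonneg _) (EX_pos _ _ _ _).le)

theorem measurable_hX (d : ℕ) (t : ℝ) (X : Q2 × Q2) : Measurable (hX d t X) := by
  have h1 : Measurable fun p : ℝ × ℍ => EX d (Real.exp (p.1 / 2)) X p.2 :=
    ((continuous_EX d X).comp (f := fun p : ℝ × ℍ => (Real.exp (p.1 / 2), p.2))
      (by fun_prop)).measurable
  exact Measurable.mul (by fun_prop) ((measurable_b0.comp measurable_snd).mul h1)

def TT (d : ℕ) (t : ℝ) (X : Q2 × Q2) : ℝ≥0∞ :=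
  ∫⁻ p, ENNReal.ofReal (hX d t X p) ∂((volume : Measure ℝ).prod (volume : Measure ℍ))

theorem TT_sum (hd : 0 < d) {X : Q2 × Q2} (hX0 : det2 X ≠ 0) {t : ℝ} (ht : 1 < t) :
    ∑' γ : SL, TT d t (kp γ X) = ENNReal.ofReal (Gr d t * |(det2 X : ℝ)| ^ (-t)) := by
  have := countable_SL
  have m := fun γ : SL => (measurable_hX d t (kp γ X)).ennreal_ofReal
  unfold TT
  rw [← lintegral_tsum fun γ => (m γ).aemeasurable,
    lintegral_prod _ (Measurable.tsum m).aemeasurable, ← lint_all hd hX0 ht]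
  refine lintegral_congr fun σ => ?_
  rw [← unfold_lintegral (measurable_EX d _ X).ennreal_ofReal,
    ← lintegral_const_mul' _ _ ENNReal.ofReal_ne_top]
  refine lintegral_congr fun z => ?_
  rw [← ENNReal.tsum_mul_left, ← ENNReal.tsum_mul_left]
  refine tsum_congr fun γ => ?_
  rw [hX, ENNReal.ofReal_mul (by positivity), ENNReal.ofReal_mul (b0_nonneg _), EX_smul]

theorem Gr_pos (hd : 0 < d) {t : ℝ} (ht : 1 < t) : 0 < Gr d t := by
  have h1 := Real.Gamma_pos_of_pos (s := (t - 1) / 2) (by linarith)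
  have h2 := Real.Gamma_pos_of_pos (s := t / 2) (by linarith)
  unfold Gr
  positivity

theorem one_le_det {X : Q2 × Q2} (h : det2 X ≠ 0) (h' : IsInt (det2 X)) :
    1 ≤ |(det2 X : ℝ)| := by
  simpa using inv_le_abs_of_isInt one_pos (by simpa using h') h

theorem hasSum_reps (h : Cf M C b) (hd : 0 < d) (hM : 0 < M) (hi : ∀ γ X, b (kp γ X) = b X)
    (hz : ∀ X, b X ≠ 0 → IsInt (det2 X)) {t : ℝ} (ht : 16 ≤ t) {R : Set (Q2 × Q2)}
    (hR : ∀ Y ∈ R, b Y ≠ 0 ∧ n1 Y ≤ 14 * M * |(det2 Y : ℝ)|)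
    (hu : ∀ X, b X ≠ 0 → ∃! Y, Y ∈ R ∧ ∃ γ, kp γ Y = X) :
    HasSum (fun Y : R => b Y * ((Gr d t * |(det2 Y.1 : ℝ)| ^ (-t) : ℝ) : ℂ))
      (∫ σ : ℝ, ((Real.exp (σ / 2) ^ t : ℝ) : ℂ) *
        ∫ z : ℍ, (b0 z : ℂ) * Th d b (Real.exp (σ / 2)) z) := by
  have ht1 : 1 < t := by linarith
  have hG := Gr_pos hd ht1
  have hi1 : Function.Injective fun p : R × SL => kp p.2 p.1.1 := by
    rintro ⟨Y, γ⟩ ⟨Y', γ'⟩ (e : kp γ Y.1 = kp γ' Y'.1)
    have hY := (hR _ Y.2).1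
    obtain rfl : Y = Y' := Subtype.ext ((hu (kp γ Y.1) (by rwa [hi])).unique ⟨Y.2, γ, rfl⟩
      ⟨Y'.2, γ', e.symm⟩)
    have : γ * γ'⁻¹ = 1 := kp_free (h.supp _ hY).2.2
      (by rw [kp_mul, e, ← kp_mul, mul_inv_cancel, kp_one])
    rw [mul_inv_eq_one.1 this]
  have hr : ∀ X, X ∉ Set.range (fun p : R × SL => kp p.2 p.1.1) → b X = 0 := fun X hX => by
    by_contra h0
    obtain ⟨Y, ⟨hY, γ, e⟩, -⟩ := hu X h0
    exact hX ⟨(⟨Y, hY⟩, γ), e⟩
  have hT : ∀ Y : R, ∑' γ : SL, TT d t (kp γ Y.1) = _ := fun Y =>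
    TT_sum hd (h.supp _ (hR _ Y.2).1).2.2 ht1
  have hfin : ∑' X, ‖b X‖ₑ * TT d t X ≠ ∞ := by
    obtain ⟨K, hK⟩ := red_bound hM ht
    rw [← hi1.tsum_eq fun X hX => by
      by_contra h0
      exact hX (by simp [hr X h0]), ENNReal.tsum_prod']
    simp only [hi, ENNReal.tsum_mul_left, hT]
    have hs := ((summable_maj hM).mul_left (C * Gr d t * |K|)).subtype R
    have h0 : ∀ Y : R, 0 ≤ C * Gr d t * |K| * maj M Y := fun Y =>
      mul_nonneg (by have := h.nn; positivity) (maj_nonneg _ _)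
    refine ne_top_of_le_ne_top ENNReal.ofReal_ne_top ((ENNReal.tsum_le_tsum fun Y => ?_).trans_eq
      (ENNReal.ofReal_tsum_of_nonneg h0 hs).symm)
    obtain ⟨a1, a2, a3⟩ := h.supp _ (hR _ Y.2).1
    rw [← ofReal_norm, ← ENNReal.ofReal_mul (norm_nonneg _)]
    refine ENNReal.ofReal_le_ofReal ?_
    have h1 := (hK Y a1 a2 (one_le_det a3 (hz _ (hR _ Y.2).1)) (hR _ Y.2).2).trans
      (mul_le_mul_of_nonneg_right (le_abs_self K) (maj_nonneg _ _))
    have := h.nn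
    calc _ ≤ C * (1 + |(det2 Y.1 : ℝ)|) ^ 8 * (Gr d t * |(det2 Y.1 : ℝ)| ^ (-t)) :=
          mul_le_mul_of_nonneg_right (h.bd _) (by positivity)
      _ = C * Gr d t * ((1 + |(det2 Y.1 : ℝ)|) ^ 8 * |(det2 Y.1 : ℝ)| ^ (-t)) := by ring
      _ ≤ C * Gr d t * (|K| * maj M Y) := by gcongr
      _ = _ := by ring
  have m : ∀ X, Measurable fun p => b X * (hX d t X p : ℂ) := fun X =>
    (Complex.measurable_ofReal.comp (measurable_hX d t X)).const_mul _
  have e1 : ∀ X, ∫⁻ p, ‖b X * (hX d t X p : ℂ)‖ₑ ∂((volume : Measure ℝ).prod (volume : Measure ℍ))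
      = ‖b X‖ₑ * TT d t X := fun X => by
    rw [TT, ← lintegral_const_mul' _ _ enorm_ne_top]
    refine lintegral_congr fun p => ?_
    rw [enorm_mul, ← ofReal_norm (hX d t X p : ℂ), Complex.norm_real,
      Real.norm_of_nonneg (hX_nonneg _ _ _ _)]
  have e2 : ∀ X, ∫ p, b X * (hX d t X p : ℂ) ∂((volume : Measure ℝ).prod (volume : Measure ℍ)) =
      b X * ((TT d t X).toReal : ℂ) := fun X => by
    rw [integral_const_mul, integral_complex_ofReal, integral_eq_lintegral_of_nonneg_ae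
      (Eventually.of_forall (hX_nonneg d t X)) (measurable_hX d t X).aestronglyMeasurable, TT]
  have hint : Integrable (fun p => ∑' X, b X * (hX d t X p : ℂ))
      ((volume : Measure ℝ).prod (volume : Measure ℍ)) := by
    refine ⟨(Measurable.tsum m).aestronglyMeasurable, ?_⟩
    refine (lintegral_mono fun p => enorm_tsum_le_tsum_enorm).trans_lt ?_
    rw [lintegral_tsum fun X => (m X).enorm.aemeasurable]
    simp only [e1]
    exact hfin.lt_top
  have e3 := integral_tsum (μ := (volume : Measure ℝ).prod (volume : Measure ℍ))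
    (fun X => (m X).aestronglyMeasurable) (by simpa only [e1] using hfin)
  simp only [e2] at e3
  have hs : Summable fun X => b X * ((TT d t X).toReal : ℂ) := by
    refine Summable.of_norm ((ENNReal.summable_toReal hfin).congr fun X => ?_)
    simp
  have e4 : ∫ σ : ℝ, ((Real.exp (σ / 2) ^ t : ℝ) : ℂ) *
      ∫ z : ℍ, (b0 z : ℂ) * Th d b (Real.exp (σ / 2)) z = ∑' X, b X * ((TT d t X).toReal : ℂ) := by
    rw [← e3, integral_prod _ hint]
    refine integral_congr_ae (Eventually.of_forall fun σ => ?_)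
    simp only
    rw [← integral_const_mul]
    refine integral_congr_ae (Eventually.of_forall fun z => ?_)
    simp only [Th, hX, ← tsum_mul_left]
    refine tsum_congr fun X => ?_
    push_cast; ring
  rw [e4]
  refine ((hi1.hasSum_iff fun X hX => by simp [hr X hX]).2 hs.hasSum).prod_fiberwise fun Y => ?_
  have h1 : ∑' γ : SL, TT d t (kp γ Y.1) ≠ ∞ := by rw [hT]; exact ENNReal.ofReal_ne_top
  have h2 := ENNReal.hasSum_toReal h1
  rw [← ENNReal.tsum_toReal_eq (ENNReal.ne_top_of_tsum_ne_top h1), hT,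
    ENNReal.toReal_ofReal (by positivity)] at h2
  simpa only [Function.comp_apply, hi] using (Complex.hasSum_ofReal.2 h2).mul_left (b Y)

/-! ### the Dirichlet series -/

open Classical in
theorem lseries (h : Cf M C b) (hM : 0 < M) (hi : ∀ γ X, b (kp γ X) = b X)
    (hz : ∀ X, b X ≠ 0 → IsInt (det2 X)) {t : ℝ} {R : Set (Q2 × Q2)}
    (hR : ∀ Y ∈ R, b Y ≠ 0 ∧ n1 Y ≤ 14 * M * |(det2 Y : ℝ)|)
    (hu : ∀ X, b X ≠ 0 → ∃! Y, Y ∈ R ∧ ∃ γ, kp γ Y = X) {a : ℂ}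
    (ha : HasSum (fun Y : R => b Y * ((|(det2 Y.1 : ℝ)| ^ (-t) : ℝ) : ℂ)) a) :
    LSeriesHasSum (fun n : ℕ => dmean kA ⊤ fun X => if |det2 X| = n then b X else 0) t a := by
  have h1 := (hasSum_subtype_iff_indicator
    (f := fun Y => b Y * ((|(det2 Y : ℝ)| ^ (-t) : ℝ) : ℂ))).1 ha
  have h2 := h1.tsum_fiberwise fun Y => (det2 Y).num.natAbs
  have hg : ∀ Y ∈ R, ∀ n : ℕ, (det2 Y).num.natAbs = n ↔ |det2 Y| = n := fun Y hY n => by
    obtain ⟨k, hk⟩ := (isInt_rat _).1 (hz Y (hR Y hY).1)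
    rw [hk, Rat.num_intCast, ← Int.cast_abs, ← Int.natCast_natAbs]
    exact_mod_cast Iff.rfl
  refine h2.congr_fun fun n => Eq.symm ?_
  have hf : {Y | Y ∈ R ∧ |det2 Y| = n}.Finite := by
    have h3 := (summable_maj hM).tendsto_cofinite_zero.eventually
      (gt_mem_nhds (show (0 : ℝ) < ((1 + 14 * M * n : ℝ) ^ 8)⁻¹ by positivity))
    refine (Filter.eventually_cofinite.1 h3).subset fun Y hY => not_lt.2 ?_
    obtain ⟨a1, a2, -⟩ := h.supp _ (hR _ hY.1).1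
    refine le_trans ?_ (le_maj a1 a2)
    have h4 := (hR _ hY.1).2
    have h5 : |(det2 Y : ℝ)| = n := by exact_mod_cast hY.2
    have := n1_nonneg Y
    rw [h5] at h4
    gcongr
  have hI : Inv kA ⊤ fun X => if |det2 X| = n then b X else 0 := fun γ _ X => by
    change (if |det2 (kp γ.unop X)| = n then b (kp γ.unop X) else 0) = _
    rw [det2_kp, hi]
  have hD := (dmean_reps (FI.refl _) hI hf.toFinset (fun X hX => ?_) fun X hX γ _ e => ?_).2
  · rw [Subgroup.relIndex_self, Nat.cast_one, div_one] at hD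
    rw [tsum_subtype, tsum_eq_sum (s := hf.toFinset) fun Y hY => ?_, LSeries.term_def, hD]
    · split_ifs with hn
      · refine Finset.sum_eq_zero fun Y hY => ?_
        obtain ⟨b1, b2⟩ := hf.mem_toFinset.1 hY
        rw [hn, Nat.cast_zero, abs_eq_zero] at b2
        exact ((h.supp _ (hR _ b1).1).2.2 b2).elim
      · rw [Finset.sum_div]
        refine Finset.sum_congr rfl fun Y hY => ?_
        obtain ⟨b1, b2⟩ := hf.mem_toFinset.1 hY
        have h5 : |(det2 Y : ℝ)| = n := by exact_mod_cast b2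
        rw [Set.indicator_of_mem (by exact (hg Y b1 n).2 b2), Set.indicator_of_mem b1, if_pos b2,
          h5, Real.rpow_neg n.cast_nonneg, Complex.ofReal_inv, Complex.ofReal_cpow n.cast_nonneg,
          div_eq_mul_inv, Complex.ofReal_natCast]
    · by_contra h0
      have b1 := Set.mem_of_indicator_ne_zero h0
      rw [Set.indicator_of_mem b1] at h0
      have b2 := Set.mem_of_indicator_ne_zero h0
      exact hY (hf.mem_toFinset.2 ⟨b2, (hg Y b2 n).1 b1⟩)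
  · have b1 : |det2 X| = n := by by_contra h0; exact hX (if_neg h0)
    rw [if_pos b1] at hX
    obtain ⟨Y, ⟨hY, γ, e⟩, hu'⟩ := hu X hX
    refine ⟨Y, ⟨hf.mem_toFinset.2 ⟨hY, by rw [← b1, ← e, det2_kp]⟩, MulOpposite.op γ, trivial, e⟩,
      ?_⟩
    rintro Y' ⟨hY', γ', -, e'⟩
    exact hu' Y' ⟨(hf.mem_toFinset.1 hY').1, γ'.unop, e'⟩
  · have b1 : b X ≠ 0 := fun h0 => hX (by simp [h0])
    exact MulOpposite.unop_injective (kp_free (h.supp _ b1).2.2 e)

def Gc (d : ℕ) (w : ℂ) : ℂ := 1 / 2 * Complex.Gamma ((1 + w) / 2) * Complex.Gamma ((2 + w) / 2) *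
  ((4 * π : ℝ) : ℂ) ^ (-(1 + w) / 2) * ((4 * π * d : ℝ) : ℂ) ^ (-((2 + w) / 2))

theorem Gc_ofReal (d : ℕ) (w : ℝ) : Gc d w = Gr d (2 + w) := by
  have e : 2 + w - 1 = 1 + w := by ring
  rw [Gr, e, Complex.ofReal_mul, Complex.ofReal_mul, Complex.ofReal_mul, Complex.ofReal_mul,
    Complex.ofReal_cpow (by positivity), Complex.ofReal_cpow (by positivity),
    ← Complex.Gamma_ofReal, ← Complex.Gamma_ofReal, Gc]
  push_cast
  rfl

theorem Gc_diff (hd : 0 < d) : DifferentiableOn ℂ (Gc d) {w | -1 < w.re} := by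
  intro w hw
  have hw' : -1 < w.re := hw
  have key : ∀ s : ℂ, 0 < s.re → DifferentiableAt ℂ Complex.Gamma s := fun s hs =>
    Complex.differentiableAt_Gamma s fun m e => by
      rw [e] at hs
      simp at hs
      linarith [m.cast_nonneg (α := ℝ)]
  have h1 := (key ((1 + w) / 2) (by simp; linarith)).comp w (f := fun w : ℂ => (1 + w) / 2)
    (by fun_prop)
  have h2 := (key ((2 + w) / 2) (by simp; linarith)).comp w (f := fun w : ℂ => (2 + w) / 2)
    (by fun_prop)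
  have h3 : DifferentiableAt ℂ (fun w : ℂ => ((4 * π : ℝ) : ℂ) ^ (-(1 + w) / 2)) w :=
    DifferentiableAt.const_cpow (by fun_prop) (Or.inl (Complex.ofReal_ne_zero.2 (by positivity)))
  have h4 : DifferentiableAt ℂ (fun w : ℂ => ((4 * π * d : ℝ) : ℂ) ^ (-((2 + w) / 2))) w :=
    DifferentiableAt.const_cpow (by fun_prop) (Or.inl (Complex.ofReal_ne_zero.2 (by positivity)))
  exact ((((h1.const_mul (1 / 2)).mul h2).mul h3).mul h4).differentiableWithinAt

end GZSP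

open GZSP in
theorem mel : S_AAW → S_GZW → S_MelW := by
  intro hA hG d hd
  refine ⟨Gc d, Gc_diff hd, ?_, fun s hs M hM v hv => ⟨14, fun w hw => ?_⟩⟩
  · rw [← Complex.ofReal_zero, Gc_ofReal]
    exact Complex.ofReal_ne_zero.2 (Gr_pos hd (by norm_num)).ne'
  obtain ⟨C, hC⟩ := cf_bX hA hs hd hM hv.lev
  have hi : ∀ (γ : SL) (X : Q2 × Q2), bX s d v (kp γ X).1 (kp γ X).2 = bX s d v X.1 X.2 :=
    fun γ X => by simpa only [hv.kall] using bX_kap2 (s := s) (d := d) (v := v) γ X.1 X.2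
  have hz : ∀ X : Q2 × Q2, bX s d v X.1 X.2 ≠ 0 → IsInt (det2 X) := fun X hX => by
    obtain ⟨-, -, -, y', y, h⟩ := bX_supp hv.lev hX
    exact hv.hdet _ _ h
  obtain ⟨R, hR, hu⟩ := exists_reps hC hM hi
  have h1 := hasSum_reps hC hd hM hi hz (t := 2 + w) (by linarith) hR hu
  have h0 : ((Gr d (2 + w) : ℝ) : ℂ) ≠ 0 :=
    Complex.ofReal_ne_zero.2 (Gr_pos hd (by linarith)).ne'
  have h2 := lseries hC hM hi hz (t := 2 + w) hR hu ((h1.div_const (Gr d (2 + w) : ℂ)).congr_fun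
    fun Y => by push_cast; field_simp)
  rw [Complex.ofReal_add, Complex.ofReal_ofNat] at h2
  have h3 : LSeriesHasSum (Dco s d v) _ _ := h2
  refine ⟨h3.LSeriesSummable, ?_⟩
  rw [Gc_ofReal, h3.LSeries_eq, mul_div_cancel₀ _ h0]
  refine integral_congr_ae (Eventually.of_forall fun σ => ?_)
  obtain ⟨g1, ⟨B, g2⟩, g3, -⟩ := hG s hs d M hd hM v hv.lev _ (Real.exp_pos (σ / 2))
  have g4 := (hmean_level_one (fun γ _ z => by rw [g3, hv.kall]) g1.measurable
    (integrableOn_D (K := B) g1.measurable zero_lt_one fun z _ => by simpa using g2 z)).2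
  simp only
  rw [g4, GZ_eq, mul_right_comm, ← Real.exp_mul]
  congr 1
  push_cast
  rw [← Complex.exp_add]
  congr 1
  ring

end

end Pool.Agent.P.MP_b8021b_nt.CM
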