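import Pool.Agent.P.MP_b8021b_nt.CM.HJF1

/-! Package P10: the weight three halves series and the series `JF`. -/

namespace Pool.Agent.P.MP_b8021b_nt.CM

open Complex hiding Gamma
open UpperHalfPlane hiding I
open MeasureTheory CongruenceSubgroup Filter
open scoped Real MatrixGroups ModularForm Topology ComplexConjugate Modular

noncomputable section

namespace HJFP

variable {d : ℕ} {u u' : ℍ → ℂ} {ω ω' : Q3 × ℚ → ℂ}

theorem sb_slice (h : SB ω) (l : ℚ) : SB fun Y => ω (Y, l) := by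
  obtain ⟨M, hM, hl⟩ := h
  exact (hl.fst l).sb hM

/-- the general term of `JF` -/
def TT (d : ℕ) (u : ℍ → ℂ) (ω : Q3 × ℚ → ℂ) (τ : ℍ) (p : ℚ × ℚ) : ℂ :=
  gam u (fun Y => ω (Y, p.2)) p.1 * e (p.1 * τ) * e (-(conj (τ : ℂ)) * d * p.2 ^ 2)

theorem TT_add (hu : Rec u) (h : SB ω) (h' : SB ω') (τ : ℍ) (p : ℚ × ℚ) :
    TT d u (ω + ω') τ p = TT d u ω τ p + TT d u ω' τ p := by
  have := gam_add hu.hasLev (sb_slice h p.2) (sb_slice h' p.2) p.1
  unfold TT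
  rw [← add_mul, ← add_mul, ← this]
  rfl

theorem TT_add_u (hu : Rec u) (hu' : Rec u') (h : SB ω) (τ : ℍ) (p : ℚ × ℚ) :
    TT d (u + u') ω τ p = TT d u ω τ p + TT d u' ω τ p := by
  unfold TT
  rw [gam_add_u hu.hasLev hu'.hasLev (sb_slice h p.2), add_mul, add_mul]

theorem gam_mul_right (φ : Q3 → ℂ) (c : ℂ) (m : ℚ) :
    gam u (fun Y => φ Y * c) m = c * gam u φ m := by
  rw [← gam_smul]; congr 1; ext Y; simp [mul_comm]

theorem im_pos' (hd : 0 < d) (τ : ℍ) : 0 < (-(conj (τ : ℂ)) * d).im := by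
  have := τ.im_pos
  simp only [neg_mul, neg_im, mul_im, conj_re, coe_re, natCast_im, mul_zero, conj_im, coe_im,
    natCast_re, zero_add, neg_neg]
  positivity

theorem TT_tensor (φ : Q3 → ℂ) (ψ : ℚ → ℂ) (τ : ℍ) (p : ℚ × ℚ) :
    TT d u (fun p => φ p.1 * ψ p.2) τ p = (gam u φ p.1 * e (p.1 * τ)) *
      (ψ p.2 * e ((p.2 : ℂ) ^ 2 * (-(conj (τ : ℂ)) * d))) := by
  have := gam_mul_right (u := u) φ (ψ p.2) p.1
  unfold TT
  simp only []
  rw [this, mul_comm ((p.2 : ℂ) ^ 2)]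
  ring

theorem gam_zero (m : ℚ) : gam u (fun _ => 0) m = 0 := by
  by_contra h
  obtain ⟨-, Y, -, hY⟩ := gam_supp h
  exact hY rfl

theorem summable_TT (hd : 0 < d) (hu : Rec u) (H : ∀ φ, SB φ → Conv (gam u φ)) (h : SB ω)
    (τ : ℍ) : Summable fun p => ‖TT d u ω τ p‖ := by
  refine SB.tensor_induction (P := fun ω => Summable fun p => ‖TT d u ω τ p‖) ?_ ?_ ?_ h
  · simp [TT, gam_zero, summable_zero]
  · intro φ ψ h1 h2 s1 s2
    refine Summable.of_nonneg_of_le (fun _ => norm_nonneg _) (fun p => ?_) (s1.add s2)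
    rw [TT_add hu h1 h2]
    exact norm_add_le _ _
  · intro φ ψ h1 h2
    have := Summable.mul_norm (f := fun m : ℚ => gam u φ m * e (m * τ))
      (g := fun a : ℚ => ψ a * e ((a : ℂ) ^ 2 * (-(conj (τ : ℂ)) * d))) (H φ h1 τ)
      (summable_th h2 (im_pos' hd τ))
    exact this.congr fun p => by rw [TT_tensor]

theorem JF_eq {τ : ℍ} (hs : Summable fun p => ‖TT d u ω τ p‖) :
    JF d u ω τ = ((τ.im ^ (-(1 / 2) : ℝ) : ℝ) : ℂ) * ∑' p, TT d u ω τ p := by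
  have h1 := hs.of_norm.prod_symm
  rw [JF, ← (Equiv.prodComm ℚ ℚ).tsum_eq]
  congr 1
  refine Eq.trans ?_ h1.tsum_prod.symm
  refine tsum_congr fun l => ?_
  rw [qs, ← tsum_mul_right]
  rfl

theorem JF_add (hd : 0 < d) (hu : Rec u) (H : ∀ φ, SB φ → Conv (gam u φ)) (h : SB ω)
    (h' : SB ω') : JF d u (ω + ω') = JF d u ω + JF d u ω' := by
  ext τ
  have s1 := summable_TT hd hu H h τ
  have s2 := summable_TT hd hu H h' τ
  rw [Pi.add_apply, JF_eq (summable_TT hd hu H (h.add h') τ), JF_eq s1, JF_eq s2, ← mul_add,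
    ← s1.of_norm.tsum_add s2.of_norm]
  simp only [TT_add hu h h']

theorem JF_zero : JF d u 0 = 0 := by
  ext τ
  simp [JF, qs, gam_zero]

theorem JF_tensor (φ : Q3 → ℂ) (ψ : ℚ → ℂ) (τ : ℍ) :
    JF d u (fun p => φ p.1 * ψ p.2) τ = ((τ.im ^ (-(1 / 2) : ℝ) : ℝ) : ℂ) *
      (qs (gam u φ) τ * th ψ (-(conj (τ : ℂ)) * d)) := by
  rw [JF, th, ← tsum_mul_left (a := qs (gam u φ) τ)]
  congr 1
  refine tsum_congr fun l => ?_
  simp only [qs, gam_mul_right, mul_assoc, tsum_mul_left]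
  rw [mul_comm ((l : ℂ) ^ 2), mul_assoc (-(conj (τ : ℂ)))]
  ring

theorem continuous_JF (hd : 0 < d) (hu : Rec u) (H : ∀ φ, SB φ → Conv (gam u φ)) (h : SB ω) :
    Continuous (JF d u ω) := by
  refine SB.tensor_induction (P := fun ω => Continuous (JF d u ω)) ?_ ?_ ?_ h
  · rw [JF_zero]; exact continuous_zero
  · intro φ ψ h1 h2 s1 s2
    rw [JF_add hd hu H h1 h2]
    exact s1.add s2
  · intro φ ψ h1 h2
    rw [funext (JF_tensor φ ψ)]
    refine Continuous.mul (continuous_ofReal.comp (UpperHalfPlane.continuous_im.rpow_const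
      fun τ => Or.inl τ.im_pos.ne')) ((H φ h1).hol.continuous.mul ?_)
    refine continuous_iff_continuousAt.2 fun τ => ?_
    refine ContinuousAt.comp (f := fun τ : ℍ => -(conj (τ : ℂ)) * d)
      (continuousAt_th h2 (im_pos' hd τ)) (Continuous.continuousAt ?_)
    exact (continuous_conj.comp UpperHalfPlane.continuous_coe).neg.mul continuous_const

theorem dec_add {f g : ℍ → ℂ} (h : Dec f) (h' : Dec g) : Dec (f + g) := by
  obtain ⟨C, c, hc, H⟩ := h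
  obtain ⟨C', c', hc', H'⟩ := h'
  refine ⟨|C| + |C'|, min c c', lt_min hc hc', fun τ hτ => ?_⟩
  have y := τ.im_pos
  have e1 : Real.exp (-c * τ.im) ≤ Real.exp (-min c c' * τ.im) :=
    Real.exp_le_exp.2 (by nlinarith [min_le_left c c'])
  have e2 : Real.exp (-c' * τ.im) ≤ Real.exp (-min c c' * τ.im) :=
    Real.exp_le_exp.2 (by nlinarith [min_le_right c c'])
  rw [add_mul]
  refine (norm_add_le _ _).trans (add_le_add ((H τ hτ).trans ?_) ((H' τ hτ).trans ?_))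
  · exact mul_le_mul (le_abs_self _) e1 (Real.exp_pos _).le (abs_nonneg _)
  · exact mul_le_mul (le_abs_self _) e2 (Real.exp_pos _).le (abs_nonneg _)

theorem dec_JF (hd : 0 < d) (hu : Rec u) (H : ∀ φ, SB φ → Conv (gam u φ)) (h : SB ω) :
    Dec (JF d u ω) := by
  refine SB.tensor_induction (P := fun ω => Dec (JF d u ω)) ?_ ?_ ?_ h
  · rw [JF_zero]; exact ⟨0, 1, one_pos, fun τ _ => by simp⟩
  · intro φ ψ h1 h2 s1 s2
    rw [JF_add hd hu H h1 h2]
    exact dec_add s1 s2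
  · intro φ ψ h1 h2
    obtain ⟨δ, hδ, hl⟩ := low_gam (u := u) h1
    obtain ⟨C, c, hc, hC⟩ := (H φ h1).dec hδ hl
    have hw : 0 < (I / 2).im := by simp
    refine ⟨(1 / 2 : ℝ) ^ (-(1 / 2) : ℝ) * (∑' a : ℚ, ‖ψ a * e ((a : ℂ) ^ 2 * (I / 2))‖) * C, c,
      hc, fun τ hτ => ?_⟩
    have b1 : τ.im ^ (-(1 / 2) : ℝ) ≤ (1 / 2 : ℝ) ^ (-(1 / 2) : ℝ) :=
      Real.rpow_le_rpow_of_nonpos (by norm_num) hτ (by norm_num)
    have b2 := norm_th_le h2 hw (z := -(conj (τ : ℂ)) * d) (by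
      have : (1 : ℝ) ≤ d := by exact_mod_cast hd
      simp only [div_ofNat_im, Complex.I_im, neg_mul, neg_im, mul_im, conj_re, coe_re, natCast_im,
        mul_zero, conj_im, coe_im, natCast_re, zero_add, neg_neg]
      nlinarith)
    have b0 : 0 ≤ τ.im ^ (-(1 / 2) : ℝ) := Real.rpow_nonneg τ.im_pos.le _
    rw [JF_tensor, norm_mul, norm_mul, norm_real, Real.norm_of_nonneg b0, mul_assoc, mul_assoc,
      mul_comm ‖qs _ _‖]
    refine mul_le_mul b1 (mul_le_mul b2 (hC τ hτ) (norm_nonneg _) ((norm_nonneg _).trans b2))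
      (by positivity) (b0.trans b1)

theorem F4_add (h : SB ω) (h' : SB ω') : F4 d (ω + ω') = F4 d ω + F4 d ω' := by
  ext Z
  have s1 : SB fun Y : Q3 × ℚ => ω Y * eq (-bil3 Y.1 Z.1 + 2 * d * Y.2 * Z.2) :=
    h.mul_eq ((l3 Z.1).coprod (l1 (2 * d) Z.2))
  have s2 : SB fun Y : Q3 × ℚ => ω' Y * eq (-bil3 Y.1 Z.1 + 2 * d * Y.2 * Z.2) :=
    h'.mul_eq ((l3 Z.1).coprod (l1 (2 * d) Z.2))
  rw [Pi.add_apply, F4, F4, F4, ← II_add s1 s2]
  congr 1
  ext Y
  simp [add_mul]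

theorem F4_zero : F4 d 0 = 0 := by
  ext Z
  simp only [F4, Pi.zero_apply, zero_mul]
  exact II_zero

theorem F4_tensor {φ : Q3 → ℂ} {ψ : ℚ → ℂ} (h : SB φ) (h' : SB ψ) :
    F4 d (fun p => φ p.1 * ψ p.2) = fun p => F3 φ p.1 * F1 (2 * d) ψ p.2 :=
  funext fun q => II_F3_F1 h h' (2 * d) q

theorem th_S (hd : 0 < d) {ψ : ℚ → ℂ} (h : SB ψ) (τ : ℍ) {s : ℂ} (hs0 : 0 < s.re)
    (hs : s ^ 2 = -I * τ) : th ψ (-(conj ((ModularGroup.S • τ : ℍ) : ℂ)) * d) =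
      conj s / (√(2 * d) : ℝ) * th (F1 (2 * d) ψ) (-(conj (τ : ℂ)) * d) := by
  have hd' : (d : ℂ) ≠ 0 := by exact_mod_cast hd.ne'
  have hd0 : (0 : ℝ) < d := by exact_mod_cast hd
  have t0 : conj (τ : ℂ) ≠ 0 := by simpa using τ.ne_zero
  have hz : 0 < (-(conj (τ : ℂ)) / d).im := by
    rw [div_natCast_im]
    have := τ.im_pos
    simp only [neg_im, conj_im, coe_im, neg_neg]
    positivity
  have e1 : -(conj ((ModularGroup.S • τ : ℍ) : ℂ)) * d = -1 / (-(conj (τ : ℂ)) / d) := by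
    rw [coe_S, map_div₀, map_neg, map_one]; field_simp
  have r0 : (0 : ℝ) < √(2 * d) := by positivity
  have r1 : ((√(2 * d) : ℝ) : ℂ) ^ 2 = 2 * d := by
    rw [← ofReal_pow, Real.sq_sqrt (by positivity)]; norm_num
  have hs' : conj s ^ 2 = I * conj (τ : ℂ) := by
    rw [← map_pow, hs]; simp
  have e2 : 2 * I / (-(conj (τ : ℂ)) / d) = (((√(2 * d) : ℝ) : ℂ) / conj s) ^ 2 := by
    rw [div_pow, r1, hs']
    field_simp
    linear_combination (-1 : ℂ) * I_sq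
  rw [e1, th_poisson h hz, e2, cp_neg_half (re_div_pos r0 (by simpa using hs0)), inv_div]
  congr 1
  rw [th, th, ← (Equiv.mulLeft₀ (-d : ℚ) (by simpa using hd.ne')).tsum_eq]
  refine tsum_congr fun w => ?_
  have e3 : F1 (-2) ψ (-d * w) = F1 (2 * d) ψ w := by
    unfold F1; congr 1; ext x; congr 2; ring
  simp only [Equiv.mulLeft₀_apply]
  rw [e3]
  congr 2
  push_cast
  field_simp

theorem im_S (τ : ℍ) {s : ℂ} (hs : s ^ 2 = -I * τ) :
    ((((ModularGroup.S • τ : ℍ).im) ^ (-(1 / 2) : ℝ) : ℝ) : ℂ) =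
      s * conj s * ((τ.im ^ (-(1 / 2) : ℝ) : ℝ) : ℂ) := by
  have n0 : 0 < ‖(τ : ℂ)‖ := norm_pos_iff.2 τ.ne_zero
  have e1 : s * conj s = (‖(τ : ℂ)‖ : ℝ) := by
    rw [mul_conj, normSq_eq_norm_sq, ← norm_pow, hs]; simp
  rw [im_SL, jf_S, e1, ← ofReal_mul, Real.div_rpow τ.im_pos.le (by positivity), ← Real.rpow_natCast,
    ← Real.rpow_mul n0.le]
  norm_num
  rw [Real.rpow_neg_one]
  push_cast
  field_simp

theorem JF_S (hd : 0 < d) (hu : Rec u) {c : ℝ} (H : ∀ φ, SB φ → Conv (gam u φ) ∧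
    ∀ τ : ℍ, qs (gam u φ) (ModularGroup.S • τ) * (-I * τ) ^ (1 / 2 : ℂ) =
      c * (τ : ℂ) ^ 2 * qs (gam u (F3 φ)) τ) (h : SB ω) (τ : ℍ) :
    JF d u ω (ModularGroup.S • τ) =
      (c / √(2 * d) : ℝ) * I * (τ : ℂ) ^ 2 * conj (τ : ℂ) * JF d u (F4 d ω) τ := by
  have H' : ∀ φ, SB φ → Conv (gam u φ) := fun φ h => (H φ h).1
  refine SB.tensor_induction (P := fun ω => JF d u ω (ModularGroup.S • τ) =
      (c / √(2 * d) : ℝ) * I * (τ : ℂ) ^ 2 * conj (τ : ℂ) * JF d u (F4 d ω) τ) ?_ ?_ ?_ h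
  · simp [F4_zero, JF_zero]
  · intro φ ψ h1 h2 s1 s2
    rw [F4_add h1 h2, JF_add hd hu H' h1 h2, JF_add hd hu H' (h1.sb_F4 hd) (h2.sb_F4 hd),
      Pi.add_apply, Pi.add_apply, s1, s2, mul_add]
  · intro φ ψ h1 h2
    obtain ⟨s, hs0, hs⟩ := exists_sqrt τ
    have e1 := (H φ h1).2 τ
    rw [← hs, cp_half hs0] at e1
    have hs' : conj s ^ 2 = I * conj (τ : ℂ) := by
      rw [← map_pow, hs]; simp
    rw [F4_tensor h1 h2, JF_tensor, JF_tensor, th_S hd h2 τ hs0 hs, im_S τ hs]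
    push_cast
    linear_combination (conj s ^ 2 * ((τ.im ^ (-(1 / 2) : ℝ) : ℝ) : ℂ) / (√(2 * d) : ℝ) *
      th (F1 (2 * d) ψ) (-(conj (τ : ℂ)) * d)) * e1 + (((τ.im ^ (-(1 / 2) : ℝ) : ℝ) : ℂ) /
      (√(2 * d) : ℝ) * th (F1 (2 * d) ψ) (-(conj (τ : ℂ)) * d) * c * (τ : ℂ) ^ 2 *
      qs (gam u (F3 φ)) τ) * hs'

theorem JF_nn (b : ℚ) (τ : ℍ) : JF d u ω (actH (nn b) τ) =
    JF d u (fun Y => eq (b * (q3 Y.1 - d * Y.2 ^ 2)) * ω Y) τ := by
  have e0 := coe_nn b τ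
  have e1 : (actH (nn b) τ).im = τ.im := by
    rw [← coe_im, e0]; simp
  rw [JF, JF, e1]
  congr 1
  refine tsum_congr fun l => ?_
  rw [qs, qs, ← tsum_mul_right, ← tsum_mul_right]
  refine tsum_congr fun m => ?_
  have e2 : gam u (fun Y => eq (b * (q3 Y - d * l ^ 2)) * ω (Y, l)) m =
      eq (b * (m - d * l ^ 2)) * gam u (fun Y => ω (Y, l)) m := by
    rw [← gam_smul]
    exact gam_congr fun Y hY => by simp [hY]
  simp only []
  rw [e2, e0, mul_assoc, ← e_add, mul_comm (eq _), mul_assoc (gam _ _ _), mul_assoc (gam _ _ _), eq,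
    ← e_add, ← e_add]
  congr 2
  simp only [map_add, map_ratCast]
  push_cast
  ring

theorem JF_dil {j : ℚ} (hj : 0 < j) (τ : ℍ) :
    JF d u ω (dil j⁻¹ τ) = j * JF d u (fun Y => ω (j • Y)) (dil j τ) := by
  have e0 := coe_dil hj τ
  have e0' := coe_dil (inv_pos.2 hj) τ
  have j0 : (0 : ℝ) < j := by exact_mod_cast hj
  have j1 : (j : ℂ) ≠ 0 := by exact_mod_cast hj.ne'
  have e1 : (dil j τ).im = j * τ.im := by
    rw [← coe_im, e0]; simp
  have e1' : (dil j⁻¹ τ).im = (j : ℝ)⁻¹ * τ.im := by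
    rw [← coe_im, e0', ← ofReal_ratCast, im_ofReal_mul]; simp
  rw [JF, JF, e1, e1', ← mul_assoc, ← (Equiv.mulLeft₀ j hj.ne').tsum_eq]
  congr 1
  · rw [Real.mul_rpow (inv_pos.2 j0).le τ.im_pos.le, Real.mul_rpow j0.le τ.im_pos.le,
      Real.inv_rpow j0.le, ← Real.rpow_neg j0.le, ← ofReal_ratCast, ← ofReal_mul, ← mul_assoc]
    congr 2
    nth_rw 2 [← Real.rpow_one j]
    rw [← Real.rpow_add j0]
    norm_num
  · refine tsum_congr fun l => ?_
    simp only [Equiv.mulLeft₀_apply]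
    congr 1
    · rw [qs, qs, ← (Equiv.mulLeft₀ (j ^ 2) (pow_pos hj 2).ne').tsum_eq]
      refine tsum_congr fun m => ?_
      simp only [Equiv.mulLeft₀_apply]
      rw [← gam_scale hj.ne', e0, e0']
      congr 2
      push_cast
      field_simp
    · rw [e0, e0']
      congr 1
      simp only [map_mul, map_ratCast]
      push_cast
      field_simp

theorem JF_neg : JF d u (fun Y => ω (-Y)) = JF d u ω := by
  ext τ
  rw [JF, JF, ← (Equiv.neg ℚ).tsum_eq]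
  congr 1
  refine tsum_congr fun l => ?_
  simp only [Equiv.neg_apply, Prod.neg_mk, neg_neg, Rat.cast_neg, neg_sq]
  congr 2
  ext m
  have := gam_scale (u := u) (j := -1) (by norm_num) (fun Y => ω (Y, l)) m
  simpa using this

theorem JF_conj (g : GQ) : JF d (fun τ => u (actH g τ))
    (fun Y => ω (co (g.1 * tz Y.1 * (g⁻¹).1), Y.2)) = JF d u ω := by
  ext τ
  rw [JF, JF]
  congr 1
  refine tsum_congr fun l => ?_
  congr 2
  ext m
  exact gam_act g (fun Y => ω (Y, l)) m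

theorem JF_smul (a : ℂ) : JF d u (a • ω) = a • JF d u ω ∧ JF d (a • u) ω = a • JF d u ω := by
  constructor
  · ext τ
    have : ∀ l m, gam u (fun Y => a * ω (Y, l)) m = a * gam u (fun Y => ω (Y, l)) m :=
      fun l m => gam_smul a (fun Y => ω (Y, l)) m
    simp only [JF, qs, this, mul_assoc, tsum_mul_left, Pi.smul_apply, smul_eq_mul]
    ring
  · ext τ
    simp only [JF, qs, gam_smul_u, mul_assoc, tsum_mul_left, Pi.smul_apply, smul_eq_mul]
    ring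

theorem JF_add_u (hd : 0 < d) (hu : Rec u) (hu' : Rec u')
    (H : ∀ u, Rec u → ∀ φ, SB φ → Conv (gam u φ)) (h : SB ω) :
    JF d (u + u') ω = JF d u ω + JF d u' ω := by
  ext τ
  have s1 := summable_TT hd hu (H u hu) h τ
  have s2 := summable_TT hd hu' (H u' hu') h τ
  rw [Pi.add_apply, JF_eq (summable_TT hd (hu.add hu') (H _ (hu.add hu')) h τ), JF_eq s1, JF_eq s2,
    ← mul_add, ← s1.of_norm.tsum_add s2.of_norm]
  simp only [TT_add_u hu hu' h]

end HJFP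

open HJFP

theorem hS : S_G1 → S_H := hS'

theorem jfS : S_H → S_JF := by
  rintro ⟨c, hc, H⟩ d hd
  have H' : ∀ u, Rec u → ∀ φ, SB φ → Conv (gam u φ) := fun u hu φ h => (H u hu φ h).1
  have hd0 : (0 : ℝ) < d := by exact_mod_cast hd
  exact ⟨c / √(2 * d), by positivity, fun u hu ω h => ⟨summable_TT hd hu (H' u hu) h,
    continuous_JF hd hu (H' u hu) h, dec_JF hd hu (H' u hu) h, JF_S hd hu (H u hu) h, JF_nn,
    fun j hj => JF_dil hj, JF_neg, JF_conj, fun ω' h' => JF_add hd hu (H' u hu) h h', JF_smul,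
    fun u' hu' => JF_add_u hd hu hu' H' h⟩⟩

end

end Pool.Agent.P.MP_b8021b_nt.CM
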