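import Pool.Agent.P.MP_b8021b_nt.CM.Lib

/-! Package P30: relations between Hecke operators. -/

namespace Pool.Agent.P.MP_b8021b_nt.CM

open Complex hiding Gamma
open UpperHalfPlane hiding I
open CongruenceSubgroup Finset
open scoped MatrixGroups

noncomputable section

namespace HkP

/-! ### periodic sums -/

theorem sum_range_mul (ψ : ℕ → ℂ) (d e : ℕ) :
    ∑ B ∈ range (d * e), ψ B = ∑ b ∈ range d, ∑ c ∈ range e, ψ (c + b * e) := by
  induction d with
  | zero => simp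
  | succ d ih =>
    rw [Nat.succ_mul, Finset.sum_range_add, ih, Finset.sum_range_succ]
    simp only [add_comm]

theorem per_mul {G : ℕ → ℂ} {d : ℕ} (h : ∀ x, G (x + d) = G x) (x k : ℕ) :
    G (x + k * d) = G x := by
  induction k with
  | zero => simp
  | succ k ih => rw [Nat.succ_mul, ← add_assoc, h, ih]

theorem sum_unit {G : ℕ → ℂ} {a d : ℕ} (hc : Nat.Coprime d a) (h : ∀ x, G (x + d) = G x) :
    ∑ c ∈ range d, G (a * c) = ∑ c ∈ range d, G c := by
  have inj : Set.InjOn (fun c => a * c % d) (range d : Finset ℕ) := fun x hx y hy e =>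
    Nat.ModEq.eq_of_lt_of_lt (Nat.ModEq.cancel_left_of_coprime hc e) (mem_range.1 hx)
      (mem_range.1 hy)
  have im : (range d).image (fun c => a * c % d) = range d := by
    refine Finset.eq_of_subset_of_card_le (fun y hy => ?_) (by rw [card_image_of_injOn inj])
    obtain ⟨x, hx, rfl⟩ := mem_image.1 hy
    exact mem_range.2 (Nat.mod_lt _ (by have := mem_range.1 hx; omega))
  conv_rhs => rw [← im, sum_image inj]
  refine sum_congr rfl fun c _ => ?_
  conv_lhs => rw [← Nat.mod_add_div' (a * c) d, per_mul h]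

theorem inner (φ : ℕ → ℂ) {δ a d d' : ℕ} (hc : Nat.Coprime d' a)
    (h : ∀ x, φ (x + d * (δ * d')) = φ x) :
    ∑ b' ∈ range (δ * d'), ∑ b ∈ range d, φ (δ * a * b' + b * (δ * d')) =
      δ * ∑ B ∈ range (d * d'), φ (δ * B) := by
  set G : ℕ → ℂ := fun x => ∑ b ∈ range d, φ (δ * (x + b * d')) with hG
  have hper : ∀ x, G (x + d') = G x := fun x => by
    have e1 := Finset.sum_range_succ (fun b => φ (δ * (x + b * d'))) d
    have e2 := Finset.sum_range_succ' (fun b => φ (δ * (x + b * d'))) d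
    have e3 : φ (δ * (x + d * d')) = φ (δ * (x + 0 * d')) := by
      rw [← h (δ * (x + 0 * d'))]; congr 1; ring
    have e4 : G (x + d') = ∑ b ∈ range d, φ (δ * (x + (b + 1) * d')) :=
      sum_congr rfl fun b _ => by congr 1; ring
    rw [e4]
    linear_combination e1 - e2 + e3
  calc _ = ∑ b' ∈ range (δ * d'), G (a * b') :=
        sum_congr rfl fun b' _ => sum_congr rfl fun b _ => by congr 1; ring
    _ = ∑ _k ∈ range δ, ∑ c ∈ range d', G (a * c) := by
        rw [sum_range_mul]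
        refine sum_congr rfl fun k _ => sum_congr rfl fun c _ => ?_
        rw [show a * (c + k * d') = a * c + (a * k) * d' by ring, per_mul hper]
    _ = δ * ∑ c ∈ range d', G c := by rw [sum_unit hc hper, sum_const, card_range, nsmul_eq_mul]
    _ = _ := by rw [sum_range_mul, sum_comm]

theorem outer (H : ℕ → ℕ → ℕ → ℂ) {m n : ℕ} (hm : 0 < m) (hn : 0 < n) :
    ∑ q ∈ m.divisorsAntidiagonal, ∑ p ∈ n.divisorsAntidiagonal,
      H (Nat.gcd p.1 q.2) (p.1 * q.1) (p.2 * q.2) =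
    ∑ δ ∈ (Nat.gcd m n).divisors, ∑ r ∈ (m * n / δ ^ 2).divisorsAntidiagonal,
      H δ (δ * r.1) (δ * r.2) := by
  rw [sum_sigma', sum_sigma']
  symm
  refine sum_bij (fun x _ => ⟨(Nat.gcd x.2.1 (m / x.1), m / Nat.gcd x.2.1 (m / x.1)),
    (x.1 * (x.2.1 / Nat.gcd x.2.1 (m / x.1)), n / (x.1 * (x.2.1 / Nat.gcd x.2.1 (m / x.1))))⟩)
    ?_ ?_ ?_ ?_
  all_goals
    have key : ∀ x : (_ : ℕ) × ℕ × ℕ, x ∈ (Nat.gcd m n).divisors.sigma
        (fun δ => (m * n / δ ^ 2).divisorsAntidiagonal) → ∃ δ a a' d d' : ℕ, 0 < δ ∧ 0 < a ∧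
        0 < a' ∧ Nat.Coprime a d' ∧ m = δ * (a' * d') ∧ n = δ * (a * d) ∧
        x = ⟨δ, a * a', d * d'⟩ := by
      rintro ⟨δ, A, D⟩ hx
      simp only [mem_sigma, Nat.mem_divisors, Nat.mem_divisorsAntidiagonal] at hx
      obtain ⟨⟨h1, -⟩, h2, h3⟩ := hx
      obtain ⟨m1, rfl⟩ := h1.trans (Nat.gcd_dvd_left m n)
      obtain ⟨n1, rfl⟩ := h1.trans (Nat.gcd_dvd_right _ n)
      have hδ : 0 < δ := Nat.pos_of_mul_pos_right hm
      have hm1 : 0 < m1 := Nat.pos_of_mul_pos_left hm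
      rw [show δ * m1 * (δ * n1) = δ ^ 2 * (m1 * n1) by ring,
        Nat.mul_div_cancel_left _ (by positivity)] at h2 h3
      have hA : 0 < A := Nat.pos_of_ne_zero fun h => h3 (by rw [← h2, h, zero_mul])
      obtain ⟨a, d', hc, e1, e2⟩ := Nat.exists_coprime A m1
      set a' := Nat.gcd A m1
      have ha' : 0 < a' := Nat.gcd_pos_of_pos_left _ hA
      have ha : 0 < a := Nat.pos_of_ne_zero fun h => by rw [h, zero_mul] at e1; omega
      have e3 : a * D = d' * n1 := Nat.eq_of_mul_eq_mul_left ha' (by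
        rw [e1, e2] at h2; linarith)
      obtain ⟨d, rfl⟩ : a ∣ n1 := hc.dvd_of_dvd_mul_left ⟨D, e3.symm⟩
      have e4 : D = d * d' := Nat.eq_of_mul_eq_mul_left ha (by linarith)
      exact ⟨δ, a, a', d, d', hδ, ha, ha', hc, by rw [e2]; ring, rfl, by rw [e1, e4]⟩
    have val : ∀ δ a a' d d' : ℕ, 0 < δ → 0 < a → 0 < a' → Nat.Coprime a d' →
        m = δ * (a' * d') → n = δ * (a * d) →
        (⟨(Nat.gcd (a * a') (m / δ), m / Nat.gcd (a * a') (m / δ)),
          (δ * (a * a' / Nat.gcd (a * a') (m / δ)),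
            n / (δ * (a * a' / Nat.gcd (a * a') (m / δ))))⟩ : (_ : ℕ × ℕ) × ℕ × ℕ) =
          ⟨(a', δ * d'), (δ * a, d)⟩ := by
      intro δ a a' d d' hδ ha ha' hc e1 e2
      have g : Nat.gcd (a * a') (m / δ) = a' := by
        rw [e1, Nat.mul_div_cancel_left _ hδ, mul_comm a' d', Nat.gcd_mul_right, hc, one_mul]
      rw [g, Nat.mul_div_cancel _ ha', e1, e2, show δ * (a' * d') = a' * (δ * d') by ring,
        Nat.mul_div_cancel_left _ ha', ← mul_assoc, Nat.mul_div_cancel_left _ (by positivity)]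
  · intro x hx
    obtain ⟨δ, a, a', d, d', hδ, ha, ha', hc, e1, e2, rfl⟩ := key x hx
    rw [val δ a a' d d' hδ ha ha' hc e1 e2]
    simp only [mem_sigma, Nat.mem_divisorsAntidiagonal]
    exact ⟨⟨by rw [e1]; ring, hm.ne'⟩, by rw [e2]; ring, hn.ne'⟩
  · intro x hx y hy e
    obtain ⟨δ, a, a', d, d', hδ, ha, ha', hc, e1, e2, rfl⟩ := key x hx
    obtain ⟨ε, b, b', c, c', hε, hb, hb', hc', f1, f2, rfl⟩ := key y hy
    rw [val δ a a' d d' hδ ha ha' hc e1 e2, val ε b b' c c' hε hb hb' hc' f1 f2] at e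
    simp only [Sigma.mk.injEq, Prod.mk.injEq, heq_eq_eq] at e
    obtain ⟨⟨rfl, g1⟩, g2, rfl⟩ := e
    have : δ = ε := by
      have := congrArg₂ Nat.gcd g2 g1
      rwa [Nat.gcd_mul_left, Nat.gcd_mul_left, hc, hc', mul_one, mul_one] at this
    subst this
    rw [Nat.eq_of_mul_eq_mul_left hδ g1, Nat.eq_of_mul_eq_mul_left hδ g2]
  · rintro ⟨⟨a', D'⟩, A, d⟩ hy
    simp only [mem_sigma, Nat.mem_divisorsAntidiagonal] at hy
    obtain ⟨⟨h1, -⟩, h2, -⟩ := hy
    have hA : 0 < A := Nat.pos_of_ne_zero fun h => by rw [h, zero_mul] at h2; omega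
    have ha' : 0 < a' := Nat.pos_of_ne_zero fun h => by rw [h, zero_mul] at h1; omega
    obtain ⟨a, d', hc, e1, e2⟩ := Nat.exists_coprime A D'
    set δ := Nat.gcd A D'
    have hδ : 0 < δ := Nat.gcd_pos_of_pos_left _ hA
    have ha : 0 < a := Nat.pos_of_ne_zero fun h => by rw [h, zero_mul] at e1; omega
    have f1 : m = δ * (a' * d') := by rw [← h1, e2]; ring
    have f2 : n = δ * (a * d) := by rw [← h2, e1]; ring
    refine ⟨⟨δ, a * a', d * d'⟩, ?_, ?_⟩
    · simp only [mem_sigma, Nat.mem_divisors, Nat.mem_divisorsAntidiagonal]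
      have f3 : m * n / δ ^ 2 = a * a' * (d * d') := by
        rw [f1, f2, show δ * (a' * d') * (δ * (a * d)) = δ ^ 2 * (a * a' * (d * d')) by ring,
          Nat.mul_div_cancel_left _ (by positivity)]
      refine ⟨⟨Nat.dvd_gcd ⟨_, f1⟩ ⟨_, f2⟩, (Nat.gcd_pos_of_pos_left _ hm).ne'⟩, f3.symm, ?_⟩
      rw [f3]
      intro h0
      have : m * n = δ ^ 2 * (a * a' * (d * d')) := by rw [f1, f2]; ring
      rw [h0, mul_zero] at this
      exact (Nat.mul_pos hm hn).ne' this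
    · rw [val δ a a' d d' hδ ha ha' hc f1 f2, mul_comm δ d', mul_comm δ a, ← e1, ← e2]
  · intro x hx
    obtain ⟨δ, a, a', d, d', hδ, ha, ha', hc, e1, e2, rfl⟩ := key x hx
    rw [val δ a a' d d' hδ ha ha' hc e1 e2]
    simp only
    rw [Nat.gcd_mul_left, hc, mul_one, mul_assoc, mul_left_comm d δ]

/-! ### sums over Hermite normal forms -/

theorem sum_hnf (F : Z2 → ℂ) (n : ℕ) : ∑ g ∈ hnf n, F g =
    ∑ p ∈ n.divisorsAntidiagonal, ∑ b ∈ range p.2, F (ut p.1 b p.2) := by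
  rw [hnf, sum_biUnion]
  · refine sum_congr rfl fun p _ => sum_image fun b _ b' _ e => ?_
    exact_mod_cast (ar_ut_inj e).2.1
  · intro p _ q _ hpq
    refine Finset.disjoint_left.2 fun g hg hg' => hpq ?_
    obtain ⟨b, -, rfl⟩ := mem_image.1 hg
    obtain ⟨b', -, e⟩ := mem_image.1 hg'
    obtain ⟨e1, -, e2⟩ := ar_ut_inj e
    exact Prod.ext (by exact_mod_cast e1.symm) (by exact_mod_cast e2.symm)

theorem det_ut (a b d : ℤ) : (ut a b d).det = a * d := by simp [ut, Matrix.det_fin_two]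

theorem det_hnf {n : ℕ} {g : Z2} (h : g ∈ hnf n) : g.det = n := by
  obtain ⟨a, b, d, -, e, -, rfl⟩ := mem_hnf.1 h
  rw [det_ut, ← e]; push_cast; rfl

theorem ut_mul (a b d a' b' d' : ℤ) :
    ut a b d * ut a' b' d' = ut (a * a') (a * b' + b * d') (d * d') := by
  simp [ut]

theorem T_ut (a b d : ℤ) : ModularGroup.T.1 * ut a b d = ut a (b + d) d := by
  simp [ut, ModularGroup.coe_T]

theorem smul_ut (c a b d : ℤ) : c • ut a b d = ut (c * a) (c * b) (c * d) := by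
  simp [ut]

theorem dbl_sum (F : Z2 → ℂ) {m n : ℕ} (hm : 0 < m) (hn : 0 < n)
    (hF : ∀ (γ : SL) (Z : Z2), Z.det = (m * n : ℕ) → F (γ.1 * Z) = F Z) :
    ∑ g ∈ hnf m, ∑ h ∈ hnf n, F (h * g) =
      ∑ δ ∈ (Nat.gcd m n).divisors, δ * ∑ k ∈ hnf (m * n / δ ^ 2), F ((δ : ℤ) • k) := by
  have o := outer (fun δ A D => δ * ∑ B ∈ range (D / δ), F (ut A (δ * B : ℕ) D)) hm hn
  calc _ = ∑ q ∈ m.divisorsAntidiagonal, ∑ p ∈ n.divisorsAntidiagonal, (Nat.gcd p.1 q.2 : ℂ) *
        ∑ B ∈ range (p.2 * q.2 / Nat.gcd p.1 q.2),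
          F (ut (p.1 * q.1 : ℕ) (Nat.gcd p.1 q.2 * B : ℕ) (p.2 * q.2 : ℕ)) := by
        rw [sum_hnf]
        refine sum_congr rfl fun q hq => ?_
        simp only [sum_hnf (fun h => F (h * _))]
        rw [sum_comm]
        refine sum_congr rfl fun p hp => ?_
        obtain ⟨a', D'⟩ := q
        obtain ⟨A, d⟩ := p
        obtain ⟨h1, -⟩ := Nat.mem_divisorsAntidiagonal.1 hq
        obtain ⟨h2, -⟩ := Nat.mem_divisorsAntidiagonal.1 hp
        dsimp only at h1 h2 ⊢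
        have hA : 0 < A := Nat.pos_of_ne_zero fun h => by rw [h, zero_mul] at h2; omega
        obtain ⟨a, d', hc, e1, e2⟩ := Nat.exists_coprime A D'
        generalize hδ' : Nat.gcd A D' = δ at e1 e2
        have hδ : 0 < δ := hδ' ▸ Nat.gcd_pos_of_pos_left _ hA
        rw [mul_comm] at e1 e2
        subst e1 e2
        have := inner (fun x => F (ut (δ * a * a' : ℕ) x (d * (δ * d') : ℕ))) (δ := δ) (a := a)
          (d := d) hc.symm fun x => by
            rw [← hF ModularGroup.T (ut _ x _) (by rw [det_ut, ← h1, ← h2]; push_cast; ring), T_ut]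
            push_cast; rfl
        rw [show d * (δ * d') / δ = d * d' by
          rw [mul_left_comm, Nat.mul_div_cancel_left _ hδ], ← this]
        refine sum_congr rfl fun b' _ => sum_congr rfl fun b _ => ?_
        rw [ut_mul]
        push_cast; rfl
    _ = _ := by
        rw [o]
        refine sum_congr rfl fun δ hδ => ?_
        rw [sum_hnf, mul_sum]
        refine sum_congr rfl fun r _ => ?_
        rw [Nat.mul_div_cancel_left _ (Nat.pos_of_mem_divisors hδ)]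
        congr 1
        refine sum_congr rfl fun B _ => ?_
        rw [smul_ut]
        push_cast; rfl

theorem SL_cancel (γ : SL) (Z : Z2) : (γ⁻¹).1 * (γ.1 * Z) = Z := by
  rw [← Matrix.mul_assoc, ← Matrix.SpecialLinearGroup.coe_mul, inv_mul_cancel,
    Matrix.SpecialLinearGroup.coe_one, Matrix.one_mul]

theorem SL_cancel' (γ : SL) (Z : Z2) : Z * γ.1 * (γ⁻¹).1 = Z := by
  rw [Matrix.mul_assoc, ← Matrix.SpecialLinearGroup.coe_mul, mul_inv_cancel,
    Matrix.SpecialLinearGroup.coe_one, Matrix.mul_one]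

theorem det_SL (γ : SL) (Z : Z2) : (γ.1 * Z).det = Z.det := by
  rw [Matrix.det_mul, γ.det_coe, one_mul]

theorem det_SL' (γ : SL) (Z : Z2) : (Z * γ.1).det = Z.det := by
  rw [Matrix.det_mul, γ.det_coe, mul_one]

theorem hnf_unique {n : ℕ} (hn : 0 < n) {g g' : Z2} (h : g ∈ hnf n) (h' : g' ∈ hnf n) {γ δ : SL}
    (e : γ.1 * g = δ.1 * g') : g = g' :=
  (exists_hnf hn (Y := γ.1 * g) (by rw [det_SL, det_hnf h])).unique ⟨h, γ, rfl⟩ ⟨h', δ, e⟩

theorem sum_right (F : Z2 → ℂ) {n : ℕ} (hn : 0 < n)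
    (hF : ∀ (γ : SL) (Z : Z2), Z.det = n → F (γ.1 * Z) = F Z) (γ : SL) :
    ∑ h ∈ hnf n, F (h * γ.1) = ∑ h ∈ hnf n, F h := by
  have ex : ∀ h ∈ hnf n, ∃ k, k ∈ hnf n ∧ ∃ δ : SL, h * γ.1 = δ.1 * k := fun h hh =>
    (exists_hnf hn (Y := h * γ.1) (by rw [det_SL', det_hnf hh])).exists
  choose f hf δ e using ex
  refine sum_bij f hf (fun h hh h' hh' q => ?_) (fun k hk => ?_) fun h hh => ?_
  · refine hnf_unique hn hh hh' (γ := (δ h hh)⁻¹) (δ := (δ h' hh')⁻¹) ?_
    have k : ∀ h hh, ((δ h hh)⁻¹).1 * h = f h hh * (γ⁻¹).1 := fun h hh => by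
      rw [← SL_cancel (δ h hh) (f h hh), ← e h hh, Matrix.mul_assoc, SL_cancel']
    rw [k, k, q]
  · obtain ⟨h, hh, ε, q⟩ := (exists_hnf hn (Y := k * (γ⁻¹).1) (by rw [det_SL', det_hnf hk])).exists
    refine ⟨h, hh, hnf_unique hn (hf h hh) hk (γ := ε * δ h hh) (δ := 1) ?_⟩
    have := SL_cancel' γ⁻¹ k
    rw [inv_inv, q] at this
    rw [Matrix.SpecialLinearGroup.coe_mul, Matrix.mul_assoc, ← e h hh, ← Matrix.mul_assoc, this,
      Matrix.SpecialLinearGroup.coe_one, Matrix.one_mul]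
  · rw [e h hh, hF _ _ (det_hnf (hf h hh))]

/-! ### the summands -/

variable {N : ℕ} {u : ℍ → ℂ}

open Classical in
/-- the value of `u` at `γ Z σ`, where `γ Z` reduces to `μ` -/
def W (N : ℕ) (u : ℍ → ℂ) (μ : R2 N) (σ : ℍ) (Z : Z2) : ℂ :=
  if h : ∃ γ : SL, red N (γ.1 * Z) = μ then u (act (castZ (h.choose.1 * Z)) σ) else 0

theorem isUnit_red {Z : Z2} {n : ℕ} (hc : n.Coprime N) (hZ : Z.det = n) : IsUnit (red N Z).det := by
  rw [red_det, hZ, Int.cast_natCast]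
  exact (ZMod.isUnit_iff_coprime n N).2 hc

theorem mem_Gamma {Z : Z2} {n : ℕ} (hc : n.Coprime N) (hZ : Z.det = n) {γ δ : SL}
    (e : red N (γ.1 * Z) = red N (δ.1 * Z)) : γ * δ⁻¹ ∈ Gamma N := by
  rw [red_mul, red_mul] at e
  have := ((Matrix.isUnit_iff_isUnit_det _).2 (isUnit_red hc hZ)).mul_right_cancel e
  rw [mem_Gamma_iff_red, Matrix.SpecialLinearGroup.coe_mul, red_mul, this, ← red_mul,
    ← Matrix.SpecialLinearGroup.coe_mul, mul_inv_cancel]
  exact (mem_Gamma_iff_red N 1).1 (one_mem _)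

theorem castZ_det_ne {Z : Z2} {n : ℕ} (hn : 0 < n) (hZ : Z.det = n) : (castZ Z).det ≠ 0 := by
  rw [castZ_det, hZ]
  exact_mod_cast hn.ne'

theorem act_SL_mul {Z : Z2} {n : ℕ} (hn : 0 < n) (hZ : Z.det = n) (γ : SL) (σ : ℍ) :
    act (castZ (γ.1 * Z)) σ = γ • act (castZ Z) σ := by
  rw [castZ_mul, act_mul (castZ_det_ne one_pos γ.det_coe) (castZ_det_ne hn hZ), act_SL]

theorem W_eq (hu : LevU N u) {Z : Z2} {n : ℕ} (hn : 0 < n) (hc : n.Coprime N) (hZ : Z.det = n)
    {μ : R2 N} {γ : SL} (e : red N (γ.1 * Z) = μ) (σ : ℍ) :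
    W N u μ σ Z = u (act (castZ (γ.1 * Z)) σ) := by
  have h : ∃ γ : SL, red N (γ.1 * Z) = μ := ⟨γ, e⟩
  rw [W, dif_pos h, act_SL_mul hn hZ, act_SL_mul hn hZ,
    ← hu _ (mem_Gamma hc hZ (h.choose_spec.trans e.symm)) (γ • act (castZ Z) σ), smul_smul,
    inv_mul_cancel_right]

theorem exists_gam (hN : 0 < N) {Z : Z2} {n : ℕ} (hc : n.Coprime N) (hZ : Z.det = n)
    {μ : R2 N} (hμ : μ.det = n) : ∃ γ : SL, red N (γ.1 * Z) = μ := by
  have hU := isUnit_red hc hZ
  obtain ⟨γ, hγ⟩ := red_surj hN (μ * (red N Z)⁻¹) (by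
    rw [Matrix.det_mul, hμ, ← Matrix.det_nonsing_inv_mul_det _ hU, red_det, hZ, mul_comm]
    simp)
  exact ⟨γ, by rw [red_mul, hγ, Matrix.mul_assoc, Matrix.nonsing_inv_mul _ hU, Matrix.mul_one]⟩

theorem W_left (hN : 0 < N) (hu : LevU N u) {n : ℕ} (hn : 0 < n) (hc : n.Coprime N)
    {μ : R2 N} (hμ : μ.det = n) (σ : ℍ) (δ : SL) (Z : Z2) (hZ : Z.det = n) :
    W N u μ σ (δ.1 * Z) = W N u μ σ Z := by
  obtain ⟨γ, e⟩ := exists_gam hN hc ((det_SL δ Z).trans hZ) hμ
  have q : γ.1 * (δ.1 * Z) = (γ * δ).1 * Z := by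
    rw [Matrix.SpecialLinearGroup.coe_mul, Matrix.mul_assoc]
  rw [W_eq hu hn hc ((det_SL δ Z).trans hZ) e, W_eq hu hn hc hZ (q ▸ e), q]

theorem HK_eq (hN : 0 < N) (hu : LevU N u) {n : ℕ} (hn : 0 < n) (hc : n.Coprime N)
    {μ : R2 N} (hμ : μ.det = n) (σ : ℍ) : HK N μ n u σ = ∑ g ∈ hnf n, W N u μ σ g := by
  classical
  have ex : ∀ g : Z2, ∃ γ : SL, g ∈ hnf n → red N (γ.1 * g) = μ := fun g => by
    by_cases hg : g ∈ hnf n
    · obtain ⟨γ, e⟩ := exists_gam hN hc (det_hnf hg) hμ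
      exact ⟨γ, fun _ => e⟩
    · exact ⟨1, fun h => absurd h hg⟩
  choose γ hγ using ex
  have val : ∀ g ∈ hnf n, (toG (castZ ((γ g).1 * g))).1 = castZ ((γ g).1 * g) := fun g hg =>
    toG_val (castZ_det_ne hn ((det_SL _ _).trans (det_hnf hg)))
  rw [HK_of_reps hN μ hn ((hnf n).image fun g => toG (castZ ((γ g).1 * g))) ?_ ?_ hu, sum_image]
  · exact sum_congr rfl fun g hg => (W_eq hu hn hc (det_hnf hg) (hγ g hg) σ).symm
  · intro g hg g' hg' e
    have := congrArg (fun Y : GQ => Y.1) e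
    simp only [val g hg, val g' hg'] at this
    exact hnf_unique hn hg hg' (castZ_injective this)
  · intro Y hY
    obtain ⟨g, hg, rfl⟩ := mem_image.1 hY
    rw [val g hg, castZ_det, det_SL, det_hnf hg, ind_castZ, if_pos (hγ g hg)]
    exact ⟨by simp, rfl⟩
  · intro Y hY hi
    obtain ⟨Z, e1, e2⟩ : ∃ Z : Z2, castZ Z = Y.1 ∧ red N Z = μ := by
      by_contra h
      exact hi (by rw [ind, if_neg h])
    have hZ : Z.det = n := by
      rw [← e1, castZ_det] at hY
      exact_mod_cast hY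
    obtain ⟨g, hg, δ, rfl⟩ := (exists_hnf hn hZ).exists
    refine ⟨toG (castZ ((γ g).1 * g)), ⟨mem_image_of_mem _ hg, iota (δ * (γ g)⁻¹),
      Subgroup.mem_map_of_mem _ (mem_Gamma hc (det_hnf hg) (e2.trans (hγ g hg).symm)), ?_⟩, ?_⟩
    · refine Units.ext ?_
      rw [Units.val_mul, val g hg, iota_val, ← castZ_mul, ← e1, Matrix.SpecialLinearGroup.coe_mul,
        Matrix.mul_assoc, SL_cancel]
    · rintro Y' ⟨hY', ε, hε, q⟩
      obtain ⟨g', hg', rfl⟩ := mem_image.1 hY'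
      obtain ⟨ε, -, rfl⟩ := Subgroup.mem_map.1 hε
      have := congrArg (fun Y : GQ => Y.1) q
      simp only [Units.val_mul, val g' hg', iota_val, ← castZ_mul, ← e1] at this
      have := castZ_injective this
      rw [← Matrix.mul_assoc, ← Matrix.SpecialLinearGroup.coe_mul] at this
      rw [hnf_unique hn hg' hg this]

theorem red_smul (c : ℤ) (Z : Z2) : red N (c • Z) = (c : ZMod N) • red N Z := by
  ext i j
  simp only [red, Matrix.map_apply, Matrix.smul_apply, smul_eq_mul, Int.cast_mul]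

theorem HK_comp (hN : 0 < N) (hu : LevU N u) {m n : ℕ} (hm : 0 < m) (hcm : m.Coprime N)
    (hn : 0 < n) (hc : n.Coprime N) {μ ν : R2 N} (hμ : μ.det = m) (hν : ν.det = n) :
    HK N μ m (HK N ν n u) = ∑ δ ∈ (Nat.gcd m n).divisors,
      (δ : ℂ) • HK N ((δ : ZMod N)⁻¹ • (ν * μ)) (m * n / δ ^ 2) u := by
  funext σ
  have hmn := Nat.mul_pos hm hn
  have hcmn : (m * n).Coprime N := Nat.Coprime.mul_left hcm hc
  have hνμ : (ν * μ).det = (m * n : ℕ) := by rw [Matrix.det_mul, hμ, hν]; push_cast; ring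
  have hF := W_left hN hu hmn hcmn hνμ σ
  have hu' := hu.levU_HK hN ν n
  calc _ = ∑ g ∈ hnf m, ∑ h ∈ hnf n, W N u (ν * μ) σ (h * g) := by
        rw [HK_eq hN hu' hm hcm hμ]
        refine sum_congr rfl fun g hg => ?_
        obtain ⟨γ, e⟩ := exists_gam hN hcm (det_hnf hg) hμ
        have dg : (γ.1 * g).det = m := (det_SL _ _).trans (det_hnf hg)
        rw [W_eq hu' hm hcm (det_hnf hg) e, HK_eq hN hu hn hc hν,
          ← sum_right (fun h => W N u (ν * μ) σ (h * g)) hn (fun δ Z hZ => by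
            rw [Matrix.mul_assoc, hF _ _ (by
              rw [Matrix.det_mul, hZ, det_hnf hg]; push_cast; ring)]) γ]
        refine sum_congr rfl fun h hh => ?_
        obtain ⟨δ, e'⟩ := exists_gam hN hc (det_hnf hh) hν
        rw [W_eq hu hn hc (det_hnf hh) e', Matrix.mul_assoc, W_eq hu hmn hcmn (γ := δ)
          (by rw [Matrix.det_mul, dg, det_hnf hh]; push_cast; ring)
          (by rw [← Matrix.mul_assoc, red_mul, e, e']), ← Matrix.mul_assoc δ.1,
          castZ_mul _ (γ.1 * g), act_mul (castZ_det_ne hn ((det_SL _ _).trans (det_hnf hh)))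
            (castZ_det_ne hm dg)]
    _ = _ := by
        rw [dbl_sum _ hm hn hF, Finset.sum_apply]
        refine sum_congr rfl fun δ hδ => ?_
        have hδ0 := Nat.pos_of_mem_divisors hδ
        have h1 := Nat.dvd_of_mem_divisors hδ
        obtain ⟨m1, rfl⟩ := h1.trans (Nat.gcd_dvd_left m n)
        obtain ⟨n1, rfl⟩ := h1.trans (Nat.gcd_dvd_right _ n)
        have hk : 0 < m1 * n1 :=
          Nat.mul_pos (Nat.pos_of_mul_pos_left hm) (Nat.pos_of_mul_pos_left hn)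
        have hck : (m1 * n1).Coprime N :=
          Nat.Coprime.mul_left (Nat.Coprime.coprime_mul_left hcm) (Nat.Coprime.coprime_mul_left hc)
        have hi : (δ : ZMod N) * (δ : ZMod N)⁻¹ = 1 :=
          ZMod.coe_mul_inv_eq_one δ (Nat.Coprime.coprime_mul_right hcm)
        have hd : ((δ : ZMod N)⁻¹ • (ν * μ)).det = (m1 * n1 : ℕ) := by
          rw [Matrix.det_smul, hνμ, Fintype.card_fin]
          push_cast
          linear_combination ((m1 : ZMod N) * n1 * ((δ : ZMod N) * (δ : ZMod N)⁻¹ + 1)) * hi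
        rw [show δ * m1 * (δ * n1) / δ ^ 2 = m1 * n1 by
          rw [show δ * m1 * (δ * n1) = δ ^ 2 * (m1 * n1) by ring,
            Nat.mul_div_cancel_left _ (by positivity)], Pi.smul_apply, smul_eq_mul,
          HK_eq hN hu hk hck hd]
        congr 1
        refine sum_congr rfl fun k hk' => ?_
        obtain ⟨γ, e⟩ := exists_gam hN hck (det_hnf hk') hd
        rw [W_eq hu hk hck (det_hnf hk') e, W_eq hu hmn hcmn (γ := γ)
          (by rw [Matrix.det_smul, det_hnf hk', Fintype.card_fin]; push_cast; ring)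
          (by rw [Matrix.mul_smul, red_smul, e, smul_smul, Int.cast_natCast, hi, one_smul]),
          Matrix.mul_smul, castZ_smul, act_smul (by exact_mod_cast hδ0.ne')]

theorem HK_one (hN : 0 < N) (hu : LevU N u) : HK N 1 1 u = u := by
  funext σ
  have e : hnf 1 = {1} := by
    have : ut 1 0 1 = 1 := by rw [ut, Matrix.one_fin_two]
    simp [hnf, this]
  rw [HK_eq hN hu one_pos (Nat.coprime_one_left N) (by simp), e, sum_singleton,
    W_eq hu one_pos (Nat.coprime_one_left N) (by simp) (γ := 1)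
      (by simpa using (mem_Gamma_iff_red N 1).1 (one_mem _)), Matrix.mul_one, act_SL, one_smul]

theorem HK_comp_cop (hN : 0 < N) (hu : LevU N u) {m n : ℕ} (hm : 0 < m) (hcm : m.Coprime N)
    (hn : 0 < n) (hc : n.Coprime N) {μ ν : R2 N} (hμ : μ.det = m) (hν : ν.det = n)
    (h : Nat.gcd m n = 1) : HK N μ m (HK N ν n u) = HK N (ν * μ) (m * n) u := by
  rw [HK_comp hN hu hm hcm hn hc hμ hν, h]
  simp [ZMod.inv_one]

theorem det_T (n : ℕ) : (!![1, 0; 0, (n : ZMod N)] : R2 N).det = n := by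
  simp [Matrix.det_fin_two]

theorem det_D {a : ZMod N} (ha : IsUnit a) : (!![a⁻¹, 0; 0, a] : R2 N).det = (1 : ℕ) := by
  simp [Matrix.det_fin_two, ZMod.inv_mul_of_unit a ha]

theorem dia_T (hN : 0 < N) (hu : LevU N u) {a : ZMod N} (ha : IsUnit a) {n : ℕ} (hn : 0 < n)
    (hc : n.Coprime N) : Dia N a (Tn N n u) = HK N !![a⁻¹, 0; 0, a * n] n u := by
  rw [Dia, Tn, HK_comp_cop hN hu one_pos (Nat.coprime_one_left N) hn hc (det_D ha) (det_T n)
    (Nat.gcd_one_left n), one_mul]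
  simp [mul_comm]

end HkP

open HkP in
theorem hk : S_Hk := by
  intro N hN u hu
  refine ⟨?_, ?_, fun a b ha hb => ?_, fun a n ha hn hc => ⟨?_, (dia_T hN hu ha hn hc).symm⟩,
    fun p n hp hcp hn hc => ?_, fun m n hm hcm hn hc => ?_⟩
  · rw [Tn, Nat.cast_one, ← Matrix.one_fin_two, HK_one hN hu]
  · rw [Dia, ZMod.inv_one, ← Matrix.one_fin_two, HK_one hN hu]
  · have : (a * b)⁻¹ = b⁻¹ * a⁻¹ := ZMod.inv_eq_of_mul_eq_one N _ _ (by
      linear_combination (b * b⁻¹) * ZMod.mul_inv_of_unit a ha + ZMod.mul_inv_of_unit b hb)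
    rw [Dia, Dia, Dia, HK_comp_cop hN hu one_pos (Nat.coprime_one_left N) one_pos
      (Nat.coprime_one_left N) (det_D ha) (det_D hb) rfl, this]
    simp [mul_comm]
  · rw [dia_T hN hu ha hn hc, Dia, Tn, HK_comp_cop hN hu hn hc one_pos (Nat.coprime_one_left N)
      (det_T n) (det_D ha) (Nat.gcd_one_right n), mul_one]
    simp
  · have e : (!![1, 0; 0, (n : ZMod N)] * !![1, 0; 0, (p : ZMod N)] : R2 N) =
        !![1, 0; 0, ((p * n : ℕ) : ZMod N)] := by simp [mul_comm]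
    split_ifs with h
    · obtain ⟨k, rfl⟩ := h
      have hk : 0 < k := Nat.pos_of_mul_pos_left hn
      have hup : IsUnit (p : ZMod N) := (ZMod.isUnit_iff_coprime p N).2 hcp
      rw [Nat.mul_div_cancel_left _ hp.pos, dia_T hN hu hup hk (Nat.Coprime.coprime_mul_left hc),
        Tn, Tn, Tn, HK_comp hN hu hp.pos hcp hn hc (det_T p) (det_T _), Nat.gcd_mul_right_right,
        hp.sum_divisors, e, add_comm, show p * (p * k) / p ^ 2 = k by
          rw [← mul_assoc, ← sq, Nat.mul_div_cancel_left _ (pow_pos hp.pos 2)]]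
      have e2 : ((p : ZMod N)⁻¹ • !![1, 0; 0, ((p * (p * k) : ℕ) : ZMod N)] : R2 N) =
          !![(p : ZMod N)⁻¹, 0; 0, p * k] := by
        ext i j
        fin_cases i <;> fin_cases j <;> simp [← mul_assoc, ZMod.inv_mul_of_unit _ hup]
      rw [e2, Nat.cast_one, Nat.cast_one, one_smul, ZMod.inv_one, one_smul, one_pow, Nat.div_one]
    · rw [add_zero, Tn, Tn, Tn, HK_comp_cop hN hu hp.pos hcp hn hc (det_T p) (det_T n)
        ((Nat.Prime.coprime_iff_not_dvd hp).2 h), e]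
  · rw [Tn, Tn, HK_comp hN hu hm hcm hn hc (det_T m) (det_T n),
      HK_comp hN hu hn hc hm hcm (det_T n) (det_T m), Nat.gcd_comm, mul_comm m n]
    simp [mul_comm]

end

end Pool.Agent.P.MP_b8021b_nt.CM
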