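import Pool.Agent.P.MP_b8021b_nt.CM.Lib
import Pool.Agent.P.MP_94fe55_nt.Conv
import Pool.Agent.P.MP_94fe55_nt.Mod1

/-! Package P2: facts on the `j`-invariant. -/

namespace Pool.Agent.P.MP_b8021b_nt.CM

open Complex hiding Gamma
open UpperHalfPlane hiding I
open CongruenceSubgroup Filter
open scoped Real MatrixGroups Modular Topology ModularForm

noncomputable section

namespace JInvP

abbrev A : ℍ → ℂ := ModularForm.E₄
abbrev B : ℍ → ℂ := ModularForm.E₆
abbrev D : ℍ → ℂ := ModularForm.discriminant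
abbrev Di : ℍ → ℂ := fun τ => (ModularForm.discriminant τ)⁻¹

theorem jj_SL (γ : SL) (τ : ℍ) : jj (γ • τ) = jj τ := inO_jj.2 γ (mem_Gamma_one γ) τ

theorem coord {σ : ℍ} {m n m' n' : ℤ} (h : (m : ℂ) * σ + n = m' * σ + n') : m = m' ∧ n = n' := by
  have h1 := congrArg Complex.im h
  have h2 := congrArg Complex.re h
  simp [σ.im_pos.ne'] at h1 h2
  subst h1
  simpa using h2

theorem inj {τ σ : ℍ} (h : jj τ = jj σ) : ∃ γ : SL, γ • τ = σ := by
  obtain ⟨L, hL⟩ := MP_94fe55_nt.exists_lat_tau τ.im_pos.ne'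
  obtain ⟨L', hL'⟩ := MP_94fe55_nt.exists_lat_tau σ.im_pos.ne'
  obtain ⟨c, hi⟩ := MP_94fe55_nt.homoth MP_94fe55_nt.disc L L' (by
    rw [MP_94fe55_nt.jL_eq_J τ.im_pos.ne' hL, MP_94fe55_nt.jL_eq_J σ.im_pos.ne' hL',
      MP_94fe55_nt.J_eq_E4, MP_94fe55_nt.J_eq_E4]
    exact h)
  have hc := hi.1
  obtain ⟨p, q, e1⟩ := (hL' _).1 (hi.hom _ hL.left)
  obtain ⟨r, s, e2⟩ := (hL' _).1 (hi.hom _ hL.right)
  obtain ⟨a, b, e3⟩ := (hL _).1 (hi.symm.hom _ hL'.left)
  obtain ⟨u, v, e4⟩ := (hL _).1 (hi.symm.hom _ hL'.right)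
  simp only [mul_one] at e1 e2 e3 e4
  have hcc : c * c⁻¹ = 1 := mul_inv_cancel₀ hc
  have k1 : ((1 : ℤ) : ℂ) * σ + (0 : ℤ) = (a * p + b * r : ℤ) * σ + (a * q + b * s : ℤ) := by
    push_cast
    linear_combination c * e3 + a * e1 + b * e2 - σ * hcc
  have k2 : ((0 : ℤ) : ℂ) * σ + (1 : ℤ) = (u * p + v * r : ℤ) * σ + (u * q + v * s : ℤ) := by
    push_cast
    linear_combination c * e4 + u * e1 + v * e2 - hcc
  obtain ⟨k11, k12⟩ := coord k1
  obtain ⟨k21, k22⟩ := coord k2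
  have hdet : (a * v - b * u) * (p * s - q * r) = 1 := by
    have : (a * v - b * u) * (p * s - q * r) =
      (a * p + b * r) * (u * q + v * s) - (a * q + b * s) * (u * p + v * r) := by ring
    rw [this, ← k11, ← k12, ← k21, ← k22]; norm_num
  have e5 : (σ : ℂ) * (u * τ + v) = a * τ + b := by rw [← e4, ← e3, mul_comm]
  have hd : a * v - b * u = 1 := by
    rcases Int.eq_one_or_neg_one_of_mul_eq_one hdet with h1 | h1
    · exact h1
    · exfalso
      have h2 := congrArg Complex.im e5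
      have h3 := congrArg Complex.re e5
      simp at h2 h3
      have h4 : (a : ℝ) * v - b * u = -1 := by exact_mod_cast h1
      have h5 : σ.im * ((u * τ.re + v) ^ 2 + (u * τ.im) ^ 2) = -τ.im := by
        linear_combination (u * τ.re + v) * h2 - (u * τ.im) * h3 + τ.im * h4
      have h6 : 0 ≤ σ.im * ((u * τ.re + v) ^ 2 + (u * τ.im) ^ 2) := by
        have := σ.im_pos; positivity
      linarith [τ.im_pos]
  refine ⟨⟨!![a, b; u, v], by simpa [Matrix.det_fin_two] using hd⟩, ?_⟩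
  rw [UpperHalfPlane.ext_iff, coe_SL, div_eq_iff (jf_ne_zero _ _)]
  simpa [jf] using e5.symm

theorem surj : Function.Surjective jj := fun c => by
  obtain ⟨τ, hτ, e⟩ := MP_94fe55_nt.J_surj c
  exact ⟨⟨τ, hτ⟩, by rw [← e]; exact (MP_94fe55_nt.J_eq_E4 ⟨τ, hτ⟩).symm⟩

theorem law_of_sl {f : ℍ → ℂ} {k : ℕ} {γ : SL} (h : sl k γ f = f) (τ : ℍ) :
    f (γ • τ) = jf γ τ ^ k * f τ := by
  have h1 := congrFun h τ
  have h2 : jf γ τ ^ k ≠ 0 := pow_ne_zero _ (jf_ne_zero γ τ)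
  rw [sl, zpow_neg, zpow_natCast] at h1
  rw [← h1]; field_simp

theorem A_law (γ : SL) (τ : ℍ) : A (γ • τ) = jf γ τ ^ 4 * A τ :=
  law_of_sl ((inG_levelOne ModularForm.E₄).2 γ) τ
theorem B_law (γ : SL) (τ : ℍ) : B (γ • τ) = jf γ τ ^ 6 * B τ :=
  law_of_sl ((inG_levelOne ModularForm.E₆).2 γ) τ
theorem D_law (γ : SL) (τ : ℍ) : D (γ • τ) = jf γ τ ^ 12 * D τ :=
  law_of_sl (k := 12) (inG_Delta.2 γ) τ
theorem inG_A : InG A := (inG_levelOne ModularForm.E₄).1
theorem inG_B : InG B := (inG_levelOne ModularForm.E₆).1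
theorem D_ne (τ : ℍ) : D τ ≠ 0 := ModularForm.discriminant_ne_zero τ
theorem D_eq (τ : ℍ) : D τ = (A τ ^ 3 - B τ ^ 2) / 1728 :=
  ModularForm.discriminant_eq_E₄_cube_sub_E₆_sq τ

theorem per_iff (f : ℍ → ℂ) : Per 1 f ↔ ∀ τ, f (ModularGroup.T • τ) = f τ := by
  simp only [Per, modular_T_smul, Nat.cast_one]

theorem per_A : Per 1 A := (per_iff _).2 fun τ => by rw [A_law, jf_T]; simp
theorem per_B : Per 1 B := (per_iff _).2 fun τ => by rw [B_law, jf_T]; simp
theorem per_D : Per 1 D := (per_iff _).2 fun τ => by rw [D_law, jf_T]; simp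
theorem per_Di : Per 1 Di := fun τ => congrArg Inv.inv (per_D τ)
theorem per_mul {f g : ℍ → ℂ} (h : Per 1 f) (h' : Per 1 g) : Per 1 (f * g) := fun τ => by
  rw [Pi.mul_apply, Pi.mul_apply, h, h']
theorem per_der {f : ℍ → ℂ} (hf : Hol f) (h : Per 1 f) : Per 1 (der f) := by
  rw [per_iff] at h ⊢
  intro τ
  have h1 := der_SL hf ModularGroup.T τ
  rw [jf_T, funext h] at h1
  simpa using h1.symm

theorem hasDer {f : ℍ → ℂ} (hf : Hol f) (τ : ℍ) : HasDerivAt (f ∘ ofComplex) (der f τ) τ :=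
  (hf.analyticAt τ).differentiableAt.hasDerivAt

theorem hasDer_jf (γ : SL) (τ : ℍ) : HasDerivAt (jf γ ∘ ofComplex) ((γ 1 0 : ℤ) : ℂ) τ := by
  have h1 : HasDerivAt (fun z : ℂ => ((γ 1 0 : ℤ) : ℂ) * z + (γ 1 1 : ℤ)) ((γ 1 0 : ℤ) : ℂ) τ := by
    simpa using ((hasDerivAt_id (τ : ℂ)).const_mul ((γ 1 0 : ℤ) : ℂ)).add_const ((γ 1 1 : ℤ) : ℂ)
  refine h1.congr_of_eventuallyEq ?_
  filter_upwards [eventuallyEq_coe_comp_ofComplex τ.im_pos] with z hz
  simp only [Function.comp_apply, id] at hz ⊢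
  rw [jf, hz]

theorem der_law {f : ℍ → ℂ} (hf : Hol f) {k : ℕ} {γ : SL}
    (h : ∀ τ, f (γ • τ) = jf γ τ ^ (k + 1) * f τ) (τ : ℍ) :
    der f (γ • τ) = jf γ τ ^ 2 *
      ((k + 1) * jf γ τ ^ k * (γ 1 0 : ℤ) * f τ + jf γ τ ^ (k + 1) * der f τ) := by
  have h1 := der_SL hf γ τ
  have h2 := (((hasDer_jf γ τ).pow (k + 1)).mul (hasDer hf τ)).deriv
  have h3 : (fun σ => f (γ • σ)) ∘ ofComplex = (jf γ ∘ ofComplex) ^ (k + 1) * (f ∘ ofComplex) := by
    funext z; exact h _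
  rw [der, h3, h2, eq_div_iff (pow_ne_zero _ (jf_ne_zero γ τ))] at h1
  rw [← h1]
  simp [mul_comm]

theorem coef_A (n : ℤ) : coef 1 A n = if 0 ≤ n then
    (if n.toNat = 0 then 1 else
      -(2 * (4 : ℕ) / bernoulli 4 : ℂ) * (ArithmeticFunction.sigma 3 n.toNat)) else 0 := by
  rw [coef_eq_qExpansion, EisensteinSeries.E_qExpansion_coeff _ ⟨2, rfl⟩]
theorem coef_B (n : ℤ) : coef 1 B n = if 0 ≤ n then
    (if n.toNat = 0 then 1 else
      -(2 * (6 : ℕ) / bernoulli 6 : ℂ) * (ArithmeticFunction.sigma 5 n.toNat)) else 0 := by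
  rw [coef_eq_qExpansion, EisensteinSeries.E_qExpansion_coeff _ ⟨3, rfl⟩]

theorem rat_A : RatExp 1 A := fun n => by
  rw [coef_A]
  split_ifs
  · exact ⟨1, by simp⟩
  · exact ⟨-(2 * (4 : ℕ) / bernoulli 4) * (ArithmeticFunction.sigma 3 n.toNat), by push_cast; rfl⟩
  · exact ⟨0, by simp⟩
theorem rat_B : RatExp 1 B := fun n => by
  rw [coef_B]
  split_ifs
  · exact ⟨1, by simp⟩
  · exact ⟨-(2 * (6 : ℕ) / bernoulli 6) * (ArithmeticFunction.sigma 5 n.toNat), by push_cast; rfl⟩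
  · exact ⟨0, by simp⟩
theorem coef_A_neg (n : ℤ) (h : n < 0) : coef 1 A n = 0 := by rw [coef_A, if_neg (by omega)]
theorem coef_B_neg (n : ℤ) (h : n < 0) : coef 1 B n = 0 := by rw [coef_B, if_neg (by omega)]
theorem coef_A_zero : coef 1 A 0 = 1 := by rw [coef_A]; simp

theorem der_tendsto {f : ℍ → ℂ} (hf : Hol f) (hp : Per 1 f) (h : ∀ n < 0, coef 1 f n = 0) :
    Tendsto (der f) atImInfty (𝓝 0) := by
  have h1 := tendsto_leading (a := 0) one_pos hf.deriv (per_der hf hp) fun n hn => by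
    rw [coef_der one_pos hf hp, h n hn, mul_zero]
  rw [coef_der one_pos hf hp] at h1
  simpa [e_zero] using h1

/-- the Rankin-Cohen bracket of the two Eisenstein series -/
def R : ℍ → ℂ := (2 : ℂ) • (A * der B) - (3 : ℂ) • (der A * B)

theorem R_apply (τ : ℍ) : R τ = 2 * (A τ * der B τ) - 3 * (der A τ * B τ) := rfl

theorem hol_R : Hol R :=
  ((inG_A.1.mul inG_B.1.deriv).smul 2).sub ((inG_A.1.deriv.mul inG_B.1).smul 3)

theorem R_law (γ : SL) (τ : ℍ) : R (γ • τ) = jf γ τ ^ 12 * R τ := by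
  rw [R_apply, R_apply, der_law (k := 3) inG_A.1 (A_law γ), der_law (k := 5) inG_B.1 (B_law γ),
    A_law, B_law]
  push_cast
  ring

theorem R_slash (γ : SL) : R ∣[(12 : ℤ)] γ = R := by
  ext τ
  have h : denom γ τ = jf γ τ := by simp [denom, jf]
  have h2 := jf_ne_zero γ τ
  rw [ModularForm.SL_slash_apply, R_law, h, zpow_neg]
  field_simp

theorem R_tendsto : Tendsto R atImInfty (𝓝 0) := by
  have h := ((MP_94fe55_nt.E4_tendsto.mul (der_tendsto inG_B.1 per_B coef_B_neg)).const_mul 2).sub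
    (((der_tendsto inG_A.1 per_A coef_A_neg).mul MP_94fe55_nt.E6_tendsto).const_mul 3)
  simp only [mul_zero, zero_mul, sub_zero] at h
  exact h

theorem R_eq : ∃ c : ℂ, ∀ τ, R τ = c * D τ := by
  let G : CuspForm 𝒮ℒ 12 :=
    { toFun := R
      slash_action_eq' := fun _ ⟨γ, hγ⟩ => hγ ▸ R_slash γ
      holo' := hol_iff_mdiff.1 hol_R
      zero_at_cusps' := fun {x} hx => by
        rw [Subgroup.IsArithmetic.isCusp_iff_isCusp_SL2Z] at hx
        rw [OnePoint.isZeroAt_iff_forall_SL2Z hx]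
        intro γ _
        rw [R_slash γ]
        exact R_tendsto }
  obtain ⟨c, hc⟩ := CuspForm.exists_smul_discriminant_of_weight_eq_twelve G
  exact ⟨c, fun τ => (DFunLike.congr_fun hc τ).symm⟩

theorem der_D (τ : ℍ) : der D τ = (3 * A τ ^ 2 * der A τ - 2 * B τ * der B τ) / 1728 := by
  have h := ((((hasDer inG_A.1 τ).pow 3).sub ((hasDer inG_B.1 τ).pow 2)).div_const 1728).deriv
  have h2 : D ∘ ofComplex = fun z => ((A ∘ ofComplex) ^ 3 - (B ∘ ofComplex) ^ 2) z / 1728 :=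
    funext fun z => D_eq _
  rw [der, h2, h]
  simp

theorem der_jj (τ : ℍ) : der jj τ = A τ ^ 2 * B τ * R τ / (1728 * D τ ^ 2) := by
  have h0 := D_ne τ
  have h := (((hasDer inG_A.1 τ).pow 3).div (hasDer inG_Delta.1.1 τ) (by simpa using h0)).deriv
  have h2 : jj ∘ ofComplex = (A ∘ ofComplex) ^ 3 / (D ∘ ofComplex) := rfl
  rw [der, h2, h, der_D, R_apply]
  have h3 := D_eq τ
  simp only [Function.comp_apply, ofComplex_apply, Pi.pow_apply, Nat.cast_ofNat,
    Nat.add_one_sub_one]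
  field_simp
  linear_combination (3 * 1728 * A τ ^ 2 * der A τ) * h3

theorem coef_D (n : ℤ) : coef 1 D n = if 0 ≤ n then (qExpansion 1 D).coeff n.toNat else 0 :=
  coef_eq_qExpansion (CuspForm.toModularFormₗ CuspForm.discriminant) n

theorem coef_D_lt (n : ℤ) (h : n < 1) : coef 1 D n = 0 := by
  rw [coef_D]
  split_ifs with h1
  · apply PowerSeries.coeff_of_lt_order
    rw [ModularForm.discriminant_qExpansion_order]
    have : n.toNat = 0 := by omega
    rw [this]; exact zero_lt_one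
  · rfl

theorem coef_D_one : coef 1 D 1 = 1 := by
  rw [coef_D, if_pos zero_le_one]; exact ModularForm.discriminant_qExpansion_coeff_one

theorem rat_D : RatExp 1 D := by
  have h2 := RatExp.mul one_pos inG_A per_A inG_A per_A rat_A rat_A
  have h3 := RatExp.mul one_pos (inG_A.mul inG_A) (per_mul per_A per_A) inG_A per_A h2 rat_A
  have h4 := RatExp.mul one_pos inG_B per_B inG_B per_B rat_B rat_B
  have e1 : D = (1 / 1728 : ℂ) • (A * A * A) + (-1 / 1728 : ℂ) • (B * B) := by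
    funext τ
    rw [D_eq]; simp only [Pi.add_apply, Pi.smul_apply, Pi.mul_apply, smul_eq_mul]; ring
  intro n
  obtain ⟨a, ha⟩ := h3 n
  obtain ⟨b, hb⟩ := h4 n
  rw [e1, coef_add (((inG_A.mul inG_A).mul inG_A).smul _).1.continuous
    ((inG_B.mul inG_B).smul _).1.continuous, coef_smul, coef_smul, ha, hb]
  exact ⟨1 / 1728 * a + -1 / 1728 * b, by push_cast; rfl⟩

theorem coef_rec {b : ℤ} (hb : ∀ n < b, coef 1 Di n = 0) {n : ℤ} (hn : b ≤ n) :
    coef 1 Di n = (if n + 1 = 0 then 1 else 0) -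
      ∑ k ∈ Finset.Icc 2 (n + 1 - b), coef 1 D k * coef 1 Di (n + 1 - k) := by
  have h1 := coef_mul one_pos inG_Delta.1.1 per_D inG_Delta_inv.1 per_Di coef_D_lt hb (n + 1)
  have h2 : D * Di = fun _ => 1 := funext fun τ => mul_inv_cancel₀ (D_ne τ)
  have h3 : Finset.Icc 1 (n + 1 - b) = insert 1 (Finset.Icc 2 (n + 1 - b)) := by
    ext k; simp only [Finset.mem_Icc, Finset.mem_insert]; omega
  rw [h2, coef_const one_pos, h3, Finset.sum_insert (by simp), coef_D_one, one_mul,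
    add_sub_cancel_right] at h1
  rw [h1]; ring

theorem coef_Di_lt (n : ℤ) (h : n < -1) : coef 1 Di n = 0 := by
  obtain ⟨n0, h0⟩ := inG_Delta_inv.exists_pole one_pos per_Di
  have key : ∀ m : ℕ, ∀ n : ℤ, n < -n0 + m → n < -1 → coef 1 Di n = 0 := by
    intro m
    induction m with
    | zero => intro n h1 _; exact h0 n (by simpa using h1)
    | succ m ih =>
      intro n h1 h2
      have h3 : ∀ k < n, coef 1 Di k = 0 := fun k hk => ih k (by push_cast at h1; omega) (by omega)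
      rw [coef_rec h3 le_rfl, if_neg (by omega), Finset.Icc_eq_empty (by omega)]
      simp
  exact key (n + n0 + 1).toNat n (by omega) h

theorem coef_Di_one : coef 1 Di (-1) = 1 := by
  rw [coef_rec coef_Di_lt le_rfl]; simp

theorem rat_Di : RatExp 1 Di := by
  have key : ∀ m : ℕ, ∀ n : ℤ, n < -1 + m → ∃ q : ℚ, coef 1 Di n = q := by
    intro m
    induction m with
    | zero => intro n h1; exact ⟨0, by rw [coef_Di_lt n (by simpa using h1)]; simp⟩
    | succ m ih =>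
      intro n h1
      by_cases h2 : n < -1
      · exact ⟨0, by rw [coef_Di_lt n h2]; simp⟩
      have h3 : ∀ k : ℤ, ∃ q : ℚ, 2 ≤ k → coef 1 D k * coef 1 Di (n + 1 - k) = q := fun k => by
        by_cases hk : 2 ≤ k
        · obtain ⟨a, ha⟩ := rat_D k
          obtain ⟨b, hb⟩ := ih (n + 1 - k) (by push_cast at h1; omega)
          exact ⟨a * b, fun _ => by rw [ha, hb]; push_cast; rfl⟩
        · exact ⟨0, fun h => absurd h hk⟩
      choose q hq using h3
      rw [coef_rec coef_Di_lt (not_lt.1 h2),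
        Finset.sum_congr rfl fun k hk => hq k (Finset.mem_Icc.1 hk).1]
      refine ⟨(if n + 1 = 0 then 1 else 0) - ∑ k ∈ Finset.Icc 2 (n + 1 - -1), q k, ?_⟩
      split_ifs <;> push_cast <;> rfl
  exact fun n => key (n + 2).toNat n (by omega)

theorem jj_eq : jj = A * (A * (A * Di)) := by
  funext τ
  simp only [jj, Pi.mul_apply, div_eq_mul_inv]; ring

theorem coef_A_mul {g : ℍ → ℂ} (h : Hol g) (hp : Per 1 g)
    (h1 : (∀ n < -1, coef 1 g n = 0) ∧ coef 1 g (-1) = 1) :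
    (∀ n < -1, coef 1 (A * g) n = 0) ∧ coef 1 (A * g) (-1) = 1 := by
  have h2 := coef_mul one_pos inG_A.1 per_A h hp coef_A_neg h1.1
  refine ⟨fun n hn => ?_, ?_⟩
  · rw [h2, Finset.Icc_eq_empty (by omega), Finset.sum_empty]
  · rw [h2]; simp [coef_A_zero, h1.2]

theorem coef_jj : (∀ n < -1, coef 1 jj n = 0) ∧ coef 1 jj (-1) = 1 := by
  rw [jj_eq]
  have h := inG_Delta_inv.1
  exact coef_A_mul (inG_A.1.mul (inG_A.1.mul h)) (per_mul per_A (per_mul per_A per_Di))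
    (coef_A_mul (inG_A.1.mul h) (per_mul per_A per_Di)
      (coef_A_mul h per_Di ⟨coef_Di_lt, coef_Di_one⟩))

theorem R_ne (τ : ℍ) : R τ ≠ 0 := by
  obtain ⟨c, hc⟩ := R_eq
  rw [hc]
  refine mul_ne_zero (fun h0 => ?_) (D_ne τ)
  have h1 : der jj = fun _ => 0 := funext fun σ => by rw [der_jj, hc, h0]; simp
  have h2 := coef_der one_pos inO_jj.1.1 inO_jj.2.per (-1)
  rw [h1, coef_const one_pos, coef_jj.2] at h2
  simp at h2

theorem ne_or (τ : ℍ) : A τ ≠ 0 ∨ B τ ≠ 0 := by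
  by_contra h
  push Not at h
  exact D_ne τ (by rw [D_eq, h.1, h.2]; simp)

theorem ord_one {f : ℍ → ℂ} (hf : Hol f) {τ : ℍ} (h0 : f τ = 0) (h1 : der f τ ≠ 0) :
    ordAt f τ = 1 := by
  rw [ordAt, analyticOrderNatAt,
    (hf.analyticAt τ).analyticOrderAt_eq_one_of_zero_deriv_ne_zero (by simpa using h0) h1]
  rfl

theorem ord_pow_Di {f : ℍ → ℂ} (hf : Hol f) {τ : ℍ} (h0 : f τ = 0) (h1 : der f τ ≠ 0) (n : ℕ) :
    ordAt (f ^ n * Di) τ = n := by
  have h2 : f ≠ 0 := by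
    rintro rfl
    exact h1 (by simp [der])
  have h3 : f ^ n ≠ 0 := by
    obtain ⟨σ, hσ⟩ := Function.ne_iff.1 h2
    exact Function.ne_iff.2 ⟨σ, pow_ne_zero n hσ⟩
  have h4 : Di ≠ 0 := Function.ne_iff.2 ⟨τ, inv_ne_zero (D_ne τ)⟩
  rw [(hf.pow n).ord_mul inG_Delta_inv.1 h3 h4, hf.ord_pow h2, ord_one hf h0 h1,
    (inG_Delta_inv.1.ord_eq_zero_iff h4 τ).2 (inv_ne_zero (D_ne τ))]
  simp

theorem card_smul (δ : SL) (τ : ℍ) :
    Nat.card {γ : SL // γ • δ • τ = δ • τ} = Nat.card {γ : SL // γ • τ = τ} :=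
  Nat.card_congr ((MulAut.conj δ⁻¹).toEquiv.subtypeEquiv fun γ => by
    simp [mul_smul, inv_smul_eq_iff])

theorem card_of_finset {τ : ℍ} {s : Finset SL} (h : ∀ γ : SL, γ • τ = τ ↔ γ ∈ s) :
    Nat.card {γ : SL // γ • τ = τ} = s.card := by
  rw [Nat.card_congr (Equiv.subtypeEquivRight h), Nat.card_eq_fintype_card, Fintype.card_coe]

theorem A_rho : A ρ = 0 := by
  have h1 : (ModularGroup.S * ModularGroup.T) • ρ = ρ := ModularGroup.stabilizer_ρ.2 (by simp)
  have h2 := A_law (ModularGroup.S * ModularGroup.T) ρ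
  rw [h1, jf_mul, jf_S, jf_T, coe_T] at h2
  have h3 : ((ρ : ℂ) + 2) * A ρ = 0 := by
    linear_combination h2 + ((ρ : ℂ) ^ 2 + 3 * ρ + 2) * A ρ * ρ_sq
  refine (mul_eq_zero.1 h3).resolve_left fun h4 => ?_
  have := congrArg Complex.im h4
  simp [ρ.im_pos.ne'] at this

theorem B_I : B UpperHalfPlane.I = 0 := by
  have h1 : ModularGroup.S • UpperHalfPlane.I = UpperHalfPlane.I :=
    ModularGroup.stabilizer_I.2 (by simp)
  have h2 := B_law ModularGroup.S UpperHalfPlane.I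
  rw [h1, jf_S, coe_I] at h2
  have h3 : I ^ 6 = -1 := by
    rw [show 6 = 2 * 3 by rfl, pow_mul, I_sq]; norm_num
  rw [h3] at h2
  linear_combination h2 / 2

theorem jj_of_B {τ : ℍ} (h : B τ = 0) : jj τ = 1728 := by
  have h1 := D_eq τ
  rw [jj, div_eq_iff (D_ne τ)]
  rw [h] at h1
  linear_combination -1728 * h1

theorem ord_eq (τ : ℍ) :
    2 * ordAt (fun σ => jj σ - jj τ) τ = Nat.card {γ : SL // γ • τ = τ} := by
  have hR := R_ne τ
  rw [R_apply] at hR
  by_cases hA : A τ = 0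
  · have h1 : jj τ = 0 := by simp [jj, hA]
    have h2 : (fun σ => jj σ - jj τ) = A ^ 3 * Di := by
      funext σ; rw [h1, sub_zero]; exact div_eq_mul_inv _ _
    obtain ⟨δ, rfl⟩ := inj (τ := ρ) (σ := τ) (by rw [h1]; simp [jj, A_rho])
    rw [h2, ord_pow_Di inG_A.1 hA (fun h => hR (by rw [h, hA]; simp)), card_smul,
      card_of_finset fun γ => ModularGroup.stabilizer_ρ]
    decide
  by_cases hB : B τ = 0
  · have h2 : (fun σ => jj σ - jj τ) = B ^ 2 * Di := by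
      funext σ
      have h3 := D_eq σ
      have h4 := D_ne σ
      rw [jj_of_B hB, jj]
      simp only [Pi.mul_apply, Pi.pow_apply]
      field_simp
      linear_combination -1728 * h3
    obtain ⟨δ, rfl⟩ := inj (τ := UpperHalfPlane.I) (σ := τ) (by rw [jj_of_B hB, jj_of_B B_I])
    rw [h2, ord_pow_Di inG_B.1 hB (fun h => hR (by rw [h, hB]; simp)), card_smul,
      card_of_finset fun γ => ModularGroup.stabilizer_I]
    decide
  have h1 : der (fun σ => jj σ - jj τ) τ = der jj τ :=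
    ((hasDer inO_jj.1.1 τ).sub_const (jj τ)).deriv
  have h2 : der jj τ ≠ 0 := by
    rw [der_jj]
    exact div_ne_zero (mul_ne_zero (mul_ne_zero (pow_ne_zero _ hA) hB) (R_ne τ))
      (mul_ne_zero (by norm_num) (pow_ne_zero _ (D_ne τ)))
  rw [ord_one (f := fun σ => jj σ - jj τ) (inO_jj.1.1.sub (hol_const (jj τ))) (sub_self _)
    (by rw [h1]; exact h2)]
  obtain ⟨δ, hδ⟩ := ModularGroup.exists_smul_mem_fd τ
  have hA' : A (δ • τ) ≠ 0 := by
    rw [A_law]; exact mul_ne_zero (pow_ne_zero _ (jf_ne_zero _ _)) hA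
  have hB' : B (δ • τ) ≠ 0 := by
    rw [B_law]; exact mul_ne_zero (pow_ne_zero _ (jf_ne_zero _ _)) hB
  rw [← card_smul δ, card_of_finset (s := {1, -1})]
  · decide
  · intro γ
    rw [Finset.mem_insert, Finset.mem_singleton]
    refine ⟨fun h => ModularGroup.stabilizer_of_ne hδ h ?_ ?_ ?_, ?_⟩
    · intro h; exact hB' (h ▸ B_I)
    · intro h; exact hA' (h ▸ A_rho)
    · intro h
      refine hA' ?_
      rw [h, ← modular_T_smul, A_law, A_rho, mul_zero]
    · rintro (rfl | rfl)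
      · exact one_smul _ _
      · rw [ModularGroup.SL_neg_smul, one_smul]

end JInvP

theorem jinv : S_J :=
  ⟨fun _ _ => ⟨JInvP.inj, fun ⟨γ, h⟩ => h ▸ (JInvP.jj_SL γ _).symm⟩, JInvP.surj, JInvP.ord_eq,
    JInvP.coef_jj.1, JInvP.coef_jj.2, JInvP.rat_A, JInvP.rat_B, JInvP.rat_Di, JInvP.ne_or⟩

end

end Pool.Agent.P.MP_b8021b_nt.CM
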