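import Pool.Agent.P.MP_b8021b_nt.CM.JXL0

/-! Package P18, second part: the unfolded weight one integral. -/

namespace Pool.Agent.P.MP_b8021b_nt.CM

open Complex hiding Gamma
open UpperHalfPlane hiding I
open MeasureTheory CongruenceSubgroup Filter
open scoped Real MatrixGroups ModularForm Topology ComplexConjugate Modular

noncomputable section

namespace JXLP

theorem integrable_exp_abs : Integrable fun u : ℝ => Real.exp (-|u|) := by
  rw [← integrableOn_univ, ← Set.Iic_union_Ioi (a := (0 : ℝ))]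
  refine IntegrableOn.union ?_ ?_
  · refine (integrableOn_exp_Iic 0).congr_fun (fun u hu => ?_) measurableSet_Iic
    simp only [abs_of_nonpos (Set.mem_Iic.1 hu), neg_neg]
  · refine (integrableOn_exp_neg_Ioi 0).congr_fun (fun u hu => ?_) measurableSet_Ioi
    simp only [abs_of_pos (Set.mem_Ioi.1 hu)]

theorem sub_smul_eq (ξ : ℝ × ℝ) (u : ℝ) : ξ - u • ((1 : ℝ), (0 : ℝ)) = (ξ.1 - u, ξ.2) := by
  ext <;> simp

theorem integrable_conv {A : ℝ} (hA : 0 ≤ A) {g : ℝ × ℝ → ℂ} (hg : Base A g) {k : ℝ → ℂ}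
    (hk : Half k) (ξ : ℝ × ℝ) : Integrable fun u : ℝ => g (ξ.1 - u, ξ.2) * k u := by
  obtain ⟨C, hC⟩ := hg.2 (A + 1, A + 4) (by simp) (by simp only; linarith)
  obtain ⟨C0, h0⟩ := hk.2 0 le_rfl
  obtain ⟨C1, h1⟩ := hk.2 (A + 2) (by linarith)
  have hC' : 0 ≤ C := by
    have := (norm_nonneg _).trans (hC ξ)
    exact nonneg_of_mul_nonneg_left this (Real.exp_pos _)
  have h0' : 0 ≤ C0 := by
    have := (norm_nonneg _).trans (h0 0)
    exact nonneg_of_mul_nonneg_left this (Real.exp_pos _)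
  have h1' : 0 ≤ C1 := by
    have := (norm_nonneg _).trans (h1 0)
    exact nonneg_of_mul_nonneg_left this (Real.exp_pos _)
  set E := Real.exp (-((A + 1) * ξ.1 + (A + 4) * ξ.2)) with hE
  have hE0 : 0 < E := Real.exp_pos _
  refine (integrable_exp_abs.const_mul (C * E * (C0 + C1))).mono'
    ((hg.1.comp (by fun_prop)).mul hk.1).aestronglyMeasurable (ae_of_all _ fun u => ?_)
  have e1 : ‖g (ξ.1 - u, ξ.2)‖ ≤ C * E * Real.exp ((A + 1) * u) := by
    refine (hC _).trans (le_of_eq ?_)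
    rw [hE, mul_assoc, ← Real.exp_add]
    congr 2
    ring
  have e2 : Real.exp ((A + 1) * u) * ‖k u‖ ≤ (C0 + C1) * Real.exp (-|u|) := by
    rcases le_total u 0 with hu | hu
    · have h3 : Real.exp ((A + 1) * u) ≤ Real.exp (-|u|) := by
        rw [Real.exp_le_exp, abs_of_nonpos hu]; nlinarith
      have h4 : ‖k u‖ ≤ C0 + C1 := by
        have := h0 u
        simp only [zero_mul, neg_zero, Real.exp_zero, mul_one] at this
        linarith
      rw [mul_comm]
      exact mul_le_mul h4 h3 (Real.exp_pos _).le (by positivity)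
    · calc Real.exp ((A + 1) * u) * ‖k u‖
          ≤ Real.exp ((A + 1) * u) * (C1 * Real.exp (-((A + 2) * u))) := by
            gcongr; exact h1 u
        _ = C1 * Real.exp (-|u|) := by
            rw [mul_left_comm, ← Real.exp_add, abs_of_nonneg hu]
            congr 2
            ring
        _ ≤ (C0 + C1) * Real.exp (-|u|) := by gcongr; linarith
  rw [norm_mul]
  calc ‖g (ξ.1 - u, ξ.2)‖ * ‖k u‖ ≤ C * E * Real.exp ((A + 1) * u) * ‖k u‖ := by gcongr
    _ = C * E * (Real.exp ((A + 1) * u) * ‖k u‖) := by ring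
    _ ≤ C * E * ((C0 + C1) * Real.exp (-|u|)) := by gcongr
    _ = _ := by ring

theorem integral_subst (H : ℝ → ℂ) (a : ℝ) :
    ∫ y in Set.Ioi (0 : ℝ), H y / (y : ℂ) = ∫ u : ℝ, H (Real.exp (a - u)) := by
  have him : (fun u : ℝ => Real.exp (a - u)) '' Set.univ = Set.Ioi 0 := by
    ext y
    constructor
    · rintro ⟨u, -, rfl⟩
      exact Real.exp_pos _
    · intro hy
      exact ⟨a - Real.log y, trivial, by simp [Real.exp_log hy]⟩
  have hd : ∀ u ∈ (Set.univ : Set ℝ), HasDerivWithinAt (fun u : ℝ => Real.exp (a - u))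
      (Real.exp (a - u) * (0 - 1)) Set.univ u := fun u _ =>
    (((hasDerivAt_const u a).sub (hasDerivAt_id u)).exp).hasDerivWithinAt
  have hinj : Set.InjOn (fun u : ℝ => Real.exp (a - u)) Set.univ := fun u _ w _ h => by
    have := Real.exp_injective h
    linarith
  rw [← him, integral_image_eq_integral_abs_deriv_smul MeasurableSet.univ hd hinj,
    Measure.restrict_univ]
  refine integral_congr_ae (ae_of_all _ fun u => ?_)
  have h0 : ((Real.exp (a - u) : ℝ) : ℂ) ≠ 0 := by exact_mod_cast (Real.exp_pos _).ne'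
  simp only [zero_sub, mul_neg, mul_one, abs_neg, abs_of_pos (Real.exp_pos _), Complex.real_smul]
  field_simp

/-- the general term of `ker1` -/
def kT (c : ℚ → ℂ) (u : ℝ) (n : ℚ) : ℂ :=
  (Real.exp u : ℂ) *
    if 0 < n then c n * n * ((Real.exp (-π * n ^ 2 * Real.exp u) : ℝ) : ℂ) else 0

theorem ker1_eq (c : ℚ → ℂ) (u : ℝ) : ker1 c u = ∑' n, kT c u n := by
  unfold ker1 kT
  rw [tsum_mul_left]

theorem continuous_kT (c : ℚ → ℂ) (n : ℚ) : Continuous fun u => kT c u n := by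
  unfold kT
  split_ifs <;> fun_prop

theorem summable_kT {c : ℚ → ℂ} (hc : SB c) (u : ℝ) : Summable fun n => ‖kT c u n‖ := by
  have h := summable_gauss hc (a := (Real.exp u : ℂ)) (Real.exp_pos u) 0 1
  refine Summable.of_nonneg_of_le (fun _ => norm_nonneg _) (fun n => ?_)
    (h.mul_left ‖(Real.exp u : ℂ)‖)
  rw [kT, norm_mul]
  gcongr
  split_ifs
  · refine le_of_eq ?_
    congr 2
    · rw [pow_one]
    · rw [ofReal_exp]
      congr 1
      push_cast
      ring
  · rw [norm_zero]; exact norm_nonneg _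

theorem kT_norm (c : ℚ → ℂ) (u : ℝ) (n : ℚ) :
    kT (fun n => (‖c n‖ : ℂ)) u n = (‖kT c u n‖ : ℝ) := by
  unfold kT
  split_ifs with h
  · have h' : (0 : ℝ) < n := by exact_mod_cast h
    have e1 : ‖((n : ℚ) : ℂ)‖ = n := by
      rw [← ofReal_ratCast, Complex.norm_real, Real.norm_of_nonneg h'.le]
    rw [norm_mul, norm_mul, norm_mul, e1, Complex.norm_real, Complex.norm_real,
      Real.norm_of_nonneg (Real.exp_pos _).le, Real.norm_of_nonneg (Real.exp_pos _).le]
    simp only [ofReal_mul, ofReal_ratCast]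
  · simp

theorem sb_norm {c : ℚ → ℂ} (hc : SB c) : SB fun n => (‖c n‖ : ℂ) := by
  obtain ⟨M, hM, h1, h2⟩ := hc
  refine ⟨M, hM, fun x k hk => by simp only [h1 x k hk], fun x hx => h2 x fun h => hx ?_⟩
  simp [h]

variable {s : ℍ → ℍ → ℂ} {d : ℕ} {v : U6 → U6 → ℂ}

theorem continuous_gvT (p : Q2 × ℚ) (ξ : ℝ × ℝ) :
    Continuous fun u : ℝ => gvT s d v (ξ.1 - u, ξ.2) p := by
  unfold gvT
  fun_prop

theorem gvT_eq (x : Q2) (l : ℚ) (a b : ℝ) : gvT s d v (a, b) (x, l) =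
    ((Real.exp (b / 2) * Real.exp (-4 * π * Nm d x * Real.exp b) * Real.exp a : ℝ) : ℂ) *
      (aa s d v x (d * l ^ 2) l * (((4 * Real.exp a * Nm d x : ℝ) ^ (-(1 / 2) : ℝ) *
        Real.exp (-4 * π * Nm d x * (Real.exp a * d * l ^ 2)) : ℝ) : ℂ)) := by
  have hj : (0 : ℝ) ≤ Nm d x := by exact_mod_cast Nm_nonneg d x
  have e1 : (4 * Real.exp a * Nm d x : ℝ) ^ (-(1 / 2) : ℝ) =
      Real.exp (-(a / 2)) * (4 * Nm d x : ℝ) ^ (-(1 / 2) : ℝ) := by
    rw [mul_right_comm, mul_comm, Real.mul_rpow (Real.exp_pos _).le (by positivity),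
      ← Real.exp_mul]
    congr 2
    ring
  have e2 : Real.exp (a / 2 + b / 2) = Real.exp (b / 2) * Real.exp a * Real.exp (-(a / 2)) := by
    rw [← Real.exp_add, ← Real.exp_add]; congr 1; ring
  rw [gvT, mul_left_comm, ← ofReal_mul, e1, e2, mul_add, Real.exp_add]
  congr 2
  ring

end JXLP

open JXLP in
theorem lst (_ : S_AAW) (hR : S_Rho) (hJ : S_JXW) (hB : S_B0W) (hK : S_Ker) : S_LstW := by
  intro d M hd hM hdM s hs v hv hT c hc ξ
  obtain ⟨ρ, hρ⟩ := hR d M hd hM hdM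
  obtain ⟨-, -, -, -, -, -, -, hct⟩ := hJ s hs d M hd hM ρ hρ v hv
  obtain ⟨A, hA, hB⟩ := hB
  obtain ⟨-, hsum, hbase, -⟩ := hB s hs d M hd hM v hv
  have hint := integrable_conv hA hbase (hK.1 _ (sb_norm hc)).2 ξ
  let G : Q2 → ℝ → ℂ := fun x u => ∑' l, gvT s d v (ξ.1 - u, ξ.2) (x, l)
  let Nx : Q2 → ℝ → ℝ := fun x u => ∑' l, ‖gvT s d v (ξ.1 - u, ξ.2) (x, l)‖
  have hNx : ∀ u, Summable fun x => Nx x u := fun u => (hsum (ξ.1 - u, ξ.2)).prod
  have hGN : ∀ x u, ‖G x u‖ ≤ Nx x u := fun x u =>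
    norm_tsum_le_tsum_norm ((hsum (ξ.1 - u, ξ.2)).prod_factor x)
  have hG : ∀ u, Summable fun x => ‖G x u‖ := fun u =>
    Summable.of_nonneg_of_le (fun _ => norm_nonneg _) (fun x => hGN x u) (hNx u)
  have hgv : ∀ u, gv s d v (ξ.1 - u, ξ.2) = ∑' x, G x u := fun u =>
    (hsum (ξ.1 - u, ξ.2)).of_norm.tsum_prod
  have hNx0 : ∀ x u, 0 ≤ Nx x u := fun x u => tsum_nonneg fun _ => norm_nonneg _
  have hbs : ∀ u, Summable fun i : Q2 × ℚ => Nx i.1 u * ‖kT c u i.2‖ := fun u =>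
    (hNx u).mul_of_nonneg (summable_kT hc u) (fun x => hNx0 x u) fun _ => norm_nonneg _
  have main : HasSum (fun i : Q2 × ℚ => ∫ u : ℝ, G i.1 u * kT c u i.2)
      (∫ u : ℝ, gv s d v (ξ.1 - u, ξ.2) * ker1 c u) := by
    refine hasSum_integral_of_dominated_convergence (fun i u => Nx i.1 u * ‖kT c u i.2‖)
      (fun i => ?_) (fun i => ae_of_all _ fun u => ?_) (ae_of_all _ hbs) ?_
      (ae_of_all _ fun u => ?_)
    · exact ((Measurable.tsum fun l => (continuous_gvT (i.1, l) ξ).measurable).mul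
        (continuous_kT c i.2).measurable).aestronglyMeasurable
    · rw [norm_mul]
      exact mul_le_mul_of_nonneg_right (hGN _ _) (norm_nonneg _)
    · refine hint.re.congr (ae_of_all _ fun u => ?_)
      simp only [ker1_eq, kT_norm]
      rw [← ofReal_tsum, ← ofReal_mul, RCLike.re_to_complex, ofReal_re,
        (hsum (ξ.1 - u, ξ.2)).tsum_prod]
      exact (hNx u).tsum_mul_tsum (summable_kT hc u) (hbs u)
    · rw [hgv, ker1_eq, tsum_mul_tsum_of_summable_norm (hG u) (summable_kT hc u)]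
      exact (summable_mul_of_summable_norm (hG u) (summable_kT hc u)).hasSum
  have hcv : cv (1, 0) (gv s d v) (ker1 c) ξ = ∫ u : ℝ, gv s d v (ξ.1 - u, ξ.2) * ker1 c u := by
    simp only [cv, sub_smul_eq]
  let W : Q2 → ℂ := fun x => ((Real.exp (ξ.2 / 2) * Real.exp (-4 * π * Nm d x * Real.exp ξ.2) *
      Real.exp ξ.1 : ℝ) : ℂ)
  have hW : ∀ x, W x ≠ 0 := fun x => ofReal_ne_zero.2 (by positivity)
  have hGct : ∀ x u, G x u = ((Real.exp (ξ.2 / 2) * Real.exp (-4 * π * Nm d x * Real.exp ξ.2) *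
      Real.exp (ξ.1 - u) : ℝ) : ℂ) * ct (JX s d v x) (Real.exp (ξ.1 - u)) := by
    intro x u
    simp only [G, gvT_eq]
    rw [tsum_mul_left, (hct hT x _ (Real.exp_pos (ξ.1 - u))).tsum_eq]
  have hterm : ∀ x n, ∫ u : ℝ, G x u * kT c u n = W x * lstT s d v c (Real.exp ξ.1) x n := by
    intro x n
    unfold kT lstT
    split_ifs with hn
    · rw [integral_subst (fun y : ℝ => (Real.exp (-π * Real.exp ξ.1 * n ^ 2 / y) : ℂ) *
        ct (JX s d v x) y) ξ.1, ← integral_const_mul, ← integral_const_mul, ← integral_const_mul]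
      refine integral_congr_ae (ae_of_all _ fun u => ?_)
      have e1 : -π * Real.exp ξ.1 * n ^ 2 / Real.exp (ξ.1 - u) = -π * n ^ 2 * Real.exp u := by
        rw [Real.exp_sub]; field_simp
      have e2 : (Real.exp ξ.1 : ℂ) = (Real.exp (ξ.1 - u) : ℂ) * (Real.exp u : ℂ) := by
        rw [← ofReal_mul, ← Real.exp_add, sub_add_cancel]
      simp only [hGct, e1, W, ofReal_mul]
      rw [e2]
      ring
    · simp
  simp only [hterm] at main
  have hsx : ∀ x, Summable (lstT s d v c (Real.exp ξ.1) x) := fun x =>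
    (summable_mul_left_iff (hW x)).1 (main.summable.prod_factor x)
  refine ⟨hsx, ?_⟩
  rw [hcv]
  exact main.prod_fiberwise fun x => (hsx x).hasSum.mul_left (W x)

end

end Pool.Agent.P.MP_b8021b_nt.CM
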