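import Pool.Agent.P.MP_b8021b_nt.CM.Lib

/-! The analytic packages only use reciprocity along the graphs. -/

namespace Pool.Agent.P.MP_b8021b_nt.CM

open Complex hiding Gamma
open UpperHalfPlane hiding I
open MeasureTheory CongruenceSubgroup Filter
open scoped Real MatrixGroups ModularForm Topology ComplexConjugate Modular

noncomputable section

/-- functions with a level that kill principal divisors along all graphs -/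
def InW (s : ℍ → ℍ → ℂ) : Prop :=
  (∃ N, 0 < N ∧ LevS N s) ∧ ∀ g : GQ, 0 < g.1.det → Rec fun τ => s τ (actH g τ)

theorem InW.hasLevS {s : ℍ → ℍ → ℂ} (h : InW s) : HasLevS s := h.1

theorem InS.inW {s : ℍ → ℍ → ℂ} (h : InS s) : InW s := ⟨h.1, h.2.1⟩

def S_PolyW : Prop := ∀ s, InW s → ∀ M : ℕ, 0 < M → ∃ C : ℝ, ∀ φ : M2 → M2 → ℂ, Lev M (unc φ) →
  ∀ B : ℝ, (∀ Y Z, ‖φ Y Z‖ ≤ B) → ∀ n r j : ℚ,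
    ‖aS s n r j φ‖ ≤ C * B * (1 + |((4 * n * j - r ^ 2 : ℚ) : ℝ)|) ^ 4

/-- bounds for `bX` and `aa` -/
def S_AAW : Prop := ∀ s, InW s → ∀ d M : ℕ, 0 < d → 0 < M → ∀ v, LevV d M v → ∃ C : ℝ, 0 ≤ C ∧
  (∀ x' x, ‖bX s d v x' x‖ ≤ C * (1 + |((det2 (x', x) : ℚ) : ℝ)|) ^ 8) ∧
  ∀ x m l, ‖aa s d v x m l‖ ≤ C * ((Nm d x : ℚ) : ℝ) * (1 + ((Nm d x : ℚ) : ℝ) ^ 2 * |(m : ℝ)|) ^ 4

def S_JRedW : Prop := ∀ s, InW s → ∀ d M : ℕ, 0 < d → 0 < M → ∀ x : Q2, x ≠ 0 →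
  ∃ (R : Finset GQ) (c : ℝ), (∀ y ∈ R, y.1.det = Nm d x) ∧ ∀ v, LevV d M v → ∀ τ,
    JX s d v x τ = c * ∑ y ∈ R, JF d (fun σ => s σ (actH y σ)) (om d v y.1 x) (dil (Nm d x) τ)

def S_JXSW : Prop := ∀ s, InW s → ∀ d M : ℕ, 0 < d → 0 < M → ∀ v, LevV d M v → ∀ (x : Q2) (τ : ℍ),
  JX s d v x (ModularGroup.S • τ) =
    (τ : ℂ) ^ 2 * conj (τ : ℂ) * JX s d (fun u' u => F6n d (fun w => v w u) u') x τ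

def S_JXW : Prop := ∀ s, InW s → ∀ d M : ℕ, 0 < d → 0 < M → ∀ ρ, Weil6 d M ρ → ∀ v, LevV d M v →
  (∀ γ, LevV d M (r1 ρ γ v)) ∧
  (∀ x (γ : SL) τ, JX s d v x (γ • τ) = jf γ τ ^ 2 * conj (jf γ τ) * JX s d (r1 ρ γ v) x τ) ∧
  (∀ x, Continuous (JX s d v x)) ∧
  (∀ v', LevV d M v' → ∀ x, JX s d (v + v') x = JX s d v x + JX s d v' x) ∧
  (∀ (a : ℂ) x, JX s d (a • v) x = a • JX s d v x) ∧
  (∀ x, JX s d v x ≠ 0 → x ≠ 0 ∧ IsInt ((M : ℚ) • x)) ∧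
  (∃ (C : ℝ) (A : ℕ), ∀ x (τ : ℍ),
    τ.im ^ (3 / 2 : ℝ) * ‖JX s d v x τ‖ ≤ C * (1 + ((Nm d x : ℚ) : ℝ)) ^ A) ∧
  ((∀ u' u, v u' u ≠ 0 → IsInt (QU d u')) → ∀ x (y : ℝ), 0 < y →
    HasSum (fun l : ℚ => aa s d v x (d * l ^ 2) l *
      (((4 * y * Nm d x : ℝ) ^ (-(1 / 2) : ℝ) *
        Real.exp (-4 * π * Nm d x * (y * d * l ^ 2)) : ℝ) : ℂ)) (ct (JX s d v x) y))

def S_B0W : Prop := ∃ A : ℝ, 0 ≤ A ∧ ∀ s, InW s → ∀ d M : ℕ, 0 < d → 0 < M → ∀ v, LevV d M v →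
  Base A (gv s d v) ∧ (∀ ξ, Summable fun p => ‖gvT s d v ξ p‖) ∧
  Base A (fun ξ => ((∑' p, ‖gvT s d v ξ p‖ : ℝ) : ℂ)) ∧
  (∀ v', LevV d M v' → gv s d (v + v') = gv s d v + gv s d v') ∧
  (∀ a : ℂ, gv s d (a • v) = a • gv s d v) ∧ gv s d (kap2 ModularGroup.T v) = gv s d v ∧
  ∀ α : ℝ × ℝ, α = (-1, 1) ∨ α = (1, 0) → ∀ k, Half k →
    Base A (cv α (gv s d v) k) ∧ ∀ ξ, Integrable fun u : ℝ => gv s d v (ξ - u • α) * k u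

def S_GZW : Prop := ∀ s, InW s → ∀ d M : ℕ, 0 < d → 0 < M → ∀ v, LevV d M v → ∀ ρ : ℝ, 0 < ρ →
  Continuous (GZ s d v ρ) ∧ (∃ C : ℝ, ∀ z, ‖GZ s d v ρ z‖ ≤ C) ∧
  (∀ (γ : SL) z, GZ s d v ρ (γ • z) = GZ s d (kap2 γ v) ρ z) ∧
  (∀ v', LevV d M v' → GZ s d (v + v') ρ = GZ s d v ρ + GZ s d v' ρ) ∧
  (∀ a : ℂ, GZ s d (a • v) ρ = a • GZ s d v ρ) ∧
  (kap2 ModularGroup.T v = v → ∀ y : ℝ, 0 < y →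
    gv s d v (Real.log (ρ / y), Real.log (ρ * y)) =
      ((ρ ^ (3 / 2 : ℝ) * y ^ (-(1 / 2) : ℝ) : ℝ) : ℂ) * ct (GZ s d v ρ) y)

def S_MelW : Prop := ∀ d : ℕ, 0 < d → ∃ Gf : ℂ → ℂ, DifferentiableOn ℂ Gf {w | -1 < w.re} ∧
  Gf 0 ≠ 0 ∧ ∀ s, InW s → ∀ M : ℕ, 0 < M → ∀ v, Nice d M v → ∃ w0 : ℝ, ∀ w : ℝ, w0 < w →
    LSeriesSummable (Dco s d v) (2 + w) ∧
    ∫ σ : ℝ, (Real.exp (3 * σ / 4) : ℂ) * hmean (GZ s d v (Real.exp (σ / 2))) *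
      cexp ((1 / 4 + w / 2) * σ) = Gf w * LSeries (Dco s d v) (2 + w)

def S_RSGW : Prop := ∀ d M : ℕ, 0 < d → 1 < M →
  (∀ s, InW s → ∀ v, Nice0 d M v → ∃ (m : ℕ) (vm : Fin m → U6 → U6 → ℂ) (km : Fin m → ℝ → ℂ)
    (P : ℝ → ℂ), (∀ i, LevV d M (vm i) ∧ Half (km i)) ∧ ∀ ξ,
      cv (-1, 1) (gv s d v) (ker0 (un M)) ξ =
        ∑ i, cv (-1, 1) (gv s d (vm i)) (km i) ξ.swap + resT P ξ) ∧
  ∃ (κ : ℝ → ℂ) (c0 : ℂ), Half κ ∧ c0 ≠ 0 ∧ ∀ s, InW s → ∀ v, Nice d M v → ∀ ξ,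
    cv (-1, 1) (gv s d v) (ker0 (un M)) ξ = cv (-1, 1) (gv s d v) κ ξ.swap +
      resT (fun σ => c0 * ((Real.exp (3 * σ / 4) : ℂ) * hmean (GZ s d v (Real.exp (σ / 2))))) ξ

/-- the section, its Fourier transform, and the link with `gv` -/
def S_SecW : Prop := ∀ d M : ℕ, 0 < d → 0 < M → 2 * d ∣ M → ∀ ρ, Weil6 d M ρ → ∀ v, Nice d M v →
  ∃ f, Sec d M ρ v f ∧ ∀ n : ℚ, IsInt (((M ^ 2 : ℕ) : ℚ) • n) →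
    LevV d M (fun u' u => FS (fun w => f w u' u) (0, n)) ∧
    (∀ u' u, FS (fun w => f w u' u) (0, n) ≠ 0 → IsInt (QU d u')) ∧
    ∃ v'', Nice0 d M v'' ∧ ∀ s, InW s →
      gv s d v'' = gv s d fun u' u => FS (fun w => f w u' u) (0, n)

def S_LstW : Prop := ∀ d M : ℕ, 0 < d → 0 < M → 2 * d ∣ M → ∀ s, InW s → ∀ v, LevV d M v →
  (∀ u' u, v u' u ≠ 0 → IsInt (QU d u')) → ∀ c, SB c → ∀ ξ : ℝ × ℝ,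
    (∀ x, Summable (lstT s d v c (Real.exp ξ.1) x)) ∧
    HasSum (fun x : Q2 => ((Real.exp (ξ.2 / 2) * Real.exp (-4 * π * Nm d x * Real.exp ξ.2) *
      Real.exp ξ.1 : ℝ) : ℂ) * ∑' n, lstT s d v c (Real.exp ξ.1) x n)
      (cv (1, 0) (gv s d v) (ker1 c) ξ)

def S_RSJ2W : Prop := ∀ d M : ℕ, 0 < d → 0 < M → 2 * d ∣ M → ∀ s, InW s → ∀ v, Nice d M v →
  ∃ (m : ℕ) (vm : Fin m → U6 → U6 → ℂ) (km : Fin m → ℝ → ℂ),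
    (∀ i, Nice0 d M (vm i) ∧ Half (km i)) ∧ ∀ ξ : ℝ × ℝ,
      cv (1, 0) (gv s d v) (ker1 (chiq d M)) ξ =
        ∑ i, cv (1, 0) (gv s d (vm i)) (km i) (-ξ.1, ξ.2)

def S_RSJ4W : Prop := ∀ d M : ℕ, Squarefree d → 0 < M → 2 * d ∣ M → ∀ s, InW s → ∀ v, Nice d M v →
  ∀ ξ : ℝ × ℝ, ∫ u : ℝ, cv (1, 0) (gv s d v) (ker1 (chiq d M)) (u, ξ.2) = 0

def S_AnW : Prop := ∀ d M : ℕ, Squarefree d → 0 < M → 2 * d ∣ M → ∃ (κ : ℂ → ℂ) (κ0 : ℂ),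
  DifferentiableOn ℂ κ {w | 0 < w.re} ∧ κ0 ≠ 0 ∧
  Tendsto (fun w : ℝ => κ w / w) (𝓝[>] 0) (𝓝 κ0) ∧ ∀ s, InW s → ∀ v, Nice d M v →
    ∃ H : ℂ → ℂ, Differentiable ℂ H ∧ H 0 = 0 ∧ ∃ w0 : ℝ, ∀ w : ℝ, w0 < w →
      LSeriesSummable (Dco s d v) (2 + w) ∧ H w = κ w * LSeries (Dco s d v) (2 + w)

end

end Pool.Agent.P.MP_b8021b_nt.CM
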