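import Pool.Agent.P.MP_b8021b_nt.CM.Lib
import Pool.Agent.P.MP_b8021b_nt.CM.StmtsW

/-! Package P17: reduction of `JX` to `JF`, and the law of `JX` under `S`. -/

namespace Pool.Agent.P.MP_b8021b_nt.CM

open Complex hiding Gamma
open UpperHalfPlane hiding I
open MeasureTheory CongruenceSubgroup Filter Function
open scoped Real MatrixGroups ModularForm Topology ComplexConjugate Modular

noncomputable section

namespace JXSP

section gen

variable {W W' : Type} [AddCommGroup W] [Module ℚ W] [Lat W] [AddCommGroup W'] [Module ℚ W']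
  [Lat W']

theorem II_mul_const (φ : W → ℂ) (c : ℂ) : II (fun x => φ x * c) = II φ * c := by
  rw [mul_comm, ← II_const_mul]
  exact congrArg II (funext fun x => mul_comm _ _)

theorem exists_ne_of_II {φ : W → ℂ} (h : II φ ≠ 0) : ∃ x, φ x ≠ 0 := by
  by_contra hc
  push Not at hc
  exact h ((congrArg II (funext hc)).trans II_zero)

theorem sb_fst {φ : W × W' → ℂ} (h : SB φ) (y : W') : SB fun x => φ (x, y) := by
  obtain ⟨M, hM, h⟩ := h
  exact (h.fst y).sb hM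

theorem sb_snd {φ : W × W' → ℂ} (h : SB φ) (x : W) : SB fun y => φ (x, y) := by
  obtain ⟨M, hM, h⟩ := h
  exact (h.snd x).sb hM

end gen

/-! ### the Fourier transform on `U6` -/

/-- the pairing on `U6` -/
def pair6 (d : ℕ) (z : U6) : U6 →ₗ[ℚ] ℚ where
  toFun u := -bil u.1 z.1 + bilN d u.2 z.2
  map_add' a b := by simp [bil, bilN]; ring
  map_smul' c a := by simp [bil, bilN]; ring

theorem sb_F6_int {d : ℕ} {ψ : U6 → ℂ} (h : SB ψ) (z : U6) :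
    SB fun u : U6 => ψ u * eq (-bil u.1 z.1 + bilN d u.2 z.2) := h.mul_eq (pair6 d z)

theorem F6_eq {d : ℕ} {ψ : U6 → ℂ} (h : SB ψ) (Z : M2) (z : Q2) :
    F6 d ψ (Z, z) = FV (fun Y => FL d (fun x => ψ (Y, x)) z) Z := by
  rw [F6, II_prod (sb_F6_int h (Z, z)), FV]
  refine congrArg II (funext fun Y => ?_)
  rw [FL, ← II_mul_const]
  refine congrArg II (funext fun x => ?_)
  rw [eq_add]; ring

theorem F6_eq' {d : ℕ} {ψ : U6 → ℂ} (h : SB ψ) (Z : M2) (z : Q2) :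
    F6 d ψ (Z, z) = FL d (fun x => FV (fun Y => ψ (Y, x)) Z) z := by
  rw [F6, II_prod' (sb_F6_int h (Z, z)), FL]
  refine congrArg II (funext fun x => ?_)
  rw [FV, ← II_mul_const]
  refine congrArg II (funext fun Y => ?_)
  rw [eq_add]; ring

variable {d M : ℕ}

theorem lev_FL_slice {ψ : U6 → ℂ} (h : Lev6 d M ψ) (z : Q2) :
    Lev M fun Y => FL d (fun x => ψ (Y, x)) z := by
  refine ⟨fun Y k hk => ?_, fun Y hY => ?_⟩
  · exact congrArg (fun f => FL d f z) (funext fun x => (h.1 x).1 Y k hk)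
  · obtain ⟨x, hx⟩ := exists_ne_of_II hY
    exact (h.1 x).2 Y (left_ne_zero_of_mul hx)

theorem levL_FV_slice {ψ : U6 → ℂ} (h : Lev6 d M ψ) (Z : M2) :
    LevL d M fun x => FV (fun Y => ψ (Y, x)) Z := by
  refine ⟨fun x k l => ?_, fun x hx => ?_⟩
  · exact congrArg (fun f => FV f Z) (funext fun Y => (h.2 Y).1 x k l)
  · obtain ⟨Y, hY⟩ := exists_ne_of_II hx
    exact (h.2 Y).2 x (left_ne_zero_of_mul hY)

theorem lev6_F6 (hd : 0 < d) (hM : 0 < M) {ψ : U6 → ℂ} (h : Lev6 d M ψ) : Lev6 d M (F6 d ψ) := by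
  have hs := (h.lev hd hM).sb hM
  refine ⟨fun z => ?_, fun Z => ?_⟩
  · simp only [F6_eq hs]
    exact (lev_FL_slice h z).lev_FV hM
  · simp only [F6_eq' hs]
    exact (levL_FV_slice h Z).levL_FL hd hM

theorem lev6_smul (c : ℂ) {ψ : U6 → ℂ} (h : Lev6 d M ψ) : Lev6 d M (c • ψ) := by
  refine ⟨fun z => (h.1 z).smul c, fun Z => ⟨fun x k l => ?_, fun x hx => ?_⟩⟩
  · exact congrArg (fun t => c * t) ((h.2 Z).1 x k l)
  · exact (h.2 Z).2 x (right_ne_zero_of_mul hx)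

theorem lev6_F6n (hd : 0 < d) (hM : 0 < M) {ψ : U6 → ℂ} (h : Lev6 d M ψ) :
    Lev6 d M (F6n d ψ) := lev6_smul _ (lev6_F6 hd hM h)

theorem F6_smul (c : ℂ) (ψ : U6 → ℂ) : F6 d (c • ψ) = c • F6 d ψ := by
  funext z
  rw [Pi.smul_apply, smul_eq_mul, F6, F6, ← II_const_mul]
  exact congrArg II (funext fun x => by simp [mul_assoc])

theorem F6_F6 (hd : 0 < d) (hM : 0 < M) {ψ : U6 → ℂ} (h : Lev6 d M ψ) (u : U6) :
    F6 d (F6 d ψ) u = (4 * d : ℂ) * ψ (-u) := by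
  obtain ⟨Y, x⟩ := u
  have hs := (h.lev hd hM).sb hM
  rw [F6_eq (((lev6_F6 hd hM h).lev hd hM).sb hM)]
  have e1 : (fun Z => FL d (fun z => F6 d ψ (Z, z)) x) =
      fun Z => (4 * d : ℂ) * FV (fun Y => ψ (Y, -x)) Z := by
    funext Z
    simp only [F6_eq' hs]
    exact FL_FL hd (((levL_FV_slice h Z).lev hd hM).sb hM) x
  have e2 : ψ (-(Y, x)) = FV (FV fun Y => ψ (Y, -x)) Y := (FV_FV ((h.1 (-x)).sb hM) Y).symm
  rw [e1, e2, FV, FV, ← II_const_mul]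
  exact congrArg II (funext fun Z => mul_assoc _ _ _)

theorem F6n_F6n (hd : 0 < d) (hM : 0 < M) {ψ : U6 → ℂ} (h : Lev6 d M ψ) :
    F6n d (F6n d ψ) = (-1 : ℂ) • fun u => ψ (-u) := by
  funext u
  have hd' : (0 : ℝ) < d := by exact_mod_cast hd
  have h1 : ((Real.sqrt d : ℝ) : ℂ) ^ 2 = d := by
    rw [← Complex.ofReal_pow, Real.sq_sqrt hd'.le]; simp
  have h2 : ((Real.sqrt d : ℝ) : ℂ) ≠ 0 := by exact_mod_cast (Real.sqrt_pos.2 hd').ne'
  rw [F6n, F6n, F6_smul]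
  simp only [Pi.smul_apply, smul_eq_mul]
  rw [F6_F6 hd hM h, ← h1]
  field_simp
  rw [I_sq]; ring

theorem levV_F6n (hd : 0 < d) (hM : 0 < M) {v : U6 → U6 → ℂ} (h : LevV d M v) :
    LevV d M fun u' u => F6n d (fun w => v w u) u' := by
  have hne : ∀ u' u, F6n d (fun w => v w u) u' ≠ 0 → ∃ w, v w u ≠ 0 := fun u' u hu => by
    obtain ⟨w, hw⟩ := exists_ne_of_II (right_ne_zero_of_mul hu)
    exact ⟨w, left_ne_zero_of_mul hw⟩
  refine ⟨fun u => lev6_F6n hd hM (h.1 u), fun u' => ⟨fun x => ⟨fun Y k hk => ?_, fun Y hY => ?_⟩,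
    fun Y => ⟨fun x k l => ?_, fun x hx => ?_⟩⟩⟩
  · exact congrArg (fun f => F6n d f u') (funext fun w => ((h.2 w).1 x).1 Y k hk)
  · obtain ⟨w, hw⟩ := hne _ _ hY
    exact ((h.2 w).1 x).2 Y hw
  · exact congrArg (fun f => F6n d f u') (funext fun w => ((h.2 w).2 Y).1 x k l)
  · obtain ⟨w, hw⟩ := hne _ _ hx
    exact ((h.2 w).2 Y).2 x hw

/-! ### coordinates -/

/-- coordinates on `U6` adapted to `(y, x)` -/
def Th (d : ℕ) (y : M2) (x : Q2) : ((Q3 × ℚ) × ℚ) × ℚ →ₗ[ℚ] U6 where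
  toFun p := (y * (tz p.1.1.1 + p.1.2 • (1 : M2)), (p.1.2 + p.2) • x + p.1.1.2 • perp d x)
  map_add' a b := by
    refine Prod.ext ?_ ?_
    · simp only [Prod.fst_add, Prod.snd_add, ← mul_add]
      congr 1
      ext i j; fin_cases i <;> fin_cases j <;> simp [tz] <;> ring
    · simp only [Prod.fst_add, Prod.snd_add]; module
  map_smul' c a := by
    refine Prod.ext ?_ ?_
    · simp only [Prod.smul_fst, Prod.smul_snd, RingHom.id_apply, ← mul_smul_comm]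
      congr 1
      ext i j; fin_cases i <;> fin_cases j <;> simp [tz] <;> ring
    · simp only [Prod.smul_fst, Prod.smul_snd, RingHom.id_apply, smul_eq_mul]; module

theorem Th_apply (y : M2) (x : Q2) (Y : Q3 × ℚ) (a t : ℚ) : Th d y x ((Y, a), t) =
    (y * (tz Y.1 + a • (1 : M2)), (a + t) • x + Y.2 • perp d x) := rfl

theorem Th_inj (hd : 0 < d) (y : GQ) {x : Q2} (hx : x ≠ 0) : Injective (Th d y.1 x) := by
  rw [injective_iff_map_eq_zero]
  rintro ⟨⟨⟨⟨y1, y2, y3⟩, l⟩, a⟩, t⟩ h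
  rw [Th_apply, Prod.mk_eq_zero] at h
  obtain ⟨h1, h2⟩ := h
  have h3 : tz (y1, y2, y3) + a • (1 : M2) = 0 := by
    have := congrArg (fun Z => (y⁻¹).1 * Z) h1
    simpa only [← mul_assoc, val_inv_mul, one_mul, mul_zero] using this
  have e00 := congrFun (congrFun h3 0) 0
  have e01 := congrFun (congrFun h3 0) 1
  have e10 := congrFun (congrFun h3 1) 0
  have e11 := congrFun (congrFun h3 1) 1
  simp [tz] at e00 e01 e10 e11
  have ha : a = 0 := by linarith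
  have hy2 : y2 = 0 := by linarith
  have h4 := (Nm_comb d x (a + t) l).1
  simp only at h2
  rw [h2, ha, zero_add] at h4
  have h5 : (d : ℚ) * l ^ 2 + t ^ 2 = 0 := by
    have h0 : Nm d (0 : Q2) = 0 := by simp [Nm]
    rw [h0] at h4
    exact (mul_eq_zero.1 h4.symm).resolve_left (Nm_pos hd hx).ne'
  have hd' : (0 : ℚ) < d := by exact_mod_cast hd
  have ht : t = 0 := by nlinarith [sq_nonneg l, sq_nonneg t]
  have hl : l = 0 := by
    rw [ht] at h5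
    have : (d : ℚ) * l ^ 2 = 0 := by linarith
    simpa [hd'.ne'] using this
  simp [e01, e10, ha, hy2, ht, hl]

theorem exists_Th (hd : 0 < d) (y : GQ) {x : Q2} (hx : x ≠ 0) : ∃ c : ℝ, 0 < c ∧
    ∀ φ : U6 → ℂ, SB φ → II (fun p => φ (Th d y.1 x p)) = c * II φ :=
  II_equiv (LinearMap.linearEquivOfInjective (Th d y.1 x) (Th_inj hd y hx) (by
    simp [Module.finrank_prod, Module.finrank_matrix]))

theorem bil_mul (y A B : M2) : bil (y * A) (y * B) = y.det * bil A B := by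
  simp [bil, Matrix.mul_apply, Fin.sum_univ_two, Matrix.det_fin_two]; ring

theorem pair_Th {y : M2} {x : Q2} (hy : y.det = Nm d x) (Y Z : Q3 × ℚ) (a t b : ℚ) :
    -bil (Th d y x ((Y, a), t)).1 (Th d y x ((Z, b), 0)).1 +
      bilN d (Th d y x ((Y, a), t)).2 (Th d y x ((Z, b), 0)).2 =
    (-bil3 Y.1 (Nm d x • Z).1 + 2 * d * Y.2 * (Nm d x • Z).2) + 2 * Nm d x * t * b := by
  simp only [Th_apply, bil_mul, hy]
  simp [bil, tz, bil3, bilN, perp, Nm]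
  ring

/-- `om` for a function of one variable -/
def om1 (d : ℕ) (ψ : U6 → ℂ) (y : M2) (x : Q2) (Y : Q3 × ℚ) : ℂ :=
  II fun a : ℚ => ψ (Th d y x ((Y, a), 0))

theorem om_eq (v : U6 → U6 → ℂ) (y : M2) (x : Q2) :
    om d v y x = om1 d (fun w => v w (y, x)) y x := by
  funext Y
  simp only [om, om1, Th_apply, add_zero]

theorem sb_om1 (hd : 0 < d) (y : GQ) {x : Q2} (hx : x ≠ 0) {ψ : U6 → ℂ} (h : SB ψ) :
    SB (om1 d ψ y.1 x) := (sb_fst (h.comp_inj _ (Th_inj hd y hx)) 0).II_snd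

theorem om1_smul (c : ℂ) (ψ : U6 → ℂ) (y : M2) (x : Q2) :
    om1 d (c • ψ) y x = c • om1 d ψ y x := by
  funext Y
  exact II_const_mul c _

theorem om1_neg (ψ : U6 → ℂ) (y : M2) (x : Q2) :
    om1 d (fun u => ψ (-u)) y x = fun Y => om1 d ψ y x (-Y) := by
  funext Y
  rw [om1, om1, ← II_neg]
  refine congrArg II (funext fun a => ?_)
  rw [← map_neg]
  simp

/-- the pairing on `Q3 × ℚ` in the first of three variables -/
def pair4 (d : ℕ) (Z : Q3 × ℚ) : ((Q3 × ℚ) × ℚ) × ℚ →ₗ[ℚ] ℚ where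
  toFun p := -bil3 p.1.1.1 Z.1 + 2 * d * p.1.1.2 * Z.2
  map_add' a b := by simp [bil3]; ring
  map_smul' c a := by simp [bil3]; ring

theorem om1_F6 (hd : 0 < d) (y : GQ) {x : Q2} (hx : x ≠ 0) (hy : y.1.det = Nm d x) :
    ∃ c : ℝ, 0 < c ∧ ∀ ψ : U6 → ℂ, SB ψ → ∀ Z : Q3 × ℚ,
      F4 d (om1 d ψ y.1 x) (Nm d x • Z) = c * om1 d (F6 d ψ) y.1 x Z := by
  obtain ⟨c, hc, hII⟩ := exists_Th hd y hx
  have hj := Nm_pos hd hx
  refine ⟨c / (2 * (Nm d x : ℝ)), div_pos hc (by exact_mod_cast (mul_pos two_pos hj)),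
    fun ψ h Z => ?_⟩
  have hΦ : SB fun p => ψ (Th d y.1 x p) * eq (pair4 d (Nm d x • Z) p) :=
    (h.comp_inj _ (Th_inj hd y hx)).mul_eq _
  set G : ℚ → ℂ := fun t => II fun p : (Q3 × ℚ) × ℚ =>
    ψ (Th d y.1 x (p, t)) * eq (pair4 d (Nm d x • Z) (p, t)) with hG
  have hGs : SB G := hΦ.II_fst
  have h2j : 2 * Nm d x ≠ 0 := (mul_pos two_pos hj).ne'
  have e1 : ∀ b, (c : ℂ) * F6 d ψ (Th d y.1 x ((Z, b), 0)) = F1 (2 * Nm d x) G b := by
    intro b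
    have hs := sb_F6_int (d := d) h (Th d y.1 x ((Z, b), 0))
    rw [F6, ← hII _ hs, II_prod' (hs.comp_inj _ (Th_inj hd y hx)), F1]
    refine congrArg II (funext fun t => ?_)
    rw [hG, ← II_mul_const]
    refine congrArg II (funext fun p => ?_)
    obtain ⟨Y, a⟩ := p
    rw [pair_Th hy, eq_add, ← mul_assoc]
    rfl
  have e2 : (c : ℂ) * om1 d (F6 d ψ) y.1 x Z = ((2 * Nm d x : ℚ) : ℂ) * G 0 := by
    rw [om1, ← II_const_mul]
    simp only [e1]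
    have := F1_inv h2j hGs 0
    rw [neg_zero, abs_of_pos (mul_pos two_pos hj)] at this
    rw [← this, F1]
    simp only [mul_zero, eq_zero, mul_one]
  have e3 : G 0 = F4 d (om1 d ψ y.1 x) (Nm d x • Z) := by
    rw [hG, F4]
    simp only
    rw [II_prod (sb_fst hΦ 0)]
    refine congrArg II (funext fun Y => ?_)
    rw [om1, ← II_mul_const]
    rfl
  have hj' : ((Nm d x : ℚ) : ℂ) ≠ 0 := by exact_mod_cast hj.ne'
  rw [← e3]
  push_cast at e2 ⊢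
  field_simp
  linear_combination -e2

/-! ### the law for one `y` -/

theorem dil_S {j : ℚ} (hj : 0 < j) (τ : ℍ) :
    dil j (ModularGroup.S • τ) = ModularGroup.S • dil j⁻¹ τ := by
  apply UpperHalfPlane.ext
  have h1 : (j : ℂ) ≠ 0 := by exact_mod_cast hj.ne'
  have h2 := τ.ne_zero
  rw [coe_dil hj, coe_S, coe_S, coe_dil (inv_pos.2 hj)]
  push_cast
  field_simp

theorem S_S (τ : ℍ) : ModularGroup.S • ModularGroup.S • τ = τ := by
  apply UpperHalfPlane.ext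
  have h2 := τ.ne_zero
  rw [coe_S, coe_S]
  field_simp

theorem law1 (hJ : S_JF) (hd : 0 < d) (y : GQ) {x : Q2} (hx : x ≠ 0) (hy : y.1.det = Nm d x)
    {u : ℍ → ℂ} (hu : Rec u) : ∃ κ : ℝ, 0 < κ ∧ ∀ ψ : U6 → ℂ, Lev6 d M ψ → 0 < M → ∀ τ : ℍ,
      JF d u (om1 d ψ y.1 x) (dil (Nm d x) (ModularGroup.S • τ)) = κ * ((τ : ℂ) ^ 2 * conj (τ : ℂ) *
        JF d u (om1 d (F6n d ψ) y.1 x) (dil (Nm d x) τ)) := by
  obtain ⟨c, hc, hJ⟩ := hJ d hd
  obtain ⟨c', hc', hF⟩ := om1_F6 hd y hx hy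
  have hj := Nm_pos hd hx
  have hj1 : (0 : ℝ) < (Nm d x : ℚ) := by exact_mod_cast hj
  have hd' : (0 : ℝ) < d := by exact_mod_cast hd
  have hsq := Real.sqrt_pos.2 hd'
  refine ⟨c * c' * (2 * Real.sqrt d) / ((Nm d x : ℚ) : ℝ) ^ 2, by positivity, fun ψ h hM τ => ?_⟩
  have hs := (h.lev hd hM).sb hM
  have hs' := ((lev6_F6 hd hM h).lev hd hM).sb hM
  have hω := sb_om1 hd y hx hs
  have hω' := sb_om1 hd y hx hs'
  rw [dil_S hj, (hJ u hu _ hω).2.2.2.1, (hJ u hu _ (hω.sb_F4 hd)).2.2.2.2.2.1 _ hj]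
  have e1 : (fun Z => F4 d (om1 d ψ y.1 x) (Nm d x • Z)) = (c' : ℂ) • om1 d (F6 d ψ) y.1 x :=
    funext fun Z => hF ψ hs Z
  rw [e1, F6n, om1_smul, ((hJ u hu _ hω').2.2.2.2.2.2.2.2.2.1 _).1,
    ((hJ u hu _ hω').2.2.2.2.2.2.2.2.2.1 _).1, coe_dil (inv_pos.2 hj)]
  have h1 : ((Nm d x : ℚ) : ℂ) ≠ 0 := by exact_mod_cast hj.ne'
  have h2 : ((Real.sqrt d : ℝ) : ℂ) ≠ 0 := by exact_mod_cast hsq.ne'
  simp only [Pi.smul_apply, smul_eq_mul, map_mul, map_ratCast]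
  push_cast
  field_simp

theorem law2 (hJ : S_JF) (hd : 0 < d) (hM : 0 < M) (y : GQ) {x : Q2} (hx : x ≠ 0)
    (hy : y.1.det = Nm d x) {u : ℍ → ℂ} (hu : Rec u) {ψ : U6 → ℂ} (h : Lev6 d M ψ) (τ : ℍ) :
    JF d u (om1 d ψ y.1 x) (dil (Nm d x) (ModularGroup.S • τ)) = (τ : ℂ) ^ 2 * conj (τ : ℂ) *
        JF d u (om1 d (F6n d ψ) y.1 x) (dil (Nm d x) τ) := by
  obtain ⟨κ, hκ, hl⟩ := law1 (M := M) hJ hd y hx hy hu
  obtain ⟨c, -, hJ⟩ := hJ d hd
  have twice : ∀ ψ : U6 → ℂ, Lev6 d M ψ → ∀ τ : ℍ, JF d u (om1 d ψ y.1 x) (dil (Nm d x) τ) =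
      (κ : ℂ) ^ 2 * JF d u (om1 d ψ y.1 x) (dil (Nm d x) τ) := by
    intro ψ h τ
    have hω := sb_om1 hd y hx ((h.lev hd hM).sb hM)
    have hω' : SB fun Y => om1 d ψ y.1 x (-Y) := by
      obtain ⟨K, hK, hl⟩ := hω
      exact hl.neg_arg.sb hK
    have h1 := hl ψ h hM (ModularGroup.S • τ)
    rw [S_S, hl _ (lev6_F6n hd hM h) hM τ, F6n_F6n hd hM h, om1_smul, om1_neg,
      ((hJ u hu _ hω').2.2.2.2.2.2.2.2.2.1 _).1, (hJ u hu _ hω).2.2.2.2.2.2.1, coe_S] at h1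
    have h2 := τ.ne_zero
    have h3 : conj (τ : ℂ) ≠ 0 := (map_ne_zero _).2 h2
    refine h1.trans ?_
    simp only [Pi.smul_apply, smul_eq_mul, map_div₀, map_neg, map_one]
    field_simp
  by_cases h1 : κ = 1
  · rw [hl ψ h hM τ, h1]; simp
  · have h2 : (κ : ℂ) ^ 2 ≠ 1 := by
      intro h3
      have h4 : κ ^ 2 = 1 := by exact_mod_cast h3
      exact h1 ((pow_eq_one_iff_of_nonneg hκ.le two_ne_zero).1 h4)
    have h5 : ∀ ψ : U6 → ℂ, Lev6 d M ψ → ∀ τ : ℍ,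
        JF d u (om1 d ψ y.1 x) (dil (Nm d x) τ) = 0 := by
      intro ψ h τ
      by_contra hc
      exact h2 (mul_right_cancel₀ hc ((twice ψ h τ).symm.trans (one_mul _).symm))
    rw [h5 ψ h, h5 _ (lev6_F6n hd hM h), mul_zero]

/-! ### reduction to `JF` -/

theorem sb_gam {u : ℍ → ℂ} {ω : Q3 × ℚ → ℂ} (h : SB ω) (m : ℚ) :
    SB fun a => gam u (fun Y => ω (Y, a)) m := by
  obtain ⟨K, hK, h⟩ := h
  refine ⟨K, hK, fun a k hk => ?_, fun a ha => ?_⟩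
  · exact congrArg (fun f => gam u f m) (funext fun Y => (h.snd Y).1 a k hk)
  · obtain ⟨-, Y, -, hY⟩ := gam_supp ha
    exact (h.snd Y).2 a hY

/-- the inclusion that forgets the middle variable -/
def mid : Q3 × ℚ →ₗ[ℚ] (Q3 × ℚ) × ℚ where
  toFun p := ((p.1, 0), p.2)
  map_add' a b := by simp
  map_smul' c a := by simp

theorem aa_red {s : ℍ → ℍ → ℂ} (hs : InW s) (hd : 0 < d) (hM : 0 < M) {x : Q2} (hx : x ≠ 0) :
    ∃ (R : Finset GQ) (c : ℝ), (∀ y ∈ R, y.1.det = Nm d x) ∧ ∀ v, LevV d M v → ∀ m l,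
      aa s d v x m l = c * ∑ y ∈ R, gam (fun σ => s σ (actH y σ))
        (fun Y => om d v y.1 x (Y, l)) m := by
  obtain ⟨N, hN, hl⟩ := hs.1
  have hj := Nm_pos hd hx
  obtain ⟨R, c, -, hR, hred⟩ := aS_red hN hM hj
  refine ⟨R, c, hR, fun v hv m l => ?_⟩
  have hsb : ∀ y ∈ R, SB fun p : Q3 × ℚ =>
      v (y.1 * (tz p.1 + p.2 • (1 : M2)), p.2 • x + l • perp d x) (y.1, x) := by
    intro y _
    have := (om_sb hd hM hv (GQ_det_ne y) hx).1.comp_affine mid (fun a b h => by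
      simp only [mid, LinearMap.coe_mk, AddHom.coe_mk, Prod.mk.injEq, and_true] at h
      exact Prod.ext h.1 h.2) ((0, l), 0)
    simpa [mid] using this
  have e1 : ∀ a : ℚ, aS s (Nm d x * (m + a ^ 2)) (2 * Nm d x * a) (Nm d x)
      (fun y' y => v (y', a • x + l • perp d x) (y, x)) = c * ∑ y ∈ R,
        gam (fun σ => s σ (actH y σ))
          (fun Y => v (y.1 * (tz Y + a • (1 : M2)), a • x + l • perp d x) (y.1, x)) m := by
    intro a
    rw [hred s hl _ (lev_slice hd hM hv _ x)]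
    have h1 : 2 * Nm d x * a / (2 * Nm d x) = a := by field_simp
    have h2 : Nm d x * (m + a ^ 2) / Nm d x - (2 * Nm d x * a) ^ 2 / (4 * Nm d x ^ 2) = m := by
      field_simp; ring
    rw [h1, h2]
  rw [aa]
  simp only [e1]
  rw [II_const_mul, II_sum R _ fun y hy => sb_gam (hsb y hy) m]
  congr 1
  refine Finset.sum_congr rfl fun y hy => ?_
  exact (gam_II (hs.hasLevS.graph y) (hsb y hy) m).symm

theorem JF_eq (hJ : S_JF) (hd : 0 < d) {u : ℍ → ℂ} (hu : Rec u) {ω : Q3 × ℚ → ℂ} (h : SB ω)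
    (τ : ℍ) : ∃ S, HasSum (fun p : ℚ × ℚ => gam u (fun Y => ω (Y, p.2)) p.1 * e (p.1 * τ) *
      e (-(conj (τ : ℂ)) * d * p.2 ^ 2)) S ∧
      JF d u ω τ = ((τ.im ^ (-(1 / 2) : ℝ) : ℝ) : ℂ) * S := by
  obtain ⟨c, -, hJ⟩ := hJ d hd
  have h1 := ((hJ u hu ω h).1 τ).of_norm
  refine ⟨_, h1.hasSum, ?_⟩
  rw [JF, ← (Equiv.prodComm ℚ ℚ).tsum_eq]
  congr 1
  refine Eq.trans ?_ ((Equiv.prodComm ℚ ℚ).summable_iff.2 h1).tsum_prod.symm
  refine tsum_congr fun l => ?_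
  rw [qs, ← tsum_mul_right]
  rfl

end JXSP

open JXSP

theorem jred : S_JF → S_JRedW := by
  intro hJ s hs d M hd hM x hx
  obtain ⟨R, c, hR, hred⟩ := aa_red hs hd hM hx
  have hj := Nm_pos hd hx
  refine ⟨R, c / 2, hR, fun v hv τ => ?_⟩
  have hy : ∀ y ∈ R, 0 < y.1.det := fun y h => (hR y h).symm ▸ hj
  have h1 := fun y : R => JF_eq hJ hd (hs.2 y.1 (hy _ y.2))
    (om_sb hd hM hv (GQ_det_ne y.1) hx).2 (dil (Nm d x) τ)
  choose S hS hS' using h1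
  have h2 := (hasSum_sum (s := Finset.univ) fun y _ => hS y).mul_left (c : ℂ)
  have h3 : ∑' p : ℚ × ℚ, aa s d v x p.1 p.2 *
      e (Nm d x * (τ * p.1 - conj (τ : ℂ) * d * p.2 ^ 2)) = c * ∑ y, S y := by
    rw [← h2.tsum_eq]
    refine tsum_congr fun p => ?_
    rw [hred v hv, ← Finset.sum_coe_sort R, mul_assoc, Finset.sum_mul]
    congr 1
    refine Finset.sum_congr rfl fun y _ => ?_
    rw [mul_assoc (gam _ _ _), ← e_add, coe_dil hj]
    congr 2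
    simp only [map_mul, map_ratCast]
    ring
  have h4 : (dil (Nm d x) τ).im = (Nm d x : ℚ) * τ.im := by
    have := congrArg Complex.im (coe_dil hj τ)
    simpa using this
  have hj1 : (0 : ℝ) < (Nm d x : ℚ) := by exact_mod_cast hj
  have h5 : (4 * τ.im * (Nm d x : ℚ) : ℝ) ^ (-(1 / 2) : ℝ) =
      1 / 2 * (dil (Nm d x) τ).im ^ (-(1 / 2) : ℝ) := by
    rw [h4, mul_assoc, Real.mul_rpow (by norm_num) (mul_pos τ.im_pos hj1).le, mul_comm τ.im]
    congr 1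
    rw [show (4 : ℝ) = 2 ^ (2 : ℝ) by norm_num, ← Real.rpow_mul (by norm_num)]
    norm_num
  rw [JX, h3, h5, ← Finset.sum_coe_sort R]
  simp only [hS']
  rw [← Finset.mul_sum]
  push_cast
  ring

theorem jxs : S_JF → S_JRedW → S_JXSW := by
  intro hJ hR s hs d M hd hM v hv x τ
  by_cases hx : x = 0
  · have h0 : Nm d (0 : Q2) = 0 := by simp [Nm]
    simp [JX, hx, h0]
  obtain ⟨R, c, hR, hred⟩ := hR s hs d M hd hM x hx
  have hj := Nm_pos hd hx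
  rw [hred v hv, hred _ (levV_F6n hd hM hv), mul_left_comm]
  congr 1
  rw [Finset.mul_sum]
  refine Finset.sum_congr rfl fun y hy => ?_
  rw [om_eq, om_eq]
  exact law2 hJ hd hM y hx (hR y hy) (hs.2 y ((hR y hy).symm ▸ hj)) (hv.1 _) τ

end

end Pool.Agent.P.MP_b8021b_nt.CM
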