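import Pool.Agent.P.MP_b8021b_nt.CM.Ker1
import Pool.Agent.P.MP_b8021b_nt.CM.StmtsW

/-! Package P25: the kernels (`kerS`, in the file `Ker1`) and the basic bound for `gv`. -/

namespace Pool.Agent.P.MP_b8021b_nt.CM

open Complex hiding Gamma
open UpperHalfPlane hiding I
open MeasureTheory Filter
open scoped Real Topology

noncomputable section

namespace KerP

open Classical in
theorem summable_lat {K : ℕ} (hK : 0 < K) {b : ℝ} (hb : 1 < b) :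
    Summable fun n : ℚ => if CM.IsInt ((K : ℚ) • n) then |(n : ℝ)| ^ (-b) else 0 := by
  have hK' : (K : ℚ) ≠ 0 := by exact_mod_cast hK.ne'
  have hi : Function.Injective fun n : ℤ => (n : ℚ) / K := fun a b h => by
    exact_mod_cast (div_left_inj' hK').1 h
  refine (hi.summable_iff fun x hx => if_neg fun h => hx ?_).1 ?_
  · obtain ⟨n, hn⟩ := (isInt_rat _).1 h
    exact ⟨n, by rw [smul_eq_mul] at hn; simp only; rw [← hn]; field_simp⟩
  · refine ((Real.summable_abs_int_rpow hb).div_const ((K : ℝ) ^ (-b))).congr fun n => ?_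
    simp only [Function.comp]
    rw [if_pos ((isInt_rat _).2 ⟨n, by rw [smul_eq_mul]; field_simp⟩)]
    push_cast
    rw [abs_div, Nat.abs_cast, Real.div_rpow (abs_nonneg _) (Nat.cast_nonneg _)]

theorem term_bound {x : ℝ × ℝ} (h1 : 0 ≤ x.1) (h2 : 0 ≤ x.2) : ∃ K : ℝ, 0 ≤ K ∧
    ∀ (ξ : ℝ × ℝ) (j l d : ℝ), 0 < j → l ≠ 0 → 1 ≤ d →
      j * |l * j| ^ 8 * (Real.exp (ξ.1 / 2 + ξ.2 / 2) * (4 * j) ^ (-(1 / 2) : ℝ) *
        Real.exp (-4 * π * j * (Real.exp ξ.2 + Real.exp ξ.1 * d * l ^ 2))) ≤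
      K * (j ^ (-(x.2 - x.1 - 1 / 2)) * |l * j| ^ (-(2 * x.1 - 7))) *
        Real.exp (-(x.1 * ξ.1 + x.2 * ξ.2)) := by
  obtain ⟨C, hC0, hC⟩ := exp_bound (r := x.1 + 1 / 2) (a := 4 * π) (by linarith) (by positivity)
  obtain ⟨D, hD0, hD⟩ := exp_bound (r := x.2 + 1 / 2) (a := 4 * π) (by linarith) (by positivity)
  refine ⟨C * D, by positivity, fun ξ j l d hj hl hd => ?_⟩
  have hn : 0 < |l * j| := abs_pos.2 (mul_ne_zero hl hj.ne')
  obtain ⟨J, rfl⟩ : ∃ J, j = Real.exp J := ⟨Real.log j, (Real.exp_log hj).symm⟩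
  obtain ⟨N, hN⟩ : ∃ N, |l * Real.exp J| = Real.exp N := ⟨_, (Real.exp_log hn).symm⟩
  have e1 : Real.exp J * (Real.exp ξ.1 * l ^ 2) = Real.exp (ξ.1 + 2 * N - J) := by
    have : (l * Real.exp J) ^ 2 = Real.exp N ^ 2 := by rw [← hN, sq_abs]
    rw [Real.exp_sub, Real.exp_add, show 2 * N = ((2 : ℕ) : ℝ) * N by simp, Real.exp_nat_mul,
      ← this]
    field_simp
  have b1 : Real.exp (-4 * π * Real.exp J * (Real.exp ξ.2 + Real.exp ξ.1 * d * l ^ 2)) ≤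
      C * Real.exp (-((x.1 + 1 / 2) * (ξ.1 + 2 * N - J))) *
        (D * Real.exp (-((x.2 + 1 / 2) * (J + ξ.2)))) := by
    refine le_trans ?_ (mul_le_mul (hC _) (hD _) (Real.exp_pos _).le (by positivity))
    rw [← Real.exp_add, ← e1, Real.exp_add J]
    refine Real.exp_le_exp.2 ?_
    have : 0 ≤ 4 * π * (Real.exp J * (Real.exp ξ.1 * l ^ 2)) * (d - 1) :=
      mul_nonneg (by positivity) (by linarith)
    nlinarith
  have b2 : (4 * Real.exp J) ^ (-(1 / 2) : ℝ) ≤ Real.exp (J * (-(1 / 2))) := by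
    rw [Real.exp_mul]
    exact Real.rpow_le_rpow_of_nonpos hj (by linarith) (by norm_num)
  rw [hN, ← Real.exp_mul, ← Real.exp_mul, ← Real.exp_nat_mul]
  calc _ ≤ Real.exp J * Real.exp ((8 : ℕ) * N) * (Real.exp (ξ.1 / 2 + ξ.2 / 2) *
        Real.exp (J * (-(1 / 2))) * (C * Real.exp (-((x.1 + 1 / 2) * (ξ.1 + 2 * N - J))) *
        (D * Real.exp (-((x.2 + 1 / 2) * (J + ξ.2)))))) := by gcongr
    _ = C * D * (Real.exp J * Real.exp ((8 : ℕ) * N) * Real.exp (ξ.1 / 2 + ξ.2 / 2) *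
        Real.exp (J * (-(1 / 2))) * Real.exp (-((x.1 + 1 / 2) * (ξ.1 + 2 * N - J))) *
        Real.exp (-((x.2 + 1 / 2) * (J + ξ.2)))) := by ring
    _ = _ := by
      rw [mul_assoc (C * D)]
      simp only [← Real.exp_add]
      congr 2
      push_cast
      ring

variable {s : ℍ → ℍ → ℂ} {d M : ℕ} {v : U6 → U6 → ℂ}

open Classical in
theorem gvT_bound (hA : S_AAW) (hs : InW s) (hd : 0 < d) (hM : 0 < M) (hv : LevV d M v)
    {x : ℝ × ℝ} (h1 : 4 < x.1) (h2 : x.1 + 2 < x.2) : ∃ H : Q2 × ℚ → ℝ, Summable H ∧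
      ∀ ξ p, ‖gvT s d v ξ p‖ ≤ H p * Real.exp (-(x.1 * ξ.1 + x.2 * ξ.2)) := by
  obtain ⟨C, hC0, -, hC⟩ := hA s hs d M hd hM v hv
  obtain ⟨K, hK0, hK⟩ := term_bound (x := x) (by linarith) (by linarith)
  have s1 := summable_Nm hd hM (s := x.2 - x.1 - 1 / 2) (by linarith)
  have s2 := summable_lat (K := M ^ 2) (by positivity) (b := 2 * x.1 - 7) (by linarith)
  have n1 : ∀ y : Q2, 0 ≤ if CM.IsInt ((M : ℚ) • y) ∧ y ≠ 0 then
      ((Nm d y : ℚ) : ℝ) ^ (-(x.2 - x.1 - 1 / 2)) else 0 := fun y => by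
    have : (0 : ℝ) ≤ ((Nm d y : ℚ) : ℝ) := by exact_mod_cast Nm_nonneg d y
    split_ifs <;> positivity
  have n2 : ∀ n : ℚ, 0 ≤ if CM.IsInt (((M ^ 2 : ℕ) : ℚ) • n) then
      |(n : ℝ)| ^ (-(2 * x.1 - 7)) else 0 := fun n => by
    split_ifs <;> positivity
  have hi : Function.Injective fun p : Q2 × ℚ =>
      ((p.1, p.2 * if p.1 = 0 then 1 else Nm d p.1) : Q2 × ℚ) := by
    rintro ⟨a, b⟩ ⟨a', b'⟩ h
    obtain ⟨rfl, h'⟩ := Prod.mk.inj h
    refine Prod.ext rfl (mul_right_cancel₀ ?_ h')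
    split_ifs with h0
    exacts [one_ne_zero, (Nm_pos hd h0).ne']
  refine ⟨_, ((s1.mul_of_nonneg s2 n1 n2).comp_injective hi).mul_left
    (C * ((M : ℝ) ^ 4 + d) ^ 4 * K), fun ξ p => ?_⟩
  obtain ⟨y, l⟩ := p
  simp only [Function.comp]
  by_cases h0 : aa s d v y (d * l ^ 2) l = 0
  · rw [gvT, h0, zero_mul, norm_zero]
    have := n1 y
    have := n2 (l * if y = 0 then 1 else Nm d y)
    positivity
  obtain ⟨a1, a2, a3, a4, -⟩ := aa_supp hv h0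
  have hl : l ≠ 0 := by rintro rfl; simp at a3
  have hj := Nm_pos hd a1
  have hj' : (0 : ℝ) < ((Nm d y : ℚ) : ℝ) := by exact_mod_cast hj
  have a5 : CM.IsInt (((M ^ 2 : ℕ) : ℚ) • (l * Nm d y)) := by rwa [Nat.cast_pow]
  have a6 := inv_le_abs_of_isInt (by positivity) a5 (mul_ne_zero hl hj.ne')
  rw [if_neg a1, if_pos ⟨a2, a1⟩, if_pos a5, gvT, norm_mul, Complex.norm_real,
    Real.norm_of_nonneg (by positivity)]
  have hM' : (0 : ℝ) < M := by exact_mod_cast hM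
  have b1 := hK ξ (Nm d y : ℚ) l d hj' (by exact_mod_cast hl) (by exact_mod_cast hd)
  have b2 := hC y (d * l ^ 2) l
  push_cast at a6 b2 ⊢
  set j : ℝ := ((Nm d y : ℚ) : ℝ)
  have b3 : 1 + j ^ 2 * |(d : ℝ) * (l : ℝ) ^ 2| ≤ ((M : ℝ) ^ 4 + d) * |(l : ℝ) * j| ^ 2 := by
    rw [abs_of_nonneg (by positivity), add_mul]
    have b4 : 1 ≤ (M : ℝ) ^ 2 * |(l : ℝ) * j| := by rwa [← inv_le_iff_one_le_mul₀' (by positivity)]
    have b5 : 1 ≤ ((M : ℝ) ^ 2 * |(l : ℝ) * j|) ^ 2 := one_le_pow₀ b4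
    have b6 : |(l : ℝ) * j| ^ 2 = ((l : ℝ) * j) ^ 2 := sq_abs _
    nlinarith
  calc _ ≤ C * j * (((M : ℝ) ^ 4 + d) * |(l : ℝ) * j| ^ 2) ^ 4 *
        (Real.exp (ξ.1 / 2 + ξ.2 / 2) * (4 * j) ^ (-(1 / 2) : ℝ) *
          Real.exp (-4 * π * j * (Real.exp ξ.2 + Real.exp ξ.1 * d * l ^ 2))) := by
        gcongr
        exact b2.trans (by gcongr)
    _ = C * ((M : ℝ) ^ 4 + d) ^ 4 * (j * |(l : ℝ) * j| ^ 8 *
        (Real.exp (ξ.1 / 2 + ξ.2 / 2) * (4 * j) ^ (-(1 / 2) : ℝ) *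
          Real.exp (-4 * π * j * (Real.exp ξ.2 + Real.exp ξ.1 * d * l ^ 2)))) := by ring
    _ ≤ C * ((M : ℝ) ^ 4 + d) ^ 4 * (K * (j ^ (-(x.2 - x.1 - 1 / 2)) *
        |(l : ℝ) * j| ^ (-(2 * x.1 - 7))) * Real.exp (-(x.1 * ξ.1 + x.2 * ξ.2))) := by gcongr
    _ = _ := by ring

theorem measurable_gvT (p : Q2 × ℚ) : Measurable fun ξ => gvT s d v ξ p := by
  unfold gvT; fun_prop

theorem summable_gvT (hA : S_AAW) (hs : InW s) (hd : 0 < d) (hM : 0 < M) (hv : LevV d M v)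
    (ξ : ℝ × ℝ) : Summable fun p => ‖gvT s d v ξ p‖ := by
  obtain ⟨H, h1, h2⟩ := gvT_bound hA hs hd hM hv (x := (5, 8)) (by norm_num) (by norm_num)
  exact (h1.mul_right _).of_nonneg_of_le (fun _ => norm_nonneg _) (h2 ξ)

theorem base_cv {A : ℝ} (hA : 0 ≤ A) {g : ℝ × ℝ → ℂ} (hg : Base A g) {α : ℝ × ℝ}
    (hα : α = (-1, 1) ∨ α = (1, 0)) {k : ℝ → ℂ} (hk : Half k) :
    Base A (cv α g k) ∧ ∀ ξ, Integrable fun u : ℝ => g (ξ - u • α) * k u := by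
  have hm : Measurable fun p : (ℝ × ℝ) × ℝ => g (p.1 - p.2 • α) * k p.2 :=
    (hg.1.comp (by fun_prop)).mul (hk.1.comp measurable_snd)
  have key : ∀ x : ℝ × ℝ, A < x.1 → x.1 + 2 < x.2 → ∃ h : ℝ → ℝ, Integrable h ∧
      ∀ ξ u, ‖g (ξ - u • α) * k u‖ ≤ h u * Real.exp (-(x.1 * ξ.1 + x.2 * ξ.2)) := by
    intro x h1 h2
    obtain ⟨C, hC⟩ := hg.2 x h1 h2
    have hβ : 0 < x.1 * α.1 + x.2 * α.2 := by
      rcases hα with rfl | rfl <;> simp only <;> linarith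
    refine ⟨_, (Bd.integrable hk.1 (hk.2 0 le_rfl) (hk.2 (x.1 * α.1 + x.2 * α.2 + 1) (by linarith))
      hβ (by linarith)).const_mul C, fun ξ u => ?_⟩
    rw [norm_mul]
    refine (mul_le_mul_of_nonneg_right (hC _) (norm_nonneg _)).trans_eq ?_
    have : Real.exp (-(x.1 * (ξ - u • α).1 + x.2 * (ξ - u • α).2)) =
        Real.exp ((x.1 * α.1 + x.2 * α.2) * u) * Real.exp (-(x.1 * ξ.1 + x.2 * ξ.2)) := by
      rw [← Real.exp_add]
      congr 1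
      simp only [Prod.fst_sub, Prod.snd_sub, Prod.smul_fst, Prod.smul_snd, smul_eq_mul]
      ring
    rw [this]; ring
  refine ⟨⟨(hm.stronglyMeasurable.integral_prod_right' (ν := volume)).measurable,
    fun x h1 h2 => ?_⟩, fun ξ => ?_⟩
  · obtain ⟨h, i, b⟩ := key x h1 h2
    refine ⟨∫ u, h u, fun ξ => ?_⟩
    rw [← integral_mul_const]
    exact norm_integral_le_of_norm_le (i.mul_const _) (ae_of_all _ (b ξ))
  · obtain ⟨h, i, b⟩ := key (A + 1, A + 4) (by simp) (by simp only; linarith)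
    exact (i.mul_const _).mono' (hm.comp measurable_prodMk_left).aestronglyMeasurable
      (ae_of_all _ (b ξ))

end KerP

open KerP in
theorem b0S : S_AAW → S_B0W := by
  intro hA
  refine ⟨4, by norm_num, fun s hs d M hd hM v hv => ?_⟩
  have hS := summable_gvT hA hs hd hM hv
  have e : ∀ (v : U6 → U6 → ℂ) ξ, gv s d v ξ = ∑' p, gvT s d v ξ p := fun _ _ => rfl
  have hb : ∀ x : ℝ × ℝ, 4 < x.1 → x.1 + 2 < x.2 → ∃ C : ℝ, ∀ ξ,
      ∑' p, ‖gvT s d v ξ p‖ ≤ C * Real.exp (-(x.1 * ξ.1 + x.2 * ξ.2)) := by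
    intro x h1 h2
    obtain ⟨H, i, b⟩ := gvT_bound hA hs hd hM hv h1 h2
    exact ⟨∑' p, H p, fun ξ => by
      rw [← tsum_mul_right]; exact (hS ξ).tsum_le_tsum (b ξ) (i.mul_right _)⟩
  have B : Base 4 (gv s d v) := by
    refine ⟨Measurable.tsum measurable_gvT, fun x h1 h2 => ?_⟩
    obtain ⟨C, hC⟩ := hb x h1 h2
    exact ⟨C, fun ξ => (norm_tsum_le_tsum_norm (hS ξ)).trans (hC ξ)⟩
  refine ⟨B, hS, ⟨?_, fun x h1 h2 => ?_⟩, fun v' hv' => ?_, fun a => ?_, ?_,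
    fun α hα k hk => base_cv (by norm_num) B hα hk⟩
  · exact Complex.measurable_ofReal.comp (Measurable.tsum fun p => (measurable_gvT p).norm)
  · obtain ⟨C, hC⟩ := hb x h1 h2
    refine ⟨C, fun ξ => ?_⟩
    rw [Complex.norm_real, Real.norm_of_nonneg (tsum_nonneg fun _ => norm_nonneg _)]
    exact hC ξ
  · funext ξ
    rw [Pi.add_apply, e, e, e,
      ← (hS ξ).of_norm.tsum_add (summable_gvT hA hs hd hM hv' ξ).of_norm]
    congr 1
    funext p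
    simp only [gvT, aa_add hs.hasLevS hd hM hv hv', add_mul]
  · funext ξ
    rw [Pi.smul_apply, e, e, smul_eq_mul, ← tsum_mul_left]
    congr 1
    funext p
    simp only [gvT, aa_smul, mul_assoc]
  · funext ξ
    simp only [gv, aa_kT hs.hasLevS]

end

end Pool.Agent.P.MP_b8021b_nt.CM
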