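import Pool.Agent.P.MP_b8021b_nt.CM.Lib

/-! Package P1: level one functions are polynomials in `j`; finite dimensionality. -/

namespace Pool.Agent.P.MP_b8021b_nt.CM

open Complex hiding Gamma
open UpperHalfPlane hiding I
open MeasureTheory CongruenceSubgroup Filter
open scoped Real MatrixGroups ModularForm Topology ComplexConjugate Modular

noncomputable section

namespace L1FDP

variable {f g : ℍ → ℂ} {M : ℕ} {w w' : ℝ}

theorem gro_nonneg (h : Gro w f) : ∃ K : ℝ, 0 ≤ K ∧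
    ∀ τ : ℍ, 1 ≤ τ.im → ‖f τ‖ ≤ K * Real.exp (2 * π * w * τ.im) := by
  obtain ⟨K, hK⟩ := h
  exact ⟨max K 0, le_max_right _ _, fun τ hτ => (hK τ hτ).trans
    (mul_le_mul_of_nonneg_right (le_max_left _ _) (Real.exp_pos _).le)⟩

theorem gro_mono (h : Gro w f) (hw : w ≤ w') : Gro w' f := by
  obtain ⟨K, hK0, hK⟩ := gro_nonneg h
  refine ⟨K, fun τ hτ => (hK τ hτ).trans (mul_le_mul_of_nonneg_left ?_ hK0)⟩
  refine Real.exp_le_exp.2 (mul_le_mul_of_nonneg_right ?_ τ.im_pos.le)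
  exact mul_le_mul_of_nonneg_left hw (by positivity)

theorem gro_zero (w : ℝ) : Gro w (0 : ℍ → ℂ) := ⟨0, fun τ _ => by simp⟩

theorem gro_one : Gro 0 (1 : ℍ → ℂ) := ⟨1, fun τ _ => by simp⟩

theorem gro_add (h : Gro w f) (h' : Gro w g) : Gro w (f + g) := by
  obtain ⟨K, hK⟩ := h
  obtain ⟨K', hK'⟩ := h'
  refine ⟨K + K', fun τ hτ => (norm_add_le _ _).trans ?_⟩
  rw [add_mul]
  exact add_le_add (hK τ hτ) (hK' τ hτ)

theorem gro_smul (c : ℂ) (h : Gro w f) : Gro w (c • f) := by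
  obtain ⟨K, hK⟩ := h
  refine ⟨‖c‖ * K, fun τ hτ => ?_⟩
  rw [Pi.smul_apply, norm_smul, mul_assoc]
  exact mul_le_mul_of_nonneg_left (hK τ hτ) (norm_nonneg _)

theorem gro_mul (h : Gro w f) (h' : Gro w' g) : Gro (w + w') (f * g) := by
  obtain ⟨K, hK0, hK⟩ := gro_nonneg h
  obtain ⟨K', hK'⟩ := h'
  refine ⟨K * K', fun τ hτ => ?_⟩
  rw [Pi.mul_apply, norm_mul]
  refine (mul_le_mul (hK τ hτ) (hK' τ hτ) (norm_nonneg _) (by positivity)).trans (le_of_eq ?_)
  rw [show 2 * π * (w + w') * τ.im = 2 * π * w * τ.im + 2 * π * w' * τ.im by ring, Real.exp_add]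
  ring

theorem gro_prod {ι : Type} (s : Finset ι) (F : ι → ℍ → ℂ) (h : ∀ i ∈ s, Gro w (F i)) :
    Gro (s.card * w) (∏ i ∈ s, F i) := by
  classical
  induction s using Finset.induction_on with
  | empty => simpa using gro_one
  | insert a s ha ih =>
    rw [Finset.prod_insert ha, Finset.card_insert_of_notMem ha]
    have h1 := gro_mul (h a (Finset.mem_insert_self _ _))
      (ih fun i hi => h i (Finset.mem_insert_of_mem hi))
    refine gro_mono h1 (le_of_eq ?_)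
    push_cast
    ring

theorem gro_pow (h : Gro w f) (n : ℕ) : Gro (n * w) (f ^ n) := by
  have h1 := gro_prod (Finset.range n) (fun _ => f) fun _ _ => h
  rwa [Finset.prod_const, Finset.card_range] at h1

theorem gro_of_dec (h : Dec f) : Gro 0 f := by
  obtain ⟨C, c, hc, h⟩ := h
  refine ⟨max C 0, fun τ hτ => (h τ (by linarith)).trans ?_⟩
  refine mul_le_mul (le_max_left _ _) (Real.exp_le_exp.2 ?_) (Real.exp_pos _).le (le_max_right _ _)
  have := mul_pos hc τ.im_pos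
  linarith

theorem levU_one (hl : ∀ (γ : SL) (τ : ℍ), f (γ • τ) = f τ) : LevU 1 f := fun γ _ τ => hl γ τ

theorem of_levU_one (hl : LevU 1 f) (γ : SL) (τ : ℍ) : f (γ • τ) = f τ :=
  hl γ (by rw [Gamma_one_top]; trivial) τ

theorem const_of_gro (h : Hol f) (hl : LevU 1 f) (hg : Gro 0 f) : ∃ c : ℂ, f = fun _ => c := by
  have hs : ∀ γ : SL, f ∣[(0 : ℤ)] γ = f := fun γ => by
    funext τ
    rw [ModularForm.SL_slash_apply, of_levU_one hl]
    simp
  let F : ModularForm 𝒮ℒ 0 :=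
    { toFun := f
      slash_action_eq' := fun _ ⟨γ, hγ⟩ => hγ ▸ hs γ
      holo' := hol_iff_mdiff.1 h
      bdd_at_cusps' := fun {c} hc => by
        rw [Subgroup.IsArithmetic.isCusp_iff_isCusp_SL2Z] at hc
        rw [OnePoint.isBoundedAt_iff_forall_SL2Z hc]
        intro γ _
        rw [hs γ, isBoundedAtImInfty_iff]
        obtain ⟨K, hK⟩ := hg
        exact ⟨K, 1, fun τ hτ => by simpa using hK τ hτ⟩ }
  exact ModularFormClass.levelOne_weight_zero_const F

theorem zero_of_gro (h : Hol f) (hl : LevU 1 f) (hw : w < 0) (hg : Gro w f) : f = 0 := by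
  obtain ⟨c, rfl⟩ := const_of_gro h hl (gro_mono hg hw.le)
  have h1 := (gro_iff one_pos h hl.per w).1 hg 0 (by simpa using hw)
  rw [coef_const one_pos, if_pos rfl] at h1
  funext τ
  exact h1

theorem exists_eq_zero {ι : Type} (s : Finset ι) (F : ι → ℍ → ℂ) (h : ∀ i ∈ s, Hol (F i))
    (h0 : ∏ i ∈ s, F i = 0) : ∃ i ∈ s, F i = 0 := by
  classical
  induction s using Finset.induction_on with
  | empty =>
    have h1 := congrFun h0 UpperHalfPlane.I
    simp at h1
  | insert a s ha ih =>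
    rw [Finset.prod_insert ha] at h0
    have hs : ∀ i ∈ s, Hol (F i) := fun i hi => h i (Finset.mem_insert_of_mem hi)
    rcases (h a (Finset.mem_insert_self _ _)).mul_eq_zero (Hol.prod s F hs) h0 with e | e
    · exact ⟨a, Finset.mem_insert_self _ _, e⟩
    · obtain ⟨i, hi, e'⟩ := ih hs e
      exact ⟨i, Finset.mem_insert_of_mem hi, e'⟩

theorem zero_of_norm (hM : 0 < M) (h : Hol g) (hl : LevU M g) (hw0 : 0 ≤ w)
    (hw : ∀ γ : SL, Gro w fun τ => g (γ • τ)) (hw' : Gro w' g)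
    (hs : w' + (Gamma M).index * w < 0) : g = 0 := by
  classical
  have : NeZero M := ⟨hM.ne'⟩
  have := Gamma_normal M
  have : Fintype (SL ⧸ Gamma M) := Fintype.ofFinite _
  have key : ∀ a b : SL, (a : SL ⧸ Gamma M) = b → ∀ τ : ℍ, g (a • τ) = g (b • τ) :=
    fun a b hab τ => by
      have h1 : b * a⁻¹ ∈ Gamma M := (Gamma_normal M).mem_comm (QuotientGroup.eq.1 hab)
      rw [← hl _ h1 (a • τ), ← mul_smul, inv_mul_cancel_right]
  let F : SL ⧸ Gamma M → ℍ → ℂ := fun q τ => g (q.out • τ)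
  have hF : ∀ q, Hol (F q) := fun q => h.smulSL _
  have hN : LevU 1 (∏ q, F q) := levU_one fun γ τ => by
    rw [Finset.prod_apply, Finset.prod_apply,
      ← Equiv.prod_comp (Equiv.mulRight (γ : SL ⧸ Gamma M)) fun q => F q τ]
    refine Finset.prod_congr rfl fun q _ => ?_
    show g (q.out • γ • τ) = g ((q * (γ : SL ⧸ Gamma M)).out • τ)
    rw [← mul_smul]
    refine key _ _ ?_ τ
    rw [QuotientGroup.mk_mul, QuotientGroup.out_eq', QuotientGroup.out_eq']
  have hF1 : F 1 = g := by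
    funext τ
    show g ((1 : SL ⧸ Gamma M).out • τ) = g τ
    rw [key _ 1 (by rw [QuotientGroup.out_eq', QuotientGroup.mk_one]), one_smul]
  have hG : Gro (w' + (Gamma M).index * w) (∏ q, F q) := by
    rw [← Finset.mul_prod_erase _ F (Finset.mem_univ 1), hF1]
    refine gro_mul hw' (gro_mono (gro_prod _ F fun q _ => hw _) ?_)
    refine mul_le_mul_of_nonneg_right (Nat.cast_le.2 ?_) hw0
    rw [Subgroup.index, Nat.card_eq_fintype_card]
    exact Finset.card_le_univ _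
  obtain ⟨q, -, hq⟩ := exists_eq_zero _ F (fun q _ => hF q)
    (zero_of_gro (Hol.prod _ F fun q _ => hF q) hN hs hG)
  funext τ
  have h1 : g (q.out • q.out⁻¹ • τ) = 0 := congrFun hq (q.out⁻¹ • τ)
  rwa [smul_inv_smul] at h1

theorem fin_span (M : ℕ) (V : Submodule ℂ (ℍ → ℂ)) (hc : ∀ f ∈ V, Continuous f) (s : Finset ℤ)
    (hinj : ∀ f ∈ V, (∀ n ∈ s, coef M f n = 0) → f = 0) :
    ∃ S : Finset (ℍ → ℂ), ∀ f ∈ V, f ∈ Submodule.span ℂ (S : Set (ℍ → ℂ)) := by
  let L : V →ₗ[ℂ] (s → ℂ) :=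
    { toFun := fun f n => coef M f.1 n.1
      map_add' := fun f g => funext fun n => coef_add (hc _ f.2) (hc _ g.2) n.1
      map_smul' := fun c f => funext fun n => coef_smul c f.1 n.1 }
  have hL : Function.Injective L := (injective_iff_map_eq_zero L).2 fun f hf =>
    Subtype.ext (hinj _ f.2 fun n hn => congrFun hf ⟨n, hn⟩)
  have : Module.Finite ℂ V := Module.Finite.of_injective L hL
  obtain ⟨S, hS⟩ : V.FG := Module.Finite.iff_fg.1 this
  exact ⟨S, fun f hf => hS ▸ hf⟩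

theorem gro_of_coef (hM : 0 < M) (h : Hol f) (hp : Per M f) {B : ℕ}
    (hB : ∀ n : ℤ, n ≤ B → coef M f n = 0) : Gro (-((B : ℝ) / M)) f := by
  refine (gro_iff hM h hp _).2 fun n hn => hB n ?_
  have hM' : (M : ℝ) ≠ 0 := Nat.cast_ne_zero.2 hM.ne'
  rw [neg_neg, div_mul_cancel₀ _ hM'] at hn
  exact_mod_cast hn.le

theorem fd_fun (hM : 0 < M) (w : ℝ) : ∃ S : Finset (ℍ → ℂ), ∀ f, InO M f →
    (∀ γ : SL, Gro w fun τ => f (γ • τ)) → f ∈ Submodule.span ℂ (S : Set (ℍ → ℂ)) := by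
  let V : Submodule ℂ (ℍ → ℂ) :=
    { carrier := {f | InO M f ∧ ∀ γ : SL, Gro w fun τ => f (γ • τ)}
      zero_mem' := ⟨inO_const M 0, fun _ => gro_zero w⟩
      add_mem' := fun ha hb => ⟨ha.1.add hb.1, fun γ => gro_add (ha.2 γ) (hb.2 γ)⟩
      smul_mem' := fun c _ ha => ⟨ha.1.smul c, fun γ => gro_smul c (ha.2 γ)⟩ }
  have hM' : (0 : ℝ) < M := Nat.cast_pos.2 hM
  obtain ⟨A, hA⟩ := exists_nat_gt (w * M)
  obtain ⟨B, hB⟩ := exists_nat_gt ((Gamma M).index * max w 0 * M)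
  obtain ⟨S, hS⟩ := fin_span M V (fun f hf => hf.1.1.1.continuous) (Finset.Icc (-A : ℤ) B)
    fun f hf h0 => by
      have h1 : Gro w f := by simpa using hf.2 1
      have h2 : ∀ n : ℤ, n ≤ B → coef M f n = 0 := fun n hn => by
        by_cases h3 : (-A : ℤ) ≤ n
        · exact h0 n (Finset.mem_Icc.2 ⟨h3, hn⟩)
        · refine (gro_iff hM hf.1.1.1 hf.1.2.per w).1 h1 n ?_
          have h4 : (n : ℝ) < -A := by exact_mod_cast not_le.1 h3
          linarith
      refine zero_of_norm hM hf.1.1.1 hf.1.2 (le_max_right w 0)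
        (fun γ => gro_mono (hf.2 γ) (le_max_left _ _)) (gro_of_coef hM hf.1.1.1 hf.1.2.per h2) ?_
      rw [neg_add_lt_iff_lt_add, add_zero, lt_div_iff₀ hM']
      exact hB
  exact ⟨S, fun f h1 h2 => hS f ⟨h1, h2⟩⟩

theorem Delta_smul (γ : SL) (τ : ℍ) :
    ModularForm.discriminant (γ • τ) = ModularForm.discriminant τ * jf γ τ ^ 12 := by
  have h1 := congrFun (inG_Delta.2 γ) τ
  rw [sl] at h1
  rw [← h1, mul_assoc, zpow_neg, zpow_ofNat, inv_mul_cancel₀ (pow_ne_zero _ (jf_ne_zero γ τ)),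
    mul_one]

theorem per_Delta_inv : Per 1 fun τ => (ModularForm.discriminant τ)⁻¹ := fun τ => by
  have h1 := Delta_smul ModularGroup.T τ
  rw [jf_T, one_pow, mul_one, modular_T_smul] at h1
  simp only [Nat.cast_one]
  rw [h1]

theorem fd_cusp (hM : 0 < M) :
    ∃ S : Finset (ℍ → ℂ), ∀ f, Cusp M f → f ∈ Submodule.span ℂ (S : Set (ℍ → ℂ)) := by
  let V : Submodule ℂ (ℍ → ℂ) :=
    { carrier := {f | Cusp M f}
      zero_mem' := cusp_zero M
      add_mem' := fun ha hb => Cusp.add ha hb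
      smul_mem' := fun c _ ha => Cusp.smul c ha }
  have hM' : (0 : ℝ) < M := Nat.cast_pos.2 hM
  obtain ⟨w, hw⟩ := inG_Delta_inv.gro one_pos per_Delta_inv
  obtain ⟨B, hB⟩ := exists_nat_gt ((w + (Gamma M).index * w) * M : ℝ)
  refine fin_span M V (fun f hf => Hol.continuous hf.1) (Finset.Icc (0 : ℤ) B) fun f hf h0 => ?_
  have hf' : Cusp M f := hf
  have h2 : ∀ n : ℤ, n ≤ B → coef M f n = 0 := fun n hn => by
    by_cases h3 : 0 ≤ n
    · exact h0 n (Finset.mem_Icc.2 ⟨h3, hn⟩)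
    · exact (hf'.coef_bound hM).1 n (not_le.1 h3).le
  let g : ℍ → ℂ := f ^ 6 * fun τ => (ModularForm.discriminant τ)⁻¹
  have hg : ∀ γ : SL, (fun τ => g (γ • τ)) =
      sl 2 γ f ^ 6 * fun τ => (ModularForm.discriminant τ)⁻¹ := fun γ => by
    funext τ
    have h3 := jf_ne_zero γ τ
    have h4 := ModularForm.discriminant_ne_zero τ
    simp only [g, Pi.mul_apply, Pi.pow_apply, sl, Delta_smul, zpow_neg, zpow_ofNat]
    field_simp
  have hg0 : g = 0 := by
    refine zero_of_norm hM ((hf'.1.pow 6).mul inG_Delta_inv.1) (fun γ hγ τ => ?_)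
      (Nat.cast_nonneg w) (fun γ => ?_)
      (gro_mul (gro_pow (gro_of_coef hM hf'.1 hf'.per h2) 6) hw) ?_
    · have h3 := congrFun (hg γ) τ
      rw [hf'.2.1 γ hγ] at h3
      exact h3
    · rw [hg γ]
      simpa using gro_mul (gro_pow (gro_of_dec (hf'.2.2 γ)) 6) hw
    · have h3 : (w + (Gamma M).index * w : ℝ) < B / M := by rwa [lt_div_iff₀ hM']
      have h4 : (0 : ℝ) ≤ B / M := by positivity
      push_cast
      linarith
  funext τ
  have h3 : f τ ^ 6 * (ModularForm.discriminant τ)⁻¹ = 0 := congrFun hg0 τ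
  rcases mul_eq_zero.1 h3 with e | e
  · exact pow_eq_zero_iff (by norm_num) |>.1 e
  · exact absurd e (inv_ne_zero (ModularForm.discriminant_ne_zero τ))

theorem coef_jpow (hJ : S_J) (i : ℕ) :
    (∀ n : ℤ, n < -i → coef 1 (jj ^ i) n = 0) ∧ coef 1 (jj ^ i) (-i) = 1 := by
  obtain ⟨-, -, -, h1, h2, -⟩ := hJ
  induction i with
  | zero =>
    have e : jj ^ 0 = fun _ => (1 : ℂ) := by
      funext τ
      simp
    rw [e]
    refine ⟨fun n hn => ?_, ?_⟩
    · rw [coef_const one_pos, if_neg (by omega)]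
    · rw [coef_const one_pos, if_pos (by simp)]
  | succ i ih =>
    have h3 := coef_mul one_pos (inO_jj.pow i).1.1 (inO_jj.pow i).2.per inO_jj.1.1 inO_jj.2.per
      ih.1 h1
    rw [pow_succ]
    refine ⟨fun n hn => ?_, ?_⟩
    · rw [h3, Finset.Icc_eq_empty (by push_cast at hn; omega), Finset.sum_empty]
    · rw [h3, show (-((i + 1 : ℕ) : ℤ) - -1) = -i by push_cast; ring, Finset.Icc_self,
        Finset.sum_singleton, ih.2, show (-((i + 1 : ℕ) : ℤ) - -i) = -1 by push_cast; ring, h2,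
        one_mul]

theorem exists_poly (hJ : S_J) (n0 : ℕ) : ∀ f, InO 1 f → (∀ n : ℤ, n < -n0 → coef 1 f n = 0) →
    ∃ P : Polynomial ℂ, ∀ τ, f τ = P.eval (jj τ) := by
  induction n0 with
  | zero =>
    intro f hf h0
    obtain ⟨c, rfl⟩ := const_of_gro hf.1.1 hf.2 ((gro_iff one_pos hf.1.1 hf.2.per 0).2
      fun n hn => h0 n (by simpa using hn))
    exact ⟨Polynomial.C c, fun τ => by simp⟩
  | succ n0 ih =>
    intro f hf h0
    have hj := (inO_jj.pow (n0 + 1)).smul (-coef 1 f (-(n0 + 1 : ℕ)))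
    obtain ⟨P, hP⟩ := ih (f + -coef 1 f (-(n0 + 1 : ℕ)) • jj ^ (n0 + 1)) (hf.add hj) fun n hn => by
      rw [coef_add hf.1.1.continuous hj.1.1.continuous, coef_smul]
      by_cases e : n = -(n0 + 1 : ℕ)
      · rw [e, (coef_jpow hJ (n0 + 1)).2]
        ring
      · have h1 : n < -(n0 + 1 : ℕ) := by push_cast at e ⊢; omega
        rw [h0 n h1, (coef_jpow hJ (n0 + 1)).1 n h1]
        ring
    refine ⟨P + Polynomial.C (coef 1 f (-(n0 + 1 : ℕ))) * Polynomial.X ^ (n0 + 1), fun τ => ?_⟩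
    have h1 := hP τ
    simp only [Pi.add_apply, Pi.smul_apply, Pi.pow_apply, smul_eq_mul] at h1
    simp only [Polynomial.eval_add, Polynomial.eval_mul, Polynomial.eval_C, Polynomial.eval_pow,
      Polynomial.eval_X, ← h1]
    ring

theorem coef_poly (hJ : S_J) {P : Polynomial ℂ} (hP : ∀ τ, f τ = P.eval (jj τ)) :
    coef 1 f (-P.natDegree) = P.leadingCoeff := by
  have e : f = ∑ i ∈ Finset.range (P.natDegree + 1), P.coeff i • jj ^ i := by
    funext τ
    rw [hP, Polynomial.eval_eq_sum_range, Finset.sum_apply]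
    rfl
  rw [e, coef_sum _ _ fun i _ => ((inO_jj.pow i).smul _).1.1.continuous, Finset.sum_range_succ,
    coef_smul, (coef_jpow hJ _).2, mul_one, Finset.sum_eq_zero, zero_add, Polynomial.leadingCoeff]
  intro i hi
  rw [coef_smul, (coef_jpow hJ i).1 _ (by have := Finset.mem_range.1 hi; omega), mul_zero]

end L1FDP

theorem l1 (hJ : S_J) : S_L1 := fun f hf => by
  obtain ⟨n0, h0⟩ := hf.1.exists_pole one_pos hf.2.per
  obtain ⟨P, hP⟩ := L1FDP.exists_poly hJ n0 f hf h0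
  refine ⟨P, hP, fun w hP0 hw => ?_⟩
  by_contra hlt
  have h1 := (gro_iff one_pos hf.1.1 hf.2.per w).1 hw (-P.natDegree) (by
    push_cast
    linarith [not_le.1 hlt])
  rw [L1FDP.coef_poly hJ hP] at h1
  exact hP0 (Polynomial.leadingCoeff_eq_zero.1 h1)

theorem fd : S_FD := fun _ hM => ⟨L1FDP.fd_fun hM, L1FDP.fd_cusp hM⟩

end

end Pool.Agent.P.MP_b8021b_nt.CM
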