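import Pool.Agent.P.MP_b8021b_nt.CM.Lib

/-! Package P22: reduction of the local vanishing to small boxes. -/

namespace Pool.Agent.P.MP_b8021b_nt.CM

open scoped MatrixGroups

noncomputable section

namespace LocAP

theorem int_mul {a b : ℚ} (h : IsInt a) (h' : IsInt b) : IsInt (a * b) := by
  obtain ⟨m, rfl⟩ := (isInt_rat a).1 h
  obtain ⟨n, rfl⟩ := (isInt_rat b).1 h'
  exact (isInt_rat _).2 ⟨m * n, by push_cast; rfl⟩

theorem int_int (n : ℤ) : IsInt (n : ℚ) := (isInt_rat _).2 ⟨n, rfl⟩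

theorem int_nat (n : ℕ) : IsInt (n : ℚ) := (isInt_rat _).2 ⟨n, by simp⟩

theorem int_of_eq {a b : ℚ} (h : IsInt a) (e : b = a) : IsInt b := e ▸ h

theorem eq_congr {a b : ℚ} (h : IsInt (a - b)) : eq a = eq b := by
  rw [← sub_add_cancel a b, eq_add, (eq_eq_one_iff _).2 h, one_mul]

/-! ### divisibility -/

theorem pdiv_mono {p : ℕ} {k k' : ℤ} (h : k ≤ k') {x : ℚ} (hx : pdiv p k' x) : pdiv p k x :=
  hx.imp id fun h1 => h.trans h1

theorem pdiv_mul_int {p : ℕ} (hp : p.Prime) {k : ℤ} {x : ℚ} (hx : pdiv p k x) (n : ℤ) :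
    pdiv p k (x * n) := by
  have : Fact p.Prime := ⟨hp⟩
  by_cases h : x * n = 0
  · exact Or.inl h
  · have h1 := mul_ne_zero_iff.1 h
    refine Or.inr ?_
    rw [padicValRat.mul h1.1 h1.2, padicValRat.of_int]
    have := hx.resolve_left h1.1
    omega

theorem int_div {p : ℕ} (hp : p.Prime) {k : ℕ} {x : ℚ} (hx : IsInt x) (h : pdiv p k x) :
    IsInt (x / p ^ k) := by
  have : Fact p.Prime := ⟨hp⟩
  obtain ⟨n, rfl⟩ := (isInt_rat x).1 hx
  have h1 : (p : ℤ) ^ k ∣ n := by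
    rw [padicValInt_dvd_iff]
    refine h.imp (fun h => by exact_mod_cast h) fun h => ?_
    rw [padicValRat.of_int] at h
    exact_mod_cast h
  obtain ⟨m, rfl⟩ := h1
  have h2 : (p : ℚ) ≠ 0 := by exact_mod_cast hp.ne_zero
  refine int_of_eq (int_int m) ?_
  push_cast
  field_simp

/-! ### the right action on row vectors -/

theorem vm_add (x y : Q2) (γ : SL) : vm (x + y) γ = vm x γ + vm y γ := by
  ext <;> simp only [vm, Prod.fst_add, Prod.snd_add] <;> ring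

theorem vm_sub (x y : Q2) (γ : SL) : vm (x - y) γ = vm x γ - vm y γ := by
  ext <;> simp only [vm, Prod.fst_sub, Prod.snd_sub] <;> ring

theorem vm_smul (a : ℚ) (x : Q2) (γ : SL) : vm (a • x) γ = a • vm x γ := by
  ext <;> simp only [vm, Prod.smul_fst, Prod.smul_snd, smul_eq_mul] <;> ring

theorem int_vm {x : Q2} (h : IsInt x) (γ : SL) : IsInt (vm x γ) := by
  rw [isInt_prod] at h ⊢
  exact ⟨(int_mul h.1 (int_int _)).add (int_mul h.2 (int_int _)),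
    (int_mul h.1 (int_int _)).add (int_mul h.2 (int_int _))⟩

theorem int_vm_iff (x : Q2) (γ : SL) : IsInt (vm x γ) ↔ IsInt x :=
  ⟨fun h => by simpa only [← vm_mul, mul_inv_cancel, vm_one] using int_vm h γ⁻¹,
    fun h => int_vm h γ⟩

theorem lev_vm {L : ℕ} {a : Q2 → ℂ} (h : Lev L a) (γ : SL) : Lev L fun v => a (vm v γ) := by
  refine ⟨fun x k hk => ?_, fun x hx => ?_⟩
  · simp only [vm_add, vm_smul]
    exact h.1 _ _ (int_vm hk γ)
  · have h1 := h.2 _ hx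
    rwa [← vm_smul, int_vm_iff] at h1

theorem sb_vm {a : Q2 → ℂ} (h : SB a) (γ : SL) : SB fun v => a (vm v γ) :=
  h.imp fun _ h1 => ⟨h1.1, lev_vm h1.2 γ⟩

theorem chiEq_vm {d M : ℕ} {c : Q2 → ℂ} (h : ChiEq d M c) (γ : SL) :
    ChiEq d M fun v => c (vm v γ) := by
  rintro n hn w ⟨k, hk⟩
  simp only [vm_smul]
  exact h n hn _ ⟨k, by rw [← vm_smul]; exact int_vm hk γ⟩

theorem vm_T (w : Q2) : vm w ModularGroup.T = (w.1, w.2 + 1 * w.1) := by
  ext <;> simp [vm, ModularGroup.coe_T, add_comm]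

theorem vm_T_inv (w : Q2) : vm w ModularGroup.T⁻¹ = (w.1, w.2 + -1 * w.1) := by
  ext <;> simp [vm, ModularGroup.coe_T, add_comm]

theorem vm_S (w : Q2) : vm w ModularGroup.S = (w.2, -w.1) := by
  ext <;> simp [vm, ModularGroup.coe_S]

theorem vm_S_inv (w : Q2) : vm w ModularGroup.S⁻¹ = (-w.2, w.1) := by
  rw [ModularGroup.S_inv]
  ext <;> simp [vm, ModularGroup.coe_S]

/-! ### levels -/

theorem levL_succ {d M k : ℕ} (hd : 0 < d) (h2 : 2 * d ∣ M) {φ : Q2 → ℂ} (h : Lev (M ^ k) φ) :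
    LevL d (M ^ (k + 1)) φ := by
  obtain ⟨m, hm⟩ := h2
  refine ⟨fun x a b => ?_, (h.mono (pow_dvd_pow M k.le_succ)).2⟩
  have h1 : (d : ℚ) ≠ 0 := by exact_mod_cast hd.ne'
  have h3 : (M : ℚ) = 2 * d * m := by exact_mod_cast hm
  have h4 := h.1 x (((d * m * a : ℤ) : ℚ), ((m * b : ℤ) : ℚ))
    ((isInt_prod _).2 ⟨int_int _, int_int _⟩)
  rw [← h4]
  congr 2
  ext
  · simp only [Prod.smul_fst, smul_eq_mul]
    push_cast
    rw [pow_succ]
    linear_combination (M : ℚ) ^ k * a / 2 * h3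
  · simp only [Prod.smul_snd, smul_eq_mul]
    push_cast
    rw [pow_succ]
    field_simp
    linear_combination (M : ℚ) ^ k * b * h3

theorem levL_mul {d L : ℕ} (hd : 0 < d) (h2 : 2 * d ∣ L) {φ : Q2 → ℂ} (h : LevL d L φ) (b : ℤ) :
    LevL d L fun z => eq (-(b : ℚ) * Nm d z) * φ z := by
  obtain ⟨m, hm⟩ := h2
  refine ⟨fun x k l => ?_, fun x hx => h.2 x (right_ne_zero_of_mul hx)⟩
  simp only [h.1]
  by_cases hx : φ x = 0
  · rw [hx, mul_zero, mul_zero]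
  · have h1 : (d : ℚ) ≠ 0 := by exact_mod_cast hd.ne'
    have h3 : (L : ℚ) = 2 * d * m := by exact_mod_cast hm
    obtain ⟨h4, h5⟩ := (isInt_prod _).1 (h.2 x hx)
    rw [eq_congr (b := -(b : ℚ) * Nm d x)]
    refine int_of_eq (int_mul (int_int (-b)) (((int_mul h4 (int_int k)).add
      (int_mul h5 (int_int l))).add (int_int ((d * m * k) ^ 2 + d * (m * l) ^ 2)))) ?_
    simp only [Nm, Prod.fst_add, Prod.snd_add, Prod.smul_fst, Prod.smul_snd, smul_eq_mul, h3]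
    push_cast
    field_simp
    ring

theorem lev_cO {L B : ℕ} {β : ℚ} (hβ : IsInt (B * β)) {Ω : Q2 × Q2 → ℂ} (h : Lev L Ω) :
    Lev (L * B ^ 2) (cO β Ω) := by
  have key : ∀ p : Q2 × Q2, Ω (p.1, (p.2.1 - β * p.1.1, p.2.2)) ≠ 0 →
      IsInt (L * p.1.1) ∧ IsInt (L * p.1.2) ∧ IsInt (L * B * p.2.1) ∧ IsInt (L * p.2.2) := by
    intro p hp
    have h1 := h.2 _ hp
    simp only [isInt_prod, Prod.smul_fst, Prod.smul_snd, smul_eq_mul] at h1
    exact ⟨h1.1.1, h1.1.2, int_of_eq ((int_mul (int_nat B) h1.2.1).add (int_mul hβ h1.1.1))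
      (by ring), h1.2.2⟩
  refine ⟨fun x k hk => ?_, fun x hx => ?_⟩
  · simp only [isInt_prod] at hk
    obtain ⟨⟨k1, k2⟩, k3, k4⟩ := hk
    have hB := int_nat B
    have hL := int_nat L
    have h1 := h.1 (x.1, (x.2.1 - β * x.1.1, x.2.2))
      (((B : ℚ) * B * k.1.1, (B : ℚ) * B * k.1.2),
        ((B : ℚ) * B * k.2.1 - B * (B * β) * k.1.1, (B : ℚ) * B * k.2.2)) (by
      simp only [isInt_prod]
      exact ⟨⟨int_mul (int_mul hB hB) k1, int_mul (int_mul hB hB) k2⟩,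
        (int_mul (int_mul hB hB) k3).sub (int_mul (int_mul hB hβ) k1),
        int_mul (int_mul hB hB) k4⟩)
    have h2 : Ω ((x + ((L * B ^ 2 : ℕ) : ℚ) • k).1, ((x + ((L * B ^ 2 : ℕ) : ℚ) • k).2.1 -
        β * (x + ((L * B ^ 2 : ℕ) : ℚ) • k).1.1, (x + ((L * B ^ 2 : ℕ) : ℚ) • k).2.2)) =
        Ω (x.1, (x.2.1 - β * x.1.1, x.2.2)) := by
      rw [← h1]
      congr 1
      ext <;> simp only [Prod.fst_add, Prod.snd_add, Prod.smul_fst, Prod.smul_snd, smul_eq_mul] <;>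
        push_cast <;> ring
    rw [cO, cO, h2]
    by_cases hx : Ω (x.1, (x.2.1 - β * x.1.1, x.2.2)) = 0
    · rw [hx, mul_zero, mul_zero]
    · obtain ⟨x1, x2, x3, -⟩ := key x hx
      rw [eq_congr (b := (2 * β * x.2.1 - β ^ 2 * x.1.1) * x.1.2)]
      refine int_of_eq ((int_mul (int_mul (int_nat 2) hβ)
        (((int_mul (int_mul hB k3) x2).add (int_mul x3 k2)).add
          (int_mul (int_mul (int_nat (L ^ 2 * B ^ 3)) k3) k2))).sub
        (int_mul (int_mul hβ hβ) (((int_mul k1 x2).add (int_mul x1 k2)).add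
          (int_mul (int_mul (int_nat (L ^ 2 * B ^ 2)) k1) k2)))) ?_
      simp only [Prod.fst_add, Prod.snd_add, Prod.smul_fst, Prod.smul_snd, smul_eq_mul]
      push_cast
      ring
  · obtain ⟨x1, x2, x3, x4⟩ := key x (right_ne_zero_of_mul hx)
    have hB := int_nat B
    simp only [isInt_prod, Prod.smul_fst, Prod.smul_snd, smul_eq_mul]
    push_cast
    exact ⟨⟨int_of_eq (int_mul (int_mul hB hB) x1) (by ring),
      int_of_eq (int_mul (int_mul hB hB) x2) (by ring)⟩,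
      int_of_eq (int_mul hB x3) (by ring), int_of_eq (int_mul (int_mul hB hB) x4) (by ring)⟩

/-- the operator `cO` acts trivially near zero -/
theorem cO_eq {L : ℕ} {β : ℚ} {Ω : Q2 × Q2 → ℂ} (h : Lev L Ω) (p : Q2 × Q2) {γ : ℚ}
    (hβ : β = L * (L * γ))
    (hp : IsInt (L * p.1.1) → IsInt (L * p.1.2) →
      IsInt (L * γ * p.1.1) ∧ IsInt (L * γ * p.1.2)) : cO β Ω p = Ω p := by
  by_cases h1 : IsInt ((L : ℚ) • p.1)
  · have h2 := (isInt_prod _).1 h1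
    obtain ⟨h3, h4⟩ := hp h2.1 h2.2
    have hL := int_nat L
    have h5 := h.1 p (0, (-(L * γ * p.1.1), 0))
      ((isInt_prod _).2 ⟨isInt_zero, (isInt_prod _).2 ⟨h3.neg, isInt_zero⟩⟩)
    have h6 : Ω (p.1, (p.2.1 - β * p.1.1, p.2.2)) = Ω p := by
      rw [← h5]
      congr 1
      ext <;> simp only [Prod.fst_add, Prod.snd_add, Prod.smul_fst, Prod.smul_snd, smul_eq_mul,
        hβ, Prod.fst_zero, Prod.snd_zero] <;> ring
    rw [cO, h6]
    by_cases hx : Ω p = 0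
    · rw [hx, mul_zero]
    · have h7 := ((isInt_prod _).1 ((isInt_prod _).1 (h.2 p hx)).2).1
      rw [(eq_eq_one_iff _).2, one_mul]
      refine int_of_eq ((int_mul (int_mul (int_nat 2) h7) h4).sub
        (int_mul (int_mul hL h3) (int_mul hL h4))) ?_
      simp only [Prod.smul_fst, Prod.smul_snd, smul_eq_mul, hβ]
      push_cast
      ring
  · have h2 : ∀ z, Ω (p.1, z) = 0 := fun z => by
      by_contra h3
      exact h1 ((isInt_prod _).1 (h.2 _ h3)).1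
    rw [cO, h2, mul_zero]
    exact (h2 p.2).symm

variable {d M : ℕ} {U : Type} {sh : ℚ → U → U} {T : U → (Q2 × Q2 → ℂ) → (Q2 → ℂ) → ℂ}

theorem T_zero (H : LocData d M sh T) (u : U) {c : Q2 → ℂ} (hc : SB c) : T u 0 c = 0 := by
  simpa using H.smulO u 0 0 c sb_zero hc

theorem T_sum (H : LocData d M sh T) (u : U) {c : Q2 → ℂ} (hc : SB c) {ι : Type} (s : Finset ι)
    (F : ι → Q2 × Q2 → ℂ) (h : ∀ i ∈ s, SB (F i) ∧ T u (F i) c = 0) :
    T u (∑ i ∈ s, F i) c = 0 :=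
  (Finset.sum_induction F (fun Ω => SB Ω ∧ T u Ω c = 0)
    (fun _ _ h1 h2 => ⟨h1.1.add h2.1, by rw [H.addO u _ _ c h1.1 h2.1 hc, h1.2, h2.2, add_zero]⟩)
    ⟨sb_zero, T_zero H u hc⟩ h).2

/-- transport along `SL(2, ℤ)` -/
theorem transport (hd : 0 < d) {L : ℕ} (hL : 0 < L) (h2 : 2 * d ∣ L) (H : LocData d M sh T)
    (u : U) (γ : SL) : ∀ a φ c : Q2 → ℂ, SB a → LevL d L φ → Lev L c → ChiEq d M c →
      ∃ (κ : ℂ) (φ' c' : Q2 → ℂ), LevL d L φ' ∧ Lev L c' ∧ ChiEq d M c' ∧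
        T u (fun p => a p.1 * φ p.2) c = κ * T u (fun p => a (vm p.1 γ) * φ' p.2) c' := by
  have hn : ∀ (b : ℤ) (δ δ' : SL), (∀ w, vm w δ = (w.1, w.2 + b * w.1)) →
      (∀ w, vm w δ' = (w.1, w.2 - b * w.1)) →
      ∀ a φ c : Q2 → ℂ, SB a → LevL d L φ → Lev L c → ChiEq d M c →
      ∃ (κ : ℂ) (φ' c' : Q2 → ℂ), LevL d L φ' ∧ Lev L c' ∧ ChiEq d M c' ∧
        T u (fun p => a p.1 * φ p.2) c = κ * T u (fun p => a (vm p.1 δ) * φ' p.2) c' := by
    intro b δ δ' e e' a φ c ha hφ hc hχ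
    refine ⟨1, _, _, levL_mul hd h2 hφ b, lev_vm hc δ', chiEq_vm hχ δ', ?_⟩
    rw [one_mul, ← H.hn u b _ c (ha.tensor ((hφ.lev hd hL).sb hL)) (hc.sb hL)]
    congr 1
    · ext p
      rw [nO, e]
      ring
    · ext w
      rw [nC, e']
  refine SL_induction (P := fun γ => ∀ a φ c : Q2 → ℂ, SB a → LevL d L φ → Lev L c →
    ChiEq d M c → ∃ (κ : ℂ) (φ' c' : Q2 → ℂ), LevL d L φ' ∧ Lev L c' ∧ ChiEq d M c' ∧
      T u (fun p => a p.1 * φ p.2) c = κ * T u (fun p => a (vm p.1 γ) * φ' p.2) c')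
    ?_ ?_ ?_ ?_ γ
  · intro a φ c ha hφ hc hχ
    obtain ⟨κ, -, hκ⟩ := H.hs
    refine ⟨κ, _, _, hφ.levL_FL hd hL, lev_vm hc ModularGroup.S⁻¹, chiEq_vm hχ _, ?_⟩
    rw [hκ u _ c (ha.tensor ((hφ.lev hd hL).sb hL)) (hc.sb hL)]
    congr 2
    · ext p
      rw [sO, vm_S, FL, FL, ← II_const_mul]
      simp only [mul_assoc]
    · ext w
      rw [sC, vm_S_inv]
  · refine hn 1 _ ModularGroup.T⁻¹ (fun w => ?_) fun w => ?_
    · rw [vm_T, Int.cast_one]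
    · rw [vm_T_inv, Int.cast_one, neg_mul, sub_eq_add_neg]
  · refine hn (-1) _ ModularGroup.T (fun w => ?_) fun w => ?_
    · rw [vm_T_inv, Int.cast_neg, Int.cast_one]
    · rw [vm_T, Int.cast_neg, Int.cast_one, neg_mul, sub_neg_eq_add]
  · intro γ δ h1 h3 a φ c ha hφ hc hχ
    obtain ⟨κ, φ', c', hφ', hc', hχ', e⟩ := h3 a φ c ha hφ hc hχ
    obtain ⟨κ', φ'', c'', hφ'', hc'', hχ'', e'⟩ := h1 _ φ' c' (sb_vm ha δ) hφ' hc' hχ'
    refine ⟨κ * κ', φ'', c'', hφ'', hc'', hχ'', ?_⟩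
    rw [e, e', mul_assoc]
    simp only [vm_mul]

/-- `Ω` vanishes near zero at the primes of `M` outside `Q` -/
def Av (M : ℕ) (Q : Finset ℕ) (k : ℕ) (Ω : Q2 × Q2 → ℂ) : Prop :=
  ∀ x, Ω x ≠ 0 → ∀ p : ℕ, p.Prime → p ∣ M → p ∉ Q → ¬ (pdiv p k x.1.1 ∧ pdiv p k x.1.2)

theorem Av.mono {Q : Finset ℕ} {k k' : ℕ} {Ω : Q2 × Q2 → ℂ} (h : Av M Q k Ω) (hk : k ≤ k') :
    Av M Q k' Ω := fun x hx p hp hp' hq h1 =>
  h x hx p hp hp' hq ⟨pdiv_mono (by exact_mod_cast hk) h1.1, pdiv_mono (by exact_mod_cast hk) h1.2⟩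

theorem box_eq (M K : ℕ) (g : ℚ) (γ : SL) (v : Q2) :
    cls (M ^ K) (vm (0, g) γ) (vm v γ) = boxF M K K g v := by
  have h : IsInt (((M ^ K : ℕ) : ℚ)⁻¹ • (vm v γ - vm (0, g) γ)) ↔
      IsInt (((M : ℚ) ^ K)⁻¹ • v.1) ∧ IsInt (((M : ℚ) ^ K)⁻¹ • (v.2 - g)) := by
    rw [← vm_sub, ← vm_smul, int_vm_iff, isInt_prod]
    simp only [Prod.smul_fst, Prod.smul_snd, Prod.fst_sub, Prod.snd_sub, sub_zero, Nat.cast_pow]
  rw [cls, boxF]
  split_ifs with h1 h2 h2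
  exacts [rfl, absurd (h.1 h1) h2, absurd (h.2 h2) h1, rfl]

theorem base (hd : 0 < d) (hM : 0 < M) (h2 : 2 * d ∣ M) (H : LocData d M sh T)
    (hB : BoxVan d M T) (u : U) {k : ℕ} {Ω : Q2 × Q2 → ℂ} {c : Q2 → ℂ} (hΩ : Lev (M ^ k) Ω)
    (hc : Lev (M ^ k) c) (hχ : ChiEq d M c) (hA : Av M ∅ k Ω) : T u Ω c = 0 := by
  obtain ⟨K0, hK0⟩ := hB (k + 1)
  have hK : 0 < M ^ max K0 k := pow_pos hM _
  have hk : 0 < M ^ k := pow_pos hM _
  have hk' : 0 < M ^ (k + 1) := pow_pos hM _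
  have hd' : M ^ k ∣ M ^ (k + 1) := pow_dvd_pow M k.le_succ
  obtain ⟨R, -, -, -, hR⟩ := exists_cls_reps Q2 hK
  have e : Ω = ∑ r ∈ R, fun p : Q2 × Q2 => cls (M ^ max K0 k) r p.1 * Ω (r, p.2) := by
    ext p
    have h1 := congrFun (hR _ ((hΩ.fst p.2).mono (pow_dvd_pow M (le_max_right K0 k)))) p.1
    simpa only [Finset.sum_apply, Pi.smul_apply, smul_eq_mul, mul_comm] using h1
  rw [e]
  refine T_sum H u (hc.sb hk) R _ fun r _ =>
    ⟨(sb_cls hK r).tensor ((hΩ.snd r).sb hk), ?_⟩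
  by_cases h0 : ∀ z, Ω (r, z) = 0
  · simp only [h0, mul_zero]
    exact T_zero H u (hc.sb hk)
  obtain ⟨z, hz⟩ := not_forall.1 h0
  have hr : r ≠ 0 := by
    rintro rfl
    exact hA _ hz 2 Nat.prime_two ((dvd_mul_right 2 d).trans h2) (Finset.notMem_empty 2)
      ⟨Or.inl rfl, Or.inl rfl⟩
  obtain ⟨g, γ, -, rfl⟩ := vm_decomp hr
  obtain ⟨κ, φ', c', hφ', hc', hχ', e'⟩ := transport hd hk' (h2.trans (dvd_pow_self M k.succ_ne_zero))
    H u γ _ _ c (sb_cls hK (vm (0, g) γ)) (levL_succ hd h2 (hΩ.snd (vm (0, g) γ))) (hc.mono hd') hχ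
  rw [e']
  simp only [box_eq]
  rw [hK0 _ _ (le_max_left _ _) (le_max_left _ _) u g φ' c' ?_ ?_ (hφ'.lev hd hk') hc' hχ',
    mul_zero]
  · have h1 : IsInt (((M ^ (k + 1) : ℕ) : ℚ) • vm (0, g) γ) :=
      ((isInt_prod _).1 ((hΩ.mono hd').2 _ hz)).1
    rw [← vm_smul, int_vm_iff] at h1
    exact ((isInt_prod _).1 h1).2
  · intro p hp hp' h1
    refine (hA.mono k.le_succ) _ hz p hp hp' (Finset.notMem_empty p) ⟨?_, ?_⟩
    · simpa only [vm, zero_mul, zero_add] using pdiv_mul_int hp h1 (γ 1 0)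
    · simpa only [vm, zero_mul, zero_add] using pdiv_mul_int hp h1 (γ 1 1)

theorem main (hd : 0 < d) (hM : 0 < M) (h2 : 2 * d ∣ M) (H : LocData d M sh T)
    (hB : BoxVan d M T) {c : Q2 → ℂ} (hc : SBM M c) (hχ : ChiEq d M c) (Q : Finset ℕ) :
    ∀ (u : U) (k : ℕ) (Ω : Q2 × Q2 → ℂ), SBM M Ω → Av M Q k Ω → T u Ω c = 0 := by
  classical
  induction Q using Finset.induction_on with
  | empty =>
    rintro u k Ω ⟨k1, h1⟩ hA
    obtain ⟨k2, h3⟩ := hc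
    exact base hd hM h2 H hB u (k := k + k1 + k2) (h1.mono (pow_dvd_pow M (by omega)))
      (h3.mono (pow_dvd_pow M (by omega))) hχ (hA.mono (by omega))
  | insert q Q _ ih =>
    rintro u k Ω ⟨k1, h1⟩ hA
    by_cases hq : q.Prime ∧ q ∣ M
    swap
    · refine ih u k Ω ⟨k1, h1⟩ fun x hx p hp hp' hQ => hA x hx p hp hp' fun h3 => ?_
      rcases Finset.mem_insert.1 h3 with rfl | h3
      exacts [hq ⟨hp, hp'⟩, hQ h3]
    have hk : 0 < M ^ k1 := pow_pos hM _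
    have hΩ := h1.sb hk
    have hc' := hc.sb hM
    refine H.cusp Ω c hΩ hc' q (M ^ k1 * M ^ k1) hq.1 (Nat.mul_pos hk hk) (fun u a j => ?_) u
    set β : ℚ := ((M ^ k1 * M ^ k1 : ℕ) : ℚ) * a / q ^ j with hβ
    have hq0 : (q : ℚ) ≠ 0 := by exact_mod_cast hq.1.ne_zero
    have h3 : IsInt (((M ^ j : ℕ) : ℚ) * β) := by
      obtain ⟨m, hm⟩ := pow_dvd_pow_of_dvd hq.2 j
      refine int_of_eq (int_mul (int_nat (m * (M ^ k1 * M ^ k1))) (int_int a)) ?_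
      rw [hm, hβ]
      push_cast
      field_simp
    have h4 : Lev (M ^ (k1 + j * 2)) (cO β Ω) := by
      rw [pow_add, pow_mul]
      exact lev_cO h3 h1
    have h5 : Lev (M ^ (k1 + j * 2)) ((-1 : ℂ) • Ω) :=
      (h1.mono (pow_dvd_pow M (Nat.le_add_right _ _))).smul _
    have h6 := ih u (k + j) (cO β Ω + (-1 : ℂ) • Ω) ⟨_, h4.add h5⟩ fun x hx p hp hp' hQ h7 => by
      by_cases h8 : p = q
      · subst h8
        refine hx ?_
        have h9 : ∀ y : ℚ, IsInt (((M ^ k1 : ℕ) : ℚ) * y) → pdiv p ((k + j : ℕ) : ℤ) y →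
            IsInt (((M ^ k1 : ℕ) : ℚ) * (a / p ^ j) * y) := fun y hy hy' => by
          have h10 := pdiv_mul_int hp (pdiv_mono (k := j) (by push_cast; omega) hy') (M ^ k1 : ℕ)
          rw [Int.cast_natCast, mul_comm] at h10
          exact int_of_eq (int_mul (int_div hp hy h10) (int_int a)) (by ring)
        rw [Pi.add_apply, cO_eq h1 x (γ := a / p ^ j) (by rw [hβ]; push_cast; ring)
          fun e e' => ⟨h9 _ e h7.1, h9 _ e' h7.2⟩]
        simp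
      · have h9 : p ∉ insert q Q := by simp [h8, hQ]
        by_cases h10 : Ω x = 0
        · have h11 : cO β Ω x ≠ 0 := by simpa [h10] using hx
          exact (hA.mono (Nat.le_add_right k j)) _ (right_ne_zero_of_mul h11) p hp hp' h9 h7
        · exact (hA.mono (Nat.le_add_right k j)) _ h10 p hp hp' h9 h7
    rw [H.addO u _ _ c (h4.sb (pow_pos hM _)) (hΩ.smul _) hc', H.smulO u _ _ c hΩ hc',
      H.hc u β Ω c hΩ hc'] at h6
    linear_combination h6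

end LocAP

theorem locA : S_LocA := fun _ M _ _ _ hd hM h2 H hB u Ω _ hΩ hc hχ =>
  LocAP.main hd hM h2 H hB hc hχ M.primeFactors u 0 Ω hΩ fun _ _ _ hp hp' hQ =>
    absurd (Nat.mem_primeFactors.2 ⟨hp, hp', hM.ne'⟩) hQ

end

end Pool.Agent.P.MP_b8021b_nt.CM
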