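import Pool.Agent.P.MP_b8021b_nt.CM.Lib

/-! Package P23: vanishing of the trilinear form on small boxes. -/

namespace Pool.Agent.P.MP_b8021b_nt.CM

open Function

noncomputable section

namespace LocBP

/-! ### valuations -/

theorem pdiv_mono {p : ℕ} {k k' : ℤ} {x : ℚ} (h : k ≤ k') (hx : pdiv p k' x) : pdiv p k x :=
  hx.imp id fun h' => h.trans h'

theorem pdiv_neg {p : ℕ} {k : ℤ} {x : ℚ} (hx : pdiv p k x) : pdiv p k (-x) := by
  rcases hx with h | h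
  · exact Or.inl (by simp [h])
  · exact Or.inr (by rwa [padicValRat.neg])

theorem pdiv_add {p : ℕ} (hp : p.Prime) {k : ℤ} {x y : ℚ} (hx : pdiv p k x) (hy : pdiv p k y) :
    pdiv p k (x + y) := by
  have := Fact.mk hp
  by_cases h0 : x + y = 0
  · exact Or.inl h0
  rcases hx with hx | hx
  · simpa [hx] using hy
  rcases hy with hy | hy
  · subst hy; rw [add_zero]; exact Or.inr hx
  exact Or.inr ((le_min hx hy).trans (padicValRat.min_le_padicValRat_add h0))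

theorem one_le_val {p M : ℕ} (hp : p.Prime) (hM : 0 < M) (h : p ∣ M) :
    1 ≤ padicValRat p (M : ℚ) := by
  have := Fact.mk hp
  rw [padicValRat.of_nat]
  exact_mod_cast one_le_padicValNat_of_dvd hM.ne' h

theorem pdiv_pow {p M : ℕ} (hp : p.Prime) (hM : 0 < M) (h : p ∣ M) (R : ℕ) (n : ℤ) :
    pdiv p R ((M : ℚ) ^ R * n) := by
  have := Fact.mk hp
  by_cases hn : n = 0
  · exact Or.inl (by simp [hn])
  right
  have hM' : (M : ℚ) ≠ 0 := by exact_mod_cast hM.ne'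
  rw [padicValRat.mul (pow_ne_zero _ hM') (by exact_mod_cast hn), padicValRat.pow,
    padicValRat.of_int]
  have h1 := one_le_val hp hM h
  have h2 : (0 : ℤ) ≤ padicValInt p n := Int.natCast_nonneg _
  have h3 : (0 : ℤ) ≤ R := Int.natCast_nonneg _
  nlinarith

theorem dvd_of_pdiv {p M : ℕ} (hp : p.Prime) (hM : 0 < M) {j k : ℕ} {x : ℚ} {n : ℤ}
    (hx : pdiv p j x) (hn : (M : ℚ) ^ k * x = n) : (p : ℤ) ^ j ∣ n := by
  have := Fact.mk hp
  rw [padicValInt_dvd_iff]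
  by_cases h0 : x = 0
  · left
    have : (n : ℚ) = 0 := by rw [← hn, h0, mul_zero]
    exact_mod_cast this
  right
  have hx' := hx.resolve_left h0
  have hM' : (M : ℚ) ≠ 0 := by exact_mod_cast hM.ne'
  have h1 : padicValRat p (n : ℚ) = k * padicValRat p (M : ℚ) + padicValRat p x := by
    rw [← hn, padicValRat.mul (pow_ne_zero _ hM') h0, padicValRat.pow]
  rw [padicValRat.of_int, padicValRat.of_nat] at h1
  have h2 : (0 : ℤ) ≤ k * (padicValNat p M : ℤ) := by positivity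
  have : (j : ℤ) ≤ padicValInt p n := by omega
  exact_mod_cast this

/-- the congruence `b g = M ^ k i` modulo `M ^ E` can be solved -/
theorem exists_solve {M k : ℕ} (hM : 0 < M) {g : ℚ} {g0 : ℤ} (hg : (M : ℚ) ^ k * g = g0)
    (hv : ∀ p : ℕ, p.Prime → p ∣ M → ¬ pdiv p k g) (E : ℕ) (i : ℤ) :
    ∃ b m : ℤ, (b : ℚ) * g = (M : ℚ) ^ k * i + (M : ℚ) ^ E * m := by
  have hM' : (M : ℚ) ≠ 0 := by exact_mod_cast hM.ne'
  have hdvd : Int.gcd g0 ((M : ℤ) ^ (E + k)) ∣ M ^ (2 * k) := by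
    rw [Nat.dvd_iff_prime_pow_dvd_dvd]
    intro p j hp hj
    have := Fact.mk hp
    rcases Nat.eq_zero_or_pos j with rfl | hj0
    · simp
    have hj' : ((p ^ j : ℕ) : ℤ) ∣ (Int.gcd g0 ((M : ℤ) ^ (E + k)) : ℤ) :=
      Int.natCast_dvd_natCast.2 hj
    have h1 : (p : ℤ) ^ j ∣ g0 := by
      have := hj'.trans (Int.gcd_dvd_left _ _)
      exact_mod_cast this
    have h2 : p ∣ M := by
      have h3 : ((p ^ j : ℕ) : ℤ) ∣ (M : ℤ) ^ (E + k) := hj'.trans (Int.gcd_dvd_right _ _)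
      have h4 : p ^ j ∣ M ^ (E + k) := by exact_mod_cast h3
      exact hp.dvd_of_dvd_pow ((dvd_pow_self p hj0.ne').trans h4)
    have h5 := hv p hp h2
    rw [pdiv, not_or, not_le] at h5
    have hg0 : g0 ≠ 0 := by
      rintro rfl
      exact h5.1 (by simpa [hM'] using hg)
    have h6 := ((padicValInt_dvd_iff j g0).1 h1).resolve_left hg0
    have h7 : padicValRat p (g0 : ℚ) = k * padicValRat p (M : ℚ) + padicValRat p g := by
      rw [← hg, padicValRat.mul (pow_ne_zero _ hM') h5.1, padicValRat.pow]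
    have h8 := one_le_val hp hM h2
    rw [padicValRat.of_int] at h7
    rw [padicValRat.of_nat] at h7 h8
    rw [padicValNat_dvd_iff_le (pow_ne_zero _ hM.ne'), padicValNat.pow]
    have h9 : (j : ℤ) ≤ padicValInt p g0 := by exact_mod_cast h6
    have h10 : (0 : ℤ) ≤ k := Int.natCast_nonneg _
    have : (j : ℤ) ≤ 2 * k * (padicValNat p M : ℤ) := by nlinarith [h5.2]
    exact_mod_cast this
  obtain ⟨c, hc⟩ := hdvd
  have hb := Int.gcd_eq_gcd_ab g0 ((M : ℤ) ^ (E + k))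
  refine ⟨Int.gcdA g0 ((M : ℤ) ^ (E + k)) * c * i, -(Int.gcdB g0 ((M : ℤ) ^ (E + k)) * c * i), ?_⟩
  have hc' : ((M : ℚ)) ^ (2 * k) = (Int.gcd g0 ((M : ℤ) ^ (E + k)) : ℤ) * (c : ℚ) := by
    exact_mod_cast hc
  rw [hb] at hc'
  push_cast at hc' ⊢
  apply mul_left_cancel₀ (pow_ne_zero k hM')
  rw [← hg] at hc'
  have e1 : (M : ℚ) ^ (2 * k) = M ^ k * M ^ k := by ring
  have e2 : (M : ℚ) ^ (E + k) = M ^ k * M ^ E := by ring
  rw [e1, e2] at hc'
  linear_combination (-i) * hc'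

/-! ### classes -/

theorem isInt_inv {A : ℚ} (hA : A ≠ 0) (x : ℚ) : IsInt (A⁻¹ • x) ↔ ∃ n : ℤ, x = A * n := by
  rw [isInt_rat, smul_eq_mul]
  refine exists_congr fun n => ?_
  rw [inv_mul_eq_iff_eq_mul₀ hA]

open Classical in
theorem cls_eq {A : ℕ} (hA : 0 < A) (h x : ℚ) :
    cls A h x = if ∃ n : ℤ, x = h + A * n then 1 else 0 := by
  have hA' : (A : ℚ) ≠ 0 := by exact_mod_cast hA.ne'
  unfold cls
  rw [isInt_inv hA']
  congr 1
  apply propext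
  exact exists_congr fun n => sub_eq_iff_eq_add'

theorem cls_congr {A : ℕ} (hA : 0 < A) {h x h' x' : ℚ} (m : ℤ) (e : x - h = x' - h' + A * m) :
    cls A h x = cls A h' x' := by
  rw [cls_eq hA, cls_eq hA]
  congr 1
  apply propext
  constructor
  · rintro ⟨n, hn⟩
    exact ⟨n - m, by push_cast; linear_combination hn - e⟩
  · rintro ⟨n, hn⟩
    exact ⟨n + m, by push_cast; linear_combination hn + e⟩

theorem cls_ne {A : ℕ} (hA : 0 < A) {h x : ℚ} (hx : cls A h x ≠ 0) : ∃ n : ℤ, x = h + A * n := by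
  rw [cls_eq hA] at hx
  by_contra hc
  exact hx (if_neg hc)

theorem cls_split {A B : ℕ} (hA : 0 < A) (hB : 0 < B) (h x : ℚ) :
    cls A h x = ∑ i ∈ Finset.range B, cls (A * B) (h + i * A) x := by
  have hA' : (A : ℚ) ≠ 0 := by exact_mod_cast hA.ne'
  have hB' : (0 : ℤ) < B := by exact_mod_cast hB
  have hAB := Nat.mul_pos hA hB
  by_cases hx : ∃ n : ℤ, x = h + A * n
  · obtain ⟨n, hn⟩ := hx
    have h1 := Int.emod_nonneg n hB'.ne'
    have h2 := Int.emod_lt_of_pos n hB'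
    rw [cls_eq hA, if_pos ⟨n, hn⟩, Finset.sum_eq_single (n % B).toNat]
    · rw [cls_eq hAB, if_pos]
      refine ⟨n / B, ?_⟩
      have h3 : (((n % B).toNat : ℤ) : ℚ) = ((n % B : ℤ) : ℚ) := by rw [Int.toNat_of_nonneg h1]
      have h4 : ((n % B + B * (n / B) : ℤ) : ℚ) = n := by rw [Int.emod_add_mul_ediv]
      push_cast at h3 h4 ⊢
      rw [h3]
      linear_combination hn - A * h4
    · intro i hi hne
      rw [cls_eq hAB, if_neg]
      rintro ⟨m, hm⟩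
      apply hne
      have h3 : (n : ℚ) = i + B * m := by
        apply mul_left_cancel₀ hA'
        push_cast at hm
        linear_combination hm - hn
      have h4 : n = i + B * m := by exact_mod_cast h3
      have h5 : (i : ℤ) < B := by exact_mod_cast Finset.mem_range.1 hi
      have : n % B = i := by
        rw [h4, Int.add_mul_emod_self_left, Int.emod_eq_of_lt (Int.natCast_nonneg _) h5]
      omega
    · intro hn'
      exact absurd (Finset.mem_range.2 (by omega)) hn'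
  · rw [cls_eq hA, if_neg hx, Finset.sum_eq_zero]
    intro i _
    rw [cls_eq hAB, if_neg]
    rintro ⟨m, hm⟩
    exact hx ⟨i + B * m, by push_cast at hm ⊢; linear_combination hm⟩

/-- boxes with an arbitrary centre -/
def bx (M K L : ℕ) (h g : ℚ) (v : Q2) : ℂ := cls (M ^ K) h v.1 * cls (M ^ L) g v.2

theorem boxF_eq (M K L : ℕ) (g : ℚ) : boxF M K L g = bx M K L 0 g := by
  funext v
  unfold boxF bx cls
  rw [sub_zero, Nat.cast_pow, Nat.cast_pow]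
  by_cases h1 : IsInt (((M : ℚ) ^ K)⁻¹ • v.1) <;>
    by_cases h2 : IsInt (((M : ℚ) ^ L)⁻¹ • (v.2 - g)) <;>
    simp only [h1, h2, and_self, and_true, and_false, if_true, if_false, mul_one, mul_zero]

theorem sb_bx {M : ℕ} (hM : 0 < M) (K L : ℕ) (h g : ℚ) : SB (bx M K L h g) :=
  (sb_cls (pow_pos hM K) h).tensor (sb_cls (pow_pos hM L) g)

theorem bx_ne {M : ℕ} (hM : 0 < M) {K L : ℕ} {h g : ℚ} {v : Q2} (hv : bx M K L h g v ≠ 0) :
    ∃ a b : ℤ, v.1 = h + (M : ℚ) ^ K * a ∧ v.2 = g + (M : ℚ) ^ L * b := by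
  obtain ⟨a, ha⟩ := cls_ne (pow_pos hM K) (left_ne_zero_of_mul hv)
  obtain ⟨b, hb⟩ := cls_ne (pow_pos hM L) (right_ne_zero_of_mul hv)
  exact ⟨a, b, by simpa using ha, by simpa using hb⟩

/-- pure tensors -/
def ten (a φ : Q2 → ℂ) (p : Q2 × Q2) : ℂ := a p.1 * φ p.2

theorem sb_ten {a φ : Q2 → ℂ} (ha : SB a) (hφ : SB φ) : SB (ten a φ) := ha.tensor hφ

theorem isInt_Q2 (x : Q2) : IsInt x ↔ ∃ a b : ℤ, x.1 = a ∧ x.2 = b := by
  rw [isInt_prod, isInt_rat, isInt_rat]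
  constructor
  · rintro ⟨⟨a, ha⟩, b, hb⟩
    exact ⟨a, b, ha, hb⟩
  · rintro ⟨a, b, ha, hb⟩
    exact ⟨⟨a, ha⟩, b, hb⟩

theorem lev_per {N : ℕ} {φ : Q2 → ℂ} (h : Lev N φ) (x y : Q2) (a b : ℤ)
    (h1 : y.1 = x.1 + N * a) (h2 : y.2 = x.2 + N * b) : φ y = φ x := by
  have := h.1 x ((a : ℚ), (b : ℚ)) ((isInt_Q2 _).2 ⟨a, b, rfl, rfl⟩)
  rw [← this]
  congr 1
  ext <;> simp [h1, h2]

theorem lev_supp {N : ℕ} {φ : Q2 → ℂ} (h : Lev N φ) {x : Q2} (hx : φ x ≠ 0) :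
    ∃ a b : ℤ, N * x.1 = a ∧ N * x.2 = b := by
  simpa using (isInt_Q2 _).1 (h.2 x hx)

theorem lev_of {N : ℕ} {φ : Q2 → ℂ}
    (h1 : ∀ (x : Q2) (a b : ℤ), φ (x.1 + N * a, x.2 + N * b) = φ x)
    (h2 : ∀ x, φ x ≠ 0 → ∃ a b : ℤ, N * x.1 = a ∧ N * x.2 = b) : Lev N φ := by
  refine ⟨fun x k hk => ?_, fun x hx => (isInt_Q2 _).2 (by simpa using h2 x hx)⟩
  obtain ⟨a, b, ha, hb⟩ := (isInt_Q2 _).1 hk
  rw [← h1 x a b]
  congr 1
  ext <;> simp [ha, hb]

theorem sb_comp {a : Q2 → ℂ} (h : SB a) (p q r s : ℚ) (hdet : p * s - q * r ≠ 0) :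
    SB fun v : Q2 => a (p * v.1 + q * v.2, r * v.1 + s * v.2) := by
  let L : Q2 →ₗ[ℚ] Q2 :=
    { toFun := fun v => (p * v.1 + q * v.2, r * v.1 + s * v.2)
      map_add' := fun x y => by ext <;> simp <;> ring
      map_smul' := fun c x => by ext <;> simp <;> ring }
  refine h.comp_inj L fun x y hxy => ?_
  have h1 : p * x.1 + q * x.2 = p * y.1 + q * y.2 := congrArg Prod.fst hxy
  have h2 : r * x.1 + s * x.2 = r * y.1 + s * y.2 := congrArg Prod.snd hxy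
  ext
  · apply mul_left_cancel₀ hdet
    linear_combination s * h1 - q * h2
  · apply mul_left_cancel₀ hdet
    linear_combination p * h2 - r * h1

theorem eq_int (n : ℤ) : eq (n : ℚ) = 1 := (eq_eq_one_iff _).2 ((isInt_rat _).2 ⟨n, rfl⟩)

theorem eq_congr {x y : ℚ} (n : ℤ) (h : x = y + n) : eq x = eq y := by
  rw [h, eq_add, eq_int, mul_one]

theorem cls_ne2 {A : ℕ} (hA : 0 < A) {r z : Q2} (hz : cls A r z ≠ 0) :
    ∃ a b : ℤ, z.1 = r.1 + A * a ∧ z.2 = r.2 + A * b := by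
  have hA' : (A : ℚ) ≠ 0 := by exact_mod_cast hA.ne'
  have h : IsInt ((A : ℚ)⁻¹ • (z - r)) := by
    by_contra hc
    exact hz (if_neg hc)
  obtain ⟨h1, h2⟩ := (isInt_prod _).1 h
  obtain ⟨a, ha⟩ := (isInt_inv hA' (z.1 - r.1)).1 h1
  obtain ⟨b, hb⟩ := (isInt_inv hA' (z.2 - r.2)).1 h2
  exact ⟨a, b, by linear_combination ha, by linear_combination hb⟩

/-! ### the operators on the last variable -/

theorem nC_eq {N : ℕ} {c : Q2 → ℂ} (hc : Lev N c) (b : ℤ) : nC ((N : ℚ) ^ 2 * b) c = c := by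
  funext w
  unfold nC
  by_cases h : ∃ a : ℤ, N * w.1 = a
  · obtain ⟨a, ha⟩ := h
    refine lev_per hc w _ 0 (-(b * a)) (by simp) ?_
    push_cast
    linear_combination (-(N : ℚ) * b) * ha
  · have h1 : c w = 0 := by
      by_contra hc'
      obtain ⟨a, -, ha, -⟩ := lev_supp hc hc'
      exact h ⟨a, ha⟩
    rw [h1]
    by_contra hc'
    obtain ⟨a, -, ha, -⟩ := lev_supp hc hc'
    exact h ⟨a, ha⟩

theorem lev_sC {N : ℕ} {c : Q2 → ℂ} (hc : Lev N c) : Lev N (sC c) := by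
  refine lev_of (fun x a b => ?_) fun x hx => ?_
  · exact lev_per hc _ _ (-b) a (by simp; ring) rfl
  · obtain ⟨a, b, ha, hb⟩ := lev_supp hc hx
    exact ⟨b, -a, hb, by push_cast; linear_combination -ha⟩

theorem lev_nC {N A : ℕ} {c : Q2 → ℂ} (hc : Lev N c) {b : ℚ} {j : ℤ} (hb : A * b = j) :
    Lev (N * A) (nC b c) := by
  refine lev_of (fun x s t => ?_) fun x hx => ?_
  · refine lev_per hc _ _ (A * s) (A * t - j * s) (by simp; ring) ?_
    push_cast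
    linear_combination (-(N : ℚ) * s) * hb
  · obtain ⟨s, t, hs, ht⟩ := lev_supp hc hx
    refine ⟨A * s, A * t + j * s, ?_, ?_⟩
    · push_cast; linear_combination A * hs
    · push_cast
      simp only at hs ht
      linear_combination A * ht + (N * x.1) * hb + j * hs

theorem chiEq_nC {d M R : ℕ} {c : Q2 → ℂ} (hc : ChiEq d M c) {b : ℚ} {j : ℤ}
    (hb : (M : ℚ) ^ R * b = j) : ChiEq d M (nC b c) := by
  rintro n hn w ⟨k, hk⟩
  obtain ⟨s, t, hs, ht⟩ := (isInt_Q2 _).1 hk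
  have := hc n hn (w.1, w.2 - b * w.1) ⟨k + R, (isInt_Q2 _).2 ⟨M ^ R * s, M ^ R * t - j * s, ?_, ?_⟩⟩
  · unfold nC
    rw [← this]
    congr 1
    ext <;> simp
    ring
  · simp only [Prod.smul_fst, smul_eq_mul] at hs ⊢
    push_cast at hs ⊢
    linear_combination (M : ℚ) ^ R * hs
  · simp only [Prod.smul_fst, Prod.smul_snd, smul_eq_mul] at hs ht ⊢
    push_cast at hs ht ⊢
    linear_combination (M : ℚ) ^ R * ht - (M : ℚ) ^ k * w.1 * hb - j * hs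

theorem ctil_nC (b : ℚ) (c : Q2 → ℂ) (w : Q2) :
    ctil (nC b c) w = eq (b * (w.1 * w.2)) * ctil c w := by
  unfold ctil F1 nC
  rw [← II_const_mul, ← II_shift (fun x => eq (b * (w.1 * w.2)) * (c (w.1, x) * eq (1 * x * w.2)))
    (-(b * w.1))]
  congr 1
  funext x
  rw [mul_left_comm, ← eq_add, ← sub_eq_add_neg]
  congr 2
  ring

theorem ctil_sum {ι : Type} (s : Finset ι) (a : ι → ℂ) (c : ι → Q2 → ℂ) (h : ∀ i ∈ s, SB (c i))
    (w : Q2) : ctil (∑ i ∈ s, a i • c i) w = ∑ i ∈ s, a i * ctil (c i) w := by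
  unfold ctil F1
  have : ∀ i ∈ s, SB fun x : ℚ => a i * (c i (w.1, x) * eq (1 * x * w.2)) := by
    intro i hi
    obtain ⟨N, hN, hl⟩ := h i hi
    have h1 := ((hl.snd w.1).sb hN).mul_eq (LinearMap.mulRight ℚ w.2)
    have h2 := h1.smul (a i)
    convert h2 using 2 with x
    simp
  simp only [← II_const_mul]
  rw [← II_sum s _ this]
  congr 1
  funext x
  simp only [Finset.sum_apply, Pi.smul_apply, smul_eq_mul, Finset.sum_mul, mul_assoc]

theorem ctil_supp {N : ℕ} (hN : 0 < N) {c : Q2 → ℂ} (hc : Lev N c) {w : Q2} (hw : ctil c w ≠ 0) :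
    ∃ a b : ℤ, N * w.1 = a ∧ N * w.2 = b := by
  obtain ⟨b, hb⟩ := (isInt_rat _).1 (((hc.snd w.1).lev_F1 hN).2 w.2 hw)
  by_cases h : ∃ a : ℤ, N * w.1 = a
  · obtain ⟨a, ha⟩ := h
    exact ⟨a, b, ha, hb⟩
  exfalso
  apply hw
  unfold ctil F1
  rw [← II_zero (W := ℚ)]
  congr 1
  funext x
  have : c (w.1, x) = 0 := by
    by_contra hc'
    obtain ⟨a, -, ha, -⟩ := lev_supp hc hc'
    exact h ⟨a, ha⟩
  simp [this]

theorem eq_nat_mul (j : ℕ) (y : ℚ) : eq (j * y) = eq y ^ j := by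
  unfold eq
  rw [← e_nat_mul]
  push_cast
  rfl

theorem int_of_sum {Q : ℕ} {y : ℚ} {m : ℤ} (hy : Q * y = m)
    (h : ∑ j ∈ Finset.range Q, eq (j * y) ≠ 0) : ∃ n : ℤ, y = n := by
  rw [← isInt_rat, ← eq_eq_one_iff]
  by_contra hc
  apply h
  simp only [eq_nat_mul]
  rw [geom_sum_eq hc, ← eq_nat_mul, hy, eq_int, sub_self, zero_div]

theorem sO_ten (d : ℕ) (a φ : Q2 → ℂ) :
    sO d (ten a φ) = ten (fun v => a (v.2, -v.1)) (FL d φ) := by
  funext p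
  unfold sO ten FL
  simp only [← II_const_mul, mul_assoc]

/-! ### the trilinear form -/

section T

variable {d M : ℕ} {U : Type} {sh : ℚ → U → U} {T : U → (Q2 × Q2 → ℂ) → (Q2 → ℂ) → ℂ}

theorem T_zeroO (D : LocData d M sh T) (u : U) {c : Q2 → ℂ} (hc : SB c) : T u 0 c = 0 := by
  simpa using D.smulO u 0 0 c sb_zero hc

theorem T_zeroC (D : LocData d M sh T) (u : U) {Ω : Q2 × Q2 → ℂ} (h : SB Ω) : T u Ω 0 = 0 := by
  simpa using D.smulC u 0 Ω 0 h sb_zero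

theorem T_sumO (D : LocData d M sh T) (u : U) {ι : Type} (s : Finset ι)
    (Ω : ι → Q2 × Q2 → ℂ) (h : ∀ i ∈ s, SB (Ω i)) {c : Q2 → ℂ} (hc : SB c) :
    T u (∑ i ∈ s, Ω i) c = ∑ i ∈ s, T u (Ω i) c := by
  classical
  induction s using Finset.induction_on with
  | empty => simpa using T_zeroO D u hc
  | insert i s hi ih =>
    have h' : ∀ j ∈ s, SB (Ω j) := fun j hj => h j (Finset.mem_insert_of_mem hj)
    rw [Finset.sum_insert hi, Finset.sum_insert hi,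
      D.addO u _ _ c (h i (Finset.mem_insert_self _ _)) (SB.sum s Ω h') hc, ih h']

theorem T_sumC (D : LocData d M sh T) (u : U) {ι : Type} (s : Finset ι)
    (c : ι → Q2 → ℂ) (h : ∀ i ∈ s, SB (c i)) {Ω : Q2 × Q2 → ℂ} (hΩ : SB Ω) :
    T u Ω (∑ i ∈ s, c i) = ∑ i ∈ s, T u Ω (c i) := by
  classical
  induction s using Finset.induction_on with
  | empty => simpa using T_zeroC D u hΩ
  | insert i s hi ih =>
    have h' : ∀ j ∈ s, SB (c j) := fun j hj => h j (Finset.mem_insert_of_mem hj)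
    rw [Finset.sum_insert hi, Finset.sum_insert hi,
      D.addC u _ _ _ hΩ (h i (Finset.mem_insert_self _ _)) (SB.sum s c h'), ih h']

/-- invariance under deep lower unipotent elements -/
theorem lowU (D : LocData d M sh T) (hd : 0 < d) (hM : 0 < M) (h2 : 2 * d ∣ M) {k : ℕ}
    {a φ c : Q2 → ℂ} (ha : SB a) (hφ : Lev (M ^ k) φ) (hc : Lev (M ^ k) c) (b : ℤ) (u : U) :
    T u (ten (fun v => a (v.1 - (M : ℚ) ^ (2 * k + 2) * b * v.2, v.2)) φ) c =
      T u (ten a φ) c := by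
  obtain ⟨κ, -, hκ⟩ := D.hs
  have hN := pow_pos hM k
  have sφ := hφ.sb hN
  have sc := hc.sb hN
  have ha' : SB fun v : Q2 => a (v.1 - (M : ℚ) ^ (2 * k + 2) * b * v.2, v.2) := by
    have := sb_comp ha 1 (-((M : ℚ) ^ (2 * k + 2) * b)) 0 1 (by simp)
    convert this using 4 with v <;> ring
  have ha'' : SB fun v : Q2 => a (v.2, -v.1) := by
    have := sb_comp ha 0 1 (-1) 0 (by simp)
    convert this using 4 with v <;> ring
  rw [hκ u _ c (sb_ten ha' sφ) sc, hκ u _ c (sb_ten ha sφ) sc, sO_ten, sO_ten,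
    ← D.hn u ((M : ℚ) ^ (2 * k + 2) * b) _ _ (sb_ten ha'' (sφ.sb_FL hd)) ((lev_sC hc).sb hN)]
  have e1 : nC ((M : ℚ) ^ (2 * k + 2) * b) (sC c) = sC c := by
    have := nC_eq (lev_sC hc) ((M : ℤ) ^ 2 * b)
    convert this using 2
    push_cast; ring
  rw [e1]
  congr 2
  funext p
  unfold nO ten
  by_cases hz : FL d φ p.2 = 0
  · simp [hz]
  have hl := ((hφ.levL hd).levL_FL hd (by positivity)).2 p.2 hz
  obtain ⟨A, B, hA, hB⟩ := (isInt_Q2 _).1 hl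
  obtain ⟨m, hm⟩ := h2
  have hm' : (M : ℚ) = 2 * d * m := by exact_mod_cast hm
  simp only [Prod.smul_fst, Prod.smul_snd, smul_eq_mul] at hA hB
  push_cast at hA hB
  have e2 : -((M : ℚ) ^ (2 * k + 2) * b) * Nm d p.2 =
      ((-(m ^ 2 * b * (A ^ 2 + d * B ^ 2)) : ℤ) : ℚ) := by
    push_cast
    rw [← hA, ← hB, Nm, pow_add, pow_mul', pow_two (M : ℚ)]
    nth_rewrite 2 [hm']
    nth_rewrite 2 [hm']
    ring
  rw [e2, eq_int, one_mul]
  simp

theorem shrink (D : LocData d M sh T) (hd : 0 < d) (hM : 0 < M) (h2 : 2 * d ∣ M) {k K L E : ℕ}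
    (hK : 3 * k + 2 ≤ K) (hE : E + k ≤ L) {g : ℚ} {g0 : ℤ} (hg : (M : ℚ) ^ k * g = g0)
    (hv : ∀ p : ℕ, p.Prime → p ∣ M → ¬ pdiv p k g) {φ c : Q2 → ℂ} (hφ : Lev (M ^ k) φ)
    (hc : Lev (M ^ k) c) (u : U) :
    T u (ten (bx M K L 0 g) φ) c = (M : ℂ) ^ E * T u (ten (bx M (K + E) L 0 g) φ) c := by
  have hN := pow_pos hM k
  have e1 : ten (bx M K L 0 g) φ =
      ∑ i ∈ Finset.range (M ^ E), ten (bx M (K + E) L (i * (M : ℚ) ^ K) g) φ := by
    funext p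
    simp only [Finset.sum_apply, ten, bx]
    rw [cls_split (pow_pos hM K) (pow_pos hM E), Finset.sum_mul, Finset.sum_mul, ← pow_add]
    simp
  rw [e1, T_sumO D u _ _ (fun i _ => sb_ten (sb_bx hM _ _ _ _) (hφ.sb hN)) (hc.sb hN),
    Finset.sum_congr rfl (g := fun _ => T u (ten (bx M (K + E) L 0 g) φ) c)]
  · simp
  intro i _
  obtain ⟨b, m, hb⟩ := exists_solve hM hg hv (E + k) i
  obtain ⟨K2, rfl⟩ := Nat.exists_eq_add_of_le hK
  obtain ⟨L2, rfl⟩ := Nat.exists_eq_add_of_le hE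
  rw [← lowU D hd hM h2 (sb_bx hM _ _ 0 g) hφ hc ((M : ℤ) ^ K2 * b) u]
  congr 2
  funext v
  unfold bx
  by_cases hz : cls (M ^ (E + k + L2)) g v.2 = 0
  · simp [hz]
  obtain ⟨t, ht⟩ := cls_ne (pow_pos hM _) hz
  congr 1
  refine cls_congr (pow_pos hM _) (m + (M : ℤ) ^ L2 * b * t) ?_
  push_cast at ht hb ⊢
  rw [ht]
  linear_combination (M : ℚ) ^ (2 * k + 2 + K2) * hb

theorem refine (D : LocData d M sh T) (hM : 0 < M) (K L E : ℕ) (g : ℚ) {φ c : Q2 → ℂ}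
    (hφ : SB φ) (hc : SB c) (u : U) :
    T u (ten (bx M K L 0 g) φ) c = ∑ t ∈ Finset.range (M ^ E),
      T u (ten (bx M K (L + E) 0 (g + t * (M : ℚ) ^ L)) φ) c := by
  rw [← T_sumO D u _ _ (fun i _ => sb_ten (sb_bx hM _ _ _ _) hφ) hc]
  congr 1
  funext p
  simp only [Finset.sum_apply, ten, bx]
  rw [cls_split (pow_pos hM L) (pow_pos hM E) g, Finset.mul_sum, Finset.sum_mul, ← pow_add]
  simp

/-- one small class on which the norm is far from zero at the anisotropic primes -/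
theorem base0 (H : S_Hil) (D : LocData d M sh T) (hd : Squarefree d) (hM : 0 < M)
    (h2 : 2 * d ∣ M) {k K L R : ℕ} (hK : L + R ≤ K) (g : ℚ) {r : Q2} {r1 r2 : ℤ}
    (h1 : (M : ℚ) ^ k * r.1 = r1) (h1' : (M : ℚ) ^ k * r.2 = r2)
    (hr : ∀ p : ℕ, p.Prime → p ∣ M → Aniso d p → ¬ pdiv p ((R : ℤ) - 3) (Nm d r))
    {c : Q2 → ℂ} (hc : Lev (M ^ k) c) (hχ : ChiEq d M c) (u : U) :
    T u (ten (bx M K L 0 g) (cls (M ^ (R + k)) r)) c = 0 := by
  have hN := pow_pos hM k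
  have hM' : (M : ℚ) ≠ 0 := by exact_mod_cast hM.ne'
  have hΩ : SB (ten (bx M K L 0 g) (cls (M ^ (R + k)) r)) :=
    sb_ten (sb_bx hM _ _ _ _) (sb_cls (pow_pos hM _) r)
  set Ω := ten (bx M K L 0 g) (cls (M ^ (R + k)) r) with hΩd
  have hb : ∀ j : ℕ, (M : ℚ) ^ R * (j / (M : ℚ) ^ R) = (j : ℤ) := fun j => by
    push_cast; field_simp
  have hl : ∀ j : ℕ, Lev (M ^ (k + R)) (nC (j / (M : ℚ) ^ R) c) := fun j => by
    rw [pow_add]
    exact lev_nC hc (j := j) (by simpa using hb j)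
  have hs : ∀ j : ℕ, SB (nC (j / (M : ℚ) ^ R) c) := fun j => (hl j).sb (pow_pos hM _)
  have e1 : ∀ j : ℕ, nO d (j / (M : ℚ) ^ R) Ω = eq (-(j / (M : ℚ) ^ R) * Nm d r) • Ω := by
    intro j
    have hj := hb j
    generalize (j : ℚ) / (M : ℚ) ^ R = β at hj
    funext p
    simp only [hΩd, nO, ten, bx, Pi.smul_apply, smul_eq_mul]
    by_cases hz : cls (M ^ (R + k)) r p.2 = 0
    · simp [hz]
    by_cases hx : cls (M ^ K) 0 p.1.1 = 0
    · simp [hx]
    obtain ⟨a, a', ha, ha'⟩ := cls_ne2 (pow_pos hM _) hz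
    obtain ⟨s, hs⟩ := cls_ne (pow_pos hM _) hx
    obtain ⟨K2, rfl⟩ := Nat.exists_eq_add_of_le hK
    push_cast at ha ha' hs hj
    congr 1
    · refine eq_congr (-(j * (2 * r1 * a + M ^ (R + 2 * k) * a ^ 2 +
        d * (2 * r2 * a' + M ^ (R + 2 * k) * a' ^ 2)))) ?_
      push_cast
      rw [Nm, Nm, ha, ha', ← h1, ← h1', ← hj]
      ring
    · congr 2
      refine cls_congr (pow_pos hM _) (j * M ^ K2 * s) ?_
      push_cast
      rw [hs, ← hj]
      ring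
  have e2 : ∀ j : ℕ, T u Ω c =
      T u Ω (eq (-(j / (M : ℚ) ^ R) * Nm d r) • nC (j / (M : ℚ) ^ R) c) := by
    intro j
    rw [← D.hn u (j / (M : ℚ) ^ R) Ω c hΩ (hc.sb hN), e1, D.smulO _ _ _ _ hΩ (hs j),
      D.smulC _ _ _ _ hΩ (hs j)]
  have e3 : ((M ^ (R + 2 * k) : ℕ) : ℂ) * T u Ω c = T u Ω (∑ j ∈ Finset.range (M ^ (R + 2 * k)),
      eq (-(j / (M : ℚ) ^ R) * Nm d r) • nC (j / (M : ℚ) ^ R) c) := by
    rw [T_sumC D u _ _ (fun j _ => (hs j).smul _) hΩ, ← Finset.sum_congr rfl fun j _ => e2 j]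
    simp
  rw [D.e0 u Ω _ hΩ ⟨k + R, Lev.sum _ _ fun j _ => (hl j).smul _⟩] at e3
  · exact (mul_eq_zero.1 e3).resolve_left (by exact_mod_cast (pow_pos hM _).ne')
  · intro n hn w hw
    simp only [Finset.sum_apply, Pi.smul_apply, smul_eq_mul, Finset.mul_sum]
    refine Finset.sum_congr rfl fun j _ => ?_
    rw [chiEq_nC hχ (hb j) n hn w hw]
    ring
  intro w hw
  rw [ctil_sum _ _ _ fun j _ => hs j] at hw
  have e4 : ∑ j ∈ Finset.range (M ^ (R + 2 * k)), eq (-(j / (M : ℚ) ^ R) * Nm d r) *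
      ctil (nC (j / (M : ℚ) ^ R) c) w = (∑ j ∈ Finset.range (M ^ (R + 2 * k)),
        eq (j * ((w.1 * w.2 - Nm d r) / (M : ℚ) ^ R))) * ctil c w := by
    rw [Finset.sum_mul]
    refine Finset.sum_congr rfl fun j _ => ?_
    rw [ctil_nC, ← mul_assoc, ← eq_add]
    congr 2
    ring
  rw [e4] at hw
  obtain ⟨a, b, ha, hb'⟩ := ctil_supp hN hc (right_ne_zero_of_mul hw)
  obtain ⟨n, hn⟩ := int_of_sum (m := a * b - (r1 ^ 2 + d * r2 ^ 2)) (by
    push_cast at ha hb' ⊢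
    rw [← ha, ← hb', ← h1, ← h1', Nm]
    field_simp
    ring) (left_ne_zero_of_mul hw)
  rw [div_eq_iff (pow_ne_zero _ hM'), mul_comm (n : ℚ)] at hn
  obtain ⟨⟨p0, hp0, hp0M, hp0a⟩, H2⟩ := H d M hd hM h2
  refine ⟨fun h0 => hr p0 hp0 hp0M hp0a ?_, fun hneg => H2 r _ ?_ hneg fun p hp hpM hpa => ?_⟩
  · have := pdiv_neg (pdiv_pow hp0 hM hp0M R n)
    rw [← hn, h0, zero_sub, neg_neg] at this
    exact pdiv_mono (by omega) this
  · exact fun h0 => hr p0 hp0 hp0M hp0a (Or.inl h0)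
  · have h3 := hr p hp hpM hpa
    rw [pdiv, not_or, not_le] at h3
    rw [hn]
    exact pdiv_mono (by omega) (pdiv_pow hp hM hpM R n)

/-- `φ` vanishes on the vectors that are divisible by `p ^ k` for some `p` in `P` -/
def Av (P : Finset ℕ) (k : ℕ) (φ : Q2 → ℂ) : Prop :=
  ∀ p ∈ P, ∀ z : Q2, pdiv p k z.1 → pdiv p k z.2 → φ z = 0

def VV (d M : ℕ) (T : U → (Q2 × Q2 → ℂ) → (Q2 → ℂ) → ℂ) (P : Finset ℕ) : Prop :=
  ∀ k : ℕ, ∃ K0 : ℕ, ∀ K L : ℕ, K0 ≤ K → K0 ≤ L → ∀ (u : U) (g : ℚ) (g0 : ℤ) (φ c : Q2 → ℂ),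
    (M : ℚ) ^ k * g = g0 → (∀ p : ℕ, p.Prime → p ∣ M → ¬ pdiv p k g) →
    Lev (M ^ k) φ → Lev (M ^ k) c → ChiEq d M c → Av P k φ →
    T u (ten (bx M K L 0 g) φ) c = 0

theorem exists_R (d k : ℕ) {M : ℕ} (hM : 0 < M) : ∃ R : ℕ, ∀ p : ℕ, p.Prime → p ∣ M →
    Aniso d p → ∀ z : Q2, pdiv p ((R : ℤ) - 3) (Nm d z) → pdiv p k z.1 ∧ pdiv p k z.2 := by
  classical
  have h : ∀ p : ℕ, ∃ c : ℕ, Aniso d p → ∀ (k : ℤ) (z : Q2), pdiv p (2 * k + c) (Nm d z) →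
      pdiv p k z.1 ∧ pdiv p k z.2 := by
    intro p
    by_cases hp : Aniso d p
    · obtain ⟨c, hc⟩ := hp
      exact ⟨c, fun _ => hc⟩
    · exact ⟨0, fun h => absurd h hp⟩
  choose c hc using h
  refine ⟨2 * k + M.primeFactors.sup c + 3, fun p hp hpM ha z hz => hc p ha k z (pdiv_mono ?_ hz)⟩
  have : c p ≤ M.primeFactors.sup c := Finset.le_sup (Nat.mem_primeFactors.2 ⟨hp, hpM, hM.ne'⟩)
  push_cast
  omega

theorem base (H : S_Hil) (D : LocData d M sh T) (hd : Squarefree d) (hM : 0 < M)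
    (h2 : 2 * d ∣ M) : VV d M T M.primeFactors := by
  intro k
  have hd0 : 0 < d := Nat.pos_of_ne_zero hd.ne_zero
  obtain ⟨R, hR⟩ := exists_R d k hM
  refine ⟨3 * k + 2 + R, fun K L hK hL u g g0 φ c hg hv hφ hc hχ hav => ?_⟩
  rw [shrink D hd0 hM h2 (E := L - k) (by omega) (by omega) hg hv hφ hc u]
  refine mul_eq_zero_of_right _ ?_
  obtain ⟨S, -, -, -, hS⟩ := exists_cls_reps Q2 (pow_pos hM (R + k))
  have e1 : ten (bx M (K + (L - k)) L 0 g) φ =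
      ∑ r ∈ S, φ r • ten (bx M (K + (L - k)) L 0 g) (cls (M ^ (R + k)) r) := by
    funext p
    have := congrFun (hS φ (hφ.mono (pow_dvd_pow M (by omega)))) p.2
    simp only [Finset.sum_apply, Pi.smul_apply, smul_eq_mul, ten] at this ⊢
    rw [this, Finset.mul_sum]
    exact Finset.sum_congr rfl fun r _ => by ring
  have hs : ∀ r : Q2, SB (ten (bx M (K + (L - k)) L 0 g) (cls (M ^ (R + k)) r)) := fun r =>
    sb_ten (sb_bx hM _ _ _ _) (sb_cls (pow_pos hM _) r)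
  have sc := hc.sb (pow_pos hM k)
  rw [e1, T_sumO D u _ _ (fun r _ => (hs r).smul _) sc]
  refine Finset.sum_eq_zero fun r _ => ?_
  rw [D.smulO _ _ _ _ (hs r) sc]
  by_cases hr : φ r = 0
  · rw [hr, zero_mul]
  obtain ⟨r1, r2, h1, h1'⟩ := lev_supp hφ hr
  push_cast at h1 h1'
  rw [base0 H D hd hM h2 (by omega) g h1 h1' (fun p hp hpM ha hz => ?_) hc hχ u, mul_zero]
  obtain ⟨h3, h4⟩ := hR p hp hpM ha r hz
  exact hr (hav p (Nat.mem_primeFactors.2 ⟨hp, hpM, hM.ne'⟩) r h3 h4)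

theorem cO_box (hM : 0 < M) {k j K L : ℕ} (hK : 2 * j ≤ K) (hL : j ≤ L) {β g : ℚ} {a g0 : ℤ}
    (hβ : (M : ℚ) ^ j * β = (M : ℚ) ^ (2 * k) * a) (hg : (M : ℚ) ^ k * g = g0) {φ : Q2 → ℂ}
    (hφ : Lev (M ^ k) φ) :
    cO β (ten (bx M K L 0 g) φ) = ten (bx M K L 0 g) fun z => eq (2 * β * z.1 * g) * φ z := by
  funext p
  unfold cO ten
  by_cases hx : bx M K L 0 g p.1 = 0
  · simp [hx]
  obtain ⟨s, t, hs, ht⟩ := bx_ne hM hx
  obtain ⟨K1, rfl⟩ := Nat.exists_eq_add_of_le hK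
  obtain ⟨L1, rfl⟩ := Nat.exists_eq_add_of_le hL
  have e1 : φ (p.2.1 - β * p.1.1, p.2.2) = φ p.2 := by
    refine lev_per hφ _ _ (-(M ^ (k + j + K1) * a * s)) 0 ?_ (by simp)
    push_cast
    rw [hs]
    linear_combination (-(M : ℚ) ^ (j + K1) * s) * hβ
  simp only [e1]
  by_cases hz : φ p.2 = 0
  · simp [hz]
  obtain ⟨A, -, hA, -⟩ := lev_supp hφ hz
  push_cast at hA
  rw [mul_left_comm]
  congr 2
  refine eq_congr (2 * a * M ^ (k + L1) * A * t -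
    a ^ 2 * M ^ (3 * k + K1) * s * (g0 + M ^ (k + j + L1) * t)) ?_
  push_cast
  rw [hs, ht, ← hA, ← hg]
  linear_combination (2 * p.2.1 * (M : ℚ) ^ L1 * t - (M : ℚ) ^ K1 * s * (g + (M : ℚ) ^ (j + L1) * t) *
    ((M : ℚ) ^ j * β + (M : ℚ) ^ (2 * k) * a)) * hβ

theorem step (D : LocData d M sh T) (hd : 0 < d) (hM : 0 < M) (h2 : 2 * d ∣ M) {P : Finset ℕ}
    {p : ℕ} (hp : p.Prime) (hpM : p ∣ M) (H : VV d M T (insert p P)) : VV d M T P := by
  intro k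
  refine ⟨3 * k + 2, fun K L hK hL u g g0 φ c hg hv hφ hc hχ hav => ?_⟩
  have sφ := hφ.sb (pow_pos hM k)
  have sc := hc.sb (pow_pos hM k)
  refine D.cusp _ c (sb_ten (sb_bx hM _ _ _ _) sφ) sc p (M ^ (2 * k)) hp (pow_pos hM _)
    (fun u a j => ?_) u
  obtain ⟨K0, H0⟩ := H (k + j)
  obtain ⟨m, hm⟩ := id hpM
  have hm' : (M : ℚ) = p * m := by exact_mod_cast hm
  have hp' : (p : ℚ) ≠ 0 := by exact_mod_cast hp.ne_zero
  have hβ0 : (p : ℚ) ^ j * (((M ^ (2 * k) : ℕ) : ℚ) * a / p ^ j) = (M : ℚ) ^ (2 * k) * a := by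
    push_cast; field_simp
  generalize ((M ^ (2 * k) : ℕ) : ℚ) * a / p ^ j = β at hβ0
  have hβ : (M : ℚ) ^ j * β = (M : ℚ) ^ (2 * k) * ((m ^ j * a : ℤ) : ℚ) := by
    push_cast
    nth_rewrite 1 [hm']
    linear_combination (m : ℚ) ^ j * hβ0
  rw [refine D hM K L (K0 + 2 * j + k) g sφ sc, refine D hM K L (K0 + 2 * j + k) g sφ sc]
  refine Finset.sum_congr rfl fun t _ => ?_
  have hg' : (M : ℚ) ^ k * (g + t * (M : ℚ) ^ L) = ((g0 + t * M ^ (k + L) : ℤ) : ℚ) := by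
    push_cast
    linear_combination hg
  have hv' : ∀ q : ℕ, q.Prime → q ∣ M → ¬ pdiv q k (g + t * (M : ℚ) ^ L) := by
    intro q hq hqM h
    have h3 := pdiv_add hq h (pdiv_neg (pdiv_mono (k := k) (by omega) (pdiv_pow hq hM hqM L t)))
    apply hv q hq hqM
    convert h3 using 1
    push_cast
    ring
  generalize g + t * (M : ℚ) ^ L = g' at hg' hv'
  generalize g0 + t * M ^ (k + L) = g1 at hg'
  rw [shrink D hd hM h2 (E := K0 + 2 * j) hK (by omega) hg' hv' hφ hc,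
    shrink D hd hM h2 (E := K0 + 2 * j) hK (by omega) hg' hv' hφ hc]
  congr 1
  have sb := sb_bx hM (K + (K0 + 2 * j)) (L + (K0 + 2 * j + k)) 0 g'
  rw [← D.hc u β _ c (sb_ten sb sφ) sc, cO_box hM (by omega) (by omega) hβ hg' hφ]
  have hφ' : Lev (M ^ (k + j)) φ := hφ.mono (pow_dvd_pow M (by omega))
  have hψ : Lev (M ^ (k + j)) fun z : Q2 => (eq (2 * β * z.1 * g') - 1) * φ z := by
    refine lev_of (fun x s s' => ?_) fun x hx => lev_supp hφ' (right_ne_zero_of_mul hx)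
    rw [lev_per hφ' x (x.1 + _, x.2 + _) s s' rfl rfl]
    congr 2
    refine eq_congr (2 * s * M ^ (2 * k) * (m ^ j * a) * g1) ?_
    push_cast at hβ ⊢
    rw [← hg']
    linear_combination (2 * s * (M : ℚ) ^ k * g') * hβ
  have e1 : (ten (bx M (K + (K0 + 2 * j)) (L + (K0 + 2 * j + k)) 0 g')
      fun z => eq (2 * β * z.1 * g') * φ z) =
      ten (bx M (K + (K0 + 2 * j)) (L + (K0 + 2 * j + k)) 0 g') φ +
      ten (bx M (K + (K0 + 2 * j)) (L + (K0 + 2 * j + k)) 0 g')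
        fun z => (eq (2 * β * z.1 * g') - 1) * φ z := by
    funext q
    simp only [ten, Pi.add_apply]
    ring
  rw [e1, D.addO _ _ _ _ (sb_ten sb sφ) (sb_ten sb (hψ.sb (pow_pos hM _))) sc,
    H0 _ _ (by omega) (by omega) u g' (M ^ j * g1) _ c (by push_cast; rw [← hg']; ring)
      (fun q hq hqM h => hv' q hq hqM (pdiv_mono (by omega) h)) hψ
      (hc.mono (pow_dvd_pow M (by omega))) hχ, add_zero]
  intro q hq z hz1 hz2
  by_cases hz : φ z = 0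
  · simp [hz]
  rcases Finset.mem_insert.1 hq with rfl | hq
  · obtain ⟨A, -, hA, -⟩ := lev_supp hφ hz
    push_cast at hA
    obtain ⟨B, hB⟩ := dvd_of_pdiv (j := j) hp hM (pdiv_mono (by omega) hz1) hA
    have hB' : (A : ℚ) = q ^ j * B := by exact_mod_cast hB
    have : 2 * β * z.1 * g' = ((2 * a * B * g1 : ℤ) : ℚ) := by
      apply mul_left_cancel₀ (pow_ne_zero j hp')
      push_cast
      rw [← hg']
      linear_combination (2 * z.1 * g') * hβ0 + (2 * a * (M : ℚ) ^ k * g') * (hA.trans hB')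
    simp only [this, eq_int, sub_self, zero_mul]
  · exact absurd (hav q hq z (pdiv_mono (by omega) hz1) (pdiv_mono (by omega) hz2)) hz

theorem down (D : LocData d M sh T) (hd : 0 < d) (hM : 0 < M) (h2 : 2 * d ∣ M) (P : Finset ℕ)
    (hP : ∀ p ∈ P, p.Prime ∧ p ∣ M) (H : VV d M T P) : VV d M T ∅ := by
  induction P using Finset.induction_on with
  | empty => exact H
  | insert p P _ ih =>
    obtain ⟨hp, hpM⟩ := hP p (Finset.mem_insert_self _ _)
    exact ih (fun q hq => hP q (Finset.mem_insert_of_mem hq)) (step D hd hM h2 hp hpM H)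

end T

end LocBP

theorem locB (H : S_Hil) : S_LocB := by
  intro d M U sh T hd hM h2 D k
  have hd0 : 0 < d := Nat.pos_of_ne_zero hd.ne_zero
  obtain ⟨K0, h⟩ := LocBP.down D hd0 hM h2 _
    (fun p hp => ⟨Nat.prime_of_mem_primeFactors hp, Nat.dvd_of_mem_primeFactors hp⟩)
    (LocBP.base H D hd hM h2) k
  refine ⟨K0, fun K L hK hL u g φ c hg hv hφ hc hχ => ?_⟩
  obtain ⟨g0, hg0⟩ := (isInt_rat _).1 hg
  rw [LocBP.boxF_eq]
  exact h K L hK hL u g g0 φ c (by simpa using hg0) hv hφ hc hχ (fun p hp => by simp at hp)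

end

end Pool.Agent.P.MP_b8021b_nt.CM
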