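import Pool.Agent.P.MP_b8021b_nt.CM.Lib

/-! The comparison of the analytic statement with the Euler product. -/

namespace Pool.Agent.P.MP_b8021b_nt.CM

open Complex hiding Gamma
open UpperHalfPlane hiding I
open MeasureTheory CongruenceSubgroup Filter
open scoped Real MatrixGroups ModularForm Topology ComplexConjugate Modular

noncomputable section

namespace Main0P

theorem conv_apply (f g : ℕ → ℂ) (n : ℕ) :
    LSeries.convolution f g n = ∑ k ∈ n.divisors, f k * g (n / k) := by
  rw [LSeries.convolution_def]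
  exact Nat.sum_divisorsAntidiagonal fun a b => f a * g b

theorem triv_apply (N n : ℕ) :
    (1 : DirichletCharacter ℂ N) n = if n.Coprime N then 1 else 0 := by
  split_ifs with h
  · exact MulChar.one_apply ((ZMod.isUnit_iff_coprime n N).2 h)
  · exact MulChar.map_nonunit _ fun h' => h ((ZMod.isUnit_iff_coprime n N).1 h')

theorem coprime_split {N n k : ℕ} (hk : k ∈ n.divisors) :
    n.Coprime N ↔ k.Coprime N ∧ (n / k).Coprime N := by
  rw [← Nat.coprime_mul_iff_left, Nat.mul_div_cancel' (Nat.dvd_of_mem_divisors hk)]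

theorem conv_triv (N : ℕ) (f : ℕ → ℂ) (n : ℕ) :
    LSeries.convolution (fun k => (1 : DirichletCharacter ℂ N) k * f k)
      (fun k => (1 : DirichletCharacter ℂ N) k) n =
      if n.Coprime N then ∑ k ∈ n.divisors, f k else 0 := by
  rw [conv_apply]
  split_ifs with h
  · refine Finset.sum_congr rfl fun k hk => ?_
    obtain ⟨h1, h2⟩ := (coprime_split hk).1 h
    rw [triv_apply, triv_apply, if_pos h1, if_pos h2, one_mul, mul_one]
  · refine Finset.sum_eq_zero fun k hk => ?_
    rw [coprime_split hk, not_and_or] at h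
    rcases h with h | h <;> simp [triv_apply, h]

theorem term_shift (f : ℕ → ℂ) (s : ℂ) (n : ℕ) :
    LSeries.term (fun k => f k * k) s n = LSeries.term f (s - 1) n := by
  rcases Nat.eq_zero_or_pos n with rfl | hn
  · simp
  · have h0 : (n : ℂ) ≠ 0 := by exact_mod_cast hn.ne'
    rw [LSeries.term_of_ne_zero hn.ne', LSeries.term_of_ne_zero hn.ne', cpow_sub _ _ h0, cpow_one]
    have : (n : ℂ) ^ s ≠ 0 := by simp [h0]
    field_simp

theorem eq_of_real {f g : ℂ → ℂ} (hf : DifferentiableOn ℂ f {w | 0 < w.re})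
    (hg : DifferentiableOn ℂ g {w | 0 < w.re}) {w0 : ℝ} (h : ∀ w : ℝ, w0 < w → f w = g w) :
    Set.EqOn f g {w | 0 < w.re} := by
  have ho : IsOpen {w : ℂ | 0 < w.re} := isOpen_lt continuous_const Complex.continuous_re
  set x : ℝ := max w0 0 + 1
  have hx0 : w0 < x := by have := le_max_left w0 0; simp only [x]; linarith
  have hx1 : 0 < x := by have := le_max_right w0 0; simp only [x]; linarith
  refine (hf.analyticOnNhd ho).eqOn_of_preconnected_of_frequently_eq (hg.analyticOnNhd ho)
    (convex_halfSpace_re_gt 0).isPreconnected (z₀ := (x : ℂ)) (by simpa using hx1) ?_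
  have t1 : Tendsto (fun w : ℝ => (w : ℂ)) (𝓝[>] x) (𝓝[≠] (x : ℂ)) := by
    refine tendsto_nhdsWithin_iff.2 ⟨(continuous_ofReal.tendsto x).mono_left nhdsWithin_le_nhds, ?_⟩
    filter_upwards [self_mem_nhdsWithin] with w hw
    simpa using (ne_of_gt hw)
  refine t1.frequently (Eventually.frequently ?_)
  filter_upwards [self_mem_nhdsWithin] with w hw
  exact h w (hx0.trans hw)

theorem tendsto_ofReal0 : Tendsto (fun w : ℝ => (w : ℂ)) (𝓝[>] 0) (𝓝 0) := by
  simpa using (continuous_ofReal.tendsto 0).mono_left nhdsWithin_le_nhds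

theorem vanish {Λ : ℂ → ℂ} (hΛ : Differentiable ℂ Λ)
    (h : Tendsto (fun w : ℝ => Λ w / w) (𝓝[>] 0) (𝓝 0)) : Λ 0 = 0 ∧ deriv Λ 0 = 0 := by
  have h0 : Λ 0 = 0 := by
    have t1 : Tendsto (fun w : ℝ => Λ w) (𝓝[>] 0) (𝓝 (Λ 0)) :=
      (hΛ.continuous.tendsto 0).comp tendsto_ofReal0
    have t2 : Tendsto (fun w : ℝ => Λ w) (𝓝[>] 0) (𝓝 (0 * 0)) := by
      refine (h.mul tendsto_ofReal0).congr' ?_
      filter_upwards [self_mem_nhdsWithin] with w hw
      have : (w : ℂ) ≠ 0 := by exact_mod_cast (ne_of_gt hw)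
      field_simp
    simpa using tendsto_nhds_unique t1 t2
  refine ⟨h0, ?_⟩
  have h3 := ((hΛ 0).hasDerivAt.comp_ofReal (z := (0 : ℝ))).tendsto_slope_zero_right
  refine tendsto_nhds_unique h3 (h.congr fun w => ?_)
  simp [h0, div_eq_inv_mul]

end Main0P

open Main0P in
theorem main0 (hAn : S_An) (hNice : S_Nice) (hE : S_Eig) (hEu : S_Euler) (hNV : S_NV) :
    S_Main0 := by
  intro s hs d N hd hN hdN hl μ
  by_contra hne
  have hd0 : 0 < d := Nat.pos_of_ne_zero hd.ne_zero
  have hN1 : 1 < N := lt_of_lt_of_le (by omega) (Nat.le_of_dvd hN hdN)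
  have : NeZero N := ⟨hN.ne'⟩
  obtain ⟨s0, l1, l2, ε1, ε2, A, c, hs0, hl0, he1, he2, hc⟩ := hE s hs d N hN hl μ hne
  obtain ⟨Λ, hΛ, hΛ0, hΛw⟩ := hNV N hN1 l1 l2 ε1 ε2 he1 he2
  obtain ⟨κ, κ0, hκ, hκ0, hκt, hAn⟩ := hAn d (2 * d * N) hd (by positivity) (dvd_mul_right _ _)
  choose Ha hHa hHa0 wa hwa using fun a : ZMod N =>
    hAn s0 hs0 (vmu N (tw N a μ)) (hNice d N hd0 hN _)
  obtain ⟨χ, -, -, hχ⟩ := exists_chi_char hd0 hN hdN
  let D : ℕ → ℂ := ∑ a ∈ A, c a • Dco s0 d (vmu N (tw N a μ))
  let H : ℂ → ℂ := fun w => ∑ a ∈ A, c a * Ha a w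
  let t : ℕ → ℂ := fun k => (1 : DirichletCharacter ℂ N) k
  have hχ' : (fun k : ℕ => χ k) = fun k => t k * chi d k := by
    funext k
    have := hχ k
    rw [Int.cast_natCast] at this
    rw [this]
    simp only [chiq, un, t, triv_apply, Int.cast_natCast, Rat.den_natCast, Rat.num_natCast,
      true_and, Nat.isCoprime_iff_coprime]
  have hconv : LSeries.convolution D (LSeries.convolution (fun k : ℕ => χ k) t) =
      (2 : ℂ) • LSeries.convolution (fun n => l1 n * l2 n)
        (LSeries.convolution (fun k => t k * k) t) := by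
    funext n
    rw [Pi.smul_apply, conv_apply, conv_apply, hχ']
    simp only [t, conv_triv]
    by_cases hn : n.Coprime N
    · have hn0 : 0 < n := Nat.pos_of_ne_zero fun h => by
        rw [h, Nat.coprime_zero_left] at hn; omega
      have e1 : ∀ k ∈ n.divisors, (n / k).Coprime N := fun k hk => ((coprime_split hk).1 hn).2
      rw [Finset.sum_congr rfl fun k hk => by rw [if_pos (e1 k hk)]]
      have e2 : ∀ a, ∑ k ∈ n.divisors, Dco s0 d (vmu N (tw N a μ)) k * rK d (n / k) = _ :=
        fun a => (hEu s0 d N hd0 hN hdN hl0 (tw N a μ)).2 n hn0 hn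
      calc ∑ k ∈ n.divisors, D k * ∑ j ∈ (n / k).divisors, chi d j
          = ∑ a ∈ A, c a * ∑ k ∈ n.divisors, Dco s0 d (vmu N (tw N a μ)) k * rK d (n / k) := by
            simp only [D, Finset.sum_apply, Pi.smul_apply, smul_eq_mul, Finset.sum_mul,
              Finset.mul_sum (s := n.divisors), rK, mul_assoc]
            rw [Finset.sum_comm]
        _ = 2 * ∑ m ∈ n.divisors, (ArithmeticFunction.sigma 1 (n / m) : ℂ) * ∑ a ∈ A, c a *
            ell (op2 (Tn N m) (Tn N m) s0) d N (tw N m (tw N a μ)) := by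
            simp only [e2, Finset.mul_sum]
            rw [Finset.sum_comm]
            refine Finset.sum_congr rfl fun m _ => Finset.sum_congr rfl fun a _ => by ring
        _ = _ := by
            rw [smul_eq_mul]
            congr 1
            refine Finset.sum_congr rfl fun m hm => ?_
            rw [hc m (Nat.pos_of_mem_divisors hm) ((coprime_split hm).1 hn).1,
              ArithmeticFunction.sigma_one_apply, if_pos (e1 m hm)]
            push_cast
            ring
    · rw [Finset.sum_eq_zero, Finset.sum_eq_zero, smul_zero]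
      · intro k hk
        rw [coprime_split hk, not_and_or] at hn
        rcases hn with h | h
        · have : l1 k = 0 := by
            by_contra h'
            exact h (he1.supp k h')
          simp [this]
        · simp [h]
      · intro k hk
        rw [coprime_split hk, not_and_or] at hn
        rcases hn with h | h
        · have : D k = 0 := by
            simp only [D, Finset.sum_apply, Pi.smul_apply, smul_eq_mul]
            refine Finset.sum_eq_zero fun a _ => ?_
            have : Dco s0 d (vmu N (tw N a μ)) k = 0 := by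
              by_contra h'
              exact h ((hEu s0 d N hd0 hN hdN hl0 (tw N a μ)).1 k h')
            simp [this]
          simp [this]
        · simp [h]
  have : NeZero (N ^ 2) := ⟨by positivity⟩
  let F : ℂ → ℂ := fun w => H w * DirichletCharacter.LFunction χ (2 + w) *
    (w * DirichletCharacter.LFunction (ε1 * ε2) (2 + 2 * w))
  let G : ℂ → ℂ := fun w => 2 * κ w * DirichletCharacter.LFunctionTrivChar N (1 + w) * Λ w
  have hH : Differentiable ℂ H := Differentiable.fun_sum fun a _ => (hHa a).const_mul _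
  have hL : ∀ {K : ℕ} [NeZero K] (ψ : DirichletCharacter ℂ K) (f : ℂ → ℂ) (w : ℂ),
      Differentiable ℂ f → f w ≠ 1 →
        DifferentiableAt ℂ (fun w => DirichletCharacter.LFunction ψ (f w)) w :=
    fun ψ f w hf h1 => (DirichletCharacter.differentiableAt_LFunction ψ _ (Or.inl h1)).comp w (hf w)
  have hne1 : ∀ w : ℂ, 0 ≤ w.re → 2 + w ≠ 1 ∧ 2 + 2 * w ≠ 1 := fun w hw =>
    ⟨fun h => by have := congrArg Complex.re h; simp at this; linarith,
      fun h => by have := congrArg Complex.re h; simp at this; linarith⟩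
  have hFd : DifferentiableOn ℂ F {w | 0 < w.re} := fun w hw =>
    (((hH w).mul (hL χ _ w (by fun_prop) (hne1 w (le_of_lt hw)).1)).mul
      (differentiableAt_id.mul (hL _ _ w (by fun_prop) (hne1 w (le_of_lt hw)).2))
        ).differentiableWithinAt
  have hGd : DifferentiableOn ℂ G {w | 0 < w.re} := fun w hw =>
    (((hκ w hw).const_mul _).mul (hL 1 (fun w => 1 + w) w (by fun_prop) (fun h => by
      have := congrArg Complex.re h
      simp at this
      exact (ne_of_gt hw) this)).differentiableWithinAt).mul (hΛ w).differentiableWithinAt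
  obtain ⟨w0, hw0⟩ : ∃ w0 : ℝ, ∀ a, wa a ≤ w0 :=
    ⟨∑ a, |wa a|, fun a => (le_abs_self _).trans
      (Finset.single_le_sum (f := fun a => |wa a|) (fun _ _ => abs_nonneg _) (Finset.mem_univ a))⟩
  have hFG : Set.EqOn F G {w | 0 < w.re} := by
    refine eq_of_real hFd hGd (w0 := max w0 2) fun w hw => ?_
    have hw2 : 2 < w := lt_of_le_of_lt (le_max_right _ _) hw
    have hwa' := fun a => hwa a w (lt_of_le_of_lt ((hw0 a).trans (le_max_left _ _)) hw)
    obtain ⟨s1, e1⟩ := hΛw w (by simpa using hw2)
    have sD : LSeriesSummable D (2 + w) := LSeriesSummable.sum fun a _ => (hwa' a).1.smul _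
    have eH : H w = κ w * LSeries D (2 + w) := by
      simp only [H, D]
      rw [LSeries_sum fun a _ => (hwa' a).1.smul _, Finset.mul_sum]
      refine Finset.sum_congr rfl fun a _ => ?_
      rw [LSeries_smul, (hwa' a).2]; ring
    have r1 : 1 < ((2 : ℂ) + w).re := by simp; linarith
    have r2 : 1 < ((2 : ℂ) + 2 * w).re := by simp; linarith
    have r3 : 1 < ((1 : ℂ) + w).re := by simp; linarith
    have st : LSeriesSummable t (2 + w) := DirichletCharacter.LSeriesSummable_of_one_lt_re _ r1
    have sχ : LSeriesSummable (fun k : ℕ => χ k) (2 + w) :=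
      DirichletCharacter.LSeriesSummable_of_one_lt_re _ r1
    have e3 : (2 : ℂ) + w - 1 = 1 + w := by ring
    have ht : LSeries.term (fun k => t k * k) (2 + w) = LSeries.term t (1 + w) := by
      funext n; rw [term_shift, e3]
    have si : LSeriesSummable (fun k => t k * k) (2 + w) := by
      rw [LSeriesSummable, ht]
      exact DirichletCharacter.LSeriesSummable_of_one_lt_re _ r3
    have ei : LSeries (fun k => t k * k) (2 + w) = LSeries t (1 + w) := by
      rw [LSeries, ht, LSeries]
    have e4 := congrFun (congrArg LSeries hconv) (2 + w)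
    rw [LSeries_smul, LSeries_convolution' sD (sχ.convolution st), LSeries_convolution' sχ st,
      LSeries_convolution' s1 (si.convolution st), LSeries_convolution' si st, ei] at e4
    have n1 : LSeries t (2 + w) ≠ 0 := DirichletCharacter.LSeries_ne_zero_of_one_lt_re _ r1
    simp only [F, G, DirichletCharacter.LFunctionTrivChar]
    rw [DirichletCharacter.LFunction_eq_LSeries _ r1, DirichletCharacter.LFunction_eq_LSeries _ r2,
      DirichletCharacter.LFunction_eq_LSeries _ r3, eH, e1]
    apply mul_right_cancel₀ n1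
    linear_combination (κ w * w * LSeries (fun n => (ε1 * ε2) n) (2 + 2 * w)) * e4
  apply hΛ0
  refine vanish hΛ ?_
  have c1 : Tendsto (fun w : ℝ => H w * DirichletCharacter.LFunction χ (2 + w) *
      DirichletCharacter.LFunction (ε1 * ε2) (2 + 2 * w)) (𝓝[>] 0) (𝓝 0) := by
    have h1 := (((hH 0).mul (hL χ (fun w => 2 + w) 0 (by fun_prop) (hne1 0 le_rfl).1)).mul
      (hL (ε1 * ε2) (fun w => 2 + 2 * w) 0 (by fun_prop)
        (hne1 0 le_rfl).2)).continuousAt.tendsto.comp tendsto_ofReal0
    have h0 : H 0 = 0 := by simp [H, hHa0]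
    simpa [h0, Function.comp_def] using h1
  have c2 : Tendsto (fun w : ℝ => (w : ℂ) * DirichletCharacter.LFunctionTrivChar N (1 + w))
      (𝓝[>] 0) (𝓝 (∏ p ∈ N.primeFactors, (1 - (p : ℂ)⁻¹))) := by
    have t1 : Tendsto (fun w : ℝ => 1 + (w : ℂ)) (𝓝[>] 0) (𝓝[≠] 1) := by
      refine tendsto_nhdsWithin_iff.2 ⟨by simpa using tendsto_ofReal0.const_add 1, ?_⟩
      filter_upwards [self_mem_nhdsWithin] with w hw
      simpa using (ne_of_gt hw)
    simpa [Function.comp_def] using
      (DirichletCharacter.LFunctionTrivChar_residue_one (N := N)).comp t1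
  have n2 : ∏ p ∈ N.primeFactors, (1 - (p : ℂ)⁻¹) ≠ 0 := by
    refine Finset.prod_ne_zero_iff.2 fun p hp => ?_
    have h1 := (Nat.prime_of_mem_primeFactors hp).one_lt
    rw [sub_ne_zero, ne_comm, ne_eq, inv_eq_one]
    exact_mod_cast h1.ne'
  have c3 := (hκt.const_mul 2).mul c2
  have n3 := mul_ne_zero (mul_ne_zero two_ne_zero hκ0) n2
  have c4 := c1.div c3 n3
  rw [zero_div] at c4
  refine c4.congr' ?_
  filter_upwards [self_mem_nhdsWithin, c3.eventually_ne n3] with w hw hw'
  have h0 : (w : ℂ) ≠ 0 := by exact_mod_cast (ne_of_gt hw)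
  have e := hFG (x := (w : ℂ)) (by simpa using hw)
  simp only [F, G] at e
  rw [Pi.div_apply, div_eq_div_iff hw' h0]
  have h1 : κ w / w * w = κ w := div_mul_cancel₀ _ h0
  linear_combination e - 2 * Λ w * DirichletCharacter.LFunctionTrivChar N (1 + w) * h1

end

end Pool.Agent.P.MP_b8021b_nt.CM
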