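import Pool.Agent.P.MP_b8021b_nt.CM.Lib

/-! Package P35: non-vanishing of the Rankin-Selberg L-function at the edge. -/

namespace Pool.Agent.P.MP_b8021b_nt.CM

open Complex hiding Gamma
open UpperHalfPlane hiding I
open MeasureTheory CongruenceSubgroup Filter
open scoped Real MatrixGroups ModularForm Topology ComplexConjugate Modular

noncomputable section

namespace NVP

open PowerSeries
open scoped ComplexOrder

/-- geometric series -/
def geo (z : ℂ) : ℂ⟦X⟧ := PowerSeries.mk fun k => z ^ k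

lemma geo_mul (z : ℂ) : geo z * (1 - C z * X) = 1 := by
  ext n
  rw [mul_sub, mul_one, mul_left_comm, map_sub, coeff_C_mul]
  cases n with
  | zero => simp [geo]
  | succ n => simp [geo, coeff_succ_mul_X, pow_succ', coeff_one]

lemma deriv_geo (z : ℂ) : d⁄dX ℂ (geo z) = geo z * (C z * geo z) := by
  ext n
  rw [coeff_derivative, mul_left_comm, coeff_C_mul, coeff_mul]
  have : ∀ p ∈ Finset.HasAntidiagonal.antidiagonal n, coeff p.1 (geo z) * coeff p.2 (geo z) = z ^ n := by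
    intro p hp
    simp only [geo, coeff_mk]
    rw [← pow_add, Finset.HasAntidiagonal.mem_antidiagonal.1 hp]
  rw [Finset.sum_congr rfl this]
  simp only [geo, coeff_mk, Finset.sum_const, Finset.Nat.card_antidiagonal, nsmul_eq_mul]
  push_cast
  ring

lemma deriv_prod {ι : Type} (z : ι → ℂ) (s : Finset ι) :
    d⁄dX ℂ (∏ i ∈ s, geo (z i)) = (∏ i ∈ s, geo (z i)) * ∑ i ∈ s, C (z i) * geo (z i) := by
  classical
  induction s using Finset.induction_on with
  | empty => simp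
  | insert i s hi ih =>
    rw [Finset.prod_insert hi, Finset.sum_insert hi, Derivation.leibniz, ih, deriv_geo]
    simp only [smul_eq_mul]
    ring

lemma coeff_nonneg {ι : Type} [Fintype ι] (z : ι → ℂ) (h : ∀ k, 0 ≤ ∑ i, z i ^ k) (n : ℕ) :
    0 ≤ coeff n (∏ i, geo (z i)) := by
  induction n using Nat.strong_induction_on with
  | _ n ih =>
  cases n with
  | zero =>
    rw [coeff_zero_eq_constantCoeff, map_prod]
    simp [geo]
  | succ n =>
    have e := congrArg (coeff n) (deriv_prod z Finset.univ)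
    rw [coeff_derivative, coeff_mul] at e
    have h1 : 0 ≤ ∑ p ∈ Finset.HasAntidiagonal.antidiagonal n, coeff p.1 (∏ i, geo (z i)) *
        coeff p.2 (∑ i, C (z i) * geo (z i)) := by
      refine Finset.sum_nonneg (fun p hp => mul_nonneg (ih _ ?_) ?_)
      · have := Finset.HasAntidiagonal.mem_antidiagonal.1 hp
        omega
      · simp only [map_sum, coeff_C_mul, geo, coeff_mk, ← pow_succ']
        exact h _
    rw [← e] at h1
    have h2 : (0 : ℂ) ≤ ((((n : ℝ) + 1)⁻¹ : ℝ) : ℂ) := by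
      exact_mod_cast (by positivity : (0 : ℝ) ≤ ((n : ℝ) + 1)⁻¹)
    have h3 := mul_nonneg h1 h2
    have h4 : (n : ℂ) + 1 ≠ 0 := by exact_mod_cast Nat.succ_ne_zero n
    push_cast at h3
    rwa [mul_assoc, mul_inv_cancel₀ h4, mul_one] at h3

lemma rankin (u v : ℕ → ℂ) (a1 a2 b1 b2 : ℂ) (u0 : u 0 = 1) (u1 : u 1 = a1 + a2)
    (hu : ∀ k, u (k + 2) = (a1 + a2) * u (k + 1) - a1 * a2 * u k) (v0 : v 0 = 1)
    (v1 : v 1 = b1 + b2) (hv : ∀ k, v (k + 2) = (b1 + b2) * v (k + 1) - b1 * b2 * v k) :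
    (PowerSeries.mk fun k => u k * v k) * ((1 - C (a1 * b1) * X) * (1 - C (a1 * b2) * X) *
      (1 - C (a2 * b1) * X) * (1 - C (a2 * b2) * X)) = 1 - C (a1 * a2 * (b1 * b2)) * X ^ 2 := by
  set W : ℂ⟦X⟧ := PowerSeries.mk fun k => u k * v k with hW
  have e : W * ((1 - C (a1 * b1) * X) * (1 - C (a1 * b2) * X) *
      (1 - C (a2 * b1) * X) * (1 - C (a2 * b2) * X)) = W - C ((a1 + a2) * (b1 + b2)) * (W * X ^ 1)
      + C ((a1 + a2) ^ 2 * (b1 * b2) + (b1 + b2) ^ 2 * (a1 * a2) - 2 * (a1 * a2) * (b1 * b2)) *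
        (W * X ^ 2) - C ((a1 + a2) * (b1 + b2) * (a1 * a2) * (b1 * b2)) * (W * X ^ 3)
      + C ((a1 * a2) ^ 2 * (b1 * b2) ^ 2) * (W * X ^ 4) := by
    simp only [map_mul, map_add, map_sub, map_pow, map_ofNat]
    ring
  rw [e]
  ext n
  simp only [LinearMap.map_add, LinearMap.map_sub]
  simp only [coeff_C_mul, coeff_X_pow]
  simp only [coeff_mul_X_pow', hW, coeff_mk, coeff_one]
  have u2 := hu 0
  have u3 := hu 1
  have v2 := hv 0
  have v3 := hv 1
  norm_num at u2 u3 v2 v3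
  match n with
  | 0 => simp [u0, v0]
  | 1 => simp [u0, v0, u1, v1]
  | 2 => simp [u0, v0, u1, v1, u2, v2]; ring
  | 3 => simp [u0, v0, u1, v1, u2, v2, u3, v3]; ring
  | k + 4 =>
    have e1 : k + 4 - 1 = k + 3 := by omega
    have e2 : k + 4 - 2 = k + 2 := by omega
    have e3 : k + 4 - 3 = k + 1 := by omega
    have e4 : k + 4 - 4 = k := by omega
    rw [if_pos (by omega), if_pos (by omega), if_pos (by omega), if_pos (by omega),
      if_neg (by omega), if_neg (by omega), e1, e2, e3, e4,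
      show u (k + 4) = _ from hu (k + 2), show v (k + 4) = _ from hv (k + 2),
      show u (k + 2 + 1) = _ from hu (k + 1), show v (k + 2 + 1) = _ from hv (k + 1),
      show u (k + 1 + 1) = _ from hu k, show v (k + 1 + 1) = _ from hv k]
    ring

/-- the local series of an arithmetic function -/
def loc (p : ℕ) (F : ArithmeticFunction ℂ) : ℂ⟦X⟧ := PowerSeries.mk fun k => F (p ^ k)

lemma loc_mul {p : ℕ} (hp : p.Prime) (F G : ArithmeticFunction ℂ) :
    loc p (F * G) = loc p F * loc p G := by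
  ext k
  rw [coeff_mul, Finset.Nat.sum_antidiagonal_eq_sum_range_succ_mk]
  simp only [loc, coeff_mk]
  rw [ArithmeticFunction.mul_apply, Nat.sum_divisorsAntidiagonal (fun a b => F a * G b),
    Nat.sum_divisors_prime_pow hp]
  refine Finset.sum_congr rfl (fun i hi => ?_)
  rw [Nat.pow_div (by simpa [Nat.lt_succ_iff] using hi) hp.pos]

open Classical in
/-- the function supported on squares -/
def sqf {N : ℕ} (ψ : DirichletCharacter ℂ N) : ArithmeticFunction ℂ :=
  ⟨fun n => if IsSquare n then ψ (Nat.sqrt n) * n else 0, by simp⟩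

lemma sqf_sq {N : ℕ} (ψ : DirichletCharacter ℂ N) (m : ℕ) : sqf ψ (m * m) = ψ m * (m * m) := by
  have : IsSquare (m * m) := ⟨m, rfl⟩
  simp [sqf, this]

lemma sqf_not {N : ℕ} (ψ : DirichletCharacter ℂ N) {n : ℕ} (h : ¬ IsSquare n) : sqf ψ n = 0 := by
  simp [sqf, h]

lemma sqf_mult {N : ℕ} (ψ : DirichletCharacter ℂ N) : (sqf ψ).IsMultiplicative := by
  refine ⟨by simpa using sqf_sq ψ 1, fun {m n} h => ?_⟩
  by_cases hm : IsSquare m
  · by_cases hn : IsSquare n
    · obtain ⟨a, rfl⟩ := hm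
      obtain ⟨b, rfl⟩ := hn
      rw [show a * a * (b * b) = a * b * (a * b) by ring, sqf_sq, sqf_sq, sqf_sq]
      push_cast
      rw [map_mul]
      ring
    · rw [sqf_not ψ hn, mul_zero, sqf_not]
      rintro ⟨c, hc⟩
      obtain ⟨d, hd⟩ := exists_eq_pow_of_mul_eq_pow (a := n) (b := m) (c := c) (k := 2)
        (by rw [Nat.isUnit_iff]; exact h.symm) (by rw [mul_comm, hc, sq])
      exact hn ⟨d, by rw [hd, sq]⟩
  · rw [sqf_not ψ hm, zero_mul, sqf_not]
    rintro ⟨c, hc⟩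
    obtain ⟨d, hd⟩ := exists_eq_pow_of_mul_eq_pow (a := m) (b := n) (c := c) (k := 2)
      (by rw [Nat.isUnit_iff]; exact h) (by rw [hc, sq])
    exact hm ⟨d, by rw [hd, sq]⟩

lemma sqf_loc {N : ℕ} (ψ : DirichletCharacter ℂ N) {p : ℕ} (hp : p.Prime) :
    loc p (sqf ψ) * (1 - C (ψ p * p ^ 2) * X ^ 2) = 1 := by
  have he : ∀ j, sqf ψ (p ^ (2 * j)) = (ψ p * p ^ 2) ^ j := by
    intro j
    rw [two_mul, pow_add, sqf_sq]
    push_cast
    rw [map_pow]
    ring
  have ho : ∀ j, sqf ψ (p ^ (2 * j + 1)) = 0 := by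
    intro j
    refine sqf_not ψ ?_
    rintro ⟨c, hc⟩
    have hc0 : c ≠ 0 := by
      rintro rfl
      exact pow_ne_zero _ hp.ne_zero hc
    have := congrArg (fun n => n.factorization p) hc
    simp only [Nat.factorization_mul hc0 hc0, hp.factorization_pow, Finsupp.single_eq_same,
      Finsupp.add_apply] at this
    omega
  ext n
  rw [mul_sub, mul_one, mul_left_comm, map_sub, coeff_C_mul, coeff_mul_X_pow', coeff_one]
  simp only [loc, coeff_mk]
  obtain ⟨j, rfl | rfl⟩ := Nat.even_or_odd' n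
  · cases j with
    | zero => simpa using he 0
    | succ j =>
      rw [if_pos (by omega), if_neg (by omega), show 2 * (j + 1) - 2 = 2 * j by omega, he, he]
      ring
  · cases j with
    | zero => simpa using ho 0
    | succ j =>
      rw [if_pos (by omega), if_neg (by omega), show 2 * (j + 1) + 1 - 2 = 2 * j + 1 by omega,
        ho, ho]
      ring

lemma sqf_hasSum {N : ℕ} (ψ : DirichletCharacter ℂ N) {w : ℂ} (hw : 0 < w.re) :
    LSeriesHasSum (fun n => sqf ψ n) (2 + w) (LSeries (fun n => ψ n) (2 + 2 * w)) := by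
  have hs : LSeriesSummable (fun n => ψ n) (2 + 2 * w) :=
    DirichletCharacter.LSeriesSummable_of_one_lt_re ψ (by simp; linarith)
  have hinj : Function.Injective (fun m : ℕ => m * m) :=
    fun a b h => Nat.mul_self_inj.1 h
  refine (hinj.hasSum_iff ?_).1 ?_
  · intro n hn
    have : ¬ IsSquare n := fun ⟨c, hc⟩ => hn ⟨c, hc.symm⟩
    simp [LSeries.term, sqf_not ψ this]
  · have := hs.LSeriesHasSum
    unfold LSeriesHasSum at this
    convert this using 1
    funext m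
    by_cases hm : m = 0
    · simp [hm]
    · have hm' : (m : ℂ) ≠ 0 := Nat.cast_ne_zero.2 hm
      simp only [Function.comp, LSeries.term, mul_eq_zero, hm, or_self, if_false, sqf_sq]
      have e : ((m * m : ℕ) : ℂ) ^ (2 + w) = (m : ℂ) ^ (2 + 2 * w) * (m * m) := by
        have := natCast_cpow_natCast_mul m 2 (2 + w)
        push_cast at this ⊢
        rw [← sq, ← this, show 2 * (2 + w) = (2 + 2 * w) + (2 : ℕ) by push_cast; ring,
          cpow_add _ _ hm', cpow_natCast]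
      rw [e]
      field_simp

lemma eig_zero {N : ℕ} (hN : 1 < N) {l : ℕ → ℂ} {ε : DirichletCharacter ℂ N} (h : IsEig N l ε) :
    l 0 = 0 := by
  by_contra hc
  have := h.supp 0 hc
  simp at this
  omega

lemma eig_not {N : ℕ} {l : ℕ → ℂ} {ε : DirichletCharacter ℂ N} (h : IsEig N l ε) {n : ℕ}
    (hn : ¬ n.Coprime N) : l n = 0 := by
  by_contra hc
  exact hn (h.supp n hc)

lemma eig_rec {N : ℕ} {l : ℕ → ℂ} {ε : DirichletCharacter ℂ N} (h : IsEig N l ε) {p : ℕ}
    (hp : p.Prime) {n : ℕ} (hn : 0 < n) (k : ℕ) :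
    l (p ^ (k + 2) * n) = l p * l (p ^ (k + 1) * n) - p * ε p * l (p ^ k * n) := by
  by_cases h1 : p.Coprime N
  · by_cases h2 : n.Coprime N
    · have := h.hecke p (p ^ (k + 1) * n) hp h1 (Nat.Coprime.mul_left (h1.pow_left _) h2)
        (Nat.mul_pos (pow_pos hp.pos _) hn)
      have e : p ^ (k + 1) * n = p * (p ^ k * n) := by ring
      rw [if_pos ⟨_, e⟩] at this
      rw [this, e, Nat.mul_div_cancel_left _ hp.pos,
        show p * (p * (p ^ k * n)) = p ^ (k + 2) * n by ring]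
      ring
    · have : ∀ j, l (p ^ j * n) = 0 := fun j => eig_not h (fun e => h2 (Nat.Coprime.coprime_mul_left e))
      simp [this]
  · have e1 : l (p ^ (k + 2) * n) = 0 := eig_not h (fun e => h1
      (Nat.Coprime.coprime_dvd_left (Dvd.dvd.mul_right (dvd_pow_self p (by omega)) n) e))
    have e2 : ε p = 0 := by
      apply MulChar.map_nonunit
      rwa [ZMod.isUnit_iff_coprime]
    rw [e1, e2, eig_not h h1]
    ring

lemma eig_pp {N : ℕ} {l : ℕ → ℂ} {ε : DirichletCharacter ℂ N} (h : IsEig N l ε) {p : ℕ}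
    (hp : p.Prime) {n : ℕ} (hn : 0 < n) (hpn : p.Coprime n) (k : ℕ) :
    l (p ^ k * n) = l (p ^ k) * l n := by
  induction k using Nat.twoStepInduction with
  | zero => simp [h.one]
  | one =>
    simp only [pow_one]
    by_cases h1 : p.Coprime N
    · by_cases h2 : n.Coprime N
      · have := h.hecke p n hp h1 h2 hn
        rw [if_neg (hp.coprime_iff_not_dvd.1 hpn), add_zero] at this
        exact this.symm
      · rw [eig_not h h2, eig_not h (fun e => h2 (Nat.Coprime.coprime_mul_left e)), mul_zero]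
    · rw [eig_not h h1, eig_not h (fun e => h1 (Nat.Coprime.coprime_mul_right e)), zero_mul]
  | more k ih1 ih2 =>
    have := eig_rec h hp Nat.one_pos k
    simp only [mul_one] at this
    rw [eig_rec h hp hn, this, ih1, ih2]
    ring

lemma eig_mul {N : ℕ} (hN : 1 < N) {l : ℕ → ℂ} {ε : DirichletCharacter ℂ N} (h : IsEig N l ε)
    (m : ℕ) : ∀ n : ℕ, m.Coprime n → l (m * n) = l m * l n := by
  induction m using Nat.recOnPosPrimePosCoprime with
  | prime_pow p k hp hk =>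
    intro n hn
    rcases Nat.eq_zero_or_pos n with rfl | hn0
    · simp [eig_zero hN h]
    · exact eig_pp h hp hn0 (Nat.Coprime.coprime_dvd_left (dvd_pow_self p hk.ne') hn) k
  | zero => intro n _; simp [eig_zero hN h]
  | one => intro n _; simp [h.one]
  | coprime a b _ _ hab iha ihb =>
    intro n hn
    rw [mul_assoc, iha _ (Nat.Coprime.mul_right hab hn.coprime_mul_right),
      ihb _ hn.coprime_mul_left, iha _ hab, mul_assoc]

/-- product of two coefficient sequences -/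
def pf (l1 l2 : ℕ → ℂ) : ArithmeticFunction ℂ :=
  ⟨fun n => if n = 0 then 0 else l1 n * l2 n, by simp⟩

/-- coefficients of the Rankin-Selberg L-function -/
def bf {N : ℕ} (ψ : DirichletCharacter ℂ N) (l1 l2 : ℕ → ℂ) : ArithmeticFunction ℂ :=
  sqf ψ * pf l1 l2

lemma bf_mult {N : ℕ} (hN : 1 < N) {l1 l2 : ℕ → ℂ} {ε1 ε2 : DirichletCharacter ℂ N}
    (h1 : IsEig N l1 ε1) (h2 : IsEig N l2 ε2) (ψ : DirichletCharacter ℂ N) :
    (bf ψ l1 l2).IsMultiplicative := by
  refine (sqf_mult ψ).mul (ArithmeticFunction.IsMultiplicative.iff_ne_zero.2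
    ⟨by simp [pf, h1.one, h2.one], fun {m n} hm hn h => ?_⟩)
  simp only [pf, ArithmeticFunction.coe_mk, hm, hn, mul_eq_zero, or_self, if_false,
    eig_mul hN h1 m n h, eig_mul hN h2 m n h]
  ring

lemma bf_hasSum {N : ℕ} (ψ : DirichletCharacter ℂ N) {l1 l2 : ℕ → ℂ} {w : ℂ} (hw : 0 < w.re)
    (h : LSeriesSummable (fun n => l1 n * l2 n) (2 + w)) :
    LSeriesHasSum (fun n => bf ψ l1 l2 n) (2 + w)
      (LSeries (fun n => ψ n) (2 + 2 * w) * LSeries (fun n => l1 n * l2 n) (2 + w)) := by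
  refine ArithmeticFunction.LSeriesHasSum_mul (sqf_hasSum ψ hw) ?_
  have := h.LSeriesHasSum
  unfold LSeriesHasSum at this ⊢
  convert this using 1
  funext n
  by_cases hn : n = 0 <;> simp [LSeries.term, pf, hn]

lemma bf_loc {N : ℕ} {l1 l2 : ℕ → ℂ} {ε1 ε2 : DirichletCharacter ℂ N}
    (h1 : IsEig N l1 ε1) (h2 : IsEig N l2 ε2) {p : ℕ} (hp : p.Prime) {a1 a2 b1 b2 : ℂ}
    (ha : a1 + a2 = l1 p) (ha' : a1 * a2 = p * ε1 p) (hb : b1 + b2 = l2 p)
    (hb' : b1 * b2 = p * ε2 p) :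
    loc p (bf (ε1 * ε2) l1 l2) = geo (a1 * b1) * geo (a1 * b2) * geo (a2 * b1) * geo (a2 * b2) := by
  have r := rankin (fun k => l1 (p ^ k)) (fun k => l2 (p ^ k)) a1 a2 b1 b2 (by simp [h1.one])
    (by simp [ha]) (fun k => by simpa [ha, ha'] using eig_rec h1 hp Nat.one_pos k)
    (by simp [h2.one]) (by simp [hb])
    (fun k => by simpa [hb, hb'] using eig_rec h2 hp Nat.one_pos k)
  have e1 : loc p (pf l1 l2) = PowerSeries.mk fun k => l1 (p ^ k) * l2 (p ^ k) := by
    ext k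
    simp [loc, pf, hp.ne_zero]
  have e2 := sqf_loc (ε1 * ε2) hp
  have e3 : (ε1 * ε2) p * (p : ℂ) ^ 2 = a1 * a2 * (b1 * b2) := by
    rw [ha', hb', MulChar.mul_apply]; ring
  rw [e3, ← r, ← e1] at e2
  rw [bf, loc_mul hp]
  have g1 := geo_mul (a1 * b1)
  have g2 := geo_mul (a1 * b2)
  have g3 := geo_mul (a2 * b1)
  have g4 := geo_mul (a2 * b2)
  calc loc p (sqf (ε1 * ε2)) * loc p (pf l1 l2)
      = loc p (sqf (ε1 * ε2)) * loc p (pf l1 l2) * ((geo (a1 * b1) * (1 - C (a1 * b1) * X)) *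
        (geo (a1 * b2) * (1 - C (a1 * b2) * X)) * (geo (a2 * b1) * (1 - C (a2 * b1) * X)) *
        (geo (a2 * b2) * (1 - C (a2 * b2) * X))) := by rw [g1, g2, g3, g4]; ring
    _ = (loc p (sqf (ε1 * ε2)) * (loc p (pf l1 l2) * ((1 - C (a1 * b1) * X) *
        (1 - C (a1 * b2) * X) * (1 - C (a2 * b1) * X) * (1 - C (a2 * b2) * X)))) *
        (geo (a1 * b1) * geo (a1 * b2) * geo (a2 * b1) * geo (a2 * b2)) := by ring
    _ = _ := by rw [e2, one_mul]

lemma exists_roots (A D : ℂ) : ∃ a1 a2 : ℂ, a1 + a2 = A ∧ a1 * a2 = D := by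
  obtain ⟨r, hr⟩ := IsAlgClosed.exists_pow_nat_eq (A ^ 2 - 4 * D) (n := 2) (by norm_num)
  exact ⟨(A + r) / 2, (A - r) / 2, by ring, by linear_combination (-1 / 4 : ℂ) * hr⟩

lemma four_nonneg {N : ℕ} (hN : 1 < N) {l1 l2 : ℕ → ℂ} {ε1 ε2 : DirichletCharacter ℂ N}
    (h1 : IsEig N l1 ε1) (h2 : IsEig N l2 ε2) (h1' : IsEig N (fun n => conj (l1 n)) ε1⁻¹)
    (h2' : IsEig N (fun n => conj (l2 n)) ε2⁻¹) (n : ℕ) :
    0 ≤ (bf (ε1 * ε1⁻¹) l1 (fun n => conj (l1 n)) * bf (ε2 * ε2⁻¹) l2 (fun n => conj (l2 n)) *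
      bf (ε1 * ε2) l1 l2 * bf (ε1⁻¹ * ε2⁻¹) (fun n => conj (l1 n)) (fun n => conj (l2 n))) n := by
  have hm := (((bf_mult hN h1 h1' (ε1 * ε1⁻¹)).mul (bf_mult hN h2 h2' (ε2 * ε2⁻¹))).mul
    (bf_mult hN h1 h2 (ε1 * ε2))).mul (bf_mult hN h1' h2' (ε1⁻¹ * ε2⁻¹))
  rcases Nat.eq_zero_or_pos n with rfl | hn
  · simp
  rw [hm.multiplicative_factorization _ hn.ne']
  refine Finset.prod_nonneg (fun p hp => ?_)
  have hp : p.Prime := Nat.prime_of_mem_primeFactors (by simpa using hp)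
  obtain ⟨a1, a2, ha, ha'⟩ := exists_roots (l1 p) (p * ε1 p)
  obtain ⟨b1, b2, hb, hb'⟩ := exists_roots (l2 p) (p * ε2 p)
  have c1 : conj a1 + conj a2 = conj (l1 p) := by rw [← map_add, ha]
  have c2 : conj b1 + conj b2 = conj (l2 p) := by rw [← map_add, hb]
  have c3 : conj a1 * conj a2 = p * ε1⁻¹ p := by
    rw [← map_mul, ha', map_mul, ← MulChar.star_apply']; simp
  have c4 : conj b1 * conj b2 = p * ε2⁻¹ p := by
    rw [← map_mul, hb', map_mul, ← MulChar.star_apply']; simp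
  let x : Fin 4 → ℂ := ![a1, a2, conj b1, conj b2]
  have key := coeff_nonneg (fun q : Fin 4 × Fin 4 => x q.1 * conj (x q.2)) (by
    intro k
    have : ∑ q : Fin 4 × Fin 4, (x q.1 * conj (x q.2)) ^ k
        = (∑ i, x i ^ k) * conj (∑ i, x i ^ k) := by
      rw [map_sum, Finset.sum_mul_sum, Fintype.sum_prod_type]
      simp only [mul_pow, map_pow]
    rw [this, mul_conj]
    exact_mod_cast normSq_nonneg _) (n.factorization p)
  have e : loc p (bf (ε1 * ε1⁻¹) l1 (fun n => conj (l1 n)) *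
      bf (ε2 * ε2⁻¹) l2 (fun n => conj (l2 n)) * bf (ε1 * ε2) l1 l2 *
      bf (ε1⁻¹ * ε2⁻¹) (fun n => conj (l1 n)) (fun n => conj (l2 n)))
      = ∏ q : Fin 4 × Fin 4, geo (x q.1 * conj (x q.2)) := by
    rw [loc_mul hp, loc_mul hp, loc_mul hp, bf_loc h1 h1' hp ha ha' c1 c3,
      bf_loc h2 h2' hp hb hb' c2 c4, bf_loc h1 h2 hp ha ha' hb hb',
      bf_loc h1' h2' hp c1 c3 c2 c4, Fintype.prod_prod_type]
    simp only [Fin.prod_univ_four, x, Matrix.cons_val_zero, Matrix.cons_val_one, Matrix.cons_val,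
      conj_conj, mul_comm (conj b1), mul_comm (conj b2)]
    ring
  rw [← e] at key
  simpa only [loc, coeff_mk] using key

lemma conj_LSeries (f : ℕ → ℂ) (s : ℂ) :
    conj (LSeries f (conj s)) = LSeries (fun n => conj (f n)) s := by
  unfold LSeries
  rw [conj_tsum]
  congr 1
  funext n
  by_cases hn : n = 0
  · simp [hn]
  · simp only [LSeries.term, hn, if_false, map_div₀]
    rw [cpow_conj _ _ (by rw [natCast_arg]; exact Real.pi_ne_zero.symm)]
    simp

end NVP

open NVP in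
open scoped ComplexOrder in
theorem nv : S_NV1 → S_NV := by
  intro H N hN l1 l2 ε1 ε2 h1 h2
  obtain ⟨h1', Λ, hd, -, hΛ⟩ := H N hN l1 l2 ε1 ε2 h1 h2
  obtain ⟨h2', -⟩ := H N hN l2 l1 ε2 ε1 h2 h1
  refine ⟨Λ, hd, ?_, hΛ⟩
  rintro ⟨z0, z1⟩
  obtain ⟨-, Λ1, d1, n1, e1⟩ := H N hN l1 _ ε1 _ h1 h1'
  obtain ⟨-, Λ2, d2, -, e2⟩ := H N hN l2 _ ε2 _ h2 h2'
  obtain ⟨-, Λ4, -, -, e4⟩ := H N hN _ _ _ _ h1' h2'
  have hds : ∀ f : ℂ → ℂ, Differentiable ℂ f → Differentiable ℂ (dslope f 0) := fun f hf =>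
    differentiableOn_univ.1 ((differentiableOn_dslope univ_mem).2 hf.differentiableOn)
  set h := dslope (dslope Λ 0) 0 with hh
  have dh : Differentiable ℂ h := hds _ (hds _ hd)
  have eh : ∀ w, Λ w = w ^ 2 * h w := by
    intro w
    have a1 := sub_smul_dslope Λ 0 w
    have a2 := sub_smul_dslope (dslope Λ 0) 0 w
    rw [dslope_same, z1] at a2
    rw [z0] at a1
    simp only [sub_zero, smul_eq_mul] at a1 a2
    rw [← a1, ← a2]
    ring
  have dh' : Differentiable ℂ (conj ∘ h ∘ conj) :=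
    fun w => differentiableAt_conj_conj_iff.2 (dh _)
  let a := bf (ε1 * ε1⁻¹) l1 (fun n => conj (l1 n)) * bf (ε2 * ε2⁻¹) l2 (fun n => conj (l2 n)) *
      bf (ε1 * ε2) l1 l2 * bf (ε1⁻¹ * ε2⁻¹) (fun n => conj (l1 n)) (fun n => conj (l2 n))
  let Z : ℂ → ℂ := fun w => Λ1 w * Λ2 w * h w * (conj ∘ h ∘ conj) w
  have dZ : Differentiable ℂ Z := ((d1.mul d2).mul dh).mul dh'
  have key : ∀ w : ℂ, 2 < w.re → LSeriesHasSum (fun n => a n) (2 + w) (Z w) := by
    intro w hw
    have hw0 : 0 < w.re := by linarith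
    have hw' : w ≠ 0 := fun e => by rw [e] at hw0; simp at hw0
    have s := ArithmeticFunction.LSeriesHasSum_mul (ArithmeticFunction.LSeriesHasSum_mul
      (ArithmeticFunction.LSeriesHasSum_mul (bf_hasSum (ε1 * ε1⁻¹) hw0 (e1 w hw).1)
        (bf_hasSum (ε2 * ε2⁻¹) hw0 (e2 w hw).1)) (bf_hasSum (ε1 * ε2) hw0 (hΛ w hw).1))
      (bf_hasSum (ε1⁻¹ * ε2⁻¹) hw0 (e4 w hw).1)
    convert s using 1
    have k3 := (hΛ w hw).2
    have k4 := congrArg conj (hΛ (conj w) (by simpa using hw)).2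
    rw [eh] at k3 k4
    have t1 : (2 + 2 * conj w : ℂ) = conj (2 + 2 * w) := by simp [map_ofNat]
    have t2 : (2 + conj w : ℂ) = conj (2 + w) := by simp [map_ofNat]
    rw [t1, t2, map_mul, map_mul, map_mul, conj_LSeries, conj_LSeries, map_pow, conj_conj] at k4
    have t3 : (fun n : ℕ => conj ((ε1 * ε2) n)) = fun n : ℕ => (ε1⁻¹ * ε2⁻¹) n := by
      funext n
      rw [MulChar.mul_apply, MulChar.mul_apply, map_mul, ← MulChar.star_apply',
        ← MulChar.star_apply']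
      rfl
    simp only [t3, map_mul] at k4
    simp only [Z, (e1 w hw).2, (e2 w hw).2, Function.comp]
    have k3' : w * h w = LSeries (fun n => (ε1 * ε2) n) (2 + 2 * w) *
        LSeries (fun n => l1 n * l2 n) (2 + w) :=
      mul_left_cancel₀ hw' (by linear_combination k3)
    have k4' : w * conj (h (conj w)) = LSeries (fun n => (ε1⁻¹ * ε2⁻¹) n) (2 + 2 * w) *
        LSeries (fun n => conj (l1 n) * conj (l2 n)) (2 + w) :=
      mul_left_cancel₀ hw' (by linear_combination k4)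
    rw [← k3', ← k4']
    ring
  have hpos := LSeries.positive_of_differentiable_of_eqOn (a := fun n => a n)
    (fun n => four_nonneg hN h1 h2 h1' h2' n) (by
      have hm := (((bf_mult hN h1 h1' (ε1 * ε1⁻¹)).mul (bf_mult hN h2 h2' (ε2 * ε2⁻¹))).mul
        (bf_mult hN h1 h2 (ε1 * ε2))).mul (bf_mult hN h1' h2' (ε1⁻¹ * ε2⁻¹))
      show 0 < a 1
      rw [hm.1]
      exact zero_lt_one) (f := fun s => Z (s - 2)) (dZ.comp (differentiable_id.sub_const 2))
    (x := 4) (LSeries.abscissaOfAbsConv_le_of_forall_lt_LSeriesSummable (fun y hy => by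
      have := (key (y - 2) (by simp; linarith)).LSeriesSummable
      simpa using this)) (fun s hs => by
      have := (key (s - 2) (by simp at hs ⊢; linarith)).LSeries_eq
      simpa using this.symm) 1
  have : Z (((1 : ℝ) : ℂ) - 2) = 0 := by
    rw [show ((1 : ℝ) : ℂ) - 2 = -1 by push_cast; ring]
    simp only [Z, n1, zero_mul]
  rw [this] at hpos
  exact lt_irrefl _ hpos

end

end Pool.Agent.P.MP_b8021b_nt.CM
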