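import Pool.Agent.P.MP_b8021b_nt.CM.NV1b

/-! Package P34: analytic continuation of the Rankin-Selberg series of two eigenforms. -/

namespace Pool.Agent.P.MP_b8021b_nt.CM

open Complex hiding Gamma
open UpperHalfPlane hiding I
open MeasureTheory CongruenceSubgroup Filter
open scoped Real MatrixGroups ModularForm Topology ComplexConjugate Modular

noncomputable section

namespace NV1P

/-- the invariant product of two slashed forms -/
def Phi (f g : ℍ → ℂ) (γ : SL) (τ : ℍ) : ℂ :=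
  (τ.im : ℂ) ^ 2 * (sl 2 γ f τ * conj (sl 2 γ g τ))

theorem Phi_mul (f g : ℍ → ℂ) (γ δ : SL) (τ : ℍ) : Phi f g (γ * δ) τ = Phi f g γ (δ • τ) := by
  have hj := jf_ne_zero δ τ
  have hj' : conj (jf δ τ) ≠ 0 := by simpa using hj
  have h1 : ((‖jf δ τ‖ : ℝ) : ℂ) ^ 2 = jf δ τ * conj (jf δ τ) := (mul_conj' _).symm
  have e : ∀ u : ℍ → ℂ, sl 2 δ u τ = u (δ • τ) * jf δ τ ^ (-2 : ℤ) := fun u => rfl
  simp only [Phi, sl_mul, e, im_SL, map_mul, map_zpow₀]
  push_cast
  rw [h1, zpow_neg, zpow_neg, zpow_ofNat, zpow_ofNat]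
  field_simp

theorem norm_Phi (f g : ℍ → ℂ) (γ : SL) (τ : ℍ) :
    ‖Phi f g γ τ‖ = (τ.im * ‖sl 2 γ f τ‖) * (τ.im * ‖sl 2 γ g τ‖) := by
  rw [Phi, norm_mul, norm_mul, RCLike.norm_conj, norm_pow, norm_real, Real.norm_eq_abs,
    abs_of_pos τ.im_pos]
  ring

theorem cont_Phi {f g : ℍ → ℂ} (hf : Hol f) (hg : Hol g) (γ : SL) : Continuous (Phi f g γ) :=
  ((continuous_ofReal.comp UpperHalfPlane.continuous_im).pow 2).mul
    ((hf.slash 2 γ).continuous.mul (continuous_conj.comp (hg.slash 2 γ).continuous))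

theorem bd_sl {M : ℕ} (hM : 0 < M) {f : ℍ → ℂ} (hf : Cusp M f) :
    ∃ B : ℝ, ∀ (γ : SL) (τ : ℍ), τ.im * ‖sl 2 γ f τ‖ ≤ B := by
  obtain ⟨τ0, h⟩ := hf.exists_max hM
  exact ⟨_, fun γ τ => by rw [← im_mul_norm_SL]; exact h _⟩

theorem dec_sl {M : ℕ} (hM : 0 < M) {f : ℍ → ℂ} (hf : Cusp M f) :
    ∃ a : ℝ, 0 < a ∧ ∀ (γ : SL) (τ : ℍ),
      τ.im * ‖sl 2 γ f τ‖ ≤ a * Real.exp (-(a⁻¹ * τ.im)) := by
  obtain ⟨B, hB⟩ := bd_sl hM hf
  have mono : ∀ a b y : ℝ, 0 < a → a ≤ b → 0 < y →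
      a * Real.exp (-(a⁻¹ * y)) ≤ b * Real.exp (-(b⁻¹ * y)) := by
    intro a b y ha hab hy
    refine mul_le_mul hab (Real.exp_le_exp.2 ?_) (Real.exp_pos _).le (by linarith)
    have := inv_anti₀ ha hab
    nlinarith
  have key := exists_unif (M := M) (α := ℝ) id
    (fun γ a => 0 < a ∧ ∀ τ : ℍ, τ.im * ‖sl 2 γ f τ‖ ≤ a * Real.exp (-(a⁻¹ * τ.im))) hM
    (fun γ a b hab h => ⟨lt_of_lt_of_le h.1 hab, fun τ =>
      (h.2 τ).trans (mono a b _ h.1 hab τ.im_pos)⟩)
    (fun δ hδ γ a h => by rwa [sl_mul, hf.2.1 δ hδ]) (fun γ => ?_)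
  · obtain ⟨a, ha⟩ := key
    exact ⟨a, (ha 1).1, fun γ => (ha γ).2⟩
  · obtain ⟨C, c, hc, hb⟩ := hf.2.2 γ
    set K : ℝ := |C| * (2 / c) + |B| * Real.exp (c / 4) with hK
    have hK0 : 0 ≤ K := by positivity
    have h1 : ∀ τ : ℍ, τ.im * ‖sl 2 γ f τ‖ ≤ K * Real.exp (-(c / 2 * τ.im)) := by
      intro τ
      have hy := τ.im_pos
      rcases le_total (1 / 2) τ.im with h | h
      · have h2 : τ.im ≤ 2 / c * Real.exp (c / 2 * τ.im) := by
          have := HolP.le_exp (c / 2 * τ.im)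
          calc τ.im = 2 / c * (c / 2 * τ.im) := by field_simp
            _ ≤ _ := by gcongr
        have h3 : ‖sl 2 γ f τ‖ ≤ |C| * Real.exp (-c * τ.im) :=
          (hb τ h).trans (by gcongr; exact le_abs_self C)
        calc τ.im * ‖sl 2 γ f τ‖
            ≤ (2 / c * Real.exp (c / 2 * τ.im)) * (|C| * Real.exp (-c * τ.im)) := by gcongr
          _ = |C| * (2 / c) * (Real.exp (c / 2 * τ.im) * Real.exp (-c * τ.im)) := by ring
          _ = |C| * (2 / c) * Real.exp (-(c / 2 * τ.im)) := by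
            rw [← Real.exp_add]; congr 2; ring
          _ ≤ _ := by
            gcongr
            rw [hK]
            exact le_add_of_nonneg_right (by positivity)
      · calc τ.im * ‖sl 2 γ f τ‖ ≤ |B| * 1 := by
              rw [mul_one]; exact (hB γ τ).trans (le_abs_self B)
          _ ≤ |B| * (Real.exp (c / 4) * Real.exp (-(c / 2 * τ.im))) := by
            gcongr
            rw [← Real.exp_add]
            exact Real.one_le_exp (by nlinarith)
          _ = |B| * Real.exp (c / 4) * Real.exp (-(c / 2 * τ.im)) := by ring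
          _ ≤ _ := by
            gcongr
            rw [hK]
            exact le_add_of_nonneg_left (by positivity)
    refine ⟨K + 2 / c, by positivity, fun τ => (h1 τ).trans ?_⟩
    refine mul_le_mul (le_add_of_nonneg_right (by positivity)) (Real.exp_le_exp.2 ?_)
      (Real.exp_pos _).le (by positivity)
    have h4 : (K + 2 / c)⁻¹ ≤ (2 / c)⁻¹ := inv_anti₀ (by positivity) (by linarith)
    rw [inv_div] at h4
    have := τ.im_pos
    nlinarith

theorem dec_Phi {M : ℕ} (hM : 0 < M) {f g : ℍ → ℂ} (hf : Cusp M f) (hg : Cusp M g) :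
    ∃ a c : ℝ, 0 ≤ a ∧ 0 < c ∧ ∀ γ τ, ‖Phi f g γ τ‖ ≤ a * Real.exp (-(c * τ.im)) := by
  obtain ⟨a, ha, h⟩ := dec_sl hM hf
  obtain ⟨B, hB⟩ := bd_sl hM hg
  refine ⟨a * |B|, a⁻¹, by positivity, by positivity, fun γ τ => ?_⟩
  have := τ.im_pos
  rw [norm_Phi, mul_right_comm a]
  exact mul_le_mul (h γ τ) ((hB γ τ).trans (le_abs_self B)) (by positivity) (by positivity)

/-- the family attached to a pair of forms -/
theorem exists_fam {N : ℕ} (hN : 1 < N) {f g : ℍ → ℂ} (hf : Cusp (N ^ 2) f)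
    (hg : Cusp (N ^ 2) g) {ε1 ε2 : DirichletCharacter ℂ N}
    (h1 : ∀ γ : SL, ((N ^ 2 : ℕ) : ℤ) ∣ γ 1 0 → sl 2 γ f = ε1 (γ 1 1 : ℤ) • f)
    (h2 : ∀ γ : SL, ((N ^ 2 : ℕ) : ℤ) ∣ γ 1 0 → sl 2 γ g = ε2⁻¹ (γ 1 1 : ℤ) • g) :
    ∃ (F : Q2 → ℍ → ℂ) (a c : ℝ), 0 < c ∧ Fam0 (N ^ 2) a F ∧
      (∀ w τ, ‖F w τ‖ ≤ a * Real.exp (-(c * τ.im))) ∧ F 0 = 0 ∧
      (∀ n : ℕ, 0 < n → F (0, n) = (ε1 * ε2) n • Phi f g 1) ∧
      ∀ x : ℚ, F (0, x) ≠ 0 → IsInt x := by
  have : NeZero N := ⟨by omega⟩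
  have hM : 1 < N ^ 2 := one_lt_pow₀ hN two_ne_zero
  have hM0 : 0 < N ^ 2 := by omega
  have hε : ∀ a : ZMod N, conj (ε2⁻¹ a) = ε2 a := fun a => by
    have := MulChar.star_apply' ε2⁻¹ a
    rwa [inv_inv] at this
  obtain ⟨F, F1, F2, F3, F4, -⟩ := exists_sec hM (fun a : ℤ => (ε1 * ε2) a) (by simp)
    (fun a b => by simp only [Int.cast_mul, map_mul]) (fun a b h => by
      have : (a : ZMod N) = b := by
        rw [eq_comm, ZMod.intCast_eq_intCast_iff_dvd_sub]
        exact (Int.natCast_dvd_natCast.2 (dvd_pow_self N two_ne_zero)).trans h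
      simp only [this]) (Phi f g) (fun δ γ h => by
      funext τ
      simp only [Phi, sl_mul, h1 δ h, h2 δ h, sl_smul, Pi.smul_apply, smul_eq_mul, map_mul, hε,
        MulChar.mul_apply]
      ring)
  obtain ⟨a, c, ha, hc, hb⟩ := dec_Phi hM0 hf hg
  have hF : ∀ w τ, ‖F w τ‖ ≤ a * Real.exp (-(c * τ.im)) := by
    intro w τ
    rcases F2 w with h | ⟨n, γ, hn, hn', rfl⟩
    · rw [h, Pi.zero_apply, norm_zero]; positivity
    · rw [F1 n hn hn', Pi.smul_apply, norm_smul]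
      exact (mul_le_of_le_one_left (norm_nonneg _)
        (DirichletCharacter.norm_le_one _ _)).trans (hb γ τ)
  have hint : ∀ w, F w ≠ 0 → IsInt w := by
    intro w hw
    rcases F2 w with h | ⟨n, γ, -, -, rfl⟩
    · exact absurd h hw
    · rw [ar_vm_row, isInt_prod, isInt_rat, isInt_rat]
      exact ⟨⟨n * γ 1 0, by push_cast; rfl⟩, ⟨n * γ 1 1, by push_cast; rfl⟩⟩
  have hv : ∀ x : ℚ, vm (0, x) 1 = (0, x) := fun x => vm_one _
  refine ⟨F, a, c, hc, ⟨fun τ => ⟨fun x k hk => congrFun (F4 x k hk) τ, fun x hx => ?_⟩, fun w => ?_,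
    fun w γ τ => ?_, fun w τ => (hF w τ).trans ?_⟩, hF, ?_, fun n hn => ?_, fun x hx => ?_⟩
  · exact (hint x fun h => hx (congrFun h τ)).nsmul _
  · rcases F2 w with h | ⟨n, γ, hn, hn', rfl⟩
    · rw [h]; exact continuous_zero
    · rw [F1 n hn hn']
      exact (cont_Phi hf.1 hg.1 γ).const_smul _
  · by_cases h : ∃ (n : ℕ) (δ : SL), 0 < n ∧ n.Coprime (N ^ 2) ∧ w = vm (0, n) δ
    · obtain ⟨n, δ, hn, hn', rfl⟩ := h
      rw [← vm_mul, F1 n hn hn', F1 n hn hn', Pi.smul_apply, Pi.smul_apply, Phi_mul]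
    · rw [(F3 w γ h).1, (F3 w γ h).2, Pi.zero_apply, Pi.zero_apply]
  · refine mul_le_of_le_one_right ha (Real.exp_le_one_iff.2 ?_)
    have := τ.im_pos
    nlinarith
  · rcases F2 0 with h | ⟨n, γ, hn, -, e⟩
    · exact h
    · exfalso
      have h3 : vm 0 γ⁻¹ = (0, (n : ℚ)) := by rw [e, ← vm_mul, mul_inv_cancel, vm_one]
      have h4 : (0 : ℚ) = n := by simpa [vm] using congrArg Prod.snd h3
      have h5 : (0 : ℚ) < n := by exact_mod_cast hn
      exact h5.ne h4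
  · by_cases h : n.Coprime (N ^ 2)
    · rw [← hv, F1 n hn h, Int.cast_natCast]
    · have h3 : (ε1 * ε2) n = 0 := by
        refine MulChar.map_nonunit _ fun hu => h ?_
        exact Nat.Coprime.pow_right 2 ((ZMod.isUnit_iff_coprime n N).1 hu)
      rw [h3, zero_smul]
      rcases F2 (0, n) with h4 | ⟨m, γ, hm, hm', e⟩
      · exact h4
      · rw [← hv] at e
        have h5 := (vm_decomp_unique (by exact_mod_cast hn) (by exact_mod_cast hm) e).1
        have h6 : n = m := by exact_mod_cast h5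
        exact absurd (h6 ▸ hm') h
  · exact ((isInt_prod _).1 (hint _ hx)).2

theorem dec_Fhat {M : ℕ} (hM : 0 < M) {C : ℝ} {F : Q2 → ℍ → ℂ} (hF : Fam0 M C F) {B : ℍ → ℝ}
    (hb : ∀ w τ, ‖F w τ‖ ≤ B τ) (w : Q2) (τ : ℍ) : ‖Fhat F w τ‖ ≤ idx Q2 M * B τ := by
  have h1 := ((hF.lev τ).sb hM).mul_eq
    (w.2 • LinearMap.fst ℚ ℚ ℚ - w.1 • LinearMap.snd ℚ ℚ ℚ)
  have e : (fun v : Q2 => F v τ * eq (v.1 * w.2 - v.2 * w.1)) = fun v : Q2 =>
      F v τ * eq ((w.2 • LinearMap.fst ℚ ℚ ℚ - w.1 • LinearMap.snd ℚ ℚ ℚ) v) := by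
    funext v
    simp [mul_comm]
  rw [Fhat, FS, e]
  refine norm_II_le' h1 hM (fun x hx => (hF.lev τ).2 x (left_ne_zero_of_mul hx)) fun x => ?_
  rw [norm_mul, norm_eq, mul_one]
  exact hb x τ

theorem summable_aux {a : ℕ → ℂ} {C : ℝ} (h : ∀ n : ℕ, ‖a n‖ ≤ C * (n : ℝ) ^ 2) {s : ℂ}
    (hs : 3 < s.re) : LSeriesSummable a s := by
  refine LSeriesSummable_of_le_const_mul_rpow (x := 3) hs ⟨C, fun n _ => ?_⟩
  rw [show (3 : ℝ) - 1 = (2 : ℕ) by norm_num, Real.rpow_natCast]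
  exact h n

theorem mellin_h {a : ℕ → ℂ} (h0 : a 0 = 0) {h : ℝ → ℂ} {s : ℂ} (hs : 0 < s.re)
    (ha : LSeriesSummable a s) (hh : ∀ y : ℝ, 0 < y →
      HasSum (fun n : ℕ => a n * (Real.exp (-(4 * π * n) * y) : ℝ)) (h y)) :
    mellin h s = Complex.Gamma s * ((4 * π : ℝ) : ℂ) ^ (-s) * LSeries a s := by
  have h1 := hasSum_mellin (a := a) (p := fun n : ℕ => 4 * π * n) (F := h) (s := s)
    (fun n => ?_) hs hh ?_
  · refine h1.unique ?_
    have e : (fun n : ℕ => Complex.Gamma s * a n / ((4 * π * n : ℝ) : ℂ) ^ s) = fun n =>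
        Complex.Gamma s * ((4 * π : ℝ) : ℂ) ^ (-s) * LSeries.term a s n := by
      funext n
      rw [LSeries.term_def₀ h0, ofReal_mul _ (n : ℝ),
        mul_cpow_ofReal_nonneg (by positivity) (by positivity), cpow_neg, cpow_neg,
        ofReal_natCast]
      ring
    rw [e]
    exact ha.LSeriesHasSum.mul_left _
  · rcases Nat.eq_zero_or_pos n with rfl | hn
    · exact Or.inl h0
    · exact Or.inr (by positivity)
  · have h2 := (summable_norm_iff.2 ha).mul_left ((4 * π) ^ s.re)⁻¹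
    refine h2.congr fun n => ?_
    rw [LSeries.norm_term_eq,
      Real.mul_rpow (x := 4 * π) (y := n) (by positivity) (by positivity)]
    split_ifs with hn
    · simp [hn, h0]
    · ring

end NV1P

open NV1P in
theorem nv1 : S_RS0 → S_NV1 := by
  intro hRS N hN l1 l2 ε1 ε2 e1 e2
  refine ⟨isEig_conj hN e1, ?_⟩
  have : NeZero N := ⟨by omega⟩
  have hM0 : 0 < N ^ 2 := by positivity
  obtain ⟨f, hf, sf, cf⟩ := e1.form
  obtain ⟨g, hg, sg, cg⟩ := (isEig_conj hN e2).form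
  obtain ⟨F, a, c, hc, hF, hb, F0, F1, F2⟩ := exists_fam hN hf hg cf cg
  obtain ⟨hF', -, hun, hfe, hcont⟩ := hRS _ _ F hM0 hF
  have hcont' := (hRS _ _ _ hM0 hF').2.2.2.2
  have d1 := decay hRS hM0 hF hc hb
  have d2 := decay hRS hM0 hF' (a := idx Q2 (N ^ 2) * a) hc fun w τ => by
    rw [mul_assoc]
    exact dec_Fhat hM0 hF (B := fun τ => a * Real.exp (-(c * τ.im))) hb w τ
  set g0 := hmean (Fhat F 0) with hg0
  let P : WeakFEPair ℂ :=
    { f := R0 F
      g := fun t => R0 (Fhat F) t + g0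
      k := 1
      ε := 1
      f₀ := 0
      g₀ := g0
      hf_int := hcont.locallyIntegrableOn measurableSet_Ioi
      hg_int := (hcont'.add continuousOn_const).locallyIntegrableOn measurableSet_Ioi
      hk := one_pos
      hε := one_ne_zero
      h_feq := fun x hx => by
        have := hfe (1 / x) (one_div_pos.2 hx)
        rw [F0, hmean_zero, add_zero] at this
        rw [this]
        simp
      hf_top := fun r => by simpa only [sub_zero] using d1 r
      hg_top := fun r => by simpa only [add_sub_cancel_right] using d2 r }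
  have hπ : (π : ℂ) ≠ 0 := ofReal_ne_zero.2 Real.pi_pos.ne'
  have hπ4 : ((4 * π : ℝ) : ℂ) ≠ 0 := ofReal_ne_zero.2 (by positivity)
  refine ⟨fun w => (w * P.Λ₀ (1 + w) + g0) * (π : ℂ) ^ (1 + w) * ((4 * π : ℝ) : ℂ) ^ (2 + w) *
    (Complex.Gamma (1 + w))⁻¹ * (Complex.Gamma (2 + w))⁻¹, ?_, by simp, fun w hw => ?_⟩
  · have a1 : Differentiable ℂ fun w : ℂ => 1 + w := by fun_prop
    have a2 : Differentiable ℂ fun w : ℂ => 2 + w := by fun_prop
    exact (((((differentiable_id.mul (P.differentiable_Λ₀.comp a1)).add_const g0).mul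
      (a1.const_cpow (Or.inl hπ))).mul (a2.const_cpow (Or.inl hπ4))).mul
      (differentiable_one_div_Gamma.comp a1)).mul (differentiable_one_div_Gamma.comp a2)
  obtain ⟨C1, hC1, b1⟩ := coef_le hM0 hf sf
  obtain ⟨C2, hC2, b2⟩ := coef_le hM0 hg sg
  have b3 : ∀ n : ℕ, ‖l1 n * l2 n‖ ≤ C1 * C2 * (n : ℝ) ^ 2 := by
    intro n
    have := b2 n
    rw [RCLike.norm_conj] at this
    rw [norm_mul]
    refine (mul_le_mul (b1 n) this (norm_nonneg _) (by positivity)).trans (le_of_eq ?_)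
    ring
  have hsum : LSeriesSummable (fun n => l1 n * l2 n) (2 + w) :=
    summable_aux b3 (by simp; linarith)
  refine ⟨hsum, ?_⟩
  set h : ℝ → ℂ := ct fun τ => f τ * conj (g τ) with hh
  have hl0 : l1 0 * l2 0 = 0 := norm_le_zero_iff.1 (by simpa only [Nat.cast_zero, ne_eq,
    OfNat.ofNat_ne_zero, not_false_eq_true, zero_pow, mul_zero] using b3 0)
  have m1 : mellin h (2 + w) = Complex.Gamma (2 + w) * ((4 * π : ℝ) : ℂ) ^ (-(2 + w)) *
      LSeries (fun n => l1 n * l2 n) (2 + w) :=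
    mellin_h hl0 (by simp; linarith) hsum fun y hy => hasSum_ct hf.1 sf sg hy
  have hct : ∀ (z : ℂ) (y : ℝ), 0 < y → ct (z • Phi f g 1) y = z * (y : ℂ) ^ 2 * h y := by
    intro z y hy
    rw [hh, ct, ct, ← intervalIntegral.integral_const_mul]
    congr 1
    funext u
    simp only [Pi.smul_apply, smul_eq_mul, Phi, sl_one, im_pt u hy]
    ring
  have hhb : ∀ y : ℝ, 0 < y → y ^ 2 * ‖h y‖ ≤ a * Real.exp (-(c * y)) := by
    intro y hy
    have h1 : ‖ct (F (0, ((1 : ℕ) : ℚ))) y‖ ≤ a * Real.exp (-(c * y)) :=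
      norm_ct_le fun u => by simpa only [im_pt u hy] using hb _ (pt u y)
    rw [F1 1 one_pos, hct _ y hy] at h1
    simpa using h1
  have hre : (1 + w).re = 1 + w.re := by simp
  have hmeas : Measurable h :=
    measurable_ct (hf.1.continuous.mul (continuous_conj.comp hg.1.continuous))
  have m2 := mellin_A hmeas (s := 1 + w) (by rw [hre]; linarith) (by
    refine ((int_rpow_exp (s := (1 + w).re - 2) (by rw [hre]; linarith) hc).const_mul a).mono'
      ((measurable_id.pow_const _).mul hmeas.norm).aestronglyMeasurable ?_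
    filter_upwards [ae_restrict_mem measurableSet_Ioi] with y (hy : 0 < y)
    rw [Real.norm_of_nonneg (by positivity), Real.rpow_sub hy, Real.rpow_two]
    have h1 := mul_le_mul_of_nonneg_left (hhb y hy)
      (show 0 ≤ y ^ (1 + w).re / y ^ 2 by positivity)
    refine le_trans (le_of_eq ?_) (h1.trans (le_of_eq ?_))
    · field_simp
    · ring)
  have hψ0 : (ε1 * ε2) ((0 : ℕ) : ZMod N) = 0 := by
    have : Fact (1 < N) := ⟨hN⟩
    rw [Nat.cast_zero]
    exact MulChar.map_nonunit _ not_isUnit_zero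
  have m3 := mellin_sum (R := R0 F) (ψ := fun n : ℕ => (ε1 * ε2) n) m2.1 (by rw [hre]; linarith)
    (fun n => DirichletCharacter.norm_le_one _ _) hψ0 (fun t ht => by
      have h1 := (hun t ht).2
      rw [hasSum_pos_lat one_pos] at h1
      · simp only [Nat.cast_one, div_one] at h1
        have e : (fun n : ℕ => (ε1 * ε2) n * ∫ y in Set.Ioi (0 : ℝ),
            (Real.exp (-π * ((n : ℝ) ^ 2 * t) / y) : ℂ) * h y) = fun n : ℕ =>
            if 0 < (n : ℚ) then ∫ y in Set.Ioi (0 : ℝ),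
              (Real.exp (-π * t * ((n : ℚ) : ℝ) ^ 2 / y) : ℂ) * ct (F (0, n)) y / (y : ℂ) ^ 2
            else 0 := by
          funext n
          rcases Nat.eq_zero_or_pos n with rfl | hn
          · rw [hψ0]; simp
          · rw [if_pos (by exact_mod_cast hn), F1 n hn, ← integral_const_mul]
            refine setIntegral_congr_fun measurableSet_Ioi fun y (hy : 0 < y) => ?_
            have hy' : (y : ℂ) ≠ 0 := ofReal_ne_zero.2 hy.ne'
            simp only [hct _ y hy, Rat.cast_natCast]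
            rw [mul_comm ((n : ℝ) ^ 2) t, ← mul_assoc (-π)]
            field_simp
        rw [e]
        exact h1
      · intro x hx
        by_cases h0 : 0 < x
        · refine ⟨h0.le, ?_⟩
          rw [Nat.cast_one, one_smul]
          refine F2 x fun h2 => hx ?_
          simp [h2, ct]
        · exact absurd (if_neg h0) hx)
  have m4 : mellin (R0 F) (1 + w) = P.Λ (1 + w) := by
    have := (P.hasMellin (s := 1 + w) (by rw [hre]; change 1 < _; linarith)).2
    simpa only [P, sub_zero] using this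
  have hw0 : w ≠ 0 := by rintro rfl; simp at hw; linarith
  have m5 : w * P.Λ₀ (1 + w) + g0 = w * P.Λ (1 + w) := by
    have h1 : P.Λ₀ (1 + w) = P.Λ (1 + w) + (1 / (1 + w)) • (0 : ℂ) +
        (1 / (((1 : ℝ) : ℂ) - (1 + w))) • g0 := P.Λ₀_eq _
    rw [h1, smul_zero, add_zero, smul_eq_mul, ofReal_one, sub_add_cancel_left]
    field_simp
    ring
  have m6 : HasSum (fun n : ℕ => (ε1 * ε2) n * ((((n : ℝ) ^ 2 : ℝ) : ℂ) ^ (-(1 + w))))
      (LSeries (fun n => (ε1 * ε2) n) (2 + 2 * w)) := by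
    have h1 : LSeriesSummable (fun n : ℕ => (ε1 * ε2) n) (2 + 2 * w) :=
      DirichletCharacter.LSeriesSummable_of_one_lt_re _ (by simp; linarith)
    have e : (fun n : ℕ => (ε1 * ε2) n * ((((n : ℝ) ^ 2 : ℝ) : ℂ) ^ (-(1 + w)))) =
        LSeries.term (fun n : ℕ => (ε1 * ε2) n) (2 + 2 * w) := by
      funext n
      rw [LSeries.term_def₀ hψ0, pow_two, ofReal_mul,
        mul_cpow_ofReal_nonneg (by positivity) (by positivity), ofReal_natCast]
      rcases Nat.eq_zero_or_pos n with rfl | hn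
      · rw [hψ0, zero_mul, zero_mul]
      · rw [← cpow_add _ _ (by exact_mod_cast hn.ne')]
        congr 2
        ring
    rw [e]
    exact h1.LSeriesHasSum
  have m7 := m6.mul_right (mellin (fun t => ∫ y in Set.Ioi (0 : ℝ),
    (Real.exp (-π * t / y) : ℂ) * h y) (1 + w))
  simp only [mul_assoc] at m7
  have m8 := m3.unique m7
  have g1 : Complex.Gamma (1 + w) ≠ 0 := Gamma_ne_zero_of_re_pos (by rw [hre]; linarith)
  have g2 : Complex.Gamma (2 + w) ≠ 0 := Gamma_ne_zero_of_re_pos (by simp; linarith)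
  have p1 : (π : ℂ) ^ (1 + w) ≠ 0 := by simp [hπ]
  have p2 : ((4 * π : ℝ) : ℂ) ^ (2 + w) ≠ 0 := by rw [Ne, cpow_eq_zero_iff]; simp [hπ]
  beta_reduce
  rw [m5, ← m4, m8, m2.2, show 1 + w + 1 = 2 + w by ring, m1, cpow_neg, cpow_neg]
  field_simp

end

end Pool.Agent.P.MP_b8021b_nt.CM
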