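import Pool.Agent.P.MP_b8021b_nt.CM.PolyB
import Pool.Agent.P.MP_b8021b_nt.CM.StmtsW

/-! Package P16: polynomial bounds for the special sums. -/

namespace Pool.Agent.P.MP_b8021b_nt.CM

open Complex hiding Gamma
open UpperHalfPlane hiding I
open MeasureTheory CongruenceSubgroup Filter
open scoped Real MatrixGroups ModularForm Topology ComplexConjugate Modular

noncomputable section

namespace PolyP

variable {s : ℍ → ℍ → ℂ} {M : ℕ} {E E' : ℝ} {n r j : ℚ}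

/-- `E` bounds the special sum with Gram matrix `(n, r, j)` -/
def Good (s : ℍ → ℍ → ℂ) (M : ℕ) (E : ℝ) (n r j : ℚ) : Prop :=
  ∀ φ : M2 → M2 → ℂ, Lev M (unc φ) → ∀ B : ℝ, (∀ Y Z, ‖φ Y Z‖ ≤ B) → ‖aS s n r j φ‖ ≤ E * B

/-- the Gram matrices that can occur -/
def Adm (M : ℕ) (n r j : ℚ) : Prop :=
  0 < j ∧ r ^ 2 < 4 * n * j ∧ (∃ a : ℤ, (M : ℚ) ^ 2 * n = a) ∧ (∃ a : ℤ, (M : ℚ) ^ 2 * r = a) ∧
    ∃ a : ℤ, (M : ℚ) ^ 2 * j = a

theorem Good.mono (h : Good s M E n r j) (hE : E ≤ E') : Good s M E' n r j := fun φ hφ B hB =>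
  (h φ hφ B hB).trans (mul_le_mul_of_nonneg_right hE ((norm_nonneg _).trans (hB 0 0)))

theorem lev_supp {φ : M2 → M2 → ℂ} (h : Lev M (unc φ)) {Y Z : M2} (h0 : φ Y Z ≠ 0) :
    IsInt ((M : ℚ) • Y) ∧ IsInt ((M : ℚ) • Z) := (isInt_prod _).1 (h.2 (Y, Z) h0)

theorem adm_of_ne {φ : M2 → M2 → ℂ} (h : Lev M (unc φ)) (h0 : aS s n r j φ ≠ 0) : Adm M n r j := by
  obtain ⟨h1, h2, Y, Z, rfl, rfl, rfl, h3⟩ := aS_supp h0
  obtain ⟨hY, hZ⟩ := lev_supp h h3
  have e1 := isInt_det hY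
  have e2 := isInt_bil hY hZ
  have e3 := isInt_det hZ
  rw [Matrix.det_smul, Fintype.card_fin] at e1 e3
  rw [bil_smul, ← sq] at e2
  exact ⟨h1, h2, (isInt_rat _).1 e1, (isInt_rat _).1 e2, (isInt_rat _).1 e3⟩

theorem good_of_adm (hE : 0 ≤ E) (h : Adm M n r j → Good s M E n r j) : Good s M E n r j := by
  intro φ hφ B hB
  by_cases h0 : aS s n r j φ = 0
  · rw [h0, norm_zero]
    exact mul_nonneg hE ((norm_nonneg _).trans (hB 0 0))
  · exact h (adm_of_ne hφ h0) φ hφ B hB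

theorem lev_gl2 {φ : M2 → M2 → ℂ} (h : Lev M (unc φ)) {a b c d : ℤ}
    (hd : (a * d - b * c) ^ 2 = 1) :
    Lev M (unc fun Y Z => φ ((a : ℚ) • Y + (b : ℚ) • Z) ((c : ℚ) • Y + (d : ℚ) • Z)) := by
  refine ⟨fun x k hk => ?_, fun x hx => ?_⟩
  · obtain ⟨h1, h2⟩ := (isInt_prod _).1 hk
    have h3 := h.1 ((a : ℚ) • x.1 + (b : ℚ) • x.2, (c : ℚ) • x.1 + (d : ℚ) • x.2)
      ((a : ℚ) • k.1 + (b : ℚ) • k.2, (c : ℚ) • k.1 + (d : ℚ) • k.2)
      ((isInt_prod _).2 ⟨(h1.zsmul a).add (h2.zsmul b), (h1.zsmul c).add (h2.zsmul d)⟩)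
    simp only [unc, Prod.fst_add, Prod.snd_add, Prod.smul_fst, Prod.smul_snd] at h3 ⊢
    rw [← h3]
    congr 1 <;> module
  · obtain ⟨h1, h2⟩ := lev_supp h hx
    have hd' : ((a : ℚ) * d - b * c) ^ 2 = 1 := by exact_mod_cast hd
    refine (isInt_prod _).2 ⟨?_, ?_⟩
    · have h3 := ((h1.zsmul d).sub (h2.zsmul b)).zsmul (a * d - b * c)
      convert h3 using 1
      push_cast
      simp only [Prod.smul_fst]
      match_scalars
      · linear_combination (-(M : ℚ)) * hd'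
      · ring
    · have h3 := ((h2.zsmul a).sub (h1.zsmul c)).zsmul (a * d - b * c)
      convert h3 using 1
      push_cast
      simp only [Prod.smul_snd]
      match_scalars
      · linear_combination (-(M : ℚ)) * hd'
      · ring

theorem Good.shift (h : Good s M E n r j) (k : ℤ) :
    Good s M E (n + k * r + k ^ 2 * j) (r + 2 * k * j) j := by
  intro φ hφ B hB
  have h1 := aS_gl2 (s := s) (a := ((1 : ℤ) : ℚ)) (b := k) (c := ((0 : ℤ) : ℚ))
    (d := ((1 : ℤ) : ℚ)) (by simp) φ n r j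
  have h2 := h _ (lev_gl2 hφ (a := 1) (b := k) (c := 0) (d := 1) (by simp)) B fun Y Z => hB _ _
  rw [← h1] at h2
  convert h2 using 3 <;> push_cast <;> ring

theorem Good.swap (h : Good s M E n r j) : Good s M E j r n := by
  intro φ hφ B hB
  have h1 := aS_gl2 (s := s) (a := ((0 : ℤ) : ℚ)) (b := ((1 : ℤ) : ℚ)) (c := ((1 : ℤ) : ℚ))
    (d := ((0 : ℤ) : ℚ)) (by simp) φ n r j
  have h2 := h _ (lev_gl2 hφ (a := 0) (b := 1) (c := 1) (d := 0) (by simp)) B fun Y Z => hB _ _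
  rw [← h1] at h2
  convert h2 using 3 <;> push_cast <;> ring

/-- products of two class functions -/
def ten (M : ℕ) (μ ν : M2) (Y Z : M2) : ℂ := cls M μ Y * cls M ν Z

theorem lev_ten (hM : 0 < M) {μ ν : M2} (hμ : IsInt ((M : ℚ) • μ)) (hν : IsInt ((M : ℚ) • ν)) :
    Lev M (unc (ten M μ ν)) := by
  refine lev_prod (fun y => ?_) fun x => (lev_cls hM hν).smul (cls M μ x)
  have h := (lev_cls hM hμ).smul (cls M ν y)
  convert h using 1
  funext x
  exact mul_comm _ _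

theorem norm_ten (μ ν Y Z : M2) : ‖ten M μ ν Y Z‖ ≤ 1 := by
  unfold ten cls
  split_ifs <;> simp

theorem good_of_cls (hs : HasLevS s) (hM : 0 < M) {R : Finset M2} (hR : Reps M R)
    (h : ∀ μ ∈ R, ∀ ν ∈ R, ‖aS s n r j (ten M μ ν)‖ ≤ E) :
    Good s M ((R.card : ℝ) ^ 2 * E) n r j := by
  intro φ hφ B hB
  have h1 : φ = ∑ p ∈ R ×ˢ R, φ p.1 p.2 • ten M p.1 p.2 := by
    funext Y Z
    have e1 := congrFun (hR.2.2 _ (hφ.fst Z)) Y
    simp only [Finset.sum_apply, Pi.smul_apply, smul_eq_mul, unc] at e1 ⊢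
    rw [e1, Finset.sum_product]
    refine Finset.sum_congr rfl fun μ _ => ?_
    have e2 := congrFun (hR.2.2 _ (hφ.snd μ)) Z
    simp only [Finset.sum_apply, Pi.smul_apply, smul_eq_mul, unc] at e2
    rw [e2, Finset.sum_mul]
    exact Finset.sum_congr rfl fun ν _ => by rw [ten]; ring
  have h2 : ∀ p ∈ R ×ˢ R, SB (unc (φ p.1 p.2 • ten M p.1 p.2)) := fun p hp =>
    ((lev_ten hM (hR.1 _ (Finset.mem_product.1 hp).1)
      (hR.1 _ (Finset.mem_product.1 hp).2)).smul (φ p.1 p.2)).sb hM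
  rw [h1, aS_sum hs _ _ h2]
  refine (norm_sum_le _ _).trans ?_
  refine (Finset.sum_le_card_nsmul _ _ (E * B) fun p hp => ?_).trans (le_of_eq ?_)
  · rw [aS_smul, norm_mul, mul_comm]
    have h3 := h _ (Finset.mem_product.1 hp).1 _ (Finset.mem_product.1 hp).2
    exact mul_le_mul h3 (hB _ _) (norm_nonneg _) ((norm_nonneg _).trans h3)
  · rw [Finset.card_product, nsmul_eq_mul]
    push_cast
    ring

theorem Adm.nat (hM : 0 < M) (h : Adm M n r j) : ∃ J : ℕ, 0 < J ∧ j = J / M ^ 2 := by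
  obtain ⟨h1, -, -, -, a, ha⟩ := h
  have hM' : (0 : ℚ) < M := by exact_mod_cast hM
  have h2 : (0 : ℚ) < a := by rw [← ha]; positivity
  have h3 : 0 < a := by exact_mod_cast h2
  lift a to ℕ using h3.le
  refine ⟨a, by exact_mod_cast h3, ?_⟩
  rw [eq_div_iff (by positivity), mul_comm]
  exact_mod_cast ha

/-- reduction theory -/
theorem good_of_red (hM : 0 < M) (hE : 0 ≤ E) {D : ℚ}
    (h : ∀ n r j, Adm M n r j → 4 * n * j - r ^ 2 = D → |r| ≤ j → j ≤ n → Good s M E n r j)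
    (n r j : ℚ) (hD : 4 * n * j - r ^ 2 = D) : Good s M E n r j := by
  have hM' : (0 : ℚ) < M := by exact_mod_cast hM
  suffices H : ∀ (J : ℕ) (n r : ℚ), 4 * n * (J / M ^ 2) - r ^ 2 = D → Good s M E n r (J / M ^ 2) by
    refine good_of_adm hE fun ha => ?_
    obtain ⟨J, -, rfl⟩ := ha.nat hM
    exact H J n r hD
  intro J
  induction J using Nat.strong_induction_on with
  | _ J ih =>
    intro n r hD
    refine good_of_adm hE fun ha => ?_
    set j : ℚ := J / M ^ 2 with hj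
    have hj0 : 0 < j := ha.1
    set k : ℤ := round (r / (2 * j)) with hk
    have h1 : Good s M E (n - k * r + k ^ 2 * j) (r - 2 * k * j) j := by
      refine good_of_adm hE fun hb => ?_
      have hD' : 4 * (n - k * r + k ^ 2 * j) * j - (r - 2 * k * j) ^ 2 = D := by
        rw [← hD]
        ring
      rcases le_or_gt j (n - k * r + k ^ 2 * j) with h2 | h2
      · refine h _ _ _ hb hD' ?_ h2
        have h3 := abs_sub_round (r / (2 * j))
        have h4 : r - 2 * k * j = (r / (2 * j) - k) * (2 * j) := by field_simp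
        rw [h4, abs_mul, abs_of_pos (by positivity : 0 < 2 * j)]
        nlinarith
      · have hc : Adm M j (r - 2 * k * j) (n - k * r + k ^ 2 * j) := by
          obtain ⟨e1, e2, e3, e4, e5⟩ := hb
          refine ⟨?_, by linarith, e5, e4, e3⟩
          by_contra e
          nlinarith [sq_nonneg (r - 2 * k * j), not_lt.1 e]
        obtain ⟨J', -, hJ'⟩ := hc.nat hM
        rw [hJ'] at h2 hD' ⊢
        have h3 : J' < J := by
          rw [hj, div_lt_div_iff_of_pos_right (by positivity)] at h2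
          exact_mod_cast h2
        exact (ih J' h3 j _ (by rw [← hD']; ring)).swap
    convert h1.shift k using 1 <;> ring

theorem exists_fin (hs : HasLevS s) (hM : 0 < M) (D0 : ℝ) : ∃ E0 : ℝ, 0 ≤ E0 ∧ ∀ n r j,
    Adm M n r j → ((4 * n * j - r ^ 2 : ℚ) : ℝ) ≤ D0 → |r| ≤ j → j ≤ n → Good s M E0 n r j := by
  classical
  obtain ⟨R, hR⟩ := exists_reps hM
  obtain ⟨T, hT⟩ := exists_nat_ge (D0 * M ^ 4)
  have hM' : (0 : ℚ) < M := by exact_mod_cast hM
  obtain ⟨E, hE⟩ := Finset.exists_le (((Finset.Icc (-T : ℤ) T ×ˢ Finset.Icc (-T : ℤ) T ×ˢ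
    Finset.Icc (-T : ℤ) T) ×ˢ R ×ˢ R).image fun p : (ℤ × ℤ × ℤ) × M2 × M2 =>
      ‖aS s (p.1.1 / M ^ 2) (p.1.2.1 / M ^ 2) (p.1.2.2 / M ^ 2) (ten M p.2.1 p.2.2)‖)
  refine ⟨R.card ^ 2 * max E 0, by positivity, fun n r j ha hD hr hj => ?_⟩
  obtain ⟨h1, h2, ⟨a, ha⟩, ⟨b, hb⟩, c, hc⟩ := ha
  refine good_of_cls hs hM hR fun μ hμ ν hν => le_trans (hE _ ?_) (le_max_left _ _)
  have hc0 : (0 : ℚ) < c := by rw [← hc]; positivity
  have hc1 : (1 : ℚ) ≤ c := by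
    have : 0 < c := by exact_mod_cast hc0
    exact_mod_cast this
  have hr2 : r ^ 2 ≤ j ^ 2 := sq_le_sq' (abs_le.1 hr).1 (abs_le.1 hr).2
  have hD' : (4 * n * j - r ^ 2) * M ^ 4 ≤ T := by
    have e : (((4 * n * j - r ^ 2) * M ^ 4 : ℚ) : ℝ) ≤ (T : ℚ) := by
      push_cast at hD ⊢
      exact (mul_le_mul_of_nonneg_right hD (by positivity)).trans hT
    exact_mod_cast e
  have hca : (c : ℚ) ≤ a := by
    rw [← ha, ← hc]
    gcongr
  have hbc : |(b : ℚ)| ≤ c := by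
    rw [← hb, ← hc, abs_mul, abs_of_pos (by positivity : (0 : ℚ) < M ^ 2)]
    gcongr
  have haT : (a : ℚ) ≤ T := by
    have e1 : (4 * n * j - r ^ 2) * M ^ 4 = 4 * a * c - (b : ℚ) ^ 2 := by
      rw [← ha, ← hb, ← hc]
      ring
    have e2 : (b : ℚ) ^ 2 ≤ c ^ 2 := sq_le_sq' (abs_le.1 hbc).1 (abs_le.1 hbc).2
    nlinarith
  have hT0 : (0 : ℚ) ≤ T := Nat.cast_nonneg T
  refine Finset.mem_image.2 ⟨((a, b, c), μ, ν), ?_, ?_⟩
  · simp only [Finset.mem_product, Finset.mem_Icc]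
    have e := abs_le.1 hbc
    refine ⟨⟨⟨?_, ?_⟩, ⟨?_, ?_⟩, ?_, ?_⟩, hμ, hν⟩
    · have : (-T : ℚ) ≤ a := by linarith
      exact_mod_cast this
    · exact_mod_cast haT
    · have : (-T : ℚ) ≤ b := by linarith
      exact_mod_cast this
    · have : (b : ℚ) ≤ T := by linarith
      exact_mod_cast this
    · have : (-T : ℚ) ≤ c := by linarith
      exact_mod_cast this
    · have : (c : ℚ) ≤ T := by linarith
      exact_mod_cast this
  · simp only [← ha, ← hb, ← hc]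
    congr 2 <;> field_simp

theorem det_cls (hM : 0 < M) {μ Y : M2} (hμ : IsInt ((M : ℚ) • μ)) (h : cls M μ Y ≠ 0) :
    IsInt (Y.det - μ.det) := by
  have hM' : (M : ℚ) ≠ 0 := by exact_mod_cast hM.ne'
  have h1 : IsInt ((M : ℚ)⁻¹ • (Y - μ)) := by
    by_contra e
    exact h (if_neg e)
  have h2 := isInt_bil hμ h1
  have h3 := isInt_det (h1.nsmul M)
  rw [bil_smul, mul_inv_cancel₀ hM', one_mul] at h2
  rw [smul_smul, mul_inv_cancel₀ hM', one_smul] at h3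
  have h4 := det_add_bil μ (Y - μ)
  rw [add_sub_cancel] at h4
  have h5 : Y.det - μ.det = bil μ (Y - μ) + (Y - μ).det := by linarith
  rw [h5]
  exact h2.add h3

/-- the components of the vector valued form -/
def cc (s : ℍ → ℍ → ℂ) (M J : ℕ) (R : Finset M2) (i : (R × ZMod (2 * J * M ^ 2)) × R) (x : ℚ) : ℂ :=
  aS s (x + J / M ^ 2 * (i.1.2.val / (2 * J : ℕ)) ^ 2) (2 * (J / M ^ 2) * (i.1.2.val / (2 * J : ℕ)))
    (J / M ^ 2) (ten M i.1.1.1 i.2.1)

theorem cc_law (hH : S_H) (hs : InW s) (hM : 0 < M) {J : ℕ} (hJ : 0 < J) [NeZero (2 * J * M ^ 2)]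
    {R : Finset M2} (hR : Reps M R) : (∀ i, Conv (cc s M J R i)) ∧ ∀ τ : ℍ,
      ∑ i, ‖qs (cc s M J R i) (ModularGroup.S • τ)‖ ^ 2 =
        ‖(τ : ℂ)‖ ^ 3 * ∑ i, ‖qs (cc s M J R i) τ‖ ^ 2 := by
  classical
  obtain ⟨N, hN, hl⟩ := hs.1
  have hd : (0 : ℚ) < J / M ^ 2 := by positivity
  obtain ⟨Ry, c, -, h1, h2⟩ := aS_red hN hM hd
  have hu : ∀ y ∈ Ry, Rec fun τ => s τ (actH y τ) := fun y hy =>
    hs.2 y (by rw [h1 y hy]; exact hd)
  have h3 : ∀ i, cc s M J R i = fun x => ∑ y ∈ Ry, (c * cls M i.2.1 y.1) *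
      cy M J R (fun τ => s τ (actH y τ)) y i.1 x := fun i => by
    funext x
    rw [cc, h2 s hl _ (lev_ten hM (hR.1 _ i.1.1.2) (hR.1 _ i.2.2)), Finset.mul_sum]
    refine Finset.sum_congr rfl fun y _ => ?_
    rw [mul_assoc (c : ℂ) _ _, cy, ← gam_smul (cls M i.2.1 y.1)]
    congr 2
    · funext Y
      have e : 2 * (J / M ^ 2 : ℚ) * (i.1.2.val / (2 * J : ℕ)) / (2 * (J / M ^ 2)) =
          i.1.2.val / (2 * J : ℕ) := mul_div_cancel_left₀ _ (by positivity)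
      rw [e]
      exact mul_comm _ _
    · field_simp
      ring
  have h4 := fun i : (R × ZMod (2 * J * M ^ 2)) × R => qs_lin Ry (fun y => c * cls M i.2.1 y.1)
    (fun y => cy M J R (fun τ => s τ (actH y τ)) y i.1) fun y hy =>
      cy_conv hH hM hJ R (hu y hy) y i.1
  refine ⟨fun i => by rw [h3]; exact (h4 i).1, fun τ => ?_⟩
  rw [Fintype.sum_prod_type_right, Fintype.sum_prod_type_right, Finset.mul_sum]
  refine Finset.sum_congr rfl fun μ _ => ?_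
  have h5 := Law.sum (V := VV M (2 * J * M ^ 2) R) (κ := (Real.sqrt (2 * J * M ^ 2 : ℕ))⁻¹) Ry
    (fun y => c * cls M μ.1 y.1) (fun y i => qs (cy M J R (fun τ => s τ (actH y τ)) y i))
    fun y hy h0 => cy_law hH hM hJ hR (hu y hy) y (h1 y hy)
      ((lev_cls hM (hR.1 _ μ.2)).2 _ (right_ne_zero_of_mul h0))
  have h6 := h5.norm (VV_orth hM hR) τ
  have hQ : (0 : ℝ) < (2 * J * M ^ 2 : ℕ) := by positivity
  rw [inv_pow, Real.sq_sqrt hQ.le, inv_mul_cancel₀ hQ.ne', one_mul] at h6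
  simp only [h3, fun i τ => (h4 (i, μ)).2 τ]
  exact h6

theorem vec_step (hH : S_H) (hV : S_Vec) : ∃ C0 : ℝ, 0 ≤ C0 ∧ ∀ s, InW s → ∀ M : ℕ, 0 < M →
    ∀ R, Reps M R → ∀ J : ℕ, 0 < J → ∀ L : ℝ, 0 ≤ L →
    (∀ n r : ℚ, 4 * n * (J / M ^ 2) - r ^ 2 ≤ J / M ^ 2 → Good s M L n r (J / M ^ 2)) →
    ∀ n r : ℚ, Good s M (R.card ^ 2 * (C0 * (R.card ^ 2 * (2 * J * M ^ 2)) * L *
      (1 + 4 * J * M ^ 2) *
      (1 + |(((4 * n * (J / M ^ 2) - r ^ 2) / (4 * (J / M ^ 2)) : ℚ) : ℝ)|))) n r (J / M ^ 2) := by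
  obtain ⟨C0, hV⟩ := hV
  refine ⟨|C0|, abs_nonneg _, fun s hs M hM R hR J hJ L hL hG n r => ?_⟩
  have : NeZero (2 * J * M ^ 2) := ⟨by positivity⟩
  have hM' : (0 : ℚ) < M := by exact_mod_cast hM
  have hJ' : (0 : ℚ) < J := by exact_mod_cast hJ
  obtain ⟨h1, h2⟩ := cc_law hH hs hM hJ hR
  have hlev := fun i : (R × ZMod (2 * J * M ^ 2)) × R =>
    lev_ten hM (hR.1 _ i.1.1.2) (hR.1 _ i.2.2)
  have h3 := hV _ (cc s M J R) (1 / (4 * J * M ^ 2)) L (by positivity) hL h1 (fun i m h0 => ?_)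
    (fun i m m' h0 h0' => ?_) h2 fun i m hm => ?_
  · refine good_of_adm (by positivity) fun ha => ?_
    obtain ⟨-, -, -, ⟨b, hb⟩, -⟩ := ha
    obtain ⟨k, hk⟩ : ((2 * J * M ^ 2 : ℕ) : ℤ) ∣ b - (b : ZMod (2 * J * M ^ 2)).val := by
      rw [← ZMod.intCast_eq_intCast_iff_dvd_sub]
      simp
    set t : ZMod (2 * J * M ^ 2) := (b : ZMod (2 * J * M ^ 2))
    set x : ℚ := (4 * n * (J / M ^ 2) - r ^ 2) / (4 * (J / M ^ 2)) with hx
    have h4 := (good_of_cls (E := |C0| * (R.card ^ 2 * (2 * J * M ^ 2)) * L * (1 + 4 * J * M ^ 2) *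
      (1 + |(x : ℝ)|)) (n := x + J / M ^ 2 * (t.val / (2 * J : ℕ)) ^ 2)
      (r := 2 * (J / M ^ 2) * (t.val / (2 * J : ℕ))) (j := J / M ^ 2) hs.hasLevS hM hR
      fun μ hμ ν hν => ?_).shift (M ^ 2 * k)
    · have hr : r = (t.val + 2 * J * M ^ 2 * k) / M ^ 2 := by
        have e : (b : ℚ) - t.val = 2 * J * M ^ 2 * k := by exact_mod_cast hk
        rw [eq_div_iff (by positivity)]
        linarith
      convert h4 using 1
      · rw [hx, hr]
        push_cast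
        field_simp
        ring
      · rw [hr]
        push_cast
        field_simp
    · refine (h3 ((⟨μ, hμ⟩, t), ⟨ν, hν⟩) x).trans ?_
      have e1 : Real.sqrt (Fintype.card ((R × ZMod (2 * J * M ^ 2)) × R)) ≤
          R.card ^ 2 * (2 * J * M ^ 2) := by
        have e2 : (Fintype.card ((R × ZMod (2 * J * M ^ 2)) × R) : ℝ) =
            R.card ^ 2 * (2 * J * M ^ 2) := by
          simp only [Fintype.card_prod, Fintype.card_coe, ZMod.card]
          push_cast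
          ring
        rw [← e2]
        refine Real.sqrt_le_self_iff.2 (Or.inr ?_)
        have : Nonempty ((R × ZMod (2 * J * M ^ 2)) × R) := ⟨((⟨μ, hμ⟩, t), ⟨ν, hν⟩)⟩
        exact_mod_cast Fintype.card_pos
      have e3 : (1 + 1 / ((1 / (4 * J * M ^ 2) : ℚ) : ℝ)) = 1 + 4 * J * M ^ 2 := by
        push_cast
        rw [one_div_one_div]
      rw [e3]
      gcongr
      exact le_abs_self _
  · obtain ⟨-, e2, ⟨a, ha⟩, ⟨b, hb⟩, -⟩ := adm_of_ne (hlev i) h0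
    have e3 : 4 * J * M ^ 2 * m = ((4 * a * J - b ^ 2 : ℤ) : ℚ) := by
      push_cast
      rw [← ha, ← hb]
      field_simp
      ring
    have e4 : 0 < m := by
      by_contra e
      have e5 : (0 : ℚ) < J / M ^ 2 := by positivity
      nlinarith [mul_nonneg e5.le (neg_nonneg.2 (not_lt.1 e))]
    have e5 : (0 : ℚ) < ((4 * a * J - b ^ 2 : ℤ) : ℚ) := by rw [← e3]; positivity
    have e6 : (1 : ℚ) ≤ ((4 * a * J - b ^ 2 : ℤ) : ℚ) := by
      have : 0 < 4 * a * J - b ^ 2 := by exact_mod_cast e5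
      exact_mod_cast this
    rw [div_le_iff₀ (by positivity)]
    linarith
  · obtain ⟨-, -, Y, Z, e1, -, -, e2⟩ := aS_supp h0
    obtain ⟨-, -, Y', Z', e1', -, -, e2'⟩ := aS_supp h0'
    have e3 := (det_cls hM (hR.1 _ i.1.1.2) (left_ne_zero_of_mul e2)).sub
      (det_cls hM (hR.1 _ i.1.1.2) (left_ne_zero_of_mul e2'))
    rw [e1, e1'] at e3
    convert e3 using 1
    ring
  · refine (hG _ _ ?_ _ (hlev i) 1 (norm_ten _ _)).trans (mul_one _).le
    have e5 : (0 : ℚ) < J / M ^ 2 := by positivity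
    nlinarith

theorem arith {ρ C0 C M J D : ℝ} (hρ : 0 ≤ ρ) (h0 : 0 ≤ C0) (hC : 0 ≤ C) (hM : 1 ≤ M) (hJ : 1 ≤ J)
    (hD : (56 * ρ ^ 4 * C0 * M ^ 8) ^ 2 + 1 ≤ D) (hj : (J / M ^ 2) ^ 2 ≤ D) :
    ρ ^ 2 * (C0 * (ρ ^ 2 * (2 * J * M ^ 2)) * (C * (1 + J / M ^ 2) ^ 4) * (1 + 4 * J * M ^ 2) *
      (1 + D / (4 * (J / M ^ 2)))) ≤ C * (1 + D) ^ 4 := by
  obtain ⟨j, rfl⟩ : ∃ j, J = j * M ^ 2 := ⟨J / M ^ 2, by field_simp⟩
  have hM0 : 0 < M := by linarith
  rw [mul_div_cancel_right₀ _ (by positivity)] at hj ⊢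
  set A := 56 * ρ ^ 4 * C0 * M ^ 8 with hA
  have hA0 : 0 ≤ A := by positivity
  have hj0 : 0 < j := by
    by_contra e
    nlinarith [mul_nonneg (neg_nonneg.2 (not_lt.1 e)) (sq_nonneg M)]
  have hD1 : 1 ≤ D := by nlinarith [sq_nonneg A]
  have hM2 : 1 ≤ M ^ 2 := one_le_pow₀ hM
  have hM4 : M ^ 2 ≤ M ^ 4 := pow_le_pow_right₀ hM (by norm_num)
  have hjD : j ≤ D := by nlinarith
  have h1 : (1 + j) ^ 4 ≤ 4 * (1 + D) ^ 2 := by
    have e : (1 + j) ^ 2 ≤ 2 * (1 + D) := by nlinarith [sq_nonneg (1 - j)]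
    calc (1 + j) ^ 4 = ((1 + j) ^ 2) ^ 2 := by ring
      _ ≤ (2 * (1 + D)) ^ 2 := by gcongr
      _ = 4 * (1 + D) ^ 2 := by ring
  have h2 : (1 + 4 * (j * M ^ 2) * M ^ 2) * (1 + D / (4 * j)) ≤ 7 * M ^ 4 * D := by
    have e1 : D / (4 * j) ≤ M ^ 4 * D := by
      rw [div_le_iff₀ (by positivity)]
      have : 1 ≤ j * M ^ 4 := hJ.trans (by gcongr)
      nlinarith
    have e2 : (1 + 4 * (j * M ^ 2) * M ^ 2) * (1 + D / (4 * j)) =
        1 + 4 * j * M ^ 4 + D / (4 * j) + M ^ 4 * D := by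
      field_simp
      ring
    have e3 : j * M ^ 4 ≤ D * M ^ 4 := by gcongr
    have e4 : 1 ≤ M ^ 4 * D := by nlinarith
    rw [e2]
    linarith
  have h3 : A * j ≤ D := by
    refine abs_le_of_sq_le_sq' ?_ (by linarith) |>.2
    have e : A ^ 2 ≤ D := by linarith
    calc (A * j) ^ 2 = A ^ 2 * j ^ 2 := by ring
      _ ≤ D * D := by gcongr
      _ = D ^ 2 := by ring
  calc _ = ρ ^ 4 * C0 * (2 * j * M ^ 4) * C * (1 + j) ^ 4 *
        ((1 + 4 * (j * M ^ 2) * M ^ 2) * (1 + D / (4 * j))) := by ring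
    _ ≤ ρ ^ 4 * C0 * (2 * j * M ^ 4) * C * (4 * (1 + D) ^ 2) * (7 * M ^ 4 * D) := by gcongr
    _ = C * ((1 + D) ^ 2 * (A * j * D)) := by rw [hA]; ring
    _ ≤ C * ((1 + D) ^ 2 * ((1 + D) * (1 + D))) := by gcongr <;> linarith
    _ = C * (1 + D) ^ 4 := by ring

end PolyP

open PolyP in
theorem poly (hH : S_H) (hV : S_Vec) : S_PolyW := by
  intro s hs M hM
  obtain ⟨C0, h0, hvec⟩ := vec_step hH hV
  obtain ⟨R, hR⟩ := exists_reps hM
  obtain ⟨C, hC, hfin⟩ := exists_fin hs.hasLevS hM ((56 * (R.card : ℝ) ^ 4 * C0 * M ^ 8) ^ 2 + 1)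
  have hM' : (0 : ℚ) < M := by exact_mod_cast hM
  have hM1 : (1 : ℝ) ≤ M := by exact_mod_cast hM
  suffices H : ∀ (k : ℕ) (n r j : ℚ), M ^ 4 * (4 * n * j - r ^ 2) ≤ k →
      Good s M (C * (1 + |((4 * n * j - r ^ 2 : ℚ) : ℝ)|) ^ 4) n r j by
    refine ⟨C, fun φ hφ B hB n r j => ?_⟩
    obtain ⟨k, hk⟩ := exists_nat_ge ((M : ℚ) ^ 4 * (4 * n * j - r ^ 2))
    exact (H k n r j hk φ hφ B hB).trans (le_of_eq (by ring))
  intro k
  induction k using Nat.strong_induction_on with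
  | _ k ih =>
    intro n r j hk
    generalize hD : 4 * n * j - r ^ 2 = D at hk
    refine good_of_red hM (by positivity) (fun n r j ha hD hr hj => ?_) n r j hD
    rcases le_or_gt (D : ℝ) ((56 * (R.card : ℝ) ^ 4 * C0 * M ^ 8) ^ 2 + 1) with h1 | h1
    · refine (hfin n r j ha (hD ▸ h1) hr hj).mono (le_mul_of_one_le_right hC ?_)
      exact one_le_pow₀ (le_add_of_nonneg_right (abs_nonneg _))
    · obtain ⟨J, hJ, rfl⟩ := ha.nat hM
      have hj0 := ha.1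
      have hr2 : r ^ 2 ≤ (J / M ^ 2 : ℚ) ^ 2 := sq_le_sq' (abs_le.1 hr).1 (abs_le.1 hr).2
      have hjD : 3 * (J / M ^ 2 : ℚ) ^ 2 ≤ D := by nlinarith
      have hD1 : (1 : ℚ) < D := by
        have : (1 : ℝ) < D := lt_of_le_of_lt (le_add_of_nonneg_left (sq_nonneg _)) h1
        exact_mod_cast this
      have hlt : M ^ 2 * J < k := by
        have e1 : (J / M ^ 2 : ℚ) < D := by nlinarith
        have e2 : (M : ℚ) ^ 2 * J < k := by
          calc (M : ℚ) ^ 2 * J = M ^ 4 * (J / M ^ 2) := by field_simp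
            _ < M ^ 4 * D := by gcongr
            _ ≤ k := hk
        exact_mod_cast e2
      have h2 := hvec s hs M hM R hR J hJ (C * (1 + (J : ℝ) / M ^ 2) ^ 4) (by positivity)
        (fun n' r' h' => good_of_adm (by positivity) fun ha' => ?_) n r
      · refine h2.mono ?_
        have hD0 : (0 : ℝ) < D := by
          have : (0 : ℚ) < D := by linarith
          exact_mod_cast this
        have e1 : (((D / (4 * (J / M ^ 2)) : ℚ)) : ℝ) = D / (4 * (J / M ^ 2)) := by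
          push_cast
          rfl
        rw [hD, e1, abs_of_pos hD0, abs_of_nonneg (by positivity)]
        refine arith (by positivity) h0 hC hM1 (by exact_mod_cast hJ) h1.le ?_
        have e2 : (J / M ^ 2 : ℚ) ^ 2 ≤ D := by nlinarith
        have e3 := (Rat.cast_le (K := ℝ)).2 e2
        push_cast at e3
        exact e3
      · refine (ih _ hlt n' r' _ ?_).mono ?_
        · calc (M : ℚ) ^ 4 * (4 * n' * (J / M ^ 2) - r' ^ 2) ≤ (M : ℚ) ^ 4 * ((J : ℚ) / M ^ 2) := by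
                gcongr
            _ = ((M ^ 2 * J : ℕ) : ℚ) := by
              push_cast
              field_simp
        · have e1 : (0 : ℚ) < 4 * n' * (J / M ^ 2) - r' ^ 2 := sub_pos.2 ha'.2.1
          have e2 : |((4 * n' * (J / M ^ 2) - r' ^ 2 : ℚ) : ℝ)| ≤ (J : ℝ) / M ^ 2 := by
            rw [abs_of_pos (Rat.cast_pos.2 e1)]
            exact ((Rat.cast_le (K := ℝ)).2 h').trans (le_of_eq (by push_cast; rfl))
          gcongr

open PolyP in
theorem aaB (hP : S_PolyW) : S_AAW := by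
  intro s hs d M hd hM v hv
  obtain ⟨C, hC⟩ := hP s hs M hM
  obtain ⟨B, hB0, hB⟩ := ((hv.lev hd hM).sb hM).bdd
  have hd1 : (1 : ℝ) ≤ d := by exact_mod_cast hd
  have key : ∀ (x' x : Q2) (n r j : ℚ), ‖aS s n r j fun y' y => v (y', x') (y, x)‖ ≤
      |C| * B * (1 + |((4 * n * j - r ^ 2 : ℚ) : ℝ)|) ^ 4 := fun x' x n r j => by
    refine (hC _ (lev_slice hd hM hv x' x) B (fun Y Z => hB ((Y, x'), (Z, x))) n r j).trans ?_
    gcongr
    exact le_abs_self _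
  refine ⟨|C| * B * (4 * d) ^ 4 + 2 * M ^ 2 * (|C| * B * 4 ^ 4), by positivity,
    fun x' x => ?_, fun x m l => ?_⟩
  · refine (key x' x _ _ _).trans ?_
    rw [disc_Nm]
    set t : ℝ := |((det2 (x', x) : ℚ) : ℝ)| with ht
    have ht0 : 0 ≤ t := abs_nonneg _
    have e1 : |((4 * d * det2 (x', x) ^ 2 : ℚ) : ℝ)| = 4 * d * t ^ 2 := by
      rw [ht, sq_abs]
      push_cast
      exact abs_of_nonneg (by positivity)
    have e2 : 1 + 4 * d * t ^ 2 ≤ 4 * d * (1 + t) ^ 2 := by nlinarith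
    rw [e1]
    calc _ ≤ |C| * B * (4 * d * (1 + t) ^ 2) ^ 4 := by gcongr
      _ = |C| * B * (4 * d) ^ 4 * (1 + t) ^ 8 := by ring
      _ ≤ _ := by
        gcongr
        exact le_add_of_nonneg_right (by positivity)
  · have hN : (0 : ℝ) ≤ ((Nm d x : ℚ) : ℝ) := by exact_mod_cast Nm_nonneg d x
    by_cases h0 : ∀ a : ℚ, aS s (Nm d x * (m + a ^ 2)) (2 * Nm d x * a) (Nm d x)
        (fun y' y => v (y', a • x + l • perp d x) (y, x)) = 0
    · have e : aa s d v x m l = 0 := by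
        rw [aa, funext h0]
        exact II_zero
      rw [e, norm_zero]
      positivity
    · obtain ⟨a0, ha0⟩ := not_forall.1 h0
      obtain ⟨J, hJ, hJe⟩ := (adm_of_ne (lev_slice hd hM hv _ x) ha0).nat hM
      have hM' : (0 : ℚ) < M := by exact_mod_cast hM
      have h1 := norm_II_le' (aa_sb hs.hasLevS hd hM hv x m l) (K := 2 * J) (by positivity)
        (fun a ha => ?_) (C := |C| * B * 4 ^ 4 * (1 + ((Nm d x : ℚ) : ℝ) ^ 2 * |(m : ℝ)|) ^ 4)
        fun a => ?_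
      · refine h1.trans ?_
        have e : ((2 * J : ℕ) : ℝ) = 2 * M ^ 2 * ((Nm d x : ℚ) : ℝ) := by
          rw [hJe]
          push_cast
          field_simp
        rw [idx_rat, e]
        calc _ = 2 * M ^ 2 * (|C| * B * 4 ^ 4) * ((Nm d x : ℚ) : ℝ) *
              (1 + ((Nm d x : ℚ) : ℝ) ^ 2 * |(m : ℝ)|) ^ 4 := by ring
          _ ≤ _ := by
            gcongr
            exact le_add_of_nonneg_left (by positivity)
      · obtain ⟨-, -, -, ⟨b, hb⟩, -⟩ := adm_of_ne (lev_slice hd hM hv _ x) ha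
        refine (isInt_rat _).2 ⟨b, ?_⟩
        rw [← hb, hJe, smul_eq_mul]
        push_cast
        field_simp
      · refine (key _ x _ _ _).trans ?_
        have e1 : |((4 * (Nm d x * (m + a ^ 2)) * Nm d x - (2 * Nm d x * a) ^ 2 : ℚ) : ℝ)| =
            4 * (((Nm d x : ℚ) : ℝ) ^ 2 * |(m : ℝ)|) := by
          have e2 : ((4 * (Nm d x * (m + a ^ 2)) * Nm d x - (2 * Nm d x * a) ^ 2 : ℚ) : ℝ) =
              4 * ((Nm d x : ℚ) : ℝ) ^ 2 * m := by
            push_cast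
            ring
          rw [e2, abs_mul, abs_of_nonneg (by positivity), mul_assoc]
        rw [e1]
        calc _ ≤ |C| * B * (4 * (1 + ((Nm d x : ℚ) : ℝ) ^ 2 * |(m : ℝ)|)) ^ 4 := by
              gcongr
              linarith
          _ = _ := by ring

end

end Pool.Agent.P.MP_b8021b_nt.CM
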