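import Pool.Agent.P.MP_7ebcb6_ag.FF2

/-! A finite group acting on a curve field with fixed field inside `ℂ(J)`: places over a point. -/

namespace Pool.Agent.P.MP_b8021b_nt.CM

open scoped WithZero IntermediateField Polynomial
open WithZero Pool.Agent.P.MP_7ebcb6_ag

namespace R0P

variable {K : Type} [Field K] [Algebra ℂ K]

theorem place_const {v : Valuation K ℤᵐ⁰} (hv : IsPlace v) {c : ℂ}
    (h : v (algebraMap ℂ K c) < 1) : c = 0 := by
  by_contra hc
  rw [hv.2 c hc] at h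
  exact lt_irrefl _ h

theorem res_unique {v : Valuation K ℤᵐ⁰} (hv : IsPlace v) {x : K} {a b : ℂ}
    (ha : v (x - algebraMap ℂ K a) < 1) (hb : v (x - algebraMap ℂ K b) < 1) : a = b := by
  have h := Valuation.map_sub_lt v hb ha
  rw [sub_sub_sub_cancel_left, ← map_sub] at h
  exact sub_eq_zero.1 (place_const hv h)

theorem le_one_of_res {v : Valuation K ℤᵐ⁰} (hv : IsPlace v) {x : K} {a : ℂ}
    (ha : v (x - algebraMap ℂ K a) < 1) : v x ≤ 1 := by
  have := Valuation.map_add_le v ha.le (hv.const_le_one a)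
  rwa [sub_add_cancel] at this

theorem aeval_le_one {v : Valuation K ℤᵐ⁰} (hv : IsPlace v) {x : K} (hx : v x ≤ 1) (P : ℂ[X]) :
    v (Polynomial.aeval x P) ≤ 1 := by
  induction P using Polynomial.induction_on' with
  | add P Q hP hQ => rw [map_add]; exact Valuation.map_add_le v hP hQ
  | monomial n a =>
    rw [Polynomial.aeval_monomial, map_mul, map_pow]
    exact mul_le_one' (hv.const_le_one a) (pow_le_one' hx n)

theorem val_aeval (J : K) (c : ℂ) {P : ℂ[X]} (hP : P ≠ 0) : ∃ m : ℕ, ∀ w : Valuation K ℤᵐ⁰,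
    IsPlace w → w (J - algebraMap ℂ K c) < 1 →
      w (Polynomial.aeval J P) = w (J - algebraMap ℂ K c) ^ m := by
  obtain ⟨Q, hQ, hnd⟩ := Polynomial.exists_eq_pow_rootMultiplicity_mul_and_not_dvd P hP c
  refine ⟨P.rootMultiplicity c, fun w hw hJ => ?_⟩
  have h1 : w (Polynomial.aeval J Q) = 1 := by
    obtain ⟨Q2, hQ2⟩ := Polynomial.X_sub_C_dvd_sub_C_eval (p := Q) (a := c)
    have hc : Q.eval c ≠ 0 := fun h => hnd (Polynomial.dvd_iff_isRoot.2 h)
    have e : Polynomial.aeval J Q = algebraMap ℂ K (Q.eval c) +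
        (J - algebraMap ℂ K c) * Polynomial.aeval J Q2 := by
      have := congrArg (Polynomial.aeval J) hQ2
      simp only [map_sub, map_mul, Polynomial.aeval_X, Polynomial.aeval_C] at this
      linear_combination this
    rw [e, Valuation.map_add_eq_of_lt_left, hw.2 _ hc]
    rw [hw.2 _ hc, map_mul]
    exact mul_lt_one_of_lt_of_le hJ (aeval_le_one hw (le_one_of_res hw hJ) Q2)
  conv_lhs => rw [hQ]
  simp only [map_mul, map_pow, map_sub, Polynomial.aeval_X, Polynomial.aeval_C, h1, mul_one]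

theorem val_adjoin {J : K} (hJ : Transcendental ℂ J) (c : ℂ) {x : K} (hx : x ∈ ℂ⟮J⟯)
    {v w : Valuation K ℤᵐ⁰} (hv : IsPlace v) (hw : IsPlace w)
    (hvJ : v (J - algebraMap ℂ K c) < 1) (hwJ : w (J - algebraMap ℂ K c) < 1) (h : v x = 1) :
    w x = 1 := by
  obtain ⟨P, R, rfl⟩ := (IntermediateField.mem_adjoin_simple_iff ℂ x).1 hx
  have hP : P ≠ 0 := by
    rintro rfl
    simp at h
  have hR : R ≠ 0 := by
    rintro rfl
    simp at h
  obtain ⟨m, hm⟩ := val_aeval J c hP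
  obtain ⟨n, hn⟩ := val_aeval J c hR
  have hne : J - algebraMap ℂ K c ≠ 0 := fun e =>
    hJ (by rw [sub_eq_zero.1 e]; exact isAlgebraic_algebraMap c)
  have hv0 : v (J - algebraMap ℂ K c) ≠ 0 := by simpa using hne
  have hw0 : w (J - algebraMap ℂ K c) ≠ 0 := by simpa using hne
  rw [map_div₀, hm v hv hvJ, hn v hv hvJ, div_eq_one_iff_eq (pow_ne_zero _ hv0)] at h
  have hmn : m = n := pow_right_injective₀ (zero_lt_iff.2 hv0) hvJ.ne h
  rw [map_div₀, hm w hw hwJ, hn w hw hwJ, hmn, div_self (pow_ne_zero _ hw0)]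

/-- The pull-back of a valuation along an automorphism. -/
def pull (v : Valuation K ℤᵐ⁰) (σ : K ≃ₐ[ℂ] K) : Valuation K ℤᵐ⁰ := v.comap (σ : K →+* K)

theorem pull_apply (v : Valuation K ℤᵐ⁰) (σ : K ≃ₐ[ℂ] K) (x : K) : pull v σ x = v (σ x) := rfl

theorem pull_mul (v : Valuation K ℤᵐ⁰) (σ τ : K ≃ₐ[ℂ] K) :
    pull v (σ * τ) = pull (pull v σ) τ := by
  ext x
  rfl

theorem pull_one (v : Valuation K ℤᵐ⁰) : pull v 1 = v := by
  ext x
  rfl

theorem ord_pull (v : Valuation K ℤᵐ⁰) (σ : K ≃ₐ[ℂ] K) (x : K) :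
    ord (pull v σ) x = ord v (σ x) := rfl

theorem place_pull {v : Valuation K ℤᵐ⁰} (hv : IsPlace v) (σ : K ≃ₐ[ℂ] K) :
    IsPlace (pull v σ) := by
  refine ⟨fun y => ?_, fun c hc => ?_⟩
  · obtain ⟨x, hx⟩ := hv.1 y
    exact ⟨σ.symm x, by rw [pull_apply, AlgEquiv.apply_symm_apply, hx]⟩
  · rw [pull_apply, AlgEquiv.commutes, hv.2 c hc]

/-- A valuation that is equivalent to a place is a positive multiple of it. -/
theorem exists_mult {V w : Valuation K ℤᵐ⁰} (hw : IsPlace w) (h : w.IsEquiv V) :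
    ∃ c : ℤ, 0 < c ∧ ∀ x, x ≠ 0 → ord V x = c * ord w x := by
  obtain ⟨π, hπ⟩ := hw.1 (exp (-1))
  have hπ0 : π ≠ 0 := by
    rintro rfl
    simp at hπ
    exact exp_ne_zero hπ.symm
  have h1 : V π < 1 := by
    rw [← h.lt_one_iff_lt_one, hπ, ← exp_zero, exp_lt_exp]; norm_num
  refine ⟨ord V π, ord_pos_of_lt_one hπ0 h1, fun x hx => ?_⟩
  have hne : w x ≠ 0 := by simpa using hx
  have hV : V x ≠ 0 := by simpa using hx
  have hVπ : V π ≠ 0 := by simpa using hπ0
  have h2 : w (x * π ^ log (w x)) = 1 := by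
    rw [map_mul, map_zpow₀, hπ, ← exp_zsmul]
    nth_rewrite 1 [← exp_log hne]
    rw [← exp_add]
    simp
  have h3 : V (x * π ^ log (w x)) = 1 := h.eq_one_iff_eq_one.mp h2
  rw [map_mul, map_zpow₀, ← exp_log hV, ← exp_log hVπ, ← exp_zsmul, ← exp_add, ← exp_zero,
    exp_inj] at h3
  simp only [ord, smul_eq_mul] at h3 ⊢
  linarith

variable {Q : Type} [Group Q] [Fintype Q] (θ : Q →* (K ≃ₐ[ℂ] K)) {J : K}

theorem curve (hJ : Transcendental ℂ J) (hK : ∀ x, (∀ q, θ q x = x) → x ∈ ℂ⟮J⟯) :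
    IsCurveField K := by
  let _ : MulSemiringAction Q K := MulSemiringAction.compHom K θ
  refine ⟨J, hJ, ?_⟩
  have hfin : FiniteDimensional (FixedPoints.subfield Q K) K := inferInstance
  obtain ⟨s, hs⟩ := hfin.fg_top
  refine ⟨s, ?_⟩
  rw [eq_top_iff]
  intro x _
  have hx : x ∈ Submodule.span (FixedPoints.subfield Q K) (s : Set K) := by rw [hs]; trivial
  induction hx using Submodule.span_induction with
  | mem y hy => exact Submodule.subset_span hy
  | zero => exact zero_mem _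
  | add y z _ _ hy hz => exact add_mem (hy trivial) (hz trivial)
  | smul a y _ hy =>
    exact Submodule.smul_mem _ (⟨a.1, hK a.1 fun q => a.2 q⟩ : ℂ⟮J⟯) (hy trivial)

omit [Fintype Q] in
theorem pull_J (hfix : ∀ q, θ q J = J) (v : Valuation K ℤᵐ⁰) (q : Q) (c : ℂ) :
    pull v (θ q) (J - algebraMap ℂ K c) = v (J - algebraMap ℂ K c) := by
  rw [pull_apply, map_sub, hfix, AlgEquiv.commutes]

theorem sub_transc (hJ : Transcendental ℂ J) (c : ℂ) :
    Transcendental ℂ (J - algebraMap ℂ K c) := fun h => by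
  have h2 := h.add (isAlgebraic_algebraMap (A := K) c)
  rw [sub_add_cancel] at h2
  exact hJ h2

theorem transitive (hJ : Transcendental ℂ J) (hfix : ∀ q, θ q J = J)
    (hK : ∀ x, (∀ q, θ q x = x) → x ∈ ℂ⟮J⟯) {c : ℂ} {v w : Valuation K ℤᵐ⁰} (hv : IsPlace v)
    (hw : IsPlace w) (hvJ : v (J - algebraMap ℂ K c) < 1) (hwJ : w (J - algebraMap ℂ K c) < 1) :
    ∃ q, w = pull v (θ q) := by
  classical
  by_contra hcon
  push Not at hcon
  have hC := curve θ hJ hK
  obtain ⟨S, hS, -⟩ := hC.sum_ord_zeros (sub_transc hJ c)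
  obtain ⟨g, hg1, hg2⟩ := hC.exists_approx S (fun u hu => ((hS u).1 hu).1) w ((hS w).2 ⟨hw, hwJ⟩)
  have hlt : w g < 1 := by rw [hg1, ← exp_zero, exp_lt_exp]; norm_num
  have hN : ∏ q, θ q g ∈ ℂ⟮J⟯ := by
    refine hK _ fun r => ?_
    rw [map_prod]
    refine Fintype.prod_equiv (Equiv.mulLeft r) _ _ fun q => ?_
    rw [Equiv.coe_mulLeft, map_mul, AlgEquiv.mul_apply]
  have h1 : v (∏ q, θ q g) = 1 := by
    rw [map_prod]
    refine Finset.prod_eq_one fun q _ => ?_
    exact hg2 (pull v (θ q)) ((hS _).2 ⟨place_pull hv _, by rwa [pull_J θ hfix]⟩) (hcon q).symm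
  have h2 := val_adjoin hJ c hN hv hw hvJ hwJ h1
  rw [map_prod, ← Finset.mul_prod_erase _ _ (Finset.mem_univ (1 : Q)), map_one,
    AlgEquiv.one_apply] at h2
  refine absurd h2 (mul_lt_one_of_lt_of_le hlt (Finset.prod_le_one' fun q _ => ?_)).ne
  by_cases e : pull w (θ q) = w
  · rw [← pull_apply, e]
    exact hlt.le
  · exact (hg2 (pull w (θ q)) ((hS _).2 ⟨place_pull hw _, by rwa [pull_J θ hfix]⟩) e).le

/-- The sum over the group of a function of the translates of a place. -/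
theorem count (hJ : Transcendental ℂ J) (hfix : ∀ q, θ q J = J)
    (hK : ∀ x, (∀ q, θ q x = x) → x ∈ ℂ⟮J⟯) {c : ℂ} {v : Valuation K ℤᵐ⁰} (hv : IsPlace v)
    (hvJ : v (J - algebraMap ℂ K c) < 1) (S : Finset (Valuation K ℤᵐ⁰))
    (hS : ∀ w, w ∈ S ↔ IsPlace w ∧ w (J - algebraMap ℂ K c) < 1) (F : Valuation K ℤᵐ⁰ → ℂ) :
    (Module.finrank ℂ⟮J⟯ K : ℂ) * ∑ q, F (pull v (θ q)) =
      (Fintype.card Q : ℂ) * (ord v (J - algebraMap ℂ K c) : ℂ) * ∑ w ∈ S, F w := by
  classical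
  have hmap : ∀ q ∈ (Finset.univ : Finset Q), pull v (θ q) ∈ S := fun q _ =>
    (hS _).2 ⟨place_pull hv _, by rwa [pull_J θ hfix]⟩
  set nf := (Finset.univ.filter fun q => pull v (θ q) = v).card with hnf
  have hfib : ∀ w ∈ S, (Finset.univ.filter fun q => pull v (θ q) = w).card = nf := by
    intro w hw
    obtain ⟨s, rfl⟩ := transitive θ hJ hfix hK hv ((hS w).1 hw).1 hvJ ((hS w).1 hw).2
    refine Finset.card_bij (fun q _ => q * s⁻¹) (fun q hq => ?_) (fun q _ q' _ e => ?_)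
      (fun q hq => ⟨q * s, ?_, by simp⟩)
    · simp only [Finset.mem_filter, Finset.mem_univ, true_and] at hq ⊢
      rw [map_mul, pull_mul, hq, ← pull_mul, ← map_mul, mul_inv_cancel, map_one, pull_one]
    · exact mul_right_cancel e
    · simp only [Finset.mem_filter, Finset.mem_univ, true_and] at hq ⊢
      rw [map_mul, pull_mul, hq]
  have key : ∀ G : Valuation K ℤᵐ⁰ → ℂ, ∑ q, G (pull v (θ q)) = nf * ∑ w ∈ S, G w := by
    intro G
    rw [← Finset.sum_fiberwise_of_maps_to hmap, Finset.mul_sum]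
    refine Finset.sum_congr rfl fun w hw => ?_
    rw [Finset.sum_congr rfl (g := fun _ => G w) fun q hq => by rw [(Finset.mem_filter.1 hq).2],
      Finset.sum_const, hfib w hw, nsmul_eq_mul]
  obtain ⟨S', hS', hsum⟩ := (curve θ hJ hK).sum_ord_zeros (sub_transc hJ c)
  have hSS : S' = S := Finset.ext fun w => by rw [hS, hS']
  have hadj : ℂ⟮J - algebraMap ℂ K c⟯ = ℂ⟮J⟯ := by
    apply le_antisymm <;> rw [IntermediateField.adjoin_simple_le_iff]
    · exact sub_mem (IntermediateField.mem_adjoin_simple_self ℂ J) (IntermediateField.algebraMap_mem _ c)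
    · have := add_mem (IntermediateField.mem_adjoin_simple_self ℂ (J - algebraMap ℂ K c))
        (IntermediateField.algebraMap_mem _ c)
      rwa [sub_add_cancel] at this
  rw [hSS, hadj] at hsum
  have h1 := key fun w => (ord w (J - algebraMap ℂ K c) : ℂ)
  have h2 : ∀ q, ord (pull v (θ q)) (J - algebraMap ℂ K c) = ord v (J - algebraMap ℂ K c) :=
    fun q => by simp only [ord, pull_J θ hfix]
  simp only [h2, Finset.sum_const, Finset.card_univ, nsmul_eq_mul] at h1
  rw [← Int.cast_sum, hsum] at h1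
  rw [key F, h1]
  push_cast
  ring

end R0P

end Pool.Agent.P.MP_b8021b_nt.CM
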