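import Pool.Agent.P.MP_b8021b_nt.CM.Lib
import Pool.Agent.P.MP_b8021b_nt.CM.R0a

/-! The function field of the modular curve, its places, and divisors of modular functions. -/

namespace Pool.Agent.P.MP_b8021b_nt.CM

open UpperHalfPlane hiding I
open CongruenceSubgroup WithZero Pool.Agent.P.MP_7ebcb6_ag
open scoped MatrixGroups WithZero IntermediateField Polynomial

noncomputable section

namespace R0P

/-! ### level one means -/

/-- The order of the stabiliser. -/
def stab (τ : ℍ) : ℕ := Nat.card {γ : SL // γ • τ = τ}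

theorem stab_ne (τ : ℍ) : stab τ ≠ 0 := by
  have : Finite {γ : SL // γ • τ = τ} := (finite_stab τ τ).to_subtype
  have : Nonempty {γ : SL // γ • τ = τ} := ⟨⟨1, one_smul _ _⟩⟩
  exact Nat.card_pos.ne'

theorem card_left (g : SL) (τ : ℍ) : Nat.card {γ : SL // γ • τ = g • τ} = stab τ :=
  Nat.card_congr ((Equiv.mulLeft g⁻¹).subtypeEquiv fun γ => by
    rw [Equiv.coe_mulLeft, mul_smul, inv_smul_eq_iff])

theorem card_right (g : SL) (τ : ℍ) : Nat.card {γ : SL // γ • τ = g • τ} = stab (g • τ) :=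
  Nat.card_congr ((Equiv.mulRight g⁻¹).subtypeEquiv fun γ => by
    rw [Equiv.coe_mulRight, mul_smul, inv_smul_smul])

theorem stab_smul (g : SL) (τ : ℍ) : stab (g • τ) = stab τ := by
  rw [← card_right, card_left]

theorem mean_one (hJ : S_J) (T : ℂ → ℂ) (Z : Finset ℂ) (hZ : ∀ c, T c ≠ 0 → c ∈ Z) :
    dmean actH G0 (fun τ => (stab τ : ℂ) * T (jj τ)) = ∑ c ∈ Z, T c := by
  classical
  obtain ⟨t, ht⟩ := hJ.2.1.hasRightInverse
  have hinv : ∀ (γ : SL) (τ : ℍ), jj (γ • τ) = jj τ := fun γ τ => ((hJ.1 _ _).2 ⟨γ, rfl⟩).symm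
  let β : ℍ → ℂ := fun x => if x = t (jj x) then (stab x : ℂ)⁻¹ else 0
  have hsupp : (Function.support fun x => β x * ((stab x : ℂ) * T (jj x))) ⊆
      (Z.image t : Finset ℍ) := by
    intro x hx
    rw [Function.mem_support] at hx
    have h1 : x = t (jj x) := by
      by_contra h
      exact hx (by simp [β, h])
    have h2 : T (jj x) ≠ 0 := fun h => hx (by simp [h])
    exact Finset.mem_coe.2 (Finset.mem_image.2 ⟨jj x, hZ _ h2, h1.symm⟩)
  have hadm : DAdm actH G0 G0 β fun τ => (stab τ : ℂ) * T (jj τ) := by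
    refine ⟨FI.refl _, ?_, fun x _ => ?_, (Finset.finite_toSet _).subset hsupp⟩
    · rintro _ ⟨γ, rfl⟩ x
      simp only [actH_iota, hinv, stab_smul]
    · obtain ⟨g, hg⟩ := (hJ.1 x (t (jj x))).1 (ht _).symm
      let E : SL ≃ G0 := (MonoidHom.ofInjective iota_injective).toEquiv
      have hE : ∀ γ : SL, β (actH (E γ) x) = if γ • x = g • x then (stab x : ℂ)⁻¹ else 0 := by
        intro γ
        have : actH (E γ) x = γ • x := actH_iota γ x
        simp only [β, this, hinv, stab_smul, hg]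
      have hfin := finite_stab x (g • x)
      have hs : (Function.support fun γ : SL => β (actH (E γ) x)) ⊆ hfin.toFinset := by
        intro γ hγ
        rw [Function.mem_support, hE] at hγ
        simp only [Set.Finite.coe_toFinset, Set.mem_ofPred_eq]
        by_contra h
        exact hγ (if_neg h)
      constructor
      · have h1 := ((Finset.finite_toSet _).subset hs).image E
        refine h1.subset fun γ hγ => ⟨E.symm γ, ?_, E.apply_symm_apply γ⟩
        rw [Function.mem_support, E.apply_symm_apply]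
        exact hγ
      · rw [← finsum_comp_equiv E, finsum_eq_sum_of_support_subset _ hs,
          Finset.sum_congr rfl (g := fun _ => (stab x : ℂ)⁻¹) fun γ hγ => by
            rw [hE, if_pos (by simpa using hγ)],
          Finset.sum_const, nsmul_eq_mul]
        have hc : hfin.toFinset.card = stab x := by
          rw [← card_left g x, ← Nat.card_eq_card_finite_toFinset hfin]
          rfl
        rw [hc, mul_inv_cancel₀ (by exact_mod_cast stab_ne x)]
  rw [dmean_eq hadm, Subgroup.relIndex_self, Nat.cast_one, div_one,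
    finsum_eq_sum_of_support_subset _ hsupp,
    Finset.sum_image fun a _ b _ e => by rw [← ht a, e, ht b]]
  refine Finset.sum_congr rfl fun c _ => ?_
  simp only [β, ht c, if_true]
  rw [← mul_assoc, inv_mul_cancel₀ (by exact_mod_cast stab_ne _), one_mul]

/-! ### the ring of modular functions -/

/-- The ring of modular functions of level `L`. -/
def OO (L : ℕ) : Subalgebra ℂ (ℍ → ℂ) where
  carrier := {f | InO L f}
  mul_mem' := InO.mul
  add_mem' := InO.add
  algebraMap_mem' c := inO_const L c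

variable {L : ℕ}

theorem OO.hol (a : OO L) : Hol a.1 := a.2.1.1

theorem OO.ne {a : OO L} (ha : a ≠ 0) : a.1 ≠ 0 := fun h => ha (Subtype.ext h)

instance domOO : IsDomain (OO L) := by
  have : NoZeroDivisors (OO L) := ⟨fun {a b} h => by
    rcases (OO.hol a).mul_eq_zero (OO.hol b) (congrArg Subtype.val h) with h | h
    · exact Or.inl (Subtype.ext h)
    · exact Or.inr (Subtype.ext h)⟩
  exact NoZeroDivisors.to_isDomain _

/-- Evaluation at a point. -/
def ev (L : ℕ) (τ : ℍ) : OO L →ₐ[ℂ] ℂ := (Pi.evalAlgHom ℂ (fun _ : ℍ => ℂ) τ).comp (OO L).val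

/-- Composition with a modular transformation. -/
def shift (L : ℕ) (γ : SL) : OO L →ₐ[ℂ] OO L where
  toFun f := ⟨fun τ => f.1 (γ • τ), InO.smulSL f.2 γ⟩
  map_one' := rfl
  map_mul' _ _ := rfl
  map_zero' := rfl
  map_add' _ _ := rfl
  commutes' _ := rfl

theorem shift_apply (γ : SL) (f : OO L) (τ : ℍ) : (shift L γ f).1 τ = f.1 (γ • τ) := rfl

/-- The action of the modular group. -/
def th0 (L : ℕ) : SL →* (OO L ≃ₐ[ℂ] OO L) where
  toFun γ := AlgEquiv.ofAlgHom (shift L γ⁻¹) (shift L γ)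
    (by ext f τ; simp [shift_apply]) (by ext f τ; simp [shift_apply])
  map_one' := by
    ext f τ
    change f.1 ((1 : SL)⁻¹ • τ) = f.1 τ
    simp
  map_mul' γ δ := by
    ext f τ
    change f.1 ((γ * δ)⁻¹ • τ) = f.1 (δ⁻¹ • γ⁻¹ • τ)
    rw [mul_inv_rev, mul_smul]

instance normalGamma : (Gamma L).Normal := Gamma_normal L

/-- The action of the finite quotient. -/
def th1 (L : ℕ) : SL ⧸ Gamma L →* (OO L ≃ₐ[ℂ] OO L) :=
  QuotientGroup.lift _ (th0 L) fun γ hγ => by
    ext f τ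
    exact f.2.2 γ⁻¹ (inv_mem hγ) τ

theorem th1_mk (γ : SL) (f : OO L) : (th1 L γ f).1 = fun τ => f.1 (γ⁻¹ • τ) := rfl

/-- The function field. -/
def KK (L : ℕ) : Type := FractionRing (OO L)

instance fieldKK : Field (KK L) := inferInstanceAs (Field (FractionRing (OO L)))

instance algKK : Algebra (OO L) (KK L) :=
  inferInstanceAs (Algebra (OO L) (FractionRing (OO L)))

instance fracKK : IsFractionRing (OO L) (KK L) :=
  inferInstanceAs (IsFractionRing (OO L) (FractionRing (OO L)))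

instance algCKK : Algebra ℂ (KK L) :=
  ((algebraMap (OO L) (KK L)).comp (algebraMap ℂ (OO L))).toAlgebra

instance towerKK : IsScalarTower ℂ (OO L) (KK L) := IsScalarTower.of_algebraMap_eq fun _ => rfl

theorem map_ne {a : OO L} (ha : a ≠ 0) : algebraMap _ (KK L) a ≠ 0 :=
  (map_ne_zero_iff _ (IsFractionRing.injective (OO L) (KK L))).2 ha

/-- The action on the function field. -/
def th (L : ℕ) : SL ⧸ Gamma L →* (KK L ≃ₐ[ℂ] KK L) :=
  (IsFractionRing.fieldEquivOfAlgEquivHom ℂ (KK L)).comp (th1 L)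

theorem th_map (q : SL ⧸ Gamma L) (a : OO L) :
    th L q (algebraMap _ (KK L) a) = algebraMap _ (KK L) (th1 L q a) :=
  IsFractionRing.fieldEquivOfAlgEquiv_algebraMap ℂ (KK L) (KK L) (th1 L q) a

/-- The modular invariant. -/
def JO (L : ℕ) : OO L := ⟨jj, inO_jj.mono (one_dvd L)⟩

/-- The modular invariant in the function field. -/
def JK (L : ℕ) : KK L := algebraMap _ (KK L) (JO L)

theorem aeval_JO (P : ℂ[X]) (τ : ℍ) : (Polynomial.aeval (JO L) P).1 τ = P.eval (jj τ) := by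
  have := Polynomial.aeval_algHom_apply (ev L τ) (JO L) P
  rw [Polynomial.coe_aeval_eq_eval] at this
  exact this.symm

theorem aeval_JK (P : ℂ[X]) :
    Polynomial.aeval (JK L) P = algebraMap _ (KK L) (Polynomial.aeval (JO L) P) :=
  Polynomial.aeval_algebraMap_apply _ _ _

theorem transc (hJ : S_J) : Transcendental ℂ (JK L) := by
  rintro ⟨P, hP, h⟩
  rw [aeval_JK, map_eq_zero_iff _ (IsFractionRing.injective (OO L) (KK L))] at h
  refine hP (Polynomial.funext fun c => ?_)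
  obtain ⟨τ, rfl⟩ := hJ.2.1 c
  rw [← aeval_JO (L := L), h]
  simp

theorem fix_JK (q : SL ⧸ Gamma L) : th L q (JK L) = JK L := by
  obtain ⟨γ, rfl⟩ := QuotientGroup.mk_surjective q
  have : th1 L γ (JO L) = JO L :=
    Subtype.ext (funext fun τ => inO_jj.2 γ⁻¹ (mem_Gamma_one _) τ)
  rw [JK, th_map, this]

theorem mem_of_fixed (h1 : S_L1) {a : OO L} (ha : ∀ q, th1 L q a = a) :
    algebraMap _ (KK L) a ∈ ℂ⟮JK L⟯ := by
  obtain ⟨P, hP, -⟩ := h1 a.1 ⟨a.2.1, fun γ _ τ => by
    have := congrFun (congrArg Subtype.val (ha (γ⁻¹ : SL))) τ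
    rwa [th1_mk, inv_inv] at this⟩
  have : a = Polynomial.aeval (JO L) P := by
    ext τ
    rw [aeval_JO, hP]
  rw [this, ← aeval_JK]
  exact (IntermediateField.mem_adjoin_simple_iff ℂ _).2 ⟨P, 1, by simp⟩

theorem fixed_field [Fintype (SL ⧸ Gamma L)] (h1 : S_L1) (x : KK L) (hx : ∀ q, th L q x = x) :
    x ∈ ℂ⟮JK L⟯ := by
  classical
  obtain ⟨a, b, hb, rfl⟩ := IsFractionRing.div_surjective (OO L) x
  have hinj := IsFractionRing.injective (OO L) (KK L)
  have hb0 : b ≠ 0 := nonZeroDivisors.ne_zero hb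
  have hN : ∀ r, th1 L r (∏ q, th1 L q b) = ∏ q, th1 L q b := fun r => by
    rw [map_prod]
    refine Fintype.prod_equiv (Equiv.mulLeft r) _ _ fun q => ?_
    rw [Equiv.coe_mulLeft, map_mul, AlgEquiv.mul_apply]
  set b' := ∏ q ∈ Finset.univ.erase 1, th1 L q b with hb'
  have hbb : ∏ q, th1 L q b = b * b' := by
    rw [← Finset.mul_prod_erase _ _ (Finset.mem_univ 1), map_one, AlgEquiv.one_apply]
  have hb'0 : b' ≠ 0 := Finset.prod_ne_zero_iff.2 fun q _ => by simpa using hb0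
  have e1 := map_ne hb0
  have e2 := map_ne hb'0
  have e3 : algebraMap _ (KK L) (a * b') = algebraMap _ (KK L) a / algebraMap _ (KK L) b *
      algebraMap _ (KK L) (∏ q, th1 L q b) := by
    rw [hbb, map_mul, map_mul]
    field_simp
  have h2 := mem_of_fixed h1 hN
  have h3 : algebraMap _ (KK L) (a * b') ∈ ℂ⟮JK L⟯ := mem_of_fixed h1 fun q => hinj (by
    rw [← th_map, e3, map_mul, hx, th_map, hN])
  have h4 := div_mem h3 h2
  rwa [e3, mul_div_cancel_right₀ _ (by rw [hbb, map_mul]; exact mul_ne_zero e1 e2)] at h4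

/-! ### the places attached to points -/

open Classical in
/-- The order of vanishing at a point as a valuation. -/
def V0 (L : ℕ) (τ : ℍ) : Valuation (OO L) ℤᵐ⁰ where
  toFun a := if a = 0 then 0 else exp (-(ordAt a.1 τ : ℤ))
  map_zero' := if_pos rfl
  map_one' := by
    rw [if_neg one_ne_zero,
      ((OO.hol (1 : OO L)).ord_eq_zero_iff (OO.ne one_ne_zero) τ).2 (one_ne_zero (α := ℂ))]
    simp
  map_mul' a b := by
    by_cases ha : a = 0
    · simp [ha]
    by_cases hb : b = 0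
    · simp [hb]
    rw [if_neg (mul_ne_zero ha hb), if_neg ha, if_neg hb, ← exp_add]
    have := (OO.hol a).ord_mul (OO.hol b) (OO.ne ha) (OO.ne hb) τ
    change exp (-(ordAt (a.1 * b.1) τ : ℤ)) = _
    rw [this]
    push_cast
    rw [neg_add]
  map_add_le_max' a b := by
    by_cases hab : a + b = 0
    · simp [hab]
    by_cases ha : a = 0
    · simp [ha]
    by_cases hb : b = 0
    · simp [hb]
    simp only [if_neg hab, if_neg ha, if_neg hb]
    have := (OO.hol a).min_le_ord_add (OO.hol b) (OO.ne hab) (OO.ne ha) (OO.ne hb) τ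
    change exp (-(ordAt (a.1 + b.1) τ : ℤ)) ≤ _
    rw [le_max_iff, exp_le_exp, exp_le_exp]
    omega

theorem V0_apply (τ : ℍ) {a : OO L} (ha : a ≠ 0) : V0 L τ a = exp (-(ordAt a.1 τ : ℤ)) :=
  if_neg ha

/-- The order at `τ` is `c` times the order at the place `v`. -/
def Lk (L : ℕ) (τ : ℍ) (v : Valuation (KK L) ℤᵐ⁰) (c : ℤ) : Prop :=
  IsPlace v ∧ 0 < c ∧ ∀ a : OO L, a ≠ 0 → (ordAt a.1 τ : ℤ) = c * ord v (algebraMap _ (KK L) a)

theorem sub_const (a : OO L) (c : ℂ) : algebraMap _ (KK L) a - algebraMap ℂ (KK L) c =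
    algebraMap _ (KK L) (a - algebraMap ℂ (OO L) c) := by
  rw [map_sub, ← IsScalarTower.algebraMap_apply]

theorem ord_pos (τ : ℍ) (a : OO L) (h : a - algebraMap ℂ (OO L) (a.1 τ) ≠ 0) :
    0 < ordAt (a - algebraMap ℂ (OO L) (a.1 τ)).1 τ := by
  rw [Nat.pos_iff_ne_zero, Ne, (OO.hol _).ord_eq_zero_iff (OO.ne h), not_not]
  exact sub_self _

theorem exists_link (hC : IsCurveField (KK L)) (hJ : Transcendental ℂ (JK L)) (τ : ℍ) :
    ∃ v c, Lk L τ v c := by
  have hS : nonZeroDivisors (OO L) ≤ (V0 L τ).supp.primeCompl := fun a ha h => by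
    rw [SetLike.mem_coe, Valuation.mem_supp_iff, V0_apply τ (nonZeroDivisors.ne_zero ha)] at h
    exact exp_ne_zero h
  set V := (V0 L τ).extendToLocalization hS (KK L) with hV
  have hVa : ∀ a : OO L, V (algebraMap _ (KK L) a) = V0 L τ a := fun a =>
    (V0 L τ).extendToLocalization_apply_map_apply hS (KK L) a
  have hle : ∀ a : OO L, V (algebraMap _ (KK L) a) ≤ 1 := fun a => by
    rw [hVa]
    by_cases ha : a = 0
    · simp [ha]
    · rw [V0_apply τ ha, ← exp_zero, exp_le_exp]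
      omega
  obtain ⟨w, hw, hwV⟩ := hC.exists_place V.valuationSubring
    (fun c => by
      rw [Valuation.mem_valuationSubring_iff, IsScalarTower.algebraMap_apply ℂ (OO L) (KK L)]
      exact hle _)
    (fun htop => by
      have hne : JK L - algebraMap ℂ (KK L) (jj τ) ≠ 0 := fun e =>
        hJ (by rw [sub_eq_zero.1 e]; exact isAlgebraic_algebraMap _)
      have h1 : (JK L - algebraMap ℂ (KK L) (jj τ))⁻¹ ∈ V.valuationSubring := by
        rw [htop]; trivial
      rw [JK, sub_const] at hne h1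
      have h0 : JO L - algebraMap ℂ (OO L) (jj τ) ≠ 0 := fun e => hne (by rw [e, map_zero])
      rw [Valuation.mem_valuationSubring_iff, map_inv₀, hVa, V0_apply τ h0, ← exp_neg, ← exp_zero,
        exp_le_exp] at h1
      have := ord_pos τ (JO L) h0
      change 0 < ordAt (JO L - algebraMap ℂ (OO L) (jj τ)).1 τ at this
      omega)
  obtain ⟨c, hc, h⟩ := exists_mult hw ((Valuation.isEquiv_iff_valuationSubring _ _).2 hwV)
  refine ⟨w, c, hw, hc, fun a ha => ?_⟩
  rw [← h _ (map_ne ha), ord, hVa, V0_apply τ ha, log_exp, neg_neg]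

theorem Lk.res {τ : ℍ} {v : Valuation (KK L) ℤᵐ⁰} {c : ℤ} (h : Lk L τ v c) (a : OO L) :
    v (algebraMap _ (KK L) a - algebraMap ℂ (KK L) (a.1 τ)) < 1 := by
  rw [sub_const]
  by_cases h0 : a - algebraMap ℂ (OO L) (a.1 τ) = 0
  · simp [h0]
  have h1 := h.2.2 _ h0
  have h2 := ord_pos τ a h0
  have h3 : 0 < ord v (algebraMap _ (KK L) (a - algebraMap ℂ (OO L) (a.1 τ))) :=
    (mul_pos_iff_of_pos_left h.2.1).1 (by rw [← h1]; exact_mod_cast h2)
  have hne : v (algebraMap _ (KK L) (a - algebraMap ℂ (OO L) (a.1 τ))) ≠ 0 := by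
    rw [Ne, Valuation.zero_iff, map_eq_zero_iff _ (IsFractionRing.injective (OO L) (KK L))]
    exact h0
  rw [← exp_log hne, ← exp_zero, exp_lt_exp]
  rw [ord] at h3
  omega

theorem Lk.smul {τ : ℍ} {v : Valuation (KK L) ℤᵐ⁰} {c : ℤ} (h : Lk L τ v c) (γ : SL) :
    Lk L (γ⁻¹ • τ) (pull v (th L γ)) c := by
  refine ⟨place_pull h.1 _, h.2.1, fun a ha => ?_⟩
  rw [ord_pull, th_map, ← h.2.2 _ (by simpa using ha), th1_mk, (OO.hol a).ord_SL]

end R0P

open R0P in
theorem r0S : S_L1 → S_J → S_R0 := by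
  classical
  intro h1 hJ ι X M xi p f hM hxi ⟨i0, hi0⟩ hp hf
  have hlev : LevU M fun τ => f (Finsupp.single (p τ) 1) := fun γ hγ τ => by
    have : p (γ • τ) = p τ := Subtype.ext (funext fun i => by rw [hp, hp, (hxi i).2 γ hγ])
    simp only [this]
  refine ⟨⟨M, hM, hlev⟩, fun M' hM' h hh h0 => ?_⟩
  set L := M * M' with hL
  have : NeZero L := ⟨(Nat.mul_pos hM hM').ne'⟩
  let _ : Fintype (SL ⧸ Gamma L) := Fintype.ofFinite _
  have hT : Transcendental ℂ (JK L) := transc hJ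
  have hK := fixed_field (L := L) h1
  have hC : IsCurveField (KK L) := curve (th L) hT hK
  let xO : ι → OO L := fun i => ⟨xi i, (hxi i).mono (dvd_mul_right M M')⟩
  let η : ι → KK L := fun i => algebraMap _ (KK L) (xO i)
  have hη0 : η i0 = JK L := congrArg (algebraMap _ (KK L)) (Subtype.ext hi0)
  let hO : OO L := ⟨h, hh.mono (dvd_mul_left M' M)⟩
  have hO0 : hO ≠ 0 := fun e => h0 (congrArg Subtype.val e)
  let H : KK L := algebraMap _ (KK L) hO
  have hH0 : H ≠ 0 := map_ne hO0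
  let φ : Valuation (KK L) ℤᵐ⁰ → X := fun v =>
    if e : ∃ τ c, Lk L τ v c then p e.choose else p UpperHalfPlane.I
  have hφ : ∀ {τ v c}, Lk L τ v c → φ v = p τ := by
    intro τ v c hl
    have e : ∃ τ c, Lk L τ v c := ⟨τ, c, hl⟩
    obtain ⟨c', hl'⟩ := e.choose_spec
    simp only [φ, dif_pos e]
    refine Subtype.ext (funext fun i => ?_)
    rw [hp, hp]
    exact res_unique hl.1 (hl'.res (xO i)) (hl.res (xO i))
  have hall : ∀ v c, IsPlace v → v (JK L - algebraMap ℂ (KK L) c) < 1 →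
      ∃ τ c', Lk L τ v c' := by
    intro v c hv hvc
    obtain ⟨τ, rfl⟩ := hJ.2.1 c
    obtain ⟨w, c', hl⟩ := exists_link hC hT τ
    obtain ⟨q, rfl⟩ := transitive (th L) hT fix_JK hK hl.1 hv (hl.res (JO L)) hvc
    obtain ⟨γ, rfl⟩ := QuotientGroup.mk_surjective q
    exact ⟨_, c', hl.smul γ⟩
  have hres : ∀ v, IsPlace v → (∀ i, v (η i) ≤ 1) →
      ∀ i, v (η i - algebraMap ℂ (KK L) ((φ v).1 i)) < 1 := by
    intro v hv hle i
    obtain ⟨c, hc⟩ := hC.exists_residue hv (JK L) (hη0 ▸ hle i0)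
    obtain ⟨τ, c', hl⟩ := hall v c hv hc
    rw [hφ hl, hp]
    exact hl.res (xO i)
  obtain ⟨Sh, hSh, -⟩ := hC.exists_divisor hH0
  let S := Sh.filter fun v => ∀ i, v (η i) ≤ 1
  let F : Valuation (KK L) ℤᵐ⁰ → ℂ := fun v => (ord v H : ℂ) * f (Finsupp.single (φ v) 1)
  have hout : ∀ v, IsPlace v → (∀ i, v (η i) ≤ 1) → v ∉ S → ord v H = 0 := by
    intro v hv hle hn
    refine ord_eq_zero_of_eq_one ?_
    by_contra e
    exact hn (Finset.mem_filter.2 ⟨(hSh v).2 ⟨hv, e⟩, hle⟩)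
  have hsum : ∑ v ∈ S, F v = 0 := by
    have := hf (∑ v ∈ S, Finsupp.single (φ v) (ord v H)) (AddSubgroup.subset_closure
      ⟨KK L, inferInstance, inferInstance, hC, η, φ, H, S, hres, hH0,
        fun v hv => ⟨((hSh v).1 (Finset.mem_filter.1 hv).1).1, (Finset.mem_filter.1 hv).2⟩,
        hout, rfl⟩)
    rw [map_sum] at this
    rw [← this]
    refine Finset.sum_congr rfl fun v _ => ?_
    rw [← mul_one (ord v H), ← smul_eq_mul, ← Finsupp.smul_single, map_zsmul, zsmul_eq_mul]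
  choose Sc hSc _ using fun c : ℂ => hC.sum_ord_zeros (sub_transc hT c)
  let T : ℂ → ℂ := fun c => ∑ w ∈ Sc c, F w
  have hreg : ∀ c, ∀ w ∈ Sc c, (∀ i, w (η i) ≤ 1) ∧ (φ w).1 i0 = c := by
    intro c w hw
    obtain ⟨hw1, hw2⟩ := (hSc c w).1 hw
    obtain ⟨τ, c', hl⟩ := hall w c hw1 hw2
    have hle : ∀ i, w (η i) ≤ 1 := fun i => le_one_of_res hw1 (hl.res (xO i))
    exact ⟨hle, res_unique hw1 (hη0 ▸ hres w hw1 hle i0) hw2⟩
  let Z : Finset ℂ := S.image fun v => (φ v).1 i0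
  have hZ : ∀ c, T c ≠ 0 → c ∈ Z := by
    intro c hc
    obtain ⟨w, hw, hFw⟩ := Finset.exists_ne_zero_of_sum_ne_zero hc
    refine Finset.mem_image.2 ⟨w, ?_, (hreg c w hw).2⟩
    by_contra hn
    exact hFw (by simp only [F, hout w ((hSc c w).1 hw).1 (hreg c w hw).1 hn]; simp)
  have hTZ : ∑ c ∈ Z, T c = 0 := by
    rw [← hsum, ← Finset.sum_fiberwise_of_maps_to (s := S) (t := Z) (g := fun v => (φ v).1 i0)
      fun v hv => Finset.mem_image_of_mem _ hv]
    refine Finset.sum_congr rfl fun c _ => (Finset.sum_subset (fun v hv => ?_) fun v hv hn => ?_).symm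
    · obtain ⟨hv1, hv2⟩ := Finset.mem_filter.1 hv
      obtain ⟨hv3, hv4⟩ := Finset.mem_filter.1 hv1
      have hpl := ((hSh v).1 hv3).1
      exact (hSc c v).2 ⟨hpl, hv2 ▸ hη0 ▸ hres v hpl hv4 i0⟩
    · have : v ∉ S := fun e => hn (Finset.mem_filter.2 ⟨e, (hreg c v hv).2⟩)
      simp only [F, hout v ((hSc c v).1 hv).1 (hreg c v hv).1 this]
      simp
  set w0 : ℍ → ℂ := fun τ => (ordAt h τ : ℂ) * f (Finsupp.single (p τ) 1) with hw0
  have hgood : DGood actH G0 w0 := ord_good ⟨M, hM, hlev⟩ hM' hh h0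
  set n := Module.finrank ℂ⟮JK L⟯ (KK L) with hn
  have hn0 : (n : ℂ) ≠ 0 := by
    have := hC.finite hT
    exact_mod_cast (Module.finrank_pos (R := ℂ⟮JK L⟯) (M := KK L)).ne'
  have hW : (∑ q : SL ⧸ Gamma L, fun τ => w0 (actH (iota q.out⁻¹) τ)) =
      ((Fintype.card (SL ⧸ Gamma L) : ℂ) / (2 * n)) • fun τ => (stab τ : ℂ) * T (jj τ) := by
    funext τ
    obtain ⟨v, c, hl⟩ := exists_link hC hT τ
    have e1 : ∀ q : SL ⧸ Gamma L, w0 (actH (iota q.out⁻¹) τ) = c * F (pull v (th L q)) := by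
      intro q
      have hl' := hl.smul q.out
      rw [QuotientGroup.out_eq'] at hl'
      have e := hl'.2.2 hO hO0
      simp only [actH_iota, hw0, F, hφ hl']
      rw [← mul_assoc, ← Int.cast_mul, ← e, Int.cast_natCast]
    have e2 := count (th L) hT fix_JK hK hl.1 (hl.res (JO L)) (Sc (jj τ)) (hSc (jj τ)) F
    have hne : JO L - algebraMap ℂ (OO L) (jj τ) ≠ 0 := fun e => hT (by
      rw [JK, sub_eq_zero.1 e, ← IsScalarTower.algebraMap_apply]
      exact isAlgebraic_algebraMap _)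
    have e3 := hl.2.2 _ hne
    rw [← sub_const] at e3
    have e4 : 2 * ordAt (JO L - algebraMap ℂ (OO L) (jj τ)).1 τ = stab τ := hJ.2.2.1 τ
    have e5 : (stab τ : ℂ) = 2 * (c * (ord v (JK L - algebraMap ℂ (KK L) (jj τ)) : ℂ)) := by
      rw [← e4, JK, ← Int.cast_mul, ← e3]
      push_cast
      rfl
    rw [Finset.sum_apply, Pi.smul_apply, smul_eq_mul, e5]
    simp only [e1]
    rw [← Finset.mul_sum, div_mul_eq_mul_div, eq_div_iff (mul_ne_zero two_ne_zero hn0)]
    change (n : ℂ) * _ = _ * (ord v (JK L - algebraMap ℂ (KK L) (jj τ)) : ℂ) * T (jj τ) at e2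
    linear_combination 2 * c * e2
  have hfin := dmean_sum (ρ := actH) (Γ0 := G0) Finset.univ
    (fun (q : SL ⧸ Gamma L) τ => w0 (actH (iota q.out⁻¹) τ))
    fun q _ => hgood.comp_act uni_G0 _
  rw [hW, dmean_smul, mean_one hJ T Z hZ, hTZ, mul_zero] at hfin
  simp only [dmean_act uni_G0, Finset.sum_const, Finset.card_univ, nsmul_eq_mul] at hfin
  exact (mul_eq_zero.1 hfin.symm).resolve_left (by exact_mod_cast Fintype.card_ne_zero)

end

end Pool.Agent.P.MP_b8021b_nt.CM
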