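import Pool.Agent.P.MP_b8021b_nt.CM.RS0A

/-! The Rankin-Selberg integral in weight zero and the weight one Eisenstein series. -/

namespace Pool.Agent.P.MP_b8021b_nt.CM

open Complex hiding Gamma
open UpperHalfPlane hiding I
open MeasureTheory CongruenceSubgroup Filter
open scoped Real MatrixGroups ModularForm Topology ComplexConjugate Modular

noncomputable section

namespace RS0P

variable {M : ℕ} {C : ℝ} {F : Q2 → ℍ → ℂ}

theorem lev_mul_eq (w : Q2) : ∃ K, 0 < K ∧ ∀ c : Q2 → ℂ, Lev M c →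
    Lev (M * K) fun v => c v * eq (v.1 * w.2 - v.2 * w.1) := by
  obtain ⟨K, hK, hw⟩ := Lat.den w
  obtain ⟨a, ha⟩ := (isInt_rat _).1 (show IsInt ((K : ℚ) • w).1 from hw.1)
  obtain ⟨b, hb⟩ := (isInt_rat _).1 (show IsInt ((K : ℚ) • w).2 from hw.2)
  simp only [Prod.smul_fst, Prod.smul_snd, smul_eq_mul] at ha hb
  refine ⟨K, hK, fun c hc => ?_⟩
  have hc' := hc.mono (Dvd.intro K rfl)
  refine ⟨fun x k hk => ?_, fun x hx => hc'.2 x (left_ne_zero_of_mul hx)⟩
  obtain ⟨k1, h1⟩ := (isInt_rat _).1 hk.1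
  obtain ⟨k2, h2⟩ := (isInt_rat _).1 hk.2
  have e1 : (x + ((M * K : ℕ) : ℚ) • k).1 * w.2 - (x + ((M * K : ℕ) : ℚ) • k).2 * w.1 =
      (x.1 * w.2 - x.2 * w.1) + ((M * (k1 * b - k2 * a) : ℤ) : ℚ) := by
    simp only [Prod.fst_add, Prod.snd_add, Prod.smul_fst, Prod.smul_snd, smul_eq_mul, h1, h2]
    push_cast
    rw [← ha, ← hb]
    ring
  simp only
  rw [hc'.1 x k hk, e1, eq_add, eq_int, mul_one]

theorem fam_hat (hM : 0 < M) (h : Fam0 M C F) : Fam0 M (M ^ 2 * C) (Fhat F) where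
  lev τ := (h.lev τ).lev_FS hM
  cont w := by
    obtain ⟨K, hK, hl⟩ := lev_mul_eq (M := M) w
    obtain ⟨R, c, -, hR⟩ := exists_II_sum Q2 (Nat.mul_pos hM hK)
    have : Fhat F w = fun τ => c * ∑ r ∈ R, F r τ * eq (r.1 * w.2 - r.2 * w.1) :=
      funext fun τ => hR _ (hl _ (h.lev τ))
    rw [this]
    exact continuous_const.mul (continuous_finsetSum _ fun r _ => (h.cont r).mul continuous_const)
  eqv w γ τ := by
    simp only [Fhat, ← FS_vm, h.eqv]
  bd w τ := by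
    obtain ⟨K, hK, hl⟩ := lev_mul_eq (M := M) w
    have := norm_II_le' ((hl _ (h.lev τ)).sb (Nat.mul_pos hM hK)) hM
      (fun x hx => (h.lev τ).2 x (left_ne_zero_of_mul hx)) (C := C)
      (fun x => by rw [norm_mul, norm_eq, mul_one]; exact h.bd x τ)
    rw [idx_prod, idx_rat] at this
    simpa only [Nat.cast_mul, sq, Fhat, FS] using this

theorem hgood0 (h : Fam0 M C F) : HGood (F 0) :=
  (hmean_level_one (fun γ _ τ => by rw [← h.eqv, vm_zero]) (h.cont 0).measurable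
    (integrableOn_D (h.cont 0).measurable (K := C) (a := 0) one_pos fun τ _ => by
      simpa using h.bd 0 τ)).1

open Classical in
/-- the terms of the kernel -/
def GG (F : Q2 → ℍ → ℂ) (t : ℝ) (v : Q2) (τ : ℍ) : ℂ := if v = 0 then 0 else F v τ * gau v τ t

theorem R0_eq (t : ℝ) : R0 F t = hmean fun τ => ∑' v, GG F t v τ := rfl

theorem GG_cont (h : Fam0 M C F) (v : Q2) : Continuous fun p : ℍ × ℝ => GG F p.2 v p.1 := by
  unfold GG
  split_ifs
  · exact continuous_const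
  · exact ((h.cont v).comp continuous_fst).mul (continuous_gau v)

theorem GG_eqv (h : Fam0 M C F) (t : ℝ) (v : Q2) (γ : SL) (τ : ℍ) :
    GG F t (vm v γ) τ = GG F t v (γ • τ) := by
  simp only [GG, vm_eq_zero, h.eqv, gau_smul]

theorem GG_mono (v : Q2) (τ : ℍ) {s t : ℝ} (hst : s ≤ t) : ‖GG F t v τ‖ ≤ ‖GG F s v τ‖ := by
  unfold GG
  split_ifs
  · exact le_rfl
  · rw [norm_mul, norm_mul]
    exact mul_le_mul_of_nonneg_left (norm_gau_mono v τ hst) (norm_nonneg _)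

theorem GG_summable (hM : 0 < M) (h : Fam0 M C F) {t : ℝ} (ht : 0 < t) (τ : ℍ) :
    Summable fun v => ‖GG F t v τ‖ := by
  refine Summable.of_nonneg_of_le (fun _ => norm_nonneg _) (fun v => ?_)
    (summable_K0 ((h.lev τ).sb hM) τ ht)
  unfold GG
  split_ifs
  · rw [norm_zero]; exact norm_nonneg _
  · exact le_rfl

theorem GG_bound (hM : 0 < M) (h : Fam0 M C F) {t : ℝ} (ht : 0 < t) :
    ∃ K : ℝ, ∀ τ ∈ 𝒟, ∑' v, ‖GG F t v τ‖ ≤ K * τ.im ^ (3 / 4 : ℝ) := by
  obtain ⟨K, hK, hP⟩ := Psi_D M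
  have hC : 0 ≤ C := (norm_nonneg _).trans (h.bd 0 UpperHalfPlane.I)
  refine ⟨C * (t ^ (-(3 / 4) : ℝ) + (t ^ (-(3 / 4) : ℝ)) ^ 2) * K, fun τ hτ => ?_⟩
  have hD := dom_D hτ
  have h1 := (hasSum_mj hM (mul_pos ht hD.1) (mul_pos ht hD.2.1)).mul_left C
  refine (hasSum_le (fun v => ?_) (GG_summable hM h ht τ).hasSum h1).trans ?_
  · unfold GG
    split_ifs with h0
    · rw [norm_zero]
      exact mul_nonneg hC (mj_nonneg (mul_pos ht hD.1) (mul_pos ht hD.2.1) v)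
    · exact bound0 (h.lev τ) (fun w => h.bd w τ) hD ht h0
  · rw [mul_assoc, mul_assoc]
    refine mul_le_mul_of_nonneg_left ((Psi_scale hD.1 hD.2.1 ht).trans ?_) hC
    exact mul_le_mul_of_nonneg_left (hP τ hτ) (by positivity)

theorem integrable_b0_rpow (K : ℝ) : Integrable fun τ : ℍ => b0 τ * (K * τ.im ^ (3 / 4 : ℝ)) := by
  have hm : Measurable fun τ : ℍ => ((K * τ.im ^ (3 / 4 : ℝ) : ℝ) : ℂ) :=
    Complex.measurable_ofReal.comp
      ((UpperHalfPlane.continuous_im.measurable.pow_const _).const_mul K)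
  have h1 := (integrable_b0_iff hm).2 (integrableOn_D hm (K := |K|) (a := 3 / 4) (by norm_num)
    fun τ _ => by
      rw [Complex.norm_real, Real.norm_eq_abs, abs_mul,
        abs_of_nonneg (Real.rpow_nonneg τ.im_pos.le _)])
  simpa only [← Complex.ofReal_mul, RCLike.re_to_complex, Complex.ofReal_re] using h1.re

theorem unf (hM : 0 < M) (h : Fam0 M C F) {t : ℝ} (ht : 0 < t) :
    HGood (fun τ => ∑' v, GG F t v τ) ∧
      (∀ n : ℚ, 0 < n → IntegrableOn (fun y : ℝ => ct (GG F t (0, n)) y / (y : ℂ) ^ 2)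
        (Set.Ioi 0)) ∧
      HasSum (fun n : ℚ => if 0 < n then
        ∫ y in Set.Ioi (0 : ℝ), ct (GG F t (0, n)) y / (y : ℂ) ^ 2 else 0)
        (hmean fun τ => ∑' v, GG F t v τ) := by
  refine unfold_vec (fun v => ((GG_cont h v).comp (Continuous.prodMk_left t)).measurable)
    (GG_eqv h t) (fun τ => by simp [GG]) (fun τ => (GG_summable hM h ht τ).of_norm) ?_
  obtain ⟨K, hK⟩ := GG_bound hM h ht
  refine ne_top_of_le_ne_top (integrable_b0_rpow K).lintegral_lt_top.ne (lintegral_mono fun τ => ?_)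
  by_cases hτ : τ ∈ 𝒟
  · simp only [← ofReal_norm]
    rw [← ENNReal.ofReal_tsum_of_nonneg (fun _ => norm_nonneg _) (GG_summable hM h ht τ),
      ← ENNReal.ofReal_mul (b0_nonneg τ)]
    exact ENNReal.ofReal_le_ofReal (mul_le_mul_of_nonneg_left (hK τ hτ) (b0_nonneg τ))
  · have : b0 τ = 0 := by
      by_contra h0
      exact hτ ((b0_ne_zero_iff τ).1 h0)
    simp [this]

theorem ct_GG (t : ℝ) {n : ℚ} (hn : 0 < n) {y : ℝ} (hy : 0 < y) :
    ct (GG F t (0, n)) y = (Real.exp (-π * t * n ^ 2 / y) : ℂ) * ct (F (0, n)) y := by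
  have h0 : ((0, n) : Q2) ≠ 0 := fun h => hn.ne' (congrArg Prod.snd h)
  rw [ct, ct, ← intervalIntegral.integral_const_mul]
  refine intervalIntegral.integral_congr fun u _ => ?_
  have h1 : (pt u y).im = y := by
    rw [← coe_im, coe_pt u hy]; simp
  simp only [GG, if_neg h0, gau, h1, norm_lin_sq]
  rw [mul_comm]
  simp

theorem sum_split (hM : 0 < M) (h : Fam0 M C F) {t : ℝ} (ht : 0 < t) (τ : ℍ) :
    ∑' v, F v τ * gau v τ t = ∑' v, GG F t v τ + F 0 τ := by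
  classical
  rw [(summable_K0 ((h.lev τ).sb hM) τ ht).of_norm.tsum_eq_add_tsum_ite 0, add_comm]
  have h1 : F 0 τ * gau 0 τ t = F 0 τ := by simp [gau, lin]
  rw [h1]
  refine congrArg (· + F 0 τ) (tsum_congr fun v => ?_)
  unfold GG
  split_ifs <;> rfl

theorem R0_int (hM : 0 < M) (h : Fam0 M C F) {t : ℝ} (ht : 0 < t) :
    Measurable (fun τ => ∑' v, GG F t v τ) ∧
      R0 F t = ∫ τ, (b0 τ : ℂ) * ∑' v, GG F t v τ := by
  obtain ⟨p, hp⟩ := (unf hM h ht).1
  have hm : Measurable (fun τ => ∑' v, GG F t v τ) := hp.2.2.1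
  obtain ⟨K, hK⟩ := GG_bound hM h ht
  refine ⟨hm, (hmean_level_one (fun γ _ τ => ?_) hm (integrableOn_D hm (K := K) (a := 3 / 4)
    (by norm_num) fun τ hτ => ?_)).2⟩
  · simp only [← GG_eqv h]
    exact (vmE γ).tsum_eq fun v => GG F t v τ
  · exact (norm_tsum_le_tsum_norm (GG_summable hM h ht τ)).trans (hK τ hτ)

theorem R0_cont (hM : 0 < M) (h : Fam0 M C F) : ContinuousOn (R0 F) (Set.Ioi 0) := by
  intro t0 ht0
  have hs : 0 < t0 / 2 := half_pos ht0
  have hN : Set.Ioi (t0 / 2) ∈ 𝓝 t0 := Ioi_mem_nhds (half_lt_self ht0)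
  obtain ⟨K, hK⟩ := GG_bound hM h hs
  have h1 : ContinuousOn (fun t => ∫ τ, (b0 τ : ℂ) * ∑' v, GG F t v τ) (Set.Ioi (t0 / 2)) := by
    refine continuousOn_of_dominated (fun t ht => ?_) (fun t ht => Eventually.of_forall fun τ => ?_)
      (integrable_b0_rpow K) (Eventually.of_forall fun τ => continuousOn_const.mul ?_)
    · exact ((Complex.measurable_ofReal.comp measurable_b0).mul
        (R0_int hM h (hs.trans ht)).1).aestronglyMeasurable
    · rw [norm_mul, Complex.norm_real, Real.norm_of_nonneg (b0_nonneg τ)]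
      by_cases hτ : τ ∈ 𝒟
      · refine mul_le_mul_of_nonneg_left ?_ (b0_nonneg τ)
        have h2 := GG_summable hM h (hs.trans ht) τ
        exact (norm_tsum_le_tsum_norm h2).trans ((h2.tsum_le_tsum (fun v => GG_mono v τ ht.le)
          (GG_summable hM h hs τ)).trans (hK τ hτ))
      · have : b0 τ = 0 := by
          by_contra h0
          exact hτ ((b0_ne_zero_iff τ).1 h0)
        simp [this]
    · exact continuousOn_tsum (fun v => ((GG_cont h v).comp (Continuous.prodMk_right τ)).continuousOn)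
        (GG_summable hM h hs τ) fun v t ht => GG_mono v τ ht.le
  refine ((h1.continuousAt hN).congr ?_).continuousWithinAt
  filter_upwards [hN] with t ht using (R0_int hM h (hs.trans ht)).2.symm

/-! ### the weight one series -/

def Bt (t : ℝ) : ℝ := if 1 ≤ t then t ^ (-(5 / 4) : ℝ) else t ^ (-(3 / 4) : ℝ)

theorem integrableOn_Bt : IntegrableOn Bt (Set.Ioi 0) := by
  rw [← Set.Ioo_union_Ici_eq_Ioi (zero_lt_one' ℝ)]
  refine IntegrableOn.union ?_ ?_
  · refine ((intervalIntegral.integrableOn_Ioo_rpow_iff one_pos).2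
      (by norm_num : (-1 : ℝ) < -(3 / 4))).congr_fun (fun t ht => ?_) measurableSet_Ioo
    simp only [Bt, if_neg (not_le.2 ht.2)]
  · rw [integrableOn_Ici_iff_integrableOn_Ioi]
    refine (integrableOn_Ioi_rpow_of_lt (by norm_num : (-(5 / 4) : ℝ) < -1) one_pos).congr_fun
      (fun t ht => ?_) measurableSet_Ioi
    simp only [Bt, if_pos (le_of_lt (Set.mem_Ioi.1 ht))]

theorem K1_tail (hM : 0 < M) {c : Q2 → ℂ} (hc : Lev M c) (hC : ∀ w, ‖c w‖ ≤ C) {τ : ℍ} {a b t : ℝ}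
    (hD : Dom τ a b) (ht : 1 ≤ t) :
    ‖K1 c τ t‖ ≤ 2 * C * τ.im ^ (-(1 / 2) : ℝ) * Psi M a b * t ^ (-(5 / 4) : ℝ) := by
  have ht0 : 0 < t := one_pos.trans_le ht
  have hC0 : 0 ≤ C := (norm_nonneg _).trans (hC 0)
  have hy := τ.im_pos
  have hP := Psi_nonneg (M := M) hD.1 hD.2.1
  have h1 := (hasSum_mj hM (mul_pos ht0 hD.1) (mul_pos ht0 hD.2.1)).mul_left
    (C * τ.im ^ (-(1 / 2) : ℝ) * t ^ (-(1 / 2) : ℝ))
  refine (tsum_of_norm_bounded h1 fun w => bound1 hc hC hD ht0 w).trans ?_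
  have h2 : t ^ (-(3 / 4) : ℝ) ≤ 1 := Real.rpow_le_one_of_one_le_of_nonpos ht (by norm_num)
  have h3 : 0 ≤ t ^ (-(3 / 4) : ℝ) := by positivity
  have h4 : Psi M (t * a) (t * b) ≤ 2 * t ^ (-(3 / 4) : ℝ) * Psi M a b :=
    (Psi_scale hD.1 hD.2.1 ht0).trans (mul_le_mul_of_nonneg_right (by nlinarith) hP)
  have h5 : t ^ (-(5 / 4) : ℝ) = t ^ (-(1 / 2) : ℝ) * t ^ (-(3 / 4) : ℝ) := by
    rw [← Real.rpow_add ht0]; norm_num
  refine (mul_le_mul_of_nonneg_left h4 (by positivity)).trans (le_of_eq ?_)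
  rw [h5]; ring

theorem K1_bound {c : Q2 → ℂ} (h : SB c) : ∃ (M : ℕ) (C : ℝ), 0 ≤ C ∧ ∀ (τ : ℍ) (a b t : ℝ),
    Dom τ a b → 0 < t → ‖K1 c τ t‖ ≤ C * τ.im ^ (-(1 / 2) : ℝ) * Psi M a b * Bt t := by
  obtain ⟨C, hC0, hC⟩ := h.bdd
  obtain ⟨M, hM, hc⟩ := h
  have hc' := hc.lev_FS hM
  obtain ⟨C', hC0', hC'⟩ := (hc'.sb hM).bdd
  refine ⟨M, 2 * (C + C'), by positivity, fun τ a b t hD ht => ?_⟩
  unfold Bt
  split_ifs with h1
  · exact K1_tail hM hc (fun w => (hC w).trans (le_add_of_nonneg_right hC0')) hD h1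
  · have h2 : 1 ≤ t⁻¹ := (one_le_inv₀ ht).2 (not_le.1 h1).le
    have h3 := K1_tail hM hc' (fun w => (hC' w).trans (le_add_of_nonneg_left hC0)) hD h2
    rw [K1_fe (hc.sb hM) τ ht, norm_mul, norm_inv, norm_pow, Complex.norm_real,
      Real.norm_of_nonneg ht.le]
    refine (mul_le_mul_of_nonneg_left h3 (by positivity)).trans (le_of_eq ?_)
    have h4 : t ^ (-(3 / 4) : ℝ) = (t ^ 2)⁻¹ * t⁻¹ ^ (-(5 / 4) : ℝ) := by
      rw [Real.inv_rpow ht.le, ← Real.rpow_neg ht.le, ← Real.rpow_natCast, ← Real.rpow_neg ht.le,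
        ← Real.rpow_add ht]
      norm_num
    rw [h4]; ring

theorem term_cont (c : Q2 → ℂ) (w : Q2) :
    Continuous fun p : ℍ × ℝ => c w * (lin w p.1 / p.1.im) * gau w p.1 p.2 := by
  refine (continuous_const.mul (Continuous.div ((continuous_lin w).comp continuous_fst)
    (Complex.continuous_ofReal.comp (UpperHalfPlane.continuous_im.comp continuous_fst))
    fun p => ?_)).mul (continuous_gau w)
  exact Complex.ofReal_ne_zero.2 p.1.im_pos.ne'

theorem K1_cont_t {c : Q2 → ℂ} (h : SB c) (τ : ℍ) : ContinuousOn (K1 c τ) (Set.Ioi 0) := by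
  intro t0 ht0
  have hs : 0 < t0 / 2 := half_pos ht0
  have h1 : ContinuousOn (K1 c τ) (Set.Ioi (t0 / 2)) :=
    continuousOn_tsum (fun w => ((term_cont c w).comp (Continuous.prodMk_right τ)).continuousOn)
      (summable_K1 h τ hs) fun w t ht => by
        rw [norm_mul, norm_mul (c w * _)]
        exact mul_le_mul_of_nonneg_left (norm_gau_mono w τ ht.le) (norm_nonneg _)
  exact (h1.continuousAt (Ioi_mem_nhds (half_lt_self ht0))).continuousWithinAt

theorem K1_int {c : Q2 → ℂ} (h : SB c) (τ : ℍ) : IntegrableOn (K1 c τ) (Set.Ioi 0) := by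
  obtain ⟨M, C, -, hB⟩ := K1_bound h
  refine Integrable.mono' (integrableOn_Bt.const_mul
    (C * τ.im ^ (-(1 / 2) : ℝ) * Psi M (kq τ)⁻¹ (kq τ)⁻¹))
    ((K1_cont_t h τ).aestronglyMeasurable measurableSet_Ioi) ?_
  filter_upwards [ae_restrict_mem measurableSet_Ioi] with t ht using hB τ _ _ t (dom_kq le_rfl) ht

theorem nbhd (τ0 : ℍ) : ∃ (k Y : ℝ) (U : Set ℍ), U ∈ 𝓝 τ0 ∧
    ∀ τ ∈ U, Dom τ k⁻¹ k⁻¹ ∧ τ.im ^ (-(1 / 2) : ℝ) ≤ Y := by
  have h1 : Continuous fun τ : ℍ => τ.im ^ (-(1 / 2) : ℝ) :=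
    UpperHalfPlane.continuous_im.rpow_const fun τ => Or.inl τ.im_pos.ne'
  refine ⟨kq τ0 + 1, τ0.im ^ (-(1 / 2) : ℝ) + 1,
    {τ | kq τ < kq τ0 + 1} ∩ {τ | τ.im ^ (-(1 / 2) : ℝ) < τ0.im ^ (-(1 / 2) : ℝ) + 1},
    inter_mem ?_ ?_, fun τ hτ => ⟨dom_kq (le_of_lt hτ.1), le_of_lt hτ.2⟩⟩
  · exact (isOpen_lt continuous_kq continuous_const).mem_nhds (lt_add_one (kq τ0))
  · exact (isOpen_lt h1 continuous_const).mem_nhds (lt_add_one (τ0.im ^ (-(1 / 2) : ℝ)))

theorem EE_cont {c : Q2 → ℂ} (h : SB c) : Continuous (EE c) := by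
  refine continuous_iff_continuousAt.2 fun τ0 => ?_
  obtain ⟨k, Y, U, hU, hk⟩ := nbhd τ0
  obtain ⟨M, C, hC, hB⟩ := K1_bound h
  refine continuousAt_of_dominated (bound := fun t => C * Y * Psi M k⁻¹ k⁻¹ * Bt t)
    (Eventually.of_forall fun τ => (K1_int h τ).aestronglyMeasurable) ?_
    (integrableOn_Bt.const_mul _) ?_
  · filter_upwards [hU] with τ hτ
    filter_upwards [ae_restrict_mem measurableSet_Ioi] with t ht
    have hD := (hk τ hτ).1
    refine (hB τ _ _ t hD ht).trans (mul_le_mul_of_nonneg_right (mul_le_mul_of_nonneg_right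
      (mul_le_mul_of_nonneg_left (hk τ hτ).2 hC) (Psi_nonneg hD.1 hD.1)) ?_)
    have ht' : (0 : ℝ) < t := ht
    unfold Bt; split_ifs <;> positivity
  · filter_upwards [ae_restrict_mem measurableSet_Ioi] with t ht
    have ht' : (0 : ℝ) < t := ht
    obtain ⟨C', hC0', hC'⟩ := h.bdd
    obtain ⟨N, hN, hc⟩ := h
    have hD := (hk τ0 (mem_of_mem_nhds hU)).1
    have h1 : ContinuousOn (fun τ => K1 c τ t) U :=
      continuousOn_tsum (fun w => ((term_cont c w).comp (Continuous.prodMk_left t)).continuousOn)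
        ((hasSum_mj hN (mul_pos ht' hD.1) (mul_pos ht' hD.1)).summable.mul_left
          (C' * Y * t ^ (-(1 / 2) : ℝ))) fun w τ hτ => by
        refine (bound1 hc hC' (hk τ hτ).1 ht' w).trans (mul_le_mul_of_nonneg_right
          (mul_le_mul_of_nonneg_right (mul_le_mul_of_nonneg_left (hk τ hτ).2 hC0') (by positivity))
          (mj_nonneg (mul_pos ht' hD.1) (mul_pos ht' hD.1) w))
    exact h1.continuousAt hU

theorem EE_bound {c : Q2 → ℂ} (h : SB c) :
    ∃ K : ℝ, ∀ τ ∈ 𝒟, ‖EE c τ‖ ≤ K * τ.im ^ (1 / 4 : ℝ) := by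
  obtain ⟨M, C, hC, hB⟩ := K1_bound h
  obtain ⟨K, hK, hP⟩ := Psi_D M
  refine ⟨C * K * ∫ t in Set.Ioi (0 : ℝ), Bt t, fun τ hτ => ?_⟩
  have hy := τ.im_pos
  have h1 : ‖EE c τ‖ ≤ ∫ t in Set.Ioi (0 : ℝ), C * K * τ.im ^ (1 / 4 : ℝ) * Bt t := by
    refine norm_integral_le_of_norm_le (integrableOn_Bt.const_mul _) ?_
    filter_upwards [ae_restrict_mem measurableSet_Ioi] with t ht
    have ht' : (0 : ℝ) < t := ht
    refine (hB τ _ _ t (dom_D hτ) ht).trans (mul_le_mul_of_nonneg_right ?_ ?_)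
    · refine (mul_le_mul_of_nonneg_left (hP τ hτ) (by positivity)).trans (le_of_eq ?_)
      have h2 : τ.im ^ (1 / 4 : ℝ) = τ.im ^ (-(1 / 2) : ℝ) * τ.im ^ (3 / 4 : ℝ) := by
        rw [← Real.rpow_add hy]; norm_num
      rw [h2]; ring
    · unfold Bt; split_ifs <;> positivity
  rw [integral_const_mul] at h1
  refine h1.trans (le_of_eq ?_)
  ring

theorem K1_smul (c : Q2 → ℂ) (γ : SL) (τ : ℍ) (t : ℝ) :
    K1 (fun w => c (vm w γ)) (γ • τ) t = conj (jf γ τ) * K1 c τ t := by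
  rw [K1, K1, ← tsum_mul_left, ← (vmE γ).tsum_eq
    (fun w => conj (jf γ τ) * (c w * (lin w τ / τ.im) * gau w τ t))]
  refine tsum_congr fun w => ?_
  have h1 := jf_ne_zero γ τ
  have h2 : (τ.im : ℂ) ≠ 0 := by exact_mod_cast τ.im_pos.ne'
  have h3 : ((‖jf γ τ‖ : ℂ)) ^ 2 = jf γ τ * conj (jf γ τ) := by
    rw [Complex.mul_conj, Complex.normSq_eq_norm_sq]; push_cast; rfl
  change _ = conj (jf γ τ) * (c (vm w γ) * (lin (vm w γ) τ / τ.im) * gau (vm w γ) τ t)
  rw [gau_smul, lin_smul, im_SL]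
  push_cast
  rw [h3]
  have h4 : conj (jf γ τ) ≠ 0 := (map_ne_zero _).2 h1
  field_simp

theorem K1_nn (c : Q2 → ℂ) (b : ℚ) (τ : ℍ) (t : ℝ) :
    K1 c (actH (nn b) τ) t = K1 (nC b c) τ t := by
  let E : Q2 ≃ Q2 :=
    { toFun := fun w => (w.1, w.2 + b * w.1)
      invFun := fun w => (w.1, w.2 - b * w.1)
      left_inv := fun w => by simp
      right_inv := fun w => by simp }
  rw [K1, K1, ← E.tsum_eq (fun w => nC b c w * (lin w τ / τ.im) * gau w τ t)]
  refine tsum_congr fun w => ?_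
  have h1 : (actH (nn b) τ).im = τ.im := by
    rw [← coe_im, coe_nn]; simp
  have h2 : lin w (actH (nn b) τ) = lin (E w) τ := by
    simp only [lin, coe_nn, E, Equiv.coe_fn_mk]
    push_cast; ring
  have h3 : nC b c (E w) = c w := by simp [nC, E]
  simp only [gau, h1, h2, h3]

theorem K1_dil (c : Q2 → ℂ) {j : ℚ} (hj : 0 < j) (τ : ℍ) (t : ℝ) :
    K1 c (dil j⁻¹ τ) t = (j : ℂ) * K1 (fun w => c (j * w.1, w.2)) τ (j * t) := by
  have hj0 := hj.ne'
  let E : Q2 ≃ Q2 :=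
    { toFun := fun w => (j * w.1, w.2)
      invFun := fun w => (j⁻¹ * w.1, w.2)
      left_inv := fun w => by simp [hj0]
      right_inv := fun w => by simp [hj0] }
  rw [K1, K1, ← tsum_mul_left,
    ← E.tsum_eq (fun w => c w * (lin w (dil j⁻¹ τ) / (dil j⁻¹ τ).im) * gau w (dil j⁻¹ τ) t)]
  refine tsum_congr fun w => ?_
  have hjc : (j : ℂ) ≠ 0 := by exact_mod_cast hj0
  have hjr : (j : ℝ) ≠ 0 := by exact_mod_cast hj0
  have hy : (τ.im : ℂ) ≠ 0 := by exact_mod_cast τ.im_pos.ne'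
  have hy' := τ.im_pos.ne'
  have h1 : (dil j⁻¹ τ).im = τ.im / j := by
    rw [← coe_im, coe_dil (inv_pos.2 hj), ← Complex.ofReal_ratCast, Complex.im_ofReal_mul, coe_im]
    push_cast; ring
  have h2 : lin (E w) (dil j⁻¹ τ) = lin w τ := by
    simp only [lin, coe_dil (inv_pos.2 hj), E, Equiv.coe_fn_mk]
    push_cast; field_simp
  have h3 : gau (E w) (dil j⁻¹ τ) t = gau w τ (j * t) := by
    simp only [gau, h1, h2]
    congr 2
    field_simp
  rw [h3, h1, h2]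
  simp only [E, Equiv.coe_fn_mk]
  push_cast
  field_simp

end RS0P

open RS0P in
theorem rs0 : S_RS0 := by
  intro M C F hM h
  have h' := fam_hat hM h
  refine ⟨h', hgood0 h, fun t ht => ?_, fun t ht => ?_, R0_cont hM h⟩
  · obtain ⟨-, h1, h2⟩ := unf hM h ht
    refine ⟨fun n hn => (h1 n hn).congr_fun (fun y hy => ?_) measurableSet_Ioi, ?_⟩
    · simp only [ct_GG t hn hy]
    · rw [R0_eq]
      convert h2 using 2 with n
      split_ifs with hn
      · refine setIntegral_congr_fun measurableSet_Ioi fun y hy => ?_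
        simp only [ct_GG t hn hy]
      · rfl
  · have ht' := inv_pos.2 ht
    rw [R0_eq, R0_eq, ← hmean_add (unf hM h ht).1 (hgood0 h),
      ← hmean_add (unf hM h' ht').1 (hgood0 h'), ← hmean_smul]
    congr 1
    funext τ
    simp only [Pi.add_apply, Pi.smul_apply, smul_eq_mul]
    rw [← sum_split hM h ht, ← sum_split hM h' ht']
    exact K0_fe ((h.lev τ).sb hM) τ ht

open RS0P in
theorem ee : S_EE := by
  intro c h
  refine ⟨EE_cont h, K1_int h, fun γ τ => ?_, fun b τ => ?_, fun j hj => ⟨1, fun τ => ?_⟩,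
    fun c' h' => funext fun τ => ?_, fun a => funext fun τ => ?_, EE_bound h⟩
  · simp only [EE, K1_smul, integral_const_mul]
  · simp only [EE, K1_nn]
  · have hjr : (0 : ℝ) < j := by exact_mod_cast hj
    have hjc : (j : ℂ) ≠ 0 := by exact_mod_cast hj.ne'
    simp only [EE, K1_dil c hj, integral_const_mul]
    rw [integral_comp_mul_left_Ioi (K1 (fun w => c (j * w.1, w.2)) τ) 0 hjr, mul_zero,
      Complex.real_smul, ← mul_assoc]
    push_cast
    rw [mul_inv_cancel₀ hjc]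
  · rw [Pi.add_apply, EE, EE, EE, ← integral_add (K1_int h τ) (K1_int h' τ)]
    refine setIntegral_congr_fun measurableSet_Ioi fun t ht => ?_
    simp only [K1, Pi.add_apply, add_mul]
    exact (summable_K1 h τ ht).of_norm.tsum_add (summable_K1 h' τ ht).of_norm
  · simp only [EE, K1, Pi.smul_apply, smul_eq_mul, mul_assoc, tsum_mul_left, integral_const_mul]

end

end Pool.Agent.P.MP_b8021b_nt.CM
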