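import Pool.Agent.P.MP_b8021b_nt.CM.RS1a

/-! Package P20: the Rankin-Selberg integral of weight one. -/

namespace Pool.Agent.P.MP_b8021b_nt.CM

open Complex hiding Gamma
open UpperHalfPlane hiding I
open MeasureTheory CongruenceSubgroup Filter
open scoped Real MatrixGroups ModularForm Topology ComplexConjugate Modular

noncomputable section

namespace RS1P

variable {M : ℕ} {C : ℝ} {F : Q2 → ℍ → ℂ}

theorem C_nonneg (hF : Fam1 M C F) : 0 ≤ C :=
  le_trans (mul_nonneg (Real.rpow_nonneg (UpperHalfPlane.I).im_pos.le _) (norm_nonneg _))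
    (hF.bd 0 UpperHalfPlane.I)

theorem lev_phase {c : Q2 → ℂ} (hc : Lev M c) {w : Q2} (hw : CM.IsInt ((M : ℚ) • w)) :
    Lev M fun v : Q2 => c v * eq (v.1 * w.2 - v.2 * w.1) := by
  refine ⟨fun x k hk => ?_, fun x hx => hc.2 x (left_ne_zero_of_mul hx)⟩
  obtain ⟨a, ha⟩ := (isInt_rat _).1 ((isInt_prod _).1 hw).1
  obtain ⟨b, hb⟩ := (isInt_rat _).1 ((isInt_prod _).1 hw).2
  obtain ⟨k1, hk1⟩ := (isInt_rat _).1 ((isInt_prod _).1 hk).1
  obtain ⟨k2, hk2⟩ := (isInt_rat _).1 ((isInt_prod _).1 hk).2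
  have ha' : (M : ℚ) * w.1 = a := ha
  have hb' : (M : ℚ) * w.2 = b := hb
  have e1 : (x + (M : ℚ) • k).1 * w.2 - (x + (M : ℚ) • k).2 * w.1 =
      (x.1 * w.2 - x.2 * w.1) + ((k1 * b - k2 * a : ℤ) : ℚ) := by
    simp only [Prod.fst_add, Prod.snd_add, Prod.smul_fst, Prod.smul_snd, smul_eq_mul, hk1, hk2]
    push_cast
    rw [← ha', ← hb']; ring
  beta_reduce
  rw [hc.1 x k hk, e1, eq_add, eq_int, mul_one]

theorem fam_hat (hM : 0 < M) (hF : Fam1 M C F) : Fam1 M (M ^ 2 * C) (Fhat F) := by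
  have hlev : ∀ τ, Lev M fun w => Fhat F w τ := fun τ => (hF.lev τ).lev_FS hM
  have hz : ∀ w, ¬ CM.IsInt ((M : ℚ) • w) → ∀ τ, Fhat F w τ = 0 := fun w hw τ => by
    by_contra h
    exact hw ((hlev τ).2 w h)
  refine ⟨hlev, fun w => ?_, fun w γ τ => ?_, fun w τ => ?_⟩
  · by_cases hw : CM.IsInt ((M : ℚ) • w)
    · obtain ⟨R, c, -, hR⟩ := exists_II_sum Q2 hM
      have : Fhat F w = fun τ => (c : ℂ) * ∑ r ∈ R, F r τ * eq (r.1 * w.2 - r.2 * w.1) :=
        funext fun τ => hR _ (lev_phase (hF.lev τ) hw)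
      rw [this]
      exact continuous_const.mul
        (continuous_finsetSum _ fun r _ => (hF.cont r).mul continuous_const)
    · have : Fhat F w = fun _ => 0 := funext (hz w hw)
      rw [this]
      exact continuous_const
  · unfold Fhat
    rw [← FS_vm]
    unfold FS
    rw [← II_const_mul]
    congr 1
    funext v
    beta_reduce
    rw [← hF.eqv v γ τ]
    ring
  · have hy : 0 < τ.im ^ (3 / 2 : ℝ) := Real.rpow_pos_of_pos τ.im_pos _
    by_cases hw : CM.IsInt ((M : ℚ) • w)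
    · have h1 := norm_II_le hM (lev_phase (hF.lev τ) hw) (C := C / τ.im ^ (3 / 2 : ℝ)) fun x => by
        rw [norm_mul, norm_eq, mul_one, le_div_iff₀ hy, mul_comm]
        exact hF.bd x τ
      rw [idx_prod, idx_rat] at h1
      have h2 : ‖Fhat F w τ‖ ≤ (M ^ 2 * C) / τ.im ^ (3 / 2 : ℝ) := by
        refine le_trans h1 (le_of_eq ?_)
        push_cast; ring
      rwa [le_div_iff₀ hy, mul_comm] at h2
    · rw [hz w hw, norm_zero, mul_zero]
      have := C_nonneg hF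
      positivity

/-- the summand -/
def GG (F : Q2 → ℍ → ℂ) (t : ℝ) (w : Q2) (τ : ℍ) : ℂ :=
  (τ.im : ℂ) ^ 2 * (F w τ * (lin w τ / τ.im) * gau w τ t)

/-- the integrand -/
def HH (F : Q2 → ℍ → ℂ) (t : ℝ) (τ : ℍ) : ℂ := (τ.im : ℂ) ^ 2 * K1 (fun w => F w τ) τ t

theorem HH_eq (F : Q2 → ℍ → ℂ) (t : ℝ) (τ : ℍ) : HH F t τ = ∑' w, GG F t w τ := by
  unfold HH K1 GG
  rw [tsum_mul_left]

theorem GG_eqv (hF : Fam1 M C F) (t : ℝ) (w : Q2) (γ : SL) (τ : ℍ) :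
    GG F t (vm w γ) τ = GG F t w (γ • τ) := by
  have hj := jf_ne_zero γ τ
  have hj' : conj (jf γ τ) ≠ 0 := (map_ne_zero _).2 hj
  have hy : (τ.im : ℂ) ≠ 0 := by exact_mod_cast τ.im_pos.ne'
  have e : (((γ • τ).im : ℝ) : ℂ) = τ.im / (jf γ τ * conj (jf γ τ)) := by
    rw [im_SL, Complex.mul_conj']; push_cast; rfl
  unfold GG
  rw [gau_smul, lin_smul, ← hF.eqv w γ τ, e]
  field_simp

theorem GG_zero (F : Q2 → ℍ → ℂ) (t : ℝ) (τ : ℍ) : GG F t 0 τ = 0 := by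
  simp [GG, lin]

theorem measurable_GG (hF : Fam1 M C F) (w : Q2) :
    Measurable fun p : ℝ × ℍ => GG F p.1 w p.2 := by
  have h1 : Continuous fun p : ℝ × ℍ => F w p.2 := (hF.cont w).comp continuous_snd
  have h2 : Continuous fun p : ℝ × ℍ => p.2.im := UpperHalfPlane.continuous_im.comp continuous_snd
  have h3 : Continuous fun p : ℝ × ℍ => lin w p.2 :=
    (continuous_const.mul (UpperHalfPlane.continuous_coe.comp continuous_snd)).add continuous_const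
  have h4 : Continuous fun p : ℝ × ℍ => (p.2.im : ℂ) := Complex.continuous_ofReal.comp h2
  have h5 : Continuous fun p : ℝ × ℍ => gau w p.2 p.1 :=
    Complex.continuous_ofReal.comp (Real.continuous_exp.comp
      (((continuous_const.mul continuous_fst).mul (h3.norm.pow 2)).div h2
        fun p => p.2.im_pos.ne'))
  refine Continuous.measurable ?_
  exact (h4.pow 2).mul ((h1.mul (h3.div h4 fun p => by exact_mod_cast p.2.im_pos.ne')).mul h5)

theorem measurable_HH (hF : Fam1 M C F) : Measurable fun p : ℝ × ℍ => HH F p.1 p.2 := by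
  simp only [HH_eq]
  exact Measurable.tsum fun w => measurable_GG hF w

theorem measurable_GG' (hF : Fam1 M C F) (t : ℝ) (w : Q2) : Measurable (GG F t w) :=
  Measurable.of_uncurry_left (f := fun t τ => GG F t w τ) (measurable_GG hF w)

theorem measurable_HH' (hF : Fam1 M C F) (t : ℝ) : Measurable (HH F t) :=
  Measurable.of_uncurry_left (f := HH F) (measurable_HH hF)

theorem HH_inv (hF : Fam1 M C F) (t : ℝ) (γ : SL) (τ : ℍ) : HH F t (γ • τ) = HH F t τ := by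
  rw [HH_eq, HH_eq]
  let σ : Q2 ≃ Q2 :=
    { toFun := fun w => vm w γ
      invFun := fun w => vm w γ⁻¹
      left_inv := fun w => by simp only [← vm_mul, mul_inv_cancel, vm_one]
      right_inv := fun w => by simp only [← vm_mul, inv_mul_cancel, vm_one] }
  rw [← σ.tsum_eq fun w => GG F t w τ]
  exact tsum_congr fun w => (GG_eqv hF t w γ τ).symm

theorem norm_GG_le (hF : Fam1 M C F) (t : ℝ) (w : Q2) (τ : ℍ) : ‖GG F t w τ‖ ≤
    C * ((‖lin w τ‖ ^ 2 / τ.im) ^ (1 / 2 : ℝ) * Real.exp (-π * t * (‖lin w τ‖ ^ 2 / τ.im))) := by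
  have hy := τ.im_pos
  have e1 : (‖lin w τ‖ ^ 2 / τ.im) ^ (1 / 2 : ℝ) = ‖lin w τ‖ / τ.im ^ (1 / 2 : ℝ) := by
    rw [Real.div_rpow (by positivity) hy.le, ← Real.sqrt_eq_rpow, Real.sqrt_sq (norm_nonneg _)]
  have e2 : τ.im ^ (3 / 2 : ℝ) = τ.im * τ.im ^ (1 / 2 : ℝ) := by
    rw [show (3 / 2 : ℝ) = 1 + 1 / 2 by norm_num, Real.rpow_add hy, Real.rpow_one]
  have h0 : 0 < τ.im ^ (1 / 2 : ℝ) := Real.rpow_pos_of_pos hy _
  have e3 : ‖GG F t w τ‖ = (τ.im ^ (3 / 2 : ℝ) * ‖F w τ‖) *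
      (‖lin w τ‖ / τ.im ^ (1 / 2 : ℝ) * Real.exp (-π * t * (‖lin w τ‖ ^ 2 / τ.im))) := by
    unfold GG gau
    rw [norm_mul, norm_mul, norm_mul, norm_div, norm_pow, Complex.norm_real, Complex.norm_real,
      Real.norm_of_nonneg hy.le, Real.norm_of_nonneg (Real.exp_pos _).le, e2, mul_div_assoc]
    field_simp
  rw [e3, e1]
  gcongr
  exact hF.bd w τ

/-- the bound on the fundamental domain -/
theorem sum_bd (hM : 0 < M) : ∃ K : ℝ, 0 ≤ K ∧ ∀ (C : ℝ) (F : Q2 → ℍ → ℂ), Fam1 M C F →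
    ∀ τ ∈ 𝒟, ∀ t : ℝ, 0 < t → (Summable fun w => ‖GG F t w τ‖) ∧ ∑' w, ‖GG F t w τ‖ ≤
      C * K * (t ^ (-(5 / 4 : ℝ)) + t ^ (-(7 / 2 : ℝ))) * τ.im ^ (3 / 4 : ℝ) := by
  obtain ⟨K, hK, h⟩ := key_bd hM
  refine ⟨K * ∑' w, sw M w, mul_nonneg hK (tsum_nonneg (sw_nonneg M)), fun C F hF τ hτ t ht => ?_⟩
  have hC := C_nonneg hF
  have hy := τ.im_pos
  have h1 : ∀ w, ‖GG F t w τ‖ ≤
      (C * K * (t ^ (-(5 / 4 : ℝ)) + t ^ (-(7 / 2 : ℝ))) * τ.im ^ (3 / 4 : ℝ)) * sw M w := by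
    intro w
    by_cases hw : CM.IsInt ((M : ℚ) • w)
    · refine (norm_GG_le hF t w τ).trans ?_
      refine (mul_le_mul_of_nonneg_left (h τ hτ t ht w hw) hC).trans (le_of_eq ?_)
      ring
    · have h0 : F w τ = 0 := by
        by_contra h0
        exact hw ((hF.lev τ).2 w h0)
      have := sw_nonneg M w
      rw [GG, h0, zero_mul, zero_mul, mul_zero, norm_zero]
      positivity
  have h2 := (summable_sw hM).mul_left
    (C * K * (t ^ (-(5 / 4 : ℝ)) + t ^ (-(7 / 2 : ℝ))) * τ.im ^ (3 / 4 : ℝ))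
  have h3 : Summable fun w => ‖GG F t w τ‖ :=
    Summable.of_nonneg_of_le (fun w => norm_nonneg _) h1 h2
  refine ⟨h3, (h3.tsum_le_tsum h1 h2).trans (le_of_eq ?_)⟩
  rw [tsum_mul_left]; ring

theorem integrableOn_im : IntegrableOn (fun τ : ℍ => τ.im ^ (3 / 4 : ℝ)) 𝒟 := by
  have h1 : Measurable fun τ : ℍ => ((τ.im ^ (3 / 4 : ℝ) : ℝ) : ℂ) :=
    Complex.measurable_ofReal.comp (UpperHalfPlane.continuous_im.measurable.pow_const _)
  have h2 := integrableOn_D h1 (K := 1) (a := 3 / 4) (by norm_num) fun τ _ => by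
    rw [Complex.norm_real, Real.norm_of_nonneg (Real.rpow_nonneg τ.im_pos.le _), one_mul]
  have h3 := Integrable.re h2
  simp only [RCLike.re_to_complex, Complex.ofReal_re] at h3
  exact h3

theorem HH_fe (hM : 0 < M) (hF : Fam1 M C F) {t : ℝ} (ht : 0 < t) (τ : ℍ) :
    HH F t τ = ((t : ℂ) ^ 2)⁻¹ * HH (Fhat F) t⁻¹ τ := by
  unfold HH
  rw [K1_fe ((hF.lev τ).sb hM) τ ht]
  change _ = _ * (_ * K1 (FS fun w => F w τ) τ t⁻¹)
  ring

theorem unfold_R1 (hM : 0 < M) (hF : Fam1 M C F) {t : ℝ} (ht : 0 < t) :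
    (∀ n : ℚ, 0 < n → IntegrableOn (fun y : ℝ =>
      (Real.exp (-π * t * n ^ 2 / y) : ℂ) * ct (F (0, n)) y / (y : ℂ)) (Set.Ioi 0)) ∧
    HasSum (fun n : ℚ => if 0 < n then n * ∫ y in Set.Ioi (0 : ℝ),
      (Real.exp (-π * t * n ^ 2 / y) : ℂ) * ct (F (0, n)) y / (y : ℂ) else 0) (R1 F t) := by
  obtain ⟨K, hK, hb⟩ := sum_bd hM
  have hC := C_nonneg hF
  have hD : MeasurableSet 𝒟 := ModularGroup.isClosed_fd.measurableSet
  have hfin : ∫⁻ τ, ENNReal.ofReal (b0 τ) * ∑' v, ‖GG F t v τ‖ₑ ≠ ⊤ := by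
    have h1 := (integrableOn_im.const_mul
      (C * K * (t ^ (-(5 / 4 : ℝ)) + t ^ (-(7 / 2 : ℝ))))).2
    rw [hasFiniteIntegral_iff_enorm, ← lintegral_indicator hD] at h1
    refine ne_top_of_le_ne_top h1.ne (lintegral_mono fun τ => ?_)
    by_cases hτ : τ ∈ 𝒟
    · rw [Set.indicator_of_mem hτ]
      obtain ⟨h2, h3⟩ := hb C F hF τ hτ t ht
      have h4 : ∑' v, ‖GG F t v τ‖ₑ = ENNReal.ofReal (∑' v, ‖GG F t v τ‖) := by
        rw [ENNReal.ofReal_tsum_of_nonneg (fun _ => norm_nonneg _) h2]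
        simp only [ofReal_norm]
      calc ENNReal.ofReal (b0 τ) * ∑' v, ‖GG F t v τ‖ₑ
          ≤ 1 * ENNReal.ofReal (∑' v, ‖GG F t v τ‖) := by
            rw [h4]
            gcongr
            exact ENNReal.ofReal_le_one.2 (b0_le_one τ)
        _ ≤ _ := by
            rw [one_mul, ← ofReal_norm]
            exact ENNReal.ofReal_le_ofReal (h3.trans (le_abs_self _))
    · have : b0 τ = 0 := by
        by_contra h
        exact hτ ((b0_ne_zero_iff τ).1 h)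
      simp [this]
  obtain ⟨-, h2, h3⟩ := unfold_vec (F := GG F t)
    (measurable_GG' hF t)
    (GG_eqv hF t) (GG_zero F t)
    (fun τ => (Summable.of_norm (summable_K1 ((hF.lev τ).sb hM) τ ht)).mul_left _) hfin
  have key : ∀ (n : ℚ) (y : ℝ), y ∈ Set.Ioi (0 : ℝ) → ct (GG F t (0, n)) y / (y : ℂ) ^ 2 =
      n * ((Real.exp (-π * t * n ^ 2 / y) : ℂ) * ct (F (0, n)) y / (y : ℂ)) := by
    intro n y hy
    have hy0 : (0 : ℝ) < y := hy
    have hy' : (y : ℂ) ≠ 0 := by exact_mod_cast hy0.ne'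
    have e1 : ∀ u, GG F t (0, n) (pt u y) =
        ((y : ℂ) * n * (Real.exp (-π * t * n ^ 2 / y) : ℂ)) * F (0, n) (pt u y) := by
      intro u
      have him : (pt u y).im = y := by
        rw [← UpperHalfPlane.coe_im, coe_pt u hy0]; simp
      have hl : lin (0, n) (pt u y) = n := by simp [lin]
      have hn : ‖(n : ℂ)‖ ^ 2 = (n : ℝ) ^ 2 := by
        rw [← Complex.ofReal_ratCast, Complex.norm_real, Real.norm_eq_abs, sq_abs]
      unfold GG gau
      rw [him, hl, hn]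
      field_simp
    unfold ct
    simp only [e1]
    rw [intervalIntegral.integral_const_mul]
    field_simp
  refine ⟨fun n hn => ?_, ?_⟩
  · have hn' : (n : ℂ) ≠ 0 := by exact_mod_cast hn.ne'
    refine IntegrableOn.congr_fun (Integrable.const_mul (h2 n hn) (n : ℂ)⁻¹) (fun y hy => ?_)
      measurableSet_Ioi
    rw [key n y hy, ← mul_assoc, inv_mul_cancel₀ hn', one_mul]
  · have e : R1 F t = hmean fun τ => ∑' v, GG F t v τ := by
      unfold R1
      congr 1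
      funext τ
      exact HH_eq F t τ
    rw [e]
    convert h3 using 2 with n
    split_ifs
    · rw [setIntegral_congr_fun measurableSet_Ioi (key n), integral_const_mul]
    · rfl

open Classical in
/-- the integrable majorant in `t` -/
def gt (t : ℝ) : ℝ := if 1 < t then t ^ (-(5 / 4 : ℝ)) else t ^ (-(3 / 4 : ℝ))

theorem integrableOn_gt : IntegrableOn gt (Set.Ioi 0) := by
  rw [← Set.Ioc_union_Ioi_eq_Ioi zero_le_one]
  refine IntegrableOn.union ?_ ?_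
  · have h1 : IntegrableOn (fun t : ℝ => t ^ (-(3 / 4 : ℝ))) (Set.Ioc 0 1) := by
      rw [integrableOn_Ioc_iff_integrableOn_Ioo]
      exact (intervalIntegral.integrableOn_Ioo_rpow_iff one_pos).2 (by norm_num)
    refine h1.congr_fun (fun t ht => ?_) measurableSet_Ioc
    rw [gt, if_neg (not_lt.2 ht.2)]
  · refine (integrableOn_Ioi_rpow_of_lt (a := -(5 / 4)) (by norm_num) one_pos).congr_fun
      (fun t ht => ?_) measurableSet_Ioi
    rw [gt, if_pos (Set.mem_Ioi.1 ht)]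

theorem HH_bd1 (hM : 0 < M) : ∃ K : ℝ, 0 ≤ K ∧ ∀ (C : ℝ) (F : Q2 → ℍ → ℂ), Fam1 M C F →
    ∀ τ ∈ 𝒟, ∀ t : ℝ, 1 ≤ t → ‖HH F t τ‖ ≤ C * K * t ^ (-(5 / 4 : ℝ)) * τ.im ^ (3 / 4 : ℝ) := by
  obtain ⟨K, hK, h⟩ := sum_bd hM
  refine ⟨2 * K, by positivity, fun C F hF τ hτ t ht => ?_⟩
  obtain ⟨h1, h2⟩ := h C F hF τ hτ t (one_pos.trans_le ht)
  have hC := C_nonneg hF
  have hy := τ.im_pos
  rw [HH_eq]
  refine ((norm_tsum_le_tsum_norm h1).trans h2).trans ?_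
  have h3 : t ^ (-(7 / 2 : ℝ)) ≤ t ^ (-(5 / 4 : ℝ)) :=
    Real.rpow_le_rpow_of_exponent_le ht (by norm_num)
  calc C * K * (t ^ (-(5 / 4 : ℝ)) + t ^ (-(7 / 2 : ℝ))) * τ.im ^ (3 / 4 : ℝ)
      ≤ C * K * (t ^ (-(5 / 4 : ℝ)) + t ^ (-(5 / 4 : ℝ))) * τ.im ^ (3 / 4 : ℝ) := by gcongr
    _ = _ := by ring

theorem HH_bd (hM : 0 < M) : ∃ K : ℝ, 0 ≤ K ∧ ∀ (C : ℝ) (F : Q2 → ℍ → ℂ), Fam1 M C F →
    ∀ τ ∈ 𝒟, ∀ t : ℝ, 0 < t → ‖HH F t τ‖ ≤ C * K * (gt t * τ.im ^ (3 / 4 : ℝ)) := by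
  obtain ⟨K, hK, h⟩ := HH_bd1 hM
  have hM1 : (1 : ℝ) ≤ (M : ℝ) ^ 2 := one_le_pow₀ (by exact_mod_cast hM)
  refine ⟨M ^ 2 * K, by positivity, fun C F hF τ hτ t ht => ?_⟩
  have hC := C_nonneg hF
  have hy := τ.im_pos
  unfold gt
  split_ifs with h1
  · refine (h C F hF τ hτ t h1.le).trans ?_
    calc C * K * t ^ (-(5 / 4 : ℝ)) * τ.im ^ (3 / 4 : ℝ)
        = C * (1 * K) * (t ^ (-(5 / 4 : ℝ)) * τ.im ^ (3 / 4 : ℝ)) := by ring
      _ ≤ _ := by gcongr
  · have h2 := h _ _ (fam_hat hM hF) τ hτ t⁻¹ ((one_le_inv₀ ht).2 (not_lt.1 h1))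
    have e : (t ^ 2)⁻¹ * t⁻¹ ^ (-(5 / 4 : ℝ)) = t ^ (-(3 / 4 : ℝ)) := by
      rw [Real.inv_rpow ht.le, ← Real.rpow_neg ht.le, ← Real.rpow_two, ← Real.rpow_neg ht.le,
        ← Real.rpow_add ht]
      norm_num
    rw [HH_fe hM hF ht, norm_mul, norm_inv, norm_pow, Complex.norm_real, Real.norm_of_nonneg ht.le,
      ← e]
    calc (t ^ 2)⁻¹ * ‖HH (Fhat F) t⁻¹ τ‖
        ≤ (t ^ 2)⁻¹ * (M ^ 2 * C * K * t⁻¹ ^ (-(5 / 4 : ℝ)) * τ.im ^ (3 / 4 : ℝ)) := by gcongr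
      _ = _ := by ring

theorem R1_eq (hM : 0 < M) (hF : Fam1 M C F) {t : ℝ} (ht : 0 < t) :
    R1 F t = ∫ τ, (b0 τ : ℂ) * HH F t τ := by
  obtain ⟨K, -, h⟩ := HH_bd hM
  refine (hmean_level_one (w := HH F t) (fun γ _ τ => HH_inv hF t γ τ) (measurable_HH' hF t)
    (integrableOn_D (measurable_HH' hF t) (K := C * K * gt t) (a := 3 / 4) (by norm_num)
      fun τ hτ => ?_)).2
  rw [mul_assoc (C * K)]
  exact h C F hF τ hτ t ht

theorem fubini (hM : 0 < M) : ∃ K : ℝ, ∀ (C : ℝ) (F : Q2 → ℍ → ℂ), Fam1 M C F →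
    IntegrableOn (R1 F) (Set.Ioi 0) ∧ (∫ t in Set.Ioi (0 : ℝ), ‖R1 F t‖) ≤ K * C ∧
    ∫ t in Set.Ioi (0 : ℝ), R1 F t = hmean fun τ => (τ.im : ℂ) ^ 2 * EE (fun w => F w τ) τ := by
  obtain ⟨K, hK, h⟩ := HH_bd hM
  have hD : MeasurableSet 𝒟 := ModularGroup.isClosed_fd.measurableSet
  obtain ⟨ψ, hψ⟩ : ∃ ψ : ℍ → ℝ, ψ = Set.indicator 𝒟 fun τ : ℍ => τ.im ^ (3 / 4 : ℝ) := ⟨_, rfl⟩
  have hψi : Integrable ψ := hψ ▸ (integrable_indicator_iff hD).2 integrableOn_im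
  refine ⟨K * ((∫ t in Set.Ioi (0 : ℝ), gt t) * ∫ τ, ψ τ), fun C F hF => ?_⟩
  have hC := C_nonneg hF
  have hb : ∀ t : ℝ, 0 < t → ∀ τ, ‖(b0 τ : ℂ) * HH F t τ‖ ≤ C * K * (gt t * ψ τ) := by
    intro t ht τ
    by_cases hτ : τ ∈ 𝒟
    · rw [hψ, Set.indicator_of_mem hτ, norm_mul, Complex.norm_real,
        Real.norm_of_nonneg (b0_nonneg τ)]
      exact (mul_le_of_le_one_left (norm_nonneg _) (b0_le_one τ)).trans (h C F hF τ hτ t ht)
    · have : b0 τ = 0 := by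
        by_contra h
        exact hτ ((b0_ne_zero_iff τ).1 h)
      rw [hψ, Set.indicator_of_notMem hτ, this]
      simp
  have hmaj : Integrable (fun p : ℝ × ℍ => C * K * (gt p.1 * ψ p.2))
      ((volume.restrict (Set.Ioi (0 : ℝ))).prod volume) :=
    (Integrable.mul_prod integrableOn_gt hψi).const_mul _
  have hmeas : Measurable fun p : ℝ × ℍ => (b0 p.2 : ℂ) * HH F p.1 p.2 :=
    (Complex.measurable_ofReal.comp (measurable_b0.comp measurable_snd)).mul (measurable_HH hF)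
  have hint : Integrable (Function.uncurry fun (t : ℝ) (τ : ℍ) => (b0 τ : ℂ) * HH F t τ)
      ((volume.restrict (Set.Ioi (0 : ℝ))).prod volume) := by
    refine hmaj.mono' hmeas.aestronglyMeasurable ?_
    have h1 : ∀ᵐ p : ℝ × ℍ ∂((volume.restrict (Set.Ioi (0 : ℝ))).prod volume), 0 < p.1 :=
      Measure.quasiMeasurePreserving_fst.ae (ae_restrict_mem measurableSet_Ioi)
    filter_upwards [h1] with p hp using hb p.1 hp p.2
  have hR : ∀ t ∈ Set.Ioi (0 : ℝ), ∫ τ, (b0 τ : ℂ) * HH F t τ = R1 F t :=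
    fun t ht => (R1_eq hM hF ht).symm
  have h1 : IntegrableOn (R1 F) (Set.Ioi 0) :=
    IntegrableOn.congr_fun hint.integral_prod_left hR measurableSet_Ioi
  refine ⟨h1, ?_, ?_⟩
  · calc ∫ t in Set.Ioi (0 : ℝ), ‖R1 F t‖
        ≤ ∫ t in Set.Ioi (0 : ℝ), C * K * (gt t * ∫ τ, ψ τ) := by
          refine setIntegral_mono_on h1.norm ((integrableOn_gt.mul_const _).const_mul _)
            measurableSet_Ioi fun t ht => ?_
          rw [← hR t ht, ← integral_const_mul, ← integral_const_mul]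
          exact norm_integral_le_of_norm_le ((hψi.const_mul _).const_mul _)
            (Eventually.of_forall (hb t ht))
      _ = _ := by
          rw [integral_const_mul, integral_mul_const]; ring
  · have e : (fun τ : ℍ => (τ.im : ℂ) ^ 2 * EE (fun w => F w τ) τ) =
        fun τ => ∫ t in Set.Ioi (0 : ℝ), HH F t τ := by
      funext τ
      unfold EE HH
      rw [integral_const_mul]
    have hm : Measurable fun τ : ℍ => ∫ t in Set.Ioi (0 : ℝ), HH F t τ :=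
      (StronglyMeasurable.integral_prod_left (f := HH F)
        (measurable_HH hF).stronglyMeasurable).measurable
    have h2 : Integrable fun τ : ℍ => (b0 τ : ℂ) * ∫ t in Set.Ioi (0 : ℝ), HH F t τ := by
      have := hint.integral_prod_right
      simp only [Function.uncurry_apply_pair, integral_const_mul] at this
      exact this
    rw [e, (hmean_level_one (fun γ _ τ => by simp only [HH_inv hF]) hm
      ((integrable_b0_iff hm).1 h2)).2, ← setIntegral_congr_fun measurableSet_Ioi hR,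
      integral_integral_swap hint]
    simp only [integral_const_mul]

end RS1P

theorem rs1 : S_EE → S_RS1 := by
  intro _ M hM
  obtain ⟨K, hK⟩ := RS1P.fubini hM
  refine ⟨K, fun C F hF => ⟨RS1P.fam_hat hM hF, fun t ht => RS1P.unfold_R1 hM hF ht,
    fun t ht => ?_, hK C F hF⟩⟩
  have e : RS1P.HH F t = ((t : ℂ) ^ 2)⁻¹ • RS1P.HH (Fhat F) t⁻¹ :=
    funext fun τ => RS1P.HH_fe hM hF ht τ
  change hmean (RS1P.HH F t) = _ * hmean (RS1P.HH (Fhat F) t⁻¹)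
  rw [e, hmean_smul]

end

end Pool.Agent.P.MP_b8021b_nt.CM
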