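import Pool.Agent.P.MP_b8021b_nt.CM.Lib
import Pool.Agent.P.MP_b8021b_nt.CM.StmtsW

/-! Package P27: the first reflection. -/

namespace Pool.Agent.P.MP_b8021b_nt.CM

open Complex hiding Gamma
open UpperHalfPlane hiding I
open MeasureTheory CongruenceSubgroup Filter
open scoped Real MatrixGroups ModularForm Topology ComplexConjugate Modular

noncomputable section

namespace RSGP

/-! ### the function `un` -/

theorem un_int (M : ℕ) (a : ℤ) : un M (a : ℚ) = if IsCoprime a M then 1 else 0 := by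
  simp [un]

theorem un_ne {M : ℕ} {n : ℚ} (h : un M n ≠ 0) : ∃ a : ℤ, n = a ∧ IsCoprime a M := by
  unfold un at h
  split_ifs at h with h1
  · exact ⟨n.num, (Rat.coe_int_num_of_den_eq_one h1.1).symm, h1.2⟩
  · exact absurd rfl h

theorem cop_congr {M : ℕ} {a b : ℤ} (h : (M : ℤ) ∣ a - b) (ha : IsCoprime a M) :
    IsCoprime b M := by
  obtain ⟨k, hk⟩ := h
  have : b = a + M * (-k) := by linear_combination -hk
  rw [this]
  exact ha.add_mul_left_left _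

theorem un_congr {M : ℕ} {a b : ℤ} (h : (M : ℤ) ∣ a - b) : un M (a : ℚ) = un M (b : ℚ) := by
  rw [un_int, un_int]
  refine if_congr ⟨cop_congr h, cop_congr ?_⟩ rfl rfl
  simpa using h.neg_right

theorem lev_un (M : ℕ) : Lev M (un M) := by
  refine ⟨fun x k hk => ?_, fun x hx => ?_⟩
  · obtain ⟨k, rfl⟩ := (isInt_rat _).1 hk
    by_cases hx : ∃ a : ℤ, x = a
    · obtain ⟨a, rfl⟩ := hx
      have : (a : ℚ) + (M : ℚ) • (k : ℚ) = ((a + M * k : ℤ) : ℚ) := by simp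
      rw [this]
      exact un_congr ⟨k, by ring⟩
    · have h1 : un M x = 0 := by
        by_contra h
        obtain ⟨a, ha, -⟩ := un_ne h
        exact hx ⟨a, ha⟩
      rw [h1]
      by_contra h
      obtain ⟨a, ha, -⟩ := un_ne h
      refine hx ⟨a - M * k, ?_⟩
      simp only [smul_eq_mul] at ha
      push_cast
      linarith
  · obtain ⟨a, rfl, -⟩ := un_ne hx
    exact IsInt.nsmul ((isInt_rat _).2 ⟨a, rfl⟩) M

theorem cop_of_dvd {M : ℕ} {δ : SL} (h : (M : ℤ) ∣ δ 1 0) :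
    IsCoprime (δ 0 0) M ∧ IsCoprime (δ 1 1) M := by
  obtain ⟨k, hk⟩ := h
  have hd := ar_SL_det δ
  rw [hk] at hd
  exact ⟨⟨δ 1 1, -(δ 0 1 * k), by linear_combination hd⟩,
    ⟨δ 0 0, -(δ 0 1 * k), by linear_combination hd⟩⟩

theorem vm_zero_ne {g : ℚ} (hg : 0 < g) (γ : SL) : vm (0, g) γ ≠ 0 := by
  intro h
  rw [ar_vm_row, Prod.ext_iff] at h
  simp only [Prod.fst_zero, Prod.snd_zero, mul_eq_zero, hg.ne', false_or, Int.cast_eq_zero] at h
  have hd := ar_SL_det γ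
  rw [h.1, h.2] at hd
  simp at hd

/-- the section attached to an invariant vector -/
theorem sec_gen {V : Type} [AddCommGroup V] [Module ℂ V] {M : ℕ} (hM : 1 < M) (A : SL → V → V)
    (h0 : ∀ γ, A γ 0 = 0) (h1 : ∀ x, A 1 x = x)
    (hmul : ∀ γ δ x, A (γ * δ) x = A δ (A γ x)) (v : V)
    (hv : ∀ δ : SL, ((M ^ 2 : ℕ) : ℤ) ∣ δ 1 0 → A δ v = v) :
    ∃ F : Q2 → V, (∀ w γ, F (vm w γ) = A γ (F w)) ∧
      (∀ w, F w = 0 ∨ IsInt w ∧ ∃ γ, F w = A γ v) ∧
      (∀ w k : Q2, IsInt k → F (w + ((M ^ 2 : ℕ) : ℚ) • k) = F w) ∧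
      (∀ n : ℚ, 0 < n → F (0, n) = un M n • v) ∧ F 0 = 0 := by
  have hM2 : 1 < M ^ 2 := Nat.one_lt_pow two_ne_zero hM
  have hdv : (M : ℤ) ∣ ((M ^ 2 : ℕ) : ℤ) := by push_cast; exact dvd_pow_self _ two_ne_zero
  obtain ⟨F, F1, F2, F3, F4, -⟩ := exists_sec hM2 (fun a : ℤ => un M (a : ℚ))
    (by rw [un_int, if_pos isCoprime_one_left])
    (fun a b => by
      rw [un_int, un_int, un_int]
      by_cases ha : IsCoprime a M <;> by_cases hb : IsCoprime b M <;>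
        simp [ha, hb, IsCoprime.mul_left_iff])
    (fun a b h => un_congr (hdv.trans h)) (fun γ => A γ v)
    (fun δ γ h => by
      rw [hmul, hv δ h, un_int, if_pos (cop_of_dvd (hdv.trans h)).2, one_smul])
  have F1' : ∀ g : ℕ, 0 < g → g.Coprime (M ^ 2) → ∀ γ, F (vm (0, g) γ) = A γ v := by
    intro g hg hc γ
    rw [F1 g hg hc γ, un_int, if_pos, one_smul]
    exact Nat.isCoprime_iff_coprime.2 ((Nat.coprime_pow_right_iff two_pos _ _).1 hc)
  refine ⟨F, fun w γ => ?_, fun w => ?_, F4, fun n hn => ?_, ?_⟩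
  · by_cases h : ∃ (g : ℕ) (δ : SL), 0 < g ∧ g.Coprime (M ^ 2) ∧ w = vm (0, g) δ
    · obtain ⟨g, δ, hg, hc, rfl⟩ := h
      rw [← vm_mul, F1' g hg hc, F1' g hg hc, hmul]
    · rw [(F3 w γ h).1, (F3 w γ h).2, h0]
  · rcases F2 w with h | ⟨g, γ, hg, hc, rfl⟩
    · exact Or.inl h
    · refine Or.inr ⟨?_, γ, F1' g hg hc γ⟩
      rw [ar_vm_row, isInt_prod]
      exact ⟨(isInt_rat _).2 ⟨g * γ 1 0, by simp⟩, (isInt_rat _).2 ⟨g * γ 1 1, by simp⟩⟩
  · by_cases h : un M n = 0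
    · rw [h, zero_smul]
      rcases F2 (0, n) with h' | ⟨g, γ, hg, hc, e⟩
      · exact h'
      · rw [← vm_one (0, n)] at e
        obtain ⟨e1, -⟩ := vm_decomp_unique hn (by exact_mod_cast hg) e
        have : un M n = 1 := by
          rw [e1, ← Int.cast_natCast, un_int, if_pos]
          exact Nat.isCoprime_iff_coprime.2 ((Nat.coprime_pow_right_iff two_pos _ _).1 hc)
        rw [this] at h
        exact absurd h one_ne_zero
    · obtain ⟨a, rfl, ha⟩ := un_ne h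
      have ha0 : 0 < a := by exact_mod_cast hn
      obtain ⟨g, rfl⟩ := Int.eq_ofNat_of_zero_le ha0.le
      have := F1' g (by exact_mod_cast ha0)
        ((Nat.coprime_pow_right_iff two_pos _ _).2 (Nat.isCoprime_iff_coprime.1 ha)) 1
      rw [vm_one, h1] at this
      rw [un_int, if_pos ha, one_smul, Int.cast_natCast, this]
  · rcases F2 0 with h | ⟨g, γ, hg, -, e⟩
    · exact h
    · exact absurd e.symm (vm_zero_ne (by exact_mod_cast hg) γ)

/-! ### invariance of nice vectors -/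

variable {d M : ℕ} {s : ℍ → ℍ → ℂ} {v : U6 → U6 → ℂ}

theorem kap2_apply (γ : SL) (v : U6 → U6 → ℂ) (u' u : U6) : kap2 γ v u' u =
    v (((γ 0 0 : ℤ) : ℚ) • u' - ((γ 0 1 : ℤ) : ℚ) • u)
      (((γ 1 1 : ℤ) : ℚ) • u - ((γ 1 0 : ℤ) : ℚ) • u') := by
  unfold kap2 kp
  congr 1
  · simp [Matrix.SpecialLinearGroup.coe_inv, Matrix.adjugate_fin_two, Int.cast_smul_eq_zsmul,
      sub_eq_add_neg]
  · simp [Matrix.SpecialLinearGroup.coe_inv, Matrix.adjugate_fin_two, Int.cast_smul_eq_zsmul,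
      sub_eq_add_neg, add_comm]

theorem kap2_one (v : U6 → U6 → ℂ) : kap2 1 v = v := by
  ext u' u
  simp [kap2_apply]

theorem kT_zsmul (h : kap2 ModularGroup.T v = v) (k : ℤ) (u' u : U6) :
    v (u' - (k : ℚ) • u) u = v u' u := by
  have h1 : ∀ u' u, v (u' - u) u = v u' u := fun u' u => by
    have := congrFun (congrFun h u') u
    rw [kap2_apply] at this
    simpa [ModularGroup.coe_T] using this
  induction k using Int.induction_on with
  | zero => simp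
  | succ n ih =>
    rw [← ih, ← h1 (u' - ((n : ℤ) : ℚ) • u) u]
    congr 1
    push_cast
    rw [add_smul, one_smul, sub_sub]
  | pred n ih =>
    rw [← ih, ← h1 (u' - ((-(n : ℤ) - 1 : ℤ) : ℚ) • u) u]
    congr 1
    push_cast
    rw [sub_smul, one_smul]
    abel

theorem kap2_nice (hd : 0 < d) (hM : 0 < M) (h : Nice0 d M v) (δ : SL)
    (hδ : ((M ^ 2 : ℕ) : ℤ) ∣ δ 1 0) : kap2 δ v = v := by
  have hdv : (M : ℤ) ∣ ((M ^ 2 : ℕ) : ℤ) := by push_cast; exact dvd_pow_self _ two_ne_zero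
  obtain ⟨ca, cd⟩ := cop_of_dvd (hdv.trans hδ)
  ext u' u
  by_cases hi : IsInt ((M : ℚ) • u') ∧ IsInt ((M : ℚ) • u)
  · obtain ⟨k, hk⟩ := hδ
    rw [kap2_apply]
    have e1 : ((δ 1 1 : ℤ) : ℚ) • u - ((δ 1 0 : ℤ) : ℚ) • u' =
        ((δ 1 1 : ℤ) : ℚ) • u + (M : ℚ) • (((-k : ℤ) : ℚ) • ((M : ℚ) • u')) := by
      rw [hk]
      push_cast
      module
    rw [e1, ((h.lev.2 _).lev hd hM).1 _ _ (hi.1.zsmul _), h.sc2 _ cd _ _ hi.2, kT_zsmul h.kT,
      h.sc1 _ ca _ _ hi.1]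
  · have h1 : ∀ v' : U6 → U6 → ℂ, LevV d M v' → v' u' u = 0 := fun v' hv' => by
      by_contra hne
      exact hi ((hv'.lev hd hM).2 (u', u) hne)
    rw [h1 _ h.lev, h1 _ (h.lev.levV_kap2 δ)]

/-! ### the unfolded convolution -/

/-- the unfolded integral -/
def JJ (s : ℍ → ℍ → ℂ) (d : ℕ) (v : U6 → U6 → ℂ) (ρ t : ℝ) (n : ℚ) : ℂ :=
  ∫ y in Set.Ioi (0 : ℝ), (Real.exp (-π * t * n ^ 2 / y) : ℂ) * ct (GZ s d v ρ) y / (y : ℂ) ^ 2

theorem int_sub (G : ℝ → ℂ) (b : ℝ) :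
    ∫ y in Set.Ioi (0 : ℝ), G y = ∫ u : ℝ, (Real.exp (b - u) : ℂ) * G (Real.exp (b - u)) := by
  have h1 : (fun u : ℝ => Real.exp (b - u)) '' Set.univ = Set.Ioi 0 := by
    ext y
    simp only [Set.image_univ, Set.mem_range, Set.mem_Ioi]
    exact ⟨fun ⟨u, hu⟩ => hu ▸ Real.exp_pos _, fun hy => ⟨b - Real.log y, by
      rw [sub_sub_cancel, Real.exp_log hy]⟩⟩
  have h2 := integral_image_eq_integral_abs_deriv_smul (s := Set.univ)
    (f := fun u : ℝ => Real.exp (b - u)) (f' := fun u => -Real.exp (b - u)) MeasurableSet.univ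
    (fun u _ => HasDerivAt.hasDerivWithinAt (by simpa using ((hasDerivAt_id u).const_sub b).exp))
    (fun x _ y _ h => by simpa using h) G
  rw [h1, Measure.restrict_univ] at h2
  rw [h2]
  refine integral_congr_ae (Eventually.of_forall fun u => ?_)
  simp only [abs_neg, abs_of_pos (Real.exp_pos _), Complex.real_smul]

theorem sb_norm {c : ℚ → ℂ} (h : SB c) : SB fun n => ((‖c n‖ : ℝ) : ℂ) := by
  obtain ⟨K, hK, h1, h2⟩ := h
  exact ⟨K, hK, fun x k hk => by simp only [h1 x k hk], fun x hx => h2 x fun h0 => hx (by simp [h0])⟩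

theorem summable_ker {c : ℚ → ℂ} (h : SB c) (u : ℝ) :
    Summable fun n : ℚ => ‖c n‖ * Real.exp (-π * n ^ 2 * Real.exp u) := by
  have := summable_gauss h (a := (Real.exp u : ℂ)) (by rw [ofReal_re]; exact Real.exp_pos u) 0 0
  refine this.congr fun n => ?_
  have e : -(π : ℂ) * (Real.exp u : ℂ) * (n : ℂ) ^ 2 + 2 * π * 0 * n =
      ((-π * n ^ 2 * Real.exp u : ℝ) : ℂ) := by push_cast; ring
  rw [e, pow_zero, mul_one, norm_mul, ← ofReal_exp, norm_real, Real.norm_eq_abs,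
    abs_of_pos (Real.exp_pos _)]

theorem cv_hasSum {g : ℝ × ℝ → ℂ} (hg : Measurable g) {c : ℚ → ℂ} (hc : SB c) (α ξ : ℝ × ℝ)
    (hi : Integrable fun u : ℝ => g (ξ - u • α) * ker0 (fun n => ((‖c n‖ : ℝ) : ℂ)) u) :
    HasSum (fun n : ℚ => if 0 < n then c n * ∫ u : ℝ, g (ξ - u • α) *
      ((Real.exp (u / 2) * Real.exp (-π * n ^ 2 * Real.exp u) : ℝ) : ℂ) else 0)
      (cv α g (ker0 c) ξ) := by
  classical
  have hgm : Measurable fun u : ℝ => g (ξ - u • α) := hg.comp (by fun_prop)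
  have hs : ∀ u : ℝ, Summable fun n : ℚ =>
      if 0 < n then ‖c n‖ * Real.exp (-π * n ^ 2 * Real.exp u) else 0 := fun u =>
    Summable.of_nonneg_of_le (fun n => by split_ifs <;> positivity)
      (fun n => by split_ifs <;> [exact le_rfl; positivity]) (summable_ker hc u)
  have key := hasSum_integral_of_dominated_convergence (μ := (volume : Measure ℝ))
    (F := fun (n : ℚ) (u : ℝ) => g (ξ - u • α) * ((Real.exp (u / 2) : ℂ) *
      if 0 < n then c n * ((Real.exp (-π * n ^ 2 * Real.exp u) : ℝ) : ℂ) else 0))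
    (f := fun u => g (ξ - u • α) * ker0 c u)
    (fun n u => ‖g (ξ - u • α)‖ * (Real.exp (u / 2) *
      if 0 < n then ‖c n‖ * Real.exp (-π * n ^ 2 * Real.exp u) else 0))
    (fun n => by
      refine (hgm.mul (Measurable.mul (by fun_prop) ?_)).aestronglyMeasurable
      split_ifs
      · fun_prop
      · exact measurable_const)
    (fun n => Eventually.of_forall fun u => by
      rw [norm_mul, norm_mul, norm_real, Real.norm_eq_abs, abs_of_pos (Real.exp_pos _)]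
      split_ifs
      · rw [norm_mul, norm_real, Real.norm_eq_abs, abs_of_pos (Real.exp_pos _)]
      · simp)
    (Eventually.of_forall fun u => ((hs u).mul_left _).mul_left _)
    (by
      refine hi.norm.congr (Eventually.of_forall fun u => ?_)
      simp only
      rw [tsum_mul_left, tsum_mul_left, norm_mul, ker0, norm_mul, norm_real, Real.norm_eq_abs,
        abs_of_pos (Real.exp_pos _)]
      congr 2
      have e : (∑' n : ℚ, if 0 < n then ((‖c n‖ : ℝ) : ℂ) *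
          ((Real.exp (-π * n ^ 2 * Real.exp u) : ℝ) : ℂ) else 0) = ((∑' n : ℚ,
          if 0 < n then ‖c n‖ * Real.exp (-π * n ^ 2 * Real.exp u) else 0 : ℝ) : ℂ) := by
        rw [ofReal_tsum]
        refine tsum_congr fun n => ?_
        split_ifs <;> simp
      rw [e, norm_real, Real.norm_eq_abs, abs_of_nonneg]
      exact tsum_nonneg fun n => by split_ifs <;> positivity)
    (Eventually.of_forall fun u => by
      refine (HasSum.mul_left _ (Summable.hasSum ?_)).mul_left _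
      refine Summable.of_norm ((hs u).congr fun n => ?_)
      split_ifs
      · rw [norm_mul, norm_real, Real.norm_eq_abs, abs_of_pos (Real.exp_pos _)]
      · simp)
  refine key.congr_fun ?_
  intro n
  split_ifs
  · rw [← integral_const_mul]
    refine integral_congr_ae (Eventually.of_forall fun u => ?_)
    push_cast
    ring
  · simp

theorem cv_unfold (hGZ : S_GZW) (hB : S_B0W) (hK : S_Ker) (hs : InW s) (hd : 0 < d) (hM : 0 < M)
    (hv : LevV d M v) (hT : kap2 ModularGroup.T v = v) {c : ℚ → ℂ} (hc : SB c) (ξ : ℝ × ℝ) :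
    HasSum (fun n : ℚ => ((Real.exp (3 * (ξ.1 + ξ.2) / 4) * Real.exp ((ξ.2 - ξ.1) / 4) : ℝ) : ℂ) *
      if 0 < n then c n * JJ s d v (Real.exp ((ξ.1 + ξ.2) / 2)) (Real.exp ((ξ.2 - ξ.1) / 2)) n
        else 0) (cv (-1, 1) (gv s d v) (ker0 c) ξ) := by
  obtain ⟨A, -, hB⟩ := hB
  obtain ⟨b1, -, -, -, -, -, b2⟩ := hB s hs d M hd hM v hv
  have hρ := Real.exp_pos ((ξ.1 + ξ.2) / 2)
  obtain ⟨-, -, -, -, -, g1⟩ := hGZ s hs d M hd hM v hv _ hρ
  refine (cv_hasSum b1.1 hc (-1, 1) ξ ((b2 _ (Or.inl rfl) _ (hK.1 _ (sb_norm hc)).1).2 ξ)).congr_fun ?_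
  intro n
  split_ifs
  swap
  · simp
  rw [mul_left_comm, JJ, int_sub _ ((ξ.2 - ξ.1) / 2), ← integral_const_mul]
  congr 1
  refine integral_congr_ae (Eventually.of_forall fun u => ?_)
  have g2 := g1 hT _ (Real.exp_pos ((ξ.2 - ξ.1) / 2 - u))
  rw [← Real.exp_sub, ← Real.exp_add, Real.log_exp, Real.log_exp, ← Real.exp_mul,
    ← Real.exp_mul] at g2
  have e1 : ξ - u • ((-1, 1) : ℝ × ℝ) = ((ξ.1 + ξ.2) / 2 - ((ξ.2 - ξ.1) / 2 - u),
      (ξ.1 + ξ.2) / 2 + ((ξ.2 - ξ.1) / 2 - u)) := by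
    ext <;> simp <;> ring
  have e2 : -π * Real.exp ((ξ.2 - ξ.1) / 2) * (n : ℝ) ^ 2 / Real.exp ((ξ.2 - ξ.1) / 2 - u) =
      -π * n ^ 2 * Real.exp u := by
    rw [Real.exp_sub]
    field_simp
  simp only
  rw [e1, g2, e2]
  have e3 : Real.exp ((ξ.1 + ξ.2) / 2 * (3 / 2)) * Real.exp (((ξ.2 - ξ.1) / 2 - u) * -(1 / 2)) *
      Real.exp (u / 2) * Real.exp ((ξ.2 - ξ.1) / 2 - u) =
      Real.exp (3 * (ξ.1 + ξ.2) / 4) * Real.exp ((ξ.2 - ξ.1) / 4) := by
    simp only [← Real.exp_add]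
    congr 1
    ring
  rw [← e3]
  have e4 : ((Real.exp ((ξ.2 - ξ.1) / 2 - u) : ℝ) : ℂ) ≠ 0 := ofReal_ne_zero.2 (Real.exp_pos _).ne'
  simp only [ofReal_mul]
  field_simp

/-! ### the functional equation -/

theorem FS_sum {N : ℕ} (hN : 0 < N) (w : Q2) : ∃ (R : Finset Q2) (a : Q2 → ℂ),
    ∀ φ : Q2 → ℂ, Lev N φ → FS φ w = ∑ r ∈ R, a r * φ r := by
  obtain ⟨K, hK, hw⟩ := Lat.den w
  obtain ⟨h1, h2⟩ := (isInt_prod _).1 hw
  obtain ⟨a1, h1⟩ := (isInt_rat _).1 h1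
  obtain ⟨a2, h2⟩ := (isInt_rat _).1 h2
  simp only [Prod.smul_fst, Prod.smul_snd, smul_eq_mul] at h1 h2
  obtain ⟨R, c, -, hR⟩ := exists_II_sum Q2 (Nat.mul_pos hN hK)
  refine ⟨R, fun r => c * eq (r.1 * w.2 - r.2 * w.1), fun φ hφ => ?_⟩
  have hφ' : Lev (N * K) φ := hφ.mono (dvd_mul_right _ _)
  rw [FS, hR, Finset.mul_sum]
  · exact Finset.sum_congr rfl fun r _ => by ring
  refine ⟨fun x k hk => ?_, fun x hx => hφ'.2 x (left_ne_zero_of_mul hx)⟩
  simp only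
  rw [hφ'.1 x k hk]
  obtain ⟨k1, k2⟩ := (isInt_prod _).1 hk
  obtain ⟨b1, k1⟩ := (isInt_rat _).1 k1
  obtain ⟨b2, k2⟩ := (isInt_rat _).1 k2
  have e : (x + ((N * K : ℕ) : ℚ) • k).1 * w.2 - (x + ((N * K : ℕ) : ℚ) • k).2 * w.1 =
      x.1 * w.2 - x.2 * w.1 + ((N * (b1 * a2 - b2 * a1) : ℤ) : ℚ) := by
    simp only [Prod.fst_add, Prod.snd_add, Prod.smul_fst, Prod.smul_snd, smul_eq_mul, k1, k2]
    push_cast
    rw [← h1, ← h2]
    ring
  rw [e, eq_add, eq_int, mul_one]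

theorem levV_sum {ι : Type} (t : Finset ι) (f : ι → U6 → U6 → ℂ) (h : ∀ i ∈ t, LevV d M (f i)) :
    LevV d M (∑ i ∈ t, f i) :=
  Finset.sum_induction f (LevV d M) (fun _ _ => LevV.add) (levV_zero d M) h

theorem GZ_smul (hGZ : S_GZW) (hs : InW s) (hd : 0 < d) (hM : 0 < M) (hv : LevV d M v) {ρ : ℝ}
    (hρ : 0 < ρ) (a : ℂ) : GZ s d (a • v) ρ = a • GZ s d v ρ :=
  (hGZ s hs d M hd hM v hv ρ hρ).2.2.2.2.1 a

theorem GZ_zero (hGZ : S_GZW) (hs : InW s) (hd : 0 < d) {ρ : ℝ} (hρ : 0 < ρ) :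
    GZ s d 0 ρ = 0 := by
  have := GZ_smul hGZ hs hd one_pos (levV_zero d 1) hρ 0
  rwa [zero_smul, zero_smul] at this

theorem GZ_sum (hGZ : S_GZW) (hs : InW s) (hd : 0 < d) (hM : 0 < M) {ρ : ℝ} (hρ : 0 < ρ)
    {ι : Type} (t : Finset ι) (f : ι → U6 → U6 → ℂ) (h : ∀ i ∈ t, LevV d M (f i)) :
    GZ s d (∑ i ∈ t, f i) ρ = ∑ i ∈ t, GZ s d (f i) ρ := by
  classical
  induction t using Finset.induction_on with
  | empty => simpa using GZ_zero hGZ hs hd hρ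
  | insert i t hi ih =>
    have h' : ∀ j ∈ t, LevV d M (f j) := fun j hj => h j (Finset.mem_insert_of_mem hj)
    rw [Finset.sum_insert hi, Finset.sum_insert hi, ← ih h']
    exact (hGZ s hs d M hd hM _ (h i (Finset.mem_insert_self _ _)) ρ hρ).2.2.2.1 _
      (levV_sum t f h')

theorem JJ_smul (hGZ : S_GZW) (hs : InW s) (hd : 0 < d) (hM : 0 < M) (hv : LevV d M v) {ρ : ℝ}
    (hρ : 0 < ρ) (a : ℂ) (t : ℝ) (n : ℚ) : JJ s d (a • v) ρ t n = a * JJ s d v ρ t n := by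
  rw [JJ, JJ, GZ_smul hGZ hs hd hM hv hρ, ← integral_const_mul]
  refine integral_congr_ae (Eventually.of_forall fun y => ?_)
  have : ct (a • GZ s d v ρ) y = a * ct (GZ s d v ρ) y := by
    simp only [ct, Pi.smul_apply, smul_eq_mul, intervalIntegral.integral_const_mul]
  simp only [this]
  ring

/-- the properties of the section -/
structure Sec0 (d M : ℕ) (v : U6 → U6 → ℂ) (F : Q2 → U6 → U6 → ℂ) : Prop where
  eqv : ∀ w γ, F (vm w γ) = kap2 γ (F w)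
  val : ∀ w, F w = 0 ∨ IsInt w ∧ ∃ γ, F w = kap2 γ v
  per : ∀ w k : Q2, IsInt k → F (w + ((M ^ 2 : ℕ) : ℚ) • k) = F w
  un : ∀ n : ℚ, 0 < n → F (0, n) = un M n • v
  zero : F 0 = 0

/-- the Fourier transform of the section -/
def fhat (F : Q2 → U6 → U6 → ℂ) (w : Q2) (u' u : U6) : ℂ := FS (fun x => F x u' u) w

variable {F : Q2 → U6 → U6 → ℂ}

theorem Sec0.levV (h : Sec0 d M v F) (hv : LevV d M v) (w : Q2) : LevV d M (F w) := by
  rcases h.val w with e | ⟨-, γ, e⟩ <;> rw [e]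
  exacts [levV_zero d M, hv.levV_kap2 γ]

theorem Sec0.lev (h : Sec0 d M v F) {T : (U6 → U6 → ℂ) → ℂ} (hT : T 0 = 0) :
    Lev (M ^ 2) fun w => T (F w) := by
  refine ⟨fun w k hk => by simp only [h.per w k hk], fun w hw => ?_⟩
  rcases h.val w with e | ⟨hi, -⟩
  · exact absurd (by simp only [e, hT]) hw
  · exact hi.nsmul _

theorem Sec0.fhat_eq (h : Sec0 d M v F) (hM : 0 < M) (w : Q2) : ∃ (R : Finset Q2) (a : Q2 → ℂ),
    fhat F w = ∑ r ∈ R, a r • F r ∧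
      ∀ φ : Q2 → ℂ, Lev (M ^ 2) φ → FS φ w = ∑ r ∈ R, a r * φ r := by
  obtain ⟨R, a, hR⟩ := FS_sum (pow_pos hM 2) w
  refine ⟨R, a, ?_, hR⟩
  ext u' u
  rw [fhat, hR _ (h.lev (T := fun x => x u' u) rfl)]
  simp [Finset.sum_apply]

theorem Sec0.levV_fhat (h : Sec0 d M v F) (hM : 0 < M) (hv : LevV d M v) (w : Q2) :
    LevV d M (fhat F w) := by
  obtain ⟨R, a, e, -⟩ := h.fhat_eq hM w
  rw [e]
  exact levV_sum _ _ fun r _ => (h.levV hv r).smul _

theorem Sec0.kT_fhat (h : Sec0 d M v F) (n : ℚ) :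
    kap2 ModularGroup.T (fhat F (0, n)) = fhat F (0, n) := by
  ext u' u
  have e1 : kap2 ModularGroup.T (fhat F (0, n)) u' u =
      FS (fun x => F (vm x ModularGroup.T) u' u) (0, n) := by
    simp only [h.eqv]
    rfl
  have e2 : vm (0, n) ModularGroup.T = (0, n) := by simp [ar_vm_row, ModularGroup.coe_T]
  rw [e1, FS_vm (fun x => F x u' u), e2, fhat]

theorem Sec0.fe (h : Sec0 d M v F) (hR : S_RS0) (hGZ : S_GZW) (hB : S_B0W) (hK : S_Ker)
    (hs : InW s) (hd : 0 < d) (hM : 0 < M) (hv : LevV d M v) (hT : kap2 ModularGroup.T v = v)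
    (ξ : ℝ × ℝ) : ∃ X : ℂ, HasSum (fun n : ℚ =>
      ((Real.exp (3 * (ξ.swap.1 + ξ.swap.2) / 4) * Real.exp ((ξ.swap.2 - ξ.swap.1) / 4) : ℝ) : ℂ) *
        if 0 < n then JJ s d (fhat F (0, n)) (Real.exp ((ξ.swap.1 + ξ.swap.2) / 2))
          (Real.exp ((ξ.swap.2 - ξ.swap.1) / 2)) n else 0) X ∧
      cv (-1, 1) (gv s d v) (ker0 (CM.un M)) ξ = X + resT (fun σ => (Real.exp (3 * σ / 4) : ℂ) *
        hmean (GZ s d (fhat F 0) (Real.exp (σ / 2)))) ξ := by
  have hρ := Real.exp_pos ((ξ.1 + ξ.2) / 2)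
  have ht := Real.exp_pos ((ξ.2 - ξ.1) / 2)
  set ρ := Real.exp ((ξ.1 + ξ.2) / 2) with eρ
  set t := Real.exp ((ξ.2 - ξ.1) / 2) with et
  obtain ⟨C, hC⟩ := (hGZ s hs d M hd hM v hv ρ hρ).2.1
  have hC0 : 0 ≤ C := (norm_nonneg _).trans (hC UpperHalfPlane.I)
  have fam : Fam0 (M ^ 2) C fun w => GZ s d (F w) ρ :=
    ⟨fun τ => h.lev (T := fun x => GZ s d x ρ τ) (by simp only [GZ_zero hGZ hs hd hρ]; rfl),
      fun w => (hGZ s hs d M hd hM _ (h.levV hv w) ρ hρ).1,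
      fun w γ τ => by
        simp only [h.eqv]
        exact ((hGZ s hs d M hd hM _ (h.levV hv w) ρ hρ).2.2.1 γ τ).symm,
      fun w τ => by
        rcases h.val w with e | ⟨-, γ, e⟩ <;> simp only [e]
        · rw [GZ_zero hGZ hs hd hρ]
          simpa using hC0
        · rw [← (hGZ s hs d M hd hM v hv ρ hρ).2.2.1 γ τ]
          exact hC _⟩
  have hhat : Fhat (fun w => GZ s d (F w) ρ) = fun w => GZ s d (fhat F w) ρ := by
    ext w τ
    obtain ⟨R, a, e1, e2⟩ := h.fhat_eq hM w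
    rw [Fhat, e2 _ (fam.lev τ), e1, GZ_sum hGZ hs hd hM hρ _ _ fun r _ => (h.levV hv r).smul _,
      Finset.sum_apply]
    exact Finset.sum_congr rfl fun r _ => by rw [GZ_smul hGZ hs hd hM (h.levV hv r) hρ]; rfl
  obtain ⟨fam', -, u1, fe, -⟩ := hR _ _ _ (pow_pos hM 2) fam
  obtain ⟨-, -, u2, -, -⟩ := hR _ _ _ (pow_pos hM 2) fam'
  have v1 := (u1 t ht).2
  have v2 := (u2 t⁻¹ (inv_pos.2 ht)).2
  have fe1 := fe t ht
  rw [hhat] at v2 fe1
  simp only [h.zero, GZ_zero hGZ hs hd hρ, hmean_zero, add_zero] at fe1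
  have c1 := cv_unfold hGZ hB hK hs hd hM hv hT ((lev_un M).sb hM) ξ
  have c2 : cv (-1, 1) (gv s d v) (ker0 (CM.un M)) ξ =
      ((Real.exp (3 * (ξ.1 + ξ.2) / 4) * Real.exp ((ξ.2 - ξ.1) / 4) : ℝ) : ℂ) *
        R0 (fun w => GZ s d (F w) ρ) t := by
    refine c1.unique ((v1.mul_left _).congr_fun fun n => ?_)
    split_ifs with hn
    · rw [← JJ_smul hGZ hs hd hM hv hρ, ← h.un n hn, JJ]
    · rfl
  have e1 : Real.exp ((ξ.swap.1 + ξ.swap.2) / 2) = ρ := by simp [eρ, add_comm]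
  have e2 : Real.exp ((ξ.swap.2 - ξ.swap.1) / 2) = t⁻¹ := by
    rw [et, ← Real.exp_neg]
    congr 1
    simp only [Prod.fst_swap, Prod.snd_swap]
    ring
  rw [e1, e2]
  refine ⟨_, v2.mul_left _, ?_⟩
  rw [c2, fe1, resT, ← eρ]
  have e3 : Real.exp ((ξ.2 - ξ.1) / 4) * t⁻¹ = Real.exp (-(ξ.2 - ξ.1) / 4) := by
    rw [et, ← Real.exp_neg, ← Real.exp_add]
    congr 1
    ring
  have e4 : Real.exp ((ξ.swap.2 - ξ.swap.1) / 4) = Real.exp (-(ξ.2 - ξ.1) / 4) := by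
    congr 1
    simp only [Prod.fst_swap, Prod.snd_swap]
    ring
  have e5 : ξ.swap.1 + ξ.swap.2 = ξ.1 + ξ.2 := add_comm _ _
  rw [e4, e5, ← e3]
  simp only [ofReal_mul, ofReal_inv]
  ring

theorem Sec0.split (h : Sec0 d M v F) (hGZ : S_GZW) (hs : InW s) (hd : 0 < d) (hM : 0 < M) :
    ∃ R : Finset ℚ, ∀ ρ : ℝ, 0 < ρ → ∀ (t : ℝ) (n : ℚ), JJ s d (fhat F (0, n)) ρ t n =
      ∑ r ∈ R, cls (M ^ 2) r n * JJ s d (fhat F (0, r)) ρ t n := by
  classical
  obtain ⟨R, hR1, -, hR2, -⟩ := exists_cls_reps ℚ (pow_pos hM 2)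
  have hl : ∀ u' u, Lev (M ^ 2) fun n : ℚ => fhat F (0, n) u' u := fun u' u =>
    (Lev.lev_FS (pow_pos hM 2) (h.lev (T := fun x => x u' u) rfl)).snd 0
  have hM0 : ((M ^ 2 : ℕ) : ℚ) ≠ 0 := by positivity
  refine ⟨R, fun ρ hρ t n => ?_⟩
  by_cases hn : IsInt (((M ^ 2 : ℕ) : ℚ) • n)
  · obtain ⟨r, ⟨hr, hi⟩, hu⟩ := hR2 n hn
    rw [Finset.sum_eq_single r (fun r' hr' hne => ?_) (fun h' => absurd hr h')]
    · rw [cls, if_pos hi, one_mul]
      congr 1
      ext u' u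
      have := (hl u' u).1 r _ hi
      rwa [smul_smul, mul_inv_cancel₀ hM0, one_smul, add_sub_cancel] at this
    · rw [cls, if_neg fun hi' => hne (hu r' ⟨hr', hi'⟩), zero_mul]
  · have e : fhat F (0, n) = 0 := by
      ext u' u
      by_contra hne
      exact hn ((hl u' u).2 n hne)
    have e0 := JJ_smul hGZ hs hd one_pos (levV_zero d 1) hρ 0 t n
    rw [zero_smul, zero_mul] at e0
    rw [e, e0]
    refine (Finset.sum_eq_zero fun r hr => ?_).symm
    rw [cls, if_neg, zero_mul]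
    intro hi
    have := ((hi.nsmul (M ^ 2)).nsmul (M ^ 2)).add (hR1 r hr)
    rw [smul_smul _ _ (n - r), mul_inv_cancel₀ hM0, one_smul, ← smul_add, sub_add_cancel] at this
    exact hn this

end RSGP

open RSGP in
theorem rsg (hR : S_RS0) (hGZ : S_GZW) (hB : S_B0W) (hK : S_Ker) : S_RSGW := by
  intro d M hd hM1
  have hM : 0 < M := by omega
  constructor
  · intro s hs v hv
    obtain ⟨F, F1, F2, F3, F4, F5⟩ := sec_gen hM1 kap2 (fun γ => rfl) kap2_one kap2_mul v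
      (kap2_nice hd hM hv)
    have h : Sec0 d M v F := ⟨F1, F2, F3, F4, F5⟩
    obtain ⟨R, hRR⟩ := h.split hGZ hs hd hM
    refine ⟨R.card, fun i => fhat F (0, (R.equivFin.symm i : ℚ)),
      fun i => ker0 (cls (M ^ 2) (R.equivFin.symm i : ℚ)), fun σ => (Real.exp (3 * σ / 4) : ℂ) *
        hmean (GZ s d (fhat F 0) (Real.exp (σ / 2))),
      fun i => ⟨h.levV_fhat hM hv.lev _, (hK.1 _ (sb_cls (pow_pos hM 2) _)).1⟩, fun ξ => ?_⟩
    obtain ⟨X, hX, e⟩ := h.fe hR hGZ hB hK hs hd hM hv.lev hv.kT ξ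
    rw [e]
    congr 1
    rw [R.equivFin.symm.sum_comp fun r : R =>
      cv (-1, 1) (gv s d (fhat F (0, (r : ℚ)))) (ker0 (cls (M ^ 2) (r : ℚ))) ξ.swap,
      Finset.sum_coe_sort R fun r =>
        cv (-1, 1) (gv s d (fhat F (0, r))) (ker0 (cls (M ^ 2) r)) ξ.swap]
    refine hX.unique ((hasSum_sum fun r _ => cv_unfold hGZ hB hK hs hd hM
      (h.levV_fhat hM hv.lev (0, r)) (h.kT_fhat r) (sb_cls (pow_pos hM 2) r) ξ.swap).congr_fun
        fun n => ?_)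
    rw [← Finset.mul_sum]
    split_ifs
    · rw [hRR _ (Real.exp_pos _)]
    · simp
  · obtain ⟨c, c1, c2, c3, c4, c5⟩ := sec_gen (V := ℂ) hM1 (fun _ x => x) (fun _ => rfl)
      (fun _ => rfl) (fun _ _ _ => rfl) 1 (fun _ _ => rfl)
    have hc : Lev (M ^ 2) c := ⟨c3, fun w hw => ((c2 w).resolve_left hw).1.nsmul _⟩
    have hκ : SB fun n : ℚ => FS c (0, n) :=
      ((hc.lev_FS (pow_pos hM 2)).snd 0).sb (pow_pos hM 2)
    refine ⟨ker0 fun n => FS c (0, n), FS c 0, (hK.1 _ hκ).1, ?_, fun s hs v hv ξ => ?_⟩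
    · have e : FS c 0 = II c := by simp [FS, eq_zero]
      rw [e]
      refine II_pos (hc.sb (pow_pos hM 2)) (fun w => ?_) fun h0 => ?_
      · rcases c2 w with e | ⟨-, -, e⟩ <;> simp [e]
      · have := c4 1 one_pos
        rw [h0, ← Int.cast_one, un_int, if_pos isCoprime_one_left] at this
        simp at this
    have h : Sec0 d M v fun w => c w • v := by
      refine ⟨fun w γ => ?_, fun w => ?_, fun w k hk => by simp only [c3 w k hk],
        fun n hn => by simp only [c4 n hn, smul_eq_mul, mul_one], by simp only [c5, zero_smul]⟩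
      · have : kap2 γ (c w • v) = c w • kap2 γ v := rfl
        simp only [c1, this, hv.kall]
      · rcases c2 w with e | ⟨hi, -, e⟩
        · exact Or.inl (by simp only [e, zero_smul])
        · exact Or.inr ⟨hi, 1, by simp only [e, one_smul, kap2_one]⟩
    have hf : ∀ w, fhat (fun w => c w • v) w = FS c w • v := fun w => by
      ext u' u
      simp only [fhat, FS, Pi.smul_apply, smul_eq_mul]
      rw [mul_comm, ← II_const_mul]
      congr 1
      ext x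
      ring
    obtain ⟨X, hX, e⟩ := h.fe hR hGZ hB hK hs hd hM hv.lev hv.kT ξ
    rw [e]
    congr 1
    · refine hX.unique ((cv_unfold hGZ hB hK hs hd hM hv.lev hv.kT hκ ξ.swap).congr_fun fun n => ?_)
      rw [hf, JJ_smul hGZ hs hd hM hv.lev (Real.exp_pos _)]
    · congr 1
      ext σ
      rw [hf, GZ_smul hGZ hs hd hM hv.lev (Real.exp_pos _), hmean_smul]
      ring

end

end Pool.Agent.P.MP_b8021b_nt.CM
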