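import Pool.Agent.P.MP_b8021b_nt.CM.Lib
import Pool.Agent.P.MP_b8021b_nt.CM.StmtsW

/-! Package P29: the second reflection and the vanishing on the line. -/

namespace Pool.Agent.P.MP_b8021b_nt.CM

open Complex hiding Gamma
open UpperHalfPlane hiding I
open MeasureTheory CongruenceSubgroup Filter
open scoped Real MatrixGroups ModularForm Topology ComplexConjugate Modular

noncomputable section

namespace RSJP

variable {s : ℍ → ℍ → ℂ} {d M : ℕ} {ρ : SL → (U6 → ℂ) → U6 → ℂ} {v : U6 → U6 → ℂ}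
  {f : Q2 → U6 → U6 → ℂ}

/-- the family attached to a section -/
def FX (s : ℍ → ℍ → ℂ) (d : ℕ) (f : Q2 → U6 → U6 → ℂ) (x w : Q2) (τ : ℍ) : ℂ := JX s d (f w) x τ

/-- the weight in the unfolded sum -/
def wX (d : ℕ) (b : ℝ) (x : Q2) : ℝ := Real.exp (b / 2) * Real.exp (-4 * π * Nm d x * Real.exp b)

/-- the unfolded integral -/
def tI (g : ℍ → ℂ) (t : ℝ) (n : ℚ) : ℂ :=
  ∫ y in Set.Ioi (0 : ℝ), (Real.exp (-π * t * n ^ 2 / y) : ℂ) * ct g y / (y : ℂ)

theorem tI_smul (a : ℂ) (g : ℍ → ℂ) (t : ℝ) (n : ℚ) : tI (a • g) t n = a * tI g t n := by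
  unfold tI
  rw [← integral_const_mul]
  congr 1; ext y
  have : ct (a • g) y = a * ct g y := by
    unfold ct
    rw [← intervalIntegral.integral_const_mul]; rfl
  rw [this]; ring

theorem tI_zero (t : ℝ) (n : ℚ) : tI 0 t n = 0 := by
  have := tI_smul 0 0 t n
  simpa using this

theorem levV_sum {ι : Type} (S : Finset ι) (a : ι → ℂ) (g : ι → U6 → U6 → ℂ)
    (hg : ∀ i, LevV d M (g i)) : LevV d M (∑ i ∈ S, a i • g i) := by
  classical
  induction S using Finset.induction_on with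
  | empty => simpa using levV_zero d M
  | insert i S hi ih => rw [Finset.sum_insert hi]; exact ((hg i).smul _).add ih

section
variable (hJX : S_JXW) (hs : InW s) (hd : 0 < d) (hM : 0 < M) (hρ : Weil6 d M ρ)
include hJX hs hd hM hρ

theorem JX_zero (x : Q2) : JX s d 0 x = 0 := by
  have := (hJX s hs d M hd hM ρ hρ 0 (levV_zero d M)).2.2.2.2.1 0 x
  simpa using this

theorem JX_sum {ι : Type} (S : Finset ι) (a : ι → ℂ) (g : ι → U6 → U6 → ℂ)
    (hg : ∀ i, LevV d M (g i)) (x : Q2) (τ : ℍ) :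
    JX s d (∑ i ∈ S, a i • g i) x τ = ∑ i ∈ S, a i * JX s d (g i) x τ := by
  classical
  induction S using Finset.induction_on with
  | empty => simp [JX_zero hJX hs hd hM hρ]
  | insert i S hi ih =>
    rw [Finset.sum_insert hi, Finset.sum_insert hi,
      (hJX s hs d M hd hM ρ hρ _ ((hg i).smul _)).2.2.2.1 _ (levV_sum S a g hg), Pi.add_apply, ih,
      (hJX s hs d M hd hM ρ hρ _ (hg i)).2.2.2.2.1]
    rfl

theorem FX_eq_zero (hf : Sec d M ρ v f) {x : Q2} (hx : ¬ (IsInt ((M : ℚ) • x) ∧ x ≠ 0)) :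
    FX s d f x = 0 := by
  ext w τ
  have : JX s d (f w) x = 0 := by
    by_contra h
    exact hx ((hJX s hs d M hd hM ρ hρ _ (hf.lev w)).2.2.2.2.2.1 x h).symm
  simp [FX, this]

theorem fam (hf : Sec d M ρ v f) : ∃ (C : ℝ) (A : ℕ), 0 ≤ C ∧ ∀ x,
    Fam1 (M ^ 2) (C * (1 + ((Nm d x : ℚ) : ℝ)) ^ A) (FX s d f x) := by
  have hM2 : 0 < M ^ 2 := by positivity
  obtain ⟨R, -, -, hR, -⟩ := exists_cls_reps Q2 hM2
  choose C A hCA using fun w => (hJX s hs d M hd hM ρ hρ _ (hf.lev w)).2.2.2.2.2.2.1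
  refine ⟨∑ r ∈ R, |C r|, ∑ r ∈ R, A r, Finset.sum_nonneg fun _ _ => abs_nonneg _, fun x => ?_⟩
  have hN : (1 : ℝ) ≤ 1 + ((Nm d x : ℚ) : ℝ) := by
    have : (0 : ℝ) ≤ ((Nm d x : ℚ) : ℝ) := by exact_mod_cast Nm_nonneg d x
    linarith
  refine ⟨fun τ => ⟨fun w k hk => ?_, fun w hw => ?_⟩, fun w => ?_, fun w γ τ => ?_, fun w τ => ?_⟩
  · simp only [FX]; rw [hf.per w k hk]
  · refine IsInt.nsmul (hf.supp w fun h => hw ?_) _
    simp [FX, h, JX_zero hJX hs hd hM hρ]
  · exact (hJX s hs d M hd hM ρ hρ _ (hf.lev w)).2.2.1 x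
  · simp only [FX]
    rw [(hJX s hs d M hd hM ρ hρ _ (hf.lev w)).2.1, hf.eqv]
  · by_cases h : f w = 0
    · simp only [FX, h, JX_zero hJX hs hd hM hρ, Pi.zero_apply, norm_zero, mul_zero]
      exact mul_nonneg (Finset.sum_nonneg fun _ _ => abs_nonneg _) (by positivity)
    · obtain ⟨r, ⟨hr, hr'⟩, -⟩ := hR w (IsInt.nsmul (hf.supp w h) _)
      have e1 : f w = f r := by
        rw [← hf.per r _ hr', smul_smul, mul_inv_cancel₀ (by positivity), one_smul,
          add_sub_cancel]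
      simp only [FX]
      rw [e1]
      refine (hCA r x τ).trans ((mul_le_mul_of_nonneg_right (le_abs_self _)
        (by positivity)).trans ?_)
      exact mul_le_mul (Finset.single_le_sum (f := fun r => |C r|) (fun _ _ => abs_nonneg _) hr)
        (pow_le_pow_right₀ hN (Finset.single_le_sum (f := A) (fun _ _ => Nat.zero_le _) hr))
        (by positivity) (Finset.sum_nonneg fun _ _ => abs_nonneg _)

/-- the Fourier transform of the family -/
theorem fhat_eq (hf : Sec d M ρ v f) (x : Q2) {n : ℚ} (hn : IsInt (((M ^ 2 : ℕ) : ℚ) • n)) :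
    Fhat (FX s d f x) (0, n) = JX s d (fun u' u => FS (fun w => f w u' u) (0, n)) x := by
  have hM2 : 0 < M ^ 2 := by positivity
  obtain ⟨R, c, -, hR⟩ := exists_II_sum Q2 hM2
  have key : ∀ φ : Q2 → ℂ, Lev (M ^ 2) φ →
      FS φ (0, n) = ∑ r ∈ R, (c * eq (r.1 * n - r.2 * 0)) * φ r := by
    intro φ hφ
    rw [FS, hR, Finset.mul_sum]
    · exact Finset.sum_congr rfl fun r _ => by ring
    · refine ⟨fun w k hk => ?_, fun w hw => hφ.2 w (left_ne_zero_of_mul hw)⟩
      obtain ⟨a, ha⟩ := (isInt_rat _).1 ((isInt_prod _).1 hk).1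
      obtain ⟨b, hb⟩ := (isInt_rat _).1 hn
      dsimp only
      rw [hφ.1 w k hk]
      congr 1
      have : (w + ((M ^ 2 : ℕ) : ℚ) • k).1 * n - (w + ((M ^ 2 : ℕ) : ℚ) • k).2 * 0 =
          (w.1 * n - w.2 * 0) + ((a * b : ℤ) : ℚ) := by
        rw [smul_eq_mul] at hb
        push_cast at hb ⊢
        rw [← ha, ← hb]
        simp only [Prod.fst_add, Prod.smul_fst, smul_eq_mul]
        ring
      rw [this, eq_add, eq_int, mul_one]
  have e1 : (fun u' u => FS (fun w => f w u' u) (0, n)) =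
      ∑ r ∈ R, (c * eq (r.1 * n - r.2 * 0)) • f r := by
    ext u' u
    rw [key _ ⟨fun w k hk => by rw [hf.per w k hk], fun w hw =>
      IsInt.nsmul (hf.supp w fun h => hw (by simp [h])) _⟩]
    simp [Finset.sum_apply]
  ext τ
  obtain ⟨C, A, -, hF⟩ := fam hJX hs hd hM hρ hf
  rw [e1, JX_sum hJX hs hd hM hρ _ _ _ hf.lev, Fhat, key _ ((hF x).lev τ)]
  rfl

/-- the convolution as a sum of Rankin-Selberg integrals -/
theorem cv_sum (hRS : S_RS1) (hL : S_LstW) (hK : S_Ker) (h2 : 2 * d ∣ M) (hv : Nice d M v)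
    (hf : Sec d M ρ v f) (ξ : ℝ × ℝ) :
    HasSum (fun x : Q2 => ((wX d ξ.2 x * Real.exp ξ.1 : ℝ) : ℂ) * R1 (FX s d f x) (Real.exp ξ.1))
      (cv (1, 0) (gv s d v) (ker1 (chiq d M)) ξ) := by
  have hM2 : 0 < M ^ 2 := by positivity
  obtain ⟨C, A, -, hF⟩ := fam hJX hs hd hM hρ hf
  obtain ⟨K, hRS⟩ := hRS (M ^ 2) hM2
  convert (hL d M hd hM h2 s hs v hv.lev hv.hT _ ((hK.2 d M hd hM h2).2.1.sb hM2) ξ).2 using 3
    with x x
  · rfl
  rw [← ((hRS _ _ (hF x)).2.1 _ (Real.exp_pos ξ.1)).2.tsum_eq]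
  congr 1; ext n
  unfold lstT
  split_ifs with hn
  · have : FX s d f x (0, n) = chiq d M n • JX s d v x := by
      ext τ
      simp only [FX]
      rw [hf.val n hn, (hJX s hs d M hd hM ρ hρ _ hv.lev).2.2.2.2.1]
    change n * tI (FX s d f x (0, n)) _ n = _ * (n * tI (JX s d v x) _ n)
    rw [this, tI_smul]; ring
  · rfl

end

theorem sum_bound {d M : ℕ} (hd : 0 < d) (hM : 0 < M) (b : ℝ) (A : ℕ) :
    ∃ g : Q2 → ℝ, Summable g ∧ (∀ x, 0 ≤ g x) ∧ ∀ x : Q2, IsInt ((M : ℚ) • x) ∧ x ≠ 0 →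
      wX d b x * (1 + ((Nm d x : ℚ) : ℝ)) ^ A ≤ g x := by
  classical
  set a : ℝ := 4 * π * Real.exp b with ha
  have ha0 : 0 < a := by have := Real.pi_pos; positivity
  set K : ℝ := Real.exp (b / 2) * (((A + 2).factorial : ℝ) * Real.exp a / a ^ (A + 2)) with hK
  have hK0 : 0 ≤ K := by positivity
  refine ⟨_, (summable_Nm hd hM (s := 2) (by norm_num)).mul_left K, fun x => mul_nonneg hK0 ?_, fun x hx => ?_⟩
  · split_ifs
    · exact Real.rpow_nonneg (by exact_mod_cast Nm_nonneg d x) _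
    · exact le_rfl
  rw [if_pos hx]
  have hN : (0 : ℝ) < ((Nm d x : ℚ) : ℝ) := by exact_mod_cast Nm_pos hd hx.2
  unfold wX
  set N : ℝ := ((Nm d x : ℚ) : ℝ)
  have h1 := Real.pow_div_factorial_le_exp (a * (1 + N)) (mul_pos ha0 (by linarith)).le (A + 2)
  have e1 : Real.exp (-4 * π * N * Real.exp b) = (Real.exp (a * N))⁻¹ := by
    rw [← Real.exp_neg]; congr 1; rw [ha]; ring
  rw [e1, Real.rpow_neg hN.le, Real.rpow_two, hK, mul_assoc, mul_assoc (Real.exp (b / 2))]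
  refine mul_le_mul_of_nonneg_left ?_ (Real.exp_pos _).le
  rw [mul_pow, mul_add a, mul_one, Real.exp_add, div_le_iff₀ (by positivity)] at h1
  rw [← div_eq_mul_inv, le_div_iff₀ (by positivity), le_div_iff₀ (by positivity), inv_mul_eq_div,
    div_mul_eq_mul_div, div_mul_eq_mul_div, div_le_iff₀ (by positivity)]
  calc (1 + N) ^ A * N ^ 2 * a ^ (A + 2) ≤ (1 + N) ^ A * (1 + N) ^ 2 * a ^ (A + 2) := by
        gcongr; linarith
    _ = a ^ (A + 2) * (1 + N) ^ (A + 2) := by ring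
    _ ≤ _ := h1
    _ = _ := by ring

theorem exp_subst (g : ℝ → ℂ) (hg : IntegrableOn g (Set.Ioi 0)) :
    Integrable (fun u => (Real.exp u : ℂ) * g (Real.exp u)) ∧
    ∫ u, (Real.exp u : ℂ) * g (Real.exp u) = ∫ t in Set.Ioi (0 : ℝ), g t ∧
    ∫ u, ‖(Real.exp u : ℂ) * g (Real.exp u)‖ = ∫ t in Set.Ioi (0 : ℝ), ‖g t‖ := by
  have hi : Set.Ioi (0 : ℝ) = Real.exp '' Set.univ := by rw [Set.image_univ, Real.range_exp]
  have hder : ∀ x ∈ Set.univ, HasDerivWithinAt Real.exp (Real.exp x) Set.univ x := fun x _ =>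
    (Real.hasDerivAt_exp x).hasDerivWithinAt
  have hinj : Set.InjOn Real.exp Set.univ := Real.exp_injective.injOn
  refine ⟨?_, ?_, ?_⟩
  · rw [hi, integrableOn_image_iff_integrableOn_abs_deriv_smul MeasurableSet.univ hder hinj,
      integrableOn_univ] at hg
    simpa [abs_of_pos (Real.exp_pos _)] using hg
  · rw [hi, integral_image_eq_integral_abs_deriv_smul MeasurableSet.univ hder hinj]
    simp [abs_of_pos (Real.exp_pos _)]
  · rw [hi, integral_image_eq_integral_abs_deriv_smul MeasurableSet.univ hder hinj]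
    simp [abs_of_pos (Real.exp_pos _)]

end RSJP

open RSJP in
theorem rsj2 (hRho : S_Rho) (hSec : S_SecW) (hJX : S_JXW) (hRS : S_RS1) (hL : S_LstW) (hK : S_Ker) :
    S_RSJ2W := by
  intro d M hd hM h2 s hs v hv
  have hM2 : 0 < M ^ 2 := by positivity
  obtain ⟨ρ, hρ⟩ := hRho d M hd hM h2
  obtain ⟨f, hf, hf'⟩ := hSec d M hd hM h2 ρ hρ v hv
  obtain ⟨R, hR1, -, -, hR⟩ := exists_cls_reps ℚ hM2
  choose v'' hv'' using fun r : R => (hf' r (hR1 r r.2)).2.2
  refine ⟨R.card, fun i => v'' (R.equivFin.symm i),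
    fun i => ker1 (cls (M ^ 2) (R.equivFin.symm i : ℚ)),
    fun i => ⟨(hv'' _).1, (hK.1 _ (sb_cls hM2 _)).2⟩, fun ξ => ?_⟩
  rw [Equiv.sum_comp R.equivFin.symm
    (fun r : R => cv (1, 0) (gv s d (v'' r)) (ker1 (cls (M ^ 2) (r : ℚ))) (-ξ.1, ξ.2))]
  have hback := fun r : R => hL d M hd hM h2 s hs _ (hf' r (hR1 r r.2)).1 (hf' r (hR1 r r.2)).2.1
    _ (sb_cls hM2 (r : ℚ)) (-ξ.1, ξ.2)
  simp only [fun r : R => (hv'' r).2 s hs]
  refine (cv_sum hJX hs hd hM hρ hRS hL hK h2 hv hf ξ).unique ?_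
  convert hasSum_sum (s := Finset.univ) fun r _ => (hback r).2 using 2 with x
  obtain ⟨C, A, -, hF⟩ := fam hJX hs hd hM hρ hf
  obtain ⟨K, hRS⟩ := hRS (M ^ 2) hM2
  obtain ⟨hF', -, hfe, -⟩ := hRS _ _ (hF x)
  have ht := Real.exp_pos (-ξ.1)
  have hsum := ((hRS _ _ hF').2.1 _ ht).2
  have e1 : R1 (Fhat (FX s d f x)) (Real.exp (-ξ.1)) = ∑ r : R, ∑' n,
      lstT s d (fun u' u => FS (fun w => f w u' u) (0, (r : ℚ))) (cls (M ^ 2) (r : ℚ))
        (Real.exp (-ξ.1)) x n := by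
    refine hsum.unique ?_
    convert hasSum_sum (s := Finset.univ) fun r _ => ((hback r).1 x).hasSum using 2 with n
    unfold lstT
    split_ifs with hn
    · have hlev : Lev (M ^ 2) fun n' : ℚ =>
          tI (Fhat (FX s d f x) (0, n')) (Real.exp (-ξ.1)) n := by
        refine ⟨fun a k hk => ?_, fun a ha => ?_⟩
        · have : Fhat (FX s d f x) (0, a + ((M ^ 2 : ℕ) : ℚ) • k) = Fhat (FX s d f x) (0, a) := by
            ext τ
            have := (hF'.lev τ).1 (0, a) (0, k) ((isInt_prod _).2 ⟨isInt_zero, hk⟩)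
            simpa using this
          dsimp only
          rw [this]
        · by_contra h
          apply ha
          dsimp only
          have : Fhat (FX s d f x) (0, a) = 0 := by
            ext τ
            by_contra h'
            exact h ((isInt_prod _).1 ((hF'.lev τ).2 _ h')).2
          rw [this, tI_zero]
      have e2 := congrFun (hR _ hlev) n
      change n * tI (Fhat (FX s d f x) (0, n)) _ n = _
      rw [e2, Finset.sum_apply, Finset.mul_sum, ← Finset.sum_coe_sort]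
      refine Finset.sum_congr rfl fun r _ => ?_
      rw [fhat_eq hJX hs hd hM hρ hf x (hR1 r r.2)]
      change _ = _ * (n * tI _ _ n)
      simp only [Pi.smul_apply, smul_eq_mul]
      ring
    · simp
  rw [hfe _ (Real.exp_pos _), ← Real.exp_neg, e1, ← Finset.mul_sum, ← mul_assoc]
  congr 1
  have h0 : (Real.exp ξ.1 : ℂ) ≠ 0 := by exact_mod_cast (Real.exp_pos _).ne'
  rw [wX, Real.exp_neg ξ.1]
  push_cast at h0 ⊢
  field_simp

open RSJP in
theorem rsj4 (hRho : S_Rho) (hSec : S_SecW) (hJX : S_JXW) (hJR : S_JRedW) (hEE : S_EE) (hRS : S_RS1)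
    (hL : S_LstW) (hK : S_Ker) (hV : S_Van) : S_RSJ4W := by
  intro d M hsq hM h2 s hs v hv ξ
  have hd : 0 < d := Nat.pos_of_ne_zero hsq.ne_zero
  have hM2 : 0 < M ^ 2 := by positivity
  obtain ⟨ρ, hρ⟩ := hRho d M hd hM h2
  obtain ⟨f, hf, -⟩ := hSec d M hd hM h2 ρ hρ v hv
  obtain ⟨C, A, hC, hF⟩ := fam hJX hs hd hM hρ hf
  have hcv := fun u : ℝ => cv_sum hJX hs hd hM hρ hRS hL hK h2 hv hf (u, ξ.2)
  obtain ⟨K, hRS⟩ := hRS (M ^ 2) hM2
  obtain ⟨g, hg, hg0, hgb⟩ := sum_bound hd hM ξ.2 A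
  have hR0 : ∀ t, R1 0 t = 0 := fun t => by
    have : (fun τ : ℍ => (τ.im : ℂ) ^ 2 * K1 (fun w => (0 : Q2 → ℍ → ℂ) w τ) τ t) = 0 := by
      ext τ; simp [K1]
    rw [R1, this, hmean_zero]
  have hsub := fun x => exp_subst _ (hRS _ _ (hF x)).2.2.2.1
  have e0 : ∀ x u, ((wX d ξ.2 x * Real.exp u : ℝ) : ℂ) * R1 (FX s d f x) (Real.exp u) =
      (wX d ξ.2 x : ℂ) * ((Real.exp u : ℂ) * R1 (FX s d f x) (Real.exp u)) := fun x u => by
    rw [ofReal_mul, mul_assoc]
  have hw0 : ∀ x, 0 ≤ wX d ξ.2 x := fun x => by unfold wX; positivity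
  have hzero : ∀ x, ∫ t in Set.Ioi (0 : ℝ), R1 (FX s d f x) t = 0 := by
    intro x
    by_cases hx : x = 0
    · rw [FX_eq_zero hJX hs hd hM hρ hf fun h => h.2 hx]; simp [hR0]
    rw [(hRS _ _ (hF x)).2.2.2.2.2]
    obtain ⟨r, p, l, hl⟩ := exists_coords hM2 f hf.per fun w hw => IsInt.nsmul (hf.supp w hw) _
    obtain ⟨R, c, hR, hJR⟩ := hJR s hs d M hd hM x hx
    have hN := Nm_pos hd hx
    have lc : ∀ i, Lev (M ^ 2) fun w => l i (f w) := fun i =>
      ⟨fun w k hk => by dsimp only; rw [hf.per w k hk], fun w hw =>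
        IsInt.nsmul (hf.supp w fun h => hw (by simp [h])) _⟩
    have hE : ∀ (S : Finset (Fin r)) (a : Fin r → ℂ) (τ : ℍ),
        EE (∑ i ∈ S, a i • fun w => l i (f w)) τ = ∑ i ∈ S, a i * EE (fun w => l i (f w)) τ := by
      intro S a τ
      induction S using Finset.induction_on with
      | empty =>
        have := congrFun ((hEE 0 sb_zero).2.2.2.2.2.2.1 0) τ
        simpa using this
      | insert i S hi ih =>
        rw [Finset.sum_insert hi, Finset.sum_insert hi,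
          (hEE _ (((lc i).sb hM2).smul _)).2.2.2.2.2.1 _
            (SB.sum _ _ fun j _ => ((lc j).sb hM2).smul _), Pi.add_apply, ih,
          (hEE _ ((lc i).sb hM2)).2.2.2.2.2.2.1]
        rfl
    have hvan := fun (i : Fin r) (y : GQ) (hy : y ∈ R) => hV d M hsq hM h2 _
      (hs.2 y (by rw [hR y hy]; exact hN)) _ (fun w => l i (f w))
      (om_sb hd hM (hf.lev (p i)) (y := y.1) (by rw [hR y hy]; exact hN.ne') hx).2 ⟨2, lc i⟩
      (fun n hn w hw => by dsimp only; rw [hf.chi n hn w hw, map_smul, smul_eq_mul]) _ hN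
    have e1 : (fun τ : ℍ => (τ.im : ℂ) ^ 2 * EE (fun w => FX s d f x w τ) τ) =
        ∑ q ∈ Finset.univ ×ˢ R, (c : ℂ) • fun τ : ℍ => (τ.im : ℂ) ^ 2 *
          JF d (fun σ => s σ (actH q.2 σ)) (om d (f (p q.1)) q.2.1 x) (dil (Nm d x) τ) *
          EE (fun w => l q.1 (f w)) τ := by
      ext τ
      have : (fun w => FX s d f x w τ) = ∑ i, JX s d (f (p i)) x τ • fun w => l i (f w) := by
        ext w
        simp only [FX]
        conv_lhs => rw [hl w, JX_sum hJX hs hd hM hρ _ _ _ fun i => hf.lev (p i)]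
        simp [Finset.sum_apply, mul_comm]
      rw [this, hE, Finset.sum_apply, Finset.sum_product, Finset.mul_sum]
      refine Finset.sum_congr rfl fun i _ => ?_
      rw [hJR _ (hf.lev (p i)), Finset.mul_sum, Finset.sum_mul, Finset.mul_sum]
      refine Finset.sum_congr rfl fun y _ => ?_
      simp only [Pi.smul_apply, smul_eq_mul]
      ring
    rw [e1, hmean_sum _ _ fun q hq => (hvan q.1 q.2 (Finset.mem_product.1 hq).2).1.smul _]
    refine Finset.sum_eq_zero fun q hq => ?_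
    rw [hmean_smul, (hvan q.1 q.2 (Finset.mem_product.1 hq).2).2, mul_zero]
  have hint := hasSum_integral_of_summable_integral_norm (μ := volume)
    (F := fun (x : Q2) (u : ℝ) =>
      ((wX d ξ.2 x * Real.exp u : ℝ) : ℂ) * R1 (FX s d f x) (Real.exp u))
    (fun x => by simp only [e0]; exact (hsub x).1.const_mul _) (by
      refine Summable.of_nonneg_of_le (fun x => integral_nonneg fun u => norm_nonneg _)
        (fun x => ?_) (hg.mul_left (|K| * C))
      by_cases hx : IsInt ((M : ℚ) • x) ∧ x ≠ 0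
      · simp only [e0, norm_mul (wX d ξ.2 x : ℂ)]
        rw [integral_const_mul, (hsub x).2.2, Complex.norm_real, Real.norm_of_nonneg (hw0 x)]
        have hN : (0 : ℝ) ≤ ((Nm d x : ℚ) : ℝ) := by exact_mod_cast Nm_nonneg d x
        calc _ ≤ wX d ξ.2 x * (|K| * (C * (1 + ((Nm d x : ℚ) : ℝ)) ^ A)) :=
              mul_le_mul_of_nonneg_left ((hRS _ _ (hF x)).2.2.2.2.1.trans
                (mul_le_mul_of_nonneg_right (le_abs_self K) (by positivity))) (hw0 x)
          _ = |K| * C * (wX d ξ.2 x * (1 + ((Nm d x : ℚ) : ℝ)) ^ A) := by ring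
          _ ≤ _ := mul_le_mul_of_nonneg_left (hgb x hx) (by positivity)
      · rw [FX_eq_zero hJX hs hd hM hρ hf hx]
        simp only [hR0, mul_zero, norm_zero, integral_zero]
        exact mul_nonneg (by positivity) (hg0 x))
  rw [← funext fun u => (hcv u).tsum_eq]
  refine hint.unique ?_
  convert hasSum_zero using 2 with x
  simp only [e0]
  rw [integral_const_mul, (hsub x).2.1, hzero, mul_zero]

end

end Pool.Agent.P.MP_b8021b_nt.CM
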