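import Pool.Agent.P.MP_b8021b_nt.CM.Lib

/-! Package P37: reduction to the Gram matrix `(1, 0, d)` and integral test functions. -/

namespace Pool.Agent.P.MP_b8021b_nt.CM

open Complex hiding Gamma
open UpperHalfPlane hiding I
open CongruenceSubgroup Function
open scoped MatrixGroups

noncomputable section

namespace RedP

variable {s : ℍ → ℍ → ℂ} {φ : M2 → M2 → ℂ} {d : ℕ}

theorem ind_of_not {N : ℕ} (μ : R2 N) {Y : M2} (h : ¬ IsInt Y) : ind N μ Y = 0 := by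
  rw [ind, if_neg]
  rintro ⟨Z, hZ, -⟩
  exact h ((isInt_M2 Y).2 ⟨Z, hZ⟩)

theorem exists_lift (N : ℕ) (μ : R2 N) : ∃ Z : Z2, red N Z = μ := by
  choose Z hZ using fun i j => ZMod.intCast_surjective (μ i j)
  exact ⟨Matrix.of Z, by ext i j; exact hZ i j⟩

/-- integral support -/
theorem stepA (H : S_Main0) (hs : InS s) (hd : Squarefree d) (hφ : SB (unc φ))
    (hI : ∀ Y Z, φ Y Z ≠ 0 → IsInt Y ∧ IsInt Z) : aS s 1 0 d φ = 0 := by
  obtain ⟨K, hK, hKs⟩ := hs.1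
  obtain ⟨M, hM, hMφ⟩ := hφ
  have hd0 : 0 < d := Nat.pos_of_ne_zero hd.ne_zero
  set N := 2 * d * (K * M) with hN
  have hN0 : 0 < N := by positivity
  have : NeZero N := ⟨hN0.ne'⟩
  have hNs : LevS N s := hKs.mono ((dvd_mul_right K M).trans (dvd_mul_left _ _))
  have hNφ : Lev N (unc φ) := hMφ.mono ((dvd_mul_left M K).trans (dvd_mul_left _ _))
  choose l hl using exists_lift N
  have e1 : φ = ∑ μ : R2 N × R2 N, φ (castZ (l μ.1)) (castZ (l μ.2)) •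
      fun Y Z => ind N μ.1 Y * ind N μ.2 Z := by
    funext Y Z
    simp only [Finset.sum_apply, Pi.smul_apply, smul_eq_mul]
    by_cases h : IsInt Y ∧ IsInt Z
    · obtain ⟨A, rfl⟩ := (isInt_M2 Y).1 h.1
      obtain ⟨B, rfl⟩ := (isInt_M2 Z).1 h.2
      rw [Finset.sum_eq_single (red N A, red N B)]
      · obtain ⟨A', hA⟩ := (red_eq_iff N A (l (red N A))).1 (hl _).symm
        obtain ⟨B', hB⟩ := (red_eq_iff N B (l (red N B))).1 (hl _).symm
        have h2 := hNφ.1 (castZ (l (red N A)), castZ (l (red N B))) (castZ A', castZ B')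
          ((isInt_prod _).2 ⟨(isInt_M2 _).2 ⟨A', rfl⟩, (isInt_M2 _).2 ⟨B', rfl⟩⟩)
        have hA' : castZ (l (red N A)) + (N : ℚ) • castZ A' = castZ A := by
          conv_rhs => rw [hA, castZ_add, castZ_smul, Int.cast_natCast]
        have hB' : castZ (l (red N B)) + (N : ℚ) • castZ B' = castZ B := by
          conv_rhs => rw [hB, castZ_add, castZ_smul, Int.cast_natCast]
        simp only [unc, Prod.fst_add, Prod.smul_fst, Prod.snd_add, Prod.smul_snd, hA', hB'] at h2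
        rw [ind_castZ, ind_castZ, if_pos rfl, if_pos rfl, h2]; simp
      · intro μ _ hμ
        rw [ind_castZ, ind_castZ]
        by_cases h1 : red N A = μ.1
        · rw [if_neg (c := red N B = μ.2) fun h2 => hμ (Prod.ext h1.symm h2.symm)]; simp
        · rw [if_neg h1]; simp
      · simp
    · have h0 : φ Y Z = 0 := by by_contra h0; exact h (hI Y Z h0)
      rw [h0, Finset.sum_eq_zero]
      intro μ _
      rcases not_and_or.1 h with h | h <;> simp [ind_of_not _ h]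
  rw [e1, aS_sum hs.hasLevS, Finset.sum_eq_zero]
  · intro μ _
    rw [aS_smul]
    exact mul_eq_zero_of_right _ (H s hs d N hd hN0 (dvd_mul_right _ _) hNs μ)
  · intro μ _
    exact SB.smul _ (((lev_ind hN0 μ.1).sb hN0).tensor ((lev_ind hN0 μ.2).sb hN0))

/-- two-sided multiplication on pairs -/
def mulL (g h : GQ) : M2 × M2 →ₗ[ℚ] M2 × M2 :=
  (LinearMap.mulLeftRight ℚ (g.1, h.1)).prodMap (LinearMap.mulLeftRight ℚ (g.1, h.1))

theorem mulL_apply (g h : GQ) (p : M2 × M2) : mulL g h p = (g.1 * p.1 * h.1, g.1 * p.2 * h.1) := rfl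

theorem cancel (g h : GQ) (Y : M2) : (g⁻¹).1 * (g.1 * Y * h.1) * (h⁻¹).1 = Y := by
  simp only [← mul_assoc, val_inv_mul, one_mul]
  rw [mul_assoc, val_mul_inv, mul_one]

theorem mulL_inj (g h : GQ) : Injective (mulL g h) := fun p q e => by
  rw [mulL_apply, mulL_apply, Prod.mk.injEq] at e
  refine Prod.ext ?_ ?_
  · rw [← cancel g h p.1, e.1, cancel]
  · rw [← cancel g h p.2, e.2, cancel]

theorem sb_act (hφ : SB (unc φ)) (g h : GQ) :
    SB (unc fun Y Z => φ (g.1 * Y * h.1) (g.1 * Z * h.1)) :=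
  hφ.comp_inj (mulL g h) (mulL_inj g h)

/-- `g` moves the pair into the integral matrices -/
def Cov (g : GQ × GQ) (Y Z : M2) : Prop :=
  IsInt (g.2.1 * Y * (g.1⁻¹).1) ∧ IsInt (g.2.1 * Z * (g.1⁻¹).1)

def Ok (g : GQ × GQ) : Prop := 0 < g.1.1.det ∧ g.2.1.det = g.1.1.det

theorem det_inv (g : GQ) : (g⁻¹).1.det = (g.1.det)⁻¹ := by
  have h := congrArg Matrix.det (val_mul_inv g)
  rw [Matrix.det_mul, Matrix.det_one] at h
  exact eq_inv_of_mul_eq_one_right h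

theorem stepB1 (H : S_Main0) (hs : InS s) (hd : Squarefree d) (hφ : SB (unc φ)) {g : GQ × GQ}
    (hg : Ok g) (hI : ∀ Y Z, φ Y Z ≠ 0 → Cov g Y Z) : aS s 1 0 d φ = 0 := by
  have h1 : 0 < (g.1⁻¹).1.det := by rw [det_inv]; exact inv_pos.2 hg.1
  have h2 : (g.2⁻¹).1.det = (g.1⁻¹).1.det := by rw [det_inv, det_inv, hg.2]
  have h3 := aS_act (s := s) g.1⁻¹ g.2⁻¹ h1 (h2 ▸ h1) φ 1 0 d
  rw [h2, div_self h1.ne', one_mul, one_mul, one_mul] at h3
  rw [← h3]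
  refine stepA H (hs.comp_act _ _ h1 (h2 ▸ h1)) hd (sb_act hφ _ _) fun Y Z h => ?_
  have h4 := hI _ _ h
  have h5 := cancel g.2⁻¹ g.1⁻¹⁻¹
  simp only [inv_inv] at h5
  simp only [Cov, inv_inv, h5] at h4
  exact h4

open Classical in
theorem sb_cov (hφ : SB (unc φ)) (g : GQ × GQ) :
    SB (unc fun Y Z => if Cov g Y Z then φ Y Z else 0) := by
  obtain ⟨K, hK, h⟩ := (sb_cls one_pos (0 : M2 × M2)).comp_inj (mulL g.2 g.1⁻¹) (mulL_inj _ _)
  have h2 := hφ.mul_of_per (fun p => cls 1 0 (mulL g.2 g.1⁻¹ p)) fun M _ =>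
    ⟨K, hK, fun x k _ hk => h.1 x k hk⟩
  convert h2 using 1
  funext p
  simp only [unc, cls, Nat.cast_one, inv_one, sub_zero, one_smul, mulL_apply, isInt_prod, Cov]
  split_ifs <;> simp

theorem stepB2 (H : S_Main0) (hs : InS s) (hd : Squarefree d) (F : Finset (GQ × GQ))
    (hF : ∀ g ∈ F, Ok g) : ∀ φ : M2 → M2 → ℂ, SB (unc φ) →
      (∀ Y Z : M2, Y.det = 1 → bil Y Z = 0 → Z.det = d → φ Y Z ≠ 0 → ∃ g ∈ F, Cov g Y Z) →
      aS s 1 0 d φ = 0 := by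
  classical
  induction F using Finset.induction_on with
  | empty =>
    intro φ _ h
    by_contra h0
    obtain ⟨-, -, Y, Z, h1, h2, h3, h4⟩ := aS_supp h0
    simpa using h Y Z h1 h2 h3 h4
  | insert g F _ ih =>
    intro φ hφ h
    have h1 := sb_cov hφ g
    set ψ : M2 → M2 → ℂ := fun Y Z => if Cov g Y Z then φ Y Z else 0 with hψ
    have h2 : SB (unc (φ + (-1 : ℂ) • ψ)) := hφ.add (h1.smul (-1))
    have e1 : φ = ψ + (φ + (-1 : ℂ) • ψ) := by rw [neg_one_smul]; abel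
    rw [e1, aS_add hs.hasLevS h1 h2, stepB1 H hs hd h1 (hF g (Finset.mem_insert_self _ _)),
      zero_add]
    · refine ih (fun g hg => hF g (Finset.mem_insert_of_mem hg)) _ h2 fun Y Z a b c h3 => ?_
      have h4 : ¬ Cov g Y Z := fun h4 => h3 (by simp [hψ, h4])
      have h5 : φ Y Z ≠ 0 := fun h5 => h3 (by simp [hψ, h5])
      obtain ⟨g', hg', h6⟩ := h Y Z a b c h5
      rcases Finset.mem_insert.1 hg' with rfl | hg'
      · exact absurd h6 h4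
      · exact ⟨g', hg', h6⟩
    · intro Y Z h3
      by_contra h4
      exact h3 (by simp [hψ, h4])

theorem fin_cover (g : GQ) : ∃ F : Finset GQ, (∀ h ∈ F, h.1.det = g.1.det) ∧
    ∀ γ ∈ G0, ∃ h ∈ F, ∃ δ ∈ G0, h = δ * (g * γ) := by
  classical
  obtain ⟨N, hN, -, h⟩ := exists_Gam_conj g one_pos
  obtain ⟨R, hR, -, hR'⟩ := (fi_Gam hN).exists_reps
  refine ⟨R.image (g * ·), ?_, fun γ hγ => ?_⟩
  · intro x hx
    obtain ⟨r, hr, rfl⟩ := Finset.mem_image.1 hx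
    rw [Units.val_mul, Matrix.det_mul, ((mem_G0 r).1 (hR r hr)).2, mul_one]
  · obtain ⟨r, ⟨hr, h1⟩, -⟩ := hR' γ hγ
    refine ⟨g * r, Finset.mem_image_of_mem _ hr, (g * (γ * r⁻¹) * g⁻¹)⁻¹,
      G0.inv_mem (Gam_one ▸ h _ h1), ?_⟩
    group

theorem isInt_mul {γ δ : GQ} (hγ : γ ∈ G0) (hδ : δ ∈ G0) {Y : M2} (h : IsInt Y) :
    IsInt (γ.1 * Y * δ.1) := by
  obtain ⟨A, hA⟩ := (isInt_M2 _).1 ((mem_G0 γ).1 hγ).1
  obtain ⟨B, hB⟩ := (isInt_M2 _).1 ((mem_G0 δ).1 hδ).1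
  obtain ⟨C, rfl⟩ := (isInt_M2 _).1 h
  exact (isInt_M2 _).2 ⟨A * C * B, by rw [castZ_mul, castZ_mul, hA, hB]⟩

/-- every pair with Gram matrix `(1, 0, d)` can be made integral -/
theorem exists_cov (hd : 0 < d) (y z : GQ) (h1 : y.1.det = 1) (h2 : bil y.1 z.1 = 0)
    (h3 : z.1.det = d) : ∃ g, Ok g ∧ Cov g y.1 z.1 := by
  set w : M2 := (y⁻¹).1 * z.1 with hw
  have hy : (y⁻¹).1 = y.1.adjugate := by
    rw [← mul_one (y⁻¹).1, ← one_smul ℚ (1 : M2), ← h1, ← Matrix.mul_adjugate, ← mul_assoc,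
      val_inv_mul, one_mul]
  have ht : w 0 0 + w 1 1 = 0 := by
    rw [← Matrix.trace_fin_two, hw, hy, ← bil_eq_trace, ← h2, bil, bil]; ring
  have hdet : w 0 0 * w 1 1 - w 0 1 * w 1 0 = d := by
    rw [← Matrix.det_fin_two, hw, Matrix.det_mul, det_inv, h1, h3]; simp
  have hd' : (0 : ℚ) < d := by exact_mod_cast hd
  have h11 : w 1 1 = -w 0 0 := by linarith
  have hb : w 0 1 ≠ 0 := by
    intro hb
    rw [hb, h11] at hdet
    nlinarith [sq_nonneg (w 0 0)]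
  obtain ⟨ε, hε, hεb⟩ : ∃ ε : ℤ, (ε : ℚ) * ε = 1 ∧ 0 < (ε : ℚ) * w 0 1 := by
    rcases hb.lt_or_gt with hb | hb
    · exact ⟨-1, by norm_num, by simpa using hb⟩
    · exact ⟨1, by norm_num, by simpa using hb⟩
  have hA : (!![(ε : ℚ), 0; w 0 0, w 0 1] : M2).det = ε * w 0 1 := by simp [Matrix.det_fin_two]
  set g : GQ := toG !![(ε : ℚ), 0; w 0 0, w 0 1] with hg
  have hgv : g.1 = !![(ε : ℚ), 0; w 0 0, w 0 1] := toG_val (hA ▸ hεb.ne')
  refine ⟨(g, g * y⁻¹), ⟨by rw [hgv, hA]; exact hεb, ?_⟩, ?_, ?_⟩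
  · simp only [Units.val_mul, Matrix.det_mul, det_inv, h1, inv_one, mul_one]
  · simp only [Units.val_mul]
    rw [mul_assoc g.1, val_inv_mul, mul_one, val_mul_inv]
    exact (isInt_M2 _).2 ⟨1, castZ_one⟩
  · have e1 : g.1 * w = castZ !![0, ε; -d * ε, 0] * g.1 := by
      rw [hgv]
      ext i j
      fin_cases i <;> fin_cases j <;>
        simp [Matrix.mul_apply, Fin.sum_univ_two, castZ_apply, h11]
      · rw [h11] at hdet; linear_combination (-1 : ℚ) * hdet + (d : ℚ) * hε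
      · ring
    simp only [Units.val_mul]
    rw [mul_assoc g.1, ← hw, e1, mul_assoc, val_mul_inv, mul_one]
    exact (isInt_M2 _).2 ⟨_, rfl⟩

theorem stepB (H : S_Main0) (hs : InS s) (hd : Squarefree d) (hφ : SB (unc φ)) :
    aS s 1 0 d φ = 0 := by
  classical
  have hd0 : 0 < d := Nat.pos_of_ne_zero hd.ne_zero
  have hd' : (0 : ℚ) < d := by exact_mod_cast hd0
  obtain ⟨M, hM, hMφ⟩ := id hφ
  have hM2 : 0 < M ^ 2 := by positivity
  have hl : ∀ N, LevS N fun _ _ => (1 : ℂ) := fun N =>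
    ⟨fun _ _ _ _ => rfl, fun _ _ _ _ => rfl⟩
  obtain ⟨⟨R, hR, hR'⟩, -⟩ := (aW_good ⟨1, one_pos, hl 1⟩ hφ 1 0 d).exists_reps (fi_Gam2 hM2 hM2)
    (aW_inv (hl _) (fun γ hγ δ hδ Y Z => hMφ.mul_Gam2 hγ hδ Y Z) 1 0 d)
  have key : ∀ p : GQ × GQ, ∃ F : Finset (GQ × GQ), p ∈ R → (∀ g ∈ F, Ok g) ∧
      ∀ γ ∈ GG0, ∃ g ∈ F, Cov g (pairA γ p).1.1 (pairA γ p).2.1 := by
    intro p
    by_cases hp : p ∈ R
    swap
    · exact ⟨∅, fun h => absurd h hp⟩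
    have h1 := hR p hp
    rw [aW] at h1
    split_ifs at h1 with h2
    swap
    · exact absurd rfl h1
    obtain ⟨g, hg, hc⟩ := exists_cov hd0 p.1 p.2 h2.2.2.1 h2.2.2.2.1 h2.2.2.2.2
    obtain ⟨F1, a1, b1⟩ := fin_cover g.1
    obtain ⟨F2, a2, b2⟩ := fin_cover g.2
    refine ⟨F1 ×ˢ F2, fun _ => ⟨fun x hx => ?_, fun γ hγ => ?_⟩⟩
    · rw [Finset.mem_product] at hx
      exact ⟨by rw [a1 _ hx.1]; exact hg.1, by rw [a1 _ hx.1, a2 _ hx.2]; exact hg.2⟩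
    · obtain ⟨x1, c1, δ1, d1, rfl⟩ := b1 γ.1⁻¹ (G0.inv_mem hγ.1)
      obtain ⟨x2, c2, δ2, d2, rfl⟩ := b2 γ.2⁻¹ (G0.inv_mem hγ.2)
      refine ⟨(_, _), Finset.mem_product.2 ⟨c1, c2⟩, ?_⟩
      have e : ∀ y : GQ, (δ2 * (g.2 * γ.2⁻¹)).1 * (γ.2 * y * γ.1⁻¹).1 *
          ((δ1 * (g.1 * γ.1⁻¹))⁻¹).1 = δ2.1 * (g.2.1 * y.1 * (g.1⁻¹).1) * (δ1⁻¹).1 := fun y => by
        simp only [← Units.val_mul]
        congr 1
        group
      exact ⟨(e p.1).symm ▸ isInt_mul d2 (G0.inv_mem d1) hc.1,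
        (e p.2).symm ▸ isInt_mul d2 (G0.inv_mem d1) hc.2⟩
  choose F hF using key
  refine stepB2 H hs hd (R.biUnion F) (fun g hg => ?_) φ hφ fun Y Z h1 h2 h3 h4 => ?_
  · obtain ⟨p, hp, hg⟩ := Finset.mem_biUnion.1 hg
    exact (hF p hp).1 g hg
  · have hY : (toG Y).1 = Y := toG_val (h1 ▸ one_ne_zero)
    have hZ : (toG Z).1 = Z := toG_val (h3 ▸ hd'.ne')
    obtain ⟨p, ⟨hp, γ, hγ, e⟩, -⟩ := hR' (toG Y, toG Z) (by
      rw [aW, if_pos ⟨hd', by linarith, by rw [hY, h1], by rw [hY, hZ, h2], by rw [hZ, h3]⟩]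
      simpa only [hY, hZ, mul_one] using h4)
    obtain ⟨g, hg, hc⟩ := (hF p hp).2 γ ((fi_Gam2 hM2 hM2).1 hγ)
    rw [e, hY, hZ] at hc
    exact ⟨g, Finset.mem_biUnion.2 ⟨p, hp, hg⟩, hc⟩

theorem exists_sqfree {D : ℚ} (h : 0 < D) :
    ∃ (d : ℕ) (b : ℚ), Squarefree d ∧ b ≠ 0 ∧ b ^ 2 * d = D := by
  obtain ⟨a, b, h1, h2⟩ := Nat.sq_mul_squarefree (D.num.natAbs * D.den)
  have h3 : (D.den : ℚ) ≠ 0 := by exact_mod_cast D.den_nz
  have h4 : ((D.num.natAbs : ℕ) : ℚ) = D.num := by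
    rw [← Int.cast_natCast, Int.natAbs_of_nonneg (Rat.num_pos.2 h).le]
  have h5 : (b : ℚ) ^ 2 * a = D.num * D.den := by rw [← h4]; exact_mod_cast h1
  have h6 : ((b : ℚ) / D.den) ^ 2 * a = D := by
    rw [div_pow, div_mul_eq_mul_div, h5, div_eq_iff (pow_ne_zero _ h3), ← Rat.mul_den_eq_num]
    ring
  refine ⟨a, b / D.den, h2, fun h0 => ?_, h6⟩
  rw [h0] at h6
  simp at h6
  exact h.ne h6

end RedP

open RedP in
theorem mainS (H : S_Main0) : S_Main := by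
  intro s hs φ hφ n r j
  by_contra h0
  obtain ⟨hj, hD, -⟩ := aS_supp h0
  obtain ⟨d, b, hd, hb, e⟩ := exists_sqfree (D := (4 * n * j - r ^ 2) / (4 * j ^ 2))
    (div_pos (by linarith) (by positivity))
  have h1 := aS_gl2 (s := s) (a := r / (2 * j)) (b := b) (c := 1) (d := 0) (by simpa using hb) φ
    j 0 (j * d)
  have e1 : (r / (2 * j)) ^ 2 * j + r / (2 * j) * b * 0 + b ^ 2 * (j * d) = n := by
    rw [mul_left_comm (b ^ 2), e]; field_simp; ring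
  have e2 : 2 * (r / (2 * j)) * 1 * j + (r / (2 * j) * 0 + b * 1) * 0 + 2 * b * 0 * (j * d) = r := by
    field_simp; ring
  have e3 : (1 : ℚ) ^ 2 * j + 1 * 0 * 0 + 0 ^ 2 * (j * d) = j := by ring
  rw [e1, e2, e3] at h1
  set ψ : M2 → M2 → ℂ := fun Y Z => φ ((r / (2 * j)) • Y + b • Z) ((1 : ℚ) • Y + (0 : ℚ) • Z)
    with hψ
  have hψs : SB (unc ψ) := by
    refine hφ.comp_inj (((r / (2 * j)) • LinearMap.fst ℚ M2 M2 + b • LinearMap.snd ℚ M2 M2).prod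
      ((1 : ℚ) • LinearMap.fst ℚ M2 M2 + (0 : ℚ) • LinearMap.snd ℚ M2 M2)) ?_
    rw [injective_iff_map_eq_zero]
    rintro ⟨Y, Z⟩ h
    have h2 : (r / (2 * j)) • Y + b • Z = 0 := congrArg Prod.fst h
    have h3 : (1 : ℚ) • Y + (0 : ℚ) • Z = 0 := congrArg Prod.snd h
    rw [one_smul, zero_smul, add_zero] at h3
    subst h3
    simpa [hb] using h2
  have hA : (!![j, 0; 0, 1] : M2).det = j := by simp
  set g : GQ := toG !![j, 0; 0, 1] with hg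
  have hgd : g.1.det = j := by rw [hg, toG_val (hA.symm ▸ hj.ne'), hA]
  have h11 : (0 : ℚ) < (1 : GQ).1.det := by simp
  have h2 := aS_act (s := s) 1 g h11 (hgd.symm ▸ hj) ψ 1 0 d
  rw [hgd, Units.val_one, Matrix.det_one, div_one, mul_one, mul_zero, ← h1] at h2
  exact h0 (h2 ▸ stepB H (hs.comp_act 1 g h11 (hgd.symm ▸ hj)) hd (sb_act hψs _ _))

end

end Pool.Agent.P.MP_b8021b_nt.CM
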