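import Pool.Agent.P.MP_b8021b_nt.CM.Sec0
import Pool.Agent.P.MP_b8021b_nt.CM.StmtsW

/-! Package P28: the section attached to a nice vector and its Fourier transform. -/

namespace Pool.Agent.P.MP_b8021b_nt.CM

open Complex hiding Gamma
open UpperHalfPlane hiding I
open MeasureTheory CongruenceSubgroup Filter
open scoped Real MatrixGroups ModularForm Topology ComplexConjugate Modular

noncomputable section

namespace SecP

variable {d M : ℕ} {ρ : SL → (U6 → ℂ) → U6 → ℂ} {v v' : U6 → U6 → ℂ}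

theorem lev6_zero (d M : ℕ) : Lev6 d M 0 := (levV_zero d M).2 0

theorem rho_zero (hρ : Weil6 d M ρ) (γ : SL) : ρ γ 0 = 0 := by
  simpa using hρ.smul γ 0 0 (lev6_zero d M)

theorem lev6_of (Φ : (U6 → ℂ) → ℂ) (h0 : Φ 0 = 0) (hv : ∀ u', Lev6 d M (v u')) :
    Lev6 d M fun u => Φ fun u' => v u' u := by
  have h1 : ∀ u, (Φ fun u' => v u' u) ≠ 0 → ∃ u', v u' u ≠ 0 := fun u h => by
    by_contra hn
    push Not at hn
    exact h (by rw [show (fun u' => v u' u) = 0 from funext hn, h0])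
  refine ⟨fun x => ⟨fun Y k hk => congrArg Φ (funext fun u' => ((hv u').1 x).1 Y k hk),
    fun Y hY => ?_⟩, fun Y => ⟨fun x k l => congrArg Φ (funext fun u' => ((hv u').2 Y).1 x k l),
    fun x hx => ?_⟩⟩
  · obtain ⟨u', h⟩ := h1 _ hY
    exact ((hv u').1 x).2 Y h
  · obtain ⟨u', h⟩ := h1 _ hx
    exact ((hv u').2 Y).2 x h

theorem levV_r1 (hρ : Weil6 d M ρ) (γ : SL) (hv : LevV d M v) : LevV d M (r1 ρ γ v) :=
  ⟨fun u => hρ.lev γ _ (hv.1 u), fun u' =>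
    lev6_of (fun ψ => ρ γ ψ u') (by rw [rho_zero hρ]; rfl) hv.2⟩

theorem r1_add (hρ : Weil6 d M ρ) (γ : SL) (hv : LevV d M v) (hv' : LevV d M v') :
    r1 ρ γ (v + v') = r1 ρ γ v + r1 ρ γ v' :=
  funext fun u' => funext fun u => congrFun (hρ.add γ _ _ (hv.1 u) (hv'.1 u)) u'

theorem r1_smul (hρ : Weil6 d M ρ) (γ : SL) (c : ℂ) (hv : LevV d M v) :
    r1 ρ γ (c • v) = c • r1 ρ γ v :=
  funext fun u' => funext fun u => congrFun (hρ.smul γ c _ (hv.1 u)) u'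

theorem r1_zero (hρ : Weil6 d M ρ) (γ : SL) : r1 ρ γ 0 = 0 :=
  funext fun u' => funext fun _ => congrFun (rho_zero hρ γ) u'

theorem r1_mul (hρ : Weil6 d M ρ) (γ δ : SL) (hv : LevV d M v) :
    r1 ρ (γ * δ) v = r1 ρ δ (r1 ρ γ v) :=
  funext fun u' => funext fun u => congrFun (hρ.mul γ δ _ (hv.1 u)) u'

theorem r1_one (hρ : Weil6 d M ρ) (hv : LevV d M v) : r1 ρ 1 v = v :=
  funext fun u' => funext fun u => congrFun (hρ.triv 1 (one_mem _) _ (hv.1 u)) u'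

theorem levV_sum {ι : Type} (s : Finset ι) (f : ι → U6 → U6 → ℂ) (h : ∀ i, LevV d M (f i)) :
    LevV d M (∑ i ∈ s, f i) :=
  Finset.sum_induction f (LevV d M) (fun _ _ => LevV.add) (levV_zero d M) fun i _ => h i

theorem map_sum_lev {V ι : Type} [AddCommMonoid V] (Φ : (U6 → U6 → ℂ) → V) (h0 : Φ 0 = 0)
    (hadd : ∀ v v', LevV d M v → LevV d M v' → Φ (v + v') = Φ v + Φ v') (s : Finset ι)
    (f : ι → U6 → U6 → ℂ) (h : ∀ i, LevV d M (f i)) : Φ (∑ i ∈ s, f i) = ∑ i ∈ s, Φ (f i) := by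
  classical
  induction s using Finset.induction_on with
  | empty => simpa using h0
  | insert a s ha ih =>
    rw [Finset.sum_insert ha, Finset.sum_insert ha, hadd _ _ (h a) (levV_sum s f h), ih]

theorem coprime_row {δ : SL} (h : ((M ^ 2 : ℕ) : ℤ) ∣ δ 1 0) : IsCoprime (δ 1 1) (M : ℤ) := by
  obtain ⟨k, hk⟩ := h
  have hd := δ.det_coe
  rw [Matrix.det_fin_two, hk] at hd
  push_cast at hd
  exact ⟨δ 0 0, -(δ 0 1 * M * k), by linear_combination hd⟩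

theorem chiq_int (n : ℤ) (h : IsCoprime n (M : ℤ)) : chiq d M n = chi d n := by
  simp [chiq, un, h]

theorem chiq_int' (n : ℤ) (h : ¬ IsCoprime n (M : ℤ)) : chiq d M n = 0 := by
  simp [chiq, un, h]

theorem eq_int_mul (k : ℤ) {q : ℚ} (h : IsInt q) : eq (k * q) = 1 :=
  (eq_eq_one_iff _).2 (h.zsmul k)

theorem supp1 (hd : 0 < d) (hM : 0 < M) (hv : LevV d M v) {u' u : U6} (h : v u' u ≠ 0) :
    IsInt ((M : ℚ) • u') := ((hv.1 u).lev hd hM).2 u' h

theorem supp2 (hd : 0 < d) (hM : 0 < M) (hv : LevV d M v) {u' u : U6} (h : v u' u ≠ 0) :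
    IsInt ((M : ℚ) • u) := ((hv.2 u').lev hd hM).2 u h

theorem r1_gam0 (hd : 0 < d) (hM : 0 < M) (hρ : Weil6 d M ρ) (hv : Nice d M v) {δ : SL}
    (h : ((M ^ 2 : ℕ) : ℤ) ∣ δ 1 0) : r1 ρ δ v = chi d (δ 1 1) • v := by
  ext u' u
  simp only [Pi.smul_apply, smul_eq_mul]
  by_cases hu : IsInt ((M : ℚ) • u')
  · rw [r1, hρ.gam0 δ h _ (hv.lev.1 u) u' hu, hv.sc1 _ (coprime_row h) u' u hu]
    by_cases h0 : v u' u = 0
    · simp [h0]
    · rw [eq_int_mul _ (hv.hT u' u h0), mul_one]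
  · rw [not_not.1 (mt (supp1 hd hM hv.lev) hu),
      not_not.1 (mt (supp1 hd hM (levV_r1 hρ δ hv.lev)) hu), mul_zero]

theorem exists_Sec (hd : 0 < d) (hM : 0 < M) (h2 : 2 * d ∣ M) (hρ : Weil6 d M ρ)
    (hv : Nice d M v) : ∃ f, Sec d M ρ v f := by
  have hM1 : 1 < M ^ 2 := by
    have := Nat.le_of_dvd hM h2
    nlinarith
  have h4 : (4 * d : ℤ) ∣ ((M ^ 2 : ℕ) : ℤ) := by
    obtain ⟨k, rfl⟩ := h2
    exact ⟨d * k ^ 2, by push_cast; ring⟩
  obtain ⟨F, a1, a2, a3, a4, a5⟩ := exists_sec hM1 (fun n : ℤ => chiq d M n)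
    (by rw [chiq_int 1 isCoprime_one_left, chi_one])
    (fun a b => by
      by_cases ha : IsCoprime a (M : ℤ)
      · by_cases hb : IsCoprime b (M : ℤ)
        · rw [chiq_int _ ha, chiq_int _ hb, chiq_int _ (ha.mul_left hb), chi_mul]
        · rw [chiq_int' _ hb, chiq_int' _ fun h => hb h.of_mul_left_right, mul_zero]
      · rw [chiq_int' _ ha, chiq_int' _ fun h => ha h.of_mul_left_left, zero_mul])
    (fun a b hab => by
      obtain ⟨k, hk⟩ := id hab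
      have e : a = b + M * (M * k) := by push_cast at hk; linear_combination hk
      have : IsCoprime a (M : ℤ) ↔ IsCoprime b (M : ℤ) := by
        rw [e, IsCoprime.add_mul_left_left_iff]
      by_cases ha : IsCoprime a (M : ℤ)
      · rw [chiq_int _ ha, chiq_int _ (this.1 ha), chi_congr hd (h4.trans hab)]
      · rw [chiq_int' _ ha, chiq_int' _ (mt this.2 ha)])
    (fun γ => r1 ρ γ v) fun δ γ h => by
      rw [r1_mul hρ _ _ hv.lev, r1_gam0 hd hM hρ hv h, r1_smul hρ _ _ hv.lev,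
        chiq_int _ (coprime_row h)]
  have b1 : ∀ w, F w = 0 ∨ ∃ (c : ℂ) (γ : SL), F w = c • r1 ρ γ v := fun w =>
    (a2 w).imp_right fun ⟨g, γ, h1, h2, h3⟩ => ⟨_, γ, by rw [h3, a1 g h1 h2]⟩
  refine ⟨F, fun w => ?_, a4, fun w hw => ?_, fun w γ => ?_, fun n hn => ?_,
    fun n hn w ⟨k, hk⟩ => ?_, fun w a ha u' u hu => ?_⟩
  · rcases b1 w with h | ⟨c, γ, h⟩ <;> rw [h]
    exacts [levV_zero d M, (levV_r1 hρ γ hv.lev).smul c]
  · obtain ⟨g, γ, -, -, rfl⟩ := (a2 w).resolve_left hw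
    exact (isInt_prod _).2 ⟨(isInt_rat _).2 ⟨g * γ 1 0, by simp [vm]⟩,
      (isInt_rat _).2 ⟨g * γ 1 1, by simp [vm]⟩⟩
  · by_cases h : ∃ (g : ℕ) (δ : SL), 0 < g ∧ g.Coprime (M ^ 2) ∧ w = vm (0, g) δ
    · obtain ⟨g, δ, h1, h2, rfl⟩ := h
      rw [← vm_mul, a1 g h1 h2, a1 g h1 h2, r1_smul hρ _ _ (levV_r1 hρ δ hv.lev),
        r1_mul hρ _ _ hv.lev]
    · rw [(a3 w γ h).1, (a3 w γ h).2, r1_zero hρ]
  · by_cases h : ∃ g : ℕ, g.Coprime (M ^ 2) ∧ n = g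
    · obtain ⟨g, h1, rfl⟩ := h
      have := a1 g (by exact_mod_cast hn) h1 1
      rwa [vm_one, r1_one hρ hv.lev, Int.cast_natCast] at this
    · have h1 : chiq d M n = 0 := by
        refine mul_eq_zero_of_left (if_neg fun ⟨h1, h3⟩ => h ?_) _
        obtain ⟨g, hg⟩ := Int.eq_ofNat_of_zero_le (Rat.num_pos.2 hn).le
        refine ⟨g, Nat.Coprime.pow_right _ (Nat.isCoprime_iff_coprime.1 (hg ▸ h3)), ?_⟩
        rw [← Rat.coe_int_num_of_den_eq_one h1, hg, Int.cast_natCast]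
      rw [h1, zero_smul]
      refine (a2 _).resolve_right fun ⟨g, γ, h1, h2, h3⟩ => h ⟨g, h2, ?_⟩
      exact (vm_decomp_unique hn (by exact_mod_cast h1) ((vm_one _).trans h3)).1
  · rw [a5 n (by push_cast; exact hn.pow_right) w ⟨k, ?_⟩, chiq_int _ hn]
    have := hk.nsmul (M ^ k)
    rw [smul_smul] at this
    convert this using 2
    push_cast
    ring
  · rcases b1 w with h | ⟨c, γ, h⟩ <;> rw [h]
    · rfl
    · simp only [Pi.smul_apply, r1, fun u'' => hv.sc2 a ha u'' u hu]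

theorem lev_mul_eq {P : ℕ} {c : Q2 → ℂ} (h1 : ∀ x k : Q2, IsInt k → c (x + (P : ℚ) • k) = c x)
    (h2 : ∀ x, c x ≠ 0 → IsInt x) {w : Q2} (hw : IsInt ((P : ℚ) • w)) :
    Lev P fun x => c x * eq (x.1 * w.2 - x.2 * w.1) := by
  refine ⟨fun x k hk => ?_, fun x hx => (h2 x (left_ne_zero_of_mul hx)).nsmul P⟩
  obtain ⟨⟨k1, e1⟩, k2, e2⟩ : (∃ a : ℤ, k.1 = a) ∧ ∃ b : ℤ, k.2 = b := by
    simpa only [isInt_prod, isInt_rat] using hk
  obtain ⟨⟨a, e3⟩, b, e4⟩ : (∃ a : ℤ, P * w.1 = a) ∧ ∃ b : ℤ, P * w.2 = b := by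
    simpa only [isInt_prod, isInt_rat, Prod.smul_fst, Prod.smul_snd, smul_eq_mul] using hw
  have : (x + (P : ℚ) • k).1 * w.2 - (x + (P : ℚ) • k).2 * w.1 =
      (x.1 * w.2 - x.2 * w.1) + ((k1 * b - k2 * a : ℤ) : ℚ) := by
    simp only [Prod.fst_add, Prod.snd_add, Prod.smul_fst, Prod.smul_snd, smul_eq_mul, e1, e2]
    push_cast
    rw [← e3, ← e4]
    ring
  simp only [h1 x k hk, this, eq_add, (eq_eq_one_iff _).2 ((isInt_rat _).2 ⟨_, rfl⟩), mul_one]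

/-- the Fourier transform of the section -/
def fh (f : Q2 → U6 → U6 → ℂ) (w : Q2) (u' u : U6) : ℂ := FS (fun x => f x u' u) w

variable {f : Q2 → U6 → U6 → ℂ}

theorem fh_sum (hM : 0 < M) : ∃ (R : Finset Q2) (c : Q2 → Q2 → ℂ), ∀ f : Q2 → U6 → U6 → ℂ,
    (∀ w k : Q2, IsInt k → f (w + ((M ^ 2 : ℕ) : ℚ) • k) = f w) → (∀ w, f w ≠ 0 → IsInt w) →
    ∀ w, IsInt (((M ^ 2 : ℕ) : ℚ) • w) → fh f w = ∑ r ∈ R, c w r • f r := by
  obtain ⟨R, c, -, h⟩ := exists_II_sum Q2 (pow_pos hM 2)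
  refine ⟨R, fun w r => c * eq (r.1 * w.2 - r.2 * w.1), fun f h1 h2 w hw => ?_⟩
  ext u' u
  rw [fh, FS, h _ (lev_mul_eq (fun x k hk => by rw [h1 x k hk])
    (fun x hx => h2 x fun e => hx (by rw [e]; rfl)) hw), Finset.mul_sum]
  simp only [Finset.sum_apply, Pi.smul_apply, smul_eq_mul]
  exact Finset.sum_congr rfl fun r _ => by ring

theorem fh_lev (hM : 0 < M) (hf : Sec d M ρ v f) {w : Q2} (hw : IsInt (((M ^ 2 : ℕ) : ℚ) • w)) :
    LevV d M (fh f w) := by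
  obtain ⟨R, c, h⟩ := fh_sum hM
  rw [h f hf.per hf.supp w hw]
  exact levV_sum _ _ fun r => (hf.lev r).smul _

theorem fh_vm (hM : 0 < M) (hρ : Weil6 d M ρ) (hf : Sec d M ρ v f) {w : Q2}
    (hw : IsInt (((M ^ 2 : ℕ) : ℚ) • w)) (γ : SL) : fh f (vm w γ) = r1 ρ γ (fh f w) := by
  obtain ⟨R, c, h⟩ := fh_sum hM
  have e : fh f (vm w γ) = fh (fun x => r1 ρ γ (f x)) w := by
    ext u' u
    simp only [fh, ← FS_vm, hf.eqv]
  rw [e, h f hf.per hf.supp w hw, h _ (fun x k hk => by rw [hf.per x k hk])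
    (fun x hx => hf.supp x fun e => hx (by rw [e, r1_zero hρ])) w hw,
    map_sum_lev (r1 ρ γ) (r1_zero hρ γ) (fun _ _ => r1_add hρ γ) _ _ fun r => (hf.lev r).smul _]
  exact Finset.sum_congr rfl fun r _ => (r1_smul hρ γ _ (hf.lev r)).symm

theorem isInt_row {P n : ℚ} (hn : IsInt (P • n)) : IsInt (P • ((0, n) : Q2)) :=
  (isInt_prod _).2 ⟨by simpa using isInt_zero, hn⟩

theorem fh_hT (hM : 0 < M) (hρ : Weil6 d M ρ) (hf : Sec d M ρ v f) {n : ℚ}
    (hn : IsInt (((M ^ 2 : ℕ) : ℚ) • n)) (u' u : U6) (h : fh f (0, n) u' u ≠ 0) :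
    IsInt (QU d u') := by
  have h1 := fh_vm hM hρ hf (isInt_row hn) ModularGroup.T
  have h2 : vm (0, n) ModularGroup.T = (0, n) := by simp [vm, ModularGroup.T]
  have h3 := congrFun (congrFun h1 u') u
  rw [h2, r1, hρ.hT _ ((fh_lev hM hf (isInt_row hn)).1 u)] at h3
  exact (eq_eq_one_iff _).1 (mul_right_cancel₀ h (h3.symm.trans (one_mul _).symm))

theorem fh_sc2 (hf : Sec d M ρ v f) (w : Q2) (a : ℤ) (ha : IsCoprime a M) (u' u : U6) (hu : IsInt ((M : ℚ) • u)) :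
    fh f w u' ((a : ℚ) • u) = fh f w u' u := by
  simp only [fh, fun x => hf.sc2 x a ha u' u hu]

theorem fh_unit (hM : 0 < M) (hf : Sec d M ρ v f) {n : ℚ} (hn : IsInt (((M ^ 2 : ℕ) : ℚ) • n))
    (a : ℤ) (ha : IsCoprime a M) (u' u : U6) :
    chi d a * fh f (0, n * a) u' u = fh f (0, n) u' u := by
  have hn' : IsInt (((M ^ 2 : ℕ) : ℚ) • (n * a)) := by
    have := hn.zsmul a
    convert this using 1
    simp only [smul_eq_mul]
    ring
  have h1 : ∀ {w : Q2}, IsInt (((M ^ 2 : ℕ) : ℚ) • w) →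
      Lev (M ^ 2) fun x => f x u' u * eq (x.1 * w.2 - x.2 * w.1) := fun hw =>
    lev_mul_eq (fun x k hk => by rw [hf.per x k hk])
      (fun x hx => hf.supp x fun e => hx (by rw [e]; rfl)) hw
  rw [fh, FS, ← II_smul]
  refine II_unit (pow_pos hM 2) (h1 (isInt_row hn)) ((h1 (isInt_row hn')).smul _) (n := a)
    (by push_cast; exact ha.pow_right) fun x hx => ?_
  simp only [hf.chi a ha x ⟨2, hx⟩, Pi.smul_apply, smul_eq_mul, Prod.smul_fst, Prod.smul_snd, mul_zero, sub_zero,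
    mul_assoc]
  congr 3
  ring

theorem fh_sc1 (hM : 0 < M) (h2 : 2 * d ∣ M) (hρ : Weil6 d M ρ) (hf : Sec d M ρ v f) {n : ℚ}
    (hn : IsInt (((M ^ 2 : ℕ) : ℚ) • n)) (a : ℤ) (ha : IsCoprime a M) (u' u : U6)
    (hu : IsInt ((M : ℚ) • u')) : fh f (0, n) ((a : ℚ) • u') u = fh f (0, n) u' u := by
  obtain ⟨δ, h1, h3⟩ := exists_SL_row (c := (M : ℤ) ^ 4) (ha.symm.pow_left)
  have h4 := congrFun (congrFun (fh_vm hM hρ hf (isInt_row hn) δ) u') u
  rw [r1, hρ.gam0 δ (by rw [h1]; exact ⟨M ^ 2, by push_cast; ring⟩) _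
    ((fh_lev hM hf (isInt_row hn)).1 u) u' hu, h3] at h4
  have h5 : vm (0, n) δ = (0, n * a) + ((M ^ 2 : ℕ) : ℚ) • ((((M ^ 2 : ℕ) : ℚ) • n, 0) : Q2) := by
    simp [vm, h1, h3]
    ring
  have h6 : Lev (M ^ 2) fun x => f x u' u := ⟨fun x k hk => by simp only [hf.per x k hk],
    fun x hx => (hf.supp x fun e => hx (by simp [e])).nsmul _⟩
  rw [h5, fh, (h6.lev_FS (pow_pos hM 2)).1 _ _ ((isInt_prod _).2 ⟨hn, isInt_zero⟩)] at h4
  have h7 : chi d a * chi d a = 1 := by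
    rcases chi_sq (d := d) (ha.of_isCoprime_of_dvd_right (by exact_mod_cast h2)) with h | h <;>
      simp [h]
  have h8 := fh_unit hM hf hn a ha u' u
  rw [fh, h4, ← mul_assoc, ← mul_assoc, h7, one_mul] at h8
  by_cases h0 : fh f (0, n) ((a : ℚ) • u') u = 0
  · rw [← h8, h0, mul_zero]
  · have b1 := fh_hT hM hρ hf hn _ _ h0
    have b2 := isInt_QU d hu
    rw [QU_smul] at b1 b2
    have b3 : IsInt (QU d u') := IsInt.of_coprime (a := a ^ 2) (b := (M : ℤ) ^ 2) ha.pow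
      (by exact_mod_cast b1) (by exact_mod_cast b2)
    rw [← h8, eq_int_mul _ b3, one_mul]

theorem reindex (P : ℕ) [NeZero P] (g : ℤ → ℂ) (hg : ∀ k l : ℤ, g (k + P * l) = g k) {a : ℤ}
    (b : ℤ) (ha : IsCoprime a P) : ∑ x : ZMod P, g (a * x.val + b) = ∑ x : ZMod P, g x.val := by
  have h1 : ∀ k : ℤ, g k = g ((k : ZMod P).val) := fun k => by
    rw [ZMod.val_intCast, ← hg (k % P) (k / P), Int.emod_add_mul_ediv]
  have hu : IsUnit (a : ZMod P) := (ZMod.coe_int_isUnit_iff_isCoprime a P).2 ha.symm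
  refine Fintype.sum_bijective (fun x : ZMod P => (a : ZMod P) * x + b)
    (Finite.injective_iff_bijective.1 fun x y e => hu.mul_left_cancel (add_right_cancel e)) _ _
    fun x => ?_
  rw [h1]
  simp

/-- the action of the powers of `T` through `kap2` -/
def sh (k : ℤ) (v : U6 → U6 → ℂ) (u' u : U6) : ℂ := v (u' - (k : ℚ) • u) u

theorem kap2_T (v : U6 → U6 → ℂ) : kap2 ModularGroup.T v = sh 1 v := by
  ext u' u
  simp [kap2, sh, kp, ModularGroup.T, Matrix.SpecialLinearGroup.coe_inv, Matrix.adjugate_fin_two,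
    sub_eq_add_neg]

theorem sh_succ (k : ℤ) (v : U6 → U6 → ℂ) : kap2 ModularGroup.T (sh k v) = sh (k + 1) v := by
  rw [kap2_T]
  ext u' u
  simp only [sh]
  congr 1
  push_cast
  module

theorem sh_zero (v : U6 → U6 → ℂ) : sh 0 v = v := by
  ext u' u
  simp [sh]

theorem levV_sh (hv : LevV d M v) (k : ℕ) : LevV d M (sh k v) := by
  induction k with
  | zero => rwa [Nat.cast_zero, sh_zero]
  | succ k ih =>
    rw [Nat.cast_succ, ← sh_succ]
    exact ih.levV_kap2 _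

theorem sh_per (hd : 0 < d) (hM : 0 < M) (hv : LevV d M v) (u' u : U6) (k l : ℤ) :
    sh (k + (M ^ 2 : ℕ) * l) v u' u = sh k v u' u := by
  by_cases hu : IsInt ((M : ℚ) • u)
  · refine Eq.trans ?_ (((hv.1 u).lev hd hM).1 (u' - (k : ℚ) • u) _ (hu.zsmul (-l)))
    simp only [sh]
    congr 1
    push_cast
    module
  · rw [sh, sh, not_not.1 (mt (supp2 hd hM hv) hu), not_not.1 (mt (supp2 hd hM hv) hu)]

theorem average (hB : S_B0W) (hd : 0 < d) (hM : 0 < M) (hv : LevV d M v)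
    (h1 : ∀ a : ℤ, IsCoprime a M → ∀ u' u, IsInt ((M : ℚ) • u') → v ((a : ℚ) • u') u = v u' u)
    (h2 : ∀ a : ℤ, IsCoprime a M → ∀ u' u, IsInt ((M : ℚ) • u) → v u' ((a : ℚ) • u) = v u' u) :
    ∃ v'', Nice0 d M v'' ∧ ∀ s, InW s → gv s d v'' = gv s d v := by
  have : NeZero (M ^ 2) := ⟨(pow_pos hM 2).ne'⟩
  have hr := fun u' u => @reindex (M ^ 2) _ (fun k => sh k v u' u) (sh_per hd hM hv u' u)
  have hc : ∀ {a : ℤ}, IsCoprime a M → IsCoprime a ((M ^ 2 : ℕ) : ℤ) := fun ha => by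
    push_cast
    exact ha.pow_right
  refine ⟨((M ^ 2 : ℕ) : ℂ)⁻¹ • ∑ x : ZMod (M ^ 2), sh x.val v,
    ⟨(levV_sum _ _ fun x => levV_sh hv _).smul _, ?_, fun a ha u' u hu => ?_,
      fun a ha u' u hu => ?_⟩, fun s hs => ?_⟩
  · ext u' u
    have := hr u' u 1 isCoprime_one_left
    simp only [one_mul, ← sh_succ] at this
    simpa only [kap2, Pi.smul_apply, Finset.sum_apply] using congrArg _ this
  · simp only [Pi.smul_apply, Finset.sum_apply]
    congr 1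
    by_cases h0 : IsInt ((M : ℚ) • u)
    · rw [← hr _ u 0 (hc ha)]
      refine Finset.sum_congr rfl fun x _ => ?_
      rw [sh, sh, ← h1 a ha (u' - _) u (by
        rw [smul_sub, smul_comm]
        exact hu.sub (h0.zsmul _))]
      congr 1
      push_cast
      module
    · simp only [sh, not_not.1 (mt (supp2 hd hM hv) h0)]
  · simp only [Pi.smul_apply, Finset.sum_apply]
    congr 1
    rw [← hr u' u 0 (hc ha)]
    refine Finset.sum_congr rfl fun x _ => ?_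
    rw [sh, sh, h2 a ha _ u hu]
    congr 1
    push_cast
    module
  · obtain ⟨A, -, hA⟩ := hB
    have hA := hA s hs d M hd hM
    have e : ∀ k : ℕ, gv s d (sh k v) = gv s d v := fun k => by
      induction k with
      | zero => rw [Nat.cast_zero, sh_zero]
      | succ k ih => rw [Nat.cast_succ, ← sh_succ, (hA _ (levV_sh hv k)).2.2.2.2.2.1, ih]
    rw [(hA _ (levV_sum _ _ fun x => levV_sh hv _)).2.2.2.2.1,
      map_sum_lev (gv s d) (by simpa using (hA 0 (levV_zero d M)).2.2.2.2.1 0)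
        (fun v v' h h' => (hA v h).2.2.2.1 v' h') _ _ fun x => levV_sh hv _]
    simp only [e, Finset.sum_const, Finset.card_univ, ZMod.card]
    rw [← Nat.cast_smul_eq_nsmul ℂ, smul_smul, inv_mul_cancel₀ (Nat.cast_ne_zero.2 (NeZero.ne _)),
      one_smul]

end SecP

open SecP in
theorem secS (hB : S_B0W) : S_SecW := by
  intro d M hd hM h2 ρ hρ v hv
  obtain ⟨f, hf⟩ := exists_Sec hd hM h2 hρ hv
  exact ⟨f, hf, fun n hn => ⟨fh_lev hM hf (isInt_row hn), fh_hT hM hρ hf hn,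
    average hB hd hM (fh_lev hM hf (isInt_row hn)) (fh_sc1 hM h2 hρ hf hn) (fh_sc2 hf _)⟩⟩

end

end Pool.Agent.P.MP_b8021b_nt.CM
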