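import Pool.Agent.P.MP_b8021b_nt.CM.SharpA

/-! Package P4, second part: Hecke sums. -/

namespace Pool.Agent.P.MP_b8021b_nt.CM

open Complex hiding Gamma
open UpperHalfPlane hiding I
open CongruenceSubgroup
open scoped Real MatrixGroups

noncomputable section

namespace SharpP

theorem det_ut (a b d : ℤ) : (ut a b d).det = a * d := by simp [ut, Matrix.det_fin_two]

theorem det_hnf {m : ℕ} {g : Z2} (h : g ∈ hnf m) : g.det = m := by
  obtain ⟨a, b, d, -, h1, -, rfl⟩ := mem_hnf.1 h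
  rw [det_ut, ← h1]; push_cast; ring

theorem det_SL_mul (γ : SL) (Y : Z2) : (γ.1 * Y).det = Y.det := by
  rw [Matrix.det_mul, γ.det_coe, one_mul]

theorem det_mul_SL (γ : SL) (Y : Z2) : (Y * γ.1).det = Y.det := by
  rw [Matrix.det_mul, γ.det_coe, mul_one]

theorem SL_inv_mul (γ : SL) : (γ⁻¹).1 * γ.1 = 1 := by
  rw [← Matrix.SpecialLinearGroup.coe_mul, inv_mul_cancel]; rfl

theorem SL_mul_inv (γ : SL) : γ.1 * (γ⁻¹).1 = 1 := by
  rw [← Matrix.SpecialLinearGroup.coe_mul, mul_inv_cancel]; rfl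

/-- right translation permutes the left cosets -/
theorem sum_hnf_mul {m : ℕ} (hm : 0 < m) (Φ : Z2 → ℂ)
    (hΦ : ∀ (γ : SL) (Y : Z2), Y.det = m → Φ (γ.1 * Y) = Φ Y) (δ : SL) :
    ∑ g ∈ hnf m, Φ (g * δ.1) = ∑ g ∈ hnf m, Φ g := by
  have h1 : ∀ Y : Z2, ∃ g, Y.det = m → g ∈ hnf m ∧ ∃ γ : SL, Y = γ.1 * g := fun Y => by
    by_cases h : Y.det = m
    · obtain ⟨g, hg, -⟩ := exists_hnf hm h
      exact ⟨g, fun _ => hg⟩
    · exact ⟨1, fun h' => (h h').elim⟩
  choose r hr using h1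
  have uniq : ∀ Y : Z2, Y.det = m → ∀ g ∈ hnf m, ∀ γ : SL, Y = γ.1 * g → r Y = g :=
    fun Y hY g hg γ e1 => (exists_hnf hm hY).unique (hr Y hY) ⟨hg, γ, e1⟩
  have key : ∀ (δ : SL), ∀ g ∈ hnf m, r (r (g * δ.1) * (δ⁻¹).1) = g := fun δ g hg => by
    have hd : (g * δ.1).det = m := by rw [det_mul_SL, det_hnf hg]
    obtain ⟨h2, γ, h3⟩ := hr _ hd
    refine uniq _ (by rw [det_mul_SL, det_hnf h2]) g hg γ⁻¹ ?_
    have h4 : g = γ.1 * (r (g * δ.1) * (δ⁻¹).1) := by
      rw [← mul_assoc, ← h3, mul_assoc, SL_mul_inv, mul_one]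
    conv_rhs => rw [h4]
    rw [← mul_assoc, SL_inv_mul, one_mul]
  refine Finset.sum_nbij' (fun g => r (g * δ.1)) (fun g => r (g * (δ⁻¹).1)) (fun g hg => ?_)
    (fun g hg => ?_) (fun g hg => key δ g hg) (fun g hg => ?_) fun g hg => ?_
  · exact (hr _ (by rw [det_mul_SL, det_hnf hg])).1
  · exact (hr _ (by rw [det_mul_SL, det_hnf hg])).1
  · have := key δ⁻¹ g hg
    rwa [inv_inv] at this
  · obtain ⟨h2, γ, h3⟩ := hr (g * δ.1) (by rw [det_mul_SL, det_hnf hg])
    conv_lhs => rw [h3]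
    exact hΦ γ _ (det_hnf h2)

theorem sum_hnf (m : ℕ) (Φ : Z2 → ℂ) : ∑ g ∈ hnf m, Φ g =
    ∑ p ∈ m.divisorsAntidiagonal, ∑ b ∈ Finset.range p.2, Φ (ut p.1 b p.2) := by
  rw [hnf, Finset.sum_biUnion]
  · refine Finset.sum_congr rfl fun p _ => Finset.sum_image fun b _ b' _ h => ?_
    have := congrFun (congrFun h 0) 1
    simpa [ut] using this
  · intro p _ q _ hpq
    rw [Function.onFun, Finset.disjoint_left]
    intro g h1 h2
    obtain ⟨b, -, rfl⟩ := Finset.mem_image.1 h1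
    obtain ⟨b', -, h⟩ := Finset.mem_image.1 h2
    have e1 := congrFun (congrFun h 0) 0
    have e2 := congrFun (congrFun h 1) 1
    simp only [ut, Matrix.of_apply, Matrix.cons_val', Matrix.cons_val_zero, Matrix.cons_val_one,
      Matrix.cons_val_fin_one, Nat.cast_inj] at e1 e2
    exact hpq (Prod.ext e1.symm e2.symm)

theorem det_pos {m : ℕ} (hm : 0 < m) {Y : Z2} (h : Y.det = m) : 0 < (castZ Y).det := by
  rw [castZ_det, h]; exact_mod_cast hm

theorem act_SL_mul {m : ℕ} (hm : 0 < m) (γ : SL) {Y : Z2} (h : Y.det = m) (τ : ℍ) :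
    act (castZ (γ.1 * Y)) τ = γ • act (castZ Y) τ := by
  rw [castZ_mul, act_mul (by rw [det_castZ_SL]; exact one_ne_zero) (det_pos hm h).ne', act_SL]

theorem act_mul_SL {m : ℕ} (hm : 0 < m) (γ : SL) {Y : Z2} (h : Y.det = m) (τ : ℍ) :
    act (castZ (Y * γ.1)) τ = act (castZ Y) (γ • τ) := by
  rw [castZ_mul, act_mul (det_pos hm h).ne' (by rw [det_castZ_SL]; exact one_ne_zero), act_SL]

theorem adj_SL (γ : SL) : γ.1.adjugate = (γ⁻¹).1 := by
  rw [Matrix.SpecialLinearGroup.coe_inv]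

theorem adj_SL_mul (γ : SL) (Y : Z2) : (γ.1 * Y).adjugate = Y.adjugate * (γ⁻¹).1 := by
  rw [Matrix.adjugate_mul_distrib, adj_SL]

theorem adj_mul_SL (γ : SL) (Y : Z2) : γ.1 * (Y * γ.1).adjugate = Y.adjugate := by
  rw [Matrix.adjugate_mul_distrib, adj_SL, ← mul_assoc, SL_mul_inv, one_mul]

theorem coe_act_ut {a d : ℕ} (ha : 0 < a) (hd : 0 < d) (b : ℤ) (τ : ℍ) :
    (act (castZ (ut a b d)) τ : ℂ) = (a * τ + b) / d := by
  rw [coe_act (by rw [castZ_det, det_ut]; positivity)]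
  simp [castZ_apply, ut]

theorem hs_up {c : ℤ} (hc : c ≠ 0) {t : ℤ → ℂ} {x : ℂ} (h : HasSum t x) :
    HasSum (fun n : ℤ => if c ∣ n then t (n / c) else 0) x := by
  have hi : Function.Injective fun n : ℤ => c * n := mul_right_injective₀ hc
  rw [← hi.hasSum_iff]
  · convert h using 1
    funext n
    simp [Int.mul_ediv_cancel_left _ hc]
  · intro n hn
    rw [if_neg]
    rintro ⟨k, rfl⟩
    exact hn ⟨k, rfl⟩

theorem hs_down {c : ℤ} (hc : c ≠ 0) {t : ℤ → ℂ} {x : ℂ} (h : HasSum t x)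
    (h0 : ∀ n, ¬ c ∣ n → t n = 0) : HasSum (fun n : ℤ => t (c * n)) x := by
  have hi : Function.Injective fun n : ℤ => c * n := mul_right_injective₀ hc
  refine (hi.hasSum_iff fun n hn => h0 n ?_).2 h
  rintro ⟨k, rfl⟩
  exact hn ⟨k, rfl⟩

theorem hs_congr {t t' : ℤ → ℂ} {x x' : ℂ} (h : HasSum t x) (h1 : ∀ n, t' n = t n)
    (h2 : x' = x) : HasSum t' x' := by
  rw [h2, funext h1]; exact h

theorem sum_zmod (N : ℕ) [NeZero N] (φ : ZMod N → ℂ) :
    ∑ b ∈ Finset.range N, φ b = ∑ x, φ x := by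
  refine Finset.sum_nbij' (fun b : ℕ => (b : ZMod N)) (fun x => x.val) (fun _ _ => by simp)
    (fun x _ => Finset.mem_range.2 (ZMod.val_lt x)) (fun b hb => ?_) (fun x _ => by simp)
    fun _ _ => rfl
  exact ZMod.val_cast_of_lt (Finset.mem_range.1 hb)

theorem geo {d : ℕ} (hd : 0 < d) (t : ℤ) :
    ∑ b ∈ Finset.range d, eq (((b * t : ℤ) : ℚ) / d) = if (d : ℤ) ∣ t then (d : ℂ) else 0 := by
  have : NeZero d := ⟨hd.ne'⟩
  have h1 : ∀ b : ℕ, eq (((b * t : ℤ) : ℚ) / d) = eM d ((b : ZMod d) * (t : ZMod d)) := fun b => by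
    rw [← eM_intCast]; congr 1; push_cast; rfl
  simp only [h1]
  rw [sum_zmod d fun x => eM d (x * (t : ZMod d)), sum_eM]
  simp only [ZMod.intCast_zmod_eq_zero_iff_dvd]

variable {M : ℕ} [NeZero M]

theorem M_pos : 0 < M := Nat.pos_of_ne_zero (NeZero.ne M)

/-! ### the package `ba1` -/

/-- the summand of the Hecke sum -/
def Ph (M : ℕ) [NeZero M] (F : R2 M → ℍ → ℂ) (τ : ℍ) (Y : Z2) : ℂ :=
  sharp M F (red M (ModularGroup.S.1 * Y.adjugate)) (act (castZ Y) τ)

theorem Ph_left {F : R2 M → ℍ → ℂ} (h : Inp M F) {m : ℕ} (hm : 0 < m) (τ : ℍ) (γ : SL) (Y : Z2)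
    (hY : Y.det = m) : Ph M F τ (γ.1 * Y) = Ph M F τ Y := by
  rw [Ph, Ph, act_SL_mul hm γ hY, sh_eqv h, adj_SL_mul, ← mul_assoc, red_mul, mul_assoc,
    red_inv_mul, mul_one]

theorem S_conj (γ : SL) : ModularGroup.S.1 * γ.1 = (γ⁻¹).1.transpose * ModularGroup.S.1 := by
  rw [← adj_SL]
  ext i j; fin_cases i <;> fin_cases j <;>
    simp [ModularGroup.S, Matrix.mul_apply, Fin.sum_univ_two, Matrix.adjugate_fin_two]

theorem Am_law {F : R2 M → ℍ → ℂ} (h : Inp M F) {m : ℕ} (hm : 0 < m) (γ : SL) (τ : ℍ) :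
    Am M F m (γ • τ) = Am M (fun μ => F (μ * red M (γ⁻¹).1)) m τ := by
  have h' := inp_right h γ⁻¹
  have := sum_hnf_mul hm _ (Ph_left h' hm τ) γ
  simp only [Am]
  congr 1
  refine Eq.trans (Finset.sum_congr rfl fun g hg => ?_) this
  rw [Ph, act_mul_SL hm γ (det_hnf hg), sh_right F _ (det_red_SL _)]
  congr 1
  have e1 : (red M (γ⁻¹).1).transpose = red M (γ⁻¹).1.transpose := rfl
  rw [e1, ← red_mul, ← mul_assoc, ← S_conj, mul_assoc, adj_mul_SL]

theorem inO_Am {F : R2 M → ℍ → ℂ} (h : Inp M F) {m : ℕ} (hm : 0 < m) : InO M (Am M F m) := by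
  constructor
  · have := inG_fsum (hnf m) (fun g τ => Ph M F τ g) (fun _ => -((M : ℂ) ^ 2 / m)) fun g hg =>
      (inG_sharp h.cls _).comp_act (det_pos hm (det_hnf hg))
    convert this using 1
    funext τ
    rw [Am, Finset.mul_sum]
    exact Finset.sum_congr rfl fun g _ => mul_comm _ _
  · intro γ hγ τ
    rw [Am_law h hm, (mem_Gamma_iff_red M γ⁻¹).1 (inv_mem hγ)]
    simp only [mul_one]

theorem Gsum {d : ℕ} (hd : 0 < d) {ν κ : ℤ} (h : (M : ℤ) ∣ ν - κ * d) :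
    ∑ b ∈ Finset.range d, e (ν * (b : ℤ) / (d * M)) * eM M ((κ : ZMod M) * -(b : ZMod M)) =
      if (M * d : ℤ) ∣ ν - κ * d then (d : ℂ) else 0 := by
  obtain ⟨t, ht⟩ := h
  have hM : (M : ℤ) ≠ 0 := by exact_mod_cast NeZero.ne M
  have hM' := M_ne (M := M)
  have hd' : (d : ℂ) ≠ 0 := by exact_mod_cast hd.ne'
  rw [ht]
  simp only [mul_dvd_mul_iff_left hM]
  rw [← geo hd t]
  refine Finset.sum_congr rfl fun b _ => ?_
  have e1 : (κ : ZMod M) * -(b : ZMod M) = ((-(κ * b) : ℤ) : ZMod M) := by push_cast; ring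
  have e2 : (ν : ℂ) = κ * d + M * t := by
    have : ν = κ * d + M * t := by linarith
    exact_mod_cast this
  rw [e1, eM_intCast, eq, eq, ← e_add]
  congr 1
  push_cast
  rw [e2]
  field_simp
  ring

theorem hs_U {f : ℍ → ℂ} (hf : Hol f) {a d : ℕ} (ha : 0 < a) (hd : 0 < d) (k : ZMod M × ZMod M)
    (hT : ∀ τ, f (ModularGroup.T • τ) = eM M (k.2 * d) * f τ) (τ : ℍ) :
    HasSum (fun n : ℤ => (if (a : ℤ) ∣ n then (if ((n / a : ℤ) : ZMod M) = k.2 then
      d * coef M f (n / a * d) * eM M (k.1 * -a) else 0) else 0) * e (n * τ / M))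
      (∑ b ∈ Finset.range d, f (act (castZ (ut a b d)) τ) * eM M (k.1 * -a + k.2 * -b)) := by
  obtain ⟨hp, hc⟩ := coef_eq_zero_of_T hf hT
  obtain ⟨κ, hκ⟩ := ZMod.intCast_surjective k.2
  have hM' := M_ne (M := M)
  have hd' : (d : ℂ) ≠ 0 := by exact_mod_cast hd.ne'
  have hdz : (d : ℤ) ≠ 0 := by exact_mod_cast hd.ne'
  have haz : (a : ℤ) ≠ 0 := by exact_mod_cast ha.ne'
  have h1 := hasSum_sum fun b (_ : b ∈ Finset.range d) =>
    (hasSum_coef M_pos hf hp (act (castZ (ut a b d)) τ)).mul_right (eM M (k.1 * -a + k.2 * -b))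
  have h2 : ∀ ν : ℤ, ∑ b ∈ Finset.range d, coef M f ν *
      e (ν * (act (castZ (ut a b d)) τ : ℂ) / M) * eM M (k.1 * -a + k.2 * -b) =
      coef M f ν * e (ν * a * τ / (d * M)) * eM M (k.1 * -a) *
        if (M * d : ℤ) ∣ ν - κ * d then (d : ℂ) else 0 := fun ν => by
    by_cases h0 : coef M f ν = 0
    · simp [h0]
    have h3 : (M : ℤ) ∣ ν - κ * d := by
      rw [← ZMod.intCast_zmod_eq_zero_iff_dvd]
      have : (ν : ZMod M) = k.2 * d := by
        by_contra h4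
        exact h0 (hc ν h4)
      push_cast
      rw [this, hκ, sub_self]
    rw [← Gsum hd h3, Finset.mul_sum]
    refine Finset.sum_congr rfl fun b _ => ?_
    rw [coe_act_ut ha hd, eM_add, hκ, show (ν : ℂ) * ((a * τ + ((b : ℤ) : ℂ)) / d) / M =
      ν * a * τ / (d * M) + ν * ((b : ℤ) : ℂ) / (d * M) by field_simp, e_add]
    ring
  simp only [h2] at h1
  have h3 := hs_up haz (hs_down hdz h1 fun ν hν => by
    rw [if_neg, mul_zero]
    intro h4
    have h5 : (d : ℤ) ∣ ν - κ * d := (dvd_mul_left _ _).trans h4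
    exact hν ((dvd_sub_left (dvd_mul_left _ _)).1 h5))
  convert h3 using 2 with n
  by_cases hn : (a : ℤ) ∣ n
  · obtain ⟨ν, rfl⟩ := hn
    simp only [dvd_mul_right, if_true, Int.mul_ediv_cancel_left _ haz]
    have e1 : (M * d : ℤ) ∣ d * ν - κ * d ↔ (ν : ZMod M) = k.2 := by
      rw [show (d : ℤ) * ν - κ * d = (ν - κ) * d by ring, mul_dvd_mul_iff_right hdz,
        ← ZMod.intCast_zmod_eq_zero_iff_dvd, ← hκ]
      push_cast
      exact sub_eq_zero
    simp only [e1]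
    split_ifs
    · rw [mul_comm ν (d : ℤ), show (((d : ℤ) * ν : ℤ) : ℂ) * a * τ / (d * M) =
        (((a : ℤ) * ν : ℤ) : ℂ) * τ / M by push_cast; field_simp]
      ring
    · simp
  · simp [hn]

theorem coef_Am {F : R2 M → ℍ → ℂ} (h : Inp M F) {m : ℕ} (hm : 0 < m) (n : ℤ) :
    coef M (Am M F m) n = alpha M F m n := by
  have hM' := M_ne (M := M)
  have hm' : (m : ℂ) ≠ 0 := by exact_mod_cast hm.ne'
  have hO := inO_Am h hm
  have pos : ∀ p ∈ m.divisorsAntidiagonal, 0 < p.1 ∧ 0 < p.2 := fun p hp => by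
    have := (Nat.mem_divisorsAntidiagonal.1 hp).1
    constructor <;> refine Nat.pos_of_ne_zero fun h0 => ?_ <;> simp [h0] at this <;> omega
  rw [coef_unique M_pos hO.1.1 hO.2.per (Y := 0) (a := fun n => -(1 / (m : ℂ)) *
    ∑ p ∈ m.divisorsAntidiagonal, ∑ k : ZMod M × ZMod M, if (p.1 : ℤ) ∣ n then
      (if ((n / p.1 : ℤ) : ZMod M) = k.2 then
        p.2 * coef M (F !![-k.2, k.1; 0, p.2]) (n / p.1 * p.2) * eM M (k.1 * -p.1) else 0) else 0)]
  · rw [Nat.sum_divisorsAntidiagonal (f := fun a d : ℕ => ∑ k : ZMod M × ZMod M,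
      if (a : ℤ) ∣ n then (if ((n / a : ℤ) : ZMod M) = k.2 then
        d * coef M (F !![-k.2, k.1; 0, d]) (n / a * d) * eM M (k.1 * -a) else 0) else 0), alpha,
      Finset.sum_filter, neg_mul, Finset.mul_sum]
    congr 1
    refine Finset.sum_congr rfl fun a ha => ?_
    obtain ⟨d, rfl⟩ := Nat.dvd_of_mem_divisors ha
    have ha0 : 0 < a := Nat.pos_of_mul_pos_right hm
    have ha' : (a : ℂ) ≠ 0 := by exact_mod_cast ha0.ne'
    have hd' : (d : ℂ) ≠ 0 := by exact_mod_cast (Nat.pos_of_mul_pos_left hm).ne'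
    rw [Nat.mul_div_cancel_left _ ha0]
    split_ifs with hn
    · rw [Fintype.sum_prod_type]
      simp only [Finset.sum_ite_eq, Finset.mem_univ, if_true]
      rw [← sum_zmod M fun x => (d : ℂ) * coef M (F !![-((n / a : ℤ) : ZMod M), x; 0, d])
        (n / a * d) * eM M (x * -a), Finset.mul_sum, Finset.sum_div]
      refine Finset.sum_congr rfl fun b _ => ?_
      have e1 : red M (ut (-(n / a)) b d) = !![-((n / a : ℤ) : ZMod M), b; 0, d] := by
        ext i j; fin_cases i <;> fin_cases j <;> simp [red_apply, ut]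
      have e2 : (b : ZMod M) * -a = ((-((a * b : ℕ) : ℤ) : ℤ) : ZMod M) := by push_cast; ring
      rw [PP, e1, det_ut, e2, eM_intCast, neg_mul, neg_neg]
      push_cast
      field_simp
    · simp
  · intro τ _
    have h1 := (hasSum_sum fun p hp => hasSum_sum fun (k : ZMod M × ZMod M)
      (_ : k ∈ Finset.univ) => hs_U (h.cls !![-k.2, k.1; 0, p.2]).1 (pos p hp).1 (pos p hp).2 k
        (fun τ => by rw [h.hT]; simp) τ).mul_left (-(1 / (m : ℂ)))
    refine hs_congr h1 (fun n => ?_) ?_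
    · simp only [Finset.sum_mul, mul_assoc]
    · rw [Am, sum_hnf m fun g => sharp M F (red M (ModularGroup.S.1 * g.adjugate))
        (act (castZ g) τ), Finset.mul_sum, Finset.mul_sum]
      refine Finset.sum_congr rfl fun p _ => ?_
      rw [Finset.sum_comm, Finset.mul_sum, Finset.mul_sum]
      refine Finset.sum_congr rfl fun b _ => ?_
      have e1 : red M (ModularGroup.S.1 * (ut p.1 b p.2).adjugate) =
          !![0, -(p.1 : ZMod M); p.2, -(b : ZMod M)] := by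
        ext i j; fin_cases i <;> fin_cases j <;> simp [red_apply, ut, ModularGroup.S,
          Matrix.adjugate_fin_two]
      rw [e1, sharp]
      simp only [Matrix.of_apply, Matrix.cons_val', Matrix.cons_val_zero, Matrix.cons_val_one,
        Matrix.cons_val_fin_one]
      field_simp

/-! ### the package `fplus` -/

theorem jj_pow (hJ : S_J) (n : ℕ) :
    (∀ k : ℤ, k < -n → coef 1 (jj ^ n) k = 0) ∧ coef 1 (jj ^ n) (-n) = 1 := by
  obtain ⟨-, -, -, h1, h2, -⟩ := hJ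
  induction n with
  | zero =>
    have e1 : jj ^ 0 = fun _ => (1 : ℂ) := rfl
    simp only [e1, coef_const one_pos]
    exact ⟨fun k hk => if_neg (by omega), by simp⟩
  | succ n ih =>
    have h3 := coef_mul one_pos (inO_jj.pow n).1.1 (inO_jj.pow n).2.per inO_jj.1.1 inO_jj.2.per
      ih.1 h1
    rw [pow_succ]
    constructor
    · intro k hk
      rw [h3, Finset.Icc_eq_empty (by push_cast at hk; omega), Finset.sum_empty]
    · rw [h3, show -((n + 1 : ℕ) : ℤ) - -1 = -n by push_cast; ring, Finset.Icc_self,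
        Finset.sum_singleton, ih.2, show -((n + 1 : ℕ) : ℤ) - -n = -1 by push_cast; ring, h2,
        mul_one]

theorem exists_pp (hJ : S_J) (n0 : ℕ) : ∀ c : ℕ → ℂ, ∃ f, InO 1 f ∧
    (∀ n : ℕ, 0 < n → n ≤ n0 → coef 1 f (-n) = c n) ∧ ∀ k : ℤ, k < -n0 → coef 1 f k = 0 := by
  induction n0 with
  | zero =>
    intro c
    refine ⟨fun _ => 0, inO_const 1 0, fun n h1 h2 => by omega, fun k _ => ?_⟩
    rw [coef_const one_pos]; simp
  | succ n0 ih =>
    intro c
    obtain ⟨f, hf, h1, h2⟩ := ih fun n => c n - c (n0 + 1) * coef 1 (jj ^ (n0 + 1)) (-n)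
    obtain ⟨h3, h4⟩ := jj_pow hJ (n0 + 1)
    have hg := (inO_jj.pow (n0 + 1)).smul (c (n0 + 1))
    have h5 := fun k => coef_add (M := 1) hf.1.1.continuous hg.1.1.continuous k
    simp only [coef_smul] at h5
    refine ⟨_, hf.add hg, fun n hn hn' => ?_, fun k hk => ?_⟩
    · rw [h5]
      rcases Nat.lt_or_eq_of_le hn' with h6 | rfl
      · rw [h1 n hn (by omega)]; ring
      · rw [h2 _ (by push_cast; omega), h4]; ring
    · rw [h5, h2 k (by push_cast at hk; omega), h3 k hk]; ring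

open Classical in
/-- the Hecke sum with a congruence condition -/
def HH (M : ℕ) (J : ℍ → ℂ) (A : R2 M) (τ : ℍ) : ℂ :=
  ∑ g ∈ hnf M, J (act (castZ g) τ) * if A * red M g.adjugate = 0 then 1 else 0

theorem inp_HH {J : ℍ → ℂ} (hJ : InO 1 J) : Inp M (unsharp M (HH M J)) := by
  classical
  refine inp_un (fun A => inG_fsum (hnf M) (fun g τ => J (act (castZ g) τ)) _ fun g hg =>
    hJ.1.comp_act (det_pos M_pos (det_hnf hg))) fun A γ τ => ?_
  have := sum_hnf_mul (M_pos (M := M)) (fun g => J (act (castZ g) τ) *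
    if A * red M γ.1 * red M g.adjugate = 0 then 1 else 0) (fun δ Y hY => ?_) γ
  · refine Eq.trans (Finset.sum_congr rfl fun g hg => ?_) this
    rw [act_mul_SL M_pos γ (det_hnf hg), mul_assoc, ← red_mul, adj_mul_SL]
  · rw [act_SL_mul M_pos δ hY, hJ.2 δ (by simp [Gamma_one_top]), adj_SL_mul, red_mul, ← mul_assoc]
    congr 2
    refine propext ⟨fun h => ?_, fun h => by rw [h, zero_mul]⟩
    have := congrArg (· * red M δ.1) h
    simpa only [mul_assoc, red_inv_mul, mul_one, zero_mul] using this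

theorem eM_nat_mul (b : ℕ) (z : ZMod M) : eM M (b * z) = eM M z ^ b := by
  induction b with
  | zero => simp [eM_zero]
  | succ b ih => rw [pow_succ, ← ih, ← eM_add]; congr 1; push_cast; ring

/-- character sum over the elements killed by `a` -/
def KK (M : ℕ) [NeZero M] (a y : ZMod M) : ℂ := ∑ t, if a * t = 0 then eM M (y * t) else 0

theorem KK_nat (a y : ZMod M) : ∃ k : ℕ, KK M a y = k ∧
    (k ≠ 0 → ∀ t, a * t = 0 → eM M (y * t) = 1) ∧ (a = 1 → k = 1) := by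
  by_cases h : ∀ t, a * t = 0 → eM M (y * t) = 1
  · refine ⟨(Finset.univ.filter fun t => a * t = 0).card, ?_, fun _ => h, ?_⟩
    · rw [KK, ← Finset.sum_filter, Finset.card_eq_sum_ones]
      push_cast
      exact Finset.sum_congr rfl fun t ht => h t (Finset.mem_filter.1 ht).2
    · rintro rfl
      simp [Finset.filter_eq']
  · push Not at h
    obtain ⟨t0, h1, h2⟩ := h
    refine ⟨0, ?_, fun h => (h rfl).elim, ?_⟩
    · have h3 : KK M a y = eM M (y * t0) * KK M a y := by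
        rw [KK, Finset.mul_sum]
        refine (Fintype.sum_equiv (Equiv.addRight t0) _ _ fun t => ?_).symm
        simp only [Equiv.coe_addRight, mul_add, h1, add_zero, eM_add]
        split_ifs <;> ring
      have h4 : (eM M (y * t0) - 1) * KK M a y = 0 := by linear_combination -h3
      simpa using (mul_eq_zero.1 h4).resolve_left (sub_ne_zero.2 h2)
    · rintro rfl
      rw [one_mul] at h1
      simp [h1, eM_zero] at h2

theorem KK_shift (a y w : ZMod M) :
    ∑ t, (if a * t = a * w then eM M (y * t) else 0) = eM M (y * w) * KK M a y := by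
  rw [KK, Finset.mul_sum]
  refine (Fintype.sum_equiv (Equiv.addRight w) _ _ fun t => ?_).symm
  simp only [Equiv.coe_addRight, mul_add, add_eq_right, eM_add]
  split_ifs <;> ring

theorem exists_fac {a d : ℕ} (h : a * d = M) {x : ZMod M} (hx : x * d = 0) : ∃ u, x = a * u := by
  obtain ⟨x, rfl⟩ := ZMod.intCast_surjective x
  have hd : (d : ℤ) ≠ 0 := by
    rintro h0
    have : d = 0 := by exact_mod_cast h0
    exact NeZero.ne M (by rw [← h, this, mul_zero])
  have h1 : ((x * d : ℤ) : ZMod M) = 0 := by push_cast; exact hx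
  rw [ZMod.intCast_zmod_eq_zero_iff_dvd, ← h, Nat.cast_mul, mul_dvd_mul_iff_right hd] at h1
  obtain ⟨u, rfl⟩ := h1
  exact ⟨u, by push_cast; rfl⟩

open Classical in
/-- the coefficient of `J ((a τ + b) / d)` -/
def ww (M : ℕ) [NeZero M] (μ : R2 M) (g : Z2) : ℂ :=
  ∑ n : ZMod M × ZMod M, (if !![μ 1 0, n.1; μ 1 1, n.2] * red M g.adjugate = 0 then 1 else 0) *
    eM M (-(μ 0 1 * n.1 - μ 0 0 * n.2))

omit [NeZero M] in
theorem cond_iff (μ : R2 M) (n : ZMod M × ZMod M) (a b d : ℕ) :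
    !![μ 1 0, n.1; μ 1 1, n.2] * red M (ut a b d).adjugate = 0 ↔
      (μ 1 0 * d = 0 ∧ μ 1 1 * d = 0) ∧ a * n.1 = b * μ 1 0 ∧ a * n.2 = b * μ 1 1 := by
  rw [← Matrix.ext_iff]
  simp only [Fin.forall_fin_two, Matrix.mul_apply, Fin.sum_univ_two, red_apply, ut,
    Matrix.adjugate_fin_two, Matrix.of_apply, Matrix.cons_val', Matrix.cons_val_zero,
    Matrix.cons_val_one, Matrix.cons_val_fin_one, Matrix.zero_apply]
  push_cast
  constructor
  · rintro ⟨⟨h1, h2⟩, h3, h4⟩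
    exact ⟨⟨by linear_combination h1, by linear_combination h3⟩, by linear_combination h2,
      by linear_combination h4⟩
  · rintro ⟨⟨h1, h3⟩, h2, h4⟩
    exact ⟨⟨by linear_combination h1, by linear_combination h2⟩, by linear_combination h3,
      by linear_combination h4⟩

theorem W_nat (μ : R2 M) {a d : ℕ} (h : a * d = M) (ν : ℤ) : ∃ k : ℕ,
    ∑ b ∈ Finset.range d, e (ν * (b : ℤ) / d) * ww M μ (ut a b d) = k ∧
      (a = 1 → (ν : ZMod M) = -μ.det → 1 ≤ k) := by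
  have hM := M_pos (M := M)
  have ha : 0 < a := Nat.pos_of_mul_pos_right (h ▸ hM)
  have hd : 0 < d := Nat.pos_of_mul_pos_left (h ▸ hM)
  have had : (a : ZMod M) * d = 0 := by rw [← Nat.cast_mul, h, ZMod.natCast_self]
  by_cases h0 : μ 1 0 * d = 0 ∧ μ 1 1 * d = 0
  swap
  · refine ⟨0, ?_, ?_⟩
    · simp only [ww, cond_iff, h0]
      simp
    · rintro rfl
      rw [Nat.cast_one, one_mul] at had
      simp [had] at h0
  obtain ⟨u, hu⟩ := exists_fac h h0.1
  obtain ⟨v, hv⟩ := exists_fac h h0.2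
  obtain ⟨k1, e1, f1, g1⟩ := KK_nat (a : ZMod M) (-μ 0 1)
  obtain ⟨k2, e2, f2, g2⟩ := KK_nat (a : ZMod M) (μ 0 0)
  set z : ZMod M := a * ν - μ 0 1 * u + μ 0 0 * v with hz
  have h1 : ∀ b : ℕ, e (ν * (b : ℤ) / d) * ww M μ (ut a b d) = k1 * k2 * eM M z ^ b := fun b => by
    have h2 : ww M μ (ut a b d) = (∑ t, if a * t = a * (b * u) then eM M (-μ 0 1 * t) else 0) *
        ∑ t, if a * t = a * (b * v) then eM M (μ 0 0 * t) else 0 := by
      rw [Finset.sum_mul_sum, ww, Fintype.sum_prod_type]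
      refine Finset.sum_congr rfl fun s _ => Finset.sum_congr rfl fun t _ => ?_
      have hc := cond_iff μ (s, t) a b d
      dsimp only at hc ⊢
      simp only [hc]
      rw [show (b : ZMod M) * μ 1 0 = a * (b * u) by rw [hu]; ring,
        show (b : ZMod M) * μ 1 1 = a * (b * v) by rw [hv]; ring,
        show -(μ 0 1 * s - μ 0 0 * t) = -μ 0 1 * s + μ 0 0 * t by ring, eM_add]
      by_cases p1 : a * s = a * (b * u) <;> by_cases p2 : a * t = a * (b * v) <;>
        simp [h0, p1, p2]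
    have h3 : e (ν * (b : ℤ) / d) = eM M (b * (a * ν)) := by
      have ha' : (a : ℂ) ≠ 0 := by exact_mod_cast ha.ne'
      have hd' : (d : ℂ) ≠ 0 := by exact_mod_cast hd.ne'
      rw [show (b : ZMod M) * (a * ν) = ((b * (a * ν) : ℤ) : ZMod M) by push_cast; rfl,
        eM_intCast, eq, ← h]
      congr 1
      push_cast
      field_simp
    rw [h2, KK_shift, KK_shift, e1, e2, h3, ← eM_nat_mul, show (b : ZMod M) * z =
      b * (a * ν) + -μ 0 1 * (b * u) + μ 0 0 * (b * v) by rw [hz]; ring, eM_add, eM_add]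
    ring
  simp only [h1]
  rw [← Finset.mul_sum]
  by_cases hk : k1 = 0 ∨ k2 = 0
  · refine ⟨0, by rcases hk with hk | hk <;> simp [hk], fun h1 => ?_⟩
    have h2 := g1 (by rw [h1, Nat.cast_one])
    have h3 := g2 (by rw [h1, Nat.cast_one])
    omega
  push Not at hk
  by_cases hz1 : eM M z = 1
  · refine ⟨k1 * k2 * d, by simp [hz1], fun _ _ => ?_⟩
    exact Nat.pos_of_ne_zero (mul_ne_zero (mul_ne_zero hk.1 hk.2) hd.ne')
  · refine ⟨0, ?_, ?_⟩
    · have h2 : eM M z ^ d = 1 := by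
        have p1 := f1 hk.1 (d * u) (by rw [← mul_assoc, had, zero_mul])
        have p2 := f2 hk.2 (d * v) (by rw [← mul_assoc, had, zero_mul])
        rw [← eM_nat_mul, show (d : ZMod M) * z = (a * d) * ν + -μ 0 1 * (d * u) +
          μ 0 0 * (d * v) by rw [hz]; ring, had, zero_mul, zero_add, eM_add, p1, p2, mul_one]
      rw [geom_sum_eq hz1, h2]; simp
    · rintro rfl hν
      refine (hz1 ?_).elim
      rw [show z = 0 by
        rw [hz, hν, Matrix.det_fin_two, hu, hv]; push_cast; ring, eM_zero]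

theorem coef_HH {J : ℍ → ℂ} (hJ : InO 1 J) (μ : R2 M) (n : ℤ) :
    coef M (unsharp M (HH M J) μ) n = ∑ p ∈ M.divisorsAntidiagonal,
      if (p.1 ^ 2 : ℤ) ∣ n then coef 1 J (n / p.1 ^ 2) * ∑ b ∈ Finset.range p.2,
        e ((n / p.1 ^ 2 : ℤ) * (b : ℤ) / p.2) * ww M μ (ut p.1 b p.2) else 0 := by
  have hI := inp_HH (M := M) hJ
  have hM := M_pos (M := M)
  refine coef_unique hM (hI.cls μ).1 (coef_eq_zero_of_T (hI.cls μ).1 (hI.hT μ)).1 (Y := 0)
    (a := fun n => ∑ p ∈ M.divisorsAntidiagonal,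
      if (p.1 ^ 2 : ℤ) ∣ n then coef 1 J (n / p.1 ^ 2) * ∑ b ∈ Finset.range p.2,
        e ((n / p.1 ^ 2 : ℤ) * (b : ℤ) / p.2) * ww M μ (ut p.1 b p.2) else 0) (fun τ _ => ?_) n
  have h1 := hasSum_sum fun p (hp : p ∈ M.divisorsAntidiagonal) =>
    hs_up (c := p.1 ^ 2) (pow_ne_zero 2 (by
      exact_mod_cast Nat.left_ne_zero_of_mem_divisorsAntidiagonal hp))
      (hasSum_sum fun b (_ : b ∈ Finset.range p.2) => (hasSum_coef one_pos hJ.1.1 hJ.2.per
        (act (castZ (ut p.1 b p.2)) τ)).mul_right (ww M μ (ut p.1 b p.2)))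
  refine hs_congr h1 (fun n => ?_) ?_
  · rw [Finset.sum_mul]
    refine Finset.sum_congr rfl fun p hp => ?_
    have h2 := (Nat.mem_divisorsAntidiagonal.1 hp).1
    have ha : 0 < p.1 := Nat.pos_of_mul_pos_right (h2 ▸ hM)
    have hd : 0 < p.2 := Nat.pos_of_mul_pos_left (h2 ▸ hM)
    have ha' : (p.1 : ℂ) ≠ 0 := by exact_mod_cast ha.ne'
    have hd' : (p.2 : ℂ) ≠ 0 := by exact_mod_cast hd.ne'
    split_ifs with hn
    · obtain ⟨ν, rfl⟩ := hn
      rw [Int.mul_ediv_cancel_left _ (by positivity), Finset.mul_sum, Finset.sum_mul]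
      refine Finset.sum_congr rfl fun b _ => ?_
      have h3 : (M : ℂ) = p.1 * p.2 := by rw [← h2]; push_cast; rfl
      rw [coe_act_ut ha hd, show (ν : ℂ) * ((p.1 * τ + ((b : ℤ) : ℂ)) / p.2) / (1 : ℕ) =
        ν * ((b : ℤ) : ℂ) / p.2 + (((p.1 : ℤ) ^ 2 * ν : ℤ) : ℂ) * τ / M by
          rw [h3]; push_cast; field_simp; ring, e_add]
      ring
    · simp
  · simp only [unsharp, HH, Finset.sum_mul]
    rw [Finset.sum_comm, ← sum_hnf M fun g => J (act (castZ g) τ) * ww M μ g]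
    refine Finset.sum_congr rfl fun g _ => ?_
    simp only [ww, Finset.mul_sum, mul_assoc]

end SharpP

open SharpP in
theorem fplus : S_J → S_Sharp → S_Fplus := fun hJ _ M _ n0 => by
  obtain ⟨J, hO, h1, h2⟩ := exists_pp hJ n0 fun _ => 1
  refine ⟨_, inp_HH hO, fun μ n hn => ?_⟩
  have h3 : ∀ p ∈ M.divisorsAntidiagonal, ∃ k : ℕ,
      (if (p.1 ^ 2 : ℤ) ∣ -(n : ℤ) then coef 1 J (-(n : ℤ) / p.1 ^ 2) * ∑ b ∈ Finset.range p.2,
        e ((-(n : ℤ) / p.1 ^ 2 : ℤ) * (b : ℤ) / p.2) * ww M μ (ut p.1 b p.2) else 0) = k ∧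
      (p.1 = 1 → n ≤ n0 → (n : ZMod M) = μ.det → 1 ≤ k) := fun p hp => by
    have h4 := (Nat.mem_divisorsAntidiagonal.1 hp).1
    have ha : 0 < p.1 := Nat.pos_of_mul_pos_right (h4 ▸ M_pos (M := M))
    split_ifs with h5
    · obtain ⟨m, hm⟩ : p.1 ^ 2 ∣ n := by exact_mod_cast (dvd_neg.1 h5)
      have h6 : -(n : ℤ) / p.1 ^ 2 = -m := by
        rw [hm]
        push_cast
        rw [← mul_neg, Int.mul_ediv_cancel_left _ (by positivity)]
      have hm0 : 0 < m := Nat.pos_of_mul_pos_left (hm ▸ hn)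
      rw [h6]
      obtain ⟨k, h7, h8⟩ := W_nat μ h4 (-m)
      rcases le_or_gt m n0 with h9 | h9
      · refine ⟨k, by rw [h1 m hm0 h9, one_mul, h7], fun q1 _ q2 => h8 q1 ?_⟩
        rw [← q2, hm, q1]; simp
      · refine ⟨0, by rw [h2 _ (by omega)]; simp, fun q1 q2 _ => ?_⟩
        rw [q1] at hm
        omega
    · exact ⟨0, by simp, fun q1 => (h5 (by simp [q1])).elim⟩
  choose! k hk hk' using h3
  refine ⟨∑ p ∈ M.divisorsAntidiagonal, k p, ?_, fun q1 q2 => ?_⟩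
  · rw [coef_HH hO, Nat.cast_sum]
    exact Finset.sum_congr rfl hk
  · have h4 : (1, M) ∈ M.divisorsAntidiagonal := by simp [NeZero.ne M]
    exact (hk' _ h4 rfl q1 q2).trans (Finset.single_le_sum (fun _ _ => Nat.zero_le _) h4)

open SharpP in
theorem ba1 : S_Sharp → S_BA1 := fun _ _ _ _ h _ hm =>
  ⟨inO_Am h hm, coef_Am h hm, Am_law h hm⟩

end

end Pool.Agent.P.MP_b8021b_nt.CM
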