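import Pool.Agent.P.MP_b8021b_nt.CM.Vec2

/-! Package P15: the maximum principle for vector valued forms of weight three halves. -/

namespace Pool.Agent.P.MP_b8021b_nt.CM

open Complex hiding Gamma
open UpperHalfPlane hiding I
open MeasureTheory CongruenceSubgroup Filter
open scoped Real MatrixGroups ModularForm Topology ComplexConjugate Modular

noncomputable section

open VecP in
theorem vec : S_Vec := by
  obtain ⟨C1, Y0, hC1, hlow⟩ := w_lower
  obtain ⟨E1, hE1, hline⟩ := w_line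
  have hpi := Real.pi_gt_three
  obtain ⟨Y, hY3, hY0, hYb⟩ : ∃ Y : ℝ, 3 ≤ Y ∧ Y0 + 1 ≤ Y ∧
      8 * C1 * E1 * Real.exp (π / 2) + 1 ≤ Y :=
    ⟨max 3 (max (Y0 + 1) (8 * C1 * E1 * Real.exp (π / 2) + 1)), le_max_left _ _,
      (le_max_left _ _).trans (le_max_right _ _), (le_max_right _ _).trans (le_max_right _ _)⟩
  obtain ⟨E2, hE2, htr⟩ := w_trunc Y
  set C2 : ℝ := 2 * C1 * Real.exp (π * Y / 4) * (Y * E2 + 2 * E1) with hC2
  have hC20 : 0 ≤ C2 := by
    have : 0 ≤ Y := by linarith
    positivity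
  refine ⟨2 * Real.exp (2 * π) * (1 + C2), ?_⟩
  intro ι _ c δ L hδ hL h hs hcl hS hl i m
  choose b hb1 hb2 hb using fun i => exists_rep (hcl i)
  have hS' : ∀ τ : ℍ, ‖HH c (ModularGroup.S • τ)‖ ^ 2 = ‖(τ : ℂ)‖ ^ 3 * ‖HH c τ‖ ^ 2 := by
    intro τ
    rw [norm_HH_sq, norm_HH_sq, hS]
  have hδ' : (0 : ℝ) < δ := by exact_mod_cast hδ
  set s : ℝ := Real.sqrt (Fintype.card ι) with hs0
  have hs1 : 0 ≤ s := Real.sqrt_nonneg _
  obtain ⟨τ1, h1, h2, hD, hl1⟩ := max_pr h (Phi_SL hb hS') (Y := Y) (by linarith)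
  set K := Phi c τ1 with hK
  have hK0 : 0 ≤ K := Phi_nonneg _
  have hB : ∀ u ∈ Set.Icc (0 : ℝ) 1, ‖HH c (pt u 1)‖ ≤ K * E1 := fun u hu => by
    rw [norm_HH_eq]
    exact mul_le_mul (hl1 u) (hline u hu) (w_pos _).le hK0
  have hhigh := high h hδ hL hs hb1 hb2 hb hl hB
  -- the bound for the maximum
  have hKb : K ≤ 2 * C1 * Real.exp (π * Y / 4) * (s * L) := by
    have a1 := hhigh τ1 (by linarith)
    have a2 := hlow τ1 (by linarith)
    set y := τ1.im with hy
    have a3 : Real.exp (-2 * π * (δ * y)) ≤ 1 := by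
      rw [Real.exp_le_one_iff]
      have : 0 ≤ π * (δ * y) := by
        have : 0 ≤ y := by linarith
        positivity
      linarith
    have a4 : s * (L * Real.exp (-2 * π * (δ * y))) ≤ s * L :=
      mul_le_mul_of_nonneg_left (mul_le_of_le_one_right hL a3) hs1
    have a5 : 4 * C1 * E1 * Real.exp (π / 2) ≤ Real.exp (π * y / 4) := by
      have b1 := Real.add_one_le_exp (π * y / 4)
      have b2 : 3 * y ≤ π * y := mul_le_mul_of_nonneg_right hpi.le (by linarith)
      linarith
    have a6 : Real.exp (-(π * (y - 1) / 2))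
        = Real.exp (π / 2) * Real.exp (-(π * y / 4)) * Real.exp (-(π * y / 4)) := by
      rw [← Real.exp_add, ← Real.exp_add]
      congr 1
      ring
    have a7 : Real.exp (π * y / 4) * Real.exp (-(π * y / 4)) = 1 := by
      rw [← Real.exp_add, add_neg_cancel, Real.exp_zero]
    have a8 : Real.exp (π * y / 4) ≤ Real.exp (π * Y / 4) :=
      Real.exp_le_exp.2 (by
        have := mul_le_mul_of_nonneg_left h2 Real.pi_pos.le
        linarith only [this])
    rw [norm_HH_eq, ← hK, a6] at a1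
    set t := Real.exp (-(π * y / 4)) with ht
    set T := Real.exp (π * y / 4) with hT
    have ht0 : 0 < t := Real.exp_pos _
    have hT0 : 0 < T := Real.exp_pos _
    have a9 : 4 * C1 * E1 * Real.exp (π / 2) * t ≤ 1 := by
      rw [← a7]
      exact mul_le_mul_of_nonneg_right a5 ht0.le
    have b1 : K * t ≤ C1 * (K * w τ1) := by
      have := mul_le_mul_of_nonneg_left a2 hK0
      linarith
    have b2 : C1 * (K * w τ1) ≤ C1 * (s * L + 2 * (K * E1) * (Real.exp (π / 2) * t * t)) :=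
      mul_le_mul_of_nonneg_left (by linarith) (by linarith)
    have b3 : K * t * (4 * C1 * E1 * Real.exp (π / 2) * t) ≤ K * t * 1 :=
      mul_le_mul_of_nonneg_left a9 (by positivity)
    have b4 : K * t ≤ 2 * C1 * (s * L) := by linarith
    have b5 : K = K * t * T := by rw [mul_assoc, mul_comm t T, a7, mul_one]
    have b6 : 0 ≤ 2 * C1 * (s * L) := by
      have : 0 ≤ C1 := by linarith
      positivity
    calc K = K * t * T := b5
      _ ≤ 2 * C1 * (s * L) * Real.exp (π * Y / 4) := mul_le_mul b4 a8 hT0.le b6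
      _ = _ := by ring
  set B : ℝ := s * L * (1 + C2) * (1 + 1 / δ) with hBd
  have hsL : 0 ≤ s * L := mul_nonneg hs1 hL
  have hB0 : 0 ≤ B := by positivity
  have hKC : K * (Y * E2 + 2 * E1) ≤ s * L * C2 := by
    have : 0 ≤ Y * E2 + 2 * E1 := by
      have : 0 ≤ Y := by linarith
      positivity
    have := mul_le_mul_of_nonneg_right hKb this
    rw [hC2]
    linarith
  have hBl : s * L * (1 / δ) + s * L * C2 ≤ B := by
    have a1 : 0 ≤ s * L * C2 * (1 / δ) := by positivity
    have : B = s * L * (1 / δ) + s * L * C2 + (s * L + s * L * C2 * (1 / δ)) := by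
      rw [hBd]; ring
    linarith
  have hYE : 0 ≤ K * (Y * E2) := by
    have : 0 ≤ Y := by linarith
    positivity
  have hKE : 0 ≤ K * E1 := by positivity
  have hδ1 : 0 ≤ s * L * (1 / δ) := by positivity
  -- bound on the fundamental domain
  have hfd : ∀ τ ∈ 𝒟, τ.im * ‖HH c τ‖ ≤ B := by
    intro τ hτ
    have hy := τ.im_pos
    rcases le_total τ.im Y with hle | hle
    · have a1 : ‖HH c τ‖ ≤ K * E2 := by
        rw [norm_HH_eq]
        exact mul_le_mul (hD τ hτ hle) (htr τ hτ hle) (w_pos _).le hK0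
      have a2 : τ.im * ‖HH c τ‖ ≤ Y * (K * E2) :=
        mul_le_mul hle a1 (norm_nonneg _) (by linarith)
      linarith
    · have a1 := mul_le_mul_of_nonneg_left (hhigh τ (by linarith)) hy.le
      set y := τ.im with hyd
      have a2 : y * Real.exp (-2 * π * (δ * y)) ≤ 1 / δ := by
        have b1 : Real.exp (-2 * π * (δ * y)) ≤ Real.exp (-(δ * y)) := by
          refine Real.exp_le_exp.2 ?_
          have : 0 ≤ (δ : ℝ) * y := by positivity
          have c1 := mul_le_mul_of_nonneg_right hpi.le this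
          linarith only [this, c1]
        have b2 := mul_exp_le (x := δ * y)
        rw [le_div_iff₀ hδ']
        have b3 := mul_le_mul_of_nonneg_left b1 (mul_pos hδ' hy).le
        linarith
      have a3 : y * Real.exp (-(π * (y - 1) / 2)) ≤ 1 := by
        have b1 : Real.exp (-(π * (y - 1) / 2)) ≤ Real.exp (-(y - 1)) := by
          refine Real.exp_le_exp.2 ?_
          have c0 : 0 ≤ y - 1 := by linarith only [hle, hY3]
          have c1 := mul_le_mul_of_nonneg_right hpi.le c0
          linarith only [c0, c1]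
        have b2 : y * Real.exp (-(y - 1)) ≤ 1 := by
          rw [Real.exp_neg, ← div_eq_mul_inv, div_le_one (Real.exp_pos _)]
          linarith [Real.add_one_le_exp (y - 1)]
        exact (mul_le_mul_of_nonneg_left b1 hy.le).trans b2
      have a4 := mul_le_mul_of_nonneg_left a2 hsL
      have a5 := mul_le_mul_of_nonneg_left a3 hKE
      linarith
  have hall : ∀ τ : ℍ, τ.im ≤ 1 → τ.im * ‖HH c τ‖ ≤ 2 * B := by
    intro τ hτ
    obtain ⟨γ, hγ⟩ := ModularGroup.exists_smul_mem_fd τ
    have a1 := Psi_SL hb hS' γ τ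
    have a2 := hfd _ hγ
    have a3 := half_le_im hγ
    have hy := τ.im_pos
    set y' := (γ • τ).im with hy'
    set N' := ‖HH c (γ • τ)‖ with hN'
    have hN0 : 0 ≤ N' := norm_nonneg _
    have a4 : (y' * N') ^ 4 ≤ B ^ 4 := pow_le_pow_left₀ (by positivity) a2 4
    have a5 : y' ^ 3 * N' ^ 4 * 1 ≤ y' ^ 3 * N' ^ 4 * (2 * y') :=
      mul_le_mul_of_nonneg_left (by linarith) (by positivity)
    have a6 : τ.im ^ 3 * ‖HH c τ‖ ^ 4 * τ.im ≤ τ.im ^ 3 * ‖HH c τ‖ ^ 4 * 1 :=
      mul_le_mul_of_nonneg_left hτ (by positivity)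
    refine (pow_le_pow_iff_left₀ (n := 4) (by positivity) (by positivity) (by norm_num)).1 ?_
    have a7 : 0 ≤ B ^ 4 := by positivity
    calc (τ.im * ‖HH c τ‖) ^ 4 = τ.im ^ 3 * ‖HH c τ‖ ^ 4 * τ.im := by ring
      _ ≤ y' ^ 3 * N' ^ 4 * 1 := by rw [a1]; exact a6
      _ ≤ 2 * (y' * N') ^ 4 := by linarith
      _ ≤ (2 * B) ^ 4 := by linarith
  have hm0 : (0 : ℝ) < 1 + |(m : ℝ)| := by positivity
  have hfin : 2 * Real.exp (2 * π) * (1 + C2) * s * L * (1 + 1 / δ) * (1 + |(m : ℝ)|)
      = 2 * B * (1 + |(m : ℝ)|) * Real.exp (2 * π) := by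
    rw [hBd]; ring
  rw [hfin]
  by_cases h0 : c i m = 0
  · rw [h0, norm_zero]
    positivity
  set y : ℝ := 1 / (1 + |(m : ℝ)|) with hy
  have hy0 : 0 < y := by positivity
  have hy1 : y ≤ 1 := by
    rw [hy, div_le_one hm0]
    linarith [abs_nonneg (m : ℝ)]
  have a1 := coef_int (h i) m (fun m' hm' => hcl i m' m hm' h0) hy0
  have a2 := intervalIntegral.norm_integral_le_of_norm_le_const (a := 0) (b := 1)
    (f := fun u : ℝ => qs (c i) (pt u y) * e (-m * u)) (C := 2 * B * (1 + |(m : ℝ)|))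
    fun u _ => by
      have b1 := hall (pt u y) (by rw [im_pt u hy0]; exact hy1)
      rw [im_pt u hy0, hy, div_mul_eq_mul_div, one_mul, div_le_iff₀ hm0] at b1
      have b2 : ‖e (-m * u)‖ = 1 := by
        rw [norm_e]
        simp
      rw [norm_mul, b2, mul_one]
      exact (norm_qs_le i _).trans b1
  rw [a1, norm_term, sub_zero, abs_one, mul_one] at a2
  have a3 : ((y : ℂ) * I).im = y := by simp
  rw [a3] at a2
  have a4 : (m : ℝ) * y ≤ 1 := by
    rw [hy, mul_one_div, div_le_one hm0]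
    linarith [le_abs_self (m : ℝ)]
  have a5 : 1 ≤ Real.exp (-2 * π * (m * y)) * Real.exp (2 * π) := by
    rw [← Real.exp_add]
    refine Real.one_le_exp ?_
    have := mul_le_mul_of_nonneg_left a4 Real.pi_pos.le
    linarith only [this]
  calc ‖c i m‖ ≤ ‖c i m‖ * (Real.exp (-2 * π * (m * y)) * Real.exp (2 * π)) :=
        le_mul_of_one_le_right (norm_nonneg _) a5
    _ = ‖c i m‖ * Real.exp (-2 * π * (m * y)) * Real.exp (2 * π) := by ring
    _ ≤ _ := mul_le_mul_of_nonneg_right a2 (Real.exp_pos _).le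

end

end Pool.Agent.P.MP_b8021b_nt.CM
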