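import Pool.Agent.P.MP_b8021b_nt.CM.WL1

/-! Package P12: the Weil representation of the norm form. -/

namespace Pool.Agent.P.MP_b8021b_nt.CM

open Complex hiding Gamma
open UpperHalfPlane hiding I
open MeasureTheory CongruenceSubgroup Filter
open scoped Real MatrixGroups ModularForm Topology ComplexConjugate Modular

noncomputable section

namespace WLP

/-! ### Gauss sums -/

theorem sum_sq {p : ℕ} [Fact p.Prime] (hp : p ≠ 2) {a : ZMod p} (ha : a ≠ 0) :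
    ∑ x : ZMod p, ZMod.stdAddChar (a * x ^ 2) = ((quadraticChar (ZMod p) a : ℤ) : ℂ) *
      gaussSum ((quadraticChar (ZMod p)).ringHomComp (Int.castRingHom ℂ)) ZMod.stdAddChar := by
  classical
  have hF : ringChar (ZMod p) ≠ 2 := by rwa [ZMod.ringChar_zmod_n]
  have h1 : ∑ x : ZMod p, ZMod.stdAddChar (a * x ^ 2) =
      ∑ y : ZMod p, (((quadraticChar (ZMod p) y : ℤ) : ℂ) + 1) * ZMod.stdAddChar (y * a) := by
    rw [← Finset.sum_fiberwise (s := Finset.univ) (g := fun x : ZMod p => x ^ 2)]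
    refine Finset.sum_congr rfl fun y _ => ?_
    have h2 := quadraticChar_card_sqrts hF y
    rw [Set.toFinset_ofPred] at h2
    have h3 : (((quadraticChar (ZMod p) y : ℤ) : ℂ) + 1) =
        ((Finset.univ.filter fun x : ZMod p => x ^ 2 = y).card : ℂ) := by
      exact_mod_cast h2.symm
    rw [h3, ← nsmul_eq_mul, ← Finset.sum_const]
    refine Finset.sum_congr rfl fun x hx => ?_
    rw [(Finset.mem_filter.1 hx).2, mul_comm]
  have h4 := AddChar.sum_mulShift a (ZMod.isPrimitive_stdAddChar p)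
  rw [if_neg ha] at h4
  have h5 := gaussSum_mulShift ((quadraticChar (ZMod p)).ringHomComp (Int.castRingHom ℂ))
    (ZMod.stdAddChar (N := p)) (Units.mk0 a ha)
  have h6 : ((quadraticChar (ZMod p) a : ℤ) : ℂ) ^ 2 = 1 := by
    exact_mod_cast quadraticChar_sq_one ha
  rw [h1]
  simp only [add_mul, one_mul, Finset.sum_add_distrib]
  rw [h4, ← h5, ← mul_assoc]
  simp only [Units.val_mk0, MulChar.ringHomComp_apply, eq_intCast, ← sq, h6, one_mul,
    Nat.cast_zero, add_zero, gaussSum, AddChar.mulShift_apply, mul_comm a]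

theorem gauss2 {d p : ℕ} [Fact p.Prime] (hp : ¬ p ∣ 2 * d) {t : ZMod p} (ht : t ≠ 0) :
    ∑ x : ZMod p × ZMod p, ZMod.stdAddChar (t * (x.1 ^ 2 + (d : ZMod p) * x.2 ^ 2)) =
      chi d p * p := by
  have hp2 : p ≠ 2 := fun h => hp (h ▸ dvd_mul_right 2 d)
  have hd : (d : ZMod p) ≠ 0 := fun h =>
    hp (((ZMod.natCast_eq_zero_iff d p).1 h).mul_left 2)
  have hF : ringChar (ZMod p) ≠ 2 := by rwa [ZMod.ringChar_zmod_n]
  have h1 : ∑ x : ZMod p × ZMod p, ZMod.stdAddChar (t * (x.1 ^ 2 + (d : ZMod p) * x.2 ^ 2)) =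
      (∑ x : ZMod p, ZMod.stdAddChar (t * x ^ 2)) *
        ∑ x : ZMod p, ZMod.stdAddChar (t * (d : ZMod p) * x ^ 2) := by
    rw [Finset.sum_mul_sum, Fintype.sum_prod_type]
    refine Finset.sum_congr rfl fun x _ => Finset.sum_congr rfl fun y _ => ?_
    rw [← AddChar.map_add_eq_mul]
    congr 1
    ring
  have h2 := gaussSum_sq (χ := (quadraticChar (ZMod p)).ringHomComp (Int.castRingHom ℂ))
    ((MulChar.ringHomComp_ne_one_iff (RingHom.injective_int _)).2 (quadraticChar_ne_one hF))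
    ((quadraticChar_isQuadratic _).comp _) (ZMod.isPrimitive_stdAddChar p)
  have h6 : ((quadraticChar (ZMod p) t : ℤ) : ℂ) ^ 2 = 1 := by
    exact_mod_cast quadraticChar_sq_one ht
  rw [h1, sum_sq hp2 ht, sum_sq hp2 (mul_ne_zero ht hd), chi_prime hp, legendreSym]
  simp only [MulChar.ringHomComp_apply, eq_intCast, ZMod.card] at h2
  have h7 : (((-(d : ℤ) : ℤ) : ZMod p)) = -1 * d := by push_cast; ring
  rw [h7, map_mul, map_mul]
  push_cast
  linear_combination ((quadraticChar (ZMod p) t : ℤ) : ℂ) ^ 2 *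
    ((quadraticChar (ZMod p) d : ℤ) : ℂ) * h2 + ((quadraticChar (ZMod p) (-1) : ℤ) : ℂ) *
    ((quadraticChar (ZMod p) d : ℤ) : ℂ) * p * h6

theorem eq_div_eq {p : ℕ} [NeZero p] (n : ℤ) :
    eq ((n : ℚ) / p) = ZMod.stdAddChar (n : ZMod p) := by
  rw [ZMod.stdAddChar_coe, eq, e]
  congr 1
  push_cast
  ring

/-! ### level structures -/

variable {d M : ℕ} {φ ψ R : Q2 → ℂ}

theorem eq_int_add {a : ℚ} (n : ℤ) : eq (a + n) = eq a := by
  rw [eq_add, (eq_eq_one_iff n).2 ((isInt_rat _).2 ⟨n, rfl⟩), mul_one]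

theorem eq_congr {a b : ℚ} (n : ℤ) (h : a = b + n) : eq a = eq b := by rw [h, eq_int_add]

theorem isInt_iff {x : Q2} : IsInt ((M : ℚ) • x) ↔ ∃ m n : ℤ, M * x.1 = m ∧ M * x.2 = n := by
  rw [isInt_prod, isInt_rat, isInt_rat]
  constructor
  · rintro ⟨⟨m, hm⟩, n, hn⟩
    exact ⟨m, n, hm, hn⟩
  · rintro ⟨m, n, hm, hn⟩
    exact ⟨⟨m, hm⟩, n, hn⟩

theorem isInt_iff' {x : Q2} : IsInt x ↔ ∃ m n : ℤ, x.1 = m ∧ x.2 = n := by
  have := isInt_iff (M := 1) (x := x)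
  simpa using this

theorem levL_add (h : LevL d M φ) (h' : LevL d M ψ) : LevL d M (φ + ψ) := by
  refine ⟨fun x k l => ?_, fun x hx => ?_⟩
  · simp only [Pi.add_apply, h.1, h'.1]
  · by_cases h0 : φ x = 0
    · exact h'.2 x fun h1 => hx (by simp [h0, h1])
    · exact h.2 x h0

theorem levL_smul (k : ℂ) (h : LevL d M φ) : LevL d M (k • φ) := by
  refine ⟨fun x k l => ?_, fun x hx => h.2 x fun h1 => hx (by simp [h1])⟩
  simp only [Pi.smul_apply, h.1]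

theorem levL_zero : LevL d M (0 : Q2 → ℂ) := ⟨fun _ _ _ => rfl, fun _ hx => (hx rfl).elim⟩

theorem levL_neg (h : LevL d M φ) :
    LevL d M fun x => (((-1 : ℚ) : ℂ))⁻¹ * φ ((-1 : ℚ) • x) := by
  refine ⟨fun x k l => ?_, fun x hx => ?_⟩
  · beta_reduce
    rw [← h.1 ((-1 : ℚ) • x) (-k) (-l)]
    congr 2
    ext <;> simp
  · have := (h.2 _ (right_ne_zero_of_mul hx)).neg
    simpa using this

theorem levL_FLn (hd : 0 < d) (hM : 0 < M) (h : LevL d M φ) : LevL d M (FLn d φ) :=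
  levL_smul _ (h.levL_FL hd hM)

theorem levL_sb (hd : 0 < d) (hM : 0 < M) (h : LevL d M φ) : SB φ := (h.lev hd hM).sb hM

theorem levL_n (hd : 0 < d) (hdM : 2 * d ∣ M) (h : LevL d M φ) (k : ℤ) :
    LevL d M fun x => eq (-((k : ℚ) * Nm d x)) * φ x := by
  refine ⟨fun x i j => ?_, fun x hx => h.2 x (right_ne_zero_of_mul hx)⟩
  simp only [h.1]
  by_cases h0 : φ x = 0
  · simp [h0]
  obtain ⟨m, n, hm, hn⟩ := isInt_iff.1 (h.2 x h0)
  obtain ⟨r, rfl⟩ := hdM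
  have hd' : (d : ℚ) ≠ 0 := by positivity
  congr 1
  refine eq_congr (-(k * (m * i + n * j + (d * r * i) ^ 2 + d * (r * j) ^ 2))) ?_
  simp only [Nm, Prod.fst_add, Prod.snd_add]
  push_cast at hm hn ⊢
  rw [← hm, ← hn]
  field_simp
  ring

theorem sb_n (h : SB φ) (β : ℚ) : SB fun x => eq (-(β * Nm d x)) * φ x := by
  refine h.mul_of_per _ fun M hM => ⟨β.den * M, Nat.mul_pos β.den_pos hM, fun x k hx hk => ?_⟩
  obtain ⟨m, n, hm, hn⟩ := isInt_iff.1 hx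
  obtain ⟨i, j, hi, hj⟩ := isInt_iff'.1 hk
  refine eq_congr (-(β.num * (2 * m * i + 2 * d * n * j +
    β.den * M * M * (i ^ 2 + d * j ^ 2)))) ?_
  simp only [Nm, Prod.fst_add, Prod.snd_add, Prod.smul_fst, Prod.smul_snd, smul_eq_mul]
  push_cast
  rw [← hm, ← hn, hi, hj, ← Rat.mul_den_eq_num β]
  ring

theorem sb_diag (h : SB φ) {t : ℚ} (ht : t ≠ 0) : SB fun x => (t : ℂ)⁻¹ * φ (t • x) := by
  have := (h.comp_inj (t • LinearMap.id) (smul_right_injective Q2 ht)).smul (t : ℂ)⁻¹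
  exact this

/-! ### the action of the modular group -/

/-- the relation for an integral matrix -/
def RelZ (d : ℕ) (γ : SL) (φ φ' : Q2 → ℂ) : Prop :=
  Rel d ((γ 0 0 : ℤ) : ℚ) ((γ 0 1 : ℤ) : ℚ) ((γ 1 0 : ℤ) : ℚ) ((γ 1 1 : ℤ) : ℚ) φ φ'

theorem detZ (γ : SL) : γ 0 0 * γ 1 1 - γ 0 1 * γ 1 0 = 1 := by
  have h := γ.det_coe
  rwa [Matrix.det_fin_two] at h

theorem detQ (γ : SL) :
    ((γ 0 0 : ℤ) : ℚ) * ((γ 1 1 : ℤ) : ℚ) - ((γ 0 1 : ℤ) : ℚ) * ((γ 1 0 : ℤ) : ℚ) = 1 := by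
  exact_mod_cast detZ γ

theorem RelZ.mul {γ δ : SL} {φ' φ'' : Q2 → ℂ} (H : RelZ d γ φ φ') (H' : RelZ d δ φ' φ'') :
    RelZ d (γ * δ) φ φ'' := by
  refine Rel.mul (detQ γ) (detQ δ) H H' ?_ ?_ ?_ ?_ <;>
    simp [Matrix.mul_apply, Fin.sum_univ_two]

theorem relZ_S (hd : 0 < d) (h : SB φ) : RelZ d ModularGroup.S φ (FLn d φ) := by
  have := rel_S hd h
  simpa [RelZ, ModularGroup.S] using this

theorem relZ_T (φ : Q2 → ℂ) :
    RelZ d ModularGroup.T φ fun x => eq (-(((1 : ℤ) : ℚ) * Nm d x)) * φ x := by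
  have := rel_n (d := d) ((1 : ℤ) : ℚ) φ
  simpa [RelZ, ModularGroup.T] using this

theorem relZ_T' (φ : Q2 → ℂ) :
    RelZ d ModularGroup.T⁻¹ φ fun x => eq (-(((-1 : ℤ) : ℚ) * Nm d x)) * φ x := by
  have := rel_n (d := d) ((-1 : ℤ) : ℚ) φ
  simpa [RelZ, ModularGroup.coe_T_inv] using this

theorem exists_rel (hd : 0 < d) (hM : 0 < M) (hdM : 2 * d ∣ M) (γ : SL) :
    ∀ ψ, LevL d M ψ → ∃ ψ', LevL d M ψ' ∧ RelZ d γ ψ ψ' := by
  refine SL_induction (P := fun γ => ∀ ψ, LevL d M ψ → ∃ ψ', LevL d M ψ' ∧ RelZ d γ ψ ψ')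
    (fun ψ h => ⟨_, levL_FLn hd hM h, relZ_S hd (levL_sb hd hM h)⟩)
    (fun ψ h => ⟨_, levL_n hd hdM h 1, relZ_T ψ⟩)
    (fun ψ h => ⟨_, levL_n hd hdM h (-1), relZ_T' ψ⟩) (fun γ δ h1 h2 ψ h => ?_) γ
  obtain ⟨ψ', l1, r1⟩ := h1 ψ h
  obtain ⟨ψ'', l2, r2⟩ := h2 ψ' l1
  exact ⟨ψ'', l2, r1.mul r2⟩

/-! ### the formula on the congruence subgroup -/

theorem rel_upper {p : ℚ} (hp : p ≠ 0) (b : ℚ) (ψ : Q2 → ℂ) :
    Rel d p⁻¹ b 0 p ψ fun x => (p : ℂ)⁻¹ * (eq (-(b / p * Nm d (p • x))) * ψ (p • x)) :=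
  Rel.mul (by norm_num) (by field_simp; simp) (rel_n (b / p) ψ) (rel_diag hp _) (by simp)
    (by field_simp; simp) (by simp) (by simp)

theorem sb_upper (h : SB ψ) {p : ℚ} (hp : p ≠ 0) (b : ℚ) :
    SB fun x => (p : ℂ)⁻¹ * (eq (-(b / p * Nm d (p • x))) * ψ (p • x)) :=
  sb_diag (sb_n h (b / p)) hp

/-- the average over the classes modulo `p` -/
theorem avg_sum {p : ℕ} [Fact p.Prime] (hp : ¬ p ∣ 2 * d) (hM : 0 < M) (hpM : ¬ p ∣ M) {c : ℤ}
    (hc : ¬ (p : ℤ) ∣ c) {x : Q2} (hx : IsInt ((M : ℚ) • x)) :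
    ∑ i : ZMod p × ZMod p, eq (-((M : ℚ) ^ 2 * c / p *
      Nm d (x + (M : ℚ) • ((i.1.val : ℚ), (i.2.val : ℚ))))) = chi d p * p := by
  obtain ⟨m, n, hm, hn⟩ := isInt_iff.1 hx
  have hM0 : (M : ZMod p) ≠ 0 := fun h => hpM ((ZMod.natCast_eq_zero_iff M p).1 h)
  have hc0 : -(c : ZMod p) ≠ 0 := neg_ne_zero.2 fun h =>
    hc ((ZMod.intCast_zmod_eq_zero_iff_dvd c p).1 h)
  have hM2 : (M : ZMod p) ^ 2 ≠ 0 := pow_ne_zero _ hM0
  have hMQ : (M : ℚ) ≠ 0 := by positivity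
  rw [← gauss2 hp hc0]
  let E : ZMod p × ZMod p ≃ ZMod p × ZMod p :=
    Equiv.prodCongr ((Equiv.mulLeft₀ _ hM2).trans (Equiv.addLeft (m : ZMod p)))
      ((Equiv.mulLeft₀ _ hM2).trans (Equiv.addLeft (n : ZMod p)))
  refine Fintype.sum_equiv E _ _ fun i => ?_
  have e1 : -((M : ℚ) ^ 2 * c / p * Nm d (x + (M : ℚ) • ((i.1.val : ℚ), (i.2.val : ℚ)))) =
      ((-c * ((m + M ^ 2 * i.1.val) ^ 2 + d * (n + M ^ 2 * i.2.val) ^ 2) : ℤ) : ℚ) / p := by
    simp only [Nm, Prod.fst_add, Prod.snd_add, Prod.smul_mk, smul_eq_mul]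
    push_cast
    rw [← hm, ← hn]
    ring
  rw [e1, eq_div_eq]
  congr 1
  push_cast
  simp [E]

theorem FL_avg {p : ℕ} [Fact p.Prime] (hp : ¬ p ∣ 2 * d) (hM : 0 < M) (hpM : ¬ p ∣ M) {c : ℤ}
    (hc : ¬ (p : ℤ) ∣ c) (h : Lev M φ) {u : Q2} (hu : IsInt ((M : ℚ) • u)) :
    (p : ℂ) * FL d (fun x => eq (-((M : ℚ) ^ 2 * c / p * Nm d x)) * φ x) u =
      chi d p * FL d φ u := by
  have hp0 : (p : ℂ) ≠ 0 := by exact_mod_cast (Fact.out : p.Prime).ne_zero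
  obtain ⟨m, n, hm, hn⟩ := isInt_iff.1 hu
  set G : Q2 → ℂ := fun x => eq (-((M : ℚ) ^ 2 * c / p * Nm d x)) * φ x * eq (bilN d x u) with hG
  have sG : SB G := sb_mul_bil (sb_n (h.sb hM) _) u
  have s1 : II (fun x => ∑ i : ZMod p × ZMod p, G (x + (M : ℚ) • ((i.1.val : ℚ), (i.2.val : ℚ))))
      = (p : ℂ) * p * II G := by
    rw [II_sum _ _ fun i _ => sG.shift _]
    simp only [II_shift, Finset.sum_const, Finset.card_univ, Fintype.card_prod, ZMod.card,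
      nsmul_eq_mul]
    push_cast
    rfl
  have s2 : (fun x => ∑ i : ZMod p × ZMod p, G (x + (M : ℚ) • ((i.1.val : ℚ), (i.2.val : ℚ)))) =
      fun x => chi d p * p * (φ x * eq (bilN d x u)) := by
    funext x
    have t1 : ∀ i : ZMod p × ZMod p, G (x + (M : ℚ) • ((i.1.val : ℚ), (i.2.val : ℚ))) =
        eq (-((M : ℚ) ^ 2 * c / p * Nm d (x + (M : ℚ) • ((i.1.val : ℚ), (i.2.val : ℚ))))) *
          (φ x * eq (bilN d x u)) := by
      intro i
      simp only [hG]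
      rw [h.1 x _ (isInt_iff'.2 ⟨i.1.val, i.2.val, by simp, by simp⟩), mul_assoc]
      congr 2
      refine eq_congr (2 * i.1.val * m + 2 * d * i.2.val * n) ?_
      simp only [bilN, Prod.fst_add, Prod.snd_add, Prod.smul_mk, smul_eq_mul]
      push_cast
      rw [← hm, ← hn]
      ring
    simp only [t1, ← Finset.sum_mul]
    by_cases h0 : φ x = 0
    · simp [h0]
    · rw [avg_sum hp hM hpM hc (h.2 x h0)]
  rw [s2, II_const_mul] at s1
  apply mul_left_cancel₀ hp0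
  change (p : ℂ) * (p * II G) = p * (chi d p * II fun x => φ x * eq (bilN d x u))
  linear_combination -s1

theorem formula_prime (hd : 0 < d) (hM : 0 < M) (hdM : 2 * d ∣ M) {a b c : ℤ} {p : ℕ}
    (hp : p.Prime) (hdet : a * p - b * c = 1) (hc : ((M ^ 2 : ℕ) : ℤ) ∣ c) (h : SB ψ)
    (hR : LevL d M R) (H : Rel d a b c p ψ R) {u : Q2} (hu : IsInt ((M : ℚ) • u)) :
    R u = chi d p * eq ((b * p : ℤ) * -Nm d u) * ψ ((p : ℚ) • u) := by
  have := Fact.mk hp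
  obtain ⟨c', rfl⟩ := hc
  have hnd : ¬ (p : ℤ) ∣ ((M ^ 2 : ℕ) : ℤ) * c' := by
    intro h0
    have : (p : ℤ) ∣ 1 := by
      rw [← hdet]
      exact dvd_sub (dvd_mul_left _ _) (h0.mul_left _)
    exact hp.not_dvd_one (by exact_mod_cast this)
  have hpM : ¬ p ∣ M := fun h0 => hnd (Dvd.dvd.mul_right (by
    exact_mod_cast h0.trans (dvd_pow_self M two_ne_zero)) _)
  have hpd : ¬ p ∣ 2 * d := fun h0 => hpM (h0.trans hdM)
  have hpc : ¬ (p : ℤ) ∣ c' := fun h0 => hnd (h0.mul_left _)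
  have hpQ : (p : ℚ) ≠ 0 := by exact_mod_cast hp.ne_zero
  have hpC : (p : ℂ) ≠ 0 := by exact_mod_cast hp.ne_zero
  have hdetQ : (a : ℚ) * p - b * ((M : ℚ) ^ 2 * c') = 1 := by exact_mod_cast hdet
  have sR := levL_sb hd hM hR
  have l0 := levL_neg (levL_FLn hd hM hR)
  set φ0 : Q2 → ℂ := fun x => (((-1 : ℚ) : ℂ))⁻¹ * FLn d R ((-1 : ℚ) • x) with hφ0
  have s0 := levL_sb hd hM l0
  have r0 : Rel d 0 1 (-1) 0 R φ0 :=
    Rel.mul (by norm_num) (by norm_num) (rel_S hd sR) (rel_diag (t := -1) (by norm_num) _)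
      (by norm_num) (by norm_num) (by norm_num) (by norm_num)
  have e0 : FLn d φ0 = R :=
    Rel.unique hd (Rel.mul (by norm_num) (by norm_num) r0 (rel_S hd s0) (by norm_num)
      (by norm_num) (by norm_num) (by norm_num)) Rel.one (sb_FLn hd s0) sR
  have s1 := sb_n (d := d) s0 ((M : ℚ) ^ 2 * c' / p)
  have r1 : Rel d 0 1 (-1) (-((M : ℚ) ^ 2 * c' / p)) R _ :=
    Rel.mul (by norm_num) (by norm_num) r0 (rel_n ((M : ℚ) ^ 2 * c' / p) φ0) (by norm_num)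
      (by norm_num) (by norm_num) (by norm_num)
  have r2 : Rel d 1 0 (-((M : ℚ) ^ 2 * c' / p)) 1 R _ :=
    Rel.mul (by norm_num) (by norm_num) r1 (rel_S hd s1) (by norm_num)
      (by norm_num) (by norm_num) (by norm_num)
  have r3 : Rel d (p : ℚ)⁻¹ b 0 p ψ _ :=
    Rel.mul (by push_cast; exact hdetQ) (by norm_num) H r2
      (by field_simp; linear_combination -hdetQ) (by norm_num)
      (by push_cast; field_simp; ring) (by norm_num)
  have e1 := congrFun (Rel.unique hd r3 (rel_upper hpQ b ψ) (sb_FLn hd s1) (sb_upper h hpQ b)) u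
  have e2 := FL_avg hpd hM hpM hpc (l0.lev hd hM) hu
  have e3 := congrFun e0 u
  simp only [FLn, Pi.smul_apply, smul_eq_mul, Rat.cast_natCast] at e1 e3
  have e4 : eq (-(b / p * Nm d ((p : ℚ) • u))) = eq ((b * p : ℤ) * -Nm d u) := by
    congr 1
    simp only [Nm, Prod.smul_fst, Prod.smul_snd, smul_eq_mul]
    push_cast
    field_simp
  have e5 : chi d p * chi d p = 1 := by
    have : IsCoprime (p : ℤ) (2 * d : ℤ) := by
      have := (Nat.Prime.coprime_iff_not_dvd hp).2 hpd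
      exact_mod_cast Nat.isCoprime_iff_coprime.2 this
    rcases chi_sq this with h1 | h1 <;> simp [h1]
  rw [e4] at e1
  have e6 : (p : ℂ) * ((p : ℂ)⁻¹ * (eq ((b * p : ℤ) * -Nm d u) * ψ ((p : ℚ) • u))) =
      eq ((b * p : ℤ) * -Nm d u) * ψ ((p : ℚ) • u) := by field_simp
  rw [← e1] at e6
  rw [mul_assoc, ← e6, ← e3]
  linear_combination (-(chi d p * (I / (2 * Real.sqrt d)))) * e2 -
    (I / (2 * Real.sqrt d)) * FL d φ0 u * e5

theorem formula (hd : 0 < d) (hM : 0 < M) (hdM : 2 * d ∣ M) {a b c δ : ℤ}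
    (hdet : a * δ - b * c = 1) (hc : ((M ^ 2 : ℕ) : ℤ) ∣ c) (h : LevL d M ψ)
    (hR : LevL d M R) (H : Rel d a b c δ ψ R) {u : Q2} (hu : IsInt ((M : ℚ) • u)) :
    R u = chi d δ * eq ((b * δ : ℤ) * -Nm d u) * ψ ((δ : ℚ) • u) := by
  have sψ := levL_sb hd hM h
  by_cases hc0 : c = 0
  · subst hc0
    have h1 : a * δ = 1 := by simpa using hdet
    have hδ : δ = 1 ∨ δ = -1 := Int.eq_one_or_neg_one_of_mul_eq_one' h1 |>.imp And.right And.right
    have hδQ : (δ : ℚ) ≠ 0 := by rcases hδ with h | h <;> simp [h]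
    have ha : (a : ℚ) = (δ : ℚ)⁻¹ := by
      have : (a : ℚ) * δ = 1 := by exact_mod_cast h1
      field_simp
      exact this
    rw [ha, Int.cast_zero] at H
    have e1 := congrFun (Rel.unique hd H (rel_upper hδQ b ψ) (levL_sb hd hM hR)
      (sb_upper sψ hδQ b)) u
    have e4 : eq (-(b / δ * Nm d ((δ : ℚ) • u))) = eq ((b * δ : ℤ) * -Nm d u) := by
      congr 1
      simp only [Nm, Prod.smul_fst, Prod.smul_snd, smul_eq_mul]
      push_cast
      field_simp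
    rw [e1, e4, mul_assoc]
    congr 1
    rcases hδ with h | h <;> simp [h, chi_one, chi_neg_one]
  · have hco : IsCoprime δ (c.natAbs : ℤ) := by
      rw [Int.natCast_natAbs, IsCoprime.abs_right_iff]
      exact ⟨a, -b, by linear_combination hdet⟩
    obtain ⟨p, -, hp, hpc⟩ :=
      Nat.forall_exists_prime_gt_and_zmodEq 0 (Int.natAbs_ne_zero.2 hc0) hco
    obtain ⟨k, hk⟩ : c ∣ p - δ := Int.natAbs_dvd.1 hpc.symm.dvd
    have hp' : (p : ℤ) = c * k + δ := by linear_combination hk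
    have hdetQ : (a : ℚ) * δ - b * c = 1 := by exact_mod_cast hdet
    have r1 : Rel d a ((a * k + b : ℤ) : ℚ) c p ψ _ :=
      Rel.mul hdetQ (by norm_num) H (rel_n (k : ℚ) R) (by norm_num) (by push_cast; ring)
        (by norm_num) (by rw [mul_one]; exact_mod_cast hp')
    have e1 := formula_prime hd hM hdM hp (a := a) (b := a * k + b) (c := c)
      (by rw [hp']; linear_combination hdet) hc sψ (levL_n hd hdM hR k) r1 hu
    obtain ⟨c', rfl⟩ := hc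
    obtain ⟨m, n, hm, hn⟩ := isInt_iff.1 hu
    have e2 : chi d p = chi d δ := by
      refine chi_congr hd ?_
      obtain ⟨r, rfl⟩ := hdM
      rw [hk]
      exact ⟨d * r ^ 2 * c' * k, by push_cast; ring⟩
    have e3 : ψ ((p : ℚ) • u) = ψ ((δ : ℚ) • u) := by
      rw [← (h.lev hd hM).1 ((δ : ℚ) • u) _ (hu.zsmul (c' * k))]
      congr 1
      have : (p : ℚ) = (M : ℚ) ^ 2 * c' * k + δ := by exact_mod_cast hp'
      rw [this, smul_smul, smul_smul, ← add_smul]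
      congr 1
      push_cast
      ring
    have e4 : eq (((a * k + b) * p : ℤ) * -Nm d u) =
        eq (-((k : ℚ) * Nm d u)) * eq ((b * δ : ℤ) * -Nm d u) := by
      rw [← eq_add]
      refine eq_congr (-((2 * k * b * c' + k ^ 2 * a * c') * (m ^ 2 + d * n ^ 2))) ?_
      rw [hp']
      simp only [Nm]
      push_cast at hdetQ ⊢
      rw [← hm, ← hn]
      linear_combination (-(k * (u.1 ^ 2 + d * u.2 ^ 2))) * hdetQ
    have e5 : eq (-((k : ℚ) * Nm d u)) ≠ 0 := e_ne_zero _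
    rw [e2, e3, e4] at e1
    apply mul_left_cancel₀ e5
    linear_combination e1

end WLP

open WLP in
theorem wl : S_WL := by
  intro d M hd hM hdM
  classical
  have ex := exists_rel hd hM hdM
  let ρ : SL → (Q2 → ℂ) → Q2 → ℂ := fun γ ψ => if h : LevL d M ψ then (ex γ ψ h).choose else 0
  have hρ : ∀ γ ψ, LevL d M ψ → LevL d M (ρ γ ψ) ∧ RelZ d γ ψ (ρ γ ψ) := by
    intro γ ψ h
    simp only [ρ, dif_pos h]
    exact (ex γ ψ h).choose_spec
  have sb : ∀ {ψ}, LevL d M ψ → SB ψ := levL_sb hd hM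
  have uq : ∀ γ ψ ψ', LevL d M ψ → LevL d M ψ' → RelZ d γ ψ ψ' → ρ γ ψ = ψ' :=
    fun γ ψ ψ' h h' H => Rel.unique hd (hρ γ ψ h).2 H (sb (hρ γ ψ h).1) (sb h')
  have g0 : ∀ γ : SL, ((M ^ 2 : ℕ) : ℤ) ∣ γ 1 0 → ∀ ψ, LevL d M ψ → ∀ u : Q2,
      IsInt ((M : ℚ) • u) → ρ γ ψ u = chi d (γ 1 1) * eq ((γ 0 1 * γ 1 1 : ℤ) * -Nm d u) *
        ψ (((γ 1 1 : ℤ) : ℚ) • u) :=
    fun γ hγ ψ h u hu => formula hd hM hdM (detZ γ) hγ h (hρ γ ψ h).1 (hρ γ ψ h).2 hu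
  refine ⟨ρ, fun γ ψ h => (hρ γ ψ h).1, fun γ ψ ψ' h h' => ?_, fun γ c ψ h => ?_,
    fun γ γ' ψ h => ?_, fun ψ h => ?_, fun ψ h => ?_, g0, fun γ hγ ψ h => ?_⟩
  · exact uq _ _ _ (levL_add h h') (levL_add (hρ γ ψ h).1 (hρ γ ψ' h').1)
      (Rel.add hd (detQ γ) (hρ γ ψ h).2 (hρ γ ψ' h').2 (sb h) (sb (hρ γ ψ h).1) (sb h')
        (sb (hρ γ ψ' h').1))
  · exact uq _ _ _ (levL_smul c h) (levL_smul c (hρ γ ψ h).1) (Rel.smul (hρ γ ψ h).2 c)
  · exact uq _ _ _ h (hρ _ _ (hρ γ ψ h).1).1 ((hρ γ ψ h).2.mul (hρ _ _ (hρ γ ψ h).1).2)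
  · exact uq _ _ _ h (levL_FLn hd hM h) (relZ_S hd (sb h))
  · rw [uq _ _ _ h (levL_n hd hdM h 1) (relZ_T ψ)]
    simp
  · funext u
    by_cases hu : IsInt ((M : ℚ) • u)
    · obtain ⟨-, h01, h10, h11⟩ := (Gamma_mem).1 hγ
      obtain ⟨b', hb⟩ := (ZMod.intCast_zmod_eq_zero_iff_dvd _ _).1 h01
      have h11' : (((γ 1 1 - 1 : ℤ)) : ZMod (M ^ 2)) = 0 := by push_cast; rw [h11, sub_self]
      obtain ⟨k, hk⟩ := (ZMod.intCast_zmod_eq_zero_iff_dvd _ _).1 h11'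
      obtain ⟨m, n, hm, hn⟩ := isInt_iff.1 hu
      rw [g0 γ ((ZMod.intCast_zmod_eq_zero_iff_dvd _ _).1 h10) ψ h u hu]
      have e2 : chi d (γ 1 1) = 1 := by
        rw [← chi_one d]
        refine chi_congr hd ?_
        obtain ⟨r, rfl⟩ := hdM
        rw [hk]
        exact ⟨d * r ^ 2 * k, by push_cast; ring⟩
      have e3 : ψ (((γ 1 1 : ℤ) : ℚ) • u) = ψ u := by
        rw [← (h.lev hd hM).1 u _ (hu.zsmul k)]
        congr 1
        have : ((γ 1 1 : ℤ) : ℚ) = 1 + (M : ℚ) ^ 2 * k := by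
          have : γ 1 1 = 1 + ((M ^ 2 : ℕ) : ℤ) * k := by linear_combination hk
          exact_mod_cast this
        rw [this, smul_smul, smul_smul, add_smul, one_smul]
        congr 2
        ring
      have e4 : eq ((γ 0 1 * γ 1 1 : ℤ) * -Nm d u) = 1 := by
        rw [← eq_zero]
        refine eq_congr (-(b' * γ 1 1 * (m ^ 2 + d * n ^ 2))) ?_
        rw [hb]
        simp only [Nm]
        push_cast
        rw [← hm, ← hn]
        ring
      rw [e2, e3, e4, one_mul, one_mul]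
    · have h1 : ρ γ ψ u = 0 := by
        by_contra h0
        exact hu ((hρ γ ψ h).1.2 u h0)
      have h2 : ψ u = 0 := by
        by_contra h0
        exact hu (h.2 u h0)
      rw [h1, h2]

end

end Pool.Agent.P.MP_b8021b_nt.CM
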