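import Pool.Agent.P.MP_b8021b_nt.CM.WV0

/-! Package P11, second part: the Weil representation on `U6` and the mixed model. -/

namespace Pool.Agent.P.MP_b8021b_nt.CM

open Complex hiding Gamma
open UpperHalfPlane hiding I
open MeasureTheory CongruenceSubgroup Filter
open scoped Real MatrixGroups ModularForm Topology ComplexConjugate Modular

noncomputable section

namespace WVP

section weil

variable {W : Type} [AddCommGroup W] [Module ℚ W] [Lat W] {L : (W → ℂ) → Prop} {M M' : ℕ}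
  {Q : W → ℚ} {FT : (W → ℂ) → W → ℂ} {χ : ℤ → ℂ} {ρ : SL → (W → ℂ) → W → ℂ}

omit [AddCommGroup W] [Module ℚ W] [Lat W] in
theorem closed_sum (h0 : L 0) (ha : ∀ φ ψ, L φ → L ψ → L (φ + ψ))
    (hs : ∀ (c : ℂ) φ, L φ → L (c • φ)) {ι : Type} (s : Finset ι) (c : ι → ℂ) (f : ι → W → ℂ)
    (hf : ∀ i ∈ s, L (f i)) : L (∑ i ∈ s, c i • f i) :=
  Finset.sum_induction _ L ha h0 fun i hi => hs _ _ (hf i hi)

theorem weil_sum (H : IsWeil L M M' Q FT χ ρ) (h0 : L 0) (ha : ∀ φ ψ, L φ → L ψ → L (φ + ψ))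
    (hs : ∀ (c : ℂ) φ, L φ → L (c • φ)) (γ : SL) {ι : Type} (s : Finset ι) (c : ι → ℂ)
    (f : ι → W → ℂ) (hf : ∀ i ∈ s, L (f i)) :
    ρ γ (∑ i ∈ s, c i • f i) = ∑ i ∈ s, c i • ρ γ (f i) := by
  classical
  induction s using Finset.induction_on with
  | empty =>
    have := H.smul γ 0 0 h0
    simpa using this
  | insert i s hi ih =>
    have h1 : ∀ j ∈ s, L (f j) := fun j hj => hf j (Finset.mem_insert_of_mem hj)
    have h2 := hf i (Finset.mem_insert_self _ _)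
    rw [Finset.sum_insert hi, Finset.sum_insert hi,
      H.add γ _ _ (hs _ _ h2) (closed_sum h0 ha hs s c f h1), H.smul γ _ _ h2, ih h1]

end weil

theorem levL_zero (d M : ℕ) : LevL d M 0 := ⟨fun _ _ _ => rfl, fun _ h => (h rfl).elim⟩

theorem levL_add {d M : ℕ} (φ ψ : Q2 → ℂ) (h : LevL d M φ) (h' : LevL d M ψ) :
    LevL d M (φ + ψ) := by
  refine ⟨fun x k l => by simp only [Pi.add_apply, h.1, h'.1], fun x hx => ?_⟩
  by_cases h0 : φ x = 0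
  · refine h'.2 x fun h1 => hx ?_
    simp [h0, h1]
  · exact h.2 x h0

theorem levL_smul {d M : ℕ} (c : ℂ) (φ : Q2 → ℂ) (h : LevL d M φ) : LevL d M (c • φ) :=
  ⟨fun x k l => by simp only [Pi.smul_apply, h.1],
    fun x hx => h.2 x (right_ne_zero_of_mul (a := c) hx)⟩

/-- a finite sum of pure tensors -/
def ten {ι : Type} (s : Finset ι) (f : ι → M2 → ℂ) (g : ι → Q2 → ℂ) (u : U6) : ℂ :=
  ∑ i ∈ s, f i u.1 * g i u.2

theorem ten_fst {ι : Type} (s : Finset ι) (f : ι → M2 → ℂ) (g : ι → Q2 → ℂ) (x : Q2) :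
    (fun Y => ten s f g (Y, x)) = ∑ i ∈ s, g i x • f i := by
  funext Y
  simp only [ten, Finset.sum_apply, Pi.smul_apply, smul_eq_mul, mul_comm]

theorem ten_snd {ι : Type} (s : Finset ι) (f : ι → M2 → ℂ) (g : ι → Q2 → ℂ) (Y : M2) :
    (fun x => ten s f g (Y, x)) = ∑ i ∈ s, f i Y • g i := by
  funext x
  simp only [ten, Finset.sum_apply, Pi.smul_apply, smul_eq_mul]

theorem lev6_ten {d M : ℕ} {ι : Type} {s : Finset ι} {f : ι → M2 → ℂ} {g : ι → Q2 → ℂ}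
    (hf : ∀ i ∈ s, Lev M (f i)) (hg : ∀ i ∈ s, LevL d M (g i)) : Lev6 d M (ten s f g) := by
  refine ⟨fun x => ?_, fun Y => ?_⟩
  · rw [ten_fst]
    exact closed_sum (lev_zero M) (fun _ _ => Lev.add) (fun c _ h => h.smul c) s _ f hf
  · rw [ten_snd]
    exact closed_sum (levL_zero d M) levL_add levL_smul s _ g hg

theorem exists_ten {M : ℕ} (hM : 0 < M) : ∃ R : Finset M2, (∀ r ∈ R, Lev M (cls M r)) ∧
    ∀ (d : ℕ) (ψ : U6 → ℂ), Lev6 d M ψ → ψ = ten R (cls M) fun r x => ψ (r, x) := by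
  obtain ⟨R, h1, -, -, h2⟩ := exists_cls_reps M2 hM
  refine ⟨R, fun r hr => lev_cls hM (h1 r hr), fun d ψ h => ?_⟩
  funext u
  have := congrFun (h2 _ (h.1 u.2)) u.1
  simp only [Finset.sum_apply, Pi.smul_apply, smul_eq_mul] at this
  simp only [ten, mul_comm (cls M _ _)]
  exact this

/-- the tensor product of the two representations -/
def rho6 (ρ : SL → (Q2 → ℂ) → Q2 → ℂ) (γ : SL) (ψ : U6 → ℂ) (u : U6) : ℂ :=
  omV γ (fun Y => ρ γ (fun x => ψ (Y, x)) u.2) u.1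

theorem rho6_ten {d M : ℕ} {ρ : SL → (Q2 → ℂ) → Q2 → ℂ}
    (HV : IsWeil (Lev M) M (M ^ 2) (fun Y : M2 => Y.det) FV (fun _ => 1) omV) (HL : WeilL d M ρ)
    (γ : SL) {ι : Type} {s : Finset ι} {f : ι → M2 → ℂ} {g : ι → Q2 → ℂ}
    (hf : ∀ i ∈ s, Lev M (f i)) (hg : ∀ i ∈ s, LevL d M (g i)) :
    rho6 ρ γ (ten s f g) = ten s (fun i => omV γ (f i)) fun i => ρ γ (g i) := by
  funext u
  have h1 : (fun Y => ρ γ (fun x => ten s f g (Y, x)) u.2) = ∑ i ∈ s, ρ γ (g i) u.2 • f i := by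
    funext Y
    rw [ten_snd, weil_sum HL (levL_zero d M) levL_add levL_smul γ s _ g hg]
    simp only [Finset.sum_apply, Pi.smul_apply, smul_eq_mul, mul_comm]
  rw [rho6, h1, weil_sum HV (lev_zero M) (fun _ _ => Lev.add) (fun c _ h => h.smul c) γ s _ f hf]
  simp only [ten, Finset.sum_apply, Pi.smul_apply, smul_eq_mul, mul_comm]

theorem F6_ten {d : ℕ} {ι : Type} {s : Finset ι} {f : ι → M2 → ℂ} {g : ι → Q2 → ℂ}
    (hf : ∀ i ∈ s, SB (f i)) (hg : ∀ i ∈ s, SB (g i)) :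
    F6 d (ten s f g) = ten s (fun i => FV (f i)) fun i => FL d (g i) := by
  funext z
  have h1 : ∀ i ∈ s, SB fun u : U6 => f i u.1 * g i u.2 * eq (-bil u.1 z.1 + bilN d u.2 z.2) :=
    fun i hi => sb_mul_lin ((hf i hi).tensor (hg i hi)) _
      (fun x y => by simp [bil, bilN]; ring) fun a x => by simp [bil, bilN]; ring
  simp only [F6, ten, Finset.sum_mul]
  rw [II_sum s _ h1]
  refine Finset.sum_congr rfl fun i hi => ?_
  rw [II_prod (h1 i hi), FV, FL, ← II_mul_const]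
  congr 1
  funext Y
  rw [← II_const_mul]
  congr 1
  funext x
  rw [eq_add]
  ring

/-! ### transforms in the last variable -/

section last

variable {W : Type} [AddCommGroup W] [Module ℚ W] [Lat W]

theorem sb_F1_snd {Φ : W × ℚ → ℂ} (h : SB Φ) :
    SB fun z : W × ℚ => F1 1 (fun k => Φ (z.1, k)) z.2 := by
  obtain ⟨M, hM, h⟩ := h
  refine ⟨M, hM, lev_prod (fun y => ?_) fun x => (h.snd x).lev_F1 hM⟩
  exact lev_param (fun x k => Φ (x, k)) (fun k => h.fst k) (fun c => F1 1 c y)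
    (by simp only [F1, Pi.zero_apply, zero_mul, II_zero'])

theorem sb_FL_snd {d : ℕ} (hd : 0 < d) {Φ : W × Q2 → ℂ} (h : SB Φ) :
    SB fun z : W × Q2 => FL d (fun k => Φ (z.1, k)) z.2 := by
  obtain ⟨M, hM, h⟩ := h
  have hM' : 0 < 2 * d * M := by positivity
  refine ⟨2 * d * M, hM', lev_prod (fun y => ?_)
    fun x => (((h.snd x).levL hd).levL_FL hd hM').lev hd hM'⟩
  exact lev_param (fun x k => Φ (x, k)) (fun k => (h.fst k).mono (dvd_mul_left _ _))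
    (fun c => FL d c y) (by simp only [FL, Pi.zero_apply, zero_mul, II_zero'])

end last

theorem unsh_eq (Ω : Q2 × Q2 → ℂ) (Y : Q3 × ℚ) :
    unsh Ω Y = F1 1 (fun k => Ω ((Y.1.2.2, k), (Y.1.2.1, Y.2))) (-Y.1.1) := by
  rw [unsh, F1_apply]
  congr 1
  funext k
  congr 2
  ring

theorem sb_slice {Ω : Q2 × Q2 → ℂ} (h : SB Ω) (c : ℚ) (z : Q2) : SB fun k : ℚ => Ω ((c, k), z) :=
  sb_snd (sb_fst h z) c

theorem sb_unsh_int {Ω : Q2 × Q2 → ℂ} (h : SB Ω) (c a : ℚ) (z : Q2) :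
    SB fun k : ℚ => Ω ((c, k), z) * eq (-(a * k)) :=
  sb_mul_lin (sb_slice h c z) _ (fun x y => by ring) fun s x => by simp only [smul_eq_mul]; ring

theorem sb_unsh {Ω : Q2 × Q2 → ℂ} (h : SB Ω) : SB (unsh Ω) := by
  have h1 : SB fun z : (ℚ × Q2) × ℚ => Ω ((z.1.1, z.2), z.1.2) :=
    sb_lin h (fun z : (ℚ × Q2) × ℚ => ((z.1.1, z.2), z.1.2)) (fun _ _ => rfl) (fun _ _ => rfl)
      fun x y e => by
        simp only [Prod.ext_iff] at e ⊢
        tauto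
  have h2 := sb_lin (sb_F1_snd h1)
    (fun Y : Q3 × ℚ => (((Y.1.2.2, (Y.1.2.1, Y.2)), -Y.1.1) : (ℚ × Q2) × ℚ))
    (fun x y => by ext <;> simp [add_comm]) (fun a x => by ext <;> simp) fun x y e => by
      simp only [Prod.ext_iff, neg_inj] at e ⊢
      tauto
  have h3 : unsh Ω = fun Y : Q3 × ℚ =>
      F1 1 (fun k => Ω ((Y.1.2.2, k), (Y.1.2.1, Y.2))) (-Y.1.1) := funext (unsh_eq Ω)
  rw [h3]
  exact h2

theorem exists_unsh {ω : Q3 × ℚ → ℂ} (h : SB ω) : ∃ Ω, SB Ω ∧ unsh Ω = ω := by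
  have h1 : SB fun z : (ℚ × Q2) × ℚ => ω ((z.2, z.1.2.1, z.1.1), z.1.2.2) :=
    sb_lin h (fun z : (ℚ × Q2) × ℚ => (((z.2, z.1.2.1, z.1.1), z.1.2.2) : Q3 × ℚ))
      (fun _ _ => rfl) (fun _ _ => rfl) fun x y e => by
        simp only [Prod.ext_iff] at e ⊢
        tauto
  refine ⟨fun p => F1 1 (fun a => ω ((a, p.2.1, p.1.1), p.2.2)) p.1.2,
    sb_lin (sb_F1_snd h1) (fun p : Q2 × Q2 => (((p.1.1, p.2), p.1.2) : (ℚ × Q2) × ℚ))
      (fun _ _ => rfl) (fun _ _ => rfl) fun x y e => ?_, ?_⟩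
  · simp only [Prod.ext_iff] at e ⊢
    tauto
  · funext Y
    rw [unsh_eq]
    exact (F1_F1 (sb_snd h1 (Y.1.2.2, (Y.1.2.1, Y.2))) _).trans (by rw [neg_neg])

theorem sb_nO (d : ℕ) (b : ℚ) {Ω : Q2 × Q2 → ℂ} (h : SB Ω) : SB (nO d b Ω) := by
  have h1 : SB fun p : Q2 × Q2 => Ω ((p.1.1, p.1.2 + b * p.1.1), p.2) :=
    sb_lin h (fun p : Q2 × Q2 => (((p.1.1, p.1.2 + b * p.1.1), p.2) : Q2 × Q2))
      (fun x y => by ext <;> simp; ring) (fun a x => by ext <;> simp; ring) fun x y e => by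
        simp only [Prod.ext_iff] at e ⊢
        obtain ⟨⟨e1, e2⟩, e3⟩ := e
        exact ⟨⟨e1, by rw [e1] at e2; linarith⟩, e3⟩
  let l1 : Q2 × Q2 →ₗ[ℚ] ℚ := (LinearMap.fst ℚ ℚ ℚ).comp (LinearMap.snd ℚ Q2 Q2)
  let l2 : Q2 × Q2 →ₗ[ℚ] ℚ := (LinearMap.snd ℚ ℚ ℚ).comp (LinearMap.snd ℚ Q2 Q2)
  have h2 := sb_mul_quad (sb_mul_quad h1 ((-b * d) • l2) l2) ((-b) • l1) l1
  convert h2 using 2 with p
  rw [nO, ← mul_assoc, ← eq_add]
  congr 2
  simp [l1, l2, Nm]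
  ring

theorem unsh_nO (d : ℕ) (b : ℚ) (Ω : Q2 × Q2 → ℂ) (Y : Q3 × ℚ) :
    unsh (nO d b Ω) Y = eq (b * (q3 Y.1 - d * Y.2 ^ 2)) * unsh Ω Y := by
  rw [unsh, unsh, ← II_const_mul, ← II_shift _ (-(b * Y.1.2.2))]
  congr 1
  funext k
  simp only [nO, neg_add_cancel_right]
  rw [mul_right_comm, ← eq_add, mul_left_comm, ← eq_add, mul_comm]
  congr 2
  simp only [Nm, q3]
  ring

theorem sb_sO {d : ℕ} (hd : 0 < d) {Ω : Q2 × Q2 → ℂ} (h : SB Ω) : SB (sO d Ω) := by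
  have h1 := sb_lin (sb_FL_snd hd h) (fun p : Q2 × Q2 => (((p.1.2, -p.1.1), p.2) : Q2 × Q2))
    (fun x y => by ext <;> simp [add_comm]) (fun a x => by ext <;> simp) fun x y e => by
      simp only [Prod.ext_iff, neg_inj] at e ⊢
      tauto
  exact h1

/-- a rearrangement of coordinates -/
def RA : ((ℚ × Q2) × ℚ) ≃ₗ[ℚ] (Q3 × ℚ) where
  toFun z := ((z.2, z.1.2.1, z.1.1), z.1.2.2)
  invFun Y := ((Y.1.2.2, (Y.1.2.1, Y.2)), Y.1.1)
  map_add' _ _ := rfl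
  map_smul' _ _ := rfl
  left_inv _ := rfl
  right_inv _ := rfl

theorem RA_apply (z : (ℚ × Q2) × ℚ) : RA z = ((z.2, z.1.2.1, z.1.1), z.1.2.2) := rfl

theorem unsh_sO (d : ℕ) {Ω : Q2 × Q2 → ℂ} (h : SB Ω) (Z : Q3 × ℚ) :
    unsh (sO d Ω) Z = F4 d (unsh Ω) Z := by
  have hR : ∀ z, IsInt (RA z) ↔ IsInt z := fun z => by
    simp only [RA_apply, isInt_prod]
    tauto
  have h1 : SB fun z : (ℚ × Q2) × ℚ =>
      unsh Ω (RA z) * eq (-bil3 (RA z).1 Z.1 + 2 * d * (RA z).2 * Z.2) :=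
    sb_mul_lin ((sb_unsh h).comp_inj RA.toLinearMap RA.injective) _
      (fun x y => by simp [RA_apply, bil3]; ring) fun a x => by simp [RA_apply, bil3]; ring
  have h2 : ∀ x : ℚ × Q2, (II fun a : ℚ => unsh Ω (RA (x, a)) *
      eq (-bil3 (RA (x, a)).1 Z.1 + 2 * d * (RA (x, a)).2 * Z.2)) =
      Ω ((x.1, -Z.1.2.2), x.2) * eq (bilN d x.2 (Z.1.2.1, Z.2) - Z.1.1 * x.1) := by
    intro x
    have h3 := F1_F1 (sb_slice h x.1 x.2) Z.1.2.2
    rw [← h3, F1_apply, ← II_mul_const, ← II_neg]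
    congr 1
    funext a
    rw [unsh_eq, mul_assoc (F1 1 _ a), ← eq_add]
    simp only [RA_apply, neg_neg]
    congr 2
    simp only [bil3, bilN]
    ring
  have h4 : SB fun x : ℚ × Q2 =>
      Ω ((x.1, -Z.1.2.2), x.2) * eq (bilN d x.2 (Z.1.2.1, Z.2) - Z.1.1 * x.1) := by
    have := h1.II_snd
    simpa only [h2] using this
  rw [F4, ← II_equiv_lat RA hR, II_prod h1]
  simp only [h2]
  rw [II_prod h4, unsh]
  congr 1
  funext k
  simp only [sO, FL]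
  rw [← II_mul_const]
  congr 1
  funext x
  rw [mul_assoc, ← eq_add, ← sub_eq_add_neg]

theorem sb_cO (β : ℚ) {Ω : Q2 × Q2 → ℂ} (h : SB Ω) : SB (cO β Ω) := by
  have h1 : SB fun p : Q2 × Q2 => Ω (p.1, (p.2.1 - β * p.1.1, p.2.2)) :=
    sb_lin h (fun p : Q2 × Q2 => ((p.1, (p.2.1 - β * p.1.1, p.2.2)) : Q2 × Q2))
      (fun x y => by ext <;> simp; ring) (fun a x => by ext <;> simp; ring) fun x y e => by
        simp only [Prod.ext_iff] at e ⊢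
        obtain ⟨⟨e1, e2⟩, e3, e4⟩ := e
        exact ⟨⟨e1, e2⟩, by rw [e1] at e3; linarith, e4⟩
  let l1 : Q2 × Q2 →ₗ[ℚ] ℚ := (LinearMap.fst ℚ ℚ ℚ).comp (LinearMap.snd ℚ Q2 Q2)
  let l2 : Q2 × Q2 →ₗ[ℚ] ℚ := (LinearMap.fst ℚ ℚ ℚ).comp (LinearMap.fst ℚ Q2 Q2)
  let l3 : Q2 × Q2 →ₗ[ℚ] ℚ := (LinearMap.snd ℚ ℚ ℚ).comp (LinearMap.fst ℚ Q2 Q2)
  have h2 := sb_mul_quad h1 ((2 * β) • l1 - β ^ 2 • l2) l3
  convert h2 using 2 with p
  rw [cO]
  congr 2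

theorem nn_inv_val (β : ℚ) : ((nn β)⁻¹).1 = !![1, -β; 0, 1] := by
  rw [Matrix.coe_units_inv, nn_val]
  apply Matrix.inv_eq_right_inv
  ext i j
  fin_cases i <;> fin_cases j <;> simp [Matrix.mul_apply, Fin.sum_univ_two]

theorem co_nn (β : ℚ) (Y : Q3) : co ((nn β).1 * tz Y * ((nn β)⁻¹).1) =
    (Y.1 - 2 * β * Y.2.1 + β ^ 2 * Y.2.2, Y.2.1 - β * Y.2.2, Y.2.2) := by
  rw [nn_inv_val, nn_val]
  ext <;> simp [co, tz, Matrix.mul_apply, Fin.sum_univ_two] <;> ring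

end WVP

open WVP

theorem rho : S_WV → S_WL → S_Rho := by
  intro hV hL d M hd hM hdM
  obtain ⟨ρ, HL⟩ := hL d M hd hM hdM
  have HV := hV M hM
  obtain ⟨R, hR, hten⟩ := exists_ten hM
  have key : ∀ γ ψ, Lev6 d M ψ → rho6 ρ γ ψ =
      ten R (fun r => omV γ (cls M r)) fun r => ρ γ fun x => ψ (r, x) := fun γ ψ h => by
    conv_lhs => rw [hten d ψ h]
    exact rho6_ten HV HL γ hR fun r _ => h.2 r
  refine ⟨rho6 ρ, fun γ ψ h => ?_, fun γ ψ ψ' h h' => ?_, fun γ c ψ h => ?_,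
    fun γ γ' ψ h => ?_, fun ψ h => ?_, fun ψ h => ?_, fun γ hγ ψ h u hu => ?_,
    fun γ hγ ψ h => ?_⟩
  · rw [key γ ψ h]
    exact lev6_ten (fun r hr => HV.lev γ _ (hR r hr)) fun r _ => HL.lev γ _ (h.2 r)
  · rw [key γ ψ h, key γ ψ' h',
      key γ _ ⟨fun x => (h.1 x).add (h'.1 x), fun Y => levL_add _ _ (h.2 Y) (h'.2 Y)⟩]
    funext u
    simp only [ten, Pi.add_apply, ← Finset.sum_add_distrib]
    refine Finset.sum_congr rfl fun r _ => ?_
    have := congrFun (HL.add γ _ _ (h.2 r) (h'.2 r)) u.2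
    rw [← mul_add]
    congr 1
  · rw [key γ ψ h, key γ _ ⟨fun x => (h.1 x).smul c, fun Y => levL_smul c _ (h.2 Y)⟩]
    funext u
    simp only [ten, Pi.smul_apply, smul_eq_mul, Finset.mul_sum]
    refine Finset.sum_congr rfl fun r _ => ?_
    have := congrFun (HL.smul γ c _ (h.2 r)) u.2
    rw [mul_left_comm]
    congr 1
  · rw [key γ ψ h, key _ ψ h, rho6_ten HV HL γ' (fun r hr => HV.lev γ _ (hR r hr))
      fun r _ => HL.lev γ _ (h.2 r)]
    funext u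
    refine Finset.sum_congr rfl fun r hr => ?_
    simp only [HV.mul γ γ' _ (hR r hr), HL.mul γ γ' _ (h.2 r)]
  · rw [key _ ψ h, F6n]
    conv_rhs => rw [hten d ψ h, F6_ten (fun r hr => ⟨M, hM, hR r hr⟩)
      fun r _ => ⟨M, hM, (h.2 r).lev hd hM⟩]
    funext u
    simp only [ten, Pi.smul_apply, smul_eq_mul, Finset.mul_sum]
    refine Finset.sum_congr rfl fun r hr => ?_
    rw [HV.hS _ (hR r hr), HL.hS _ (h.2 r), FLn, Pi.smul_apply, smul_eq_mul, mul_left_comm]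
  · rw [key _ ψ h]
    funext u
    conv_rhs => rw [hten d ψ h]
    simp only [ten, Finset.mul_sum]
    refine Finset.sum_congr rfl fun r hr => ?_
    rw [HV.hT _ (hR r hr), HL.hT _ (h.2 r), QU, sub_eq_add_neg, eq_add]
    ring
  · rw [key _ ψ h]
    conv_rhs => rw [hten d ψ h]
    simp only [ten, Finset.mul_sum]
    refine Finset.sum_congr rfl fun r hr => ?_
    rw [HV.gam0 γ hγ _ (hR r hr) u.1 hu.1, HL.gam0 γ hγ _ (h.2 r) u.2 hu.2, QU, sub_eq_add_neg,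
      mul_add, eq_add, Prod.smul_fst, Prod.smul_snd]
    ring
  · rw [key _ ψ h]
    funext u
    conv_rhs => rw [hten d ψ h]
    refine Finset.sum_congr rfl fun r hr => ?_
    simp only [HV.triv γ hγ _ (hR r hr), HL.triv γ hγ _ (h.2 r)]

theorem mix : S_Mix := by
  intro d hd
  refine ⟨fun ω h => exists_unsh h, fun Ω h => ⟨sb_unsh h, fun Ω' h' => ?_, fun a => ?_,
    fun b => ⟨sb_nO d b h, funext (unsh_nO d b Ω)⟩, ⟨sb_sO hd h, funext (unsh_sO d h)⟩,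
    fun β => ⟨sb_cO β h, ?_⟩, ?_⟩⟩
  · funext Y
    simp only [unsh, Pi.add_apply, add_mul]
    exact II_add' (sb_unsh_int h _ _ _) (sb_unsh_int h' _ _ _)
  · funext Y
    simp only [unsh, Pi.smul_apply, smul_eq_mul, mul_assoc, II_const_mul]
  · funext Y
    rw [co_nn, unsh, unsh]
    congr 1
    funext k
    simp only [cO]
    rw [mul_right_comm, ← eq_add, mul_comm]
    congr 2
    ring
  · funext Y
    rw [unsh, unsh, ← II_neg]
    congr 1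
    funext k
    simp only [Prod.neg_mk, neg_neg, Prod.fst_neg, Prod.snd_neg]
    congr 2
    ring

end

end Pool.Agent.P.MP_b8021b_nt.CM
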