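import Pool.Agent.P.MP_b8021b_nt.CM.An
import Pool.Agent.P.MP_b8021b_nt.CM.Main0
import Pool.Agent.P.MP_b8021b_nt.CM.L1FD
import Pool.Agent.P.MP_b8021b_nt.CM.JInv
import Pool.Agent.P.MP_b8021b_nt.CM.Eis
import Pool.Agent.P.MP_b8021b_nt.CM.Sharp
import Pool.Agent.P.MP_b8021b_nt.CM.BorchA
import Pool.Agent.P.MP_b8021b_nt.CM.BorchG
import Pool.Agent.P.MP_b8021b_nt.CM.Borch
import Pool.Agent.P.MP_b8021b_nt.CM.Dual
import Pool.Agent.P.MP_b8021b_nt.CM.G1S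
import Pool.Agent.P.MP_b8021b_nt.CM.HJF
import Pool.Agent.P.MP_b8021b_nt.CM.WV
import Pool.Agent.P.MP_b8021b_nt.CM.WL
import Pool.Agent.P.MP_b8021b_nt.CM.BB
import Pool.Agent.P.MP_b8021b_nt.CM.G2F
import Pool.Agent.P.MP_b8021b_nt.CM.Vec
import Pool.Agent.P.MP_b8021b_nt.CM.Poly
import Pool.Agent.P.MP_b8021b_nt.CM.JXS
import Pool.Agent.P.MP_b8021b_nt.CM.JXL
import Pool.Agent.P.MP_b8021b_nt.CM.RS0
import Pool.Agent.P.MP_b8021b_nt.CM.RS1
import Pool.Agent.P.MP_b8021b_nt.CM.E0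
import Pool.Agent.P.MP_b8021b_nt.CM.LocA
import Pool.Agent.P.MP_b8021b_nt.CM.LocB
import Pool.Agent.P.MP_b8021b_nt.CM.Asm
import Pool.Agent.P.MP_b8021b_nt.CM.Ker
import Pool.Agent.P.MP_b8021b_nt.CM.GZS
import Pool.Agent.P.MP_b8021b_nt.CM.RSG
import Pool.Agent.P.MP_b8021b_nt.CM.Sec
import Pool.Agent.P.MP_b8021b_nt.CM.RSJ
import Pool.Agent.P.MP_b8021b_nt.CM.Hk
import Pool.Agent.P.MP_b8021b_nt.CM.Eig
import Pool.Agent.P.MP_b8021b_nt.CM.Count
import Pool.Agent.P.MP_b8021b_nt.CM.Euler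
import Pool.Agent.P.MP_b8021b_nt.CM.NV1
import Pool.Agent.P.MP_b8021b_nt.CM.NV
import Pool.Agent.P.MP_b8021b_nt.CM.R0
import Pool.Agent.P.MP_b8021b_nt.CM.Red

/-! Assembly of all packages. -/

namespace Pool.Agent.P.MP_b8021b_nt.CM

theorem l1All : S_L1 := l1 jinv

theorem borchAll : S_Borch :=
  borch (borchG l1All jinv sharpS (borchA fd sharpS (ba1 sharpS)))

theorem dualQAll : S_DualQ := dualQ (dual jinv eis sharpS (fplus jinv sharpS))

theorem hAll : S_H := hS (g1S borchAll dualQAll)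

theorem jfAll : S_JF := jfS hAll

theorem g2fullAll : S_G2full := g2full (g2S borchAll dualQAll) wv

theorem hlAll : S_HL := hl fd g2fullAll

theorem aaAll : S_AAW := aaB (poly hAll vec)

theorem b0All : S_B0W := b0S aaAll

theorem gzAll : S_GZW := gzS aaAll b0All

theorem rhoAll : S_Rho := rho wv wl

theorem jxAll : S_JXW := jx aaAll (jxs jfAll (jred jfAll))

theorem lstAll : S_LstW := lst aaAll rhoAll jxAll b0All kerS

theorem vanAll : S_Van :=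
  van hil mix ee (bb jfAll (jf2 jfAll mix wl) mix ee e0S (cuspS g2fullAll hlAll)) locA (locB hil)

theorem anAllW : S_AnW :=
  an b0All kerS asm (rsg rs0 gzAll b0All kerS)
    (rsj2 rhoAll (secS b0All) jxAll (rs1 ee) lstAll kerS)
    (rsj4 rhoAll (secS b0All) jxAll (jred jfAll) ee (rs1 ee) lstAll kerS vanAll) (mel aaAll gzAll)

theorem anAll : S_An := fun d M hd hM h => by
  obtain ⟨κ, κ0, h1, h2, h3, h4⟩ := anAllW d M hd hM h
  exact ⟨κ, κ0, h1, h2, h3, fun s hs => h4 s hs.inW⟩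

theorem mainAll : S_Main :=
  mainS (main0 anAll nice (eig hk hlAll g2fullAll wv) (euler count) (nv (nv1 rs0)))

theorem r0All : S_R0 := r0S l1All jinv

end Pool.Agent.P.MP_b8021b_nt.CM
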