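import Pool.Agent.P.MP_b8021b_nt.CM.StDefs

/-!
Zero-cycles modulo rational equivalence on a product of two projective varieties, maps from the
modular curve `X(N)` to projective space, and Heegner divisors.
-/

open scoped WithZero MatrixGroups UpperHalfPlane LinearAlgebra.Projectivization Topology
open Pool.Agent.P.MP_7ebcb6_ag Filter

namespace Pool.Agent.P.MP_b8021b_nt.CM

noncomputable section

/-- The zero-cycles on `X × X' ⊆ ℙⁿ × ℙⁿ'` that are rationally equivalent to zero: the subgroup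
generated by the push-forwards `φ_* div f`, where `φ = (η, η') : C → X × X'` is a morphism from a
smooth projective curve `C` with function field `K` and `f ∈ K` is nonzero. -/
def ratTrivial₂ {n n' : ℕ} (X : Set (ℙ ℂ (Fin (n + 1) → ℂ))) (X' : Set (ℙ ℂ (Fin (n' + 1) → ℂ))) :
    AddSubgroup (X × X' →₀ ℤ) :=
  AddSubgroup.closure {D | ∃ (K : Type) (_ : Field K) (_ : Algebra ℂ K), IsCurveField K ∧
    ∃ (η : Fin (n + 1) → K) (η' : Fin (n' + 1) → K) (φ : Valuation K ℤᵐ⁰ → X × X') (f : K)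
      (S : Finset (Valuation K ℤᵐ⁰)),
      (∀ v, IsPlace v → IsValueAt v η (φ v).1 ∧ IsValueAt v η' (φ v).2) ∧ f ≠ 0 ∧
      (∀ v ∈ S, IsPlace v) ∧ (∀ v, IsPlace v → v ∉ S → ord v f = 0) ∧
      D = ∑ v ∈ S, Finsupp.single (φ v) (ord v f)}

/-- The points `(Φ₀ τ : … : Φₙ τ)` tend to `x` along the filter `l`. -/
def IsLimit {n : ℕ} (Φ : Fin (n + 1) → ℍ → ℂ) (l : Filter ℍ) (x : ℙ ℂ (Fin (n + 1) → ℂ)) : Prop :=
  ∃ c : ℍ → ℂ, Tendsto (fun τ => c τ • fun i => Φ i τ) l (𝓝 x.rep)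

/-- The projective curve parametrised by `Φ`: the Zariski closure of the set of points
`(Φ₀ τ : … : Φₙ τ)`. -/
def modCurve {n : ℕ} (Φ : Fin (n + 1) → ℍ → ℂ) : Set (ℙ ℂ (Fin (n + 1) → ℂ)) :=
  zariskiClosure {x | ∃ τ : ℍ, ∃ h : (fun i => Φ i τ) ≠ 0, x = Projectivization.mk ℂ _ h}

/-- `φ` is the map `(Φ₀ : … : Φₙ)`, extended over the common zeros, and `b` is the image of the
cusp at infinity. -/
def IsParam {n : ℕ} (Φ : Fin (n + 1) → ℍ → ℂ) (φ : ℍ → modCurve Φ) (b : modCurve Φ) : Prop :=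
  (∀ τ, IsLimit Φ (𝓝[≠] τ) (φ τ)) ∧ IsLimit Φ UpperHalfPlane.atImInfty b

/-- The zero-cycle `([x] - [b]) × ([y] - [b'])`. -/
def symb {X X' : Type} (b : X) (b' : X') (x : X) (y : X') : X × X' →₀ ℤ :=
  Finsupp.single (x, y) 1 - Finsupp.single (x, b') 1 - Finsupp.single (b, y) 1 +
    Finsupp.single (b, b') 1

/-- `w` has trace `t`, determinant `n`, positive lower left entry, and reduces to `ν`. -/
def Heeg (N : ℕ) (t n : ℤ) (ν : Matrix (Fin 2) (Fin 2) (ZMod N)) (w : Matrix (Fin 2) (Fin 2) ℤ) :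
    Prop :=
  w.trace = t ∧ w.det = n ∧ 0 < w 1 0 ∧ w.map (Int.cast : ℤ → ZMod N) = ν

/-- `R` is a system of representatives for the `Γ(N)`-conjugacy classes of such matrices, and
`z w` is the fixed point of `w`. -/
def IsHeegSystem (N : ℕ) (t n : ℤ) (ν : Matrix (Fin 2) (Fin 2) (ZMod N))
    (R : Finset (Matrix (Fin 2) (Fin 2) ℤ)) (z : Matrix (Fin 2) (Fin 2) ℤ → ℍ) : Prop :=
  (∀ w ∈ R, Heeg N t n ν w ∧ Sends w (z w, z w)) ∧
    ∀ w, Heeg N t n ν w → ∃! v, v ∈ R ∧ ∃ γ ∈ CongruenceSubgroup.Gamma N, w * γ.1 = γ.1 * v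

end

end Pool.Agent.P.MP_b8021b_nt.CM
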