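import Pool.Agent.P.MP_b8021b_nt.CM.Lib
import Pool.Agent.P.MP_b8021b_nt.CM.PDefs

/-! Statements of the packages for the projective version. Proofs: h95_README2.md. -/

namespace Pool.Agent.P.MP_b8021b_nt.CM

open Complex hiding Gamma
open UpperHalfPlane hiding I
open MeasureTheory CongruenceSubgroup Filter
open scoped Real MatrixGroups ModularForm Topology ComplexConjugate Modular
open scoped LinearAlgebra.Projectivization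

noncomputable section

/-- the leading term at infinity is a nonzero multiple of `e (n τ / M)` -/
def Lead (M : ℕ) (n : ℤ) (f : ℍ → ℂ) : Prop :=
  ∃ c : ℂ, c ≠ 0 ∧ Tendsto (fun τ : ℍ => f τ * e (-(n * τ) / M)) atImInfty (𝓝 c)

/-- representatives for the cosets of `Γ(M)` -/
def CosetReps (M : ℕ) (R : Finset SL) : Prop := ∀ γ : SL, ∃! r, r ∈ R ∧ γ * r⁻¹ ∈ Gamma M

/-- the order of the unit attached to `a` at the cusp `γ ∞` -/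
def uord (M : ℕ) (a : ZMod M × ZMod M) (γ : SL) : ℤ :=
  12 * ((a.1 * (γ 0 0 : ℤ) + a.2 * (γ 1 0 : ℤ)).valMinAbs.natAbs : ℤ) -
    (if a + a = 0 then 4 else 3) * M

/-- principal divisors on the complete modular curve -/
def S_R1 : Prop := ∀ (M n n' : ℕ) (X : Set (ℙ ℂ (Fin (n + 1) → ℂ)))
  (X' : Set (ℙ ℂ (Fin (n' + 1) → ℂ))) (ξ : Fin (n + 1) → ℍ → ℂ) (ξ' : Fin (n' + 1) → ℍ → ℂ)
  (p : ℍ → X × X') (q : SL → X × X') (f : (X × X' →₀ ℤ) →+ ℂ) (R : Finset SL), 3 ≤ M →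
  (∀ i, InO M (ξ i)) → (∀ i, InO M (ξ' i)) →
  (∀ τ, IsLimit ξ (𝓝[≠] τ) (p τ).1 ∧ IsLimit ξ' (𝓝[≠] τ) (p τ).2) →
  (∀ γ : SL, IsLimit (fun i τ => ξ i (γ • τ)) atImInfty (q γ).1 ∧
    IsLimit (fun i τ => ξ' i (γ • τ)) atImInfty (q γ).2) →
  (∀ D ∈ ratTrivial₂ X X', f D = 0) → CosetReps M R →
  ∀ h, InO M h → h ≠ 0 → ∀ o : SL → ℤ, (∀ γ : SL, Lead M (o γ) fun τ => h (γ • τ)) →
    2 * (M : ℂ) * ((Gamma M).index : ℂ) *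
      dmean actH G0 (fun τ => (ordAt h τ : ℂ) * f (Finsupp.single (p τ) 1)) +
      ∑ γ ∈ R, (o γ : ℂ) * f (Finsupp.single (q γ) 1) = 0

/-- modular units -/
def S_Unit : Prop := ∀ (M : ℕ) [NeZero M] (a : ZMod M × ZMod M), a ≠ 0 →
  ∃ h, InO M h ∧ (∀ τ, h τ ≠ 0) ∧ ∀ γ : SL, Lead M (uord M a γ) fun τ => h (γ • τ)

/-- the divisors of the units span the cuspidal divisors of degree zero -/
def S_MD : Prop := ∀ (M : ℕ) (R : Finset SL) (lam : SL → ℂ), 3 ≤ M → Even M → CosetReps M R →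
  (∀ δ ∈ Gamma M, ∀ γ, lam (δ * γ) = lam γ) → (∀ γ, lam (γ * ModularGroup.T) = lam γ) →
  (∀ γ, lam (-γ) = lam γ) →
  (∀ a : ZMod M × ZMod M, a ≠ 0 → ∑ γ ∈ R, (uord M a γ : ℂ) * lam γ = 0) →
  ∀ γ, lam γ = lam 1

/-- the orientation of an elliptic matrix is given by congruences -/
def S_Ori : Prop := ∀ t n : ℤ, t ^ 2 < 4 * n → ∃ M : ℕ, 0 < M ∧ ∀ w w' : Z2, w.trace = t →
  w.det = n → w'.trace = t → w'.det = n → red M w = red M w' → 0 < w 1 0 → 0 < w' 1 0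

open Classical in
/-- a form of weight one is not constant -/
def S_Theta : Prop := ∀ (ι : Type) [Fintype ι] (τ : ℍ) (c : ι → Q2 → ℂ) (l : ι → ℝ),
  (∀ i, SB (c i)) → (∀ i, 0 < l i) →
  (∀ t : ℝ, 0 < t → ∑ i, ∑' w : Q2, (if w = 0 then 0 else c i w * gau w τ (l i * t)) = 0) →
  ∑ i, c i 0 = 0

/-- products of Heegner divisors -/
def S_Heeg : Prop := ∀ s, InS s → ∀ N N' : ℕ, 3 ≤ N → 3 ≤ N' → (∀ σ, LevU N fun τ => s τ σ) →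
  (∀ τ, LevU N' (s τ)) → ∀ t n t' n' : ℤ, t ^ 2 < 4 * n → t' ^ 2 < 4 * n' →
  IsSquare ((4 * n - t ^ 2) * (4 * n' - t' ^ 2)) → ∀ ν ν' R R' z z',
  IsHeegSystem N t n ν R z → IsHeegSystem N' t' n' ν' R' z' →
  ∑ w ∈ R, ∑ w' ∈ R', s (z w) (z' w') = 0

def S_HeegEx : Prop := ∀ N : ℕ, 0 < N → ∀ t n : ℤ, t ^ 2 < 4 * n → ∀ ν,
  ∃ R z, IsHeegSystem N t n ν R z

/-- limits of tuples of modular functions -/
def S_Lim : Prop :=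
  (∀ (n : ℕ) (Φ : Fin (n + 1) → ℍ → ℂ) (l : Filter ℍ) [l.NeBot] (x y : ℙ ℂ (Fin (n + 1) → ℂ)),
    IsLimit Φ l x → IsLimit Φ l y → x = y) ∧
  (∀ (n : ℕ) (Φ Ψ : Fin (n + 1) → ℍ → ℂ) (g : ℍ → ℍ) (a : ℍ → ℂ) (l : Filter ℍ) [l.NeBot]
    (x : ℙ ℂ (Fin (n + 1) → ℂ)), (∀ i τ, Ψ i τ = a τ * Φ i (g τ)) → IsLimit Ψ l x →
    x ∈ modCurve Φ) ∧
  (∀ (n : ℕ) (Φ : Fin (n + 1) → ℍ → ℂ), (∀ i, Hol (Φ i)) → Φ ≠ 0 →
    ∀ τ : ℍ, ∃ x, IsLimit Φ (𝓝[≠] τ) x) ∧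
  (∀ (n M : ℕ) (Φ : Fin (n + 1) → ℍ → ℂ), 0 < M → (∀ i, InG (Φ i) ∧ Per M (Φ i)) → Φ ≠ 0 →
    ∃ x, IsLimit Φ atImInfty x) ∧
  ∀ (M : ℕ) (h : ℍ → ℂ), 0 < M → InG h → Per M h → h ≠ 0 → ∃ o, Lead M o h

/-- the function on pairs of points attached to a functional on zero-cycles -/
def S_Proj : Prop := ∀ (N N' n n' : ℕ) (k k' : ℤ)
  (Φ : Fin (n + 1) → ModularForm (Gamma N : Subgroup SL(2, ℤ)) k)
  (Ψ : Fin (n' + 1) → ModularForm (Gamma N' : Subgroup SL(2, ℤ)) k')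
  (φ : ℍ → modCurve fun i => Φ i) (b : modCurve fun i => Φ i)
  (ψ : ℍ → modCurve fun i => Ψ i) (b' : modCurve fun i => Ψ i)
  (f : ((modCurve fun i => Φ i) × (modCurve fun i => Ψ i) →₀ ℤ) →+ ℂ), 0 < N → 0 < N' →
  IsParam _ φ b → IsParam _ ψ b' → (∀ D ∈ ratTrivial₂ _ _, f D = 0) →
  InS (fun τ σ => f (symb b b' (φ τ) (ψ σ))) ∧
    (∀ σ, LevU N fun τ => f (symb b b' (φ τ) (ψ σ))) ∧
    ∀ τ, LevU N' fun σ => f (symb b b' (φ τ) (ψ σ))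

end

end Pool.Agent.P.MP_b8021b_nt.CM
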