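import Pool.Agent.P.MP_b8021b_nt.CM.Final
import Pool.Agent.P.MP_b8021b_nt.CM.Stmts2

/-! The statements on zero-cycles of a product of two projective modular curves. -/

namespace Pool.Agent.P.MP_b8021b_nt.CM

open Complex hiding Gamma
open UpperHalfPlane hiding I
open MeasureTheory CongruenceSubgroup Filter
open scoped Real MatrixGroups ModularForm Topology ComplexConjugate Modular

noncomputable section

open FinalP

theorem exists_param (hL : S_Lim) {N n : ℕ} {k : ℤ} (hN : 0 < N)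
    (Φ : Fin (n + 1) → ModularForm (Gamma N : Subgroup SL(2, ℤ)) k) (h : ∃ i, Φ i ≠ 0) :
    ∃ φ b, IsParam (fun i => Φ i) φ b := by
  have hG := fun i => inG_modularForm hN (Φ i)
  have h0 : (fun i => (Φ i : ℍ → ℂ)) ≠ 0 := fun e => by
    obtain ⟨i, hi⟩ := h
    exact hi (DFunLike.ext _ _ fun τ => congrFun (congrFun e i) τ)
  choose φ hφ using hL.2.2.1 n _ (fun i => (hG i).1.1) h0
  obtain ⟨b, hb⟩ := hL.2.2.2.1 n N _ hN (fun i => ⟨(hG i).1, fun τ => by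
    have h1 := ModularGroup.coe_T_zpow N
    rw [← HolP.T_smul, apply_of_sl ((hG i).2 _ (HolP.T_mem N)), jf, congrFun (congrFun h1 1) 0,
      congrFun (congrFun h1 1) 1]
    simp⟩) h0
  exact ⟨fun τ => ⟨φ τ, hL.2.1 n _ _ id (fun _ => 1) _ _ (fun _ _ => (one_mul _).symm) (hφ τ)⟩,
    ⟨b, hL.2.1 n _ _ id (fun _ => 1) _ _ (fun _ _ => (one_mul _).symm) hb⟩, hφ, hb⟩

variable {N N' n n' : ℕ} {k k' : ℤ}

theorem finalSpecial (hM : S_Main) (hP : S_Proj) (hN : 3 ≤ N)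
    (Φ : Fin (n + 1) → ModularForm (Gamma N : Subgroup SL(2, ℤ)) k)
    (Ψ : Fin (n' + 1) → ModularForm (Gamma N : Subgroup SL(2, ℤ)) k')
    {φ : ℍ → modCurve fun i => Φ i} {b : modCurve fun i => Φ i}
    {ψ : ℍ → modCurve fun i => Ψ i} {b' : modCurve fun i => Ψ i}
    (hφ : IsParam _ φ b) (hψ : IsParam _ ψ b') {m r j : ℤ} (hj : 0 < j) (hD : r ^ 2 < 4 * m * j)
    {μ : R2 N × R2 N} {R : Finset (Z2 × Z2)} {P : Z2 × Z2 → ℍ × ℍ} (h : IsSystem N m r j μ R P) :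
    ∃ c : ℕ, 0 < c ∧ c • ∑ y ∈ R, symb b b' (φ (P y).1) (ψ (P y).2) ∈ ratTrivial₂ _ _ := by
  by_contra hne
  obtain ⟨f, hf, hz⟩ := exists_functional _ _ hne
  obtain ⟨hs, hl⟩ := hP N N n n' k k' Φ Ψ φ b ψ b' f (by omega) (by omega) hφ hψ hf
  apply hz
  rw [map_sum]
  exact sum_eq_zero hM hN hj hD h hs hl

theorem finalHeeg (hH : S_Heeg) (hP : S_Proj) (hN : 3 ≤ N) (hN' : 3 ≤ N')
    (Φ : Fin (n + 1) → ModularForm (Gamma N : Subgroup SL(2, ℤ)) k)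
    (Ψ : Fin (n' + 1) → ModularForm (Gamma N' : Subgroup SL(2, ℤ)) k')
    {φ : ℍ → modCurve fun i => Φ i} {b : modCurve fun i => Φ i}
    {ψ : ℍ → modCurve fun i => Ψ i} {b' : modCurve fun i => Ψ i}
    (hφ : IsParam _ φ b) (hψ : IsParam _ ψ b') {t m t' m' : ℤ} (hD : t ^ 2 < 4 * m)
    (hD' : t' ^ 2 < 4 * m') (hK : IsSquare ((4 * m - t ^ 2) * (4 * m' - t' ^ 2)))
    {ν : R2 N} {ν' : R2 N'} {R R' : Finset Z2} {z z' : Z2 → ℍ} (h : IsHeegSystem N t m ν R z)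
    (h' : IsHeegSystem N' t' m' ν' R' z') :
    ∃ c : ℕ, 0 < c ∧
      c • ∑ w ∈ R, ∑ w' ∈ R', symb b b' (φ (z w)) (ψ (z' w')) ∈ ratTrivial₂ _ _ := by
  by_contra hne
  obtain ⟨f, hf, hz⟩ := exists_functional _ _ hne
  obtain ⟨hs, hl, hl'⟩ := hP N N' n n' k k' Φ Ψ φ b ψ b' f (by omega) (by omega) hφ hψ hf
  apply hz
  simp only [map_sum]
  exact hH _ hs N N' hN hN' hl hl' t m t' m' hD hD' hK ν ν' R R' z z' h h'

end

end Pool.Agent.P.MP_b8021b_nt.CM
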