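import Pool.Agent.P.MP_b8021b_nt.CM.Heeg0

/-! Products of Heegner divisors. -/

namespace Pool.Agent.P.MP_b8021b_nt.CM

open Complex hiding Gamma
open UpperHalfPlane hiding I
open MeasureTheory CongruenceSubgroup Filter
open scoped Real MatrixGroups ModularForm Topology ComplexConjugate Modular

noncomputable section

namespace HeegP

variable {N N' : ℕ} {t n t' n' : ℤ} {ν : R2 N} {ν' : R2 N'} {w v : Z2}

theorem castZ_trace (Y : Z2) : (castZ Y).trace = (Y.trace : ℚ) := by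
  simp [Matrix.trace_fin_two, castZ_apply]

theorem heeg_ell (hD : t ^ 2 < 4 * n) (h : Heeg N t n ν w) : Ell (castZ w) := by
  rw [Ell, castZ_trace, castZ_det, h.1, h.2.1]; exact_mod_cast hD

theorem heeg_det (hD : t ^ 2 < 4 * n) (h : Heeg N t n ν w) : (castZ w).det ≠ 0 :=
  (heeg_ell hD h).det_pos.ne'

theorem heeg_conj (hD : t ^ 2 < 4 * n) (h : Heeg N t n ν w) {δ : SL} (hδ : δ ∈ Gamma N)
    (e : w * δ.1 = δ.1 * v) : Heeg N t n ν v := by
  have i1 : (δ⁻¹).1 * δ.1 = 1 := by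
    rw [← Matrix.SpecialLinearGroup.coe_mul, inv_mul_cancel]; rfl
  have i2 : δ.1 * (δ⁻¹).1 = 1 := by
    rw [← Matrix.SpecialLinearGroup.coe_mul, mul_inv_cancel]; rfl
  have e1 : v = (δ⁻¹).1 * w * δ.1 := by rw [mul_assoc, e, ← mul_assoc, i1, one_mul]
  refine ⟨?_, ?_, ?_, ?_⟩
  · rw [e1, Matrix.trace_mul_cycle, i2, one_mul, h.1]
  · rw [e1, Matrix.det_mul, Matrix.det_mul, δ.det_coe, (δ⁻¹).det_coe, h.2.1]; ring
  · have := pos_conj (y := castZ (δ⁻¹).1) (w := castZ w) (w' := castZ v)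
      (by rw [det_castZ_SL]; exact one_pos) (heeg_ell hD h)
      (by rw [castZ_apply]; exact_mod_cast h.2.2.1)
      (by rw [← castZ_mul, ← castZ_mul, e1, mul_assoc _ δ.1, i2, mul_one])
    rw [castZ_apply] at this
    exact_mod_cast this
  · have e2 := congrArg (red N) e
    rw [red_mul, red_mul, (mem_Gamma_iff_red N δ).1 hδ, mul_one, one_mul] at e2
    exact e2.symm.trans h.2.2.2

theorem conj_iff {Y Z : GQ} (hY : Y.1 = castZ w) (hZ : Z.1 = castZ v) (δ : SL) :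
    iota δ * Z * (iota δ)⁻¹ = Y ↔ w * δ.1 = δ.1 * v := by
  rw [mul_inv_eq_iff_eq_mul, Units.ext_iff]
  simp only [Units.val_mul, iota_val, hY, hZ, ← castZ_mul, castZ_injective.eq_iff]
  exact eq_comm

theorem point_eq (hD : t ^ 2 < 4 * n) (h : Heeg N t n ν w) (z : ℍ) :
    Sends w (z, z) ↔ z = fix (castZ w) := by
  have he := heeg_ell hD h
  have := he.det_pos
  rw [castZ_det] at this
  rw [FinalP.sends_iff (by exact_mod_cast this), he.act_eq_iff]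

theorem rigid (hN : 3 ≤ N) (hD : t ^ 2 < 4 * n) {R : Finset Z2} {z : Z2 → ℍ}
    (h : IsHeegSystem N t n ν R z) (hw : w ∈ R) (hv : v ∈ R) {δ : SL} (hδ : δ ∈ Gamma N)
    (e : w * δ.1 = δ.1 * v) : w = v ∧ δ = 1 := by
  have h1 := (h.1 w hw).1
  have e1 : w = v := (h.2 w h1).unique ⟨hw, 1, one_mem _, by simp⟩ ⟨hv, δ, hδ, e⟩
  subst e1
  refine ⟨rfl, Gamma_free hN hδ (τ := fix (castZ w)) ?_⟩
  rw [← act_SL]
  exact act_fix (heeg_ell hD h1) (by rw [det_castZ_SL]; exact one_ne_zero)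
    (by rw [← castZ_mul, ← castZ_mul, e])

/-- `k (2 w - t)` -/
def aff (k t : ℤ) (w : Z2) : M2 := (2 * k : ℚ) • castZ w + (-(k * t) : ℚ) • (1 : M2)

theorem aff_tl {k : ℤ} (hk : 0 < k) (h : Heeg N t n ν w) :
    TL ((k : ℚ) ^ 2 * (4 * n - t ^ 2)) (aff k t w) := by
  obtain ⟨h1, h2, h3, -⟩ := h
  subst h1 h2
  refine ⟨?_, ?_, ?_⟩
  · simp [aff, Matrix.trace_fin_two, castZ_apply]; ring
  · simp [aff, Matrix.trace_fin_two, Matrix.det_fin_two, castZ_apply]; ring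
  · have : (0 : ℚ) < w 1 0 := by exact_mod_cast h3
    have : (0 : ℚ) < k := by exact_mod_cast hk
    simp only [aff, Matrix.add_apply, Matrix.smul_apply, castZ_apply, smul_eq_mul]
    simp only [ne_eq, one_ne_zero, not_false_eq_true, Matrix.one_apply_ne, mul_zero, add_zero]
    positivity

theorem aff_fix {k : ℤ} (hk : 0 < k) (he : Ell (castZ w)) : fix (aff k t w) = fix (castZ w) :=
  he.fix_affine (by positivity) _

theorem aff_mul (k t : ℤ) {Y : M2} (e : castZ w * Y = Y * castZ v) :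
    aff k t w * Y = Y * aff k t v := by
  simp [aff, add_mul, mul_add, e]

theorem aff_mul' {k : ℤ} (hk : 0 < k) (t : ℤ) {Y : M2} (e : aff k t w * Y = Y * aff k t v) :
    castZ w * Y = Y * castZ v := by
  simp only [aff, add_mul, mul_add, smul_mul_assoc, mul_smul_comm, one_mul, mul_one,
    add_left_inj] at e
  exact smul_right_injective _ (by positivity) e

theorem dmean_reps' {G X : Type} [Group G] {ρ : G →* Equiv.Perm X} {Γ Γ0 : Subgroup G}
    {W : X → ℂ} (hΓ : FI Γ Γ0) (hw : Inv ρ Γ W) (R : Finset X)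
    (h1 : ∀ x, W x ≠ 0 → ∃ z ∈ R, ∃ γ ∈ Γ, ρ γ z = x)
    (h2 : ∀ z ∈ R, ∀ z' ∈ R, ∀ γ ∈ Γ, ρ γ z = z' → γ = 1) (h0 : dmean ρ Γ0 W = 0) :
    ∑ z ∈ R, W z = 0 := by
  rw [(dmean_reps hΓ hw R (fun x hx => ?_) (fun x hx γ hγ e => ?_)).2, div_eq_zero_iff] at h0
  · exact h0.resolve_right (by exact_mod_cast hΓ.2)
  · obtain ⟨z, hz, γ, hγ, e⟩ := h1 x hx
    refine ⟨z, ⟨hz, γ, hγ, e⟩, ?_⟩
    rintro z' ⟨hz', γ', hγ', e'⟩
    have e1 : ρ (γ⁻¹ * γ') z' = z := by rw [DM.act_mul, e', ← e, DM.act_inv]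
    rw [← e1, h2 z' hz' z hz _ (mul_mem (inv_mem hγ) hγ') e1]
    simp
  · obtain ⟨z, hz, δ, hδ, rfl⟩ := h1 x hx
    have := h2 z hz z hz (δ⁻¹ * γ * δ) (mul_mem (mul_mem (inv_mem hδ) hγ) hδ)
      (by rw [DM.act_mul, DM.act_mul, e, DM.act_inv])
    rw [mul_assoc, inv_mul_eq_one] at this
    exact right_eq_mul.1 this

theorem isInt_adj {Y : M2} (h : IsInt Y) : IsInt Y.adjugate := by
  rw [isInt_M2'] at *
  intro i j
  fin_cases i <;> fin_cases j <;> simp [Matrix.adjugate_fin_two] <;>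
    first | exact h _ _ | exact (h _ _).neg

theorem adj_add (Z K : M2) (c : ℚ) : (Z + c • K).adjugate = Z.adjugate + c • K.adjugate := by
  ext i j
  fin_cases i <;> fin_cases j <;> simp [Matrix.adjugate_fin_two] <;> ring

theorem shift {L : ℕ} {P : Z2 → Prop} (hP : ∀ x k : Z2, P x → P (x + (L : ℤ) • k)) {X K : M2}
    (hK : IsInt K) (h : ∃ x, castZ x = X ∧ P x) : ∃ x, castZ x = X + (L : ℚ) • K ∧ P x := by
  obtain ⟨x, rfl, h⟩ := h
  obtain ⟨k, rfl⟩ := (isInt_M2 _).1 hK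
  exact ⟨_, by rw [castZ_add, castZ_smul]; simp, hP x k h⟩

open Classical in
theorem sb_pair {L j D : ℕ} (hL : 0 < L) (hj : 0 < j) (hD : 0 < D) (c : ℤ) (b : ℚ)
    {P P' : Z2 → Prop} (hP : ∀ x k : Z2, P x → P (x + (L : ℤ) • k))
    (hP' : ∀ x k : Z2, P' x → P' (x + (L : ℤ) • k)) :
    SB (unc fun Y Z : M2 => if IsInt Y ∧ IsInt Z ∧
      (∃ x, castZ x = (j : ℚ)⁻¹ • (Z.adjugate * Y) ∧ P x) ∧
      ∃ x, castZ x = ((c : ℚ) / (D * j)) • (Y * Z.adjugate) + b • (1 : M2) ∧ P' x then (1 : ℂ)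
      else 0) := by
  have hj' : (j : ℚ) ≠ 0 := by positivity
  have hD' : (D : ℚ) ≠ 0 := by positivity
  let Q : M2 × M2 → Prop := fun p => IsInt p.1 ∧ IsInt p.2 ∧
    (∃ x, castZ x = (j : ℚ)⁻¹ • (p.2.adjugate * p.1) ∧ P x) ∧
    ∃ x, castZ x = ((c : ℚ) / (D * j)) • (p.1 * p.2.adjugate) + b • (1 : M2) ∧ P' x
  have key : ∀ p k : M2 × M2, IsInt k → Q p → Q (p + ((j * D * L : ℕ) : ℚ) • k) := by
    rintro ⟨Y, Z⟩ ⟨K, K'⟩ ⟨hK, hK'⟩ ⟨hY, hZ, h1, h2⟩
    have hK : IsInt K := hK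
    have hK' : IsInt K' := hK'
    refine ⟨hY.add (hK.nsmul _), hZ.add (hK'.nsmul _), ?_, ?_⟩
    · convert shift hP ((((CycP.isInt_mul (isInt_adj hK') hY).add
        (CycP.isInt_mul (isInt_adj hZ) hK)).add
        ((CycP.isInt_mul (isInt_adj hK') hK).nsmul (j * D * L))).nsmul D) h1 using 4
      simp only [Prod.fst_add, Prod.snd_add, Prod.smul_fst, Prod.smul_snd, adj_add, add_mul,
        mul_add, smul_mul_assoc, mul_smul_comm]
      match_scalars <;> field_simp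
    · convert shift hP' ((((CycP.isInt_mul hY (isInt_adj hK')).add
        (CycP.isInt_mul hK (isInt_adj hZ))).add
        ((CycP.isInt_mul hK (isInt_adj hK')).nsmul (j * D * L))).zsmul c) h2 using 4
      simp only [Prod.fst_add, Prod.snd_add, Prod.smul_fst, Prod.smul_snd, adj_add, add_mul,
        mul_add, smul_mul_assoc, mul_smul_comm]
      match_scalars <;> field_simp
  refine ⟨j * D * L, by positivity, fun p k hk => ?_, fun p hp => ?_⟩
  · refine if_congr (⟨fun h => ?_, key p k hk⟩ : Q _ ↔ Q p) rfl rfl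
    simpa using key _ _ hk.neg h
  · have h : Q p := by
      by_contra h
      exact hp (if_neg h)
    exact IsInt.nsmul ((isInt_prod p).2 ⟨h.1, h.2.1⟩) _

theorem int_iff {Y Z : M2} {j D c : ℤ} (hj : 0 < j) (hD : 0 < D) (hZ : Z.det = j) (t t' : ℤ)
    (hY : Y = Z * castZ w) :
    castZ v = ((c : ℚ) / (D * j)) • (Y * Z.adjugate) +
      (((D : ℚ) * t' - c * t) / (2 * D)) • (1 : M2) ↔ Z * aff c t w = aff D t' v * Z := by
  have hj' : (j : ℚ) ≠ 0 := by positivity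
  have hD' : (D : ℚ) ≠ 0 := by positivity
  simp only [aff, mul_add, add_mul, smul_mul_assoc, mul_smul_comm, ← hY, one_mul, mul_one]
  constructor
  · intro h
    rw [h]
    simp only [add_mul, smul_mul_assoc, mul_assoc, Matrix.adjugate_mul, hZ, mul_smul_comm, one_mul,
      mul_one]
    match_scalars <;> (field_simp; try ring)
  · intro h
    have h1 := congrArg (fun X => ((2 * D * j : ℚ))⁻¹ • (X * Z.adjugate)) h
    simp only [add_mul, smul_mul_assoc, mul_assoc, Matrix.mul_adjugate, hZ, mul_smul_comm,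
      mul_one] at h1
    rw [← sub_eq_zero] at h1 ⊢
    rw [← neg_eq_zero, ← h1]
    match_scalars <;> (field_simp; try ring)

/-- the pairs that are counted -/
def Good (c t n t' n' : ℤ) (ν : R2 N) (ν' : R2 N') (Y Z : M2) : Prop :=
  ∃ w w', Heeg N t n ν w ∧ Heeg N' t' n' ν' w' ∧ IsInt Z ∧
    Z * aff c t w = aff (4 * n - t ^ 2) t' w' * Z ∧ Y = Z * castZ w

variable {c : ℤ}

theorem Good.act (hD : t ^ 2 < 4 * n) (hD' : t' ^ 2 < 4 * n') {Y Z : M2}
    (h : Good c t n t' n' ν ν' Y Z) {g : GQ × GQ} (hg : g ∈ (Gam N).prod (Gam N')) :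
    Good c t n t' n' ν ν' (g.2.1 * Y * (g.1⁻¹).1) (g.2.1 * Z * (g.1⁻¹).1) := by
  obtain ⟨_, _⟩ := g
  obtain ⟨⟨δ, hδ, rfl⟩, ⟨δ', hδ', rfl⟩⟩ := hg
  obtain ⟨w, w', h1, h2, h3, h4, rfl⟩ := h
  have i1 : ∀ δ : SL, (δ⁻¹).1 * δ.1 = 1 := fun δ => by
    rw [← Matrix.SpecialLinearGroup.coe_mul, inv_mul_cancel]; rfl
  have e1 : ∀ (δ : SL) (w : Z2), w * (δ⁻¹).1 = (δ⁻¹).1 * (δ.1 * w * (δ⁻¹).1) := fun δ w => by
    rw [← mul_assoc, ← mul_assoc, i1, one_mul]
  have e2 : castZ w * castZ (δ⁻¹).1 = castZ (δ⁻¹).1 * castZ (δ.1 * w * (δ⁻¹).1) := by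
    rw [← castZ_mul, ← castZ_mul, ← e1]
  have e3 : castZ (δ'.1 * w' * (δ'⁻¹).1) * castZ δ'.1 = castZ δ'.1 * castZ w' := by
    rw [← castZ_mul, ← castZ_mul, mul_assoc, i1, mul_one]
  simp only [← map_inv, iota_val]
  refine ⟨δ.1 * w * (δ⁻¹).1, δ'.1 * w' * (δ'⁻¹).1, heeg_conj hD h1 (inv_mem hδ) (e1 _ _),
    heeg_conj hD' h2 (inv_mem hδ') (e1 _ _), CycP.isInt_mul (CycP.isInt_mul
      ((isInt_M2 _).2 ⟨_, rfl⟩) h3) ((isInt_M2 _).2 ⟨_, rfl⟩), ?_, ?_⟩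
  · rw [mul_assoc _ _ (aff _ _ _), ← aff_mul c t e2, ← mul_assoc, ← mul_assoc, ← mul_assoc,
      aff_mul _ t' e3, mul_assoc _ Z, h4, ← mul_assoc]
  · rw [mul_assoc _ _ (castZ (_ * _ * _)), ← e2]
    simp only [mul_assoc]

open Classical in
theorem aS_good (hM : S_Main) (hO : S_Ori) {s : ℍ → ℍ → ℂ} (hs : InS s) (hN : 0 < N)
    (hN' : 0 < N') (hD : t ^ 2 < 4 * n) (hc : 0 < c)
    (hcc : (4 * n - t ^ 2) * (4 * n' - t' ^ 2) = c * c) {j : ℕ} (hj : 0 < j) :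
    aS s (j * n) (j * t) j (fun Y Z => if Good c t n t' n' ν ν' Y Z then 1 else 0) = 0 := by
  obtain ⟨M, hM0, hO⟩ := hO t n hD
  obtain ⟨D, hD1⟩ := Int.eq_ofNat_of_zero_le (show 0 ≤ 4 * n - t ^ 2 by linarith)
  have hD0 : (0 : ℤ) < D := by rw [← hD1]; linarith
  have hj0 : (0 : ℤ) < j := by exact_mod_cast hj
  have hj' : (j : ℚ) ≠ 0 := by positivity
  have hred : ∀ (K L : ℕ) (x k : Z2), K ∣ L → red K (x + (L : ℤ) • k) = red K x := by
    rintro K _ x k ⟨m, rfl⟩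
    exact (red_eq_iff _ _ _).2 ⟨(m : ℤ) • k, by rw [smul_smul]; simp⟩
  have h0 := hM s hs _ (sb_pair (L := N * M * N') (D := D) (by positivity) hj (by exact_mod_cast hD0)
    c (((D : ℚ) * t' - c * t) / (2 * D))
    (P := fun x => red N x = ν ∧ ∃ y : Z2, y.trace = t ∧ y.det = n ∧ 0 < y 1 0 ∧ red M y = red M x)
    (P' := fun x => red N' x = ν') (fun x k h => ?_) (fun x k h => ?_)) (j * n) (j * t) j
  rotate_left
  · rwa [hred N _ _ _ ⟨M * N', mul_assoc _ _ _⟩, hred M _ _ _ ⟨N * N', by ring⟩]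
  · rwa [hred N' _ _ _ (dvd_mul_left _ _)]
  refine (aS_congr fun Y Z e1 e2 e3 => if_congr ?_ rfl rfl).trans h0
  constructor
  · rintro ⟨w, w', h1, h2, h3, h4, h5⟩
    refine ⟨h5 ▸ CycP.isInt_mul h3 ((isInt_M2 _).2 ⟨_, rfl⟩), h3,
      ⟨w, ?_, h1.2.2.2, w, h1.1, h1.2.1, h1.2.2.1, rfl⟩, w', ?_, h2.2.2.2⟩
    · rw [h5, ← mul_assoc, Matrix.adjugate_mul, e3, smul_mul_assoc, one_mul, smul_smul,
        inv_mul_cancel₀ hj', one_smul]
    · exact (int_iff hj0 hD0 e3 t t' h5).2 (hD1 ▸ h4)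
  · rintro ⟨-, h3, ⟨w, a1, a2, y, a3, a4, a5, a6⟩, w', b1, b2⟩
    have h5 : Y = Z * castZ w := by
      rw [a1, mul_smul_comm, ← mul_assoc, Matrix.mul_adjugate, e3, smul_mul_assoc, one_mul,
        smul_smul, inv_mul_cancel₀ hj', one_smul]
    have h4 := (int_iff hj0 hD0 e3 t t' h5).1 b1
    have c1 : w.trace = t := by
      rw [h5, CycP.bil_left, e3, castZ_trace] at e2
      exact_mod_cast mul_left_cancel₀ hj' e2
    have c2 : w.det = n := by
      rw [h5, Matrix.det_mul, e3, castZ_det] at e1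
      exact_mod_cast mul_left_cancel₀ hj' e1
    have h1 : Heeg N t n ν w := ⟨c1, c2, hO y w a3 a4 c1 c2 a6 a5, a2⟩
    have hA := aff_tl hc h1
    have hZ : 0 < Z.det := by rw [e3]; positivity
    have hc' : (0 : ℚ) < c := by exact_mod_cast hc
    have hD2 : (0 : ℚ) < D := by exact_mod_cast hD0
    have hD3 : 4 * (n : ℚ) - t ^ 2 = D := by exact_mod_cast hD1
    have hcc' : (D : ℚ) * (4 * n' - t' ^ 2) = c * c := by rw [← hD3]; exact_mod_cast hcc
    have d1 := pos_conj hZ (hA.ell (by rw [hD3]; positivity)) hA.2.2 h4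
    have d2 : (aff D t' w').det = (aff c t w).det := by
      have := congrArg Matrix.det h4
      rw [Matrix.det_mul, Matrix.det_mul, mul_comm] at this
      exact (mul_right_cancel₀ hZ.ne' this).symm
    have d3 : (aff D t' w').trace = (aff c t w).trace := by
      have := congrArg (fun X => (X * Z.adjugate).trace) h4
      simp only [mul_assoc (aff _ _ _), Matrix.trace_mul_cycle Z, Matrix.mul_adjugate,
        Matrix.adjugate_mul, smul_mul_assoc, mul_smul_comm, one_mul, mul_one, Matrix.trace_smul,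
        smul_eq_mul] at this
      exact (mul_left_cancel₀ hZ.ne' this).symm
    rw [hA.2.1, hD3] at d2
    rw [hA.1] at d3
    simp [aff, Matrix.trace_fin_two, Matrix.det_fin_two, castZ_apply] at d1 d2 d3
    have c3 : (w' 0 0 : ℚ) + w' 1 1 = t' := by
      apply mul_left_cancel₀ (show (2 * D : ℚ) ≠ 0 by positivity)
      linear_combination d3
    have c4 : (w' 0 0 : ℚ) * w' 1 1 - w' 0 1 * w' 1 0 = n' := by
      apply mul_left_cancel₀ (show (4 * D ^ 2 : ℚ) ≠ 0 by positivity)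
      linear_combination d2 - D * hcc' + 2 * D ^ 2 * t' * c3
    refine ⟨w, w', h1, ⟨?_, ?_, ?_, b2⟩, h3, hD1 ▸ h4, h5⟩
    · rw [Matrix.trace_fin_two]; exact_mod_cast c3
    · rw [Matrix.det_fin_two]; exact_mod_cast c4
    · exact_mod_cast (mul_pos_iff_of_pos_left (by positivity)).1 d1

theorem count (hM : S_Main) (hO : S_Ori) {s : ℍ → ℍ → ℂ} (hs : InS s) (hN : 3 ≤ N)
    (hN' : 3 ≤ N') (l1 : ∀ σ, LevU N fun τ => s τ σ) (l2 : ∀ τ, LevU N' (s τ))
    (hD : t ^ 2 < 4 * n) (hD' : t' ^ 2 < 4 * n') (hc : 0 < c)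
    (hcc : (4 * n - t ^ 2) * (4 * n' - t' ^ 2) = c * c) {R R' : Finset Z2} {z z' : Z2 → ℍ}
    (hR : IsHeegSystem N t n ν R z) (hR' : IsHeegSystem N' t' n' ν' R' z') (q : ℚ) :
    ∑ o ∈ R ×ˢ R', ((IT (aff c t o.1) (aff (4 * n - t ^ 2) t' o.2) q).ncard : ℂ) *
      s (z o.1) (z' o.2) = 0 := by
  classical
  by_cases hq : ∃ j : ℕ, 0 < j ∧ q = j
  swap
  · refine Finset.sum_eq_zero fun o _ => ?_
    rw [Set.eq_empty_of_forall_notMem (s := IT _ _ q)]
    · simp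
    rintro Y ⟨h1, -, h2, h3⟩
    obtain ⟨Z, rfl⟩ := (isInt_M2 _).1 h1
    rw [castZ_det] at h2 h3
    have h4 : 0 < Z.det := by exact_mod_cast h2
    obtain ⟨j, hj⟩ := Int.eq_ofNat_of_zero_le h4.le
    exact hq ⟨j, by omega, by rw [← h3, hj]; simp⟩
  obtain ⟨j, hj, rfl⟩ := hq
  have hD0 : 0 < 4 * n - t ^ 2 := by linarith
  have hj' : (0 : ℚ) < j := by exact_mod_cast hj
  have hc' : (0 : ℚ) < c := by exact_mod_cast hc
  have hDq : (t : ℚ) ^ 2 < 4 * n := by exact_mod_cast hD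
  have hell : ∀ w, Heeg N t n ν w → Ell (aff c t w) := fun w hw =>
    (aff_tl hc hw).ell (mul_pos (by positivity) (by linarith))
  let I : Z2 × Z2 → Finset M2 := fun o => if h : o.1 ∈ R then
    (finite_IT (hell _ (hR.1 _ h).1) (aff (4 * n - t ^ 2) t' o.2) j).toFinset else ∅
  have hI : ∀ o : Z2 × Z2, o.1 ∈ R → ∀ Y, Y ∈ I o ↔
      Y ∈ IT (aff c t o.1) (aff (4 * n - t ^ 2) t' o.2) j := fun o h Y => by
    simp only [I, dif_pos h, Set.Finite.mem_toFinset]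
  let up : (Σ _ : Z2 × Z2, M2) → GQ × GQ := fun x => (toG x.2 * toG (castZ x.1.1), toG x.2)
  let T := (R ×ˢ R').sigma I
  have hT : ∀ x ∈ T, x.1.1 ∈ R ∧ x.1.2 ∈ R' ∧
      x.2 ∈ IT (aff c t x.1.1) (aff (4 * n - t ^ 2) t' x.1.2) j := fun x hx => by
    obtain ⟨h1, h2⟩ := Finset.mem_sigma.1 hx
    obtain ⟨h3, h4⟩ := Finset.mem_product.1 h1
    exact ⟨h3, h4, (hI _ h3 _).1 h2⟩
  have rig : ∀ x ∈ T, ∀ y ∈ T, ∀ γ ∈ (Gam N).prod (Gam N'), pairA γ (up x) = up y →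
      γ = 1 ∧ x = y := by
    rintro ⟨⟨v, v'⟩, Y⟩ hx ⟨⟨w, w'⟩, Z⟩ hy ⟨_, _⟩ ⟨⟨δ, hδ, rfl⟩, ⟨δ', hδ', rfl⟩⟩ e
    obtain ⟨a1, a2, -, a3, a4, -⟩ := hT _ hx
    obtain ⟨b1, b2, -, b3, b4, -⟩ := hT _ hy
    have e1 : iota δ' * (toG Y * toG (castZ v)) * (iota δ)⁻¹ = toG Z * toG (castZ w) :=
      congrArg Prod.fst e
    have e2 : iota δ' * toG Y * (iota δ)⁻¹ = toG Z := congrArg Prod.snd e
    have e3 : iota δ * toG (castZ v) * (iota δ)⁻¹ = toG (castZ w) := by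
      apply mul_left_cancel (a := toG Z)
      rw [← e1, ← e2]
      group
    obtain ⟨rfl, rfl⟩ := rigid hN hD hR b1 a1 hδ ((conj_iff (toG_val (heeg_det hD (hR.1 _ b1).1))
      (toG_val (heeg_det hD (hR.1 _ a1).1)) δ).1 e3)
    rw [map_one, inv_one, mul_one] at e2
    have e4 : castZ δ'.1 * Y = Z := by
      have := congrArg Units.val e2
      rwa [Units.val_mul, toG_val a4.ne', toG_val b4.ne'] at this
    have e5 : aff (4 * n - t ^ 2) t' w' * castZ δ'.1 = castZ δ'.1 * aff (4 * n - t ^ 2) t' v' := by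
      apply (Units.mul_left_inj (toG Y)).1
      simp only at a3 b3
      rw [toG_val a4.ne', mul_assoc, mul_assoc, e4, ← a3, ← b3, ← mul_assoc, e4]
    have e6 := aff_mul' hD0 _ e5
    rw [← castZ_mul, ← castZ_mul, castZ_injective.eq_iff] at e6
    obtain ⟨rfl, rfl⟩ := rigid hN' hD' hR' b2 a2 hδ' e6
    refine ⟨by simp only [map_one]; rfl, ?_⟩
    rw [← e4]
    simp [castZ_one]
  have h0 := dmean_reps' (fi_Gam2 (by omega : 0 < N) (by omega : 0 < N')) ?_ (T.image up) ?_ ?_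
    (aS_good (ν := ν) (ν' := ν') hM hO hs (by omega) (by omega) hD hc hcc hj)
  · rw [Finset.sum_image fun x hx y hy e => (rig x hx y hy 1 (one_mem _) (by simpa using e)).2,
      Finset.sum_sigma] at h0
    rw [← h0]
    refine Finset.sum_congr rfl fun o ho => ?_
    obtain ⟨h3, h4⟩ := Finset.mem_product.1 ho
    rw [Finset.sum_congr rfl (g := fun _ => s (z o.1) (z' o.2)), Finset.sum_const, nsmul_eq_mul,
      ← Set.ncard_coe_finset, show (I o : Set M2) = _ from Set.ext (hI o h3)]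
    intro Y hY
    obtain ⟨a1, a2, a3, a4⟩ := (hI o h3 Y).1 hY
    have b1 := (hR.1 _ h3).1
    have b2 := (hR'.1 _ h4).1
    have v1 : (toG Y * toG (castZ o.1)).1 = Y * castZ o.1 := by
      rw [Units.val_mul, toG_val a3.ne', toG_val (heeg_det hD b1)]
    have hC : CycP.Cnd (j * n) (j * t) j (up ⟨o, Y⟩) := by
      refine ⟨hj', by nlinarith [mul_pos hj' hj'], ?_, ?_, ?_⟩
      · rw [v1, Matrix.det_mul, a4, castZ_det, b1.2.1]
      · rw [v1, toG_val a3.ne', CycP.bil_left, a4, castZ_trace, b1.1]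
      · rw [toG_val a3.ne', a4]
    rw [CycP.aW_pos hC]
    simp only [up, inv_mul_cancel_left, v1, toG_val a3.ne', toG_val (heeg_det hD b1)]
    rw [if_pos ⟨_, _, b1, b2, a1, a2, rfl⟩, one_mul, (point_eq hD b1 _).1 (hR.1 _ h3).2,
      (point_eq hD' b2 _).1 (hR'.1 _ h4).2, ← aff_fix (t := t') hD0 (heeg_ell hD' b2),
      ← act_fix (hell _ b1) a3.ne' a2, aff_fix hc (heeg_ell hD b1)]
    rfl
  · intro g hg p
    have := CycP.aW_act (s := s) g one_pos (by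
      obtain ⟨⟨δ, -, h1⟩, ⟨δ', -, h2⟩⟩ := hg
      rw [← h1, ← h2, iota_val, iota_val, det_castZ_SL, det_castZ_SL, one_mul])
      (fun Y Z => if Good c t n t' n' ν ν' Y Z then 1 else 0) (j * n) (j * t) j p
    simp only [one_mul] at this
    rw [this]
    congr 1
    · funext τ σ
      exact (CycP.levU_act (l1 _) hg.1 τ).trans (CycP.levU_act (l2 τ) hg.2 σ)
    · funext Y Z
      refine if_congr ⟨fun h => ?_, fun h => h.act hD hD' hg⟩ rfl rfl
      simpa [mul_assoc] using h.act hD hD' (inv_mem hg)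
  · intro p hp
    have hC : CycP.Cnd (j * n) (j * t) j p := by
      by_contra h
      exact hp (CycP.aW_neg h _)
    rw [CycP.aW_pos hC] at hp
    have hG : Good c t n t' n' ν ν' p.1.1 p.2.1 := by
      by_contra h
      rw [if_neg h, zero_mul] at hp
      exact hp rfl
    obtain ⟨w, w', h1, h2, h3, h4, h5⟩ := hG
    obtain ⟨v, ⟨a1, δ, hδ, a2⟩, -⟩ := hR.2 w h1
    obtain ⟨v', ⟨b1, δ', hδ', b2⟩, -⟩ := hR'.2 w' h2
    have a3 := congrArg castZ a2
    have b3 := congrArg castZ b2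
    rw [castZ_mul, castZ_mul] at a3 b3
    let Y := (iota δ')⁻¹ * p.2 * iota δ
    have hY : Y.1 = castZ (δ'⁻¹).1 * p.2.1 * castZ δ.1 := by
      simp only [Y, ← map_inv, Units.val_mul, iota_val]
    have hd : Y.1.det = j := by
      rw [hY, Matrix.det_mul, Matrix.det_mul, det_castZ_SL, det_castZ_SL, hC.2.2.2.2]; ring
    refine ⟨up ⟨(v, v'), Y.1⟩, Finset.mem_image_of_mem _ (Finset.mem_sigma.2
      ⟨Finset.mem_product.2 ⟨a1, b1⟩, (hI _ a1 _).2 ⟨?_, ?_, hd ▸ hj', hd⟩⟩),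
      (iota δ, iota δ'), ⟨⟨δ, hδ, rfl⟩, ⟨δ', hδ', rfl⟩⟩, ?_⟩
    · rw [hY]
      exact CycP.isInt_mul (CycP.isInt_mul ((isInt_M2 _).2 ⟨_, rfl⟩) h3) ((isInt_M2 _).2 ⟨_, rfl⟩)
    · apply (Units.mul_right_inj (iota δ')).1
      have e : (iota δ').1 * Y.1 = p.2.1 * castZ δ.1 := by
        rw [← Units.val_mul, ← iota_val, ← Units.val_mul]
        congr 1
        simp only [Y]
        group
      rw [← mul_assoc, ← mul_assoc, e, iota_val, ← aff_mul _ t' b3, mul_assoc, mul_assoc,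
        ← iota_val δ', e, ← aff_mul c t a3, ← mul_assoc, ← mul_assoc, h4]
    · have e1 := (conj_iff (toG_val (heeg_det hD h1)) (toG_val (heeg_det hD (hR.1 _ a1).1)) δ).2 a2
      have e2 : p.1 = p.2 * toG (castZ w) :=
        Units.ext (by rw [Units.val_mul, toG_val (heeg_det hD h1), h5])
      simp only [up, toG_self, CycP.pairA_eq]
      refine Prod.ext ?_ ?_
      · simp only [e2, ← e1, Y]
        group
      · simp only [Y]
        group
  · intro x hx y hy γ hγ e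
    obtain ⟨x, hx', rfl⟩ := Finset.mem_image.1 hx
    obtain ⟨y, hy', rfl⟩ := Finset.mem_image.1 hy
    exact (rig x hx' y hy' γ hγ e).1

end HeegP

open HeegP

theorem heegS (hM : S_Main) (hO : S_Ori) (hT : S_Theta) : S_Heeg := by
  intro s hs N N' hN hN' l1 l2 t n t' n' hD hD' hsq ν ν' R R' z z' hR hR'
  obtain ⟨c, hc, hcc⟩ : ∃ c : ℤ, 0 < c ∧ (4 * n - t ^ 2) * (4 * n' - t' ^ 2) = c * c := by
    obtain ⟨c, h⟩ := hsq
    refine ⟨|c|, abs_pos.2 ?_, by rw [h, abs_mul_abs_self]⟩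
    rintro rfl
    nlinarith [mul_pos (sub_pos.2 hD) (sub_pos.2 hD')]
  have hD0 : 0 < 4 * n - t ^ 2 := by linarith
  have hc' : (0 : ℚ) < c := by exact_mod_cast hc
  have hDq : (t : ℚ) ^ 2 < 4 * n := by exact_mod_cast hD
  have hcc' : (4 * (n : ℚ) - t ^ 2) * (4 * n' - t' ^ 2) = c * c := by exact_mod_cast hcc
  rw [← Finset.sum_product', ← Finset.sum_coe_sort]
  refine theta hT (d := (c : ℚ) ^ 2 * (4 * n - t ^ 2)) (mul_pos (by positivity) (by linarith))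
    (fun o => aff c t o.1.1) (fun o => aff (4 * n - t ^ 2) t' o.1.2) _
    (fun o => aff_tl hc (hR.1 _ (Finset.mem_product.1 o.2).1).1) (fun o => ?_) fun q => ?_
  · convert aff_tl hD0 (hR'.1 _ (Finset.mem_product.1 o.2).2).1 using 1
    push_cast
    linear_combination -(4 * (n : ℚ) - t ^ 2) * hcc'
  · exact (Finset.sum_coe_sort (R ×ˢ R') fun o => ((IT (aff c t o.1) (aff (4 * n - t ^ 2) t' o.2)
      q).ncard : ℂ) * s (z o.1) (z' o.2)).trans (count hM hO hs hN hN' l1 l2 hD hD' hc hcc hR hR' q)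

theorem heegEx : S_HeegEx := by
  intro N hN t n hD ν
  have hu : HasLev fun _ => (1 : ℂ) := ⟨1, one_pos, fun _ _ _ => rfl⟩
  obtain ⟨⟨R, -, hR⟩, -⟩ := (g1W_good hu ((lev_ind hN ν).sb hN) n).exists_reps (fi_Gam hN)
    fun γ hγ Y => by
      unfold g1W
      rw [CycP.conjA_val, ell_conj, det_conj, FinalP.ind_Gam hγ (inv_mem hγ)]
  have hv : ∀ w, Heeg N t n ν w → (toG (castZ w)).1 = castZ w := fun w hw =>
    toG_val (heeg_det hD hw)
  have hi : Set.InjOn (fun w => toG (castZ w)) {w | Heeg N t n ν w ∧ toG (castZ w) ∈ R} :=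
    fun v h w h' e => castZ_injective ((hv v h.1).symm.trans ((congrArg Units.val e).trans
      (hv w h'.1)))
  have hf : {w | Heeg N t n ν w ∧ toG (castZ w) ∈ R}.Finite :=
    Set.Finite.of_finite_image (R.finite_toSet.subset (by rintro _ ⟨w, h, rfl⟩; exact h.2)) hi
  refine ⟨hf.toFinset, fun w => fix (castZ w), fun w hw => ?_, fun w hw => ?_⟩
  · have h := (hf.mem_toFinset.1 hw).1
    exact ⟨h, (point_eq hD h _).2 rfl⟩
  · obtain ⟨Z, ⟨h1, _, ⟨δ, hδ, rfl⟩, h2⟩, h3⟩ := hR (toG (castZ w)) (by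
      unfold g1W
      rw [hv w hw, if_pos ⟨heeg_ell hD hw, by rw [castZ_det, hw.2.1]⟩, mul_one]
      exact FinalP.ind_ne_zero.2 ⟨w, rfl, hw.2.2.2⟩)
    have e1 : w * δ.1 = δ.1 * ((δ⁻¹).1 * w * δ.1) := by
      rw [← mul_assoc, ← mul_assoc, ← Matrix.SpecialLinearGroup.coe_mul, mul_inv_cancel]
      simp
    have h4 := heeg_conj hD hw hδ e1
    have key : ∀ v, Heeg N t n ν v → toG (castZ v) ∈ R → ∀ γ ∈ Gamma N, w * γ.1 = γ.1 * v →
        toG (castZ v) = Z := fun v a1 a2 γ hγ e =>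
      h3 _ ⟨a2, iota γ, ⟨γ, hγ, rfl⟩, (conj_iff (hv w hw) (hv v a1) γ).2 e⟩
    have h5 : toG (castZ ((δ⁻¹).1 * w * δ.1)) = Z := by
      have := (conj_iff (hv w hw) (hv _ h4) δ).2 e1
      rw [← h2, CycP.conjA_eq, mul_left_inj, mul_right_inj] at this
      exact this
    refine ⟨_, ⟨hf.mem_toFinset.2 ⟨h4, h5 ▸ h1⟩, δ, hδ, e1⟩, ?_⟩
    rintro v ⟨a1, γ, hγ, e⟩
    have a2 := hf.mem_toFinset.1 a1
    exact hi a2 ⟨h4, h5 ▸ h1⟩ ((key v a2.1 a2.2 γ hγ e).trans h5.symm)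

end

end Pool.Agent.P.MP_b8021b_nt.CM
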