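import Pool.Agent.P.MP_b8021b_nt.CM.Stmts2

/-! Package Q6: limits of tuples of modular functions in projective space. -/

namespace Pool.Agent.P.MP_b8021b_nt.CM

open Complex hiding Gamma
open UpperHalfPlane hiding I
open Filter
open scoped Real Topology LinearAlgebra.Projectivization

noncomputable section

namespace LimP

theorem eval_smul {σ : Type} {P : MvPolynomial σ ℂ} {d : ℕ} (h : P.IsHomogeneous d) (c : ℂ)
    (v : σ → ℂ) : MvPolynomial.eval (c • v) P = c ^ d * MvPolynomial.eval v P := by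
  rw [MvPolynomial.eval_eq, MvPolynomial.eval_eq, Finset.mul_sum]
  refine Finset.sum_congr rfl fun s hs => ?_
  have h1 : ∑ i ∈ s.support, s i = d := by
    have := h (MvPolynomial.mem_support_iff.1 hs)
    simpa [Finsupp.weight_apply, Finsupp.sum] using this
  simp only [Pi.smul_apply, smul_eq_mul, mul_pow, Finset.prod_mul_distrib,
    Finset.prod_pow_eq_pow_sum, h1]
  ring

theorem isLimit_of {n : ℕ} {Φ : Fin (n + 1) → ℍ → ℂ} {l : Filter ℍ} {c : ℍ → ℂ}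
    {v : Fin (n + 1) → ℂ} (hv : v ≠ 0) (h : ∀ i, Tendsto (fun τ => c τ * Φ i τ) l (𝓝 (v i))) :
    ∃ x, IsLimit Φ l x := by
  obtain ⟨a, ha⟩ := Projectivization.exists_smul_eq_mk_rep ℂ v hv
  refine ⟨Projectivization.mk ℂ v hv, fun τ => a * c τ, ?_⟩
  rw [← ha]
  refine tendsto_pi_nhds.2 fun i => ?_
  simpa [Units.smul_def, mul_assoc] using (h i).const_mul (a : ℂ)

theorem uniq (n : ℕ) (Φ : Fin (n + 1) → ℍ → ℂ) (l : Filter ℍ) [l.NeBot]
    (x y : ℙ ℂ (Fin (n + 1) → ℂ)) (hx : IsLimit Φ l x) (hy : IsLimit Φ l y) : x = y := by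
  obtain ⟨c, hc⟩ := hx
  obtain ⟨d, hd⟩ := hy
  have hc' := tendsto_pi_nhds.1 hc
  have hd' := tendsto_pi_nhds.1 hd
  have key : ∀ i j, x.rep i * y.rep j = x.rep j * y.rep i := fun i j =>
    tendsto_nhds_unique ((hc' i).mul (hd' j)) (((hc' j).mul (hd' i)).congr fun τ => by
      simp only [Pi.smul_apply, smul_eq_mul]
      ring)
  obtain ⟨i, hi⟩ := Function.ne_iff.1 y.rep_nonzero
  rw [← x.mk_rep, ← y.mk_rep, Projectivization.mk_eq_mk_iff']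
  refine ⟨x.rep i / y.rep i, funext fun j => ?_⟩
  rw [Pi.smul_apply, smul_eq_mul, div_mul_eq_mul_div, key, mul_div_cancel_right₀ _ hi]

theorem mem (n : ℕ) (Φ Ψ : Fin (n + 1) → ℍ → ℂ) (g : ℍ → ℍ) (a : ℍ → ℂ) (l : Filter ℍ) [l.NeBot]
    (x : ℙ ℂ (Fin (n + 1) → ℂ)) (h : ∀ i τ, Ψ i τ = a τ * Φ i (g τ)) (hx : IsLimit Ψ l x) :
    x ∈ modCurve Φ := by
  obtain ⟨c, hc⟩ := hx
  intro P d hP hZ
  have h1 := ((MvPolynomial.continuous_eval P).tendsto _).comp hc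
  refine tendsto_nhds_unique h1 (tendsto_const_nhds.congr' ?_)
  filter_upwards [hc.eventually_ne x.rep_nonzero] with τ hτ
  have h2 : (c τ • fun i => Ψ i τ) = (c τ * a τ) • fun i => Φ i (g τ) := by
    funext i
    simp only [Pi.smul_apply, smul_eq_mul, h, mul_assoc]
  have h3 : (fun i => Φ i (g τ)) ≠ 0 := fun h0 => hτ (by rw [h2, h0, smul_zero])
  obtain ⟨b, hb⟩ := Projectivization.exists_smul_eq_mk_rep ℂ _ h3
  have h4 := hZ _ ⟨g τ, h3, rfl⟩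
  rw [← hb, Units.smul_def, eval_smul hP] at h4
  rw [Function.comp_apply, h2, eval_smul hP,
    (mul_eq_zero.1 h4).resolve_left (pow_ne_zero _ b.ne_zero), mul_zero]

theorem tend_ord {f : ℍ → ℂ} {τ : ℍ} {m : ℕ} {G : ℂ → ℂ} (hG : AnalyticAt ℂ G τ)
    (e : ∀ᶠ z in 𝓝 (τ : ℂ), (f ∘ ofComplex) z = (z - τ) ^ m • G z) :
    Tendsto (fun σ : ℍ => (((σ : ℂ) - τ) ^ m)⁻¹ * f σ) (𝓝[≠] τ) (𝓝 (G τ)) := by
  have h1 : Tendsto (fun σ : ℍ => G σ) (𝓝[≠] τ) (𝓝 (G τ)) :=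
    (hG.continuousAt.tendsto.comp (continuous_coe.tendsto τ)).mono_left nhdsWithin_le_nhds
  refine h1.congr' ?_
  filter_upwards [nhdsWithin_le_nhds (HolP.ev_iff.2 e), self_mem_nhdsWithin] with σ h2 h3
  have h4 : ((σ : ℂ) - τ) ^ m ≠ 0 := pow_ne_zero _ (sub_ne_zero.2 fun h => h3 (UpperHalfPlane.ext h))
  have h5 : f σ = ((σ : ℂ) - τ) ^ m * G σ := by
    simpa only [Function.comp_apply, ofComplex_apply, smul_eq_mul] using h2
  rw [h5, inv_mul_cancel_left₀ h4]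

theorem ex_fin (n : ℕ) (Φ : Fin (n + 1) → ℍ → ℂ) (h : ∀ i, Hol (Φ i)) (h0 : Φ ≠ 0) (τ : ℍ) :
    ∃ x, IsLimit Φ (𝓝[≠] τ) x := by
  obtain ⟨i0, hi0⟩ := Function.ne_iff.1 h0
  obtain ⟨j, -, hj⟩ := Finset.univ.exists_min_image
    (fun i => analyticOrderAt (Φ i ∘ ofComplex) τ) ⟨i0, Finset.mem_univ _⟩
  have h1 : analyticOrderAt (Φ j ∘ ofComplex) τ ≠ ⊤ :=
    ne_top_of_le_ne_top ((h i0).ne_top hi0 τ) (hj i0 (Finset.mem_univ _))
  obtain ⟨m, hm⟩ := ENat.ne_top_iff_exists.1 h1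
  have h2 : ∀ i, ∃ G : ℂ → ℂ, AnalyticAt ℂ G τ ∧ (i = j → G τ ≠ 0) ∧
      ∀ᶠ z in 𝓝 (τ : ℂ), (Φ i ∘ ofComplex) z = (z - τ) ^ m • G z := by
    intro i
    by_cases hi : i = j
    · obtain ⟨G, hG, hG0, e⟩ := ((h j).analyticAt τ).analyticOrderAt_eq_natCast.1 hm.symm
      exact ⟨G, hG, fun _ => hG0, hi ▸ e⟩
    · obtain ⟨G, hG, e⟩ := (natCast_le_analyticOrderAt ((h i).analyticAt τ) (n := m)).1
        (hm ▸ hj i (Finset.mem_univ _))
      exact ⟨G, hG, fun h' => absurd h' hi, e⟩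
  choose G hG hG0 e using h2
  exact isLimit_of (v := fun i => G i τ) (fun h' => hG0 j rfl (congrFun h' j))
    fun i => tend_ord (hG i) (e i)

theorem ex_coef {M : ℕ} {f : ℍ → ℂ} (hM : 0 < M) (h : InG f) (hp : Per M f) (h0 : f ≠ 0) :
    ∃ n, coef M f n ≠ 0 := by
  by_contra hc
  push Not at hc
  refine h0 (eq_of_coef hM h.1 hp (hol_const 0) (fun _ => rfl) fun n => ?_)
  rw [hc]
  simp [coef]

theorem ex_inf (n M : ℕ) (Φ : Fin (n + 1) → ℍ → ℂ) (hM : 0 < M)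
    (h : ∀ i, InG (Φ i) ∧ Per M (Φ i)) (h0 : Φ ≠ 0) : ∃ x, IsLimit Φ atImInfty x := by
  obtain ⟨i0, hi0⟩ := Function.ne_iff.1 h0
  choose n0 hn0 using fun i => (h i).1.exists_pole hM (h i).2
  obtain ⟨k, hk⟩ := ex_coef hM (h i0).1 (h i0).2 hi0
  obtain ⟨a, ⟨j, ha⟩, hmin⟩ := Int.exists_least_of_bdd (P := fun n => ∃ i, coef M (Φ i) n ≠ 0)
    ⟨-(Finset.univ.sup n0 : ℕ), fun z ⟨i, hz⟩ => not_lt.1 fun hl => hz (hn0 i z (by
      have : n0 i ≤ Finset.univ.sup n0 := Finset.le_sup (Finset.mem_univ i)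
      omega))⟩ ⟨k, i0, hk⟩
  refine isLimit_of (v := fun i => coef M (Φ i) a) (c := fun τ => e (-(a * τ / M)))
    (fun h' => ha (congrFun h' j)) fun i => ?_
  refine (tendsto_leading hM (h i).1.1 (h i).2 (a := a) fun k hk => by_contra fun hc =>
    absurd (hmin k ⟨i, hc⟩) (not_le.2 hk)).congr fun τ => mul_comm _ _

theorem ex_lead (M : ℕ) (f : ℍ → ℂ) (hM : 0 < M) (h : InG f) (hp : Per M f) (h0 : f ≠ 0) :
    ∃ o, Lead M o f := by
  obtain ⟨n0, hn0⟩ := h.exists_pole hM hp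
  obtain ⟨a, ha, hmin⟩ := Int.exists_least_of_bdd (P := fun n => coef M f n ≠ 0)
    ⟨-n0, fun z hz => not_lt.1 fun hl => hz (hn0 z hl)⟩ (ex_coef hM h hp h0)
  refine ⟨a, _, ha, ?_⟩
  simpa only [neg_div] using tendsto_leading hM h.1 hp (a := a)
    fun n hn => by_contra fun hc => absurd (hmin n hc) (not_le.2 hn)

end LimP

theorem limS : S_Lim := ⟨LimP.uniq, LimP.mem, LimP.ex_fin, LimP.ex_inf, LimP.ex_lead⟩

end

end Pool.Agent.P.MP_b8021b_nt.CM
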