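import Pool.Agent.P.MP_b8021b_nt.CM.Stmts2

/-! The divisors of the modular units span the cuspidal divisors of degree zero. -/

namespace Pool.Agent.P.MP_b8021b_nt.CM

open Complex hiding Gamma
open CongruenceSubgroup
open scoped Real MatrixGroups ComplexConjugate

noncomputable section

namespace MDP

theorem maxp {G ι : Type} [Fintype G] [Fintype ι] [DecidableEq ι] (D : G → ℂ) (w : ι → ℝ)
    (hw : ∀ i, 0 ≤ w i) (φ : ι → G → G) (U : Finset ι) (hU : ∀ i ∈ U, ∀ g, D (φ i g) = D g)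
    (hs : ∀ g, ∑ i, (w i : ℂ) * D (φ i g) = 0) (hlt : ∑ i, w i < 2 * ∑ i ∈ U, w i) (g : G) :
    D g = 0 := by
  obtain ⟨g0, -, hg0⟩ := Finset.exists_max_image Finset.univ (fun g => ‖D g‖)
    ⟨g, Finset.mem_univ g⟩
  have h1 := hs g0
  rw [← Finset.sum_add_sum_compl U, Finset.sum_congr rfl fun i hi => by rw [hU i hi],
    ← Finset.sum_mul, add_eq_zero_iff_eq_neg] at h1
  have h2 := congrArg norm h1
  have h0 : 0 ≤ ∑ i ∈ U, w i := Finset.sum_nonneg fun i _ => hw i
  rw [norm_neg, norm_mul, ← Complex.ofReal_sum, Complex.norm_real, Real.norm_of_nonneg h0] at h2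
  have h3 : ‖∑ i ∈ Uᶜ, (w i : ℂ) * D (φ i g0)‖ ≤ (∑ i ∈ Uᶜ, w i) * ‖D g0‖ := by
    rw [Finset.sum_mul]
    refine norm_sum_le_of_le _ fun i _ => ?_
    rw [norm_mul, Complex.norm_real, Real.norm_of_nonneg (hw i)]
    exact mul_le_mul_of_nonneg_left (hg0 _ (Finset.mem_univ _)) (hw i)
  rw [← Finset.sum_add_sum_compl U] at hlt
  have h4 : ‖D g0‖ ≤ 0 := by
    by_contra h5
    push Not at h5
    nlinarith
  exact norm_le_zero_iff.mp ((hg0 g (Finset.mem_univ g)).trans h4)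

variable {M : ℕ} [NeZero M]

/-- the distance to zero -/
def t (x : ZMod M) : ℕ := x.valMinAbs.natAbs

/-- the standard character -/
abbrev ψ : AddChar (ZMod M) ℂ := ZMod.stdAddChar

/-- the Fourier transform of `t` -/
def th (k : ZMod M) : ℂ := ∑ x : ZMod M, (t x : ℂ) * ψ (-(x * k))

theorem t_nat (n : ℕ) : t (n : ZMod M) = min (n % M) (M - n % M) := by
  rw [t, ZMod.valMinAbs_natAbs_eq_min, ZMod.val_natCast]

theorem exists_nat (y : ZMod M) : ∃ v : ℕ, v < M ∧ y = v :=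
  ⟨y.val, ZMod.val_lt y, (ZMod.natCast_zmod_val y).symm⟩

omit [NeZero M] in
theorem mod_cases {n : ℕ} (h : n < 2 * M) : n < M ∧ n % M = n ∨ M ≤ n ∧ n % M = n - M := by
  rcases lt_or_ge n M with h1 | h1
  · exact Or.inl ⟨h1, Nat.mod_eq_of_lt h1⟩
  · exact Or.inr ⟨h1, by rw [Nat.mod_eq_sub_mod h1, Nat.mod_eq_of_lt (by omega)]⟩

omit [NeZero M] in
theorem cast_eq {a b : ℕ} (ha : a < M) (hb : b < M) : (a : ZMod M) = b ↔ a = b := by
  rw [ZMod.natCast_eq_natCast_iff', Nat.mod_eq_of_lt ha, Nat.mod_eq_of_lt hb]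

theorem second {m : ℕ} (hm : M = 2 * m) (h3 : 3 ≤ M) (y : ZMod M) :
    (t (y + 1) : ℤ) + t (y - 1) - 2 * t y =
      (if y = 0 then 2 else 0) - if y = (m : ZMod M) then 2 else 0 := by
  obtain ⟨v, hv, rfl⟩ := exists_nat y
  have e1 : (v : ZMod M) + 1 = ((v + 1 : ℕ) : ZMod M) := by simp
  have e2 : (v : ZMod M) - 1 = ((v + (M - 1) : ℕ) : ZMod M) := by
    rw [Nat.cast_add, Nat.cast_sub (by omega)]
    simp [sub_eq_add_neg]
  have e3 : (v : ZMod M) = 0 ↔ v = 0 := by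
    rw [← Nat.cast_zero]
    exact cast_eq hv (by omega)
  have e4 : (v : ZMod M) = (m : ZMod M) ↔ v = m := cast_eq hv (by omega)
  rw [e1, e2, t_nat, t_nat, t_nat, Nat.mod_eq_of_lt hv]
  simp only [e3, e4]
  have h1 := mod_cases (M := M) (n := v + 1) (by omega)
  have h2 := mod_cases (M := M) (n := v + (M - 1)) (by omega)
  split_ifs <;> omega

theorem half {m : ℕ} (hm : M = 2 * m) (y : ZMod M) : t y + t (y + (m : ZMod M)) = m := by
  obtain ⟨v, hv, rfl⟩ := exists_nat y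
  rw [← Nat.cast_add, t_nat, t_nat, Nat.mod_eq_of_lt hv]
  have h1 := mod_cases (M := M) (n := v + m) (by omega)
  omega

theorem th_zero {m : ℕ} (hm : M = 2 * m) : th (0 : ZMod M) = (m : ℂ) ^ 2 := by
  have h1 : ∑ x : ZMod M, t (x + (m : ZMod M)) = ∑ x : ZMod M, t x :=
    Equiv.sum_comp (Equiv.addRight (m : ZMod M)) t
  have h2 : ∑ x : ZMod M, (t x + t (x + (m : ZMod M))) = M * m := by
    simp only [half hm]
    simp
  rw [Finset.sum_add_distrib, h1] at h2
  have h3 : ∑ x : ZMod M, t x = m ^ 2 := by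
    have : M * m = 2 * m ^ 2 := by rw [hm]; ring
    omega
  simp only [th, mul_zero, neg_zero, AddChar.map_zero_eq_one, mul_one]
  exact_mod_cast h3

theorem sum_psi (b : ZMod M) : ∑ x : ZMod M, ψ (-(x * b)) = if b = 0 then (M : ℂ) else 0 := by
  have := AddChar.sum_mulShift (-b) (ZMod.isPrimitive_stdAddChar M)
  simpa using this

theorem sum_th : ∑ k : ZMod M, th k = 0 := by
  simp only [th]
  rw [Finset.sum_comm]
  refine Finset.sum_eq_zero fun x _ => ?_
  rw [← Finset.mul_sum]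
  simp only [mul_comm x]
  rw [sum_psi]
  split_ifs with h
  · simp [h, t]
  · simp

theorem th_rec {m : ℕ} (hm : M = 2 * m) (h3 : 3 ≤ M) (k : ZMod M) :
    (ψ k + ψ (-k) - 2) * th k = 2 - 2 * ψ (-((m : ZMod M) * k)) := by
  have h1 : ∀ c : ZMod M, ∑ x : ZMod M, (t (x + c) : ℂ) * ψ (-(x * k)) = ψ (c * k) * th k := by
    intro c
    rw [th, Finset.mul_sum, ← Equiv.sum_comp (Equiv.addRight c) fun x =>
      ψ (c * k) * ((t x : ℂ) * ψ (-(x * k)))]
    refine Finset.sum_congr rfl fun x _ => ?_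
    rw [mul_left_comm, ← AddChar.map_add_eq_mul]
    simp only [Equiv.coe_addRight]
    congr 2
    ring
  have h2 : ∑ x : ZMod M, ((t (x + 1) : ℂ) + t (x - 1) - 2 * t x) * ψ (-(x * k)) =
      2 - 2 * ψ (-((m : ZMod M) * k)) := by
    have : ∀ x : ZMod M, (t (x + 1) : ℂ) + t (x - 1) - 2 * t x =
        (if x = 0 then 2 else 0) - if x = (m : ZMod M) then 2 else 0 := fun x => by
      have := congrArg (Int.cast : ℤ → ℂ) (second hm h3 x)
      push_cast at this
      exact this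
    simp [this, sub_mul]
  rw [← h2]
  simp only [sub_mul, add_mul, Finset.sum_sub_distrib, Finset.sum_add_distrib,
    sub_eq_add_neg _ (1 : ZMod M), h1, one_mul, neg_mul, mul_assoc, ← Finset.mul_sum]
  rfl

theorem norm_psi (k : ZMod M) : ‖ψ k‖ = 1 := AddChar.norm_apply _ _

theorem psi_sq (k : ZMod M) : ψ k + ψ (-k) - 2 = -((‖ψ k - 1‖ ^ 2 : ℝ) : ℂ) := by
  rw [AddChar.map_neg_eq_inv, Complex.inv_eq_conj (norm_psi k), Complex.ofReal_pow,
    ← Complex.mul_conj', map_sub, map_one]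
  have := Complex.mul_conj' (ψ k)
  rw [norm_psi] at this
  simp only [ofReal_one, one_pow] at this
  linear_combination this

theorem psi_eq_one {k : ZMod M} : ψ k = 1 ↔ k = 0 := by
  rw [← (ψ (M := M)).map_zero_eq_one, ZMod.injective_stdAddChar.eq_iff]

/-- minus the Fourier coefficient -/
def S (m : ℕ) (k : ZMod M) : ℝ := if (m : ZMod M) * k = 0 then 0 else 4 / ‖ψ k - 1‖ ^ 2

theorem S_nonneg (m : ℕ) (k : ZMod M) : 0 ≤ S m k := by
  unfold S
  split_ifs <;> positivity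

theorem th_eq {m : ℕ} (hm : M = 2 * m) (h3 : 3 ≤ M) {k : ZMod M} (hk : k ≠ 0) :
    th k = -S m k := by
  have h1 := th_rec hm h3 k
  have h2 : (((‖ψ k - 1‖ ^ 2 : ℝ)) : ℂ) ≠ 0 := by
    have : ψ k - 1 ≠ 0 := fun h => hk (psi_eq_one.mp (sub_eq_zero.mp h))
    simpa using this
  rw [psi_sq] at h1
  unfold S
  split_ifs with h
  · rw [h, neg_zero, AddChar.map_zero_eq_one, mul_one, sub_self, neg_mul, neg_eq_zero] at h1
    simpa using (mul_eq_zero.mp h1).resolve_left h2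
  · have h4 : ψ (-((m : ZMod M) * k)) * ψ (-((m : ZMod M) * k)) = 1 := by
      rw [← AddChar.map_add_eq_mul, psi_eq_one]
      have : ((2 * m : ℕ) : ZMod M) = 0 := by rw [← hm]; simp
      push_cast at this
      linear_combination (-k) * this
    have h5 : ψ (-((m : ZMod M) * k)) = -1 :=
      (mul_self_eq_one_iff.mp h4).resolve_left fun e => h (neg_eq_zero.mp (psi_eq_one.mp e))
    rw [h5] at h1
    rw [Complex.ofReal_div, ← neg_div, eq_div_iff h2]
    push_cast at h1 ⊢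
    linear_combination -h1

theorem sum_S {m : ℕ} (hm : M = 2 * m) (h3 : 3 ≤ M) :
    ∑ k ∈ Finset.univ.erase (0 : ZMod M), S m k = (m : ℝ) ^ 2 := by
  have h1 := sum_th (M := M)
  rw [← Finset.add_sum_erase _ _ (Finset.mem_univ 0), th_zero hm,
    Finset.sum_congr rfl fun k hk => th_eq hm h3 (Finset.ne_of_mem_erase hk),
    Finset.sum_neg_distrib, ← sub_eq_add_neg, sub_eq_zero] at h1
  exact_mod_cast h1.symm

theorem S_ge {m : ℕ} (hm : M = 2 * m) (h3 : 3 ≤ M) {j : ℤ} (hj : j = 1 ∨ j = -1) :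
    (m : ℝ) ^ 2 < 4 * S m (j : ZMod M) := by
  have hm0 : (m : ZMod M) ≠ 0 := by
    rw [← Nat.cast_zero, Ne, cast_eq (by omega) (by omega)]
    omega
  have hj0 : (m : ZMod M) * j ≠ 0 := by
    rcases hj with rfl | rfl <;> simpa using hm0
  have hne : 0 < ‖ψ (j : ZMod M) - 1‖ := by
    rw [norm_pos_iff, sub_ne_zero, Ne, psi_eq_one]
    intro h
    exact hj0 (by rw [h, mul_zero])
  have hmp : (0 : ℝ) < m := by exact_mod_cast (by omega : 0 < m)
  have hle : ‖ψ (j : ZMod M) - 1‖ ≤ π / m := by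
    have e : ψ (j : ZMod M) = Complex.exp (I * ((π * j / m : ℝ) : ℂ)) := by
      rw [ψ, ZMod.stdAddChar_coe]
      congr 1
      have : (M : ℂ) = 2 * m := by exact_mod_cast hm
      have h0 : (m : ℂ) ≠ 0 := by exact_mod_cast hmp.ne'
      rw [this]
      push_cast
      field_simp
    rw [e]
    refine Real.norm_exp_I_mul_ofReal_sub_one_le.trans (le_of_eq ?_)
    rcases hj with rfl | rfl <;>
      simp [abs_of_pos Real.pi_pos]
  rw [S, if_neg hj0, ← mul_div_assoc, lt_div_iff₀ (by positivity)]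
  have h4 : ‖ψ (j : ZMod M) - 1‖ * m < 4 := by
    rw [le_div_iff₀ hmp] at hle
    exact hle.trans_lt Real.pi_lt_four
  have h5 : 0 < ‖ψ (j : ZMod M) - 1‖ * m := by positivity
  nlinarith

/-- the finite group -/
abbrev G (M : ℕ) := SL(2, ZMod M)

/-- row vector times matrix -/
def act (a : ZMod M × ZMod M) (g : G M) : ZMod M × ZMod M :=
  (a.1 * g 0 0 + a.2 * g 1 0, a.1 * g 0 1 + a.2 * g 1 1)

omit [NeZero M] in
theorem act_mul (a : ZMod M × ZMod M) (g h : G M) : act a (g * h) = act (act a g) h := by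
  simp only [act, Matrix.SpecialLinearGroup.coe_mul, Matrix.mul_apply, Fin.sum_univ_two]
  exact Prod.ext (by ring) (by ring)

omit [NeZero M] in
theorem act_one (a : ZMod M × ZMod M) : act a 1 = a := by simp [act]

/-- the action as a bijection -/
def actE (g : G M) : ZMod M × ZMod M ≃ ZMod M × ZMod M where
  toFun a := act a g
  invFun a := act a g⁻¹
  left_inv a := by simp only [← act_mul, mul_inv_cancel, act_one]
  right_inv a := by simp only [← act_mul, inv_mul_cancel, act_one]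

omit [NeZero M] in
theorem act_add (a b : ZMod M × ZMod M) (g : G M) : act (a + b) g = act a g + act b g := by
  simp only [act, Prod.fst_add, Prod.snd_add, Prod.mk_add_mk]
  exact Prod.ext (by ring) (by ring)

omit [NeZero M] in
theorem act_eq_zero {a : ZMod M × ZMod M} {g : G M} : act a g = 0 ↔ a = 0 := by
  have h : act 0 g = 0 := by simp [act]
  exact ⟨fun e => (actE g).injective (e.trans h.symm), fun e => e ▸ h⟩

/-- upper triangular matrices -/
def β (p : (ZMod M)ˣ × ZMod M) : G M :=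
  ⟨!![(p.1 : ZMod M), p.2; 0, ((p.1⁻¹ : (ZMod M)ˣ) : ZMod M)], by simp [Matrix.det_fin_two]⟩

theorem sum_borel (f : G M → ℂ) :
    ∑ h : G M, (if h 1 0 = 0 then f h else 0) = ∑ p : (ZMod M)ˣ × ZMod M, f (β p) := by
  rw [← Finset.sum_filter]
  symm
  refine Finset.sum_bij (fun p _ => β p) (fun p _ => by simp [β]) (fun p _ q _ e => ?_)
    (fun h hh => ?_) fun _ _ => rfl
  · have e0 := congrArg (fun g : G M => g 0 0) e
    have e1 := congrArg (fun g : G M => g 0 1) e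
    exact Prod.ext (Units.ext e0) e1
  · have h0 : h 1 0 = 0 := (Finset.mem_filter.mp hh).2
    have hd := h.det_coe
    rw [Matrix.det_fin_two, h0, mul_zero, sub_zero] at hd
    refine ⟨(⟨h 0 0, h 1 1, hd, by rw [mul_comm, hd]⟩, h 0 1), Finset.mem_univ _, ?_⟩
    ext i j
    fin_cases i <;> fin_cases j <;> simp [β, h0]

theorem inner (g g0 : G M) : ∑ a, (t (act a g).1 : ℂ) * ψ (-(act a g0).1) =
    if (g⁻¹ * g0) 1 0 = 0 then M * th ((g⁻¹ * g0) 0 0) else 0 := by
  rw [← Equiv.sum_comp (actE g⁻¹)]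
  change ∑ a, (t (act (act a g⁻¹) g).1 : ℂ) * ψ (-(act (act a g⁻¹) g0).1) = _
  simp only [← act_mul, inv_mul_cancel, act_one]
  generalize g⁻¹ * g0 = h
  rw [Fintype.sum_prod_type]
  simp only [act, neg_add, AddChar.map_add_eq_mul, ← mul_assoc, ← Finset.mul_sum, sum_psi,
    ← Finset.sum_mul]
  split_ifs
  · rw [mul_comm, th]
  · rw [mul_zero]

theorem fin_main {m : ℕ} (hm : M = 2 * m) (h3 : 3 ≤ M) (Λ : G M → ℂ)
    (hT : ∀ g j, Λ (g * β (1, j)) = Λ g) (hn : ∀ g j, Λ (g * β (-1, j)) = Λ g)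
    (c : ZMod M × ZMod M → ℂ) (hc : ∀ a g, c (act a g) = c a)
    (hΨ : ∀ a, ∑ g, (t (act a g).1 : ℂ) * Λ g = c a) (g : G M) : Λ g = Λ 1 := by
  classical
  have : Fact (2 < M) := ⟨h3⟩
  have : Fact (1 < M) := ⟨by omega⟩
  have hM : (M : ℝ) ≠ 0 := by exact_mod_cast NeZero.ne M
  have hMc : (M : ℂ) ≠ 0 := by exact_mod_cast NeZero.ne M
  let w : (ZMod M)ˣ × ZMod M → ℝ := fun p => S m (p.1 : ZMod M)
  have key : ∀ g0 : G M, ∑ p, (w p : ℂ) * Λ (g0 * (β p)⁻¹) = -(∑ b, c b * ψ (-b.1)) / M := by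
    intro g0
    have h1 : ∑ b, c b * ψ (-b.1) = ∑ a, c a * ψ (-(act a g0).1) := by
      rw [← Equiv.sum_comp (actE g0)]
      exact Finset.sum_congr rfl fun a _ => by rw [← hc a g0]; rfl
    have h2 : ∑ a, c a * ψ (-(act a g0).1) =
        ∑ g : G M, Λ g * ∑ a, (t (act a g).1 : ℂ) * ψ (-(act a g0).1) := by
      simp only [← hΨ, Finset.sum_mul, Finset.mul_sum]
      rw [Finset.sum_comm]
      exact Finset.sum_congr rfl fun g _ => Finset.sum_congr rfl fun a _ => by ring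
    rw [h1, h2, ← Equiv.sum_comp ((Equiv.inv (G M)).trans (Equiv.mulLeft g0))]
    simp only [inner, Equiv.trans_apply, Equiv.inv_apply, Equiv.coe_mulLeft, mul_inv_rev, inv_inv,
      inv_mul_cancel_right, mul_ite, mul_zero]
    rw [sum_borel fun h => Λ (g0 * h⁻¹) * (M * th (h 0 0)), eq_div_iff hMc, Finset.sum_mul,
      ← Finset.sum_neg_distrib]
    refine Finset.sum_congr rfl fun p _ => ?_
    rw [show β p 0 0 = (p.1 : ZMod M) from rfl, th_eq hm h3 p.1.ne_zero]
    ring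
  have hne : (1 : (ZMod M)ˣ) ≠ -1 := fun e => ZMod.neg_one_ne_one (n := M) (by
    simpa using (congrArg Units.val e).symm)
  have s1 := S_ge hm h3 (j := 1) (Or.inl rfl)
  have s2 := S_ge hm h3 (j := -1) (Or.inr rfl)
  push_cast at s1 s2
  have hMp : (0 : ℝ) < M := by positivity
  have hU : ∑ p ∈ ({1, -1} : Finset (ZMod M)ˣ) ×ˢ (Finset.univ : Finset (ZMod M)), w p =
      M * (S m (1 : ZMod M) + S m (-1 : ZMod M)) := by
    rw [Finset.sum_product, Finset.sum_pair hne]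
    simp [w, mul_add]
  have hW : ∑ p, w p ≤ M * (m : ℝ) ^ 2 := by
    rw [Fintype.sum_prod_type, ← sum_S hm h3]
    simp only [w, Finset.sum_const, Finset.card_univ, ZMod.card, nsmul_eq_mul, ← Finset.mul_sum]
    refine mul_le_mul_of_nonneg_left ?_ hMp.le
    rw [← Finset.sum_image (f := S m) (g := Units.val) fun _ _ _ _ e => Units.ext e]
    refine Finset.sum_le_sum_of_subset_of_nonneg (fun x hx => ?_) fun _ _ _ => S_nonneg _ _
    obtain ⟨u, -, rfl⟩ := Finset.mem_image.mp hx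
    exact Finset.mem_erase.mpr ⟨u.ne_zero, Finset.mem_univ _⟩
  have hlt : ∑ p, w p <
      2 * ∑ p ∈ ({1, -1} : Finset (ZMod M)ˣ) ×ˢ (Finset.univ : Finset (ZMod M)), w p := by
    rw [hU]
    nlinarith
  have hW0 : ((∑ p, w p : ℝ) : ℂ) ≠ 0 := by
    have h1 : ∑ p ∈ ({1, -1} : Finset (ZMod M)ˣ) ×ˢ (Finset.univ : Finset (ZMod M)), w p ≤
        ∑ p, w p :=
      Finset.sum_le_sum_of_subset_of_nonneg (Finset.subset_univ _) fun _ _ _ => S_nonneg _ _
    have h2 : 0 < ∑ p, w p := by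
      rw [hU] at h1
      have : (0 : ℝ) ≤ (m : ℝ) ^ 2 := by positivity
      have : 0 < S m (1 : ZMod M) + S m (-1 : ZMod M) := by linarith
      exact (mul_pos hMp this).trans_le h1
    exact_mod_cast h2.ne'
  have hD := maxp (fun g => Λ g - -(∑ b, c b * ψ (-b.1)) / M / (∑ p, w p : ℝ)) w
    (fun _ => S_nonneg _ _) (fun p g => g * (β p)⁻¹) _ (fun p hp g => by
      obtain ⟨k, j⟩ := p
      have : Λ (g * (β (k, j))⁻¹ * β (k, j)) = Λ (g * (β (k, j))⁻¹) := by
        rcases Finset.mem_insert.mp (Finset.mem_product.mp hp).1 with h | h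
        · obtain rfl : k = 1 := h
          exact hT _ _
        · obtain rfl : k = -1 := Finset.mem_singleton.mp h
          exact hn _ _
      rw [inv_mul_cancel_right] at this
      simp only [this])
    (fun g => by
      simp only [mul_sub, Finset.sum_sub_distrib, key, ← Finset.sum_mul, ← Complex.ofReal_sum]
      rw [mul_div_cancel₀ _ hW0, sub_self]) hlt
  exact (sub_eq_zero.mp (hD g)).trans (sub_eq_zero.mp (hD 1)).symm

/-- reduction -/
def ρ (M : ℕ) : SL →* G M := Matrix.SpecialLinearGroup.map (Int.castRingHom (ZMod M))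

omit [NeZero M] in
theorem rho_apply (γ : SL) (i j : Fin 2) : ρ M γ i j = ((γ i j : ℤ) : ZMod M) := rfl

omit [NeZero M] in
theorem rho_eq {γ δ : SL} : ρ M γ = ρ M δ ↔ γ * δ⁻¹ ∈ Gamma M := by
  rw [Gamma_mem']
  change _ ↔ ρ M (γ * δ⁻¹) = 1
  rw [map_mul, map_inv, mul_inv_eq_one]

theorem rho_surj : Function.Surjective (ρ M) := fun g => by
  obtain ⟨γ, hγ⟩ := red_surj (Nat.pos_of_ne_zero (NeZero.ne M)) g.1 g.2
  exact ⟨γ, Subtype.ext hγ⟩

theorem sum_reps {R : Finset SL} (hR : CosetReps M R) (f : G M → ℂ) :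
    ∑ γ ∈ R, f (ρ M γ) = ∑ g, f g := by
  refine Finset.sum_bij (fun γ _ => ρ M γ) (fun _ _ => Finset.mem_univ _)
    (fun γ hγ δ hδ e => ?_) (fun g _ => ?_) fun _ _ => rfl
  · exact (hR γ).unique ⟨hγ, rho_eq.mp rfl⟩ ⟨hδ, rho_eq.mp e⟩
  · obtain ⟨γ, rfl⟩ := rho_surj g
    obtain ⟨r, hr, -⟩ := hR γ
    exact ⟨r, hr.1, (rho_eq.mpr hr.2).symm⟩

omit [NeZero M] in
theorem rho_T (n : ℕ) : ρ M (ModularGroup.T ^ n) = β (1, (n : ZMod M)) := by
  ext i j
  rw [rho_apply, ← zpow_natCast, ModularGroup.coe_T_zpow]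
  fin_cases i <;> fin_cases j <;> simp [β]

omit [NeZero M] in
theorem rho_neg (γ : SL) : ρ M (-γ) = -ρ M γ := by
  ext i j
  simp [rho_apply]

omit [NeZero M] in
theorem beta_neg (j : ZMod M) : β (-1, j) = -β (1, -j) := by
  ext a b
  fin_cases a <;> fin_cases b <;> simp [β]

end MDP

open MDP

theorem mdS : S_MD := by
  intro M R lam h3 ⟨m, hm⟩ hR hG hT hn hs γ
  have : NeZero M := ⟨by omega⟩
  let Λ : G M → ℂ := fun g => lam (Function.surjInv rho_surj g)
  have hΛ : ∀ γ, Λ (ρ M γ) = lam γ := fun γ => by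
    have h1 := rho_eq.mp (Function.surjInv_eq (rho_surj (M := M)) (ρ M γ))
    have h2 := hG _ h1 γ
    rwa [inv_mul_cancel_right] at h2
  have hTn : ∀ (n : ℕ) γ, lam (γ * ModularGroup.T ^ n) = lam γ := fun n => by
    induction n with
    | zero => simp
    | succ n ih => intro γ; rw [pow_succ, ← mul_assoc, hT, ih]
  have h1 : ∀ g j, Λ (g * β (1, j)) = Λ g := fun g j => by
    obtain ⟨γ, rfl⟩ := rho_surj g
    obtain ⟨n, -, rfl⟩ := exists_nat j
    rw [← rho_T, ← map_mul, hΛ, hΛ, hTn]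
  have h2 : ∀ g j, Λ (g * β (-1, j)) = Λ g := fun g j => by
    rw [beta_neg, mul_neg, ← neg_mul, h1]
    obtain ⟨γ, rfl⟩ := rho_surj g
    rw [← rho_neg, hΛ, hΛ, hn]
  have h4 := fin_main (m := m) (by omega) h3 Λ h1 h2
    (fun a => if a = 0 then 0 else (if a + a = 0 then 4 else 3) * M * (∑ g, Λ g) / 12)
    (fun a g => by simp only [← MDP.act_add, act_eq_zero]) (fun a => by
      by_cases h0 : a = 0
      · simp [h0, MDP.act, t]
      · have h6 := hs a h0
        have e : ∀ γ, (uord M a γ : ℂ) * lam γ = 12 * ((t (MDP.act a (ρ M γ)).1 : ℂ) * Λ (ρ M γ)) -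
            (if a + a = 0 then 4 else 3) * M * Λ (ρ M γ) := fun γ => by
          have e1 : uord M a γ =
              12 * (t (MDP.act a (ρ M γ)).1 : ℤ) - (if a + a = 0 then 4 else 3) * M := rfl
          rw [e1, hΛ]
          push_cast
          ring
        simp only [e, Finset.sum_sub_distrib, ← Finset.mul_sum] at h6
        rw [sum_reps hR Λ, sum_reps hR fun g => (t (MDP.act a g).1 : ℂ) * Λ g] at h6
        rw [if_neg h0]
        linear_combination h6 / 12)
  rw [← hΛ, ← hΛ, h4, map_one]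

end

end Pool.Agent.P.MP_b8021b_nt.CM
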