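import Pool.Agent.P.MP_b8021b_nt.CM.Stmts2

/-! Orientation of elliptic matrices by congruences, and the theta lemma. -/

namespace Pool.Agent.P.MP_b8021b_nt.CM

open Complex hiding Gamma
open UpperHalfPlane hiding I
open MeasureTheory CongruenceSubgroup Filter
open scoped Real MatrixGroups ModularForm Topology ComplexConjugate Modular

noncomputable section

namespace OriP

/-- a primitive form takes a value prime to `N` at a primitive vector -/
theorem exists_val (a b c : ℤ) (h : ∀ p : ℕ, p.Prime → (p : ℤ) ∣ a → (p : ℤ) ∣ b → (p : ℤ) ∣ c →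
    False) {N : ℕ} (hN : N ≠ 0) :
    ∃ x y : ℤ, IsCoprime x y ∧ IsCoprime (a * x ^ 2 + b * x * y + c * y ^ 2) (N : ℤ) := by
  classical
  set S1 := N.primeFactors.filter fun p : ℕ => (p : ℤ) ∣ a ∧ ¬ (p : ℤ) ∣ c with hS1
  set S2 := N.primeFactors.filter fun p : ℕ => ¬ (p : ℤ) ∣ a with hS2
  have key : ∀ (S : Finset ℕ), S ⊆ N.primeFactors → ∀ p : ℕ, p.Prime →
      ((p : ℤ) ∣ ((∏ q ∈ S, q : ℕ) : ℤ) ↔ p ∈ S) := by
    intro S hS p hp
    rw [Int.natCast_dvd_natCast, Prime.dvd_finsetProd_iff hp.prime]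
    constructor
    · rintro ⟨q, hq, hd⟩
      rwa [(Nat.prime_dvd_prime_iff_eq hp (Nat.prime_of_mem_primeFactors (hS hq))).1 hd]
    · exact fun hp' => ⟨p, hp', dvd_rfl⟩
  have k1 := key S1 (Finset.filter_subset _ _)
  have k2 := key S2 (Finset.filter_subset _ _)
  refine ⟨((∏ q ∈ S1, q : ℕ) : ℤ), ((∏ q ∈ S2, q : ℕ) : ℤ), ?_, ?_⟩
  · rw [Nat.isCoprime_iff_coprime]
    refine Nat.coprime_of_dvd fun p hp h1 h2 => ?_
    have e1 := (k1 p hp).1 (Int.natCast_dvd_natCast.2 h1)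
    have e2 := (k2 p hp).1 (Int.natCast_dvd_natCast.2 h2)
    exact (Finset.mem_filter.1 e2).2 (Finset.mem_filter.1 e1).2.1
  · generalize ((∏ q ∈ S1, q : ℕ) : ℤ) = x at k1 ⊢
    generalize ((∏ q ∈ S2, q : ℕ) : ℤ) = y at k2 ⊢
    rw [Int.isCoprime_iff_gcd_eq_one]
    refine Nat.coprime_of_dvd fun p hp h1 h2 => ?_
    rw [← Int.natCast_dvd] at h1
    rw [Int.natAbs_natCast] at h2
    have hm : p ∈ N.primeFactors := Nat.mem_primeFactors.2 ⟨hp, h2, hN⟩
    have hP : Prime (p : ℤ) := Nat.prime_iff_prime_int.1 hp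
    have e1 := k1 p hp
    have e2 := k2 p hp
    simp only [hS1, hS2, Finset.mem_filter, hm, true_and] at e1 e2
    by_cases ha : (p : ℤ) ∣ a
    · by_cases hc : (p : ℤ) ∣ c
      · have h3 : (p : ℤ) ∣ b * x * y := by
          have := dvd_sub (dvd_sub h1 (ha.mul_right (x ^ 2))) (hc.mul_right (y ^ 2))
          rwa [show a * x ^ 2 + b * x * y + c * y ^ 2 - a * x ^ 2 - c * y ^ 2 = b * x * y by ring]
            at this
        rcases hP.dvd_or_dvd h3 with h4 | h4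
        · rcases hP.dvd_or_dvd h4 with h5 | h5
          · exact h p hp ha h5 hc
          · exact (e1.1 h5).2 hc
        · exact e2.1 h4 ha
      · have hx : (p : ℤ) ∣ x := e1.2 ⟨ha, hc⟩
        have h3 : (p : ℤ) ∣ c * y ^ 2 := by
          have := dvd_sub h1 (hx.mul_right (a * x + b * y))
          rwa [show a * x ^ 2 + b * x * y + c * y ^ 2 - x * (a * x + b * y) = c * y ^ 2 by ring]
            at this
        rcases hP.dvd_or_dvd h3 with h4 | h4
        · exact hc h4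
        · exact e2.1 (hP.dvd_of_dvd_pow h4) ha
    · have hy : (p : ℤ) ∣ y := e2.2 ha
      have h3 : (p : ℤ) ∣ a * x ^ 2 := by
        have := dvd_sub h1 (hy.mul_right (b * x + c * y))
        rwa [show a * x ^ 2 + b * x * y + c * y ^ 2 - y * (b * x + c * y) = a * x ^ 2 by ring]
          at this
      rcases hP.dvd_or_dvd h3 with h4 | h4
      · exact ha h4
      · exact ha (e1.1 (hP.dvd_of_dvd_pow h4)).1

/-- the character at a primitively represented value is its sign -/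
theorem chi_val {d : ℕ} {a b c x y : ℤ} (hd : b ^ 2 - 4 * a * c = -d) (hxy : IsCoprime x y)
    (hm : IsCoprime (a * x ^ 2 + b * x * y + c * y ^ 2) (2 * d : ℤ)) :
    chi d (a * x ^ 2 + b * x * y + c * y ^ 2) =
      (((a * x ^ 2 + b * x * y + c * y ^ 2).sign : ℤ) : ℂ) := by
  obtain ⟨u, v, huv⟩ := hxy
  set m := a * x ^ 2 + b * x * y + c * y ^ 2 with hmdef
  set B := -2 * a * x * v + b * (x * u - v * y) + 2 * c * y * u with hB
  set C := a * v ^ 2 - b * u * v + c * u ^ 2 with hC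
  have e : B ^ 2 - 4 * m * C = -d := by
    rw [← hd, hB, hC, hmdef]
    have : (u * x + v * y) ^ 2 = 1 := by rw [huv]; ring
    linear_combination (b ^ 2 - 4 * a * c) * this
  have hJ : jacobiSym (-(d : ℤ)) m.natAbs = 1 := by
    have h1 : jacobiSym (-(d : ℤ)) m.natAbs = jacobiSym (B ^ 2) m.natAbs := by
      refine jacobiSym.mod_left' (Int.ModEq.eq (Int.modEq_iff_dvd.2 ?_))
      rw [Int.natAbs_dvd]
      exact ⟨4 * C, by linear_combination e⟩
    rw [h1]
    refine jacobiSym.sq_one' ?_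
    have h2 : IsCoprime B m := by
      obtain ⟨r, s, hrs⟩ := hm
      exact ⟨-2 * s * B, r + 8 * s * C, by linear_combination hrs - 2 * s * e⟩
    have := Int.isCoprime_iff_gcd_eq_one.1 h2
    simpa [Int.gcd, Int.natAbs_abs] using this
  rw [chi, if_pos hm, hJ, mul_one]

theorem mul_val_pos {d : ℕ} (h0 : 0 < d) {a b c x y : ℤ} (hd : b ^ 2 - 4 * a * c = -d)
    (hxy : IsCoprime x y) : 0 < a * (a * x ^ 2 + b * x * y + c * y ^ 2) := by
  have hd0 : (0 : ℤ) < d := by exact_mod_cast h0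
  have e : 4 * (a * (a * x ^ 2 + b * x * y + c * y ^ 2)) = (2 * a * x + b * y) ^ 2 + d * y ^ 2 := by
    linear_combination (-y ^ 2) * hd
  by_cases hy : y = 0
  · subst hy
    have hx : x ≠ 0 := by
      rintro rfl
      exact not_isCoprime_zero_zero hxy
    have ha : a ≠ 0 := by
      rintro rfl
      nlinarith [sq_nonneg b]
    have : 0 < (a * x) ^ 2 := by positivity
    nlinarith
  · have : 0 < (d : ℤ) * y ^ 2 := by positivity
    nlinarith [sq_nonneg (2 * a * x + b * y)]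

theorem forms0 {d : ℕ} (h0 : 0 < d) {a b c a' b' c' : ℤ} (hd : b ^ 2 - 4 * a * c = -d)
    (hd' : b' ^ 2 - 4 * a' * c' = -d)
    (hp : ∀ p : ℕ, p.Prime → (p : ℤ) ∣ a → (p : ℤ) ∣ b → (p : ℤ) ∣ c → False)
    (ea : (4 * d : ℤ) ∣ a - a') (eb : (4 * d : ℤ) ∣ b - b') (ec : (4 * d : ℤ) ∣ c - c')
    (ha : 0 < a) : 0 < a' := by
  obtain ⟨x, y, hxy, hm⟩ := exists_val a b c hp (N := 2 * d) (by omega)
  push_cast at hm
  have e : (4 * d : ℤ) ∣ (a * x ^ 2 + b * x * y + c * y ^ 2) -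
      (a' * x ^ 2 + b' * x * y + c' * y ^ 2) := by
    have := dvd_add (dvd_add (ea.mul_right (x ^ 2)) (eb.mul_right (x * y))) (ec.mul_right (y ^ 2))
    rwa [show (a - a') * x ^ 2 + (b - b') * (x * y) + (c - c') * y ^ 2 =
      (a * x ^ 2 + b * x * y + c * y ^ 2) - (a' * x ^ 2 + b' * x * y + c' * y ^ 2) by ring] at this
  have hm' := ar_cop_congr e hm
  have h1 := chi_congr h0 e
  rw [chi_val hd hxy hm, chi_val hd' hxy hm'] at h1
  have h2 : 0 < a * x ^ 2 + b * x * y + c * y ^ 2 :=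
    (pos_iff_pos_of_mul_pos (mul_val_pos h0 hd hxy)).1 ha
  rw [Int.sign_eq_one_of_pos h2] at h1
  have h3 : (a' * x ^ 2 + b' * x * y + c' * y ^ 2).sign = 1 := by exact_mod_cast h1.symm
  exact (pos_iff_pos_of_mul_pos (mul_val_pos h0 hd' hxy)).2 (Int.sign_eq_one_iff_pos.1 h3)

theorem forms {D : ℕ} (h0 : 0 < D) {a b c a' b' c' : ℤ} (hd : b ^ 2 - 4 * a * c = -D)
    (hd' : b' ^ 2 - 4 * a' * c' = -D)
    (ea : (4 * D : ℤ) ∣ a - a') (eb : (4 * D : ℤ) ∣ b - b') (ec : (4 * D : ℤ) ∣ c - c')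
    (ha : 0 < a) : 0 < a' := by
  set g : ℕ := Int.gcd (Int.gcd a b) c with hg
  have hga : (g : ℤ) ∣ a := (Int.gcd_dvd_left _ _).trans (Int.gcd_dvd_left _ _)
  have hgb : (g : ℤ) ∣ b := (Int.gcd_dvd_left _ _).trans (Int.gcd_dvd_right _ _)
  have hgc : (g : ℤ) ∣ c := Int.gcd_dvd_right _ _
  have hmax : ∀ k : ℤ, k ∣ a → k ∣ b → k ∣ c → k ∣ g := fun k h1 h2 h3 =>
    Int.dvd_coe_gcd (Int.dvd_coe_gcd h1 h2) h3
  clear_value g
  obtain ⟨a0, rfl⟩ := hga
  obtain ⟨b0, rfl⟩ := hgb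
  obtain ⟨c0, rfl⟩ := hgc
  have hg0 : (0 : ℤ) < g := by
    rcases Nat.eq_zero_or_pos g with rfl | h
    · simp at ha
    · exact_mod_cast h
  have hD0 : (0 : ℤ) < D := by exact_mod_cast h0
  obtain ⟨d, hdd⟩ : ∃ d : ℕ, (d : ℤ) = 4 * a0 * c0 - b0 ^ 2 := by
    refine ⟨(4 * a0 * c0 - b0 ^ 2).toNat, Int.toNat_of_nonneg ?_⟩
    have : 0 < (g : ℤ) ^ 2 * (4 * a0 * c0 - b0 ^ 2) := by nlinarith
    exact ((pos_iff_pos_of_mul_pos this).1 (by positivity)).le
  have hDd : (D : ℤ) = g ^ 2 * d := by rw [hdd]; linear_combination hd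
  have hd0 : 0 < d := by
    rcases Nat.eq_zero_or_pos d with rfl | h
    · simp at hDd; omega
    · exact h
  have red1 : ∀ u0 u' : ℤ, (4 * D : ℤ) ∣ g * u0 - u' → ∃ u1, u' = g * u1 ∧ (4 * d : ℤ) ∣ u0 - u1 := by
    rintro u0 u' ⟨k, hk⟩
    exact ⟨u0 - 4 * g * d * k, by rw [hDd] at hk; linear_combination -hk, g * k, by ring⟩
  obtain ⟨a1, rfl, fa⟩ := red1 _ _ ea
  obtain ⟨b1, rfl, fb⟩ := red1 _ _ eb
  obtain ⟨c1, rfl, fc⟩ := red1 _ _ ec
  have e1 : b1 ^ 2 - 4 * a1 * c1 = -d := by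
    refine mul_left_cancel₀ (a := (g : ℤ) ^ 2) (by positivity) ?_
    rw [hDd] at hd'
    linear_combination hd'
  refine mul_pos hg0 (forms0 hd0 (a := a0) (b := b0) (c := c0) (by omega) e1 ?_ fa fb fc
    ((pos_iff_pos_of_mul_pos ha).1 hg0))
  intro p hp h1 h2 h3
  have := hmax (g * p) (mul_dvd_mul_left _ h1) (mul_dvd_mul_left _ h2) (mul_dvd_mul_left _ h3)
  have h4 : (p : ℤ) ∣ 1 := by
    rwa [← mul_dvd_mul_iff_left hg0.ne', mul_one]
  exact hp.one_lt.ne' (by exact_mod_cast Int.eq_one_of_dvd_one (by positivity) h4)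

/-- lower bound for the quadratic form on the support -/
theorem exists_gap {M : ℕ} (hM : 0 < M) (τ : ℍ) : ∃ δ : ℝ, 0 < δ ∧ ∀ w : Q2, w ≠ 0 →
    IsInt ((M : ℚ) • w) → δ ≤ ‖lin w τ‖ ^ 2 / τ.im := by
  have hi := τ.im_pos
  have hM' : (0 : ℝ) < M := by exact_mod_cast hM
  have one : ∀ x : ℚ, x ≠ 0 → IsInt ((M : ℚ) • x) → 1 / (M : ℝ) ^ 2 ≤ (x : ℝ) ^ 2 := by
    rintro x hx ⟨n, hn⟩
    simp only [Int.coe_castAddHom, smul_eq_mul] at hn
    have hn0 : n ≠ 0 := by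
      rintro rfl
      have : (M : ℚ) ≠ 0 := by exact_mod_cast hM.ne'
      exact mul_ne_zero this hx (by simpa using hn.symm)
    have h1 : (1 : ℝ) ≤ (n : ℝ) ^ 2 := by
      have : (1 : ℤ) ≤ n ^ 2 := by
        have := sq_pos_of_ne_zero hn0
        omega
      exact_mod_cast this
    have h2 : (n : ℝ) = M * x := by exact_mod_cast hn
    rw [div_le_iff₀ (by positivity)]
    rw [h2] at h1
    linarith [show ((M : ℝ) * x) ^ 2 = (x : ℝ) ^ 2 * M ^ 2 by ring]
  refine ⟨min (τ.im * (1 / (M : ℝ) ^ 2)) (1 / (M : ℝ) ^ 2 / τ.im), by positivity, fun w hw hI => ?_⟩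
  rw [PoiP.norm_lin_sq]
  by_cases h1 : w.1 = 0
  · have h2 : w.2 ≠ 0 := fun h2 => hw (Prod.ext h1 h2)
    refine (min_le_right _ _).trans (div_le_div_of_nonneg_right ?_ hi.le)
    have := one w.2 h2 hI.2
    simpa [h1] using this
  · refine (min_le_left _ _).trans ?_
    have := one w.1 h1 hI.1
    rw [le_div_iff₀ hi]
    nlinarith [sq_nonneg ((w.2 : ℝ) + w.1 * τ.re), mul_le_mul_of_nonneg_left this (sq_nonneg τ.im)]

open Classical in
/-- the theta series without its constant term -/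
def tail (c : Q2 → ℂ) (τ : ℍ) (T : ℝ) : ℂ := ∑' w : Q2, if w = 0 then 0 else c w * gau w τ T

theorem split {c : Q2 → ℂ} (h : SB c) (τ : ℍ) {T : ℝ} (hT : 0 < T) :
    ∑' w : Q2, c w * gau w τ T = c 0 + tail c τ T := by
  classical
  rw [(summable_K0 h τ hT).of_norm.tsum_eq_add_tsum_ite 0, tail]
  congr 1
  simp [gau, lin]

theorem tail_lim {c : Q2 → ℂ} (h : SB c) (τ : ℍ) :
    Tendsto (fun T : ℝ => (T : ℂ) * tail c τ T) atTop (𝓝 0) := by
  classical
  obtain ⟨M, hM, hL⟩ := id h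
  obtain ⟨δ, hδ, hgap⟩ := exists_gap hM τ
  have hs := summable_K0 h τ one_pos
  set S := ∑' w : Q2, ‖c w * gau w τ 1‖ with hS
  have hpi := Real.pi_pos
  have bd : ∀ T : ℝ, 1 ≤ T → ‖tail c τ T‖ ≤ Real.exp (-(π * δ) * (T - 1)) * S := by
    intro T hT
    refine tsum_of_norm_bounded (hs.hasSum.mul_left _) fun w => ?_
    split_ifs with hw
    · simp only [norm_zero]; positivity
    by_cases hc : c w = 0
    · simp [hc]
    have h1 := hgap w hw (hL.2 w hc)
    rw [norm_mul, norm_mul, mul_left_comm]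
    refine mul_le_mul_of_nonneg_left ?_ (norm_nonneg _)
    rw [gau, gau, Complex.norm_real, Complex.norm_real, Real.norm_of_nonneg (Real.exp_pos _).le,
      Real.norm_of_nonneg (Real.exp_pos _).le, ← Real.exp_add, Real.exp_le_exp, mul_div_assoc,
      mul_div_assoc]
    nlinarith [mul_le_mul_of_nonneg_left h1 (mul_nonneg hpi.le (sub_nonneg.2 hT))]
  have lim : Tendsto (fun T : ℝ => T * (Real.exp (-(π * δ) * (T - 1)) * S)) atTop (𝓝 0) := by
    have h1 := tendsto_rpow_mul_exp_neg_mul_atTop_nhds_zero 1 (π * δ) (by positivity)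
    have h2 := h1.mul_const (Real.exp (π * δ) * S)
    rw [zero_mul] at h2
    refine h2.congr fun T => ?_
    rw [Real.rpow_one, show -(π * δ) * (T - 1) = -(π * δ) * T + π * δ by ring, Real.exp_add]
    ring
  refine squeeze_zero_norm' ?_ lim
  filter_upwards [eventually_ge_atTop 1] with T hT
  rw [norm_mul, Complex.norm_real, Real.norm_of_nonneg (by linarith)]
  exact mul_le_mul_of_nonneg_left (bd T hT) (by linarith)

end OriP

theorem oriS : S_Ori := by
  intro t n htn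
  obtain ⟨D, hD⟩ : ∃ D : ℕ, (D : ℤ) = 4 * n - t ^ 2 :=
    ⟨(4 * n - t ^ 2).toNat, Int.toNat_of_nonneg (by omega)⟩
  have h0 : 0 < D := by omega
  refine ⟨4 * D, by omega, fun w w' h1 h2 h3 h4 hr hp => ?_⟩
  rw [Matrix.trace_fin_two] at h1 h3
  rw [Matrix.det_fin_two] at h2 h4
  have hc : ∀ i j, (4 * D : ℤ) ∣ w i j - w' i j := by
    intro i j
    have := congrFun (congrFun hr i) j
    simp only [red, Matrix.map_apply] at this
    have := (ZMod.intCast_eq_intCast_iff_dvd_sub _ _ _).1 this.symm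
    exact_mod_cast this
  refine OriP.forms h0 (a := w 1 0) (b := w 1 1 - w 0 0) (c := -w 0 1) (b' := w' 1 1 - w' 0 0)
    (c' := -w' 0 1) ?_ ?_ (hc 1 0) ?_ ?_ hp
  · rw [hD, ← h1, ← h2]; ring
  · rw [hD, ← h3, ← h4]; ring
  · rw [show w 1 1 - w 0 0 - (w' 1 1 - w' 0 0) = w 1 1 - w' 1 1 - (w 0 0 - w' 0 0) by ring]
    exact dvd_sub (hc 1 1) (hc 0 0)
  · rw [show -w 0 1 - -w' 0 1 = -(w 0 1 - w' 0 1) by ring]
    exact (hc 0 1).neg_right

theorem thetaS : S_Theta := by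
  intro ι _ τ c l hc hl h
  have hF : ∀ i, SB (FS (c i)) := fun i => by
    obtain ⟨M, hM, hL⟩ := hc i
    exact (hL.lev_FS hM).sb hM
  set E : ℝ → ℂ := fun s => ∑ i, ((s / l i : ℝ) : ℂ) * OriP.tail (FS (c i)) τ (s / l i) with hE
  have hlim : Tendsto E atTop (𝓝 0) := by
    have := tendsto_finsetSum (Finset.univ : Finset ι) fun i _ =>
      (OriP.tail_lim (hF i) τ).comp (tendsto_id.atTop_div_const (hl i))
    simpa [hE, Function.comp_def] using this
  have key : ∀ s : ℝ, 0 < s → ∑ i, c i 0 = s * (∑ i, FS (c i) 0 / l i) + E s := by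
    intro s hs
    have h1 := h s⁻¹ (inv_pos.2 hs)
    have h2 : ∑ i, c i 0 = ∑ i, (c i 0 + OriP.tail (c i) τ (l i * s⁻¹)) := by
      rw [Finset.sum_add_distrib]
      exact (add_eq_left.2 h1).symm
    rw [h2, hE, Finset.mul_sum, ← Finset.sum_add_distrib]
    refine Finset.sum_congr rfl fun i _ => ?_
    have hp : 0 < l i * s⁻¹ := mul_pos (hl i) (inv_pos.2 hs)
    have e : (l i * s⁻¹)⁻¹ = s / l i := by rw [mul_inv, inv_inv]; ring
    rw [← OriP.split (hc i) τ hp, K0_fe (hc i) τ hp, OriP.split (hF i) τ (inv_pos.2 hp),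
      ← Complex.ofReal_inv, e]
    push_cast
    ring
  have h3 : Tendsto (fun s : ℝ => 2 * E s - E (2 * s)) atTop (𝓝 (2 * 0 - 0)) :=
    (hlim.const_mul 2).sub (hlim.comp (tendsto_id.const_mul_atTop two_pos))
  have h4 : (fun s : ℝ => 2 * E s - E (2 * s)) =ᶠ[atTop] fun _ => ∑ i, c i 0 := by
    filter_upwards [eventually_gt_atTop 0] with s hs
    have a1 := key s hs
    have a2 := key (2 * s) (by linarith)
    push_cast at a2
    linear_combination a2 - 2 * a1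
  have := tendsto_nhds_unique (h3.congr' h4) tendsto_const_nhds
  rw [← this]
  ring

end

end Pool.Agent.P.MP_b8021b_nt.CM
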