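import Pool.Agent.P.MP_b8021b_nt.CM.Stmts2

/-! Functionals on zero-cycles of a product of two projective modular curves. -/

namespace Pool.Agent.P.MP_b8021b_nt.CM

open Complex hiding Gamma
open UpperHalfPlane hiding I
open MeasureTheory CongruenceSubgroup Filter
open scoped Real MatrixGroups ModularForm Topology ComplexConjugate Modular
open scoped LinearAlgebra.Projectivization

noncomputable section

namespace ProjP

variable {n n' M : ℕ} {X : Set (ℙ ℂ (Fin (n + 1) → ℂ))} {X' : Set (ℙ ℂ (Fin (n' + 1) → ℂ))}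

theorem lim_comp {Φ : Fin (n + 1) → ℍ → ℂ} {l l' : Filter ℍ} {x : ℙ ℂ (Fin (n + 1) → ℂ)}
    (h : IsLimit Φ l x) {g : ℍ → ℍ} (hg : Tendsto g l' l) :
    IsLimit (fun i τ => Φ i (g τ)) l' x :=
  let ⟨c, hc⟩ := h
  ⟨fun τ => c (g τ), hc.comp hg⟩

theorem lim_mul {Φ : Fin (n + 1) → ℍ → ℂ} {l : Filter ℍ} {x : ℙ ℂ (Fin (n + 1) → ℂ)}
    (h : IsLimit Φ l x) {a : ℍ → ℂ} (ha : ∀ᶠ τ in l, a τ ≠ 0) :
    IsLimit (fun i τ => a τ * Φ i τ) l x := by
  obtain ⟨c, hc⟩ := h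
  refine ⟨fun τ => c τ / a τ, hc.congr' (ha.mono fun τ h => ?_)⟩
  ext i
  simp only [Pi.smul_apply, smul_eq_mul]
  field_simp

theorem lim_ne {Φ : Fin (n + 1) → ℍ → ℂ} {l : Filter ℍ} [l.NeBot] {x : ℙ ℂ (Fin (n + 1) → ℂ)}
    (h : IsLimit Φ l x) : Φ ≠ 0 := by
  rintro rfl
  obtain ⟨c, hc⟩ := h
  apply x.rep_nonzero
  refine tendsto_nhds_unique hc (tendsto_const_nhds.congr fun τ => ?_)
  ext i
  simp

theorem tendsto_punct (g : GQ) (τ : ℍ) : Tendsto (actH g) (𝓝[≠] τ) (𝓝[≠] (actH g τ)) :=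
  tendsto_nhdsWithin_iff.2 ⟨((continuous_actH g).tendsto τ).mono_left nhdsWithin_le_nhds,
    eventually_mem_nhdsWithin.mono fun _ h e => h ((actH g).injective e)⟩

theorem tendsto_T : Tendsto (fun τ : ℍ => ModularGroup.T • τ) atImInfty atImInfty := by
  rw [atImInfty, tendsto_comap_iff]
  refine tendsto_comap.congr fun τ => ?_
  change τ.im = (ModularGroup.T • τ).im
  rw [im_SL, jf_T]
  simp

/-- a curve on `X` parametrised by modular functions -/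
structure Br (M : ℕ) (X : Set (ℙ ℂ (Fin (n + 1) → ℂ))) (ξ : Fin (n + 1) → ℍ → ℂ) (p : ℍ → X)
    (q : SL → X) : Prop where
  ino : ∀ i, InO M (ξ i)
  lp : ∀ τ, IsLimit ξ (𝓝[≠] τ) (p τ)
  lq : ∀ γ : SL, IsLimit (fun i τ => ξ i (γ • τ)) atImInfty (q γ)

variable {ξ : Fin (n + 1) → ℍ → ℂ} {p : ℍ → X} {q : SL → X}
  {ξ' : Fin (n' + 1) → ℍ → ℂ} {p' : ℍ → X'} {q' : SL → X'}

theorem br_const (M : ℕ) (x : X) : Br M X (fun i _ => x.1.rep i) (fun _ => x) fun _ => x :=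
  ⟨fun _ => inO_const M _, fun _ => ⟨fun _ => 1, by simp⟩,
    fun _ => ⟨fun _ => 1, by simp⟩⟩

theorem Br.mono {K : ℕ} (h : Br M X ξ p q) (hd : M ∣ K) : Br K X ξ p q :=
  ⟨fun i => (h.ino i).mono hd, h.lp, h.lq⟩

theorem Br.lev (hL : S_Lim) (h : Br M X ξ p q) {γ : SL} (hγ : γ ∈ Gamma M) (τ : ℍ) :
    p (γ • τ) = p τ := by
  have h1 := lim_comp (h.lp (actH (iota γ) τ)) (tendsto_punct (iota γ) τ)
  simp only [actH_iota] at h1
  have e : (fun i τ => ξ i (γ • τ)) = ξ := funext fun i => funext fun τ => (h.ino i).2 γ hγ τ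
  rw [e] at h1
  exact Subtype.ext (hL.1 _ _ _ _ _ h1 (h.lp τ))

theorem Br.q_left (hL : S_Lim) (h : Br M X ξ p q) {δ : SL} (hδ : δ ∈ Gamma M) (γ : SL) :
    q (δ * γ) = q γ := by
  have h1 := h.lq (δ * γ)
  have e : (fun i (τ : ℍ) => ξ i ((δ * γ) • τ)) = fun i τ => ξ i (γ • τ) :=
    funext fun i => funext fun τ => by rw [mul_smul]; exact (h.ino i).2 δ hδ _
  rw [e] at h1
  exact Subtype.ext (hL.1 _ _ _ _ _ h1 (h.lq γ))

theorem Br.q_T (hL : S_Lim) (h : Br M X ξ p q) (γ : SL) : q (γ * ModularGroup.T) = q γ := by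
  have h1 := h.lq (γ * ModularGroup.T)
  have h2 := lim_comp (h.lq γ) tendsto_T
  simp only [← mul_smul] at h2
  exact Subtype.ext (hL.1 _ _ _ _ _ h1 h2)

theorem Br.q_neg (hL : S_Lim) (h : Br M X ξ p q) (γ : SL) : q (-γ) = q γ := by
  have h1 := h.lq (-γ)
  simp only [ModularGroup.SL_neg_smul] at h1
  exact Subtype.ext (hL.1 _ _ _ _ _ h1 (h.lq γ))

theorem exists_cosetReps (hM : 0 < M) : ∃ R, CosetReps M R := by
  have : FI (Gamma M) ⊤ := ⟨le_top, by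
    rw [Subgroup.relIndex_top_right]; exact index_Gamma_ne_zero hM⟩
  obtain ⟨R, -, -, h⟩ := this.exists_reps
  exact ⟨R, fun γ => h γ trivial⟩

variable {f : (X × X' →₀ ℤ) →+ ℂ}

/-- the theorem of Manin and Drinfeld -/
theorem md (hR : S_R1) (hU : S_Unit) (hD : S_MD) (hL : S_Lim)
    (hf : ∀ D ∈ ratTrivial₂ X X', f D = 0) (hM : 0 < M) (h : Br M X ξ p q) (h' : Br M X' ξ' p' q')
    (γ : SL) : f (Finsupp.single (q γ, q' γ) 1) = f (Finsupp.single (q 1, q' 1) 1) := by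
  have h4 : 3 ≤ 4 * M := by omega
  have : NeZero (4 * M) := ⟨by omega⟩
  obtain ⟨R, hR'⟩ := exists_cosetReps (M := 4 * M) (by omega)
  have g := h.mono (dvd_mul_left M 4)
  have g' := h'.mono (dvd_mul_left M 4)
  refine hD (4 * M) R (fun γ => f (Finsupp.single (q γ, q' γ) 1)) h4 ⟨2 * M, by ring⟩ hR'
    (fun δ hδ γ => by rw [g.q_left hL hδ, g'.q_left hL hδ])
    (fun γ => by rw [g.q_T hL, g'.q_T hL]) (fun γ => by rw [g.q_neg hL, g'.q_neg hL])
    (fun a ha => ?_) γ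
  obtain ⟨u, h1, h2, h3⟩ := hU (4 * M) a ha
  have h0 : u ≠ 0 := fun e => h2 UpperHalfPlane.I (congrFun e _)
  have := hR _ _ _ X X' ξ ξ' (fun τ => (p τ, p' τ)) (fun γ => (q γ, q' γ)) f R h4 g.ino g'.ino
    (fun τ => ⟨g.lp τ, g'.lp τ⟩) (fun γ => ⟨g.lq γ, g'.lq γ⟩) hf hR' u h1 h0 _ h3
  have e : (fun τ => (ordAt u τ : ℂ) * f (Finsupp.single (p τ, p' τ) 1)) = 0 := funext fun τ => by
    rw [(h1.1.1.ord_eq_zero_iff h0 τ).2 (h2 τ)]; simp
  rwa [e, dmean_zero, mul_zero, zero_add] at this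

theorem rec_br (hR : S_R1) (hU : S_Unit) (hD : S_MD) (hL : S_Lim)
    (hf : ∀ D ∈ ratTrivial₂ X X', f D = 0) (hM : 0 < M) (h : Br M X ξ p q)
    (h' : Br M X' ξ' p' q') :
    Rec fun τ => f (Finsupp.single (p τ, p' τ) 1) - f (Finsupp.single (q 1, q' 1) 1) := by
  have hl : LevU M fun τ => f (Finsupp.single (p τ, p' τ) 1) := fun γ hγ τ => by
    simp only [h.lev hL hγ, h'.lev hL hγ]
  refine ⟨⟨M, hM, fun γ hγ τ => by simp only [h.lev hL hγ, h'.lev hL hγ]⟩, fun K hK u hu h0 => ?_⟩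
  have hKM : 0 < M * K := Nat.mul_pos hM hK
  have h4 : 3 ≤ 3 * (M * K) := by omega
  obtain ⟨R, hR'⟩ := exists_cosetReps (M := 3 * (M * K)) (by omega)
  have hd : M ∣ 3 * (M * K) := ⟨3 * K, by ring⟩
  have g := h.mono hd
  have g' := h'.mono hd
  have hu' : InO (3 * (M * K)) u := hu.mono ⟨3 * M, by ring⟩
  choose o ho using fun γ : SL => hL.2.2.2.2 (3 * (M * K)) (fun τ => u (γ • τ)) (by omega)
    (hu'.smulSL γ).1 (hu'.smulSL γ).2.per fun e => h0 (funext fun τ => by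
      simpa using congrFun e (γ⁻¹ • τ))
  have e1 := hR _ _ _ X X' ξ ξ' (fun τ => (p τ, p' τ)) (fun γ => (q γ, q' γ)) f R h4 g.ino g'.ino
    (fun τ => ⟨g.lp τ, g'.lp τ⟩) (fun γ => ⟨g.lq γ, g'.lq γ⟩) hf hR' u hu' h0 o ho
  have c := br_const (3 * (M * K)) (q 1)
  have c' := br_const (3 * (M * K)) (q' 1)
  have e2 := hR _ _ _ X X' _ _ (fun _ => (q 1, q' 1)) (fun _ => (q 1, q' 1)) f R h4 c.ino c'.ino
    (fun τ => ⟨c.lp τ, c'.lp τ⟩) (fun γ => ⟨c.lq γ, c'.lq γ⟩) hf hR' u hu' h0 o ho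
  simp only [md hR hU hD hL hf hM h h'] at e1
  have hc : HasLev fun _ : ℍ => f (Finsupp.single (q 1, q' 1) 1) :=
    ⟨1, one_pos, fun _ _ _ => rfl⟩
  have e3 := dmean_add (ord_good ⟨M, hM, hl⟩ hK hu h0) ((ord_good hc hK hu h0).smul (-1))
  rw [dmean_smul] at e3
  have hne : 2 * ((3 * (M * K) : ℕ) : ℂ) * ((Gamma (3 * (M * K))).index : ℂ) ≠ 0 :=
    mul_ne_zero (mul_ne_zero two_ne_zero (Nat.cast_ne_zero.2 (by omega)))
      (Nat.cast_ne_zero.2 (index_Gamma_ne_zero (by omega)))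
  have e4 := mul_left_cancel₀ hne (add_right_cancel (e1.trans e2.symm))
  rw [e4] at e3
  refine Eq.trans ?_ (e3.trans (by ring))
  congr 1
  ext τ
  simp only [Pi.add_apply, Pi.smul_apply, smul_eq_mul]
  ring

theorem rec_symb (hR : S_R1) (hU : S_Unit) (hD : S_MD) (hL : S_Lim)
    (hf : ∀ D ∈ ratTrivial₂ X X', f D = 0) (hM : 0 < M) (h : Br M X ξ p q)
    (h' : Br M X' ξ' p' q') {b : X} {b' : X'} (hb : q 1 = b ∨ q' 1 = b') :
    Rec fun τ => f (symb b b' (p τ) (p' τ)) := by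
  have h1 := rec_br hR hU hD hL hf hM h h'
  have h2 := rec_br hR hU hD hL hf hM h (br_const M b')
  have h3 := rec_br hR hU hD hL hf hM (br_const M b) h'
  convert (h1.add (h2.smul (-1))).add (h3.smul (-1)) using 1
  ext τ
  simp only [symb, map_add, map_sub, Pi.add_apply, Pi.smul_apply, smul_eq_mul]
  rcases hb with rfl | rfl <;> ring

/-- the branches attached to a tuple of modular forms -/
theorem exists_br (hL : S_Lim) {N : ℕ} {k : ℤ} (hN : 0 < N)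
    (Φ : Fin (n + 1) → ModularForm (Gamma N : Subgroup SL(2, ℤ)) k)
    {φ : ℍ → modCurve fun i => Φ i} {b : modCurve fun i => Φ i} (h : IsParam _ φ b) :
    (∃ ξ q, Br N _ ξ φ q ∧ q 1 = b) ∧ ∀ g : GQ, 0 < g.1.det →
      ∃ M, 0 < M ∧ ∃ ξ q, Br M _ ξ (fun τ => φ (actH g τ)) q := by
  obtain ⟨i0, h0⟩ := Function.ne_iff.1 (lim_ne h.2)
  have hG := fun i => inG_modularForm hN (Φ i)
  obtain ⟨d, hd, hd0, hdl⟩ : ∃ d : ℍ → ℂ, InG d ∧ (∀ τ, d τ ≠ 0) ∧
      ∀ (γ : SL) τ, d (γ • τ) = jf γ τ ^ (-(12 * k)) * d τ := by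
    have hl : ∀ (γ : SL) τ, ModularForm.discriminant (γ • τ) =
        jf γ τ ^ (12 : ℤ) * ModularForm.discriminant τ := fun γ τ => by
      have e := congrFun (inG_Delta.2 γ) τ
      simp only [sl] at e
      rw [← e, mul_left_comm, ← zpow_add₀ (jf_ne_zero γ τ)]
      simp
    refine ⟨fun τ => ModularForm.discriminant τ ^ (-k), ?_,
      fun τ => zpow_ne_zero _ (ModularForm.discriminant_ne_zero τ), fun γ τ => ?_⟩
    · rcases Int.eq_nat_or_neg k with ⟨m, rfl | rfl⟩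
      · convert inG_Delta_inv.pow m using 1
        ext τ; simp
      · convert inG_Delta.1.pow m using 1
        ext τ; simp
    · simp only [hl, mul_zpow, ← zpow_mul, mul_neg]
  have hlaw : ∀ i, ∀ γ ∈ Gamma N, ∀ τ, Φ i (γ • τ) = jf γ τ ^ k * Φ i τ := fun i γ hγ τ => by
    have e := congrFun ((hG i).2 γ hγ) τ
    simp only [sl] at e
    rw [← e, mul_left_comm, ← zpow_add₀ (jf_ne_zero γ τ)]
    simp
  let a : ℍ → ℂ := fun τ => Φ i0 τ ^ 11 * d τ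
  let ξ : Fin (n + 1) → ℍ → ℂ := fun i τ => a τ * Φ i τ
  have hξ : ∀ i, InO N (ξ i) := fun i => ⟨(((hG i0).1.pow 11).mul hd).mul (hG i).1, fun γ hγ τ => by
    have hj := jf_ne_zero γ τ
    simp only [ξ, a, hlaw _ γ hγ, hdl, mul_pow, ← zpow_natCast (jf γ τ ^ k), ← zpow_mul]
    have : jf γ τ ^ (k * (11 : ℕ)) * jf γ τ ^ (-(12 * k)) * jf γ τ ^ k = 1 := by
      rw [← zpow_add₀ hj, ← zpow_add₀ hj]
      convert zpow_zero _ using 2
      push_cast; ring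
    linear_combination (Φ i0 τ ^ 11 * d τ * Φ i τ) * this⟩
  have hi0 : ξ i0 ≠ 0 := fun e => h0 (by
    have e1 : (Φ i0 : ℍ → ℂ) ^ 12 * d = 0 := funext fun τ => by
      have := congrFun e τ
      simp only [ξ, a, Pi.zero_apply] at this
      simp only [Pi.mul_apply, Pi.pow_apply, Pi.zero_apply]
      linear_combination this
    rcases ((hG i0).1.1.pow 12).mul_eq_zero hd.1 e1 with e2 | e2
    · exact funext fun τ => pow_eq_zero_iff (n := 12) (by norm_num) |>.1 (congrFun e2 τ)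
    · exact absurd (congrFun e2 UpperHalfPlane.I) (hd0 _))
  have hp : ∀ τ, IsLimit ξ (𝓝[≠] τ) (φ τ) := fun τ => lim_mul (h.1 τ) (by
    by_contra hc
    refine hi0 ((hξ i0).1.1.eq_zero_of_frequently (τ := τ) ?_)
    exact (not_eventually.1 hc).mono fun σ e => by simp only [ξ, not_not.1 e, zero_mul])
  have hb : IsLimit ξ atImInfty b := lim_mul h.2 (by
    obtain ⟨Y, c, w, hc, H⟩ := (hξ i0).1.ne_zero_high hN (hξ i0).2.per hi0
    refine (atImInfty_mem _).2 ⟨Y + 1, fun τ hτ e => ?_⟩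
    have := H τ (by linarith)
    simp only [ξ, e, zero_mul, norm_zero] at this
    exact absurd this (not_le.2 (by positivity)))
  have key : ∀ g : GQ, ∀ M, 0 < M → (∀ i, InO M fun τ => ξ i (actH g τ)) →
      ∃ q, Br M _ (fun i τ => ξ i (actH g τ)) (fun τ => φ (actH g τ)) q := by
    intro g M hM hO
    have : ∀ γ : SL, ∃ x : modCurve fun i => Φ i,
        IsLimit (fun i τ => ξ i (actH g (γ • τ))) atImInfty x := fun γ => by
      obtain ⟨x, hx⟩ := hL.2.2.2.1 n M (fun i τ => ξ i (actH g (γ • τ))) hM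
        (fun i => ⟨((hO i).smulSL γ).1, ((hO i).smulSL γ).2.per⟩) fun e => hi0 (funext fun τ => by
          simpa using congrFun (congrFun e i0) (γ⁻¹ • (actH g).symm τ))
      exact ⟨⟨x, hL.2.1 n _ _ (fun τ => actH g (γ • τ)) (fun τ => a (actH g (γ • τ))) _ x
        (fun _ _ => rfl) hx⟩, hx⟩
    choose q hq using this
    exact ⟨q, hO, fun τ => lim_comp (hp _) (tendsto_punct g τ), hq⟩
  refine ⟨?_, fun g hg => ?_⟩
  · obtain ⟨q, hq⟩ := key 1 N hN (by simpa using hξ)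
    simp only [map_one, Equiv.Perm.coe_one, id] at hq
    refine ⟨_, q, hq, Subtype.ext (hL.1 _ _ _ _ _ ?_ hb)⟩
    simpa using hq.lq 1
  · choose M hM _ hO using fun i => (hξ i).comp_act hN hg
    simp only [act_val] at hO
    exact ⟨∏ i, M i, Finset.prod_pos fun i _ => hM i, _, key g _ (Finset.prod_pos fun i _ => hM i)
      fun i => (hO i).mono (Finset.dvd_prod_of_mem _ (Finset.mem_univ i))⟩

end ProjP

open ProjP in
theorem projS (hR : S_R1) (hU : S_Unit) (hD : S_MD) (hL : S_Lim) : S_Proj := by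
  intro N N' n n' k k' Φ Ψ φ b ψ b' f hN hN' h h' hf
  obtain ⟨⟨ξ, q, h1, e1⟩, -⟩ := exists_br hL hN Φ h
  obtain ⟨⟨ξ', q', h2, e2⟩, h3⟩ := exists_br hL hN' Ψ h'
  have l1 : ∀ σ, LevU N fun τ => f (symb b b' (φ τ) (ψ σ)) := fun σ γ hγ τ => by
    simp only [h1.lev hL hγ]
  have l2 : ∀ τ, LevU N' fun σ => f (symb b b' (φ τ) (ψ σ)) := fun τ γ hγ σ => by
    simp only [h2.lev hL hγ]
  refine ⟨⟨⟨N * N', Nat.mul_pos hN hN', fun σ => (l1 σ).mono (dvd_mul_right _ _),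
    fun τ => (l2 τ).mono (dvd_mul_left _ _)⟩, fun g hg => ?_, fun σ => ?_, fun τ => ?_⟩, l1, l2⟩
  · obtain ⟨M, hM, ζ, r, h4⟩ := h3 g hg
    exact rec_symb hR hU hD hL hf (Nat.mul_pos hN hM) (h1.mono (dvd_mul_right _ _))
      (h4.mono (dvd_mul_left _ _)) (Or.inl e1)
  · exact rec_symb hR hU hD hL hf hN h1 (br_const N (ψ σ)) (Or.inl e1)
  · exact rec_symb hR hU hD hL hf hN' (br_const N' (φ τ)) h2 (Or.inr e2)

end

end Pool.Agent.P.MP_b8021b_nt.CM
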