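import Pool.Agent.P.MP_b8021b_nt.CM.R1a

/-! Principal divisors on the complete modular curve. -/

namespace Pool.Agent.P.MP_b8021b_nt.CM

open UpperHalfPlane hiding I
open CongruenceSubgroup WithZero Pool.Agent.P.MP_7ebcb6_ag Filter
open scoped MatrixGroups WithZero IntermediateField Polynomial Topology
open scoped LinearAlgebra.Projectivization

noncomputable section

open R0P R1P in
theorem r1S : S_L1 → S_J → S_Lim → S_R1 := by
  classical
  intro h1 hJ hL M n n' X X' ξ ξ' p q f R hM3 hξ hξ' hp hq hf hR h hh h0 o ho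
  have hM : 0 < M := by omega
  have : NeZero M := ⟨hM.ne'⟩
  let _ : Fintype (SL ⧸ Gamma M) := Fintype.ofFinite _
  have hT : Transcendental ℂ (JK M) := transc hJ
  have hK := fixed_field (L := M) h1
  have hC : IsCurveField (KK M) := curve (th M) hT hK
  have hJ0 : JK M ≠ 0 := fun e => hT (e ▸ isAlgebraic_zero)
  have hJO : JO M ≠ 0 := fun e => hJ0 (by rw [JK, e, map_zero])
  have hT' : Transcendental ℂ (JK M)⁻¹ := fun e => hT (IsAlgebraic.inv_iff.1 e)
  have hfix' : ∀ r, th M r (JK M)⁻¹ = (JK M)⁻¹ := fun r => by rw [map_inv₀, fix_JK]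
  have hK' : ∀ x, (∀ r, th M r x = x) → x ∈ ℂ⟮(JK M)⁻¹⟯ := fun x hx => by
    rw [adjoin_inv]
    exact hK x hx
  let xO : Fin (n + 1) → OO M := fun i => ⟨ξ i, hξ i⟩
  let xO' : Fin (n' + 1) → OO M := fun i => ⟨ξ' i, hξ' i⟩
  let η : Fin (n + 1) → KK M := fun i => algebraMap _ (KK M) (xO i)
  let η' : Fin (n' + 1) → KK M := fun i => algebraMap _ (KK M) (xO' i)
  let hO : OO M := ⟨h, hh⟩
  have hO0 : hO ≠ 0 := fun e => h0 (congrArg Subtype.val e)
  let H : KK M := algebraMap _ (KK M) hO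
  have hH0 : H ≠ 0 := map_ne hO0
  let Val : Valuation (KK M) ℤᵐ⁰ → X × X' → Prop := fun v x =>
    IsValueAt v η x.1 ∧ IsValueAt v η' x.2
  let φ : Valuation (KK M) ℤᵐ⁰ → X × X' := fun v =>
    if e : ∃ x, Val v x then e.choose else p UpperHalfPlane.I
  have hφ : ∀ {v x}, IsPlace v → Val v x → φ v = x := by
    intro v x hv hx
    have e : ∃ x, Val v x := ⟨x, hx⟩
    simp only [φ, dif_pos e]
    exact Prod.ext (Subtype.ext (value_unique hv e.choose_spec.1 hx.1))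
      (Subtype.ext (value_unique hv e.choose_spec.2 hx.2))
  have hfin : ∀ {τ v c}, Lk M τ v c → Val v (p τ) := fun {τ v c} hl =>
    ⟨(lnk_pt hl).value (par_pt τ) xO (hp τ).1, (lnk_pt hl).value (par_pt τ) xO' (hp τ).2⟩
  obtain ⟨w, c0, hw⟩ := exists_lnk hC (par_inf hM)
    (fun a ha => (hL.2.2.2.2 M a.1 hM a.2.1 a.2.2.per (OO.ne ha)).imp fun _ => lead_iff.1)
    hJO (m := -M) (by omega) (ld_jj hJ hM)
  have hsh : ∀ (γ : SL) (a : OO M), (th1 M (γ⁻¹ : SL) a).1 = fun τ => a.1 (γ • τ) := fun γ a => by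
    rw [th1_mk, inv_inv]
  have hinf : ∀ γ : SL, Val (pull w (th M (γ⁻¹ : SL))) (q γ) := fun γ => by
    constructor <;> refine value_pull _ ?_ <;> simp only [η, η', th_map] <;>
      refine hw.value (par_inf hM) _ ?_ <;> simp only [hsh]
    · exact (hq γ).1
    · exact (hq γ).2
  have hoγ : ∀ γ : SL, o γ = c0 * ord (pull w (th M (γ⁻¹ : SL))) H := fun γ => by
    have e := hw.2.2 (th1 M (γ⁻¹ : SL) hO) (by simpa using hO0)
    rw [hsh, ← th_map] at e
    exact (lead_iff.1 (ho γ)).unique (par_inf hM) e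
  have hwJ : c0 * ord w (JK M) = -M :=
    (hw.2.2 _ hJO).unique (par_inf hM) (ld_jj hJ hM)
  have hinv : ∀ v : Valuation (KK M) ℤᵐ⁰,
      v ((JK M)⁻¹ - algebraMap ℂ (KK M) 0) < 1 ↔ ¬ v (JK M) ≤ 1 := fun v => by
    rw [map_zero, sub_zero, map_inv₀, not_le, inv_lt_one₀ (zero_lt_iff.2 (by simpa using hJ0))]
  have hw1 : w ((JK M)⁻¹ - algebraMap ℂ (KK M) 0) < 1 := by
    rw [map_zero, sub_zero, ← one_div]
    refine lt_of_ord one_ne_zero hJ0 ?_
    rw [ord_eq_zero_of_eq_one (map_one w)]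
    by_contra e
    have := mul_nonneg hw.2.1.le (not_lt.1 e)
    omega
  have hall : ∀ v c, IsPlace v → v (JK M - algebraMap ℂ (KK M) c) < 1 →
      ∃ τ c', Lk M τ v c' := by
    intro v c hv hvc
    obtain ⟨τ, rfl⟩ := hJ.2.1 c
    obtain ⟨u, c', hl⟩ := exists_link hC hT τ
    obtain ⟨r, rfl⟩ := transitive (th M) hT fix_JK hK hl.1 hv (hl.res (JO M)) hvc
    obtain ⟨γ, rfl⟩ := QuotientGroup.mk_surjective r
    exact ⟨_, c', hl.smul γ⟩
  have hval : ∀ v, IsPlace v → Val v (φ v) := by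
    intro v hv
    by_cases e : v (JK M) ≤ 1
    · obtain ⟨c, hc⟩ := hC.exists_residue hv (JK M) e
      obtain ⟨τ, c', hl⟩ := hall v c hv hc
      rw [hφ hv (hfin hl)]
      exact hfin hl
    · obtain ⟨r, rfl⟩ := transitive (th M) hT' hfix' hK' hw.1 hv hw1 ((hinv v).2 e)
      obtain ⟨γ, rfl⟩ := QuotientGroup.mk_surjective r
      have := hinf γ⁻¹
      rw [inv_inv] at this
      rwa [hφ hv this]
  have hlev : LevU M fun τ => f (Finsupp.single (p τ) 1) := fun γ hγ τ => by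
    obtain ⟨v, c, hl⟩ := exists_link hC hT τ
    have hl' := hl.smul γ⁻¹
    rw [inv_inv, (QuotientGroup.eq_one_iff _).2 (inv_mem hγ), map_one, pull_one] at hl'
    simp only [← hφ hl.1 (hfin hl), ← hφ hl.1 (hfin hl')]
  obtain ⟨Sh, hSh, -⟩ := hC.exists_divisor hH0
  let F : Valuation (KK M) ℤᵐ⁰ → ℂ := fun v => (ord v H : ℂ) * f (Finsupp.single (φ v) 1)
  have hout : ∀ v, IsPlace v → v ∉ Sh → ord v H = 0 := by
    intro v hv hn
    refine ord_eq_zero_of_eq_one ?_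
    by_contra e
    exact hn ((hSh v).2 ⟨hv, e⟩)
  have hF0 : ∀ v, IsPlace v → v ∉ Sh → F v = 0 := fun v hv hn => by
    simp only [F, hout v hv hn]
    simp
  have hsum : ∑ v ∈ Sh, F v = 0 := by
    have := hf (∑ v ∈ Sh, Finsupp.single (φ v) (ord v H)) (AddSubgroup.subset_closure
      ⟨KK M, inferInstance, inferInstance, hC, η, η', φ, H, Sh, hval, hH0,
        fun v hv => ((hSh v).1 hv).1, hout, rfl⟩)
    rw [map_sum] at this
    rw [← this]
    refine Finset.sum_congr rfl fun v _ => ?_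
    rw [← mul_one (ord v H), ← smul_eq_mul, ← Finsupp.smul_single, map_zsmul, zsmul_eq_mul]
  choose Sc hSc _ using fun c : ℂ => hC.sum_ord_zeros (sub_transc hT c)
  obtain ⟨Si, hSi, -⟩ := hC.sum_ord_zeros (sub_transc hT' 0)
  let T : ℂ → ℂ := fun c => ∑ w ∈ Sc c, F w
  let rs : Valuation (KK M) ℤᵐ⁰ → ℂ := fun v =>
    if e : ∃ c, v (JK M - algebraMap ℂ (KK M) c) < 1 then e.choose else 0
  have hrs : ∀ v c, IsPlace v → v (JK M - algebraMap ℂ (KK M) c) < 1 → rs v = c := by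
    intro v c hv hc
    have e : ∃ c, v (JK M - algebraMap ℂ (KK M) c) < 1 := ⟨c, hc⟩
    simp only [rs, dif_pos e]
    exact res_unique hv e.choose_spec hc
  let S := Sh.filter fun v => v (JK M) ≤ 1
  let Z : Finset ℂ := S.image rs
  have hZ : ∀ c, T c ≠ 0 → c ∈ Z := by
    intro c hc
    obtain ⟨v, hv, hFv⟩ := Finset.exists_ne_zero_of_sum_ne_zero hc
    obtain ⟨hv1, hv2⟩ := (hSc c v).1 hv
    refine Finset.mem_image.2 ⟨v, Finset.mem_filter.2 ⟨?_, le_one_of_res hv1 hv2⟩, hrs v c hv1 hv2⟩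
    by_contra hn
    exact hFv (hF0 v hv1 hn)
  have hTZ : ∑ c ∈ Z, T c = ∑ v ∈ S, F v := by
    rw [← Finset.sum_fiberwise_of_maps_to (s := S) (t := Z) (g := rs)
      fun v hv => Finset.mem_image_of_mem _ hv]
    refine Finset.sum_congr rfl fun c _ =>
      (Finset.sum_subset (fun v hv => ?_) fun v hv hn => ?_).symm
    · obtain ⟨hv1, hv2⟩ := Finset.mem_filter.1 hv
      obtain ⟨hv3, hv4⟩ := Finset.mem_filter.1 hv1
      have hpl := ((hSh v).1 hv3).1
      obtain ⟨c', hc'⟩ := hC.exists_residue hpl (JK M) hv4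
      exact (hSc c v).2 ⟨hpl, by rwa [← hv2, hrs v c' hpl hc']⟩
    · obtain ⟨hv1, hv2⟩ := (hSc c v).1 hv
      exact hF0 v hv1 fun e => hn (Finset.mem_filter.2
        ⟨Finset.mem_filter.2 ⟨e, le_one_of_res hv1 hv2⟩, hrs v c hv1 hv2⟩)
  have hsplit : ∑ c ∈ Z, T c + ∑ v ∈ Si, F v = 0 := by
    rw [← hsum, ← Finset.sum_filter_add_sum_filter_not Sh fun v => v (JK M) ≤ 1, hTZ]
    congr 1
    refine (Finset.sum_subset (fun v hv => ?_) fun v hv hn => ?_).symm
    · obtain ⟨hv1, hv2⟩ := Finset.mem_filter.1 hv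
      exact (hSi v).2 ⟨((hSh v).1 hv1).1, (hinv v).2 hv2⟩
    · obtain ⟨hv1, hv2⟩ := (hSi v).1 hv
      exact hF0 v hv1 fun e => hn (Finset.mem_filter.2 ⟨e, (hinv v).1 hv2⟩)
  set w0 : ℍ → ℂ := fun τ => (ordAt h τ : ℂ) * f (Finsupp.single (p τ) 1) with hw0
  have hgood : DGood actH G0 w0 := ord_good ⟨M, hM, hlev⟩ hM hh h0
  set N := Module.finrank ℂ⟮JK M⟯ (KK M) with hN
  have hn0 : (N : ℂ) ≠ 0 := by
    have := hC.finite hT
    exact_mod_cast (Module.finrank_pos (R := ℂ⟮JK M⟯) (M := KK M)).ne'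
  have hW : (∑ r : SL ⧸ Gamma M, fun τ => w0 (actH (iota r.out⁻¹) τ)) =
      ((Fintype.card (SL ⧸ Gamma M) : ℂ) / (2 * N)) • fun τ => (stab τ : ℂ) * T (jj τ) := by
    funext τ
    obtain ⟨v, c, hl⟩ := exists_link hC hT τ
    have e1 : ∀ r : SL ⧸ Gamma M, w0 (actH (iota r.out⁻¹) τ) = c * F (pull v (th M r)) := by
      intro r
      have hl' := hl.smul r.out
      rw [QuotientGroup.out_eq'] at hl'
      have e := hl'.2.2 hO hO0
      simp only [actH_iota, hw0, F, hφ hl'.1 (hfin hl')]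
      rw [← mul_assoc, ← Int.cast_mul, ← e, Int.cast_natCast]
    have e2 := count (th M) hT fix_JK hK hl.1 (hl.res (JO M)) (Sc (jj τ)) (hSc (jj τ)) F
    have hne : JO M - algebraMap ℂ (OO M) (jj τ) ≠ 0 := fun e => hT (by
      rw [JK, sub_eq_zero.1 e, ← IsScalarTower.algebraMap_apply]
      exact isAlgebraic_algebraMap _)
    have e3 := hl.2.2 _ hne
    rw [← sub_const] at e3
    have e4 : 2 * ordAt (JO M - algebraMap ℂ (OO M) (jj τ)).1 τ = stab τ := hJ.2.2.1 τ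
    have e5 : (stab τ : ℂ) = 2 * (c * (ord v (JK M - algebraMap ℂ (KK M) (jj τ)) : ℂ)) := by
      rw [← e4, JK, ← Int.cast_mul, ← e3]
      push_cast
      rfl
    rw [Finset.sum_apply, Pi.smul_apply, smul_eq_mul, e5]
    simp only [e1]
    rw [← Finset.mul_sum, div_mul_eq_mul_div, eq_div_iff (mul_ne_zero two_ne_zero hn0)]
    change (N : ℂ) * _ = _ * (ord v (JK M - algebraMap ℂ (KK M) (jj τ)) : ℂ) * T (jj τ) at e2
    linear_combination 2 * c * e2
  have hd := dmean_sum (ρ := actH) (Γ0 := G0) Finset.univ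
    (fun (r : SL ⧸ Gamma M) τ => w0 (actH (iota r.out⁻¹) τ))
    fun r _ => hgood.comp_act uni_G0 _
  rw [hW, dmean_smul, mean_one hJ T Z hZ] at hd
  simp only [dmean_act uni_G0, Finset.sum_const, Finset.card_univ, nsmul_eq_mul] at hd
  rw [div_mul_eq_mul_div, div_eq_iff (mul_ne_zero two_ne_zero hn0)] at hd
  have e6 := count (th M) hT' hfix' hK' hw.1 hw1 Si hSi F
  rw [adjoin_inv, map_zero, sub_zero, ord_inv] at e6
  have e7 : ∑ γ ∈ R, (o γ : ℂ) * f (Finsupp.single (q γ) 1) =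
      c0 * ∑ r, F (pull w (th M r)) := by
    rw [Finset.mul_sum, ← sum_reps hR fun r => c0 * F (pull w (th M r))]
    refine Finset.sum_congr rfl fun γ _ => ?_
    simp only [F, hφ (place_pull hw.1 _) (hinf γ)]
    rw [hoγ γ, Int.cast_mul, mul_assoc]
  have e8 : (c0 : ℂ) * (ord w (JK M) : ℂ) = -M := by exact_mod_cast hwJ
  have e9 : ((Gamma M).index : ℂ) = Fintype.card (SL ⧸ Gamma M) := by
    rw [Subgroup.index, Nat.card_eq_fintype_card]
  rw [e7, e9]
  refine mul_left_cancel₀ hn0 ?_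
  push_cast at e6
  linear_combination (-M : ℂ) * hd + c0 * e6 +
    (M : ℂ) * Fintype.card (SL ⧸ Gamma M) * hsplit -
    (Fintype.card (SL ⧸ Gamma M) : ℂ) * (∑ v ∈ Si, F v) * e8

end

end Pool.Agent.P.MP_b8021b_nt.CM
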