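import Pool.Agent.P.MP_b8021b_nt.CM.Unit0

/-! Modular units from Eisenstein series. -/

namespace Pool.Agent.P.MP_b8021b_nt.CM

open Complex hiding Gamma
open UpperHalfPlane hiding I
open MeasureTheory CongruenceSubgroup Filter
open scoped Real MatrixGroups ModularForm Topology ComplexConjugate Modular

noncomputable section

namespace UnitP

theorem sum_min (M : ℕ) : 4 * ∑ i ∈ Finset.range M, min i (M - i) + M % 2 = M ^ 2 := by
  induction M using Nat.twoStepInduction with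
  | zero => simp
  | one => simp
  | more M ih _ =>
    have h1 : ∑ i ∈ Finset.range M, min (i + 1) (M + 2 - (i + 1)) =
        ∑ i ∈ Finset.range M, (min i (M - i) + 1) :=
      Finset.sum_congr rfl fun i hi => by
        have := Finset.mem_range.1 hi
        omega
    have h2 : min (M + 1) (M + 2 - (M + 1)) = 1 := by omega
    rw [Finset.sum_range_succ', Finset.sum_range_succ, h1, h2, Finset.sum_add_distrib,
      Finset.sum_const, Finset.card_range, smul_eq_mul, Nat.add_mod_right]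
    simp only [Nat.zero_min]
    nlinarith

theorem card_half {M : ℕ} (hM : 0 < M) :
    ∑ i ∈ Finset.range M, (if i = 0 ∨ 2 * i = M then 1 else 0) + M % 2 = 2 := by
  rw [← Finset.card_filter]
  rcases Nat.mod_two_eq_zero_or_one M with h | h
  · have h1 : (Finset.range M).filter (fun i => i = 0 ∨ 2 * i = M) = {0, M / 2} := by
      ext i
      simp only [Finset.mem_filter, Finset.mem_range, Finset.mem_insert, Finset.mem_singleton]
      omega
    rw [h1, Finset.card_pair (by omega), h]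
  · have h1 : (Finset.range M).filter (fun i => i = 0 ∨ 2 * i = M) = {0} := by
      ext i
      simp only [Finset.mem_filter, Finset.mem_range, Finset.mem_singleton]
      omega
    rw [h1, Finset.card_singleton, h]

variable {M : ℕ} [NeZero M]

theorem sum_val (f : ℕ → ℕ) : ∑ x : ZMod M, f x.val = ∑ i ∈ Finset.range M, f i := by
  obtain ⟨n, rfl⟩ := Nat.exists_eq_succ_of_ne_zero (NeZero.ne M)
  exact Fin.sum_univ_eq_sum_range f (n + 1)

/-- the weight -/
def kk (a : ZMod M × ZMod M) : ℕ := if a + a = 0 then 4 else 3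

/-- the order at infinity -/
def oo (a : ZMod M × ZMod M) : ℤ := 12 * (tt a.1 : ℤ) - kk a * M

theorem sum_oo : ∑ a ∈ Finset.univ.erase (0 : ZMod M × ZMod M), oo a = 0 := by
  have h1 : 4 * ∑ x : ZMod M, tt x + M % 2 = M ^ 2 := by
    rw [← sum_min M, ← sum_val]
    simp only [tt, ZMod.valMinAbs_natAbs_eq_min]
  have h2 : ∑ x : ZMod M, (if x + x = 0 then 1 else 0) + M % 2 = 2 := by
    refine Eq.trans ?_ (card_half (Nat.pos_of_ne_zero (NeZero.ne M)))
    rw [← sum_val fun i => if i = 0 ∨ 2 * i = M then 1 else 0]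
    simp only [ZMod.val_eq_zero, ← ZMod.neg_eq_self_iff, neg_eq_iff_add_eq_zero]
  have h3 : ∑ a : ZMod M × ZMod M, kk a =
      3 * M ^ 2 + (∑ x : ZMod M, if x + x = 0 then 1 else 0) ^ 2 := by
    have h4 : ∀ a : ZMod M × ZMod M, kk a =
        3 + (if a.1 + a.1 = 0 then 1 else 0) * (if a.2 + a.2 = 0 then 1 else 0) := fun a => by
      simp only [kk, Prod.ext_iff, Prod.fst_add, Prod.snd_add, Prod.fst_zero, Prod.snd_zero]
      by_cases h : a.1 + a.1 = 0 <;> by_cases h' : a.2 + a.2 = 0 <;> simp [h, h']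
    simp only [h4]
    rw [Finset.sum_add_distrib, sq (∑ x : ZMod M, _), Finset.sum_mul_sum, ← Fintype.sum_prod_type']
    simp [ZMod.card, sq, mul_comm]
  have h5 : ∑ a : ZMod M × ZMod M, tt a.1 = M * ∑ x : ZMod M, tt x := by
    rw [Fintype.sum_prod_type, Finset.mul_sum]
    simp [ZMod.card]
  have h6 : oo (0 : ZMod M × ZMod M) = -4 * M := by simp [oo, kk, tt]
  rw [Finset.sum_erase_eq_sub (Finset.mem_univ _), h6]
  simp only [oo]
  rw [Finset.sum_sub_distrib, ← Finset.mul_sum, ← Finset.sum_mul, ← Nat.cast_sum, ← Nat.cast_sum,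
    h3, h5]
  generalize ∑ x : ZMod M, tt x = S at *
  generalize (∑ x : ZMod M, if x + x = 0 then 1 else 0) = N at *
  have h7 : 12 * S + 4 = 3 * M ^ 2 + N ^ 2 := by
    rcases Nat.mod_two_eq_zero_or_one M with h | h
    · obtain rfl : N = 2 := by omega
      omega
    · obtain rfl : N = 1 := by omega
      omega
  rw [← h7]
  push_cast
  ring

/-- right action on pairs of residues -/
def sm (γ : SL) : ZMod M × ZMod M →+ ZMod M × ZMod M where
  toFun a := (a.1 * (γ 0 0 : ℤ) + a.2 * (γ 1 0 : ℤ), a.1 * (γ 0 1 : ℤ) + a.2 * (γ 1 1 : ℤ))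
  map_zero' := by simp
  map_add' a b := by
    refine Prod.ext ?_ ?_ <;> simp only [Prod.fst_add, Prod.snd_add] <;> ring

omit [NeZero M] in
theorem sm_inj (γ : SL) : Function.Injective (sm (M := M) γ) := by
  refine (injective_iff_map_eq_zero _).2 fun a h => ?_
  have h0 : γ 0 0 * γ 1 1 - γ 0 1 * γ 1 0 = 1 := by
    rw [← Matrix.det_fin_two]
    exact γ.2
  have h1 : ((γ 0 0 : ℤ) : ZMod M) * (γ 1 1 : ℤ) - (γ 0 1 : ℤ) * (γ 1 0 : ℤ) = 1 := by
    exact_mod_cast congrArg (Int.cast : ℤ → ZMod M) h0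
  have h2 : a.1 * (γ 0 0 : ℤ) + a.2 * (γ 1 0 : ℤ) = 0 := congrArg Prod.fst h
  have h3 : a.1 * (γ 0 1 : ℤ) + a.2 * (γ 1 1 : ℤ) = 0 := congrArg Prod.snd h
  refine Prod.ext ?_ ?_
  · change a.1 = 0
    linear_combination (γ 1 1 : ℤ) * h2 - (γ 1 0 : ℤ) * h3 - a.1 * h1
  · change a.2 = 0
    linear_combination (γ 0 0 : ℤ) * h3 - (γ 0 1 : ℤ) * h2 - a.2 * h1

omit [NeZero M] in
theorem sm_ne (γ : SL) (a : ZMod M × ZMod M) : sm γ a ≠ 0 ↔ a ≠ 0 :=
  map_ne_zero_iff _ (sm_inj γ)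

omit [NeZero M] in
theorem two_sm (γ : SL) (a : ZMod M × ZMod M) : sm γ a + sm γ a = 0 ↔ a + a = 0 := by
  rw [← map_add, map_eq_zero_iff _ (sm_inj γ)]

omit [NeZero M] in
theorem kk_sm (γ : SL) (a : ZMod M × ZMod M) : kk (sm γ a) = kk a := by
  simp only [kk, two_sm]

omit [NeZero M] in
theorem kk_ge (a : ZMod M × ZMod M) : 3 ≤ kk a := by
  rw [kk]
  split_ifs <;> omega

/-- the unit -/
def hu (a : ZMod M × ZMod M) : ℍ → ℂ :=
  GS M (kk a) a ^ 12 * (fun τ => (ModularForm.discriminant τ)⁻¹) ^ kk a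

theorem GS_law (hE : S_Eis) (a : ZMod M × ZMod M) (γ : SL) (τ : ℍ) :
    GS M (kk a) a (γ • τ) = jf γ τ ^ kk a * GS M (kk (sm γ a)) (sm γ a) τ := by
  rw [kk_sm]
  exact (hE M).2.1 _ (kk_ge a) a γ τ

theorem hu_law (hE : S_Eis) (a : ZMod M × ZMod M) (γ : SL) (τ : ℍ) :
    hu a (γ • τ) = hu (sm γ a) τ := by
  simp only [hu, Pi.mul_apply, Pi.pow_apply]
  rw [GS_law hE, apply_of_sl (inG_Delta.2 γ), kk_sm]
  have h1 := jf_ne_zero γ τ
  have h2 := ModularForm.discriminant_ne_zero τ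
  rw [zpow_ofNat, mul_inv, mul_pow, mul_pow, inv_pow (jf γ τ ^ 12), ← pow_mul, ← pow_mul,
    mul_comm 12]
  field_simp

theorem hu_inG (hE : S_Eis) (a : ZMod M × ZMod M) : InG (hu a) :=
  (((hE M).1 _ (kk_ge a) a).pow 12).mul (inG_Delta_inv.pow _)

/-- the leading coefficient -/
def cc (a : ZMod M × ZMod M) : ℂ := ∑' w, gl M (kk a - 1) a w

theorem GS_lim' (a : ZMod M × ZMod M) :
    Tendsto (fun τ : ℍ => GS M (kk a) a τ * e (-((tt a.1 : ℕ) * τ) / M)) atImInfty (𝓝 (cc a)) := by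
  have h1 := kk_ge a
  have h2 := GS_lim (j := kk a - 1) (by omega) a
  rwa [show kk a - 1 + 1 = kk a by omega] at h2

theorem hu_lim (a : ZMod M × ZMod M) :
    Tendsto (fun τ : ℍ => hu a τ * e (-(oo a * τ) / M)) atImInfty (𝓝 (cc a ^ 12)) := by
  have h1 := ((GS_lim' a).pow 12).mul
    ((ModularForm.tendsto_atImInfty_tprod_one_sub_eta_q_pow.inv₀ one_ne_zero).pow (kk a))
  rw [inv_one, one_pow, mul_one] at h1
  refine h1.congr fun τ => ?_
  have h2 : e (-(oo a * τ) / M) = e (-((tt a.1 : ℕ) * τ) / M) ^ 12 * e τ ^ kk a := by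
    rw [← e_nat_mul, ← e_nat_mul, ← e_add, oo]
    congr 1
    have := M_ne (M := M)
    push_cast
    field_simp
    ring
  have h3 : Function.Periodic.qParam 1 τ = e τ := by simp [Function.Periodic.qParam, e]
  have h4 := e_ne_zero τ
  simp only [hu, Pi.mul_apply, Pi.pow_apply]
  rw [h2, ModularForm.discriminant_eq_q_prod, h3, mul_inv, mul_pow, mul_pow, inv_pow (e τ)]
  field_simp

theorem GS_ne (hE : S_Eis) {a : ZMod M × ZMod M} (ha : a ≠ 0) : GS M (kk a) a ≠ 0 := by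
  have key : ∀ b : ZMod M × ZMod M, b.1 ≠ 0 → (b.1 + b.1 ≠ 0 ∨ b + b = 0) →
      GS M (kk b) b ≠ 0 := fun b h1 h2 h => by
    have h3 := GS_lim' b
    simp only [h, Pi.zero_apply, zero_mul] at h3
    refine gl_ne b h1 (h2.imp_right fun h4 => ⟨h4, ?_⟩) (tendsto_nhds_unique h3 tendsto_const_nhds)
    rw [kk, if_pos h4]
    decide
  have hS : (sm ModularGroup.S a).1 = a.2 := by simp [sm, ModularGroup.S]
  have key2 : a.2 ≠ 0 → (a.2 + a.2 ≠ 0 ∨ a + a = 0) → GS M (kk a) a ≠ 0 := fun h1 h2 h => by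
    refine key (sm ModularGroup.S a) (by rwa [hS]) (by rwa [hS, two_sm]) (funext fun τ => ?_)
    have h3 := GS_law hE a ModularGroup.S τ
    rw [h, Pi.zero_apply] at h3
    exact (mul_eq_zero.1 h3.symm).resolve_left (pow_ne_zero _ (jf_ne_zero _ τ))
  by_cases h : a + a = 0
  · by_cases h1 : a.1 = 0
    · exact key2 (fun h2 => ha (Prod.ext h1 h2)) (Or.inr h)
    · exact key a h1 (Or.inr h)
  · by_cases h1 : a.1 + a.1 = 0
    · have h2 : a.2 + a.2 ≠ 0 := fun h2 => h (Prod.ext h1 h2)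
      exact key2 (fun h3 => h2 (by rw [h3, add_zero])) (Or.inl h2)
    · exact key a (fun h3 => h1 (by rw [h3, add_zero])) (Or.inl h1)

theorem const_of_lim {f : ℍ → ℂ} {c : ℂ} (h : Hol f) (hl : ∀ (γ : SL) (τ : ℍ), f (γ • τ) = f τ)
    (hc : Tendsto f atImInfty (𝓝 c)) : f = fun _ => c := by
  have hs : ∀ γ : SL, f ∣[(0 : ℤ)] γ = f := fun γ => by
    funext τ
    rw [ModularForm.SL_slash_apply, hl]
    simp
  let F : ModularForm 𝒮ℒ 0 :=
    { toFun := f
      slash_action_eq' := fun _ ⟨γ, hγ⟩ => hγ ▸ hs γ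
      holo' := hol_iff_mdiff.1 h
      bdd_at_cusps' := fun {c} hc' => by
        rw [Subgroup.IsArithmetic.isCusp_iff_isCusp_SL2Z] at hc'
        rw [OnePoint.isBoundedAt_iff_forall_SL2Z hc']
        intro γ _
        rw [hs γ]
        exact hc.isBigO_one ℝ }
  obtain ⟨d, hd⟩ : ∃ d : ℂ, f = fun _ => d := ModularFormClass.levelOne_weight_zero_const F
  subst hd
  rw [tendsto_nhds_unique hc tendsto_const_nhds]

theorem prod_ne {ι : Type} (s : Finset ι) (F : ι → ℍ → ℂ) (h : ∀ i ∈ s, Hol (F i) ∧ F i ≠ 0) :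
    Hol (∏ i ∈ s, F i) ∧ ∏ i ∈ s, F i ≠ 0 :=
  Finset.prod_induction F (fun f => Hol f ∧ f ≠ 0)
    (fun _ _ ha hb => ⟨ha.1.mul hb.1, fun h0 => (ha.1.mul_eq_zero hb.1 h0).elim ha.2 hb.2⟩)
    ⟨hol_const 1, one_ne_zero⟩ h

theorem hu_ne (hE : S_Eis) {a : ZMod M × ZMod M} (ha : a ≠ 0) : hu a ≠ 0 := fun h => by
  have h1 := ((hE M).1 _ (kk_ge a) a).1
  refine (prod_ne (Finset.range 12) (fun _ => GS M (kk a) a) fun _ _ => ⟨h1, GS_ne hE ha⟩).2 ?_
  rw [Finset.prod_const, Finset.card_range]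
  funext τ
  exact (mul_eq_zero.1 (congrFun h τ)).resolve_right
    (pow_ne_zero _ (inv_ne_zero (ModularForm.discriminant_ne_zero τ)))

theorem norm_const (hE : S_Eis) : ∏ a ∈ Finset.univ.erase (0 : ZMod M × ZMod M), hu a =
    fun _ => ∏ a ∈ Finset.univ.erase (0 : ZMod M × ZMod M), cc a ^ 12 := by
  refine const_of_lim (Hol.prod _ _ fun a _ => (hu_inG hE a).1) (fun γ τ => ?_) ?_
  · simp only [Finset.prod_apply, hu_law hE]
    refine Finset.prod_bijective (sm γ) (Finite.injective_iff_bijective.1 (sm_inj γ))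
      (fun a => ?_) fun _ _ => rfl
    simp only [Finset.mem_erase, Finset.mem_univ, and_true, sm_ne]
  · refine (tendsto_finsetProd _ fun a _ => hu_lim a).congr fun τ => ?_
    rw [Finset.prod_mul_distrib, Finset.prod_apply]
    have h1 : ∏ a ∈ Finset.univ.erase (0 : ZMod M × ZMod M), e (-(oo a * τ) / M) = 1 := by
      simp only [e]
      rw [← Complex.exp_sum, ← Finset.mul_sum, ← Finset.sum_div, Finset.sum_neg_distrib,
        ← Finset.sum_mul, ← Int.cast_sum, sum_oo]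
      simp
    rw [h1, mul_one]

theorem all_ne (hE : S_Eis) {a : ZMod M × ZMod M} (ha : a ≠ 0) :
    cc a ^ 12 ≠ 0 ∧ ∀ τ, hu a τ ≠ 0 := by
  have h1 := (prod_ne (Finset.univ.erase (0 : ZMod M × ZMod M)) hu
    fun b hb => ⟨(hu_inG hE b).1, hu_ne hE (Finset.mem_erase.1 hb).1⟩).2
  have h2 : ∏ a ∈ Finset.univ.erase (0 : ZMod M × ZMod M), cc a ^ 12 ≠ 0 := fun h => by
    rw [norm_const hE, h] at h1
    exact h1 rfl
  have h3 : a ∈ Finset.univ.erase (0 : ZMod M × ZMod M) :=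
    Finset.mem_erase.2 ⟨ha, Finset.mem_univ a⟩
  refine ⟨Finset.prod_ne_zero_iff.1 h2 a h3, fun τ => ?_⟩
  rw [← congrFun (norm_const hE) τ, Finset.prod_apply] at h2
  exact Finset.prod_ne_zero_iff.1 h2 a h3

end UnitP

open UnitP in
theorem unitS : S_Eis → S_Unit := fun hE M _ a ha => by
  refine ⟨hu a, ⟨hu_inG hE a, fun γ hγ τ => ?_⟩, (all_ne hE ha).2, fun γ => ?_⟩
  · obtain ⟨h1, h2, h3, h4⟩ := Gamma_mem.1 hγ
    have h5 : sm γ a = a := by
      refine Prod.ext ?_ ?_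
      · change a.1 * (γ 0 0 : ℤ) + a.2 * (γ 1 0 : ℤ) = a.1
        rw [h1, h3, mul_one, mul_zero, add_zero]
      · change a.1 * (γ 0 1 : ℤ) + a.2 * (γ 1 1 : ℤ) = a.2
        rw [h2, h4, mul_one, mul_zero, zero_add]
    rw [hu_law hE, h5]
  · have h1 : uord M a γ = oo (sm γ a) := by
      rw [oo, kk_sm, uord, kk, Nat.cast_ite]
      rfl
    refine ⟨_, (all_ne hE ((sm_ne γ a).2 ha)).1, ?_⟩
    simp only [hu_law hE, h1]
    exact hu_lim _

end

end Pool.Agent.P.MP_b8021b_nt.CM
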