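import Pool.Agent.P.MP_b8021b_nt.CM.All
import Pool.Agent.P.MP_b8021b_nt.CM.R1
import Pool.Agent.P.MP_b8021b_nt.CM.Unit
import Pool.Agent.P.MP_b8021b_nt.CM.MD
import Pool.Agent.P.MP_b8021b_nt.CM.Ori
import Pool.Agent.P.MP_b8021b_nt.CM.Heeg
import Pool.Agent.P.MP_b8021b_nt.CM.Lim
import Pool.Agent.P.MP_b8021b_nt.CM.Proj
import Pool.Agent.P.MP_b8021b_nt.CM.Final2

/-! Assembly of the packages for the projective version. -/

namespace Pool.Agent.P.MP_b8021b_nt.CM

theorem projAll : S_Proj := projS (r1S l1All jinv limS) (unitS eis) mdS limS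

theorem heegAll : S_Heeg := heegS mainAll oriS thetaS

end Pool.Agent.P.MP_b8021b_nt.CM
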