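import Pool.Agent.P.MP_b8021b_nt.CM.Lib
import Pool.Agent.P.MP_b8021b_nt.CM.StmtsW

/-! Assembly of the analytic part. -/

namespace Pool.Agent.P.MP_b8021b_nt.CM

open Complex hiding Gamma
open UpperHalfPlane hiding I
open MeasureTheory CongruenceSubgroup Filter
open scoped Real MatrixGroups ModularForm Topology ComplexConjugate Modular

noncomputable section

namespace AnP

theorem base_sum {A : ℝ} {ι : Type} (t : Finset ι) (g : ι → ℝ × ℝ → ℂ)
    (h : ∀ i ∈ t, Base A (g i)) : Base A fun ξ => ∑ i ∈ t, g i ξ := by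
  refine ⟨Finset.measurable_fun_sum t fun i hi => (h i hi).1, fun x h1 h2 => ?_⟩
  choose! C hC using fun i hi => (h i hi).2 x h1 h2
  refine ⟨∑ i ∈ t, C i, fun ξ => ?_⟩
  rw [Finset.sum_mul]
  exact (norm_sum_le _ _).trans (Finset.sum_le_sum fun i hi => hC i hi ξ)

theorem tendsto_fac : Tendsto (fun w : ℝ => (1 - cexp (1 - 2 * (1 / 2 + (w : ℂ)))) / w)
    (𝓝[>] 0) (𝓝 2) := by
  have h1 : HasDerivAt (fun w : ℂ => 1 - cexp (1 - 2 * (1 / 2 + w))) 2 0 := by
    have : HasDerivAt (fun w : ℂ => 1 - 2 * (1 / 2 + w)) (-2) 0 := by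
      have := (((hasDerivAt_id (0 : ℂ)).const_add (1 / 2)).const_mul 2).const_sub 1
      rw [mul_one] at this
      exact this
    simpa using this.cexp.const_sub 1
  have h2 := h1.comp_ofReal (z := (0 : ℝ))
  have h3 := h2.tendsto_slope_zero_right
  refine h3.congr fun w => ?_
  simp [div_eq_inv_mul]

end AnP

theorem an (hB : S_B0W) (hK : S_Ker) (hA : S_Asm) (hG : S_RSGW) (h2 : S_RSJ2W) (h4 : S_RSJ4W)
    (hMel : S_MelW) : S_AnW := by
  intro d M hd hM hdM
  have hd0 : 0 < d := Nat.pos_of_ne_zero hd.ne_zero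
  have hM1 : 1 < M := lt_of_lt_of_le (by omega) (Nat.le_of_dvd hM hdM)
  obtain ⟨A, hA0, hB⟩ := hB
  obtain ⟨hHalf, hK⟩ := hK
  obtain ⟨hun, hchi, hF0, hF1, hd0', hn0, hd1, hn1, hn2⟩ := hK d M hd0 hM hdM
  obtain ⟨hG1, κ, c0, hκ, hc0, hG2⟩ := hG d M hd0 hM1
  obtain ⟨Gf, hGf, hGf0, hMel⟩ := hMel d hd0
  set k0 := ker0 (un M)
  set kχ := ker1 (chiq d M)
  let ψ : ℂ → ℂ := fun w => 2 * (1 - cexp (-1)) * (c0 * Gf w) * LK kχ (w / 2) *
    LK kχ (1 / 2 + w / 2) * ((1 - cexp (-2 * (1 / 2 + w))) * LK k0 (1 / 2 + w))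
  have hψ : DifferentiableOn ℂ ψ {w | -1 / 2 < w.re} := by
    have e1 : DifferentiableOn ℂ Gf {w | -1 / 2 < w.re} :=
      hGf.mono fun w hw => by simp only [Set.mem_ofPred_eq] at *; linarith
    have e2 : Differentiable ℂ fun w : ℂ => LK kχ (w / 2) := hd1.comp (by fun_prop)
    have e3 : Differentiable ℂ fun w : ℂ => LK kχ (1 / 2 + w / 2) := hd1.comp (by fun_prop)
    have e4 : DifferentiableOn ℂ (fun w : ℂ => LK k0 (1 / 2 + w)) {w | -1 / 2 < w.re} :=
      hd0'.comp (by fun_prop) fun w hw => by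
        simp only [Set.mem_ofPred_eq, add_re] at *
        norm_num
        linarith
    have e5 : Differentiable ℂ fun w : ℂ => 1 - cexp (-2 * (1 / 2 + w)) := by fun_prop
    exact ((((e1.const_mul _).const_mul _).mul e2.differentiableOn).mul e3.differentiableOn).mul
      (e5.differentiableOn.mul e4)
  have he : (1 : ℂ) - cexp (-1) ≠ 0 := by
    rw [sub_ne_zero, ne_comm, ne_eq, Complex.exp_eq_one_iff]
    rintro ⟨n, hn⟩
    have := congrArg Complex.re hn
    simp at this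
  refine ⟨fun w => ψ w * (1 - cexp (1 - 2 * (1 / 2 + w))), ψ 0 * 2, ?_, ?_, ?_, ?_⟩
  · refine (hψ.mono fun w hw => ?_).mul (Differentiable.differentiableOn (by fun_prop))
    simp only [Set.mem_ofPred_eq] at *; linarith
  · have e : (-2 : ℂ) * (1 / 2) = -1 := by ring
    simp only [ψ, zero_div, add_zero, e]
    exact mul_ne_zero (mul_ne_zero (mul_ne_zero (mul_ne_zero (mul_ne_zero
      (mul_ne_zero two_ne_zero he) (mul_ne_zero hc0 hGf0)) hn1) hn2) (mul_ne_zero he hn0))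
      two_ne_zero
  · have hc : ContinuousAt ψ 0 := (hψ.differentiableAt
      ((isOpen_lt continuous_const Complex.continuous_re).mem_nhds (by simp; norm_num))).continuousAt
    have h1 : Tendsto (fun w : ℝ => ψ w) (𝓝[>] 0) (𝓝 (ψ 0)) := by
      have : Tendsto (fun w : ℝ => (w : ℂ)) (𝓝[>] 0) (𝓝 0) := by
        simpa using (continuous_ofReal.tendsto 0).mono_left nhdsWithin_le_nhds
      exact hc.tendsto.comp this
    refine (h1.mul AnP.tendsto_fac).congr fun w => ?_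
    ring
  · intro s hs v hv
    obtain ⟨m, vm, km, hvm, hA2⟩ := h2 d M hd0 hM hdM s hs v hv
    choose m' vm' km' P' hvm' hA3 using fun i => hG1 s hs (vm i) (hvm i).1
    obtain ⟨H, hH, hH0, hHw⟩ := hA A (gv s d v) k0 κ kχ _ m (fun i => gv s d (vm i))
      (fun i ξ => ∑ k, cv (-1, 1) (gv s d (vm' i k)) (km' i k) ξ) km P' hA0
      (hB s hs d M hd0 hM v hv.lev).1
      (fun i => ⟨(hB s hs d M hd0 hM _ (hvm i).1.lev).1, AnP.base_sum _ _ fun k _ =>
        ((hB s hs d M hd0 hM _ (hvm' i k).1).2.2.2.2.2.2 _ (Or.inl rfl) _ (hvm' i k).2).1,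
        (hvm i).2⟩)
      (hHalf _ (hun.sb hM)).1 hF0 hκ hF1 (hG2 s hs v hv) hA2 hA3 (h4 d M hd hM hdM s hs v hv)
    obtain ⟨w0, hw0⟩ := hMel s hs M hM v hv
    refine ⟨H, hH, hH0, max w0 (2 * A + 4), fun w hw => ?_⟩
    obtain ⟨e1, e2⟩ := hw0 w (lt_of_le_of_lt (le_max_left _ _) hw)
    refine ⟨e1, ?_⟩
    rw [hHw w (lt_of_le_of_lt (le_max_right _ _) hw)]
    simp only [mul_assoc c0, integral_const_mul, e2, ψ]
    ring

end

end Pool.Agent.P.MP_b8021b_nt.CM
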