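import Pool.Agent.P.MP_b8021b_nt.CM.Defs

/-! Library L1: discrete means. -/

namespace Pool.Agent.P.MP_b8021b_nt.CM

open Function

noncomputable section

variable {G X : Type} [Group G] {ρ : G →* Equiv.Perm X} {Γ0 Γ Γ' : Subgroup G}
  {β β' w w' : X → ℂ}

theorem FI.refl (Γ0 : Subgroup G) : FI Γ0 Γ0 := ⟨le_rfl, by simp⟩

theorem FI.inf (h : FI Γ Γ0) (h' : FI Γ' Γ0) : FI (Γ ⊓ Γ') Γ0 :=
  ⟨inf_le_left.trans h.1, Subgroup.relIndex_inf_ne_zero h.2 h'.2⟩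

theorem FI.trans (h : FI Γ' Γ) (h' : FI Γ Γ0) : FI Γ' Γ0 :=
  ⟨h.1.trans h'.1, Subgroup.relIndex_ne_zero_trans h.2 h'.2⟩

theorem FI.of_le (h : FI Γ' Γ0) (h1 : Γ' ≤ Γ) (h2 : Γ ≤ Γ0) : FI Γ Γ0 :=
  ⟨h2, fun h0 => h.2 (Subgroup.relIndex_eq_zero_of_le_left h1 h0)⟩

theorem FI.of_le_right (h : FI Γ' Γ0) (h1 : Γ' ≤ Γ) (h2 : Γ ≤ Γ0) : FI Γ' Γ :=
  ⟨h1, fun h0 => h.2 (Subgroup.relIndex_eq_zero_of_le_right h2 h0)⟩

/-- a finite set of representatives: every element of `Γ0` is `γ * r` for a unique `r` -/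
theorem FI.exists_reps (h : FI Γ Γ0) : ∃ R : Finset G, (∀ r ∈ R, r ∈ Γ0) ∧
    R.card = Γ.relIndex Γ0 ∧ ∀ g ∈ Γ0, ∃! r, r ∈ R ∧ g * r⁻¹ ∈ Γ := by
  classical
  have hfin : Finite (Γ0 ⧸ Γ.subgroupOf Γ0) := Nat.finite_of_card_ne_zero h.2
  have := Fintype.ofFinite (Γ0 ⧸ Γ.subgroupOf Γ0)
  let s : (Γ0 ⧸ Γ.subgroupOf Γ0) → G := fun q => ((q.out : Γ0) : G)⁻¹
  have hs : Injective s := fun q q' e => by
    have : (q.out : Γ0) = q'.out := Subtype.ext (inv_injective e)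
    rw [← QuotientGroup.out_eq' q, ← QuotientGroup.out_eq' q', this]
  have key : ∀ (g : G) (hg : g ∈ Γ0) (q : Γ0 ⧸ Γ.subgroupOf Γ0), g * (s q)⁻¹ ∈ Γ ↔
      (QuotientGroup.mk (⟨g, hg⟩ : Γ0)⁻¹ : Γ0 ⧸ Γ.subgroupOf Γ0) = q := by
    intro g hg q
    conv_rhs => rw [← QuotientGroup.out_eq' q, QuotientGroup.eq]
    simp [s, Subgroup.mem_subgroupOf]
  refine ⟨Finset.univ.image s, ?_, ?_, fun g hg => ⟨s (QuotientGroup.mk (⟨g, hg⟩ : Γ0)⁻¹),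
    ⟨Finset.mem_image_of_mem _ (Finset.mem_univ _), (key g hg _).2 rfl⟩, ?_⟩⟩
  · intro r hr
    obtain ⟨q, -, rfl⟩ := Finset.mem_image.1 hr
    exact Γ0.inv_mem (q.out).2
  · rw [Finset.card_image_of_injective _ hs, Finset.card_univ, Subgroup.relIndex,
      Subgroup.index_eq_card, Nat.card_eq_fintype_card]
  · rintro r ⟨hr, h2⟩
    obtain ⟨q, -, rfl⟩ := Finset.mem_image.1 hr
    rw [(key g hg q).1 h2]

theorem Inv.mono (h : Inv ρ Γ w) (hle : Γ' ≤ Γ) : Inv ρ Γ' w := fun γ hγ x => h γ (hle hγ) x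

namespace DM

theorem act_mul (g h : G) (x : X) : ρ (g * h) x = ρ g (ρ h x) := by simp

theorem act_inv (g : G) (x : X) : ρ g⁻¹ (ρ g x) = x := by simp

theorem act_inv' (g : G) (x : X) : ρ g (ρ g⁻¹ x) = x := by simp

/-- splitting a sum over `Γ` along the cosets `Γ' r` -/
theorem splitR (h : FI Γ' Γ) : ∃ R : Finset G, (∀ r ∈ R, r ∈ Γ) ∧ R.card = Γ'.relIndex Γ ∧
    ∀ f : G → ℂ, ((support fun γ : Γ => f γ).Finite ↔
      ∀ r ∈ R, (support fun γ : Γ' => f (γ * r)).Finite) ∧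
      ((support fun γ : Γ => f γ).Finite → ∑ᶠ γ : Γ, f γ = ∑ r ∈ R, ∑ᶠ γ : Γ', f (γ * r)) := by
  obtain ⟨R, hR, hc, hu⟩ := h.exists_reps
  let e : R × Γ' → Γ := fun p => ⟨p.2 * p.1, Γ.mul_mem (h.1 p.2.2) (hR _ p.1.2)⟩
  have he : Bijective e := by
    constructor
    · rintro ⟨r, γ⟩ ⟨r', γ'⟩ e1
      have e2 : (γ : G) * r = γ' * r' := congrArg Subtype.val e1
      have hr : (r : G) = r' := (hu _ (Γ.mul_mem (h.1 γ.2) (hR _ r.2))).unique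
        ⟨r.2, by simp⟩ ⟨r'.2, by rw [e2]; simp⟩
      rw [hr] at e2
      exact Prod.ext (Subtype.ext hr) (Subtype.ext (mul_right_cancel e2))
    · intro g
      obtain ⟨r, ⟨hr, h2⟩, -⟩ := hu g g.2
      exact ⟨(⟨r, hr⟩, ⟨_, h2⟩), Subtype.ext (by simp [e])⟩
  refine ⟨R, hR, hc, fun f => ?_⟩
  have h1 : (support fun γ : Γ => f γ).Finite → (support fun p : R × Γ' => f (e p)).Finite :=
    fun hf => hf.preimage he.1.injOn
  refine ⟨⟨fun hf r hr => ?_, fun hf => ?_⟩, fun hf => ?_⟩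
  · exact (h1 hf).preimage (f := fun γ : Γ' => ((⟨r, hr⟩ : R), γ))
      (fun _ _ _ _ e => (Prod.ext_iff.1 e).2)
  · refine (Set.finite_iUnion fun r : R => (hf r r.2).image fun γ => e (r, γ)).subset ?_
    intro g hg
    obtain ⟨⟨r, γ⟩, rfl⟩ := he.2 g
    exact Set.mem_iUnion.2 ⟨r, γ, hg, rfl⟩
  · rw [← finsum_eq_of_bijective (f := fun p : R × Γ' => f (e p)) e he fun _ => rfl,
      finsum_curry _ (h1 hf), finsum_eq_sum_of_fintype,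
      ← Finset.sum_coe_sort R fun r => ∑ᶠ γ : Γ', f (γ * r)]

theorem supp_inv (f : G → ℂ) : (support fun γ : Γ => f γ⁻¹).Finite ↔
    (support fun γ : Γ => f γ).Finite := by
  constructor
  · intro h
    exact (h.preimage (f := fun γ : Γ => γ⁻¹) inv_injective.injOn).subset fun γ hγ => by simpa
  · intro h
    exact h.preimage (f := fun γ : Γ => γ⁻¹) inv_injective.injOn

theorem finsum_inv (f : G → ℂ) : ∑ᶠ γ : Γ, f γ⁻¹ = ∑ᶠ γ : Γ, f γ :=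
  finsum_eq_of_bijective (fun γ : Γ => γ⁻¹) inv_involutive.bijective fun _ => rfl

/-- splitting a sum over `Γ` along the cosets `r Γ'` -/
theorem splitL (h : FI Γ' Γ) : ∃ R : Finset G, (∀ r ∈ R, r ∈ Γ) ∧ R.card = Γ'.relIndex Γ ∧
    ∀ f : G → ℂ, (support fun γ : Γ => f γ).Finite →
      (∀ r ∈ R, (support fun γ : Γ' => f (r * γ)).Finite) ∧
      ∑ᶠ γ : Γ, f γ = ∑ r ∈ R, ∑ᶠ γ : Γ', f (r * γ) := by
  classical
  obtain ⟨R, hR, hc, hu⟩ := splitR h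
  refine ⟨R.image (·⁻¹), ?_, by rw [Finset.card_image_of_injective _ inv_injective, hc],
    fun f hf => ?_⟩
  · intro r hr0
    obtain ⟨r, hr, rfl⟩ := Finset.mem_image.1 hr0
    exact Γ.inv_mem (hR r hr)
  have hf' := (supp_inv f).2 hf
  constructor
  · intro r hr0
    obtain ⟨r, hr, rfl⟩ := Finset.mem_image.1 hr0
    have := (hu fun g => f g⁻¹).1.1 hf' r hr
    rw [← supp_inv (fun g => f (r⁻¹ * g))]
    simpa using this
  · rw [Finset.sum_image inv_injective.injOn, ← finsum_inv, (hu fun g => f g⁻¹).2 hf']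
    refine Finset.sum_congr rfl fun r _ => ?_
    rw [← finsum_inv (fun g => f (r⁻¹ * g))]
    simp

theorem supp_mul (f : G → ℂ) {g : G} (hg : g ∈ Γ) (h : (support fun γ : Γ => f γ).Finite) :
    (support fun γ : Γ => f (γ * g)).Finite :=
  h.preimage (f := fun γ : Γ => γ * (⟨g, hg⟩ : Γ)) (mul_left_injective (⟨g, hg⟩ : Γ)).injOn

theorem finsum_mul_right (f : G → ℂ) {g : G} (hg : g ∈ Γ) :
    ∑ᶠ γ : Γ, f (γ * g) = ∑ᶠ γ : Γ, f γ :=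
  finsum_eq_of_bijective (fun γ : Γ => γ * ⟨g, hg⟩) (Group.mulRight_bijective _) fun _ => rfl

theorem dbl (h' : IsWt ρ Γ β' w) (hf : (support fun x => β x * w x).Finite) :
    ∑ᶠ p : X × Γ, β p.1 * w p.1 * β' (ρ p.2 p.1) = ∑ᶠ x, β x * w x := by
  have hs : (support fun p : X × Γ => β p.1 * w p.1 * β' (ρ p.2 p.1)).Finite := by
    refine (hf.biUnion (t := fun x => (fun γ : Γ => (x, γ)) '' support fun γ : Γ => β' (ρ γ x))
      fun x hx => (h' x (right_ne_zero_of_mul hx)).1.image _).subset ?_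
    rintro ⟨x, γ⟩ hp
    exact Set.mem_biUnion (left_ne_zero_of_mul hp) ⟨γ, right_ne_zero_of_mul hp, rfl⟩
  rw [finsum_curry _ hs]
  refine finsum_congr fun x => ?_
  simp only
  rw [← mul_finsum]
  by_cases hx : w x = 0
  · simp [hx]
  · rw [(h' x hx).2, mul_one]

end DM

/-- independence of the weight; `Γ` is arbitrary -/
theorem wt_indep (hw : Inv ρ Γ w) (h : IsWt ρ Γ β w) (h' : IsWt ρ Γ β' w)
    (hf : (support fun x => β x * w x).Finite) (hf' : (support fun x => β' x * w x).Finite) :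
    ∑ᶠ x, β x * w x = ∑ᶠ x, β' x * w x := by
  rw [← DM.dbl h' hf, ← DM.dbl h hf']
  have hi : Involutive fun p : X × Γ => ((ρ p.2 p.1, p.2⁻¹) : X × Γ) := fun p => by simp
  refine finsum_eq_of_bijective _ hi.bijective fun p => ?_
  simp only [Subgroup.coe_inv, DM.act_inv, hw _ p.2.2]
  ring

namespace DM

theorem supp_sum {ι Y : Type} (s : Finset ι) (f : Y → ι → ℂ)
    (h : ∀ i ∈ s, (support fun y => f y i).Finite) : (support fun y => ∑ i ∈ s, f y i).Finite :=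
  (s.finite_toSet.biUnion h).subset fun y hy => by
    obtain ⟨i, hi, h1⟩ := Finset.exists_ne_zero_of_sum_ne_zero hy
    exact Set.mem_biUnion hi h1

theorem supp_act (f : X → ℂ) (g : G) (h : (support f).Finite) :
    (support fun x => f (ρ g x)).Finite := h.preimage (ρ g).injective.injOn

theorem finsum_act (f : X → ℂ) (g : G) : ∑ᶠ x, f (ρ g x) = ∑ᶠ x, f x := finsum_comp_equiv (ρ g)

theorem wt_down (h : FI Γ' Γ) : ∃ R : Finset G, (∀ r ∈ R, r ∈ Γ) ∧ R.card = Γ'.relIndex Γ ∧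
    ∀ (β : X → ℂ) (x : X), (support fun γ : Γ => β (ρ γ x)).Finite →
      (support fun γ : Γ' => ∑ r ∈ R, β (ρ r (ρ γ x))).Finite ∧
        ∑ᶠ γ : Γ', ∑ r ∈ R, β (ρ r (ρ γ x)) = ∑ᶠ γ : Γ, β (ρ γ x) := by
  obtain ⟨R, hR, hc, hu⟩ := splitL h
  refine ⟨R, hR, hc, fun β x hx => ?_⟩
  obtain ⟨h1, h2⟩ := hu (fun g => β (ρ g x)) hx
  simp only [act_mul] at h1 h2
  exact ⟨supp_sum _ _ h1, by rw [finsum_sum_comm _ _ h1, h2]⟩

theorem down (h : DAdm ρ Γ0 Γ β w) (h' : FI Γ' Γ) : ∃ β', DAdm ρ Γ0 Γ' β' w ∧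
    (∑ᶠ x, β' x * w x) / (Γ'.relIndex Γ0 : ℂ) = (∑ᶠ x, β x * w x) / (Γ.relIndex Γ0 : ℂ) := by
  obtain ⟨R, hR, hc, hu⟩ := wt_down (ρ := ρ) h'
  obtain ⟨h1, h2, h3, h4⟩ := h
  have e1 : ∀ x, (∑ r ∈ R, β (ρ r x)) * w x = ∑ r ∈ R, β (ρ r x) * w (ρ r x) := fun x => by
    rw [Finset.sum_mul]
    exact Finset.sum_congr rfl fun r hr => by rw [h2 r (hR r hr)]
  have e2 : ∀ r ∈ R, (support fun x => β (ρ r x) * w (ρ r x)).Finite := fun r _ =>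
    supp_act (fun x => β x * w x) r h4
  refine ⟨fun x => ∑ r ∈ R, β (ρ r x), ⟨h'.trans h1, h2.mono h'.1, fun x hx => ?_, ?_⟩, ?_⟩
  · exact ⟨(hu β x (h3 x hx).1).1, by rw [(hu β x (h3 x hx).1).2, (h3 x hx).2]⟩
  · simp only [e1]
    exact supp_sum _ _ e2
  · simp only [e1]
    rw [finsum_sum_comm _ _ e2, Finset.sum_congr rfl fun r _ => finsum_act (fun x => β x * w x) r,
      Finset.sum_const, hc, ← Subgroup.relIndex_mul_relIndex Γ' Γ Γ0 h'.1 h1.1, nsmul_eq_mul]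
    have : (Γ'.relIndex Γ : ℂ) ≠ 0 := Nat.cast_ne_zero.2 h'.2
    push_cast
    rw [mul_div_mul_left _ _ this]

theorem up (h : DAdm ρ Γ0 Γ' β w) (hle : Γ' ≤ Γ) (hΓ : FI Γ Γ0) (hw : Inv ρ Γ w) :
    DAdm ρ Γ0 Γ (fun x => β x / (Γ'.relIndex Γ : ℂ)) w := by
  obtain ⟨h1, h2, h3, h4⟩ := h
  have h' : FI Γ' Γ := h1.of_le_right hle hΓ.1
  obtain ⟨R, hR, hc, hu⟩ := splitR h'
  have h0 : (Γ'.relIndex Γ : ℂ) ≠ 0 := Nat.cast_ne_zero.2 h'.2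
  refine ⟨hΓ, hw, fun x hx => ?_, h4.subset fun x hx => ?_⟩
  · have hr : ∀ r ∈ R, w (ρ r x) ≠ 0 := fun r hr => by rwa [hw r (hR r hr)]
    obtain ⟨a1, a2⟩ := hu fun g => β (ρ g x)
    simp only [act_mul] at a1 a2
    have a3 := a1.2 fun r h => (h3 _ (hr r h)).1
    refine ⟨a3.subset fun γ hγ => by simpa [h0] using hγ, ?_⟩
    simp only [div_eq_mul_inv]
    rw [← finsum_mul, a2 a3, Finset.sum_congr rfl fun r h => (h3 _ (hr r h)).2]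
    simp [hc, h0]
  · simpa [h0] using hx

end DM

theorem dmean_eq (h : DAdm ρ Γ0 Γ β w) :
    dmean ρ Γ0 w = (∑ᶠ x, β x * w x) / (Γ.relIndex Γ0 : ℂ) := by
  have hg : DGood ρ Γ0 w := ⟨(Γ, β), h⟩
  rw [dmean, dif_pos hg]
  have h1 := hg.choose_spec
  have hi := h.1.inf h1.1
  obtain ⟨b1, a1, e1⟩ := DM.down h (hi.of_le_right inf_le_left h.1.1)
  obtain ⟨b2, a2, e2⟩ := DM.down h1 (hi.of_le_right inf_le_right h1.1.1)
  rw [← e1, ← e2, wt_indep a1.2.1 a1.2.2.1 a2.2.2.1 a1.2.2.2 a2.2.2.2]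

theorem DGood.adm (h : DGood ρ Γ0 w) (hΓ : FI Γ Γ0) (hw : Inv ρ Γ w) :
    ∃ β, DAdm ρ Γ0 Γ β w := by
  obtain ⟨p, h1⟩ := h
  obtain ⟨b1, a1, -⟩ := DM.down h1 ((hΓ.inf h1.1).of_le_right inf_le_right h1.1.1)
  exact ⟨_, DM.up a1 inf_le_left hΓ hw⟩

namespace DM

/-- normalising a function with nonzero finite orbit sums -/
theorem wt_norm (b : X → ℂ) (hb : ∀ x, w x ≠ 0 →
    (support fun γ : Γ => b (ρ γ x)).Finite ∧ ∑ᶠ γ : Γ, b (ρ γ x) ≠ 0) :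
    IsWt ρ Γ (fun x => b x / ∑ᶠ γ : Γ, b (ρ γ x)) w := by
  intro x hx
  have e : ∀ δ : Γ, ∑ᶠ γ : Γ, b (ρ γ (ρ δ x)) = ∑ᶠ γ : Γ, b (ρ γ x) := fun δ => by
    simpa only [act_mul] using finsum_mul_right (fun g => b (ρ g x)) δ.2
  simp only [e]
  refine ⟨(hb x hx).1.subset fun γ hγ => left_ne_zero_of_mul hγ, ?_⟩
  simp only [div_eq_mul_inv]
  rw [← finsum_mul, mul_inv_cancel₀ (hb x hx).2]

theorem fin_to {x : X} (hs : {γ : G | γ ∈ Γ ∧ ρ γ x = x}.Finite) (z : X) :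
    {γ : G | γ ∈ Γ ∧ ρ γ x = z}.Finite := by
  rcases Set.eq_empty_or_nonempty {γ : G | γ ∈ Γ ∧ ρ γ x = z} with h | ⟨δ, h1, h2⟩
  · rw [h]; exact Set.finite_empty
  · refine (hs.image fun γ => δ * γ).subset fun γ hγ => ⟨δ⁻¹ * γ, ⟨Γ.mul_mem (Γ.inv_mem h1) hγ.1, ?_⟩,
      by simp⟩
    rw [act_mul, hγ.2, ← h2, act_inv]

theorem wt_of_reps (R : Finset X) (hR : ∀ x, w x ≠ 0 → ∃ γ ∈ Γ, ρ γ x ∈ R)
    (hs : ∀ x, w x ≠ 0 → {γ : G | γ ∈ Γ ∧ ρ γ x = x}.Finite) :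
    ∃ β, IsWt ρ Γ β w ∧ (support β).Finite := by
  classical
  refine ⟨_, wt_norm (fun x => if x ∈ R then 1 else 0) fun x hx => ?_,
    R.finite_toSet.subset fun x hx => ?_⟩
  · have h1 : (support fun γ : Γ => if ρ γ x ∈ R then (1 : ℂ) else 0).Finite := by
      refine ((R.finite_toSet.biUnion fun z _ => fin_to (hs x hx) z).preimage
        (f := (Subtype.val : Γ → G)) Subtype.val_injective.injOn).subset fun γ hγ => ?_
      have : ρ γ x ∈ R := by simpa using hγ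
      exact Set.mem_biUnion this ⟨γ.2, rfl⟩
    refine ⟨h1, ?_⟩
    rw [finsum_eq_sum _ h1, Finset.sum_congr rfl (g := fun _ => 1) fun γ hγ => by
      simpa using hγ]
    obtain ⟨γ, hγ, h2⟩ := hR x hx
    simp only [Finset.sum_const, nsmul_eq_mul, mul_one, ne_eq, Nat.cast_eq_zero,
      Finset.card_eq_zero]
    exact Finset.ne_empty_of_mem (a := ⟨γ, hγ⟩) (by simpa using h2)
  · by_contra h
    exact hx (by simp [show x ∉ R from h])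

end DM

/-- finitely many orbits with finite stabilisers -/
theorem dgood_of_reps (hΓ : FI Γ Γ0) (hw : Inv ρ Γ w) (R : Finset X)
    (hR : ∀ x, w x ≠ 0 → ∃ γ ∈ Γ, ρ γ x ∈ R)
    (hs : ∀ x, w x ≠ 0 → {γ : G | γ ∈ Γ ∧ ρ γ x = x}.Finite) : DGood ρ Γ0 w := by
  obtain ⟨β, h1, h2⟩ := DM.wt_of_reps R hR hs
  exact ⟨(Γ, β), hΓ, hw, h1, h2.subset fun x hx => left_ne_zero_of_mul hx⟩

theorem DGood.exists_reps (h : DGood ρ Γ0 w) (hΓ : FI Γ Γ0) (hw : Inv ρ Γ w) :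
    (∃ R : Finset X, (∀ x ∈ R, w x ≠ 0) ∧ ∀ x, w x ≠ 0 → ∃! z, z ∈ R ∧ ∃ γ ∈ Γ, ρ γ z = x) ∧
      ∀ x, w x ≠ 0 → {γ : G | γ ∈ Γ0 ∧ ρ γ x = x}.Finite := by
  classical
  obtain ⟨β, -, -, h3, h4⟩ := h.adm hΓ hw
  have h5 : ∀ x, w x ≠ 0 → ∃ γ : Γ, β (ρ γ x) ≠ 0 := fun x hx => by
    by_contra hn
    push Not at hn
    simpa [hn] using (h3 x hx).2
  constructor
  · let s : Setoid X := ⟨fun x y => ∃ γ ∈ Γ, ρ γ x = y, fun x => ⟨1, Γ.one_mem, by simp⟩,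
      fun ⟨γ, hγ, e⟩ => ⟨γ⁻¹, Γ.inv_mem hγ, by rw [← e, DM.act_inv]⟩,
      fun ⟨γ, hγ, e⟩ ⟨δ, hδ, e'⟩ => ⟨δ * γ, Γ.mul_mem hδ hγ, by rw [DM.act_mul, e, e']⟩⟩
    refine ⟨h4.toFinset.image fun x => (Quotient.mk s x).out, ?_, fun x hx => ?_⟩
    · intro z hz
      obtain ⟨x, hx, rfl⟩ := Finset.mem_image.1 hz
      obtain ⟨γ, hγ, e⟩ := Quotient.mk_out (s := s) x
      rw [← hw γ hγ, e]
      exact right_ne_zero_of_mul (h4.mem_toFinset.1 hx)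
    · obtain ⟨γ, hγ⟩ := h5 x hx
      have e1 : Quotient.mk s x = Quotient.mk s (ρ γ x) := Quotient.sound ⟨γ, γ.2, rfl⟩
      refine ⟨(Quotient.mk s x).out, ⟨Finset.mem_image.2 ⟨ρ γ x, h4.mem_toFinset.2
        (mul_ne_zero hγ (by rwa [hw γ γ.2])), by rw [e1]⟩, Quotient.mk_out (s := s) x⟩, ?_⟩
      rintro z ⟨hz, h2⟩
      obtain ⟨y, -, rfl⟩ := Finset.mem_image.1 hz
      rw [← Quotient.sound (s := s) h2, Quotient.out_eq]
  · intro x hx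
    obtain ⟨γ, hγ⟩ := h5 x hx
    have h6 : {δ : G | δ ∈ Γ ∧ ρ δ x = x}.Finite := by
      refine ((h3 x hx).1.image fun δ : Γ => (γ : G)⁻¹ * δ).subset fun δ hδ =>
        ⟨γ * ⟨δ, hδ.1⟩, ?_, by simp⟩
      simpa [hδ.2] using hγ
    obtain ⟨R, -, -, hu⟩ := hΓ.exists_reps
    refine (R.finite_toSet.biUnion fun r _ =>
      (DM.fin_to h6 (ρ r x)).image fun δ => δ⁻¹ * r).subset fun δ hδ => ?_
    obtain ⟨r, ⟨hr, h2⟩, -⟩ := hu δ hδ.1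
    refine Set.mem_biUnion hr ⟨r * δ⁻¹, ⟨by simpa using Γ.inv_mem h2, ?_⟩, by simp⟩
    rw [DM.act_mul]
    congr 1
    conv_lhs => rw [← hδ.2, DM.act_inv]

/-- `S` is a `Γ0`-invariant set that carries a weight `β` for `Γ0` with finite support -/
theorem dgood_of_wt0 (hΓ : FI Γ Γ0) (hw : Inv ρ Γ w) (S : Set X)
    (hS : ∀ γ ∈ Γ0, ∀ x ∈ S, ρ γ x ∈ S) (hwS : ∀ x, w x ≠ 0 → x ∈ S)
    (hβ : ∀ x ∈ S, (support fun γ : Γ0 => β (ρ γ x)).Finite ∧ ∑ᶠ γ : Γ0, β (ρ γ x) = 1)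
    (hf : {x | x ∈ S ∧ β x ≠ 0}.Finite) :
    DGood ρ Γ0 w ∧ ∀ C : ℝ, (∀ x, ‖w x‖ ≤ C) →
      ‖dmean ρ Γ0 w‖ ≤ (∑ x ∈ hf.toFinset, ‖β x‖) * C := by
  obtain ⟨R, hR, hc, hu⟩ := DM.wt_down (ρ := ρ) hΓ
  have e0 : ∀ r ∈ R, (support fun y => β y * w (ρ r⁻¹ y)) ⊆ hf.toFinset := fun r hr y hy => by
    have := hS r (hR r hr) _ (hwS _ (right_ne_zero_of_mul hy))
    rw [DM.act_inv'] at this
    exact hf.mem_toFinset.2 ⟨this, left_ne_zero_of_mul hy⟩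
  have e2 : ∀ r ∈ R, (support fun x => β (ρ r x) * w x).Finite := fun r hr => by
    simpa only [DM.act_inv] using DM.supp_act (ρ := ρ) (fun y => β y * w (ρ r⁻¹ y)) r
      (hf.toFinset.finite_toSet.subset (e0 r hr))
  have ha : DAdm ρ Γ0 Γ (fun x => ∑ r ∈ R, β (ρ r x)) w := by
    refine ⟨hΓ, hw, fun x hx => ?_, ?_⟩
    · have := hβ x (hwS x hx)
      exact ⟨(hu β x this.1).1, by rw [(hu β x this.1).2, this.2]⟩
    · simp only [Finset.sum_mul]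
      exact DM.supp_sum _ _ e2
  refine ⟨⟨(Γ, _), ha⟩, fun C hC => ?_⟩
  rw [dmean_eq ha]
  simp only [Finset.sum_mul]
  have h0 : (0 : ℝ) < Γ.relIndex Γ0 := Nat.cast_pos.2 (Nat.pos_of_ne_zero hΓ.2)
  rw [finsum_sum_comm _ _ e2, norm_div, Complex.norm_natCast, div_le_iff₀ h0, ← hc, mul_comm,
    ← nsmul_eq_mul, ← Finset.sum_const]
  refine norm_sum_le_of_le _ fun r hr => ?_
  have := DM.finsum_act (ρ := ρ) (fun y => β y * w (ρ r⁻¹ y)) r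
  simp only [DM.act_inv] at this
  rw [this, finsum_eq_sum_of_support_subset _ (e0 r hr)]
  refine norm_sum_le_of_le _ fun y _ => ?_
  rw [norm_mul]
  exact mul_le_mul_of_nonneg_left (hC _) (norm_nonneg _)

/-- free action -/
theorem dmean_reps (hΓ : FI Γ Γ0) (hw : Inv ρ Γ w) (R : Finset X)
    (hR : ∀ x, w x ≠ 0 → ∃! z, z ∈ R ∧ ∃ γ ∈ Γ, ρ γ z = x)
    (hs : ∀ x, w x ≠ 0 → ∀ γ ∈ Γ, ρ γ x = x → γ = 1) :
    DGood ρ Γ0 w ∧ dmean ρ Γ0 w = (∑ z ∈ R, w z) / (Γ.relIndex Γ0 : ℂ) := by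
  classical
  have h1 : (support fun x => (if x ∈ R then (1 : ℂ) else 0) * w x) ⊆ R := fun x hx => by
    by_contra h
    exact hx (by simp [show x ∉ R from h])
  have ha : DAdm ρ Γ0 Γ (fun x => if x ∈ R then 1 else 0) w := by
    refine ⟨hΓ, hw, fun x hx => ?_, R.finite_toSet.subset h1⟩
    obtain ⟨z, ⟨hz, δ, hδ, e⟩, hu⟩ := hR x hx
    have h2 : ∀ γ : Γ, γ ≠ ⟨δ, hδ⟩⁻¹ → (if ρ γ x ∈ R then (1 : ℂ) else 0) = 0 := fun γ hγ => by
      refine if_neg fun h => hγ ?_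
      have h3 := hu _ ⟨h, γ⁻¹, Γ.inv_mem γ.2, DM.act_inv _ _⟩
      have h4 := hs x hx (δ * γ) (Γ.mul_mem hδ γ.2) (by rw [DM.act_mul, h3, e])
      exact Subtype.ext (eq_inv_of_mul_eq_one_right h4)
    refine ⟨(Set.finite_singleton _).subset fun γ hγ => by_contra fun h => hγ (h2 γ h), ?_⟩
    rw [finsum_eq_single _ _ h2, if_pos]
    simpa [← e] using hz
  refine ⟨⟨(Γ, _), ha⟩, ?_⟩
  rw [dmean_eq ha, finsum_eq_sum_of_support_subset _ h1]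
  congr 1
  exact Finset.sum_congr rfl fun x hx => by simp [hx]

theorem DM.adm_zero (ρ : G →* Equiv.Perm X) (Γ0 : Subgroup G) : DAdm ρ Γ0 Γ0 0 0 :=
  ⟨FI.refl _, fun _ _ _ => rfl, fun _ hx => (hx rfl).elim, by simp⟩

theorem dgood_zero (ρ : G →* Equiv.Perm X) (Γ0 : Subgroup G) : DGood ρ Γ0 0 :=
  ⟨(Γ0, 0), DM.adm_zero ρ Γ0⟩

theorem dmean_zero (ρ : G →* Equiv.Perm X) (Γ0 : Subgroup G) : dmean ρ Γ0 0 = 0 := by
  rw [dmean_eq (DM.adm_zero ρ Γ0)]; simp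

theorem DAdm.mono (h : DAdm ρ Γ0 Γ β w) (hw : Inv ρ Γ w') (hs : ∀ x, w' x ≠ 0 → w x ≠ 0) :
    DAdm ρ Γ0 Γ β w' :=
  ⟨h.1, hw, fun x hx => h.2.2.1 x (hs x hx), h.2.2.2.subset fun x hx =>
    mul_ne_zero (left_ne_zero_of_mul hx) (hs x (right_ne_zero_of_mul hx))⟩

theorem DGood.mono (h : DGood ρ Γ0 w) (hΓ : FI Γ Γ0) (hw : Inv ρ Γ w')
    (hs : ∀ x, w' x ≠ 0 → w x ≠ 0) : DGood ρ Γ0 w' := by
  obtain ⟨p, hp⟩ := id h
  obtain ⟨β, hβ⟩ := h.adm (hΓ.inf hp.1) (hp.2.1.mono inf_le_right)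
  exact ⟨(_, β), hβ.mono (hw.mono inf_le_left) hs⟩

theorem DM.common (h : DGood ρ Γ0 w) (h' : DGood ρ Γ0 w') :
    ∃ Γ β, DAdm ρ Γ0 Γ β w ∧ DAdm ρ Γ0 Γ β w' ∧ DAdm ρ Γ0 Γ β (w + w') := by
  classical
  obtain ⟨p, hp⟩ := id h
  obtain ⟨p', hp'⟩ := id h'
  obtain ⟨b, a1, a2, a3, a4⟩ := h.adm (hp.1.inf hp'.1) (hp.2.1.mono inf_le_left)
  obtain ⟨b', -, c2, c3, c4⟩ := h'.adm (hp.1.inf hp'.1) (hp'.2.1.mono inf_le_right)
  have key : ∀ v : X → ℂ, Inv ρ (p.1 ⊓ p'.1) v → (∀ x, v x ≠ 0 → w x = 0 → w' x ≠ 0) →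
      DAdm ρ Γ0 (p.1 ⊓ p'.1) (fun x => if w x = 0 then b' x else b x) v := by
    intro v hv hs
    refine ⟨a1, hv, fun x hx => ?_, (a4.union c4).subset fun x hx => ?_⟩
    · have e : ∀ γ : ↥(p.1 ⊓ p'.1), w (ρ γ x) = w x := fun γ => a2 γ γ.2 x
      simp only [e]
      by_cases h0 : w x = 0
      · simpa only [if_pos h0] using c3 x (hs x hx h0)
      · simpa only [if_neg h0] using a3 x h0
    · have h1 := left_ne_zero_of_mul hx
      by_cases h0 : w x = 0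
      · exact Or.inr (mul_ne_zero (by simpa only [if_pos h0] using h1)
          (hs x (right_ne_zero_of_mul hx) h0))
      · exact Or.inl (mul_ne_zero (by simpa only [if_neg h0] using h1) h0)
  refine ⟨_, _, key w a2 fun x h1 h2 => (h1 h2).elim, key w' c2 fun x h1 _ => h1,
    key _ (fun γ hγ x => ?_) fun x h1 h2 => by simpa [h2] using h1⟩
  simp only [Pi.add_apply, a2 γ hγ, c2 γ hγ]

theorem DGood.add (h : DGood ρ Γ0 w) (h' : DGood ρ Γ0 w') : DGood ρ Γ0 (w + w') := by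
  obtain ⟨Γ, β, -, -, h3⟩ := DM.common h h'
  exact ⟨(Γ, β), h3⟩

theorem DAdm.smul (c : ℂ) (h : DAdm ρ Γ0 Γ β w) : DAdm ρ Γ0 Γ β (c • w) :=
  h.mono (fun γ hγ x => by simp only [Pi.smul_apply, h.2.1 γ hγ]) fun _ hx =>
    right_ne_zero_of_mul hx

theorem DGood.smul (c : ℂ) (h : DGood ρ Γ0 w) : DGood ρ Γ0 (c • w) :=
  let ⟨p, hp⟩ := h
  ⟨p, hp.smul c⟩

theorem DGood.sum {ι : Type} (s : Finset ι) (f : ι → X → ℂ) (h : ∀ i ∈ s, DGood ρ Γ0 (f i)) :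
    DGood ρ Γ0 (∑ i ∈ s, f i) :=
  Finset.sum_induction f (DGood ρ Γ0) (fun _ _ => DGood.add) (dgood_zero ρ Γ0) h

theorem dmean_add (h : DGood ρ Γ0 w) (h' : DGood ρ Γ0 w') :
    dmean ρ Γ0 (w + w') = dmean ρ Γ0 w + dmean ρ Γ0 w' := by
  obtain ⟨Γ, β, h1, h2, h3⟩ := DM.common h h'
  rw [dmean_eq h1, dmean_eq h2, dmean_eq h3, ← add_div, ← finsum_add_distrib h1.2.2.2 h2.2.2.2]
  simp only [Pi.add_apply, mul_add]

theorem dmean_of_not (h : ¬ DGood ρ Γ0 w) : dmean ρ Γ0 w = 0 := dif_neg h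

theorem dmean_smul (c : ℂ) (w : X → ℂ) : dmean ρ Γ0 (c • w) = c * dmean ρ Γ0 w := by
  by_cases h : DGood ρ Γ0 w
  · obtain ⟨p, hp⟩ := h
    rw [dmean_eq hp, dmean_eq (hp.smul c), ← mul_div_assoc, mul_finsum]
    simp only [Pi.smul_apply, smul_eq_mul, mul_left_comm]
  · by_cases hc : c = 0
    · simp [hc, dmean_zero]
    · rw [dmean_of_not h, mul_zero, dmean_of_not fun h' => h ?_]
      simpa [smul_smul, hc] using h'.smul c⁻¹

theorem dmean_sum {ι : Type} (s : Finset ι) (f : ι → X → ℂ) (h : ∀ i ∈ s, DGood ρ Γ0 (f i)) :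
    dmean ρ Γ0 (∑ i ∈ s, f i) = ∑ i ∈ s, dmean ρ Γ0 (f i) := by
  classical
  induction s using Finset.induction_on with
  | empty => simp [dmean_zero]
  | insert a s ha ih =>
    have h1 : ∀ i ∈ s, DGood ρ Γ0 (f i) := fun i hi => h i (Finset.mem_insert_of_mem hi)
    rw [Finset.sum_insert ha, Finset.sum_insert ha,
      dmean_add (h a (Finset.mem_insert_self _ _)) (DGood.sum s f h1), ih h1]

theorem mem_cj {g δ : G} : δ ∈ cj g Γ ↔ g * δ * g⁻¹ ∈ Γ := Iff.rfl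

theorem DM.comp_act (hU : Uni Γ0) (h : DGood ρ Γ0 w) (g : G) :
    DGood ρ Γ0 (fun x => w (ρ g x)) ∧ dmean ρ Γ0 (fun x => w (ρ g x)) = dmean ρ Γ0 w := by
  obtain ⟨p, hp⟩ := id h
  obtain ⟨Γ', h1, h2, h3, h4⟩ := hU g p.1 hp.1
  obtain ⟨β, hβ⟩ := h.adm h2 (hp.2.1.mono h1)
  let e : cj g Γ' → Γ' := fun δ => ⟨g * δ * g⁻¹, δ.2⟩
  have he : Bijective e := ⟨fun δ δ' h => Subtype.ext (by simpa [e] using congrArg Subtype.val h),
   
    fun γ => ⟨⟨g⁻¹ * γ * g, mem_cj.2 (by simp [mul_assoc])⟩, Subtype.ext (by simp [e, mul_assoc])⟩⟩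
  have e1 : ∀ (δ : cj g Γ') x, ρ g (ρ δ x) = ρ (e δ) (ρ g x) := fun δ x => by simp [e]
  have ha : DAdm ρ Γ0 (cj g Γ') (fun x => β (ρ g x)) fun x => w (ρ g x) := by
    refine ⟨h3, fun δ hδ x => ?_, fun x hx => ?_, DM.supp_act (fun x => β x * w x) g hβ.2.2.2⟩
    · exact (congrArg w (e1 ⟨δ, hδ⟩ x)).trans (hβ.2.1 _ (e ⟨δ, hδ⟩).2 _)
    · simp only [e1]
      exact ⟨(hβ.2.2.1 _ hx).1.preimage he.1.injOn,
        (finsum_eq_of_bijective e he fun _ => rfl).trans (hβ.2.2.1 _ hx).2⟩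
  refine ⟨⟨(_, _), ha⟩, ?_⟩
  rw [dmean_eq ha, dmean_eq hβ, h4, DM.finsum_act (fun x => β x * w x) g]

theorem DGood.comp_act (hU : Uni Γ0) (h : DGood ρ Γ0 w) (g : G) :
    DGood ρ Γ0 fun x => w (ρ g x) := (DM.comp_act hU h g).1

theorem dmean_act (hU : Uni Γ0) (w : X → ℂ) (g : G) :
    dmean ρ Γ0 (fun x => w (ρ g x)) = dmean ρ Γ0 w := by
  by_cases h : DGood ρ Γ0 w
  · exact (DM.comp_act hU h g).2
  · rw [dmean_of_not h, dmean_of_not fun h' => h ?_]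
    simpa only [DM.act_inv'] using h'.comp_act hU g⁻¹

theorem DM.pull {X' : Type} {ρ' : G →* Equiv.Perm X'} {v : X' → ℂ} (S : Set X') (T : Set X)
    (f : X' → X) (hS : ∀ γ ∈ Γ0, ∀ x ∈ S, ρ' γ x ∈ S) (hb : Set.BijOn f S T)
    (hf : ∀ γ ∈ Γ0, ∀ x ∈ S, f (ρ' γ x) = ρ γ (f x))
    (hv : ∀ x, v x ≠ 0 → x ∈ S) (hw : ∀ x, w x ≠ 0 → x ∈ T) (e : ∀ x ∈ S, v x = w (f x))
    (h : DGood ρ Γ0 w) : DGood ρ' Γ0 v ∧ dmean ρ' Γ0 v = dmean ρ Γ0 w := by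
  obtain ⟨⟨Γ, β⟩, h⟩ := h
  obtain ⟨h1, h2, h3, h4⟩ := id h
  have ha : DAdm ρ' Γ0 Γ (fun x => β (f x)) v := by
    refine ⟨h1, fun γ hγ x => ?_, fun x hx => ?_, ?_⟩
    · by_cases hx : x ∈ S
      · rw [e _ (hS γ (h1.1 hγ) x hx), e x hx, hf γ (h1.1 hγ) x hx, h2 γ hγ]
      · have : ρ' γ x ∉ S := fun h => hx (by simpa using hS γ⁻¹ (Γ0.inv_mem (h1.1 hγ)) _ h)
        rw [not_not.1 (mt (hv x) hx), not_not.1 (mt (hv _) this)]
    · have hx' := hv x hx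
      have e1 : ∀ γ : Γ, f (ρ' γ x) = ρ γ (f x) := fun γ => hf γ (h1.1 γ.2) x hx'
      simp only [e1]
      exact h3 _ (by rwa [← e x hx'])
    · refine Set.Finite.of_finite_image (f := f) (h4.subset ?_) (hb.2.1.mono fun x hx =>
        hv x (right_ne_zero_of_mul hx))
      rintro _ ⟨x, hx, rfl⟩
      have := e x (hv x (right_ne_zero_of_mul hx))
      simpa only [mem_support, ← this] using hx
  refine ⟨⟨(Γ, _), ha⟩, ?_⟩
  rw [dmean_eq ha, dmean_eq h, ← finsum_mem_support, ← finsum_mem_support fun x => β x * w x]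
  congr 1
  rw [finsum_mem_inter_support_eq' _ _ S fun x hx => ⟨fun _ => hv x (right_ne_zero_of_mul hx),
      fun _ => hx⟩, finsum_mem_inter_support_eq' (fun x => β x * w x) _ T fun x hx =>
      ⟨fun _ => hw x (right_ne_zero_of_mul hx), fun _ => hx⟩]
  exact finsum_mem_eq_of_bijOn f hb fun x hx => by rw [e x hx]

/-- transport along an equivariant bijection between invariant sets that contain the supports -/
theorem dmean_bij {X' : Type} {ρ' : G →* Equiv.Perm X'} {v : X' → ℂ} (S : Set X') (T : Set X)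
    (f : X' → X) (hS : ∀ γ ∈ Γ0, ∀ x ∈ S, ρ' γ x ∈ S) (hb : Set.BijOn f S T)
    (hf : ∀ γ ∈ Γ0, ∀ x ∈ S, f (ρ' γ x) = ρ γ (f x))
    (hv : ∀ x, v x ≠ 0 → x ∈ S) (hw : ∀ x, w x ≠ 0 → x ∈ T) (e : ∀ x ∈ S, v x = w (f x)) :
    (DGood ρ' Γ0 v ↔ DGood ρ Γ0 w) ∧ dmean ρ' Γ0 v = dmean ρ Γ0 w := by
  have h1 := DM.pull S T f hS hb hf hv hw e
  have h2 : DGood ρ' Γ0 v → DGood ρ Γ0 w := by
    intro h
    rcases isEmpty_or_nonempty X' with h0 | h0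
    · have : w = 0 := funext fun x => by_contra fun hx => by
        obtain ⟨y, -⟩ := hb.2.2 (hw x hx)
        exact h0.elim y
      rw [this]
      exact dgood_zero _ _
    · have hi := hb.invOn_invFunOn
      have hb' : Set.BijOn (invFunOn f S) T S := hb.symm hi.symm
      have hT : ∀ γ ∈ Γ0, ∀ y ∈ T, ρ γ y ∈ T := fun γ hγ y hy => by
        obtain ⟨x, hx, rfl⟩ := hb.2.2 hy
        rw [← hf γ hγ x hx]
        exact hb.1 (hS γ hγ x hx)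
      refine (DM.pull T S (invFunOn f S) hT hb' (fun γ hγ y hy => ?_) hw hv (fun y hy => ?_) h).1
      · obtain ⟨x, hx, rfl⟩ := hb.2.2 hy
        rw [← hf γ hγ x hx, hi.1 hx, hi.1 (hS γ hγ x hx)]
      · obtain ⟨x, hx, rfl⟩ := hb.2.2 hy
        rw [hi.1 hx, e x hx]
  refine ⟨⟨h2, fun h => (h1 h).1⟩, ?_⟩
  by_cases h : DGood ρ Γ0 w
  · exact (h1 h).2
  · rw [dmean_of_not h, dmean_of_not (mt h2 h)]

/-- transport along an equivariant bijection -/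
theorem dmean_equiv {X' : Type} {ρ' : G →* Equiv.Perm X'} (f : X' ≃ X)
    (hf : ∀ γ ∈ Γ0, ∀ x, f (ρ' γ x) = ρ γ (f x)) (w : X → ℂ) :
    (DGood ρ' Γ0 (fun x => w (f x)) ↔ DGood ρ Γ0 w) ∧
      dmean ρ' Γ0 (fun x => w (f x)) = dmean ρ Γ0 w :=
  dmean_bij Set.univ Set.univ f (fun _ _ _ _ => trivial) f.bijective.bijOn_univ
    (fun γ hγ x _ => hf γ hγ x) (fun _ _ => trivial) (fun _ _ => trivial) fun _ _ => rfl

/-- push-forward along a map that is equivariant on an invariant set containing the support -/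
theorem dmean_push {X' : Type} {ρ' : G →* Equiv.Perm X'} (h : DGood ρ Γ0 w) (S : Set X)
    (f : X → X') (hS : ∀ γ ∈ Γ0, ∀ x ∈ S, ρ γ x ∈ S) (hwS : ∀ x, w x ≠ 0 → x ∈ S)
    (hf : ∀ γ ∈ Γ0, ∀ x ∈ S, f (ρ γ x) = ρ' γ (f x))
    (hfin : ∀ y, {x | f x = y ∧ w x ≠ 0}.Finite)
    (hs : ∀ x ∈ S, {γ : G | γ ∈ Γ0 ∧ ρ' γ (f x) = f x}.Finite) :
    DGood ρ' Γ0 (fun y => ∑ᶠ x ∈ {x | f x = y}, w x) ∧
      dmean ρ' Γ0 (fun y => ∑ᶠ x ∈ {x | f x = y}, w x) = dmean ρ Γ0 w := by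
  classical
  obtain ⟨⟨Γ, β0⟩, h1, h2, -, -⟩ := id h
  simp only at h1 h2
  obtain ⟨⟨R, -, hR⟩, -⟩ := h.exists_reps h1 h2
  have hf' : ∀ γ ∈ Γ, ∀ x, w x ≠ 0 → f (ρ γ x) = ρ' γ (f x) := fun γ hγ x hx =>
    hf γ (h1.1 hγ) x (hwS x hx)
  obtain ⟨β, b1, b2⟩ := DM.wt_of_reps (ρ := ρ') (Γ := Γ)
    (w := fun y => if ∃ x, w x ≠ 0 ∧ f x = y then 1 else 0) (R.image f) (fun y hy => by
      obtain ⟨x, hx, rfl⟩ : ∃ x, w x ≠ 0 ∧ f x = y := by simpa using hy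
      obtain ⟨z, ⟨hz, γ, hγ, rfl⟩, -⟩ := hR x hx
      refine ⟨γ⁻¹, Γ.inv_mem hγ, ?_⟩
      rw [← hf' _ (Γ.inv_mem hγ) _ hx, DM.act_inv]
      exact Finset.mem_image_of_mem _ hz) (fun y hy => by
      obtain ⟨x, hx, rfl⟩ : ∃ x, w x ≠ 0 ∧ f x = y := by simpa using hy
      exact (hs x (hwS x hx)).subset fun γ hγ => ⟨h1.1 hγ.1, hγ.2⟩)
  have b3 : ∀ x, w x ≠ 0 → (support fun γ : Γ => β (ρ' γ (f x))).Finite ∧
      ∑ᶠ γ : Γ, β (ρ' γ (f x)) = 1 := fun x hx => b1 _ (by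
        simpa using ⟨x, hx, rfl⟩)
  have hW : ∀ y, ∑ᶠ x ∈ {x | f x = y}, w x = ∑ᶠ x ∈ {x | f x = y ∧ w x ≠ 0}, w x := fun y =>
    finsum_mem_inter_support_eq' _ _ _ fun x hx => ⟨fun h => ⟨h, hx⟩, fun h => h.1⟩
  have a0 : (support fun x => β (f x) * w x).Finite :=
    (b2.biUnion fun y _ => hfin y).subset fun x hx =>
      Set.mem_biUnion (left_ne_zero_of_mul hx) ⟨rfl, right_ne_zero_of_mul hx⟩
  have a1 : DAdm ρ Γ0 Γ (fun x => β (f x)) w := by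
    refine ⟨h1, h2, fun x hx => ?_, a0⟩
    have e1 : ∀ γ : Γ, f (ρ γ x) = ρ' γ (f x) := fun γ => hf' γ γ.2 x hx
    simpa only [e1] using b3 x hx
  have a2 : DAdm ρ' Γ0 Γ β fun y => ∑ᶠ x ∈ {x | f x = y}, w x := by
    refine ⟨h1, fun γ hγ y => ?_, fun y hy => ?_, b2.subset fun y hy => left_ne_zero_of_mul hy⟩
    · simp only [hW]
      refine (finsum_mem_eq_of_bijOn (ρ γ) ⟨?_, (ρ γ).injective.injOn, ?_⟩
        fun x _ => (h2 γ hγ x).symm).symm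
      · rintro x ⟨rfl, hx⟩
        exact ⟨hf' γ hγ x hx, by rwa [h2 γ hγ]⟩
      · rintro x ⟨e1, hx⟩
        refine ⟨ρ γ⁻¹ x, ⟨?_, by rwa [h2 _ (Γ.inv_mem hγ)]⟩, DM.act_inv' _ _⟩
        rw [hf' _ (Γ.inv_mem hγ) _ hx, e1, DM.act_inv]
    · simp only [hW] at hy
      obtain ⟨x, ⟨rfl, hx⟩, -⟩ := exists_ne_zero_of_finsum_mem_ne_zero hy
      exact b3 x hx
  refine ⟨⟨(Γ, β), a2⟩, ?_⟩
  rw [dmean_eq a1, dmean_eq a2]
  congr 1
  let F : X' × X → ℂ := fun p => if f p.2 = p.1 then β (f p.2) * w p.2 else 0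
  have hF : (support F).Finite := (a0.image fun x => (f x, x)).subset fun p hp => by
    have h3 : f p.2 = p.1 := by_contra fun h => hp (if_neg h)
    exact ⟨p.2, by simpa only [F, mem_support, if_pos h3] using hp, Prod.ext h3 rfl⟩
  have e1 : ∑ᶠ p, F p = ∑ᶠ p : X × X', F p.swap := (finsum_comp_equiv (Equiv.prodComm X X')).symm
  rw [finsum_curry _ hF, finsum_curry _ (hF.preimage Prod.swap_injective.injOn)] at e1
  refine (finsum_congr fun y => ?_).trans (e1.trans (finsum_congr fun x => ?_))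
  · rw [finsum_mem_def, mul_finsum]
    refine finsum_congr fun x => ?_
    by_cases h3 : f x = y
    · simp [F, h3]
    · simp [F, h3]
  · rw [finsum_eq_single (fun y => F (x, y).swap) (f x) fun y hy => if_neg (Ne.symm hy)]
    simp [F]

/-- finitely many points separate a linearly independent family of functions -/
theorem exists_dual_points {ι Y : Type} [Fintype ι] [DecidableEq ι] (b : ι → Y → ℂ)
    (hb : LinearIndependent ℂ b) : ∃ (S : Finset Y) (c : ι → Y → ℂ),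
      ∀ i j, ∑ y ∈ S, c i y * b j y = if i = j then 1 else 0 := by
  classical
  have h1 := span_flip_eq_top_iff_linearIndependent.2 hb
  have h2 : ∀ i : ι, ∃ c : Y →₀ ℂ, c.sum (fun y a => a • flip b y) = Pi.single i 1 := fun i =>
    Finsupp.mem_span_range_iff_exists_finsupp.1 (h1 ▸ Submodule.mem_top)
  choose c hc using h2
  refine ⟨Finset.univ.biUnion fun i => (c i).support, fun i => c i, fun i j => ?_⟩
  have h3 := congrFun (hc i) j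
  rw [Finsupp.sum_of_support_subset _ (Finset.subset_biUnion_of_mem (fun i => (c i).support)
    (Finset.mem_univ i)) _ (by simp), Finset.sum_apply] at h3
  simpa [flip, Pi.single_apply, eq_comm] using h3

end

end Pool.Agent.P.MP_b8021b_nt.CM
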