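import Pool.Agent.P.MP_b8021b_nt.CM.Act
import Pool.Agent.P.MP_b8021b_nt.CM.DMean

/-! Library L3: arithmetic of two by two matrices. -/

namespace Pool.Agent.P.MP_b8021b_nt.CM

open UpperHalfPlane hiding I
open CongruenceSubgroup Function
open scoped MatrixGroups

noncomputable section

/-- conjugation and principal congruence subgroups -/
theorem exists_Gam_conj (g : GQ) {M : ℕ} (hM : 0 < M) :
    ∃ N, 0 < N ∧ M ∣ N ∧ ∀ γ ∈ Gam N, g * γ * g⁻¹ ∈ Gam M := by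
  haveI : NeZero M := ⟨hM.ne'⟩
  obtain ⟨N, hN, h⟩ := exists_Gamma_le_conj g M
  refine ⟨M * N, Nat.mul_pos hM (Nat.pos_of_ne_zero hN), dvd_mul_right _ _, fun γ hγ => ?_⟩
  obtain ⟨x, hx, rfl⟩ := Gam_le (dvd_mul_left N M) hγ
  exact h x hx

theorem Gam_normal {M : ℕ} {g γ : GQ} (hg : g ∈ G0) (h : γ ∈ Gam M) : g * γ * g⁻¹ ∈ Gam M := by
  obtain ⟨a, rfl⟩ := hg
  obtain ⟨x, hx, rfl⟩ := h
  exact ⟨a * x * a⁻¹, (Gamma_normal M).conj_mem x hx a, by simp⟩

theorem LevU.comp_act {M : ℕ} (hM : 0 < M) (g : GQ) :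
    ∃ N, 0 < N ∧ M ∣ N ∧ ∀ u, LevU M u → LevU N fun τ => u (actH g τ) := by
  obtain ⟨N, hN, hd, h⟩ := exists_Gam_conj g hM
  refine ⟨N, hN, hd, fun u hu => ?_⟩
  rw [levU_iff] at hu ⊢
  intro γ hγ τ
  have := hu _ (h γ hγ) (actH g τ)
  beta_reduce
  rw [← this]
  simp [map_mul, map_inv]

/-- a weight for a subgroup of finite index -/
theorem exists_wtH {Γ : Subgroup GQ} (h : FI Γ G0) : ∃ (R : Finset SL) (β : ℍ → ℝ),
    Measurable β ∧ (∀ τ, 0 ≤ β τ) ∧ (∀ τ, β τ = ∑ r ∈ R, b0 (r • τ)) ∧ R.card = Γ.relIndex G0 ∧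
    ∀ τ, (support fun γ : Γ => β (actH γ τ)).Finite ∧ ∑ᶠ γ : Γ, β (actH γ τ) = 1 := by
  classical
  set Γ' : Subgroup SL := Γ.comap iota with hΓ'
  have hidx : Γ'.index = Γ.relIndex G0 := by rw [hΓ', Subgroup.index_comap]; rfl
  haveI : Γ'.FiniteIndex := ⟨hidx ▸ h.2⟩
  haveI : Fintype (SL ⧸ Γ') := Fintype.ofFinite _
  let φ : Γ' ≃ Γ := Equiv.ofBijective (fun x => ⟨iota x, x.2⟩) ⟨fun x y e =>
    Subtype.ext (iota_injective (congrArg Subtype.val e)), fun y => by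
      obtain ⟨x, hx⟩ := h.1 y.2
      exact ⟨⟨x, by rw [hΓ', Subgroup.mem_comap, hx]; exact y.2⟩, Subtype.ext hx⟩⟩
  have hinj : Injective (Quotient.out : SL ⧸ Γ' → SL) := Quotient.out_injective
  refine ⟨(Finset.univ : Finset (SL ⧸ Γ')).image Quotient.out, fun τ => ∑ q : SL ⧸ Γ', b0 (q.out • τ), ?_, ?_, ?_, ?_,
    fun τ => ?_⟩
  · refine Finset.measurable_sum _ fun q _ => measurable_b0.comp ?_
    have := continuous_actH (iota q.out)
    simp only [funext (actH_iota q.out)] at this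
    exact this.measurable
  · exact fun τ => Finset.sum_nonneg fun q _ => b0_nonneg _
  · intro τ
    rw [Finset.sum_image fun x _ y _ e => hinj e]
    rfl
  · rw [Finset.card_image_of_injective _ hinj, ← hidx, Subgroup.index_eq_card,
      Nat.card_eq_fintype_card, Finset.card_univ]
    rfl
  · have hfin : (support fun γ : SL => b0 (γ • τ)).Finite :=
      (finite_toD τ).subset fun γ hγ => (b0_ne_zero_iff _).1 hγ
    let ψ : Γ' × (SL ⧸ Γ') ≃ SL := Equiv.ofBijective (fun p => p.2.out * p.1) ⟨fun p p' e => by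
      have e1 : p.2 = p'.2 := by
        have h1 : ((p.2.out * p.1 : SL) : SL ⧸ Γ') = p.2 := by
          rw [QuotientGroup.mk_mul_of_mem _ p.1.2, QuotientGroup.out_eq']
        have h2 : ((p'.2.out * p'.1 : SL) : SL ⧸ Γ') = p'.2 := by
          rw [QuotientGroup.mk_mul_of_mem _ p'.1.2, QuotientGroup.out_eq']
        rw [← h1, ← h2]
        exact congrArg _ e
      refine Prod.ext (Subtype.ext ?_) e1
      simp only [e1] at e
      exact mul_left_cancel e, fun g => by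
        obtain ⟨k, hk⟩ := QuotientGroup.mk_out_eq_mul Γ' g
        exact ⟨(k⁻¹, (g : SL ⧸ Γ')), by simp [hk]⟩⟩
    have hf2 : (support fun p : Γ' × (SL ⧸ Γ') => b0 (ψ p • τ)).Finite :=
      hfin.preimage ψ.injective.injOn
    have key : ∀ x : Γ', (∑ q : SL ⧸ Γ', b0 (q.out • actH (φ x) τ)) =
        ∑ᶠ q : SL ⧸ Γ', b0 (ψ (x, q) • τ) := by
      intro x
      rw [finsum_eq_sum_of_fintype]
      refine Finset.sum_congr rfl fun q _ => ?_
      change b0 (q.out • actH (iota x) τ) = b0 ((q.out * x) • τ)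
      rw [actH_iota, mul_smul]
    constructor
    · refine Set.Finite.of_preimage ?_ φ.surjective
      refine (hf2.image Prod.fst).subset fun x hx => ?_
      have hx' : ∑ q : SL ⧸ Γ', b0 (q.out • actH (φ x) τ) ≠ 0 := hx
      rw [key, finsum_eq_sum_of_fintype] at hx'
      obtain ⟨q, -, hq⟩ := Finset.exists_ne_zero_of_sum_ne_zero hx'
      exact ⟨(x, q), hq, rfl⟩
    · rw [← finsum_comp_equiv φ]
      simp only [key]
      rw [← finsum_curry (fun p : Γ' × (SL ⧸ Γ') => b0 (ψ p • τ)) hf2,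
        finsum_comp_equiv ψ (f := fun γ => b0 (γ • τ)), b0_sum]

section uni
variable {G : Type} [Group G]

theorem ar_mem_cj {g x : G} {Γ : Subgroup G} : x ∈ cj g Γ ↔ g * x * g⁻¹ ∈ Γ := Iff.rfl

theorem ar_cj_mul (g h : G) (Γ : Subgroup G) : cj (g * h) Γ = cj h (cj g Γ) := by
  ext x; simp [ar_mem_cj, mul_assoc]

theorem ar_cj_one (Γ : Subgroup G) : cj 1 Γ = Γ := by ext x; simp [ar_mem_cj]

theorem ar_relIndex_cj (g : G) (A B : Subgroup G) :
    (cj g A).relIndex (cj g B) = A.relIndex B := by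
  unfold cj
  rw [Subgroup.relIndex_comap, Subgroup.map_comap_eq_self_of_surjective (MulAut.conj g).surjective]

theorem ar_cj_inf (g : G) (A B : Subgroup G) : cj g (A ⊓ B) = cj g A ⊓ cj g B := by
  ext x; simp [ar_mem_cj]

theorem ar_cj_mono (g : G) {A B : Subgroup G} (h : A ≤ B) : cj g A ≤ cj g B := fun _ hx => h hx

theorem ar_relIndex_cross {A B D : Subgroup G} (hA : D ≤ A) (hB : D ≤ B) :
    D.relIndex A * A.relIndex B = D.relIndex B * B.relIndex A := by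
  rw [← Subgroup.relIndex_mul_relIndex D (A ⊓ B) A (le_inf hA hB) inf_le_left,
    ← Subgroup.relIndex_mul_relIndex D (A ⊓ B) B (le_inf hA hB) inf_le_right,
    Subgroup.inf_relIndex_left, Subgroup.inf_relIndex_right]
  ring

/-- the modular function of a Hecke pair -/
theorem ar_uni_of_hom {Γ0 : Subgroup G} (hC : ∀ g, (cj g Γ0).relIndex Γ0 ≠ 0)
    (hδ : ∀ δ : G → ℚ, (∀ g, 0 < δ g) → (∀ g h, δ (g * h) = δ g * δ h) →
      (∀ g, cj g Γ0 = Γ0 → δ g = 1) → ∀ g, δ g = 1) : Uni Γ0 := by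
  have hC2 : ∀ g h, (cj g Γ0).relIndex (cj h Γ0) ≠ 0 := by
    intro g h
    have : cj g Γ0 = cj h (cj (g * h⁻¹) Γ0) := by rw [← ar_cj_mul]; simp
    rw [this, ar_relIndex_cj]
    exact hC _
  have hC' : ∀ g, Γ0.relIndex (cj g Γ0) ≠ 0 := fun g => by simpa [ar_cj_one] using hC2 1 g
  have h1 := hδ (fun g => ((cj g Γ0).relIndex Γ0 : ℚ) / Γ0.relIndex (cj g Γ0))
    (fun g => div_pos (by exact_mod_cast Nat.pos_of_ne_zero (hC g))
      (by exact_mod_cast Nat.pos_of_ne_zero (hC' g)))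
    (fun g h => by
      set A := Γ0
      set B := cj h Γ0
      set C := cj (g * h) Γ0
      have e1 : (cj g Γ0).relIndex Γ0 = C.relIndex B := by
        simp only [C, B, ar_cj_mul, ar_relIndex_cj]
      have e2 : Γ0.relIndex (cj g Γ0) = B.relIndex C := by
        simp only [C, B, ar_cj_mul, ar_relIndex_cj]
      rw [e1, e2]
      have a1 := ar_relIndex_cross (D := A ⊓ B ⊓ C) (A := A) (B := B) (inf_le_left.trans inf_le_left)
        (inf_le_left.trans inf_le_right)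
      have a2 := ar_relIndex_cross (D := A ⊓ B ⊓ C) (A := B) (B := C) (inf_le_left.trans inf_le_right)
        inf_le_right
      have a3 := ar_relIndex_cross (D := A ⊓ B ⊓ C) (A := A) (B := C) (inf_le_left.trans inf_le_left)
        inf_le_right
      have n1 : ∀ k, (A ⊓ B ⊓ C).relIndex (cj k Γ0) ≠ 0 := fun k =>
        Subgroup.relIndex_inf_ne_zero (Subgroup.relIndex_inf_ne_zero (hC' k) (hC2 _ _)) (hC2 _ _)
      have nA : ((A ⊓ B ⊓ C).relIndex A : ℚ) ≠ 0 := by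
        have := n1 1; rw [ar_cj_one] at this; exact_mod_cast this
      have nB : ((A ⊓ B ⊓ C).relIndex B : ℚ) ≠ 0 := by exact_mod_cast n1 h
      have nC : ((A ⊓ B ⊓ C).relIndex C : ℚ) ≠ 0 := by exact_mod_cast n1 (g * h)
      have m1 : (A.relIndex B : ℚ) ≠ 0 := by exact_mod_cast hC' h
      have m2 : (B.relIndex C : ℚ) ≠ 0 := by exact_mod_cast hC2 _ _
      have m3 : (A.relIndex C : ℚ) ≠ 0 := by exact_mod_cast hC' _
      have b1 : (B.relIndex A : ℚ) / A.relIndex B =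
          (A ⊓ B ⊓ C).relIndex A / (A ⊓ B ⊓ C).relIndex B := by
        rw [div_eq_div_iff m1 nB, mul_comm]; exact_mod_cast a1.symm
      have b2 : (C.relIndex B : ℚ) / B.relIndex C =
          (A ⊓ B ⊓ C).relIndex B / (A ⊓ B ⊓ C).relIndex C := by
        rw [div_eq_div_iff m2 nC, mul_comm]; exact_mod_cast a2.symm
      have b3 : (C.relIndex A : ℚ) / A.relIndex C =
          (A ⊓ B ⊓ C).relIndex A / (A ⊓ B ⊓ C).relIndex C := by
        rw [div_eq_div_iff m3 nC, mul_comm]; exact_mod_cast a3.symm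
      rw [b1, b2, b3]
      field_simp)
    (fun g hg => by simp [hg])
  intro g Γ hΓ
  have hle : cj g (Γ ⊓ cj g⁻¹ Γ0) ≤ Γ0 := by
    rw [ar_cj_inf, ← ar_cj_mul, inv_mul_cancel, ar_cj_one]; exact inf_le_right
  have hne : (Γ ⊓ cj g⁻¹ Γ0).relIndex Γ0 ≠ 0 := Subgroup.relIndex_inf_ne_zero hΓ.2 (hC _)
  have hle2 : Γ ⊓ cj g⁻¹ Γ0 ≤ Γ0 := inf_le_left.trans hΓ.1
  have heq : (cj g (Γ ⊓ cj g⁻¹ Γ0)).relIndex Γ0 = (Γ ⊓ cj g⁻¹ Γ0).relIndex Γ0 := by
    have a := ar_relIndex_cross hle (ar_cj_mono g hle2)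
    have b := h1 g
    rw [div_eq_one_iff_eq (by exact_mod_cast hC' g)] at b
    have b' : (cj g Γ0).relIndex Γ0 = Γ0.relIndex (cj g Γ0) := by exact_mod_cast b
    rw [b', ar_relIndex_cj] at a
    exact Nat.eq_of_mul_eq_mul_right (Nat.pos_of_ne_zero (hC' g)) a
  exact ⟨Γ ⊓ cj g⁻¹ Γ0, inf_le_left, ⟨hle2, hne⟩, ⟨hle, heq ▸ hne⟩, heq⟩

theorem ar_cj_of_mem {Γ : Subgroup G} {g : G} (hg : g ∈ Γ) : cj g Γ = Γ := by
  ext x
  rw [ar_mem_cj, Γ.mul_mem_cancel_right (Γ.inv_mem hg), Γ.mul_mem_cancel_left hg]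

theorem ar_cj_of_central (Γ : Subgroup G) {g : G} (hg : ∀ x, g * x = x * g) : cj g Γ = Γ := by
  ext x
  rw [ar_mem_cj, hg, mul_inv_cancel_right]

end uni

theorem ar_toG_mul {Y Z : M2} (hY : Y.det ≠ 0) (hZ : Z.det ≠ 0) : toG (Y * Z) = toG Y * toG Z := by
  refine Units.ext ?_
  rw [Units.val_mul, toG_val hY, toG_val hZ, toG_val (by rw [Matrix.det_mul]; exact mul_ne_zero hY hZ)]

theorem ar_GQ_det_ne (g : GQ) : g.1.det ≠ 0 := ((Matrix.isUnit_iff_isUnit_det _).1 g.isUnit).ne_zero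

theorem ar_hom_triv (δ : GQ → ℚ) (hp : ∀ g, 0 < δ g) (hm : ∀ g h, δ (g * h) = δ g * δ h)
    (h0 : ∀ g ∈ G0, δ g = 1) (hc : ∀ g : GQ, (∀ x, g * x = x * g) → δ g = 1) (g : GQ) :
    δ g = 1 := by
  have hpow : ∀ (g : GQ) (n : ℕ), δ (g ^ n) = δ g ^ n := by
    intro g n
    induction n with
    | zero => simpa using h0 1 (one_mem _)
    | succ n ih => rw [pow_succ, hm, ih, pow_succ]
  have hnnpow : ∀ (b : ℚ) (n : ℕ), nn b ^ n = nn (n * b) := by
    intro b n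
    induction n with
    | zero => exact Units.ext (by simp [nn_val, Matrix.one_fin_two])
    | succ n ih =>
      rw [pow_succ, ih]
      refine Units.ext ?_
      simp [nn_val, Matrix.mul_fin_two]
      ring
  have hnn : ∀ b : ℚ, δ (nn b) = 1 := by
    intro b
    have h1 : δ (nn b ^ b.den) = 1 := by
      refine h0 _ ?_
      rw [hnnpow, mem_G0, nn_val, isInt_M2, Rat.den_mul_eq_num]
      refine ⟨⟨!![1, b.num; 0, 1], ?_⟩, by simp [Matrix.det_fin_two]⟩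
      ext i j; fin_cases i <;> fin_cases j <;> simp [castZ]
    rw [hpow] at h1
    exact (pow_eq_one_iff_of_nonneg (hp _).le b.den_nz).1 h1
  have hS : (iota ModularGroup.S).1 = !![0, -1; 1, 0] := by
    rw [iota_val]; ext i j; fin_cases i <;> fin_cases j <;> simp [castZ, ModularGroup.S]
  have hS1 : δ (iota ModularGroup.S) = 1 := h0 _ ⟨_, rfl⟩
  have hdiag : ∀ g : GQ, g.1 0 1 = 0 → g.1 1 0 = 0 → δ g = 1 := by
    intro g h1 h2
    have h3 : δ (iota ModularGroup.S * g * iota ModularGroup.S * g) = 1 := by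
      refine hc _ fun x => Units.ext ?_
      have : (iota ModularGroup.S * g * iota ModularGroup.S * g).1 =
          (-(g.1 0 0 * g.1 1 1)) • (1 : M2) := by
        simp only [Units.val_mul, hS]
        rw [Matrix.eta_fin_two g.1, h1, h2]
        ext i j; fin_cases i <;> fin_cases j <;> simp [Matrix.mul_fin_two, mul_comm]
      simp only [Units.val_mul] at this ⊢
      rw [this]; simp
    rw [hm, hm, hm, hS1] at h3
    have := hp g
    nlinarith
  have hut : ∀ g : GQ, g.1 1 0 = 0 → δ g = 1 := by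
    intro g h2
    have hd := ar_GQ_det_ne g
    rw [Matrix.det_fin_two, h2, mul_zero, sub_zero] at hd
    have hd1 : g.1 1 1 ≠ 0 := right_ne_zero_of_mul hd
    have h3 := hdiag (nn (-(g.1 0 1 / g.1 1 1)) * g)
      (by simp [nn_val, Matrix.mul_apply, Fin.sum_univ_two, hd1])
      (by simp [nn_val, Matrix.mul_apply, Fin.sum_univ_two, h2])
    rwa [hm, hnn, one_mul] at h3
  by_cases h2 : g.1 1 0 = 0
  · exact hut g h2
  · have h3 := hut (iota ModularGroup.S * (nn (-(g.1 0 0 / g.1 1 0)) * g))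
      (by simp [hS, nn_val, Matrix.mul_apply, Fin.sum_univ_two, h2, Matrix.vecMul, dotProduct])
    rwa [hm, hm, hnn, hS1, one_mul, one_mul] at h3

theorem ar_cj_G0_ne (g : GQ) : ∃ N, 0 < N ∧ Gam N ≤ cj g G0 := by
  obtain ⟨N, hN, -, h⟩ := exists_Gam_conj g Nat.one_pos
  exact ⟨N, hN, fun γ hγ => by rw [ar_mem_cj, ← Gam_one]; exact h γ hγ⟩

theorem uni_G0 : Uni G0 := by
  refine ar_uni_of_hom (fun g h => ?_) fun δ hp hm h1 => ar_hom_triv δ hp hm
    (fun g hg => h1 g (ar_cj_of_mem hg)) fun g hg => h1 g (ar_cj_of_central _ hg)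
  obtain ⟨N, hN, hle⟩ := ar_cj_G0_ne g
  exact (fi_Gam hN).2 (Subgroup.relIndex_eq_zero_of_le_left hle h)

theorem uni_GG0 : Uni GG0 := by
  refine ar_uni_of_hom (fun g h => ?_) fun δ hp hm h1 g => ?_
  · obtain ⟨N, hN, hle⟩ := ar_cj_G0_ne g.1
    obtain ⟨N', hN', hle'⟩ := ar_cj_G0_ne g.2
    refine (fi_Gam2 hN hN').2 (Subgroup.relIndex_eq_zero_of_le_left ?_ h)
    exact fun x hx => ⟨hle hx.1, hle' hx.2⟩
  · have a := ar_hom_triv (fun x => δ (x, 1)) (fun _ => hp _) (fun x y => by rw [← hm]; simp)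
      (fun x hx => h1 _ (ar_cj_of_mem ⟨hx, one_mem _⟩))
      (fun x hx => h1 _ (ar_cj_of_central _ fun y => Prod.ext (hx _) (by simp))) g.1
    have b := ar_hom_triv (fun x => δ (1, x)) (fun _ => hp _) (fun x y => by rw [← hm]; simp)
      (fun x hx => h1 _ (ar_cj_of_mem ⟨one_mem _, hx⟩))
      (fun x hx => h1 _ (ar_cj_of_central _ fun y => Prod.ext (by simp) (hx _))) g.2
    have : g = (g.1, 1) * (1, g.2) := by simp
    rw [this, hm, a, b, one_mul]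

theorem ar_SL_det (γ : SL) : γ 0 0 * γ 1 1 - γ 0 1 * γ 1 0 = 1 := by
  have := γ.2
  rwa [Matrix.det_fin_two] at this

/-- a coprime pair is the bottom row of a matrix -/
theorem exists_SL_row {c d : ℤ} (h : IsCoprime c d) : ∃ γ : SL, γ 1 0 = c ∧ γ 1 1 = d :=
  h.exists_SL2_row 1

theorem exists_SL_col {a c : ℤ} (h : IsCoprime a c) : ∃ γ : SL, γ 0 0 = a ∧ γ 1 0 = c :=
  h.exists_SL2_col 0

/-- lifting of pairs that are coprime to the level -/
theorem exists_coprime_lift {N : ℕ} (hN : 0 < N) {a c : ℤ}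
    (h : ∀ p : ℕ, p.Prime → p ∣ N → ¬ ((p : ℤ) ∣ a ∧ (p : ℤ) ∣ c)) :
    ∃ a' c' : ℤ, IsCoprime a' c' ∧ (N : ℤ) ∣ a' - a ∧ (N : ℤ) ∣ c' - c := by
  classical
  obtain ⟨c', hc0, hc⟩ : ∃ c' : ℤ, c' ≠ 0 ∧ (N : ℤ) ∣ c' - c := by
    by_cases h0 : c = 0
    · exact ⟨N, by exact_mod_cast hN.ne', by simp [h0]⟩
    · exact ⟨c, h0, by simp⟩
  set t : ℕ := ∏ p ∈ c'.natAbs.primeFactors.filter (fun p : ℕ => ¬ (p : ℤ) ∣ a), p with ht
  refine ⟨a + N * t, c', ?_, by simp, hc⟩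
  rw [Int.isCoprime_iff_nat_coprime]
  refine Nat.coprime_of_dvd fun p hp h1 h2 => ?_
  have h1' : (p : ℤ) ∣ a + N * t := Int.natCast_dvd.2 h1
  have h2' : (p : ℤ) ∣ c' := Int.natCast_dvd.2 h2
  by_cases ha : (p : ℤ) ∣ a
  · have h3 : (p : ℤ) ∣ ((N * t : ℕ) : ℤ) := by
      push_cast; exact (dvd_add_right ha).1 h1'
    rcases (hp.dvd_mul).1 (Int.natCast_dvd_natCast.1 h3) with h4 | h4
    · refine h p hp h4 ⟨ha, ?_⟩
      have := (Int.natCast_dvd_natCast.2 h4).trans hc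
      simpa using dvd_sub h2' this
    · obtain ⟨q, hq, hpq⟩ := (hp.prime.dvd_finsetProd_iff _).1 h4
      rw [Finset.mem_filter] at hq
      rw [(Nat.prime_dvd_prime_iff_eq hp (Nat.prime_of_mem_primeFactors hq.1)).1 hpq] at ha
      exact hq.2 ha
  · have h4 : p ∣ t := Finset.dvd_prod_of_mem _ (Finset.mem_filter.2
      ⟨Nat.mem_primeFactors.2 ⟨hp, h2, Int.natAbs_ne_zero.2 hc0⟩, ha⟩)
    exact ha ((dvd_add_left ((Int.natCast_dvd_natCast.2 h4).mul_left _)).1 h1')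

theorem ar_T_zpow_mul (k : ℤ) (γ : SL) : (ModularGroup.T ^ k * γ).1 =
    !![γ 0 0 + k * γ 1 0, γ 0 1 + k * γ 1 1; γ 1 0, γ 1 1] := by
  change ((ModularGroup.T ^ k : SL) : Z2) * γ.1 = _
  rw [ModularGroup.coe_T_zpow]
  ext i j; fin_cases i <;> fin_cases j <;> simp [Matrix.mul_apply, Fin.sum_univ_two]

theorem ar_mul_T_zpow (k : ℤ) (γ : SL) : (γ * ModularGroup.T ^ k).1 =
    !![γ 0 0, γ 0 0 * k + γ 0 1; γ 1 0, γ 1 0 * k + γ 1 1] := by
  change γ.1 * ((ModularGroup.T ^ k : SL) : Z2) = _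
  rw [ModularGroup.coe_T_zpow]
  ext i j; fin_cases i <;> fin_cases j <;> simp [Matrix.mul_apply, Fin.sum_univ_two]

theorem red_surj {N : ℕ} (hN : 0 < N) (μ : R2 N) (h : μ.det = 1) : ∃ γ : SL, red N γ.1 = μ := by
  obtain ⟨a, ha⟩ := ZMod.intCast_surjective (μ 0 0)
  obtain ⟨b, hb⟩ := ZMod.intCast_surjective (μ 0 1)
  obtain ⟨c, hc⟩ := ZMod.intCast_surjective (μ 1 0)
  obtain ⟨d, hd⟩ := ZMod.intCast_surjective (μ 1 1)
  rw [Matrix.det_fin_two] at h
  obtain ⟨a', c', hco, h1, h2⟩ := exists_coprime_lift hN (a := a) (c := c) (by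
    rintro p hp hpN ⟨h1, h2⟩
    have h3 : ((a * d - b * c - 1 : ℤ) : ZMod N) = 0 := by
      push_cast; rw [ha, hb, hc, hd, h, sub_self]
    rw [ZMod.intCast_zmod_eq_zero_iff_dvd] at h3
    have h4 := (Int.natCast_dvd_natCast.2 hpN).trans h3
    have h5 : (p : ℤ) ∣ 1 := by
      have := dvd_sub (dvd_sub (h1.mul_right d) (h2.mul_left b)) h4
      simpa using this
    exact hp.one_lt.ne' (by exact_mod_cast Int.eq_one_of_dvd_one (by positivity) h5))
  obtain ⟨γ, g1, g2⟩ := exists_SL_col hco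
  have e1 : ((γ 0 0 : ℤ) : ZMod N) = μ 0 0 := by
    rw [g1, ← ha, eq_comm, ZMod.intCast_eq_intCast_iff_dvd_sub]; exact h1
  have e2 : ((γ 1 0 : ℤ) : ZMod N) = μ 1 0 := by
    rw [g2, ← hc, eq_comm, ZMod.intCast_eq_intCast_iff_dvd_sub]; exact h2
  have e3 := congrArg (Int.cast : ℤ → ZMod N) (ar_SL_det γ)
  push_cast at e3
  rw [e1, e2] at e3
  refine ⟨γ * ModularGroup.T ^ (γ 1 1 * b - γ 0 1 * d), ?_⟩
  rw [ar_mul_T_zpow]
  ext i j; fin_cases i <;> fin_cases j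
  · simpa [red] using e1
  · simp only [red, Matrix.map_apply, Fin.zero_eta, Fin.mk_one, Matrix.of_apply, Matrix.cons_val',
      Matrix.cons_val_one, Matrix.cons_val_zero, Matrix.cons_val_fin_one]
    push_cast
    rw [e1, hb, hd]
    linear_combination μ 0 1 * e3 - ((γ 0 1 : ℤ) : ZMod N) * h
  · simpa [red] using e2
  · simp only [red, Matrix.map_apply, Fin.zero_eta, Fin.mk_one, Matrix.of_apply, Matrix.cons_val',
      Matrix.cons_val_one, Matrix.cons_val_zero, Matrix.cons_val_fin_one]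
    push_cast
    rw [e2, hb, hd]
    linear_combination μ 1 1 * e3 - ((γ 1 1 : ℤ) : ZMod N) * h

theorem exists_Gamma_col {N : ℕ} {a c : ℤ} (h : IsCoprime a c) (ha : (N : ℤ) ∣ a - 1)
    (hc : (N : ℤ) ∣ c) : ∃ γ ∈ Gamma N, γ 0 0 = a ∧ γ 1 0 = c := by
  obtain ⟨γ, g1, g2⟩ := exists_SL_col h
  have e1 : ((γ 0 0 : ℤ) : ZMod N) = 1 := by
    rw [g1, ← Int.cast_one, eq_comm, ZMod.intCast_eq_intCast_iff_dvd_sub]; exact ha
  have e2 : ((γ 1 0 : ℤ) : ZMod N) = 0 := by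
    rw [g2, ZMod.intCast_zmod_eq_zero_iff_dvd]; exact hc
  have e3 := congrArg (Int.cast : ℤ → ZMod N) (ar_SL_det γ)
  push_cast at e3
  rw [e1, e2] at e3
  have e := ar_mul_T_zpow (-γ 0 1) γ
  have f : ∀ i j, (γ * ModularGroup.T ^ (-γ 0 1) : SL) i j =
      !![γ 0 0, γ 0 0 * (-γ 0 1) + γ 0 1; γ 1 0, γ 1 0 * (-γ 0 1) + γ 1 1] i j :=
    fun i j => congrFun (congrFun e i) j
  refine ⟨γ * ModularGroup.T ^ (-γ 0 1), ?_, by rw [f, ← g1]; rfl, by rw [f, ← g2]; rfl⟩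
  rw [Gamma_mem, f, f, f, f]
  refine ⟨e1, ?_, e2, ?_⟩
  · simp [e1]
  · simpa [e2] using e3

theorem ar_exists_prim {a c : ℤ} (h : a ≠ 0 ∨ c ≠ 0) :
    ∃ (g : ℕ) (a' c' : ℤ), 0 < g ∧ IsCoprime a' c' ∧ a = g * a' ∧ c = g * c' := by
  have hg : 0 < Int.gcd a c := Int.gcd_pos_iff.2 h
  obtain ⟨a', c', h1, h2, h3⟩ := Int.exists_gcd_one hg
  exact ⟨_, a', c', hg, Int.isCoprime_iff_gcd_eq_one.2 h1, by rw [mul_comm]; exact h2,
    by rw [mul_comm]; exact h3⟩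

theorem ar_vm_row (n : ℚ) (γ : SL) : vm (0, n) γ = (n * (γ 1 0 : ℤ), n * (γ 1 1 : ℤ)) := by
  simp [vm]

theorem vm_decomp {w : Q2} (h : w ≠ 0) : ∃ (n : ℚ) (γ : SL), 0 < n ∧ w = vm (0, n) γ := by
  have h1 : (w.1.den : ℚ) ≠ 0 := by exact_mod_cast w.1.den_nz
  have h2 : (w.2.den : ℚ) ≠ 0 := by exact_mod_cast w.2.den_nz
  obtain ⟨g, a', c', hg, hco, e1, e2⟩ := ar_exists_prim (a := w.1.num * w.2.den)
    (c := w.2.num * w.1.den) (by
      by_contra hh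
      push Not at hh
      refine h (Prod.ext ?_ ?_)
      · simpa [w.2.den_nz] using hh.1
      · simpa [w.1.den_nz] using hh.2)
  obtain ⟨γ, g1, g2⟩ := exists_SL_row hco
  refine ⟨g / (w.1.den * w.2.den), γ, by have := w.1.den_pos; have := w.2.den_pos; positivity, ?_⟩
  rw [ar_vm_row, g1, g2]
  have e1' := congrArg (Int.cast : ℤ → ℚ) e1
  have e2' := congrArg (Int.cast : ℤ → ℚ) e2
  push_cast at e1' e2'
  rw [← Rat.mul_den_eq_num] at e1' e2'
  refine Prod.ext ?_ ?_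
  · simp only; field_simp; linarith
  · simp only; field_simp; linarith

theorem vm_decomp_unique {n n' : ℚ} (h : 0 < n) (h' : 0 < n') {γ γ' : SL}
    (e : vm (0, n) γ = vm (0, n') γ') : n = n' ∧ ∃ k : ℤ, γ' = ModularGroup.T ^ k * γ := by
  rw [ar_vm_row, ar_vm_row, Prod.mk.injEq] at e
  obtain ⟨e1, e2⟩ := e
  have d1 := congrArg (Int.cast : ℤ → ℚ) (ar_SL_det γ)
  have d2 := congrArg (Int.cast : ℤ → ℚ) (ar_SL_det γ')
  push_cast at d1 d2
  set k : ℤ := γ 0 0 * γ' 1 1 - γ 0 1 * γ' 1 0 with hk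
  set k' : ℤ := γ' 0 0 * γ 1 1 - γ' 0 1 * γ 1 0 with hk'
  have a1 : n = n' * k := by
    rw [hk]; push_cast
    linear_combination (-n) * d1 + (γ 0 0 : ℤ) * e2 - (γ 0 1 : ℤ) * e1
  have a2 : n' = n * k' := by
    rw [hk']; push_cast
    linear_combination (-n') * d2 - (γ' 0 0 : ℤ) * e2 + (γ' 0 1 : ℤ) * e1
  have a3 : k * k' = 1 := by
    have : (k : ℚ) * k' = 1 := by
      refine mul_left_cancel₀ h'.ne' ?_
      rw [← mul_assoc, ← a1, ← a2, mul_one]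
    exact_mod_cast this
  have a4 : 0 < k := by
    have : (0 : ℚ) < k := by rw [a1] at h; exact (mul_pos_iff_of_pos_left h').1 h
    exact_mod_cast this
  have a5 : k = 1 := Int.eq_one_of_mul_eq_one_right a4.le a3
  have a6 : n = n' := by rw [a1, a5]; simp
  subst a6
  have b1 : γ 1 0 = γ' 1 0 := by exact_mod_cast mul_left_cancel₀ h.ne' e1
  have b2 : γ 1 1 = γ' 1 1 := by exact_mod_cast mul_left_cancel₀ h.ne' e2
  refine ⟨rfl, γ' 0 1 * γ 0 0 - γ' 0 0 * γ 0 1, Subtype.ext ?_⟩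
  have d1 := ar_SL_det γ
  have d2 := ar_SL_det γ'
  rw [← b1, ← b2] at d2
  rw [ar_T_zpow_mul]
  ext i j; fin_cases i <;> fin_cases j
  · change γ' 0 0 = γ 0 0 + (γ' 0 1 * γ 0 0 - γ' 0 0 * γ 0 1) * γ 1 0
    linear_combination (-γ' 0 0) * d1 + γ 0 0 * d2
  · change γ' 0 1 = γ 0 1 + (γ' 0 1 * γ 0 0 - γ' 0 0 * γ 0 1) * γ 1 1
    linear_combination (-γ' 0 1) * d1 + γ 0 1 * d2
  · exact b1.symm
  · exact b2.symm

theorem mem_hnf {m : ℕ} {g : Z2} : g ∈ hnf m ↔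
    ∃ a b d : ℕ, m ≠ 0 ∧ a * d = m ∧ b < d ∧ g = ut a b d := by
  simp only [hnf, Finset.mem_biUnion, Finset.mem_image, Finset.mem_range,
    Nat.mem_divisorsAntidiagonal]
  constructor
  · rintro ⟨p, ⟨h1, h2⟩, b, hb, rfl⟩
    exact ⟨p.1, b, p.2, h2, h1, hb, rfl⟩
  · rintro ⟨a, b, d, h1, h2, h3, rfl⟩
    exact ⟨(a, d), ⟨h2, h1⟩, b, h3, rfl⟩

theorem ar_ut_inj {a b d a' b' d' : ℤ} (h : ut a b d = ut a' b' d') : a = a' ∧ b = b' ∧ d = d' :=
  ⟨congrFun (congrFun h 0) 0, congrFun (congrFun h 0) 1, congrFun (congrFun h 1) 1⟩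

theorem card_hnf (m : ℕ) : (hnf m).card = ∑ d ∈ m.divisors, d := by
  rw [hnf, Finset.card_biUnion, ← Nat.sum_divisorsAntidiagonal' (f := fun _ d => d)]
  · refine Finset.sum_congr rfl fun p _ => ?_
    rw [Finset.card_image_of_injective, Finset.card_range]
    intro b b' e
    exact_mod_cast (ar_ut_inj e).2.1
  · intro p _ q _ hpq
    refine Finset.disjoint_left.2 fun g h1 h2 => hpq ?_
    obtain ⟨b, -, rfl⟩ := Finset.mem_image.1 h1
    obtain ⟨b', -, e⟩ := Finset.mem_image.1 h2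
    obtain ⟨e1, -, e2⟩ := ar_ut_inj e
    exact Prod.ext (by exact_mod_cast e1.symm) (by exact_mod_cast e2.symm)

/-- Hermite normal form -/
theorem exists_hnf {m : ℕ} (hm : 0 < m) {Y : Z2} (h : Y.det = m) :
    ∃! g, g ∈ hnf m ∧ ∃ γ : SL, Y = γ.1 * g := by
  rw [Matrix.det_fin_two] at h
  refine existsUnique_of_exists_of_unique ?_ ?_
  · obtain ⟨g, a', c', hg, hco, e1, e2⟩ := ar_exists_prim (a := Y 0 0) (c := Y 1 0) (by
      by_contra hh
      push Not at hh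
      rw [hh.1, hh.2] at h
      omega)
    obtain ⟨γ, g1, g2⟩ := exists_SL_col hco
    have d1 := ar_SL_det γ
    rw [g1, g2] at d1
    have hd : (g : ℤ) * (a' * Y 1 1 - c' * Y 0 1) = m := by rw [← h, e1, e2]; ring
    have hd0 : 0 < a' * Y 1 1 - c' * Y 0 1 := by
      refine (mul_pos_iff_of_pos_left (show (0 : ℤ) < g by exact_mod_cast hg)).1 ?_
      rw [hd]; exact_mod_cast hm
    obtain ⟨d, hd'⟩ := Int.eq_ofNat_of_zero_le hd0.le
    set b := γ 1 1 * Y 0 1 - γ 0 1 * Y 1 1 with hb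
    have hd1 : (0 : ℤ) < d := hd' ▸ hd0
    obtain ⟨r, hr⟩ := Int.eq_ofNat_of_zero_le (Int.emod_nonneg b hd1.ne')
    have hr1 := Int.emod_lt_of_pos b hd1
    have hq := Int.emod_add_mul_ediv b d
    refine ⟨ut g r d, mem_hnf.2 ⟨g, r, d, hm.ne', ?_, by omega, rfl⟩,
      γ * ModularGroup.T ^ (b / d), ?_⟩
    · rw [hd'] at hd; exact_mod_cast hd
    · rw [ar_mul_T_zpow, g1, g2, ← hr]
      ext i j; fin_cases i <;> fin_cases j
      · simp [ut, Matrix.mul_apply, Fin.sum_univ_two, e1, mul_comm]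
      · simp only [ut, Matrix.mul_fin_two]
        change Y 0 1 = a' * (b % d) + (a' * (b / d) + γ 0 1) * d
        linear_combination (-a') * hq - a' * hb + γ 0 1 * hd' - Y 0 1 * d1
      · simp [ut, Matrix.mul_apply, Fin.sum_univ_two, e2, mul_comm]
      · simp only [ut, Matrix.mul_fin_two]
        change Y 1 1 = c' * (b % d) + (c' * (b / d) + γ 1 1) * d
        linear_combination (-c') * hq - c' * hb + γ 1 1 * hd' - Y 1 1 * d1
  · rintro g g' ⟨h1, γ, e⟩ ⟨h2, γ', e'⟩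
    obtain ⟨a, b, d, -, p1, p2, rfl⟩ := mem_hnf.1 h1
    obtain ⟨a', b', d', -, p1', p2', rfl⟩ := mem_hnf.1 h2
    have e3 : ut a' b' d' = (γ'⁻¹ * γ).1 * ut a b d := by
      change _ = (γ'⁻¹).1 * γ.1 * _
      rw [mul_assoc, ← e, e', ← mul_assoc]
      change _ = (γ'⁻¹ * γ').1 * _
      rw [inv_mul_cancel]; simp
    generalize γ'⁻¹ * γ = δ at e3
    have d1 := ar_SL_det δ
    have ha : 0 < a := Nat.pos_of_ne_zero (by rintro rfl; omega)
    have ha' : 0 < a' := Nat.pos_of_ne_zero (by rintro rfl; omega)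
    have f := fun i j => congrFun (congrFun e3 i) j
    have f00 := f 0 0
    have f01 := f 0 1
    have f10 := f 1 0
    have f11 := f 1 1
    simp [ut, Matrix.mul_apply, Fin.sum_univ_two, ha.ne'] at f00 f01 f10 f11
    have f10' : δ 1 0 = 0 := f10
    rw [f10', mul_zero, sub_zero] at d1
    have k0 : 0 < δ 0 0 := by
      refine (mul_pos_iff_of_pos_right (show (0 : ℤ) < a by exact_mod_cast ha)).1 ?_
      rw [← f00]; exact_mod_cast ha'
    have k1 : δ 0 0 = 1 := Int.eq_one_of_mul_eq_one_right k0.le d1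
    rw [k1, one_mul] at d1
    rw [k1, one_mul] at f00 f01
    rw [f10', d1, zero_mul, zero_add, one_mul] at f11
    have k2 : δ 0 1 = 0 := by
      have q1 : (b : ℤ) < d := by exact_mod_cast p2
      have q2 : (b' : ℤ) < d := by rw [← f11]; exact_mod_cast p2'
      rcases lt_trichotomy (δ 0 1) 0 with k | k | k
      · nlinarith
      · exact k
      · nlinarith
    rw [k2, zero_mul, add_zero] at f01
    rw [f00, f01, f11]

/-- triangular form by multiplication on the right -/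
theorem exists_ut_right {Y : Z2} (h : 0 < Y.det) :
    ∃ (γ : SL) (a d : ℕ) (b : ℤ), 0 < a ∧ 0 < d ∧ Y * γ.1 = ut a b d := by
  rw [Matrix.det_fin_two] at h
  obtain ⟨g, c', d', hg, hco, e1, e2⟩ := ar_exists_prim (a := Y 1 0) (c := Y 1 1) (by
    by_contra hh
    push Not at hh
    rw [hh.1, hh.2] at h
    omega)
  obtain ⟨γ, g1, g2⟩ := exists_SL_row hco
  have d1 := ar_SL_det γ
  have hd0 : 0 < Y 0 0 * γ 1 1 - Y 0 1 * γ 1 0 := by
    refine (mul_pos_iff_of_pos_left (show (0 : ℤ) < g by exact_mod_cast hg)).1 ?_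
    rw [e1, e2, ← g1, ← g2] at h
    linarith
  obtain ⟨a, ha⟩ := Int.eq_ofNat_of_zero_le hd0.le
  refine ⟨γ⁻¹, a, g, Y 0 1 * γ 0 0 - Y 0 0 * γ 0 1, by omega, hg, ?_⟩
  rw [Matrix.SpecialLinearGroup.coe_inv, Matrix.adjugate_fin_two, Matrix.eta_fin_two Y, e1, e2,
    ← g1, ← g2, ← ha, Matrix.mul_fin_two, ut]
  ext i j; fin_cases i <;> fin_cases j
  · simp; ring
  · simp; ring
  · simp; ring
  · simp; linear_combination (g : ℤ) * d1

theorem ar_exists_unique_reps {X : Type} (r : X → X → Prop) (hr : Equivalence r) (R0 : Finset X) :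
    ∃ R : Finset X, R.card ≤ R0.card ∧ (∀ z ∈ R, ∃ z0 ∈ R0, r z z0) ∧
      ∀ y, (∃ z0 ∈ R0, r z0 y) → ∃! z, z ∈ R ∧ r z y := by
  classical
  let s : Setoid X := ⟨r, hr⟩
  refine ⟨R0.image fun x => (Quotient.mk s x).out, Finset.card_image_le, fun z hz => ?_,
    fun y ⟨z0, h0, h1⟩ => ⟨(Quotient.mk s z0).out, ⟨Finset.mem_image_of_mem _ h0,
      hr.trans (Quotient.mk_out (s := s) z0) h1⟩, fun z ⟨hz, hz'⟩ => ?_⟩⟩
  · obtain ⟨x, hx, rfl⟩ := Finset.mem_image.1 hz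
    exact ⟨x, hx, Quotient.mk_out (s := s) x⟩
  · obtain ⟨x, hx, rfl⟩ := Finset.mem_image.1 hz
    have : Quotient.mk s x = Quotient.mk s z0 := Quotient.sound
      (hr.trans (hr.symm (Quotient.mk_out (s := s) x)) (hr.trans hz' (hr.symm h1)))
    rw [this]

theorem ar_isInt_G0_mul {M : ℕ} {γ : GQ} (hγ : γ ∈ G0) {Y : GQ} (h : IsInt ((M : ℚ) • Y.1)) :
    IsInt ((M : ℚ) • (γ * Y).1) := by
  obtain ⟨δ, rfl⟩ := hγ
  obtain ⟨Z, hZ⟩ := (isInt_M2 _).1 h
  refine (isInt_M2 _).2 ⟨δ.1 * Z, ?_⟩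
  rw [castZ_mul, hZ, Units.val_mul, iota_val, Matrix.mul_smul]

/-- representatives for the left cosets -/
theorem exists_left_reps {K M : ℕ} (hK : 0 < K) (hM : 0 < M) (n : ℚ) (hn : 0 < n) :
    ∃ R : Finset GQ, (∀ Y ∈ R, Y.1.det = n ∧ IsInt ((M : ℚ) • Y.1)) ∧
      (∀ Y : GQ, Y.1.det = n → IsInt ((M : ℚ) • Y.1) → ∃! Z, Z ∈ R ∧ ∃ γ ∈ Gam K, γ * Z = Y) ∧
      (R.card : ℚ) ≤ (Gamma K).index * ((M : ℚ) ^ 2 * n) ^ 2 := by
  classical
  have hM' : (M : ℚ) ≠ 0 := by exact_mod_cast hM.ne'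
  by_cases hm : ∃ m : ℕ, (m : ℚ) = M ^ 2 * n
  swap
  · refine ⟨∅, by simp, fun Y h1 h2 => (hm ?_).elim, by simp; positivity⟩
    obtain ⟨Z, hZ⟩ := (isInt_M2 _).1 h2
    have h3 : (Z.det : ℚ) = M ^ 2 * n := by
      rw [← castZ_det, hZ, Matrix.det_smul, h1]; simp
    have h4 : (0 : ℚ) ≤ Z.det := by rw [h3]; positivity
    obtain ⟨m, hm⟩ := Int.eq_ofNat_of_zero_le (a := Z.det) (by exact_mod_cast h4)
    exact ⟨m, by rw [← h3, hm]; simp⟩
  obtain ⟨m, hm⟩ := hm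
  have hm0 : 0 < m := by
    have : (0 : ℚ) < m := by rw [hm]; positivity
    exact_mod_cast this
  obtain ⟨Rs, hRs, hcard, hrep⟩ := (fi_Gam hK).exists_reps
  have hdet : ∀ g ∈ hnf m, ((M : ℚ)⁻¹ • castZ g).det = n := by
    intro g hg
    obtain ⟨a, b, d, -, p1, -, rfl⟩ := mem_hnf.1 hg
    have : (ut a b d).det = m := by simp [ut, Matrix.det_fin_two, ← p1]
    rw [Matrix.det_smul, castZ_det, this]
    simp only [Fintype.card_fin, Int.cast_natCast, hm]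
    field_simp
  obtain ⟨R, h1, h2, h3⟩ := ar_exists_unique_reps (fun Z Y : GQ => ∃ γ ∈ Gam K, γ * Z = Y)
    ⟨fun x => ⟨1, one_mem _, one_mul x⟩, fun ⟨γ, hγ, e⟩ => ⟨γ⁻¹, inv_mem hγ, by simp [← e]⟩,
      fun ⟨γ, hγ, e⟩ ⟨δ, hδ, e'⟩ => ⟨δ * γ, mul_mem hδ hγ, by rw [mul_assoc, e, e']⟩⟩
    ((Rs ×ˢ hnf m).image fun p => p.1 * toG ((M : ℚ)⁻¹ • castZ p.2))
  have hG : ∀ γ ∈ G0, ∀ Y : GQ, Y.1.det = n ∧ IsInt ((M : ℚ) • Y.1) →
      (γ * Y).1.det = n ∧ IsInt ((M : ℚ) • (γ * Y).1) := fun γ hγ Y hY =>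
    ⟨by rw [Units.val_mul, Matrix.det_mul, ((mem_G0 γ).1 hγ).2, hY.1, one_mul],
      ar_isInt_G0_mul hγ hY.2⟩
  refine ⟨R, fun Y hY => ?_, fun Y hY hY' => h3 Y ?_, ?_⟩
  · obtain ⟨z0, hz0, γ, hγ, e⟩ := h2 Y hY
    obtain ⟨p, hp, rfl⟩ := Finset.mem_image.1 hz0
    rw [Finset.mem_product] at hp
    have hd := hdet _ hp.2
    have := hG _ (inv_mem ((fi_Gam hK).1 hγ)) _ (hG _ (hRs _ hp.1) (toG ((M : ℚ)⁻¹ • castZ p.2)) (by
      rw [toG_val (hd ▸ hn.ne'), smul_smul, mul_inv_cancel₀ hM', one_smul]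
      exact ⟨hd, (isInt_M2 _).2 ⟨_, rfl⟩⟩))
    rwa [← e, inv_mul_cancel_left] at this
  · obtain ⟨Z, hZ⟩ := (isInt_M2 _).1 hY'
    have h3 : Z.det = m := by
      have : (Z.det : ℚ) = m := by rw [← castZ_det, hZ, Matrix.det_smul, hY, hm]; simp
      exact_mod_cast this
    obtain ⟨g, ⟨hg, γ, e⟩, -⟩ := exists_hnf hm0 h3
    obtain ⟨r, ⟨hr, hr'⟩, -⟩ := hrep (iota γ) ⟨γ, rfl⟩
    refine ⟨_, Finset.mem_image.2 ⟨(r, g), Finset.mem_product.2 ⟨hr, hg⟩, rfl⟩, _, hr', ?_⟩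
    rw [← mul_assoc, inv_mul_cancel_right]
    refine Units.ext ?_
    rw [Units.val_mul, toG_val (hdet g hg ▸ hn.ne'), iota_val, Matrix.mul_smul, ← castZ_mul, ← e,
      hZ, smul_smul, inv_mul_cancel₀ hM', one_smul]
  · have h4 := h1.trans Finset.card_image_le
    rw [Finset.card_product, hcard, relIndex_Gam, card_hnf] at h4
    have h5 : ∑ d ∈ m.divisors, d ≤ m ^ 2 := by
      refine (Finset.sum_le_card_nsmul _ _ m fun d hd => Nat.divisor_le hd).trans ?_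
      rw [smul_eq_mul, sq]
      exact Nat.mul_le_mul_right _ (Nat.card_divisors_le_self m)
    rw [← hm]
    exact_mod_cast h4.trans (Nat.mul_le_mul_left _ h5)

/-- representatives for the right cosets -/
theorem exists_right_reps {K M : ℕ} (hK : 0 < K) (hM : 0 < M) (n : ℚ) (hn : 0 < n) :
    ∃ R : Finset GQ, (∀ Y ∈ R, Y.1.det = n ∧ IsInt ((M : ℚ) • Y.1)) ∧
      ∀ Y : GQ, Y.1.det = n → IsInt ((M : ℚ) • Y.1) → ∃! Z, Z ∈ R ∧ ∃ γ ∈ Gam K, Z * γ = Y := by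
  classical
  obtain ⟨R, h1, h2, -⟩ := exists_left_reps hK hM n hn
  let φ : GQ → GQ := fun Y => toG Y.1.transpose
  have hφ : ∀ Y, (φ Y).1 = Y.1.transpose := fun Y =>
    toG_val (by rw [Matrix.det_transpose]; exact ar_GQ_det_ne Y)
  have hφφ : ∀ Y, φ (φ Y) = Y := fun Y => Units.ext (by rw [hφ, hφ, Matrix.transpose_transpose])
  have hmul : ∀ Y Z, φ (Y * Z) = φ Z * φ Y := fun Y Z => Units.ext (by
    rw [Units.val_mul, hφ, hφ, hφ, Units.val_mul, Matrix.transpose_mul])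
  have hG : ∀ γ ∈ Gam K, φ γ ∈ Gam K := by
    rintro _ ⟨γ, hγ, rfl⟩
    refine ⟨γ.transpose, ?_, Units.ext ?_⟩
    · have := Gamma_mem.1 hγ
      exact Gamma_mem.2 ⟨this.1, this.2.2.1, this.2.1, this.2.2.2⟩
    · rw [hφ, iota_val, iota_val]; rfl
  have hP : ∀ Y : GQ, Y.1.det = n ∧ IsInt ((M : ℚ) • Y.1) →
      (φ Y).1.det = n ∧ IsInt ((M : ℚ) • (φ Y).1) := by
    intro Y hY
    rw [hφ, Matrix.det_transpose, isInt_M2']
    exact ⟨hY.1, fun i j => (isInt_M2' _).1 hY.2 j i⟩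
  refine ⟨R.image φ, fun Y hY => ?_, fun Y hY hY' => ?_⟩
  · obtain ⟨Z, hZ, rfl⟩ := Finset.mem_image.1 hY
    exact hP Z (h1 Z hZ)
  · obtain ⟨Z, ⟨hZ, γ, hγ, e⟩, hu⟩ := h2 (φ Y) (hP Y ⟨hY, hY'⟩).1 (hP Y ⟨hY, hY'⟩).2
    refine ⟨φ Z, ⟨Finset.mem_image_of_mem _ hZ, φ γ, hG γ hγ, by rw [← hmul, e, hφφ]⟩, ?_⟩
    rintro Z' ⟨hZ', δ, hδ, e'⟩
    obtain ⟨W, hW, rfl⟩ := Finset.mem_image.1 hZ'
    rw [hu W ⟨hW, φ δ, hG δ hδ, by rw [← e', hmul, hφφ]⟩]

theorem ar_prim_iff {M : ℕ} (hM : 1 < M) (w : Q2) :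
    (∃ (g : ℕ) (γ : SL), 0 < g ∧ g.Coprime M ∧ w = vm (0, g) γ) ↔
      ∃ a c x y z : ℤ, w = ((a : ℚ), (c : ℚ)) ∧ a * x + c * y + M * z = 1 := by
  constructor
  · rintro ⟨g, γ, -, hg, rfl⟩
    obtain ⟨u, v, huv⟩ := Nat.isCoprime_iff_coprime.2 hg
    refine ⟨g * γ 1 0, g * γ 1 1, -γ 0 1 * u, γ 0 0 * u, v, by simp [ar_vm_row], ?_⟩
    linear_combination huv + g * u * ar_SL_det γ
  · rintro ⟨a, c, x, y, z, rfl, h⟩
    obtain ⟨g, a', c', hg, hco, rfl, rfl⟩ := ar_exists_prim (a := a) (c := c) (by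
      by_contra hh
      push Not at hh
      rw [hh.1, hh.2, zero_mul, zero_mul, zero_add, zero_add] at h
      have := Int.eq_one_of_mul_eq_one_right (by positivity) h
      omega)
    obtain ⟨γ, g1, g2⟩ := exists_SL_row hco
    refine ⟨g, γ, hg, Nat.isCoprime_iff_coprime.1 ⟨a' * x + c' * y, z, ?_⟩, by
      simp [ar_vm_row, g1, g2]⟩
    linear_combination h

/-- sections of induced representations -/
theorem exists_sec {V : Type} [AddCommGroup V] [Module ℂ V] {M : ℕ} (hM : 1 < M) (ψ : ℤ → ℂ)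
    (h1 : ψ 1 = 1) (hmul : ∀ a b, ψ (a * b) = ψ a * ψ b)
    (hper : ∀ a b : ℤ, (M : ℤ) ∣ a - b → ψ a = ψ b) (f : SL → V)
    (hf : ∀ δ γ : SL, (M : ℤ) ∣ δ 1 0 → f (δ * γ) = ψ (δ 1 1) • f γ) :
    ∃ F : Q2 → V, (∀ g : ℕ, 0 < g → g.Coprime M → ∀ γ, F (vm (0, g) γ) = ψ g • f γ) ∧
      (∀ w, F w = 0 ∨ ∃ (g : ℕ) (γ : SL), 0 < g ∧ g.Coprime M ∧ w = vm (0, g) γ) ∧
      (∀ w γ, (¬ ∃ (g : ℕ) (δ : SL), 0 < g ∧ g.Coprime M ∧ w = vm (0, g) δ) →
        F w = 0 ∧ F (vm w γ) = 0) ∧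
      (∀ w k : Q2, IsInt k → F (w + (M : ℚ) • k) = F w) ∧
      ∀ n : ℤ, IsCoprime n M → ∀ w : Q2, (∃ k : ℕ, IsInt (((M ^ k : ℕ) : ℚ) • w)) →
        F ((n : ℚ) • w) = ψ n • F w := by
  classical
  set P : Q2 → Prop := fun w => ∃ (g : ℕ) (γ : SL), 0 < g ∧ g.Coprime M ∧ w = vm (0, g) γ with hP
  let F : Q2 → V := fun w => if h : P w then ψ h.choose • f h.choose_spec.choose else 0
  have F0 : ∀ w, ¬ P w → F w = 0 := fun w h => dif_neg h
  have F1 : ∀ g : ℕ, 0 < g → g.Coprime M → ∀ γ, F (vm (0, g) γ) = ψ g • f γ := by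
    intro g hg hc γ
    have h : P (vm (0, g) γ) := ⟨g, γ, hg, hc, rfl⟩
    have e : F (vm (0, g) γ) = ψ h.choose • f h.choose_spec.choose := dif_pos h
    obtain ⟨a1, -, a2⟩ := h.choose_spec.choose_spec
    obtain ⟨a3, k, a4⟩ := vm_decomp_unique (by exact_mod_cast hg) (by exact_mod_cast a1) a2
    have a5 : g = h.choose := by exact_mod_cast a3
    have t : ∀ i j, (ModularGroup.T ^ k : SL) i j = !![1, k; 0, 1] i j := fun i j =>
      congrFun (congrFun (ModularGroup.coe_T_zpow k) i) j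
    rw [e, a4, hf _ _ (by rw [t]; simp), t, ← a5]
    simp [h1]
  have key : ∀ (g g' : ℕ) (γ γ' : SL) (n k l : ℤ), g'.Coprime M →
      g' * γ' 1 0 = n * (g * γ 1 0) + M * k → g' * γ' 1 1 = n * (g * γ 1 1) + M * l →
      ψ g' • f γ' = ψ n • ψ g • f γ := by
    intro g g' γ γ' n k l hc e1 e2
    have d := ar_SL_det γ
    have t0 : (γ' * γ⁻¹ : SL) 1 0 = γ' 1 0 * γ 1 1 - γ' 1 1 * γ 1 0 := by
      simp [Matrix.mul_apply, Fin.sum_univ_two, Matrix.adjugate_fin_two]; ring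
    have t1 : (γ' * γ⁻¹ : SL) 1 1 = γ' 1 1 * γ 0 0 - γ' 1 0 * γ 0 1 := by
      simp [Matrix.mul_apply, Fin.sum_univ_two, Matrix.adjugate_fin_two]; ring
    have h2 := hf (γ' * γ⁻¹) γ (by
      refine (Nat.isCoprime_iff_coprime.2 hc).symm.dvd_of_dvd_mul_left
        ⟨k * γ 1 1 - l * γ 1 0, ?_⟩
      rw [t0]; linear_combination γ 1 1 * e1 - γ 1 0 * e2)
    rw [inv_mul_cancel_right] at h2
    rw [h2, smul_smul, smul_smul, ← hmul, ← hmul]
    congr 1
    refine hper _ _ ⟨l * γ 0 0 - k * γ 0 1, ?_⟩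
    rw [t1]; linear_combination γ 0 0 * e2 - γ 0 1 * e1 + n * g * d
  have Pk : ∀ w k : Q2, IsInt k → P w → P (w + (M : ℚ) • k) := by
    intro w k hk hw
    obtain ⟨a, c, x, y, z, rfl, h⟩ := (ar_prim_iff hM w).1 hw
    obtain ⟨k1, k2⟩ := k
    rw [isInt_prod, isInt_rat, isInt_rat] at hk
    obtain ⟨⟨k1, rfl⟩, ⟨k2, rfl⟩⟩ := hk
    exact (ar_prim_iff hM _).2 ⟨a + M * k1, c + M * k2, x, y, z - k1 * x - k2 * y, by simp,
      by linear_combination h⟩
  refine ⟨F, F1, fun w => ?_, fun w γ h => ⟨F0 w h, F0 _ ?_⟩, fun w k hk => ?_,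
    fun n hn w hw => ?_⟩
  · by_cases h : P w
    exacts [Or.inr h, Or.inl (F0 w h)]
  · rintro ⟨g, δ, a1, a2, a3⟩
    exact h ⟨g, δ * γ⁻¹, a1, a2, by rw [vm_mul, ← a3, ← vm_mul, mul_inv_cancel, vm_one]⟩
  · by_cases h : P w
    · obtain ⟨g', γ', a1', a2', a3'⟩ := Pk w k hk h
      obtain ⟨g, γ, a1, a2, rfl⟩ := h
      rw [a3', F1 g' a1' a2', F1 g a1 a2]
      obtain ⟨k1, k2⟩ := k
      rw [isInt_prod, isInt_rat, isInt_rat] at hk
      obtain ⟨⟨k1, rfl⟩, ⟨k2, rfl⟩⟩ := hk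
      simp only [ar_vm_row, Prod.smul_mk, Prod.mk_add_mk, Prod.mk.injEq, smul_eq_mul] at a3'
      rw [key g g' γ γ' 1 k1 k2 a2' (by rw [one_mul]; exact_mod_cast a3'.1.symm)
        (by rw [one_mul]; exact_mod_cast a3'.2.symm), h1, one_smul]
    · rw [F0 w h, F0]
      intro h'
      have := Pk _ (-k) (neg_mem hk) h'
      simp only [smul_neg, add_neg_cancel_right] at this
      exact h this
  · by_cases h : P w
    · have h' : P ((n : ℚ) • w) := by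
        obtain ⟨a, c, x, y, z, rfl, h3⟩ := (ar_prim_iff hM w).1 h
        obtain ⟨u, v, huv⟩ := hn
        exact (ar_prim_iff hM _).2 ⟨n * a, n * c, u * x, u * y, v + z * u * n, by simp,
          by linear_combination huv + u * n * h3⟩
      obtain ⟨g', γ', a1', a2', a3'⟩ := h'
      obtain ⟨g, γ, a1, a2, rfl⟩ := h
      rw [a3', F1 g' a1' a2', F1 g a1 a2]
      simp only [ar_vm_row, Prod.smul_mk, Prod.mk.injEq, smul_eq_mul] at a3'
      exact key g g' γ γ' n 0 0 a2' (by rw [mul_zero, add_zero]; exact_mod_cast a3'.1.symm)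
        (by rw [mul_zero, add_zero]; exact_mod_cast a3'.2.symm)
    · rw [F0 w h, smul_zero, F0]
      intro h'
      obtain ⟨a, c, x, y, z, e, h2⟩ := (ar_prim_iff hM _).1 h'
      obtain ⟨k, hk⟩ := hw
      obtain ⟨w1, w2⟩ := w
      rw [isInt_prod, isInt_rat, isInt_rat] at hk
      obtain ⟨⟨k1, b1⟩, ⟨k2, b2⟩⟩ := hk
      obtain ⟨u, v, huv⟩ := hn.pow_right (n := k)
      have huv' := congrArg (Int.cast : ℤ → ℚ) huv
      simp only [Prod.smul_mk, Prod.mk.injEq, smul_eq_mul] at e b1 b2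
      push_cast at huv' b1 b2
      have c1 : w1 = ((u * a + v * k1 : ℤ) : ℚ) := by
        push_cast; linear_combination (-w1) * huv' + u * e.1 + v * b1
      have c2 : w2 = ((u * c + v * k2 : ℤ) : ℚ) := by
        push_cast; linear_combination (-w2) * huv' + u * e.2 + v * b2
      refine h ((ar_prim_iff hM _).2 ⟨_, _, n * x, n * y, z, Prod.ext c1 c2, ?_⟩)
      rw [c1, c2] at e
      have d1 : n * (u * a + v * k1) = a := by exact_mod_cast e.1
      have d2 : n * (u * c + v * k2) = c := by exact_mod_cast e.2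
      linear_combination h2 + x * d1 + y * d2

/-! ### the quadratic character -/

theorem chi_one (d : ℕ) : chi d 1 = 1 := by simp [chi, isCoprime_one_left]

theorem ar_ne_zero_of_cop {d : ℕ} {a : ℤ} (h : IsCoprime a (2 * d : ℤ)) : a ≠ 0 := by
  rintro rfl
  rcases Int.isUnit_iff.1 (isCoprime_zero_left.1 h) with h | h <;> omega

theorem chi_mul (d : ℕ) (a b : ℤ) : chi d (a * b) = chi d a * chi d b := by
  unfold chi
  by_cases ha : IsCoprime a (2 * d : ℤ)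
  · by_cases hb : IsCoprime b (2 * d : ℤ)
    · rw [if_pos ha, if_pos hb, if_pos (ha.mul_left hb), Int.natAbs_mul, Int.sign_mul,
        jacobiSym.mul_right' _ (Int.natAbs_ne_zero.2 (ar_ne_zero_of_cop ha))
          (Int.natAbs_ne_zero.2 (ar_ne_zero_of_cop hb))]
      push_cast; ring
    · rw [if_neg hb, if_neg fun h => hb h.of_mul_left_right, mul_zero]
  · rw [if_neg ha, if_neg fun h => ha h.of_mul_left_left, zero_mul]

theorem chi_neg_one (d : ℕ) : chi d (-1) = -1 := by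
  simp [chi, isCoprime_one_left, IsCoprime.neg_left_iff]

theorem chi_eq_zero {d : ℕ} {a : ℤ} (h : ¬ IsCoprime a (2 * d : ℤ)) : chi d a = 0 := if_neg h

theorem ar_chi_nat {d a : ℕ} (h : IsCoprime (a : ℤ) (2 * d : ℤ)) :
    chi d a = (jacobiSym (-(d : ℤ)) a : ℤ) := by
  have h0 : (0 : ℤ) < a := lt_of_le_of_ne (by positivity) (ar_ne_zero_of_cop h).symm
  rw [chi, if_pos h, Int.sign_eq_one_of_pos h0, one_mul, Int.natAbs_natCast]

theorem ar_cop_congr {d : ℕ} {a b : ℤ} (h : (4 * d : ℤ) ∣ a - b) (ha : IsCoprime a (2 * d : ℤ)) :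
    IsCoprime b (2 * d : ℤ) := by
  obtain ⟨k, hk⟩ := h
  obtain ⟨u, v, huv⟩ := ha
  exact ⟨u, v + 2 * k * u, by linear_combination huv - u * hk⟩

theorem ar_chi_congr_nat {d a b : ℕ} (h : (4 * d : ℤ) ∣ (a : ℤ) - b) : chi d a = chi d b := by
  by_cases ha : IsCoprime (a : ℤ) (2 * d : ℤ)
  · have hb := ar_cop_congr h ha
    have odd : ∀ x : ℕ, IsCoprime (x : ℤ) (2 * d : ℤ) → Odd x := fun x hx =>
      Nat.coprime_two_right.1 (Nat.isCoprime_iff_coprime.1 hx.of_mul_right_left)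
    rw [ar_chi_nat ha, ar_chi_nat hb, jacobiSym.mod_right _ (odd a ha), jacobiSym.mod_right _ (odd b hb)]
    have : b ≡ a [MOD 4 * d] := (Nat.modEq_iff_dvd).2 (by exact_mod_cast h)
    simp only [Int.natAbs_neg, Int.natAbs_natCast]
    rw [this]
  · rw [chi_eq_zero ha, chi_eq_zero fun hb => ha (ar_cop_congr (dvd_sub_comm.1 h) hb)]

theorem ar_chi_last {d : ℕ} (hd : 0 < d) : chi d (4 * d - 1) = -1 := by
  obtain ⟨m, hm⟩ : ∃ m : ℕ, m + 1 = 4 * d := ⟨4 * d - 1, by omega⟩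
  have hm' : (4 * d - 1 : ℤ) = m := by omega
  have ho : Odd m := by rw [Nat.odd_iff]; omega
  rw [hm', ar_chi_nat ⟨-1, 2, by omega⟩]
  have h1 : jacobiSym (-(d : ℤ)) m = jacobiSym (-1) m := by
    have h2 := jacobiSym.mul_left 4 (-(d : ℤ)) m
    rw [jacobiSym.at_four ho, one_mul] at h2
    rw [← h2]
    refine jacobiSym.mod_left' (Int.ModEq.eq (Int.modEq_iff_dvd.2 ⟨1, by omega⟩))
  rw [h1, jacobiSym.at_neg_one ho, ZMod.χ₄_nat_three_mod_four (by omega)]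
  simp

theorem chi_congr {d : ℕ} (hd : 0 < d) {a b : ℤ} (h : (4 * d : ℤ) ∣ a - b) :
    chi d a = chi d b := by
  have key : ∀ a : ℤ, ∃ n : ℕ, (4 * d : ℤ) ∣ a - n ∧ chi d a = chi d n := by
    intro a
    rcases le_or_gt 0 a with h0 | h0
    · obtain ⟨n, rfl⟩ := Int.eq_ofNat_of_zero_le h0
      exact ⟨n, by simp, rfl⟩
    · obtain ⟨n, hn⟩ := Int.eq_ofNat_of_zero_le (a := (4 * d - 1) * (-1 * a))
        (mul_nonneg (by omega) (by omega))
      refine ⟨n, ⟨a, by linear_combination hn⟩, ?_⟩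
      rw [← hn, chi_mul, chi_mul, ar_chi_last hd, chi_neg_one]; ring
  obtain ⟨n, h1, h2⟩ := key a
  obtain ⟨m, h3, h4⟩ := key b
  rw [h2, h4]
  refine ar_chi_congr_nat ?_
  have := dvd_add (dvd_sub h h1) h3
  rwa [show a - b - (a - n) + (b - m) = n - m by ring] at this

theorem chi_sq {d : ℕ} {a : ℤ} (h : IsCoprime a (2 * d : ℤ)) : chi d a = 1 ∨ chi d a = -1 := by
  have h1 : (-(d : ℤ)).gcd a.natAbs = 1 := by
    have := Int.isCoprime_iff_gcd_eq_one.1 h.of_mul_right_right.symm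
    simpa [Int.gcd, Int.natAbs_abs] using this
  rw [chi, if_pos h]
  rcases lt_or_gt_of_ne (ar_ne_zero_of_cop h) with h0 | h0
  · rw [Int.sign_eq_neg_one_of_neg h0]
    rcases jacobiSym.eq_one_or_neg_one h1 with e | e <;> simp [e]
  · rw [Int.sign_eq_one_of_pos h0]
    rcases jacobiSym.eq_one_or_neg_one h1 with e | e <;> simp [e]

theorem norm_chi_le (d : ℕ) (a : ℤ) : ‖chi d a‖ ≤ 1 := by
  by_cases h : IsCoprime a (2 * d : ℤ)
  · rcases chi_sq h with e | e <;> simp [e]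
  · simp [chi_eq_zero h]

theorem chi_prime {d p : ℕ} [Fact p.Prime] (h : ¬ p ∣ 2 * d) :
    chi d p = legendreSym p (-(d : ℤ)) := by
  have := Nat.isCoprime_iff_coprime.2 ((Nat.Prime.coprime_iff_not_dvd Fact.out).2 h)
  push_cast at this
  rw [ar_chi_nat this, jacobiSym.legendreSym.to_jacobiSym]

theorem card_roots {d p : ℕ} [Fact p.Prime] (h : ¬ p ∣ 2 * d) :
    ((Finset.univ.filter fun x : ZMod p => x ^ 2 + d = 0).card : ℂ) = 1 + chi d p := by
  have hp : p ≠ 2 := by rintro rfl; exact h (dvd_mul_right _ _)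
  have h1 := legendreSym.card_sqrts p hp (-(d : ℤ))
  have h2 : (Finset.univ.filter fun x : ZMod p => x ^ 2 + d = 0) =
      {x : ZMod p | x ^ 2 = ((-(d : ℤ) : ℤ) : ZMod p)}.toFinset := by
    ext x; simp [add_eq_zero_iff_eq_neg]
  rw [chi_prime h, h2, add_comm]
  exact_mod_cast h1

theorem exists_chi_char {d M : ℕ} (hd : 0 < d) (hM : 0 < M) (h : 2 * d ∣ M) :
    ∃ χ : DirichletCharacter ℂ (M ^ 2), χ ≠ 1 ∧ χ (-1) = -1 ∧
      ∀ n : ℤ, χ n = chiq d M n := by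
  classical
  haveI : NeZero (M ^ 2) := ⟨by positivity⟩
  have e : ∀ n : ℤ, chiq d M n = if IsCoprime n M then chi d n else 0 := by
    intro n
    simp only [chiq, un, Rat.den_intCast, Rat.num_intCast, true_and]
    split_ifs <;> simp
  have hper : ∀ a b : ℤ, (a : ZMod (M ^ 2)) = b → chiq d M a = chiq d M b := by
    intro a b hab
    rw [ZMod.intCast_eq_intCast_iff_dvd_sub] at hab
    obtain ⟨k, hk⟩ := hab
    obtain ⟨l, hl⟩ := h
    push_cast at hk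
    have h1 : IsCoprime a M ↔ IsCoprime b M := by
      rw [show b = a + M * (M * k) by linear_combination hk, IsCoprime.add_mul_left_left_iff]
    rw [e, e, ← chi_congr hd (a := b) (b := a) ⟨d * l ^ 2 * k, by rw [hk, hl]; push_cast; ring⟩]
    simp only [h1]
  have hval : ∀ n : ℤ, chiq d M ((((n : ZMod (M ^ 2)).val : ℤ)) : ℚ) = chiq d M n := fun n =>
    hper _ _ (by simp)
  let χ : DirichletCharacter ℂ (M ^ 2) :=
    { toFun := fun x => chiq d M ((x.val : ℤ) : ℚ)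
      map_one' := by
        have := hval 1
        rw [Int.cast_one] at this
        rw [this, e, if_pos isCoprime_one_left, chi_one]
      map_mul' := fun x y => by
        obtain ⟨a, rfl⟩ := ZMod.intCast_surjective x
        obtain ⟨b, rfl⟩ := ZMod.intCast_surjective y
        rw [← Int.cast_mul, hval, hval, hval, e, e, e, chi_mul]
        by_cases ha : IsCoprime a M <;> by_cases hb : IsCoprime b M <;>
          simp [ha, hb, IsCoprime.mul_left_iff]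
      map_nonunit' := fun x hx => by
        obtain ⟨a, rfl⟩ := ZMod.intCast_surjective x
        rw [hval, e, if_neg]
        intro ha
        refine hx ((ZMod.coe_int_isUnit_iff_isCoprime _ _).2 ?_)
        push_cast
        exact ha.symm.pow_left }
  have h1 : ∀ n : ℤ, χ n = chiq d M n := hval
  have h2 : χ (-1) = -1 := by
    have := h1 (-1)
    rw [e, if_pos isCoprime_one_left.neg_left, chi_neg_one] at this
    simpa using this
  refine ⟨χ, fun h3 => ?_, h2, h1⟩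
  rw [h3, MulChar.one_apply isUnit_one.neg] at h2
  norm_num at h2

end

end Pool.Agent.P.MP_b8021b_nt.CM
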