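import Pool.Agent.P.MP_b8021b_nt.CM.Lib

/-! Package P13, first part: the transformation law of `JF` under `SL(2, ℤ)`. -/

namespace Pool.Agent.P.MP_b8021b_nt.CM

open Complex hiding Gamma
open UpperHalfPlane hiding I
open MeasureTheory CongruenceSubgroup Filter
open scoped Real MatrixGroups ModularForm Topology ComplexConjugate Modular

noncomputable section

namespace BBP

theorem isInt_int (n : ℤ) : IsInt (n : ℚ) := (isInt_rat _).2 ⟨n, rfl⟩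

theorem vm_add (v w : Q2) (γ : SL) : vm (v + w) γ = vm v γ + vm w γ := by
  ext <;> simp [vm] <;> ring

theorem vm_smul (a : ℚ) (v : Q2) (γ : SL) : vm (a • v) γ = a • vm v γ := by
  ext <;> simp [vm] <;> ring

theorem isInt_vm {v : Q2} (h : IsInt v) (γ : SL) : IsInt (vm v γ) := by
  obtain ⟨h1, h2⟩ := (isInt_prod v).1 h
  obtain ⟨a, ha⟩ := (isInt_rat _).1 h1
  obtain ⟨b, hb⟩ := (isInt_rat _).1 h2
  refine (isInt_prod _).2 ⟨(isInt_rat _).2 ⟨a * γ 0 0 + b * γ 1 0, ?_⟩,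
    (isInt_rat _).2 ⟨a * γ 0 1 + b * γ 1 1, ?_⟩⟩
  · simp [vm, ha, hb]
  · simp [vm, ha, hb]

theorem vm_inv (v : Q2) (γ : SL) : vm (vm v γ) γ⁻¹ = v := by
  rw [← vm_mul, mul_inv_cancel, vm_one]

theorem isInt_of_vm {v : Q2} {γ : SL} (h : IsInt (vm v γ)) : IsInt v := by
  have := isInt_vm h γ⁻¹
  rwa [vm_inv] at this

theorem lev_vm {M : ℕ} {c : Q2 → ℂ} (h : Lev M c) (γ : SL) : Lev M fun w => c (vm w γ) := by
  refine ⟨fun x k hk => ?_, fun x hx => ?_⟩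
  · simp only [vm_add, vm_smul]
    exact h.1 _ _ (isInt_vm hk γ)
  · have := h.2 _ hx
    rw [← vm_smul] at this
    exact isInt_of_vm this

theorem sb_vm {c : Q2 → ℂ} (h : SB c) (γ : SL) : SB fun w => c (vm w γ) := by
  obtain ⟨M, hM, h⟩ := h
  exact ⟨M, hM, lev_vm h γ⟩

theorem dvd_of_Gamma {N : ℕ} {γ : SL} (h : γ ∈ Gamma N) : ∃ a b c d : ℤ,
    γ 0 0 = 1 + N * a ∧ γ 0 1 = N * b ∧ γ 1 0 = N * c ∧ γ 1 1 = 1 + N * d := by
  rw [Gamma_mem] at h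
  obtain ⟨h1, h2, h3, h4⟩ := h
  have k : ∀ x : ℤ, (x : ZMod N) = 1 → ∃ a : ℤ, x = 1 + N * a := fun x hx => by
    have : ((x - 1 : ℤ) : ZMod N) = 0 := by push_cast; rw [hx, sub_self]
    obtain ⟨a, ha⟩ := (ZMod.intCast_zmod_eq_zero_iff_dvd _ _).1 this
    exact ⟨a, by linarith⟩
  obtain ⟨a, ha⟩ := k _ h1
  obtain ⟨d, hd⟩ := k _ h4
  obtain ⟨b, hb⟩ := (ZMod.intCast_zmod_eq_zero_iff_dvd _ _).1 h2
  obtain ⟨c, hc⟩ := (ZMod.intCast_zmod_eq_zero_iff_dvd _ _).1 h3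
  exact ⟨a, b, c, d, ha, hb, hc, hd⟩

theorem lev_Gamma {M : ℕ} {c : Q2 → ℂ} (h : Lev M c) {γ : SL} (hγ : γ ∈ Gamma (M ^ 2)) (w : Q2) :
    c (vm w γ) = c w := by
  by_cases hw : IsInt ((M : ℚ) • w)
  · obtain ⟨a, b, c', d, ha, hb, hc, hd⟩ := dvd_of_Gamma hγ
    obtain ⟨h1, h2⟩ := (isInt_prod _).1 hw
    obtain ⟨x, hx⟩ := (isInt_rat _).1 h1
    obtain ⟨y, hy⟩ := (isInt_rat _).1 h2
    simp only [Prod.smul_fst, Prod.smul_snd, smul_eq_mul] at hx hy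
    have e : vm w γ = w + (M : ℚ) • (((x * a + y * c' : ℤ) : ℚ), ((x * b + y * d : ℤ) : ℚ)) := by
      ext
      · simp only [vm, ha, hc, Prod.fst_add, Prod.smul_fst, smul_eq_mul]
        push_cast
        rw [← hx, ← hy]; ring
      · simp only [vm, hb, hd, Prod.snd_add, Prod.smul_snd, smul_eq_mul]
        push_cast
        rw [← hx, ← hy]; ring
    rw [e]
    exact h.1 _ _ ((isInt_prod _).2 ⟨isInt_int _, isInt_int _⟩)
  · have h1 : c w = 0 := by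
      by_contra h0
      exact hw (h.2 _ h0)
    have h2 : c (vm w γ) = 0 := by
      by_contra h0
      exact hw ((lev_vm h γ).2 _ h0)
    rw [h1, h2]

/-- the anti-automorphism `(a b; c d) ↦ (d b; c a)` -/
def nat (γ : SL) : SL := ⟨!![γ 1 1, γ 0 1; γ 1 0, γ 0 0], by
  have h := γ.det_coe
  rw [Matrix.det_fin_two] at h
  rw [Matrix.det_fin_two_of]
  linarith⟩

theorem vm_nat (v : Q2) (γ : SL) : vm v (nat γ) =
    (v.1 * (γ 1 1 : ℤ) + v.2 * (γ 1 0 : ℤ), v.1 * (γ 0 1 : ℤ) + v.2 * (γ 0 0 : ℤ)) := rfl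

theorem vm_nat_mul (v : Q2) (γ δ : SL) : vm v (nat (γ * δ)) = vm (vm v (nat δ)) (nat γ) := by
  ext <;> simp [vm_nat, Matrix.mul_apply, Fin.sum_univ_two] <;> ring

theorem nat_mem {N : ℕ} {γ : SL} (h : γ ∈ Gamma N) : nat γ ∈ Gamma N := by
  rw [Gamma_mem] at h ⊢
  exact ⟨h.2.2.2, h.2.1, h.2.2.1, h.1⟩

theorem vm_nat_S (v : Q2) : vm v (nat ModularGroup.S) = (v.2, -v.1) := by
  ext <;> simp [vm_nat, ModularGroup.S]

theorem vm_nat_T (v : Q2) : vm v (nat ModularGroup.T) = (v.1, v.2 + 1 * v.1) := by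
  ext <;> simp [vm_nat, ModularGroup.T, add_comm]

theorem exists_cosets {N : ℕ} (hN : 0 < N) :
    ∃ R : Finset SL, ∀ γ : SL, ∃ r ∈ R, ∃ δ ∈ Gamma N, γ = δ * r := by
  classical
  have : NeZero N := ⟨hN.ne'⟩
  have : Fintype (SL ⧸ Gamma N) := Fintype.ofFinite _
  refine ⟨Finset.univ.image fun q : SL ⧸ Gamma N => (q.out)⁻¹, fun γ => ?_⟩
  obtain ⟨h, hh⟩ := QuotientGroup.mk_out_eq_mul (Gamma N) γ⁻¹
  refine ⟨_, Finset.mem_image.2 ⟨(γ⁻¹ : SL), Finset.mem_univ _, rfl⟩, h, h.2, ?_⟩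
  rw [hh]; group

theorem bdd_of_level {N : ℕ} (hN : 0 < N) {f : ℍ → ℝ} (hl : ∀ γ ∈ Gamma N, ∀ τ, f (γ • τ) = f τ)
    (hb : ∀ γ : SL, ∃ K : ℝ, ∀ τ ∈ 𝒟, f (γ • τ) ≤ K) : ∃ K : ℝ, ∀ τ, f τ ≤ K := by
  obtain ⟨R, hR⟩ := exists_cosets hN
  choose K hK using hb
  refine ⟨∑ r ∈ R, |K r|, fun τ => ?_⟩
  obtain ⟨g, hg⟩ := ModularGroup.exists_smul_mem_fd τ
  obtain ⟨r, hr, δ, hδ, e⟩ := hR g⁻¹
  have : τ = δ • r • g • τ := by rw [← mul_smul, ← mul_smul, ← e, inv_mul_cancel, one_smul]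
  rw [this, hl δ hδ]
  exact (hK r _ hg).trans ((le_abs_self _).trans
    (Finset.single_le_sum (f := fun r => |K r|) (fun _ _ => abs_nonneg _) hr))

theorem half_le_im {τ : ℍ} (h : τ ∈ 𝒟) : 1 / 2 ≤ τ.im := by
  have h1 := ModularGroup.three_le_four_mul_im_sq_of_mem_fd h
  have h2 := τ.im_pos
  nlinarith

theorem rpow_exp_bdd (a : ℝ) (ha : 0 ≤ a) {c : ℝ} (hc : 0 < c) :
    ∃ K : ℝ, ∀ y : ℝ, 1 / 2 ≤ y → y ^ a * Real.exp (-c * y) ≤ K := by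
  obtain ⟨n, hn⟩ := exists_nat_ge a
  refine ⟨(2 / c) ^ n * n.factorial, fun y hy => ?_⟩
  have hy0 : 0 < y := by linarith
  have h1 : y ^ a ≤ (2 * y) ^ n := by
    calc y ^ a ≤ (2 * y) ^ a := Real.rpow_le_rpow hy0.le (by linarith) ha
      _ ≤ (2 * y) ^ (n : ℝ) := Real.rpow_le_rpow_of_exponent_le (by linarith) hn
      _ = _ := Real.rpow_natCast _ _
  have h2 := Real.pow_div_factorial_le_exp (c * y) (by positivity) n
  have hf : (0 : ℝ) < n.factorial := by exact_mod_cast n.factorial_pos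
  rw [div_le_iff₀ hf] at h2
  have h3 : (2 * y) ^ n = (2 / c) ^ n * (c * y) ^ n := by
    rw [← mul_pow]; congr 1; field_simp
  have h4 : Real.exp (c * y) * Real.exp (-c * y) = 1 := by
    rw [← Real.exp_add]; simp
  calc y ^ a * Real.exp (-c * y) ≤ (2 / c) ^ n * (Real.exp (c * y) * n.factorial) *
        Real.exp (-c * y) := by
        refine mul_le_mul_of_nonneg_right (h1.trans ?_) (Real.exp_pos _).le
        rw [h3]
        exact mul_le_mul_of_nonneg_left h2 (by positivity)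
    _ = (2 / c) ^ n * n.factorial * (Real.exp (c * y) * Real.exp (-c * y)) := by ring
    _ = _ := by rw [h4, mul_one]

theorem dec_bdd {f : ℍ → ℂ} (h : Dec f) (a : ℝ) (ha : 0 ≤ a) :
    ∃ K : ℝ, ∀ τ ∈ 𝒟, τ.im ^ a * ‖f τ‖ ≤ K := by
  obtain ⟨C, c, hc, h⟩ := h
  obtain ⟨K, hK⟩ := rpow_exp_bdd a ha hc
  refine ⟨|C| * K, fun τ hτ => ?_⟩
  have h1 := half_le_im hτ
  have h2 : 0 ≤ τ.im ^ a := Real.rpow_nonneg τ.im_pos.le _
  calc τ.im ^ a * ‖f τ‖ ≤ τ.im ^ a * (|C| * Real.exp (-c * τ.im)) :=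
        mul_le_mul_of_nonneg_left ((h τ h1).trans
          (mul_le_mul_of_nonneg_right (le_abs_self _) (Real.exp_pos _).le)) h2
    _ = |C| * (τ.im ^ a * Real.exp (-c * τ.im)) := by ring
    _ ≤ _ := mul_le_mul_of_nonneg_left (hK _ h1) (abs_nonneg _)

theorem actH_nn_one (τ : ℍ) : actH (nn 1) τ = ModularGroup.T • τ := by
  apply UpperHalfPlane.ext
  rw [coe_nn, coe_T]; simp

/-- the level structure in the mixed model -/
def L4 (d M : ℕ) (Ω : Q2 × Q2 → ℂ) : Prop :=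
  (∀ v, LevL d M fun z => Ω (v, z)) ∧ ∀ z, Lev M fun v => Ω (v, z)

theorem L4.sb {d M : ℕ} (hd : 0 < d) (hM : 0 < M) {Ω : Q2 × Q2 → ℂ} (h : L4 d M Ω) : SB Ω :=
  (lev_prod h.2 fun v => (h.1 v).lev hd hM).sb hM

def r4 (ρ : SL → (Q2 → ℂ) → Q2 → ℂ) (γ : SL) (Ω : Q2 × Q2 → ℂ) (p : Q2 × Q2) : ℂ :=
  ρ γ (fun z => Ω (vm p.1 (nat γ), z)) p.2

variable {d M : ℕ} {ρ : SL → (Q2 → ℂ) → Q2 → ℂ} {Ω : Q2 × Q2 → ℂ}

theorem r4_lev (hρ : WeilL d M ρ) (h : L4 d M Ω) (γ : SL) : L4 d M (r4 ρ γ Ω) := by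
  refine ⟨fun v => hρ.lev γ _ (h.1 (vm v (nat γ))), fun z => ⟨fun x k hk => ?_, fun x hx => ?_⟩⟩
  · have : (fun z => Ω (vm (x + (M : ℚ) • k) (nat γ), z)) = fun z => Ω (vm x (nat γ), z) := by
      funext z'
      exact (lev_vm (h.2 z') (nat γ)).1 x k hk
    simp only [r4, this]
  · by_contra h0
    have h1 : (fun z => Ω (vm x (nat γ), z)) = (0 : ℂ) • fun z => Ω (vm x (nat γ), z) := by
      funext z'
      simp only [Pi.smul_apply, zero_smul]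
      by_contra h2
      exact h0 ((lev_vm (h.2 z') (nat γ)).2 x h2)
    apply hx
    simp only [r4]
    rw [h1, hρ.smul γ 0 _ (h.1 _)]
    simp

theorem r4_mul (hρ : WeilL d M ρ) (h : L4 d M Ω) (γ δ : SL) :
    r4 ρ (γ * δ) Ω = r4 ρ δ (r4 ρ γ Ω) := by
  funext p
  simp only [r4]
  rw [hρ.mul γ δ _ (h.1 _), vm_nat_mul]

theorem r4_triv (hρ : WeilL d M ρ) (h : L4 d M Ω) {γ : SL} (hγ : γ ∈ Gamma (M ^ 2)) :
    r4 ρ γ Ω = Ω := by
  funext p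
  simp only [r4]
  rw [hρ.triv γ hγ _ (h.1 _)]
  exact lev_Gamma (h.2 p.2) (nat_mem hγ) p.1

theorem r4_T (hρ : WeilL d M ρ) (h : L4 d M Ω) : r4 ρ ModularGroup.T Ω = nO d 1 Ω := by
  funext p
  simp only [r4]
  rw [hρ.hT _ (h.1 _), vm_nat_T]
  simp [nO]

theorem r4_S (hρ : WeilL d M ρ) (h : L4 d M Ω) :
    r4 ρ ModularGroup.S Ω = (I / (2 * Real.sqrt d)) • sO d Ω := by
  funext p
  simp only [r4]
  rw [hρ.hS _ (h.1 _), vm_nat_S]
  rfl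

theorem r4_SS (hd : 0 < d) (hM : 0 < M) (hρ : WeilL d M ρ) (h : L4 d M Ω) :
    r4 ρ ModularGroup.S (r4 ρ ModularGroup.S Ω) = (-1 : ℂ) • fun p => Ω (-p) := by
  funext p
  rw [r4, hρ.hS _ ((r4_lev hρ h _).1 _)]
  have e1 : (fun z => r4 ρ ModularGroup.S Ω (vm p.1 (nat ModularGroup.S), z)) =
      (I / (2 * Real.sqrt d)) • FL d fun z => Ω (-p.1, z) := by
    funext z
    rw [r4, hρ.hS _ (h.1 _), vm_nat_S, vm_nat_S]
    rfl
  have e2 : ∀ (a : ℂ) (φ : Q2 → ℂ) (z : Q2), FL d (a • φ) z = a * FL d φ z := fun a φ z => by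
    simp only [FL, Pi.smul_apply, smul_eq_mul, mul_assoc]
    exact II_const_mul _ _
  have hs : (Real.sqrt d : ℂ) ^ 2 = d := by
    rw [← ofReal_pow, Real.sq_sqrt (Nat.cast_nonneg d)]; simp
  have hs0 : (Real.sqrt d : ℂ) ≠ 0 := by
    have : (0 : ℝ) < d := by exact_mod_cast hd
    exact_mod_cast (Real.sqrt_pos.2 this).ne'
  rw [e1, FLn, Pi.smul_apply, e2, FL_FL hd (((h.1 _).lev hd hM).sb hM)]
  simp only [smul_eq_mul, Pi.smul_apply]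
  rw [← hs]
  have : Ω (-p.1, -p.2) = Ω (-p) := rfl
  rw [this]
  field_simp
  rw [I_sq]; ring

theorem jf_T_inv (τ : ℍ) : jf ModularGroup.T⁻¹ τ = 1 := by
  have := jf_mul ModularGroup.T ModularGroup.T⁻¹ τ
  rw [mul_inv_cancel, jf_one, jf_T, one_mul] at this
  exact this.symm

theorem law (hJ : S_JF) (hX : S_Mix) (hd : 0 < d) (hM : 0 < M) (hρ : WeilL d M ρ) {u : ℍ → ℂ}
    (hu : Rec u) (γ : SL) : ∀ Ω, L4 d M Ω → ∀ τ, JF d u (unsh Ω) (γ • τ) =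
      jf γ τ ^ 2 * conj (jf γ τ) * JF d u (unsh (r4 ρ γ Ω)) τ := by
  obtain ⟨c, hc, hJ⟩ := hJ d hd
  have hJ := hJ u hu
  have hX := (hX d hd).2
  have hs0 : (0 : ℝ) < Real.sqrt d := Real.sqrt_pos.2 (by exact_mod_cast hd)
  have hs1 : (Real.sqrt d : ℂ) ≠ 0 := by exact_mod_cast hs0.ne'
  have hT : ∀ Ω, L4 d M Ω → ∀ τ, JF d u (unsh Ω) (ModularGroup.T • τ) =
      JF d u (unsh (r4 ρ ModularGroup.T Ω)) τ := fun Ω h τ => by
    have hΩ := h.sb hd hM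
    rw [r4_T hρ h, ((hX Ω hΩ).2.2.2.1 1).2, ← actH_nn_one, (hJ _ (hX Ω hΩ).1).2.2.2.2.1]
  have hS0 : ∀ Ω, L4 d M Ω → ∀ τ : ℍ, JF d u (unsh Ω) (ModularGroup.S • τ) =
      ((c * (2 * Real.sqrt d) : ℝ) : ℂ) * ((τ : ℂ) ^ 2 * conj (τ : ℂ) *
        JF d u (unsh (r4 ρ ModularGroup.S Ω)) τ) := fun Ω h τ => by
    have hΩ := h.sb hd hM
    have h1 := (hX Ω hΩ).2.2.2.2.1
    rw [r4_S hρ h, (hX _ h1.1).2.2.1, ((hJ _ (hX _ h1.1).1).2.2.2.2.2.2.2.2.2.1 _).1, h1.2,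
      (hJ _ (hX Ω hΩ).1).2.2.2.1]
    simp only [Pi.smul_apply, smul_eq_mul]
    push_cast
    field_simp
  have hS : ∀ Ω, L4 d M Ω → ∀ τ : ℍ, JF d u (unsh Ω) (ModularGroup.S • τ) =
      (τ : ℂ) ^ 2 * conj (τ : ℂ) * JF d u (unsh (r4 ρ ModularGroup.S Ω)) τ := by
    by_cases hk : c * (2 * Real.sqrt d) = 1
    · intro Ω h τ
      rw [hS0 Ω h, hk]; simp
    · have hz : ∀ Ω, L4 d M Ω → ∀ τ : ℍ, JF d u (unsh Ω) τ = 0 := fun Ω h τ => by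
        have hΩ := h.sb hd hM
        have h1 := hS0 Ω h (ModularGroup.S • τ)
        have hτ : (τ : ℂ) ≠ 0 := τ.ne_zero
        have hτ' : conj (τ : ℂ) ≠ 0 := by simpa using hτ
        have e : ModularGroup.S • ModularGroup.S • τ = τ := by
          apply UpperHalfPlane.ext
          rw [coe_S, coe_S]; field_simp
        have hn : SB fun p => Ω (-p) := by
          obtain ⟨N, hN, h⟩ := hΩ
          exact ⟨N, hN, h.neg_arg⟩
        rw [e, hS0 _ (r4_lev hρ h _), r4_SS hd hM hρ h, (hX _ hn).2.2.1,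
          ((hJ _ (hX _ hn).1).2.2.2.2.2.2.2.2.2.1 _).1, (hX Ω hΩ).2.2.2.2.2.2,
          (hJ _ (hX Ω hΩ).1).2.2.2.2.2.2.1, coe_S] at h1
        set k : ℝ := c * (2 * Real.sqrt d) with hkd
        have hk0 : 0 < k := by positivity
        have hk2 : (1 - (k : ℂ) ^ 2) ≠ 0 := by
          have : (1 - k ^ 2 : ℝ) ≠ 0 := fun h0 => hk (by nlinarith)
          exact_mod_cast this
        have h2 : (1 - (k : ℂ) ^ 2) * JF d u (unsh Ω) τ = 0 := by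
          simp only [Pi.smul_apply, smul_eq_mul, map_div₀, map_neg, map_one] at h1
          field_simp at h1
          linear_combination h1
        exact (mul_eq_zero.1 h2).resolve_left hk2
      intro Ω h τ
      rw [hz _ h, hz _ (r4_lev hρ h _), mul_zero]
  induction γ using SL_induction with
  | hS => intro Ω h τ; rw [jf_S]; exact hS Ω h τ
  | hT => intro Ω h τ; rw [jf_T, hT Ω h]; simp
  | hT' =>
    intro Ω h τ
    have := hT _ (r4_lev hρ h ModularGroup.T⁻¹) (ModularGroup.T⁻¹ • τ)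
    rw [smul_inv_smul, ← r4_mul hρ h, inv_mul_cancel, r4_triv hρ h (one_mem _)] at this
    rw [jf_T_inv, this]; simp
  | hmul γ δ h1 h2 =>
    intro Ω h τ
    rw [mul_smul, h1 Ω h, h2 _ (r4_lev hρ h γ), r4_mul hρ h, jf_mul, map_mul]
    ring

theorem im_rpow_jf (γ : SL) (τ : ℍ) (z : ℂ) :
    (γ • τ).im ^ (3 / 2 : ℝ) * ‖jf γ τ ^ 2 * conj (jf γ τ) * z‖ = τ.im ^ (3 / 2 : ℝ) * ‖z‖ := by
  have h : 0 < ‖jf γ τ‖ := norm_pos_iff.2 (jf_ne_zero γ τ)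
  rw [im_SL, Real.div_rpow τ.im_pos.le (by positivity), ← Real.rpow_natCast,
    ← Real.rpow_mul h.le, norm_mul, norm_mul, norm_pow, RCLike.norm_conj]
  have : ((2 : ℕ) : ℝ) * (3 / 2) = ((3 : ℕ) : ℝ) := by norm_num
  rw [this, Real.rpow_natCast]
  field_simp

end BBP

open BBP in
theorem jf2 (hJ : S_JF) (hX : S_Mix) (hW : S_WL) : S_JF2 := by
  intro d hd u hu ω hω
  obtain ⟨Ω, ⟨M0, hM0, hΩ⟩, rfl⟩ := (hX d hd).1 ω hω
  have hM : 0 < 2 * d * M0 := by positivity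
  obtain ⟨ρ, hρ⟩ := hW d (2 * d * M0) hd hM (dvd_mul_right _ _)
  have h : L4 d (2 * d * M0) Ω :=
    ⟨fun v => (hΩ.snd v).levL hd, fun z => (hΩ.fst z).mono (dvd_mul_left _ _)⟩
  have hl := fun γ => law hJ hX hd hM hρ hu γ Ω h
  have h1 : ∀ γ ∈ Gamma ((2 * d * M0) ^ 2), ∀ τ, JF d u (unsh Ω) (γ • τ) =
      jf γ τ ^ 2 * conj (jf γ τ) * JF d u (unsh Ω) τ := fun γ hγ τ => by
    rw [hl, r4_triv hρ h hγ]
  have h2 : ∀ γ : SL, SB (unsh (r4 ρ γ Ω)) := fun γ =>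
    ((hX d hd).2 _ ((r4_lev hρ h γ).sb hd hM)).1
  refine ⟨⟨_, by positivity, h1⟩, fun γ => ⟨_, h2 γ, hl γ⟩, ?_⟩
  refine bdd_of_level (N := (2 * d * M0) ^ 2) (by positivity) (fun γ hγ τ => ?_) fun γ => ?_
  · rw [h1 γ hγ, im_rpow_jf]
  · obtain ⟨c, -, hJ⟩ := hJ d hd
    obtain ⟨K, hK⟩ := dec_bdd (hJ u hu _ (h2 γ)).2.2.1 (3 / 2) (by norm_num)
    exact ⟨K, fun τ hτ => by rw [hl, im_rpow_jf]; exact hK τ hτ⟩

end

end Pool.Agent.P.MP_b8021b_nt.CM
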