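import Pool.Agent.P.MP_b8021b_nt.CM.Lib

/-! Package P7, first part: local bounds for Borcherds products. -/

namespace Pool.Agent.P.MP_b8021b_nt.CM

open Complex hiding Gamma
open UpperHalfPlane hiding I
open MeasureTheory CongruenceSubgroup Filter
open scoped Real MatrixGroups ModularForm Topology ComplexConjugate Modular

noncomputable section

namespace BorchP

theorem im_pos {σ0 : ℍ} {r : ℝ} (hr : r < σ0.im) {z : ℂ} (hz : z ∈ Metric.closedBall (σ0 : ℂ) r) :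
    0 < z.im := by
  rw [Metric.mem_closedBall, dist_eq_norm] at hz
  have h1 := (abs_im_le_norm (z - σ0)).trans hz
  rw [sub_im, coe_im] at h1
  linarith [neg_abs_le (z.im - σ0.im)]

theorem maxp {F : ℂ → ℂ} {σ0 : ℍ} {r K : ℝ} (r0 : 0 < r) (hr : r < σ0.im)
    (hF : DifferentiableOn ℂ F (Metric.closedBall (σ0 : ℂ) r))
    (hK : ∀ σ : ℍ, ‖(σ : ℂ) - σ0‖ = r → ‖F σ‖ ≤ K) (σ : ℍ) (hσ : ‖(σ : ℂ) - σ0‖ ≤ r) :
    ‖F σ‖ ≤ K := by
  refine norm_le_of_forall_mem_frontier_norm_le (U := Metric.ball (σ0 : ℂ) r) Metric.isBounded_ball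
    (DifferentiableOn.diffContOnCl (by rwa [closure_ball _ r0.ne'])) (fun z hz => ?_) ?_
  · rw [frontier_ball _ r0.ne'] at hz
    exact hK ⟨z, im_pos hr (Metric.sphere_subset_closedBall hz)⟩ (by
      rw [← dist_eq_norm]; exact hz)
  · rw [closure_ball _ r0.ne', Metric.mem_closedBall, dist_eq_norm]
    exact hσ

theorem two_sided {q : ℍ → ℂ} (hq : Hol q) {σ0 : ℍ} {r c K : ℝ} (r0 : 0 < r) (hr : r < σ0.im)
    (c0 : 0 < c) (h0 : ∀ σ : ℍ, ‖(σ : ℂ) - σ0‖ ≤ r → q σ ≠ 0)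
    (hb : ∀ σ : ℍ, ‖(σ : ℂ) - σ0‖ = r → c ≤ ‖q σ‖ ∧ ‖q σ‖ ≤ K) (σ : ℍ)
    (hσ : ‖(σ : ℂ) - σ0‖ ≤ r) : c ≤ ‖q σ‖ ∧ ‖q σ‖ ≤ K := by
  have hd : DifferentiableOn ℂ (q ∘ ofComplex) (Metric.closedBall (σ0 : ℂ) r) :=
    hq.mono fun z hz => im_pos hr hz
  constructor
  · have h1 := maxp (K := c⁻¹) r0 hr (hd.inv fun z hz => by
      rw [Function.comp_apply, ofComplex_apply_of_im_pos (im_pos hr hz)]
      exact h0 _ (by rw [← dist_eq_norm]; exact hz)) (fun σ h => by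
      simp only [Pi.inv_apply, Function.comp_apply, ofComplex_apply, norm_inv]
      exact inv_anti₀ c0 (hb σ h).1) σ hσ
    simp only [Pi.inv_apply, Function.comp_apply, ofComplex_apply, norm_inv] at h1
    exact (inv_le_inv₀ (norm_pos_iff.2 (h0 σ hσ)) c0).1 h1
  · simpa using maxp (K := K) r0 hr hd (fun σ h => by simpa using (hb σ h).2) σ hσ

theorem lin_hol (a : ℍ) : Hol fun σ : ℍ => (σ : ℂ) - a := hol_coe.sub (hol_const _)

open Classical in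
theorem lin_ord (a σ : ℍ) : (fun σ : ℍ => (σ : ℂ) - a) ≠ 0 ∧
    ordAt (fun σ : ℍ => (σ : ℂ) - a) σ = if a = σ then 1 else 0 := by
  have h := (lin_hol a).ord_eq (τ := a) (a := 1) (k := 1) one_pos (c := 1) (C := 1) one_pos
    (Eventually.of_forall fun σ => by simp)
  refine ⟨h.1, ?_⟩
  split_ifs with e
  · subst e; simpa using h.2
  · rw [(lin_hol a).ord_eq_zero_iff h.1, sub_ne_zero]
    exact fun e' => e (UpperHalfPlane.ext e').symm

/-- the polynomial with the expected zeros -/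
def pol (S : Finset Z2) (C : Z2 → ℕ) (τ : ℍ) : ℍ → ℂ :=
  ∏ Y ∈ S, (fun σ : ℍ => (σ : ℂ) - act (castZ Y) τ) ^ C Y

theorem norm_pol (S : Finset Z2) (C : Z2 → ℕ) (τ σ : ℍ) :
    ‖pol S C τ σ‖ = ∏ Y ∈ S, ‖(σ : ℂ) - act (castZ Y) τ‖ ^ C Y := by
  simp [pol, Finset.prod_apply]

open Classical in
theorem pol_spec (S : Finset Z2) (C : Z2 → ℕ) (τ : ℍ) : Hol (pol S C τ) ∧ pol S C τ ≠ 0 ∧
    ∀ σ, ordAt (pol S C τ) σ = ∑ Y ∈ S.filter fun Y => act (castZ Y) τ = σ, C Y := by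
  have h1 : ∀ Y ∈ S, Hol ((fun σ : ℍ => (σ : ℂ) - act (castZ Y) τ) ^ C Y) ∧
      (fun σ : ℍ => (σ : ℂ) - act (castZ Y) τ) ^ C Y ≠ 0 := fun Y _ => by
    refine ⟨(lin_hol _).pow _, fun e => ?_⟩
    obtain ⟨σ, hσ⟩ := Function.ne_iff.1 (lin_ord (act (castZ Y) τ) τ).1
    exact pow_ne_zero (C Y) hσ (congrFun e σ)
  refine ⟨Hol.prod _ _ fun Y hY => (h1 Y hY).1, ?_, fun σ => ?_⟩
  · induction S using Finset.induction_on with
    | empty => simp [pol]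
    | insert Y S hY ih =>
      rw [pol, Finset.prod_insert hY]
      intro e
      rcases Hol.mul_eq_zero (h1 Y (by simp)).1
        (Hol.prod _ _ fun Z hZ => (h1 Z (by simp [hZ])).1) e with h | h
      · exact (h1 Y (by simp)).2 h
      · exact ih (fun Z hZ => h1 Z (by simp [hZ])) h
  · rw [pol, Hol.ord_prod _ _ h1, Finset.sum_filter]
    refine Finset.sum_congr rfl fun Y _ => ?_
    rw [(lin_hol _).ord_pow (lin_ord _ σ).1, (lin_ord _ σ).2]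
    split_ifs <;> simp

theorem exists_quot {f p : ℍ → ℂ} (hf : Hol f) (hp : Hol p) (f0 : f ≠ 0) (p0 : p ≠ 0)
    (h : ∀ σ, ordAt p σ ≤ ordAt f σ) :
    ∃ q, Hol q ∧ f = q * p ∧ ∀ σ, ordAt f σ ≤ ordAt p σ → q σ ≠ 0 := by
  obtain ⟨q, hq, e⟩ := hf.exists_div hp p0 fun τ => by
    obtain ⟨c', K, -, h1⟩ := hf.ord_bounds f0 τ
    obtain ⟨c, K', c0, h2⟩ := hp.ord_bounds p0 τ
    have h3 : ∀ᶠ σ : ℍ in 𝓝 τ, ‖(σ : ℂ) - τ‖ < 1 :=
      ((continuous_coe.sub continuous_const).norm.tendsto τ).eventually_lt_const (by simp)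
    refine ⟨|K| / c, ?_⟩
    filter_upwards [h1, h2, h3] with σ a1 a2 a3
    calc _ ≤ |K| * ‖(σ : ℂ) - τ‖ ^ ordAt f τ := a1.2.trans (by gcongr; exact le_abs_self K)
      _ ≤ |K| * ‖(σ : ℂ) - τ‖ ^ ordAt p τ := by
          gcongr _ * ?_
          exact pow_le_pow_of_le_one (norm_nonneg _) a3.le (h τ)
      _ = |K| / c * (c * ‖(σ : ℂ) - τ‖ ^ ordAt p τ) := by field_simp
      _ ≤ _ := by gcongr; exact a2.1
  have q0 : q ≠ 0 := fun e' => f0 (by rw [e, e', zero_mul])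
  refine ⟨q, hq, e, fun σ hσ => (hq.ord_eq_zero_iff q0 σ).1 ?_⟩
  rw [e, hq.ord_mul hp q0 p0] at hσ
  omega

theorem fin_int (n0 : ℕ) {K K' : Set ℍ} (hK : IsCompact K) (hK' : IsCompact K') :
    {Y : Z2 | 0 < Y.det ∧ Y.det ≤ n0 ∧ ∃ τ ∈ K, act (castZ Y) τ ∈ K'}.Finite := by
  refine ((finite_of_compact 1 one_pos n0 hK hK').preimage castZ_injective.injOn).subset ?_
  rintro Y ⟨h1, h2, h3⟩
  refine ⟨isInt_one_smul_castZ Y, ?_, ?_, h3⟩ <;> rw [castZ_det] <;> assumption_mod_cast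

theorem exists_S (n0 : ℕ) (τ σ : ℍ) : ∃ S : Finset Z2,
    ∀ Y, Y ∈ S ↔ 0 < Y.det ∧ Y.det ≤ n0 ∧ act (castZ Y) τ = σ :=
  ⟨(fin_int n0 (isCompact_singleton (x := τ)) (isCompact_singleton (x := σ))).toFinset,
    fun Y => by simp⟩

theorem tens_cont {M : ℕ} {E : ℍ → ℍ → ℂ} (h : Tens M E) :
    Continuous fun p : ℍ × ℍ => E p.1 p.2 := by
  obtain ⟨r, f, g, h1, h2⟩ := h
  simp only [h2]
  exact continuous_finsetSum _ fun i _ => ((h1 i).1.1.1.continuous.comp continuous_fst).mul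
    ((h1 i).2.1.1.continuous.comp continuous_snd)

theorem tens_inO {M : ℕ} {E : ℍ → ℍ → ℂ} (h : Tens M E) (τ : ℍ) : InO M (E τ) := by
  obtain ⟨r, f, g, h1, h2⟩ := h
  have : E τ = ∑ i, f i τ • g i := by
    ext σ; simp [h2, Finset.sum_apply]
  rw [this]
  exact InO.sum _ _ fun i _ => (h1 i).2.smul _

theorem exists_rad {P : ℍ → Prop} {σ0 : ℍ} (h : ∀ᶠ σ in 𝓝 σ0, P σ) :
    ∃ r, 0 < r ∧ r < σ0.im ∧ ∀ σ : ℍ, ‖(σ : ℂ) - σ0‖ ≤ r → P σ := by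
  rw [isEmbedding_coe.isInducing.nhds_eq_comap, eventually_comap, Metric.eventually_nhds_iff] at h
  obtain ⟨ε, e0, h⟩ := h
  have := σ0.im_pos
  refine ⟨min ε σ0.im / 2, by positivity, by linarith [min_le_right ε σ0.im], fun σ hσ => ?_⟩
  exact h (by rw [dist_eq_norm]; linarith [min_le_left ε σ0.im]) σ rfl

end BorchP

open BorchP in
theorem borch (hG : S_BorchG) : S_Borch := by
  classical
  intro M _ F C n0 hF hC
  obtain ⟨E, hT, hE, hG⟩ := hG M F C n0 hF hC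
  refine ⟨E, hT, hE, fun τ0 σ0 => ?_⟩
  have cE := tens_cont hT
  have hH := fun τ => (tens_inO hT τ).1.1
  obtain ⟨S, hS⟩ := exists_S n0 τ0 σ0
  obtain ⟨K, hK, hK0⟩ := exists_compact_mem_nhds τ0
  obtain ⟨K', hK', hK0'⟩ := exists_compact_mem_nhds σ0
  have hfin := fin_int n0 hK hK'
  obtain ⟨r, r0, r1, hr⟩ := exists_rad (σ0 := σ0) (P := fun σ => (σ ≠ σ0 → E τ0 σ ≠ 0) ∧ σ ∈ K' ∧
      ∀ Y ∈ hfin.toFinset, act (castZ Y) τ0 ≠ σ0 → σ ≠ act (castZ Y) τ0) (by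
    refine Eventually.and ?_ (Eventually.and hK0' ?_)
    · have := mt ((hH τ0).eq_zero_of_frequently (τ := σ0)) (hE τ0)
      rw [not_frequently, eventually_nhdsWithin_iff] at this
      exact this
    · rw [eventually_all_finset]
      intro Y _
      by_cases e : act (castZ Y) τ0 = σ0
      · exact Eventually.of_forall fun _ h => absurd e h
      · exact (eventually_ne_nhds (Ne.symm e)).mono fun _ h _ => h)
  have hsph : IsCompact {σ : ℍ | ‖(σ : ℂ) - σ0‖ = r} := by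
    have := (isEmbedding_coe.isInducing.isCompact_preimage_iff
      (K := Metric.sphere (σ0 : ℂ) r) fun z hz =>
        ⟨⟨z, im_pos r1 (Metric.sphere_subset_closedBall hz)⟩, rfl⟩).2 (isCompact_sphere _ _)
    convert this using 1
    ext σ
    simp
  have c0 : Continuous fun σ => ‖E τ0 σ‖ ^ 2 := (hH τ0).continuous.norm.pow 2
  obtain ⟨m, m0, hm⟩ := hsph.exists_forall_le' (a := 0) c0.continuousOn fun σ hσ =>
    pow_pos (norm_pos_iff.2 ((hr σ (le_of_eq hσ)).1 fun e => by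
      rw [e] at hσ
      simp only [Set.mem_ofPred_eq, sub_self, norm_zero] at hσ
      exact r0.ne hσ)) 2
  obtain ⟨B, hB⟩ := hsph.exists_bound_of_continuousOn c0.continuousOn
  have e1 : ∀ᶠ τ in 𝓝 τ0, ∀ σ ∈ {σ : ℍ | ‖(σ : ℂ) - σ0‖ = r},
      m / 2 < ‖E τ σ‖ ^ 2 ∧ ‖E τ σ‖ ^ 2 < B + 1 := by
    refine hsph.eventually_forall_of_forall_eventually fun σ hσ => ?_
    have t : Tendsto (fun p : ℍ × ℍ => ‖E p.1 p.2‖ ^ 2) (𝓝 (τ0, σ)) (𝓝 (‖E τ0 σ‖ ^ 2)) :=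
      (cE.norm.pow 2).tendsto (τ0, σ)
    refine (t.eventually_const_lt ?_).and (t.eventually_lt_const ?_)
    · linarith [hm σ hσ]
    · linarith [hB σ hσ, Real.le_norm_self (‖E τ0 σ‖ ^ 2)]
  have ct : ∀ Y : Z2, Tendsto (fun τ => ‖(act (castZ Y) τ : ℂ) - σ0‖) (𝓝 τ0)
      (𝓝 ‖(act (castZ Y) τ0 : ℂ) - σ0‖) := fun Y =>
    ((continuous_coe.comp (continuous_act _)).sub continuous_const).norm.tendsto τ0
  have e2 : ∀ᶠ τ in 𝓝 τ0, ∀ Y ∈ S, ‖(act (castZ Y) τ : ℂ) - σ0‖ < r / 2 := by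
    rw [eventually_all_finset]
    intro Y hY
    exact (ct Y).eventually_lt_const (by rw [((hS Y).1 hY).2.2]; simpa using r0)
  have e3 : ∀ᶠ τ in 𝓝 τ0, ∀ Y ∈ hfin.toFinset, Y ∉ S → r < ‖(act (castZ Y) τ : ℂ) - σ0‖ := by
    rw [eventually_all_finset]
    intro Y hY
    by_cases h : Y ∈ S
    · exact Eventually.of_forall fun _ h' => absurd h h'
    · refine ((ct Y).eventually_const_lt (lt_of_not_ge fun h' => ?_)).mono fun _ h _ => h
      have hY' := hfin.mem_toFinset.1 hY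
      exact (hr _ h').2.2 Y hY (fun e => h ((hS Y).2 ⟨hY'.1, hY'.2.1, e⟩)) rfl
  set N := ∑ Y ∈ S, C Y with hN
  refine ⟨S, m / 2 / (2 * r) ^ N, (B + 1) / (r / 2) ^ N, by positivity, hS, ?_⟩
  set Q : ℍ → ℍ → Prop := fun τ σ =>
    m / 2 / (2 * r) ^ N * ∏ Y ∈ S, ‖(σ : ℂ) - act (castZ Y) τ‖ ^ C Y ≤ ‖E τ σ‖ ^ 2 ∧
      ‖E τ σ‖ ^ 2 ≤ (B + 1) / (r / 2) ^ N * ∏ Y ∈ S, ‖(σ : ℂ) - act (castZ Y) τ‖ ^ C Y with hQ
  have gen : ∀ᶠ τ in 𝓝 τ0, Gen τ → ∀ σ : ℍ, ‖(σ : ℂ) - σ0‖ ≤ r → Q τ σ := by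
    filter_upwards [e1, e2, e3, hK0] with τ a1 a2 a3 a4 hτ
    obtain ⟨p1, p2, p3⟩ := pol_spec S C τ
    have f0 : E τ ^ 2 ≠ 0 := fun e => by
      rcases Hol.mul_eq_zero (hH τ) (hH τ) (by rw [← e, sq]) with h | h <;> exact hE τ h
    have o1 : ∀ σ, ∃ S' : Finset Z2, (∀ Y, Y ∈ S' ↔ 0 < Y.det ∧ Y.det ≤ n0 ∧ act (castZ Y) τ = σ) ∧
        ordAt (E τ ^ 2) σ = ∑ Y ∈ S', C Y := fun σ => by
      obtain ⟨S', hS'⟩ := exists_S n0 τ σ
      exact ⟨S', hS', by rw [(hH τ).ord_pow (hE τ), hG τ hτ σ S' hS']⟩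
    obtain ⟨q, hq, eq', hq0⟩ := exists_quot ((hH τ).pow 2) p1 f0 p2 fun σ => by
      obtain ⟨S', h1, h2⟩ := o1 σ
      rw [h2, p3]
      refine Finset.sum_le_sum_of_subset fun Y hY => ?_
      rw [Finset.mem_filter, hS] at hY
      exact (h1 Y).2 ⟨hY.1.1, hY.1.2.1, hY.2⟩
    have en : ∀ σ, ‖E τ σ‖ ^ 2 = ‖q σ‖ * ∏ Y ∈ S, ‖(σ : ℂ) - act (castZ Y) τ‖ ^ C Y := fun σ => by
      rw [← norm_pol, ← norm_mul, ← norm_pow]
      exact congrArg norm (congrFun eq' σ)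
    intro σ hσ
    have := two_sided hq (c := m / 2 / (2 * r) ^ N) (K := (B + 1) / (r / 2) ^ N) r0 r1
      (by positivity) (fun σ hσ => hq0 σ ?_) (fun σ hσ => ?_) σ hσ
    · simp only [hQ]
      rw [en]
      exact ⟨by gcongr; exact this.1, by gcongr; exact this.2⟩
    · obtain ⟨S', h1, h2⟩ := o1 σ
      rw [h2, p3]
      refine Finset.sum_le_sum_of_subset fun Y hY => ?_
      obtain ⟨y1, y2, y3⟩ := (h1 Y).1 hY
      refine Finset.mem_filter.2 ⟨by_contra fun h => ?_, y3⟩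
      have := a3 Y (hfin.mem_toFinset.2 ⟨y1, y2, τ, a4, y3 ▸ (hr σ hσ).2.1⟩) h
      rw [y3] at this
      linarith
    · have b1 : ∀ Y ∈ S, r / 2 ≤ ‖(σ : ℂ) - act (castZ Y) τ‖ ∧
          ‖(σ : ℂ) - act (castZ Y) τ‖ ≤ 2 * r := fun Y hY => by
        have t1 := norm_sub_le_norm_sub_add_norm_sub (σ : ℂ) (act (castZ Y) τ) σ0
        have t2 := norm_sub_le_norm_sub_add_norm_sub (σ : ℂ) σ0 (act (castZ Y) τ)
        rw [norm_sub_rev (σ0 : ℂ)] at t2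
        constructor <;> linarith [a2 Y hY]
      have b2 : (r / 2) ^ N ≤ ∏ Y ∈ S, ‖(σ : ℂ) - act (castZ Y) τ‖ ^ C Y := by
        rw [hN, ← Finset.prod_pow_eq_pow_sum]
        gcongr with Y hY
        exact (b1 Y hY).1
      have b3 : ∏ Y ∈ S, ‖(σ : ℂ) - act (castZ Y) τ‖ ^ C Y ≤ (2 * r) ^ N := by
        rw [hN, ← Finset.prod_pow_eq_pow_sum]
        gcongr with Y hY
        exact (b1 Y hY).2
      obtain ⟨u1, u2⟩ := a1 σ hσ
      rw [en] at u1 u2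
      rw [div_le_iff₀ (by positivity), le_div_iff₀ (by positivity)]
      exact ⟨u1.le.trans (by gcongr), le_trans (by gcongr) u2.le⟩
  obtain ⟨U, hU, oU, mU⟩ := eventually_nhds_iff.1 gen
  have all : ∀ τ ∈ U, ∀ σ : ℍ, ‖(σ : ℂ) - σ0‖ ≤ r → Q τ σ := fun τ hτ σ hσ => by
    have c1 : Continuous fun τ => ‖E τ σ‖ ^ 2 :=
      (cE.comp (continuous_id.prodMk continuous_const)).norm.pow 2
    have c2 : Continuous fun τ => ∏ Y ∈ S, ‖(σ : ℂ) - act (castZ Y) τ‖ ^ C Y :=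
      continuous_finsetProd _ fun Y _ =>
        (continuous_const.sub (continuous_coe.comp (continuous_act _))).norm.pow _
    have cl : IsClosed {τ | Q τ σ} := (isClosed_le (continuous_const.mul c2) c1).inter
      (isClosed_le c1 (continuous_const.mul c2))
    exact closure_minimal (fun τ' h => hU τ' h.1 h.2 σ hσ) cl
      (dense_gen.open_subset_closure_inter oU hτ)
  have e4 : ∀ᶠ σ : ℍ in 𝓝 σ0, ‖(σ : ℂ) - σ0‖ < r :=
    ((continuous_coe.sub continuous_const).norm.tendsto σ0).eventually_lt_const (by simpa using r0)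
  filter_upwards [prod_mem_nhds (oU.mem_nhds mU) e4] with p hp
  exact all p.1 hp.1 p.2 (le_of_lt hp.2)

end

end Pool.Agent.P.MP_b8021b_nt.CM
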