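import Pool.Agent.P.MP_b8021b_nt.CM.Lib

/-! Package P5, first file: exponentials of power series and their values. -/

namespace Pool.Agent.P.MP_b8021b_nt.CM

open PowerSeries Finset

noncomputable section

namespace BorchAP

/-- the exponential of a power series without constant term -/
def ex (L : ℂ⟦X⟧) : ℂ⟦X⟧ := (PowerSeries.exp ℂ).subst L

theorem ex_der {L : ℂ⟦X⟧} (h : constantCoeff L = 0) :
    derivative ℂ (ex L) = ex L * derivative ℂ L := by
  rw [ex, derivative_subst (HasSubst.of_constantCoeff_zero' h), derivative_exp]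

theorem coeff_pow_zero {L : ℂ⟦X⟧} (h : constantCoeff L = 0) {j m : ℕ} (hm : m < j) :
    coeff m (L ^ j) = 0 :=
  coeff_of_lt_order m (lt_of_lt_of_le (by exact_mod_cast hm)
    (le_order_pow_of_constantCoeff_eq_zero j h))

theorem coeff_ex {L : ℂ⟦X⟧} (h : constantCoeff L = 0) (m : ℕ) :
    coeff m (ex L) = ∑ j ∈ range (m + 1), coeff m (L ^ j) / (j.factorial : ℂ) := by
  rw [ex, coeff_subst' (HasSubst.of_constantCoeff_zero' h),
    finsum_eq_sum_of_support_subset (s := range (m + 1))]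
  · refine sum_congr rfl fun j _ => ?_
    simp [coeff_exp, div_eq_inv_mul]
  · intro j hj
    by_contra hj'
    simp only [coe_range, Set.mem_Iio, not_lt] at hj'
    exact hj (by simp [coeff_pow_zero h (show m < j by omega)])

theorem ex_const {L : ℂ⟦X⟧} (h : constantCoeff L = 0) : coeff 0 (ex L) = 1 := by
  simp [coeff_ex h]

theorem rec_of_der {L E : ℂ⟦X⟧} (h : derivative ℂ E = E * derivative ℂ L) (m : ℕ) :
    coeff (m + 1) E = ((m : ℂ) + 1)⁻¹ * ∑ p ∈ antidiagonal m,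
      coeff p.1 E * (coeff (p.2 + 1) L * ((p.2 : ℂ) + 1)) := by
  have h1 := congrArg (coeff m) h
  rw [coeff_derivative, coeff_mul] at h1
  simp only [coeff_derivative] at h1
  have h2 : ((m : ℂ) + 1) ≠ 0 := by exact_mod_cast Nat.succ_ne_zero m
  rw [← h1]
  field_simp

theorem ex_unique {L E : ℂ⟦X⟧} (h : constantCoeff L = 0) (h0 : coeff 0 E = 1)
    (hE : derivative ℂ E = E * derivative ℂ L) : ex L = E := by
  ext m
  induction m using Nat.strong_induction_on with
  | _ m ih =>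
    cases m with
    | zero => rw [ex_const h, h0]
    | succ m =>
      rw [rec_of_der hE, rec_of_der (ex_der h)]
      congr 1
      refine sum_congr rfl fun p hp => ?_
      rw [ih p.1 (by have := mem_antidiagonal.1 hp; omega)]

theorem ex_add {L L' : ℂ⟦X⟧} (h : constantCoeff L = 0) (h' : constantCoeff L' = 0) :
    ex (L + L') = ex L * ex L' := by
  refine ex_unique (by rw [map_add, h, h', add_zero]) ?_ ?_
  · rw [coeff_zero_eq_constantCoeff, map_mul, ← coeff_zero_eq_constantCoeff_apply,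
      ← coeff_zero_eq_constantCoeff_apply, ex_const h, ex_const h', one_mul]
  · rw [Derivation.leibniz, ex_der h, ex_der h', map_add]
    simp only [smul_eq_mul]
    ring

theorem ex_zero : ex 0 = 1 := ex_unique (by simp) (by simp) (by simp)

theorem ex_nsmul {L : ℂ⟦X⟧} (h : constantCoeff L = 0) (n : ℕ) : ex (n • L) = ex L ^ n := by
  induction n with
  | zero => simp [ex_zero]
  | succ n ih => rw [succ_nsmul, ex_add (by simp [h]) h, ih, pow_succ]

theorem ex_sum {ι : Type} (s : Finset ι) (L : ι → ℂ⟦X⟧) (h : ∀ i, constantCoeff (L i) = 0) :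
    ex (∑ i ∈ s, L i) = ∏ i ∈ s, ex (L i) := by
  classical
  induction s using Finset.induction_on with
  | empty => simp [ex_zero]
  | insert a s ha ih =>
    rw [sum_insert ha, prod_insert ha, ex_add (h a) (by simp [h]), ih]

/-- the series of `log (1 - x X ^ d)` -/
def lg (x : ℂ) (d : ℕ) : ℂ⟦X⟧ :=
  PowerSeries.mk fun m => if d ∣ m then -(x ^ (m / d) / ((m / d : ℕ) : ℂ)) else 0

theorem lg_const (x : ℂ) (d : ℕ) : constantCoeff (lg x d) = 0 := by
  rw [← coeff_zero_eq_constantCoeff_apply]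
  simp [lg]

theorem coeff_der_lg (x : ℂ) {d : ℕ} (hd : 0 < d) (n : ℕ) :
    coeff n (derivative ℂ (lg x d)) = if d ∣ n + 1 then -(d * x ^ ((n + 1) / d)) else 0 := by
  rw [coeff_derivative, lg, coeff_mk]
  split_ifs with h
  · obtain ⟨k, hk⟩ := h
    have h1 : ((n : ℂ) + 1) = d * k := by exact_mod_cast hk
    have hk0 : (k : ℂ) ≠ 0 := by
      rintro h0
      rw [Nat.cast_eq_zero] at h0
      rw [h0] at hk
      omega
    rw [h1, hk, Nat.mul_div_cancel_left _ hd]
    field_simp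
  · simp

theorem ex_lg (x : ℂ) {d : ℕ} (hd : 0 < d) : ex (lg x d) = 1 - C x * X ^ d := by
  refine ex_unique (lg_const x d) (by simp [hd.ne']) ?_
  ext n
  rw [coeff_derivative, sub_mul, one_mul, mul_assoc, map_sub, map_sub, coeff_C_mul, coeff_C_mul,
    coeff_X_pow_mul', coeff_der_lg x hd, coeff_X_pow, coeff_one, if_neg (Nat.succ_ne_zero n)]
  by_cases h1 : d ≤ n
  · rw [if_pos h1, coeff_der_lg x hd, if_neg (by omega)]
    obtain ⟨k, rfl⟩ := Nat.exists_eq_add_of_le h1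
    have e1 : d + k - d + 1 = k + 1 := by omega
    have e2 : d + k + 1 = d + (k + 1) := by omega
    rw [e1, e2]
    by_cases h2 : d ∣ k + 1
    · rw [if_pos h2, if_pos ((Nat.dvd_add_right dvd_rfl).2 h2), Nat.add_div_left _ hd]
      ring
    · rw [if_neg h2, if_neg fun h => h2 ((Nat.dvd_add_right dvd_rfl).1 h)]
      ring
  · rw [if_neg h1]
    by_cases h2 : n + 1 = d
    · rw [if_pos h2, if_pos (h2 ▸ dvd_rfl), h2, Nat.div_self hd]
      have : ((n : ℂ) + 1) = d := by exact_mod_cast h2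
      rw [this]
      ring
    · rw [if_neg h2, if_neg fun h => h2 (by have := Nat.le_of_dvd (Nat.succ_pos n) h; omega)]
      ring

/-- the series `f` converges at `p` to `v`, with absolute sum at most `B` -/
structure Ev (f : ℂ⟦X⟧) (p v : ℂ) (B : ℝ) : Prop where
  hs : HasSum (fun m => coeff m f * p ^ m) v
  le : ∑' m, ‖coeff m f * p ^ m‖ ≤ B

variable {f g : ℂ⟦X⟧} {p v w : ℂ} {B B' : ℝ}

theorem Ev.sm (h : Ev f p v B) : Summable fun m => ‖coeff m f * p ^ m‖ :=
  summable_norm_iff.2 h.hs.summable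

theorem Ev.nonneg (h : Ev f p v B) : 0 ≤ B := (tsum_nonneg fun _ => norm_nonneg _).trans h.le

theorem Ev.norm_le (h : Ev f p v B) : ‖v‖ ≤ B := by
  rw [← h.hs.tsum_eq]
  exact (norm_tsum_le_tsum_norm h.sm).trans h.le

theorem Ev.coeff_le (h : Ev f p v B) (m : ℕ) : ‖coeff m f‖ * ‖p‖ ^ m ≤ B := by
  rw [← norm_pow, ← norm_mul]
  exact (h.sm.le_tsum m fun _ _ => norm_nonneg _).trans h.le

theorem Ev.mono (h : Ev f p v B) (hB : B ≤ B') : Ev f p v B' := ⟨h.hs, h.le.trans hB⟩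

theorem Ev.mul (h : Ev f p v B) (h' : Ev g p w B') : Ev (f * g) p (v * w) (B * B') := by
  have e1 : ∀ m, coeff m (f * g) * p ^ m =
      ∑ kl ∈ antidiagonal m, (coeff kl.1 f * p ^ kl.1) * (coeff kl.2 g * p ^ kl.2) := by
    intro m
    rw [coeff_mul, sum_mul]
    refine sum_congr rfl fun kl hkl => ?_
    rw [← mem_antidiagonal.1 hkl]
    ring
  have s1 := summable_norm_sum_mul_antidiagonal_of_summable_norm h.sm h'.sm
  have s2 := summable_norm_sum_mul_antidiagonal_of_summable_norm h.sm.norm h'.sm.norm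
  refine ⟨?_, ?_⟩
  · simp only [e1]
    rw [← h.hs.tsum_eq, ← h'.hs.tsum_eq,
      tsum_mul_tsum_eq_tsum_sum_antidiagonal_of_summable_norm h.sm h'.sm]
    exact s1.of_norm.hasSum
  · simp only [e1]
    refine le_trans ?_ (mul_le_mul h.le h'.le (tsum_nonneg fun _ => norm_nonneg _) h.nonneg)
    rw [tsum_mul_tsum_eq_tsum_sum_antidiagonal_of_summable_norm h.sm.norm h'.sm.norm]
    refine s1.tsum_le_tsum (fun m => (norm_sum_le _ _).trans (le_of_eq ?_)) s2.of_norm
    exact sum_congr rfl fun kl _ => norm_mul _ _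

theorem ev_monomial (n : ℕ) (x p : ℂ) : Ev (C x * X ^ n) p (x * p ^ n) (‖x‖ * ‖p‖ ^ n) := by
  have e1 : ∀ m, coeff m (C x * X ^ n) * p ^ m = if m = n then x * p ^ n else 0 := by
    intro m
    rw [coeff_C_mul, coeff_X_pow]
    split_ifs with h
    · rw [h, mul_one]
    · simp
  refine ⟨?_, ?_⟩
  · simp only [e1]
    exact hasSum_ite_eq n _
  · simp only [e1]
    rw [tsum_eq_single n fun m hm => by simp [hm]]
    simp

theorem ev_one (p : ℂ) : Ev 1 p 1 1 := by simpa using ev_monomial 0 1 p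

theorem Ev.sub (h : Ev f p v B) (h' : Ev g p w B') : Ev (f - g) p (v - w) (B + B') := by
  refine ⟨by simpa only [map_sub, sub_mul] using h.hs.sub h'.hs, ?_⟩
  refine le_trans ?_ (add_le_add h.le h'.le)
  rw [← h.sm.tsum_add h'.sm]
  refine Summable.tsum_le_tsum (fun m => ?_) ?_ (h.sm.add h'.sm)
  · rw [map_sub, sub_mul]
    exact norm_sub_le _ _
  · simpa only [map_sub, sub_mul] using summable_norm_iff.2 (h.hs.sub h'.hs).summable

theorem Ev.pow (h : Ev f p v B) (n : ℕ) : Ev (f ^ n) p (v ^ n) (B ^ n) := by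
  induction n with
  | zero => simpa using ev_one p
  | succ n ih => simpa only [pow_succ] using ih.mul h

theorem ev_prod {ι : Type} (s : Finset ι) {F : ι → ℂ⟦X⟧} {V : ι → ℂ} {b : ι → ℝ}
    (h : ∀ i ∈ s, Ev (F i) p (V i) (b i)) :
    Ev (∏ i ∈ s, F i) p (∏ i ∈ s, V i) (∏ i ∈ s, b i) := by
  classical
  induction s using Finset.induction_on with
  | empty => simpa using ev_one p
  | insert a s ha ih =>
    rw [prod_insert ha, prod_insert ha, prod_insert ha]
    exact (h a (mem_insert_self _ _)).mul (ih fun i hi => h i (mem_insert_of_mem hi))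

theorem double_sum {a : ℕ × ℕ → ℂ} {b : ℕ → ℝ} {u z : ℕ → ℂ} {v : ℂ} {B : ℝ}
    (h1 : ∀ j, HasSum (fun m => a (j, m)) (u j)) (h2 : ∀ j, ∑' m, ‖a (j, m)‖ ≤ b j)
    (hb : HasSum b B) (hu : HasSum u v) (h3 : ∀ m, HasSum (fun j => a (j, m)) (z m)) :
    HasSum z v ∧ ∑' m, ‖z m‖ ≤ B := by
  have s1 : ∀ j, Summable fun m => ‖a (j, m)‖ := fun j => summable_norm_iff.2 (h1 j).summable
  have s2 : Summable fun j => ∑' m, ‖a (j, m)‖ :=
    hb.summable.of_nonneg_of_le (fun _ => tsum_nonneg fun _ => norm_nonneg _) h2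
  have s3 : Summable fun x => ‖a x‖ :=
    (summable_prod_of_nonneg fun _ => norm_nonneg _).2 ⟨s1, s2⟩
  have e2 : ∑' x, a x = v := (s3.of_norm.hasSum.prod_fiberwise h1).unique hu
  have s4 : Summable fun x : ℕ × ℕ => ‖a x.swap‖ := s3.prod_symm
  have e3 : HasSum (fun x : ℕ × ℕ => a x.swap) v := by
    rw [← e2]
    exact (Equiv.prodComm ℕ ℕ).hasSum_iff.2 s3.of_norm.hasSum
  have hs : HasSum z v := e3.prod_fiberwise h3
  refine ⟨hs, ?_⟩
  have s5 := (summable_prod_of_nonneg fun _ => norm_nonneg _).1 s4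
  calc ∑' m, ‖z m‖ ≤ ∑' m, ∑' j, ‖a (j, m)‖ := by
        refine (summable_norm_iff.2 hs.summable).tsum_le_tsum (fun m => ?_) s5.2
        rw [← (h3 m).tsum_eq]
        exact norm_tsum_le_tsum_norm (s5.1 m)
    _ = ∑' j, ∑' m, ‖a (j, m)‖ := (Summable.tsum_comm (f := fun j m => ‖a (j, m)‖) s3)
    _ ≤ ∑' j : ℕ, b j := s2.tsum_le_tsum h2 hb.summable
    _ = B := hb.tsum_eq

theorem Ev.ex (h : Ev f p v B) (h0 : constantCoeff f = 0) :
    Ev (ex f) p (Complex.exp v) (Real.exp B) := by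
  obtain ⟨a, ha⟩ : ∃ a : ℕ × ℕ → ℂ, ∀ j m,
      a (j, m) = coeff m (f ^ j) * p ^ m / (j.factorial : ℂ) :=
    ⟨fun x => coeff x.2 (f ^ x.1) * p ^ x.2 / (x.1.factorial : ℂ), fun _ _ => rfl⟩
  have k1 : ∀ j, HasSum (fun m => a (j, m)) (v ^ j / (j.factorial : ℂ)) := fun j => by
    simp only [ha]
    exact (h.pow j).hs.div_const _
  have k2 : ∀ j, ∑' m, ‖a (j, m)‖ ≤ B ^ j / (j.factorial : ℝ) := fun j => by
    simp only [ha, norm_div, Complex.norm_natCast]
    rw [tsum_div_const]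
    exact div_le_div_of_nonneg_right (h.pow j).le (Nat.cast_nonneg _)
  have k3 : HasSum (fun j : ℕ => B ^ j / (j.factorial : ℝ)) (Real.exp B) := by
    rw [Real.exp_eq_exp_ℝ]
    exact NormedSpace.expSeries_div_hasSum_exp B
  have k4 : HasSum (fun j : ℕ => v ^ j / (j.factorial : ℂ)) (Complex.exp v) := by
    rw [Complex.exp_eq_exp_ℂ]
    exact NormedSpace.expSeries_div_hasSum_exp v
  have k5 : ∀ m, HasSum (fun j => a (j, m)) (coeff m (BorchAP.ex f) * p ^ m) := fun m => by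
    have e1 : coeff m (BorchAP.ex f) * p ^ m = ∑ j ∈ range (m + 1), a (j, m) := by
      rw [coeff_ex h0, sum_mul]
      exact sum_congr rfl fun j _ => by rw [ha]; ring
    rw [e1]
    refine hasSum_sum_of_ne_finset_zero fun j hj => ?_
    simp only [mem_range, not_lt] at hj
    rw [ha, coeff_pow_zero h0 (show m < j by omega), zero_mul, zero_div]
  have key := double_sum k1 k2 k3 k4 k5
  exact ⟨key.1, key.2⟩

theorem hasSum_half : HasSum (fun n : ℕ => (1 / 2 : ℝ) ^ (n + 1)) 1 := by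
  have := hasSum_geometric_two.mul_right (1 / 2 : ℝ)
  simpa only [pow_succ, show (2 : ℝ) * (1 / 2) = 1 by norm_num] using this

/-- geometric bounds -/
theorem ev_geom (h0 : constantCoeff f = 0) {A ρ : ℝ} (hA : 0 ≤ A) (hρ : 0 ≤ ρ)
    (hp : ρ * ‖p‖ ≤ 1 / 2) (hb : ∀ m, ‖coeff (m + 1) f‖ ≤ A * ρ ^ (m + 1)) :
    Ev f p (∑' m, coeff (m + 1) f * p ^ (m + 1)) A := by
  have b1 : ∀ m, ‖coeff (m + 1) f * p ^ (m + 1)‖ ≤ A * (1 / 2) ^ (m + 1) := fun m => by
    rw [norm_mul, norm_pow]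
    calc ‖coeff (m + 1) f‖ * ‖p‖ ^ (m + 1) ≤ A * ρ ^ (m + 1) * ‖p‖ ^ (m + 1) :=
          mul_le_mul_of_nonneg_right (hb m) (by positivity)
      _ = A * (ρ * ‖p‖) ^ (m + 1) := by rw [mul_pow, mul_assoc]
      _ ≤ A * (1 / 2) ^ (m + 1) := by gcongr
  have hh := hasSum_half.mul_left A
  have s1 : Summable fun m => ‖coeff (m + 1) f * p ^ (m + 1)‖ :=
    hh.summable.of_nonneg_of_le (fun _ => norm_nonneg _) b1
  have z0 : coeff 0 f * p ^ 0 = 0 := by simp [h0]
  refine ⟨?_, ?_⟩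
  · rw [← hasSum_nat_add_iff' 1]
    simpa [h0] using s1.of_norm.hasSum
  · have s2 : Summable fun m => ‖coeff m f * p ^ m‖ :=
      (summable_nat_add_iff (f := fun m => ‖coeff m f * p ^ m‖) 1).1 s1
    rw [s2.tsum_eq_zero_add, z0, norm_zero, zero_add]
    refine (s1.tsum_le_tsum b1 hh.summable).trans ?_
    rw [hh.tsum_eq, mul_one]

end BorchAP

end

end Pool.Agent.P.MP_b8021b_nt.CM
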