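import Pool.Agent.P.MP_b8021b_nt.CM.BorchA0

/-! Package P5, second file: the expansion of the Borcherds product near the cusp. -/

namespace Pool.Agent.P.MP_b8021b_nt.CM

open UpperHalfPlane hiding I
open Finset
open PowerSeries (coeff constantCoeff)
open scoped Real MatrixGroups

noncomputable section

namespace BorchAP

variable {M : ℕ} {F : R2 M → ℍ → ℂ} {C : Z2 → ℕ} {n0 : ℕ} {c ρ : ℝ}

/-! ### bounds for the coefficients -/

def Bd (M : ℕ) (F : R2 M → ℍ → ℂ) (c : ℝ) : Prop :=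
  0 ≤ c ∧ ∀ μ (n : ℤ), ‖coef M (F μ) n‖ ≤ Real.exp (c * (1 + Real.sqrt |(n : ℝ)|))

theorem exists_bd [NeZero M] (h : Inp M F) : ∃ c, Bd M F c := by
  have hM : 0 < M := Nat.pos_of_ne_zero (NeZero.ne M)
  choose c hc using fun μ =>
    (h.cls μ).coef_bound hM (coef_eq_zero_of_T (h.cls μ).1 (h.hT μ)).1
  refine ⟨∑ μ, |c μ|, sum_nonneg fun _ _ => abs_nonneg _, fun μ n => (hc μ n).trans ?_⟩
  refine Real.exp_le_exp.2 (mul_le_mul_of_nonneg_right ((le_abs_self _).trans ?_) (by positivity))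
  exact single_le_sum (f := fun μ => |c μ|) (fun _ _ => abs_nonneg _) (mem_univ μ)

theorem Bd.comp (h : Bd M F c) (s : R2 M → R2 M) : Bd M (fun μ => F (s μ)) c :=
  ⟨h.1, fun μ n => h.2 (s μ) n⟩

theorem det_ut (a b d : ℤ) : (ut a b d).det = a * d := by simp [ut, Matrix.det_fin_two]

def AB (M : ℕ) (F : R2 M → ℍ → ℂ) (ρ : ℝ) : Prop :=
  1 ≤ ρ ∧ ∀ m n : ℕ, ‖alpha M F (m + 1) n‖ ≤ ρ ^ (m + 1) * ρ ^ n

theorem Bd.ab (h : Bd M F c) : AB M F (Real.exp (M + 2 * c)) := by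
  have hc := h.1
  refine ⟨Real.one_le_exp (by positivity), fun m n => ?_⟩
  set m' := m + 1 with hm'
  have hm1 : (1 : ℝ) ≤ m' := by rw [hm']; push_cast; linarith [Nat.cast_nonneg (α := ℝ) m]
  have hn0 : (0 : ℝ) ≤ n := Nat.cast_nonneg n
  have hPP : ∀ k b : ℕ, ‖PP M F (ut (-((n : ℤ) / k)) b (m' / k : ℕ))‖ ≤
      Real.exp (2 * c * (m' + n)) := by
    intro k b
    refine (h.2 _ _).trans (Real.exp_le_exp.2 ?_)
    have e1 : -(ut (-((n : ℤ) / k)) b (m' / k : ℕ)).det = ((n / k * (m' / k) : ℕ) : ℤ) := by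
      rw [det_ut]; push_cast; ring
    have e2 : ((n / k * (m' / k) : ℕ) : ℝ) ≤ n * m' := by
      exact_mod_cast Nat.mul_le_mul (Nat.div_le_self _ _) (Nat.div_le_self _ _)
    have e3 : Real.sqrt |(((n / k * (m' / k) : ℕ) : ℤ) : ℝ)| ≤ m' + n := by
      rw [Real.sqrt_le_iff, Int.cast_natCast, Nat.abs_cast]
      exact ⟨by positivity, e2.trans (by nlinarith)⟩
    rw [e1]
    nlinarith
  have hterm : ∀ k ∈ m'.divisors.filter (fun k : ℕ => (k : ℤ) ∣ n),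
      ‖(∑ b ∈ range M, PP M F (ut (-((n : ℤ) / k)) b (m' / k : ℕ)) *
        eq (-((k * b : ℕ) : ℚ) / M)) / k‖ ≤ M * Real.exp (2 * c * (m' + n)) := by
    intro k hk
    have hk1 : (1 : ℝ) ≤ k := by
      exact_mod_cast Nat.pos_of_mem_divisors (mem_filter.1 hk).1
    rw [norm_div, Complex.norm_natCast]
    refine (div_le_self (norm_nonneg _) hk1).trans ((norm_sum_le _ _).trans ?_)
    refine (sum_le_card_nsmul _ _ (Real.exp (2 * c * (m' + n))) fun b _ => ?_).trans ?_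
    · rw [norm_mul, norm_eq, mul_one]
      exact hPP k b
    · rw [card_range, nsmul_eq_mul]
  rw [alpha, norm_neg]
  refine (norm_sum_le _ _).trans ((sum_le_card_nsmul _ _ _ hterm).trans ?_)
  have hcard : ((m'.divisors.filter (fun k : ℕ => (k : ℤ) ∣ n)).card : ℝ) ≤ m' := by
    exact_mod_cast (card_filter_le _ _).trans (Nat.card_divisors_le_self m')
  rw [nsmul_eq_mul, ← pow_add, ← Real.exp_nat_mul]
  have hM0 : (0 : ℝ) ≤ M := Nat.cast_nonneg M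
  calc _ ≤ m' * (M * Real.exp (2 * c * (m' + n))) :=
        mul_le_mul_of_nonneg_right hcard (by positivity)
    _ = (M * m') * Real.exp (2 * c * (m' + n)) := by ring
    _ ≤ Real.exp (M * (m' + n)) * Real.exp (2 * c * (m' + n)) := by
        refine mul_le_mul_of_nonneg_right ?_ (by positivity)
        have := Real.add_one_le_exp (M * (m' + n))
        nlinarith
    _ = _ := by
        rw [← Real.exp_add]
        congr 1
        push_cast
        ring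

/-! ### the principal part -/

theorem PPN.zero (h : PPN M F C n0) {a d : ℕ} (b : ℤ) (ha : 0 < a) (hd : 0 < d)
    (h1 : n0 < a ∨ n0 < d) : C (ut a b d) = 0 := by
  refine h.2 _ ?_
  rw [det_ut]
  have : n0 < a * d := by
    rcases h1 with h1 | h1
    · exact h1.trans_le (Nat.le_mul_of_pos_right _ hd)
    · exact h1.trans_le (Nat.le_mul_of_pos_left _ ha)
  exact_mod_cast this

def UU (M : ℕ) (C : Z2 → ℕ) (a d k : ℕ) : ℂ :=
  ∑ b ∈ range M, (C (ut a b d) : ℂ) * eq (-((k * b : ℕ) : ℚ) / M)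

theorem UU_zero (h : PPN M F C n0) {a d : ℕ} (k : ℕ) (ha : 0 < a) (hd : 0 < d)
    (h1 : n0 < a ∨ n0 < d) : UU M C a d k = 0 :=
  sum_eq_zero fun b _ => by rw [PPN.zero h b ha hd h1, Nat.cast_zero, zero_mul]

theorem alpha_neg (h : PPN M F C n0) (m : ℕ) {N : ℕ} (hN : 0 < N) :
    alpha M F m (-N) =
      ∑ k ∈ m.divisors, if k ∣ N then -(UU M C (N / k) (m / k) k / k) else 0 := by
  rw [alpha, sum_filter, ← sum_neg_distrib]
  refine sum_congr rfl fun k hk => ?_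
  have hk0 := Nat.pos_of_mem_divisors hk
  by_cases h1 : k ∣ N
  · have h2 : (k : ℤ) ∣ N := Int.natCast_dvd_natCast.2 h1
    rw [if_pos h1, if_pos ((dvd_neg).2 h2), UU, Int.neg_ediv_of_dvd h2, neg_neg,
      ← Int.natCast_div]
    congr 2
    refine sum_congr rfl fun b _ => ?_
    rw [h.1]
    rw [det_ut]
    have h3 : 0 < N / k := Nat.div_pos (Nat.le_of_dvd hN h1) hk0
    have h4 : 0 < m / k := Nat.div_pos (Nat.divisor_le hk) hk0
    positivity
  · rw [if_neg h1, if_neg fun h2 => h1 (Int.natCast_dvd_natCast.1 ((dvd_neg).1 h2)), neg_zero]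

theorem hasSum_dvd {k : ℕ} (hk : 0 < k) (g w : ℕ → ℂ) (hg : ∀ a, n0 < a → g a = 0) :
    HasSum (fun n : ℕ => (if k ∣ n + 1 then g ((n + 1) / k) else 0) * w (n + 1))
      (∑ a ∈ Icc 1 n0, g a * w (k * a)) := by
  have h1 : HasSum (fun n : ℕ => ∑ a ∈ Icc 1 n0, if n = k * a - 1 then g a * w (k * a) else 0)
      (∑ a ∈ Icc 1 n0, g a * w (k * a)) := hasSum_sum fun a _ => hasSum_ite_eq _ _
  convert h1 using 2 with n
  by_cases h2 : k ∣ n + 1
  · obtain ⟨a, ha⟩ := h2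
    have ha0 : 0 < a := Nat.pos_of_mul_pos_left (ha ▸ Nat.add_one_pos n)
    rw [if_pos ⟨a, ha⟩, ha, Nat.mul_div_cancel_left _ hk, sum_eq_single a, if_pos (by omega)]
    · intro a' ha' hne
      refine if_neg fun h3 => hne ?_
      have h4 : 0 < k * a' := Nat.mul_pos hk (mem_Icc.1 ha').1
      exact Nat.eq_of_mul_eq_mul_left hk (by omega)
    · intro h3
      rw [hg a (by rw [mem_Icc] at h3; omega), zero_mul, ite_self]
  · rw [if_neg h2, zero_mul]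
    refine (sum_eq_zero fun a ha => if_neg fun h3 => h2 ⟨a, ?_⟩).symm
    have h4 : 0 < k * a := Nat.mul_pos hk (mem_Icc.1 ha).1
    omega

theorem sum_Icc_dvd {m : ℕ} (hm : 0 < m) (h : ℕ → ℂ) (hh : ∀ d, n0 < d → h d = 0) :
    ∑ d ∈ Icc 1 n0, (if d ∣ m then h d else 0) = ∑ d ∈ m.divisors, h d := by
  rw [← sum_filter]
  refine sum_subset (fun d hd => ?_) fun d hd hd' => hh d ?_
  · exact Nat.mem_divisors.2 ⟨(mem_filter.1 hd).2, hm.ne'⟩
  · by_contra h1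
    exact hd' (mem_filter.2 ⟨mem_Icc.2 ⟨Nat.pos_of_mem_divisors hd, by omega⟩,
      Nat.dvd_of_mem_divisors hd⟩)

/-- `ζ ^ (-b) q ^ (-a)` -/
def xt (M : ℕ) (t : ℕ × ℕ × ℕ) (τ : ℍ) : ℂ := e (-(t.2.1 + t.1 * τ) / M)

def Lm (M n0 : ℕ) (C : Z2 → ℕ) (τ : ℍ) : PowerSeries ℂ :=
  ∑ t ∈ box M n0, C (ut t.1 t.2.1 t.2.2) • lg (xt M t τ) t.2.2

theorem Lm_const (τ : ℍ) : constantCoeff (Lm M n0 C τ) = 0 := by
  simp [Lm, lg_const]

theorem coeff_Lm (h : PPN M F C n0) {m : ℕ} (hm : 0 < m) (τ : ℍ) :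
    coeff m (Lm M n0 C τ) = ∑ k ∈ m.divisors, ∑ a ∈ Icc 1 n0,
      -(UU M C a (m / k) k / k) * e (-((k * a : ℕ) * τ) / M) := by
  rw [Lm, map_sum, box, sum_product, sum_comm (s := m.divisors)]
  refine sum_congr rfl fun a ha => ?_
  have ha0 : 0 < a := (mem_Icc.1 ha).1
  let f : ℕ → ℂ := fun d =>
    -(UU M C a d (m / d) / (m / d : ℕ)) * e (-((m / d * a : ℕ) * τ) / M)
  have e1 : ∑ k ∈ m.divisors, -(UU M C a (m / k) k / k) * e (-((k * a : ℕ) * τ) / M) =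
      ∑ d ∈ m.divisors, f d := by
    rw [← Nat.sum_div_divisors m f]
    refine sum_congr rfl fun k hk => ?_
    simp only [f, Nat.div_div_self (Nat.dvd_of_mem_divisors hk) hm.ne']
  rw [e1, ← sum_Icc_dvd (n0 := n0) hm f fun d hd => ?_, sum_product, sum_comm]
  · refine sum_congr rfl fun d _ => ?_
    simp only [map_nsmul, lg, PowerSeries.coeff_mk]
    split_ifs with h1
    · simp only [f, UU, sum_div, ← sum_neg_distrib, sum_mul]
      refine sum_congr rfl fun b _ => ?_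
      have e2 : xt M (a, b, d) τ ^ (m / d) =
          eq (-((m / d * b : ℕ) : ℚ) / M) * e (-((m / d * a : ℕ) * τ) / M) := by
        rw [xt, ← e_nat_mul, eq, ← e_add]
        congr 1
        push_cast
        ring
      rw [e2, nsmul_eq_mul]
      ring
    · simp
  · simp only [f]
    rw [UU_zero h _ ha0 (by omega) (Or.inr hd)]
    simp

theorem hasSum_neg (h : PPN M F C n0) {m : ℕ} (hm : 0 < m) (τ : ℍ) :
    HasSum (fun n : ℕ => alpha M F m (-((n : ℤ) + 1)) * e ((-((n : ℤ) + 1) : ℤ) * τ / M))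
      (coeff m (Lm M n0 C τ)) := by
  rw [coeff_Lm h hm]
  have h1 := hasSum_sum (s := m.divisors) fun k hk =>
    hasSum_dvd (n0 := n0) (Nat.pos_of_mem_divisors hk) (fun a => -(UU M C a (m / k) k / k))
      (fun N => e (-(N * τ) / M)) fun a ha => by
        rw [UU_zero h _ (by omega) (Nat.div_pos (Nat.divisor_le hk) (Nat.pos_of_mem_divisors hk))
          (Or.inl ha)]
        simp
  convert h1 using 2 with n
  rw [← sum_mul, ← alpha_neg h m (Nat.succ_pos n)]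
  congr 2
  push_cast
  ring

/-! ### the expansion -/

def LA (M : ℕ) [NeZero M] (F : R2 M → ℍ → ℂ) (τ : ℍ) : PowerSeries ℂ :=
  PowerSeries.mk fun m => if m = 0 then 0 else Am M F m τ - alpha M F m 0

def Lp (M : ℕ) (F : R2 M → ℍ → ℂ) (q : ℂ) : PowerSeries ℂ :=
  PowerSeries.mk fun m => if m = 0 then 0 else ∑' n : ℕ, alpha M F m (n + 1 : ℕ) * q ^ (n + 1)

theorem LA_const [NeZero M] (τ : ℍ) : constantCoeff (LA M F τ) = 0 := by
  rw [← PowerSeries.coeff_zero_eq_constantCoeff_apply]; simp [LA]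

theorem Lp_const (q : ℂ) : constantCoeff (Lp M F q) = 0 := by
  rw [← PowerSeries.coeff_zero_eq_constantCoeff_apply]; simp [Lp]

theorem LA_eq [NeZero M] (hB : S_BA1) (hF : Inp M F) (h : PPN M F C n0) (τ : ℍ) :
    LA M F τ = Lp M F (e (τ / M)) + Lm M n0 C τ := by
  have hM : 0 < M := Nat.pos_of_ne_zero (NeZero.ne M)
  ext m
  rcases Nat.eq_zero_or_pos m with rfl | hm
  · simp only [PowerSeries.coeff_zero_eq_constantCoeff_apply, map_add, LA_const, Lp_const,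
      Lm_const, add_zero]
  obtain ⟨h1, h2, -⟩ := hB M F hF m hm
  have h3 := hasSum_coef hM h1.1.1 h1.2.per τ
  simp only [h2] at h3
  have h4 : HasSum (fun n : ℕ => alpha M F m ((n : ℤ) + 1) * e (((n : ℤ) + 1 : ℤ) * τ / M))
      (∑' n : ℕ, alpha M F m (n + 1 : ℕ) * e (τ / M) ^ (n + 1)) := by
    have h5 : Summable fun n : ℕ =>
        alpha M F m ((n : ℤ) + 1) * e (((n : ℤ) + 1 : ℤ) * τ / M) :=
      h3.summable.comp_injective (i := fun n : ℕ => (n : ℤ) + 1) fun a b hab => by simpa using hab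
    have h6 : ∀ n : ℕ, alpha M F m (n + 1 : ℕ) * e (τ / M) ^ (n + 1) =
        alpha M F m ((n : ℤ) + 1) * e (((n : ℤ) + 1 : ℤ) * τ / M) := fun n => by
      rw [← e_nat_mul]
      congr 2
      push_cast
      ring
    simp only [h6]
    exact h5.hasSum
  have h6 := h3.unique (HasSum.of_add_one_of_neg_add_one
    (f := fun n : ℤ => alpha M F m n * e (n * τ / M)) h4 (hasSum_neg h hm τ))
  rw [map_add, LA, Lp, PowerSeries.coeff_mk, PowerSeries.coeff_mk, if_neg hm.ne', if_neg hm.ne', h6]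
  simp only [Int.cast_zero, zero_mul, zero_div, e_zero]
  ring

def Lam (M : ℕ) (F : R2 M → ℍ → ℂ) (q p : ℂ) : ℂ :=
  ∑' m : ℕ, (∑' n : ℕ, alpha M F (m + 1) (n + 1 : ℕ) * q ^ (n + 1)) * p ^ (m + 1)

theorem AB.term (h : AB M F ρ) {q : ℂ} (hq : ρ * ‖q‖ ≤ 1 / 2) (m n : ℕ) :
    ‖alpha M F (m + 1) (n + 1 : ℕ) * q ^ (n + 1)‖ ≤ ρ ^ (m + 1) * (1 / 2) ^ (n + 1) := by
  have h0 : 0 ≤ ρ := zero_le_one.trans h.1
  rw [norm_mul, norm_pow]
  calc _ ≤ ρ ^ (m + 1) * ρ ^ (n + 1) * ‖q‖ ^ (n + 1) :=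
        mul_le_mul_of_nonneg_right (h.2 m (n + 1)) (by positivity)
    _ = ρ ^ (m + 1) * (ρ * ‖q‖) ^ (n + 1) := by rw [mul_pow, mul_assoc]
    _ ≤ _ := by gcongr

theorem AB.ev_Lp (h : AB M F ρ) {q p : ℂ} (hq : ρ * ‖q‖ ≤ 1 / 2) (hp : ρ * ‖p‖ ≤ 1 / 2) :
    Ev (Lp M F q) p (Lam M F q p) 1 := by
  have := ev_geom (Lp_const (M := M) (F := F) q) zero_le_one (zero_le_one.trans h.1) hp
    fun m => by
      rw [Lp, PowerSeries.coeff_mk, if_neg (Nat.succ_ne_zero m), one_mul]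
      simpa using tsum_of_norm_bounded (hasSum_half.mul_left (ρ ^ (m + 1))) (h.term hq m)
  simpa only [Lp, PowerSeries.coeff_mk, if_neg (Nat.succ_ne_zero _), Lam] using this

theorem Lam_symm {F' : R2 M → ℍ → ℂ} (h : AB M F ρ) {q p : ℂ} (hq : ρ * ‖q‖ ≤ 1 / 2)
    (hp : ρ * ‖p‖ ≤ 1 / 2)
    (hs : ∀ m n : ℕ, alpha M F (m + 1) (n + 1 : ℕ) = alpha M F' (n + 1) (m + 1 : ℕ)) :
    Lam M F q p = Lam M F' p q := by
  have h0 : 0 ≤ ρ := zero_le_one.trans h.1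
  obtain ⟨a, ha⟩ : ∃ a : ℕ → ℕ → ℂ, ∀ m n,
      a m n = alpha M F (m + 1) (n + 1 : ℕ) * q ^ (n + 1) * p ^ (m + 1) := ⟨_, fun _ _ => rfl⟩
  have s1 : Summable (Function.uncurry a) := by
    refine Summable.of_norm_bounded
      (hasSum_half.summable.mul_of_nonneg hasSum_half.summable (fun _ => by positivity)
        fun _ => by positivity) fun x => ?_
    change ‖a x.1 x.2‖ ≤ _
    rw [ha, norm_mul, norm_pow]
    calc _ ≤ ρ ^ (x.1 + 1) * (1 / 2) ^ (x.2 + 1) * ‖p‖ ^ (x.1 + 1) :=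
          mul_le_mul_of_nonneg_right (h.term hq _ _) (by positivity)
      _ = (ρ * ‖p‖) ^ (x.1 + 1) * (1 / 2) ^ (x.2 + 1) := by rw [mul_pow]; ring
      _ ≤ _ := by gcongr
  have e1 : Lam M F q p = ∑' m, ∑' n, a m n := by
    simp only [Lam, ha, tsum_mul_right]
  have e2 : Lam M F' p q = ∑' n, ∑' m, a m n := by
    simp only [Lam, ← tsum_mul_right, ha, hs]
    exact tsum_congr fun n => tsum_congr fun m => by ring
  rw [e1, e2, s1.tsum_comm]

/-- the finite product -/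
def Pr (M n0 : ℕ) (C : Z2 → ℕ) (τ : ℍ) (p : ℂ) : ℂ :=
  ∏ t ∈ box M n0, (1 - xt M t τ * p ^ t.2.2) ^ C (ut t.1 t.2.1 t.2.2)

def w1 (M n0 : ℕ) (C : Z2 → ℕ) : ℕ := ∑ t ∈ box M n0, t.2.2 * C (ut t.1 t.2.1 t.2.2)

def w2 (M n0 : ℕ) (C : Z2 → ℕ) : ℕ := ∑ t ∈ box M n0, t.1 * C (ut t.1 t.2.1 t.2.2)

def KK (M n0 : ℕ) (C : Z2 → ℕ) : ℝ := Real.exp 1 * ∏ t ∈ box M n0, 2 ^ C (ut t.1 t.2.1 t.2.2)

theorem norm_xt (t : ℕ × ℕ × ℕ) (τ : ℍ) :
    ‖xt M t τ‖ = Real.exp (2 * π * τ.im / M) ^ t.1 := by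
  rw [xt, norm_e, ← Real.exp_nat_mul]
  congr 1
  simp [Complex.div_natCast_im]
  ring

theorem ev_LA [NeZero M] (hB : S_BA1) (hF : Inp M F) (h : PPN M F C n0) (hA : AB M F ρ) {τ : ℍ}
    {p : ℂ} (hq : ρ * ‖e (τ / M)‖ ≤ 1 / 2) (hp : ρ * ‖p‖ ≤ 1 / 2) :
    Ev (ex (LA M F τ)) p (Complex.exp (Lam M F (e (τ / M)) p) * Pr M n0 C τ p)
      (KK M n0 C * Real.exp (2 * π * (w2 M n0 C / M) * τ.im)) := by
  have hp1 : ‖p‖ ≤ 1 := by nlinarith [hA.1, norm_nonneg p]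
  have e1 : ex (Lm M n0 C τ) = ∏ t ∈ box M n0,
      (1 - PowerSeries.C (xt M t τ) * PowerSeries.X ^ t.2.2) ^ C (ut t.1 t.2.1 t.2.2) := by
    rw [Lm, ex_sum _ _ fun t => by simp [lg_const]]
    refine prod_congr rfl fun t ht => ?_
    rw [ex_nsmul (lg_const _ _), ex_lg _ (mem_Icc.1 (mem_product.1 (mem_product.1 ht).2).2).1]
  rw [LA_eq hB hF h, ex_add (Lp_const _) (Lm_const _), e1]
  refine (((hA.ev_Lp hq hp).ex (Lp_const _)).mul (ev_prod _ fun t _ =>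
    ((ev_one p).sub (ev_monomial t.2.2 (xt M t τ) p)).pow _)).mono ?_
  have h1 : 1 ≤ Real.exp (2 * π * τ.im / M) := Real.one_le_exp (by have := τ.im_pos; positivity)
  have e2 : Real.exp (2 * π * (w2 M n0 C / M) * τ.im) =
      ∏ t ∈ box M n0, (Real.exp (2 * π * τ.im / M) ^ t.1) ^ C (ut t.1 t.2.1 t.2.2) := by
    simp only [← pow_mul]
    rw [prod_pow_eq_pow_sum, ← Real.exp_nat_mul, w2]
    congr 1
    ring
  rw [KK, mul_assoc, e2, ← prod_mul_distrib]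
  refine mul_le_mul_of_nonneg_left (prod_le_prod (fun t _ => by positivity) fun t _ => ?_)
    (by positivity)
  rw [← mul_pow, norm_xt]
  refine pow_le_pow_left₀ (by positivity) ?_ _
  have h2 := one_le_pow₀ h1 (n := t.1)
  have h3 : ‖p‖ ^ t.2.2 ≤ 1 := pow_le_one₀ (norm_nonneg _) hp1
  nlinarith

end BorchAP

end

end Pool.Agent.P.MP_b8021b_nt.CM
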