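import Pool.Agent.P.MP_b8021b_nt.CM.Lib

/-! Package P6, first part: generic points and the lower bound for the order of vanishing. -/

namespace Pool.Agent.P.MP_b8021b_nt.CM

open Complex hiding Gamma
open UpperHalfPlane hiding I
open MeasureTheory CongruenceSubgroup Filter
open scoped Real MatrixGroups ModularForm Topology ComplexConjugate Modular

noncomputable section

namespace BorchGP

theorem sum_le_of_inj {α β : Type} {s : Finset α} {t : Finset β} (φ : α → β)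
    (hi : Set.InjOn φ s) (hm : ∀ a ∈ s, φ a ∈ t) {f : α → ℕ} {g : β → ℕ}
    (h : ∀ a ∈ s, f a ≤ g (φ a)) : ∑ a ∈ s, f a ≤ ∑ b ∈ t, g b := by
  classical
  calc ∑ a ∈ s, f a ≤ ∑ a ∈ s, g (φ a) := Finset.sum_le_sum h
    _ = ∑ b ∈ s.image φ, g b := (Finset.sum_image hi).symm
    _ ≤ _ := Finset.sum_le_sum_of_subset fun b hb => by
        obtain ⟨a, ha, rfl⟩ := Finset.mem_image.1 hb
        exact hm a ha

/-! ### integral matrices -/

theorem cdet_pos {Y : Z2} (h : 0 < Y.det) : 0 < (castZ Y).det := by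
  rw [castZ_det]; exact_mod_cast h

theorem castZ_one : castZ 1 = 1 := by
  ext i j; fin_cases i <;> fin_cases j <;> simp [castZ]

theorem actZ_mul {Y Z : Z2} (hY : 0 < Y.det) (hZ : 0 < Z.det) (τ : ℍ) :
    act (castZ (Y * Z)) τ = act (castZ Y) (act (castZ Z) τ) := by
  rw [castZ_mul, act_mul (cdet_pos hY).ne' (cdet_pos hZ).ne']

theorem actZ_smul {a : ℤ} (ha : a ≠ 0) (Y : Z2) (τ : ℍ) :
    act (castZ (a • Y)) τ = act (castZ Y) τ := by
  rw [castZ_smul, act_smul (by exact_mod_cast ha)]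

theorem det_adj (Y : Z2) : Y.adjugate.det = Y.det := by
  rw [Matrix.det_adjugate]; simp

theorem act_adj {Y : Z2} (h : 0 < Y.det) (τ : ℍ) :
    act (castZ Y.adjugate) (act (castZ Y) τ) = τ := by
  rw [← actZ_mul (by rwa [det_adj]) h, Matrix.adjugate_mul, actZ_smul h.ne', castZ_one, act_one]

theorem SL_det (γ : SL) : γ.1.det = 1 := γ.2

theorem det_SL_mul (γ : SL) (Y : Z2) : (γ.1 * Y).det = Y.det := by
  rw [Matrix.det_mul, SL_det, one_mul]

theorem det_mul_SL (γ : SL) (Y : Z2) : (Y * γ.1).det = Y.det := by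
  rw [Matrix.det_mul, SL_det, mul_one]

theorem act_SL_mul (γ : SL) {Y : Z2} (h : 0 < Y.det) (τ : ℍ) :
    act (castZ (γ.1 * Y)) τ = γ • act (castZ Y) τ := by
  rw [actZ_mul (by rw [SL_det]; norm_num) h, act_SL]

theorem act_mul_SL (γ : SL) {Y : Z2} (h : 0 < Y.det) (τ : ℍ) :
    act (castZ (Y * γ.1)) τ = act (castZ Y) (γ • τ) := by
  rw [actZ_mul h (by rw [SL_det]; norm_num), act_SL]

theorem gen_line {τ : ℍ} (hτ : Gen τ) {Y Z : Z2} (hY : 0 < Y.det) (hZ : 0 < Z.det)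
    (e : act (castZ Y) τ = act (castZ Z) τ) : ∃ c : ℤ, c ≠ 0 ∧ Y.det • Z = c • Y := by
  have hd : 0 < (Y.adjugate * Z).det := by rw [Matrix.det_mul, det_adj]; positivity
  obtain ⟨c, hc⟩ := hτ (Y.adjugate * Z) hd (by
    rw [actZ_mul (by rwa [det_adj]) hZ, ← e, act_adj hY])
  refine ⟨c, ?_, ?_⟩
  · rintro rfl
    rw [hc] at hd
    simp at hd
  · have := congrArg (fun W => Y * W) hc
    simp only [← Matrix.mul_assoc, Matrix.mul_adjugate, Matrix.smul_mul, Matrix.one_mul,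
      Matrix.mul_smul, Matrix.mul_one] at this
    exact this

theorem gen_act {τ : ℍ} (hτ : Gen τ) {g : Z2} (hg : 0 < g.det) : Gen (act (castZ g) τ) := by
  intro Y hY e
  obtain ⟨c, -, hc⟩ := gen_line hτ hg (Z := Y * g) (by rw [Matrix.det_mul]; positivity)
    (by rw [actZ_mul hY hg, e])
  have h1 := congrArg (fun W => W * g.adjugate) hc
  simp only [Matrix.smul_mul, Matrix.mul_assoc, Matrix.mul_adjugate, Matrix.mul_smul,
    Matrix.mul_one] at h1
  have h2 : ∀ i j, g.det * (g.det * Y i j) = c * (g.det * (1 : Z2) i j) := fun i j => by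
    simpa only [Matrix.smul_apply, smul_eq_mul] using congrFun (congrFun h1 i) j
  have h0 := hg.ne'
  have e01 : Y 0 1 = 0 := by simpa [h0] using h2 0 1
  have e10 : Y 1 0 = 0 := by simpa [h0] using h2 1 0
  have e11 : Y 1 1 = Y 0 0 := by
    have a := h2 0 0
    have b := h2 1 1
    simp only [Matrix.one_apply_eq] at a b
    exact mul_left_cancel₀ h0 (mul_left_cancel₀ h0 (b.trans a.symm))
  refine ⟨Y 0 0, ?_⟩
  ext i j
  fin_cases i <;> fin_cases j <;> simp [e01, e10, e11]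

theorem gen_SL {τ : ℍ} (hτ : Gen τ) (γ : SL) : Gen (γ • τ) := by
  rw [← act_SL]; exact gen_act hτ (by rw [SL_det]; norm_num)

theorem gen_card {τ : ℍ} (hτ : Gen τ) : Nat.card {γ : SL // γ • τ = τ} = 2 := by
  have hs : {γ : SL | γ • τ = τ} = {1, -1} := by
    ext γ
    simp only [Set.mem_ofPred_eq, Set.mem_insert_iff, Set.mem_singleton_iff]
    constructor
    · intro h
      obtain ⟨a, ha⟩ := hτ γ.1 (by rw [SL_det]; norm_num) (by rw [act_SL, h])
      have hd := SL_det γ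
      rw [ha, Matrix.det_smul, Matrix.det_one, Fintype.card_fin, mul_one, sq] at hd
      rcases Int.eq_one_or_neg_one_of_mul_eq_one hd with h1 | h1
      · left; ext i j; rw [ha, h1]; simp
      · right; ext i j; rw [ha, h1]; simp
    · rintro (rfl | rfl)
      · exact one_smul _ _
      · rw [ModularGroup.SL_neg_smul, one_smul]
  have hne : (1 : SL) ≠ -1 := by
    intro h
    have := congrArg (fun γ : SL => γ 0 0) h
    simp at this
  calc Nat.card {γ : SL // γ • τ = τ} = Set.ncard {γ : SL | γ • τ = τ} := rfl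
    _ = 2 := by rw [hs, Set.ncard_pair hne]

theorem finite_S (n0 : ℕ) (τ σ : ℍ) :
    {Y : Z2 | 0 < Y.det ∧ Y.det ≤ n0 ∧ act (castZ Y) τ = σ}.Finite := by
  have h := finite_of_compact 1 one_pos (n0 : ℚ) (isCompact_singleton (x := τ))
    (isCompact_singleton (x := σ))
  refine (h.preimage castZ_injective.injOn).subset ?_
  rintro Y ⟨h1, h2, h3⟩
  refine ⟨?_, cdet_pos h1, ?_, τ, rfl, h3⟩
  · rw [Nat.cast_one, one_smul]; exact (isInt_M2 _).2 ⟨Y, rfl⟩
  · rw [castZ_det]; exact_mod_cast h2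

/-- the matrices that send `τ` to `σ` -/
def SS (n0 : ℕ) (τ σ : ℍ) : Finset Z2 := (finite_S n0 τ σ).toFinset

theorem mem_SS {n0 : ℕ} {τ σ : ℍ} {Y : Z2} :
    Y ∈ SS n0 τ σ ↔ 0 < Y.det ∧ Y.det ≤ n0 ∧ act (castZ Y) τ = σ := by
  unfold SS; rw [Set.Finite.mem_toFinset]; rfl

/-- the properties of the exponents -/
structure CC (M n0 : ℕ) (C : Z2 → ℕ) : Prop where
  congr : ∀ Y Z : Z2, 0 < Y.det → Z.det = Y.det → red M Z = red M Y → C Z = C Y
  neg : ∀ Y : Z2, 0 < Y.det → C (-Y) = C Y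
  big : ∀ Y : Z2, (n0 : ℤ) < Y.det → C Y = 0

theorem det_neg2 (Y : Z2) : (-Y).det = Y.det := by
  rw [Matrix.det_neg]; simp

theorem cc_of {M : ℕ} [NeZero M] {F : R2 M → ℍ → ℂ} {C : Z2 → ℕ} {n0 : ℕ} (hS : S_Sharp)
    (hF : Inp M F) (hP : PPN M F C n0) : CC M n0 C where
  congr Y Z hY hd hr := by
    have h1 := hP.1 Y hY
    have h2 := hP.1 Z (hd ▸ hY)
    unfold PP at h1 h2
    rw [hd, hr, h1] at h2
    exact_mod_cast h2.symm
  neg Y hY := by
    have h1 := hP.1 Y hY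
    have h2 := hP.1 (-Y) (by rwa [det_neg2])
    unfold PP at h1 h2
    have e : red M (-Y) = -red M Y := by ext i j; simp [red]
    rw [det_neg2, e, ((hS M).2.2.2.2.1 F hF).1, h1] at h2
    exact_mod_cast h2.symm
  big := hP.2

/-! ### holomorphic functions -/

theorem ord_le_of_bound {f h : ℍ → ℂ} (hf : Hol f) (hh : Hol h) (f0 : f ≠ 0) (h0 : h ≠ 0) {τ : ℍ}
    {K : ℝ} (hb : ∀ᶠ σ : ℍ in 𝓝 τ, ‖f σ‖ ≤ K * ‖h σ‖) : ordAt h τ ≤ ordAt f τ := by
  obtain ⟨c, C, -, hC⟩ := hh.ord_bounds h0 τ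
  have := hf.le_ord f0 (τ := τ) (a := 1) (k := ordAt h τ) (C := |K| * C) (by
    filter_upwards [hb, hC] with σ h1 h2
    rw [pow_one, mul_assoc]
    exact h1.trans ((mul_le_mul_of_nonneg_right (le_abs_self K) (norm_nonneg _)).trans
      (mul_le_mul_of_nonneg_left h2.2 (abs_nonneg K))))
  simpa using this

theorem hol_iter {g : ℍ → ℂ} (h : Hol g) (l : ℕ) : Hol (der^[l] g) := by
  induction l with
  | zero => exact h
  | succ l ih => rw [Function.iterate_succ_apply']; exact ih.deriv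

theorem der_sum {r : ℕ} (c : Fin r → ℂ) {g : Fin r → ℍ → ℂ} (h : ∀ i, Hol (g i)) :
    der (fun σ => ∑ i, c i * g i σ) = fun σ => ∑ i, c i * der (g i) σ := by
  funext σ
  unfold der
  have := HasDerivAt.fun_sum (u := Finset.univ) fun i _ =>
    (((h i).analyticAt σ).differentiableAt.hasDerivAt).const_mul (c i)
  exact this.deriv

theorem iter_sum {r : ℕ} (c : Fin r → ℂ) {g : Fin r → ℍ → ℂ} (h : ∀ i, Hol (g i)) (l : ℕ) :
    der^[l] (fun σ => ∑ i, c i * g i σ) = fun σ => ∑ i, c i * der^[l] (g i) σ := by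
  induction l with
  | zero => rfl
  | succ l ih =>
    rw [Function.iterate_succ_apply', ih, der_sum c fun i => hol_iter (h i) l]
    simp only [Function.iterate_succ_apply']

theorem tens_hol {M : ℕ} {E : ℍ → ℍ → ℂ} (h : Tens M E) (τ : ℍ) : InO M (E τ) := by
  obtain ⟨r, f, g, hfg, hE⟩ := h
  have : E τ = ∑ i, f i τ • g i := by
    funext σ; rw [hE]; simp
  rw [this]
  exact InO.sum _ _ fun i _ => (hfg i).2.smul _

/-- vanishing along a graph extends from an open set -/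
theorem ord_extend {M : ℕ} {E : ℍ → ℍ → ℂ} (h : Tens M E) (h0 : ∀ τ, E τ ≠ 0) (γ : SL) {U : M2}
    (hU : 0 < U.det) {τ0 : ℍ} {k : ℕ}
    (hk : ∀ᶠ p : ℍ in 𝓝 τ0, k ≤ ordAt (E (γ • p)) (act U p)) (p : ℍ) :
    k ≤ ordAt (E (γ • p)) (act U p) := by
  have hh := fun τ => (tens_hol h τ).1.1
  obtain ⟨r, f, g, hfg, hE⟩ := h
  have e1 : ∀ τ l σ, der^[l] (E τ) σ = ∑ i, f i τ * der^[l] (g i) σ := by
    intro τ l σ
    have : E τ = fun σ => ∑ i, f i τ * g i σ := funext (hE τ)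
    rw [this, iter_sum _ fun i => (hfg i).2.1.1]
  rw [(hh _).le_ord_iff (h0 _)]
  intro l hl
  have hD : Hol (∑ i, (fun p : ℍ => f i (γ • p)) * fun p : ℍ => der^[l] (g i) (act U p)) :=
    Hol.sum _ _ fun i _ => ((hfg i).1.1.1.smulSL γ).mul ((hol_iter (hfg i).2.1.1 l).comp_act hU)
  have hz := hD.eq_zero (τ := τ0) (by
    filter_upwards [hk] with q hq
    have := ((hh _).le_ord_iff (h0 _) _ _).1 hq l hl
    rw [e1] at this
    simpa using this)
  have := congrFun hz p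
  rw [e1]
  simpa using this

/-- the factors of the finite product as functions of the second variable -/
def fac (M : ℕ) (t : ℕ × ℕ × ℕ) (p σ : ℍ) : ℂ := e (t.1 * p / M) - e ((t.2.2 * σ - t.2.1) / M)

theorem hol_fac (M : ℕ) (t : ℕ × ℕ × ℕ) (p : ℍ) : Hol (fac M t p) := by
  have : fac M t p = (fun _ => e (t.1 * p / M)) -
      e (-t.2.1 / M) • fun σ : ℍ => e ((t.2.2 / M : ℂ) * σ) := by
    funext σ
    simp only [fac, Pi.sub_apply, Pi.smul_apply, smul_eq_mul]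
    rw [← e_add]; congr 2; ring
  rw [this]
  exact (hol_const _).sub ((hol_e _).smul _)

theorem fac_ne {M : ℕ} (hM : 0 < M) {t : ℕ × ℕ × ℕ} (ht : 0 < t.2.2) (p : ℍ) : fac M t p ≠ 0 := by
  intro h
  have key : ∀ y : ℝ, 0 < y → ‖e (t.1 * p / M)‖ = Real.exp (-2 * π * (t.2.2 * y / M)) := by
    intro y hy
    have h1 := congrFun h (pt 0 y)
    simp only [fac, Pi.zero_apply] at h1
    rw [sub_eq_zero.1 h1, norm_e, coe_pt 0 hy]
    congr 2
    have : ((t.2.2 : ℂ) * ((0 : ℝ) + y * I) - t.2.1) / M =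
        ((-t.2.1 / M : ℝ) : ℂ) + ((t.2.2 * y / M : ℝ) : ℂ) * I := by
      push_cast; ring
    rw [this]; simp
  have h1 := (key 1 one_pos).symm.trans (key 2 two_pos)
  rw [Real.exp_eq_exp] at h1
  have hM' : (0 : ℝ) < M := by exact_mod_cast hM
  have ht' : (0 : ℝ) < t.2.2 := by exact_mod_cast ht
  have h2 : 0 < π * (t.2.2 / M) := by positivity
  have : -2 * π * (t.2.2 * 1 / M) - -2 * π * (t.2.2 * 2 / M) = 2 * (π * (t.2.2 / M)) := by ring
  linarith

/-- the index attached to an upper triangular matrix -/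
def tix (M : ℕ) (U : Z2) : ℕ × ℕ × ℕ := ((U 0 0).toNat, (U 0 1 % M).toNat, (U 1 1).toNat)

theorem det_ut {U : Z2} (h : U 1 0 = 0) : U.det = U 0 0 * U 1 1 := by
  rw [Matrix.det_fin_two, h]; ring

theorem tix_facts {M n0 : ℕ} (hM : 0 < M) {U : Z2} (h : U 1 0 = 0) (h0 : 0 < U 0 0)
    (hd : 0 < U.det) (hn : U.det ≤ n0) :
    tix M U ∈ box M n0 ∧ (ut (tix M U).1 (tix M U).2.1 (tix M U).2.2).det = U.det ∧
      red M (ut (tix M U).1 (tix M U).2.1 (tix M U).2.2) = red M U ∧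
      ∀ p : ℍ, fac M (tix M U) p (act (castZ U) p) = 0 := by
  have hM' : (0 : ℤ) < M := by exact_mod_cast hM
  have hd' := hd
  rw [det_ut h] at hd' hn
  have h1 : 0 < U 1 1 := pos_of_mul_pos_right hd' h0.le
  have ea : (((U 0 0).toNat : ℕ) : ℤ) = U 0 0 := Int.toNat_of_nonneg h0.le
  have ed : (((U 1 1).toNat : ℕ) : ℤ) = U 1 1 := Int.toNat_of_nonneg h1.le
  have eb : (((U 0 1 % M).toNat : ℕ) : ℤ) = U 0 1 % M :=
    Int.toNat_of_nonneg (Int.emod_nonneg _ hM'.ne')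
  have hb := Int.emod_lt_of_pos (U 0 1) hM'
  refine ⟨?_, ?_, ?_, fun p => ?_⟩
  · simp only [box, tix, Finset.mem_product, Finset.mem_Icc, Finset.mem_range]
    have : U 0 0 ≤ n0 := by nlinarith
    have : U 1 1 ≤ n0 := by nlinarith
    omega
  · simp only [tix, ea, ed, eb]
    rw [det_ut h, det_ut (by simp [ut])]; simp [ut]
  · simp only [tix, ea, ed, eb]
    ext i j
    fin_cases i <;> fin_cases j <;> simp [red, ut, h]
  · have e1 := (act_eq_iff (cdet_pos hd) p _).1 rfl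
    have e2 : ((act (castZ U) p : ℍ) : ℂ) * (U 1 1 : ℤ) = (U 0 0 : ℤ) * (p : ℂ) + (U 0 1 : ℤ) := by
      simpa [castZ, h] using e1
    have ea' : (((U 0 0).toNat : ℕ) : ℂ) = (U 0 0 : ℤ) := by exact_mod_cast ea
    have ed' : (((U 1 1).toNat : ℕ) : ℂ) = (U 1 1 : ℤ) := by exact_mod_cast ed
    have eb' : (((U 0 1 % M).toNat : ℕ) : ℂ) = (U 0 1 : ℤ) - M * (U 0 1 / M : ℤ) := by
      have : (((U 0 1 % M).toNat : ℕ) : ℤ) = U 0 1 - M * (U 0 1 / M) := by
        rw [eb, Int.emod_def]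
      exact_mod_cast this
    have hMc : (M : ℂ) ≠ 0 := by exact_mod_cast hM.ne'
    simp only [fac, tix, ea', ed', eb']
    rw [sub_eq_zero, ← mul_one (e _), ← e_int (U 0 1 / M), ← e_add]
    congr 1
    rw [mul_comm ((U 1 1 : ℤ) : ℂ), e2]
    field_simp
    ring

theorem lower {M n0 : ℕ} (hM : 0 < M) {C : Z2 → ℕ} (hC : CC M n0 C) {E : ℍ → ℍ → ℂ}
    (hT : Tens M E) (h0 : ∀ τ, E τ ≠ 0) {Y0 : ℝ}
    (hb : ∀ (γ : SL) (τ0 σ0 : ℍ), Y0 < τ0.im → Y0 < σ0.im → ∃ K : ℝ,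
      ∀ᶠ p : ℍ × ℍ in 𝓝 (τ0, σ0), ‖E (γ • p.1) p.2‖ ≤ K * ∏ t ∈ box M n0,
        ‖e (t.1 * p.1 / M) - e ((t.2.2 * p.2 - t.2.1) / M)‖ ^ C (ut t.1 t.2.1 t.2.2 * (γ⁻¹).1))
    {τ : ℍ} (hτ : Gen τ) (σ : ℍ) : ∑ Y ∈ SS n0 τ σ, C Y ≤ 2 * ordAt (E τ) σ := by
  classical
  rcases (SS n0 τ σ).eq_empty_or_nonempty with hS | ⟨Y, hY⟩
  · rw [hS]; simp
  obtain ⟨hY1, -, hY3⟩ := mem_SS.1 hY
  obtain ⟨γ, a, d, b, ha, hd, hγ⟩ := exists_ut_right hY1
  have ha' : (0 : ℤ) < a := by exact_mod_cast ha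
  have hU : (ut a b d).det = Y.det := by rw [← hγ, det_mul_SL]
  have line : ∀ Z ∈ SS n0 τ σ, ∃ c : ℤ, c ≠ 0 ∧ Y.det • (Z * γ.1) = c • ut a b d := by
    intro Z hZ
    obtain ⟨hZ1, -, hZ3⟩ := mem_SS.1 hZ
    obtain ⟨c, hc, e⟩ := gen_line hτ hY1 hZ1 (hY3.trans hZ3.symm)
    exact ⟨c, hc, by rw [← Matrix.smul_mul, e, Matrix.smul_mul, hγ]⟩
  have low : ∀ Z ∈ SS n0 τ σ, (Z * γ.1) 1 0 = 0 := by
    intro Z hZ
    obtain ⟨c, -, e⟩ := line Z hZ
    have := congrFun (congrFun e 1) 0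
    simpa [ut, hY1.ne'] using this
  set Sp := (SS n0 τ σ).filter fun Z => 0 < (Z * γ.1) 0 0 with hSp
  have half : ∑ Z ∈ SS n0 τ σ, C Z ≤ 2 * ∑ Z ∈ Sp, C Z := by
    rw [← Finset.sum_filter_add_sum_filter_not (SS n0 τ σ) fun Z => 0 < (Z * γ.1) 0 0, two_mul]
    refine add_le_add le_rfl ?_
    refine sum_le_of_inj (fun Z => -Z) (fun _ _ _ _ h => neg_injective h) (fun Z hZ => ?_)
      fun Z hZ => (hC.neg Z (mem_SS.1 (Finset.mem_filter.1 hZ).1).1).ge
    obtain ⟨hZ, hn⟩ := Finset.mem_filter.1 hZ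
    obtain ⟨hZ1, hZ2, hZ3⟩ := mem_SS.1 hZ
    refine Finset.mem_filter.2 ⟨mem_SS.2 ⟨by rwa [det_neg2], by rwa [det_neg2], ?_⟩, ?_⟩
    · rw [← neg_one_smul ℤ Z, actZ_smul (by norm_num), hZ3]
    · have h1 := det_ut (low Z hZ)
      rw [det_mul_SL] at h1
      have h2 : (Z * γ.1) 0 0 ≠ 0 := fun h => by rw [h, zero_mul] at h1; omega
      rw [Matrix.neg_mul, Matrix.neg_apply]
      omega
  refine half.trans (Nat.mul_le_mul_left 2 ?_)
  have facts := fun Z (hZ : Z ∈ Sp) => tix_facts (n0 := n0) hM (low Z (Finset.mem_filter.1 hZ).1)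
    (Finset.mem_filter.1 hZ).2 (by rw [det_mul_SL]; exact (mem_SS.1 (Finset.mem_filter.1 hZ).1).1)
    (by rw [det_mul_SL]; exact (mem_SS.1 (Finset.mem_filter.1 hZ).1).2.1)
  have inj : Set.InjOn (fun Z : Z2 => tix M (Z * γ.1)) Sp := by
    intro Z hZ W hW e
    obtain ⟨hZ, hZ0⟩ := Finset.mem_filter.1 hZ
    obtain ⟨hW, hW0⟩ := Finset.mem_filter.1 hW
    obtain ⟨c, -, ec⟩ := line Z hZ
    obtain ⟨c', -, ec'⟩ := line W hW
    have e0 : (Z * γ.1) 0 0 = (W * γ.1) 0 0 := by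
      have := congrArg Prod.fst e
      simp only [tix] at this
      omega
    have e1 := congrFun (congrFun ec 0) 0
    have e2 := congrFun (congrFun ec' 0) 0
    simp only [Matrix.smul_apply, smul_eq_mul, ut, Matrix.of_apply, Matrix.cons_val', Matrix.cons_val_zero,
      Matrix.cons_val_fin_one] at e1 e2
    have ecc : c = c' := mul_right_cancel₀ ha'.ne' (by rw [← e1, ← e2, e0])
    have e3 : Z * γ.1 = W * γ.1 := smul_right_injective Z2 hY1.ne' (by
      change Y.det • (Z * γ.1) = Y.det • (W * γ.1)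
      rw [ec, ec', ecc])
    have e4 := congrArg (fun X => X * (γ⁻¹).1) e3
    simp only [Matrix.mul_assoc, ← Matrix.SpecialLinearGroup.coe_mul, mul_inv_cancel,
      Matrix.SpecialLinearGroup.coe_one, Matrix.mul_one] at e4
    exact e4
  have hUq : 0 < (castZ (ut a b d)).det := cdet_pos (hU ▸ hY1)
  have same : ∀ Z ∈ SS n0 τ σ, ∀ p, act (castZ (Z * γ.1)) p = act (castZ (ut a b d)) p := by
    intro Z hZ p
    obtain ⟨c, hc, e⟩ := line Z hZ
    rw [← actZ_smul hY1.ne', e, actZ_smul hc]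
  have hy : 0 < (|Y0| + 1) * d := by positivity
  have hd1 : (1 : ℝ) ≤ d := by exact_mod_cast hd
  have ha1 : (1 : ℝ) ≤ a := by exact_mod_cast ha
  have him : (pt 0 ((|Y0| + 1) * d)).im = (|Y0| + 1) * d := by
    rw [← UpperHalfPlane.coe_im, coe_pt 0 hy]; simp
  obtain ⟨K, hK⟩ := hb γ (pt 0 ((|Y0| + 1) * d)) (act (castZ (ut a b d)) (pt 0 ((|Y0| + 1) * d)))
    (by rw [him]; nlinarith [le_abs_self Y0, abs_nonneg Y0]) (by
      rw [im_act hUq, him, castZ_det, det_ut (by simp [ut])]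
      have : ‖((castZ (ut a b d) 1 0 : ℚ) : ℂ) * (pt 0 ((|Y0| + 1) * d) : ℍ) +
          (castZ (ut a b d) 1 1 : ℚ)‖ = d := by simp [castZ, ut]
      rw [this, lt_div_iff₀ (by positivity)]
      simp only [ut, Matrix.of_apply, Matrix.cons_val', Matrix.cons_val_zero, Matrix.cons_val_one,
        Matrix.cons_val_fin_one]
      push_cast
      have h1 : Y0 < a * (|Y0| + 1) := by nlinarith [le_abs_self Y0, abs_nonneg Y0]
      have h2 : (0 : ℝ) < d ^ 2 := by positivity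
      nlinarith [mul_lt_mul_of_pos_right h1 h2])
  have cont : Continuous fun p : ℍ => (p, act (castZ (ut a b d)) p) :=
    continuous_id.prodMk (continuous_actH _)
  have key := ord_extend hT h0 γ hUq (τ0 := pt 0 ((|Y0| + 1) * d)) (k := ∑ Z ∈ Sp, C Z) (by
    filter_upwards [(cont.tendsto _).eventually hK.eventually_nhds] with p hp
    have hp2 := ((Continuous.prodMk_right p).tendsto (act (castZ (ut a b d)) p)).eventually hp
    have hf : ∀ t ∈ box M n0, Hol (fac M t p ^ C (ut t.1 t.2.1 t.2.2 * (γ⁻¹).1)) ∧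
        fac M t p ^ C (ut t.1 t.2.1 t.2.2 * (γ⁻¹).1) ≠ 0 := by
      intro t ht
      refine ⟨(hol_fac M t p).pow _, ?_⟩
      have h3 : 0 < t.2.2 := by
        simp only [box, Finset.mem_product, Finset.mem_Icc] at ht
        omega
      obtain ⟨x, hx⟩ := Function.ne_iff.1 (fac_ne hM h3 p)
      exact Function.ne_iff.2 ⟨x, pow_ne_zero _ hx⟩
    have hne : ∏ t ∈ box M n0, fac M t p ^ C (ut t.1 t.2.1 t.2.2 * (γ⁻¹).1) ≠ 0 := by
      refine (Finset.prod_induction _ (fun f => Hol f ∧ f ≠ 0) ?_ ⟨hol_const 1, one_ne_zero⟩ hf).2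
      rintro f g ⟨f1, f2⟩ ⟨g1, g2⟩
      exact ⟨f1.mul g1, fun h => (f1.mul_eq_zero g1 h).elim f2 g2⟩
    refine le_trans ?_ (ord_le_of_bound (tens_hol hT _).1.1 (Hol.prod _ _ fun t ht => (hf t ht).1)
      (h0 _) hne (K := K) ?_)
    · rw [Hol.ord_prod _ _ hf]
      refine sum_le_of_inj _ inj (fun Z hZ => (facts Z hZ).1) fun Z hZ => ?_
      obtain ⟨f1, f2, f3, f4⟩ := facts Z hZ
      have hZS := (Finset.mem_filter.1 hZ).1
      have h3 : 0 < (tix M (Z * γ.1)).2.2 := by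
        simp only [box, Finset.mem_product, Finset.mem_Icc] at f1
        omega
      have eC : C (ut (tix M (Z * γ.1)).1 (tix M (Z * γ.1)).2.1 (tix M (Z * γ.1)).2.2 *
          (γ⁻¹).1) = C Z := by
        refine hC.congr _ _ (mem_SS.1 hZS).1 (by rw [det_mul_SL, f2, det_mul_SL]) ?_
        rw [red_mul, f3, ← red_mul, Matrix.mul_assoc, ← Matrix.SpecialLinearGroup.coe_mul,
          mul_inv_cancel, Matrix.SpecialLinearGroup.coe_one, Matrix.mul_one]
      rw [(hol_fac M _ p).ord_pow (fac_ne hM h3 p), eC]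
      refine Nat.le_mul_of_pos_right _ (Nat.pos_of_ne_zero fun h => ?_)
      refine ((hol_fac M _ p).ord_eq_zero_iff (fac_ne hM h3 p) _).1 h ?_
      rw [← same Z hZS]; exact f4 p
    · filter_upwards [hp2] with σ' hσ'
      refine hσ'.trans (le_of_eq ?_)
      rw [Finset.prod_apply, norm_prod]
      congr 1
      exact Finset.prod_congr rfl fun t _ => by rw [Pi.pow_apply, norm_pow]; rfl) (γ⁻¹ • τ)
  rw [← hγ, act_mul_SL γ hY1, smul_inv_smul, hY3] at key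
  exact key

end BorchGP

end

end Pool.Agent.P.MP_b8021b_nt.CM
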