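import Pool.Agent.P.MP_b8021b_nt.CM.Lib

/-! Package P32, first part: counting sublattices that are stable under a matrix. -/

namespace Pool.Agent.P.MP_b8021b_nt.CM

open scoped MatrixGroups

noncomputable section

namespace CountP

open Classical in
/-- the number of Hermite normal forms of determinant `m` with the property `Q` -/
def cnt (m : ℕ) (Q : Z2 → Prop) : ℕ := ((hnf m).filter Q).card

/-- invariance under multiplication by `SL(2, ℤ)` on the left -/
def LI (Q : Z2 → Prop) : Prop := ∀ (γ : SL) (X : Z2), Q X → Q (γ.1 * X)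

theorem det_of_mem {m : ℕ} {g : Z2} (h : g ∈ hnf m) : g.det = m := by
  obtain ⟨a, b, d, -, rfl, -, rfl⟩ := mem_hnf.1 h
  simp [ut, Matrix.det_fin_two]

theorem inv_mul_val (γ : SL) : (γ⁻¹).1 * γ.1 = 1 := by
  rw [← Matrix.SpecialLinearGroup.coe_mul, inv_mul_cancel]; rfl

theorem mul_inv_val (γ : SL) : γ.1 * (γ⁻¹).1 = 1 := by
  rw [← Matrix.SpecialLinearGroup.coe_mul, mul_inv_cancel]; rfl

theorem hnf_uniq {m : ℕ} (hm : 0 < m) {g g' : Z2} (h : g ∈ hnf m) (h' : g' ∈ hnf m) (γ γ' : SL)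
    (e : γ.1 * g = γ'.1 * g') : g = g' := by
  have hd : (γ.1 * g).det = m := by rw [Matrix.det_mul, γ.2, one_mul, det_of_mem h]
  exact (exists_hnf hm hd).unique ⟨h, γ, rfl⟩ ⟨h', γ', e⟩

theorem cancel {P : Z2} (hP : P.det ≠ 0) {X Y : Z2} (e : X * P = Y * P) : X = Y := by
  have h := congrArg (· * P.adjugate) e
  simp only [Matrix.mul_assoc, Matrix.mul_adjugate, Matrix.mul_smul, Matrix.mul_one] at h
  exact smul_right_injective _ hP h

theorem cnt_congr {m : ℕ} {Q Q' : Z2 → Prop} (h : ∀ X ∈ hnf m, Q X ↔ Q' X) :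
    cnt m Q = cnt m Q' := by
  unfold cnt
  congr 1
  ext X
  simp only [Finset.mem_filter]
  exact ⟨fun a => ⟨a.1, (h X a.1).1 a.2⟩, fun a => ⟨a.1, (h X a.1).2 a.2⟩⟩

theorem cnt_mul {m i : ℕ} (hm : 0 < m) (hi : 0 < i) {P : Z2} (hP : P.det = i) {Q : Z2 → Prop}
    (hQ : LI Q) : cnt (i * m) (fun X => ∃ X', X = X' * P ∧ Q X') = cnt m Q := by
  classical
  have hP0 : P.det ≠ 0 := by rw [hP]; exact_mod_cast hi.ne'
  have him : 0 < i * m := Nat.mul_pos hi hm
  unfold cnt
  apply le_antisymm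
  · refine Finset.card_le_card_of_forall_subsingleton
      (fun X g => ∃ γ : SL, γ.1 * X = g * P) ?_ ?_
    · intro X hX
      obtain ⟨hX, X', rfl, hX'⟩ := Finset.mem_filter.1 hX
      have hd : X'.det = m := by
        have := det_of_mem hX
        rw [Matrix.det_mul, hP, mul_comm] at this
        push_cast at this
        exact mul_left_cancel₀ (by exact_mod_cast hi.ne') this
      obtain ⟨g, ⟨hg, γ, rfl⟩, -⟩ := exists_hnf hm hd
      refine ⟨g, Finset.mem_filter.2 ⟨hg, ?_⟩, γ⁻¹, ?_⟩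
      · have := hQ γ⁻¹ _ hX'
        rwa [← Matrix.mul_assoc, inv_mul_val, Matrix.one_mul] at this
      · rw [← Matrix.mul_assoc, ← Matrix.mul_assoc, inv_mul_val, Matrix.one_mul]
    · rintro g - X ⟨hX, γ, e⟩ X' ⟨hX', γ', e'⟩
      exact hnf_uniq him (Finset.mem_filter.1 hX).1 (Finset.mem_filter.1 hX').1 γ γ'
        (e.trans e'.symm)
  · refine Finset.card_le_card_of_forall_subsingleton
      (fun g X => ∃ γ : SL, X = γ.1 * g * P) ?_ ?_
    · intro g hg
      obtain ⟨hg, hq⟩ := Finset.mem_filter.1 hg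
      have hd : (g * P).det = (i * m : ℕ) := by
        rw [Matrix.det_mul, hP, det_of_mem hg]; push_cast; ring
      obtain ⟨X, ⟨hX, γ, e⟩, -⟩ := exists_hnf him hd
      have e' : X = (γ⁻¹).1 * g * P := by
        rw [Matrix.mul_assoc, e, ← Matrix.mul_assoc, inv_mul_val, Matrix.one_mul]
      exact ⟨X, Finset.mem_filter.2 ⟨hX, _, e', hQ _ _ hq⟩, _, e'⟩
    · rintro X - g ⟨hg, γ, e⟩ g' ⟨hg', γ', e'⟩
      exact hnf_uniq hm (Finset.mem_filter.1 hg).1 (Finset.mem_filter.1 hg').1 γ γ'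
        (cancel hP0 (e.symm.trans e'))

theorem cnt_ite {m i : ℕ} (hm : 0 < m) (hi : 0 < i) {P : Z2} (hP : P.det = i) {Q : Z2 → Prop}
    (hQ : LI Q) :
    cnt m (fun X => ∃ X', X = X' * P ∧ Q X') = if i ∣ m then cnt (m / i) Q else 0 := by
  split_ifs with h
  · obtain ⟨k, rfl⟩ := h
    rw [Nat.mul_div_cancel_left _ hi]
    exact cnt_mul (Nat.pos_of_mul_pos_left hm) hi hP hQ
  · classical
    unfold cnt
    rw [Finset.card_eq_zero, Finset.filter_eq_empty_iff]
    rintro X hX ⟨X', rfl, -⟩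
    have := det_of_mem hX
    rw [Matrix.det_mul, hP] at this
    exact h (Int.natCast_dvd_natCast.1 ⟨X'.det, by rw [← this, mul_comm]⟩)

theorem sum_ite_dvd {n i : ℕ} (hn : 0 < n) (hi : 0 < i) (F : ℕ → ℂ) :
    ∑ k ∈ n.divisors, (if i ∣ k then F k else 0) =
      if i ∣ n then ∑ k ∈ (n / i).divisors, F (i * k) else 0 := by
  rw [← Finset.sum_filter]
  split_ifs with h
  · obtain ⟨j, rfl⟩ := h
    rw [Nat.mul_div_cancel_left _ hi]
    symm
    refine Finset.sum_bij (fun k _ => i * k) ?_ ?_ ?_ (fun _ _ => rfl)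
    · intro k hk
      simp only [Finset.mem_filter, Nat.mem_divisors] at hk ⊢
      exact ⟨⟨Nat.mul_dvd_mul_left _ hk.1, hn.ne'⟩, dvd_mul_right _ _⟩
    · intro a _ b _ e
      exact Nat.eq_of_mul_eq_mul_left hi e
    · intro k hk
      simp only [Finset.mem_filter, Nat.mem_divisors] at hk
      obtain ⟨⟨h1, -⟩, k', rfl⟩ := hk
      exact ⟨k', Nat.mem_divisors.2 ⟨Nat.dvd_of_mul_dvd_mul_left hi h1,
        (Nat.pos_of_mul_pos_left hn).ne'⟩, rfl⟩
  · refine Finset.sum_eq_zero fun k hk => ?_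
    simp only [Finset.mem_filter, Nat.mem_divisors] at hk
    exact absurd (hk.2.trans hk.1.1) h

theorem rK_split (d : ℕ) {p k : ℕ} (hp : 0 < p) (hk : 0 < k) :
    rK d k = (if p ∣ k then chi d p * rK d (k / p) else 0) +
      ∑ m ∈ k.divisors.filter (fun m => ¬ p ∣ m), chi d m := by
  have h := sum_ite_dvd hk hp (fun m => chi d m)
  have h2 : ∑ m ∈ (k / p).divisors, chi d ((p * m : ℕ) : ℤ) = chi d p * rK d (k / p) := by
    rw [rK, Finset.mul_sum]
    refine Finset.sum_congr rfl fun m _ => ?_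
    rw [← chi_mul]; push_cast; rfl
  rw [h2, ← Finset.sum_filter] at h
  rw [← h, rK, Finset.sum_filter_add_sum_filter_not]

theorem rK_rec (d : ℕ) {p k : ℕ} (hp : p.Prime) (hk : 0 < k) :
    rK d (p * k) = (1 + chi d p) * rK d k - chi d p * (if p ∣ k then rK d (k / p) else 0) := by
  have h1 := rK_split d hp.pos (Nat.mul_pos hp.pos hk)
  have h2 := rK_split d hp.pos hk
  have h3 : (p * k).divisors.filter (fun m => ¬ p ∣ m) = k.divisors.filter (fun m => ¬ p ∣ m) := by
    ext m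
    simp only [Finset.mem_filter, Nat.mem_divisors]
    constructor
    · rintro ⟨⟨h, -⟩, h'⟩
      exact ⟨⟨((Nat.Prime.coprime_iff_not_dvd hp).2 h').symm.dvd_of_dvd_mul_left h, hk.ne'⟩, h'⟩
    · rintro ⟨⟨h, -⟩, h'⟩
      exact ⟨⟨h.mul_left _, (Nat.mul_pos hp.pos hk).ne'⟩, h'⟩
  rw [h3, if_pos (dvd_mul_right _ _), Nat.mul_div_cancel_left _ hp.pos] at h1
  rw [h1]
  split_ifs at h2 ⊢ <;> linear_combination -h2

/-- the row lattice of `g` is stable under `W` -/
def St (W g : Z2) : Prop := ∃ W' : Z2, g * W = W' * g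

theorem li_St (W : Z2) : LI (St W) := by
  rintro γ X ⟨W', e⟩
  refine ⟨γ.1 * W' * (γ⁻¹).1, ?_⟩
  rw [Matrix.mul_assoc, e]
  simp only [Matrix.mul_assoc]
  rw [← Matrix.mul_assoc (γ⁻¹).1, inv_mul_val, Matrix.one_mul]

theorem St_mul {W W' P : Z2} (hP : P.det ≠ 0) (e : P * W = W' * P) (X : Z2) :
    St W (X * P) ↔ St W' X := by
  constructor
  · rintro ⟨V, h⟩
    refine ⟨V, cancel hP ?_⟩
    rw [Matrix.mul_assoc, ← e, ← Matrix.mul_assoc, h, Matrix.mul_assoc]
  · rintro ⟨V, h⟩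
    refine ⟨V, ?_⟩
    rw [Matrix.mul_assoc, e, ← Matrix.mul_assoc, h, Matrix.mul_assoc]

theorem conj_inv {W W' P : Z2} (hP : P.det ≠ 0) (e : P * W = W' * P) :
    W'.det = W.det ∧ W'.trace = W.trace := by
  constructor
  · have := congrArg Matrix.det e
    rw [Matrix.det_mul, Matrix.det_mul, mul_comm] at this
    exact (mul_right_cancel₀ hP this).symm
  · have := congrArg (fun A => Matrix.trace (A * P.adjugate)) e
    simp only
      [Matrix.mul_assoc W', Matrix.mul_adjugate, Matrix.mul_smul, Matrix.mul_one] at this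
    rw [Matrix.trace_mul_comm, ← Matrix.mul_assoc, Matrix.adjugate_mul, Matrix.smul_mul,
      Matrix.one_mul, Matrix.trace_smul, Matrix.trace_smul] at this
    exact (mul_left_cancel₀ hP this).symm

theorem mem_hnf_prime {p : ℕ} (hp : p.Prime) {g : Z2} :
    g ∈ hnf p ↔ g = ut p 0 1 ∨ ∃ b : ℕ, b < p ∧ g = ut 1 b p := by
  rw [mem_hnf]
  constructor
  · rintro ⟨a, b, d, -, e, hb, rfl⟩
    rcases (Nat.dvd_prime hp).1 (Dvd.intro _ e) with rfl | rfl
    · rw [one_mul] at e
      subst e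
      exact Or.inr ⟨b, hb, by simp⟩
    · have : d = 1 := Nat.eq_of_mul_eq_mul_left hp.pos (by rw [e, mul_one])
      subst this
      have : b = 0 := by omega
      subst this
      exact Or.inl (by simp)
  · rintro (rfl | ⟨b, hb, rfl⟩)
    · exact ⟨p, 0, 1, hp.ne_zero, mul_one _, one_pos, by simp⟩
    · exact ⟨1, b, p, hp.ne_zero, one_mul _, hb, by simp⟩

theorem dvd_ut1 (X : Z2) (b p : ℤ) :
    (∃ X', X = X' * ut 1 b p) ↔ p ∣ X 0 1 - b * X 0 0 ∧ p ∣ X 1 1 - b * X 1 0 := by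
  constructor
  · rintro ⟨X', rfl⟩
    simp only [ut, Matrix.mul_apply, Fin.sum_univ_two]
    exact ⟨⟨X' 0 1, by simp; ring⟩, ⟨X' 1 1, by simp; ring⟩⟩
  · rintro ⟨⟨u, hu⟩, ⟨v, hv⟩⟩
    refine ⟨!![X 0 0, u; X 1 0, v], ?_⟩
    ext i j
    fin_cases i <;> fin_cases j <;> simp [ut, Matrix.mul_apply, Fin.sum_univ_two] <;> linarith

theorem dvd_utp (X : Z2) (p : ℤ) :
    (∃ X', X = X' * ut p 0 1) ↔ p ∣ X 0 0 ∧ p ∣ X 1 0 := by
  constructor
  · rintro ⟨X', rfl⟩
    simp only [ut, Matrix.mul_apply, Fin.sum_univ_two]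
    exact ⟨⟨X' 0 0, by simp; ring⟩, ⟨X' 1 0, by simp; ring⟩⟩
  · rintro ⟨⟨u, hu⟩, ⟨v, hv⟩⟩
    refine ⟨!![u, X 0 1; v, X 1 1], ?_⟩
    ext i j
    fin_cases i <;> fin_cases j <;> simp [ut, Matrix.mul_apply, Fin.sum_univ_two] <;> linarith

theorem St_ut1 {W : Z2} (hW : W 1 1 = -W 0 0) (b p : ℤ) :
    St W (ut 1 b p) ↔ p ∣ W 0 1 - 2 * b * W 0 0 - W 1 0 * b ^ 2 := by
  unfold St
  rw [dvd_ut1]
  simp only [ut, Matrix.mul_apply, Fin.sum_univ_two, hW]
  simp only [Matrix.of_apply, Matrix.cons_val', Matrix.cons_val_zero, Matrix.cons_val_one,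
    Matrix.cons_val_fin_one]
  constructor
  · rintro ⟨h, -⟩
    convert h using 1
    ring
  · intro h
    refine ⟨by convert h using 1; ring, ⟨-W 0 0 - b * W 1 0, by ring⟩⟩

theorem St_utp (W : Z2) (p : ℤ) : St W (ut p 0 1) ↔ p ∣ W 1 0 := by
  unfold St
  rw [dvd_utp]
  simp [ut, Matrix.mul_apply, Fin.sum_univ_two]

theorem roots_field {F : Type} [Field F] [Fintype F] [DecidableEq F] (h2 : (2 : F) ≠ 0)
    {w x z D : F} (hD : D ≠ 0) (h : w ^ 2 + x * z + D = 0) :
    (Finset.univ.filter fun b : F => x - 2 * b * w - z * b ^ 2 = 0).card +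
      (if z = 0 then 1 else 0) = (Finset.univ.filter fun u : F => u ^ 2 + D = 0).card := by
  split_ifs with hz
  · subst hz
    have hw : w ≠ 0 := by
      rintro rfl
      exact hD (by linear_combination h)
    have e1 : (Finset.univ.filter fun b : F => x - 2 * b * w - 0 * b ^ 2 = 0) = {x / (2 * w)} := by
      ext b
      simp only [Finset.mem_filter, Finset.mem_univ, true_and, Finset.mem_singleton]
      rw [eq_div_iff (mul_ne_zero h2 hw)]
      constructor <;> intro e <;> linear_combination -e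
    have e2 : (Finset.univ.filter fun u : F => u ^ 2 + D = 0) = {w, -w} := by
      ext u
      simp only [Finset.mem_filter, Finset.mem_univ, true_and, Finset.mem_insert,
        Finset.mem_singleton]
      rw [← sq_eq_sq_iff_eq_or_eq_neg]
      constructor <;> intro e
      · linear_combination e - h
      · linear_combination e + h
    rw [e1, e2, Finset.card_singleton, Finset.card_pair]
    intro e
    exact mul_ne_zero h2 hw (by linear_combination e)
  · rw [add_zero]
    refine Finset.card_bij (fun b _ => z * b + w) ?_ ?_ ?_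
    · intro b hb
      simp only [Finset.mem_filter, Finset.mem_univ, true_and] at hb ⊢
      linear_combination h - z * hb
    · intro a _ b _ e
      exact mul_left_cancel₀ hz (by linear_combination e)
    · intro u hu
      simp only [Finset.mem_filter, Finset.mem_univ, true_and] at hu ⊢
      refine ⟨(u - w) / z, ?_, by field_simp; ring⟩
      field_simp
      linear_combination h - hu

theorem ut_inj {a b d a' b' d' : ℤ} (h : ut a b d = ut a' b' d') : a = a' ∧ b = b' ∧ d = d' :=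
  ⟨by simpa [ut] using congrFun (congrFun h 0) 0, by simpa [ut] using congrFun (congrFun h 0) 1,
    by simpa [ut] using congrFun (congrFun h 1) 1⟩

theorem cnt_prime {d p : ℕ} (hp : p.Prime) (hd : ¬ p ∣ 2 * d) {W : Z2} (hW : W.trace = 0)
    (hW' : W.det = d) : (cnt p (St W) : ℂ) = 1 + chi d p := by
  classical
  have := Fact.mk hp
  have h11 : W 1 1 = -W 0 0 := by
    rw [Matrix.trace_fin_two] at hW; linarith
  have hdet : W 0 0 ^ 2 + W 0 1 * W 1 0 + d = 0 := by
    rw [Matrix.det_fin_two, h11] at hW'; linarith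
  have h2 : (2 : ZMod p) ≠ 0 := fun e => hd (Dvd.dvd.mul_right
    ((ZMod.natCast_eq_zero_iff 2 p).1 (by exact_mod_cast e)) _)
  have hD : (d : ZMod p) ≠ 0 := fun e => hd (Dvd.dvd.mul_left
    ((ZMod.natCast_eq_zero_iff d p).1 e) _)
  have hq : (W 0 0 : ZMod p) ^ 2 + (W 0 1 : ZMod p) * (W 1 0 : ZMod p) + d = 0 := by
    have := congrArg (Int.cast : ℤ → ZMod p) hdet
    push_cast at this
    exact this
  rw [← card_roots hd, ← roots_field h2 hD hq]
  congr 1
  have hne : ∀ b : ℤ, ut p 0 1 ≠ ut 1 b p := fun b e => by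
    have := (ut_inj e).1
    exact hp.one_lt.ne' (by exact_mod_cast this)
  have key : ((hnf p).filter (fun g => St W g ∧ g ≠ ut p 0 1)).card =
      (Finset.univ.filter fun b : ZMod p =>
        (W 0 1 : ZMod p) - 2 * b * W 0 0 - W 1 0 * b ^ 2 = 0).card := by
    symm
    refine Finset.card_bij (fun b _ => ut 1 (b.val : ℕ) p) ?_ ?_ ?_
    · intro b hb
      simp only [Finset.mem_filter, Finset.mem_univ, true_and] at hb ⊢
      refine ⟨(mem_hnf_prime hp).2 (Or.inr ⟨_, ZMod.val_lt b, rfl⟩), ?_, (hne _).symm⟩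
      rw [St_ut1 h11, ← ZMod.intCast_zmod_eq_zero_iff_dvd]
      push_cast
      rw [ZMod.natCast_zmod_val]
      exact hb
    · intro a _ b _ e
      have := (ut_inj e).2.1
      exact ZMod.val_injective p (by exact_mod_cast this)
    · intro g hg
      obtain ⟨hg, hs, hn⟩ := Finset.mem_filter.1 hg
      rcases (mem_hnf_prime hp).1 hg with rfl | ⟨b, hb, rfl⟩
      · exact absurd rfl hn
      · rw [St_ut1 h11, ← ZMod.intCast_zmod_eq_zero_iff_dvd] at hs
        push_cast at hs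
        exact ⟨(b : ZMod p), by simpa using hs, by rw [ZMod.val_cast_of_lt hb]⟩
  rw [← key]
  unfold cnt
  rw [← Finset.card_filter_add_card_filter_not (s := (hnf p).filter (St W))
    (fun g => g ≠ ut p 0 1), Finset.filter_filter, Finset.filter_filter]
  congr 1
  split_ifs with hz
  · rw [Finset.card_eq_one]
    refine ⟨ut p 0 1, ?_⟩
    ext g
    simp only [Finset.mem_filter, not_not, Finset.mem_singleton]
    refine ⟨fun h => h.2.2, ?_⟩
    rintro rfl
    exact ⟨(mem_hnf_prime hp).2 (Or.inl rfl),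
      (St_utp _ _).2 ((ZMod.intCast_zmod_eq_zero_iff_dvd _ _).1 hz), rfl⟩
  · rw [Finset.card_eq_zero, Finset.filter_eq_empty_iff]
    rintro g - ⟨hs, hg⟩
    rw [not_not] at hg
    subst hg
    exact hz ((ZMod.intCast_zmod_eq_zero_iff_dvd _ _).2 ((St_utp _ _).1 hs))

theorem dvd_smul_iff (X : Z2) (p : ℤ) :
    (∃ X', X = X' * (p • (1 : Z2))) ↔ ∀ i j, p ∣ X i j := by
  constructor
  · rintro ⟨X', rfl⟩ i j
    exact ⟨X' i j, by rw [Matrix.mul_smul, Matrix.mul_one]; rfl⟩
  · intro h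
    choose u hu using h
    exact ⟨Matrix.of u, by rw [Matrix.mul_smul, Matrix.mul_one]; ext i j; exact hu i j⟩

/-- a matrix of rank one modulo `p` has exactly one right divisor of determinant `p` -/
theorem one_div {p : ℕ} (hp : p.Prime) {W X : Z2} (hW : W 1 1 = -W 0 0) (hs : St W X)
    (hd : (p : ℤ) ∣ X.det) (hX : ¬ ∀ i j, (p : ℤ) ∣ X i j) :
    ∃! g, g ∈ hnf p ∧ St W g ∧ ∃ X', X = X' * g := by
  have := Fact.mk hp
  obtain ⟨V, hV⟩ := hs
  have c : ∀ a : ℤ, (p : ℤ) ∣ a ↔ (a : ZMod p) = 0 := fun a =>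
    (ZMod.intCast_zmod_eq_zero_iff_dvd _ _).symm
  have e : ∀ i j, (X i 0 : ZMod p) * W 0 j + X i 1 * W 1 j = V i 0 * X 0 j + V i 1 * X 1 j := by
    intro i j
    have := congrArg (Int.cast : ℤ → ZMod p) (congrFun (congrFun hV i) j)
    simpa [Matrix.mul_apply, Fin.sum_univ_two] using this
  have e00 := e 0 0
  have e01 := e 0 1
  have e10 := e 1 0
  have e11 := e 1 1
  have hW' : (W 1 1 : ZMod p) = -W 0 0 := by rw [hW]; push_cast; rfl
  rw [hW'] at e01 e11
  rw [c, Matrix.det_fin_two] at hd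
  push_cast at hd
  simp only [Fin.forall_fin_two, c] at hX
  by_cases h0 : (X 0 0 : ZMod p) = 0 ∧ (X 1 0 : ZMod p) = 0
  · refine ⟨ut p 0 1, ⟨(mem_hnf_prime hp).2 (Or.inl rfl), ?_, ?_⟩, ?_⟩
    · rw [St_utp, c]
      by_contra hz
      rw [h0.1, h0.2] at e00 e10
      exact hX ⟨⟨h0.1, (mul_eq_zero.1 (by linear_combination e00)).resolve_right hz⟩,
        h0.2, (mul_eq_zero.1 (by linear_combination e10)).resolve_right hz⟩
    · rw [dvd_utp, c, c]
      exact h0
    · rintro g ⟨hg, -, hx⟩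
      rcases (mem_hnf_prime hp).1 hg with rfl | ⟨b, hb, rfl⟩
      · rfl
      · rw [dvd_ut1, c, c] at hx
        push_cast at hx
        rw [h0.1, h0.2] at hx
        exact absurd ⟨⟨h0.1, by linear_combination hx.1⟩, h0.2, by linear_combination hx.2⟩ hX
  · obtain ⟨b, hb0, hb1⟩ : ∃ b : ZMod p, (X 0 1 : ZMod p) - b * X 0 0 = 0 ∧
        (X 1 1 : ZMod p) - b * X 1 0 = 0 := by
      by_cases h1 : (X 0 0 : ZMod p) = 0
      · have h2 : (X 1 0 : ZMod p) ≠ 0 := fun h2 => h0 ⟨h1, h2⟩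
        refine ⟨X 1 1 / X 1 0, ?_, by field_simp; ring⟩
        field_simp
        linear_combination -hd
      · refine ⟨X 0 1 / X 0 0, by field_simp; ring, ?_⟩
        field_simp
        linear_combination hd
    refine ⟨ut 1 (b.val : ℕ) p, ⟨(mem_hnf_prime hp).2 (Or.inr ⟨_, ZMod.val_lt b, rfl⟩), ?_, ?_⟩,
      ?_⟩
    · rw [St_ut1 hW, c]
      push_cast
      rw [ZMod.natCast_zmod_val]
      by_contra hz
      refine h0 ⟨(mul_eq_zero.1 ?_).resolve_right hz, (mul_eq_zero.1 ?_).resolve_right hz⟩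
      · linear_combination e01 - b * e00 + (V 0 0 + W 0 0 + b * W 1 0) * hb0 + V 0 1 * hb1
      · linear_combination e11 - b * e10 + V 1 0 * hb0 + (V 1 1 + W 0 0 + b * W 1 0) * hb1
    · rw [dvd_ut1, c, c]
      push_cast
      rw [ZMod.natCast_zmod_val]
      exact ⟨hb0, hb1⟩
    · rintro g ⟨hg, -, hx⟩
      rcases (mem_hnf_prime hp).1 hg with rfl | ⟨b', hb', rfl⟩
      · rw [dvd_utp, c, c] at hx
        exact absurd hx h0
      · rw [dvd_ut1, c, c] at hx
        push_cast at hx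
        have : (b' : ZMod p) = b := by
          by_contra hne
          have hne' : (b' : ZMod p) - b ≠ 0 := sub_ne_zero.2 hne
          exact h0 ⟨(mul_eq_zero.1 (by linear_combination hb0 - hx.1)).resolve_left hne',
            (mul_eq_zero.1 (by linear_combination hb1 - hx.2)).resolve_left hne'⟩
        rw [← this, ZMod.val_cast_of_lt hb']

theorem cnt_rec {p k : ℕ} (hp : p.Prime) (hk : 0 < k) {W : Z2} (hW : W 1 1 = -W 0 0) (r : ℂ)
    (hr : ∀ W' : Z2, W'.det = W.det → W'.trace = W.trace → (cnt k (St W') : ℂ) = r) :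
    (cnt p (St W) : ℂ) * r = cnt (p * k) (St W) + ((cnt p (St W) : ℂ) - 1) *
      (if p ∣ k then cnt (k / p) (St W) else 0 : ℕ) := by
  classical
  have hpk : 0 < p * k := Nat.mul_pos hp.pos hk
  set S := (hnf p).filter (St W) with hS
  set T := (hnf (p * k)).filter (St W) with hT
  have hcS : cnt p (St W) = S.card := by unfold cnt; congr
  have hcT : cnt (p * k) (St W) = T.card := by unfold cnt; congr
  have hp0 : (p : ℤ) ≠ 0 := by exact_mod_cast hp.ne_zero
  have h1 : ∀ g ∈ S, ((T.filter fun X => ∃ X', X = X' * g).card : ℂ) = r := by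
    intro g hg
    obtain ⟨hg, W', e⟩ := Finset.mem_filter.1 hg
    have hd := det_of_mem hg
    have hd0 : g.det ≠ 0 := by rw [hd]; exact hp0
    rw [← hr W' (conj_inv hd0 e).1 (conj_inv hd0 e).2, ← cnt_mul hk hp.pos hd (li_St W'), hT,
      Finset.filter_filter]
    unfold cnt
    congr 2
    ext X
    simp only [Finset.mem_filter]
    refine and_congr_right fun _ => ?_
    constructor
    · rintro ⟨h, X', rfl⟩
      exact ⟨X', rfl, (St_mul hd0 e _).1 h⟩
    · rintro ⟨X', rfl, h⟩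
      exact ⟨(St_mul hd0 e _).2 h, X', rfl⟩
  have h2 : ∀ X ∈ T, ((S.filter fun g => ∃ X', X = X' * g).card : ℂ) =
      1 + if ∀ i j, (p : ℤ) ∣ X i j then (S.card : ℂ) - 1 else 0 := by
    intro X hX
    obtain ⟨hX, hs⟩ := Finset.mem_filter.1 hX
    split_ifs with h
    · rw [Finset.filter_true_of_mem]
      · ring
      · intro g hg
        obtain ⟨X', rfl⟩ := (dvd_smul_iff X p).2 h
        refine ⟨X' * g.adjugate, ?_⟩
        rw [Matrix.mul_assoc, Matrix.adjugate_mul, det_of_mem (Finset.mem_filter.1 hg).1]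
    · obtain ⟨g, hg, hu⟩ := one_div hp hW hs (by rw [det_of_mem hX]; simp) h
      rw [add_zero, Nat.cast_eq_one, Finset.card_eq_one]
      refine ⟨g, ?_⟩
      ext g'
      simp only [hS, Finset.mem_filter, Finset.mem_singleton, and_assoc]
      exact ⟨hu g', fun e => e ▸ hg⟩
  have h3 : (T.filter fun X => ∀ i j, (p : ℤ) ∣ X i j).card =
      if p ∣ k then cnt (k / p) (St W) else 0 := by
    have hd : ((p : ℤ) • (1 : Z2)).det = (p * p : ℕ) := by
      rw [Matrix.det_smul]; simp [sq]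
    have hd0 : ((p : ℤ) • (1 : Z2)).det ≠ 0 := by
      rw [hd]; exact_mod_cast (Nat.mul_pos hp.pos hp.pos).ne'
    have := cnt_ite hpk (Nat.mul_pos hp.pos hp.pos) hd (li_St W)
    rw [Nat.mul_div_mul_left _ _ hp.pos] at this
    simp only [Nat.mul_dvd_mul_iff_left hp.pos] at this
    rw [← this, hT, Finset.filter_filter]
    unfold cnt
    congr 1
    ext X
    have e : ((p : ℤ) • (1 : Z2)) * W = W * ((p : ℤ) • (1 : Z2)) := by
      rw [Matrix.smul_mul, Matrix.mul_smul, Matrix.mul_one, Matrix.one_mul]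
    simp only [Finset.mem_filter]
    refine and_congr_right fun _ => ?_
    rw [← dvd_smul_iff]
    constructor
    · rintro ⟨h, X', rfl⟩
      exact ⟨X', rfl, (St_mul hd0 e _).1 h⟩
    · rintro ⟨X', rfl, h⟩
      exact ⟨(St_mul hd0 e _).2 h, X', rfl⟩
  have h4 : ∑ g ∈ S, ((T.filter fun X => ∃ X', X = X' * g).card : ℂ) =
      ∑ X ∈ T, ((S.filter fun g => ∃ X', X = X' * g).card : ℂ) := by
    simp only [Finset.card_filter]
    push_cast
    exact Finset.sum_comm
  rw [Finset.sum_congr rfl h1, Finset.sum_congr rfl h2, Finset.sum_add_distrib,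
    ← Finset.sum_filter, Finset.sum_const, Finset.sum_const, Finset.sum_const, h3] at h4
  rw [hcS, hcT]
  simp only [nsmul_eq_mul] at h4
  linear_combination h4

theorem cnt_St {d : ℕ} (k : ℕ) : 0 < k → k.Coprime (2 * d) → ∀ W : Z2, W.trace = 0 → W.det = d →
    (cnt k (St W) : ℂ) = rK d k := by
  induction k using Nat.strong_induction_on with
  | _ k ih =>
  intro hk hc W hW hW'
  rcases Nat.eq_or_lt_of_le (Nat.one_le_of_lt hk) with rfl | h1
  · have : cnt 1 (St W) = 1 := by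
      classical
      unfold cnt
      rw [Finset.filter_true_of_mem, card_hnf]
      · simp
      · intro g hg
        obtain ⟨a, b, e, -, he, hb, rfl⟩ := mem_hnf.1 hg
        obtain rfl := Nat.eq_one_of_mul_eq_one_right he
        obtain rfl := Nat.eq_one_of_mul_eq_one_left he
        obtain rfl : b = 0 := by omega
        have : ut (1 : ℕ) (0 : ℕ) (1 : ℕ) = 1 := by
          ext i j; fin_cases i <;> fin_cases j <;> simp [ut]
        exact ⟨W, by rw [this]; simp⟩
    rw [this]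
    simp [rK, chi_one]
  · obtain ⟨p, hp, j, rfl⟩ := Nat.exists_prime_and_dvd h1.ne'
    have hj : 0 < j := Nat.pos_of_mul_pos_left hk
    have hjc : j.Coprime (2 * d) := Nat.Coprime.coprime_mul_left hc
    have hpd : ¬ p ∣ 2 * d := (Nat.Prime.coprime_iff_not_dvd hp).1 (Nat.Coprime.coprime_mul_right hc)
    have hlt : j < p * j := by have := hp.one_lt; nlinarith
    have h11 : W 1 1 = -W 0 0 := by
      rw [Matrix.trace_fin_two] at hW; linarith
    have h := cnt_rec hp hj h11 (rK d j) fun W' e1 e2 =>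
      ih j hlt hj hjc W' (e2.trans hW) (e1.trans hW')
    rw [cnt_prime hp hpd hW hW'] at h
    rw [rK_rec d hp hj]
    split_ifs at h ⊢ with hpj
    · rw [ih (j / p) ((Nat.div_le_self _ _).trans_lt hlt) (Nat.div_pos (Nat.le_of_dvd hj hpj) hp.pos)
        (Nat.Coprime.coprime_dvd_left (Nat.div_dvd_of_dvd hpj) hjc) W hW hW'] at h
      linear_combination -h
    · push_cast at h
      linear_combination -h

end CountP

end

end Pool.Agent.P.MP_b8021b_nt.CM
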