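import Pool.Agent.P.MP_b8021b_nt.CM.Cyc0

/-! Library L9, part 2: `G2` and Hecke sums. -/

namespace Pool.Agent.P.MP_b8021b_nt.CM

open UpperHalfPlane hiding I
open CongruenceSubgroup Function CycP
open scoped MatrixGroups Modular

noncomputable section

variable {u u' : ℍ → ℂ} {M N : ℕ}

theorem CycP.leftA_eq (g Y : GQ) : leftA g Y = g * Y := rfl

theorem CycP.det_Gam {K : ℕ} {γ : GQ} (h : γ ∈ Gam K) : γ.1.det = 1 :=
  ((mem_G0 γ).1 (Gam_le_G0 K h)).2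

theorem CycP.G2_reps' {K : ℕ} (hK : 0 < K) (hu : LevU K u) (σ : ℍ) {φ : M2 → ℂ}
    (hφ : ∀ γ ∈ Gam K, ∀ Y : M2, φ (γ.1 * Y) = φ Y) {n : ℚ} (hn : 0 < n) (R : Finset GQ)
    (hR : ∀ Y ∈ R, Y.1.det = n)
    (hR' : ∀ Y : GQ, Y.1.det = n → φ Y.1 ≠ 0 → ∃! Z, Z ∈ R ∧ ∃ γ ∈ Gam K, γ * Z = Y) :
    DGood leftA G0 (g2W u σ φ n) ∧
    ((Gamma K).index : ℂ) * G2 u σ φ n = ∑ Y ∈ R, φ Y.1 * u (actH Y σ) := by
  have := dmean_reps (ρ := leftA) (w := g2W u σ φ n) (fi_Gam hK) (fun γ hγ Y => by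
    unfold g2W
    rw [leftA_eq, Units.val_mul, Matrix.det_mul, det_Gam hγ, one_mul, hφ γ hγ, actH_mul,
      levU_act hu hγ]) R (fun Y hY => by
    unfold g2W at hY
    split_ifs at hY with h
    · exact hR' Y h.2 (left_ne_zero_of_mul hY)
    · exact absurd rfl hY) (fun Y _ γ _ h => mul_eq_right.1 h)
  refine ⟨this.1, ?_⟩
  unfold G2
  rw [this.2, relIndex_Gam, mul_div_cancel₀ _ (index_ne hK)]
  refine Finset.sum_congr rfl fun Y hY => ?_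
  unfold g2W
  rw [if_pos ⟨hn, hR Y hY⟩]

theorem CycP.left_inv_of_lev {φ : M2 → ℂ} (h : Lev M φ) {γ : GQ} (hγ : γ ∈ Gam (N * M ^ 2))
    (Y : M2) : φ (γ.1 * Y) = φ Y := by
  simpa using h.mul_Gam (Gam_le (dvd_mul_left (M ^ 2) N) hγ) (Gam _).one_mem Y

theorem CycP.g2W_nonpos (σ : ℍ) (φ : M2 → ℂ) {n : ℚ} (hn : ¬ 0 < n) : g2W u σ φ n = 0 :=
  funext fun _ => if_neg fun h => hn h.1

theorem g2W_good (hu : HasLev u) (σ : ℍ) {φ : M2 → ℂ} (h : SB φ) (n : ℚ) :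
    DGood leftA G0 (g2W u σ φ n) := by
  by_cases hn : 0 < n
  · obtain ⟨N, hN, hu⟩ := hu
    obtain ⟨M, hM, h⟩ := h
    have hK : 0 < N * M ^ 2 := by positivity
    obtain ⟨R, h1, h2, -⟩ := exists_left_reps hK hM n hn
    exact (G2_reps' hK (hu.mono (dvd_mul_right _ _)) σ (fun γ hγ => left_inv_of_lev h hγ) hn R
      (fun Y hY => (h1 Y hY).1) fun Y hY h0 => h2 Y hY (h.2 _ h0)).1
  · rw [g2W_nonpos σ φ hn]; exact dgood_zero _ _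

theorem G2_add (hu : HasLev u) (σ : ℍ) {φ ψ : M2 → ℂ} (h : SB φ) (h' : SB ψ) (n : ℚ) :
    G2 u σ (φ + ψ) n = G2 u σ φ n + G2 u σ ψ n := by
  unfold G2
  rw [← dmean_add (g2W_good hu σ h n) (g2W_good hu σ h' n)]
  congr 1
  funext Y
  simp only [g2W, Pi.add_apply]
  split_ifs <;> ring

theorem G2_smul (c : ℂ) (σ : ℍ) (φ : M2 → ℂ) (n : ℚ) : G2 u σ (c • φ) n = c * G2 u σ φ n := by
  unfold G2
  rw [← dmean_smul]
  congr 1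
  funext Y
  simp only [g2W, Pi.smul_apply, smul_eq_mul]
  split_ifs <;> ring

theorem G2_sum (hu : HasLev u) (σ : ℍ) {ι : Type} (t : Finset ι) (φ : ι → M2 → ℂ)
    (h : ∀ i ∈ t, SB (φ i)) (n : ℚ) : G2 u σ (∑ i ∈ t, φ i) n = ∑ i ∈ t, G2 u σ (φ i) n := by
  unfold G2
  rw [← dmean_sum t _ fun i hi => g2W_good hu σ (h i hi) n]
  congr 1
  funext Y
  simp only [g2W, Finset.sum_apply]
  split_ifs
  · rw [Finset.sum_mul]
  · simp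

theorem G2_congr (σ : ℍ) {φ ψ : M2 → ℂ} {n : ℚ} (e : ∀ Y, Y.det = n → φ Y = ψ Y) :
    G2 u σ φ n = G2 u σ ψ n := by
  unfold G2
  congr 1
  funext Y
  simp only [g2W]
  split_ifs with h
  · rw [e _ h.2]
  · rfl

theorem G2_supp {σ : ℍ} {φ : M2 → ℂ} {n : ℚ} (h : G2 u σ φ n ≠ 0) :
    0 < n ∧ ∃ Y, Y.det = n ∧ φ Y ≠ 0 := by
  obtain ⟨Y, hY⟩ := dmean_ne h
  unfold g2W at hY
  split_ifs at hY with h2
  · exact ⟨h2.1, Y.1, h2.2, left_ne_zero_of_mul hY⟩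
  · exact absurd rfl hY

theorem G2_neg (σ : ℍ) (φ : M2 → ℂ) (n : ℚ) : G2 u σ (fun Y => φ (-Y)) n = G2 u σ φ n := by
  unfold G2
  rw [← (dmean_equiv (ρ := leftA) (ρ' := leftA) (Γ0 := G0) (Equiv.neg GQ)
    (fun γ _ Y => by simp [leftA_eq]) (g2W u σ φ n)).2]
  congr 1
  funext Y
  show g2W u σ (fun Y => φ (-Y)) n Y = g2W u σ φ n (-Y)
  have e2 : (-Y).1.det = Y.1.det := by simp [Matrix.det_neg]
  unfold g2W
  rw [e2, actH_neg]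
  rfl

/-- `G2` is a finite sum of translates, with coefficients that do not depend on `u` and `σ` -/
theorem G2_eq_sum (hN : 0 < N) {φ : M2 → ℂ} (h : SB φ) (n : ℚ) :
    ∃ (R : Finset GQ) (c : GQ → ℂ), (∀ Y ∈ R, 0 < Y.1.det) ∧
      ∀ u, LevU N u → ∀ σ, G2 u σ φ n = ∑ Y ∈ R, c Y * u (actH Y σ) := by
  by_cases hn : 0 < n
  · obtain ⟨M, hM, h⟩ := h
    have hK : 0 < N * M ^ 2 := by positivity
    obtain ⟨R, h1, h2, -⟩ := exists_left_reps hK hM n hn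
    refine ⟨R, fun Y => φ Y.1 / (Gamma (N * M ^ 2)).index, fun Y hY => (h1 Y hY).1 ▸ hn,
      fun u hu σ => ?_⟩
    have := (G2_reps' hK (hu.mono (dvd_mul_right _ _)) σ (fun γ hγ => left_inv_of_lev h hγ) hn R
      (fun Y hY => (h1 Y hY).1) fun Y hY h0 => h2 Y hY (h.2 _ h0)).2
    apply mul_left_cancel₀ (index_ne hK)
    rw [this, Finset.mul_sum]
    refine Finset.sum_congr rfl fun Y _ => ?_
    have := index_ne hK
    field_simp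
  · refine ⟨∅, 0, by simp, fun u _ σ => ?_⟩
    unfold G2
    rw [g2W_nonpos σ φ hn, dmean_zero]; simp

/-- computation with given representatives -/
theorem G2_reps {K : ℕ} (hK : 0 < K) (hu : LevU K u) (σ : ℍ) {φ : M2 → ℂ}
    (hφ : ∀ γ ∈ Gam K, ∀ Y : M2, φ (γ.1 * Y) = φ Y) {n : ℚ} (hn : 0 < n) (R : Finset GQ)
    (hR : ∀ Y ∈ R, Y.1.det = n)
    (hR' : ∀ Y : GQ, Y.1.det = n → φ Y.1 ≠ 0 → ∃! Z, Z ∈ R ∧ ∃ γ ∈ Gam K, γ * Z = Y) :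
    ((Gamma K).index : ℂ) * G2 u σ φ n = ∑ Y ∈ R, φ Y.1 * u (actH Y σ) :=
  (G2_reps' hK hu σ hφ hn R hR hR').2

theorem G2_right (σ : ℍ) (φ : M2 → ℂ) (g : GQ) (hg : 0 < g.1.det) (n : ℚ) :
    G2 u (actH g σ) (fun Y => φ (Y * g.1)) n = G2 u σ φ (n * g.1.det) := by
  unfold G2
  rw [← (dmean_equiv (ρ := leftA) (ρ' := leftA) (Γ0 := G0) (Equiv.mulRight g)
    (fun γ _ Y => by simp [leftA_eq, mul_assoc]) (g2W u σ φ (n * g.1.det))).2]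
  congr 1
  funext Y
  show _ = g2W u σ φ (n * g.1.det) (Y * g)
  have e : (0 < n * g.1.det ∧ (Y * g).1.det = n * g.1.det) ↔ (0 < n ∧ Y.1.det = n) := by
    rw [Units.val_mul, Matrix.det_mul, mul_pos_iff_of_pos_right hg, mul_left_inj' hg.ne']
  unfold g2W
  by_cases h : 0 < n ∧ Y.1.det = n
  · rw [if_pos h, if_pos (e.2 h), actH_mul]; rfl
  · rw [if_neg h, if_neg (mt e.1 h)]

theorem CycP.ind_left (μ : R2 N) {γ : GQ} (hγ : γ ∈ Gam N) (Y : M2) :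
    ind N μ (γ.1 * Y) = ind N μ Y := by
  simpa using ind_mul_Gam μ hγ (Gam _).one_mem Y

theorem HK_of_reps (hN : 0 < N) (μ : R2 N) {n : ℕ} (hn : 0 < n) (R : Finset GQ)
    (h1 : ∀ Y ∈ R, Y.1.det = n ∧ ind N μ Y.1 = 1)
    (h2 : ∀ Y : GQ, Y.1.det = n → ind N μ Y.1 ≠ 0 → ∃! Z, Z ∈ R ∧ ∃ γ ∈ Gam N, γ * Z = Y)
    (hu : LevU N u) (σ : ℍ) : HK N μ n u σ = ∑ Y ∈ R, u (actH Y σ) := by
  unfold HK
  rw [G2_reps hN hu σ (fun γ hγ => ind_left μ hγ) (by exact_mod_cast hn) R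
    (fun Y hY => (h1 Y hY).1) h2]
  exact Finset.sum_congr rfl fun Y hY => by rw [(h1 Y hY).2, one_mul]

theorem HK_reps (hN : 0 < N) (μ : R2 N) {n : ℕ} (hn : 0 < n) : ∃ R : Finset GQ,
    (∀ Y ∈ R, Y.1.det = n ∧ ind N μ Y.1 = 1) ∧
    (∀ Y : GQ, Y.1.det = n → ind N μ Y.1 ≠ 0 → ∃! Z, Z ∈ R ∧ ∃ γ ∈ Gam N, γ * Z = Y) ∧
    ∀ u, LevU N u → ∀ σ, HK N μ n u σ = ∑ Y ∈ R, u (actH Y σ) := by
  classical
  obtain ⟨R, h1, h2, -⟩ := exists_left_reps hN one_pos (n : ℚ) (by exact_mod_cast hn)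
  have a1 : ∀ Y ∈ R.filter fun Y => ind N μ Y.1 = 1, Y.1.det = n ∧ ind N μ Y.1 = 1 :=
    fun Y hY => ⟨(h1 Y (Finset.mem_filter.1 hY).1).1, (Finset.mem_filter.1 hY).2⟩
  have a2 : ∀ Y : GQ, Y.1.det = n → ind N μ Y.1 ≠ 0 →
      ∃! Z, Z ∈ (R.filter fun Y => ind N μ Y.1 = 1) ∧ ∃ γ ∈ Gam N, γ * Z = Y := by
    intro Y hY h0
    have h3 : IsInt Y.1 := by
      by_contra h
      exact h0 (ind_of_not μ h)
    obtain ⟨Z, ⟨hZ, γ, hγ, e⟩, hu⟩ := h2 Y hY (by simpa using h3)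
    have h4 : ind N μ Y.1 = 1 := by
      unfold ind at h0 ⊢
      split_ifs at h0 ⊢
      · rfl
      · exact absurd rfl h0
    refine ⟨Z, ⟨Finset.mem_filter.2 ⟨hZ, ?_⟩, γ, hγ, e⟩, fun Z' hZ' =>
      hu Z' ⟨(Finset.mem_filter.1 hZ'.1).1, hZ'.2⟩⟩
    rw [← h4, ← e, Units.val_mul, ind_left μ hγ]
  exact ⟨_, a1, a2, fun u hu σ => HK_of_reps hN μ hn _ a1 a2 hu σ⟩

theorem LevU.levU_HK (hN : 0 < N) (hu : LevU N u) (μ : R2 N) (n : ℕ) : LevU N (HK N μ n u) := by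
  have _ := hN
  have _ := hu
  intro γ hγ σ
  have h1 : iota γ ∈ Gam N := ⟨γ, hγ, rfl⟩
  have := G2_right (u := u) σ (ind N μ) (iota γ) (by rw [det_Gam h1]; exact one_pos) n
  rw [det_Gam h1, mul_one, actH_iota] at this
  unfold HK
  rw [← this]
  congr 2
  funext Y
  simpa using (ind_mul_Gam μ (Gam _).one_mem h1 Y).symm

end

end Pool.Agent.P.MP_b8021b_nt.CM
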