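import Pool.Agent.P.MP_b8021b_nt.CM.Cyc1
import Pool.Agent.P.MP_b8021b_nt.CM.Cyc2

/-! Library L9: the sums `G1`, `G2`, `gam`, `aS`, `HK`. -/

namespace Pool.Agent.P.MP_b8021b_nt.CM

open UpperHalfPlane hiding I
open CongruenceSubgroup Function
open scoped MatrixGroups Modular

noncomputable section

variable {u u' : ℍ → ℂ} {s s' : ℍ → ℍ → ℂ} {M N : ℕ}

namespace CycP

theorem pairA_eq (g : GQ × GQ) (p : GQ × GQ) :
    pairA g p = (g.2 * p.1 * g.1⁻¹, g.2 * p.2 * g.1⁻¹) := rfl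

/-- the condition in the definition of `aW` -/
def Cnd (n r j : ℚ) (p : GQ × GQ) : Prop :=
  0 < j ∧ r ^ 2 < 4 * n * j ∧ p.1.1.det = n ∧ bil p.1.1 p.2.1 = r ∧ p.2.1.det = j

theorem aW_pos {n r j : ℚ} {p : GQ × GQ} (h : Cnd n r j p) (φ : M2 → M2 → ℂ) :
    aW s n r j φ p =
      φ p.1.1 p.2.1 * s (fix (p.2⁻¹ * p.1).1) (actH p.2 (fix (p.2⁻¹ * p.1).1)) := if_pos h

theorem aW_neg {n r j : ℚ} {p : GQ × GQ} (h : ¬ Cnd n r j p) (φ : M2 → M2 → ℂ) :
    aW s n r j φ p = 0 := if_neg h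

theorem bil_mul (A Y Z B : M2) : bil (A * Y * B) (A * Z * B) = A.det * B.det * bil Y Z := by
  have h1 := det_add_bil (A * Y * B) (A * Z * B)
  have h2 := det_add_bil Y Z
  rw [← add_mul, ← mul_add] at h1
  simp only [Matrix.det_mul] at h1
  rw [h2] at h1
  linear_combination -h1

theorem bil_one (X : M2) : bil X 1 = X.trace := by
  simp [bil, Matrix.trace_fin_two]

theorem bil_left (y X : M2) : bil (y * X) y = y.det * X.trace := by
  have := bil_mul y X 1 1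
  simpa [bil_one] using this

theorem npos {n r j : ℚ} (hj : 0 < j) (h : r ^ 2 < 4 * n * j) : 0 < n := by
  by_contra h0
  push Not at h0
  nlinarith [sq_nonneg r, mul_nonneg hj.le (neg_nonneg.2 h0)]

theorem cnd_slice {n r j : ℚ} (hj : 0 < j) {y : GQ} (hy : y.1.det = j) (X : GQ) :
    Cnd n r j (y * X, y) ↔
      ((r / (2 * j)) ^ 2 < n / j ∧ X.1.trace = 2 * (r / (2 * j)) ∧ X.1.det = n / j) := by
  unfold Cnd
  simp only [Units.val_mul, Matrix.det_mul, bil_left, hy, hj, true_and, and_true]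
  have e1 : r ^ 2 < 4 * n * j ↔ (r / (2 * j)) ^ 2 < n / j := by
    rw [div_pow, div_lt_div_iff₀ (by positivity) hj]
    constructor <;> intro h <;> nlinarith
  have e2 : j * X.1.det = n ↔ X.1.det = n / j := by
    rw [eq_div_iff hj.ne', mul_comm]
  have e3 : j * X.1.trace = r ↔ X.1.trace = 2 * (r / (2 * j)) := by
    rw [show 2 * (r / (2 * j)) = r / j by field_simp, eq_div_iff hj.ne', mul_comm]
  rw [e1, e2, e3]
  tauto

theorem Cnd.ell {n r j : ℚ} {p : GQ × GQ} (h : Cnd n r j p) : Ell (p.2⁻¹ * p.1).1 := by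
  have h1 := (cnd_slice (n := n) (r := r) h.1 h.2.2.2.2 (p.2⁻¹ * p.1)).1 (by simpa using h)
  unfold Ell
  rw [h1.2.1, h1.2.2]
  nlinarith [h1.1]

theorem Cnd.fix_iff {n r j : ℚ} {p : GQ × GQ} (h : Cnd n r j p) (z : ℍ) :
    actH p.1 z = actH p.2 z ↔ z = fix (p.2⁻¹ * p.1).1 := by
  rw [← h.ell.act_eq_iff, act_val, actH_mul, map_inv]
  exact (Equiv.symm_apply_eq (actH p.2)).symm

theorem cnd_act (g : GQ × GQ) {k : ℚ} (hk : 0 < k) (hg : g.2.1.det = k * g.1.1.det)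
    (n r j : ℚ) (p : GQ × GQ) : Cnd (k * n) (k * r) (k * j) (pairA g p) ↔ Cnd n r j p := by
  have h0 := det_ne g.1
  have e1 : ∀ Y : M2, (g.2.1 * Y * (g.1⁻¹).1).det = k * Y.det := fun Y => by
    rw [Matrix.det_mul, Matrix.det_mul, det_inv, hg]; field_simp
  have e2 : g.2.1.det * (g.1⁻¹).1.det = k := by rw [det_inv, hg]; field_simp
  unfold Cnd
  simp only [pairA_eq, Units.val_mul, e1, bil_mul, e2, mul_right_inj' hk.ne',
    mul_pos_iff_of_pos_left hk]
  have e3 : (k * r) ^ 2 < 4 * (k * n) * (k * j) ↔ r ^ 2 < 4 * n * j := by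
    rw [show (k * r) ^ 2 = k ^ 2 * r ^ 2 by ring,
      show 4 * (k * n) * (k * j) = k ^ 2 * (4 * n * j) by ring]
    exact mul_lt_mul_iff_right₀ (by positivity)
  rw [e3]

theorem aW_act (g : GQ × GQ) {k : ℚ} (hk : 0 < k) (hg : g.2.1.det = k * g.1.1.det)
    (φ : M2 → M2 → ℂ) (n r j : ℚ) (p : GQ × GQ) :
    aW s (k * n) (k * r) (k * j) φ (pairA g p) =
      aW (fun τ σ => s (actH g.1 τ) (actH g.2 σ)) n r j
        (fun Y Z => φ (g.2.1 * Y * (g.1⁻¹).1) (g.2.1 * Z * (g.1⁻¹).1)) p := by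
  by_cases h : Cnd n r j p
  · rw [aW_pos h, aW_pos ((cnd_act g hk hg n r j p).2 h)]
    have e : ((pairA g p).2⁻¹ * (pairA g p).1).1 = g.1.1 * (p.2⁻¹ * p.1).1 * (g.1⁻¹).1 := by
      rw [← Units.val_mul, ← Units.val_mul, pairA_eq]
      congr 1
      group
    rw [e, h.ell.fix_conj, ← actH_mul, ← actH_mul, pairA_eq]
    simp
  · rw [aW_neg h, aW_neg (mt (cnd_act g hk hg n r j p).1 h)]

theorem exists_common {K : ℕ} (hK : 0 < K) (R : Finset GQ) :
    ∃ K1, 0 < K1 ∧ K ∣ K1 ∧ ∀ y ∈ R, ∀ γ ∈ Gam K1, y * γ * y⁻¹ ∈ Gam K := by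
  classical
  induction R using Finset.induction_on with
  | empty => exact ⟨K, hK, dvd_rfl, by simp⟩
  | insert y R _ ih =>
    obtain ⟨K1, h1, h2, h3⟩ := ih
    obtain ⟨K2, h4, -, h5⟩ := exists_Gam_conj y hK
    refine ⟨K1 * K2, Nat.mul_pos h1 h4, h2.mul_right _, fun z hz γ hγ => ?_⟩
    rcases Finset.mem_insert.1 hz with rfl | hz
    · exact h5 γ (Gam_le (dvd_mul_left _ _) hγ)
    · exact h3 z hz γ (Gam_le (dvd_mul_right _ _) hγ)

end CycP

open CycP

/-! ### `aS` -/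

theorem aW_inv (hs : LevS N s) {φ : M2 → M2 → ℂ}
    (h : ∀ γ ∈ Gam N, ∀ δ ∈ Gam N, ∀ Y Z : M2, φ (γ.1 * Y * δ.1) (γ.1 * Z * δ.1) = φ Y Z)
    (n r j : ℚ) : Inv pairA ((Gam N).prod (Gam N)) (aW s n r j φ) := by
  rintro g ⟨h1, h2⟩ p
  have := aW_act (s := s) g one_pos (by rw [det_Gam h1, det_Gam h2, one_mul]) φ n r j p
  simp only [one_mul] at this
  rw [this]
  congr 1
  · funext τ σ
    exact (levU_act (hs.1 _) h1 τ).trans (levU_act (hs.2 τ) h2 σ)
  · funext Y Z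
    exact h _ h2 _ ((Gam N).inv_mem h1) Y Z

theorem CycP.aW_red {K : ℕ} (hK : 0 < K) (hM : 0 < M) {j : ℚ} (R : Finset GQ)
    (hR : ∀ Y : GQ, Y.1.det = j → IsInt ((M : ℚ) • Y.1) → ∃! Z, Z ∈ R ∧ ∃ γ ∈ Gam K, γ * Z = Y)
    {w : GQ × GQ → ℂ} (hw : Inv pairA ((Gam K).prod (Gam K)) w) {n r : ℚ}
    (hs : ∀ p, w p ≠ 0 → Cnd n r j p ∧ IsInt ((M : ℚ) • p.1.1) ∧ IsInt ((M : ℚ) • p.2.1)) :
    DGood pairA GG0 w ∧ dmean pairA GG0 w =
      (∑ y ∈ R, dmean conjA G0 fun X => w (y * X, y)) / (Gamma K).index := by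
  classical
  obtain ⟨K1, hK1, hd, hc⟩ := exists_common hK R
  obtain ⟨β, hβ⟩ := exists_WtH (fi_Gam hK1)
  have hsl : ∀ y ∈ R, DAdm conjA G0 (Gam K1) (fun X => β (fix X.1)) fun X => w (y * X, y) := by
    intro y hy
    obtain ⟨D, hD, hDy⟩ := Lat.den (y⁻¹).1
    refine conj_adm (M := D * M) (n := n * (y⁻¹).1.det) (fi_Gam hK1) hβ (fun γ hγ X => ?_)
      (Nat.mul_pos hD hM) fun X hX => ?_
    · have := hw (γ, y * γ * y⁻¹) ⟨Gam_le hd hγ, hc y hy γ hγ⟩ (y * X, y)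
      rw [← this, pairA_eq, conjA_eq]
      congr 2 <;> group
    · obtain ⟨h1, h2, -⟩ := hs _ hX
      have e : X.1 = (y⁻¹).1 * (y * X).1 := by rw [← Units.val_mul, inv_mul_cancel_left]
      refine ⟨?_, le_of_eq ?_, by simpa using h1.ell⟩
      · have := isInt_mul hDy h2
        rw [smul_mul_smul_comm, ← e] at this
        exact_mod_cast this
      · rw [e, Matrix.det_mul, h1.2.2.1, mul_comm]
  set B : GQ × GQ → ℂ := fun p => if p.2 ∈ R then β (fix (p.2⁻¹ * p.1).1) else 0 with hB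
  set F : GQ → GQ × GQ → ℂ := fun y p => if p.2 = y then B p * w p else 0 with hF
  have hFi : ∀ y ∈ R, ∑ᶠ p, F y p = ∑ᶠ X : GQ, β (fix X.1) * w (y * X, y) ∧
      (support (F y)).Finite := by
    intro y hy
    have h1 := finsum_inj (ι := fun X : GQ => (y * X, y)) (F := F y)
      (fun X X' e => mul_left_cancel (congrArg Prod.fst e)) fun p hp => by
        have : p.2 = y := by
          by_contra h
          exact hp (if_neg h)
        exact ⟨y⁻¹ * p.1, Prod.ext (by simp) this.symm⟩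
    have e : (fun X : GQ => F y (y * X, y)) = fun X => β (fix X.1) * w (y * X, y) := by
      funext X
      simp [hF, hB, hy]
    rw [e] at h1
    exact ⟨h1.1, h1.2 (hsl y hy).2.2.2⟩
  have hBF : (fun p => B p * w p) = fun p => ∑ y ∈ R, F y p := by
    funext p
    simp only [hF, Finset.sum_ite_eq]
    split_ifs with h
    · rfl
    · simp [hB, h]
  have hadm : DAdm pairA GG0 ((Gam K1).prod (Gam K)) B w := by
    refine ⟨fi_Gam2 hK1 hK, hw.mono (Subgroup.prod_mono (Gam_le hd) le_rfl), fun p hp => ?_, ?_⟩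
    · obtain ⟨h1, -, h3⟩ := hs p hp
      have hex : ∀ γ : Gam K1, ∃ δ : Gam K, δ.1 * p.2 * γ.1⁻¹ ∈ R ∧
          ∀ δ' : Gam K, δ'.1 * p.2 * γ.1⁻¹ ∈ R → δ' = δ := by
        intro γ
        have hγ := (Gam K1).inv_mem γ.2
        obtain ⟨Z, ⟨hZ, δ, hδ, e⟩, hu⟩ := hR (p.2 * γ.1⁻¹)
          (by rw [Units.val_mul, Matrix.det_mul, det_Gam hγ, mul_one, h1.2.2.2.2])
          (by simpa using int_mul3 G0.one_mem (Gam_le_G0 _ hγ) h3)
        refine ⟨⟨δ⁻¹, (Gam K).inv_mem hδ⟩, by rw [mul_assoc, ← e]; simpa using hZ,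
          fun δ' h' => Subtype.ext ?_⟩
        have h5 := hu _ ⟨h', δ'.1⁻¹, (Gam K).inv_mem δ'.2, by group⟩
        rw [mul_assoc, ← e, ← mul_assoc, mul_eq_right] at h5
        exact eq_inv_of_mul_eq_one_left h5
      choose δ hδ1 hδ2 using hex
      have h2 := finsum_inj
        (ι := fun γ : Gam K1 => (⟨(γ.1, (δ γ).1), γ.2, (δ γ).2⟩ : (Gam K1).prod (Gam K)))
        (F := fun g => B (pairA g p))
        (fun γ γ' e => Subtype.ext (congrArg (fun g => g.1.1) e)) fun g hg => by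
          have h4 : g.1.2 * p.2 * g.1.1⁻¹ ∈ R := by
            by_contra h
            exact hg (if_neg h)
          have h5 := hδ2 ⟨g.1.1, g.2.1⟩ ⟨g.1.2, g.2.2⟩ h4
          exact ⟨⟨g.1.1, g.2.1⟩, Subtype.ext (Prod.ext rfl (congrArg Subtype.val h5).symm)⟩
      have e : (fun γ : Gam K1 => B (pairA (γ.1, (δ γ).1) p)) =
          fun γ : Gam K1 => β (actH γ (fix (p.2⁻¹ * p.1).1)) := by
        funext γ
        rw [← h1.ell.fix_conj, pairA_eq]
        simp only [hB, if_pos (hδ1 γ)]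
        rw [← Units.val_mul, ← Units.val_mul]
        congr 3
        group
      simp only [e] at h2
      exact ⟨h2.2 (hβ.2 _).1, h2.1.trans (hβ.2 _).2⟩
    · rw [hBF]
      refine (R.finite_toSet.biUnion fun y hy => (hFi y hy).2).subset fun p hp => ?_
      obtain ⟨y, hy, h0⟩ := Finset.exists_ne_zero_of_sum_ne_zero hp
      exact Set.mem_biUnion hy h0
  refine ⟨⟨⟨_, _⟩, hadm⟩, ?_⟩
  rw [dmean_eq hadm, hBF, finsum_sum_comm _ _ fun y hy => (hFi y hy).2, relIndex_Gam2,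
    Finset.sum_div, Finset.sum_div]
  refine Finset.sum_congr rfl fun y hy => ?_
  rw [dmean_eq (hsl y hy), (hFi y hy).1, relIndex_Gam, div_div]
  push_cast
  rfl

theorem CycP.aW_supp {φ : M2 → M2 → ℂ} (h : Lev M (unc φ)) {n r j : ℚ} (p : GQ × GQ)
    (hp : aW s n r j φ p ≠ 0) :
    Cnd n r j p ∧ IsInt ((M : ℚ) • p.1.1) ∧ IsInt ((M : ℚ) • p.2.1) := by
  have h1 : Cnd n r j p := by
    by_contra h1
    exact hp (aW_neg h1 φ)
  rw [aW_pos h1] at hp
  exact ⟨h1, (isInt_prod _).1 (h.2 (p.1.1, p.2.1) (left_ne_zero_of_mul hp))⟩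

theorem CycP.aW_inv' (hs : LevS N s) {φ : M2 → M2 → ℂ} (h : Lev M (unc φ)) (n r j : ℚ) :
    Inv pairA ((Gam (N * M ^ 2)).prod (Gam (N * M ^ 2))) (aW s n r j φ) :=
  aW_inv (hs.mono (dvd_mul_right _ _)) (fun _ hγ _ hδ => h.mul_Gam2
    (Gam_le (dvd_mul_left _ _) hγ) (Gam_le (dvd_mul_left _ _) hδ)) n r j

theorem aW_good (hs : HasLevS s) {φ : M2 → M2 → ℂ} (h : SB (unc φ)) (n r j : ℚ) :
    DGood pairA GG0 (aW s n r j φ) := by
  by_cases hj : 0 < j
  · obtain ⟨N, hN, hs⟩ := hs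
    obtain ⟨M, hM, h⟩ := h
    have hK : 0 < N * M ^ 2 := by positivity
    obtain ⟨R, -, h2, -⟩ := exists_left_reps hK hM j hj
    exact (aW_red hK hM R h2 (aW_inv' hs h n r j) (aW_supp h)).1
  · rw [show aW s n r j φ = 0 from funext fun p => aW_neg (fun h => hj h.1) φ]
    exact dgood_zero _ _

theorem aS_add (hs : HasLevS s) {φ ψ : M2 → M2 → ℂ} (h : SB (unc φ)) (h' : SB (unc ψ))
    (n r j : ℚ) : aS s n r j (φ + ψ) = aS s n r j φ + aS s n r j ψ := by
  unfold aS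
  rw [← dmean_add (aW_good hs h n r j) (aW_good hs h' n r j)]
  congr 1
  funext Y
  simp only [aW, Pi.add_apply]
  split_ifs <;> ring

theorem aS_smul (c : ℂ) (φ : M2 → M2 → ℂ) (n r j : ℚ) :
    aS s n r j (c • φ) = c * aS s n r j φ := by
  unfold aS
  rw [← dmean_smul]
  congr 1
  funext Y
  simp only [aW, Pi.smul_apply, smul_eq_mul]
  split_ifs <;> ring

theorem aS_sum (hs : HasLevS s) {ι : Type} (t : Finset ι) (φ : ι → M2 → M2 → ℂ)
    (h : ∀ i ∈ t, SB (unc (φ i))) (n r j : ℚ) :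
    aS s n r j (∑ i ∈ t, φ i) = ∑ i ∈ t, aS s n r j (φ i) := by
  unfold aS
  rw [← dmean_sum t _ fun i hi => aW_good hs (h i hi) n r j]
  congr 1
  funext Y
  simp only [aW, Finset.sum_apply]
  split_ifs
  · rw [Finset.sum_mul]
  · simp

theorem aS_add_s (hs : HasLevS s) (hs' : HasLevS s') {φ : M2 → M2 → ℂ} (h : SB (unc φ))
    (n r j : ℚ) : aS (s + s') n r j φ = aS s n r j φ + aS s' n r j φ := by
  unfold aS
  rw [← dmean_add (aW_good hs h n r j) (aW_good hs' h n r j)]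
  congr 1
  funext Y
  simp only [aW, Pi.add_apply]
  split_ifs <;> ring

theorem aS_smul_s (c : ℂ) (φ : M2 → M2 → ℂ) (n r j : ℚ) :
    aS (c • s) n r j φ = c * aS s n r j φ := by
  unfold aS
  rw [← dmean_smul]
  congr 1
  funext Y
  simp only [aW, Pi.smul_apply, smul_eq_mul]
  split_ifs <;> ring

theorem aS_congr {φ ψ : M2 → M2 → ℂ} {n r j : ℚ}
    (e : ∀ Y Z : M2, Y.det = n → bil Y Z = r → Z.det = j → φ Y Z = ψ Y Z) :
    aS s n r j φ = aS s n r j ψ := by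
  unfold aS
  congr 1
  funext p
  simp only [aW]
  split_ifs with h
  · rw [e _ _ h.2.2.1 h.2.2.2.1 h.2.2.2.2]
  · rfl

theorem aS_supp {φ : M2 → M2 → ℂ} {n r j : ℚ} (h : aS s n r j φ ≠ 0) : 0 < j ∧ r ^ 2 < 4 * n * j ∧
    ∃ Y Z : M2, Y.det = n ∧ bil Y Z = r ∧ Z.det = j ∧ φ Y Z ≠ 0 := by
  obtain ⟨p, hp⟩ := dmean_ne h
  have h1 : Cnd n r j p := by
    by_contra h1
    exact hp (aW_neg h1 φ)
  rw [aW_pos h1] at hp
  exact ⟨h1.1, h1.2.1, _, _, h1.2.2.1, h1.2.2.2.1, h1.2.2.2.2, left_ne_zero_of_mul hp⟩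

namespace CycP

theorem det_comb (a b : ℚ) (Y Z : M2) :
    (a • Y + b • Z).det = a ^ 2 * Y.det + a * b * bil Y Z + b ^ 2 * Z.det := by
  simp [Matrix.det_fin_two, bil]; ring

theorem bil_comb (a b c d : ℚ) (Y Z : M2) : bil (a • Y + b • Z) (c • Y + d • Z) =
    2 * a * c * Y.det + (a * d + b * c) * bil Y Z + 2 * b * d * Z.det := by
  simp [Matrix.det_fin_two, bil]; ring

theorem form_pos {n r j a b : ℚ} (hj : 0 < j) (h : r ^ 2 < 4 * n * j) (hab : a ≠ 0 ∨ b ≠ 0) :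
    0 < a ^ 2 * n + a * b * r + b ^ 2 * j := by
  have key : 4 * j * (a ^ 2 * n + a * b * r + b ^ 2 * j) =
      (a * r + 2 * b * j) ^ 2 + a ^ 2 * (4 * n * j - r ^ 2) := by ring
  have h1 : 0 < (a * r + 2 * b * j) ^ 2 + a ^ 2 * (4 * n * j - r ^ 2) := by
    by_cases ha : a = 0
    · have hb : b ≠ 0 := by tauto
      rw [ha]
      have : 0 < (0 * r + 2 * b * j) ^ 2 := by rw [zero_mul, zero_add]; positivity
      linarith
    · have : 0 < a ^ 2 * (4 * n * j - r ^ 2) := mul_pos (by positivity) (by linarith)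
      linarith [sq_nonneg (a * r + 2 * b * j)]
  rw [← key] at h1
  exact (mul_pos_iff_of_pos_left (by positivity)).1 h1

/-- the linear substitution on pairs -/
def sub2 (a b c d : ℚ) (p : GQ × GQ) : GQ × GQ :=
  (toG (a • p.1.1 + b • p.2.1), toG (c • p.1.1 + d • p.2.1))

theorem sub2_spec {a b c d : ℚ} (hd : a * d - b * c ≠ 0) {n r j : ℚ} {p : GQ × GQ}
    (h : Cnd n r j p) : (sub2 a b c d p).1.1 = a • p.1.1 + b • p.2.1 ∧
      (sub2 a b c d p).2.1 = c • p.1.1 + d • p.2.1 ∧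
      Cnd (a ^ 2 * n + a * b * r + b ^ 2 * j) (2 * a * c * n + (a * d + b * c) * r + 2 * b * d * j)
        (c ^ 2 * n + c * d * r + d ^ 2 * j) (sub2 a b c d p) := by
  obtain ⟨h1, h2, h3, h4, h5⟩ := h
  have p1 := form_pos (a := a) (b := b) h1 h2 (by
    by_contra h; push Not at h; exact hd (by rw [h.1, h.2]; ring))
  have p2 := form_pos (a := c) (b := d) h1 h2 (by
    by_contra h; push Not at h; exact hd (by rw [h.1, h.2]; ring))
  have e1 : (sub2 a b c d p).1.1 = a • p.1.1 + b • p.2.1 :=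
    toG_val (by rw [det_comb, h3, h4, h5]; exact p1.ne')
  have e2 : (sub2 a b c d p).2.1 = c • p.1.1 + d • p.2.1 :=
    toG_val (by rw [det_comb, h3, h4, h5]; exact p2.ne')
  refine ⟨e1, e2, p2, ?_, by rw [e1, det_comb, h3, h4, h5], by rw [e1, e2, bil_comb, h3, h4, h5],
    by rw [e2, det_comb, h3, h4, h5]⟩
  have : 0 < (a * d - b * c) ^ 2 * (4 * n * j - r ^ 2) := mul_pos (by positivity) (by linarith)
  nlinarith

theorem act_comb {Y Z : M2} (hY : 0 < Y.det) (hZ : 0 < Z.det) {a b : ℚ}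
    (h : 0 < (a • Y + b • Z).det) {τ σ : ℍ} (h1 : act Y τ = σ) (h2 : act Z τ = σ) :
    act (a • Y + b • Z) τ = σ := by
  rw [act_eq_iff hY] at h1
  rw [act_eq_iff hZ] at h2
  rw [act_eq_iff h]
  simp only [Matrix.add_apply, Matrix.smul_apply, smul_eq_mul]
  push_cast
  linear_combination (a : ℂ) * h1 + (b : ℂ) * h2

end CycP

/-- symmetry under `GL(2, ℚ)` -/
theorem aS_gl2 {a b c d : ℚ} (hd : a * d - b * c ≠ 0) (φ : M2 → M2 → ℂ) (n r j : ℚ) :
    aS s (a ^ 2 * n + a * b * r + b ^ 2 * j) (2 * a * c * n + (a * d + b * c) * r + 2 * b * d * j)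
      (c ^ 2 * n + c * d * r + d ^ 2 * j) φ =
    aS s n r j fun Y Z => φ (a • Y + b • Z) (c • Y + d • Z) := by
  have hinv : ∀ γ ∈ GG0, ∀ p : GQ × GQ, Cnd n r j p → Cnd n r j (pairA γ p) := by
    intro γ hγ p hp
    have := (cnd_act γ one_pos (by rw [((mem_G0 _).1 hγ.1).2, ((mem_G0 _).1 hγ.2).2, one_mul])
      n r j p).2 hp
    simpa using this
  refine (dmean_bij {p | Cnd n r j p} {p | Cnd (a ^ 2 * n + a * b * r + b ^ 2 * j)
    (2 * a * c * n + (a * d + b * c) * r + 2 * b * d * j) (c ^ 2 * n + c * d * r + d ^ 2 * j) p}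
    (sub2 a b c d) hinv ⟨fun p hp => (sub2_spec hd hp).2.2, ?_, ?_⟩ ?_ ?_ ?_ ?_).2.symm
  · intro p hp q hq e
    have e1 := (sub2_spec hd hp).1
    have e2 := (sub2_spec hd hp).2.1
    rw [e, (sub2_spec hd hq).1] at e1
    rw [e, (sub2_spec hd hq).2.1] at e2
    refine Prod.ext (Units.ext ?_) (Units.ext ?_)
    · apply smul_right_injective M2 hd
      show (a * d - b * c) • p.1.1 = (a * d - b * c) • q.1.1
      linear_combination (norm := module) (-d) • e1 + b • e2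
    · apply smul_right_injective M2 hd
      show (a * d - b * c) • p.2.1 = (a * d - b * c) • q.2.1
      linear_combination (norm := module) c • e1 - a • e2
  · intro q hq
    set D := a * d - b * c with hD
    have hd' : d / D * (a / D) - -b / D * (-c / D) ≠ 0 := by
      rw [show d / D * (a / D) - -b / D * (-c / D) = (a * d - b * c) / D ^ 2 by ring_nf]
      positivity
    obtain ⟨e1, e2, h3⟩ := sub2_spec hd' hq
    have h4 : Cnd n r j (sub2 (d / D) (-b / D) (-c / D) (a / D) q) := by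
      convert h3 using 1 <;> field_simp <;> rw [hD] <;> ring
    refine ⟨_, h4, Prod.ext (Units.ext ?_) (Units.ext ?_)⟩
    · rw [(sub2_spec hd h4).1, e1, e2]
      have : q.1.1 = (a * (d / D) + b * (-c / D)) • q.1.1 + (a * (-b / D) + b * (a / D)) • q.2.1 := by
        rw [show a * (d / D) + b * (-c / D) = 1 by field_simp; rw [hD]; ring,
          show a * (-b / D) + b * (a / D) = 0 by ring]; simp
      conv_rhs => rw [this]
      module
    · rw [(sub2_spec hd h4).2.1, e1, e2]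
      have : q.2.1 = (c * (d / D) + d * (-c / D)) • q.1.1 + (c * (-b / D) + d * (a / D)) • q.2.1 := by
        rw [show c * (-b / D) + d * (a / D) = 1 by field_simp; rw [hD]; ring,
          show c * (d / D) + d * (-c / D) = 0 by ring]; simp
      conv_rhs => rw [this]
      module
  · intro γ hγ p hp
    have h1 := sub2_spec hd hp
    have h2 := sub2_spec hd (hinv γ hγ p hp)
    refine Prod.ext (Units.ext ?_) (Units.ext ?_)
    · rw [h2.1]
      simp only [pairA_eq, Units.val_mul, h1.1, mul_add, add_mul, mul_smul_comm, smul_mul_assoc]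
    · rw [h2.2.1]
      simp only [pairA_eq, Units.val_mul, h1.2.1, mul_add, add_mul, mul_smul_comm, smul_mul_assoc]
  · intro p hp
    by_contra h
    exact hp (aW_neg h _)
  · intro p hp
    by_contra h
    exact hp (aW_neg h _)
  · intro p hp
    have hp' : Cnd n r j p := hp
    obtain ⟨e1, e2, h3⟩ := sub2_spec hd hp'
    have z1 := (hp'.fix_iff _).2 rfl
    have d1 : 0 < p.1.1.det := hp'.2.2.1 ▸ npos hp'.1 hp'.2.1
    have d2 : 0 < p.2.1.det := hp'.2.2.2.2 ▸ hp'.1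
    have a1 : actH (sub2 a b c d p).1 (fix (p.2⁻¹ * p.1).1) = actH p.2 (fix (p.2⁻¹ * p.1).1) := by
      rw [← act_val, e1]
      refine act_comb d1 d2 ?_ ((act_val _ _).trans z1) (act_val _ _)
      rw [← e1, h3.2.2.1]; exact npos h3.1 h3.2.1
    have a2 : actH (sub2 a b c d p).2 (fix (p.2⁻¹ * p.1).1) = actH p.2 (fix (p.2⁻¹ * p.1).1) := by
      rw [← act_val, e2]
      refine act_comb d1 d2 ?_ ((act_val _ _).trans z1) (act_val _ _)
      rw [← e2, h3.2.2.2.2]; exact h3.1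
    rw [aW_pos hp', aW_pos h3, ← (h3.fix_iff _).1 (a1.trans a2.symm), a2, e1, e2]

/-- translation by `(g, g')` -/
theorem aS_act (g g' : GQ) (hg : 0 < g.1.det) (hg' : 0 < g'.1.det) (φ : M2 → M2 → ℂ) (n r j : ℚ) :
    aS (fun τ σ => s (actH g τ) (actH g' σ)) n r j
      (fun Y Z => φ (g'.1 * Y * (g⁻¹).1) (g'.1 * Z * (g⁻¹).1)) =
    aS s (g'.1.det / g.1.det * n) (g'.1.det / g.1.det * r) (g'.1.det / g.1.det * j) φ := by
  unfold aS
  rw [← dmean_act uni_GG0 (aW s _ _ _ φ) (g, g')]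
  congr 1
  funext p
  exact (aW_act (g, g') (div_pos hg' hg) (by field_simp) φ n r j p).symm

/-- reduction to `gam` -/
theorem aS_red (hN : 0 < N) (hM : 0 < M) {j : ℚ} (hj : 0 < j) : ∃ (R : Finset GQ) (c : ℝ), 0 < c ∧
    (∀ y ∈ R, y.1.det = j) ∧ ∀ s, LevS N s → ∀ φ : M2 → M2 → ℂ, Lev M (unc φ) → ∀ n r : ℚ,
      aS s n r j φ = c * ∑ y ∈ R, gam (fun τ => s τ (actH y τ))
        (fun Y => φ (y.1 * (tz Y + (r / (2 * j)) • (1 : M2))) y.1)
        (n / j - r ^ 2 / (4 * j ^ 2)) := by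
  have hK : 0 < N * M ^ 2 := by positivity
  obtain ⟨R, h1, h2, -⟩ := exists_left_reps hK hM j hj
  have hi := index_ne hK
  refine ⟨R, ((Gamma (N * M ^ 2)).index : ℝ)⁻¹,
    inv_pos.2 (by exact_mod_cast Nat.pos_of_ne_zero (by exact_mod_cast hi)),
    fun y hy => (h1 y hy).1, fun s hs φ h n r => ?_⟩
  unfold aS
  rw [(aW_red hK hM R h2 (aW_inv' hs h n r j) (aW_supp h)).2, div_eq_inv_mul]
  push_cast
  congr 1
  refine Finset.sum_congr rfl fun y hy => ?_
  rw [show n / j - r ^ 2 / (4 * j ^ 2) = n / j - (r / (2 * j)) ^ 2 by ring,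
    (shift_lemma (fun τ => s τ (actH y τ)) (fun X => φ (y.1 * X) y.1) (n / j) (r / (2 * j))).2]
  congr 1
  funext X
  have e := cnd_slice (n := n) (r := r) hj (h1 y hy).1 X
  unfold slW
  by_cases h : Cnd n r j (y * X, y)
  · rw [aW_pos h, if_pos (e.1 h)]; simp
  · rw [aW_neg h, if_neg (mt e.2 h)]

end

end Pool.Agent.P.MP_b8021b_nt.CM
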