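import Pool.Agent.P.MP_b8021b_nt.CM.SB
import Pool.Agent.P.MP_b8021b_nt.CM.Arith

/-! Library L9, part 0: levels. -/

namespace Pool.Agent.P.MP_b8021b_nt.CM

open UpperHalfPlane hiding I
open CongruenceSubgroup Function
open scoped MatrixGroups Modular

noncomputable section

variable {u u' : ℍ → ℂ} {s s' : ℍ → ℍ → ℂ} {M N : ℕ}

/-- `u` has some level -/
def HasLev (u : ℍ → ℂ) : Prop := ∃ N, 0 < N ∧ LevU N u

def HasLevS (s : ℍ → ℍ → ℂ) : Prop := ∃ N, 0 < N ∧ LevS N s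

theorem HasLev.add (h : HasLev u) (h' : HasLev u') : HasLev (u + u') := by
  obtain ⟨N, hN, h⟩ := h
  obtain ⟨N', hN', h'⟩ := h'
  refine ⟨N * N', Nat.mul_pos hN hN', fun γ hγ τ => ?_⟩
  simp only [Pi.add_apply]
  rw [h.mono (dvd_mul_right N N') γ hγ, h'.mono (dvd_mul_left N' N) γ hγ]

theorem HasLev.smul (c : ℂ) (h : HasLev u) : HasLev (c • u) := by
  obtain ⟨N, hN, h⟩ := h
  exact ⟨N, hN, fun γ hγ τ => by simp only [Pi.smul_apply]; rw [h γ hγ]⟩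

theorem HasLev.comp_act (h : HasLev u) (g : GQ) : HasLev fun τ => u (actH g τ) := by
  obtain ⟨N, hN, h⟩ := h
  obtain ⟨K, hK, -, h'⟩ := LevU.comp_act hN g
  exact ⟨K, hK, h' u h⟩

theorem LevS.mono (h : LevS M s) (hd : M ∣ N) : LevS N s :=
  ⟨fun σ => (h.1 σ).mono hd, fun τ => (h.2 τ).mono hd⟩

theorem LevS.add (h : LevS N s) (h' : LevS N s') : LevS N (s + s') :=
  ⟨fun σ γ hγ τ => congrArg₂ (· + ·) (h.1 σ γ hγ τ) (h'.1 σ γ hγ τ),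
    fun τ γ hγ σ => congrArg₂ (· + ·) (h.2 τ γ hγ σ) (h'.2 τ γ hγ σ)⟩

theorem LevS.smul (c : ℂ) (h : LevS N s) : LevS N (c • s) :=
  ⟨fun σ γ hγ τ => congrArg (c • ·) (h.1 σ γ hγ τ),
    fun τ γ hγ σ => congrArg (c • ·) (h.2 τ γ hγ σ)⟩

theorem HasLevS.comp_act (h : HasLevS s) (g g' : GQ) :
    HasLevS fun τ σ => s (actH g τ) (actH g' σ) := by
  obtain ⟨N, hN, h⟩ := h
  obtain ⟨K, hK, -, h1⟩ := LevU.comp_act hN g
  obtain ⟨K', hK', -, h2⟩ := LevU.comp_act hN g'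
  exact ⟨K * K', Nat.mul_pos hK hK',
    fun σ => (h1 _ (h.1 (actH g' σ))).mono (dvd_mul_right K K'),
    fun τ => (h2 _ (h.2 (actH g τ))).mono (dvd_mul_left K' K)⟩

theorem HasLevS.graph (h : HasLevS s) (g : GQ) : HasLev fun τ => s τ (actH g τ) := by
  obtain ⟨N, hN, h⟩ := h
  obtain ⟨K, hK, hd, h1⟩ := LevU.comp_act hN g
  refine ⟨K, hK, fun γ hγ τ => ?_⟩
  exact ((h.1 _).mono hd γ hγ τ).trans (h1 _ (h.2 τ) γ hγ τ)

namespace CycP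

theorem castZ_one : castZ 1 = 1 := by
  ext i j; fin_cases i <;> fin_cases j <;> simp [castZ]

theorem Gam_le_G0 (K : ℕ) : Gam K ≤ G0 := Gam_one ▸ Gam_le (one_dvd K)

theorem isInt_mul {Y Z : M2} (h : IsInt Y) (h' : IsInt Z) : IsInt (Y * Z) := by
  obtain ⟨A, rfl⟩ := (isInt_M2 Y).1 h
  obtain ⟨B, rfl⟩ := (isInt_M2 Z).1 h'
  exact (isInt_M2 _).2 ⟨A * B, castZ_mul A B⟩

theorem Gam_eq {K : ℕ} {γ : GQ} (h : γ ∈ Gam K) : ∃ A : M2, IsInt A ∧ γ.1 = 1 + (K : ℚ) • A := by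
  obtain ⟨δ, hδ, rfl⟩ := h
  have h1 : red K δ.1 = red K 1 := by
    rw [(mem_Gamma_iff_red K δ).1 hδ]
    ext i j; fin_cases i <;> fin_cases j <;> simp [red]
  obtain ⟨A, hA⟩ := (red_eq_iff K _ _).1 h1
  refine ⟨castZ A, (isInt_M2 _).2 ⟨A, rfl⟩, ?_⟩
  rw [iota_val, hA, castZ_add, castZ_smul, castZ_one]; simp

theorem int_mul3 {c : ℚ} {γ δ : GQ} (hγ : γ ∈ G0) (hδ : δ ∈ G0) {Y : M2} (h : IsInt (c • Y)) :
    IsInt (c • (γ.1 * Y * δ.1)) := by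
  have := isInt_mul (isInt_mul ((mem_G0 γ).1 hγ).1 h) ((mem_G0 δ).1 hδ).1
  rwa [mul_smul_comm, smul_mul_assoc] at this

theorem int_mul3' {c : ℚ} {γ δ : GQ} (hγ : γ ∈ G0) (hδ : δ ∈ G0) {Y : M2}
    (h : IsInt (c • (γ.1 * Y * δ.1))) : IsInt (c • Y) := by
  have := int_mul3 (G0.inv_mem hγ) (G0.inv_mem hδ) h
  have e : (γ⁻¹).1 * (γ.1 * Y * δ.1) * (δ⁻¹).1 = Y := by
    rw [← mul_assoc, ← mul_assoc, Units.inv_mul, one_mul, mul_assoc, Units.mul_inv, mul_one]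
  rwa [e] at this

theorem shift_Gam {γ δ : GQ} (hγ : γ ∈ Gam (M ^ 2)) (hδ : δ ∈ Gam (M ^ 2)) {Y : M2}
    (h : IsInt ((M : ℚ) • Y)) : ∃ k, IsInt k ∧ γ.1 * Y * δ.1 = Y + (M : ℚ) • k := by
  obtain ⟨A, hA, eA⟩ := Gam_eq hγ
  obtain ⟨B, hB, eB⟩ := Gam_eq hδ
  refine ⟨A * ((M : ℚ) • Y) + ((M : ℚ) • Y) * B +
    ((M ^ 2 : ℕ) : ℚ) • (A * ((M : ℚ) • Y) * B), ?_, ?_⟩
  · exact ((isInt_mul hA h).add (isInt_mul h hB)).add
      ((isInt_mul (isInt_mul hA h) hB).nsmul _)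
  · rw [eA, eB]
    simp only [add_mul, mul_add, one_mul, mul_one, smul_mul_assoc, mul_smul_comm, smul_add,
      smul_smul]
    push_cast
    module

theorem lev_eq {W : Type} [AddCommGroup W] [Module ℚ W] [Lat W] {φ : W → ℂ} (h : Lev M φ)
    {x y : W} (h1 : IsInt ((M : ℚ) • x) → ∃ k, IsInt k ∧ y = x + (M : ℚ) • k)
    (h2 : IsInt ((M : ℚ) • y) → IsInt ((M : ℚ) • x)) : φ y = φ x := by
  by_cases hx : IsInt ((M : ℚ) • x)
  · obtain ⟨k, hk, rfl⟩ := h1 hx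
    exact h.1 x k hk
  · have e1 : φ x = 0 := by by_contra h0; exact hx (h.2 x h0)
    have e2 : φ y = 0 := by by_contra h0; exact hx (h2 (h.2 y h0))
    rw [e1, e2]

theorem tz_smul (c : ℚ) (Y : Q3) : tz (c • Y) = c • tz Y := by
  ext i j; fin_cases i <;> fin_cases j <;> simp [tz]

theorem tz_add (Y Z : Q3) : tz (Y + Z) = tz Y + tz Z := by
  ext i j; fin_cases i <;> fin_cases j <;> simp [tz, add_comm]

theorem co_smul (c : ℚ) (Y : M2) : co (c • Y) = c • co Y := by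
  simp [co]

theorem co_add (Y Z : M2) : co (Y + Z) = co Y + co Z := by
  simp [co, add_comm]

theorem isInt_co {Y : M2} (h : IsInt Y) : IsInt (co Y) := by
  rw [isInt_M2'] at h
  exact (isInt_prod _).2 ⟨h 0 1, (isInt_prod _).2 ⟨h 0 0, (h 1 0).neg⟩⟩

theorem isInt_tz {Y : Q3} (h : IsInt Y) : IsInt (tz Y) := by
  obtain ⟨h1, h2⟩ := (isInt_prod _).1 h
  obtain ⟨h2, h3⟩ := (isInt_prod _).1 h2
  rw [isInt_M2']
  intro i j
  fin_cases i <;> fin_cases j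
  exacts [h2, h1, h3.neg, h2.neg]

theorem trace_conj (g : GQ) (Y : M2) : (g.1 * Y * (g⁻¹).1).trace = Y.trace :=
  Matrix.trace_units_conj g Y

theorem det_conj (g : GQ) (Y : M2) : (g.1 * Y * (g⁻¹).1).det = Y.det :=
  Matrix.det_units_conj g Y

theorem det_ne (g : GQ) : g.1.det ≠ 0 := (Matrix.isUnits_det_units g).ne_zero

theorem det_inv (g : GQ) : (g⁻¹).1.det = (g.1.det)⁻¹ := by
  apply eq_inv_of_mul_eq_one_left
  rw [← Matrix.det_mul, Units.inv_mul, Matrix.det_one]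

theorem det_smul2 (c : ℚ) (Y : M2) : (c • Y).det = c ^ 2 * Y.det := by
  rw [Matrix.det_smul]; simp

theorem index_ne {K : ℕ} (hK : 0 < K) : ((Gamma K).index : ℂ) ≠ 0 := by
  rw [← relIndex_Gam]; exact_mod_cast (fi_Gam hK).2

theorem levU_act (hu : LevU N u) {γ : GQ} (h : γ ∈ Gam N) (τ : ℍ) : u (actH γ τ) = u τ :=
  (levU_iff N u).1 hu γ h τ

theorem actH_neg (g : GQ) (τ : ℍ) : actH (-g) τ = actH g τ := by
  rw [← act_val, ← act_val, Units.val_neg, ← neg_one_smul ℚ, act_smul (by norm_num)]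

theorem actH_mul (g h : GQ) (τ : ℍ) : actH (g * h) τ = actH g (actH h τ) := by
  rw [map_mul]; rfl

theorem finsum_inj {A B : Type} {ι : A → B} (hι : Injective ι) {F : B → ℂ}
    (h : ∀ b, F b ≠ 0 → b ∈ Set.range ι) :
    ∑ᶠ b, F b = ∑ᶠ a, F (ι a) ∧ ((support fun a => F (ι a)).Finite → (support F).Finite) := by
  constructor
  · rw [← finsum_mem_range hι, ← finsum_mem_univ]
    refine finsum_mem_inter_support_eq' _ _ _ fun x hx => ?_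
    simp only [Set.mem_univ, true_iff]
    exact h x hx
  · intro hf
    refine (hf.image ι).subset fun b hb => ?_
    obtain ⟨a, rfl⟩ := h b hb
    exact ⟨a, hb, rfl⟩

theorem dmean_ne {G X : Type} [Group G] {ρ : G →* Equiv.Perm X} {Γ0 : Subgroup G} {w : X → ℂ}
    (h : dmean ρ Γ0 w ≠ 0) : ∃ x, w x ≠ 0 := by
  by_contra h0
  push Not at h0
  exact h (by rw [show w = 0 from funext h0, dmean_zero])

end CycP

open CycP

/-- functions of level `M` on matrices are invariant under `Γ(M²)` on both sides -/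
theorem Lev.mul_Gam {φ : M2 → ℂ} (h : Lev M φ) {γ δ : GQ} (hγ : γ ∈ Gam (M ^ 2))
    (hδ : δ ∈ Gam (M ^ 2)) (Y : M2) : φ (γ.1 * Y * δ.1) = φ Y :=
  lev_eq h (shift_Gam hγ hδ) (int_mul3' (Gam_le_G0 _ hγ) (Gam_le_G0 _ hδ))

theorem Lev.mul_Gam2 {φ : M2 → M2 → ℂ} (h : Lev M (unc φ)) {γ δ : GQ} (hγ : γ ∈ Gam (M ^ 2))
    (hδ : δ ∈ Gam (M ^ 2)) (Y Z : M2) : φ (γ.1 * Y * δ.1) (γ.1 * Z * δ.1) = φ Y Z :=
  ((h.fst _).mul_Gam hγ hδ Y).trans ((h.snd Y).mul_Gam hγ hδ Z)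

theorem Lev.conj_Gam {ω : Q3 → ℂ} (h : Lev M ω) {γ : GQ} (hγ : γ ∈ Gam (M ^ 2)) (Y : Q3) :
    ω (co (γ.1 * tz Y * (γ⁻¹).1)) = ω Y := by
  have hγ' := (Gam (M ^ 2)).inv_mem hγ
  refine lev_eq h (fun h1 => ?_) fun h1 => ?_
  · obtain ⟨k, hk, e⟩ := shift_Gam hγ hγ' (Y := tz Y) (by rw [← tz_smul]; exact isInt_tz h1)
    exact ⟨co k, isInt_co hk, by rw [e, co_add, co_smul, co_tz]⟩
  · have h2 := isInt_tz h1
    rw [tz_smul, tz_co (by rw [trace_conj, trace_tz])] at h2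
    have h3 := isInt_co (int_mul3' (Gam_le_G0 _ hγ) (Gam_le_G0 _ hγ') h2)
    rwa [co_smul, co_tz] at h3

theorem SB.conj {ω : Q3 → ℂ} (h : SB ω) (g : GQ) :
    SB fun Y => ω (co (g.1 * tz Y * (g⁻¹).1)) := by
  let L : Q3 →ₗ[ℚ] Q3 :=
    { toFun := fun Y => co (g.1 * tz Y * (g⁻¹).1)
      map_add' := fun Y Z => by rw [tz_add, mul_add, add_mul, co_add]
      map_smul' := fun c Y => by rw [tz_smul, mul_smul_comm, smul_mul_assoc, co_smul]; rfl }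
  refine h.comp_inj L fun Y Z e => ?_
  have e1 : co (g.1 * tz Y * (g⁻¹).1) = co (g.1 * tz Z * (g⁻¹).1) := e
  have e2 := congrArg tz e1
  rw [tz_co (by rw [trace_conj, trace_tz]), tz_co (by rw [trace_conj, trace_tz]),
    Units.mul_left_inj, Units.mul_right_inj] at e2
  rw [← co_tz Y, e2, co_tz]

theorem ind_castZ (μ : R2 N) (Z : Z2) : ind N μ (castZ Z) = if red N Z = μ then 1 else 0 := by
  unfold ind
  congr 1
  exact propext ⟨fun ⟨Z', h1, h2⟩ => castZ_injective h1 ▸ h2, fun h => ⟨Z, rfl, h⟩⟩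

theorem CycP.ind_of_not (μ : R2 N) {Y : M2} (h : ¬ IsInt Y) : ind N μ Y = 0 := by
  unfold ind
  rw [if_neg]
  rintro ⟨Z, h1, -⟩
  exact h ((isInt_M2 Y).2 ⟨Z, h1⟩)

theorem lev_ind (hN : 0 < N) (μ : R2 N) : Lev N (ind N μ) := by
  have _ := hN
  refine ⟨fun x k hk => ?_, fun x hx => ?_⟩
  · by_cases hx : IsInt x
    · obtain ⟨Z, rfl⟩ := (isInt_M2 x).1 hx
      obtain ⟨K, rfl⟩ := (isInt_M2 k).1 hk
      have e : castZ Z + (N : ℚ) • castZ K = castZ (Z + (N : ℤ) • K) := by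
        rw [castZ_add, castZ_smul]; simp
      rw [e, ind_castZ, ind_castZ, (red_eq_iff N _ _).2 ⟨K, rfl⟩]
    · rw [ind_of_not μ hx, ind_of_not μ fun h => hx ?_]
      simpa using h.sub (hk.nsmul N)
  · refine IsInt.nsmul ?_ N
    by_contra h
    exact hx (ind_of_not μ h)

theorem CycP.ind_mul_Gam (μ : R2 N) {γ δ : GQ} (hγ : γ ∈ Gam N) (hδ : δ ∈ Gam N) (Y : M2) :
    ind N μ (γ.1 * Y * δ.1) = ind N μ Y := by
  by_cases hY : IsInt Y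
  · obtain ⟨Z, rfl⟩ := (isInt_M2 Y).1 hY
    obtain ⟨γ, hγ, rfl⟩ := hγ
    obtain ⟨δ, hδ, rfl⟩ := hδ
    rw [iota_val, iota_val, ← castZ_mul, ← castZ_mul, ind_castZ, ind_castZ, red_mul, red_mul,
      (mem_Gamma_iff_red N γ).1 hγ, (mem_Gamma_iff_red N δ).1 hδ, one_mul, mul_one]
  · rw [ind_of_not μ hY, ind_of_not μ fun h => hY ?_]
    simpa using int_mul3' (c := 1) (Gam_le_G0 _ hγ) (Gam_le_G0 _ hδ) (Y := Y) (by simpa using h)

theorem liftZ_castZ (hM : 0 < M) (c : Z2 → ℂ) (Z : Z2) :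
    liftZ M c ((M : ℚ)⁻¹ • castZ Z) = c Z := by
  have h0 : (M : ℚ) ≠ 0 := by exact_mod_cast hM.ne'
  have e : (M : ℚ) • ((M : ℚ)⁻¹ • castZ Z) = castZ Z := smul_inv_smul₀ h0 _
  have h : ∃ Z' : Z2, castZ Z' = (M : ℚ) • ((M : ℚ)⁻¹ • castZ Z) := ⟨Z, e.symm⟩
  unfold liftZ
  rw [dif_pos h, castZ_injective (h.choose_spec.trans e)]

theorem lev_liftZ (hM : 0 < M) (c : R2 (M ^ 2) → ℂ) :
    Lev M (liftZ M fun Z => c (red (M ^ 2) Z)) := by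
  have h0 : (M : ℚ) ≠ 0 := by exact_mod_cast hM.ne'
  have hz : ∀ x : M2, ¬ IsInt ((M : ℚ) • x) → liftZ M (fun Z => c (red (M ^ 2) Z)) x = 0 := by
    intro x hx
    unfold liftZ
    rw [dif_neg fun h => hx ((isInt_M2 _).2 h)]
  refine ⟨fun x k hk => ?_, fun x hx => by by_contra h; exact hx (hz x h)⟩
  by_cases hx : IsInt ((M : ℚ) • x)
  · obtain ⟨Z, hZ⟩ := (isInt_M2 _).1 hx
    obtain ⟨K, rfl⟩ := (isInt_M2 k).1 hk
    have e1 : x = (M : ℚ)⁻¹ • castZ Z := by rw [hZ, inv_smul_smul₀ h0]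
    have e2 : x + (M : ℚ) • castZ K = (M : ℚ)⁻¹ • castZ (Z + ((M ^ 2 : ℕ) : ℤ) • K) := by
      rw [castZ_add, castZ_smul, smul_add, ← e1, smul_smul]
      congr 2
      push_cast
      field_simp
    rw [e2, liftZ_castZ hM]
    conv_rhs => rw [e1, liftZ_castZ hM]
    rw [(red_eq_iff (M ^ 2) _ _).2 ⟨K, rfl⟩]
  · rw [hz x hx, hz _ fun h => hx ?_]
    simpa [smul_add] using h.sub ((hk.nsmul M).nsmul M)

end

end Pool.Agent.P.MP_b8021b_nt.CM
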