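import Pool.Agent.P.MP_b8021b_nt.CM.Cyc0

/-! Library L9, part 1: the sums `G1` and `gam`. -/

namespace Pool.Agent.P.MP_b8021b_nt.CM

open UpperHalfPlane hiding I
open CongruenceSubgroup Function
open scoped MatrixGroups Modular

noncomputable section

variable {u u' : ℍ → ℂ} {M N : ℕ}

namespace CycP

theorem conjA_val (g Y : GQ) : (conjA g Y).1 = g.1 * Y.1 * (g⁻¹).1 := rfl

theorem conjA_eq (g Y : GQ) : conjA g Y = g * Y * g⁻¹ := rfl

theorem fin_ell (R : Finset SL) (hM : 0 < M) (n : ℚ) :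
    {Y : GQ | IsInt ((M : ℚ) • Y.1) ∧ Y.1.det ≤ n ∧ Ell Y.1 ∧
      ∃ r ∈ R, r • fix Y.1 ∈ 𝒟}.Finite := by
  have h0 : {Y : GQ | IsInt ((M : ℚ) • Y.1) ∧ Y.1.det ≤ n ∧ Ell Y.1 ∧ fix Y.1 ∈ 𝒟}.Finite :=
    (finite_ell M hM n).preimage (f := fun Y : GQ => Y.1) Units.val_injective.injOn
  refine (R.finite_toSet.biUnion fun r _ =>
    h0.preimage (f := conjA (iota r)) (conjA (iota r)).injective.injOn).subset ?_
  rintro Y ⟨h1, h2, h3, r, hr, h4⟩
  refine Set.mem_biUnion hr ?_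
  have hg : iota r ∈ G0 := ⟨r, rfl⟩
  refine ⟨?_, ?_, ?_, ?_⟩
  · exact int_mul3 hg (G0.inv_mem hg) h1
  · rw [conjA_val, det_conj]; exact h2
  · exact (ell_conj _ _).2 h3
  · rw [conjA_val, h3.fix_conj, actH_iota]; exact h4

/-- a complex weight on the upper half plane -/
def WtH (Γ : Subgroup GQ) (β : ℍ → ℂ) : Prop :=
  (∃ R : Finset SL, ∀ τ, β τ ≠ 0 → ∃ r ∈ R, r • τ ∈ 𝒟) ∧
    ∀ τ, (support fun γ : Γ => β (actH γ τ)).Finite ∧ ∑ᶠ γ : Γ, β (actH γ τ) = 1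

theorem exists_WtH {Γ : Subgroup GQ} (h : FI Γ G0) : ∃ β, WtH Γ β := by
  obtain ⟨R, β, -, -, h1, -, h2⟩ := exists_wtH h
  refine ⟨fun τ => (β τ : ℂ), ⟨R, fun τ hτ => ?_⟩, fun τ => ⟨?_, ?_⟩⟩
  · have : β τ ≠ 0 := by simpa using hτ
    rw [h1] at this
    obtain ⟨r, hr, h0⟩ := Finset.exists_ne_zero_of_sum_ne_zero this
    exact ⟨r, hr, (b0_ne_zero_iff _).1 h0⟩
  · refine (h2 τ).1.subset fun γ hγ => ?_
    simpa using hγ
  · have := Complex.ofRealHom.toAddMonoidHom.map_finsum (h2 τ).1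
    rw [(h2 τ).2] at this
    simpa using this.symm

theorem conj_adm {Γ : Subgroup GQ} {β : ℍ → ℂ} {w : GQ → ℂ} (hΓ : FI Γ G0) (hβ : WtH Γ β)
    (hw : Inv conjA Γ w) (hM : 0 < M) {n : ℚ}
    (hs : ∀ Y, w Y ≠ 0 → IsInt ((M : ℚ) • Y.1) ∧ Y.1.det ≤ n ∧ Ell Y.1) :
    DAdm conjA G0 Γ (fun Y => β (fix Y.1)) w := by
  obtain ⟨⟨R, hR⟩, hβ⟩ := hβ
  refine ⟨hΓ, hw, fun Y hY => ?_, (fin_ell R hM n).subset fun Y hY => ?_⟩
  · have h3 := (hs Y hY).2.2
    simp only [conjA_val, h3.fix_conj]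
    exact hβ _
  · have h1 := mul_ne_zero_iff.1 hY
    obtain ⟨h2, h3, h4⟩ := hs Y h1.2
    exact ⟨h2, h3, h4, hR _ h1.1⟩

theorem conj_good {Γ : Subgroup GQ} {w : GQ → ℂ} (hΓ : FI Γ G0)
    (hw : Inv conjA Γ w) (hM : 0 < M) {n : ℚ}
    (hs : ∀ Y, w Y ≠ 0 → IsInt ((M : ℚ) • Y.1) ∧ Y.1.det ≤ n ∧ Ell Y.1) : DGood conjA G0 w := by
  obtain ⟨β, hβ⟩ := exists_WtH hΓ
  exact ⟨⟨Γ, _⟩, conj_adm hΓ hβ hw hM hs⟩

theorem ell_of_tz {Y : M2} {m : ℚ} (hm : 0 < m) (h1 : Y.trace = 0) (h2 : Y.det = m) : Ell Y := by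
  unfold Ell; rw [h1, h2]; linarith

theorem det_shift (Y : M2) (a : ℚ) : (Y + a • (1 : M2)).det = Y.det + a * Y.trace + a ^ 2 := by
  simp [Matrix.det_fin_two, Matrix.trace_fin_two]; ring

theorem trace_shift (Y : M2) (a : ℚ) : (Y + a • (1 : M2)).trace = Y.trace + 2 * a := by
  simp [Matrix.trace_fin_two]; ring

theorem gamW_conj (g : GQ) (ω : Q3 → ℂ) (m : ℚ) (Y : GQ) :
    gamW u ω m (conjA g Y) =
      gamW (fun τ => u (actH g τ)) (fun Y => ω (co (g.1 * tz Y * (g⁻¹).1))) m Y := by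
  unfold gamW
  rw [conjA_val, trace_conj, det_conj]
  split_ifs with h
  · simp only [(ell_of_tz h.1 h.2.1 h.2.2).fix_conj, tz_co h.2.1]
  · rfl

open Classical in
/-- the slice with given trace -/
def slW (u : ℍ → ℂ) (Φ : M2 → ℂ) (n a : ℚ) (X : GQ) : ℂ :=
  if a ^ 2 < n ∧ X.1.trace = 2 * a ∧ X.1.det = n then Φ X.1 * u (fix X.1) else 0

theorem shift_lemma (u : ℍ → ℂ) (Φ : M2 → ℂ) (n a : ℚ) :
    (DGood conjA G0 (gamW u (fun Y => Φ (tz Y + a • (1 : M2))) (n - a ^ 2)) ↔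
      DGood conjA G0 (slW u Φ n a)) ∧
    gam u (fun Y => Φ (tz Y + a • (1 : M2))) (n - a ^ 2) = dmean conjA G0 (slW u Φ n a) := by
  have hv : ∀ Y : GQ, (0 < n - a ^ 2 ∧ Y.1.trace = 0 ∧ Y.1.det = n - a ^ 2) →
      (toG (Y.1 + a • (1 : M2))).1 = Y.1 + a • (1 : M2) := by
    intro Y h
    apply toG_val
    rw [det_shift, h.2.1, h.2.2]
    nlinarith [sq_nonneg a, h.1]
  refine dmean_bij {Y : GQ | 0 < n - a ^ 2 ∧ Y.1.trace = 0 ∧ Y.1.det = n - a ^ 2}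
    {X : GQ | a ^ 2 < n ∧ X.1.trace = 2 * a ∧ X.1.det = n} (fun Y => toG (Y.1 + a • (1 : M2)))
    ?_ ⟨?_, ?_, ?_⟩ ?_ ?_ ?_ ?_
  · intro γ _ Y h
    exact ⟨h.1, by rw [conjA_val, trace_conj]; exact h.2.1,
      by rw [conjA_val, det_conj]; exact h.2.2⟩
  · intro Y h
    refine ⟨by linarith [h.1], ?_, ?_⟩
    · rw [hv Y h, trace_shift, h.2.1]; ring
    · rw [hv Y h, det_shift, h.2.1, h.2.2]; ring
  · intro Y h Z h' e
    have := congrArg Units.val e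
    simp only [hv Y h, hv Z h', add_left_inj] at this
    exact Units.ext this
  · intro X h
    have hd : (X.1 + (-a) • (1 : M2)).det = n - a ^ 2 := by
      rw [det_shift, h.2.1, h.2.2]; ring
    have h0 : (toG (X.1 + (-a) • (1 : M2))).1 = X.1 + (-a) • (1 : M2) :=
      toG_val (by rw [hd]; linarith [h.1])
    refine ⟨toG (X.1 + (-a) • (1 : M2)), ⟨by linarith [h.1], ?_, ?_⟩, ?_⟩
    · rw [h0, trace_shift, h.2.1]; ring
    · rw [h0, hd]
    · show toG _ = X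
      rw [h0, add_assoc, ← add_smul, neg_add_cancel, zero_smul, add_zero, toG_self]
  · intro γ _ Y h
    apply Units.ext
    rw [hv _ ⟨h.1, by rw [conjA_val, trace_conj]; exact h.2.1,
      by rw [conjA_val, det_conj]; exact h.2.2⟩, conjA_val, conjA_val, hv Y h, mul_add, add_mul,
      mul_smul_comm, smul_mul_assoc, mul_one, Units.mul_inv]
  · intro Y hY
    unfold gamW at hY
    by_contra h
    exact hY (if_neg h)
  · intro X hX
    unfold slW at hX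
    by_contra h
    exact hX (if_neg h)
  · intro Y h
    have h' : 0 < n - a ^ 2 ∧ Y.1.trace = 0 ∧ Y.1.det = n - a ^ 2 := h
    unfold gamW slW
    beta_reduce
    rw [if_pos h', hv Y h, if_pos, tz_co h.2.1]
    · have := (ell_of_tz h.1 h.2.1 h.2.2).fix_affine one_ne_zero a
      rw [one_smul] at this
      rw [this]
    · refine ⟨by linarith [h.1], ?_, ?_⟩
      · rw [trace_shift, h.2.1]; ring
      · rw [det_shift, h.2.1, h.2.2]; ring

theorem fin_sq (hM : 0 < M) (n : ℚ) : {a : ℚ | IsInt ((M : ℚ) • a) ∧ a ^ 2 < n}.Finite := by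
  have h0 : (0 : ℚ) < M := by exact_mod_cast hM
  refine ((Set.finite_Icc (-⌈M * (1 + n)⌉) ⌈M * (1 + n)⌉).image fun k : ℤ => (k : ℚ) / M).subset ?_
  rintro a ⟨h1, h2⟩
  obtain ⟨k, hk⟩ := (isInt_rat _).1 h1
  rw [smul_eq_mul] at hk
  have h3 : |a| ≤ 1 + n := by
    rw [abs_le]; constructor <;> nlinarith [sq_nonneg (a + 1), sq_nonneg (a - 1), sq_nonneg a]
  have h4 : |(k : ℚ)| ≤ ⌈M * (1 + n)⌉ := by
    rw [← hk, abs_mul, abs_of_pos h0]
    exact (mul_le_mul_of_nonneg_left h3 h0.le).trans (Int.le_ceil _)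
  refine ⟨k, ?_, by show (k : ℚ) / M = a; rw [← hk]; field_simp⟩
  rw [abs_le] at h4
  exact ⟨by exact_mod_cast h4.1, by exact_mod_cast h4.2⟩

end CycP

open CycP

theorem g1W_good (hu : HasLev u) {φ : M2 → ℂ} (h : SB φ) (n : ℚ) :
    DGood conjA G0 (g1W u φ n) := by
  obtain ⟨N, hN, hu⟩ := hu
  obtain ⟨M, hM, h⟩ := h
  refine conj_good (n := n) (fi_Gam (M := N * M ^ 2) (by positivity)) (fun γ hγ Y => ?_) hM
    fun Y hY => ?_
  · have h1 := Gam_le (dvd_mul_left (M ^ 2) N) hγ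
    unfold g1W
    rw [conjA_val, ell_conj, det_conj]
    split_ifs with h2
    · rw [h.mul_Gam h1 ((Gam _).inv_mem h1), h2.1.fix_conj,
        levU_act hu (Gam_le (dvd_mul_right N (M ^ 2)) hγ)]
    · rfl
  · unfold g1W at hY
    split_ifs at hY with h2
    · exact ⟨h.2 _ (left_ne_zero_of_mul hY), h2.2.le, h2.1⟩
    · exact absurd rfl hY

theorem G1_add (hu : HasLev u) {φ ψ : M2 → ℂ} (h : SB φ) (h' : SB ψ) (n : ℚ) :
    G1 u (φ + ψ) n = G1 u φ n + G1 u ψ n := by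
  unfold G1
  rw [← dmean_add (g1W_good hu h n) (g1W_good hu h' n)]
  congr 1
  funext Y
  simp only [g1W, Pi.add_apply]
  split_ifs <;> ring

theorem G1_smul (c : ℂ) (φ : M2 → ℂ) (n : ℚ) : G1 u (c • φ) n = c * G1 u φ n := by
  unfold G1
  rw [← dmean_smul]
  congr 1
  funext Y
  simp only [g1W, Pi.smul_apply, smul_eq_mul]
  split_ifs <;> ring

theorem G1_congr {φ ψ : M2 → ℂ} {n : ℚ} (e : ∀ Y, Y.det = n → φ Y = ψ Y) :
    G1 u φ n = G1 u ψ n := by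
  unfold G1
  congr 1
  funext Y
  simp only [g1W]
  split_ifs with h
  · rw [e _ h.2]
  · rfl

theorem G1_nonpos (φ : M2 → ℂ) {n : ℚ} (hn : n ≤ 0) : G1 u φ n = 0 := by
  by_contra h
  obtain ⟨Y, hY⟩ := dmean_ne h
  refine hY (if_neg fun h2 => ?_)
  have := h2.1.det_pos
  rw [h2.2] at this
  linarith

theorem G1_neg (φ : M2 → ℂ) (n : ℚ) : G1 u (fun Y => φ (-Y)) n = G1 u φ n := by
  unfold G1
  rw [← (dmean_equiv (ρ := conjA) (ρ' := conjA) (Γ0 := G0) (Equiv.neg GQ)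
    (fun γ _ Y => by simp [conjA_eq]) (g1W u φ n)).2]
  congr 1
  funext Y
  have e : (-Y).1 = (-1 : ℚ) • Y.1 + (0 : ℚ) • (1 : M2) := by simp
  show g1W u (fun Y => φ (-Y)) n Y = g1W u φ n (-Y)
  have e1 : Ell (-Y).1 ↔ Ell Y.1 := by rw [e]; exact ell_affine (by norm_num) 0 _
  have e2 : (-Y).1.det = Y.1.det := by simp [Matrix.det_neg]
  unfold g1W
  by_cases h : Ell Y.1 ∧ Y.1.det = n
  · rw [if_pos h, if_pos (by rwa [e1, e2]),
      show fix (-Y).1 = fix Y.1 by rw [e]; exact h.1.fix_affine (by norm_num) 0]; rfl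
  · rw [if_neg h, if_neg (by rwa [e1, e2])]

theorem gamW_good (hu : HasLev u) {ω : Q3 → ℂ} (h : SB ω) (m : ℚ) :
    DGood conjA G0 (gamW u ω m) := by
  obtain ⟨N, hN, hu⟩ := hu
  obtain ⟨M, hM, h⟩ := h
  refine conj_good (n := m) (fi_Gam (M := N * M ^ 2) (by positivity)) (fun γ hγ Y => ?_) hM
    fun Y hY => ?_
  · rw [gamW_conj]
    congr 1
    · funext τ; exact levU_act hu (Gam_le (dvd_mul_right N (M ^ 2)) hγ) τ
    · funext Z; exact h.conj_Gam (Gam_le (dvd_mul_left (M ^ 2) N) hγ) Z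
  · unfold gamW at hY
    split_ifs at hY with h2
    · have h3 := isInt_tz (h.2 _ (left_ne_zero_of_mul hY))
      rw [tz_smul, tz_co h2.2.1] at h3
      exact ⟨h3, h2.2.2.le, ell_of_tz h2.1 h2.2.1 h2.2.2⟩
    · exact absurd rfl hY

theorem gam_add (hu : HasLev u) {ω ω' : Q3 → ℂ} (h : SB ω) (h' : SB ω') (m : ℚ) :
    gam u (ω + ω') m = gam u ω m + gam u ω' m := by
  unfold gam
  rw [← dmean_add (gamW_good hu h m) (gamW_good hu h' m)]
  congr 1
  funext Y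
  simp only [gamW, Pi.add_apply]
  split_ifs <;> ring

theorem gam_smul (c : ℂ) (ω : Q3 → ℂ) (m : ℚ) : gam u (c • ω) m = c * gam u ω m := by
  unfold gam
  rw [← dmean_smul]
  congr 1
  funext Y
  simp only [gamW, Pi.smul_apply, smul_eq_mul]
  split_ifs <;> ring

theorem gam_sum (hu : HasLev u) {ι : Type} (t : Finset ι) (ω : ι → Q3 → ℂ) (h : ∀ i ∈ t, SB (ω i))
    (m : ℚ) : gam u (∑ i ∈ t, ω i) m = ∑ i ∈ t, gam u (ω i) m := by
  unfold gam
  rw [← dmean_sum t _ fun i hi => gamW_good hu (h i hi) m]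
  congr 1
  funext Y
  simp only [gamW, Finset.sum_apply]
  split_ifs
  · rw [Finset.sum_mul]
  · simp

theorem gam_supp {ω : Q3 → ℂ} {m : ℚ} (h : gam u ω m ≠ 0) : 0 < m ∧ ∃ Y, q3 Y = m ∧ ω Y ≠ 0 := by
  obtain ⟨Y, hY⟩ := dmean_ne h
  unfold gamW at hY
  split_ifs at hY with h2
  · exact ⟨h2.1, co Y.1, by rw [← det_tz, tz_co h2.2.1, h2.2.2], left_ne_zero_of_mul hY⟩
  · exact absurd rfl hY

theorem CycP.gam_congr' {ω ω' : Q3 → ℂ} {m : ℚ} (e : ω = ω') : gam u ω m = gam u ω' m := by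
  rw [e]

theorem gam_II (hu : HasLev u) {ω : Q3 × ℚ → ℂ} (h : SB ω) (m : ℚ) :
    gam u (fun Y => II fun a => ω (Y, a)) m = II fun a => gam u (fun Y => ω (Y, a)) m := by
  obtain ⟨M, hM, h⟩ := h
  obtain ⟨R, c, -, hc⟩ := exists_II_sum ℚ hM
  have e1 : (fun Y => II fun a => ω (Y, a)) = (c : ℂ) • ∑ r ∈ R, fun Y => ω (Y, r) := by
    funext Y
    rw [hc _ (h.snd Y)]
    simp [Finset.sum_apply]
  rw [e1, gam_smul, gam_sum hu R _ fun r _ => (h.fst r).sb hM, hc]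
  refine ⟨fun a k hk => ?_, fun a ha => ?_⟩
  · exact gam_congr' (funext fun Y => (h.snd Y).1 a k hk)
  · obtain ⟨-, Y, -, hY⟩ := gam_supp ha
    exact (h.snd Y).2 a hY

theorem gam_add_u (hu : HasLev u) (hu' : HasLev u') {ω : Q3 → ℂ} (h : SB ω) (m : ℚ) :
    gam (u + u') ω m = gam u ω m + gam u' ω m := by
  unfold gam
  rw [← dmean_add (gamW_good hu h m) (gamW_good hu' h m)]
  congr 1
  funext Y
  simp only [gamW, Pi.add_apply]
  split_ifs <;> ring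

theorem gam_smul_u (c : ℂ) (ω : Q3 → ℂ) (m : ℚ) : gam (c • u) ω m = c * gam u ω m := by
  unfold gam
  rw [← dmean_smul]
  congr 1
  funext Y
  simp only [gamW, Pi.smul_apply, smul_eq_mul]
  split_ifs <;> ring

theorem gam_congr {ω ω' : Q3 → ℂ} {m : ℚ} (e : ∀ Y, q3 Y = m → ω Y = ω' Y) :
    gam u ω m = gam u ω' m := by
  unfold gam
  congr 1
  funext Y
  simp only [gamW]
  split_ifs with h
  · rw [e _ (by rw [← det_tz, tz_co h.2.1, h.2.2])]
  · rfl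

theorem gam_scale {j : ℚ} (hj : j ≠ 0) (ω : Q3 → ℂ) (m : ℚ) :
    gam u (fun Y => ω (j • Y)) m = gam u ω (j ^ 2 * m) := by
  have hv : (toG (j • (1 : M2))).1 = j • (1 : M2) :=
    toG_val (by rw [det_smul2, Matrix.det_one]; positivity)
  have hm : ∀ Y : GQ, (toG (j • (1 : M2)) * Y).1 = j • Y.1 := fun Y => by
    rw [Units.val_mul, hv, smul_mul_assoc, one_mul]
  unfold gam
  rw [← (dmean_equiv (ρ := conjA) (ρ' := conjA) (Γ0 := G0) (Equiv.mulLeft (toG (j • (1 : M2))))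
    (fun γ _ Y => Units.ext (by
      simp only [Equiv.coe_mulLeft, hm, conjA_val, mul_smul_comm, smul_mul_assoc]))
    (gamW u ω (j ^ 2 * m))).2]
  congr 1
  funext Y
  simp only [gamW, Equiv.coe_mulLeft, hm]
  have hj2 : 0 < j ^ 2 := by positivity
  have e : (0 < j ^ 2 * m ∧ (j • Y.1).trace = 0 ∧ (j • Y.1).det = j ^ 2 * m) ↔
      (0 < m ∧ Y.1.trace = 0 ∧ Y.1.det = m) := by
    rw [det_smul2, Matrix.trace_smul, smul_eq_mul, mul_pos_iff_of_pos_left hj2,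
      mul_right_inj' hj2.ne', mul_eq_zero_iff_left hj]
  by_cases h : 0 < m ∧ Y.1.trace = 0 ∧ Y.1.det = m
  · have := (ell_of_tz h.1 h.2.1 h.2.2).fix_affine hj 0
    rw [zero_smul, add_zero] at this
    rw [if_pos h, if_pos (e.2 h), this, co_smul]
  · rw [if_neg h, if_neg (mt e.1 h)]

theorem gam_act (g : GQ) (ω : Q3 → ℂ) (m : ℚ) :
    gam (fun τ => u (actH g τ)) (fun Y => ω (co (g.1 * tz Y * (g⁻¹).1))) m = gam u ω m := by
  unfold gam
  rw [← dmean_act uni_G0 (gamW u ω m) g]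
  congr 1
  funext Y
  exact (gamW_conj g ω m Y).symm

/-- decomposition along the trace -/
theorem G1_eq_sum_gam (hu : HasLev u) {ω : Q3 → ℂ} {ψ : ℚ → ℂ} (h : SB ω) (h' : SB ψ) (n : ℚ) :
    (support fun a : ℚ => ψ a * gam u ω (n - a ^ 2)).Finite ∧
    G1 u (fun Y => ω (co (Y - (Y.trace / 2) • (1 : M2))) * ψ (Y.trace / 2)) n =
      ∑ᶠ a : ℚ, ψ a * gam u ω (n - a ^ 2) := by
  obtain ⟨M, hM, hψ⟩ := h'
  have hf := fin_sq hM n
  have hsub : (support fun a : ℚ => ψ a * gam u ω (n - a ^ 2)) ⊆ hf.toFinset := by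
    intro a ha
    have h1 := mul_ne_zero_iff.1 ha
    have h2 := (gam_supp h1.2).1
    simp only [Set.Finite.coe_toFinset]
    exact ⟨hψ.2 a h1.1, by linarith⟩
  refine ⟨hf.toFinset.finite_toSet.subset hsub, ?_⟩
  rw [finsum_eq_sum_of_support_subset _ hsub]
  set Φ : M2 → ℂ := fun Y => ω (co (Y - (Y.trace / 2) • (1 : M2))) * ψ (Y.trace / 2) with hΦ
  have e1 : ∀ a : ℚ, (fun Y => Φ (tz Y + a • (1 : M2))) = ψ a • ω := by
    intro a
    funext Y
    have : (tz Y + a • (1 : M2)).trace / 2 = a := by rw [trace_shift, trace_tz]; ring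
    simp only [hΦ, this, add_sub_cancel_right, co_tz, Pi.smul_apply, smul_eq_mul, mul_comm]
  have e2 : g1W u Φ n = ∑ a ∈ hf.toFinset, slW u Φ n a := by
    funext Y
    rw [Finset.sum_apply]
    by_cases h1 : Ell Y.1 ∧ Y.1.det = n
    · have h2 : (Y.1.trace / 2) ^ 2 < n := by
        have := h1.1
        unfold Ell at this
        rw [h1.2] at this
        nlinarith
      rw [Finset.sum_eq_single (Y.1.trace / 2)]
      · unfold g1W slW
        rw [if_pos h1, if_pos ⟨h2, by ring, h1.2⟩]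
      · intro a _ ha
        exact if_neg fun h3 => ha (by rw [h3.2.1]; ring)
      · intro h3
        have h4 : ψ (Y.1.trace / 2) = 0 := by
          by_contra h5
          exact h3 (hf.mem_toFinset.2 ⟨hψ.2 _ h5, h2⟩)
        unfold slW
        simp [hΦ, h4]
    · unfold g1W
      rw [if_neg h1]
      refine (Finset.sum_eq_zero fun a _ => if_neg fun h3 => h1 ⟨?_, h3.2.2⟩).symm
      unfold Ell
      rw [h3.2.1, h3.2.2]
      nlinarith [h3.1]
  unfold G1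
  rw [e2, dmean_sum _ _ fun a _ => (shift_lemma u Φ n a).1.1
    (by rw [e1]; exact gamW_good hu (h.smul _) _)]
  refine Finset.sum_congr rfl fun a _ => ?_
  rw [← (shift_lemma u Φ n a).2, e1, gam_smul]

end

end Pool.Agent.P.MP_b8021b_nt.CM
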