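import Mathlib

/-!
Definitions for the theorem on special zero-cycles on products of modular curves.
See the file h95_README.md in the team store for the mathematics.
-/

namespace Pool.Agent.P.MP_b8021b_nt.CM

open Complex hiding Gamma
open UpperHalfPlane hiding I
open MeasureTheory CongruenceSubgroup
open scoped Real MatrixGroups ModularForm Topology ComplexConjugate Modular

noncomputable section

abbrev M2 := Matrix (Fin 2) (Fin 2) ℚ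
abbrev Z2 := Matrix (Fin 2) (Fin 2) ℤ
abbrev R2 (M : ℕ) := Matrix (Fin 2) (Fin 2) (ZMod M)
abbrev GQ := GL (Fin 2) ℚ
abbrev SL := SL(2, ℤ)
abbrev Q2 := ℚ × ℚ
abbrev Q3 := ℚ × ℚ × ℚ
abbrev U6 := M2 × Q2

/-- `exp (2 π i z)` -/
def e (z : ℂ) : ℂ := cexp (2 * π * I * z)

/-- `exp (2 π i q)` for rational `q` -/
def eq (q : ℚ) : ℂ := e (q : ℂ)

/-! ### discrete means -/

section dmean
variable {G X : Type} [Group G]

/-- `Γ` has finite index in `Γ0` -/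
def FI (Γ Γ0 : Subgroup G) : Prop := Γ ≤ Γ0 ∧ Γ.relIndex Γ0 ≠ 0

def Inv (ρ : G →* Equiv.Perm X) (Γ : Subgroup G) (w : X → ℂ) : Prop :=
  ∀ γ ∈ Γ, ∀ x, w (ρ γ x) = w x

/-- `β` has total mass one on every `Γ`-orbit in the support of `w` -/
def IsWt (ρ : G →* Equiv.Perm X) (Γ : Subgroup G) (β : X → ℂ) (w : X → ℂ) : Prop :=
  ∀ x, w x ≠ 0 → (Function.support fun γ : Γ => β (ρ γ x)).Finite ∧ ∑ᶠ γ : Γ, β (ρ γ x) = 1

def DAdm (ρ : G →* Equiv.Perm X) (Γ0 Γ : Subgroup G) (β w : X → ℂ) : Prop :=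
  FI Γ Γ0 ∧ Inv ρ Γ w ∧ IsWt ρ Γ β w ∧ (Function.support fun x => β x * w x).Finite

def DGood (ρ : G →* Equiv.Perm X) (Γ0 : Subgroup G) (w : X → ℂ) : Prop :=
  ∃ p : Subgroup G × (X → ℂ), DAdm ρ Γ0 p.1 p.2 w

open Classical in
/-- sum of `w / |stabiliser|` over the `Γ`-orbits, divided by the index of `Γ` in `Γ0` -/
def dmean (ρ : G →* Equiv.Perm X) (Γ0 : Subgroup G) (w : X → ℂ) : ℂ :=
  if h : DGood ρ Γ0 w then (∑ᶠ x, h.choose.2 x * w x) / (h.choose.1.relIndex Γ0 : ℂ) else 0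

/-- `g⁻¹ Γ g` -/
def cj (g : G) (Γ : Subgroup G) : Subgroup G := Γ.comap (MulAut.conj g).toMonoidHom

/-- unimodularity of the Hecke pair -/
def Uni (Γ0 : Subgroup G) : Prop :=
  ∀ (g : G) (Γ : Subgroup G), FI Γ Γ0 → ∃ Γ', Γ' ≤ Γ ∧ FI Γ' Γ0 ∧ FI (cj g Γ') Γ0 ∧
    (cj g Γ').relIndex Γ0 = Γ'.relIndex Γ0

end dmean

/-! ### groups and actions -/

def iota : SL →* GQ := Matrix.SpecialLinearGroup.mapGL ℚ

def toR : GQ →* GL (Fin 2) ℝ := Matrix.GeneralLinearGroup.map (Rat.castHom ℝ)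

def actH : GQ →* Equiv.Perm ℍ := (MulAction.toPermHom (GL (Fin 2) ℝ) ℍ).comp toR

def G0 : Subgroup GQ := iota.range

def Gam (M : ℕ) : Subgroup GQ := (Gamma M).map iota

def leftA : GQ →* Equiv.Perm GQ := MulAction.toPermHom GQ GQ

def conjA : GQ →* Equiv.Perm GQ := (MulAut.toPerm GQ).comp MulAut.conj

/-- `(g₁, g₂)` sends `y` to `g₂ y g₁⁻¹` -/
def biA : GQ × GQ →* Equiv.Perm GQ where
  toFun g := (Equiv.mulLeft g.2).trans (Equiv.mulRight g.1⁻¹)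
  map_one' := by ext1 y; simp
  map_mul' g h := by ext1 y; simp [mul_assoc]

def pairA : GQ × GQ →* Equiv.Perm (GQ × GQ) where
  toFun g := Equiv.prodCongr (biA g) (biA g)
  map_one' := by ext1 y; simp
  map_mul' g h := by ext1 y; simp [Prod.map]

def GG0 : Subgroup (GQ × GQ) := G0.prod G0

/-- the invertible matrix attached to a matrix with nonzero determinant -/
def toG (Y : M2) : GQ :=
  if h : Y.det ≠ 0 then Matrix.GeneralLinearGroup.mkOfDetNeZero Y h else 1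

def castZ (Y : Z2) : M2 := Y.map (Int.cast : ℤ → ℚ)

def red (M : ℕ) (Y : Z2) : R2 M := Y.map (Int.cast : ℤ → ZMod M)

/-- action of a rational matrix -/
def act (Y : M2) (τ : ℍ) : ℍ := actH (toG Y) τ

/-- the dilation by `j` -/
def dil (j : ℚ) (τ : ℍ) : ℍ := act !![j, 0; 0, 1] τ

/-- translation by `b` -/
def nn (b : ℚ) : GQ := toG !![1, b; 0, 1]

def Ell (Y : M2) : Prop := Y.trace ^ 2 < 4 * Y.det

open Classical in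
/-- the fixed point of an elliptic matrix -/
def fix (Y : M2) : ℍ := if h : (toR (toG Y)).IsElliptic then fixedPt _ h else UpperHalfPlane.I

/-- the bilinear form of `det` -/
def bil {R : Type} [CommRing R] (Y Z : Matrix (Fin 2) (Fin 2) R) : R :=
  Y 0 0 * Z 1 1 + Y 1 1 * Z 0 0 - Y 0 1 * Z 1 0 - Y 1 0 * Z 0 1

open Classical in
/-- the standard weight, supported on the fundamental domain -/
def b0 (τ : ℍ) : ℝ := if τ ∈ 𝒟 then ((Nat.card {γ : SL // γ • τ ∈ 𝒟} : ℝ))⁻¹ else 0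

/-! ### the mean on the upper half plane -/

def HAdm (Γ : Subgroup GQ) (β : ℍ → ℝ) (w : ℍ → ℂ) : Prop :=
  FI Γ G0 ∧ Inv actH Γ w ∧ Measurable w ∧ Measurable β ∧ (∀ τ, 0 ≤ β τ) ∧
    (∀ τ, HasSum (fun γ : Γ => β (actH γ τ)) 1) ∧ Integrable (fun τ => (β τ : ℂ) * w τ)

def HGood (w : ℍ → ℂ) : Prop := ∃ p : Subgroup GQ × (ℍ → ℝ), HAdm p.1 p.2 w

open Classical in
def hmean (w : ℍ → ℂ) : ℂ :=
  if h : HGood w then (∫ τ, (h.choose.2 τ : ℂ) * w τ) / (h.choose.1.relIndex G0 : ℂ) else 0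

/-- the point `u + i y` (junk value for `y ≤ 0`) -/
def pt (u y : ℝ) : ℍ := ofComplex (u + y * I)

/-- constant term -/
def ct (f : ℍ → ℂ) (y : ℝ) : ℂ := ∫ u in (0 : ℝ)..1, f (pt u y)

/-! ### Schwartz-Bruhat functions -/

/-- a rational vector space with a lattice -/
class Lat (W : Type) [AddCommGroup W] [Module ℚ W] where
  lat : AddSubgroup W
  den : ∀ x : W, ∃ M : ℕ, 0 < M ∧ (M : ℚ) • x ∈ lat
  fin : ∀ M : ℕ, 0 < M → ∃ R : Finset W, ∀ x ∈ lat, ∃ r ∈ R, ∃ k ∈ lat, x = r + (M : ℚ) • k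
  fg : lat.FG

instance : Lat ℚ where
  lat := (Int.castAddHom ℚ).range
  fg := (AddGroup.fg_iff_addSubgroup_fg _).1 (AddGroup.fg_range _)
  den x := ⟨x.den, x.den_pos, x.num, by
    simp only [Int.coe_castAddHom, smul_eq_mul]; exact (Rat.den_mul_eq_num x).symm⟩
  fin M hM := ⟨(Finset.range M).image (fun n : ℕ => (n : ℚ)), by
    rintro _ ⟨n, rfl⟩
    have h0 : (0 : ℤ) < M := by exact_mod_cast hM
    refine ⟨((n % M).toNat : ℚ), Finset.mem_image.2 ⟨_, Finset.mem_range.2 ?_, rfl⟩,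
      ((n / M : ℤ) : ℚ), ⟨_, rfl⟩, ?_⟩
    · have := Int.emod_lt_of_pos n h0
      omega
    · have h1 : (((n % M).toNat : ℤ) : ℚ) = ((n % M : ℤ) : ℚ) := by
        rw [Int.toNat_of_nonneg (Int.emod_nonneg n h0.ne')]
      have h2 : ((n % M + M * (n / M) : ℤ) : ℚ) = n := by rw [Int.emod_add_mul_ediv]
      simp only [Int.coe_castAddHom, smul_eq_mul]
      push_cast at h1 h2 ⊢
      linarith⟩

instance {W W' : Type} [AddCommGroup W] [Module ℚ W] [Lat W] [AddCommGroup W'] [Module ℚ W']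
    [Lat W'] : Lat (W × W') where
  lat := (Lat.lat (W := W)).prod (Lat.lat (W := W'))
  fg := AddSubgroup.FG.prod Lat.fg Lat.fg
  den x := by
    obtain ⟨M, hM, h⟩ := Lat.den x.1
    obtain ⟨M', hM', h'⟩ := Lat.den x.2
    refine ⟨M * M', Nat.mul_pos hM hM', ?_, ?_⟩
    · have := (Lat.lat (W := W)).nsmul_mem h M'
      rw [← Nat.cast_smul_eq_nsmul ℚ, smul_smul, mul_comm] at this
      simpa using this
    · have := (Lat.lat (W := W')).nsmul_mem h' M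
      rw [← Nat.cast_smul_eq_nsmul ℚ, smul_smul] at this
      simpa using this
  fin M hM := by
    obtain ⟨R, h⟩ := Lat.fin (W := W) M hM
    obtain ⟨R', h'⟩ := Lat.fin (W := W') M hM
    refine ⟨R ×ˢ R', fun x hx => ?_⟩
    obtain ⟨r, hr, k, hk, e1⟩ := h x.1 hx.1
    obtain ⟨r', hr', k', hk', e2⟩ := h' x.2 hx.2
    exact ⟨(r, r'), Finset.mem_product.2 ⟨hr, hr'⟩, (k, k'), ⟨hk, hk'⟩, Prod.ext e1 e2⟩

instance {W : Type} [AddCommGroup W] [Module ℚ W] [Lat W] : Lat (Fin 2 → W) where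
  lat := AddSubgroup.pi Set.univ fun _ => Lat.lat (W := W)
  fg := AddSubgroup.FG.pi fun _ => Lat.fg
  den x := by
    obtain ⟨M, hM, h⟩ := Lat.den (x 0, x 1)
    exact ⟨M, hM, fun i _ => by fin_cases i; exacts [h.1, h.2]⟩
  fin M hM := by
    classical
    obtain ⟨R, h⟩ := Lat.fin (W := W) M hM
    refine ⟨Fintype.piFinset fun _ => R, fun x hx => ?_⟩
    choose r hr k hk e1 using fun i => h (x i) (hx i trivial)
    exact ⟨r, Fintype.mem_piFinset.2 hr, k, fun i _ => hk i, funext e1⟩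

instance : Lat M2 := inferInstanceAs (Lat (Fin 2 → Fin 2 → ℚ))

section SB
variable {W : Type} [AddCommGroup W] [Module ℚ W] [Lat W]

def IsInt (x : W) : Prop := x ∈ Lat.lat (W := W)

/-- periodic modulo `M` times the lattice and supported in `M⁻¹` times the lattice -/
def Lev (M : ℕ) (φ : W → ℂ) : Prop :=
  (∀ x k : W, IsInt k → φ (x + (M : ℚ) • k) = φ x) ∧ ∀ x, φ x ≠ 0 → IsInt ((M : ℚ) • x)

def SB (φ : W → ℂ) : Prop := ∃ M, 0 < M ∧ Lev M φ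

/-- level a power of `M` -/
def SBM (M : ℕ) (φ : W → ℂ) : Prop := ∃ k, Lev (M ^ k) φ

def trA (W : Type) [AddCommGroup W] : Multiplicative W →* Equiv.Perm W :=
  MulAction.toPermHom (Multiplicative W) W

/-- the Haar integral over the finite adeles, the lattice having volume one -/
def II (φ : W → ℂ) : ℂ := dmean (trA W) (AddSubgroup.toSubgroup (Lat.lat (W := W))) φ

/-- the index of `M` times the lattice -/
def idx (W : Type) [AddCommGroup W] [Module ℚ W] [Lat W] (M : ℕ) : ℕ :=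
  ((Lat.lat (W := W)).map (DistribSMul.toAddMonoidHom W (M : ℚ))).relIndex (Lat.lat (W := W))

open Classical in
/-- indicator function of the class of `r` modulo `M` -/
def cls (M : ℕ) (r x : W) : ℂ := if IsInt ((M : ℚ)⁻¹ • (x - r)) then 1 else 0

end SB

/-- one dimensional Fourier transform -/
def F1 (s : ℚ) (φ : ℚ → ℂ) (z : ℚ) : ℂ := II fun x => φ x * eq (s * x * z)

/-- Fourier transform on `M2` -/
def FV (φ : M2 → ℂ) (Z : M2) : ℂ := II fun Y => φ Y * eq (-bil Y Z)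

/-- symplectic Fourier transform on `ℚ²` -/
def FS (c : Q2 → ℂ) (w : Q2) : ℂ := II fun v : Q2 => c v * eq (v.1 * w.2 - v.2 * w.1)

/-- trace zero matrices, `det = a c - b²` -/
def tz (Y : Q3) : M2 := !![Y.2.1, Y.1; -Y.2.2, -Y.2.1]

def co (Y : M2) : Q3 := (Y 0 1, Y 0 0, -Y 1 0)

def q3 (Y : Q3) : ℚ := Y.1 * Y.2.2 - Y.2.1 ^ 2

def bil3 (Y Z : Q3) : ℚ := Y.1 * Z.2.2 + Y.2.2 * Z.1 - 2 * Y.2.1 * Z.2.1

def F3 (ω : Q3 → ℂ) (Z : Q3) : ℂ := II fun Y => ω Y * eq (-bil3 Y Z)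

def F4 (d : ℕ) (ω : Q3 × ℚ → ℂ) (Z : Q3 × ℚ) : ℂ :=
  II fun Y : Q3 × ℚ => ω Y * eq (-bil3 Y.1 Z.1 + 2 * d * Y.2 * Z.2)

/-- the norm form `x₁² + d x₂²` -/
def Nm (d : ℕ) (x : Q2) : ℚ := x.1 ^ 2 + d * x.2 ^ 2

def bilN (d : ℕ) (x z : Q2) : ℚ := 2 * x.1 * z.1 + 2 * d * x.2 * z.2

/-- multiplication by the square root of `-d` -/
def perp (d : ℕ) (x : Q2) : Q2 := (-d * x.2, x.1)

def FL (d : ℕ) (φ : Q2 → ℂ) (z : Q2) : ℂ := II fun x => φ x * eq (bilN d x z)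

def QU (d : ℕ) (u : U6) : ℚ := u.1.det - Nm d u.2

def F6 (d : ℕ) (ψ : U6 → ℂ) (z : U6) : ℂ :=
  II fun u : U6 => ψ u * eq (-bil u.1 z.1 + bilN d u.2 z.2)

/-- row vector times matrix -/
def vm (w : Q2) (γ : SL) : Q2 :=
  (w.1 * (γ 0 0 : ℤ) + w.2 * (γ 1 0 : ℤ), w.1 * (γ 0 1 : ℤ) + w.2 * (γ 1 1 : ℤ))

/-- the automorphy factor -/
def jf (γ : SL) (τ : ℍ) : ℂ := (γ 1 0 : ℤ) * (τ : ℂ) + (γ 1 1 : ℤ)

/-- the mixed model on `M2` -/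
def PV (φ : M2 → ℂ) (A : M2) : ℂ :=
  II fun p : Q2 => φ !![p.1, p.2; A 0 0, A 1 0] * eq (p.2 * A 0 1 - p.1 * A 1 1)

def PVi (H : M2 → ℂ) (Y : M2) : ℂ :=
  II fun n : Q2 => H !![Y 1 0, n.1; Y 1 1, n.2] * eq (-(Y 0 1 * n.1 - Y 0 0 * n.2))

/-- the Weil representation on `M2` -/
def omV (γ : SL) (φ : M2 → ℂ) : M2 → ℂ := PVi fun A => PV φ (A * castZ (γ⁻¹).1)

/-- level structure on `ℚ²` that is stable under `FL d` -/
def LevL (d M : ℕ) (φ : Q2 → ℂ) : Prop :=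
  (∀ (x : Q2) (k l : ℤ), φ (x + ((M : ℚ) / 2 * k, (M : ℚ) / (2 * d) * l)) = φ x) ∧
    ∀ x, φ x ≠ 0 → IsInt ((M : ℚ) • x)

def Lev6 (d M : ℕ) (ψ : U6 → ℂ) : Prop :=
  (∀ x, Lev M fun Y => ψ (Y, x)) ∧ ∀ Y, LevL d M fun x => ψ (Y, x)

def LevV (d M : ℕ) (v : U6 → U6 → ℂ) : Prop :=
  (∀ u, Lev6 d M fun u' => v u' u) ∧ ∀ u', Lev6 d M (v u')

/-- the odd quadratic character attached to `-d`, on integers prime to `2 d` -/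
def chi (d : ℕ) (n : ℤ) : ℂ :=
  if IsCoprime n (2 * d : ℤ) then ((n.sign * jacobiSym (-(d : ℤ)) n.natAbs : ℤ) : ℂ) else 0

/-- a right action of `SL(2, ℤ)` on the functions of level `M` which is the Weil representation -/
structure IsWeil {W : Type} [AddCommGroup W] [Module ℚ W] [Lat W] (L : (W → ℂ) → Prop) (M M' : ℕ)
    (Q : W → ℚ) (FT : (W → ℂ) → W → ℂ) (χ : ℤ → ℂ) (ρ : SL → (W → ℂ) → W → ℂ) : Prop where
  lev : ∀ γ ψ, L ψ → L (ρ γ ψ)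
  add : ∀ γ ψ ψ', L ψ → L ψ' → ρ γ (ψ + ψ') = ρ γ ψ + ρ γ ψ'
  smul : ∀ γ (c : ℂ) ψ, L ψ → ρ γ (c • ψ) = c • ρ γ ψ
  mul : ∀ γ γ' ψ, L ψ → ρ (γ * γ') ψ = ρ γ' (ρ γ ψ)
  hS : ∀ ψ, L ψ → ρ ModularGroup.S ψ = FT ψ
  hT : ∀ ψ, L ψ → ρ ModularGroup.T ψ = fun u => eq (Q u) * ψ u
  gam0 : ∀ γ : SL, (M' : ℤ) ∣ γ 1 0 → ∀ ψ, L ψ → ∀ u : W, IsInt ((M : ℚ) • u) →
    ρ γ ψ u = χ (γ 1 1) * eq ((γ 0 1 * γ 1 1 : ℤ) * Q u) * ψ (((γ 1 1 : ℤ) : ℚ) • u)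
  triv : ∀ γ ∈ Gamma M', ∀ ψ, L ψ → ρ γ ψ = ψ

/-- the normalised Fourier transforms on `ℚ²` and on `U6` -/
def FLn (d : ℕ) (φ : Q2 → ℂ) : Q2 → ℂ := (I / (2 * Real.sqrt d)) • FL d φ

def F6n (d : ℕ) (ψ : U6 → ℂ) : U6 → ℂ := (I / (2 * Real.sqrt d)) • F6 d ψ

def WeilL (d M : ℕ) (ρ : SL → (Q2 → ℂ) → Q2 → ℂ) : Prop :=
  IsWeil (LevL d M) M (M ^ 2) (fun x => -Nm d x) (FLn d) (chi d) ρ

def Weil6 (d M : ℕ) (ρ : SL → (U6 → ℂ) → U6 → ℂ) : Prop :=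
  IsWeil (Lev6 d M) M (M ^ 2) (QU d) (F6n d) (chi d) ρ

/-- action on the first variable -/
def r1 (ρ : SL → (U6 → ℂ) → U6 → ℂ) (γ : SL) (v : U6 → U6 → ℂ) (u' u : U6) : ℂ :=
  ρ γ (fun u'' => v u'' u) u'

/-! ### holomorphic functions -/

def Hol (f : ℍ → ℂ) : Prop := DifferentiableOn ℂ (f ∘ ofComplex) {z | 0 < z.im}

def kap (τ : ℍ) : ℝ := (1 + ‖(τ : ℂ)‖ ^ 2) / τ.im

def InG (f : ℍ → ℂ) : Prop := Hol f ∧ ∃ C : ℝ, ∀ τ, ‖f τ‖ ≤ Real.exp (C * kap τ)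

def LevU (N : ℕ) (u : ℍ → ℂ) : Prop := ∀ γ ∈ Gamma N, ∀ τ : ℍ, u (γ • τ) = u τ

/-- modular functions of level `M` -/
def InO (M : ℕ) (f : ℍ → ℂ) : Prop := InG f ∧ LevU M f

def ordAt (f : ℍ → ℂ) (τ : ℍ) : ℕ := analyticOrderNatAt (f ∘ ofComplex) τ

def der (f : ℍ → ℂ) (τ : ℍ) : ℂ := deriv (f ∘ ofComplex) τ

def jj (τ : ℍ) : ℂ := ModularForm.E₄ τ ^ 3 / ModularForm.discriminant τ

/-- the coefficient of `e (n τ / M)` -/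
def coef (M : ℕ) (f : ℍ → ℂ) (n : ℤ) : ℂ :=
  (∫ u in (0 : ℝ)..M, f (pt u 1) * e (-(n * (u + I)) / M)) / M

/-- periodic modulo `M` -/
def Per (M : ℕ) (f : ℍ → ℂ) : Prop := ∀ τ : ℍ, f ((M : ℝ) +ᵥ τ) = f τ

def RatExp (M : ℕ) (f : ℍ → ℂ) : Prop := ∀ n, ∃ q : ℚ, coef M f n = q

/-- growth at most `exp (2 π w y)` at infinity -/
def Gro (w : ℝ) (f : ℍ → ℂ) : Prop :=
  ∃ K : ℝ, ∀ τ : ℍ, 1 ≤ τ.im → ‖f τ‖ ≤ K * Real.exp (2 * π * w * τ.im)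

/-- not fixed by any integral matrix of positive determinant that is not scalar -/
def Gen (τ : ℍ) : Prop :=
  ∀ Y : Z2, 0 < Y.det → act (castZ Y) τ = τ → ∃ a : ℤ, Y = a • (1 : Z2)

/-- weight `k` slash operator -/
def sl (k : ℤ) (γ : SL) (f : ℍ → ℂ) (τ : ℍ) : ℂ := f (γ • τ) * jf γ τ ^ (-k)

/-- exponential decay at infinity -/
def Dec (f : ℍ → ℂ) : Prop :=
  ∃ C c : ℝ, 0 < c ∧ ∀ τ : ℍ, 1 / 2 ≤ τ.im → ‖f τ‖ ≤ C * Real.exp (-c * τ.im)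

/-- weight two cusp forms of level `M` -/
def Cusp (M : ℕ) (f : ℍ → ℂ) : Prop :=
  Hol f ∧ (∀ γ ∈ Gamma M, sl 2 γ f = f) ∧ ∀ γ : SL, Dec (sl 2 γ f)

/-- functions that kill principal divisors on the open modular curves -/
def Rec (u : ℍ → ℂ) : Prop :=
  (∃ N, 0 < N ∧ LevU N u) ∧ ∀ M, 0 < M → ∀ h, InO M h → h ≠ 0 →
    dmean actH G0 (fun τ => (ordAt h τ : ℂ) * u τ) = 0

def LevS (N : ℕ) (s : ℍ → ℍ → ℂ) : Prop := (∀ σ, LevU N fun τ => s τ σ) ∧ ∀ τ, LevU N (s τ)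

def InS (s : ℍ → ℍ → ℂ) : Prop :=
  (∃ N, 0 < N ∧ LevS N s) ∧ (∀ g : GQ, 0 < g.1.det → Rec fun τ => s τ (actH g τ)) ∧
    (∀ σ, Rec fun τ => s τ σ) ∧ ∀ τ, Rec (s τ)

/-! ### Borcherds products -/

def eM (M : ℕ) (x : ZMod M) : ℂ := eq ((x.val : ℚ) / M)

/-- input forms: weight zero, dual Weil representation -/
structure Inp (M : ℕ) [NeZero M] (F : R2 M → ℍ → ℂ) : Prop where
  cls : ∀ μ, InG (F μ)
  hT : ∀ μ τ, F μ (ModularGroup.T • τ) = eM M (-μ.det) * F μ τ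
  hS : ∀ μ τ, F μ (ModularGroup.S • τ) = (∑ ν, eM M (bil μ ν) * F ν τ) / (M : ℂ) ^ 2

/-- the exponent attached to `Y` -/
def PP (M : ℕ) (F : R2 M → ℍ → ℂ) (Y : Z2) : ℂ := coef M (F (red M Y)) (-Y.det)

def sharp (M : ℕ) [NeZero M] (F : R2 M → ℍ → ℂ) (A : R2 M) (τ : ℍ) : ℂ :=
  (∑ k : ZMod M × ZMod M, F !![-k.2, k.1; A 0 0, A 1 0] τ * eM M (k.1 * A 0 1 + k.2 * A 1 1)) /
    (M : ℂ) ^ 2

def unsharp (M : ℕ) [NeZero M] (H : R2 M → ℍ → ℂ) (μ : R2 M) (τ : ℍ) : ℂ :=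
  ∑ n : ZMod M × ZMod M, H !![μ 1 0, n.1; μ 1 1, n.2] τ * eM M (-(μ 0 1 * n.1 - μ 0 0 * n.2))

/-- upper triangular matrices -/
def ut (a b d : ℤ) : Z2 := !![a, b; 0, d]

/-- Hermite normal forms of determinant `m` -/
def hnf (m : ℕ) : Finset Z2 :=
  m.divisorsAntidiagonal.biUnion fun p => (Finset.range p.2).image fun b : ℕ => ut p.1 b p.2

def Am (M : ℕ) [NeZero M] (F : R2 M → ℍ → ℂ) (m : ℕ) (τ : ℍ) : ℂ :=
  -((M : ℂ) ^ 2 / m) * ∑ g ∈ hnf m,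
    sharp M F (red M (ModularGroup.S.1 * g.adjugate)) (act (castZ g) τ)

def alpha (M : ℕ) (F : R2 M → ℍ → ℂ) (m : ℕ) (n : ℤ) : ℂ :=
  -∑ k ∈ m.divisors.filter (fun k : ℕ => (k : ℤ) ∣ n), (∑ b ∈ Finset.range M,
    PP M F (ut (-(n / k)) b (m / k : ℕ)) * eq (-((k * b : ℕ) : ℚ) / M)) / k

/-- Eisenstein series with congruence conditions -/
def GS (M : ℕ) (k : ℕ) (a : ZMod M × ZMod M) (τ : ℍ) : ℂ :=
  ∑' w : ℤ × ℤ, if ((w.1 : ZMod M), (w.2 : ZMod M)) = a then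
    ((w.1 : ℂ) * τ + w.2) ^ (-(k : ℤ)) else 0

def Tens (M : ℕ) (E : ℍ → ℍ → ℂ) : Prop :=
  ∃ (r : ℕ) (f g : Fin r → ℍ → ℂ), (∀ i, InO M (f i) ∧ InO M (g i)) ∧
    ∀ τ σ, E τ σ = ∑ i, f i τ * g i σ

/-- index set of the finite product -/
def box (M n0 : ℕ) : Finset (ℕ × ℕ × ℕ) := Finset.Icc 1 n0 ×ˢ Finset.range M ×ˢ Finset.Icc 1 n0

/-- pole order in the second variable at the cusp `γ ∞` -/
def wpole (M n0 : ℕ) (C : Z2 → ℕ) (γ : SL) : ℕ :=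
  ∑ t ∈ box M n0, t.2.2 * C (γ.1 * ut t.1 t.2.1 t.2.2)

/-- the principal part of `F` is given by the natural numbers `C` -/
def PPN (M : ℕ) (F : R2 M → ℍ → ℂ) (C : Z2 → ℕ) (n0 : ℕ) : Prop :=
  (∀ Y : Z2, 0 < Y.det → PP M F Y = C Y) ∧ ∀ Y : Z2, (n0 : ℤ) < Y.det → C Y = 0

open Classical in
/-- the function on `M⁻¹ M₂(ℤ)` attached to a function on `M₂(ℤ)` -/
def liftZ (M : ℕ) (c : Z2 → ℂ) (Y : M2) : ℂ :=
  if h : ∃ Z : Z2, castZ Z = (M : ℚ) • Y then c h.choose else 0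

/-! ### generating series -/

open Classical in
def g1W (u : ℍ → ℂ) (φ : M2 → ℂ) (n : ℚ) (Y : GQ) : ℂ :=
  if Ell Y.1 ∧ Y.1.det = n then φ Y.1 * u (fix Y.1) else 0

def G1 (u : ℍ → ℂ) (φ : M2 → ℂ) (n : ℚ) : ℂ := dmean conjA G0 (g1W u φ n)

open Classical in
def g2W (u : ℍ → ℂ) (σ : ℍ) (φ : M2 → ℂ) (n : ℚ) (Y : GQ) : ℂ :=
  if 0 < n ∧ Y.1.det = n then φ Y.1 * u (actH Y σ) else 0

def G2 (u : ℍ → ℂ) (σ : ℍ) (φ : M2 → ℂ) (n : ℚ) : ℂ := dmean leftA G0 (g2W u σ φ n)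

open Classical in
def gamW (u : ℍ → ℂ) (ω : Q3 → ℂ) (m : ℚ) (Y : GQ) : ℂ :=
  if 0 < m ∧ Y.1.trace = 0 ∧ Y.1.det = m then ω (co Y.1) * u (fix Y.1) else 0

def gam (u : ℍ → ℂ) (ω : Q3 → ℂ) (m : ℚ) : ℂ := dmean conjA G0 (gamW u ω m)

/-- a `q`-series with rational exponents -/
def qs (c : ℚ → ℂ) (τ : ℍ) : ℂ := ∑' m : ℚ, c m * e (m * τ)

def Conv (c : ℚ → ℂ) : Prop := ∀ τ : ℍ, Summable fun m : ℚ => ‖c m * e (m * τ)‖

def JF (d : ℕ) (u : ℍ → ℂ) (ω : Q3 × ℚ → ℂ) (τ : ℍ) : ℂ :=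
  ((τ.im ^ (-(1 / 2) : ℝ) : ℝ) : ℂ) *
    ∑' l : ℚ, qs (gam u fun Y => ω (Y, l)) τ * e (-(conj (τ : ℂ)) * d * l ^ 2)

open Classical in
def aW (s : ℍ → ℍ → ℂ) (n r j : ℚ) (φ : M2 → M2 → ℂ) (p : GQ × GQ) : ℂ :=
  if 0 < j ∧ r ^ 2 < 4 * n * j ∧ p.1.1.det = n ∧ bil p.1.1 p.2.1 = r ∧ p.2.1.det = j then
    φ p.1.1 p.2.1 * s (fix (p.2⁻¹ * p.1).1) (actH p.2 (fix (p.2⁻¹ * p.1).1)) else 0

/-- the special sums -/
def aS (s : ℍ → ℍ → ℂ) (n r j : ℚ) (φ : M2 → M2 → ℂ) : ℂ := dmean pairA GG0 (aW s n r j φ)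

/-- a function of two variables as a function on pairs -/
def unc {W : Type} (φ : W → W → ℂ) (p : W × W) : ℂ := φ p.1 p.2

def bX (s : ℍ → ℍ → ℂ) (d : ℕ) (v : U6 → U6 → ℂ) (x' x : Q2) : ℂ :=
  aS s (Nm d x') (bilN d x' x) (Nm d x) fun y' y => v (y', x') (y, x)

def aa (s : ℍ → ℍ → ℂ) (d : ℕ) (v : U6 → U6 → ℂ) (x : Q2) (m l : ℚ) : ℂ :=
  II fun a : ℚ => aS s (Nm d x * (m + a ^ 2)) (2 * Nm d x * a) (Nm d x)
    fun y' y => v (y', a • x + l • perp d x) (y, x)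

def JX (s : ℍ → ℍ → ℂ) (d : ℕ) (v : U6 → U6 → ℂ) (x : Q2) (τ : ℍ) : ℂ :=
  (((4 * τ.im * Nm d x : ℝ) ^ (-(1 / 2) : ℝ) : ℝ) : ℂ) *
    ∑' p : ℚ × ℚ, aa s d v x p.1 p.2 * e (Nm d x * (τ * p.1 - conj (τ : ℂ) * d * p.2 ^ 2))

def om (d : ℕ) (v : U6 → U6 → ℂ) (y : M2) (x : Q2) (Y : Q3 × ℚ) : ℂ :=
  II fun a : ℚ => v (y * (tz Y.1 + a • (1 : M2)), a • x + Y.2 • perp d x) (y, x)

/-- the function whose Laplace transform is the double Dirichlet series -/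
def gv (s : ℍ → ℍ → ℂ) (d : ℕ) (v : U6 → U6 → ℂ) (ξ : ℝ × ℝ) : ℂ :=
  ∑' p : Q2 × ℚ, aa s d v p.1 (d * p.2 ^ 2) p.2 *
    ((Real.exp (ξ.1 / 2 + ξ.2 / 2) * (4 * Nm d p.1 : ℝ) ^ (-(1 / 2) : ℝ) *
      Real.exp (-4 * π * Nm d p.1 * (Real.exp ξ.2 + Real.exp ξ.1 * d * p.2 ^ 2)) : ℝ) : ℂ)

def GZ (s : ℍ → ℍ → ℂ) (d : ℕ) (v : U6 → U6 → ℂ) (ρ : ℝ) (z : ℍ) : ℂ :=
  ∑' X : Q2 × Q2, bX s d v X.1 X.2 * ((Real.exp (-4 * π * (ρ / z.im) *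
    (Nm d X.1 + z.re * bilN d X.1 X.2 + ‖(z : ℂ)‖ ^ 2 * Nm d X.2)) : ℝ) : ℂ)

/-- `(x', x) ↦ (d x' + b x, c x' + a x)` -/
def kp {W : Type} [AddCommGroup W] (γ : SL) (p : W × W) : W × W :=
  (γ 1 1 • p.1 + γ 0 1 • p.2, γ 1 0 • p.1 + γ 0 0 • p.2)

def kap2 (γ : SL) (v : U6 → U6 → ℂ) (u' u : U6) : ℂ :=
  v (kp γ⁻¹ (u', u)).1 (kp γ⁻¹ (u', u)).2

def kA : SLᵐᵒᵖ →* Equiv.Perm (Q2 × Q2) where
  toFun γ :=
    { toFun := kp γ.unop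
      invFun := kp γ.unop⁻¹
      left_inv := fun p => by
        have h := γ.unop.det_coe
        rw [Matrix.det_fin_two] at h
        have h' : ((γ.unop 0 0 : ℤ) : ℚ) * γ.unop 1 1 - γ.unop 0 1 * γ.unop 1 0 = 1 := by
          exact_mod_cast h
        ext <;> simp [kp, Matrix.SpecialLinearGroup.coe_inv, Matrix.adjugate_fin_two] <;> grind
      right_inv := fun p => by
        have h := γ.unop.det_coe
        rw [Matrix.det_fin_two] at h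
        have h' : ((γ.unop 0 0 : ℤ) : ℚ) * γ.unop 1 1 - γ.unop 0 1 * γ.unop 1 0 = 1 := by
          exact_mod_cast h
        ext <;> simp [kp, Matrix.SpecialLinearGroup.coe_inv, Matrix.adjugate_fin_two] <;> grind }
  map_one' := by ext1 p; simp [kp]
  map_mul' g h := by
    ext1 p
    ext <;> simp [kp, Matrix.mul_apply, Fin.sum_univ_two] <;> ring

def det2 (X : Q2 × Q2) : ℚ := X.1.1 * X.2.2 - X.1.2 * X.2.1

open Classical in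
/-- coefficients of the one variable Dirichlet series -/
def Dco (s : ℍ → ℍ → ℂ) (d : ℕ) (v : U6 → U6 → ℂ) (n : ℕ) : ℂ :=
  dmean kA ⊤ fun X => if |det2 X| = n then bX s d v X.1 X.2 else 0

structure Nice0 (d M : ℕ) (v : U6 → U6 → ℂ) : Prop where
  lev : LevV d M v
  kT : kap2 ModularGroup.T v = v
  sc1 : ∀ a : ℤ, IsCoprime a M → ∀ u' u, IsInt ((M : ℚ) • u') → v ((a : ℚ) • u') u = v u' u
  sc2 : ∀ a : ℤ, IsCoprime a M → ∀ u' u, IsInt ((M : ℚ) • u) → v u' ((a : ℚ) • u) = v u' u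

/-- the vectors to which the analytic argument applies -/
structure Nice (d M : ℕ) (v : U6 → U6 → ℂ) : Prop extends Nice0 d M v where
  hT : ∀ u' u, v u' u ≠ 0 → IsInt (QU d u')
  kall : ∀ γ, kap2 γ v = v
  hdet : ∀ u' u, v u' u ≠ 0 → IsInt (det2 (u'.2, u.2))

/-! ### theta kernels and Rankin-Selberg integrals -/

def lin (w : Q2) (τ : ℍ) : ℂ := (w.1 : ℂ) * τ + w.2

def gau (w : Q2) (τ : ℍ) (t : ℝ) : ℂ := ((Real.exp (-π * t * ‖lin w τ‖ ^ 2 / τ.im) : ℝ) : ℂ)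

def K1 (c : Q2 → ℂ) (τ : ℍ) (t : ℝ) : ℂ := ∑' w : Q2, c w * (lin w τ / τ.im) * gau w τ t

def EE (c : Q2 → ℂ) (τ : ℍ) : ℂ := ∫ t in Set.Ioi (0 : ℝ), K1 c τ t

open Classical in
def R0 (F : Q2 → ℍ → ℂ) (t : ℝ) : ℂ :=
  hmean fun τ => ∑' w : Q2, if w = 0 then 0 else F w τ * gau w τ t

def R1 (F : Q2 → ℍ → ℂ) (t : ℝ) : ℂ := hmean fun τ => (τ.im : ℂ) ^ 2 * K1 (fun w => F w τ) τ t

structure Fam0 (M : ℕ) (C : ℝ) (F : Q2 → ℍ → ℂ) : Prop where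
  lev : ∀ τ, Lev M fun w => F w τ
  cont : ∀ w, Continuous (F w)
  eqv : ∀ w γ τ, F (vm w γ) τ = F w (γ • τ)
  bd : ∀ w τ, ‖F w τ‖ ≤ C

structure Fam1 (M : ℕ) (C : ℝ) (F : Q2 → ℍ → ℂ) : Prop where
  lev : ∀ τ, Lev M fun w => F w τ
  cont : ∀ w, Continuous (F w)
  eqv : ∀ w γ τ, jf γ τ ^ 2 * conj (jf γ τ) * F (vm w γ) τ = F w (γ • τ)
  bd : ∀ w τ, τ.im ^ (3 / 2 : ℝ) * ‖F w τ‖ ≤ C

def Fhat (F : Q2 → ℍ → ℂ) (w : Q2) (τ : ℍ) : ℂ := FS (fun v => F v τ) w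

def ChiEq (d M : ℕ) (c : Q2 → ℂ) : Prop :=
  ∀ n : ℤ, IsCoprime n M → ∀ w : Q2, (∃ k : ℕ, IsInt (((M ^ k : ℕ) : ℚ) • w)) →
    c ((n : ℚ) • w) = chi d n * c w

def BB (d : ℕ) (u : ℍ → ℂ) (ω : Q3 × ℚ → ℂ) (c : Q2 → ℂ) : ℂ :=
  hmean fun τ => (τ.im : ℂ) ^ 2 * JF d u ω τ * EE c τ

/-- partial Fourier transform in the second coordinate -/
def ctil (c : Q2 → ℂ) (w : Q2) : ℂ := F1 1 (fun x => c (w.1, x)) w.2

/-- `x` is divisible by `p ^ k` -/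
def pdiv (p : ℕ) (k : ℤ) (x : ℚ) : Prop := x = 0 ∨ k ≤ padicValRat p x

def Aniso (d p : ℕ) : Prop :=
  ∃ c : ℕ, ∀ (k : ℤ) (z : Q2), pdiv p (2 * k + c) (Nm d z) → pdiv p k z.1 ∧ pdiv p k z.2

/-- the support condition under which the weight one Eisenstein series vanishes -/
def Incoh (d M : ℕ) (c : Q2 → ℂ) : Prop :=
  ∀ w, ctil c w ≠ 0 → w.1 * w.2 ≠ 0 ∧ (w.1 * w.2 < 0 →
    ∃ p : ℕ, p.Prime ∧ ¬ p ∣ M ∧ chi d p = -1 ∧ Odd (padicValRat p (w.1 * w.2)))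

/-- translation by `b` in the mixed model; the variables are `((c, k), z)` -/
def nO (d : ℕ) (b : ℚ) (Ω : Q2 × Q2 → ℂ) (p : Q2 × Q2) : ℂ :=
  eq (-b * Nm d p.2) * Ω ((p.1.1, p.1.2 + b * p.1.1), p.2)

def nC (b : ℚ) (c : Q2 → ℂ) (w : Q2) : ℂ := c (w.1, w.2 - b * w.1)

def sO (d : ℕ) (Ω : Q2 × Q2 → ℂ) (p : Q2 × Q2) : ℂ := FL d (fun z => Ω ((p.1.2, -p.1.1), z)) p.2

def sC (c : Q2 → ℂ) (w : Q2) : ℂ := c (-w.2, w.1)

def cO (β : ℚ) (Ω : Q2 × Q2 → ℂ) (p : Q2 × Q2) : ℂ :=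
  eq ((2 * β * p.2.1 - β ^ 2 * p.1.1) * p.1.2) * Ω (p.1, (p.2.1 - β * p.1.1, p.2.2))

/-- from the mixed model back to functions on `Q3 × ℚ` -/
def unsh (Ω : Q2 × Q2 → ℂ) (Y : Q3 × ℚ) : ℂ :=
  II fun k : ℚ => Ω ((Y.1.2.2, k), (Y.1.2.1, Y.2)) * eq (-(Y.1.1 * k))

/-! ### convolutions on the plane -/

def Expo (g : ℝ × ℝ → ℂ) (x : ℝ × ℝ) : Prop :=
  ∃ C : ℝ, ∀ ξ, ‖g ξ‖ ≤ C * Real.exp (-(x.1 * ξ.1 + x.2 * ξ.2))

def Base (A : ℝ) (g : ℝ × ℝ → ℂ) : Prop :=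
  Measurable g ∧ ∀ x : ℝ × ℝ, A < x.1 → x.1 + 2 < x.2 → Expo g x

def cv (α : ℝ × ℝ) (g : ℝ × ℝ → ℂ) (k : ℝ → ℂ) (ξ : ℝ × ℝ) : ℂ := ∫ u : ℝ, g (ξ - u • α) * k u

/-- kernels with all nonnegative exponents -/
def Half (k : ℝ → ℂ) : Prop :=
  Measurable k ∧ ∀ r : ℝ, 0 ≤ r → ∃ C : ℝ, ∀ u, ‖k u‖ ≤ C * Real.exp (-(r * u))

/-- kernels with all exponents -/
def Full (k : ℝ → ℂ) : Prop :=
  Measurable k ∧ ∀ r : ℝ, ∃ C : ℝ, ∀ u, ‖k u‖ ≤ C * Real.exp (-(r * u))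

def LK (k : ℝ → ℂ) (r : ℂ) : ℂ := ∫ u : ℝ, k u * cexp (r * u)

/-- `(1 - τ) (1 - exp 1 * τ) k`, where `τ k u = k (u + 2)` -/
def flat (k : ℝ → ℂ) (u : ℝ) : ℂ := k u - (1 + cexp 1) * k (u + 2) + cexp 1 * k (u + 4)

/-- the shape of the residue terms -/
def resT (P : ℝ → ℂ) (ξ : ℝ × ℝ) : ℂ := (Real.exp (-(ξ.2 - ξ.1) / 4) : ℂ) * P (ξ.1 + ξ.2)

open Classical in
def ker0 (c : ℚ → ℂ) (u : ℝ) : ℂ := (Real.exp (u / 2) : ℂ) *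
  ∑' n : ℚ, if 0 < n then c n * ((Real.exp (-π * n ^ 2 * Real.exp u) : ℝ) : ℂ) else 0

open Classical in
def ker1 (c : ℚ → ℂ) (u : ℝ) : ℂ := (Real.exp u : ℂ) *
  ∑' n : ℚ, if 0 < n then c n * n * ((Real.exp (-π * n ^ 2 * Real.exp u) : ℝ) : ℂ) else 0

open Classical in
/-- indicator function of the integers prime to `M` -/
def un (M : ℕ) (n : ℚ) : ℂ := if n.den = 1 ∧ IsCoprime n.num M then 1 else 0

def chiq (d M : ℕ) (n : ℚ) : ℂ := un M n * chi d n.num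

/-! ### Hecke operators -/

open Classical in
/-- indicator function of the integral matrices that reduce to `μ` -/
def ind (N : ℕ) (μ : R2 N) (Y : M2) : ℂ := if ∃ Z : Z2, castZ Z = Y ∧ red N Z = μ then 1 else 0

/-- sum over the left cosets of `Γ(N)` in the matrices of determinant `n` that reduce to `μ` -/
def HK (N : ℕ) (μ : R2 N) (n : ℕ) (u : ℍ → ℂ) (σ : ℍ) : ℂ :=
  ((Gamma N).index : ℂ) * G2 u σ (ind N μ) n

def Tn (N n : ℕ) : (ℍ → ℂ) → ℍ → ℂ := HK N !![1, 0; 0, (n : ZMod N)] n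

def Dia (N : ℕ) (a : ZMod N) : (ℍ → ℂ) → ℍ → ℂ := HK N !![a⁻¹, 0; 0, a] 1

/-- apply operators in both variables -/
def op2 (A B : (ℍ → ℂ) → ℍ → ℂ) (s : ℍ → ℍ → ℂ) (τ σ : ℍ) : ℂ :=
  A (fun τ' => B (s τ') σ) τ

/-- a normalised eigenform with character, supported on integers prime to `N` -/
structure IsEig (N : ℕ) (lam : ℕ → ℂ) (ε : DirichletCharacter ℂ N) : Prop where
  one : lam 1 = 1
  supp : ∀ n, lam n ≠ 0 → n.Coprime N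
  hecke : ∀ p n : ℕ, p.Prime → p.Coprime N → n.Coprime N → 0 < n →
    lam p * lam n = lam (p * n) + if p ∣ n then p * ε p * lam (n / p) else 0
  form : ∃ f : ℍ → ℂ, Cusp (N ^ 2) f ∧
    (∀ τ : ℍ, HasSum (fun n : ℕ => lam n * e (n * τ)) (f τ)) ∧
    ∀ γ : SL, ((N ^ 2 : ℕ) : ℤ) ∣ γ 1 0 → sl 2 γ f = ε (γ 1 1 : ℤ) • f

/-- the basic functional -/
def ell (s : ℍ → ℍ → ℂ) (d N : ℕ) (μ : R2 N × R2 N) : ℂ :=
  aS s 1 0 d fun y' y => ind N μ.1 y' * ind N μ.2 y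

/-- conjugation by `diag (1, a)` -/
def tw (N : ℕ) (a : ZMod N) (μ : R2 N × R2 N) : R2 N × R2 N :=
  (!![1, 0; 0, a⁻¹] * μ.1 * !![1, 0; 0, a], !![1, 0; 0, a⁻¹] * μ.2 * !![1, 0; 0, a])

open Classical in
/-- the test vector attached to `μ` -/
def vmu (N : ℕ) (μ : R2 N × R2 N) (u' u : U6) : ℂ :=
  if IsInt u'.2 ∧ IsInt u.2 ∧ IsCoprime (det2 (u'.2, u.2)).num N then
    ind N ((u'.2.1.num : ZMod N) • μ.1 + (u'.2.2.num : ZMod N) • μ.2) u'.1 *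
      ind N ((u.2.1.num : ZMod N) • μ.1 + (u.2.2.num : ZMod N) • μ.2) u.1 else 0

/-- number of ideals of norm `k` -/
def rK (d k : ℕ) : ℂ := ∑ m ∈ k.divisors, chi d m

end

end Pool.Agent.P.MP_b8021b_nt.CM
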