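import Pool.Agent.P.MP_b8021b_nt.CM.Lib

/-! Package P8, first file: Laurent expansions as a ring map, gluing of quotients. -/

namespace Pool.Agent.P.MP_b8021b_nt.CM

open Complex hiding Gamma
open UpperHalfPlane hiding I
open MeasureTheory CongruenceSubgroup Filter
open scoped Real MatrixGroups ModularForm Topology ComplexConjugate Modular

noncomputable section

namespace DualP

abbrev LL := HahnSeries ℤ ℂ

/-- no terms below `a` -/
def Lo (a : ℤ) (x : LL) : Prop := ∀ n < a, x.coeff n = 0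

theorem Lo.coeff_mul {a b : ℤ} {x y : LL} (hx : Lo a x) (hy : Lo b y) (n : ℤ) :
    (x * y).coeff n = ∑ k ∈ Finset.Icc a (n - b), x.coeff k * y.coeff (n - k) := by
  rw [HahnSeries.coeff_mul]
  symm
  refine Finset.sum_bij_ne_zero (fun k _ _ => (k, n - k)) ?_ ?_ ?_ ?_
  · intro k _ h
    rw [Finset.mem_antidiagonal]
    exact ⟨left_ne_zero_of_mul h, right_ne_zero_of_mul h, by simp⟩
  · intro k _ _ l _ _ h
    exact congrArg Prod.fst h
  · rintro ⟨i, j⟩ h h0
    rw [Finset.mem_antidiagonal] at h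
    obtain ⟨h1, h2, h3⟩ := h
    simp only at h1 h2 h3 h0
    have e1 : n - i = j := by omega
    have hi : a ≤ i := not_lt.1 fun h => h1 (hx i h)
    have hj : b ≤ j := not_lt.1 fun h => h2 (hy j h)
    exact ⟨i, Finset.mem_Icc.2 ⟨hi, by omega⟩, by rw [e1]; exact h0, by rw [e1]⟩
  · intro k _ _
    rfl

theorem Lo.mul {a b : ℤ} {x y : LL} (hx : Lo a x) (hy : Lo b y) : Lo (a + b) (x * y) := by
  intro n hn
  rw [hx.coeff_mul hy, Finset.Icc_eq_empty (by omega), Finset.sum_empty]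

theorem Lo.coeff_lead {a b : ℤ} {x y : LL} (hx : Lo a x) (hy : Lo b y) :
    (x * y).coeff (a + b) = x.coeff a * y.coeff b := by
  rw [hx.coeff_mul hy, show a + b - b = a by ring, Finset.Icc_self, Finset.sum_singleton,
    show a + b - a = b by ring]

theorem lo_one : Lo 0 1 := by
  intro n hn
  rw [HahnSeries.coeff_one, if_neg hn.ne]

theorem Lo.pow {a : ℤ} {x : LL} (hx : Lo a x) (t : ℕ) :
    Lo (t * a) (x ^ t) ∧ (x ^ t).coeff (t * a) = x.coeff a ^ t := by
  induction t with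
  | zero => exact ⟨by simpa using lo_one, by simp⟩
  | succ t ih =>
    have e1 : ((t + 1 : ℕ) : ℤ) * a = t * a + a := by push_cast; ring
    rw [pow_succ, e1]
    exact ⟨ih.1.mul hx, by rw [ih.1.coeff_lead hx, ih.2, pow_succ]⟩

theorem exists_lo (x : LL) : ∃ a, Lo a x :=
  ⟨x.order, fun _ hn => HahnSeries.coeff_eq_zero_of_lt_order hn⟩

/-- exponents in the class `a` -/
def Cls (M : ℕ) (a : ZMod M) (x : LL) : Prop := ∀ n : ℤ, (n : ZMod M) ≠ a → x.coeff n = 0

theorem Cls.mul {M : ℕ} {a b : ZMod M} {x y : LL} (hx : Cls M a x) (hy : Cls M b y) :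
    Cls M (a + b) (x * y) := by
  intro n hn
  obtain ⟨c, hc⟩ := exists_lo x
  obtain ⟨d, hd⟩ := exists_lo y
  rw [hc.coeff_mul hd]
  refine Finset.sum_eq_zero fun k _ => ?_
  by_cases h : (k : ZMod M) = a
  · rw [hy (n - k) fun h' => hn (by push_cast at h'; linear_combination h + h'), mul_zero]
  · rw [hx k h, zero_mul]

theorem Cls.pow {M : ℕ} {x : LL} (hx : Cls M 0 x) (t : ℕ) : Cls M 0 (x ^ t) := by
  induction t with
  | zero =>
    intro n hn
    rw [pow_zero, HahnSeries.coeff_one, if_neg]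
    rintro rfl
    simp at hn
  | succ t ih => simpa [pow_succ] using ih.mul hx

/-- a series orthogonal to all powers of `J` is a polynomial in `J` times `J'` -/
theorem ps {M : ℕ} (hM : 0 < M) {J J' : LL} (cJ : Cls M 0 J) (cJ' : Cls M 0 J')
    (lJ : Lo (-M) J) (lJ' : Lo (-M) J') (nJ : J.coeff (-M) ≠ 0) (nJ' : J'.coeff (-M) ≠ 0)
    (h0 : ∀ t : ℕ, (J' * J ^ t).coeff 0 = 0) (U : LL → Prop) (U0 : U 0)
    (Ua : ∀ x (c : ℂ) (N : ℕ), U x → U (x + HahnSeries.C c * J ^ N)) (N : ℕ) :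
    ∀ P : LL, Cls M 0 P → Lo (-(N * M)) P → (∀ t : ℕ, (P * J ^ t).coeff 0 = 0) →
      ∃ u, U u ∧ P = u * J' := by
  induction N with
  | zero =>
    intro P cP lP hP
    refine ⟨0, U0, ?_⟩
    rw [zero_mul]
    by_contra hne
    have h1 : P.coeff P.order ≠ 0 := HahnSeries.coeff_order_eq_zero.not.2 hne
    have h2 : 0 ≤ P.order := not_lt.1 fun h => h1 (lP _ (by simpa using h))
    have h3 : (M : ℤ) ∣ P.order := by
      rw [← ZMod.intCast_zmod_eq_zero_iff_dvd]
      by_contra h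
      exact h1 (cP _ h)
    obtain ⟨t, ht⟩ := h3
    have h4 : 0 ≤ t := by
      by_contra h
      have : (M : ℤ) * t < 0 := mul_neg_of_pos_of_neg (by exact_mod_cast hM) (not_le.1 h)
      omega
    lift t to ℕ using h4
    have lP' : Lo P.order P := fun _ hn => HahnSeries.coeff_eq_zero_of_lt_order hn
    have h5 := lP'.coeff_lead (lJ.pow t).1
    rw [(lJ.pow t).2, show P.order + t * -(M : ℤ) = 0 by rw [ht]; ring, hP] at h5
    exact mul_ne_zero h1 (pow_ne_zero _ nJ) h5.symm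
  | succ N ih =>
    intro P cP lP hP
    have l1 := (lJ.pow N).1.mul lJ'
    have c1 := (lJ.pow N).1.coeff_lead lJ'
    rw [(lJ.pow N).2] at c1
    have e1 : (N : ℤ) * -(M : ℤ) + -(M : ℤ) = -(((N + 1 : ℕ) : ℤ) * M) := by push_cast; ring
    rw [e1] at l1 c1
    have n1 : (J ^ N * J').coeff (-(((N + 1 : ℕ) : ℤ) * M)) ≠ 0 := by
      rw [c1]; exact mul_ne_zero (pow_ne_zero _ nJ) nJ'
    obtain ⟨c, hc⟩ : ∃ c : ℂ, c = P.coeff (-(((N + 1 : ℕ) : ℤ) * M)) /
      (J ^ N * J').coeff (-(((N + 1 : ℕ) : ℤ) * M)) := ⟨_, rfl⟩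
    have cl : Cls M 0 (J ^ N * J') := by simpa using (cJ.pow N).mul cJ'
    have cR : Cls M 0 (P - c • (J ^ N * J')) := by
      intro n hn
      rw [HahnSeries.coeff_sub, HahnSeries.coeff_smul, cP n hn, cl n hn]; simp
    have g1 : Lo (-(N * M)) (P - c • (J ^ N * J')) := by
      intro n hn
      rcases lt_trichotomy n (-(((N + 1 : ℕ) : ℤ) * M)) with h | h | h
      · rw [HahnSeries.coeff_sub, HahnSeries.coeff_smul, lP n h, l1 n h]; simp
      · rw [HahnSeries.coeff_sub, HahnSeries.coeff_smul, h, hc, smul_eq_mul,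
          div_mul_cancel₀ _ n1, sub_self]
      · refine cR n fun h' => ?_
        obtain ⟨s, rfl⟩ := (ZMod.intCast_zmod_eq_zero_iff_dvd _ _).1 h'
        have hM' : (0 : ℤ) < M := by exact_mod_cast hM
        push_cast at h hn
        have h1 : s < -(N : ℤ) := by nlinarith
        have h2 : -((N : ℤ) + 1) < s := by nlinarith
        omega
    have g2 : ∀ t : ℕ, ((P - c • (J ^ N * J')) * J ^ t).coeff 0 = 0 := by
      intro t
      have e2 : (P - c • (J ^ N * J')) * J ^ t = P * J ^ t - c • (J' * J ^ (N + t)) := by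
        rw [← HahnSeries.C_mul_eq_smul, ← HahnSeries.C_mul_eq_smul, pow_add]; ring
      rw [e2, HahnSeries.coeff_sub, HahnSeries.coeff_smul, hP, h0]; simp
    obtain ⟨Q, hU, hQ⟩ := ih (P - c • (J ^ N * J')) cR g1 g2
    refine ⟨_, Ua Q c N hU, ?_⟩
    rw [add_mul, ← hQ, mul_assoc, HahnSeries.C_mul_eq_smul]
    ring

/-! ### the ring of periodic functions with a pole at infinity -/

variable {M : ℕ} {f g : ℍ → ℂ}

theorem T_smul (M : ℕ) (τ : ℍ) : (ModularGroup.T ^ (M : ℤ)) • τ = (M : ℝ) +ᵥ τ := by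
  rw [UpperHalfPlane.modular_T_zpow_smul]; simp

theorem jf_TM (n : ℤ) (τ : ℍ) : jf (ModularGroup.T ^ n) τ = 1 := by
  simp [jf, ModularGroup.coe_T_zpow]

theorem per_der (h : Hol f) (hp : Per M f) : Per M (der f) := by
  intro τ
  have h1 := der_SL h (ModularGroup.T ^ (M : ℤ)) τ
  have h2 : (fun σ => f ((ModularGroup.T ^ (M : ℤ)) • σ)) = f := by
    funext σ; rw [T_smul, hp]
  rw [h2, jf_TM, T_smul] at h1
  simpa using h1.symm

def Adm (M : ℕ) (f : ℍ → ℂ) : Prop := Hol f ∧ Per M f ∧ ∃ a : ℤ, ∀ n < a, coef M f n = 0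

theorem InG.adm (hM : 0 < M) (h : InG f) (hp : Per M f) : Adm M f :=
  ⟨h.1, hp, (h.exists_pole hM hp).elim fun n hn => ⟨-n, hn⟩⟩

theorem Adm.deriv (hM : 0 < M) (h : Adm M f) : Adm M (der f) := by
  obtain ⟨h1, h2, a, ha⟩ := h
  exact ⟨h1.deriv, per_der h1 h2, a, fun n hn => by rw [coef_der hM h1 h2, ha n hn, mul_zero]⟩

def AD (M : ℕ) [NeZero M] : Subalgebra ℂ (ℍ → ℂ) where
  carrier := {f | Adm M f}
  mul_mem' := by
    rintro f g ⟨h1, h2, a, ha⟩ ⟨g1, g2, b, hb⟩
    refine ⟨h1.mul g1, fun τ => by simp [h2 τ, g2 τ], a + b, fun n hn => ?_⟩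
    rw [coef_mul (NeZero.pos M) h1 h2 g1 g2 ha hb, Finset.Icc_eq_empty (by omega),
      Finset.sum_empty]
  add_mem' := by
    rintro f g ⟨h1, h2, a, ha⟩ ⟨g1, g2, b, hb⟩
    refine ⟨h1.add g1, fun τ => by simp [h2 τ, g2 τ], min a b, fun n hn => ?_⟩
    rw [coef_add h1.continuous g1.continuous, ha n (by omega), hb n (by omega), add_zero]
  algebraMap_mem' c := ⟨hol_const c, fun _ => rfl, 0, fun n hn => by
    have := coef_const (NeZero.pos M) c n
    rw [if_neg hn.ne] at this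
    exact this⟩

variable [NeZero M]

/-- the expansion at infinity -/
def io (M : ℕ) [NeZero M] : AD M →+* LL where
  toFun f := HahnSeries.ofSuppBddBelow (coef M f) (f.2.2.2.elim fun a ha =>
    ⟨a, fun n hn => not_lt.1 fun h => hn (ha n h)⟩)
  map_one' := by
    ext n
    rw [HahnSeries.coeff_ofSuppBddBelow, HahnSeries.coeff_one]
    exact (coef_const (NeZero.pos M) 1 n).trans (by congr)
  map_zero' := by
    ext n
    rw [HahnSeries.coeff_ofSuppBddBelow, HahnSeries.coeff_zero]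
    exact (coef_const (NeZero.pos M) 0 n).trans (ite_self _)
  map_add' f g := by
    ext n
    simp only [HahnSeries.coeff_ofSuppBddBelow, HahnSeries.coeff_add]
    exact coef_add f.2.1.continuous g.2.1.continuous n
  map_mul' f g := by
    ext n
    obtain ⟨h1, h2, a, ha⟩ := f.2
    obtain ⟨g1, g2, b, hb⟩ := g.2
    exact (coef_mul (NeZero.pos M) h1 h2 g1 g2 ha hb n).trans
      (Lo.coeff_mul (x := HahnSeries.ofSuppBddBelow _ _) (y := HahnSeries.ofSuppBddBelow _ _)
        ha hb n).symm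

theorem io_coeff (f : AD M) (n : ℤ) : (io M f).coeff n = coef M f n := rfl

theorem io_inj : Function.Injective (io M) := fun f g h =>
  Subtype.ext (eq_of_coef (NeZero.pos M) f.2.1 f.2.2.1 g.2.1 g.2.2.1 fun n => by
    rw [← io_coeff, h, io_coeff])

theorem io_const (c : ℂ) : io M (algebraMap ℂ (AD M) c) = HahnSeries.C c := by
  ext n
  rw [io_coeff, HahnSeries.C_apply, HahnSeries.coeff_single]
  exact (coef_const (NeZero.pos M) c n).trans (by congr)

theorem adm_of_high (h : Hol f) (hp : Per M f) {Y K w : ℝ}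
    (hb : ∀ τ : ℍ, Y < τ.im → ‖f τ‖ ≤ K * Real.exp (w * τ.im)) : Adm M f := by
  have hM : (0 : ℝ) < M := by exact_mod_cast NeZero.pos M
  refine ⟨h, hp, ⌊-w * M / (2 * π)⌋, fun n hn => ?_⟩
  have h1 : (n : ℝ) < -w * M / (2 * π) := lt_of_lt_of_le (by exact_mod_cast hn) (Int.floor_le _)
  have h2 : w + 2 * π * n / M < 0 := by
    rw [lt_div_iff₀ (by positivity)] at h1
    have : w + 2 * π * n / M = (n * (2 * π) - -w * M) / M := by field_simp; ring
    rw [this]
    exact div_neg_of_neg_of_pos (by linarith) hM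
  have h3 : Tendsto (fun y : ℝ => K * Real.exp ((w + 2 * π * n / M) * y)) atTop (𝓝 (K * 0)) :=
    (Real.tendsto_exp_atBot.comp (tendsto_id.const_mul_atTop_of_neg h2)).const_mul K
  rw [mul_zero] at h3
  refine norm_le_zero_iff.1 (ge_of_tendsto h3 ?_)
  filter_upwards [eventually_gt_atTop Y, eventually_gt_atTop 0] with y hy hy0
  have h4 : ∀ u : ℝ, (pt u y).im = y := fun u => by
    rw [← UpperHalfPlane.coe_im, coe_pt u hy0]; simp
  refine (norm_coef_le (NeZero.pos M) h hp n hy0 (B := K * Real.exp (w * y)) fun u _ _ => ?_).trans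
    (le_of_eq ?_)
  · have := hb (pt u y) (by rw [h4]; exact hy)
    rwa [h4] at this
  · rw [mul_assoc, ← Real.exp_add]; congr 2; ring

/-- two sided bounds at infinity -/
theorem high_bounds (f : AD M) (h0 : f ≠ 0) : ∃ Y c w : ℝ, 0 < c ∧ ∀ τ : ℍ, Y < τ.im →
    c * Real.exp (w * τ.im) ≤ ‖f.1 τ‖ ∧ ‖f.1 τ‖ ≤ 3 * c * Real.exp (w * τ.im) := by
  have h1 : io M f ≠ 0 := fun h => h0 (io_inj (by rw [h, map_zero]))
  obtain ⟨a, ha⟩ : ∃ a, a = (io M f).order := ⟨_, rfl⟩
  have h2 : coef M f a ≠ 0 := ha ▸ HahnSeries.coeff_order_eq_zero.not.2 h1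
  have h3 := tendsto_leading (NeZero.pos M) f.2.1 f.2.2.1 (a := a) fun n hn =>
    HahnSeries.coeff_eq_zero_of_lt_order (ha ▸ hn)
  have h4 : 0 < ‖coef M f a‖ / 2 := by positivity
  have h5 := (Metric.tendsto_nhds.1 h3) _ h4
  obtain ⟨Y, hY⟩ := (atImInfty_mem _).1 h5
  refine ⟨Y, _, -2 * π * a / M, h4, fun τ hτ => ?_⟩
  have h6 : dist (f.1 τ * e (-(a * τ / M))) (coef M f a) < ‖coef M f a‖ / 2 := hY τ hτ.le
  rw [dist_eq_norm] at h6
  have h7 := abs_norm_sub_norm_le (f.1 τ * e (-(a * τ / M))) (coef M f a)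
  have h8 : ‖f.1 τ‖ = ‖f.1 τ * e (-(a * τ / M))‖ * Real.exp (-2 * π * a / M * τ.im) := by
    rw [norm_mul, norm_e, mul_assoc, ← Real.exp_add]
    have : (-((a : ℂ) * τ / M)).im = -(a * τ.im / M) := by
      rw [show (a : ℂ) * τ / M = ((a / M : ℝ) : ℂ) * τ by push_cast; ring, neg_im, im_ofReal_mul]
      simp; ring
    rw [this, show -2 * π * -(a * τ.im / M) + -2 * π * a / M * τ.im = 0 by ring]
    simp
  rw [abs_le] at h7
  rw [h8]
  constructor <;> refine mul_le_mul_of_nonneg_right (by linarith [h7.1, h7.2]) (Real.exp_pos _).le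

/-- a series that is locally a quotient of functions is the expansion of a function -/
theorem glue (G : LL) (h : ∀ τ : ℍ, ∃ d N : AD M, d.1 τ ≠ 0 ∧ io M d * G = io M N) :
    ∃ Φ : AD M, io M Φ = G := by
  choose d N hd hN using h
  obtain ⟨Φ, hΦ⟩ : ∃ Φ : ℍ → ℂ, Φ = fun τ => (N τ).1 τ / (d τ).1 τ := ⟨_, rfl⟩
  have key : ∀ σ τ, Φ τ * (d σ).1 τ = (N σ).1 τ := by
    intro σ τ
    have h1 : N τ * d σ = N σ * d τ := io_inj (by rw [map_mul, map_mul, ← hN, ← hN]; ring)
    have h2 : (N τ).1 τ * (d σ).1 τ = (N σ).1 τ * (d τ).1 τ := congrFun (congrArg Subtype.val h1) τ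
    rw [hΦ]
    field_simp [hd τ]
    rw [h2, mul_comm]
  have hol : Hol Φ := by
    intro z hz
    obtain ⟨σ, rfl⟩ : ∃ σ : ℍ, (σ : ℂ) = z := ⟨⟨z, hz⟩, rfl⟩
    have a1 := ((N σ).2.1.analyticAt σ).differentiableAt
    have a2 := ((d σ).2.1.analyticAt σ).differentiableAt
    have a3 : ((d σ).1 ∘ ofComplex) σ ≠ 0 := by simpa using hd σ
    refine ((a1.div a2 a3).congr_of_eventuallyEq ?_).differentiableWithinAt
    filter_upwards [a2.continuousAt.eventually_ne a3] with w hw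
    exact eq_div_of_mul_eq hw (key σ _)
  have per : Per M Φ := by
    intro τ
    have h1 := key τ ((M : ℝ) +ᵥ τ)
    rw [(d τ).2.2.1, (N τ).2.2.1, ← key τ τ] at h1
    exact mul_right_cancel₀ (hd τ) h1
  have d0 : d UpperHalfPlane.I ≠ 0 := fun h0 => hd UpperHalfPlane.I (by rw [h0]; rfl)
  have adm : Adm M Φ := by
    obtain ⟨Y, c, w, hc, hb⟩ := high_bounds _ d0
    by_cases h0 : N UpperHalfPlane.I = 0
    · refine adm_of_high hol per (Y := Y) (K := 0) (w := 0) fun τ hτ => ?_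
      have h1 := key UpperHalfPlane.I τ
      have h2 : 0 < ‖(d UpperHalfPlane.I).1 τ‖ := lt_of_lt_of_le (by positivity) (hb τ hτ).1
      rw [h0] at h1
      have h3 := (mul_eq_zero.1 h1).resolve_right (norm_pos_iff.1 h2)
      simp [h3]
    · obtain ⟨Y', c', w', hc', hb'⟩ := high_bounds _ h0
      refine adm_of_high hol per (Y := max Y Y') (K := 3 * c' / c) (w := w' - w) fun τ hτ => ?_
      have h1 := (hb τ (lt_of_le_of_lt (le_max_left _ _) hτ)).1
      have h2 := (hb' τ (lt_of_le_of_lt (le_max_right _ _) hτ)).2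
      rw [← key UpperHalfPlane.I τ, norm_mul] at h2
      have h3 := (mul_le_mul_of_nonneg_left h1 (norm_nonneg (Φ τ))).trans h2
      rw [← le_div_iff₀ (by positivity)] at h3
      refine h3.trans (le_of_eq ?_)
      rw [sub_mul, Real.exp_sub]
      field_simp
  refine ⟨⟨Φ, adm⟩, ?_⟩
  have h1 : (⟨Φ, adm⟩ : AD M) * d UpperHalfPlane.I = N UpperHalfPlane.I :=
    Subtype.ext (funext (key _))
  have h2 : io M (d UpperHalfPlane.I) ≠ 0 := fun h => d0 (io_inj (by rw [h, map_zero]))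
  refine mul_left_cancel₀ h2 ?_
  rw [hN, ← h1, map_mul, mul_comm]

/-- Cramer's rule -/
theorem cramer {V : Type} [Fintype V] [DecidableEq V] (G : V → LL)
    (h : ∀ (τ : ℍ) (c : V → ℂ), (∀ (F : V → AD M) (W : AD M), ∑ μ, G μ * io M (F μ) = io M W →
      ∑ μ, c μ * (F μ).1 τ = 0) → c = 0) (μ : V) : ∃ Φ : AD M, io M Φ = G μ := by
  refine glue _ fun τ => ?_
  let S : Submodule ℂ (V → ℂ) :=
    { carrier := {v | ∃ (F : V → AD M) (W : AD M), ∑ μ, G μ * io M (F μ) = io M W ∧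
        ∀ μ, (F μ).1 τ = v μ}
      add_mem' := by
        rintro v v' ⟨F, W, h1, h2⟩ ⟨F', W', h1', h2'⟩
        refine ⟨F + F', W + W', ?_, fun μ => by simp [h2, h2']⟩
        simp only [Pi.add_apply, map_add, mul_add, Finset.sum_add_distrib, h1, h1']
      zero_mem' := ⟨0, 0, by simp, fun μ => rfl⟩
      smul_mem' := by
        rintro c v ⟨F, W, h1, h2⟩
        refine ⟨fun μ => algebraMap ℂ (AD M) c * F μ, algebraMap ℂ (AD M) c * W, ?_,
          fun μ => by simp [← h2]⟩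
        simp only [map_mul, ← h1, Finset.mul_sum]
        exact Finset.sum_congr rfl fun _ _ => by ring }
  have hS : S = ⊤ := by
    by_contra hne
    obtain ⟨φ, hφ, hk⟩ := S.exists_le_ker_of_lt_top (lt_top_iff_ne_top.2 hne)
    have h1 := h τ (fun μ => φ fun j => if μ = j then 1 else 0) fun F W hF => by
      have h2 : φ (fun μ => (F μ).1 τ) = 0 := hk ⟨F, W, hF, fun _ => rfl⟩
      rw [LinearMap.pi_apply_eq_sum_univ] at h2
      simpa [mul_comm] using h2
    refine hφ (LinearMap.ext fun v => ?_)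
    rw [LinearMap.pi_apply_eq_sum_univ]
    refine Finset.sum_eq_zero fun i _ => ?_
    rw [show (φ fun j => if i = j then 1 else 0) = 0 from congrFun h1 i, smul_zero]
  have h3 : ∀ i : V, ∃ (F : V → AD M) (W : AD M), ∑ μ, G μ * io M (F μ) = io M W ∧
      ∀ μ, (F μ).1 τ = (1 : Matrix V V ℂ) i μ := fun i =>
    (hS ▸ Submodule.mem_top : (fun μ => (1 : Matrix V V ℂ) i μ) ∈ S)
  choose B W hB hB1 using h3
  obtain ⟨B', hB'⟩ : ∃ B' : Matrix V V (AD M), B' = Matrix.of B := ⟨_, rfl⟩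
  refine ⟨B'.det, ∑ i, B'.adjugate μ i * W i, ?_, ?_⟩
  · let ev : AD M →+* ℂ := (Pi.evalRingHom (fun _ : ℍ => ℂ) τ).comp (AD M).val.toRingHom
    have h4 : ev B'.det = 1 := by
      rw [RingHom.map_det, show ev.mapMatrix B' = 1 from ?_, Matrix.det_one]
      ext i j
      rw [hB']
      exact hB1 i j
    rw [show B'.det.1 τ = 1 from h4]
    exact one_ne_zero
  · have h4 : ∀ ν, ∑ i, B'.adjugate μ i * B i ν = if μ = ν then B'.det else 0 := fun ν => by
      have := congrFun (congrFun B'.adjugate_mul μ) ν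
      rw [Matrix.mul_apply, Matrix.smul_apply, Matrix.one_apply] at this
      simpa [hB'] using this
    simp only [map_sum, map_mul, ← hB, Finset.mul_sum]
    rw [Finset.sum_comm]
    have h5 : ∀ ν, ∑ i, io M (B'.adjugate μ i) * (G ν * io M (B i ν)) =
        if μ = ν then io M B'.det * G ν else 0 := fun ν => by
      have := congrArg (fun x => io M x * G ν) (h4 ν)
      simp only [map_sum, map_mul, Finset.sum_mul] at this
      rw [Finset.sum_congr rfl fun i _ => (by ring : io M (B'.adjugate μ i) * (G ν * io M (B i ν)) =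
        io M (B'.adjugate μ i) * io M (B i ν) * G ν), this]
      split_ifs <;> simp
    simp [h5]

end DualP

end

end Pool.Agent.P.MP_b8021b_nt.CM
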