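import Pool.Agent.P.MP_b8021b_nt.CM.E0Hil

/-! Package P21, second part: the incoherent Eisenstein series of weight one vanishes. -/

namespace Pool.Agent.P.MP_b8021b_nt.CM

open Complex hiding Gamma
open UpperHalfPlane hiding I
open MeasureTheory Set
open scoped Real

noncomputable section

namespace E0P

/-- the archimedean integrand -/
def gg (y a b t : ℝ) : ℝ := Real.sqrt (y / t) * (a - b / t) * Real.exp (-π * y * (t * a ^ 2 + b ^ 2 / t))

theorem gg_scale (y a b : ℝ) {l : ℝ} (hl : 0 < l) :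
    ∫ t in Ioi (0 : ℝ), gg y (l * a) (b / l) t = ∫ t in Ioi (0 : ℝ), gg y a b t := by
  have h := integral_comp_mul_left_Ioi' (gg y a b) 0 (b := l ^ 2) (by positivity)
  rw [mul_zero] at h
  rw [← h, ← integral_smul]
  refine setIntegral_congr_fun measurableSet_Ioi fun t ht => ?_
  have ht' : 0 < t := ht
  simp only [gg, smul_eq_mul]
  rw [show y / (l ^ 2 * t) = y / t / l ^ 2 by field_simp, Real.sqrt_div' _ (sq_nonneg l),
    Real.sqrt_sq hl.le, show l ^ 2 * t * a ^ 2 + b ^ 2 / (l ^ 2 * t) =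
      t * (l * a) ^ 2 + (b / l) ^ 2 / t by field_simp]
  field_simp

theorem gg_swap (y a b : ℝ) :
    ∫ t in Ioi (0 : ℝ), gg y a b t = -∫ t in Ioi (0 : ℝ), gg y b a t := by
  rw [← integral_comp_rpow_Ioi (gg y a b) (p := -1) (by norm_num), ← integral_neg]
  refine setIntegral_congr_fun measurableSet_Ioi fun t ht => ?_
  have ht' : 0 < t := ht
  simp only [gg, smul_eq_mul]
  rw [show (-1 - 1 : ℝ) = -2 by norm_num, Real.rpow_neg_one, Real.rpow_neg ht'.le, Real.rpow_two,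
    show y / t⁻¹ = y / t * t ^ 2 by field_simp, Real.sqrt_mul' _ (sq_nonneg t),
    Real.sqrt_sq ht'.le, show t⁻¹ * a ^ 2 + b ^ 2 / t⁻¹ = t * b ^ 2 + a ^ 2 / t by
      field_simp; ring]
  simp only [abs_neg, abs_one]
  field_simp
  ring

theorem gg_zero (y : ℝ) {a b : ℝ} (h : 0 < a * b) : ∫ t in Ioi (0 : ℝ), gg y a b t = 0 := by
  have ha : a ≠ 0 := by rintro rfl; simp at h
  have hb : b ≠ 0 := by rintro rfl; simp at h
  have hl : 0 < a / b := by
    rw [show a / b = a * b / b ^ 2 by field_simp]; positivity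
  have h1 := gg_scale y b a hl
  rw [show a / b * b = a by field_simp, show a / (a / b) = b by field_simp] at h1
  have h2 := gg_swap y a b
  linarith

/-- the majorant -/
def hh (c t : ℝ) : ℝ := t ^ (-(1 / 2) : ℝ) * Real.exp (-c * t ^ (1 : ℝ))

theorem gg_bound {y δ : ℝ} (hy : 0 < y) (hδ : 0 < δ) : ∃ K : ℝ, 0 ≤ K ∧ ∀ a b t : ℝ, δ ≤ |a| →
    δ ≤ |b| → 0 < t → |gg y a b t| ≤ K * ((a ^ 2)⁻¹ * (b ^ 2)⁻¹) * hh (π * y * δ ^ 2 / 2) t := by
  set c := π * y with hc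
  have hc0 : 0 < c := by positivity
  set c' := c * δ ^ 2 / 2 with hc'
  have hc1 : 0 < c' := by positivity
  refine ⟨Real.sqrt y * (6 / c ^ 3 / δ) * (1 + 1 / c'), by positivity, fun a b t ha hb ht => ?_⟩
  set x := |a| * |b| with hx
  have ha0 : 0 < |a| := hδ.trans_le ha
  have hb0 : 0 < |b| := hδ.trans_le hb
  have hx0 : 0 < x := by positivity
  have e1 : 2 * x ≤ t * a ^ 2 + b ^ 2 / t := by
    have : t * a ^ 2 + b ^ 2 / t - 2 * x = (t * |a| - |b|) ^ 2 / t := by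
      rw [← sq_abs a, ← sq_abs b, hx]; field_simp; ring
    have h2 : 0 ≤ (t * |a| - |b|) ^ 2 / t := by positivity
    linarith
  have e2 : δ ^ 2 * t + δ ^ 2 / t ≤ t * a ^ 2 + b ^ 2 / t := by
    rw [← sq_abs a, ← sq_abs b, mul_comm]
    gcongr
  have e3 : Real.exp (-π * y * (t * a ^ 2 + b ^ 2 / t)) ≤
      Real.exp (-(c * x)) * Real.exp (-(c' / t)) * Real.exp (-c' * t) := by
    rw [← Real.exp_add, ← Real.exp_add, Real.exp_le_exp]
    have : -(c * x) + -(c' / t) + -c' * t = -c / 2 * (2 * x + (δ ^ 2 * t + δ ^ 2 / t)) := by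
      rw [hc']; ring
    rw [this, show -π * y = -c by rw [hc]; ring]
    nlinarith
  have e4 : |a - b / t| ≤ x / δ * (1 + 1 / t) := by
    have h1 : |a| ≤ x / δ := by rw [le_div_iff₀ hδ, hx]; gcongr
    have h2 : |b| ≤ x / δ := by rw [le_div_iff₀ hδ, hx, mul_comm |a|]; gcongr
    refine (abs_sub _ _).trans ?_
    rw [abs_div, abs_of_pos ht, mul_add, mul_one, mul_one_div]
    gcongr
  have e5 : x * Real.exp (-(c * x)) ≤ 6 / c ^ 3 * ((a ^ 2)⁻¹ * (b ^ 2)⁻¹) := by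
    have h1 := Real.pow_div_factorial_le_exp (c * x) (by positivity) 3
    have h2 : (a ^ 2)⁻¹ * (b ^ 2)⁻¹ = (x ^ 2)⁻¹ := by
      rw [hx, mul_pow, sq_abs, sq_abs, mul_inv]
    rw [h2, Real.exp_neg, ← div_eq_mul_inv, div_le_iff₀ (Real.exp_pos _)]
    refine le_trans (le_of_eq ?_) (mul_le_mul_of_nonneg_left h1 (by positivity))
    simp only [Nat.factorial]
    field_simp
    norm_num
  have e6 : (1 + 1 / t) * Real.exp (-(c' / t)) ≤ 1 + 1 / c' := by
    have h1 : Real.exp (-(c' / t)) ≤ 1 := Real.exp_le_one_iff.2 (by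
      have : 0 < c' / t := by positivity
      linarith)
    have h2 : 1 / t * Real.exp (-(c' / t)) ≤ 1 / c' := by
      have h3 := Real.add_one_le_exp (c' / t)
      rw [Real.exp_neg, ← div_eq_mul_inv, div_le_iff₀ (Real.exp_pos _)]
      calc 1 / t = 1 / c' * (c' / t) := by field_simp
        _ ≤ _ := by gcongr; linarith
    linarith
  have e7 : Real.sqrt (y / t) = Real.sqrt y * t ^ (-(1 / 2) : ℝ) := by
    rw [Real.sqrt_div hy.le, Real.rpow_neg ht.le, Real.sqrt_eq_rpow t, div_eq_mul_inv]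
  have ht2 : 0 < t ^ (-(1 / 2) : ℝ) := Real.rpow_pos_of_pos ht _
  rw [gg, abs_mul, abs_mul, abs_of_nonneg (Real.sqrt_nonneg _), abs_of_pos (Real.exp_pos _), e7,
    hh, Real.rpow_one]
  calc _ ≤ Real.sqrt y * t ^ (-(1 / 2) : ℝ) * (x / δ * (1 + 1 / t)) *
        (Real.exp (-(c * x)) * Real.exp (-(c' / t)) * Real.exp (-c' * t)) := by gcongr
    _ = Real.sqrt y / δ * (x * Real.exp (-(c * x))) * ((1 + 1 / t) * Real.exp (-(c' / t))) *
        (t ^ (-(1 / 2) : ℝ) * Real.exp (-c' * t)) := by ring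
    _ ≤ Real.sqrt y / δ * (6 / c ^ 3 * ((a ^ 2)⁻¹ * (b ^ 2)⁻¹)) * (1 + 1 / c') *
        (t ^ (-(1 / 2) : ℝ) * Real.exp (-c' * t)) := by gcongr
    _ = _ := by ring

theorem hh_int {c : ℝ} (hc : 0 < c) : IntegrableOn (hh c) (Ioi 0) :=
  integrableOn_rpow_mul_exp_neg_mul_rpow (by norm_num) one_pos hc

theorem gg_meas (y a b : ℝ) : Measurable (gg y a b) := by
  unfold gg; fun_prop

theorem ctil_supp {N : ℕ} (hN : 0 < N) {c : Q2 → ℂ} (h : Lev N c) {w : Q2} (hw : ctil c w ≠ 0) :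
    IsInt ((N : ℚ) • w.1) ∧ IsInt ((N : ℚ) • w.2) := by
  refine ⟨?_, ((h.snd w.1).lev_F1 hN).2 _ hw⟩
  by_contra h1
  refine hw ?_
  have : ∀ x, c (w.1, x) = 0 := fun x => by
    by_contra h2
    exact h1 ((isInt_prod _).1 (h.2 _ h2)).1
  simp only [ctil, F1, this, zero_mul]
  exact II_zero

theorem lev_eq {N : ℕ} {φ : ℚ → ℂ} (h : Lev N φ) {k : ℚ} (hk : IsInt ((N : ℚ) • k)) :
    Lev N fun x => φ x * eq (1 * x * k) := by
  refine ⟨fun x l hl => ?_, fun x hx => h.2 x (left_ne_zero_of_mul hx)⟩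
  obtain ⟨a, rfl⟩ := (isInt_rat l).1 hl
  have h1 : eq ((a : ℚ) • (N : ℚ) • k) = 1 := (eq_eq_one_iff _).2 (hk.zsmul a)
  beta_reduce
  rw [h.1 x _ hl, show 1 * (x + (N : ℚ) • (a : ℚ)) * k = 1 * x * k + (a : ℚ) • (N : ℚ) • k by
    simp only [smul_eq_mul]; ring, eq_add, h1, mul_one]

theorem ctil_bdd {N : ℕ} (hN : 0 < N) {c : Q2 → ℂ} (h : Lev N c) :
    ∃ C : ℝ, 0 ≤ C ∧ ∀ w, ‖ctil c w‖ ≤ C := by
  obtain ⟨C, hC, h1⟩ := (h.sb hN).bdd
  refine ⟨idx ℚ N * C, by positivity, fun w => ?_⟩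
  by_cases hw : ctil c w = 0
  · rw [hw, norm_zero]; positivity
  · exact norm_II_le hN (lev_eq (h.snd w.1) (ctil_supp hN h hw).2) fun x => by
      rw [norm_mul, norm_eq, mul_one]; exact h1 _

theorem ctil_unit {d M k : ℕ} (hM : 0 < M) {c : Q2 → ℂ} (h : Lev (M ^ k) c) (hc : ChiEq d M c)
    {n : ℤ} (hn : IsCoprime n M) {a b : ℚ} (ha : IsInt (((M ^ k : ℕ) : ℚ) • a))
    (hb : IsInt (((M ^ k : ℕ) : ℚ) • b)) : ctil c (n * a, b) = chi d n * ctil c (a, n * b) := by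
  have hb' : IsInt (((M ^ k : ℕ) : ℚ) • ((n : ℚ) * b)) := by
    have := hb.zsmul n
    rwa [smul_comm] at this
  simp only [ctil, F1]
  rw [← II_const_mul]
  refine (II_unit (pow_pos hM k) (lev_eq (h.snd _) hb)
    ((lev_eq (h.snd a) hb').smul (chi d n)) (n := n) (by push_cast; exact hn.pow_right)
    fun x hx => ?_).symm
  have := hc n hn (a, x) ⟨k, (isInt_prod _).2 ⟨ha, hx⟩⟩
  simp only [Prod.smul_mk, smul_eq_mul, Pi.smul_apply] at this ⊢
  rw [this, show 1 * (n * x) * b = 1 * x * (n * b) by ring, mul_assoc (chi d n)]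

theorem int_zpow {p N : ℕ} (hp : p.Prime) (hN : ¬ p ∣ N) {x : ℚ} (hx : x ≠ 0)
    (h : IsInt ((N : ℚ) • x)) {j : ℤ} (hj : 0 ≤ j + padicValRat p x) :
    IsInt ((N : ℚ) • ((p : ℚ) ^ j * x)) := by
  have := Fact.mk hp
  have hN0 : (N : ℚ) ≠ 0 := by rintro h0; exact hN (by simp [Nat.cast_eq_zero.1 h0])
  have hp0 : (p : ℚ) ≠ 0 := by exact_mod_cast hp.ne_zero
  obtain ⟨a, ha⟩ := (isInt_rat _).1 h
  rw [smul_eq_mul] at ha
  have h1 := congrArg (padicValRat p) ha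
  rw [padicValRat.mul hN0 hx, padicValRat.of_nat, padicValNat.eq_zero_of_not_dvd hN,
    padicValRat.of_int] at h1
  obtain ⟨b, hb⟩ := padicValInt_dvd (p := p) a
  obtain ⟨m, hm⟩ := Int.eq_ofNat_of_zero_le hj
  refine (isInt_rat _).2 ⟨p ^ m * b, ?_⟩
  rw [smul_eq_mul, mul_left_comm, ha]
  conv_lhs => rw [hb]
  push_cast
  rw [← mul_assoc, ← zpow_natCast, ← zpow_natCast, ← zpow_add₀ hp0, ← hm]
  congr 2
  omega

theorem chi_pow (d : ℕ) (a : ℤ) (k : ℕ) : chi d (a ^ k) = chi d a ^ k := by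
  induction k with
  | zero => simpa using chi_one d
  | succ k ih => rw [pow_succ, chi_mul, ih, pow_succ]

theorem ctil_flip {d M k p : ℕ} (hM : 0 < M) {c : Q2 → ℂ} (h : Lev (M ^ k) c) (hc : ChiEq d M c)
    (hp : p.Prime) (hpM : ¬ p ∣ M) (hχ : chi d p = -1) {j : ℤ} (hj : Odd j) {a b : ℚ}
    (ha : IsInt (((M ^ k : ℕ) : ℚ) • a)) (hb : IsInt (((M ^ k : ℕ) : ℚ) • b))
    (ha' : IsInt (((M ^ k : ℕ) : ℚ) • ((p : ℚ) ^ j * a)))
    (hb' : IsInt (((M ^ k : ℕ) : ℚ) • ((p : ℚ) ^ (-j) * b))) :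
    ctil c ((p : ℚ) ^ j * a, (p : ℚ) ^ (-j) * b) = -ctil c (a, b) := by
  have hp0 : (p : ℚ) ≠ 0 := by exact_mod_cast hp.ne_zero
  have hco : IsCoprime (p : ℤ) M :=
    Nat.isCoprime_iff_coprime.2 ((Nat.Prime.coprime_iff_not_dvd hp).2 hpM)
  obtain ⟨m, rfl | rfl⟩ := j.eq_nat_or_neg
  · have h1 := ctil_unit hM h hc (hco.pow_left (m := m)) ha hb'
    rw [chi_pow, hχ, (Int.odd_coe_nat m |>.1 hj).neg_one_pow] at h1
    push_cast at h1
    rw [zpow_natCast, h1, zpow_neg, zpow_natCast, mul_inv_cancel_left₀ (pow_ne_zero _ hp0)]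
    ring
  · have h1 := ctil_unit hM h hc (hco.pow_left (m := m)) ha' hb
    rw [chi_pow, hχ, (Int.odd_coe_nat m |>.1 (odd_neg.1 hj)).neg_one_pow] at h1
    push_cast at h1
    rw [zpow_neg, zpow_natCast, mul_inv_cancel_left₀ (pow_ne_zero _ hp0)] at h1
    rw [h1, neg_neg, zpow_neg, zpow_natCast]
    ring

theorem tsum_zero_of_invol {X : Type} (f : X → ℂ) (σ : X → X) (h : Function.Involutive σ)
    (hf : ∀ x, f (σ x) = -f x) : ∑' x, f x = 0 := by
  have h1 := h.toPerm.tsum_eq f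
  simp only [Function.Involutive.coe_toPerm, hf, tsum_neg] at h1
  linear_combination (-1 / 2) * h1

open Classical in
theorem summable_uu {N : ℕ} (hN : 0 < N) :
    Summable fun x : ℚ => if IsInt ((N : ℚ) • x) then (((x : ℝ)) ^ 2)⁻¹ else 0 := by
  have hN' : (N : ℚ) ≠ 0 := by exact_mod_cast hN.ne'
  have hinj : Function.Injective fun n : ℤ => (n : ℚ) / N := fun a b e => by
    exact_mod_cast (div_left_inj' hN').1 e
  rw [← hinj.summable_iff]
  · have := (Real.summable_one_div_int_pow.2 (show 1 < 2 by norm_num)).mul_left ((N : ℝ) ^ 2)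
    refine this.congr fun n => ?_
    have h1 : IsInt ((N : ℚ) • ((n : ℚ) / N)) := (isInt_rat _).2 ⟨n, by
      rw [smul_eq_mul]; field_simp⟩
    simp only [Function.comp, if_pos h1]
    push_cast
    field_simp
  · intro x hx
    rw [if_neg]
    intro h1
    obtain ⟨n, hn⟩ := (isInt_rat _).1 h1
    exact hx ⟨n, by simp only; rw [← hn, smul_eq_mul]; field_simp⟩

end E0P

open E0P in
theorem e0S : S_E0 := by
  classical
  intro d M c hM ⟨k, hL⟩ hc hI
  funext τ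
  set N := M ^ k with hNdef
  have hN : 0 < N := pow_pos hM k
  have hy := τ.im_pos
  obtain ⟨C, hC0, hC⟩ := ctil_bdd hN hL
  obtain ⟨K, hK0, hK⟩ := gg_bound hy (δ := 1 / N) (by positivity)
  set u : ℚ → ℝ := fun x => if IsInt ((N : ℚ) • x) then (((x : ℝ)) ^ 2)⁻¹ else 0 with hu
  have hu0 : ∀ x, 0 ≤ u x := fun x => by simp only [hu]; split_ifs <;> positivity
  set c' := π * τ.im * (1 / N) ^ 2 / 2 with hc'
  have hc0 : 0 < c' := by positivity
  set F : Q2 → ℝ → ℂ := fun w t => ctil c w * (I * e (w.1 * w.2 * τ.re) *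
    ((gg τ.im w.1 w.2 t : ℝ) : ℂ)) with hF
  have low : ∀ x : ℚ, x ≠ 0 → IsInt ((N : ℚ) • x) → (1 / N : ℝ) ≤ |(x : ℝ)| := by
    intro x hx h1
    obtain ⟨n, hn⟩ := (isInt_rat _).1 h1
    rw [smul_eq_mul] at hn
    have hn0 : n ≠ 0 := by
      rintro rfl
      exact mul_ne_zero (show (N : ℚ) ≠ 0 by exact_mod_cast hN.ne') hx (by simpa using hn)
    have h2 : (N : ℝ) * x = n := by exact_mod_cast hn
    have h3 : (1 : ℝ) ≤ |(n : ℝ)| := by exact_mod_cast Int.one_le_abs hn0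
    rw [← h2, abs_mul, abs_of_nonneg (by positivity)] at h3
    rw [div_le_iff₀ (by positivity)]
    linarith
  have hb : ∀ w, ∀ t ∈ Ioi (0 : ℝ), ‖F w t‖ ≤ C * K * (u w.1 * u w.2) * hh c' t := by
    intro w t ht
    have h0 : 0 ≤ hh c' t := mul_nonneg (Real.rpow_nonneg (le_of_lt ht) _) (Real.exp_pos _).le
    by_cases hw : ctil c w = 0
    · simp only [hF, hw, zero_mul, norm_zero]
      have := hu0 w.1; have := hu0 w.2
      positivity
    · obtain ⟨h1, h2⟩ := ctil_supp hN hL hw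
      have h3 := (hI w hw).1
      have h4 := hK _ _ t (low _ (left_ne_zero_of_mul h3) h1) (low _ (right_ne_zero_of_mul h3) h2) ht
      have h5 : ‖e (w.1 * w.2 * τ.re)‖ = 1 := by rw [norm_e]; simp
      simp only [hF, hu, if_pos h1, if_pos h2, norm_mul, norm_I, h5, one_mul, norm_real,
        Real.norm_eq_abs]
      calc _ ≤ C * (K * ((((w.1 : ℝ)) ^ 2)⁻¹ * (((w.2 : ℝ)) ^ 2)⁻¹) * hh c' t) :=
            mul_le_mul (hC w) h4 (abs_nonneg _) hC0
        _ = _ := by ring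
  have hint : ∀ w, IntegrableOn (F w) (Ioi 0) := fun w =>
    Integrable.mono' ((hh_int hc0).const_mul (C * K * (u w.1 * u w.2)))
      (((measurable_ofReal.comp (gg_meas _ _ _)).const_mul _).const_mul _).aestronglyMeasurable
      ((ae_restrict_iff' measurableSet_Ioi).2 (Filter.Eventually.of_forall (hb w)))
  have hsum : Summable fun w => ∫ t in Ioi (0 : ℝ), ‖F w t‖ := by
    have h1 := (((summable_uu hN).mul_of_nonneg (summable_uu hN) hu0 hu0).mul_left
      (C * K)).mul_right (∫ t in Ioi (0 : ℝ), hh c' t)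
    refine h1.of_nonneg_of_le (fun w => integral_nonneg fun t => norm_nonneg _) fun w => ?_
    rw [← integral_const_mul]
    exact setIntegral_mono_on (hint w).norm ((hh_int hc0).const_mul _) measurableSet_Ioi (hb w)
  have h1 : EE c τ = ∑' w, ∫ t in Ioi (0 : ℝ), F w t := by
    rw [integral_tsum_of_summable_integral_norm hint hsum]
    exact setIntegral_congr_fun measurableSet_Ioi fun t ht =>
      (K1_half (hL.sb hN) τ ht).tsum_eq.symm
  have h2 : ∀ w, ∫ t in Ioi (0 : ℝ), F w t = ctil c w * (I * e (((w.1 * w.2 : ℚ) : ℂ) * τ.re) *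
      ((∫ t in Ioi (0 : ℝ), gg τ.im w.1 w.2 t : ℝ) : ℂ)) := fun w => by
    simp only [hF]
    rw [integral_const_mul, integral_const_mul, integral_complex_ofReal, Rat.cast_mul]
  rw [h1, Pi.zero_apply]
  simp only [h2]
  let Q : ℚ → Prop := fun n =>
    ∃ p : ℕ, p.Prime ∧ ¬ p ∣ M ∧ chi d p = -1 ∧ Odd (padicValRat p n)
  let P : ℚ → ℕ := fun n => if h : Q n then h.choose else 0
  have hP : ∀ n, Q n → (P n).Prime ∧ ¬ P n ∣ M ∧ chi d (P n) = -1 ∧ Odd (padicValRat (P n) n) :=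
    fun n h => by simp only [P, dif_pos h]; exact h.choose_spec
  let A : Q2 → Prop := fun w => w.1 * w.2 ≠ 0 ∧ Q (w.1 * w.2) ∧ IsInt ((N : ℚ) • w.1) ∧
    IsInt ((N : ℚ) • w.2)
  let J : Q2 → ℤ := fun w => padicValRat (P (w.1 * w.2)) w.2 - padicValRat (P (w.1 * w.2)) w.1
  let s : Q2 → Q2 := fun w => ((P (w.1 * w.2) : ℚ) ^ J w * w.1, (P (w.1 * w.2) : ℚ) ^ (-J w) * w.2)
  have hs : ∀ w, A w → (s w).1 * (s w).2 = w.1 * w.2 ∧ A (s w) ∧ J (s w) = -J w ∧ Odd (J w) := by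
    intro w ⟨a1, a2, a3, a4⟩
    obtain ⟨b1, b2, b3, b4⟩ := hP _ a2
    have := Fact.mk b1
    have hp0 : (P (w.1 * w.2) : ℚ) ≠ 0 := by exact_mod_cast b1.ne_zero
    have w1 := left_ne_zero_of_mul a1
    have w2 := right_ne_zero_of_mul a1
    have hN' : ¬ P (w.1 * w.2) ∣ N := fun h => b2 (b1.dvd_of_dvd_pow h)
    have e : (s w).1 * (s w).2 = w.1 * w.2 := by
      simp only [s, zpow_neg]
      have := zpow_ne_zero (J w) hp0
      field_simp
    have nn : ∀ x : ℚ, x ≠ 0 → IsInt ((N : ℚ) • x) → 0 ≤ padicValRat (P (w.1 * w.2)) x := by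
      intro x hx h
      obtain ⟨n, hn⟩ := (isInt_rat _).1 h
      have h1 := congrArg (padicValRat (P (w.1 * w.2))) hn
      rw [smul_eq_mul, padicValRat.mul (by exact_mod_cast hN.ne') hx, padicValRat.of_nat,
        padicValNat.eq_zero_of_not_dvd hN', padicValRat.of_int] at h1
      omega
    refine ⟨e, ⟨e ▸ a1, e ▸ a2, int_zpow b1 hN' w1 a3 ?_, int_zpow b1 hN' w2 a4 ?_⟩, ?_, ?_⟩
    · have := nn _ w2 a4; simp only [J]; omega
    · have := nn _ w1 a3; simp only [J]; omega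
    · have e1 : J (s w) = padicValRat (P (w.1 * w.2)) (s w).2 -
          padicValRat (P (w.1 * w.2)) (s w).1 := by simp only [J, e]
      rw [e1]
      simp only [s]
      rw [padicValRat.mul (zpow_ne_zero _ hp0) w2, padicValRat.mul (zpow_ne_zero _ hp0) w1,
        padicValRat.zpow, padicValRat.zpow, padicValRat.self b1.one_lt]
      simp only [J]; ring
    · rw [padicValRat.mul w1 w2, Int.odd_iff] at b4
      simp only [J, Int.odd_iff]; omega
  refine tsum_zero_of_invol _ (fun w => if A w then s w else w) (fun w => ?_) fun w => ?_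
  · by_cases hw : A w
    · obtain ⟨e, a, j, -⟩ := hs w hw
      have hp0 : (P (w.1 * w.2) : ℚ) ≠ 0 := by exact_mod_cast (hP _ hw.2.1).1.ne_zero
      have := zpow_ne_zero (J w) hp0
      simp only [if_pos hw, if_pos a]
      change ((P ((s w).1 * (s w).2) : ℚ) ^ J (s w) * (s w).1,
        (P ((s w).1 * (s w).2) : ℚ) ^ (-J (s w)) * (s w).2) = w
      rw [e, j]
      simp only [s, zpow_neg, neg_neg]
      exact Prod.ext (by field_simp) (by field_simp)
    · simp only [if_neg hw]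
  · by_cases hw : A w
    · obtain ⟨e, a, -, o⟩ := hs w hw
      obtain ⟨b1, b2, b3, -⟩ := hP _ hw.2.1
      have hp0 : (0 : ℝ) < P (w.1 * w.2) := by exact_mod_cast b1.pos
      simp only [if_pos hw, e]
      have e1 : ctil c (s w) = -ctil c w :=
        ctil_flip hM hL hc b1 b2 b3 o hw.2.2.1 hw.2.2.2 a.2.2.1 a.2.2.2
      have e2 := gg_scale τ.im w.1 w.2 (zpow_pos hp0 (J w))
      have e3 : (((s w).1 : ℚ) : ℝ) = (P (w.1 * w.2) : ℝ) ^ J w * w.1 := by simp [s]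
      have e4 : (((s w).2 : ℚ) : ℝ) = w.2 / (P (w.1 * w.2) : ℝ) ^ J w := by
        simp [s, div_eq_inv_mul]
      rw [e1, e3, e4, e2]; ring
    · simp only [if_neg hw]
      by_cases h0 : ctil c w = 0
      · simp [h0]
      · obtain ⟨a1, a2⟩ := hI w h0
        obtain ⟨a3, a4⟩ := ctil_supp hN hL h0
        have h5 : 0 < w.1 * w.2 := by
          by_contra h6
          exact hw ⟨a1, a2 (lt_of_le_of_ne (not_lt.1 h6) a1), a3, a4⟩
        rw [gg_zero _ (by exact_mod_cast h5)]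
        simp

end

end Pool.Agent.P.MP_b8021b_nt.CM
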