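import Pool.Agent.P.MP_b8021b_nt.CM.Lib

/-! Package P21, first part: the product formula for the Hilbert symbol of `-d`. -/

namespace Pool.Agent.P.MP_b8021b_nt.CM

noncomputable section

namespace E0P

theorem nm_decomp {d : ℕ} (hd : 0 < d) {p : ℕ} [Fact p.Prime] {z : Q2} (hz : z ≠ 0) :
    ∃ (n : ℚ) (a b : ℤ), n ≠ 0 ∧ IsCoprime a b ∧ z = (n * a, n * b) ∧ a ^ 2 + d * b ^ 2 ≠ 0 ∧
      Nm d z ≠ 0 ∧
      padicValRat p (Nm d z) = 2 * padicValRat p n + padicValInt p (a ^ 2 + d * b ^ 2) := by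
  obtain ⟨n, γ, hn, rfl⟩ := vm_decomp hz
  have hc : IsCoprime (γ 1 0) (γ 1 1) := ⟨-γ 0 1, γ 0 0, by linear_combination ar_SL_det γ⟩
  have h0 : (γ 1 0) ^ 2 + d * (γ 1 1) ^ 2 ≠ 0 := by
    intro h
    have hd' : (0 : ℤ) < d := by exact_mod_cast hd
    have h1 : γ 1 0 = 0 := by nlinarith [sq_nonneg (γ 1 0), sq_nonneg (γ 1 1)]
    have h2 : γ 1 1 = 0 := by
      rw [h1] at h
      simpa [hd.ne'] using h
    rw [h1, h2] at hc
    exact not_isCoprime_zero_zero hc
  have e : Nm d (vm (0, n) γ) = n ^ 2 * (((γ 1 0) ^ 2 + d * (γ 1 1) ^ 2 : ℤ) : ℚ) := by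
    rw [ar_vm_row, Nm]; push_cast; ring
  have h0' : ((((γ 1 0) ^ 2 + d * (γ 1 1) ^ 2 : ℤ)) : ℚ) ≠ 0 := by exact_mod_cast h0
  refine ⟨n, γ 1 0, γ 1 1, hn.ne', hc, ar_vm_row n γ, h0,
    by rw [e]; exact mul_ne_zero (pow_ne_zero _ hn.ne') h0', ?_⟩
  rw [e, padicValRat.mul (pow_ne_zero _ hn.ne') h0', padicValRat.pow, padicValRat.of_int]
  simp

theorem aniso_of {d p : ℕ} (hd : 0 < d) (hp : p.Prime) (c : ℕ)
    (h : ∀ a b : ℤ, IsCoprime a b → ¬ (p : ℤ) ^ (c + 1) ∣ a ^ 2 + d * b ^ 2) : Aniso d p := by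
  have := Fact.mk hp
  refine ⟨c, fun k z hz => ?_⟩
  by_cases h0 : z = 0
  · subst h0; exact ⟨Or.inl rfl, Or.inl rfl⟩
  obtain ⟨n, a, b, hn, hc, e, h1, h2, h3⟩ := nm_decomp (p := p) hd h0
  have h4 := hz.resolve_left h2
  have h5 := h a b hc
  rw [padicValInt_dvd_iff, not_or, not_le] at h5
  have h6 : k ≤ padicValRat p n := by omega
  have key : ∀ x : ℤ, pdiv p k (n * x) := fun x => by
    by_cases hx : x = 0
    · exact Or.inl (by simp [hx])
    · refine Or.inr ?_
      rw [padicValRat.mul hn (by exact_mod_cast hx), padicValRat.of_int]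
      omega
  rw [e]
  exact ⟨key a, key b⟩

theorem not_both {p : ℕ} (hp : p.Prime) {a b : ℤ} (h : IsCoprime a b) (ha : (p : ℤ) ∣ a)
    (hb : (p : ℤ) ∣ b) : False :=
  (Nat.prime_iff_prime_int.1 hp).not_unit (h.isUnit_of_dvd' ha hb)

theorem aniso_dvd {d p : ℕ} (hd : Squarefree d) (hp : p.Prime) (h : p ∣ d) : Aniso d p := by
  refine aniso_of (Nat.pos_of_ne_zero hd.ne_zero) hp 1 fun a b hc h1 => ?_
  have hp' := Nat.prime_iff_prime_int.1 hp
  obtain ⟨e, rfl⟩ := h
  have he : ¬ (p : ℤ) ∣ e := fun h2 => hp.not_isUnit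
    (hd p (Nat.mul_dvd_mul_left p (Int.natCast_dvd_natCast.1 h2)))
  push_cast at h1
  have h2 : (p : ℤ) ∣ a := hp'.dvd_of_dvd_pow (n := 2) ((dvd_add_left
    (Dvd.dvd.mul_right (dvd_mul_right _ _) _)).1 ((dvd_pow_self _ two_ne_zero).trans h1))
  have h3 : (p : ℤ) * p ∣ p * (e * b ^ 2) := by
    rw [← mul_assoc, ← sq]
    exact (dvd_add_right (pow_dvd_pow_of_dvd h2 2)).1 h1
  have h4 := (hp'.dvd_or_dvd ((mul_dvd_mul_iff_left hp'.ne_zero).1 h3)).resolve_left he
  exact not_both hp hc h2 (hp'.dvd_of_dvd_pow h4)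

theorem inert_not_dvd {d p : ℕ} (hp : p.Prime) (h : chi d p = -1) {a b : ℤ} (hc : IsCoprime a b) :
    ¬ (p : ℤ) ∣ a ^ 2 + d * b ^ 2 := by
  have := Fact.mk hp
  intro h1
  have h2 : ¬ p ∣ 2 * d := fun h2 => by
    rw [chi_eq_zero fun h3 => not_both hp h3 dvd_rfl (by exact_mod_cast h2)] at h
    norm_num at h
  rw [chi_prime h2] at h
  have h3 := legendreSym.prime_dvd_of_eq_neg_one (p := p) (a := -(d : ℤ)) (by exact_mod_cast h)
    (x := a) (y := b) (by simpa using h1)
  exact not_both hp hc h3.1 h3.2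

theorem aniso_inert {d p : ℕ} (hd : 0 < d) (hp : p.Prime) (h : chi d p = -1) : Aniso d p :=
  aniso_of hd hp 0 fun a b hc => by simpa using inert_not_dvd hp h hc

theorem even_inert {d p : ℕ} (hd : 0 < d) (hp : p.Prime) (h : chi d p = -1) {z : Q2}
    (hz : Nm d z ≠ 0) : Even (padicValRat p (Nm d z)) := by
  have := Fact.mk hp
  obtain ⟨n, a, b, -, hc, -, -, -, h3⟩ := nm_decomp (p := p) hd (z := z) (by
    rintro rfl; exact hz (by simp [Nm]))
  rw [h3, padicValInt.eq_zero_of_not_dvd (inert_not_dvd hp h hc)]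
  simp

theorem aniso_two {d : ℕ} (hd : Squarefree d) (h : d % 8 ≠ 7) : Aniso d 2 := by
  refine aniso_of (Nat.pos_of_ne_zero hd.ne_zero) Nat.prime_two 2 fun a b hc h1 => ?_
  have h4 : d % 4 ≠ 0 := fun h2 => Nat.prime_two.not_isUnit (hd 2 (Nat.dvd_of_mod_eq_zero h2))
  have key : ∀ x y : ZMod 8, ∀ e : Fin 8, e.1 % 4 ≠ 0 → e.1 ≠ 7 → x ^ 2 + (e.1 : ZMod 8) * y ^ 2 = 0 →
      4 * x = 0 ∧ 4 * y = 0 := by decide
  have h5 := (ZMod.intCast_zmod_eq_zero_iff_dvd _ 8).2 (by simpa using h1)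
  push_cast at h5
  obtain ⟨k1, k2⟩ := key a b ⟨d % 8, Nat.mod_lt _ (by norm_num)⟩ (by simp only; omega) h
    (by simpa using h5)
  have k1' := (ZMod.intCast_zmod_eq_zero_iff_dvd (4 * a) 8).1 (by simpa using k1)
  have k2' := (ZMod.intCast_zmod_eq_zero_iff_dvd (4 * b) 8).1 (by simpa using k2)
  exact not_both Nat.prime_two hc (by omega) (by omega)

/-- the global obstruction -/
theorem no_rat (ψ : ℤ → ℂ) {L : ℕ} (hL : L ≠ 0) (h1 : ψ 1 = 1) (hm1 : ψ (-1) = -1)
    (hmul : ∀ a b, ψ (a * b) = ψ a * ψ b) (hper : ∀ a b : ℤ, (L : ℤ) ∣ a - b → ψ a = ψ b)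
    (hsq : ∀ a : ℤ, IsCoprime a L → ψ a ^ 2 = 1) {ρ : ℚ} (hρ : ρ < 0)
    (hA : ∀ p : ℕ, p.Prime → p ∣ L → (padicValNat p L : ℤ) ≤ padicValRat p (ρ - 1))
    (hB : ∀ q : ℕ, q.Prime → ¬ q ∣ L → ψ q = 1 ∨ Even (padicValRat q ρ)) : False := by
  have hn : ρ.num < 0 := Rat.num_neg.2 hρ
  have hden : (ρ.den : ℚ) ≠ 0 := by exact_mod_cast ρ.den_nz
  have hco : IsCoprime ρ.num ρ.den := Rat.isCoprime_num_den ρ
  have hAB : ρ.num - ρ.den ≠ 0 := by omega
  have hdvd : (L : ℤ) ∣ ρ.num - ρ.den := by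
    rw [Int.natCast_dvd, ← Nat.factorization_prime_le_iff_dvd hL (Int.natAbs_ne_zero.2 hAB)]
    intro p hp
    have := Fact.mk hp
    by_cases hpL : p ∣ L
    · rw [Nat.factorization_def _ hp, Nat.factorization_def _ hp]
      have e : ((ρ.num - ρ.den : ℤ) : ℚ) = (ρ - 1) * ρ.den := by
        push_cast; rw [sub_mul, Rat.mul_den_eq_num, one_mul]
      have h2 := congrArg (padicValRat p) e
      rw [padicValRat.mul (by linarith) hden, padicValRat.of_int, padicValRat.of_nat,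
        padicValInt] at h2
      have := hA p hp hpL
      omega
    · simp [Nat.factorization_eq_zero_of_not_dvd hpL]
  have hBL : IsCoprime (ρ.den : ℤ) L := by
    obtain ⟨k, hk⟩ := hdvd
    obtain ⟨u, v, huv⟩ := hco
    exact ⟨u + v, u * k, by linear_combination huv - u * hk⟩
  have hAL : IsCoprime ρ.num L := by
    obtain ⟨k, hk⟩ := hdvd
    rw [show ρ.num = ρ.den + L * k by linear_combination hk]
    exact hBL.add_mul_left_left k
  have hpow : ∀ (a : ℤ) (k : ℕ), ψ (a ^ k) = ψ a ^ k := fun a k => by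
    induction k with
    | zero => simpa using h1
    | succ k ih => rw [pow_succ, hmul, ih, pow_succ]
  have hm : ∀ m : ℕ, m ≠ 0 → (∀ q : ℕ, q.Prime → ψ q ^ padicValNat q m = 1) → ψ m = 1 := by
    intro m hm0 h
    let φ : ℕ →* ℂ := ⟨⟨fun n => ψ n, h1⟩, fun a b => by simp [hmul]⟩
    change φ m = 1
    rw [← Nat.factorization_prod_pow_eq_self hm0, Finsupp.prod, map_prod]
    refine Finset.prod_eq_one fun q hq => ?_
    have hq' := Nat.prime_of_mem_primeFactors hq
    rw [map_pow, Nat.factorization_def _ hq']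
    exact h q hq'
  have h3 : ψ ((ρ.num.natAbs * ρ.den : ℕ) : ℤ) = 1 := by
    refine hm _ (mul_ne_zero (by omega) ρ.den_nz) fun q hq => ?_
    have := Fact.mk hq
    by_cases hqL : q ∣ L
    · rw [padicValNat.eq_zero_of_not_dvd, pow_zero]
      intro h2
      rcases hq.dvd_mul.1 h2 with h3 | h3
      · exact not_both hq hAL (Int.natCast_dvd.2 h3) (by exact_mod_cast hqL)
      · exact not_both hq hBL (by exact_mod_cast h3) (by exact_mod_cast hqL)
    · rcases hB q hq hqL with h2 | h2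
      · rw [h2, one_pow]
      · rw [padicValRat_def, padicValInt] at h2
        obtain ⟨k, hk⟩ : Even (padicValNat q (ρ.num.natAbs * ρ.den)) := by
          rw [padicValNat.mul (by omega) ρ.den_nz, Nat.even_iff]
          rw [Int.even_iff] at h2
          omega
        rw [hk, ← two_mul, pow_mul, hsq _ (Nat.isCoprime_iff_coprime.2
          ((Nat.Prime.coprime_iff_not_dvd hq).2 hqL)), one_pow]
  have h4 : ((ρ.num.natAbs * ρ.den : ℕ) : ℤ) = -1 * (ρ.num * ρ.den) := by
    push_cast; rw [abs_of_neg hn]; ring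
  rw [h4, hmul, hmul, hm1, hper _ _ hdvd, ← sq, hsq _ hBL] at h3
  norm_num at h3

theorem val_sqfree {d p : ℕ} (hd : Squarefree d) (hp : p.Prime) : padicValNat p d ≤ 1 := by
  rw [← Nat.factorization_def _ hp]
  exact hd.natFactorization_le_one p

end E0P

open E0P in
theorem hil : S_Hil := by
  intro d M hd hM hdM
  have hd0 : 0 < d := Nat.pos_of_ne_zero hd.ne_zero
  have h2M : 2 ∣ M := (dvd_mul_right 2 d).trans hdM
  have hdM' : d ∣ M := (dvd_mul_left d 2).trans hdM
  refine ⟨?_, fun z n hz hn h => ?_⟩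
  · by_cases h7 : d % 8 = 7
    · obtain ⟨p, hp, hpd⟩ := Nat.exists_prime_and_dvd (n := d) (by omega)
      exact ⟨p, hp, hpd.trans hdM', aniso_dvd hd hp hpd⟩
    · exact ⟨2, Nat.prime_two, h2M, aniso_two hd h7⟩
  by_contra hcon
  push Not at hcon
  have hz0 : 0 < Nm d z := lt_of_le_of_ne (by unfold Nm; positivity) hz.symm
  have hρ : n / Nm d z < 0 := div_neg_of_neg_of_pos hn hz0
  have h3 : ∀ p : ℕ, p.Prime → p ∣ M → Aniso d p → 3 ≤ padicValRat p (n / Nm d z - 1) := by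
    intro p hp hpM ha
    have := Fact.mk hp
    have h0 : n - Nm d z ≠ 0 := by linarith
    have h1 := (h p hp hpM ha).resolve_left h0
    rw [show n / Nm d z - 1 = (n - Nm d z) / Nm d z by field_simp, padicValRat.div h0 hz]
    omega
  have h4 : ∀ q : ℕ, q.Prime → chi d q = -1 → Even (padicValRat q (n / Nm d z)) := by
    intro q hq hc
    have := Fact.mk hq
    by_cases hqM : q ∣ M
    · have h1 := h3 q hq hqM (aniso_inert hd0 hq hc)
      have h2 := padicValRat.add_eq_of_lt (p := q) (q := 1) (r := n / Nm d z - 1)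
        (by linarith) one_ne_zero (by linarith) (by rw [padicValRat.one]; omega)
      rw [add_sub_cancel, padicValRat.one] at h2
      rw [h2]; exact Even.zero
    · rw [padicValRat.div hn.ne hz]
      exact (Int.not_odd_iff_even.1 (hcon q hq hqM hc)).sub (even_inert hd0 hq hc hz)
  have h5 : ∀ q : ℕ, q.Prime → ¬ q ∣ 2 * d → chi d q = 1 ∨ Even (padicValRat q (n / Nm d z)) := by
    intro q hq hqd
    have := Nat.isCoprime_iff_coprime.2 ((Nat.Prime.coprime_iff_not_dvd hq).2 hqd)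
    push_cast at this
    exact (chi_sq this).imp id (h4 q hq)
  by_cases h7 : d % 8 = 7
  · have ho : Odd d := by rw [Nat.odd_iff]; omega
    refine no_rat (fun a => (jacobiSym a d : ℤ)) hd0.ne' (by simp) ?_
      (fun a b => by simp [jacobiSym.mul_left]) (fun a b hab => ?_) (fun a ha => ?_) hρ
      (fun p hp hpd => ?_) fun q hq hqd => ?_
    · simp [jacobiSym.at_neg_one ho, ZMod.χ₄_nat_three_mod_four (show d % 4 = 3 by omega)]
    · rw [jacobiSym.mod_left' (Int.ModEq.eq (Int.modEq_iff_dvd.2 hab).symm)]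
    · exact_mod_cast jacobiSym.sq_one (Int.isCoprime_iff_gcd_eq_one.1 ha)
    · have := h3 p hp (hpd.trans hdM') (aniso_dvd hd hp hpd)
      have := val_sqfree hd hp
      omega
    · rcases hq.eq_two_or_odd with rfl | hq2
      · refine Or.inl ?_
        have : jacobiSym 2 d = 1 := by
          rw [jacobiSym.at_two ho, ZMod.χ₈_nat_eq_if_mod_eight, if_neg (by omega), if_pos (by omega)]
        simp [this]
      · have hqd' : ¬ q ∣ 2 * d := fun h1 => by
          rcases hq.dvd_mul.1 h1 with h2 | h2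
          · have := (Nat.prime_dvd_prime_iff_eq hq Nat.prime_two).1 h2
            omega
          · exact hqd h2
        refine (h5 q hq hqd').imp (fun h1 => ?_) id
        have hco := Nat.isCoprime_iff_coprime.2 ((Nat.Prime.coprime_iff_not_dvd hq).2 hqd')
        push_cast at hco
        rw [ar_chi_nat hco, jacobiSym.neg _ (Nat.odd_iff.2 hq2)] at h1
        rw [← h1]
        rcases Nat.odd_mod_four_iff.1 hq2 with h2 | h2
        · rw [jacobiSym.quadratic_reciprocity_one_mod_four h2 ho, ZMod.χ₄_nat_one_mod_four h2]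
          simp
        · rw [jacobiSym.quadratic_reciprocity_three_mod_four h2 (show d % 4 = 3 by omega),
            ZMod.χ₄_nat_three_mod_four h2]
          simp
  · refine no_rat (chi d) (L := 4 * d) (by omega) (chi_one d) (chi_neg_one d) (chi_mul d)
      (fun a b hab => chi_congr hd0 (by exact_mod_cast hab)) (fun a ha => ?_) hρ
      (fun p hp hpd => ?_) fun q hq hqd => h5 q hq fun h1 => hqd (h1.trans ⟨2, by ring⟩)
    · have : IsCoprime a (2 * d : ℤ) := ha.of_isCoprime_of_dvd_right ⟨2, by push_cast; ring⟩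
      rcases chi_sq this with e | e <;> simp [e]
    · have := Fact.mk hp
      have h6 := val_sqfree hd hp
      have h8 : padicValNat p 4 ≤ 2 := by
        refine (padicValNat_le_nat_log 4).trans ((Nat.log_anti_left (by norm_num) hp.two_le).trans ?_)
        norm_num
      rw [padicValNat.mul (by norm_num) hd0.ne']
      have h9 : p ∣ M ∧ Aniso d p := by
        rcases hp.dvd_mul.1 hpd with h1 | h1
        · have : p = 2 := (Nat.prime_dvd_prime_iff_eq hp Nat.prime_two).1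
            (hp.dvd_of_dvd_pow (n := 2) h1)
          subst this
          exact ⟨h2M, aniso_two hd h7⟩
        · exact ⟨h1.trans hdM', aniso_dvd hd hp h1⟩
      have := h3 p hp h9.1 h9.2
      omega

end

end Pool.Agent.P.MP_b8021b_nt.CM
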