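import Pool.Agent.P.MP_b8021b_nt.CM.Lib

/-! Package P31, first part: linear algebra and test functions. -/

set_option linter.unusedSectionVars false

namespace Pool.Agent.P.MP_b8021b_nt.CM

open Complex hiding Gamma
open UpperHalfPlane hiding I
open CongruenceSubgroup Function
open scoped MatrixGroups

noncomputable section

namespace EigP

/-! ### common eigenvectors modulo a stable subspace -/

theorem exists_eig_mod {W : Type} [AddCommGroup W] [Module ℂ W] (F : Module.End ℂ W)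
    (K V : Submodule ℂ W) (hK : ∀ x ∈ K, F x ∈ K) (hV : ∀ x ∈ V, F x ∈ V)
    [FiniteDimensional ℂ V] (h : ¬ V ≤ K) : ∃ (c : ℂ) (x : W), x ∈ V ∧ x ∉ K ∧ F x - c • x ∈ K := by
  set K' : Submodule ℂ V := K.comap V.subtype with hK'
  have hnt : Nontrivial (V ⧸ K') := by
    rw [Submodule.Quotient.nontrivial_iff]
    intro ht
    exact h fun x hx => by
      have : (⟨x, hx⟩ : V) ∈ K' := by rw [ht]; trivial
      exact this
  let F' : Module.End ℂ (V ⧸ K') := K'.mapQ K' (F.restrict hV) fun x hx => hK _ hx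
  obtain ⟨c, hc⟩ := Module.End.exists_eigenvalue F'
  obtain ⟨y, hy⟩ := hc.exists_hasEigenvector
  obtain ⟨x, rfl⟩ := K'.mkQ_surjective y
  refine ⟨c, x, x.2, fun hx => hy.2 ((Submodule.Quotient.mk_eq_zero K').2 hx), ?_⟩
  have h1 := hy.apply_eq_smul
  have h2 : K'.mkQ (F.restrict hV x - c • x) = 0 := by
    rw [map_sub, map_smul, ← h1, sub_eq_zero]
    rfl
  exact (Submodule.Quotient.mk_eq_zero K').1 h2

theorem exists_common {W : Type} [AddCommGroup W] [Module ℂ W] (𝓕 : Set (Module.End ℂ W))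
    (hc : ∀ F ∈ 𝓕, ∀ G ∈ 𝓕, F * G = G * F) (K : Submodule ℂ W) (hK : ∀ F ∈ 𝓕, ∀ x ∈ K, F x ∈ K)
    (n : ℕ) : ∀ V : Submodule ℂ W, FiniteDimensional ℂ V → Module.finrank ℂ V = n →
      (∀ F ∈ 𝓕, ∀ x ∈ V, F x ∈ V) → ¬ V ≤ K →
      ∃ x, x ∉ K ∧ ∀ F ∈ 𝓕, ∃ c : ℂ, F x - c • x ∈ K := by
  induction n using Nat.strong_induction_on with
  | _ n ih =>
    intro V hfd hn hV h
    by_cases hall : ∀ F ∈ 𝓕, ∃ c : ℂ, ∀ x ∈ V, F x - c • x ∈ K
    · obtain ⟨x, hx, hx'⟩ := SetLike.not_le_iff_exists.1 h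
      exact ⟨x, hx', fun F hF => (hall F hF).imp fun c hc => hc x hx⟩
    · push Not at hall
      obtain ⟨F, hF, hF'⟩ := hall
      obtain ⟨c, x, hxV, hxK, hx⟩ := exists_eig_mod F K V (hK F hF) (hV F hF) h
      set V' : Submodule ℂ W := V ⊓ K.comap (F - c • 1) with hV'
      have hmem : ∀ z, z ∈ V' ↔ z ∈ V ∧ F z - c • z ∈ K := fun z => by
        simp [hV']
      have hlt : V' < V := by
        obtain ⟨z, hz, hz'⟩ := hF' c
        exact lt_of_le_of_ne inf_le_left fun he => hz' ((hmem z).1 (he ▸ hz)).2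
      have hfd' : FiniteDimensional ℂ V' := Submodule.finiteDimensional_of_le hlt.le
      refine ih _ (hn ▸ Submodule.finrank_lt_finrank_of_lt hlt) V' hfd' rfl (fun G hG z hz => ?_)
        fun hle => hxK (hle ((hmem x).2 ⟨hxV, hx⟩))
      obtain ⟨hz1, hz2⟩ := (hmem z).1 hz
      refine (hmem _).2 ⟨hV G hG z hz1, ?_⟩
      have h1 : F (G z) = G (F z) := LinearMap.congr_fun (hc F hF G hG) z
      rw [h1, ← map_smul, ← map_sub]
      exact hK G hG _ hz2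

/-! ### test functions supported on diagonal classes -/

variable {N : ℕ} [NeZero N]

/-- the diagonal class of determinant `b` -/
def dg (a b : (ZMod N)ˣ) : R2 N := !![(a : ZMod N)⁻¹, 0; 0, a * b]

theorem dg_det (a b : (ZMod N)ˣ) : (dg a b).det = b := by
  rw [dg, Matrix.det_fin_two_of, ← mul_assoc, ZMod.inv_coe_unit, Units.inv_mul]
  simp

theorem dg_smul (d a b : (ZMod N)ˣ) : (d : ZMod N) • dg a b = dg (a * d⁻¹) (b * d ^ 2) := by
  have h1 : (d : ZMod N) * (a : ZMod N)⁻¹ = ((a * d⁻¹ : (ZMod N)ˣ) : ZMod N)⁻¹ := by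
    rw [ZMod.inv_coe_unit, ZMod.inv_coe_unit, ← Units.val_mul, mul_inv_rev, inv_inv]
  have h2 : (d : ZMod N) * ((a : ZMod N) * b) =
      ((a * d⁻¹ : (ZMod N)ˣ) : ZMod N) * ((b * d ^ 2 : (ZMod N)ˣ) : ZMod N) := by
    rw [← Units.val_mul, ← Units.val_mul, ← Units.val_mul]
    congr 1
    rw [pow_two, mul_comm b, ← mul_assoc (a * d⁻¹), ← mul_assoc (a * d⁻¹), inv_mul_cancel_right,
      ← mul_assoc, mul_comm d a]
  ext i j
  fin_cases i <;> fin_cases j <;> simp only [dg, Matrix.smul_apply, smul_eq_mul] <;>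
    simp only [Fin.zero_eta, Fin.mk_one, Fin.isValue, Matrix.of_apply, Matrix.cons_val',
      Matrix.cons_val_zero, Matrix.cons_val_one, Matrix.cons_val_fin_one, mul_zero, h1, h2]

/-- the test function with weights `w` -/
def phi (w : (ZMod N)ˣ → ZMod N → ℂ) : M2 → ℂ :=
  ∑ p : (ZMod N)ˣ × (ZMod N)ˣ, w p.1 p.2 • ind N (dg p.1 p.2)

theorem lev_phi (w : (ZMod N)ˣ → ZMod N → ℂ) : Lev N (phi w) :=
  Lev.sum _ _ fun _ _ => (lev_ind (NeZero.pos N) _).smul _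

theorem sb_phi (w : (ZMod N)ˣ → ZMod N → ℂ) : SB (phi w) := (lev_phi w).sb (NeZero.pos N)

omit [NeZero N] in
theorem ind_ne {μ : R2 N} {Y : M2} (h : ind N μ Y ≠ 0) : ∃ Z : Z2, castZ Z = Y ∧ red N Z = μ := by
  by_contra h'
  exact h (if_neg h')

theorem phi_int {w : (ZMod N)ˣ → ZMod N → ℂ} {Y : M2} (h : phi w Y ≠ 0) : IsInt Y := by
  rw [phi, Finset.sum_apply] at h
  obtain ⟨p, -, hp⟩ := Finset.exists_ne_zero_of_sum_ne_zero h
  obtain ⟨Z, hZ, -⟩ := ind_ne (right_ne_zero_of_mul hp)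
  exact (isInt_M2 Y).2 ⟨Z, hZ⟩

theorem G2_phi {u : ℍ → ℂ} (hu : LevU N u) (σ : ℍ) (w : (ZMod N)ˣ → ZMod N → ℂ) (q : ℚ) :
    G2 u σ (phi w) q = ∑ p : (ZMod N)ˣ × (ZMod N)ˣ, w p.1 p.2 * G2 u σ (ind N (dg p.1 p.2)) q := by
  rw [phi, G2_sum ⟨N, NeZero.pos N, hu⟩ σ _ _
    fun _ _ => ((lev_ind (NeZero.pos N) _).smul _).sb (NeZero.pos N)]
  simp only [G2_smul]

theorem G2_dg_supp {u : ℍ → ℂ} {σ : ℍ} {a b : (ZMod N)ˣ} {q : ℚ}
    (h : G2 u σ (ind N (dg a b)) q ≠ 0) : ∃ n : ℕ, 0 < n ∧ q = n ∧ (n : ZMod N) = b := by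
  obtain ⟨hq, Y, hY, hY'⟩ := G2_supp h
  obtain ⟨Z, rfl, hZ⟩ := ind_ne hY'
  rw [castZ_det] at hY
  have h0 : 0 < Z.det := by
    rw [← hY] at hq
    exact_mod_cast hq
  obtain ⟨n, hn⟩ := Int.eq_ofNat_of_zero_le h0.le
  refine ⟨n, by omega, by rw [← hY, hn]; simp, ?_⟩
  rw [← dg_det a b, ← hZ, red_det, hn]
  simp

/-- positive and prime to the level -/
def Gd (N n : ℕ) : Prop := 0 < n ∧ n.Coprime N

theorem G2_phi_zero {u : ℍ → ℂ} (hu : LevU N u) (σ : ℍ) (w : (ZMod N)ˣ → ZMod N → ℂ) {q : ℚ}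
    (hq : ¬ ∃ n : ℕ, Gd N n ∧ q = n) : G2 u σ (phi w) q = 0 := by
  rw [G2_phi hu]
  refine Finset.sum_eq_zero fun p _ => ?_
  by_contra h
  obtain ⟨n, h0, h1, h2⟩ := G2_dg_supp (right_ne_zero_of_mul h)
  exact hq ⟨n, ⟨h0, (ZMod.isUnit_iff_coprime n N).1 (h2 ▸ p.2.isUnit)⟩, h1⟩

theorem G2_phi_nat (hHk : S_Hk) {u : ℍ → ℂ} (hu : LevU N u) (σ : ℍ)
    (w : (ZMod N)ˣ → ZMod N → ℂ) {n : ℕ} (hn : Gd N n) :
    ((Gamma N).index : ℂ) * G2 u σ (phi w) n = ∑ a, w a n * Dia N a (Tn N n u) σ := by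
  rw [G2_phi hu, Fintype.sum_prod_type, Finset.mul_sum]
  refine Finset.sum_congr rfl fun a _ => ?_
  rw [Finset.sum_eq_single (ZMod.unitOfCoprime n hn.2)]
  · rw [← ((hHk N (NeZero.pos N) u hu).2.2.2.1 a n a.isUnit hn.1 hn.2).2, HK, dg,
      ZMod.coe_unitOfCoprime]
    ring
  · intro b _ hb
    by_contra h
    obtain ⟨m, -, h1, h2⟩ := G2_dg_supp (right_ne_zero_of_mul h)
    obtain rfl : n = m := by exact_mod_cast h1
    exact hb (Units.ext h2.symm)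
  · simp

theorem phi_scale {w : (ZMod N)ˣ → ZMod N → ℂ} {d : ℤ} (hd : IsCoprime d N) {κ : ℂ}
    (hw : ∀ (d' a b : (ZMod N)ˣ), (d' : ZMod N) = d →
      w (a * d'⁻¹) (b * d' ^ 2 : (ZMod N)ˣ) = κ * w a b) (Z : Z2) :
    phi w ((d : ℚ) • castZ Z) = κ * phi w (castZ Z) := by
  classical
  obtain ⟨d', hd'⟩ : IsUnit (d : ZMod N) := by
    obtain ⟨x, y, hxy⟩ := hd
    have h := congrArg (Int.cast : ℤ → ZMod N) hxy
    simp only [Int.cast_add, Int.cast_mul, Int.cast_natCast, ZMod.natCast_self, mul_zero,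
      add_zero, Int.cast_one] at h
    exact IsUnit.of_mul_eq_one_right _ h
  have hr : red N (d • Z) = (d' : ZMod N) • red N Z := by
    ext i j
    simp only [red, hd', Matrix.map_apply, Matrix.smul_apply, smul_eq_mul, Int.cast_mul]
  rw [← castZ_smul]
  simp only [phi, Finset.sum_apply, Pi.smul_apply, smul_eq_mul, ind_castZ, Finset.mul_sum, hr]
  symm
  refine Fintype.sum_equiv ((Equiv.mulRight d'⁻¹).prodCongr (Equiv.mulRight (d' ^ 2))) _ _
    fun p => ?_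
  simp only [Equiv.prodCongr_apply, Prod.map, Equiv.coe_mulRight]
  rw [hw d' p.1 p.2 hd', ← dg_smul, ← mul_assoc]
  congr 1
  refine if_congr ⟨fun h => by rw [h], fun h => ?_⟩ rfl rfl
  have h2 := congrArg (fun A => ((d'⁻¹ : (ZMod N)ˣ) : ZMod N) • A) h
  simpa only [smul_smul, Units.inv_mul, one_smul] using h2

theorem omV_phi (hWV : S_WV) {w : (ZMod N)ˣ → ZMod N → ℂ} {γ : SL}
    (hγ : ((N ^ 2 : ℕ) : ℤ) ∣ γ 1 0) {κ : ℂ}
    (hw : ∀ (d' a b : (ZMod N)ˣ), (d' : ZMod N) = (γ 1 1 : ℤ) →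
      w (a * d'⁻¹) (b * d' ^ 2 : (ZMod N)ˣ) = κ * w a b) : omV γ (phi w) = κ • phi w := by
  have hW := hWV N (NeZero.pos N)
  have hd : IsCoprime (γ 1 1) (N : ℤ) := by
    have h := γ.det_coe
    rw [Matrix.det_fin_two] at h
    obtain ⟨k, hk⟩ := hγ
    refine ⟨γ 0 0, -(γ 0 1 * N * k), ?_⟩
    push_cast at hk
    linear_combination h + γ 0 1 * hk
  funext Y
  by_cases hY : IsInt ((N : ℚ) • Y)
  · rw [hW.gam0 γ hγ _ (lev_phi w) Y hY, one_mul, Pi.smul_apply, smul_eq_mul]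
    by_cases hI : IsInt Y
    · obtain ⟨Z, rfl⟩ := (isInt_M2 Y).1 hI
      rw [phi_scale hd hw, (eq_eq_one_iff _).2, one_mul]
      rw [castZ_det, isInt_rat]
      exact ⟨γ 0 1 * γ 1 1 * Z.det, by push_cast; ring⟩
    · have h1 : phi w Y = 0 := by_contra fun h => hI (phi_int h)
      have h2 : phi w (((γ 1 1 : ℤ) : ℚ) • Y) = 0 := by_contra fun h =>
        hI (IsInt.of_coprime hd (phi_int h) (by exact_mod_cast hY))
      rw [h1, h2, mul_zero, mul_zero]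
  · have h1 : phi w Y = 0 := by_contra fun h => hY ((lev_phi w).2 Y h)
    have h2 : omV γ (phi w) Y = 0 := by_contra fun h => hY ((hW.lev γ _ (lev_phi w)).2 Y h)
    rw [h2, Pi.smul_apply, h1, smul_zero]

end EigP

end

end Pool.Agent.P.MP_b8021b_nt.CM
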