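import Pool.Agent.P.MP_b8021b_nt.CM.Lib

/-! Package P3, first part: convergence, transformation law and independence of the
Eisenstein series with congruence conditions. -/

namespace Pool.Agent.P.MP_b8021b_nt.CM

open Complex hiding Gamma
open UpperHalfPlane hiding I
open MeasureTheory CongruenceSubgroup Filter
open scoped Real MatrixGroups ModularForm Topology ComplexConjugate Modular

noncomputable section

namespace EisP

def lam (w : ℤ × ℤ) (τ : ℍ) : ℂ := (w.1 : ℂ) * τ + w.2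

def GG (k : ℕ) (c : ℤ × ℤ → ℂ) (τ : ℍ) : ℂ := ∑' w : ℤ × ℤ, c w * lam w τ ^ (-(k : ℤ))

def bd (k : ℕ) (w : ℤ × ℤ) : ℝ := ‖![w.1, w.2]‖ ^ (-(k : ℝ))

theorem summable_bd {k : ℕ} (hk : 3 ≤ k) : Summable (bd k) := by
  have hk' : (2 : ℝ) < k := by exact_mod_cast hk
  have := (finTwoArrowEquiv ℤ).symm.summable_iff.2
    (EisensteinSeries.summable_one_div_norm_rpow hk')
  exact this

theorem lam_bound (k : ℕ) {A B : ℝ} (hB : 0 < B) : ∃ C : ℝ, ∀ τ ∈ verticalStrip A B, ∀ w,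
    ‖lam w τ ^ (-(k : ℤ))‖ ≤ C * bd k w := by
  refine ⟨EisensteinSeries.r ⟨⟨A, B⟩, hB⟩ ^ (-(k : ℝ)), fun τ hτ w => ?_⟩
  have := EisensteinSeries.summand_bound_of_mem_verticalStrip (k := (k : ℝ)) (by positivity)
    ![w.1, w.2] hB hτ
  rw [norm_zpow, ← Real.rpow_intCast]
  simpa [lam, bd] using this

theorem summable_lam {k : ℕ} (hk : 3 ≤ k) (τ : ℍ) :
    Summable fun w => ‖lam w τ ^ (-(k : ℤ))‖ := by
  obtain ⟨C, hC⟩ := lam_bound k (A := |τ.re|) τ.im_pos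
  exact ((summable_bd hk).mul_left C).of_nonneg_of_le (fun _ => norm_nonneg _)
    (hC τ ⟨le_rfl, le_rfl⟩)

theorem summable_GG {k : ℕ} (hk : 3 ≤ k) {c : ℤ × ℤ → ℂ} {B : ℝ} (hc : ∀ w, ‖c w‖ ≤ B)
    (τ : ℍ) : Summable fun w => ‖c w * lam w τ ^ (-(k : ℤ))‖ := by
  refine ((summable_lam hk τ).mul_left B).of_nonneg_of_le (fun _ => norm_nonneg _) fun w => ?_
  rw [norm_mul]
  exact mul_le_mul_of_nonneg_right (hc w) (norm_nonneg _)

theorem lam_ne_zero {w : ℤ × ℤ} (hw : w ≠ 0) (τ : ℍ) : lam w τ ≠ 0 := by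
  intro h
  have h1 := congrArg Complex.im h
  have h2 := congrArg Complex.re h
  simp [lam, τ.im_ne_zero] at h1 h2
  simp [h1] at h2
  exact hw (Prod.ext h1 h2)

theorem lam_inj (τ : ℍ) {w w' : ℤ × ℤ} (h : lam w τ = lam w' τ) : w = w' := by
  by_contra hne
  refine lam_ne_zero (sub_ne_zero.2 hne) τ ?_
  simp only [lam, Prod.fst_sub, Prod.snd_sub, Int.cast_sub] at h ⊢
  linear_combination h

theorem hol_term (k : ℕ) (a : ℂ) (w : ℤ × ℤ) : Hol fun τ => a * lam w τ ^ (-(k : ℤ)) := by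
  refine hol_of_differentiableOn (F := fun z => a * ((w.1 : ℂ) * z + w.2) ^ (-(k : ℤ))) ?_
  by_cases hw : w = 0
  · subst hw
    simp only [Prod.fst_zero, Prod.snd_zero, Int.cast_zero, zero_mul, add_zero]
    exact differentiableOn_const _
  · refine DifferentiableOn.const_mul (DifferentiableOn.zpow (by fun_prop) ?_) a
    exact Or.inl fun z hz => lam_ne_zero hw ⟨z, hz⟩

theorem hol_GG {k : ℕ} (hk : 3 ≤ k) {c : ℤ × ℤ → ℂ} {B : ℝ} (hc : ∀ w, ‖c w‖ ≤ B) :
    Hol (GG k c) := by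
  refine hol_tsum (F := fun w τ => c w * lam w τ ^ (-(k : ℤ))) (fun w => hol_term k _ w)
    fun K hK => ?_
  obtain ⟨A, B', hB, hs⟩ := subset_verticalStrip_of_isCompact hK
  obtain ⟨C, hC⟩ := lam_bound k (A := A) hB
  refine ⟨fun w => B * (C * bd k w), ((summable_bd hk).mul_left C).mul_left B, fun w τ hτ => ?_⟩
  rw [norm_mul]
  exact mul_le_mul (hc w) (hC τ (hs hτ) w) (norm_nonneg _) ((norm_nonneg _).trans (hc w))

/-- row vector times matrix -/
def zm (γ : SL) (w : ℤ × ℤ) : ℤ × ℤ :=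
  (w.1 * γ 0 0 + w.2 * γ 1 0, w.1 * γ 0 1 + w.2 * γ 1 1)

theorem zm_mul (γ δ : SL) (w : ℤ × ℤ) : zm (γ * δ) w = zm δ (zm γ w) := by
  simp only [zm, Matrix.SpecialLinearGroup.coe_mul, Matrix.mul_apply, Fin.sum_univ_two]
  ext <;> simp only <;> ring

theorem zm_one (w : ℤ × ℤ) : zm 1 w = w := by simp [zm]

def zE (γ : SL) : ℤ × ℤ ≃ ℤ × ℤ where
  toFun := zm γ
  invFun := zm γ⁻¹
  left_inv w := by rw [← zm_mul, mul_inv_cancel, zm_one]
  right_inv w := by rw [← zm_mul, inv_mul_cancel, zm_one]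

theorem lam_smul (γ : SL) (w : ℤ × ℤ) (τ : ℍ) : lam w (γ • τ) = lam (zm γ w) τ / jf γ τ := by
  have h := jf_ne_zero γ τ
  rw [lam, coe_SL, eq_div_iff h, add_mul, mul_assoc, div_mul_cancel₀ _ h]
  simp only [lam, zm, jf]
  push_cast
  ring

theorem GG_smul (k : ℕ) (c : ℤ × ℤ → ℂ) (γ : SL) (τ : ℍ) :
    GG k c (γ • τ) = jf γ τ ^ k * GG k (fun w => c (zm γ⁻¹ w)) τ := by
  rw [GG, GG, ← tsum_mul_left]
  refine Eq.trans (tsum_congr fun w => ?_) ((zE γ).tsum_eq _)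
  have e1 : zm γ⁻¹ (zE γ w) = w := (zE γ).left_inv w
  have e2 : zE γ w = zm γ w := rfl
  rw [e1, e2, lam_smul, div_zpow, zpow_neg (jf γ τ), div_inv_eq_mul, zpow_natCast]
  ring

theorem GG_bdd {k : ℕ} (hk : 3 ≤ k) (B : ℝ) : ∃ K : ℝ, ∀ c : ℤ × ℤ → ℂ, (∀ w, ‖c w‖ ≤ B) →
    ∀ τ : ℍ, 1 ≤ τ.im → ‖GG k c τ‖ ≤ K := by
  obtain ⟨C, hC⟩ := lam_bound k (A := ((1 : ℕ) : ℝ)) one_pos
  have hs := ((summable_bd hk).mul_left C).mul_left B
  refine ⟨∑' w, B * (C * bd k w), fun c hc τ hτ => ?_⟩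
  obtain ⟨n, hn⟩ := ModularGroup_T_zpow_mem_verticalStrip τ (N := 1) one_pos
  set γ : SL := ModularGroup.T ^ (((1 : ℕ) : ℤ) * n) with hγ
  have e1 : τ = γ⁻¹ • (γ • τ) := by rw [inv_smul_smul]
  have e2 : jf γ⁻¹ (γ • τ) = 1 := by
    rw [hγ, ← zpow_neg]
    have := ModularGroup.coe_T_zpow (-(((1 : ℕ) : ℤ) * n))
    have h10 := congrFun (congrFun this 1) 0
    have h11 := congrFun (congrFun this 1) 1
    simp only [jf]
    erw [h10, h11]
    simp
  rw [e1, GG_smul, e2, one_pow, one_mul]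
  refine tsum_of_norm_bounded hs.hasSum fun w => ?_
  rw [norm_mul]
  exact mul_le_mul (hc _) (hC _ (verticalStrip_anti_right _ hτ hn) w) (norm_nonneg _)
    ((norm_nonneg _).trans (hc w))

variable {M : ℕ}

open Classical in
def ind (a : ZMod M × ZMod M) (w : ℤ × ℤ) : ℂ :=
  if ((w.1 : ZMod M), (w.2 : ZMod M)) = a then 1 else 0

theorem norm_ind (a : ZMod M × ZMod M) (w : ℤ × ℤ) : ‖ind a w‖ ≤ 1 := by
  unfold ind; split_ifs <;> simp

theorem GS_eq (k : ℕ) (a : ZMod M × ZMod M) : GS M k a = GG k (ind a) := by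
  funext τ
  refine tsum_congr fun w => ?_
  unfold ind lam
  split_ifs <;> simp

def am (γ : SL) (a : ZMod M × ZMod M) : ZMod M × ZMod M :=
  (a.1 * (γ 0 0 : ℤ) + a.2 * (γ 1 0 : ℤ), a.1 * (γ 0 1 : ℤ) + a.2 * (γ 1 1 : ℤ))

theorem am_mul (γ δ : SL) (a : ZMod M × ZMod M) : am (γ * δ) a = am δ (am γ a) := by
  simp only [am, Matrix.SpecialLinearGroup.coe_mul, Matrix.mul_apply, Fin.sum_univ_two]
  ext <;> simp only <;> push_cast <;> ring

theorem am_one (a : ZMod M × ZMod M) : am 1 a = a := by simp [am]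

theorem am_zm (γ : SL) (w : ℤ × ℤ) : (((zm γ w).1 : ZMod M), ((zm γ w).2 : ZMod M)) =
    am γ ((w.1 : ZMod M), (w.2 : ZMod M)) := by
  simp [am, zm]

theorem ind_zm (γ : SL) (a : ZMod M × ZMod M) (w : ℤ × ℤ) :
    ind a (zm γ⁻¹ w) = ind (am γ a) w := by
  unfold ind
  rw [am_zm]
  congr 1
  refine propext ⟨fun h => ?_, fun h => ?_⟩
  · rw [← h, ← am_mul, inv_mul_cancel, am_one]
  · rw [h, ← am_mul, mul_inv_cancel, am_one]

theorem GS_smul (k : ℕ) (a : ZMod M × ZMod M) (γ : SL) (τ : ℍ) :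
    GS M k a (γ • τ) = jf γ τ ^ k * GS M k (am γ a) τ := by
  rw [GS_eq, GS_eq, GG_smul]
  simp only [ind_zm]

theorem sl_GS (k : ℕ) (a : ZMod M × ZMod M) (γ : SL) :
    sl k γ (GS M k a) = GS M k (am γ a) := by
  funext τ
  have h := jf_ne_zero γ τ
  rw [sl, GS_smul, zpow_neg, zpow_natCast]
  field_simp

theorem am_Gamma {γ : SL} (h : γ ∈ Gamma M) (a : ZMod M × ZMod M) : am γ a = a := by
  rw [Gamma_mem] at h
  obtain ⟨h1, h2, h3, h4⟩ := h
  simp only [am]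
  erw [h1, h2, h3, h4]
  simp

theorem hol_GS {k : ℕ} (hk : 3 ≤ k) (a : ZMod M × ZMod M) : Hol (GS M k a) := by
  rw [GS_eq]; exact hol_GG hk (norm_ind a)

theorem inG_GS [NeZero M] {k : ℕ} (hk : 3 ≤ k) (a : ZMod M × ZMod M) : InG (GS M k a) := by
  refine inG_of_level (hol_GS hk a) (NeZero.pos M) k (fun γ hγ => ?_) fun γ => ?_
  · rw [sl_GS, am_Gamma hγ]
  · obtain ⟨K, hK⟩ := GG_bdd hk 1
    refine ⟨0, K, fun τ hτ => ?_⟩
    rw [sl_GS, GS_eq]
    simpa using hK _ (norm_ind _) τ hτ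

theorem sum_GS [NeZero M] {k : ℕ} (hk : 3 ≤ k) (c : ZMod M × ZMod M → ℂ) (τ : ℍ) :
    HasSum (fun w : ℤ × ℤ => c ((w.1 : ZMod M), (w.2 : ZMod M)) * lam w τ ^ (-(k : ℤ)))
      (∑ a, c a * GS M k a τ) := by
  have h : ∀ a ∈ (Finset.univ : Finset (ZMod M × ZMod M)),
      HasSum (fun w => c a * (ind a w * lam w τ ^ (-(k : ℤ)))) (c a * GS M k a τ) := by
    intro a _
    rw [GS_eq]
    exact ((summable_GG hk (norm_ind a) τ).of_norm.hasSum).mul_left _
  convert hasSum_sum h using 2 with w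
  simp only [← mul_assoc, ← Finset.sum_mul]
  congr 1
  simp [ind]

/-! ### independence -/

theorem peak {ι : Type} {a u : ι → ℂ} {i0 : ι} (hs : Summable fun i => ‖a i‖)
    (hu : ∀ i, a i ≠ 0 → ‖u i‖ ≤ 1) (h1 : ∀ i, u i = 1 → i = i0) (h0 : u i0 = 1)
    (h : ∀ j : ℕ, HasSum (fun i => a i * u i ^ j) 0) : a i0 = 0 := by
  classical
  have key : ∀ N j : ℕ, HasSum (fun i => a i * u i ^ j * ((1 + u i) / 2) ^ N) 0 := by
    intro N
    induction N with
    | zero => simpa using h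
    | succ N ih =>
      intro j
      have := ((ih j).add (ih (j + 1))).div_const 2
      rw [add_zero, zero_div] at this
      exact this.congr_fun fun i => by ring
  have hn : ∀ i, a i ≠ 0 → ‖(1 + u i) / 2‖ ≤ 1 := fun i hi => by
    have := norm_add_le 1 (u i)
    have := hu i hi
    rw [norm_div, norm_ofNat, div_le_one two_pos]
    simp only [norm_one] at *
    linarith
  have lim := tendsto_tsum_of_dominated_convergence (𝓕 := atTop)
    (f := fun (N : ℕ) i => a i * ((1 + u i) / 2) ^ N) (g := fun i => if i = i0 then a i0 else 0)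
    hs (fun i => ?_) (Eventually.of_forall fun N i => ?_)
  · have e : (fun N : ℕ => ∑' i, a i * ((1 + u i) / 2) ^ N) = fun _ => 0 := by
      funext N
      simpa using (key N 0).tsum_eq
    rw [e, tsum_ite_eq] at lim
    exact (tendsto_nhds_unique tendsto_const_nhds lim).symm
  · by_cases hi : i = i0
    · subst hi; simp [h0]
    · by_cases ha : a i = 0
      · simp [hi, ha]
      · simp only [hi, if_false]
        have hlt : ‖(1 + u i) / 2‖ < 1 := by
          have h2 := hu i ha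
          have h3 : u i ≠ 1 := fun e => hi (h1 i e)
          have h4 : 0 < ‖1 - u i‖ := norm_pos_iff.2 (sub_ne_zero.2 h3.symm)
          have h5 := parallelogram_law_with_norm ℝ (1 : ℂ) (u i)
          rw [norm_div, norm_ofNat, div_lt_one two_pos]
          simp only [norm_one] at h5
          nlinarith [norm_nonneg (u i), norm_nonneg (1 + u i)]
        simpa using (tendsto_pow_atTop_nhds_zero_of_norm_lt_one hlt).const_mul (a i)
  · by_cases ha : a i = 0
    · simp [ha]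
    · rw [norm_mul, norm_pow]
      exact mul_le_of_le_one_right (norm_nonneg _) (pow_le_one₀ (norm_nonneg _) (hn i ha))

theorem indep [NeZero M] (τ : ℍ) (c : ZMod M × ZMod M → ℂ)
    (h : ∀ k, 3 ≤ k → ∑ a, c a * GS M k a τ = 0) : c = 0 := by
  by_contra hc
  obtain ⟨a, ha⟩ := Function.ne_iff.1 hc
  set d : ℤ × ℤ → ℂ := fun w => c ((w.1 : ZMod M), (w.2 : ZMod M)) with hd
  obtain ⟨w1, hw1, hd1⟩ : ∃ w : ℤ × ℤ, w ≠ 0 ∧ d w ≠ 0 := by
    refine ⟨((a.1.val : ℤ) + M, (a.2.val : ℤ)), fun e => ?_, ?_⟩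
    · have := congrArg Prod.fst e
      have := NeZero.pos M
      simp only [Prod.fst_zero] at *
      omega
    · simpa [hd] using ha
  set g : ℤ × ℤ → ℝ := fun w => ‖lam w τ ^ (-((3 : ℕ) : ℤ))‖ with hg
  have hgs : Summable g := summable_lam le_rfl τ
  have hg1 : 0 < g w1 := norm_pos_iff.2 (zpow_ne_zero _ (lam_ne_zero hw1 τ))
  have hfin : {w | d w ≠ 0 ∧ g w1 ≤ g w}.Finite := by
    have := hgs.tendsto_cofinite_zero.eventually (gt_mem_nhds hg1)
    rw [eventually_cofinite] at this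
    exact this.subset fun w hw => not_lt.2 hw.2
  obtain ⟨w0, hw0, hmax⟩ := Set.exists_max_image _ g hfin ⟨w1, hd1, le_rfl⟩
  have hall : ∀ w, d w ≠ 0 → g w ≤ g w0 := fun w hw => by
    by_cases h' : g w1 ≤ g w
    · exact hmax w ⟨hw, h'⟩
    · exact (not_le.1 h').le.trans hw0.2
  have hg0 : 0 < g w0 := hg1.trans_le hw0.2
  have hl0 : lam w0 τ ≠ 0 := fun e => by simp [hg, e] at hg0
  set u : ℤ × ℤ → ℂ := fun w => lam w0 τ / lam w τ with hu
  have hup : ∀ w (k : ℕ), u w ^ k = lam w0 τ ^ k * lam w τ ^ (-(k : ℤ)) := fun w k => by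
    rw [hu, div_pow, zpow_neg, zpow_natCast, div_eq_mul_inv]
  obtain ⟨B, hB⟩ : ∃ B, ∀ w, ‖d w‖ ≤ B :=
    ⟨∑ a, ‖c a‖, fun w => Finset.single_le_sum (f := fun a => ‖c a‖)
      (fun _ _ => norm_nonneg _) (Finset.mem_univ _)⟩
  have := peak (a := fun w => d w * u w ^ 3) (u := u) (i0 := w0) ?_ (fun w hw => ?_)
    (fun w hw => ?_) (div_self hl0) fun j => ?_
  · simp only [hu, div_self hl0, one_pow, mul_one] at this
    exact hw0.1 this
  · refine ((summable_GG le_rfl hB τ).mul_left (‖lam w0 τ‖ ^ 3)).congr fun w => ?_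
    rw [hup, ← norm_pow, ← norm_mul]
    congr 1
    ring
  · have h1 := hall w (left_ne_zero_of_mul hw)
    have h2 : ‖u w‖ ^ 3 ≤ 1 := by
      rw [← norm_pow, hup, norm_mul]
      refine (mul_le_mul_of_nonneg_left h1 (norm_nonneg _)).trans (le_of_eq ?_)
      rw [← norm_mul, ← hup, hu]
      simp [div_self hl0]
    exact (pow_le_one_iff_of_nonneg (norm_nonneg _) (by norm_num)).1 h2
  · have h1 : lam w τ ≠ 0 := fun e => by simp [hu, e] at hw
    exact lam_inj τ ((div_eq_one_iff_eq h1).1 hw).symm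
  · have h1 := (sum_GS (k := 3 + j) (by omega) c τ).mul_left (lam w0 τ ^ (3 + j))
    rw [h _ (by omega), mul_zero] at h1
    refine h1.congr_fun fun w => ?_
    rw [mul_assoc, ← pow_add, hup]
    ring

end EisP

end

end Pool.Agent.P.MP_b8021b_nt.CM
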