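import Pool.Agent.P.MP_b8021b_nt.CM.Lib

/-! Package P33: the Euler product by double counting. -/

namespace Pool.Agent.P.MP_b8021b_nt.CM

open Complex hiding Gamma
open UpperHalfPlane hiding I
open CongruenceSubgroup Function
open scoped Real MatrixGroups

noncomputable section

namespace EulerP

open Classical in
/-- indicator of a proposition -/
def one (P : Prop) : ℂ := if P then 1 else 0

theorem one_pos {P : Prop} (h : P) : one P = 1 := if_pos h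

theorem one_neg {P : Prop} (h : ¬ P) : one P = 0 := if_neg h

theorem one_congr {P Q : Prop} (h : P ↔ Q) : one P = one Q := by rw [propext h]

theorem one_mul_one (P Q : Prop) : one P * one Q = one (P ∧ Q) := by
  by_cases hP : P <;> by_cases hQ : Q <;> simp [one, hP, hQ]

theorem of_one_ne {P : Prop} (h : one P ≠ 0) : P := by
  by_contra h'
  exact h (one_neg h')

theorem sum_one {α : Type} (S : Finset α) (P : α → Prop) :
    ∑ x ∈ S, one (P x) = (Nat.card {x : α // x ∈ S ∧ P x} : ℂ) := by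
  classical
  have e : ∀ x, one (P x) = if P x then 1 else 0 := fun x => by
    by_cases h : P x
    · rw [one_pos h, if_pos h]
    · rw [one_neg h, if_neg h]
  simp only [e]
  rw [Finset.sum_boole, ← Nat.card_eq_finsetCard]
  congr 1
  exact Nat.card_congr (Equiv.subtypeEquivRight fun x => Finset.mem_filter)

/-! ### left cosets and right cosets -/

def rightA : GQ →* Equiv.Perm GQ where
  toFun g := Equiv.mulRight g⁻¹
  map_one' := by ext1 y; simp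
  map_mul' g h := by ext1 y; simp [mul_assoc]

theorem rightA_apply (g y : GQ) : rightA g y = y * g⁻¹ := rfl

theorem rightA_free (x γ : GQ) (h : rightA γ x = x) : γ = 1 := by
  rw [rightA_apply] at h
  simpa using h

theorem iG_mean {N : ℕ} (hN : 0 < N) : DGood rightA G0 (fun y => one (y ∈ Gam N)) ∧
    dmean rightA G0 (fun y => one (y ∈ Gam N)) = 1 / ((Gam N).relIndex G0 : ℂ) := by
  have h := dmean_reps (ρ := rightA) (w := fun y => one (y ∈ Gam N)) (fi_Gam hN) ?_ {1} ?_ ?_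
  · rwa [Finset.sum_singleton, one_pos (Subgroup.one_mem _)] at h
  · intro γ hγ x
    exact one_congr (Subgroup.mul_mem_cancel_right _ (Subgroup.inv_mem _ hγ))
  · intro x hx
    have hx' : x ∈ Gam N := of_one_ne hx
    exact ⟨1, ⟨Finset.mem_singleton_self _, x⁻¹, Subgroup.inv_mem _ hx',
      by rw [rightA_apply]; simp⟩, fun y hy => Finset.mem_singleton.1 hy.1⟩
  · exact fun x _ γ _ h => rightA_free x γ h

theorem sum_left_right {N : ℕ} (hN : 0 < N) (R R' : Finset GQ) (D : GQ → Prop) (Φ : GQ → ℂ)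
    (hL : ∀ γ ∈ Gam N, ∀ g, D g → Φ (γ * g) = Φ g) (hR : ∀ γ ∈ Gam N, ∀ g, D g → Φ (g * γ) = Φ g)
    (hDL : ∀ γ ∈ Gam N, ∀ g, D g → D (γ * g)) (hDR : ∀ γ ∈ Gam N, ∀ g, D g → D (g * γ))
    (h1 : ∀ g ∈ R, D g) (h2 : ∀ g, D g → ∃! z, z ∈ R ∧ ∃ γ ∈ Gam N, γ * z = g)
    (h1' : ∀ g ∈ R', D g) (h2' : ∀ g, D g → ∃! z, z ∈ R' ∧ ∃ γ ∈ Gam N, z * γ = g) :
    ∑ g ∈ R, Φ g = ∑ g ∈ R', Φ g := by
  set w : GQ → ℂ := fun g => one (D g) * Φ g with hw
  have hwD : ∀ x, w x ≠ 0 → D x := fun x hx => of_one_ne (left_ne_zero_of_mul hx)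
  have e1 : w = ∑ g ∈ R, Φ g • fun y => one (rightA g y ∈ Gam N) := by
    funext y
    simp only [Finset.sum_apply, Pi.smul_apply, smul_eq_mul, rightA_apply, hw]
    by_cases hy : D y
    · obtain ⟨z, ⟨hz, γ, hγ, rfl⟩, hu⟩ := h2 y hy
      rw [one_pos hy, Finset.sum_eq_single z]
      · rw [one_pos (by simpa using hγ), hL γ hγ z (h1 z hz), mul_comm]
      · intro b hb hne
        rw [one_neg, mul_zero]
        intro hm
        exact hne (hu b ⟨hb, _, hm, by simp⟩)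
      · intro h; exact absurd hz h
    · rw [one_neg hy, zero_mul]
      refine (Finset.sum_eq_zero fun b hb => ?_).symm
      rw [one_neg, mul_zero]
      intro hm
      exact hy (by simpa using hDL _ hm b (h1 b hb))
  have e2 : dmean rightA G0 w = (∑ g ∈ R, Φ g) / ((Gam N).relIndex G0 : ℂ) := by
    rw [e1, dmean_sum]
    · rw [Finset.sum_div]
      refine Finset.sum_congr rfl fun g _ => ?_
      rw [dmean_smul, dmean_act uni_G0 (fun y => one (y ∈ Gam N)), (iG_mean hN).2, mul_one_div]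
    · intro g _
      exact ((iG_mean hN).1.comp_act uni_G0 g).smul _
  have e3 := (dmean_reps (ρ := rightA) (w := w) (fi_Gam hN) ?_ R' ?_ ?_).2
  · have hi : ((Gam N).relIndex G0 : ℂ) ≠ 0 := by exact_mod_cast (fi_Gam hN).2
    rw [e2, div_left_inj' hi] at e3
    rw [e3]
    exact Finset.sum_congr rfl fun g hg => by simp only [hw, one_pos (h1' g hg), one_mul]
  · intro γ hγ x
    have hγ' := Subgroup.inv_mem _ hγ
    simp only [hw, rightA_apply]
    by_cases hx : D x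
    · rw [one_pos hx, one_pos (hDR _ hγ' x hx), hR _ hγ' x hx]
    · rw [one_neg hx, one_neg, zero_mul, zero_mul]
      intro h
      exact hx (by simpa using hDR _ hγ _ h)
  · intro x hx
    obtain ⟨z, ⟨hz, γ, hγ, rfl⟩, hu⟩ := h2' x (hwD x hx)
    refine ⟨z, ⟨hz, γ⁻¹, Subgroup.inv_mem _ hγ, by rw [rightA_apply]; simp⟩, ?_⟩
    rintro y ⟨hy, δ, hδ, e⟩
    exact hu y ⟨hy, δ⁻¹, Subgroup.inv_mem _ hδ, e⟩
  · exact fun x _ γ _ h => rightA_free x γ h

/-! ### congruences -/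

variable {N : ℕ}

theorem ind_eq (μ : R2 N) (Y : M2) : ind N μ Y = one (∃ Z : Z2, castZ Z = Y ∧ red N Z = μ) := by
  unfold ind one
  congr

theorem red_smul (a : ℤ) (Y : Z2) : red N (a • Y) = (a : ZMod N) • red N Y := by
  ext i j; simp only [red, Matrix.map_apply, Matrix.smul_apply, smul_eq_mul, Int.cast_mul]

theorem red_add (Y Z : Z2) : red N (Y + Z) = red N Y + red N Z := by
  ext i j; simp [red]

theorem red_adj (Y : Z2) : red N Y.adjugate = (red N Y).adjugate := by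
  ext i j; fin_cases i <;> fin_cases j <;> simp [red, Matrix.adjugate_fin_two]

theorem red_transpose (Y : Z2) : red N Y.transpose = (red N Y).transpose := rfl

theorem smul_cancel {t : ℤ} (ht : IsCoprime t N) {A B : R2 N}
    (h : (t : ZMod N) • A = (t : ZMod N) • B) : A = B := by
  obtain ⟨a, b, hab⟩ := ht
  have h1 : (a : ZMod N) * t = 1 := by
    have := congrArg (Int.cast : ℤ → ZMod N) hab
    simpa using this
  have := congrArg (fun C => (a : ZMod N) • C) h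
  simpa [smul_smul, h1] using this

/-- the pair `(Y, Z)` is congruent to `μ` at the primes that divide `N` -/
def Nmu (N : ℕ) (μ : R2 N × R2 N) (Y Z : M2) : Prop :=
  ∃ (t : ℤ) (A B : Z2), IsCoprime t N ∧ castZ A = (t : ℚ) • Y ∧ castZ B = (t : ℚ) • Z ∧
    red N A = (t : ZMod N) • μ.1 ∧ red N B = (t : ZMod N) • μ.2

theorem Nmu.nat {μ : R2 N × R2 N} {Y Z : M2} (h : Nmu N μ Y Z) :
    ∃ t : ℕ, t.Coprime N ∧ IsInt ((t : ℚ) • Y) ∧ IsInt ((t : ℚ) • Z) := by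
  obtain ⟨t, A, B, ht, hA, hB, -, -⟩ := h
  have e : ((t.natAbs : ℕ) : ℚ) = ((t.sign : ℤ) : ℚ) * t := by
    rw [← Int.cast_mul, Int.sign_mul_self]; simp
  refine ⟨t.natAbs, ?_, ?_, ?_⟩
  · exact Int.isCoprime_iff_gcd_eq_one.1 ht
  · rw [e, mul_smul, ← hA]; exact ((isInt_M2 _).2 ⟨A, rfl⟩).zsmul _
  · rw [e, mul_smul, ← hB]; exact ((isInt_M2 _).2 ⟨B, rfl⟩).zsmul _

theorem comb_red {μ : R2 N × R2 N} {Y Z : M2} (h : Nmu N μ Y Z) (a b : ℤ) {C : Z2}
    (hC : castZ C = (a : ℚ) • Y + (b : ℚ) • Z) :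
    red N C = (a : ZMod N) • μ.1 + (b : ZMod N) • μ.2 := by
  obtain ⟨t, A, B, ht, hA, hB, rA, rB⟩ := h
  have e : t • C = a • A + b • B := by
    apply castZ_injective
    rw [castZ_smul, castZ_add, castZ_smul, castZ_smul, hC, hA, hB]
    module
  apply smul_cancel ht
  rw [← red_smul, e, red_add, red_smul, red_smul, rA, rB]
  module

/-- the test function attached to an integral matrix `X` -/
def FX (N : ℕ) (μ : R2 N × R2 N) (X : Z2) (Y Z : M2) : ℂ :=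
  ind N ((X 0 0 : ZMod N) • μ.1 + (X 0 1 : ZMod N) • μ.2) ((X 0 0 : ℚ) • Y + (X 0 1 : ℚ) • Z) *
    ind N ((X 1 0 : ZMod N) • μ.1 + (X 1 1 : ZMod N) • μ.2) ((X 1 0 : ℚ) • Y + (X 1 1 : ℚ) • Z)

def PX (X : Z2) (Y Z : M2) : Prop :=
  IsInt ((X 0 0 : ℚ) • Y + (X 0 1 : ℚ) • Z) ∧ IsInt ((X 1 0 : ℚ) • Y + (X 1 1 : ℚ) • Z)

theorem FX_eq (μ : R2 N × R2 N) {X : Z2} (hX : IsCoprime X.det N) (Y Z : M2) :
    FX N μ X Y Z = one (Nmu N μ Y Z) * one (PX X Y Z) := by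
  rw [FX, ind_eq, ind_eq, one_mul_one, one_mul_one]
  refine one_congr ⟨?_, ?_⟩
  · rintro ⟨⟨A, hA, rA⟩, B, hB, rB⟩
    refine ⟨⟨X.det, X 1 1 • A + (-X 0 1) • B, (-X 1 0) • A + X 0 0 • B, hX, ?_, ?_, ?_, ?_⟩,
      (isInt_M2 _).2 ⟨A, hA⟩, (isInt_M2 _).2 ⟨B, hB⟩⟩
    · rw [castZ_add, castZ_smul, castZ_smul, hA, hB, Matrix.det_fin_two]; push_cast; module
    · rw [castZ_add, castZ_smul, castZ_smul, hA, hB, Matrix.det_fin_two]; push_cast; module
    · rw [red_add, red_smul, red_smul, rA, rB, Matrix.det_fin_two]; push_cast; module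
    · rw [red_add, red_smul, red_smul, rA, rB, Matrix.det_fin_two]; push_cast; module
  · rintro ⟨h, hA, hB⟩
    obtain ⟨A, hA⟩ := (isInt_M2 _).1 hA
    obtain ⟨B, hB⟩ := (isInt_M2 _).1 hB
    exact ⟨⟨A, hA, comb_red h _ _ hA⟩, B, hB, comb_red h _ _ hB⟩

theorem PX.mul {X : Z2} {Y Z : M2} (h : PX X Y Z) (γ : Z2) : PX (γ * X) Y Z := by
  constructor
  · convert (h.1.zsmul (γ 0 0)).add (h.2.zsmul (γ 0 1)) using 1
    simp only [Matrix.mul_apply, Fin.sum_univ_two]; push_cast; module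
  · convert (h.1.zsmul (γ 1 0)).add (h.2.zsmul (γ 1 1)) using 1
    simp only [Matrix.mul_apply, Fin.sum_univ_two]; push_cast; module

theorem PX_mul_iff {X : Z2} {Y Z : M2} {γ δ : Z2} (h : δ * γ = 1) : PX (γ * X) Y Z ↔ PX X Y Z :=
  ⟨fun h' => by simpa [← Matrix.mul_assoc, h] using h'.mul δ, fun h' => h'.mul γ⟩

/-- the linear map given by the rows of `X` -/
def LX (a b c d : ℚ) : M2 × M2 →ₗ[ℚ] M2 × M2 :=
  (a • LinearMap.fst ℚ M2 M2 + b • LinearMap.snd ℚ M2 M2).prod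
    (c • LinearMap.fst ℚ M2 M2 + d • LinearMap.snd ℚ M2 M2)

theorem LX_inj {a b c d : ℚ} (h : a * d - b * c ≠ 0) : Injective (LX a b c d) := by
  rw [injective_iff_map_eq_zero]
  rintro ⟨Y, Z⟩ hp
  have h1 : a • Y + b • Z = 0 := congrArg Prod.fst hp
  have h2 : c • Y + d • Z = 0 := congrArg Prod.snd hp
  have e1 : (a * d - b * c) • Y = 0 := by linear_combination (norm := module) d • h1 - b • h2
  have e2 : (a * d - b * c) • Z = 0 := by linear_combination (norm := module) a • h2 - c • h1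
  rw [(smul_eq_zero.1 e1).resolve_left h, (smul_eq_zero.1 e2).resolve_left h]
  rfl

theorem sb_ind2 (hN : 0 < N) (μ ν : R2 N) : SB fun p : M2 × M2 => ind N μ p.1 * ind N ν p.2 :=
  ((lev_ind hN μ).sb hN).tensor ((lev_ind hN ν).sb hN)

theorem sb_FX (hN : 0 < N) (μ : R2 N × R2 N) {X : Z2} (hX : X.det ≠ 0) : SB (unc (FX N μ X)) := by
  have h : (X 0 0 : ℚ) * X 1 1 - X 0 1 * X 1 0 ≠ 0 := by
    rw [Matrix.det_fin_two] at hX
    exact_mod_cast hX
  exact (sb_ind2 hN _ _).comp_inj (LX _ _ _ _) (LX_inj h)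

/-! ### the coefficients `Dco` -/

def rows (X : Z2) : Q2 × Q2 := (((X 0 0 : ℚ), (X 0 1 : ℚ)), ((X 1 0 : ℚ), (X 1 1 : ℚ)))

theorem rows_inj : Injective rows := by
  intro X Y h
  simp only [rows, Prod.mk.injEq, Int.cast_inj] at h
  obtain ⟨⟨h1, h2⟩, h3, h4⟩ := h
  ext i j; fin_cases i <;> fin_cases j <;> assumption

theorem det2_rows (X : Z2) : det2 (rows X) = (X.det : ℚ) := by
  simp [det2, rows, Matrix.det_fin_two]

theorem exists_rows {x' x : Q2} (h' : IsInt x') (h : IsInt x) : ∃ X, rows X = (x', x) := by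
  obtain ⟨a, ha⟩ := (isInt_rat _).1 ((isInt_prod _).1 h').1
  obtain ⟨b, hb⟩ := (isInt_rat _).1 ((isInt_prod _).1 h').2
  obtain ⟨c, hc⟩ := (isInt_rat _).1 ((isInt_prod _).1 h).1
  obtain ⟨d, hd⟩ := (isInt_rat _).1 ((isInt_prod _).1 h).2
  exact ⟨!![a, b; c, d], by simp [rows, ← ha, ← hb, ← hc, ← hd]⟩

theorem isInt_rows (X : Z2) : IsInt (rows X).1 ∧ IsInt (rows X).2 :=
  ⟨(isInt_prod _).2 ⟨(isInt_rat _).2 ⟨_, rfl⟩, (isInt_rat _).2 ⟨_, rfl⟩⟩,
    (isInt_prod _).2 ⟨(isInt_rat _).2 ⟨_, rfl⟩, (isInt_rat _).2 ⟨_, rfl⟩⟩⟩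

/-- the involution that occurs in `kp` -/
def nat (γ : SL) : SL := ⟨!![γ 1 1, γ 0 1; γ 1 0, γ 0 0], by
  have h := γ.det_coe
  rw [Matrix.det_fin_two] at h
  rw [Matrix.det_fin_two_of]
  linear_combination h⟩

theorem nat_nat (γ : SL) : nat (nat γ) = γ := by
  ext i j; fin_cases i <;> fin_cases j <;> rfl

theorem kp_rows (γ : SL) (X : Z2) : kp γ (rows X) = rows ((nat γ).1 * X) := by
  simp [kp, rows, nat, Matrix.mul_apply, Fin.sum_univ_two]

theorem kA_rows (γ : SLᵐᵒᵖ) (X : Z2) : kA γ (rows X) = rows ((nat γ.unop).1 * X) := kp_rows _ _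

theorem bX_rows (s : ℍ → ℍ → ℂ) (d : ℕ) (μ : R2 N × R2 N) {X : Z2} (hX : IsCoprime X.det N)
    (h0 : X.det ≠ 0) : bX s d (vmu N μ) (rows X).1 (rows X).2 = aS s 1 0 d (FX N μ X) := by
  have h : (X 0 0 : ℚ) * X 1 1 - X 0 1 * X 1 0 ≠ 0 := by
    rw [Matrix.det_fin_two] at h0
    exact_mod_cast h0
  have e := aS_gl2 (s := s) h (fun y' y => vmu N μ (y', (rows X).1) (y, (rows X).2)) 1 0 d
  unfold bX
  convert e using 2
  · simp only [Nm, rows]; ring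
  · simp only [bilN, rows]; ring
  · simp only [Nm, rows]; ring
  · funext Y Z
    unfold vmu
    rw [if_pos ⟨(isInt_rows X).1, (isInt_rows X).2, by
      show IsCoprime (det2 (rows X)).num N
      rw [det2_rows, Rat.num_intCast]; exact hX⟩]
    simp only [FX, rows, Rat.num_intCast]

theorem bX_supp' {s : ℍ → ℍ → ℂ} {d : ℕ} {μ : R2 N × R2 N} {x : Q2 × Q2}
    (h : bX s d (vmu N μ) x.1 x.2 ≠ 0) : ∃ X, rows X = x ∧ IsCoprime X.det N := by
  classical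
  obtain ⟨-, -, Y, Z, -, -, -, h⟩ := aS_supp h
  unfold vmu at h
  have h' := (ite_ne_right_iff.1 h).1
  obtain ⟨X, hX⟩ := exists_rows h'.1 h'.2.1
  refine ⟨X, hX, ?_⟩
  have := h'.2.2
  change IsCoprime (det2 (x.1, x.2)).num N at this
  rwa [← hX, det2_rows, Rat.num_intCast] at this

open Classical in
/-- the summand of `Dco` -/
def wD (s : ℍ → ℍ → ℂ) (d : ℕ) (μ : R2 N × R2 N) (k : ℕ) (x : Q2 × Q2) : ℂ :=
  if |det2 x| = k then bX s d (vmu N μ) x.1 x.2 else 0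

theorem wD_supp {s : ℍ → ℍ → ℂ} {d k : ℕ} {μ : R2 N × R2 N} {x : Q2 × Q2}
    (h : wD s d μ k x ≠ 0) : ∃ X, rows X = x ∧ IsCoprime X.det N ∧ |X.det| = k := by
  obtain ⟨h1, h2⟩ := ite_ne_right_iff.1 h
  obtain ⟨X, rfl, hX⟩ := bX_supp' h2
  rw [det2_rows] at h1
  exact ⟨X, rfl, hX, by exact_mod_cast h1⟩

theorem Dco_supp {s : ℍ → ℍ → ℂ} {d k : ℕ} {μ : R2 N × R2 N} (h : Dco s d (vmu N μ) k ≠ 0) :
    k.Coprime N := by
  have : wD s d μ k ≠ 0 := fun h0 => h (by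
    change dmean kA ⊤ (wD s d μ k) = 0
    rw [h0, dmean_zero])
  obtain ⟨x, hx⟩ := Function.ne_iff.1 this
  obtain ⟨X, -, h1, h2⟩ := wD_supp hx
  rw [← Nat.isCoprime_iff_coprime, ← h2]
  exact (IsCoprime.abs_left_iff _ _).2 h1

theorem wD_rows (s : ℍ → ℍ → ℂ) (d : ℕ) (μ : R2 N × R2 N) {k : ℕ} (hk : 0 < k) (hc : k.Coprime N)
    {X : Z2} (hX : |X.det| = k) :
    wD s d μ k (rows X) = aS s 1 0 d fun Y Z => one (Nmu N μ Y Z) * one (PX X Y Z) := by
  have h1 : IsCoprime X.det N := by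
    rw [← IsCoprime.abs_left_iff, hX]; exact Nat.isCoprime_iff_coprime.2 hc
  have h0 : X.det ≠ 0 := by
    intro h; rw [h] at hX; simp at hX; omega
  unfold wD
  rw [if_pos (by rw [det2_rows]; exact_mod_cast hX), bX_rows s d μ h1 h0]
  congr 1
  funext Y Z
  exact FX_eq μ h1 Y Z

theorem SL_inv_mul (γ : SL) : (γ⁻¹).1 * γ.1 = 1 := by
  rw [← Matrix.SpecialLinearGroup.coe_mul, inv_mul_cancel]; rfl

theorem wD_inv (s : ℍ → ℍ → ℂ) (d : ℕ) (μ : R2 N × R2 N) {k : ℕ} (hk : 0 < k) (hc : k.Coprime N) :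
    Inv kA ⊤ (wD s d μ k) := by
  have key : ∀ γ x, wD s d μ k x ≠ 0 → wD s d μ k (kA γ x) = wD s d μ k x := by
    intro γ x hx
    obtain ⟨X, rfl, -, h⟩ := wD_supp hx
    rw [kA_rows, wD_rows s d μ hk hc h, wD_rows s d μ hk hc (by
      rw [Matrix.det_mul, Matrix.SpecialLinearGroup.det_coe, one_mul, h])]
    simp only [PX_mul_iff (SL_inv_mul _)]
  intro γ _ x
  by_cases hx : wD s d μ k x = 0
  · by_contra h
    have h' := key γ⁻¹ (kA γ x) (by rwa [hx] at h)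
    rw [← Equiv.Perm.mul_apply, ← map_mul, inv_mul_cancel, map_one, Equiv.Perm.one_apply] at h'
    exact h h'.symm
  · exact key γ x hx

/-- `diag (1, -1)` -/
def JJ : Z2 := !![1, 0; 0, -1]

theorem JJ_mul : JJ * JJ = 1 := by decide

theorem JJ_det : JJ.det = -1 := by decide

theorem hnf_det {k : ℕ} {g : Z2} (h : g ∈ hnf k) : g.det = k := by
  obtain ⟨a, b, d, -, rfl, -, rfl⟩ := mem_hnf.1 h
  simp [ut, Matrix.det_fin_two]

theorem exists_rep {k : ℕ} (hk : 0 < k) {X : Z2} (hX : |X.det| = k) :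
    ∃! g, (g ∈ hnf k ∨ JJ * g ∈ hnf k) ∧ ∃ γ : SL, γ.1 * g = X := by
  have hdet : ∀ (γ : SL) (g : Z2), (γ.1 * g).det = g.det := fun γ g => by
    rw [Matrix.det_mul, Matrix.SpecialLinearGroup.det_coe, one_mul]
  have hJ : ∀ g : Z2, (JJ * g).det = -g.det := fun g => by rw [Matrix.det_mul, JJ_det]; ring
  have conjJ : ∀ γ : SL, ∃ δ : SL, δ.1 = JJ * γ.1 * JJ := fun γ =>
    ⟨⟨JJ * γ.1 * JJ, by simp [Matrix.det_mul, JJ_det]⟩, rfl⟩
  rcases abs_eq (by positivity) |>.1 hX with h | h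
  · obtain ⟨g, ⟨hg, γ, e⟩, hu⟩ := exists_hnf hk h
    refine ⟨g, ⟨Or.inl hg, γ, e.symm⟩, ?_⟩
    rintro g' ⟨hg' | hg', γ', e'⟩
    · exact hu g' ⟨hg', γ', e'.symm⟩
    · have h1 := hnf_det hg'
      rw [hJ, ← hdet γ', e', h] at h1
      omega
  · obtain ⟨g, ⟨hg, γ, e⟩, hu⟩ := exists_hnf hk (Y := JJ * X) (by rw [hJ, h, neg_neg])
    obtain ⟨δ, hδ⟩ := conjJ γ
    refine ⟨JJ * g, ⟨Or.inr (by rwa [← Matrix.mul_assoc, JJ_mul, Matrix.one_mul]), δ, ?_⟩, ?_⟩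
    · rw [hδ, Matrix.mul_assoc, ← Matrix.mul_assoc JJ JJ, JJ_mul, Matrix.one_mul, Matrix.mul_assoc,
        ← e, ← Matrix.mul_assoc, JJ_mul, Matrix.one_mul]
    · rintro g' ⟨hg' | hg', γ', e'⟩
      · have h1 := hnf_det hg'
        rw [← hdet γ', e', h] at h1
        omega
      · obtain ⟨δ', hδ'⟩ := conjJ γ'
        have := hu _ ⟨hg', δ', by
          rw [hδ', Matrix.mul_assoc, ← Matrix.mul_assoc JJ JJ, JJ_mul, Matrix.one_mul,
            Matrix.mul_assoc, e']⟩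
        rw [← this, ← Matrix.mul_assoc, JJ_mul, Matrix.one_mul]

theorem Dco_eq (s : ℍ → ℍ → ℂ) (d : ℕ) (μ : R2 N × R2 N) {k : ℕ} (hk : 0 < k) (hc : k.Coprime N) :
    Dco s d (vmu N μ) k =
      2 * ∑ g ∈ hnf k, aS s 1 0 d fun Y Z => one (Nmu N μ Y Z) * one (PX g Y Z) := by
  classical
  have hJJ : ∀ g : Z2, JJ * (JJ * g) = g := fun g => by
    rw [← Matrix.mul_assoc, JJ_mul, Matrix.one_mul]
  have hJ : ∀ g : Z2, (JJ * g).det = -g.det := fun g => by rw [Matrix.det_mul, JJ_det]; ring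
  set R : Finset Z2 := hnf k ∪ (hnf k).image (JJ * ·) with hR
  have mR : ∀ g, g ∈ R ↔ g ∈ hnf k ∨ JJ * g ∈ hnf k := fun g => by
    rw [hR, Finset.mem_union, Finset.mem_image]
    refine or_congr_right ⟨?_, fun h => ⟨_, h, hJJ g⟩⟩
    rintro ⟨g', h, rfl⟩
    rwa [hJJ]
  have h := (dmean_reps (FI.refl ⊤) (wD_inv s d μ hk hc) (R.image rows) ?_ ?_).2
  · change dmean kA ⊤ (wD s d μ k) = _
    rw [h, Subgroup.relIndex_self, Nat.cast_one, div_one, Finset.sum_image rows_inj.injOn, hR,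
      Finset.sum_union, Finset.sum_image, two_mul]
    · congr 1
      · refine Finset.sum_congr rfl fun g hg => wD_rows s d μ hk hc ?_
        rw [hnf_det hg]; simp
      · refine Finset.sum_congr rfl fun g hg => ?_
        rw [wD_rows s d μ hk hc (by rw [hJ, hnf_det hg]; simp)]
        simp only [PX_mul_iff JJ_mul]
    · intro g _ g' _ e
      rw [← hJJ g, ← hJJ g']
      exact congrArg (JJ * ·) e
    · rw [Finset.disjoint_left]
      intro g hg hg'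
      obtain ⟨g', h', rfl⟩ := Finset.mem_image.1 hg'
      have h1 := hnf_det hg
      rw [hJ, hnf_det h'] at h1
      omega
  · intro x hx
    obtain ⟨X, rfl, -, hX⟩ := wD_supp hx
    obtain ⟨g, ⟨hg, γ, e⟩, hu⟩ := exists_rep hk hX
    refine ⟨rows g, ⟨Finset.mem_image_of_mem _ ((mR g).2 hg), MulOpposite.op (nat γ), trivial, ?_⟩, ?_⟩
    · rw [kA_rows, MulOpposite.unop_op, nat_nat, e]
    · rintro y ⟨hy, δ, -, e'⟩
      obtain ⟨g', hg', rfl⟩ := Finset.mem_image.1 hy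
      rw [kA_rows] at e'
      rw [hu g' ⟨(mR g').1 hg', _, rows_inj e'⟩]
  · intro x hx γ _ e
    obtain ⟨X, rfl, -, hX⟩ := wD_supp hx
    rw [kA_rows] at e
    have e' := rows_inj e
    have h0 : X.det ≠ 0 := by
      intro h; rw [h] at hX; simp at hX; omega
    have e1 : (nat γ.unop).1 = 1 := by
      have := congrArg (· * X.adjugate) e'
      simp only [Matrix.mul_assoc, Matrix.mul_adjugate, Matrix.mul_smul, Matrix.mul_one] at this
      exact smul_right_injective _ h0 this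
    have e2 : nat γ.unop = 1 := Subtype.ext e1
    have e3 : γ.unop = 1 := by
      rw [← nat_nat γ.unop, e2]
      ext i j; fin_cases i <;> fin_cases j <;> rfl
    exact MulOpposite.unop_injective e3

/-! ### the Hecke side -/

/-- `diag (1, m)` -/
def dg (N : ℕ) (a : ZMod N) : R2 N := !![1, 0; 0, a]

theorem dg_mul (a b : ZMod N) : dg N a * dg N b = dg N (a * b) := by
  simp [dg]

theorem dg_one : dg N 1 = 1 := by
  rw [dg, Matrix.one_fin_two]

theorem dg_det (a : ZMod N) : (dg N a).det = a := by simp [dg, Matrix.det_fin_two]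

/-- the set of matrices that defines `T m` -/
def DD (N m : ℕ) (g : GQ) : Prop := g.1.det = m ∧ ∃ G : Z2, castZ G = g.1 ∧ red N G = dg N m

theorem mem_Gam {γ : GQ} (h : γ ∈ Gam N) : ∃ δ : SL, iota δ = γ ∧ red N δ.1 = 1 := by
  obtain ⟨δ, hδ, rfl⟩ := h
  exact ⟨δ, rfl, (mem_Gamma_iff_red N δ).1 hδ⟩

theorem iota_det (δ : SL) : (iota δ).1.det = 1 := by
  rw [iota_val, castZ_det, Matrix.SpecialLinearGroup.det_coe, Int.cast_one]

theorem DD.left {m : ℕ} {γ g : GQ} (hγ : γ ∈ Gam N) (h : DD N m g) : DD N m (γ * g) := by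
  obtain ⟨δ, rfl, hδ⟩ := mem_Gam hγ
  obtain ⟨h1, G, h2, h3⟩ := h
  refine ⟨by rw [Units.val_mul, Matrix.det_mul, iota_det, h1, one_mul], δ.1 * G, ?_, ?_⟩
  · rw [castZ_mul, h2, Units.val_mul, iota_val]
  · rw [red_mul, hδ, h3, Matrix.one_mul]

theorem DD.right {m : ℕ} {γ g : GQ} (hγ : γ ∈ Gam N) (h : DD N m g) : DD N m (g * γ) := by
  obtain ⟨δ, rfl, hδ⟩ := mem_Gam hγ
  obtain ⟨h1, G, h2, h3⟩ := h
  refine ⟨by rw [Units.val_mul, Matrix.det_mul, iota_det, h1, mul_one], G * δ.1, ?_, ?_⟩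
  · rw [castZ_mul, h2, Units.val_mul, iota_val]
  · rw [red_mul, hδ, h3, Matrix.mul_one]

theorem Tn_reps (hN : 0 < N) {m : ℕ} (hm : 0 < m) : ∃ R : Finset GQ, (∀ g ∈ R, DD N m g) ∧
    (∀ g, DD N m g → ∃! z, z ∈ R ∧ ∃ γ ∈ Gam N, γ * z = g) ∧
    ∀ u, LevU N u → ∀ σ, Tn N m u σ = ∑ Y ∈ R, u (actH Y σ) := by
  obtain ⟨R, h1, h2, h3⟩ := HK_reps hN (dg N m) hm
  refine ⟨R, fun g hg => ⟨(h1 g hg).1, of_one_ne ?_⟩, fun g hg => h2 g hg.1 ?_, h3⟩
  · rw [← ind_eq, (h1 g hg).2]; exact one_ne_zero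
  · rw [ind_eq, one_pos hg.2]; exact one_ne_zero

theorem HasLevS.add' {s s' : ℍ → ℍ → ℂ} (h : HasLevS s) (h' : HasLevS s') : HasLevS (s + s') := by
  obtain ⟨M, hM, h⟩ := h
  obtain ⟨M', hM', h'⟩ := h'
  exact ⟨M * M', Nat.mul_pos hM hM',
    (h.mono (Nat.dvd_mul_right _ _)).add (h'.mono (Nat.dvd_mul_left _ _))⟩

theorem aS_sum_s {ι : Type} (t : Finset ι) (f : ι → ℍ → ℍ → ℂ) (h : ∀ i ∈ t, HasLevS (f i))
    {φ : M2 → M2 → ℂ} (hφ : SB (unc φ)) (n r j : ℚ) : HasLevS (∑ i ∈ t, f i) ∧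
      aS (∑ i ∈ t, f i) n r j φ = ∑ i ∈ t, aS (f i) n r j φ := by
  classical
  induction t using Finset.induction_on with
  | empty =>
    refine ⟨⟨1, Nat.one_pos, fun _ _ _ _ => rfl, fun _ _ _ _ => rfl⟩, ?_⟩
    have := aS_smul_s (s := 0) 0 φ n r j
    simpa using this
  | insert a t ha ih =>
    obtain ⟨h1, h2⟩ := ih fun i hi => h i (Finset.mem_insert_of_mem hi)
    have h3 := h a (Finset.mem_insert_self _ _)
    rw [Finset.sum_insert ha, Finset.sum_insert ha, aS_add_s h3 h1 hφ, h2]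
    exact ⟨HasLevS.add' h3 h1, rfl⟩

/-- the translate of `φ` by `(g₁, g₂)` -/
def tr (φ : M2 → M2 → ℂ) (g1 g2 : GQ) (Y Z : M2) : ℂ :=
  φ ((g2⁻¹).1 * Y * g1.1) ((g2⁻¹).1 * Z * g1.1)

theorem aS_tr (s : ℍ → ℍ → ℂ) (φ : M2 → M2 → ℂ) {g1 g2 : GQ} (h1 : 0 < g1.1.det)
    (h2 : g2.1.det = g1.1.det) (n r j : ℚ) :
    aS (fun τ σ => s (actH g1 τ) (actH g2 σ)) n r j φ = aS s n r j (tr φ g1 g2) := by
  have e := aS_act (s := s) g1 g2 h1 (h2 ▸ h1) (tr φ g1 g2) n r j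
  rw [h2, div_self h1.ne', one_mul, one_mul, one_mul] at e
  rw [← e]
  congr 1
  funext Y Z
  have k : ∀ Y : M2, (g2⁻¹).1 * (g2.1 * Y * (g1⁻¹).1) * g1.1 = Y := fun Y => by
    rw [← Matrix.mul_assoc, ← Matrix.mul_assoc, Matrix.mul_assoc _ _ g1.1, ← Units.val_mul,
      ← Units.val_mul, inv_mul_cancel, inv_mul_cancel, Units.val_one, Matrix.one_mul,
      Matrix.mul_one]
  simp only [tr, k]

theorem sb_tr {φ : M2 → M2 → ℂ} (hφ : SB (unc φ)) (g1 g2 : GQ) : SB (unc (tr φ g1 g2)) := by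
  let L : M2 →ₗ[ℚ] M2 := (LinearMap.mulRight ℚ g1.1).comp (LinearMap.mulLeft ℚ (g2⁻¹).1)
  have hL : Injective L := fun Y Z h => by
    have h' : (g2⁻¹).1 * Y * g1.1 = (g2⁻¹).1 * Z * g1.1 := h
    exact (Units.mul_right_inj g2⁻¹).1 ((Units.mul_left_inj g1).1 h')
  exact hφ.comp_inj (L.prodMap L) (hL.prodMap hL)

theorem ind_Gam (μ : R2 N) {γ δ : GQ} (hγ : γ ∈ Gam N) (hδ : δ ∈ Gam N) (Y : M2) :
    ind N μ (γ.1 * Y * δ.1) = ind N μ Y := by
  have key : ∀ {γ δ : GQ}, γ ∈ Gam N → δ ∈ Gam N → ∀ Y : M2,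
      (∃ Z : Z2, castZ Z = Y ∧ red N Z = μ) →
      ∃ Z : Z2, castZ Z = γ.1 * Y * δ.1 ∧ red N Z = μ := by
    rintro γ δ hγ hδ Y ⟨Z, rfl, hZ⟩
    obtain ⟨γ', rfl, k1⟩ := mem_Gam hγ
    obtain ⟨δ', rfl, k2⟩ := mem_Gam hδ
    exact ⟨γ'.1 * Z * δ'.1, by rw [castZ_mul, castZ_mul, iota_val, iota_val],
      by rw [red_mul, red_mul, k1, k2, hZ, Matrix.one_mul, Matrix.mul_one]⟩
  rw [ind_eq, ind_eq]
  refine one_congr ⟨fun h => ?_, key hγ hδ Y⟩
  have := key (Subgroup.inv_mem _ hγ) (Subgroup.inv_mem _ hδ) _ h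
  simpa [Matrix.mul_assoc] using this

theorem op2_eq (hN : 0 < N) {s : ℍ → ℍ → ℂ} (hs : LevS N s) {m : ℕ} (hm : 0 < m)
    (R' : Finset GQ) (h1' : ∀ g ∈ R', DD N m g)
    (h2' : ∀ g, DD N m g → ∃! z, z ∈ R' ∧ ∃ γ ∈ Gam N, z * γ = g) (ν : R2 N × R2 N) (d : ℕ) :
    ell (op2 (Tn N m) (Tn N m) s) d N ν = ∑ g1 ∈ R', ∑ g2 ∈ R',
      aS s 1 0 d (tr (fun Y Z => ind N ν.1 Y * ind N ν.2 Z) g1 g2) := by
  obtain ⟨R, h1, h2, h3⟩ := Tn_reps hN hm
  set φ : M2 → M2 → ℂ := fun Y Z => ind N ν.1 Y * ind N ν.2 Z with hφ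
  have sφ : SB (unc φ) := sb_ind2 hN _ _
  have hl : HasLevS s := ⟨N, hN, hs⟩
  have hpos : ∀ g, DD N m g → 0 < g.1.det := fun g hg => by rw [hg.1]; exact_mod_cast hm
  have e1 : op2 (Tn N m) (Tn N m) s =
      ∑ g1 ∈ R, ∑ g2 ∈ R, fun τ σ => s (actH g1 τ) (actH g2 σ) := by
    funext τ σ
    simp only [op2, Finset.sum_apply, h3 _ (hs.2 _)]
    rw [h3]
    intro γ hγ τ'
    exact Finset.sum_congr rfl fun g _ => hs.1 _ γ hγ τ'
  set Φ : GQ → GQ → ℂ := fun g1 g2 => aS s 1 0 d (tr φ g1 g2) with hΦ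
  have e2 : ell (op2 (Tn N m) (Tn N m) s) d N ν = ∑ g1 ∈ R, ∑ g2 ∈ R, Φ g1 g2 := by
    change aS _ 1 0 d φ = _
    rw [e1, (aS_sum_s R _ (fun g1 _ => (aS_sum_s R _ (fun g2 _ => hl.comp_act g1 g2) sφ 1 0 d).1)
      sφ 1 0 d).2]
    refine Finset.sum_congr rfl fun g1 hg1 => ?_
    rw [(aS_sum_s R _ (fun g2 _ => hl.comp_act g1 g2) sφ 1 0 d).2]
    refine Finset.sum_congr rfl fun g2 hg2 => ?_
    exact aS_tr s φ (hpos _ (h1 _ hg1)) ((h1 _ hg2).1.trans (h1 _ hg1).1.symm) 1 0 d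
  have hL : ∀ γ ∈ Gam N, ∀ δ ∈ Gam N, ∀ g1 g2, DD N m g1 → DD N m g2 →
      Φ (γ * g1) (δ * g2) = Φ g1 g2 := by
    intro γ hγ δ hδ g1 g2 k1 k2
    simp only [hΦ]
    rw [← aS_tr s φ (hpos _ k1) (k2.1.trans k1.1.symm),
      ← aS_tr s φ (hpos _ (k1.left hγ)) ((k2.left hδ).1.trans (k1.left hγ).1.symm)]
    congr 1
    funext τ σ
    rw [map_mul, map_mul, Equiv.Perm.mul_apply, Equiv.Perm.mul_apply,
      (levU_iff N _).1 (hs.2 _) δ hδ]
    exact (levU_iff N _).1 (hs.1 _) γ hγ _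
  have hR : ∀ γ ∈ Gam N, ∀ δ ∈ Gam N, ∀ g1 g2, Φ (g1 * γ) (g2 * δ) = Φ g1 g2 := by
    intro γ hγ δ hδ g1 g2
    simp only [hΦ]
    congr 1
    funext Y Z
    have k : ∀ Y : M2, ((g2 * δ)⁻¹).1 * Y * (g1 * γ).1 = (δ⁻¹).1 * ((g2⁻¹).1 * Y * g1.1) * γ.1 :=
      fun Y => by simp only [mul_inv_rev, Units.val_mul, Matrix.mul_assoc]
    simp only [tr, k, hφ, ind_Gam _ (Subgroup.inv_mem _ hδ) hγ]
  have o := Subgroup.one_mem (Gam N)
  rw [e2]
  trans ∑ g1 ∈ R, ∑ g2 ∈ R', Φ g1 g2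
  · refine Finset.sum_congr rfl fun g1 hg1 => sum_left_right hN R R' (DD N m) _ ?_ ?_
      (fun _ h _ k => k.left h) (fun _ h _ k => k.right h) h1 h2 h1' h2'
    · intro γ hγ g hg
      simpa using hL 1 o γ hγ g1 g (h1 _ hg1) hg
    · intro γ hγ g _
      simpa using hR 1 o γ hγ g1 g
  · refine sum_left_right hN R R' (DD N m) (fun g1 => ∑ g2 ∈ R', Φ g1 g2) ?_ ?_
      (fun _ h _ k => k.left h) (fun _ h _ k => k.right h) h1 h2 h1' h2'
    · intro γ hγ g hg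
      refine Finset.sum_congr rfl fun g2 hg2 => ?_
      simpa using hL γ hγ 1 o g g2 hg (h1' _ hg2)
    · intro γ hγ g _
      refine Finset.sum_congr rfl fun g2 _ => ?_
      simpa using hR γ hγ 1 o g g2

theorem red_cancel {m : ℕ} (hc : m.Coprime N) {A B C : R2 N} (hA : A.det = m)
    (h : A * B = A * C) : B = C := by
  have hu : IsUnit A := by
    rw [Matrix.isUnit_iff_isUnit_det, hA]
    exact (ZMod.isUnit_iff_coprime m N).2 hc
  exact hu.mul_left_cancel h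

/-- right representatives from Hermite normal forms -/
theorem exists_right (hN : 0 < N) {m : ℕ} (hm : 0 < m) (hc : m.Coprime N) :
    ∃ ρ : Z2 → GQ, Set.InjOn ρ (hnf m) ∧
      (∀ h ∈ hnf m, DD N m (ρ h) ∧ ∃ γ : SL, (ρ h).1 = castZ h.transpose * castZ γ.1) ∧
      ∀ g, DD N m g → ∃! h, h ∈ hnf m ∧ ∃ γ ∈ Gam N, ρ h * γ = g := by
  have hm' : (m : ZMod N) * (m : ZMod N)⁻¹ = 1 := ZMod.coe_mul_inv_eq_one m hc
  have ex : ∀ h : Z2, ∃ γ : SL, h ∈ hnf m → red N (h.transpose * γ.1) = dg N m := by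
    intro h
    by_cases hh : h ∈ hnf m
    · have hd : (red N h.transpose).det = m := by
        rw [red_det, Matrix.det_transpose, hnf_det hh, Int.cast_natCast]
      obtain ⟨γ, hγ⟩ := red_surj hN ((m : ZMod N)⁻¹ • (red N h.transpose).adjugate * dg N m) (by
        rw [Matrix.det_mul, Matrix.det_smul, Matrix.det_adjugate, hd, dg_det]
        simp only [Fintype.card_fin, Nat.add_one_sub_one, pow_one]
        linear_combination ((m : ZMod N) * (m : ZMod N)⁻¹ + 1) * hm')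
      refine ⟨γ, fun _ => ?_⟩
      rw [red_mul, hγ, ← Matrix.mul_assoc, Matrix.mul_smul, Matrix.mul_adjugate, hd, smul_smul,
        mul_comm, hm', one_smul, Matrix.one_mul]
    · exact ⟨1, fun h' => absurd h' hh⟩
  choose γ hγ using ex
  have hdet : ∀ h ∈ hnf m, (castZ (h.transpose * (γ h).1)).det = m := fun h hh => by
    rw [castZ_det, Matrix.det_mul, Matrix.det_transpose, hnf_det hh,
      Matrix.SpecialLinearGroup.det_coe, mul_one, Int.cast_natCast]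
  have hval : ∀ h ∈ hnf m, (toG (castZ (h.transpose * (γ h).1))).1 =
      castZ (h.transpose * (γ h).1) := fun h hh =>
    toG_val (by rw [hdet h hh]; exact_mod_cast hm.ne')
  have uniq : ∀ h ∈ hnf m, ∀ h' ∈ hnf m, ∀ δ δ' : SL,
      h.transpose * δ.1 = h'.transpose * δ'.1 → h = h' := by
    intro h hh h' hh' δ δ' e
    have e' := congrArg Matrix.transpose e
    rw [Matrix.transpose_mul, Matrix.transpose_mul, Matrix.transpose_transpose,
      Matrix.transpose_transpose] at e'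
    obtain ⟨g, -, hu⟩ := exists_hnf hm (Y := δ.1.transpose * h) (by
      rw [Matrix.det_mul, Matrix.det_transpose, Matrix.SpecialLinearGroup.det_coe, one_mul,
        hnf_det hh])
    rw [hu h ⟨hh, δ.transpose, rfl⟩, hu h' ⟨hh', δ'.transpose, e'⟩]
  refine ⟨fun h => toG (castZ (h.transpose * (γ h).1)), ?_, ?_, ?_⟩
  · intro h hh h' hh' e
    have e' := congrArg Units.val e
    simp only [hval h hh, hval h' hh'] at e'
    exact uniq h hh h' hh' _ _ (castZ_injective e')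
  · intro h hh
    exact ⟨⟨by rw [hval h hh, hdet h hh], _, (hval h hh).symm, hγ h hh⟩, γ h,
      by rw [hval h hh, castZ_mul]⟩
  · rintro g ⟨g1, G, g2, g3⟩
    have hG : G.transpose.det = m := by
      rw [← g2, castZ_det] at g1
      rw [Matrix.det_transpose]
      exact_mod_cast g1
    obtain ⟨h, ⟨hh, δ, e⟩, -⟩ := exists_hnf hm hG
    have e' : G = h.transpose * (δ.transpose).1 := by
      rw [← Matrix.transpose_transpose G, e, Matrix.transpose_mul]; rfl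
    have e2 : h.transpose * (γ h).1 * ((γ h)⁻¹ * δ.transpose).1 = G := by
      rw [Matrix.mul_assoc, ← Matrix.SpecialLinearGroup.coe_mul, mul_inv_cancel_left, e']
    refine ⟨h, ⟨hh, iota ((γ h)⁻¹ * δ.transpose), ⟨_, ?_, rfl⟩, ?_⟩, ?_⟩
    · refine (mem_Gamma_iff_red N _).2 (red_cancel hc (dg_det _) ?_)
      rw [Matrix.mul_one, ← hγ h hh, ← red_mul, e2, g3, hγ h hh]
    · apply Units.ext
      rw [Units.val_mul, hval h hh, iota_val, ← castZ_mul, e2, g2]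
    · rintro h' ⟨hh', κ, hκ, e3⟩
      obtain ⟨κ', rfl, -⟩ := mem_Gam hκ
      have e4 := congrArg Units.val e3
      rw [Units.val_mul, hval h' hh', iota_val, ← castZ_mul, ← g2] at e4
      have e5 := castZ_injective e4
      rw [e', Matrix.mul_assoc, ← Matrix.SpecialLinearGroup.coe_mul] at e5
      exact uniq _ hh' _ hh _ _ e5

theorem castZ_adj (G : Z2) : castZ G.adjugate = (castZ G).adjugate := by
  ext i j; fin_cases i <;> fin_cases j <;> simp [castZ, Matrix.adjugate_fin_two]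

theorem ind_tw {m : ℕ} (hc : m.Coprime N) {g1 g2 : GQ} (k1 : DD N m g1) (k2 : DD N m g2)
    (μ : R2 N) (Y : M2) {A : Z2} (hA : castZ A = (g2⁻¹).1 * Y * g1.1) :
    (red N A = dg N (m : ZMod N)⁻¹ * μ * dg N m →
      ∃ B : Z2, castZ B = ((m : ℤ) : ℚ) • Y ∧ red N B = ((m : ℤ) : ZMod N) • μ) ∧
    ∀ (t : ℤ) (B : Z2), IsCoprime t N → castZ B = (t : ℚ) • Y → red N B = (t : ZMod N) • μ →
      red N A = dg N (m : ZMod N)⁻¹ * μ * dg N m := by
  have hm' : (m : ZMod N) * (m : ZMod N)⁻¹ = 1 := ZMod.coe_mul_inv_eq_one m hc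
  obtain ⟨d1, G1, e1, r1⟩ := k1
  obtain ⟨d2, G2, e2, r2⟩ := k2
  have e : castZ (G2 * A) = Y * castZ G1 := by
    rw [castZ_mul, e2, hA, e1, ← Matrix.mul_assoc, ← Matrix.mul_assoc, ← Units.val_mul,
      mul_inv_cancel, Units.val_one, Matrix.one_mul]
  have k : dg N m * (dg N (m : ZMod N)⁻¹ * μ * dg N m) = μ * dg N m := by
    rw [← Matrix.mul_assoc, ← Matrix.mul_assoc, dg_mul, hm', dg_one, Matrix.one_mul]
  constructor
  · intro h
    refine ⟨G2 * A * G1.adjugate, ?_, ?_⟩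
    · rw [castZ_mul, e, castZ_adj, Matrix.mul_assoc, Matrix.mul_adjugate, e1, d1, Matrix.mul_smul,
        Matrix.mul_one, Int.cast_natCast]
    · rw [red_mul, red_mul, red_adj, r1, r2, h, k, Matrix.mul_assoc, Matrix.mul_adjugate, dg_det,
        Matrix.mul_smul, Matrix.mul_one, Int.cast_natCast]
  · intro t B ht hB rB
    have e' : t • (G2 * A) = B * G1 := by
      apply castZ_injective
      rw [castZ_smul, e, castZ_mul, hB, Matrix.smul_mul]
    refine red_cancel hc (dg_det _) (smul_cancel ht ?_)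
    rw [k, ← r2, ← red_mul, ← red_smul, e', red_mul, rB, r1, r2, Matrix.smul_mul]

theorem tr_eq {m : ℕ} (hc : m.Coprime N) {g1 g2 : GQ} (k1 : DD N m g1) (k2 : DD N m g2)
    (μ : R2 N × R2 N) (Y Z : M2) :
    tr (fun Y Z => ind N (tw N m μ).1 Y * ind N (tw N m μ).2 Z) g1 g2 Y Z =
      one (Nmu N μ Y Z) * one (IsInt ((g2⁻¹).1 * Y * g1.1) ∧ IsInt ((g2⁻¹).1 * Z * g1.1)) := by
  rw [tr, ind_eq, ind_eq, one_mul_one, one_mul_one]
  refine one_congr ⟨?_, ?_⟩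
  · rintro ⟨⟨A, hA, rA⟩, B, hB, rB⟩
    obtain ⟨A', h1, h2⟩ := (ind_tw hc k1 k2 μ.1 Y hA).1 rA
    obtain ⟨B', h3, h4⟩ := (ind_tw hc k1 k2 μ.2 Z hB).1 rB
    exact ⟨⟨m, A', B', Nat.isCoprime_iff_coprime.2 hc, h1, h3, h2, h4⟩,
      (isInt_M2 _).2 ⟨A, hA⟩, (isInt_M2 _).2 ⟨B, hB⟩⟩
  · rintro ⟨⟨t, A', B', ht, h1, h3, h2, h4⟩, hA, hB⟩
    obtain ⟨A, hA⟩ := (isInt_M2 _).1 hA
    obtain ⟨B, hB⟩ := (isInt_M2 _).1 hB
    exact ⟨⟨A, hA, (ind_tw hc k1 k2 μ.1 Y hA).2 t A' ht h1 h2⟩,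
      B, hB, (ind_tw hc k1 k2 μ.2 Z hB).2 t B' ht h3 h4⟩

theorem isInt_SL (γ δ : SL) (W : M2) : IsInt ((castZ γ.1)⁻¹ * W * castZ δ.1) ↔ IsInt W := by
  have key : ∀ (γ δ : SL) (W : M2), IsInt W → IsInt (castZ γ.1 * W * castZ δ.1) := by
    intro γ δ W h
    obtain ⟨A, rfl⟩ := (isInt_M2 _).1 h
    exact (isInt_M2 _).2 ⟨γ.1 * A * δ.1, by rw [castZ_mul, castZ_mul]⟩
  have one' : castZ 1 = 1 := by
    ext i j; fin_cases i <;> fin_cases j <;> simp [castZ]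
  have inv1 : ∀ γ : SL, castZ γ.1 * castZ (γ⁻¹).1 = 1 := fun γ => by
    rw [← castZ_mul, ← Matrix.SpecialLinearGroup.coe_mul, mul_inv_cancel]; exact one'
  rw [Matrix.inv_eq_right_inv (inv1 γ)]
  refine ⟨fun h => ?_, key _ _ W⟩
  have := key γ δ⁻¹ _ h
  rwa [← Matrix.mul_assoc, ← Matrix.mul_assoc, inv1, Matrix.one_mul, Matrix.mul_assoc, inv1,
    Matrix.mul_one] at this

/-- the integrality condition on the Hecke side -/
def QX (g : Z2 × Z2) (Y Z : M2) : Prop :=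
  IsInt ((castZ g.2.transpose)⁻¹ * Y * castZ g.1.transpose) ∧
    IsInt ((castZ g.2.transpose)⁻¹ * Z * castZ g.1.transpose)

theorem ell_eq (hN : 0 < N) {s : ℍ → ℍ → ℂ} (hs : LevS N s) {m : ℕ} (hm : 0 < m) (hc : m.Coprime N)
    (μ : R2 N × R2 N) (d : ℕ) :
    (∀ g ∈ hnf m ×ˢ hnf m, SB (unc fun Y Z => one (Nmu N μ Y Z) * one (QX g Y Z))) ∧
    ell (op2 (Tn N m) (Tn N m) s) d N (tw N m μ) = ∑ g ∈ hnf m ×ˢ hnf m,
      aS s 1 0 d fun Y Z => one (Nmu N μ Y Z) * one (QX g Y Z) := by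
  classical
  obtain ⟨ρ, r1, r2, r3⟩ := exists_right hN hm hc
  have e : ∀ h1 ∈ hnf m, ∀ h2 ∈ hnf m,
      tr (fun Y Z => ind N (tw N m μ).1 Y * ind N (tw N m μ).2 Z) (ρ h1) (ρ h2) =
      fun Y Z => one (Nmu N μ Y Z) * one (QX (h1, h2) Y Z) := by
    intro h1 k1 h2 k2
    funext Y Z
    rw [tr_eq hc (r2 _ k1).1 (r2 _ k2).1]
    obtain ⟨γ1, e1⟩ := (r2 _ k1).2
    obtain ⟨γ2, e2⟩ := (r2 _ k2).2
    have k : ∀ Y : M2, IsInt (((ρ h2)⁻¹).1 * Y * (ρ h1).1) ↔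
        IsInt ((castZ h2.transpose)⁻¹ * Y * castZ h1.transpose) := fun Y => by
      rw [Matrix.coe_units_inv, e1, e2, Matrix.mul_inv_rev,
        ← isInt_SL γ2 γ1 ((castZ h2.transpose)⁻¹ * Y * castZ h1.transpose)]
      simp only [Matrix.mul_assoc]
    simp only [k, QX]
  constructor
  · intro g hg
    rw [← e _ (Finset.mem_product.1 hg).1 _ (Finset.mem_product.1 hg).2]
    exact sb_tr (φ := fun Y Z => ind N _ Y * ind N _ Z) (sb_ind2 hN _ _) _ _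
  rw [op2_eq hN hs hm ((hnf m).image ρ), Finset.sum_image r1, Finset.sum_product]
  · refine Finset.sum_congr rfl fun h1 k1 => ?_
    rw [Finset.sum_image r1]
    exact Finset.sum_congr rfl fun h2 k2 => by rw [e _ k1 _ k2]
  · intro g hg
    obtain ⟨h, hh, rfl⟩ := Finset.mem_image.1 hg
    exact (r2 h hh).1
  · intro g hg
    obtain ⟨h, ⟨hh, k⟩, hu⟩ := r3 g hg
    refine ⟨ρ h, ⟨Finset.mem_image_of_mem _ hh, k⟩, ?_⟩
    rintro y ⟨hy, k'⟩
    obtain ⟨h', hh', rfl⟩ := Finset.mem_image.1 hy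
    rw [hu h' ⟨hh', k'⟩]

theorem aS_comb {s : ℍ → ℍ → ℂ} (hs : HasLevS s) {ι κ : Type} (t : Finset ι) (u : ι → Finset κ)
    (c : ι → ℂ) (φ : κ → M2 → M2 → ℂ) (h : ∀ i ∈ t, ∀ k ∈ u i, SB (unc (φ k))) (n r j : ℚ) :
    ∑ i ∈ t, c i * ∑ k ∈ u i, aS s n r j (φ k) =
      aS s n r j fun Y Z => ∑ i ∈ t, c i * ∑ k ∈ u i, φ k Y Z := by
  have e : (fun Y Z => ∑ i ∈ t, c i * ∑ k ∈ u i, φ k Y Z) = ∑ i ∈ t, c i • ∑ k ∈ u i, φ k := by
    funext Y Z
    simp only [Finset.sum_apply, Pi.smul_apply, smul_eq_mul]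
  rw [e, aS_sum hs]
  · exact Finset.sum_congr rfl fun i hi => by rw [aS_smul, aS_sum hs _ _ (h i hi)]
  · intro i hi
    have := (SB.sum (u i) (fun k => unc (φ k)) (h i hi)).smul (c i)
    convert this using 1
    funext p
    simp only [unc, Finset.sum_apply, Pi.smul_apply, smul_eq_mul]

end EulerP

open EulerP in
theorem euler (hC : S_Count) : S_Euler := by
  intro s d N hd hN hdN hs μ
  refine ⟨fun n h => Dco_supp h, fun n hn hc => ?_⟩
  have hl : HasLevS s := ⟨N, hN, hs⟩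
  have pos : ∀ k ∈ n.divisors, 0 < k ∧ k.Coprime N := fun k hk =>
    ⟨Nat.pos_of_mem_divisors hk, hc.coprime_dvd_left (Nat.dvd_of_mem_divisors hk)⟩
  have e1 : ∑ k ∈ n.divisors, Dco s d (vmu N μ) k * rK d (n / k) = 2 * ∑ k ∈ n.divisors,
      rK d (n / k) * ∑ g ∈ hnf k, aS s 1 0 d fun Y Z => one (Nmu N μ Y Z) * one (PX g Y Z) := by
    rw [Finset.mul_sum]
    refine Finset.sum_congr rfl fun k hk => ?_
    rw [Dco_eq s d μ (pos k hk).1 (pos k hk).2]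
    ring
  have e2 : ∑ m ∈ n.divisors, (ArithmeticFunction.sigma 1 (n / m) : ℂ) *
      ell (op2 (Tn N m) (Tn N m) s) d N (tw N m μ) = ∑ m ∈ n.divisors,
      (ArithmeticFunction.sigma 1 (n / m) : ℂ) * ∑ g ∈ hnf m ×ˢ hnf m,
        aS s 1 0 d fun Y Z => one (Nmu N μ Y Z) * one (QX g Y Z) :=
    Finset.sum_congr rfl fun m hm => by rw [(ell_eq hN hs (pos m hm).1 (pos m hm).2 μ d).2]
  rw [e1, e2, aS_comb hl, aS_comb hl _ _ _ _ fun m hm => (ell_eq hN hs (pos m hm).1 (pos m hm).2 μ d).1]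
  · congr 1
    refine aS_congr fun Y Z h1 h2 h3 => ?_
    by_cases h : Nmu N μ Y Z
    · have := hC d N hN hdN Y Z h1 h2 h3 h.nat n hn hc
      simp only [one_pos h, one_mul, sum_one, Finset.mem_product, and_assoc]
      simp only [mul_comm (rK d _)]
      exact this
    · simp only [one_neg h, zero_mul, Finset.sum_const_zero, mul_zero]
  · intro k hk g hg
    have h1 : IsCoprime g.det N := by
      rw [hnf_det hg]; exact Nat.isCoprime_iff_coprime.2 (pos k hk).2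
    have h0 : g.det ≠ 0 := by
      rw [hnf_det hg]; exact_mod_cast (pos k hk).1.ne'
    convert sb_FX hN μ h0 using 2
    funext Y Z
    exact (FX_eq μ h1 Y Z).symm

end

end Pool.Agent.P.MP_b8021b_nt.CM
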