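import Pool.Agent.P.MP_b8021b_nt.CM.Lib

/-! From the vanishing of the special sums to the statement on zero-cycles. -/

namespace Pool.Agent.P.MP_b8021b_nt.CM

open Complex hiding Gamma
open UpperHalfPlane hiding I
open MeasureTheory CongruenceSubgroup Filter
open scoped Real MatrixGroups ModularForm Topology ComplexConjugate Modular

noncomputable section

namespace FinalP

theorem exists_functional {A : Type} [AddCommGroup A] (B : AddSubgroup A) (z : A)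
    (h : ¬ ∃ k : ℕ, 0 < k ∧ k • z ∈ B) : ∃ f : A →+ ℂ, (∀ D ∈ B, f D = 0) ∧ f z ≠ 0 := by
  have hinj : Function.Injective (zmultiplesHom (A ⧸ B) (QuotientAddGroup.mk z)) := by
    rw [injective_iff_map_eq_zero]
    intro n hn
    by_contra h0
    apply h
    refine ⟨n.natAbs, Int.natAbs_pos.2 h0, ?_⟩
    rw [zmultiplesHom_apply, ← QuotientAddGroup.mk_zsmul, QuotientAddGroup.eq_zero_iff] at hn
    rcases Int.natAbs_eq n with e | e
    · rw [e, natCast_zsmul] at hn; exact hn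
    · rw [e, neg_zsmul, natCast_zsmul] at hn; exact (neg_mem_iff).1 hn
  obtain ⟨g, hg⟩ := (Module.Baer.of_divisible ℂ).extension_property_addMonoidHom _ hinj
    (Int.castAddHom ℂ)
  refine ⟨g.comp (QuotientAddGroup.mk' B), fun D hD => ?_, ?_⟩
  · simp [(QuotientAddGroup.eq_zero_iff D).2 hD]
  · have := DFunLike.congr_fun hg 1
    simp only [AddMonoidHom.coe_comp, Function.comp_apply, zmultiplesHom_apply, one_smul,
      Int.coe_castAddHom, Int.cast_one] at this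
    simp [this]

theorem inO_coord {N a n : ℕ} (hN : 0 < N)
    (Φ : Fin n → ModularForm (Gamma N : Subgroup SL(2, ℤ)) (12 * a)) (i : Option (Fin n)) :
    InO N fun τ => coord Φ τ i := by
  cases i with
  | none => exact inO_jj.mono (one_dvd N)
  | some i =>
    obtain ⟨h1, h2⟩ := inG_modularForm hN (Φ i)
    refine ⟨?_, fun γ hγ τ => ?_⟩
    · have := h1.mul (inG_Delta_inv.pow a)
      convert this using 1
      funext τ
      simp [coord, div_eq_mul_inv]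
    · have e1 := congrFun (h2 γ hγ) τ
      have e2 := congrFun (inG_Delta.2 γ) τ
      have h0 := jf_ne_zero γ τ
      simp only [sl] at e1 e2
      simp only [coord]
      rw [← e1, ← e2, mul_pow, ← zpow_natCast (jf γ τ ^ _), ← zpow_mul, neg_mul,
        mul_div_mul_right _ _ (zpow_ne_zero _ h0)]

theorem common_level {ι : Type} [Fintype ι] (f : ι → ℍ → ℂ) (h : ∀ i, ∃ M, 0 < M ∧ InO M (f i)) :
    ∃ M, 0 < M ∧ ∀ i, InO M (f i) := by
  choose M hM hf using h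
  exact ⟨∏ i, M i, Finset.prod_pos fun i _ => hM i,
    fun i => (hf i).mono (Finset.dvd_prod_of_mem _ (Finset.mem_univ i))⟩

variable {N a n n' : ℕ} (Φ : Fin n → ModularForm (Gamma N : Subgroup SL(2, ℤ)) (12 * a))
  (Ψ : Fin n' → ModularForm (Gamma N : Subgroup SL(2, ℤ)) (12 * a))

/-- the point of the affine model -/
def ptX (p : ℍ × ℍ) : Set.range (coord₂ Φ Ψ) := ⟨coord₂ Φ Ψ p, Set.mem_range_self _⟩

theorem inS_f (hR : S_R0) (hN : 0 < N) (f : (Set.range (coord₂ Φ Ψ) →₀ ℤ) →+ ℂ)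
    (hf : ∀ D ∈ ratTrivialAff (Set.range (coord₂ Φ Ψ)), f D = 0) :
    InS (fun τ σ => f (Finsupp.single (ptX Φ Ψ (τ, σ)) 1)) ∧
      LevS N fun τ σ => f (Finsupp.single (ptX Φ Ψ (τ, σ)) 1) := by
  have hl : LevS N fun τ σ => f (Finsupp.single (ptX Φ Ψ (τ, σ)) 1) := by
    refine ⟨fun σ γ hγ τ => ?_, fun τ γ hγ σ => ?_⟩
    · have : ptX Φ Ψ (γ • τ, σ) = ptX Φ Ψ (τ, σ) := Subtype.ext (funext fun i => by
        cases i with
        | inl i => exact (inO_coord hN Φ i).2 γ hγ τ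
        | inr i => rfl)
      simp only [this]
    · have : ptX Φ Ψ (τ, γ • σ) = ptX Φ Ψ (τ, σ) := Subtype.ext (funext fun i => by
        cases i with
        | inl i => rfl
        | inr i => exact (inO_coord hN Ψ i).2 γ hγ σ)
      simp only [this]
  have key : ∀ p : ℍ → ℍ × ℍ, (∀ i, ∃ M, 0 < M ∧ InO M fun τ => coord₂ Φ Ψ (p τ) i) →
      (∃ i, (fun τ => coord₂ Φ Ψ (p τ) i) = jj) →
      Rec fun τ => f (Finsupp.single (ptX Φ Ψ (p τ)) 1) := by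
    intro p h1 h2
    obtain ⟨M, hM, h⟩ := common_level _ h1
    exact hR _ _ M (fun i τ => coord₂ Φ Ψ (p τ) i) (fun τ => ptX Φ Ψ (p τ)) f hM h h2
      (fun _ _ => rfl) hf
  refine ⟨⟨⟨N, hN, hl⟩, fun g hg => ?_, fun σ => ?_, fun τ => ?_⟩, hl⟩
  · refine key (fun τ => (τ, actH g τ)) (fun i => ?_) ⟨Sum.inl none, rfl⟩
    cases i with
    | inl i => exact ⟨N, hN, inO_coord hN Φ i⟩
    | inr i =>
      obtain ⟨M, hM, -, h⟩ := (inO_coord hN Ψ i).comp_act hN hg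
      simp only [act_val] at h
      exact ⟨M, hM, h⟩
  · refine key (fun τ => (τ, σ)) (fun i => ?_) ⟨Sum.inl none, rfl⟩
    cases i with
    | inl i => exact ⟨N, hN, inO_coord hN Φ i⟩
    | inr i => exact ⟨N, hN, inO_const N (coord Ψ σ i)⟩
  · refine key (fun σ => (τ, σ)) (fun i => ?_) ⟨Sum.inr none, rfl⟩
    cases i with
    | inl i => exact ⟨N, hN, inO_const N (coord Φ τ i)⟩
    | inr i => exact ⟨N, hN, inO_coord hN Ψ i⟩

/-- the pair of group elements attached to a pair of integral matrices -/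
def up (y : Z2 × Z2) : GQ × GQ := (toG (castZ y.1), toG (castZ y.2))

theorem bil_castZ (Y Z : Z2) :
    bil (castZ Y) (castZ Z) = (((Y + Z).det - Y.det - Z.det : ℤ) : ℚ) := by
  simp only [bil, castZ, Matrix.det_fin_two, Matrix.map_apply, Matrix.add_apply]
  push_cast
  ring

variable {m r j : ℤ} {μ : R2 N × R2 N}

/-- the conditions in the definition of `aW` -/
def Cond (N : ℕ) (m r j : ℤ) (μ : R2 N × R2 N) (p : GQ × GQ) : Prop :=
  p.1.1.det = m ∧ bil p.1.1 p.2.1 = r ∧ p.2.1.det = j ∧ ind N μ.1 p.1.1 ≠ 0 ∧ ind N μ.2 p.2.1 ≠ 0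

theorem up_val (hj : 0 < j) (hD : r ^ 2 < 4 * m * j) {y : Z2 × Z2} (h : Special N m r j μ y) :
    (up y).1.1 = castZ y.1 ∧ (up y).2.1 = castZ y.2 := by
  have hm : 0 < m := by nlinarith [sq_nonneg r]
  refine ⟨toG_val ?_, toG_val ?_⟩
  · rw [castZ_det, h.1]; exact_mod_cast hm.ne'
  · rw [castZ_det, h.2.2.1]; exact_mod_cast hj.ne'

theorem ind_ne_zero {ν : R2 N} {Y : M2} : ind N ν Y ≠ 0 ↔ ∃ Z : Z2, castZ Z = Y ∧ red N Z = ν := by
  unfold ind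
  split_ifs with h <;> simp [h]

theorem ind_eq_one {ν : R2 N} {Y : M2} (h : ind N ν Y ≠ 0) : ind N ν Y = 1 := by
  unfold ind at *
  split_ifs at * with h' <;> simp_all

theorem cond_up (hj : 0 < j) (hD : r ^ 2 < 4 * m * j) {y : Z2 × Z2} (h : Special N m r j μ y) :
    Cond N m r j μ (up y) := by
  obtain ⟨e1, e2⟩ := up_val hj hD h
  rw [Cond, e1, e2, castZ_det, castZ_det, bil_castZ, h.2.1, h.1, h.2.2.1]
  exact ⟨rfl, rfl, rfl, ind_ne_zero.2 ⟨_, rfl, h.2.2.2.1⟩, ind_ne_zero.2 ⟨_, rfl, h.2.2.2.2⟩⟩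

theorem exists_up {p : GQ × GQ} (h : Cond N m r j μ p) :
    ∃ y, Special N m r j μ y ∧ up y = p := by
  obtain ⟨h1, h2, h3, h4, h5⟩ := h
  obtain ⟨Y, e1, e1'⟩ := ind_ne_zero.1 h4
  obtain ⟨Z, e2, e2'⟩ := ind_ne_zero.1 h5
  rw [← e1, ← e2, bil_castZ] at h2
  rw [← e1, castZ_det] at h1
  rw [← e2, castZ_det] at h3
  refine ⟨(Y, Z), ⟨by exact_mod_cast h1, by exact_mod_cast h2, by exact_mod_cast h3, e1', e2'⟩, ?_⟩
  simp only [up, e1, e2, toG_self]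

theorem orbit_iff (hj : 0 < j) (hD : r ^ 2 < 4 * m * j) {y z : Z2 × Z2}
    (hy : Special N m r j μ y) (hz : Special N m r j μ z) :
    SameOrbit N y z ↔ ∃ γ ∈ (Gam N).prod (Gam N), pairA γ (up z) = up y := by
  obtain ⟨e1, e2⟩ := up_val hj hD hy
  obtain ⟨e3, e4⟩ := up_val hj hD hz
  have key : ∀ γ1 γ2 : SL, pairA (iota γ1, iota γ2) (up z) = up y ↔
      y.1 * γ1.1 = γ2.1 * z.1 ∧ y.2 * γ1.1 = γ2.1 * z.2 := by
    intro γ1 γ2
    have e : pairA (iota γ1, iota γ2) (up z) = (iota γ2 * (up z).1 * (iota γ1)⁻¹,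
      iota γ2 * (up z).2 * (iota γ1)⁻¹) := rfl
    rw [e, Prod.ext_iff]
    simp only [mul_inv_eq_iff_eq_mul]
    rw [Units.ext_iff, Units.ext_iff]
    simp only [Units.val_mul, iota_val, e1, e2, e3, e4, ← castZ_mul, castZ_injective.eq_iff]
    exact ⟨fun h => ⟨h.1.symm, h.2.symm⟩, fun h => ⟨h.1.symm, h.2.symm⟩⟩
  constructor
  · rintro ⟨γ1, h1, γ2, h2, h⟩
    exact ⟨(iota γ1, iota γ2), ⟨⟨γ1, h1, rfl⟩, ⟨γ2, h2, rfl⟩⟩, (key _ _).2 h⟩
  · rintro ⟨⟨_, _⟩, ⟨⟨γ1, h1, rfl⟩, ⟨γ2, h2, rfl⟩⟩, h⟩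
    exact ⟨γ1, h1, γ2, h2, (key _ _).1 h⟩

theorem ell_of_cond (hj : 0 < j) (hD : r ^ 2 < 4 * m * j) {p : GQ × GQ} (h : Cond N m r j μ p) :
    Ell (p.2⁻¹ * p.1).1 := by
  obtain ⟨h1, h2, h3, -, -⟩ := h
  have hj' : (0 : ℚ) < j := by exact_mod_cast hj
  have hD' : (r : ℚ) ^ 2 < 4 * m * j := by exact_mod_cast hD
  have e : (p.2⁻¹ * p.1).1 = (j : ℚ)⁻¹ • (p.2.1.adjugate * p.1.1) := by
    rw [Units.val_mul, Matrix.coe_units_inv, Matrix.inv_def, h3, Ring.inverse_eq_inv',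
      Matrix.smul_mul]
  rw [Ell, e, Matrix.trace_smul, ← bil_eq_trace, h2, Matrix.det_smul, Matrix.det_mul,
    Matrix.det_adjugate, h1, h3]
  simp only [Fintype.card_fin, smul_eq_mul, Nat.add_one_sub_one, pow_one]
  have : (0 : ℚ) < ((j : ℚ)⁻¹) ^ 2 := by positivity
  nlinarith

theorem sends_iff {Y : Z2} (h : 0 < Y.det) (p : ℍ × ℍ) : Sends Y p ↔ act (castZ Y) p.1 = p.2 := by
  rw [act_eq_iff (by rw [castZ_det]; exact_mod_cast h)]
  simp [Sends, castZ]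

theorem point_iff (hj : 0 < j) (hD : r ^ 2 < 4 * m * j) {y : Z2 × Z2} (h : Special N m r j μ y)
    (p : ℍ × ℍ) : Sends y.1 p ∧ Sends y.2 p ↔
      p = (fix ((up y).2⁻¹ * (up y).1).1, actH (up y).2 (fix ((up y).2⁻¹ * (up y).1).1)) := by
  have hm : 0 < m := by nlinarith [sq_nonneg r]
  obtain ⟨e1, e2⟩ := up_val hj hD h
  have he := ell_of_cond hj hD (cond_up hj hD h)
  rw [sends_iff (by rw [h.1]; exact hm), sends_iff (by rw [h.2.2.1]; exact hj), ← e1, ← e2,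
    act_val, act_val, Prod.ext_iff, ← he.act_eq_iff, act_val, map_mul, map_inv]
  simp only [Equiv.Perm.coe_mul, Function.comp_apply, Equiv.Perm.inv_eq_iff_eq]
  constructor
  · rintro ⟨h1, h2⟩
    have h3 : actH (up y).1 p.1 = actH (up y).2 p.1 := h1.trans h2.symm
    refine ⟨h3, ?_⟩
    rw [← (he.act_eq_iff p.1).1 (by
      rw [act_val, map_mul, map_inv]
      simp only [Equiv.Perm.coe_mul, Function.comp_apply, Equiv.Perm.inv_eq_iff_eq]
      exact h3)]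
    exact h2.symm
  · rintro ⟨h1, h2⟩
    rw [← (he.act_eq_iff p.1).1 (by
      rw [act_val, map_mul, map_inv]
      simp only [Equiv.Perm.coe_mul, Function.comp_apply, Equiv.Perm.inv_eq_iff_eq]
      exact h1)] at h2
    exact ⟨h1.trans h2.symm, h2.symm⟩

theorem aW_eq (hj : 0 < j) (hD : r ^ 2 < 4 * m * j) (s : ℍ → ℍ → ℂ) (p : GQ × GQ) :
    (aW s m r j (fun Y Z => ind N μ.1 Y * ind N μ.2 Z) p ≠ 0 → Cond N m r j μ p) ∧
    (Cond N m r j μ p → aW s m r j (fun Y Z => ind N μ.1 Y * ind N μ.2 Z) p =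
      s (fix (p.2⁻¹ * p.1).1) (actH p.2 (fix (p.2⁻¹ * p.1).1))) := by
  have hj' : (0 : ℚ) < j := by exact_mod_cast hj
  have hD' : (r : ℚ) ^ 2 < 4 * m * j := by exact_mod_cast hD
  unfold aW
  constructor
  · intro h
    split_ifs at h with h'
    · exact ⟨h'.2.2.1, h'.2.2.2.1, h'.2.2.2.2, left_ne_zero_of_mul (left_ne_zero_of_mul h),
        right_ne_zero_of_mul (left_ne_zero_of_mul h)⟩
    · exact absurd rfl h
  · intro h
    rw [if_pos ⟨hj', hD', h.1, h.2.1, h.2.2.1⟩]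
    beta_reduce
    rw [ind_eq_one h.2.2.2.1, ind_eq_one h.2.2.2.2, one_mul, one_mul]

theorem ind_Gam {ν : R2 N} {γ δ : GQ} (hγ : γ ∈ Gam N) (hδ : δ ∈ Gam N) (Y : M2) :
    ind N ν (γ.1 * Y * δ.1) = ind N ν Y := by
  have key : ∀ {γ δ : GQ}, γ ∈ Gam N → δ ∈ Gam N → ∀ Y, ind N ν Y ≠ 0 →
      ind N ν (γ.1 * Y * δ.1) ≠ 0 := by
    rintro _ _ ⟨γ, hγ, rfl⟩ ⟨δ, hδ, rfl⟩ Y h
    obtain ⟨Z, rfl, e⟩ := ind_ne_zero.1 h
    refine ind_ne_zero.2 ⟨γ.1 * Z * δ.1, by simp only [castZ_mul, iota_val], ?_⟩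
    rw [red_mul, red_mul, (mem_Gamma_iff_red N γ).1 hγ, (mem_Gamma_iff_red N δ).1 hδ, e, one_mul,
      mul_one]
  by_cases h : ind N ν Y = 0
  · rw [h]
    by_contra h'
    have := key (inv_mem hγ) (inv_mem hδ) _ h'
    rw [← mul_assoc, ← mul_assoc, Units.inv_mul, one_mul, mul_assoc, Units.mul_inv,
      mul_one] at this
    exact this h
  · rw [ind_eq_one h, ind_eq_one (key hγ hδ Y h)]

theorem sb_ind (hN : 0 < N) : SB (unc fun Y Z => ind N μ.1 Y * ind N μ.2 Z) :=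
  ((lev_ind hN μ.1).sb hN).tensor ((lev_ind hN μ.2).sb hN)

theorem free (hN : 3 ≤ N) (hj : 0 < j) (hD : r ^ 2 < 4 * m * j) {p : GQ × GQ}
    (h : Cond N m r j μ p) {γ : GQ × GQ} (hγ : γ ∈ (Gam N).prod (Gam N)) (e : pairA γ p = p) :
    γ = 1 := by
  obtain ⟨_, g2⟩ := γ
  obtain ⟨⟨γ1, h1, rfl⟩, -⟩ := hγ
  have e1 : g2 * p.1 * (iota γ1)⁻¹ = p.1 := congrArg Prod.fst e
  have e2 : g2 * p.2 * (iota γ1)⁻¹ = p.2 := congrArg Prod.snd e
  have e3 : iota γ1 * (p.2⁻¹ * p.1) * (iota γ1)⁻¹ = p.2⁻¹ * p.1 := by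
    conv_rhs => rw [← e1, ← e2]
    group
  have e4 := (ell_of_cond hj hD h).fix_conj (iota γ1)
  rw [← Units.val_mul, ← Units.val_mul, e3, actH_iota] at e4
  have e5 := Gamma_free hN h1 e4.symm
  subst e5
  rw [map_one, inv_one, mul_one, mul_eq_right] at e1
  rw [e1, map_one]; rfl

theorem exists_system (hN : 0 < N) (hj : 0 < j) (hD : r ^ 2 < 4 * m * j) (μ : R2 N × R2 N) :
    ∃ R P, IsSystem N m r j μ R P := by
  classical
  have hl : LevS N fun _ _ => (1 : ℂ) := ⟨fun _ _ _ _ => rfl, fun _ _ _ _ => rfl⟩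
  obtain ⟨⟨R, hR, hR'⟩, -⟩ := (aW_good ⟨N, hN, hl⟩ (sb_ind (μ := μ) hN) m r j).exists_reps
    (fi_Gam2 hN hN) (aW_inv hl (fun γ hγ δ hδ Y Z => by rw [ind_Gam hγ hδ, ind_Gam hγ hδ]) _ _ _)
  choose! y hy hy' using fun p (hp : p ∈ R) => exists_up ((aW_eq hj hD _ p).1 (hR p hp))
  refine ⟨R.image y, fun z => (fix ((up z).2⁻¹ * (up z).1).1,
    actH (up z).2 (fix ((up z).2⁻¹ * (up z).1).1)), fun z hz => ?_, fun z hz => ?_⟩
  · obtain ⟨p, hp, rfl⟩ := Finset.mem_image.1 hz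
    exact ⟨hy p hp, (point_iff hj hD (hy p hp) _).2 rfl⟩
  · obtain ⟨p, ⟨hp, h1⟩, h2⟩ := hR' (up z) (by
      rw [(aW_eq hj hD _ _).2 (cond_up hj hD hz)]; exact one_ne_zero)
    refine ⟨y p, ⟨Finset.mem_image_of_mem _ hp, (orbit_iff hj hD hz (hy p hp)).2 ?_⟩, ?_⟩
    · rw [hy' p hp]; exact h1
    · rintro _ ⟨h3, h4⟩
      obtain ⟨q, hq, rfl⟩ := Finset.mem_image.1 h3
      have h5 := (orbit_iff hj hD hz (hy q hq)).1 h4
      rw [hy' q hq] at h5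
      rw [h2 q ⟨hq, h5⟩]

theorem sum_eq_zero (hM : S_Main) (hN : 3 ≤ N) (hj : 0 < j) (hD : r ^ 2 < 4 * m * j)
    {R : Finset (Z2 × Z2)} {P : Z2 × Z2 → ℍ × ℍ} (h : IsSystem N m r j μ R P) {s : ℍ → ℍ → ℂ}
    (hs : InS s) (hl : LevS N s) : ∑ y ∈ R, s (P y).1 (P y).2 = 0 := by
  classical
  have hN0 : 0 < N := by omega
  have h0 := hM s hs _ (sb_ind (μ := μ) hN0) m r j
  have hinj : Set.InjOn up R := fun y hy z hz e => by
    obtain ⟨e1, e2⟩ := up_val hj hD (h.1 y hy).1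
    obtain ⟨e3, e4⟩ := up_val hj hD (h.1 z hz).1
    rw [e] at e1 e2
    exact Prod.ext (castZ_injective (e1.symm.trans e3)) (castZ_injective (e2.symm.trans e4))
  have h1 := (dmean_reps (fi_Gam2 hN0 hN0)
    (aW_inv hl (fun γ hγ δ hδ Y Z => by rw [ind_Gam hγ hδ, ind_Gam hγ hδ]) m r j) (R.image up)
    (fun p hp => ?_) (fun p hp γ hγ e => free hN hj hD ((aW_eq (μ := μ) hj hD s p).1 hp) hγ e)).2
  · rw [aS, h1, div_eq_zero_iff, Finset.sum_image hinj] at h0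
    rcases h0 with h0 | h0
    · rw [← h0]
      refine Finset.sum_congr rfl fun y hy => ?_
      rw [(aW_eq hj hD s _).2 (cond_up hj hD (h.1 y hy).1),
        (point_iff hj hD (h.1 y hy).1 _).1 (h.1 y hy).2]
    · exact absurd (by exact_mod_cast h0) (fi_Gam2 hN0 hN0).2
  · obtain ⟨y, hy, rfl⟩ := exists_up ((aW_eq hj hD s p).1 hp)
    obtain ⟨z, ⟨hz, h2⟩, h3⟩ := h.2 y hy
    refine ⟨up z, ⟨Finset.mem_image_of_mem _ hz, (orbit_iff hj hD hy (h.1 z hz).1).1 h2⟩, ?_⟩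
    rintro _ ⟨h4, h5⟩
    obtain ⟨z', hz', rfl⟩ := Finset.mem_image.1 h4
    rw [h3 z' ⟨hz', (orbit_iff hj hD hy (h.1 z' hz').1).2 h5⟩]

end FinalP

open FinalP in
theorem final (hM : S_Main) (hR : S_R0) {N a n n' : ℕ} (hN : 3 ≤ N)
    (Φ : Fin n → ModularForm (Gamma N : Subgroup SL(2, ℤ)) (12 * a))
    (Ψ : Fin n' → ModularForm (Gamma N : Subgroup SL(2, ℤ)) (12 * a))
    (m r j : ℤ) (hj : 0 < j) (hD : r ^ 2 < 4 * m * j) (μ : R2 N × R2 N) :
    (∃ R P, IsSystem N m r j μ R P) ∧ ∀ R P, IsSystem N m r j μ R P → ∃ k : ℕ, 0 < k ∧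
      k • ∑ y ∈ R, Finsupp.single
        (⟨coord₂ Φ Ψ (P y), Set.mem_range_self _⟩ : Set.range (coord₂ Φ Ψ)) (1 : ℤ) ∈
        ratTrivialAff (Set.range (coord₂ Φ Ψ)) := by
  refine ⟨exists_system (by omega) hj hD μ, fun R P h => ?_⟩
  by_contra hne
  obtain ⟨f, hf, hz⟩ := exists_functional _ _ hne
  obtain ⟨hs, hl⟩ := inS_f Φ Ψ hR (by omega) f hf
  apply hz
  rw [map_sum]
  exact sum_eq_zero hM hN hj hD h hs hl

end

end Pool.Agent.P.MP_b8021b_nt.CM
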