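import Pool.Agent.P.MP_b8021b_nt.CM.Lib

/-! Package P9: restriction of Borcherds products to the diagonal. -/

namespace Pool.Agent.P.MP_b8021b_nt.CM

open Complex hiding Gamma
open UpperHalfPlane hiding I
open MeasureTheory CongruenceSubgroup Filter
open scoped Real MatrixGroups ModularForm Topology ComplexConjugate Modular

noncomputable section

namespace G1SP

theorem iter_hol {f : ℍ → ℂ} (h : Hol f) (n : ℕ) : Hol (der^[n] f) := by
  induction n with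
  | zero => exact h
  | succ n ih => rw [Function.iterate_succ']; exact ih.deriv

theorem iter_inG {f : ℍ → ℂ} (h : InG f) (n : ℕ) : InG (der^[n] f) := by
  induction n with
  | zero => exact h
  | succ n ih => rw [Function.iterate_succ']; exact ih.deriv

theorem iter_eq (f : ℍ → ℂ) (n : ℕ) (τ : ℍ) :
    der^[n] f τ = iteratedDeriv n (f ∘ ofComplex) τ := by
  induction n generalizing τ with
  | zero => simp
  | succ n ih =>
    rw [Function.iterate_succ', iteratedDeriv_succ, Function.comp_apply, der]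
    refine Filter.EventuallyEq.deriv_eq ?_
    filter_upwards [isOpen_upperHalfPlaneSet.mem_nhds τ.im_pos] with z hz
    rw [Function.comp_apply, ofComplex_apply_of_im_pos hz, ih]

theorem iter_sum {ι : Type} (s : Finset ι) (a : ι → ℂ) (g : ι → ℍ → ℂ) (hg : ∀ i, Hol (g i))
    (n : ℕ) (τ : ℍ) :
    der^[n] (fun σ => ∑ i ∈ s, a i * g i σ) τ = ∑ i ∈ s, a i * der^[n] (g i) τ := by
  simp only [iter_eq]
  have : ((fun σ => ∑ i ∈ s, a i * g i σ) ∘ ofComplex) =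
      fun z => ∑ i ∈ s, a i * (g i ∘ ofComplex) z := rfl
  rw [this, iteratedDeriv_fun_sum fun i _ =>
    contDiffAt_const.mul ((hg i).analyticAt τ).contDiffAt]
  exact Finset.sum_congr rfl fun i _ => iteratedDeriv_const_mul_field _ _

theorem lim {f : ℍ → ℂ} (h : Hol f) (τ : ℍ) (m : ℕ) (h0 : ∀ i < m, der^[i] f τ = 0) :
    Tendsto (fun σ : ℍ => f σ / ((σ : ℂ) - τ) ^ m) (𝓝[≠] τ) (𝓝 (der^[m] f τ / m.factorial)) := by
  have ha : AnalyticAt ℂ (fun z => (f ∘ ofComplex) (z + τ)) 0 :=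
    AnalyticAt.comp_of_eq (g := f ∘ ofComplex) (f := fun z => z + (τ : ℂ)) (h.analyticAt τ)
      (by fun_prop) (by simp)
  obtain ⟨F, hF, e⟩ := ha.exists_eq_sum_add_pow_mul (m + 1)
  have e1 : ∀ i, iteratedDeriv i (fun z => (f ∘ ofComplex) (z + τ)) 0 = der^[i] f τ := fun i => by
    rw [iteratedDeriv_comp_add_const, iter_eq]; simp
  simp only [e1] at e
  have e2 : ∀ σ : ℍ, σ ≠ τ → f σ / ((σ : ℂ) - τ) ^ m =
      der^[m] f τ / m.factorial + ((σ : ℂ) - τ) * F (σ - τ) := fun σ hσ => by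
    have h1 : (σ : ℂ) - τ ≠ 0 := sub_ne_zero.2 fun h => hσ (UpperHalfPlane.ext h)
    have h2 := e (σ - τ)
    rw [Finset.sum_range_succ, Finset.sum_eq_zero fun i hi => by
      rw [h0 i (Finset.mem_range.1 hi), smul_zero]] at h2
    simp only [sub_add_cancel, Function.comp_apply, ofComplex_apply, smul_eq_mul] at h2
    rw [h2]
    field_simp
    ring
  have hc : ContinuousAt (fun σ : ℍ => der^[m] f τ / m.factorial + ((σ : ℂ) - τ) * F (σ - τ)) τ := by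
    have h1 : ContinuousAt (fun σ : ℍ => (σ : ℂ) - τ) τ := by fun_prop
    exact continuousAt_const.add (h1.mul (ContinuousAt.comp_of_eq hF.continuousAt h1 (by simp)))
  have := hc.tendsto.mono_left (nhdsWithin_le_nhds (s := {τ}ᶜ))
  simp only [sub_self, zero_mul, add_zero] at this
  exact this.congr' (eventually_nhdsWithin_of_forall fun σ hσ => (e2 σ hσ).symm)

theorem sub_SL (γ : SL) (τ σ : ℍ) :
    ((γ • σ : ℍ) : ℂ) - (γ • τ : ℍ) = ((σ : ℂ) - τ) / (jf γ σ * jf γ τ) := by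
  have h1 := jf_ne_zero γ τ
  have h2 := jf_ne_zero γ σ
  have h := γ.det_coe
  rw [Matrix.det_fin_two] at h
  have h' : ((γ 0 0 : ℤ) : ℂ) * (γ 1 1 : ℤ) - (γ 0 1 : ℤ) * (γ 1 0 : ℤ) = 1 := by exact_mod_cast h
  rw [coe_SL, coe_SL]
  field_simp
  simp only [jf]
  linear_combination ((σ : ℂ) - τ) * h'

theorem continuous_act (Y : M2) : Continuous (act Y) := continuous_actH _

theorem continuous_SL (γ : SL) : Continuous fun τ : ℍ => γ • τ :=
  (continuous_act (castZ γ.1)).congr (act_SL γ)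

/-- from a neighbourhood of a diagonal point to iterated neighbourhoods -/
theorem ev_diag {P : ℍ × ℍ → Prop} {τ0 : ℍ} (h : ∀ᶠ p in 𝓝 (τ0, τ0), P p) :
    ∀ᶠ τ in 𝓝 τ0, ∀ᶠ σ in 𝓝 τ, P (τ, σ) := by
  have h1 : Tendsto (fun τ : ℍ => (τ, τ)) (𝓝 τ0) (𝓝 (τ0, τ0)) :=
    (continuous_id.prodMk continuous_id).tendsto τ0
  filter_upwards [h1.eventually h.eventually_nhds] with τ hτ
  exact ((Continuous.prodMk_right τ).tendsto τ).eventually hτ

theorem prod_bounds (τ0 : ℍ) (T : Finset Z2) (C : Z2 → ℕ)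
    (hT : ∀ Y ∈ T, Ell (castZ Y) ∧ fix (castZ Y) = τ0) : ∃ c K : ℝ, 0 < c ∧ ∀ᶠ τ : ℍ in 𝓝 τ0,
      c * ‖(τ : ℂ) - τ0‖ ^ (∑ Y ∈ T, C Y) ≤ ∏ Y ∈ T, ‖(τ : ℂ) - act (castZ Y) τ‖ ^ C Y ∧
      ∏ Y ∈ T, ‖(τ : ℂ) - act (castZ Y) τ‖ ^ C Y ≤ K * ‖(τ : ℂ) - τ0‖ ^ (∑ Y ∈ T, C Y) := by
  choose! c K hc h using fun Y (hY : Y ∈ T) => (hT Y hY).1.simple
  refine ⟨∏ Y ∈ T, c Y ^ C Y, ∏ Y ∈ T, K Y ^ C Y, Finset.prod_pos fun Y hY => pow_pos (hc Y hY) _,
    ?_⟩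
  have h1 : ∀ᶠ τ : ℍ in 𝓝 τ0, ∀ Y ∈ T, c Y * ‖(τ : ℂ) - τ0‖ ≤ ‖(τ : ℂ) - act (castZ Y) τ‖ ∧
      ‖(τ : ℂ) - act (castZ Y) τ‖ ≤ K Y * ‖(τ : ℂ) - τ0‖ :=
    (Filter.eventually_all_finset T).2 fun Y hY => by
      have := h Y hY
      rwa [(hT Y hY).2] at this
  filter_upwards [h1] with τ hτ
  rw [← Finset.prod_pow_eq_pow_sum, ← Finset.prod_mul_distrib, ← Finset.prod_mul_distrib]
  constructor
  · refine Finset.prod_le_prod (fun Y hY => by have := hc Y hY; positivity) fun Y hY => ?_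
    rw [← mul_pow]
    exact pow_le_pow_left₀ (by have := hc Y hY; positivity) (hτ Y hY).1 _
  · refine Finset.prod_le_prod (fun Y hY => by positivity) fun Y hY => ?_
    rw [← mul_pow]
    exact pow_le_pow_left₀ (norm_nonneg _) (hτ Y hY).2 _

/-- the leading term of `E` along the diagonal -/
theorem diag {N : ℕ} {E : ℍ → ℍ → ℂ} (hE : Tens N E) (hE0 : ∀ τ, E τ ≠ 0) (m : ℕ) (C : Z2 → ℕ)
    (T : ℍ → Finset Z2) (hT : ∀ τ0, ∀ Y ∈ T τ0, Ell (castZ Y) ∧ fix (castZ Y) = τ0)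
    (hb : ∀ τ0 : ℍ, ∃ c K : ℝ, 0 < c ∧ ∀ᶠ p : ℍ × ℍ in 𝓝 (τ0, τ0),
      c * (‖(p.2 : ℂ) - p.1‖ ^ (2 * m) * ∏ Y ∈ T τ0, ‖(p.2 : ℂ) - act (castZ Y) p.1‖ ^ C Y) ≤
        ‖E p.1 p.2‖ ^ 2 ∧ ‖E p.1 p.2‖ ^ 2 ≤
      K * (‖(p.2 : ℂ) - p.1‖ ^ (2 * m) * ∏ Y ∈ T τ0, ‖(p.2 : ℂ) - act (castZ Y) p.1‖ ^ C Y)) :
    ∃ H, InO N H ∧ H ≠ 0 ∧ ∀ τ, ordAt H τ = 3 * ∑ Y ∈ T τ, C Y := by
  obtain ⟨r, f, g, hfg, hE⟩ := hE
  have hE' : ∀ τ, E τ = fun σ => ∑ i, f i τ * g i σ := fun τ => funext (hE τ)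
  have hol : ∀ τ, Hol (E τ) := fun τ => by
    have := Hol.sum Finset.univ (fun i => f i τ • g i) fun i _ => (hfg i).2.1.1.smul _
    rw [hE']
    convert this using 1
    ext σ
    simp
  have hcont : ∀ τ0 τ : ℍ, ContinuousAt
      (fun σ : ℍ => ∏ Y ∈ T τ0, ‖(σ : ℂ) - act (castZ Y) τ‖ ^ C Y) τ := fun τ0 τ => by fun_prop
  have hvan : ∀ τ, ∀ i < m, der^[i] (E τ) τ = 0 := fun τ => by
    obtain ⟨c, K, -, h⟩ := hb τ
    refine ((hol τ).le_ord_iff (hE0 τ) τ m).1 (Nat.le_of_mul_le_mul_left (c := 2) ?_ two_pos)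
    refine (hol τ).le_ord (hE0 τ) (C := |K| *
      ((∏ Y ∈ T τ, ‖(τ : ℂ) - act (castZ Y) τ‖ ^ C Y) + 1)) ?_
    filter_upwards [(ev_diag h).self_of_nhds, (hcont τ τ).eventually_lt continuousAt_const
      (lt_add_one _)] with σ h1 h2
    refine h1.2.trans ((mul_le_mul_of_nonneg_right (le_abs_self K) (by positivity)).trans ?_)
    rw [mul_assoc]
    refine mul_le_mul_of_nonneg_left ?_ (abs_nonneg K)
    rw [mul_comm]
    exact mul_le_mul_of_nonneg_right h2.le (by positivity)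
  set h : ℍ → ℂ := fun τ => der^[m] (E τ) τ / m.factorial with hh
  have hlim : ∀ τ, Tendsto (fun σ : ℍ => E τ σ / ((σ : ℂ) - τ) ^ m) (𝓝[≠] τ) (𝓝 (h τ)) :=
    fun τ => lim (hol τ) τ m (hvan τ)
  have hG : InG h := by
    have := (InG.sum Finset.univ (fun i => f i * der^[m] (g i)) fun i _ =>
      (hfg i).1.1.mul (iter_inG (hfg i).2.1 m)).smul ((m.factorial : ℂ)⁻¹)
    convert this using 1
    ext τ
    simp only [hh, hE' τ, iter_sum _ _ _ fun i => (hfg i).2.1.1]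
    simp [div_eq_inv_mul]
  have hw : ∀ γ ∈ Gamma N, ∀ τ, h (γ • τ) = jf γ τ ^ (2 * m) * h τ := fun γ hγ τ => by
    have h1 : Tendsto (fun σ : ℍ => γ • σ) (𝓝[≠] τ) (𝓝[≠] (γ • τ)) :=
      tendsto_nhdsWithin_iff.2 ⟨((continuous_SL γ).tendsto τ).mono_left nhdsWithin_le_nhds,
        eventually_nhdsWithin_of_forall fun σ hσ e => hσ (MulAction.injective γ e)⟩
    have h2 := (hlim (γ • τ)).comp h1
    have h3 : ContinuousAt (fun σ : ℍ => (jf γ σ * jf γ τ) ^ m) τ := by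
      unfold jf
      fun_prop
    have h4 := (h3.tendsto.mono_left nhdsWithin_le_nhds).mul (hlim τ)
    rw [pow_mul, sq]
    refine tendsto_nhds_unique h2 (h4.congr fun σ => ?_)
    have h5 : E (γ • τ) (γ • σ) = E τ σ := by
      rw [hE, hE]
      exact Finset.sum_congr rfl fun i _ => by rw [(hfg i).1.2 γ hγ, (hfg i).2.2 γ hγ]
    simp only [Function.comp_apply, h5, sub_SL, div_pow, div_div_eq_mul_div]
    ring
  have hord : ∀ τ0, h ≠ 0 ∧ 2 * ordAt h τ0 = ∑ Y ∈ T τ0, C Y := fun τ0 => by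
    obtain ⟨c, K, hc, h1⟩ := hb τ0
    obtain ⟨c', K', hc', h2⟩ := prod_bounds τ0 (T τ0) C (hT τ0)
    refine hG.1.ord_eq two_pos (c := c * c') (C := |K| * K') (mul_pos hc hc') ?_
    filter_upwards [ev_diag h1, h2] with τ h3 h4
    have h5 := (hcont τ0 τ).tendsto.mono_left (nhdsWithin_le_nhds (s := {τ}ᶜ))
    have h6 := (hlim τ).norm.pow 2
    have h7 : ∀ᶠ σ : ℍ in 𝓝[≠] τ, c * ∏ Y ∈ T τ0, ‖(σ : ℂ) - act (castZ Y) τ‖ ^ C Y ≤
        ‖E τ σ / ((σ : ℂ) - τ) ^ m‖ ^ 2 ∧ ‖E τ σ / ((σ : ℂ) - τ) ^ m‖ ^ 2 ≤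
        K * ∏ Y ∈ T τ0, ‖(σ : ℂ) - act (castZ Y) τ‖ ^ C Y := by
      filter_upwards [h3.filter_mono nhdsWithin_le_nhds, self_mem_nhdsWithin] with σ h8 hσ
      have h9 : 0 < ‖(σ : ℂ) - τ‖ ^ (2 * m) :=
        pow_pos (norm_pos_iff.2 (sub_ne_zero.2 fun h => hσ (UpperHalfPlane.ext h))) _
      rw [norm_div, div_pow, norm_pow, ← pow_mul, mul_comm m, le_div_iff₀ h9, div_le_iff₀ h9]
      exact ⟨by linarith [h8.1], by linarith [h8.2]⟩
    constructor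
    · refine le_trans ?_ (le_of_tendsto_of_tendsto (h5.const_mul c) h6 (h7.mono fun _ h => h.1))
      rw [mul_assoc]
      exact mul_le_mul_of_nonneg_left h4.1 hc.le
    · refine (le_of_tendsto_of_tendsto h6 (h5.const_mul K) (h7.mono fun _ h => h.2)).trans ?_
      rw [mul_assoc]
      exact (mul_le_mul_of_nonneg_right (le_abs_self K) (by positivity)).trans
        (mul_le_mul_of_nonneg_left h4.2 (abs_nonneg K))
  have h0 : h ≠ 0 := (hord UpperHalfPlane.I).1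
  let D : ℍ → ℂ := (fun τ => (ModularForm.discriminant τ)⁻¹) ^ m
  have hD : InG D := inG_Delta_inv.pow m
  have hD0 : ∀ τ, D τ ≠ 0 := fun τ => pow_ne_zero _ (inv_ne_zero (ModularForm.discriminant_ne_zero τ))
  have hD1 : D ≠ 0 := fun e => hD0 UpperHalfPlane.I (congrFun e _)
  have h6 : h ^ 6 ≠ 0 := fun e => h0 (funext fun τ => pow_eq_zero_iff (by norm_num) |>.1 (congrFun e τ))
  refine ⟨h ^ 6 * D, ⟨(hG.pow 6).mul hD, fun γ hγ τ => ?_⟩, fun e => ?_, fun τ => ?_⟩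
  · have h1 := congrFun (inG_Delta.2 γ) τ
    have h2 := jf_ne_zero γ τ
    have h3 := ModularForm.discriminant_ne_zero τ
    have h4 : ModularForm.discriminant (γ • τ) = jf γ τ ^ 12 * ModularForm.discriminant τ := by
      rw [← h1, sl, zpow_neg, zpow_ofNat]
      field_simp
    simp only [D, Pi.mul_apply, Pi.pow_apply, hw γ hγ, h4, mul_pow, inv_pow, ← pow_mul]
    field_simp
    ring
  · exact ((hG.1.pow 6).mul_eq_zero hD.1 e).elim h6 hD1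
  · rw [(hG.1.pow 6).ord_mul hD.1 h6 hD1, hG.1.ord_pow h0, (hD.1.ord_eq_zero_iff hD1 τ).2 (hD0 τ),
      ← (hord τ).2]
    ring

theorem act_scalar {Y : M2} (h : 0 < Y.det) {a : ℚ} (e : Y = a • (1 : M2)) (τ : ℍ) :
    act Y τ = τ := by
  have ha : a ≠ 0 := by
    rintro rfl
    simp [e] at h
  rw [e, act_smul ha, act_one]

open Classical in
/-- a modular function whose divisor is the sum of the fixed points -/
theorem exists_fun (hB : S_Borch) (N : ℕ) [NeZero N] (F : R2 N → ℍ → ℂ) (C : Z2 → ℕ) (n0 : ℕ)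
    (hF : Inp N F) (hP : PPN N F C n0) : ∃ (H : ℍ → ℂ) (T : ℍ → Finset Z2), InO N H ∧ H ≠ 0 ∧
      (∀ τ Y, Y ∈ T τ ↔ Y.det ≤ n0 ∧ Ell (castZ Y) ∧ fix (castZ Y) = τ) ∧
      ∀ τ, ordAt H τ = 3 * ∑ Y ∈ T τ, C Y := by
  obtain ⟨E, hE, hE0, h3⟩ := hB N F C n0 hF hP
  choose S c K hc hS hb using fun τ0 => h3 τ0 τ0
  obtain ⟨τg, hg⟩ := dense_gen.nonempty
  have hdet : ∀ {Y : Z2}, 0 < Y.det ↔ 0 < (castZ Y).det := fun {Y} => by
    rw [castZ_det]; exact_mod_cast Iff.rfl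
  have hsc : ∀ Y ∈ S τg, ∃ a : ℚ, castZ Y = a • (1 : M2) := fun Y hY => by
    obtain ⟨h1, -, h2⟩ := (hS τg Y).1 hY
    obtain ⟨a, rfl⟩ := hg Y h1 h2
    refine ⟨a, ?_⟩
    rw [castZ_smul]
    congr 1
    exact Matrix.map_one _ (by simp) (by simp)
  have htr : ∀ Y ∈ S τg, ∀ τ, act (castZ Y) τ = τ := fun Y hY τ => by
    obtain ⟨a, ha⟩ := hsc Y hY
    exact act_scalar (hdet.1 ((hS τg Y).1 hY).1) ha τ
  have hfil : ∀ τ0, (S τ0).filter (fun Y => ¬ Ell (castZ Y)) = S τg := fun τ0 => by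
    ext Y
    rw [Finset.mem_filter]
    constructor
    · rintro ⟨h1, h2⟩
      obtain ⟨h4, h5, h6⟩ := (hS τ0 Y).1 h1
      obtain ⟨a, ha⟩ := (ell_of_fixed (hdet.1 h4) h6).resolve_left h2
      exact (hS τg Y).2 ⟨h4, h5, act_scalar (hdet.1 h4) ha _⟩
    · intro hY
      obtain ⟨h4, h5, -⟩ := (hS τg Y).1 hY
      obtain ⟨a, ha⟩ := hsc Y hY
      exact ⟨(hS τ0 Y).2 ⟨h4, h5, htr Y hY _⟩, fun h => h.c_ne (by simp [ha])⟩
  have hprod : ∀ σ τ : ℍ, ∏ Y ∈ S τg, ‖(σ : ℂ) - act (castZ Y) τ‖ ^ C Y =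
      ‖(σ : ℂ) - τ‖ ^ ∑ Y ∈ S τg, C Y := fun σ τ => by
    rw [← Finset.prod_pow_eq_pow_sum]
    exact Finset.prod_congr rfl fun Y hY => by rw [htr Y hY]
  have hol : Hol (E τg) := by
    obtain ⟨r, f, g, hfg, hE⟩ := hE
    have := Hol.sum Finset.univ (fun i => f i τg • g i) fun i _ => (hfg i).2.1.1.smul _
    convert this using 1
    ext σ
    simp [hE]
  have hk : 2 * ordAt (E τg) τg = ∑ Y ∈ S τg, C Y :=
    (hol.ord_eq two_pos (hc τg) (C := K τg) (by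
      simpa only [hprod] using (ev_diag (hb τg)).self_of_nhds)).2
  have hT : ∀ τ Y, Y ∈ (S τ).filter (fun Y => Ell (castZ Y)) ↔
      Y.det ≤ n0 ∧ Ell (castZ Y) ∧ fix (castZ Y) = τ := fun τ Y => by
    rw [Finset.mem_filter, hS]
    exact ⟨fun ⟨⟨_, h2, h3⟩, h4⟩ => ⟨h2, h4, ((h4.act_eq_iff τ).1 h3).symm⟩,
      fun ⟨h1, h2, h3⟩ => ⟨⟨hdet.2 h2.det_pos, h1, (h2.act_eq_iff τ).2 h3.symm⟩, h2⟩⟩
  obtain ⟨H, h1, h2, h4⟩ := diag hE hE0 (ordAt (E τg) τg) C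
    (fun τ => (S τ).filter fun Y => Ell (castZ Y)) (fun τ Y hY => ((hT τ Y).1 hY).2) fun τ0 => by
      refine ⟨c τ0, K τ0, hc τ0, (hb τ0).mono fun p hp => ?_⟩
      rwa [← Finset.prod_filter_not_mul_prod_filter (S τ0) (fun Y => Ell (castZ Y)), hfil, hprod,
        ← hk] at hp
  exact ⟨H, _, h1, h2, hT, h4⟩

theorem vanish (hB : S_Borch) {u : ℍ → ℂ} (hu : Rec u) (M : ℕ) [NeZero (M ^ 2)]
    (F : R2 (M ^ 2) → ℍ → ℂ) (C : Z2 → ℕ) (n0 : ℕ) (hM : 0 < M) (hF : Inp (M ^ 2) F)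
    (hP : PPN (M ^ 2) F C n0) : ∑ n ∈ Finset.Icc 1 n0,
      G1 u (liftZ M fun Z => coef (M ^ 2) (F (red (M ^ 2) Z)) (-n)) ((n : ℚ) / M ^ 2) = 0 := by
  classical
  obtain ⟨H, T, hH, hH0, hT, hord⟩ := exists_fun hB (M ^ 2) F C n0 hF hP
  have hM0 : (M : ℚ) ≠ 0 := by exact_mod_cast hM.ne'
  let φ : ℕ → M2 → ℂ := fun n => liftZ M fun Z => coef (M ^ 2) (F (red (M ^ 2) Z)) (-n)
  have hgood : ∀ n ∈ Finset.Icc 1 n0, DGood conjA G0 (g1W u (φ n) ((n : ℚ) / M ^ 2)) := fun n _ =>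
    g1W_good hu.hasLev ⟨M, hM, lev_liftZ hM fun μ => coef (M ^ 2) (F μ) (-n)⟩ _
  set w : GQ → ℂ := ∑ n ∈ Finset.Icc 1 n0, g1W u (φ n) ((n : ℚ) / M ^ 2) with hw
  let ι : Z2 → GQ := fun Z => toG ((M : ℚ)⁻¹ • castZ Z)
  have hdet : ∀ Z : Z2, ((M : ℚ)⁻¹ • castZ Z).det = Z.det / M ^ 2 := fun Z => by
    rw [Matrix.det_smul, castZ_det, Fintype.card_fin, inv_pow, div_eq_inv_mul]
  have hval : ∀ τ, ∀ Z ∈ T τ, (ι Z).1 = (M : ℚ)⁻¹ • castZ Z := fun τ Z hZ => by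
    have := ((hT τ Z).1 hZ).2.1.det_pos
    rw [castZ_det] at this
    refine toG_val ?_
    rw [hdet]
    positivity
  have h1 : ∀ τ, ∀ Z ∈ T τ, fix (ι Z).1 = τ ∧ w (ι Z) = C Z * u τ := fun τ Z hZ => by
    obtain ⟨a1, a2, a3⟩ := (hT τ Z).1 hZ
    have a4 : 0 < Z.det := by
      have := a2.det_pos
      rw [castZ_det] at this
      exact_mod_cast this
    have a5 : fix (ι Z).1 = τ := by
      rw [hval τ Z hZ, ← a3]
      simpa using a2.fix_affine (inv_ne_zero hM0) 0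
    have a6 : Ell (ι Z).1 := by
      rw [hval τ Z hZ]
      simpa using (ell_affine (inv_ne_zero hM0) 0 _).2 a2
    obtain ⟨n, hn⟩ := Int.eq_ofNat_of_zero_le a4.le
    refine ⟨a5, ?_⟩
    rw [hw, Finset.sum_apply, Finset.sum_eq_single_of_mem n (Finset.mem_Icc.2 ⟨by omega, by omega⟩)]
    · rw [g1W, if_pos ⟨a6, by rw [hval τ Z hZ, hdet, hn]; simp⟩, a5, hval τ Z hZ]
      simp only [φ]
      rw [liftZ_castZ hM, ← hP.1 Z a4, PP, hn]
    · intro k _ hk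
      refine if_neg fun h => hk ?_
      have := h.2
      rw [hval τ Z hZ, hdet, hn, div_left_inj' (pow_ne_zero _ hM0)] at this
      exact_mod_cast this.symm
  have h2 : ∀ Y, w Y ≠ 0 → Ell Y.1 ∧ ∃ Z ∈ T (fix Y.1), ι Z = Y := fun Y hY => by
    rw [hw, Finset.sum_apply] at hY
    obtain ⟨n, hn, h⟩ := Finset.exists_ne_zero_of_sum_ne_zero hY
    have a1 : Ell Y.1 ∧ Y.1.det = (n : ℚ) / M ^ 2 := by_contra fun h' => h (if_neg h')
    rw [g1W, if_pos a1] at h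
    obtain ⟨Z, hZ⟩ : ∃ Z : Z2, castZ Z = (M : ℚ) • Y.1 :=
      by_contra fun h' => left_ne_zero_of_mul h (dif_neg h')
    have a2 : (Z.det : ℚ) = n := by
      rw [← castZ_det, hZ, Matrix.det_smul, a1.2, Fintype.card_fin]
      field_simp
    refine ⟨a1.1, Z, (hT _ Z).2 ⟨?_, ?_, ?_⟩, ?_⟩
    · have : Z.det = n := by exact_mod_cast a2
      have := (Finset.mem_Icc.1 hn).2
      omega
    · rw [hZ]
      simpa using (ell_affine hM0 0 _).2 a1.1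
    · rw [hZ]
      simpa using a1.1.fix_affine hM0 0
    · simp only [ι, hZ, smul_smul, inv_mul_cancel₀ hM0, one_smul, toG_self]
  have hconj : ∀ γ Y : GQ, (conjA γ Y).1 = γ.1 * Y.1 * (γ⁻¹).1 := fun γ Y => rfl
  have key := (dmean_push (ρ' := actH) (DGood.sum _ _ hgood) {Y : GQ | Ell Y.1} (fun Y => fix Y.1)
    (fun γ _ Y hY => (ell_conj γ Y.1).2 hY) (fun Y hY => (h2 Y hY).1)
    (fun γ _ Y hY => Ell.fix_conj hY γ) (fun τ => (((T τ).image ι).finite_toSet).subset (by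
      rintro Y ⟨rfl, hY⟩
      simpa using (h2 Y hY).2)) fun Y _ => finite_stab_G0 _).2
  have e : (fun τ => ∑ᶠ Y ∈ {Y : GQ | fix Y.1 = τ}, w Y) =
      (1 / 3 : ℂ) • fun τ => (ordAt H τ : ℂ) * u τ := by
    ext τ
    rw [finsum_mem_eq_sum_of_inter_support_eq w (t := (T τ).image ι), Finset.sum_image,
      Finset.sum_congr rfl fun Z hZ => (h1 τ Z hZ).2, ← Finset.sum_mul, Pi.smul_apply, hord]
    · push_cast
      rw [smul_eq_mul]
      ring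
    · intro Z hZ Z' hZ' e
      have := congrArg Units.val e
      rw [hval τ Z hZ, hval τ Z' hZ'] at this
      exact castZ_injective (smul_right_injective _ (inv_ne_zero hM0) this)
    · ext Y
      simp only [Set.mem_inter_iff, Set.mem_ofPred_eq, Function.mem_support, Finset.coe_image,
        Set.mem_image, Finset.mem_coe]
      refine and_congr_left fun hY => ⟨?_, ?_⟩
      · rintro rfl
        exact (h2 Y hY).2
      · rintro ⟨Z, hZ, rfl⟩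
        exact (h1 τ Z hZ).1
  rw [e, dmean_smul, hu.2 _ (pow_pos hM 2) H hH hH0, mul_zero, dmean_sum _ _ hgood] at key
  exact key.symm

end G1SP

theorem g1S (hB : S_Borch) (hD : S_DualQ) : S_G1 := fun u hu =>
  hD (G1 u) (fun _ _ n h h' => G1_add hu.hasLev h h' n) G1_smul (fun _ _ _ e => G1_congr e)
    (fun φ _ hn => G1_nonpos φ hn) G1_neg fun M _ F C n0 hM hF hP =>
      G1SP.vanish hB hu M F C n0 hM hF hP

end

end Pool.Agent.P.MP_b8021b_nt.CM
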