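import Pool.Agent.P.MP_b8021b_nt.CM.Lib
import Pool.Agent.P.MP_b8021b_nt.CM.StmtsW

/-! Package P26, first part: the theta sum `GZ`. -/

namespace Pool.Agent.P.MP_b8021b_nt.CM

open Complex hiding Gamma
open UpperHalfPlane hiding I
open MeasureTheory CongruenceSubgroup Filter
open scoped Real MatrixGroups ModularForm Topology ComplexConjugate Modular

noncomputable section

namespace GZSP

/-- the majorant form -/
def QQ (d : ℕ) (X : Q2 × Q2) (z : ℍ) : ℝ :=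
  (((X.1.1 : ℝ) + z.re * X.2.1) ^ 2 + d * ((X.1.2 : ℝ) + z.re * X.2.2) ^ 2) / z.im +
    z.im * ((X.2.1 : ℝ) ^ 2 + d * (X.2.2 : ℝ) ^ 2)

def EX (d : ℕ) (ρ : ℝ) (X : Q2 × Q2) (z : ℍ) : ℝ := Real.exp (-4 * π * ρ * QQ d X z)

def Th (d : ℕ) (b : Q2 × Q2 → ℂ) (ρ : ℝ) (z : ℍ) : ℂ := ∑' X, b X * (EX d ρ X z : ℂ)

theorem norm_sq_H (z : ℍ) : ‖(z : ℂ)‖ ^ 2 = z.re ^ 2 + z.im ^ 2 := by
  rw [Complex.sq_norm, Complex.normSq_apply, coe_re, coe_im]; ring

theorem QQ_Nm (d : ℕ) (X : Q2 × Q2) (z : ℍ) : QQ d X z =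
    (Nm d X.1 + z.re * bilN d X.1 X.2 + ‖(z : ℂ)‖ ^ 2 * Nm d X.2) / z.im := by
  have h := z.im_pos.ne'
  rw [norm_sq_H, QQ, Nm, Nm, bilN]
  push_cast
  field_simp
  ring

theorem GZ_eq (s : ℍ → ℍ → ℂ) (d : ℕ) (v : U6 → U6 → ℂ) (ρ : ℝ) :
    GZ s d v ρ = Th d (fun X => bX s d v X.1 X.2) ρ := by
  funext z
  refine tsum_congr fun X => ?_
  rw [EX, QQ_Nm]
  congr 3
  ring

theorem norm_lin_sq (w : Q2) (z : ℍ) :
    ‖lin w z‖ ^ 2 = ((w.2 : ℝ) + z.re * w.1) ^ 2 + z.im ^ 2 * (w.1 : ℝ) ^ 2 := by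
  rw [Complex.sq_norm, Complex.normSq_apply]
  simp [lin]
  ring

theorem QQ_lin (d : ℕ) (X : Q2 × Q2) (z : ℍ) : QQ d X z =
    (‖lin (X.2.1, X.1.1) z‖ ^ 2 + d * ‖lin (X.2.2, X.1.2) z‖ ^ 2) / z.im := by
  have h := z.im_pos.ne'
  rw [norm_lin_sq, norm_lin_sq, QQ]
  field_simp
  ring

theorem QQ_smul (d : ℕ) (X : Q2 × Q2) (γ : SL) (z : ℍ) : QQ d X (γ • z) = QQ d (kp γ X) z := by
  have h : ‖jf γ z‖ ≠ 0 := norm_ne_zero_iff.2 (jf_ne_zero γ z)
  have h' := z.im_pos.ne'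
  have e1 : vm (X.2.1, X.1.1) γ = ((kp γ X).2.1, (kp γ X).1.1) := by
    ext <;> simp [vm, kp] <;> ring
  have e2 : vm (X.2.2, X.1.2) γ = ((kp γ X).2.2, (kp γ X).1.2) := by
    ext <;> simp [vm, kp] <;> ring
  rw [QQ_lin, QQ_lin, lin_smul, lin_smul, im_SL, norm_div, norm_div, e1, e2]
  field_simp

theorem EX_smul (d : ℕ) (ρ : ℝ) (X : Q2 × Q2) (γ : SL) (z : ℍ) :
    EX d ρ X (γ • z) = EX d ρ (kp γ X) z := by rw [EX, EX, QQ_smul]

theorem EX_pos (d : ℕ) (ρ : ℝ) (X : Q2 × Q2) (z : ℍ) : 0 < EX d ρ X z := Real.exp_pos _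

theorem continuous_QQ (d : ℕ) (X : Q2 × Q2) : Continuous (QQ d X) := by
  have h1 := UpperHalfPlane.continuous_re
  have h2 := UpperHalfPlane.continuous_im
  unfold QQ
  exact (Continuous.div (by fun_prop) h2 fun z => z.im_pos.ne').add (by fun_prop)

theorem continuous_EX (d : ℕ) (X : Q2 × Q2) : Continuous fun p : ℝ × ℍ => EX d p.1 X p.2 := by
  have h := continuous_QQ d X
  unfold EX
  fun_prop

/-- the permutation attached to `γ` -/
def kE (γ : SL) : Q2 × Q2 ≃ Q2 × Q2 := kA (MulOpposite.op γ)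

theorem kE_apply (γ : SL) (X : Q2 × Q2) : kE γ X = kp γ X := rfl

theorem kp_mul (γ δ : SL) (X : Q2 × Q2) : kp (γ * δ) X = kp δ (kp γ X) := by
  ext <;> simp [kp, Matrix.mul_apply, Fin.sum_univ_two] <;> ring

theorem kp_one (X : Q2 × Q2) : kp 1 X = X := by simp [kp]

theorem SL_det (γ : SL) : ((γ 0 0 : ℤ) : ℚ) * γ 1 1 - γ 0 1 * γ 1 0 = 1 := by
  have h := γ.det_coe
  rw [Matrix.det_fin_two] at h
  exact_mod_cast h

theorem det2_kp (γ : SL) (X : Q2 × Q2) : det2 (kp γ X) = det2 X := by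
  have h := SL_det γ
  simp only [det2, kp, Prod.fst_add, Prod.snd_add, Prod.smul_fst, Prod.smul_snd]
  simp only [zsmul_eq_mul]
  linear_combination (X.1.1 * X.2.2 - X.1.2 * X.2.1) * h

theorem Th_smul (d : ℕ) (b b' : Q2 × Q2 → ℂ) (γ : SL) (h : ∀ X, b' (kp γ X) = b X) (ρ : ℝ)
    (z : ℍ) : Th d b ρ (γ • z) = Th d b' ρ z := by
  rw [Th, Th, ← (kE γ).tsum_eq fun X => b' X * (EX d ρ X z : ℂ)]
  refine tsum_congr fun X => ?_
  rw [kE_apply, h, EX_smul]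

/-! ### a summable majorant -/

def n1 (X : Q2 × Q2) : ℝ := |(X.1.1 : ℝ)| + |(X.1.2 : ℝ)| + |(X.2.1 : ℝ)| + |(X.2.2 : ℝ)|

theorem n1_nonneg (X : Q2 × Q2) : 0 ≤ n1 X := by unfold n1; positivity

theorem det2_le (X : Q2 × Q2) : 1 + |(det2 X : ℝ)| ≤ (1 + n1 X) ^ 2 := by
  have h1 : |(det2 X : ℝ)| ≤ |(X.1.1 : ℝ)| * |(X.2.2 : ℝ)| + |(X.1.2 : ℝ)| * |(X.2.1 : ℝ)| := by
    rw [det2, ← abs_mul, ← abs_mul]; push_cast; exact abs_sub _ _
  have := abs_nonneg (X.1.1 : ℝ)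
  have := abs_nonneg (X.1.2 : ℝ)
  have := abs_nonneg (X.2.1 : ℝ)
  have := abs_nonneg (X.2.2 : ℝ)
  unfold n1
  nlinarith [sq_nonneg |(X.1.1 : ℝ)|, sq_nonneg |(X.1.2 : ℝ)|, sq_nonneg |(X.2.1 : ℝ)|,
    sq_nonneg |(X.2.2 : ℝ)|, mul_nonneg (abs_nonneg (X.1.1 : ℝ)) (abs_nonneg (X.1.2 : ℝ)),
    mul_nonneg (abs_nonneg (X.1.1 : ℝ)) (abs_nonneg (X.2.1 : ℝ)),
    mul_nonneg (abs_nonneg (X.1.1 : ℝ)) (abs_nonneg (X.2.2 : ℝ)),
    mul_nonneg (abs_nonneg (X.1.2 : ℝ)) (abs_nonneg (X.2.1 : ℝ)),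
    mul_nonneg (abs_nonneg (X.1.2 : ℝ)) (abs_nonneg (X.2.2 : ℝ)),
    mul_nonneg (abs_nonneg (X.2.1 : ℝ)) (abs_nonneg (X.2.2 : ℝ))]

theorem abs_le_sq {M : ℕ} (hM : 0 < M) {c : ℚ} (h : IsInt ((M : ℚ) • c)) :
    |(c : ℝ)| ≤ M * (c : ℝ) ^ 2 := by
  by_cases hc : c = 0
  · simp [hc]
  have h1 := inv_le_abs_of_isInt hM h hc
  have hM' : (0 : ℝ) < M := by exact_mod_cast hM
  rw [inv_le_iff_one_le_mul₀ hM'] at h1
  rw [← sq_abs]
  nlinarith [abs_nonneg (c : ℝ)]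

theorem n1_le {d M : ℕ} (hd : 0 < d) (hM : 0 < M) {δ A : ℝ} (hδ : 0 < δ) (hA : 0 ≤ A)
    {X : Q2 × Q2} (h0 : X.2 ≠ 0) (hX : IsInt ((M : ℚ) • X.2)) {z : ℍ} (h1 : δ ≤ z.im)
    (h2 : |z.re| ≤ A) : n1 X ≤ (M + 2 * (1 + A) * M / δ) * QQ d X z := by
  have hM' : (0 : ℝ) < M := by exact_mod_cast hM
  have hd' : (1 : ℝ) ≤ d := by exact_mod_cast hd
  have hy := z.im_pos
  have i1 : IsInt ((M : ℚ) • X.2.1) := hX.1
  have i2 : IsInt ((M : ℚ) • X.2.2) := hX.2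
  have a1 := abs_le_sq hM i1
  have a2 := abs_le_sq hM i2
  set x1 : ℝ := (X.2.1 : ℝ) with hx1
  set x2 : ℝ := (X.2.2 : ℝ) with hx2
  set q : ℝ := x1 ^ 2 + d * x2 ^ 2 with hq
  have q1 : x1 ^ 2 ≤ q := by rw [hq]; nlinarith [sq_nonneg x2]
  have q2 : x2 ^ 2 ≤ q := by rw [hq]; nlinarith [sq_nonneg x2, sq_nonneg x1]
  have hq0 : 1 ≤ (M : ℝ) ^ 2 * q := by
    have key : ∀ c : ℚ, c ≠ 0 → IsInt ((M : ℚ) • c) → (c : ℝ) ^ 2 ≤ q → 1 ≤ (M : ℝ) ^ 2 * q := by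
      intro c hc hi hle
      have h3 := inv_le_abs_of_isInt hM hi hc
      rw [inv_le_iff_one_le_mul₀ hM'] at h3
      have h4 : 1 ≤ (|(c : ℝ)| * M) ^ 2 := one_le_pow₀ h3
      rw [mul_pow, sq_abs] at h4
      nlinarith [sq_nonneg (M : ℝ)]
    by_cases e1 : X.2.1 = 0
    · exact key _ (fun e2 => h0 (Prod.ext e1 e2)) i2 q2
    · exact key _ e1 i1 q1
  set t1 : ℝ := (X.1.1 : ℝ) + z.re * x1 with ht1
  set t2 : ℝ := (X.1.2 : ℝ) + z.re * x2 with ht2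
  set p : ℝ := t1 ^ 2 + d * t2 ^ 2 with hp
  have hQ : QQ d X z = p / z.im + z.im * q := rfl
  have p1 : t1 ^ 2 ≤ p := by rw [hp]; nlinarith [sq_nonneg t2]
  have p2 : t2 ^ 2 ≤ p := by rw [hp]; nlinarith [sq_nonneg t2, sq_nonneg t1]
  have hp0 : 0 ≤ p / z.im := div_nonneg ((sq_nonneg _).trans p1) hy.le
  have hq1 : 0 ≤ q := (sq_nonneg _).trans q1
  have key : ∀ t : ℝ, t ^ 2 ≤ p → |t| ≤ M / 2 * QQ d X z := by
    intro t ht
    have e1 : p = p / z.im * z.im := by field_simp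
    set r := p / z.im
    rw [hQ]
    have h5 : 2 * M * z.im * |t| ≤ (M : ℝ) ^ 2 * t ^ 2 + z.im ^ 2 := by
      rw [← sq_abs t]; nlinarith [sq_nonneg (M * |t| - z.im)]
    have h6 : (M : ℝ) ^ 2 * t ^ 2 ≤ (M : ℝ) ^ 2 * (r * z.im) := by rw [← e1]; gcongr
    have h7 : z.im ^ 2 ≤ z.im ^ 2 * ((M : ℝ) ^ 2 * q) := le_mul_of_one_le_right (sq_nonneg _) hq0
    have h8 : (2 * M * z.im) * |t| ≤ (2 * M * z.im) * (M / 2 * (r + z.im * q)) := by nlinarith
    exact le_of_mul_le_mul_left h8 (by positivity)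
  have hq2 : q ≤ QQ d X z / δ := by
    rw [le_div_iff₀ hδ, hQ]; nlinarith
  have b1 : |x1| ≤ M * (QQ d X z / δ) := a1.trans (by gcongr; exact q1.trans hq2)
  have b2 : |x2| ≤ M * (QQ d X z / δ) := a2.trans (by gcongr; exact q2.trans hq2)
  have c1 : |(X.1.1 : ℝ)| ≤ |t1| + A * |x1| := by
    have : (X.1.1 : ℝ) = t1 - z.re * x1 := by rw [ht1]; ring
    rw [this]
    refine (abs_sub _ _).trans ?_
    rw [abs_mul]; gcongr
  have c2 : |(X.1.2 : ℝ)| ≤ |t2| + A * |x2| := by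
    have : (X.1.2 : ℝ) = t2 - z.re * x2 := by rw [ht2]; ring
    rw [this]
    refine (abs_sub _ _).trans ?_
    rw [abs_mul]; gcongr
  have k1 := key t1 p1
  have k2 := key t2 p2
  have b1' := mul_le_mul_of_nonneg_left b1 hA
  have b2' := mul_le_mul_of_nonneg_left b2 hA
  have e : (M + 2 * (1 + A) * M / δ) * QQ d X z =
      M * QQ d X z + 2 * (1 + A) * (M * (QQ d X z / δ)) := by ring
  rw [e]
  unfold n1
  rw [← hx1, ← hx2]
  nlinarith

open Classical in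
def g1 (M : ℕ) (x : ℚ) : ℝ := if IsInt ((M : ℚ) • x) then ((1 + |(x : ℝ)|) ^ 2)⁻¹ else 0

theorem g1_nonneg (M : ℕ) (x : ℚ) : 0 ≤ g1 M x := by
  unfold g1; split_ifs <;> positivity

theorem summable_g1 {M : ℕ} (hM : 0 < M) : Summable (g1 M) := by
  have hM' : (0 : ℝ) < M := by exact_mod_cast hM
  have hq : (M : ℚ) ≠ 0 := by exact_mod_cast hM.ne'
  have hi : Function.Injective fun n : ℤ => (n : ℚ) / M := fun a b h => by
    simpa [hq] using h
  rw [← hi.summable_iff]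
  · refine Summable.of_norm_bounded_eventually
      ((Real.summable_one_div_int_pow.2 one_lt_two).mul_left ((M : ℝ) ^ 2)) ?_
    filter_upwards [(Set.finite_singleton (0 : ℤ)).compl_mem_cofinite] with n hn
    have hn' : (n : ℝ) ≠ 0 := by exact_mod_cast hn
    have h1 : g1 M ((n : ℚ) / M) ≤ ((1 + |(n : ℝ) / M|) ^ 2)⁻¹ := by
      unfold g1; split_ifs
      · push_cast; rfl
      · positivity
    rw [Function.comp_apply, Real.norm_of_nonneg (g1_nonneg _ _)]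
    refine h1.trans ?_
    have h2 : (M : ℝ) ^ 2 * (1 / (n : ℝ) ^ 2) = (|(n : ℝ) / M| ^ 2)⁻¹ := by
      rw [sq_abs]; field_simp
    rw [h2]
    have : 0 < |(n : ℝ) / M| := abs_pos.2 (div_ne_zero hn' hM'.ne')
    gcongr
    linarith
  · intro x hx
    unfold g1
    rw [if_neg]
    intro h
    obtain ⟨n, hn⟩ := (isInt_rat _).1 h
    exact hx ⟨n, by simp only [← hn, smul_eq_mul]; field_simp⟩

def maj (M : ℕ) (X : Q2 × Q2) : ℝ := (g1 M X.1.1 * g1 M X.1.2) * (g1 M X.2.1 * g1 M X.2.2)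

theorem maj_nonneg (M : ℕ) (X : Q2 × Q2) : 0 ≤ maj M X :=
  mul_nonneg (mul_nonneg (g1_nonneg _ _) (g1_nonneg _ _))
    (mul_nonneg (g1_nonneg _ _) (g1_nonneg _ _))

theorem summable_maj {M : ℕ} (hM : 0 < M) : Summable (maj M) := by
  have h := (summable_g1 hM).mul_of_nonneg (summable_g1 hM) (g1_nonneg M) (g1_nonneg M)
  have h0 : 0 ≤ fun x : ℚ × ℚ => g1 M x.1 * g1 M x.2 := fun x =>
    mul_nonneg (g1_nonneg _ _) (g1_nonneg _ _)
  exact h.mul_of_nonneg h h0 h0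

theorem le_maj {M : ℕ} {X : Q2 × Q2} (h1 : IsInt ((M : ℚ) • X.1)) (h2 : IsInt ((M : ℚ) • X.2)) :
    ((1 + n1 X) ^ 8)⁻¹ ≤ maj M X := by
  have key : ∀ x : ℚ, IsInt ((M : ℚ) • x) → |(x : ℝ)| ≤ n1 X → ((1 + n1 X) ^ 2)⁻¹ ≤ g1 M x := by
    intro x hx hle
    rw [g1, if_pos hx]
    gcongr
  have := abs_nonneg (X.1.1 : ℝ)
  have := abs_nonneg (X.1.2 : ℝ)
  have := abs_nonneg (X.2.1 : ℝ)
  have := abs_nonneg (X.2.2 : ℝ)
  have k1 := key X.1.1 h1.1 (by unfold n1; linarith)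
  have k2 := key X.1.2 h1.2 (by unfold n1; linarith)
  have k3 := key X.2.1 h2.1 (by unfold n1; linarith)
  have k4 := key X.2.2 h2.2 (by unfold n1; linarith)
  have e : ((1 + n1 X) ^ 8)⁻¹ = (((1 + n1 X) ^ 2)⁻¹ * ((1 + n1 X) ^ 2)⁻¹) *
      (((1 + n1 X) ^ 2)⁻¹ * ((1 + n1 X) ^ 2)⁻¹) := by
    generalize 1 + n1 X = t; ring
  have h0 : 0 ≤ ((1 + n1 X) ^ 2)⁻¹ := by positivity
  rw [e, maj]
  exact mul_le_mul (mul_le_mul k1 k2 h0 (g1_nonneg _ _)) (mul_le_mul k3 k4 h0 (g1_nonneg _ _))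
    (mul_nonneg h0 h0) (mul_nonneg (g1_nonneg _ _) (g1_nonneg _ _))

theorem poly_exp {c : ℝ} (hc : 0 < c) : ∃ K : ℝ, 0 ≤ K ∧ ∀ t : ℝ, 0 ≤ t →
    (1 + t) ^ 16 * Real.exp (-(c * t)) ≤ K * ((1 + t) ^ 8)⁻¹ := by
  refine ⟨(Nat.factorial 24 : ℝ) * Real.exp c / c ^ 24, by positivity, fun t ht => ?_⟩
  have h := Real.pow_div_factorial_le_exp (c * (1 + t)) (by positivity) 24
  rw [div_le_iff₀ (by positivity), mul_pow, mul_add, mul_one, Real.exp_add] at h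
  rw [Real.exp_neg, ← div_eq_mul_inv, ← div_eq_mul_inv, div_le_div_iff₀ (by positivity)
    (by positivity), div_mul_eq_mul_div, le_div_iff₀ (by positivity)]
  calc _ = c ^ 24 * (1 + t) ^ 24 := by ring
    _ ≤ _ := h
    _ = _ := by ring

/-- admissible coefficients -/
structure Cf (M : ℕ) (C : ℝ) (b : Q2 × Q2 → ℂ) : Prop where
  nn : 0 ≤ C
  bd : ∀ X, ‖b X‖ ≤ C * (1 + |(det2 X : ℝ)|) ^ 8
  supp : ∀ X, b X ≠ 0 → IsInt ((M : ℚ) • X.1) ∧ IsInt ((M : ℚ) • X.2) ∧ det2 X ≠ 0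

theorem snd_ne {X : Q2 × Q2} (h : det2 X ≠ 0) : X.2 ≠ 0 := fun e => h (by simp [det2, e])

theorem isInt_kp {M : ℕ} {X : Q2 × Q2} (h1 : IsInt ((M : ℚ) • X.1)) (h2 : IsInt ((M : ℚ) • X.2))
    (γ : SL) : IsInt ((M : ℚ) • (kp γ X).1) ∧ IsInt ((M : ℚ) • (kp γ X).2) := by
  have key : ∀ a b : ℤ, IsInt ((M : ℚ) • (a • X.1 + b • X.2)) := fun a b => by
    have := (h1.zsmul a).add (h2.zsmul b)
    rwa [smul_comm (a : ℚ), smul_comm (b : ℚ), ← smul_add, Int.cast_smul_eq_zsmul,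
      Int.cast_smul_eq_zsmul] at this
  exact ⟨key _ _, key _ _⟩

theorem Cf.comp {M : ℕ} {C : ℝ} {b : Q2 × Q2 → ℂ} (h : Cf M C b) (γ : SL) :
    Cf M C fun X => b (kp γ X) := by
  refine ⟨h.nn, fun X => by simpa only [det2_kp] using h.bd (kp γ X), fun X hX => ?_⟩
  obtain ⟨h1, h2, h3⟩ := h.supp _ hX
  have := isInt_kp h1 h2 γ⁻¹
  rw [← kp_mul, mul_inv_cancel, kp_one] at this
  exact ⟨this.1, this.2, by rwa [det2_kp] at h3⟩

theorem term_le {d M : ℕ} (hd : 0 < d) (hM : 0 < M) {ρ δ A : ℝ} (hρ : 0 < ρ) (hδ : 0 < δ)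
    (hA : 0 ≤ A) : ∃ K : ℝ, 0 ≤ K ∧ ∀ C b, Cf M C b → ∀ z : ℍ, δ ≤ z.im → |z.re| ≤ A → ∀ X,
      ‖b X * (EX d ρ X z : ℂ)‖ ≤ C * K * maj M X := by
  have hM' : (0 : ℝ) < M := by exact_mod_cast hM
  set L : ℝ := M + 2 * (1 + A) * M / δ with hL
  have hL0 : 0 < L := by positivity
  obtain ⟨K, hK, h⟩ := poly_exp (c := 4 * π * ρ / L) (by positivity)
  refine ⟨K, hK, fun C b hb z h1 h2 X => ?_⟩
  have hC := hb.nn
  by_cases h0 : b X = 0
  · rw [h0, zero_mul, norm_zero]; exact mul_nonneg (mul_nonneg hC hK) (maj_nonneg _ _)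
  obtain ⟨i1, i2, i3⟩ := hb.supp X h0
  have h3 := n1_le hd hM hδ hA (snd_ne i3) i2 h1 h2
  have h4 : EX d ρ X z ≤ Real.exp (-(4 * π * ρ / L * n1 X)) := by
    rw [EX, Real.exp_le_exp]
    have : 4 * π * ρ / L * n1 X ≤ 4 * π * ρ / L * (L * QQ d X z) := by gcongr
    have e : 4 * π * ρ / L * (L * QQ d X z) = 4 * π * ρ * QQ d X z := by field_simp
    linarith
  have h5 : ‖b X‖ ≤ C * (1 + n1 X) ^ 16 := by
    refine (hb.bd X).trans (mul_le_mul_of_nonneg_left ?_ hC)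
    calc _ ≤ ((1 + n1 X) ^ 2) ^ 8 := by gcongr; exact det2_le X
      _ = _ := by ring
  rw [norm_mul, Complex.norm_real, Real.norm_of_nonneg (EX_pos _ _ _ _).le]
  calc _ ≤ C * (1 + n1 X) ^ 16 * Real.exp (-(4 * π * ρ / L * n1 X)) := by
        have := n1_nonneg X
        exact mul_le_mul h5 h4 (EX_pos _ _ _ _).le (by positivity)
    _ ≤ C * (K * ((1 + n1 X) ^ 8)⁻¹) := by
        rw [mul_assoc]; exact mul_le_mul_of_nonneg_left (h _ (n1_nonneg X)) hC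
    _ ≤ _ := by
        rw [mul_assoc]
        exact mul_le_mul_of_nonneg_left (mul_le_mul_of_nonneg_left (le_maj i1 i2) hK) hC

variable {d M : ℕ} {C ρ : ℝ} {b : Q2 × Q2 → ℂ}

theorem Cf.summable (h : Cf M C b) (hd : 0 < d) (hM : 0 < M) (hρ : 0 < ρ) (z : ℍ) :
    Summable fun X => b X * (EX d ρ X z : ℂ) := by
  obtain ⟨K, -, hK⟩ := term_le hd hM hρ z.im_pos (abs_nonneg z.re)
  exact Summable.of_norm_bounded ((summable_maj hM).mul_left _) (hK C b h z le_rfl le_rfl)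

theorem Cf.continuous (h : Cf M C b) (hd : 0 < d) (hM : 0 < M) (hρ : 0 < ρ) :
    Continuous (Th d b ρ) := by
  refine continuous_iff_continuousAt.2 fun z => ?_
  obtain ⟨K, -, hK⟩ := term_le (A := |z.re| + 1) hd hM hρ (half_pos z.im_pos) (by positivity)
  have h1 : ContinuousOn (Th d b ρ) {w : ℍ | z.im / 2 ≤ w.im ∧ |w.re| ≤ |z.re| + 1} :=
    continuousOn_tsum (fun X => (continuous_const.mul (Complex.continuous_ofReal.comp
      ((continuous_EX d X).comp (Continuous.prodMk_right ρ)))).continuousOn)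
      ((summable_maj hM).mul_left (C * K)) fun X w hw => hK C b h w hw.1 hw.2 X
  refine h1.continuousAt (Filter.inter_mem ?_ ?_)
  · exact UpperHalfPlane.continuous_im.continuousAt.eventually
      (le_mem_nhds (half_lt_self z.im_pos))
  · exact UpperHalfPlane.continuous_re.abs.continuousAt.eventually
      (ge_mem_nhds (lt_add_one |z.re|))

theorem im_fd {z : ℍ} (h : z ∈ 𝒟) : 1 / 2 ≤ z.im := by
  have := ModularGroup.three_le_four_mul_im_sq_of_mem_fd h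
  nlinarith [z.im_pos]

theorem Cf.bdd (h : Cf M C b) (hd : 0 < d) (hM : 0 < M) (hρ : 0 < ρ) :
    ∃ B : ℝ, ∀ z, ‖Th d b ρ z‖ ≤ B := by
  obtain ⟨K, -, hK⟩ := term_le (δ := 1 / 2) (A := 1 / 2) hd hM hρ one_half_pos one_half_pos.le
  refine ⟨∑' X, C * K * maj M X, fun z => ?_⟩
  obtain ⟨γ, hγ⟩ := ModularGroup.exists_smul_mem_fd z
  have e : Th d b ρ z = Th d (fun X => b (kp γ X)) ρ (γ • z) := by
    rw [← Th_smul d b (fun X => b (kp γ X)) γ⁻¹ fun X => by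
      simp only [← kp_mul, inv_mul_cancel, kp_one], inv_smul_smul]
  rw [e]
  exact tsum_of_norm_bounded ((summable_maj hM).mul_left _).hasSum
    (hK C _ (h.comp γ) _ (im_fd hγ) hγ.2)

/-! ### the constant term -/

theorem per_sum {b : ℚ → ℂ} (hb : SB b) (hp : ∀ a, b (a + 1) = b a) {f : ℝ → ℝ}
    (hf : Integrable f) :
    HasSum (fun a : ℚ => b a * ((∫ u in (0 : ℝ)..1, f (a + u) : ℝ) : ℂ))
      (II b * ((∫ u, f u : ℝ) : ℂ)) := by
  classical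
  have hp' : ∀ (n : ℤ) (a : ℚ), b (n + a) = b a := fun n a => by
    have := (Function.Periodic.int_mul (f := b) (c := 1) hp n) a
    rwa [mul_one, add_comm] at this
  have hI : Inv (trA ℚ) (AddSubgroup.toSubgroup (Lat.lat (W := ℚ))) b := by
    rintro γ ⟨n, hn⟩ x
    have : trA ℚ γ x = n + x := by
      change Multiplicative.toAdd γ + x = _
      rw [← hn]; rfl
    rw [this, hp']
  obtain ⟨⟨R, hR, hu⟩, -⟩ := hb.dgood.exists_reps (FI.refl _) hI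
  have h1 := (dmean_reps (FI.refl _) hI R hu fun x _ γ _ e => by
    have e' : Multiplicative.toAdd γ + x = x := e
    exact add_eq_right.1 e').2
  rw [Subgroup.relIndex_self, Nat.cast_one, div_one] at h1
  have hu' : ∀ x, b x ≠ 0 → ∃! r, r ∈ R ∧ ∃ n : ℤ, n + r = x := fun x hx => by
    have e : ∀ r : ℚ, (∃ γ ∈ AddSubgroup.toSubgroup (Lat.lat (W := ℚ)), trA ℚ γ r = x) ↔
        ∃ n : ℤ, n + r = x := fun r => by
      constructor
      · rintro ⟨γ, ⟨n, hn⟩, e⟩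
        refine ⟨n, ?_⟩
        rw [← e]
        change _ = Multiplicative.toAdd γ + r
        rw [← hn]; rfl
      · rintro ⟨n, hn⟩
        exact ⟨Multiplicative.ofAdd (n : ℚ), ⟨n, rfl⟩, hn⟩
    simpa only [e] using hu x hx
  set F : ℚ → ℂ := fun a => b a * ((∫ u in (0 : ℝ)..1, f (a + u) : ℝ) : ℂ) with hF
  have h2 : ∀ r ∈ R, HasSum (fun a => if ∃ n : ℤ, n + r = a then F a else 0)
      (b r * ((∫ u, f u : ℝ) : ℂ)) := fun r _ => by
    have hi : Function.Injective fun n : ℤ => (n : ℚ) + r := fun m n h => by simpa using h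
    refine (hi.hasSum_iff fun a ha => if_neg ha).1 ?_
    have h3 := (hf.comp_add_right r).hasSum_intervalIntegral_comp_add_int
    rw [integral_add_right_eq_self] at h3
    convert! (Complex.hasSum_ofReal.2 h3).mul_left (b r) using 1
    funext n
    rw [Function.comp_apply, if_pos ⟨n, rfl⟩, hF]
    simp only [hp']
    congr 3
    funext u
    congr 1; push_cast; ring
  have h4 := hasSum_sum h2
  rw [← Finset.sum_mul, ← h1] at h4
  refine (funext fun a => ?_ : F = _) ▸ h4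
  by_cases ha : b a = 0
  · simp [hF, ha]
  · obtain ⟨r, ⟨hr, hn⟩, hu2⟩ := hu' a ha
    rw [Finset.sum_eq_single_of_mem r hr fun r' hr' hne => if_neg fun h => hne (hu2 r' ⟨hr', h⟩),
      if_pos hn]

theorem exists_co (hd : 0 < d) {x : Q2} (hx : x ≠ 0) (x' : Q2) :
    ∃ a l : ℚ, x' = a • x + l • perp d x := by
  have h := (Nm_pos hd hx).ne'
  refine ⟨bilN d x' x / (2 * Nm d x), -det2 (x', x) / Nm d x, ?_⟩
  ext <;> simp only [perp, Prod.fst_add, Prod.snd_add, Prod.smul_fst, Prod.smul_snd,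
    smul_eq_mul] <;> field_simp <;> simp only [Nm, bilN, det2] <;> ring

open Classical in
def co2 (d : ℕ) (p : (Q2 × ℚ) × ℚ) : Q2 × Q2 :=
  (if p.1.1 = 0 then (p.2, p.1.2) else p.2 • p.1.1 + p.1.2 • perp d p.1.1, p.1.1)

theorem co2_bij (hd : 0 < d) : Function.Bijective (co2 d) := by
  constructor
  · rintro ⟨⟨x, l⟩, a⟩ ⟨⟨x', l'⟩, a'⟩ h
    obtain ⟨h1, rfl : x = x'⟩ := Prod.ext_iff.1 h
    by_cases hx : x = 0
    · simp only [co2, hx, if_true, Prod.mk.injEq] at h1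
      rw [h1.1, h1.2]
    · simp only [co2, hx, if_false] at h1
      have h0 := (Nm_pos hd hx).ne'
      obtain ⟨-, e1, e2⟩ := Nm_comb d x a l
      obtain ⟨-, e1', e2'⟩ := Nm_comb d x a' l'
      rw [h1, e1'] at e1
      rw [h1, e2'] at e2
      have ha : a = a' := mul_left_cancel₀ h0 (by linarith)
      have hl : l = l' := mul_right_cancel₀ h0 (by linarith)
      rw [ha, hl]
  · rintro ⟨x', x⟩
    by_cases hx : x = 0
    · exact ⟨((x, x'.2), x'.1), by simp [co2, hx]⟩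
    · obtain ⟨a, l, e⟩ := exists_co hd hx x'
      exact ⟨((x, l), a), by simp [co2, hx, e]⟩

theorem re_pt (u : ℝ) {y : ℝ} (h : 0 < y) : (pt u y).re = u := by
  rw [← coe_re, coe_pt u h]; simp

theorem im_pt (u : ℝ) {y : ℝ} (h : 0 < y) : (pt u y).im = y := by
  rw [← coe_im, coe_pt u h]; simp

theorem EX_co (d : ℕ) (ρ : ℝ) (x : Q2) (a l : ℚ) (u : ℝ) {y : ℝ} (h : 0 < y) :
    EX d ρ (a • x + l • perp d x, x) (pt u y) =
      Real.exp (-(4 * π * (ρ / y) * Nm d x) * (a + u) ^ 2) *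
        Real.exp (-4 * π * Nm d x * (ρ * y + ρ / y * d * l ^ 2)) := by
  obtain ⟨e1, e2, -⟩ := Nm_comb d x a l
  rw [EX, QQ_Nm, norm_sq_H, re_pt u h, im_pt u h, ← Real.exp_add]
  simp only [e1, e2]
  push_cast
  congr 1
  field_simp
  ring

theorem Cf.hasSum_ct (h : Cf M C b) (hd : 0 < d) (hM : 0 < M) (hρ : 0 < ρ) {y : ℝ} (hy : 0 < y) :
    HasSum (fun X => b X * ((∫ u in (0 : ℝ)..1, EX d ρ X (pt u y) : ℝ) : ℂ))
      (ct (Th d b ρ) y) := by
  obtain ⟨K, -, hK⟩ := term_le (A := 1) hd hM hρ hy zero_le_one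
  have hc : ∀ X, Continuous fun u => EX d ρ X (pt u y) := fun X =>
    (continuous_EX d X).comp ((Continuous.prodMk_right ρ).comp (continuous_pt hy))
  have h1 := intervalIntegral.hasSum_integral_of_dominated_convergence (μ := volume) (a := 0)
    (b := 1) (F := fun X u => b X * (EX d ρ X (pt u y) : ℂ)) (f := fun u => Th d b ρ (pt u y))
    (fun X _ => C * K * maj M X)
    (fun X => (continuous_const.mul (Complex.continuous_ofReal.comp (hc X))).aestronglyMeasurable)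
    (fun X => Eventually.of_forall fun u hu => hK C b h _ (im_pt u hy).ge (by
      rw [Set.uIoc_of_le zero_le_one] at hu
      rw [re_pt u hy, abs_of_pos hu.1]; exact hu.2) X)
    (Eventually.of_forall fun _ _ => (summable_maj hM).mul_left _) intervalIntegrable_const
    (Eventually.of_forall fun u _ => (h.summable hd hM hρ _).hasSum)
  simp only [intervalIntegral.integral_const_mul, intervalIntegral.integral_ofReal] at h1
  exact h1

theorem integral_gauss {c : ℝ} (hc : 0 < c) :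
    Integrable (fun u : ℝ => Real.exp (-c * u ^ 2)) ∧
      ∫ u : ℝ, Real.exp (-c * u ^ 2) = Real.sqrt (π / c) :=
  ⟨integrable_exp_neg_mul_sq hc, integral_gaussian c⟩

theorem cf_bX (hA : S_AAW) {s : ℍ → ℍ → ℂ} (hs : InW s) (hd : 0 < d) (hM : 0 < M)
    {v : U6 → U6 → ℂ} (hv : LevV d M v) : ∃ C, Cf M C fun X => bX s d v X.1 X.2 := by
  obtain ⟨C, h0, h1, -⟩ := hA s hs d M hd hM v hv
  refine ⟨C, h0, fun X => h1 X.1 X.2, fun X hX => ?_⟩
  obtain ⟨a, b, c, -⟩ := bX_supp hv hX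
  exact ⟨a, b, c⟩

theorem ct_eq (hA : S_AAW) {s : ℍ → ℍ → ℂ} (hs : InW s) (hd : 0 < d) (hM : 0 < M)
    {v : U6 → U6 → ℂ} (hv : LevV d M v) (hρ : 0 < ρ) (hT : kap2 ModularGroup.T v = v) {y : ℝ}
    (hy : 0 < y) : gv s d v (Real.log (ρ / y), Real.log (ρ * y)) =
      ((ρ ^ (3 / 2 : ℝ) * y ^ (-(1 / 2) : ℝ) : ℝ) : ℂ) * ct (GZ s d v ρ) y := by
  obtain ⟨C, hC⟩ := cf_bX hA hs hd hM hv
  have h1 := ((Equiv.ofBijective _ (co2_bij hd)).hasSum_iff.2
    (hC.hasSum_ct hd hM hρ hy)).mul_left ((ρ ^ (3 / 2 : ℝ) * y ^ (-(1 / 2) : ℝ) : ℝ) : ℂ)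
  rw [GZ_eq]
  refine (h1.prod_fiberwise fun p => ?_).tsum_eq
  obtain ⟨x, l⟩ := p
  simp only [Function.comp_apply, Equiv.ofBijective_apply, co2]
  by_cases hx : x = 0
  · have e : ∀ x', bX s d v x' x = 0 := fun x' => by
      by_contra h
      exact snd_ne (bX_supp hv h).2.2.1 hx
    have e' : aa s d v x (d * l ^ 2) l = 0 := by
      by_contra h
      exact (aa_supp hv h).1 hx
    simp only [e, e', zero_mul, mul_zero]
    exact hasSum_zero
  · have hj : (0 : ℝ) < Nm d x := by exact_mod_cast Nm_pos hd hx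
    have hsb : SB fun a : ℚ => bX s d v (a • x + l • perp d x) x := by
      convert! aa_sb hs.hasLevS hd hM hv x (d * l ^ 2) l using 2 with a
      obtain ⟨e1, e2, -⟩ := Nm_comb d x a l
      rw [bX, e1, e2]
    have hp : ∀ a : ℚ, bX s d v ((a + 1) • x + l • perp d x) x =
        bX s d v (a • x + l • perp d x) x := fun a => by
      have := bX_kap2 (s := s) (d := d) (v := v) ModularGroup.T (a • x + l • perp d x) x
      rw [hT] at this
      rw [← this]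
      congr 1
      · simp [kp, ModularGroup.T, add_smul]; abel
      · simp [kp, ModularGroup.T]
    obtain ⟨g1, g2⟩ := integral_gauss (c := 4 * π * (ρ / y) * Nm d x) (by positivity)
    have h2 := (per_sum hsb hp g1).mul_left (((ρ ^ (3 / 2 : ℝ) * y ^ (-(1 / 2) : ℝ) : ℝ) : ℂ) *
      (Real.exp (-4 * π * Nm d x * (ρ * y + ρ / y * d * l ^ 2)) : ℝ))
    rw [g2, ← aa_eq_bX] at h2
    simp only [if_neg hx, EX_co d ρ x _ l _ hy, intervalIntegral.integral_mul_const]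
    convert! h2 using 1
    · funext a; push_cast; ring
    · have e1 : Real.exp (Real.log (ρ / y) / 2 + Real.log (ρ * y) / 2) = ρ := by
        rw [Real.log_div hρ.ne' hy.ne', Real.log_mul hρ.ne' hy.ne']
        convert Real.exp_log hρ using 2; ring
      have e2 : ρ * (4 * Nm d x : ℝ) ^ (-(1 / 2) : ℝ) = ρ ^ (3 / 2 : ℝ) * y ^ (-(1 / 2) : ℝ) *
          Real.sqrt (π / (4 * π * (ρ / y) * Nm d x)) := by
        have e3 : π / (4 * π * (ρ / y) * Nm d x) = y / (ρ * (4 * Nm d x)) := by field_simp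
        have e4 : ρ ^ (3 / 2 : ℝ) = ρ * Real.sqrt ρ := by
          rw [Real.sqrt_eq_rpow, ← Real.rpow_one_add' hρ.le (by norm_num)]; norm_num
        have : 0 < Real.sqrt ρ := Real.sqrt_pos.2 hρ
        have : 0 < Real.sqrt y := Real.sqrt_pos.2 hy
        have : 0 < Real.sqrt (4 * Nm d x) := Real.sqrt_pos.2 (by positivity)
        rw [e3, e4, Real.rpow_neg (by positivity), Real.rpow_neg hy.le, ← Real.sqrt_eq_rpow,
          ← Real.sqrt_eq_rpow, Real.sqrt_div hy.le, Real.sqrt_mul hρ.le]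
        field_simp
      rw [e1, e2, Real.exp_log (by positivity), Real.exp_log (by positivity)]
      push_cast; ring

end GZSP

open GZSP in
theorem gzS : S_AAW → S_B0W → S_GZW := by
  intro hA _ s hs d M hd hM v hv ρ hρ
  obtain ⟨C, hC⟩ := cf_bX hA hs hd hM hv
  refine ⟨?_, ?_, fun γ z => ?_, fun v' hv' => ?_, fun a => ?_,
    fun hT y hy => ct_eq hA hs hd hM hv hρ hT hy⟩
  · rw [GZ_eq]; exact hC.continuous hd hM hρ
  · rw [GZ_eq]; exact hC.bdd hd hM hρ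
  · rw [GZ_eq, GZ_eq]
    exact Th_smul d _ _ γ (fun X => bX_kap2 γ X.1 X.2) ρ z
  · obtain ⟨C', hC'⟩ := cf_bX hA hs hd hM hv'
    funext z
    simp only [GZ_eq, Pi.add_apply, Th, bX_add hs.hasLevS hd hM hv hv', add_mul]
    exact (hC.summable hd hM hρ z).tsum_add (hC'.summable hd hM hρ z)
  · funext z
    simp only [GZ_eq, Pi.smul_apply, Th, bX_smul, mul_assoc, smul_eq_mul]
    exact tsum_mul_left

end

end Pool.Agent.P.MP_b8021b_nt.CM
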