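import Pool.Agent.P.MP_b8021b_nt.CM.Lib

/-! Package P10, first part: unary theta series and the weight three halves series. -/

namespace Pool.Agent.P.MP_b8021b_nt.CM

open Complex hiding Gamma
open UpperHalfPlane hiding I
open MeasureTheory CongruenceSubgroup Filter
open scoped Real MatrixGroups ModularForm Topology ComplexConjugate Modular

noncomputable section

namespace HJFP

/-! ### square roots -/

theorem cp_half {t : ℂ} (ht : 0 < t.re) : (t ^ 2) ^ (1 / 2 : ℂ) = t := by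
  rw [one_div]; exact sq_cpow_two_inv ht

theorem cp_neg_half {t : ℂ} (ht : 0 < t.re) : (t ^ 2) ^ (-(1 / 2) : ℂ) = t⁻¹ := by
  rw [cpow_neg, cp_half ht]

theorem exists_sqrt (τ : ℍ) : ∃ s : ℂ, 0 < s.re ∧ s ^ 2 = -I * τ := by
  refine ⟨(-I * τ) ^ (2⁻¹ : ℂ), ?_, cpow_ofNat_inv_pow _ 2⟩
  rw [cpow_inv_two_re]
  apply Real.sqrt_pos.2
  have h1 : (-I * (τ : ℂ)).re = τ.im := by simp
  have h2 := norm_nonneg (-I * (τ : ℂ))
  have h3 := τ.im_pos
  rw [h1]; positivity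

theorem re_div_pos {r : ℝ} (hr : 0 < r) {s : ℂ} (hs : 0 < s.re) : 0 < ((r : ℂ) / s).re := by
  have h0 : s ≠ 0 := fun h => by simp [h] at hs
  rw [div_eq_mul_inv, re_ofReal_mul, inv_re]
  exact mul_pos hr (div_pos hs (normSq_pos.2 h0))

/-! ### the unary theta series -/

def th (ψ : ℚ → ℂ) (z : ℂ) : ℂ := ∑' a : ℚ, ψ a * e ((a : ℂ) ^ 2 * z)

theorem summable_th {ψ : ℚ → ℂ} (h : SB ψ) {z : ℂ} (hz : 0 < z.im) :
    Summable fun a : ℚ => ‖ψ a * e ((a : ℂ) ^ 2 * z)‖ := by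
  have := summable_gauss h (a := -2 * I * z) (by simp; linarith) 0 0
  refine this.congr fun a => ?_
  congr 1
  rw [pow_zero, mul_one, e]
  congr 2
  ring

theorem norm_th_term (ψ : ℚ → ℂ) (a : ℚ) (z : ℂ) :
    ‖ψ a * e ((a : ℂ) ^ 2 * z)‖ = ‖ψ a‖ * Real.exp (-2 * π * ((a : ℝ) ^ 2 * z.im)) := by
  rw [norm_mul, norm_e]
  congr 3
  have : ((a : ℂ) ^ 2) = (((a : ℝ) ^ 2 : ℝ) : ℂ) := by push_cast; rfl
  rw [this, im_ofReal_mul]

theorem norm_th_mono (ψ : ℚ → ℂ) (a : ℚ) {z w : ℂ} (h : w.im ≤ z.im) :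
    ‖ψ a * e ((a : ℂ) ^ 2 * z)‖ ≤ ‖ψ a * e ((a : ℂ) ^ 2 * w)‖ := by
  rw [norm_th_term, norm_th_term]
  refine mul_le_mul_of_nonneg_left (Real.exp_le_exp.2 ?_) (norm_nonneg _)
  have : (a : ℝ) ^ 2 * w.im ≤ (a : ℝ) ^ 2 * z.im := mul_le_mul_of_nonneg_left h (sq_nonneg _)
  nlinarith [Real.pi_pos]

theorem th_poisson {ψ : ℚ → ℂ} (h : SB ψ) {z : ℂ} (hz : 0 < z.im) :
    th ψ (-1 / z) = (2 * I / z) ^ (-(1 / 2) : ℂ) * th (F1 (-2) ψ) z := by
  have h0 : z ≠ 0 := fun h => by simp [h] at hz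
  have ha : 0 < (2 * I / z).re := by
    rw [div_re]
    simp only [mul_re, re_ofNat, Complex.I_re, mul_zero, im_ofNat, Complex.I_im, mul_one, sub_self,
      zero_mul, zero_div, mul_im, add_zero, zero_add]
    exact div_pos (by linarith) (normSq_pos.2 h0)
  have := poisson0 h ha 0
  have e1 : th ψ (-1 / z) =
      ∑' x : ℚ, ψ x * cexp (-π * (2 * I / z) * x ^ 2 + 2 * π * 0 * x) := by
    refine tsum_congr fun x => ?_
    rw [e]; congr 2; field_simp; ring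
  rw [e1, this, th, ← (Equiv.mulLeft₀ (-2 : ℚ) (by norm_num)).tsum_eq]
  congr 1
  refine tsum_congr fun w => ?_
  have e2 : F1 1 ψ (-2 * w) = F1 (-2) ψ w := by
    unfold F1; congr 1; ext x; congr 2; ring
  simp only [Equiv.mulLeft₀_apply]
  rw [e2, e]
  congr 2
  push_cast
  field_simp
  linear_combination (-4 * (w : ℂ) ^ 2) * I_sq

theorem continuousAt_th {ψ : ℚ → ℂ} (h : SB ψ) {z : ℂ} (hz : 0 < z.im) :
    ContinuousAt (th ψ) z := by
  have hc : ContinuousOn (th ψ) {w : ℂ | z.im / 2 < w.im} := by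
    refine continuousOn_tsum (u := fun a : ℚ => ‖ψ a * e ((a : ℂ) ^ 2 * (z / 2))‖)
      (fun a => ?_) (summable_th h (by simp; linarith)) fun a w hw => norm_th_mono ψ a ?_
    · unfold e; fun_prop
    · simpa using le_of_lt hw
  exact hc.continuousAt ((isOpen_lt continuous_const Complex.continuous_im).mem_nhds
    (by simp; linarith))

theorem norm_th_le {ψ : ℚ → ℂ} (h : SB ψ) {w : ℂ} (hw : 0 < w.im) {z : ℂ} (hz : w.im ≤ z.im) :
    ‖th ψ z‖ ≤ ∑' a : ℚ, ‖ψ a * e ((a : ℂ) ^ 2 * w)‖ :=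
  tsum_of_norm_bounded (summable_th h hw).hasSum fun a => norm_th_mono ψ a hz

theorem cls_zero {k : ℕ} : cls k (0 : ℚ) 0 = 1 := by
  unfold cls; rw [if_pos (by simpa using isInt_zero)]

/-- a theta series that is close to one -/
theorem exists_small {z : ℂ} (hz : 0 < z.im) : ∃ ψ : ℚ → ℂ, SB ψ ∧ ψ 0 = 1 ∧
    ∑' a : ℚ, (if a = 0 then 0 else ‖ψ a * e ((a : ℂ) ^ 2 * z)‖) ≤ 1 / 2 := by
  have hs := summable_th (sb_cls one_pos (0 : ℚ)) hz
  have ht := tendsto_tsum_of_dominated_convergence (𝓕 := atTop)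
    (f := fun (k : ℕ) (a : ℚ) => if a = 0 then (0 : ℝ) else ‖cls k 0 a * e ((a : ℂ) ^ 2 * z)‖)
    (g := fun _ => 0) hs (fun a => ?_) ?_
  · rw [tsum_zero] at ht
    obtain ⟨k, hk, hk'⟩ := ((ht.eventually (ge_mem_nhds (by norm_num : (0 : ℝ) < 1 / 2))).and
      (eventually_gt_atTop 0)).exists
    exact ⟨cls k 0, sb_cls hk' 0, cls_zero, hk⟩
  · refine tendsto_const_nhds.congr' ?_
    obtain ⟨n, hn⟩ := exists_nat_gt |a|
    filter_upwards [eventually_ge_atTop n] with k hk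
    split_ifs with ha
    · rfl
    · have : cls k 0 a = 0 := by
        unfold cls
        rw [if_neg]
        intro hi
        obtain ⟨m, hm⟩ := (isInt_rat _).1 hi
        have hk0 : (0 : ℚ) < k := lt_of_le_of_lt (abs_nonneg a) (hn.trans_le (by exact_mod_cast hk))
        have ea : a = k * m := by
          rw [sub_zero, smul_eq_mul] at hm
          rw [← hm]; field_simp
        have hm0 : m ≠ 0 := by rintro rfl; simp [ha] at ea
        have h1 : (1 : ℚ) ≤ |(m : ℚ)| := by exact_mod_cast Int.one_le_abs hm0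
        have h2 : (n : ℚ) ≤ k := by exact_mod_cast hk
        rw [ea, abs_mul, abs_of_pos hk0] at hn
        nlinarith
      simp [this]
  · filter_upwards [eventually_gt_atTop 0] with k hk a
    rw [Real.norm_eq_abs]
    split_ifs with ha
    · rw [abs_zero]; exact norm_nonneg _
    · rw [abs_norm, norm_mul, norm_mul]
      refine mul_le_mul_of_nonneg_right ?_ (norm_nonneg _)
      unfold cls
      split_ifs with h1 h2
      · exact le_rfl
      · exfalso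
        apply h2
        have := h1.nsmul k
        have hk0 : (k : ℚ) ≠ 0 := by positivity
        rw [smul_smul, mul_inv_cancel₀ hk0] at this
        simpa using this
      · simp
      · exact le_rfl

theorem th_ne_zero {ψ : ℚ → ℂ} (h : SB ψ) {z : ℂ} (hz : 0 < z.im) (h0 : ψ 0 = 1)
    (hs : ∑' a : ℚ, (if a = 0 then 0 else ‖ψ a * e ((a : ℂ) ^ 2 * z)‖) ≤ 1 / 2) :
    th ψ z ≠ 0 := by
  have h1 := summable_th h hz
  have h2 : Summable fun a : ℚ => if a = 0 then 0 else ‖ψ a * e ((a : ℂ) ^ 2 * z)‖ :=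
    Summable.of_nonneg_of_le (fun a => by positivity)
      (fun a => by split_ifs; exacts [norm_nonneg _, le_rfl]) h1
  rw [th, h1.of_norm.tsum_eq_add_tsum_ite 0]
  intro hh
  have h3 := tsum_of_norm_bounded
    (f := fun a : ℚ => if a = 0 then 0 else ψ a * e ((a : ℂ) ^ 2 * z)) h2.hasSum
    (fun a => by split_ifs <;> simp)
  rw [h0] at hh
  simp only [Rat.cast_zero, ne_eq, OfNat.ofNat_ne_zero, not_false_eq_true, zero_pow, zero_mul,
    e_zero, mul_one] at hh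
  rw [← eq_neg_iff_add_eq_zero] at hh
  have h4 := congrArg norm hh
  rw [norm_neg, norm_one] at h4
  linarith

/-! ### convolution with squares -/

def sqE : ℚ × ℚ ≃ ℚ × ℚ where
  toFun p := (p.2, p.1 - p.2 ^ 2)
  invFun p := (p.2 + p.1 ^ 2, p.1)
  left_inv p := by simp
  right_inv p := by simp

theorem conv_sum {K : Type} [RCLike K] {f g : ℚ → K} (hf : Summable fun a => ‖f a‖)
    (hg : Summable fun a => ‖g a‖) : (∀ n, Summable fun a => f a * g (n - a ^ 2)) ∧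
    HasSum (fun n => ∑' a, f a * g (n - a ^ 2)) ((∑' a, f a) * ∑' a, g a) := by
  have h1 := summable_mul_of_summable_norm hf hg
  have h2 : HasSum ((fun p : ℚ × ℚ => f p.1 * g p.2) ∘ sqE) ((∑' a, f a) * ∑' a, g a) := by
    rw [sqE.hasSum_iff, tsum_mul_tsum_of_summable_norm hf hg]; exact h1.hasSum
  have h3 : ∀ n, Summable fun a => f a * g (n - a ^ 2) := fun n => h2.summable.prod_factor n
  exact ⟨h3, h2.prod_fiberwise fun n => (h3 n).hasSum⟩

theorem e_split (n a : ℚ) (z : ℂ) :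
    e (n * z) = e ((a : ℂ) ^ 2 * z) * e (((n - a ^ 2 : ℚ) : ℂ) * z) := by
  rw [← e_add]; congr 1; push_cast; ring

/-- the coefficients of the product with a theta series -/
theorem term_eq {h P ψ : ℚ → ℂ} {n : ℚ}
    (hP : (Function.support fun a : ℚ => ψ a * h (n - a ^ 2)).Finite ∧
      P n = ∑ᶠ a : ℚ, ψ a * h (n - a ^ 2)) (z : ℂ) :
    P n * e (n * z) = ∑' a : ℚ, (ψ a * e ((a : ℂ) ^ 2 * z)) *
      (h (n - a ^ 2) * e (((n - a ^ 2 : ℚ) : ℂ) * z)) := by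
  rw [hP.2, ← tsum_eq_finsum (L := SummationFilter.unconditional ℚ) hP.1, ← tsum_mul_right]
  refine tsum_congr fun a => ?_
  rw [e_split n a z]; ring

theorem qs_mul {h P ψ : ℚ → ℂ} (hψ : SB ψ) (hh : Conv h)
    (hP : ∀ n, (Function.support fun a : ℚ => ψ a * h (n - a ^ 2)).Finite ∧
      P n = ∑ᶠ a : ℚ, ψ a * h (n - a ^ 2)) (τ : ℍ) : qs P τ = th ψ τ * qs h τ := by
  have := (conv_sum (summable_th hψ τ.im_pos) (hh τ)).2.tsum_eq
  rw [th, qs, qs, ← this]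
  exact tsum_congr fun n => term_eq (hP n) τ

/-- division by a theta series preserves convergence -/
theorem summable_of_mul {h P ψ : ℚ → ℂ} (hψ : SB ψ) {z : ℂ} (hz : 0 < z.im) (h0 : ψ 0 = 1)
    (hs : ∑' a : ℚ, (if a = 0 then 0 else ‖ψ a * e ((a : ℂ) ^ 2 * z)‖) ≤ 1 / 2)
    (hfin : ∀ B : ℚ, {m | m ≤ B ∧ h m ≠ 0}.Finite)
    (hP : ∀ n, (Function.support fun a : ℚ => ψ a * h (n - a ^ 2)).Finite ∧
      P n = ∑ᶠ a : ℚ, ψ a * h (n - a ^ 2))
    (hc : Summable fun n : ℚ => ‖P n * e (n * z)‖) :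
    Summable fun n : ℚ => ‖h n * e (n * z)‖ := by
  classical
  set t : ℚ → ℝ := fun a => if a = 0 then 0 else ‖ψ a * e ((a : ℂ) ^ 2 * z)‖ with ht
  have t0 : ∀ a, 0 ≤ t a := fun a => by simp only [ht]; positivity
  have h1 := summable_th hψ hz
  have h2 : Summable t :=
    Summable.of_nonneg_of_le t0 (fun a => by
      simp only [ht]; split_ifs; exacts [norm_nonneg _, le_rfl]) h1
  refine summable_of_sum_le (c := 2 * ∑' n : ℚ, ‖P n * e (n * z)‖) (fun _ => norm_nonneg _)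
    fun s => ?_
  obtain ⟨B, hB⟩ := s.exists_le
  set H : ℚ → ℝ := fun m => if m ≤ B then ‖h m * e (m * z)‖ else 0 with hH
  have H0 : ∀ m, 0 ≤ H m := fun m => by simp only [hH]; positivity
  have h3 : Summable H := by
    refine summable_of_hasFiniteSupport ((hfin B).subset fun m hm => ?_)
    simp only [hH, Function.mem_support] at hm
    by_cases hm' : m ≤ B
    · refine ⟨hm', fun h' => hm ?_⟩
      simp [h']
    · simp [hm'] at hm
  obtain ⟨h4, h5⟩ := conv_sum (K := ℝ) (f := t) (g := H) h2.norm h3.norm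
  have h6 : ∀ n, H n ≤ ‖P n * e (n * z)‖ + ∑' a, t a * H (n - a ^ 2) := by
    intro n
    by_cases hn : n ≤ B
    · have hsum : Summable fun a : ℚ => (ψ a * e ((a : ℂ) ^ 2 * z)) *
          (h (n - a ^ 2) * e (((n - a ^ 2 : ℚ) : ℂ) * z)) := by
        refine summable_of_hasFiniteSupport ((hP n).1.subset fun a ha => ?_)
        simp only [Function.mem_support] at ha ⊢
        intro h'
        apply ha
        rw [mul_mul_mul_comm, h', zero_mul]
      have e1 := term_eq (hP n) z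
      rw [hsum.tsum_eq_add_tsum_ite 0, h0] at e1
      simp only [Rat.cast_zero, ne_eq, OfNat.ofNat_ne_zero, not_false_eq_true, zero_pow, zero_mul,
        e_zero, mul_one, one_mul, sub_zero] at e1
      have e2 := tsum_of_norm_bounded
        (f := fun a : ℚ => if a = 0 then 0 else (ψ a * e ((a : ℂ) ^ 2 * z)) *
          (h (n - a ^ 2) * e (((n - a ^ 2 : ℚ) : ℂ) * z))) (h4 n).hasSum (fun a => by
            have : n - a ^ 2 ≤ B := by nlinarith [sq_nonneg a]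
            simp only [ht, hH, if_pos this]
            split_ifs
            · simp
            · exact (norm_mul _ _).le)
      simp only [hH, if_pos hn]
      rw [← sub_eq_iff_eq_add] at e1
      rw [← e1]
      exact (norm_sub_le _ _).trans (by gcongr)
    · simp only [hH, if_neg hn]
      exact add_nonneg (norm_nonneg _) (tsum_nonneg fun a => mul_nonneg (t0 a) (H0 (n - a ^ 2)))
  have h7 := hasSum_le h6 h3.hasSum (hc.hasSum.add h5)
  have h8 : ∑ x ∈ s, ‖h x * e (x * z)‖ ≤ ∑' a, H a := by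
    refine le_trans (le_of_eq (Finset.sum_congr rfl fun x hx => ?_))
      (h3.sum_le_tsum s fun m _ => H0 m)
    simp only [hH, if_pos (hB x hx)]
  have h9 : 0 ≤ ∑' a, H a := tsum_nonneg H0
  have h10 : (∑' a, t a) * ∑' a, H a ≤ 1 / 2 * ∑' a, H a := mul_le_mul_of_nonneg_right hs h9
  linarith

/-! ### supports -/

theorem supp_gam {u : ℍ → ℂ} {ω : Q3 → ℂ} {M : ℕ} (h : Lev M ω) {m : ℚ} (hm : gam u ω m ≠ 0) :
    0 < m ∧ ∃ k : ℤ, (M : ℚ) ^ 2 * m = k := by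
  obtain ⟨h0, Y, rfl, hY⟩ := gam_supp hm
  obtain ⟨⟨a, ha⟩, ⟨b, hb⟩, ⟨c, hc⟩⟩ := h.2 Y hY
  refine ⟨h0, a * c - b ^ 2, ?_⟩
  simp only [Int.coe_castAddHom, Prod.smul_fst, Prod.smul_snd, smul_eq_mul] at ha hb hc
  push_cast
  rw [ha, hb, hc, q3]; ring

theorem fin_gam {u : ℍ → ℂ} {ω : Q3 → ℂ} (h : SB ω) (B : ℚ) :
    {m | m ≤ B ∧ gam u ω m ≠ 0}.Finite := by
  obtain ⟨M, hM, hl⟩ := h
  have hM' : (0 : ℚ) < (M : ℚ) ^ 2 := by positivity
  refine ((Set.finite_Icc (0 : ℤ) ⌊(M : ℚ) ^ 2 * B⌋).image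
    fun k : ℤ => (k : ℚ) / (M : ℚ) ^ 2).subset fun m hm => ?_
  obtain ⟨h0, k, hk⟩ := supp_gam hl hm.2
  refine ⟨k, ⟨?_, Int.le_floor.2 ?_⟩, ?_⟩
  · have : (0 : ℚ) ≤ k := by rw [← hk]; positivity
    exact_mod_cast this
  · rw [← hk]; exact mul_le_mul_of_nonneg_left hm.1 hM'.le
  · simp only [← hk]; field_simp

theorem low_gam {u : ℍ → ℂ} {ω : Q3 → ℂ} (h : SB ω) :
    ∃ δ : ℚ, 0 < δ ∧ ∀ m, gam u ω m ≠ 0 → δ ≤ m := by
  obtain ⟨M, hM, hl⟩ := h
  have hM' : (0 : ℚ) < (M : ℚ) ^ 2 := by positivity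
  refine ⟨1 / (M : ℚ) ^ 2, by positivity, fun m hm => ?_⟩
  obtain ⟨h0, k, hk⟩ := supp_gam hl hm
  have h1 : (0 : ℚ) < k := by rw [← hk]; positivity
  have h2 : (1 : ℤ) ≤ k := by exact_mod_cast h1
  have h3 : (1 : ℚ) ≤ k := by exact_mod_cast h2
  rw [div_le_iff₀ hM']; linarith

/-! ### splitting off the trace -/

def trE : (Q3 × ℚ) ≃ₗ[ℚ] M2 where
  toFun p := tz p.1 + p.2 • (1 : M2)
  invFun Y := (co (Y - (Y.trace / 2) • (1 : M2)), Y.trace / 2)
  map_add' p q := by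
    ext i j; fin_cases i <;> fin_cases j <;> simp [tz] <;> ring
  map_smul' c p := by
    ext i j; fin_cases i <;> fin_cases j <;> simp [tz] <;> ring
  left_inv p := by
    ext <;> simp [tz, co, Matrix.trace_fin_two]
  right_inv Y := by
    ext i j; fin_cases i <;> fin_cases j <;> simp [tz, co, Matrix.trace_fin_two]
    ring

def phi (ω : Q3 → ℂ) (ψ : ℚ → ℂ) (Y : M2) : ℂ := ω (trE.symm Y).1 * ψ (trE.symm Y).2

theorem sb_phi {ω : Q3 → ℂ} {ψ : ℚ → ℂ} (h : SB ω) (h' : SB ψ) : SB (phi ω ψ) :=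
  (h.tensor h').comp_inj trE.symm.toLinearMap trE.symm.injective

theorem bil_trE (p q : Q3 × ℚ) : bil (trE p) (trE q) = bil3 p.1 q.1 + 2 * p.2 * q.2 := by
  simp [trE, bil, bil3, tz]; ring

/-- the linear form `bil3 · Z` -/
def l3 (Z : Q3) : Q3 →ₗ[ℚ] ℚ where
  toFun Y := -bil3 Y Z
  map_add' p q := by simp [bil3]; ring
  map_smul' c p := by simp [bil3]; ring

def l1 (s z : ℚ) : ℚ →ₗ[ℚ] ℚ where
  toFun x := s * x * z
  map_add' p q := by ring
  map_smul' c p := by simp; ring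

theorem II_tensor {W W' : Type} [AddCommGroup W] [Module ℚ W] [Lat W] [AddCommGroup W']
    [Module ℚ W'] [Lat W'] {φ : W → ℂ} {ψ : W' → ℂ} (h : SB φ) (h' : SB ψ) :
    II (fun p : W × W' => φ p.1 * ψ p.2) = II φ * II ψ := by
  rw [II_prod (h.tensor h')]
  simp only [II_const_mul]
  rw [mul_comm, ← II_const_mul]
  simp only [mul_comm]

theorem II_F3_F1 {ω : Q3 → ℂ} {ψ : ℚ → ℂ} (h : SB ω) (h' : SB ψ) (s : ℚ) (q : Q3 × ℚ) :
    II (fun p : Q3 × ℚ => ω p.1 * ψ p.2 * eq (-bil3 p.1 q.1 + s * p.2 * q.2)) =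
      F3 ω q.1 * F1 s ψ q.2 := by
  refine Eq.trans ?_ (II_tensor (h.mul_eq (l3 q.1)) (h'.mul_eq (l1 s q.2)))
  congr 1
  ext p
  rw [eq_add]
  exact mul_mul_mul_comm _ _ _ _

theorem FV_phi : ∃ c : ℝ, 0 < c ∧ ∀ (ω : Q3 → ℂ) (ψ : ℚ → ℂ), SB ω → SB ψ →
    FV (phi ω ψ) = (c : ℂ) • phi (F3 ω) (F1 (-2) ψ) := by
  obtain ⟨c, hc, H⟩ := II_equiv trE.symm
  refine ⟨c, hc, fun ω ψ h h' => funext fun Z => ?_⟩
  obtain ⟨q, rfl⟩ := trE.surjective Z
  have hs : SB fun p : Q3 × ℚ => ω p.1 * ψ p.2 * eq (-bil3 p.1 q.1 + (-2) * p.2 * q.2) :=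
    (h.tensor h').mul_eq ((l3 q.1).coprod (l1 (-2) q.2))
  have := H _ hs
  rw [II_F3_F1 h h'] at this
  simp only [phi, Pi.smul_apply, smul_eq_mul, LinearEquiv.symm_apply_apply]
  rw [← this, FV]
  congr 1
  ext Y
  obtain ⟨p, rfl⟩ := trE.surjective Y
  simp only [phi, LinearEquiv.symm_apply_apply, bil_trE]
  congr 2
  ring

theorem G1_phi {u : ℍ → ℂ} (hu : Rec u) {ω : Q3 → ℂ} {ψ : ℚ → ℂ} (h : SB ω) (h' : SB ψ) (n : ℚ) :
    (Function.support fun a : ℚ => ψ a * gam u ω (n - a ^ 2)).Finite ∧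
      G1 u (phi ω ψ) n = ∑ᶠ a : ℚ, ψ a * gam u ω (n - a ^ 2) :=
  G1_eq_sum_gam hu.hasLev h h' n

theorem conv_gam (H : S_G1) {u : ℍ → ℂ} (hu : Rec u) {ω : Q3 → ℂ} (h : SB ω) :
    Conv (gam u ω) := fun τ => by
  obtain ⟨ψ, hψ, h0, hs⟩ := exists_small (z := τ) τ.im_pos
  exact summable_of_mul hψ τ.im_pos h0 hs (fin_gam h) (G1_phi hu h hψ)
    ((H u hu _ (sb_phi h hψ)).1 τ)

theorem hS' (H : S_G1) : S_H := by
  obtain ⟨c, hc, hF⟩ := FV_phi
  refine ⟨c * √2, by positivity, fun u hu ω h => ⟨conv_gam H hu h, fun τ => ?_⟩⟩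
  obtain ⟨ψ, hψ, h0, hs⟩ := exists_small (z := (ModularGroup.S • τ : ℍ))
    (ModularGroup.S • τ : ℍ).im_pos
  have hψ' : SB (F1 (-2) ψ) := hψ.sb_F1 (by norm_num)
  have hne := th_ne_zero hψ (ModularGroup.S • τ : ℍ).im_pos h0 hs
  have e1 := (H u hu _ (sb_phi h hψ)).2 τ
  have e2 : G1 u (FV (phi ω ψ)) = (c : ℂ) • G1 u (phi (F3 ω) (F1 (-2) ψ)) := by
    rw [hF ω ψ h hψ]; exact funext fun n => G1_smul _ _ n
  rw [e2, (Conv.smul _ (H u hu _ (sb_phi h.sb_F3 hψ')).1).2, Pi.smul_apply, smul_eq_mul,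
    qs_mul hψ (conv_gam H hu h) (G1_phi hu h hψ),
    qs_mul hψ' (conv_gam H hu h.sb_F3) (G1_phi hu h.sb_F3 hψ')] at e1
  obtain ⟨s, hs0, hs⟩ := exists_sqrt τ
  have s0 : s ≠ 0 := fun h => by simp [h] at hs0
  have r0 : (0 : ℝ) < √2 := by positivity
  have r1 : ((√2 : ℝ) : ℂ) ^ 2 = 2 := by
    rw [← ofReal_pow, Real.sq_sqrt (by norm_num)]; norm_num
  have r2 : ((√2 : ℝ) : ℂ) ≠ 0 := by exact_mod_cast r0.ne'
  have e3 : 2 * I / (τ : ℂ) = (((√2 : ℝ) : ℂ) / s) ^ 2 := by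
    rw [div_pow, r1, hs]
    have := τ.ne_zero
    field_simp
    linear_combination I_sq
  rw [coe_S, th_poisson hψ τ.im_pos, e3, cp_neg_half (re_div_pos r0 hs0)] at e1 hne
  rw [← hs, cp_half hs0]
  have hne' := right_ne_zero_of_mul hne
  push_cast
  field_simp at e1
  linear_combination e1

end HJFP

end

end Pool.Agent.P.MP_b8021b_nt.CM
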