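import Pool.Agent.P.MP_b8021b_nt.CM.Arith

/-! Library L4: the mean on the upper half plane. -/

namespace Pool.Agent.P.MP_b8021b_nt.CM

open UpperHalfPlane hiding I
open CongruenceSubgroup Function MeasureTheory
open scoped MatrixGroups Modular ENNReal

noncomputable section

variable {w w' : ℍ → ℂ}

namespace HM

instance : Countable GQ :=
  Function.Injective.countable (f := fun g : GQ => fun i j => g.1 i j)
    (fun _ _ h => Units.ext (funext fun i => funext fun j => congrFun (congrFun h i) j))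

instance : Countable SL := iota_injective.countable

theorem mp_actH (g : GQ) : MeasurePreserving (actH g) volume volume :=
  measurePreserving_smul (toR g) (volume : Measure ℍ)

theorem mp_SL (γ : SL) : MeasurePreserving (fun τ : ℍ => γ • τ) volume volume := by
  have := mp_actH (iota γ)
  convert this using 1
  funext τ
  exact (actH_iota γ τ).symm

theorem intg_act {f : ℍ → ℂ} (hf : Integrable f) (g : GQ) : Integrable fun τ => f (actH g τ) :=
  (mp_actH g).integrable_comp_of_integrable hf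

theorem meas_act {E : Type} [MeasurableSpace E] {f : ℍ → E} (hf : Measurable f) (g : GQ) :
    Measurable fun τ => f (actH g τ) :=
  hf.comp (mp_actH g).measurable

section gen
variable {Γ : Type} [Group Γ] [Countable Γ] (ρ : Γ →* Equiv.Perm ℍ)
  (hρ : ∀ γ, MeasurePreserving (ρ γ) volume volume)
include hρ

omit [Countable Γ] in
theorem shift_l {β f : ℍ → ℝ≥0∞} (hβ : Measurable β) (hf : Measurable f) (γ : Γ) :
    ∫⁻ τ, β τ * f (ρ γ τ) = ∫⁻ τ, β (ρ γ⁻¹ τ) * f τ := by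
  rw [← (hρ γ).lintegral_comp (f := fun τ => β (ρ γ⁻¹ τ) * f τ)
    ((hβ.comp (hρ _).measurable).mul hf)]
  simp

omit [Countable Γ] in
theorem int_comp {f : ℍ → ℂ} (hf : Measurable f) (γ : Γ) : ∫ τ, f (ρ γ τ) = ∫ τ, f τ := by
  conv_rhs => rw [← (hρ γ).map_eq]
  rw [integral_map (hρ γ).measurable.aemeasurable hf.aestronglyMeasurable]

theorem unf_l {β f : ℍ → ℝ≥0∞} (hβ : Measurable β) (hf : Measurable f) :
    ∫⁻ τ, β τ * ∑' γ, f (ρ γ τ) = ∫⁻ τ, (∑' γ, β (ρ γ τ)) * f τ := by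
  simp_rw [← ENNReal.tsum_mul_left, ← ENNReal.tsum_mul_right]
  have m1 : ∀ γ, Measurable fun τ => β τ * f (ρ γ τ) :=
    fun γ => hβ.mul (hf.comp (hρ γ).measurable)
  have m2 : ∀ γ, Measurable fun τ => β (ρ γ τ) * f τ :=
    fun γ => (hβ.comp (hρ γ).measurable).mul hf
  rw [lintegral_tsum fun γ => (m1 γ).aemeasurable, lintegral_tsum fun γ => (m2 γ).aemeasurable,
    ← (Equiv.inv Γ).tsum_eq]
  refine tsum_congr fun γ => ?_
  rw [shift_l ρ hρ hβ hf]
  simp

theorem unf_l1 {β : ℍ → ℝ} (hβ : Measurable β) (h0 : ∀ τ, 0 ≤ β τ)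
    (h1 : ∀ τ, HasSum (fun γ => β (ρ γ τ)) 1) {f : ℍ → ℝ≥0∞} (hf : Measurable f) :
    ∫⁻ τ, ENNReal.ofReal (β τ) * ∑' γ, f (ρ γ τ) = ∫⁻ τ, f τ := by
  rw [unf_l ρ hρ hβ.ennreal_ofReal hf]
  refine lintegral_congr fun τ => ?_
  rw [← ENNReal.ofReal_tsum_of_nonneg (fun _ => h0 _) (h1 τ).summable, (h1 τ).tsum_eq]
  simp

theorem unf {β : ℍ → ℝ} (hβ : Measurable β) (h0 : ∀ τ, 0 ≤ β τ)
    (h1 : ∀ τ, HasSum (fun γ => β (ρ γ τ)) 1) {f : ℍ → ℂ} (hm : Measurable f)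
    (hf : Integrable f) :
    Integrable (fun τ => (β τ : ℂ) * ∑' γ, f (ρ γ τ)) ∧
      ∫ τ, (β τ : ℂ) * ∑' γ, f (ρ γ τ) = ∫ τ, f τ := by
  have hβ' : Measurable fun τ => (β τ : ℂ) := Complex.measurable_ofReal.comp hβ
  have hen : ∀ τ (z : ℂ), ‖(β τ : ℂ) * z‖ₑ = ENNReal.ofReal (β τ) * ‖z‖ₑ := fun τ z => by
    rw [enorm_mul, ← ofReal_norm (β τ : ℂ), Complex.norm_real, Real.norm_of_nonneg (h0 τ)]
  have key := unf_l1 ρ hρ hβ h0 h1 hm.enorm
  have hfin : ∫⁻ τ, ‖f τ‖ₑ ≠ ⊤ := hf.2.ne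
  have m1 : ∀ γ, Measurable fun τ => (β τ : ℂ) * f (ρ γ τ) :=
    fun γ => hβ'.mul (hm.comp (hρ γ).measurable)
  have m2 : ∀ γ, Measurable fun τ => (β (ρ γ τ) : ℂ) * f τ :=
    fun γ => (hβ'.comp (hρ γ).measurable).mul hm
  refine ⟨⟨(hβ'.mul (Measurable.tsum fun γ => hm.comp (hρ γ).measurable)).aestronglyMeasurable,
    lt_of_le_of_lt (lintegral_mono fun τ => ?_) (key.trans_lt hf.2)⟩, ?_⟩
  · rw [hen]
    exact mul_le_mul_right enorm_tsum_le_tsum_enorm _
  · have e1 : ∑' γ, ∫⁻ τ, ‖(β τ : ℂ) * f (ρ γ τ)‖ₑ = ∫⁻ τ, ‖f τ‖ₑ := by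
      rw [← lintegral_tsum fun γ => (m1 γ).enorm.aemeasurable, ← key]
      simp_rw [hen, ENNReal.tsum_mul_left]
    have e2 : ∑' γ, ∫⁻ τ, ‖(β (ρ γ τ) : ℂ) * f τ‖ₑ = ∫⁻ τ, ‖f τ‖ₑ := by
      rw [← lintegral_tsum fun γ => (m2 γ).enorm.aemeasurable]
      refine lintegral_congr fun τ => ?_
      simp_rw [hen, ENNReal.tsum_mul_right]
      rw [← ENNReal.ofReal_tsum_of_nonneg (fun _ => h0 _) (h1 τ).summable, (h1 τ).tsum_eq]
      simp
    have e3 : ∀ τ, f τ = ∑' γ, (β (ρ γ τ) : ℂ) * f τ := fun τ => by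
      rw [tsum_mul_right, ← Complex.ofReal_tsum, (h1 τ).tsum_eq]
      simp
    simp_rw [← tsum_mul_left]
    conv_rhs => rw [funext e3]
    rw [integral_tsum (fun γ => (m1 γ).aestronglyMeasurable) (e1 ▸ hfin),
      integral_tsum (fun γ => (m2 γ).aestronglyMeasurable) (e2 ▸ hfin), ← (Equiv.inv Γ).tsum_eq]
    refine tsum_congr fun γ => ?_
    rw [← int_comp ρ hρ (m1 _) γ]
    simp

end gen

/-- the action of a subgroup -/
def rG (Γ : Subgroup GQ) : Γ →* Equiv.Perm ℍ := actH.comp Γ.subtype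

theorem hasSum_b0 (τ : ℍ) : HasSum (fun γ : SL => b0 (γ • τ)) 1 := by
  have hf : (support fun γ : SL => b0 (γ • τ)).Finite :=
    (finite_toD τ).subset fun γ h => (b0_ne_zero_iff _).1 h
  rw [← b0_sum τ, ← tsum_eq_finsum (L := .unconditional _) hf]
  exact (summable_of_hasFiniteSupport hf).hasSum

theorem measurableSet_D : MeasurableSet 𝒟 := ModularGroup.isClosed_fd.measurableSet

/-- independence of the weight -/
theorem indep {Γ : Subgroup GQ} {β β' : ℍ → ℝ} (h : HAdm Γ β w) (hm : Measurable β')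
    (h0 : ∀ τ, 0 ≤ β' τ) (h1 : ∀ τ, HasSum (fun γ : Γ => β' (actH γ τ)) 1) :
    HAdm Γ β' w ∧ ∫ τ, (β' τ : ℂ) * w τ = ∫ τ, (β τ : ℂ) * w τ := by
  obtain ⟨a1, a2, a3, a4, a5, a6, a7⟩ := h
  have key := unf (rG Γ) (fun γ => mp_actH γ) hm h0 h1 (f := fun τ => (β τ : ℂ) * w τ)
    ((Complex.measurable_ofReal.comp a4).mul a3) a7
  have e : ∀ τ, ∑' γ : Γ, (β (rG Γ γ τ) : ℂ) * w (rG Γ γ τ) = w τ := fun τ => by
    have : ∀ γ : Γ, w (rG Γ γ τ) = w τ := fun γ => a2 γ γ.2 τ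
    simp_rw [this]
    rw [tsum_mul_right, ← Complex.ofReal_tsum]
    have := (a6 τ).tsum_eq
    change ∑' γ : Γ, β (rG Γ γ τ) = 1 at this
    rw [this]
    simp
  simp only [e] at key
  exact ⟨⟨a1, a2, a3, hm, h0, h1, key.1⟩, key.2⟩

theorem hasSum_fin {A ι : Type} (R : Finset ι) {F : A × R → ℝ} {a : ℝ} (h : HasSum F a) :
    HasSum (fun γ : A => ∑ r : R, F (γ, r)) a :=
  h.prod_fiberwise fun _ => hasSum_fintype _

/-- passage to a smaller group -/
theorem sub {Γ Γ' : Subgroup GQ} {β : ℍ → ℝ} (h : HAdm Γ β w) (hle : Γ' ≤ Γ) (hf : FI Γ' G0) :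
    ∃ β', HAdm Γ' β' w ∧
      ∫ τ, (β' τ : ℂ) * w τ = (Γ'.relIndex Γ : ℂ) * ∫ τ, (β τ : ℂ) * w τ := by
  obtain ⟨a1, a2, a3, a4, a5, a6, a7⟩ := h
  have hfi : FI Γ' Γ := ⟨hle, fun h0 => hf.2 (by
    rw [← Subgroup.relIndex_mul_relIndex Γ' Γ G0 hle a1.1, h0, zero_mul])⟩
  obtain ⟨R, hR, hc, hu⟩ := hfi.exists_reps
  have hw : ∀ r ∈ R, (fun τ => (β (actH r⁻¹ τ) : ℂ) * w τ) =
      fun τ => (β (actH r⁻¹ τ) : ℂ) * w (actH r⁻¹ τ) := fun r hr => funext fun τ => by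
    rw [a2 r⁻¹ (Γ.inv_mem (hR r hr)) τ]
  have hm : Measurable fun σ => (β σ : ℂ) * w σ := (Complex.measurable_ofReal.comp a4).mul a3
  have hi : ∀ r ∈ R, Integrable fun τ => (β (actH r⁻¹ τ) : ℂ) * w τ := fun r hr => by
    rw [hw r hr]
    exact intg_act a7 r⁻¹
  have he : ∀ τ, ((∑ r ∈ R, β (actH r⁻¹ τ) : ℝ) : ℂ) * w τ =
      ∑ r ∈ R, (β (actH r⁻¹ τ) : ℂ) * w τ := fun τ => by
    push_cast
    rw [Finset.sum_mul]
  refine ⟨fun τ => ∑ r ∈ R, β (actH r⁻¹ τ), ⟨hf, a2.mono hle, a3,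
    Finset.measurable_sum _ fun r _ => meas_act a4 _,
    fun τ => Finset.sum_nonneg fun r _ => a5 _, fun τ => ?_, ?_⟩, ?_⟩
  · let φ : Γ' × R → Γ := fun p =>
      ⟨p.2.1⁻¹ * p.1.1, Γ.mul_mem (Γ.inv_mem (hR _ p.2.2)) (hle p.1.2)⟩
    have hb : Bijective φ := by
      constructor
      · rintro ⟨γ, r⟩ ⟨γ', r'⟩ e
        have e' : r.1⁻¹ * γ.1 = r'.1⁻¹ * γ'.1 := congrArg Subtype.val e
        obtain ⟨x, -, hx⟩ := hu (γ.1⁻¹ * r.1) (Γ.mul_mem (Γ.inv_mem (hle γ.2)) (hR _ r.2))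
        have h1 : r.1 = x := hx _ ⟨r.2, by simp⟩
        have h2 : r'.1 = x := hx _ ⟨r'.2, by
          have : γ.1⁻¹ * r.1 = γ'.1⁻¹ * r'.1 := by
            rw [← inv_inj]; simpa using e'
          rw [this]; simp⟩
        have h3 : r = r' := Subtype.ext (h1.trans h2.symm)
        subst h3
        rw [Subtype.ext (mul_left_cancel e')]
      · intro g
        obtain ⟨r, ⟨hr, hg⟩, -⟩ := hu g.1⁻¹ (Γ.inv_mem g.2)
        refine ⟨(⟨r * g.1, by simpa using Γ'.inv_mem hg⟩, ⟨r, hr⟩), Subtype.ext ?_⟩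
        simp [φ]
    have := hasSum_fin R (((Equiv.ofBijective φ hb).hasSum_iff).2 (a6 τ))
    convert this using 2 with γ
    beta_reduce
    rw [← Finset.sum_coe_sort R]
    refine Finset.sum_congr rfl fun r _ => ?_
    simp [φ]
  · simp_rw [he]
    exact integrable_finsetSum _ hi
  · simp_rw [he]
    rw [integral_finsetSum _ hi, ← hc, Finset.sum_congr rfl fun r hr => ?_, Finset.sum_const,
      nsmul_eq_mul]
    rw [hw r hr]
    exact int_comp actH mp_actH hm r⁻¹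

theorem cmp {Γ Γ' : Subgroup GQ} {β β' : ℍ → ℝ} (h : HAdm Γ β w) (h' : HAdm Γ' β' w) :
    (∫ τ, (β τ : ℂ) * w τ) / (Γ.relIndex G0 : ℂ) =
      (∫ τ, (β' τ : ℂ) * w τ) / (Γ'.relIndex G0 : ℂ) := by
  have hf := h.1.inf h'.1
  obtain ⟨b, hb, e⟩ := sub h inf_le_left hf
  obtain ⟨b', hb', e'⟩ := sub h' inf_le_right hf
  have e2 := (indep hb hb'.2.2.2.1 hb'.2.2.2.2.1 hb'.2.2.2.2.2.1).2
  have i1 := Subgroup.relIndex_mul_relIndex (Γ ⊓ Γ') Γ G0 inf_le_left h.1.1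
  have i2 := Subgroup.relIndex_mul_relIndex (Γ ⊓ Γ') Γ' G0 inf_le_right h'.1.1
  have n1 : (Γ.relIndex G0 : ℂ) ≠ 0 := Nat.cast_ne_zero.2 h.1.2
  have n2 : (Γ'.relIndex G0 : ℂ) ≠ 0 := Nat.cast_ne_zero.2 h'.1.2
  have n3 : (((Γ ⊓ Γ').relIndex Γ : ℕ) : ℂ) ≠ 0 :=
    Nat.cast_ne_zero.2 fun h0 => hf.2 (by rw [← i1, h0, zero_mul])
  have i3 : (((Γ ⊓ Γ').relIndex Γ : ℕ) : ℂ) * (Γ.relIndex G0 : ℂ) =
      (((Γ ⊓ Γ').relIndex Γ' : ℕ) : ℂ) * (Γ'.relIndex G0 : ℂ) := by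
    exact_mod_cast i1.trans i2.symm
  rw [e, e'] at e2
  rw [div_eq_div_iff n1 n2]
  apply mul_left_cancel₀ n3
  linear_combination (-(Γ'.relIndex G0 : ℂ)) * e2 - (∫ τ, (β' τ : ℂ) * w τ) * i3

/-- a common admissible pair -/
theorem common (h : HGood w) (h' : HGood w') : ∃ Γ β, HAdm Γ β w ∧ HAdm Γ β w' := by
  obtain ⟨⟨Γ, β⟩, h⟩ := h
  obtain ⟨⟨Γ', β'⟩, h'⟩ := h'
  have hf := h.1.inf h'.1
  obtain ⟨b, hb, -⟩ := sub h inf_le_left hf
  obtain ⟨b', hb', -⟩ := sub h' inf_le_right hf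
  exact ⟨_, b', (indep hb hb'.2.2.2.1 hb'.2.2.2.2.1 hb'.2.2.2.2.2.1).1, hb'⟩

theorem adm_add {Γ : Subgroup GQ} {β : ℍ → ℝ} (h : HAdm Γ β w) (h' : HAdm Γ β w') :
    HAdm Γ β (w + w') := by
  obtain ⟨a1, a2, a3, a4, a5, a6, a7⟩ := h
  obtain ⟨-, b2, b3, -, -, -, b7⟩ := h'
  refine ⟨a1, fun γ hγ x => by simp only [Pi.add_apply, a2 γ hγ, b2 γ hγ], a3.add b3, a4, a5, a6,
    ?_⟩
  simp only [Pi.add_apply, mul_add]
  exact a7.add b7

theorem adm_smul {Γ : Subgroup GQ} {β : ℍ → ℝ} (c : ℂ) (h : HAdm Γ β w) : HAdm Γ β (c • w) := by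
  obtain ⟨a1, a2, a3, a4, a5, a6, a7⟩ := h
  refine ⟨a1, fun γ hγ x => by simp only [Pi.smul_apply, a2 γ hγ], a3.const_smul c, a4, a5, a6,
    ?_⟩
  simp only [Pi.smul_apply, smul_eq_mul, mul_left_comm _ c]
  exact a7.const_mul c

theorem adm_act {Γ : Subgroup GQ} {β : ℍ → ℝ} (h : HAdm Γ β w) (g : GQ) (hf : FI (cj g Γ) G0) :
    HAdm (cj g Γ) (fun τ => β (actH g τ)) fun τ => w (actH g τ) := by
  obtain ⟨a1, a2, a3, a4, a5, a6, a7⟩ := h
  have hmem : ∀ x, x ∈ cj g Γ ↔ g * x * g⁻¹ ∈ Γ := fun x => Iff.rfl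
  have hact : ∀ x τ, actH g (actH x τ) = actH (g * x * g⁻¹) (actH g τ) := fun x τ => by simp
  refine ⟨hf, fun γ hγ x => ?_, meas_act a3 g, meas_act a4 g,
    fun τ => a5 _, fun τ => ?_, intg_act a7 g⟩
  · simp only [hact]
    exact a2 _ hγ _
  · let φ : cj g Γ ≃ Γ :=
      { toFun := fun x => ⟨g * x * g⁻¹, x.2⟩
        invFun := fun y => ⟨g⁻¹ * y * g, by rw [hmem]; simp [mul_assoc]⟩
        left_inv := fun x => Subtype.ext (by simp [mul_assoc])
        right_inv := fun x => Subtype.ext (by simp [mul_assoc]) }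
    simp only [hact]
    exact φ.hasSum_iff.2 (a6 (actH g τ))

theorem b0_lower : ∃ C : ℝ, ∀ τ ∈ 𝒟, 1 ≤ C * b0 τ := by
  classical
  let A : Finset SL := open ModularGroup in {1, -1, T, -T, T⁻¹, -T⁻¹, S, -S, T * S, -(T * S),
    T⁻¹ * S * T⁻¹, -(T⁻¹ * S * T⁻¹), S * T⁻¹, -(S * T⁻¹), S * T, -(S * T), T * S * T,
    -(T * S * T), T⁻¹ * S, -(T⁻¹ * S)}
  refine ⟨A.card, fun τ h => ?_⟩
  have hs : {γ : SL | γ • τ ∈ 𝒟} ⊆ A := fun γ hγ => by
    simp only [A, Finset.coe_insert, Finset.coe_singleton, Set.mem_insert_iff,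
      Set.mem_singleton_iff]
    rcases ModularGroup.cases_of_mem_fd_smul_mem_fd h hγ with a | ⟨a, -⟩ | ⟨a, -⟩ | ⟨a, -⟩ |
      ⟨a, -⟩ | ⟨a, -⟩ | ⟨a, -⟩ | ⟨a, -⟩ | ⟨a, -⟩ | ⟨a, -⟩ <;> rcases a with a | a <;>
      simp only [a, true_or, or_true]
  have h1 : Nat.card {γ : SL // γ • τ ∈ 𝒟} ≤ A.card := by
    have := Set.ncard_le_ncard hs A.finite_toSet
    rwa [Set.ncard_coe_finset] at this
  have h2 : b0 τ ≠ 0 := (b0_ne_zero_iff τ).2 h
  simp only [b0, h, if_true, ne_eq, inv_eq_zero] at h2 ⊢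
  rw [← div_eq_mul_inv, one_le_div (lt_of_le_of_ne (Nat.cast_nonneg _) (Ne.symm h2))]
  exact_mod_cast h1

theorem intg_SL {E : Type} [NormedAddCommGroup E] {f : ℍ → E} (hf : Integrable f) (γ : SL) :
    Integrable fun τ => f (γ • τ) :=
  (mp_SL γ).integrable_comp_of_integrable hf

theorem meas_SL {E : Type} [MeasurableSpace E] {f : ℍ → E} (hf : Measurable f) (γ : SL) :
    Measurable fun τ => f (γ • τ) :=
  hf.comp (mp_SL γ).measurable

/-- the action of the modular group -/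
def rS : SL →* Equiv.Perm ℍ := MulAction.toPermHom SL ℍ

theorem wtH {Γ : Subgroup GQ} (h : FI Γ G0) : ∃ (R : Finset SL) (β : ℍ → ℝ),
    Measurable β ∧ (∀ τ, 0 ≤ β τ) ∧ (∀ τ, β τ = ∑ r ∈ R, b0 (r • τ)) ∧ R.card = Γ.relIndex G0 ∧
    ∀ τ, HasSum (fun γ : Γ => β (actH γ τ)) 1 := by
  obtain ⟨R, β, h1, h2, h3, h4, h5⟩ := exists_wtH h
  refine ⟨R, β, h1, h2, h3, h4, fun τ => ?_⟩
  rw [← (h5 τ).2, ← tsum_eq_finsum (L := .unconditional _) (h5 τ).1]
  exact (summable_of_hasFiniteSupport (h5 τ).1).hasSum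

end HM

open HM

theorem hmean_eq {Γ : Subgroup GQ} {β : ℍ → ℝ} (h : HAdm Γ β w) :
    hmean w = (∫ τ, (β τ : ℂ) * w τ) / (Γ.relIndex G0 : ℂ) := by
  have hg : HGood w := ⟨(Γ, β), h⟩
  rw [hmean, dif_pos hg]
  exact cmp hg.choose_spec h

theorem integrable_b0_iff (hm : Measurable w) :
    Integrable (fun τ => (b0 τ : ℂ) * w τ) ↔ IntegrableOn w 𝒟 := by
  rw [← integrable_indicator_iff measurableSet_D]
  have m1 : Measurable fun τ => (b0 τ : ℂ) * w τ :=
    (Complex.measurable_ofReal.comp measurable_b0).mul hm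
  constructor
  · intro h
    obtain ⟨C, hC⟩ := b0_lower
    refine (h.norm.const_mul |C|).mono' (hm.indicator measurableSet_D).aestronglyMeasurable
      (.of_forall fun τ => ?_)
    by_cases hτ : τ ∈ 𝒟
    · rw [Set.indicator_of_mem hτ, norm_mul, Complex.norm_real, Real.norm_of_nonneg (b0_nonneg τ),
        ← mul_assoc]
      exact le_mul_of_one_le_left (norm_nonneg _) ((hC τ hτ).trans
        (mul_le_mul_of_nonneg_right (le_abs_self C) (b0_nonneg τ)))
    · rw [Set.indicator_of_notMem hτ, norm_zero]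
      positivity
  · intro h
    refine h.norm.mono' m1.aestronglyMeasurable (.of_forall fun τ => ?_)
    by_cases hτ : τ ∈ 𝒟
    · rw [Set.indicator_of_mem hτ, norm_mul, Complex.norm_real, Real.norm_of_nonneg (b0_nonneg τ)]
      exact mul_le_of_le_one_left (norm_nonneg _) (b0_le_one τ)
    · rw [not_ne_iff.1 ((b0_ne_zero_iff τ).not.2 hτ)]
      simp

theorem hgood_of_integrableOn {N : ℕ} (hN : 0 < N) (hw : LevU N w) (hm : Measurable w)
    (h : ∀ γ : SL, IntegrableOn (fun τ => w (γ • τ)) 𝒟) : HGood w := by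
  obtain ⟨R, β, h1, h2, h3, -, h5⟩ := wtH (fi_Gam hN)
  suffices hi : Integrable fun τ => (β τ : ℂ) * w τ from
    ⟨(Gam N, β), (⟨fi_Gam hN, (levU_iff N w).1 hw, hm, h1, h2, h5, hi⟩ : HAdm (Gam N) β w)⟩
  have : (fun τ => (β τ : ℂ) * w τ) = fun τ => ∑ r ∈ R, (b0 (r • τ) : ℂ) * w (r⁻¹ • r • τ) := by
    funext τ
    simp only [h3, inv_smul_smul, Complex.ofReal_sum, Finset.sum_mul]
  have hi : ∀ r : SL, Integrable fun τ => (b0 (r • τ) : ℂ) * w (r⁻¹ • r • τ) := fun r =>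
    intg_SL ((integrable_b0_iff (meas_SL hm r⁻¹)).2 (h r⁻¹)) r
  rw [this]
  exact integrable_finsetSum R fun r _ => hi r

theorem norm_hmean_le (hw : HGood w) {B : ℍ → ℝ} (hB : IntegrableOn B 𝒟)
    (h : ∀ γ : SL, ∀ τ ∈ 𝒟, ‖w (γ • τ)‖ ≤ B τ) : ‖hmean w‖ ≤ ∫ τ in 𝒟, B τ := by
  obtain ⟨⟨Γ, β'⟩, hw⟩ := hw
  change HAdm Γ β' w at hw
  obtain ⟨R, β, h1, h2, h3, h4, h5⟩ := wtH hw.1
  have ha := (indep hw h1 h2 h5).1
  have hn : (0 : ℝ) < Γ.relIndex G0 := Nat.cast_pos.2 (Nat.pos_of_ne_zero hw.1.2)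
  rw [hmean_eq ha, norm_div, Complex.norm_natCast, div_le_iff₀ hn]
  have hi : Integrable (Set.indicator 𝒟 B) := (integrable_indicator_iff measurableSet_D).2 hB
  have hi' : ∀ r : SL, Integrable fun τ => Set.indicator 𝒟 B (r • τ) := intg_SL hi
  have he : ∀ r : SL, ∫ τ, Set.indicator 𝒟 B (r • τ) = ∫ τ in 𝒟, B τ := fun r => by
    rw [← integral_indicator measurableSet_D]
    conv_rhs => rw [← (mp_SL r).map_eq]
    rw [integral_map (mp_SL r).measurable.aemeasurable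
      (by rw [(mp_SL r).map_eq]; exact hi.aestronglyMeasurable)]
  have hb : ∀ τ, ‖(β τ : ℂ) * w τ‖ ≤ ∑ r ∈ R, Set.indicator 𝒟 B (r • τ) := fun τ => by
    rw [norm_mul, Complex.norm_real, Real.norm_of_nonneg (h2 τ), h3, Finset.sum_mul]
    apply Finset.sum_le_sum
    intro r _
    by_cases hτ : r • τ ∈ 𝒟
    · rw [Set.indicator_of_mem hτ]
      have := h r⁻¹ _ hτ
      rw [inv_smul_smul] at this
      exact (mul_le_of_le_one_left (norm_nonneg _) (b0_le_one _)).trans this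
    · rw [not_ne_iff.1 ((b0_ne_zero_iff _).not.2 hτ), Set.indicator_of_notMem hτ, zero_mul]
  have := norm_integral_le_of_norm_le (integrable_finsetSum R fun r _ => hi' r) (.of_forall hb)
  rw [integral_finsetSum R fun r _ => hi' r] at this
  simpa only [he, Finset.sum_const, nsmul_eq_mul, h4, mul_comm] using this

theorem hmean_level_one (hw : LevU 1 w) (hm : Measurable w) (h : IntegrableOn w 𝒟) :
    HGood w ∧ hmean w = ∫ τ, (b0 τ : ℂ) * w τ := by
  have ha : HAdm G0 b0 w := by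
    refine ⟨FI.refl _, Gam_one ▸ (levU_iff 1 w).1 hw, hm, measurable_b0, b0_nonneg, fun τ => ?_,
      (integrable_b0_iff hm).2 h⟩
    refine ((MonoidHom.ofInjective iota_injective).toEquiv.hasSum_iff).1 ?_
    convert hasSum_b0 τ using 2 with γ
    rw [← actH_iota]
    rfl
  refine ⟨⟨(G0, b0), ha⟩, ?_⟩
  rw [hmean_eq ha, Subgroup.relIndex_self]
  simp

theorem hgood_zero : HGood 0 :=
  (hmean_level_one (fun _ _ _ => rfl) measurable_zero integrableOn_zero).1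

theorem hmean_zero : hmean 0 = 0 := by
  rw [(hmean_level_one (fun _ _ _ => rfl) measurable_zero integrableOn_zero).2]
  simp

theorem HGood.add (h : HGood w) (h' : HGood w') : HGood (w + w') := by
  obtain ⟨Γ, β, a, b⟩ := common h h'
  exact ⟨(Γ, β), adm_add a b⟩

theorem HGood.smul (c : ℂ) (h : HGood w) : HGood (c • w) := by
  obtain ⟨p, h⟩ := h
  exact ⟨p, adm_smul c h⟩

theorem HGood.sum {ι : Type} (s : Finset ι) (f : ι → ℍ → ℂ) (h : ∀ i ∈ s, HGood (f i)) :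
    HGood (∑ i ∈ s, f i) :=
  Finset.sum_induction f HGood (fun _ _ => HGood.add) hgood_zero h

theorem hmean_add (h : HGood w) (h' : HGood w') : hmean (w + w') = hmean w + hmean w' := by
  obtain ⟨Γ, β, a, b⟩ := common h h'
  rw [hmean_eq a, hmean_eq b, hmean_eq (adm_add a b), ← add_div,
    ← integral_add a.2.2.2.2.2.2 b.2.2.2.2.2.2]
  simp only [Pi.add_apply, mul_add]

theorem hmean_smul (c : ℂ) (w : ℍ → ℂ) : hmean (c • w) = c * hmean w := by
  by_cases h : HGood w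
  · obtain ⟨p, h⟩ := h
    rw [hmean_eq h, hmean_eq (adm_smul c h), ← mul_div_assoc, ← integral_const_mul]
    simp only [Pi.smul_apply, smul_eq_mul, mul_left_comm _ c]
  · rcases eq_or_ne c 0 with rfl | hc
    · rw [zero_smul, hmean_zero, zero_mul]
    · have h' : ¬ HGood (c • w) := fun h' => h (by
        have := h'.smul c⁻¹
        rwa [smul_smul, inv_mul_cancel₀ hc, one_smul] at this)
      rw [hmean, hmean, dif_neg h, dif_neg h', mul_zero]

theorem hmean_sum {ι : Type} (s : Finset ι) (f : ι → ℍ → ℂ) (h : ∀ i ∈ s, HGood (f i)) :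
    hmean (∑ i ∈ s, f i) = ∑ i ∈ s, hmean (f i) := by
  classical
  induction s using Finset.induction_on with
  | empty => simpa using hmean_zero
  | insert a s ha ih =>
    have h' : ∀ i ∈ s, HGood (f i) := fun i hi => h i (Finset.mem_insert_of_mem hi)
    rw [Finset.sum_insert ha, Finset.sum_insert ha,
      hmean_add (h a (Finset.mem_insert_self a s)) (HGood.sum s f h'), ih h']

theorem HM.act_both (h : HGood w) (g : GQ) :
    HGood (fun τ => w (actH g τ)) ∧ hmean (fun τ => w (actH g τ)) = hmean w := by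
  obtain ⟨⟨Γ, β⟩, h⟩ := h
  obtain ⟨Γ', hle, h1, h2, h3⟩ := uni_G0 g Γ h.1
  obtain ⟨β', hb, -⟩ := sub h hle h1
  have ha := adm_act hb g h2
  refine ⟨⟨(_, _), ha⟩, ?_⟩
  rw [hmean_eq ha, hmean_eq hb, h3]
  congr 1
  exact int_comp actH mp_actH (f := fun τ => (β' τ : ℂ) * w τ)
    ((Complex.measurable_ofReal.comp hb.2.2.2.1).mul hb.2.2.1) g

theorem HGood.comp_act (h : HGood w) (g : GQ) : HGood fun τ => w (actH g τ) := (act_both h g).1

theorem hmean_act (w : ℍ → ℂ) (g : GQ) : hmean (fun τ => w (actH g τ)) = hmean w := by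
  by_cases h : HGood w
  · exact (act_both h g).2
  · have h' : ¬ HGood fun τ => w (actH g τ) := fun h' => h (by
      simpa using h'.comp_act g⁻¹)
    rw [hmean, hmean, dif_neg h, dif_neg h']

/-! ### unfolding -/

theorem unfold_lintegral {f : ℍ → ℝ≥0∞} (hf : Measurable f) :
    ∫⁻ τ, ENNReal.ofReal (b0 τ) * ∑' γ : SL, f (γ • τ) = ∫⁻ τ, f τ :=
  unf_l1 rS mp_SL measurable_b0 b0_nonneg hasSum_b0 hf

theorem unfold_integral {f : ℍ → ℂ} (hm : Measurable f) (hf : Integrable f) :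
    Integrable (fun τ => (b0 τ : ℂ) * ∑' γ : SL, f (γ • τ)) ∧
      ∫ τ, (b0 τ : ℂ) * ∑' γ : SL, f (γ • τ) = ∫ τ, f τ :=
  unf rS mp_SL measurable_b0 b0_nonneg hasSum_b0 hm hf

theorem HM.mp_coord : MeasurePreserving (fun τ : ℍ => (τ.re, τ.im))
    (volume.comap UpperHalfPlane.coe) (volume.prod (volume.restrict (Set.Ioi (0 : ℝ)))) := by
  have h1 : MeasurePreserving UpperHalfPlane.coe (volume.comap UpperHalfPlane.coe)
      (volume.restrict (.range UpperHalfPlane.coe)) :=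
    ⟨measurable_coe, by rw [measurableEmbedding_coe.map_comap]⟩
  have h2 := Complex.volume_preserving_equiv_real_prod.restrict_preimage
    (s := Set.univ ×ˢ Set.Ioi (0 : ℝ)) (MeasurableSet.univ.prod measurableSet_Ioi)
  have h3 : Complex.measurableEquivRealProd ⁻¹' (Set.univ ×ˢ Set.Ioi (0 : ℝ)) =
      .range UpperHalfPlane.coe := by
    ext z
    simp only [Set.mem_preimage, Complex.measurableEquivRealProd_apply, Set.mem_prod,
      Set.mem_univ, true_and, Set.mem_Ioi, Set.mem_range]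
    exact ⟨fun h => ⟨⟨z, h⟩, rfl⟩, fun ⟨τ, h⟩ => h ▸ τ.im_pos⟩
  rw [h3, Measure.volume_eq_prod, ← Measure.prod_restrict, Measure.restrict_univ] at h2
  exact h2.comp h1

theorem HM.meas_dens : Measurable fun y : ℝ => ENNReal.ofReal (1 / y ^ 2) := by fun_prop

theorem lintegral_coord {f : ℍ → ℝ≥0∞} (hf : Measurable f) :
    ∫⁻ τ, f τ = ∫⁻ y in Set.Ioi (0 : ℝ), (∫⁻ u : ℝ, f (pt u y)) * ENNReal.ofReal (1 / y ^ 2) := by
  have hp : Measurable fun p : ℝ × ℝ => f (pt p.1 p.2) := hf.comp measurable_pt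
  have hg : Measurable fun p : ℝ × ℝ => f (pt p.1 p.2) * ENNReal.ofReal (1 / p.2 ^ 2) :=
    hp.mul (HM.meas_dens.comp measurable_snd)
  have hd : (fun z : ℍ => (((1 / NNReal.mk z.im z.im_pos.le : NNReal) ^ 2 : NNReal) : ℝ≥0∞)) =
      fun z : ℍ => ENNReal.ofReal (1 / z.im ^ 2) := by
    funext z
    rw [← ENNReal.ofReal_coe_nnreal]
    simp
  have hd' : Measurable fun z : ℍ => ENNReal.ofReal (1 / z.im ^ 2) :=
    HM.meas_dens.comp continuous_im.measurable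
  rw [volume_def, hd, lintegral_withDensity_eq_lintegral_mul _ hd' hf]
  have := HM.mp_coord.lintegral_comp hg
  simp only [pt_self] at this
  simp only [Pi.mul_apply, mul_comm (ENNReal.ofReal _)]
  rw [this, lintegral_prod_symm _ hg.aemeasurable]
  refine lintegral_congr fun y => ?_
  have hq : Measurable fun u : ℝ => f (pt u y) := hp.comp (measurable_prodMk_right (y := y))
  exact lintegral_mul_const (ENNReal.ofReal (1 / y ^ 2)) hq

theorem HM.mp_pt : MeasurePreserving (fun p : ℝ × ℝ => pt p.1 p.2)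
    (volume.prod ((volume.restrict (Set.Ioi (0 : ℝ))).withDensity
      fun y => ENNReal.ofReal (1 / y ^ 2))) volume := by
  refine ⟨measurable_pt, Measure.ext fun s hs => ?_⟩
  have hi : Measurable (s.indicator (1 : ℍ → ℝ≥0∞)) := measurable_one.indicator hs
  have hp : Measurable fun p : ℝ × ℝ => s.indicator (1 : ℍ → ℝ≥0∞) (pt p.1 p.2) :=
    hi.comp measurable_pt
  rw [← lintegral_indicator_one hs, ← lintegral_indicator_one hs, lintegral_map hi measurable_pt,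
    lintegral_coord hi, lintegral_prod_symm _ hp.aemeasurable,
    lintegral_withDensity_eq_lintegral_mul _ HM.meas_dens hp.lintegral_prod_left']
  simp only [Pi.mul_apply, mul_comm (ENNReal.ofReal _)]

theorem integral_coord {f : ℍ → ℂ} (hf : Integrable f) :
    IntegrableOn (fun y : ℝ => (∫ u : ℝ, f (pt u y)) / (y : ℂ) ^ 2) (Set.Ioi 0) ∧
      ∫ τ, f τ = ∫ y in Set.Ioi (0 : ℝ), (∫ u : ℝ, f (pt u y)) / (y : ℂ) ^ 2 := by
  have h1 : Integrable (fun p : ℝ × ℝ => f (pt p.1 p.2)) _ :=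
    HM.mp_pt.integrable_comp_of_integrable hf
  have he : ∀ (y : ℝ) (z : ℂ), (ENNReal.ofReal (1 / y ^ 2)).toReal • z = z / (y : ℂ) ^ 2 :=
    fun y z => by
      rw [ENNReal.toReal_ofReal (by positivity), Complex.real_smul]
      push_cast
      ring
  have hlt : ∀ᵐ y ∂(volume.restrict (Set.Ioi (0 : ℝ))), ENNReal.ofReal (1 / y ^ 2) < ⊤ :=
    .of_forall fun _ => ENNReal.ofReal_lt_top
  constructor
  · have := (integrable_withDensity_iff_integrable_smul' HM.meas_dens hlt).1 h1.integral_prod_right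
    simp only [he] at this
    exact this
  · conv_lhs => rw [← HM.mp_pt.map_eq]
    rw [integral_map measurable_pt.aemeasurable (by rw [HM.mp_pt.map_eq]; exact hf.1),
      integral_prod_symm _ h1, integral_withDensity_eq_integral_toReal_smul HM.meas_dens hlt]
    simp only [he]

theorem integrableOn_D {f : ℍ → ℂ} (hf : Measurable f) {K a : ℝ} (ha : a < 1)
    (h : ∀ τ ∈ 𝒟, ‖f τ‖ ≤ K * τ.im ^ a) : IntegrableOn f 𝒟 := by
  have hD := measurableSet_D
  refine ⟨hf.aestronglyMeasurable, ?_⟩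
  have hi : IntegrableOn (fun y : ℝ => |K| * y ^ (a - 2)) (Set.Ioi (1 / 2)) :=
    (integrableOn_Ioi_rpow_of_lt (by linarith) (by norm_num)).const_mul _
  rw [HasFiniteIntegral, ← lintegral_indicator hD, lintegral_coord (hf.enorm.indicator hD)]
  refine lt_of_le_of_lt ?_ hi.2
  rw [← lintegral_indicator measurableSet_Ioi, ← lintegral_indicator measurableSet_Ioi]
  refine lintegral_mono fun y => ?_
  by_cases hy : y ∈ Set.Ioi (0 : ℝ)
  swap
  · simp [hy]
  have him : ∀ u, (pt u y).im = y := fun u => by rw [← coe_im, coe_pt u hy]; simp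
  have hre : ∀ u, (pt u y).re = u := fun u => by rw [← coe_re, coe_pt u hy]; simp
  rw [Set.indicator_of_mem hy]
  by_cases hy2 : y ∈ Set.Ioi (1 / 2 : ℝ)
  · rw [Set.indicator_of_mem hy2]
    have : ∫⁻ u, Set.indicator 𝒟 (fun τ => ‖f τ‖ₑ) (pt u y) ≤ ENNReal.ofReal (|K| * y ^ a) := by
      calc _ ≤ ∫⁻ u, Set.indicator (Set.Icc (-(1 / 2) : ℝ) (1 / 2))
            (fun _ => ENNReal.ofReal (|K| * y ^ a)) u := lintegral_mono fun u => by
              by_cases hu : pt u y ∈ 𝒟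
              · have h2 := hu.2
                rw [hre] at h2
                rw [Set.indicator_of_mem hu, Set.indicator_of_mem (Set.mem_Icc.2 (abs_le.1 h2)),
                  ← ofReal_norm]
                refine ENNReal.ofReal_le_ofReal ((h _ hu).trans ?_)
                rw [him]
                exact mul_le_mul_of_nonneg_right (le_abs_self K) (Real.rpow_nonneg hy.le a)
              · simp [hu]
        _ = _ := by
          rw [lintegral_indicator measurableSet_Icc, setLIntegral_const, Real.volume_Icc]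
          norm_num
    refine (mul_le_mul_left this _).trans (le_of_eq ?_)
    have hy0 : 0 < y := hy
    beta_reduce
    rw [← ENNReal.ofReal_mul (by positivity), ← ofReal_norm, Real.norm_of_nonneg (by positivity),
      Real.rpow_sub hy0, Real.rpow_two]
    congr 1
    ring
  · have : ∀ u, pt u y ∉ 𝒟 := fun u hu => by
      have := ModularGroup.three_le_four_mul_im_sq_of_mem_fd hu
      rw [him] at this
      have h1 : y ≤ 1 / 2 := not_lt.1 hy2
      have h2 : 0 < y := hy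
      nlinarith
    simp [this]

theorem hgood_of_bound {N : ℕ} (hN : 0 < N) (hw : LevU N w) (hm : Measurable w) {a : ℝ}
    (ha : a < 1) (h : ∀ γ : SL, ∃ K : ℝ, ∀ τ ∈ 𝒟, ‖w (γ • τ)‖ ≤ K * τ.im ^ a) : HGood w :=
  hgood_of_integrableOn hN hw hm fun γ => (h γ).elim fun _ hK =>
    integrableOn_D (meas_SL hm γ) ha hK

namespace HM

/-- the vertical strip -/
def strip : Set ℍ := {τ | τ.re ∈ Set.Ioc (0 : ℝ) 1}

theorem measurableSet_strip : MeasurableSet strip :=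
  continuous_re.measurable measurableSet_Ioc

theorem vm_T (n : ℚ) (k : ℤ) : vm (0, n) (ModularGroup.T ^ k) = (0, n) := by
  simp [vm, ModularGroup.coe_T_zpow]

theorem vm_zero (γ : SL) : vm 0 γ = 0 := by simp [vm]

open Classical in
/-- the summand after cutting to the strip -/
def cut {E : Type} [Zero E] (F : Q2 → ℍ → E) (n : ℚ) (τ : ℍ) : E :=
  if 0 < n ∧ τ ∈ strip then F (0, n) τ else 0

theorem meas_cut {E : Type} [Zero E] [MeasurableSpace E] {F : Q2 → ℍ → E}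
    (hm : ∀ v, Measurable (F v)) (n : ℚ) : Measurable (cut F n) := by
  refine Measurable.ite ?_ (hm _) measurable_const
  by_cases h : 0 < n
  · simp only [h, true_and]
    exact measurableSet_strip
  · simp [h]

theorem hasSum_cut {E : Type} [AddCommMonoid E] [TopologicalSpace E] {F : Q2 → ℍ → E}
    (he : ∀ v γ τ, F (vm v γ) τ = F v (γ • τ)) (h0 : ∀ τ, F 0 τ = 0) (τ : ℍ) (a : E) :
    HasSum (fun v => F v τ) a ↔ HasSum (fun p : ℚ × SL => cut F p.1 (p.2 • τ)) a := by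
  have hc : ∀ p : support fun p : ℚ × SL => cut F p.1 (p.2 • τ),
      0 < p.1.1 ∧ p.1.2 • τ ∈ strip := fun p => by
    by_contra h
    exact p.2 (if_neg h)
  refine hasSum_iff_hasSum_of_ne_zero_bij (fun p => vm (0, p.1.1) p.1.2) ?_ ?_ ?_
  · intro p q e
    obtain ⟨e1, k, e2⟩ := vm_decomp_unique (hc p).1 (hc q).1 e
    have h1 := (hc p).2
    have h2 := (hc q).2
    rw [e2, mul_smul] at h2
    simp only [strip, Set.mem_ofPred_eq, ModularGroup.re_T_zpow_smul, Set.mem_Ioc] at h1 h2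
    have h3 : (k : ℝ) < 1 := by linarith [h1.1, h2.2]
    have h4 : (-1 : ℝ) < k := by linarith [h1.2, h2.1]
    have h5 : k = 0 := by
      have : k < 1 := by exact_mod_cast h3
      have : -1 < k := by exact_mod_cast h4
      omega
    rw [h5, zpow_zero, one_mul] at e2
    exact Subtype.ext (Prod.ext e1 e2.symm)
  · intro v hv
    have hv0 : v ≠ 0 := fun h => hv (h ▸ h0 τ)
    obtain ⟨n, γ, hn, rfl⟩ := vm_decomp hv0
    have e : vm (0, n) (ModularGroup.T ^ (1 - ⌈(γ • τ).re⌉) * γ) = vm (0, n) γ := by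
      rw [vm_mul, vm_T]
    have hs : (ModularGroup.T ^ (1 - ⌈(γ • τ).re⌉) * γ) • τ ∈ strip := by
      simp only [strip, Set.mem_ofPred_eq, mul_smul, ModularGroup.re_T_zpow_smul, Set.mem_Ioc]
      push_cast
      constructor
      · linarith [Int.ceil_lt_add_one (γ • τ).re]
      · linarith [Int.le_ceil (γ • τ).re]
    refine ⟨⟨(n, ModularGroup.T ^ (1 - ⌈(γ • τ).re⌉) * γ), ?_⟩, e⟩
    simp only [mem_support, cut, hn, hs, and_self, if_true, ← he, e]
    exact hv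
  · intro p
    simp only [cut, hc p, and_self, if_true, he]

theorem lint_cut {F : Q2 → ℍ → ℝ≥0∞} (hm : ∀ v, Measurable (F v))
    (he : ∀ v γ τ, F (vm v γ) τ = F v (γ • τ)) (h0 : ∀ τ, F 0 τ = 0) :
    ∫⁻ τ, ENNReal.ofReal (b0 τ) * ∑' v, F v τ = ∑' n : ℚ, ∫⁻ τ, cut F n τ := by
  have e : ∀ τ, ∑' v, F v τ = ∑' n : ℚ, ∑' γ : SL, cut F n (γ • τ) := fun τ => by
    rw [← ENNReal.tsum_prod]
    exact (((hasSum_cut he h0 τ _).1 ENNReal.summable.hasSum).tsum_eq).symm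
  have m : ∀ n, Measurable fun τ => ENNReal.ofReal (b0 τ) * ∑' γ : SL, cut F n (γ • τ) := fun n =>
    measurable_b0.ennreal_ofReal.mul (Measurable.tsum fun γ => meas_SL (meas_cut hm n) γ)
  simp_rw [e, ← ENNReal.tsum_mul_left (f := fun n => ∑' γ : SL, cut F n (γ • _))]
  rw [lintegral_tsum fun n => (m n).aemeasurable]
  exact tsum_congr fun n => unfold_lintegral (meas_cut hm n)

theorem cut_pt {E : Type} [Zero E] (F : Q2 → ℍ → E) {n : ℚ} (hn : 0 < n) {y : ℝ} (hy : 0 < y) :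
    (fun u => cut F n (pt u y)) = (Set.Ioc (0 : ℝ) 1).indicator fun u => F (0, n) (pt u y) := by
  funext u
  have hre : (pt u y).re = u := by rw [← coe_re, coe_pt u hy]; simp
  by_cases hu : u ∈ Set.Ioc (0 : ℝ) 1
  · rw [Set.indicator_of_mem hu, cut, if_pos ⟨hn, by rwa [strip, Set.mem_ofPred_eq, hre]⟩]
  · rw [Set.indicator_of_notMem hu, cut, if_neg fun h => hu (hre ▸ h.2)]

theorem cut_neg {E : Type} [Zero E] (F : Q2 → ℍ → E) {n : ℚ} (hn : ¬ 0 < n) : cut F n = 0 :=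
  funext fun _ => if_neg fun h => hn h.1

end HM

/-- unfolding of a sum over the nonzero vectors of `ℚ²`, for nonnegative functions -/
theorem unfold_vec_lintegral {F : Q2 → ℍ → ℝ≥0∞} (hm : ∀ v, Measurable (F v))
    (he : ∀ v γ τ, F (vm v γ) τ = F v (γ • τ)) (h0 : ∀ τ, F 0 τ = 0) :
    ∫⁻ τ, ENNReal.ofReal (b0 τ) * ∑' v, F v τ = ∑' n : ℚ, if 0 < n then
      ∫⁻ y in Set.Ioi (0 : ℝ), (∫⁻ u in Set.Ioc (0 : ℝ) 1, F (0, n) (pt u y)) *
        ENNReal.ofReal (1 / y ^ 2) else 0 := by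
  rw [lint_cut hm he h0]
  refine tsum_congr fun n => ?_
  split_ifs with hn
  · rw [lintegral_coord (meas_cut hm n)]
    refine setLIntegral_congr_fun measurableSet_Ioi fun y hy => ?_
    simp only [cut_pt F hn hy, lintegral_indicator measurableSet_Ioc]
  · simp [cut_neg F hn]

/-- unfolding of a sum over the nonzero vectors of `ℚ²` -/
theorem unfold_vec {F : Q2 → ℍ → ℂ} (hm : ∀ v, Measurable (F v))
    (he : ∀ v γ τ, F (vm v γ) τ = F v (γ • τ)) (h0 : ∀ τ, F 0 τ = 0)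
    (hs : ∀ τ, Summable fun v => F v τ)
    (hfin : ∫⁻ τ, ENNReal.ofReal (b0 τ) * ∑' v, ‖F v τ‖ₑ ≠ ⊤) :
    HGood (fun τ => ∑' v, F v τ) ∧
      (∀ n : ℚ, 0 < n → IntegrableOn (fun y : ℝ => ct (F (0, n)) y / (y : ℂ) ^ 2) (Set.Ioi 0)) ∧
      HasSum (fun n : ℚ => if 0 < n then ∫ y in Set.Ioi (0 : ℝ), ct (F (0, n)) y / (y : ℂ) ^ 2
        else 0) (hmean fun τ => ∑' v, F v τ) := by
  have hb : Measurable fun τ => (b0 τ : ℂ) := Complex.measurable_ofReal.comp measurable_b0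
  have hen : ∀ τ (z : ℂ), ‖(b0 τ : ℂ) * z‖ₑ = ENNReal.ofReal (b0 τ) * ‖z‖ₑ := fun τ z => by
    rw [enorm_mul, ← ofReal_norm (b0 τ : ℂ), Complex.norm_real, Real.norm_of_nonneg (b0_nonneg τ)]
  have hms : Measurable fun τ => ∑' v, F v τ := Measurable.tsum hm
  have hlev : LevU 1 fun τ => ∑' v, F v τ := fun γ _ τ => by
    let φ : Q2 ≃ Q2 :=
      { toFun := fun v => vm v γ
        invFun := fun v => vm v γ⁻¹
        left_inv := fun v => by simp only [← vm_mul, mul_inv_cancel, vm_one]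
        right_inv := fun v => by simp only [← vm_mul, inv_mul_cancel, vm_one] }
    simp only [← he]
    exact φ.tsum_eq fun v => F v τ
  have hint : Integrable fun τ => (b0 τ : ℂ) * ∑' v, F v τ :=
    ⟨(hb.mul hms).aestronglyMeasurable, lt_of_le_of_lt (lintegral_mono fun τ => by
      rw [hen]
      exact mul_le_mul_right enorm_tsum_le_tsum_enorm _) hfin.lt_top⟩
  obtain ⟨g1, g2⟩ := hmean_level_one hlev hms ((integrable_b0_iff hms).1 hint)
  have hcn : ∀ n τ, cut (fun v τ => ‖F v τ‖ₑ) n τ = ‖cut F n τ‖ₑ := fun n τ => by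
    simp only [cut]
    split_ifs <;> simp
  have key := lint_cut (F := fun v τ => ‖F v τ‖ₑ) (fun v => (hm v).enorm)
    (fun v γ τ => by simp only [he]) (fun τ => by simp [h0])
  simp only [hcn] at key
  rw [key] at hfin
  have hci : ∀ n, Integrable (cut F n) := fun n =>
    ⟨(meas_cut hm n).aestronglyMeasurable, ENNReal.lt_top_of_tsum_ne_top hfin n⟩
  have hct : ∀ n : ℚ, 0 < n → ∀ y ∈ Set.Ioi (0 : ℝ), (∫ u, cut F n (pt u y)) / (y : ℂ) ^ 2 =
      ct (F (0, n)) y / (y : ℂ) ^ 2 := fun n hn y hy => by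
    rw [cut_pt F hn hy, integral_indicator measurableSet_Ioc, ct,
      intervalIntegral.integral_of_le zero_le_one]
  refine ⟨g1, fun n hn => (integral_coord (hci n)).1.congr_fun (hct n hn) measurableSet_Ioi, ?_⟩
  have hu := fun n => unfold_integral (meas_cut hm n) (hci n)
  have hle : ∀ n, ∫⁻ τ, ‖(b0 τ : ℂ) * ∑' γ : SL, cut F n (γ • τ)‖ₑ ≤ ∫⁻ τ, ‖cut F n τ‖ₑ :=
    fun n => by
      rw [← unfold_lintegral (meas_cut hm n).enorm]
      refine lintegral_mono fun τ => ?_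
      rw [hen]
      exact mul_le_mul_right enorm_tsum_le_tsum_enorm _
  have hsum : Summable fun n => ∫ τ, ‖(b0 τ : ℂ) * ∑' γ : SL, cut F n (γ • τ)‖ := by
    refine (ENNReal.summable_toReal (ne_top_of_le_ne_top hfin (ENNReal.tsum_le_tsum hle))).congr
      fun n => ?_
    exact (integral_norm_eq_lintegral_enorm (hu n).1.1).symm
  have := hasSum_integral_of_summable_integral_norm (fun n => (hu n).1) hsum
  have e : ∀ τ, ∑' n, (b0 τ : ℂ) * ∑' γ : SL, cut F n (γ • τ) = (b0 τ : ℂ) * ∑' v, F v τ :=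
    fun τ => by
      have h1 := (hasSum_cut he h0 τ _).1 (hs τ).hasSum
      rw [tsum_mul_left, ← h1.tsum_eq, h1.summable.tsum_prod]
  simp only [e, fun n => (hu n).2] at this
  rw [g2]
  suffices h : (fun n : ℚ => if 0 < n then ∫ y in Set.Ioi (0 : ℝ), ct (F (0, n)) y / (y : ℂ) ^ 2
      else 0) = fun n => ∫ τ, cut F n τ from h ▸ this
  funext n
  split_ifs with hn
  · rw [(integral_coord (hci n)).2]
    exact (setIntegral_congr_fun measurableSet_Ioi (hct n hn)).symm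
  · simp [cut_neg F hn]

end

end Pool.Agent.P.MP_b8021b_nt.CM
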