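import Pool.Agent.P.MP_b8021b_nt.CM.Stmts2
import Pool.Agent.P.MP_b8021b_nt.CM.Final

/-! Products of Heegner divisors, first part: traceless matrices and the theta argument. -/

namespace Pool.Agent.P.MP_b8021b_nt.CM

open Complex hiding Gamma
open UpperHalfPlane hiding I
open MeasureTheory CongruenceSubgroup Filter
open scoped Real MatrixGroups ModularForm Topology ComplexConjugate Modular

noncomputable section

namespace HeegP

theorem pos_conj {y w w' : M2} (hy : 0 < y.det) (he : Ell w) (hw : 0 < w 1 0)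
    (h : y * w = w' * y) : 0 < w' 1 0 := by
  have h0 := congrFun (congrFun h 1) 0
  have h1 := congrFun (congrFun h 1) 1
  simp only [Matrix.mul_apply, Fin.sum_univ_two] at h0 h1
  rw [ell_iff] at he
  have hy' := hy
  rw [Matrix.det_fin_two] at hy'
  have e : 4 * w 1 0 * (w' 1 0 * (y 0 0 * y 1 1 - y 0 1 * y 1 0)) =
      (2 * w 1 0 * y 1 1 + (w 0 0 - w 1 1) * y 1 0) ^ 2 +
        -((w 0 0 - w 1 1) ^ 2 + 4 * (w 0 1 * w 1 0)) * y 1 0 ^ 2 := by
    linear_combination (-4 * w 1 0 * y 1 1) * h0 + (4 * w 1 0 * y 1 0) * h1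
  have p : 0 < 4 * w 1 0 * (w' 1 0 * (y 0 0 * y 1 1 - y 0 1 * y 1 0)) := by
    rw [e]
    by_cases hc : y 1 0 = 0
    · have hd : y 1 1 ≠ 0 := by
        rintro hd
        rw [hc, hd] at hy'
        simp at hy'
      rw [hc]
      have : 0 < (2 * w 1 0 * y 1 1) ^ 2 := by positivity
      simpa using this
    · have : 0 < -((w 0 0 - w 1 1) ^ 2 + 4 * (w 0 1 * w 1 0)) * y 1 0 ^ 2 :=
        mul_pos (by linarith) (by positivity)
      positivity
  exact (mul_pos_iff_of_pos_right hy').1 ((mul_pos_iff_of_pos_left (by positivity)).1 p)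

/-- traceless, of determinant `d`, positively oriented -/
def TL (d : ℚ) (A : M2) : Prop := A.trace = 0 ∧ A.det = d ∧ 0 < A 1 0

variable {d : ℚ} {A B : M2}

theorem TL.ell (hd : 0 < d) (h : TL d A) : Ell A := by
  rw [Ell, h.1, h.2.1]; linarith

theorem TL.ent (h : TL d A) : A 1 1 = -A 0 0 ∧ A 0 1 * A 1 0 = -d - A 0 0 ^ 2 := by
  obtain ⟨h1, h2, -⟩ := h
  rw [Matrix.trace_fin_two] at h1
  rw [Matrix.det_fin_two] at h2
  have e : A 1 1 = -A 0 0 := by linarith
  rw [e] at h2
  exact ⟨e, by linarith⟩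

theorem TL.sq (h : TL d A) : A * A = (-d) • (1 : M2) := by
  obtain ⟨h1, h2⟩ := h.ent
  ext i j
  fin_cases i <;> fin_cases j <;> simp [Matrix.mul_apply, Fin.sum_univ_two, h1] <;> linarith

theorem TL.det_add (hd : 0 < d) (h : TL d A) (h' : TL d B) : 0 < (A + B).det := by
  obtain ⟨h1, h2⟩ := h.ent
  obtain ⟨h3, h4⟩ := h'.ent
  have p := h.2.2
  have p' := h'.2.2
  have e : A 1 0 * B 1 0 * (A + B).det =
      d * (A 1 0 + B 1 0) ^ 2 + (A 0 0 * B 1 0 - B 0 0 * A 1 0) ^ 2 := by
    simp only [Matrix.det_fin_two, Matrix.add_apply, h1, h3]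
    linear_combination (-(B 1 0) * (A 1 0 + B 1 0)) * h2 + (-(A 1 0) * (A 1 0 + B 1 0)) * h4
  have : 0 < A 1 0 * B 1 0 * (A + B).det := by rw [e]; positivity
  exact (mul_pos_iff_of_pos_left (by positivity)).1 this

/-- the parametrisation of the intertwiners -/
def LL (A B : M2) : Q2 →ₗ[ℚ] M2 where
  toFun x := (A + B) * (x.1 • A + x.2 • (1 : M2))
  map_add' x y := by
    rw [← mul_add]; congr 1; simp only [Prod.fst_add, Prod.snd_add, add_smul]; abel
  map_smul' c x := by
    rw [RingHom.id_apply, ← mul_smul_comm]; congr 1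
    simp only [Prod.smul_fst, Prod.smul_snd, smul_eq_mul, smul_add, smul_smul]

theorem LL_apply (A B : M2) (x : Q2) : LL A B x = (A + B) * (x.1 • A + x.2 • (1 : M2)) := rfl

theorem det_LL (h : TL d A) (x : Q2) :
    (LL A B x).det = (A + B).det * (x.2 ^ 2 + d * x.1 ^ 2) := by
  obtain ⟨h1, h2⟩ := h.ent
  rw [LL_apply, Matrix.det_mul]
  congr 1
  simp [Matrix.det_fin_two, h1]
  linear_combination (-x.1 ^ 2) * h2

theorem LL_int (h : TL d A) (h' : TL d B) (x : Q2) : LL A B x * A = B * LL A B x := by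
  have e : (A + B) * A = B * (A + B) := by rw [add_mul, mul_add, h.sq, h'.sq, add_comm]
  rw [LL_apply, ← mul_assoc, ← e, mul_assoc, mul_assoc]
  congr 1
  simp [add_mul, mul_add]

theorem det_LL_pos (hd : 0 < d) (h : TL d A) (h' : TL d B) {x : Q2} (hx : x ≠ 0) :
    0 < (LL A B x).det := by
  rw [det_LL h]
  refine mul_pos (h.det_add hd h') ?_
  by_cases h1 : x.1 = 0
  · have h2 : x.2 ≠ 0 := fun h2 => hx (Prod.ext h1 h2)
    positivity
  · positivity

theorem LL_inj (hd : 0 < d) (h : TL d A) (h' : TL d B) : Function.Injective (LL A B) := by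
  rw [injective_iff_map_eq_zero]
  intro x hx
  by_contra h0
  have := det_LL_pos hd h h' h0
  rw [hx] at this
  simp at this

theorem LL_surj (hd : 0 < d) (h : TL d A) (h' : TL d B) {Y : M2} (hY : Y * A = B * Y) :
    ∃ x, LL A B x = Y := by
  have hp := (h.det_add hd h').ne'
  have e : (A + B) * A = B * (A + B) := by rw [add_mul, mul_add, h.sq, h'.sq, add_comm]
  set g := toG (A + B) with hg
  have hv : g.1 = A + B := toG_val hp
  set X := (g⁻¹).1 * Y with hX
  have e1 : (A + B) * X = Y := by rw [hX, ← mul_assoc, ← hv, Units.mul_inv, one_mul]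
  have e2 : X * A = A * X := by
    have : g.1 * (X * A) = g.1 * (A * X) := by
      rw [hv, ← mul_assoc, e1, ← mul_assoc, e, mul_assoc, e1, hY]
    exact (Units.mul_right_inj g).1 this
  have p := h.2.2.ne'
  refine ⟨(X 1 0 / A 1 0, X 0 0 - X 1 0 / A 1 0 * A 0 0), ?_⟩
  rw [LL_apply, ← e1]
  congr 1
  have h0 := congrFun (congrFun e2 0) 0
  have h1 := congrFun (congrFun e2 1) 0
  simp only [Matrix.mul_apply, Fin.sum_univ_two] at h0 h1
  ext i j
  fin_cases i <;> fin_cases j <;> simp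
  · field_simp
    linear_combination -h0
  · field_simp
  · field_simp
    linear_combination -h1

theorem act_fix {Y : M2} (he : Ell A) (hY : Y.det ≠ 0) (e : Y * A = B * Y) :
    act Y (fix A) = fix B := by
  have h1 := he.fix_conj (toG Y)
  have h2 : (toG Y).1 * A * ((toG Y)⁻¹).1 = B := by
    rw [show (toG Y).1 * A = B * (toG Y).1 by rw [toG_val hY, e], mul_assoc, Units.mul_inv, mul_one]
  rw [h2] at h1
  exact h1.symm

/-- integral intertwiners of determinant `q` -/
def IT (A B : M2) (q : ℚ) : Set M2 := {Y | IsInt Y ∧ Y * A = B * Y ∧ 0 < Y.det ∧ Y.det = q}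

theorem finite_IT (he : Ell A) (B : M2) (q : ℚ) : (IT A B q).Finite := by
  refine (finite_of_compact 1 one_pos q (isCompact_singleton (x := fix A))
    (isCompact_singleton (x := fix B))).subset ?_
  rintro Y ⟨h1, h2, h3, h4⟩
  exact ⟨by simpa using h1, h3, h4.le, fix A, rfl, act_fix he h3.ne' h2⟩

theorem theta (hT : S_Theta) (hd : 0 < d) {ι : Type} [Fintype ι] (A B : ι → M2) (s : ι → ℂ)
    (hA : ∀ i, TL d (A i)) (hB : ∀ i, TL d (B i))
    (h : ∀ q : ℚ, ∑ i, ((IT (A i) (B i) q).ncard : ℂ) * s i = 0) : ∑ i, s i = 0 := by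
  classical
  have hd' : (0 : ℝ) < d := by exact_mod_cast hd
  have hs : 0 < Real.sqrt d := Real.sqrt_pos.2 hd'
  let τ : ℍ := ⟨(Real.sqrt d : ℂ) * I, by simpa using hs⟩
  have hre : τ.re = 0 := by show ((Real.sqrt d : ℂ) * I).re = 0; simp
  have him : τ.im = Real.sqrt d := by show ((Real.sqrt d : ℂ) * I).im = _; simp
  let c : ι → Q2 → ℂ := fun i => s i • fun x => cls 1 0 (LL (A i) (B i) x)
  let l : ι → ℝ := fun i => ((A i + B i).det : ℝ) * Real.sqrt d
  have hc : ∀ i, SB (c i) := fun i =>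
    ((sb_cls one_pos 0).comp_inj _ (LL_inj hd (hA i) (hB i))).smul _
  have hl : ∀ i, 0 < l i := fun i =>
    mul_pos (by exact_mod_cast (hA i).det_add hd (hB i)) hs
  have hcl : ∀ Y : M2, cls 1 0 Y = if IsInt Y then 1 else 0 := fun Y => by simp [cls]
  have key := hT ι τ c l hc hl fun t ht => ?_
  · simpa [c, hcl, isInt_zero] using key
  let G : ι → M2 → ℂ := fun i Y => if IsInt Y ∧ Y * A i = B i * Y ∧ 0 < Y.det then
    s i * (Real.exp (-π * t * Y.det) : ℝ) else 0
  have h1 : ∀ i x, (if x = 0 then 0 else c i x * gau x τ (l i * t)) = G i (LL (A i) (B i) x) := by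
    intro i x
    by_cases hx : x = 0
    · simp [hx, G]
    · have e : gau x τ (l i * t) = (Real.exp (-π * t * (LL (A i) (B i) x).det) : ℝ) := by
        rw [gau, PoiP.norm_lin_sq, hre, him, det_LL (hA i)]
        congr 2
        simp only [l]
        push_cast
        field_simp
        rw [Real.sq_sqrt hd'.le]
        ring
      rw [if_neg hx, e]
      simp only [c, G, Pi.smul_apply, hcl, smul_eq_mul, LL_int (hA i) (hB i),
        det_LL_pos hd (hA i) (hB i) hx, and_true]
      split_ifs <;> simp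
  have h2 : ∀ i, HasSum (G i) (∑' x : Q2, if x = 0 then 0 else c i x * gau x τ (l i * t)) := by
    intro i
    rw [← (LL_inj hd (hA i) (hB i)).hasSum_iff]
    · have : (G i ∘ LL (A i) (B i)) = fun x => if x = 0 then 0 else c i x * gau x τ (l i * t) :=
        funext fun x => (h1 i x).symm
      rw [this]
      refine (Summable.of_norm_bounded (summable_K0 (hc i) τ (mul_pos (hl i) ht)) fun x => ?_).hasSum
      split_ifs
      · simpa only [norm_zero] using norm_nonneg _
      · exact le_rfl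
    · intro Y hY
      exact if_neg fun h => hY (LL_surj hd (hA i) (hB i) h.2.1)
  have h3 := hasSum_sum fun i (_ : i ∈ Finset.univ) => (h2 i).tsum_fiberwise Matrix.det
  refine h3.unique ?_
  convert hasSum_zero with q
  have h4 : ∀ i, ∑' Y : (Matrix.det ⁻¹' {q} : Set M2), G i Y =
      ((IT (A i) (B i) q).ncard : ℂ) * s i * (Real.exp (-π * t * q) : ℝ) := by
    intro i
    have hf := finite_IT ((hA i).ell hd) (B i) q
    rw [tsum_subtype, tsum_eq_sum (s := hf.toFinset), Set.ncard_eq_toFinset_card _ hf,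
      Finset.sum_congr rfl (g := fun _ => s i * (Real.exp (-π * t * q) : ℝ))]
    · simp [mul_assoc]
    · intro Y hY
      obtain ⟨a1, a2, a3, a4⟩ := hf.mem_toFinset.1 hY
      rw [Set.indicator_of_mem (show Y ∈ Matrix.det ⁻¹' {q} from a4)]
      simp only [G]
      rw [if_pos ⟨a1, a2, a3⟩, a4]
    · intro Y hY
      by_cases a4 : Y.det = q
      · rw [Set.indicator_of_mem (show Y ∈ Matrix.det ⁻¹' {q} from a4)]
        exact if_neg fun a => hY (hf.mem_toFinset.2 ⟨a.1, a.2.1, a.2.2, a4⟩)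
      · exact Set.indicator_of_notMem (show Y ∉ Matrix.det ⁻¹' {q} from a4) _
  simp only [h4]
  rw [← Finset.sum_mul, h q, zero_mul]

end HeegP

end

end Pool.Agent.P.MP_b8021b_nt.CM
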