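import Pool.Agent.P.MP_b8021b_nt.CM.Hol0

/-! Library L7: holomorphic functions of exponential type on the upper half plane. -/

namespace Pool.Agent.P.MP_b8021b_nt.CM

open Complex hiding Gamma
open UpperHalfPlane hiding I
open CongruenceSubgroup Filter
open scoped Real MatrixGroups Modular Topology Manifold ModularForm

noncomputable section

variable {f g : ℍ → ℂ} {M N : ℕ}

open HolP

/-! ### growth -/

theorem HolP.im_le (τ : ℍ) : τ.im ≤ ‖(τ : ℂ)‖ := (le_abs_self _).trans (abs_im_le_norm _)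

theorem kap_pos (τ : ℍ) : 2 ≤ kap τ := by
  rw [kap, le_div_iff₀ τ.im_pos]
  nlinarith [im_le τ, sq_nonneg (‖(τ : ℂ)‖ - 1)]

theorem norm_le_kap (τ : ℍ) : ‖(τ : ℂ)‖ ≤ kap τ := by
  rw [kap, le_div_iff₀ τ.im_pos]
  nlinarith [im_le τ, norm_nonneg (τ : ℂ)]

theorem im_le_kap (τ : ℍ) : τ.im ≤ kap τ := (im_le τ).trans (norm_le_kap τ)

theorem inv_im_le_kap (τ : ℍ) : τ.im⁻¹ ≤ kap τ := by
  rw [kap, inv_eq_one_div]
  exact div_le_div_of_nonneg_right (by nlinarith [norm_nonneg (τ : ℂ)]) τ.im_pos.le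

theorem HolP.le_exp (x : ℝ) : x ≤ Real.exp x := by linarith [Real.add_one_le_exp x]

theorem HolP.const_le (K : ℝ) (τ : ℍ) : K ≤ Real.exp (|K| * kap τ) :=
  le_trans (by nlinarith [le_abs_self K, abs_nonneg K, kap_pos τ]) (le_exp _)

theorem inG_of_le (h : Hol f) (K C : ℝ) (hb : ∀ τ, ‖f τ‖ ≤ K * Real.exp (C * kap τ)) : InG f :=
  ⟨h, |K| + C, fun τ => by
    rw [add_mul, Real.exp_add]
    exact (hb τ).trans (mul_le_mul_of_nonneg_right (const_le K τ) (Real.exp_pos _).le)⟩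

theorem InG.exists_nonneg (h : InG f) : ∃ C : ℝ, 0 ≤ C ∧ ∀ τ, ‖f τ‖ ≤ Real.exp (C * kap τ) := by
  obtain ⟨C, hC⟩ := h.2
  refine ⟨|C|, abs_nonneg C, fun τ => (hC τ).trans (Real.exp_le_exp.2 ?_)⟩
  exact mul_le_mul_of_nonneg_right (le_abs_self C) (by linarith [kap_pos τ])

theorem inG_const (c : ℂ) : InG fun _ => c :=
  inG_of_le (hol_const c) ‖c‖ 0 fun τ => by simp

theorem inG_coe : InG fun τ => (τ : ℂ) :=
  ⟨hol_coe, 1, fun τ => by rw [one_mul]; exact (norm_le_kap τ).trans (le_exp _)⟩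

theorem inG_e (a : ℝ) : InG fun τ => e (a * τ) := by
  refine ⟨hol_e a, 2 * π * |a|, fun τ => ?_⟩
  rw [norm_e, Real.exp_le_exp, im_ofReal_mul, coe_im]
  have h1 : -a * τ.im ≤ |a| * kap τ :=
    mul_le_mul (neg_le_abs a) (im_le_kap τ) τ.im_pos.le (abs_nonneg a)
  nlinarith [Real.pi_pos]

theorem InG.add (h : InG f) (h' : InG g) : InG (f + g) := by
  obtain ⟨C, hC, h1⟩ := h.exists_nonneg
  obtain ⟨C', hC', h2⟩ := h'.exists_nonneg
  refine inG_of_le (h.1.add h'.1) 2 (C + C') fun τ => ?_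
  have h3 : Real.exp (C * kap τ) ≤ Real.exp ((C + C') * kap τ) :=
    Real.exp_le_exp.2 (by nlinarith [kap_pos τ])
  have h4 : Real.exp (C' * kap τ) ≤ Real.exp ((C + C') * kap τ) :=
    Real.exp_le_exp.2 (by nlinarith [kap_pos τ])
  linarith [norm_add_le (f τ) (g τ), h1 τ, h2 τ, show ‖(f + g) τ‖ = ‖f τ + g τ‖ from rfl]

theorem InG.mul (h : InG f) (h' : InG g) : InG (f * g) := by
  obtain ⟨C, h1⟩ := h.2
  obtain ⟨C', h2⟩ := h'.2
  refine ⟨h.1.mul h'.1, C + C', fun τ => ?_⟩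
  rw [add_mul, Real.exp_add, Pi.mul_apply, norm_mul]
  exact mul_le_mul (h1 τ) (h2 τ) (norm_nonneg _) (Real.exp_pos _).le

theorem InG.smul (c : ℂ) (h : InG f) : InG (c • f) := (inG_const c).mul h

theorem InG.sub (h : InG f) (h' : InG g) : InG (f - g) := by
  have h1 := h.add (h'.smul (-1))
  rwa [neg_one_smul, ← sub_eq_add_neg] at h1

theorem InG.pow (h : InG f) (n : ℕ) : InG (f ^ n) := by
  induction n with
  | zero => exact inG_const 1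
  | succ n ih => rw [pow_succ]; exact ih.mul h

theorem InG.sum {ι : Type} (s : Finset ι) (F : ι → ℍ → ℂ) (h : ∀ i ∈ s, InG (F i)) :
    InG (∑ i ∈ s, F i) :=
  Finset.sum_induction F InG (fun _ _ => InG.add) (inG_const 0) h

theorem InG.prod {ι : Type} (s : Finset ι) (F : ι → ℍ → ℂ) (h : ∀ i ∈ s, InG (F i)) :
    InG (∏ i ∈ s, F i) :=
  Finset.prod_induction F InG (fun _ _ => InG.mul) (inG_const 1) h

theorem kap_act {Y : M2} (hY : 0 < Y.det) (τ : ℍ) : kap (act Y τ) =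
    (‖(Y 0 0 : ℂ) * τ + Y 0 1‖ ^ 2 + ‖(Y 1 0 : ℂ) * τ + Y 1 1‖ ^ 2) / ((Y.det : ℝ) * τ.im) := by
  have h1 : ‖(Y 1 0 : ℂ) * τ + Y 1 1‖ ≠ 0 := norm_ne_zero_iff.2 (den_ne_zero hY.ne' τ)
  have h2 : ((Y.det : ℚ) : ℝ) ≠ 0 := by exact_mod_cast hY.ne'
  have h3 := τ.im_ne_zero
  rw [kap, coe_act hY, im_act hY, norm_div]
  generalize ‖(Y 1 0 : ℂ) * τ + Y 1 1‖ = u at *
  generalize ‖(Y 0 0 : ℂ) * τ + Y 0 1‖ = v at *
  field_simp
  ring

theorem HolP.lin_le (a b : ℚ) (τ : ℍ) :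
    ‖(a : ℂ) * τ + b‖ ^ 2 ≤ ((a : ℝ) ^ 2 + (b : ℝ) ^ 2) * (1 + ‖(τ : ℂ)‖ ^ 2) := by
  have h1 : ‖(a : ℂ) * τ + b‖ ≤ |(a : ℝ)| * ‖(τ : ℂ)‖ + |(b : ℝ)| := by
    refine (norm_add_le _ _).trans (le_of_eq ?_)
    rw [norm_mul, norm_ratCast, norm_ratCast]
  refine (pow_le_pow_left₀ (norm_nonneg _) h1 2).trans ?_
  rw [← sq_abs (a : ℝ), ← sq_abs (b : ℝ)]
  nlinarith [sq_nonneg (|(a : ℝ)| - |(b : ℝ)| * ‖(τ : ℂ)‖)]

theorem kap_act_le {Y : M2} (hY : 0 < Y.det) :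
    ∃ C : ℝ, 0 ≤ C ∧ ∀ τ, kap (act Y τ) ≤ C * kap τ := by
  have h2 : (0 : ℝ) < ((Y.det : ℚ) : ℝ) := by exact_mod_cast hY
  refine ⟨((Y 0 0 : ℝ) ^ 2 + (Y 0 1 : ℝ) ^ 2 + ((Y 1 0 : ℝ) ^ 2 + (Y 1 1 : ℝ) ^ 2)) / (Y.det : ℝ),
    by positivity, fun τ => ?_⟩
  rw [kap_act hY, kap, div_mul_div_comm]
  refine div_le_div_of_nonneg_right ?_ (mul_pos h2 τ.im_pos).le
  linarith [lin_le (Y 0 0) (Y 0 1) τ, lin_le (Y 1 0) (Y 1 1) τ]

theorem InG.comp_act (h : InG f) {Y : M2} (hY : 0 < Y.det) : InG fun τ => f (act Y τ) := by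
  obtain ⟨C, hC, h1⟩ := h.exists_nonneg
  obtain ⟨C', -, h2⟩ := kap_act_le hY
  refine ⟨h.1.comp_act hY, C * C', fun τ => (h1 _).trans (Real.exp_le_exp.2 ?_)⟩
  rw [mul_assoc]
  exact mul_le_mul_of_nonneg_left (h2 τ) hC

theorem InG.smulSL (h : InG f) (γ : SL) : InG fun τ => f (γ • τ) := by
  simpa only [act_SL] using h.comp_act (det_SL_pos γ)

theorem inG_jf (γ : SL) : InG (jf γ) := ((inG_const _).mul inG_coe).add (inG_const _)

theorem jf_inv (γ : SL) (τ : ℍ) : jf γ⁻¹ (γ • τ) = (jf γ τ)⁻¹ := by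
  refine eq_inv_of_mul_eq_one_left ?_
  rw [← jf_mul, inv_mul_cancel, jf_one]

theorem inG_jf_zpow (γ : SL) (k : ℤ) : InG fun τ => jf γ τ ^ k := by
  obtain ⟨n, rfl | rfl⟩ := k.eq_nat_or_neg
  · simp only [zpow_natCast]
    exact (inG_jf γ).pow n
  · have h1 := ((inG_jf γ⁻¹).smulSL γ).pow n
    refine (congrArg InG (funext fun τ => ?_)).mp h1
    rw [Pi.pow_apply, jf_inv, zpow_neg, zpow_natCast, inv_pow]

theorem InG.slash (h : InG f) (k : ℤ) (γ : SL) : InG (sl k γ f) :=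
  (h.smulSL γ).mul (inG_jf_zpow γ (-k))

theorem InG.deriv (h : InG f) : InG (der f) := by
  obtain ⟨C, hC, h1⟩ := h.exists_nonneg
  refine inG_of_le h.1.deriv 2 (C * 5 + 1) fun τ => ?_
  have hy := τ.im_pos
  have h2 : ∀ z ∈ Metric.closedBall (τ : ℂ) (τ.im / 2),
      τ.im / 2 ≤ z.im ∧ ‖z‖ ≤ 3 / 2 * ‖(τ : ℂ)‖ := by
    intro z hz
    rw [Metric.mem_closedBall, dist_eq_norm] at hz
    have h3 := (abs_le.1 ((abs_im_le_norm (z - τ)).trans hz)).1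
    rw [sub_im, coe_im] at h3
    have h4 := norm_sub_norm_le z τ
    exact ⟨by linarith, by linarith [im_le τ]⟩
  have h3 : DiffContOnCl ℂ (f ∘ ofComplex) (Metric.ball (τ : ℂ) (τ.im / 2)) := by
    refine DifferentiableOn.diffContOnCl (DifferentiableOn.mono h.1 fun z hz => ?_)
    have h4 := (h2 z (Metric.closure_ball_subset_closedBall hz)).1
    exact lt_of_lt_of_le (by positivity) h4
  have h4 := norm_deriv_le_of_forall_mem_sphere_norm_le (C := Real.exp (C * 5 * kap τ))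
    (by positivity) h3 fun z hz => by
      obtain ⟨h5, h6⟩ := h2 z (Metric.sphere_subset_closedBall hz)
      have h7 : 0 < z.im := lt_of_lt_of_le (by positivity) h5
      refine (h1 _).trans (Real.exp_le_exp.2 ?_)
      rw [mul_assoc, ofComplex_apply_of_im_pos h7]
      refine mul_le_mul_of_nonneg_left ?_ hC
      change (1 + ‖z‖ ^ 2) / z.im ≤ 5 * ((1 + ‖(τ : ℂ)‖ ^ 2) / τ.im)
      have h8 : ‖z‖ ^ 2 ≤ (3 / 2 * ‖(τ : ℂ)‖) ^ 2 := pow_le_pow_left₀ (norm_nonneg _) h6 2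
      refine (div_le_div_of_nonneg_left (by positivity) (by positivity) h5).trans ?_
      rw [← mul_div_assoc, div_le_div_iff₀ (by positivity) hy]
      nlinarith [sq_nonneg ‖(τ : ℂ)‖]
  refine h4.trans ?_
  have h5 := (inv_im_le_kap τ).trans (le_exp _)
  rw [add_mul, one_mul, Real.exp_add, div_div_eq_mul_div, div_eq_mul_inv]
  nlinarith [Real.exp_pos (C * 5 * kap τ)]

theorem HolP.im_le_lin {a : ℤ} (ha : a ≠ 0) (b : ℤ) (τ : ℍ) :
    τ.im ^ 2 ≤ ‖(a : ℂ) * τ + b‖ ^ 2 := by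
  have h1 := abs_im_le_norm ((a : ℂ) * τ + b)
  have h2 : ((a : ℂ) * τ + b).im = a * τ.im := by simp
  have h3 : (1 : ℝ) ≤ |(a : ℝ)| := by exact_mod_cast Int.one_le_abs ha
  rw [h2, abs_mul, abs_of_pos τ.im_pos] at h1
  exact pow_le_pow_left₀ τ.im_pos.le (le_trans (by nlinarith [τ.im_pos]) h1) 2

theorem kap_SL (γ : SL) (τ : ℍ) : kap (γ • τ) =
    (‖((γ 0 0 : ℤ) : ℂ) * τ + (γ 0 1 : ℤ)‖ ^ 2 + ‖jf γ τ‖ ^ 2) / τ.im := by
  have h1 := kap_act (det_SL_pos γ) τ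
  rw [act_SL, det_SL] at h1
  rw [h1, jf]
  simp [castZ]

theorem im_le_kap_SL (γ : SL) (τ : ℍ) : τ.im ≤ kap (γ • τ) := by
  rw [kap_SL, le_div_iff₀ τ.im_pos, ← sq]
  by_cases hc : γ 1 0 = 0
  · have ha : γ 0 0 ≠ 0 := fun ha => by
      have h1 := γ.det_coe
      rw [Matrix.det_fin_two, ha, hc] at h1
      simp at h1
    exact (im_le_lin ha (γ 0 1) τ).trans (le_add_of_nonneg_right (sq_nonneg _))
  · exact (im_le_lin hc (γ 1 1) τ).trans (le_add_of_nonneg_left (sq_nonneg _))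

theorem norm_jf_le_kap (γ : SL) (τ : ℍ) : ‖jf γ τ‖ ≤ kap (γ • τ) := by
  have h1 : ‖jf γ τ‖ ^ 2 ≤ kap (γ • τ) * τ.im := by
    rw [kap_SL, div_mul_cancel₀ _ τ.im_ne_zero]
    exact le_add_of_nonneg_left (sq_nonneg _)
  have h2 : 0 ≤ kap (γ • τ) := by linarith [kap_pos (γ • τ)]
  refine le_of_sq_le_sq ?_ h2
  nlinarith [im_le_kap_SL γ τ]

/-- exponential growth at all cusps -/
theorem inG_of_cusps (h : Hol f) (k : ℕ)
    (hb : ∃ C : ℝ, ∀ γ : SL, ∀ τ ∈ 𝒟, ‖f (γ • τ)‖ ≤ C * ‖jf γ τ‖ ^ k * Real.exp (C * τ.im)) :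
    InG f := by
  obtain ⟨C, hb⟩ := hb
  refine inG_of_le h |C| (k + |C|) fun σ => ?_
  obtain ⟨γ, hγ⟩ := ModularGroup.exists_smul_mem_fd σ
  have h1 := hb γ⁻¹ _ hγ
  have h2 := (norm_jf_le_kap γ⁻¹ (γ • σ)).trans (le_exp _)
  have h3 := im_le_kap_SL γ⁻¹ (γ • σ)
  rw [inv_smul_smul] at h1 h2 h3
  refine h1.trans ?_
  rw [add_mul, Real.exp_add, ← mul_assoc, Real.exp_nat_mul]
  refine mul_le_mul (mul_le_mul (le_abs_self C) (pow_le_pow_left₀ (norm_nonneg _) h2 k)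
    (by positivity) (abs_nonneg C)) (Real.exp_le_exp.2 ?_) (Real.exp_pos _).le (by positivity)
  exact mul_le_mul (le_abs_self C) h3 (γ • σ).im_pos.le (abs_nonneg C)

/-- uniformity over the cosets of a principal congruence subgroup -/
theorem exists_unif {α : Type} (s : α → ℝ) (P : SL → α → Prop) (hM : 0 < M)
    (mono : ∀ γ a b, s a ≤ s b → P γ a → P γ b)
    (inv : ∀ δ ∈ Gamma M, ∀ γ a, P γ a → P (δ * γ) a) (h : ∀ γ, ∃ a, P γ a) :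
    ∃ a, ∀ γ, P γ a := by
  choose a ha using h
  have : NeZero M := ⟨hM.ne'⟩
  obtain ⟨q, hq⟩ := Finite.exists_max fun q : SL ⧸ Gamma M => s (a q.out⁻¹)
  refine ⟨a q.out⁻¹, fun γ => ?_⟩
  obtain ⟨δ, hδ⟩ := QuotientGroup.mk_out_eq_mul (Gamma M) γ⁻¹
  have h1 := inv δ δ.2 _ _ (mono _ _ _ (hq (QuotientGroup.mk γ⁻¹)) (ha _))
  rwa [hδ, mul_inv_rev, inv_inv, mul_inv_cancel_left] at h1

theorem HolP.bound_fd (h : Continuous f) {w : ℝ}
    (hb : f =O[atImInfty] fun τ => Real.exp (w * τ.im)) :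
    ∃ C : ℝ, 0 ≤ C ∧ ∀ τ ∈ 𝒟, ‖f τ‖ ≤ C * Real.exp (C * τ.im) := by
  obtain ⟨K, hK⟩ := hb.bound
  obtain ⟨Y, hY⟩ := (atImInfty_mem _).1 hK
  obtain ⟨B, hB⟩ :=
    (ModularGroup.isCompact_truncatedFundamentalDomain Y).exists_bound_of_continuousOn
      h.continuousOn
  have h0 : 0 ≤ |K| + |w| + |B| := by positivity
  refine ⟨|K| + |w| + |B|, h0, fun τ hτ => ?_⟩
  rcases le_total Y τ.im with h1 | h1
  · refine le_trans (hY τ h1) ?_
    rw [Real.norm_of_nonneg (Real.exp_pos _).le]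
    refine mul_le_mul (by linarith [le_abs_self K, abs_nonneg w, abs_nonneg B])
      (Real.exp_le_exp.2 (mul_le_mul_of_nonneg_right ?_ τ.im_pos.le)) (Real.exp_pos _).le h0
    linarith [le_abs_self w, abs_nonneg K, abs_nonneg B]
  · refine (hB τ ⟨hτ, h1⟩).trans ?_
    have h2 := Real.one_le_exp (mul_nonneg h0 τ.im_pos.le)
    nlinarith [le_abs_self B, abs_nonneg K, abs_nonneg w]

theorem inG_of_isBigO (h : Hol f) (hM : 0 < M) (k : ℤ) (hl : ∀ γ ∈ Gamma M, sl k γ f = f)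
    (hb : ∀ γ : SL, ∃ w : ℝ, sl k γ f =O[atImInfty] fun τ => Real.exp (w * τ.im)) : InG f := by
  obtain ⟨C, hC⟩ := exists_unif (M := M) id
    (fun γ (C : ℝ) => 0 ≤ C ∧ ∀ τ ∈ 𝒟, ‖sl k γ f τ‖ ≤ C * Real.exp (C * τ.im)) hM
    (fun γ a b hab h1 => ⟨h1.1.trans hab, fun τ hτ => (h1.2 τ hτ).trans (mul_le_mul hab
      (Real.exp_le_exp.2 (mul_le_mul_of_nonneg_right hab τ.im_pos.le)) (Real.exp_pos _).le
      (h1.1.trans hab))⟩)
    (fun δ hδ γ a h1 => by rwa [sl_mul, hl δ hδ])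
    (fun γ => (hb γ).elim fun w hw => bound_fd (h.slash k γ).continuous hw)
  refine inG_of_cusps h k.natAbs ⟨C, fun γ τ hτ => ?_⟩
  have h1 : f (γ • τ) = sl k γ f τ * jf γ τ ^ k := by
    rw [sl, mul_assoc, ← zpow_add₀ (jf_ne_zero γ τ), neg_add_cancel, zpow_zero, mul_one]
  have h2 : ‖jf γ τ‖ ^ k ≤ ‖jf γ τ‖ ^ k.natAbs := by
    rw [← zpow_natCast]
    exact zpow_le_zpow_right₀ (one_le_jf γ hτ) Int.le_natAbs
  rw [h1, norm_mul, norm_zpow, mul_right_comm]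
  exact mul_le_mul ((hC γ).2 τ hτ) h2 (by positivity) (mul_nonneg (hC γ).1 (Real.exp_pos _).le)

theorem inG_of_level (h : Hol f) (hM : 0 < M) (k : ℤ) (hl : ∀ γ ∈ Gamma M, sl k γ f = f)
    (hb : ∀ γ : SL, ∃ w : ℝ, Gro w (sl k γ f)) : InG f := by
  refine inG_of_isBigO h hM k hl fun γ => ?_
  obtain ⟨w, K, hK⟩ := hb γ
  refine ⟨2 * π * w, .of_bound K ((atImInfty_mem _).2 ⟨1, fun τ hτ => ?_⟩)⟩
  exact (hK τ hτ).trans (by rw [Real.norm_of_nonneg (Real.exp_pos _).le])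

theorem sl_eq_slash (k : ℤ) (γ : SL) (f : ℍ → ℂ) : sl k γ f = f ∣[k] γ := by
  ext τ
  rw [ModularForm.SL_slash_apply, ModularGroup.denom_apply, sl, jf]

theorem HolP.isBigO_of_bdd (h : IsBoundedAtImInfty f) :
    f =O[atImInfty] fun τ => Real.exp (0 * τ.im) := by
  simp only [zero_mul, Real.exp_zero]
  exact h

theorem inG_modularForm {k : ℤ} (hM : 0 < M) (F : ModularForm (Gamma M : Subgroup SL) k) :
    InG F ∧ ∀ γ ∈ Gamma M, sl k γ F = F := by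
  have : NeZero M := ⟨hM.ne'⟩
  have h1 : ∀ γ ∈ Gamma M, sl k γ F = F := fun γ hγ => by
    rw [sl_eq_slash]
    exact SlashInvariantForm.slash_action_eqn F _ ⟨γ, hγ, rfl⟩
  refine ⟨inG_of_isBigO (hol_iff_mdiff.2 F.holo') hM k h1 fun γ => ⟨0, isBigO_of_bdd ?_⟩, h1⟩
  rw [sl_eq_slash]
  exact ModularFormClass.bdd_at_infty_slash F γ

theorem inG_levelOne {k : ℤ} (F : ModularForm 𝒮ℒ k) : InG F ∧ ∀ γ : SL, sl k γ F = F := by
  have h1 : ∀ γ : SL, sl k γ F = F := fun γ => by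
    rw [sl_eq_slash]
    exact SlashInvariantForm.slash_action_eqn F _ ⟨γ, rfl⟩
  refine ⟨inG_of_isBigO (hol_iff_mdiff.2 F.holo') one_pos k (fun γ _ => h1 γ)
    fun γ => ⟨0, isBigO_of_bdd ?_⟩, h1⟩
  rw [h1]
  exact ModularFormClass.bdd_at_infty F

theorem inG_Delta : InG ModularForm.discriminant ∧
    ∀ γ : SL, sl 12 γ ModularForm.discriminant = ModularForm.discriminant :=
  inG_levelOne (ModularFormClass.modularForm CuspForm.discriminant)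

theorem apply_of_sl {k : ℤ} {γ : SL} (h : sl k γ f = f) (τ : ℍ) :
    f (γ • τ) = f τ * jf γ τ ^ k := by
  rw [← congrFun h τ, sl, mul_assoc, ← zpow_add₀ (jf_ne_zero γ τ), neg_add_cancel, zpow_zero,
    mul_one]

theorem inG_Delta_inv : InG fun τ => (ModularForm.discriminant τ)⁻¹ := by
  have h1 : ∀ γ : SL, sl (-12) γ (fun τ => (ModularForm.discriminant τ)⁻¹) =
      fun τ => (ModularForm.discriminant τ)⁻¹ := fun γ => by
    ext τ
    rw [sl, apply_of_sl (inG_Delta.2 γ), neg_neg, mul_inv, mul_assoc,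
      inv_mul_cancel₀ (zpow_ne_zero _ (jf_ne_zero γ τ)), mul_one]
  refine inG_of_isBigO (inG_Delta.1.1.inv ModularForm.discriminant_ne_zero) one_pos (-12)
    (fun γ _ => h1 γ) fun γ => ⟨2 * π, ?_⟩
  rw [h1]
  have h2 := ModularForm.exp_isBigO_discriminant.inv_rev
    (.of_forall fun τ h => absurd h (Real.exp_pos _).ne')
  refine h2.congr_right fun τ => ?_
  rw [← Real.exp_neg]
  congr 1
  ring

theorem inO_jj : InO 1 jj := by
  refine ⟨((inG_levelOne ModularForm.E₄).1.pow 3).mul inG_Delta_inv, fun γ _ τ => ?_⟩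
  have h1 := jf_ne_zero γ τ
  rw [jj, jj, apply_of_sl (inG_Delta.2 γ), apply_of_sl ((inG_levelOne ModularForm.E₄).2 γ)]
  have h2 := ModularForm.discriminant_ne_zero τ
  field_simp

theorem InO.mono (h : InO M f) (hd : M ∣ N) : InO N f := ⟨h.1, h.2.mono hd⟩

theorem InO.add (h : InO M f) (h' : InO M g) : InO M (f + g) :=
  ⟨h.1.add h'.1, fun γ hγ τ => by rw [Pi.add_apply, Pi.add_apply, h.2 γ hγ, h'.2 γ hγ]⟩

theorem InO.sub (h : InO M f) (h' : InO M g) : InO M (f - g) :=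
  ⟨h.1.sub h'.1, fun γ hγ τ => by rw [Pi.sub_apply, Pi.sub_apply, h.2 γ hγ, h'.2 γ hγ]⟩

theorem InO.mul (h : InO M f) (h' : InO M g) : InO M (f * g) :=
  ⟨h.1.mul h'.1, fun γ hγ τ => by rw [Pi.mul_apply, Pi.mul_apply, h.2 γ hγ, h'.2 γ hγ]⟩

theorem InO.smul (c : ℂ) (h : InO M f) : InO M (c • f) :=
  ⟨h.1.smul c, fun γ hγ τ => by rw [Pi.smul_apply, Pi.smul_apply, h.2 γ hγ]⟩

theorem InO.pow (h : InO M f) (n : ℕ) : InO M (f ^ n) :=
  ⟨h.1.pow n, fun γ hγ τ => by rw [Pi.pow_apply, Pi.pow_apply, h.2 γ hγ]⟩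

theorem inO_const (M : ℕ) (c : ℂ) : InO M fun _ => c := ⟨inG_const c, fun _ _ _ => rfl⟩

theorem InO.sum {ι : Type} (s : Finset ι) (F : ι → ℍ → ℂ) (h : ∀ i ∈ s, InO M (F i)) :
    InO M (∑ i ∈ s, F i) :=
  Finset.sum_induction F (InO M) (fun _ _ => InO.add) (inO_const M 0) h

theorem InO.prod {ι : Type} (s : Finset ι) (F : ι → ℍ → ℂ) (h : ∀ i ∈ s, InO M (F i)) :
    InO M (∏ i ∈ s, F i) :=
  Finset.prod_induction F (InO M) (fun _ _ => InO.mul) (inO_const M 1) h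

theorem HolP.conj_mem {δ : SL} (hδ : δ ∈ Gamma M) (γ : SL) :
    ∃ δ' ∈ Gamma M, γ * δ = δ' * γ :=
  ⟨γ * δ * γ⁻¹, (Gamma_normal M).conj_mem δ hδ γ, (inv_mul_cancel_right _ _).symm⟩

theorem InO.smulSL (h : InO M f) (γ : SL) : InO M fun τ => f (γ • τ) := by
  refine ⟨h.1.smulSL γ, fun δ hδ τ => ?_⟩
  obtain ⟨δ', h1, h2⟩ := conj_mem hδ γ
  change f (γ • δ • τ) = f (γ • τ)
  rw [← mul_smul, h2, mul_smul, h.2 δ' h1]

theorem InO.comp_act (h : InO M f) (hM : 0 < M) {Y : M2} (hY : 0 < Y.det) :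
    ∃ N, 0 < N ∧ M ∣ N ∧ InO N fun τ => f (act Y τ) := by
  obtain ⟨N, h1, h2, h3⟩ := LevU.comp_act hM (toG Y)
  exact ⟨N, h1, h2, h.1.comp_act hY, h3 f h.2⟩

theorem HolP.T_mem (M : ℕ) : ModularGroup.T ^ (M : ℤ) ∈ Gamma M := by
  simpa using ModularGroup_T_pow_mem_Gamma M M dvd_rfl

theorem HolP.T_smul (M : ℕ) (τ : ℍ) : ModularGroup.T ^ (M : ℤ) • τ = (M : ℝ) +ᵥ τ := by
  rw [modular_T_zpow_smul, Int.cast_natCast]

theorem LevU.per (h : LevU M f) : Per M f := fun τ => by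
  rw [← T_smul, h _ (T_mem M)]

theorem Dec.isBigO (h : Dec f) : f =O[atImInfty] fun τ => Real.exp (0 * τ.im) := by
  obtain ⟨C, c, hc, h⟩ := h
  refine .of_bound |C| ((atImInfty_mem _).2 ⟨1 / 2, fun τ hτ => (h τ hτ).trans ?_⟩)
  rw [Real.norm_of_nonneg (Real.exp_pos _).le]
  exact mul_le_mul (le_abs_self C) (Real.exp_le_exp.2 (by nlinarith [τ.im_pos]))
    (Real.exp_pos _).le (abs_nonneg C)

theorem Cusp.inG (h : Cusp M f) (hM : 0 < M) : InG f :=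
  inG_of_isBigO h.1 hM 2 h.2.1 fun γ => ⟨0, (h.2.2 γ).isBigO⟩

theorem Cusp.per (h : Cusp M f) : Per M f := fun τ => by
  have h1 := ModularGroup.coe_T_zpow M
  rw [← T_smul, apply_of_sl (h.2.1 _ (T_mem M)), jf, congrFun (congrFun h1 1) 0,
    congrFun (congrFun h1 1) 1]
  simp

theorem sl_add (k : ℤ) (γ : SL) (f g : ℍ → ℂ) : sl k γ (f + g) = sl k γ f + sl k γ g := by
  ext τ
  simp only [sl, Pi.add_apply, add_mul]

theorem sl_smul (k : ℤ) (γ : SL) (c : ℂ) (f : ℍ → ℂ) : sl k γ (c • f) = c • sl k γ f := by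
  ext τ
  simp only [sl, Pi.smul_apply, smul_eq_mul, mul_assoc]

theorem HolP.dec_add (h : Dec f) (h' : Dec g) : Dec (f + g) := by
  obtain ⟨C, c, hc, h⟩ := h
  obtain ⟨C', c', hc', h'⟩ := h'
  refine ⟨|C| + |C'|, min c c', lt_min hc hc', fun τ hτ => ?_⟩
  rw [add_mul]
  refine (norm_add_le _ _).trans (add_le_add ((h τ hτ).trans ?_) ((h' τ hτ).trans ?_))
  · exact mul_le_mul (le_abs_self C) (Real.exp_le_exp.2 (by nlinarith [τ.im_pos, min_le_left c c']))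
      (Real.exp_pos _).le (abs_nonneg C)
  · exact mul_le_mul (le_abs_self C')
      (Real.exp_le_exp.2 (by nlinarith [τ.im_pos, min_le_right c c']))
      (Real.exp_pos _).le (abs_nonneg C')

theorem HolP.dec_smul (a : ℂ) (h : Dec f) : Dec (a • f) := by
  obtain ⟨C, c, hc, h⟩ := h
  refine ⟨‖a‖ * C, c, hc, fun τ hτ => ?_⟩
  rw [Pi.smul_apply, norm_smul, mul_assoc]
  exact mul_le_mul_of_nonneg_left (h τ hτ) (norm_nonneg a)

theorem Cusp.add (h : Cusp M f) (h' : Cusp M g) : Cusp M (f + g) :=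
  ⟨h.1.add h'.1, fun γ hγ => by rw [sl_add, h.2.1 γ hγ, h'.2.1 γ hγ],
    fun γ => by rw [sl_add]; exact dec_add (h.2.2 γ) (h'.2.2 γ)⟩

theorem Cusp.smul (c : ℂ) (h : Cusp M f) : Cusp M (c • f) :=
  ⟨h.1.smul c, fun γ hγ => by rw [sl_smul, h.2.1 γ hγ],
    fun γ => by rw [sl_smul]; exact dec_smul c (h.2.2 γ)⟩

theorem cusp_zero (M : ℕ) : Cusp M 0 :=
  ⟨hol_const 0, fun γ _ => by ext τ; simp [sl], fun γ => ⟨0, 1, one_pos, fun τ _ => by simp [sl]⟩⟩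

theorem Cusp.sum {ι : Type} (s : Finset ι) (F : ι → ℍ → ℂ) (h : ∀ i ∈ s, Cusp M (F i)) :
    Cusp M (∑ i ∈ s, F i) :=
  Finset.sum_induction F (Cusp M) (fun _ _ => Cusp.add) (cusp_zero M) h

theorem Cusp.slash (h : Cusp M f) (γ : SL) : Cusp M (sl 2 γ f) := by
  refine ⟨h.1.slash 2 γ, fun δ hδ => ?_, fun δ => by rw [← sl_mul]; exact h.2.2 _⟩
  obtain ⟨δ', h1, h2⟩ := conj_mem hδ γ
  rw [← sl_mul, h2, sl_mul, h.2.1 δ' h1]

theorem im_mul_norm_SL (f : ℍ → ℂ) (γ : SL) (τ : ℍ) :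
    (γ • τ).im * ‖f (γ • τ)‖ = τ.im * ‖sl 2 γ f τ‖ := by
  rw [im_SL, sl, norm_mul, norm_zpow, zpow_neg, zpow_ofNat]
  ring

theorem HolP.exists_max_fd (h : Continuous f) (hd : Dec f) :
    ∃ τ0 : ℍ, ∀ τ ∈ 𝒟, τ.im * ‖f τ‖ ≤ τ0.im * ‖f τ0‖ := by
  by_contra hn
  obtain ⟨τ1, h1, h2⟩ : ∃ τ ∈ 𝒟, 0 < τ.im * ‖f τ‖ := by
    by_contra h1
    refine hn ⟨UpperHalfPlane.I, fun τ hτ => le_trans (not_lt.1 fun h2 => h1 ⟨τ, hτ, h2⟩) ?_⟩
    exact mul_nonneg (im_pos _).le (norm_nonneg _)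
  obtain ⟨C, c, hc, hd⟩ := hd
  have h3 := (tendsto_rpow_mul_exp_neg_mul_atTop_nhds_zero 1 c hc).const_mul C
  rw [mul_zero] at h3
  obtain ⟨Y, hY⟩ := eventually_atTop.1 ((h3.eventually (gt_mem_nhds h2)).and
    (eventually_ge_atTop (1 / 2)))
  obtain ⟨τ0, -, h4⟩ :=
    (ModularGroup.isCompact_truncatedFundamentalDomain (max Y τ1.im)).exists_isMaxOn
      ⟨τ1, h1, le_max_right _ _⟩ (f := fun τ => τ.im * ‖f τ‖)
      (UpperHalfPlane.continuous_im.mul h.norm).continuousOn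
  refine hn ⟨τ0, fun τ hτ => ?_⟩
  rcases le_total Y τ.im with h5 | h5
  · refine le_trans ?_ (h4 (show τ1 ∈ _ from ⟨h1, le_max_right _ _⟩))
    obtain ⟨h6, h7⟩ := hY _ h5
    rw [Real.rpow_one] at h6
    refine le_trans ((mul_le_mul_of_nonneg_left (hd τ h7) τ.im_pos.le).trans_eq ?_) h6.le
    ring
  · exact h4 (show τ ∈ _ from ⟨hτ, h5.trans (le_max_left _ _)⟩)

/-- `y |f|` is bounded and attains its supremum -/
theorem Cusp.exists_max (h : Cusp M f) (hM : 0 < M) :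
    ∃ τ0 : ℍ, ∀ τ : ℍ, τ.im * ‖f τ‖ ≤ τ0.im * ‖f τ0‖ := by
  obtain ⟨τ0, h0⟩ := exists_unif (M := M) (fun σ : ℍ => σ.im * ‖f σ‖)
    (fun γ σ => ∀ τ ∈ 𝒟, τ.im * ‖sl 2 γ f τ‖ ≤ σ.im * ‖f σ‖) hM
    (fun γ a b hab h1 τ hτ => (h1 τ hτ).trans hab)
    (fun δ hδ γ a h1 => by rwa [sl_mul, h.2.1 δ hδ])
    (fun γ => (exists_max_fd (h.1.slash 2 γ).continuous (h.2.2 γ)).elim fun σ hσ =>
      ⟨γ • σ, by rwa [im_mul_norm_SL]⟩)
  refine ⟨τ0, fun τ => ?_⟩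
  obtain ⟨γ, hγ⟩ := ModularGroup.exists_smul_mem_fd τ
  have h1 := h0 γ⁻¹ _ hγ
  rwa [← im_mul_norm_SL, inv_smul_smul] at h1

end

end Pool.Agent.P.MP_b8021b_nt.CM
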