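import Pool.Agent.P.MP_b8021b_nt.CM.Arith

/-! Library L7, first part: holomorphic functions on the upper half plane and their orders. -/

namespace Pool.Agent.P.MP_b8021b_nt.CM

open Complex hiding Gamma
open UpperHalfPlane hiding I
open CongruenceSubgroup Filter
open scoped Real MatrixGroups Modular Topology Manifold

noncomputable section

variable {f g : ℍ → ℂ} {M N : ℕ}

namespace HolP

theorem mem_U (τ : ℍ) : {z : ℂ | 0 < z.im} ∈ 𝓝 (τ : ℂ) :=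
  isOpen_upperHalfPlaneSet.mem_nhds τ.im_pos

theorem ev_iff {p : ℂ → Prop} {τ : ℍ} : (∀ᶠ σ : ℍ in 𝓝 τ, p σ) ↔ ∀ᶠ z in 𝓝 (τ : ℂ), p z := by
  rw [← isOpenEmbedding_coe.map_nhds_eq, eventually_map]

theorem ev_of {p : ℍ → Prop} {τ : ℍ} (h : ∀ᶠ σ : ℍ in 𝓝 τ, p σ) :
    ∀ᶠ z in 𝓝 (τ : ℂ), p (ofComplex z) := by
  rw [← ev_iff]
  simpa only [ofComplex_apply] using h

theorem det_toR {Y : M2} (hY : Y.det ≠ 0) : (toR (toG Y)).val.det = (Y.det : ℝ) := by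
  have h1 : (toR (toG Y)).val = (Rat.castHom ℝ).mapMatrix (toG Y).val := rfl
  rw [h1, ← RingHom.map_det, toG_val hY]
  rfl

theorem det_pos {Y : M2} (hY : 0 < Y.det) : 0 < (toR (toG Y)).val.det := by
  rw [det_toR hY.ne']
  exact_mod_cast hY

theorem act_def (Y : M2) (τ : ℍ) : act Y τ = toR (toG Y) • τ := rfl

theorem det_SL (γ : SL) : (castZ γ.1).det = 1 := by
  rw [castZ_det, γ.2]
  rfl

theorem det_SL_pos (γ : SL) : 0 < (castZ γ.1).det := by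
  rw [det_SL]
  exact one_pos

theorem comp_smul_eq (f : ℍ → ℂ) (m : ℍ → ℍ) :
    (fun σ => f (m σ)) ∘ ofComplex = (f ∘ ofComplex) ∘ fun z => ((m (ofComplex z) : ℍ) : ℂ) := by
  ext z
  simp only [Function.comp_apply, ofComplex_apply]

end HolP

open HolP

theorem hol_iff_mdiff : Hol f ↔ MDifferentiable 𝓘(ℂ) 𝓘(ℂ) f := mdifferentiable_iff.symm

theorem Hol.continuous (h : Hol f) : Continuous f := (hol_iff_mdiff.1 h).continuous

theorem Hol.analyticAt (h : Hol f) (τ : ℍ) : AnalyticAt ℂ (f ∘ ofComplex) τ :=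
  DifferentiableOn.analyticAt h (mem_U τ)

theorem hol_of_differentiableOn {F : ℂ → ℂ} (h : DifferentiableOn ℂ F {z | 0 < z.im}) :
    Hol fun τ => F τ :=
  DifferentiableOn.congr h fun z hz => by
    simp only [Function.comp_apply, ofComplex_apply_of_im_pos hz]

theorem hol_const (c : ℂ) : Hol fun _ => c := differentiableOn_const c

theorem hol_coe : Hol fun τ => (τ : ℂ) := hol_of_differentiableOn (F := id) differentiableOn_id

theorem hol_e (a : ℂ) : Hol fun τ => e (a * τ) :=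
  hol_of_differentiableOn (F := fun z => e (a * z)) (by unfold e; fun_prop)

theorem Hol.add (h : Hol f) (h' : Hol g) : Hol (f + g) := DifferentiableOn.add h h'

theorem Hol.sub (h : Hol f) (h' : Hol g) : Hol (f - g) := DifferentiableOn.sub h h'

theorem Hol.mul (h : Hol f) (h' : Hol g) : Hol (f * g) := DifferentiableOn.mul h h'

theorem Hol.smul (c : ℂ) (h : Hol f) : Hol (c • f) := DifferentiableOn.const_smul h c

theorem Hol.pow (h : Hol f) (n : ℕ) : Hol (f ^ n) := DifferentiableOn.pow h n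

theorem Hol.inv (h : Hol f) (h0 : ∀ τ, f τ ≠ 0) : Hol fun τ => (f τ)⁻¹ :=
  DifferentiableOn.inv h fun _ _ => h0 _

theorem Hol.sum {ι : Type} (s : Finset ι) (F : ι → ℍ → ℂ) (h : ∀ i ∈ s, Hol (F i)) :
    Hol (∑ i ∈ s, F i) :=
  Finset.sum_induction F Hol (fun _ _ => Hol.add) (hol_const 0) h

theorem Hol.prod {ι : Type} (s : Finset ι) (F : ι → ℍ → ℂ) (h : ∀ i ∈ s, Hol (F i)) :
    Hol (∏ i ∈ s, F i) :=
  Finset.prod_induction F Hol (fun _ _ => Hol.mul) (hol_const 1) h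

theorem Hol.comp_act (h : Hol f) {Y : M2} (hY : 0 < Y.det) : Hol fun τ => f (act Y τ) := by
  rw [hol_iff_mdiff] at h ⊢
  refine h.comp (mdifferentiable_smul (g := toR (toG Y)) ?_)
  rw [Matrix.GeneralLinearGroup.val_det_apply]
  exact det_pos hY

theorem Hol.smulSL (h : Hol f) (γ : SL) : Hol fun τ => f (γ • τ) := by
  simpa only [act_SL] using h.comp_act (det_SL_pos γ)

theorem hol_jf (γ : SL) : Hol (jf γ) :=
  hol_of_differentiableOn (F := fun z => ((γ 1 0 : ℤ) : ℂ) * z + (γ 1 1 : ℤ)) (by fun_prop)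

theorem hol_jf_zpow (γ : SL) (k : ℤ) : Hol fun τ => jf γ τ ^ k :=
  DifferentiableOn.zpow (hol_jf γ) (Or.inl fun _ _ => jf_ne_zero γ _)

theorem Hol.slash (h : Hol f) (k : ℤ) (γ : SL) : Hol (sl k γ f) :=
  (h.smulSL γ).mul (hol_jf_zpow γ (-k))

theorem Hol.deriv (h : Hol f) : Hol (der f) :=
  hol_of_differentiableOn (F := _root_.deriv (f ∘ ofComplex))
    (DifferentiableOn.deriv h isOpen_upperHalfPlaneSet)

theorem hol_tsum {ι : Type} {F : ι → ℍ → ℂ} (h : ∀ i, Hol (F i))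
    (hb : ∀ K : Set ℍ, IsCompact K → ∃ u : ι → ℝ, Summable u ∧ ∀ i, ∀ τ ∈ K, ‖F i τ‖ ≤ u i) :
    Hol fun τ => ∑' i, F i τ := by
  intro z hz
  obtain ⟨K, hK, hK'⟩ := exists_compact_mem_nhds (⟨z, hz⟩ : ℍ)
  obtain ⟨u, hu, hb⟩ := hb K hK
  have h1 : ∀ᶠ w in 𝓝 z, ofComplex w ∈ K := ev_of (τ := ⟨z, hz⟩) hK'
  obtain ⟨V, hV, hVo, hzV⟩ := eventually_nhds_iff.1 (h1.and (mem_U ⟨z, hz⟩))
  have h2 : DifferentiableOn ℂ (fun w => ∑' i, (F i ∘ ofComplex) w) V :=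
    differentiableOn_tsum_of_summable_norm hu
      (fun i => DifferentiableOn.mono (h i) fun w hw => (hV w hw).2) hVo
      fun i w hw => hb i _ (hV w hw).1
  exact (h2.differentiableAt (hVo.mem_nhds hzV)).differentiableWithinAt

theorem Hol.eq_zero_of_frequently (h : Hol f) {τ : ℍ} (h0 : ∃ᶠ σ in 𝓝[≠] τ, f σ = 0) : f = 0 :=
  UpperHalfPlane.eq_zero_of_frequently (hol_iff_mdiff.1 h) h0

/-- identity theorem -/
theorem Hol.eq_zero (h : Hol f) {τ : ℍ} (h0 : ∀ᶠ σ : ℍ in 𝓝 τ, f σ = 0) : f = 0 :=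
  h.eq_zero_of_frequently (τ := τ) (h0.filter_mono nhdsWithin_le_nhds).frequently

theorem Hol.eq_of_high (h : Hol f) (h' : Hol g) {Y : ℝ} (e : ∀ τ : ℍ, Y < τ.im → f τ = g τ) :
    f = g := by
  have h1 : 0 < ((|Y| + 1 : ℝ) * I : ℂ).im := by
    simp only [mul_im, ofReal_re, Complex.I_im, ofReal_im, Complex.I_re, mul_one, mul_zero,
      add_zero]
    positivity
  have h2 : Y < (⟨_, h1⟩ : ℍ).im := by
    change Y < ((|Y| + 1 : ℝ) * I : ℂ).im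
    simp only [mul_im, ofReal_re, Complex.I_im, ofReal_im, Complex.I_re, mul_one, mul_zero,
      add_zero]
    linarith [le_abs_self Y]
  have h3 : ∀ᶠ σ : ℍ in 𝓝 ⟨_, h1⟩, Y < σ.im :=
    (isOpen_lt continuous_const UpperHalfPlane.continuous_im).mem_nhds h2
  exact sub_eq_zero.1 ((h.sub h').eq_zero (h3.mono fun σ hσ => sub_eq_zero.2 (e σ hσ)))

theorem Hol.mul_eq_zero (h : Hol f) (h' : Hol g) (e : f * g = 0) : f = 0 ∨ g = 0 :=
  (mul_eq_zero_iff (hol_iff_mdiff.1 h) (hol_iff_mdiff.1 h')).1 e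

theorem sl_mul (k : ℤ) (γ δ : SL) (f : ℍ → ℂ) : sl k (γ * δ) f = sl k δ (sl k γ f) := by
  ext τ
  simp only [sl, mul_smul, jf_mul, mul_zpow, mul_assoc]

theorem sl_one (k : ℤ) (f : ℍ → ℂ) : sl k 1 f = f := by
  ext τ
  simp only [sl, one_smul, jf_one, one_zpow, mul_one]

theorem der_act (h : Hol f) {Y : M2} (hY : 0 < Y.det) (τ : ℍ) :
    der (fun σ => f (act Y σ)) τ =
      der f (act Y τ) * (Y.det / ((Y 1 0 : ℂ) * τ + Y 1 1) ^ 2) := by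
  have h1 := (hasStrictDerivAt_smul (det_pos hY) τ).hasDerivAt
  have h2 : HasDerivAt (f ∘ ofComplex) (der f (act Y τ))
      ((fun z => ((toR (toG Y) • ofComplex z : ℍ) : ℂ)) τ) := by
    simp only [ofComplex_apply]
    exact (h.analyticAt _).differentiableAt.hasDerivAt
  have h3 := (h2.comp (τ : ℂ) h1).deriv
  have h4 : denom (toR (toG Y)) τ = (Y 1 0 : ℂ) * τ + Y 1 1 := by
    have h5 : (toR (toG Y)).val = (Rat.castHom ℝ).mapMatrix (toG Y).val := rfl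
    simp only [denom, h5, toG_val hY.ne', RingHom.mapMatrix_apply, Matrix.map_apply, eq_ratCast,
      ofReal_ratCast]
  rw [der, comp_smul_eq f (act Y)]
  refine h3.trans ?_
  rw [h4, det_toR hY.ne', ofReal_ratCast]

theorem der_SL (h : Hol f) (γ : SL) (τ : ℍ) :
    der (fun σ => f (γ • σ)) τ = der f (γ • τ) / jf γ τ ^ 2 := by
  have h1 := der_act h (det_SL_pos γ) τ
  simp only [act_SL, det_SL] at h1
  rw [h1, jf, div_eq_mul_one_div (der f _)]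
  simp [castZ]

/-! ### orders -/

theorem Hol.ne_top (h : Hol f) (h0 : f ≠ 0) (τ : ℍ) : analyticOrderAt (f ∘ ofComplex) τ ≠ ⊤ := by
  intro ht
  refine h0 (h.eq_zero (τ := τ) ?_)
  have h1 := ev_iff.2 (analyticOrderAt_eq_top.1 ht)
  simpa only [Function.comp_apply, ofComplex_apply] using h1

theorem Hol.cast_ord (h : Hol f) (h0 : f ≠ 0) (τ : ℍ) :
    (ordAt f τ : ℕ∞) = analyticOrderAt (f ∘ ofComplex) τ :=
  Nat.cast_analyticOrderNatAt (h.ne_top h0 τ)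

theorem Hol.ord_eq_zero_iff (h : Hol f) (h0 : f ≠ 0) (τ : ℍ) : ordAt f τ = 0 ↔ f τ ≠ 0 := by
  rw [← Nat.cast_eq_zero (R := ℕ∞), h.cast_ord h0, (h.analyticAt τ).analyticOrderAt_eq_zero,
    Function.comp_apply, ofComplex_apply]

theorem Hol.ord_mul (h : Hol f) (h' : Hol g) (h0 : f ≠ 0) (h0' : g ≠ 0) (τ : ℍ) :
    ordAt (f * g) τ = ordAt f τ + ordAt g τ :=
  analyticOrderNatAt_mul (h.analyticAt τ) (h'.analyticAt τ) (h.ne_top h0 τ) (h'.ne_top h0' τ)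

theorem Hol.ord_pow (h : Hol f) (_h0 : f ≠ 0) (n : ℕ) (τ : ℍ) :
    ordAt (f ^ n) τ = n * ordAt f τ :=
  analyticOrderNatAt_pow (h.analyticAt τ) n

theorem Hol.prod_ne_zero {ι : Type} (s : Finset ι) (F : ι → ℍ → ℂ)
    (h : ∀ i ∈ s, Hol (F i) ∧ F i ≠ 0) : ∏ i ∈ s, F i ≠ 0 := by
  intro h0
  obtain ⟨i, hi, e⟩ := (prod_eq_zero_iff fun i hi => hol_iff_mdiff.1 (h i hi).1).1 h0
  exact (h i hi).2 e

theorem Hol.ord_prod {ι : Type} (s : Finset ι) (F : ι → ℍ → ℂ) (h : ∀ i ∈ s, Hol (F i) ∧ F i ≠ 0)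
    (τ : ℍ) : ordAt (∏ i ∈ s, F i) τ = ∑ i ∈ s, ordAt (F i) τ := by
  classical
  induction s using Finset.induction_on with
  | empty =>
    rw [Finset.prod_empty, Finset.sum_empty]
    exact ((hol_const 1).ord_eq_zero_iff one_ne_zero τ).2 one_ne_zero
  | insert a s ha ih =>
    have h1 : ∀ i ∈ s, Hol (F i) ∧ F i ≠ 0 := fun i hi => h i (Finset.mem_insert_of_mem hi)
    have h2 := h a (Finset.mem_insert_self a s)
    rw [Finset.prod_insert ha, Finset.sum_insert ha,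
      h2.1.ord_mul (Hol.prod s F fun i hi => (h1 i hi).1) h2.2 (Hol.prod_ne_zero s F h1), ih h1]

theorem Hol.min_le_ord_add (h : Hol f) (h' : Hol g) (h0 : f + g ≠ 0) (hf : f ≠ 0) (hg : g ≠ 0)
    (τ : ℍ) : min (ordAt f τ) (ordAt g τ) ≤ ordAt (f + g) τ := by
  have h1 : min (analyticOrderAt (f ∘ ofComplex) τ) (analyticOrderAt (g ∘ ofComplex) τ) ≤
      analyticOrderAt ((f + g) ∘ ofComplex) τ := le_analyticOrderAt_add
  rw [← h.cast_ord hf, ← h'.cast_ord hg, ← (h.add h').cast_ord h0, min_le_iff, Nat.cast_le,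
    Nat.cast_le] at h1
  exact min_le_iff.2 h1

theorem Hol.ord_act (_h : Hol f) {Y : M2} (hY : 0 < Y.det) (τ : ℍ) :
    ordAt (fun σ => f (act Y σ)) τ = ordAt f (act Y τ) := by
  rw [ordAt, ordAt, analyticOrderNatAt, analyticOrderNatAt, comp_smul_eq f (act Y)]
  congr 1
  refine (analyticOrderAt_comp_of_deriv_ne_zero (analyticAt_smul (det_pos hY) τ)
    (deriv_smul_ne_zero (det_pos hY) τ)).trans ?_
  simp only [ofComplex_apply, act_def]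

theorem Hol.ord_SL (h : Hol f) (γ : SL) (τ : ℍ) :
    ordAt (fun σ => f (γ • σ)) τ = ordAt f (γ • τ) := by
  simpa only [act_SL] using h.ord_act (det_SL_pos γ) τ

theorem Hol.ord_bounds (h : Hol f) (h0 : f ≠ 0) (τ : ℍ) : ∃ c C : ℝ, 0 < c ∧ ∀ᶠ σ : ℍ in 𝓝 τ,
    c * ‖(σ : ℂ) - τ‖ ^ ordAt f τ ≤ ‖f σ‖ ∧ ‖f σ‖ ≤ C * ‖(σ : ℂ) - τ‖ ^ ordAt f τ := by
  obtain ⟨G, hG, hG0, e⟩ := (h.analyticAt τ).analyticOrderAt_ne_top.1 (h.ne_top h0 τ)
  have h1 : 0 < ‖G τ‖ := norm_pos_iff.2 hG0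
  have h2 : Tendsto (fun z => ‖G z‖) (𝓝 τ) (𝓝 ‖G τ‖) := hG.continuousAt.norm
  refine ⟨‖G τ‖ / 2, 2 * ‖G τ‖, by positivity, ?_⟩
  have h3 := (h2.eventually (lt_mem_nhds (show ‖G τ‖ / 2 < ‖G τ‖ by linarith))).and
    ((h2.eventually (gt_mem_nhds (show ‖G τ‖ < 2 * ‖G τ‖ by linarith))).and e)
  refine (ev_iff.2 h3).mono fun σ hσ => ?_
  have h4 : f σ = ((σ : ℂ) - τ) ^ ordAt f τ * G σ := by
    simpa only [Function.comp_apply, ofComplex_apply, smul_eq_mul, ordAt] using hσ.2.2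
  have h5 : 0 ≤ ‖(σ : ℂ) - τ‖ ^ ordAt f τ := by positivity
  rw [h4, norm_mul, norm_pow, mul_comm _ ‖G σ‖]
  exact ⟨mul_le_mul_of_nonneg_right hσ.1.le h5, mul_le_mul_of_nonneg_right hσ.2.1.le h5⟩

theorem HolP.pow_le {τ : ℍ} {c C : ℝ} (hc : 0 < c) {m k : ℕ}
    (hb : ∀ᶠ σ : ℍ in 𝓝 τ, c * ‖(σ : ℂ) - τ‖ ^ m ≤ C * ‖(σ : ℂ) - τ‖ ^ k) : k ≤ m := by
  by_contra hk
  obtain ⟨j, rfl⟩ : ∃ j, k = m + (j + 1) := ⟨k - m - 1, by omega⟩
  have h1 : Tendsto (fun σ : ℍ => C * ‖(σ : ℂ) - τ‖ ^ (j + 1)) (𝓝 τ) (𝓝 0) := by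
    have h2 : Continuous fun σ : ℍ => C * ‖(σ : ℂ) - τ‖ ^ (j + 1) := by fun_prop
    simpa using h2.tendsto τ
  have h3 := ((hb.and (h1.eventually (gt_mem_nhds hc))).filter_mono
    (nhdsWithin_le_nhds (s := {τ}ᶜ))).and self_mem_nhdsWithin
  obtain ⟨σ, ⟨h4, h5⟩, h6⟩ := h3.exists
  have h7 : 0 < ‖(σ : ℂ) - τ‖ ^ m :=
    pow_pos (norm_pos_iff.2 (sub_ne_zero.2 fun e => h6 (UpperHalfPlane.ext e))) m
  rw [pow_add] at h4
  nlinarith

theorem Hol.le_ord (h : Hol f) (h0 : f ≠ 0) {τ : ℍ} {a k : ℕ} {C : ℝ}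
    (hb : ∀ᶠ σ : ℍ in 𝓝 τ, ‖f σ‖ ^ a ≤ C * ‖(σ : ℂ) - τ‖ ^ k) : k ≤ a * ordAt f τ := by
  obtain ⟨c, C', hc, h1⟩ := h.ord_bounds h0 τ
  refine HolP.pow_le (τ := τ) (C := C) (pow_pos hc a) ?_
  filter_upwards [hb, h1] with σ h2 h3
  rw [mul_comm a, pow_mul, ← mul_pow]
  exact (pow_le_pow_left₀ (by positivity) h3.1 a).trans h2

theorem Hol.ord_eq (h : Hol f) {τ : ℍ} {a k : ℕ} (ha : 0 < a) {c C : ℝ} (hc : 0 < c)
    (hb : ∀ᶠ σ : ℍ in 𝓝 τ, c * ‖(σ : ℂ) - τ‖ ^ k ≤ ‖f σ‖ ^ a ∧ ‖f σ‖ ^ a ≤ C * ‖(σ : ℂ) - τ‖ ^ k) :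
    f ≠ 0 ∧ a * ordAt f τ = k := by
  have h0 : f ≠ 0 := by
    rintro rfl
    have h1 : ∀ᶠ σ : ℍ in 𝓝 τ, c * ‖(σ : ℂ) - τ‖ ^ k ≤ 0 * ‖(σ : ℂ) - τ‖ ^ (k + 1) :=
      hb.mono fun σ hσ => by simpa [ha.ne'] using hσ.1
    have := HolP.pow_le hc h1
    omega
  refine ⟨h0, le_antisymm ?_ (h.le_ord h0 (hb.mono fun σ hσ => hσ.2))⟩
  obtain ⟨c', C', -, h1⟩ := h.ord_bounds h0 τ
  refine HolP.pow_le (τ := τ) (C := C' ^ a) hc ?_
  filter_upwards [hb, h1] with σ h2 h3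
  rw [mul_comm a, pow_mul, ← mul_pow]
  exact h2.1.trans (pow_le_pow_left₀ (norm_nonneg _) h3.2 a)

theorem der_iterate (f : ℍ → ℂ) (i : ℕ) (τ : ℍ) :
    der^[i] f τ = iteratedDeriv i (f ∘ ofComplex) τ := by
  induction i generalizing τ with
  | zero => simp only [Function.iterate_zero, id, iteratedDeriv_zero, Function.comp_apply,
      ofComplex_apply]
  | succ i ih =>
    rw [Function.iterate_succ_apply', iteratedDeriv_succ, der]
    refine Filter.EventuallyEq.deriv_eq ?_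
    refine ev_iff.1 (Eventually.of_forall fun σ => ?_)
    rw [Function.comp_apply, ofComplex_apply, ih]

theorem Hol.le_ord_iff (h : Hol f) (h0 : f ≠ 0) (τ : ℍ) (k : ℕ) :
    k ≤ ordAt f τ ↔ ∀ i < k, der^[i] f τ = 0 := by
  simp only [der_iterate]
  rw [← natCast_le_analyticOrderAt_iff_iteratedDeriv_eq_zero (h.analyticAt τ), ← h.cast_ord h0,
    Nat.cast_le]

/-- division -/
theorem Hol.exists_div (h : Hol f) (h' : Hol g) (h0 : g ≠ 0)
    (hb : ∀ τ, ∃ C : ℝ, ∀ᶠ σ : ℍ in 𝓝 τ, ‖f σ‖ ≤ C * ‖g σ‖) : ∃ q, Hol q ∧ f = q * g := by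
  by_cases hf : f = 0
  · exact ⟨0, hol_const 0, by rw [hf, zero_mul]⟩
  have key : ∀ τ : ℍ, ∃ H : ℂ → ℂ, AnalyticAt ℂ H τ ∧ ∀ᶠ σ : ℍ in 𝓝 τ, f σ = H σ * g σ := by
    intro τ
    obtain ⟨C, h1⟩ := hb τ
    obtain ⟨c', C', -, h2⟩ := h'.ord_bounds h0 τ
    have h3 : ordAt g τ ≤ 1 * ordAt f τ := by
      refine h.le_ord hf (C := |C| * C') ?_
      filter_upwards [h1, h2] with σ h4 h5
      rw [pow_one, mul_assoc]
      exact h4.trans (mul_le_mul (le_abs_self C) h5.2 (norm_nonneg _) (abs_nonneg C))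
    obtain ⟨G, hG, hG0, e⟩ := (h'.analyticAt τ).analyticOrderAt_ne_top.1 (h'.ne_top h0 τ)
    obtain ⟨F, hF, e'⟩ := (natCast_le_analyticOrderAt (h.analyticAt τ) (n := ordAt g τ)).1 (by
      rw [← h.cast_ord hf]
      exact_mod_cast by omega)
    refine ⟨F / G, hF.div hG hG0, ?_⟩
    refine (ev_iff.2 (e.and (e'.and (hG.continuousAt.eventually_ne hG0)))).mono fun σ hσ => ?_
    have h4 : g σ = ((σ : ℂ) - τ) ^ ordAt g τ * G σ := by
      simpa only [Function.comp_apply, ofComplex_apply, smul_eq_mul, ordAt] using hσ.1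
    have h5 : f σ = ((σ : ℂ) - τ) ^ ordAt g τ * F σ := by
      simpa only [Function.comp_apply, ofComplex_apply, smul_eq_mul] using hσ.2.1
    have h6 := hσ.2.2
    rw [h4, h5, Pi.div_apply]
    field_simp
  choose H hH e using key
  refine ⟨fun τ => H τ τ, fun z hz => ?_, funext fun τ => (e τ).self_of_nhds⟩
  have h1 : ∀ᶠ σ : ℍ in 𝓝 ⟨z, hz⟩, H σ σ = H ⟨z, hz⟩ σ := by
    have h2 : ∀ᶠ σ : ℍ in 𝓝[≠] ⟨z, hz⟩, g σ ≠ 0 := by
      by_contra h3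
      exact h0 (h'.eq_zero_of_frequently (τ := ⟨z, hz⟩) (by simpa using h3))
    filter_upwards [eventually_nhdsWithin_iff.1 h2, e ⟨z, hz⟩] with σ h3 h4
    by_cases h5 : σ = ⟨z, hz⟩
    · rw [h5]
    · exact mul_right_cancel₀ (h3 h5) ((e σ).self_of_nhds.symm.trans h4)
  refine ((hH ⟨z, hz⟩).differentiableAt.congr_of_eventuallyEq ?_).differentiableWithinAt
  refine (ev_iff (τ := ⟨z, hz⟩)).1 (h1.mono fun σ hσ => ?_)
  simpa only [Function.comp_apply, ofComplex_apply] using hσ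

end

end Pool.Agent.P.MP_b8021b_nt.CM
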