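import Pool.Agent.P.MP_b8021b_nt.CM.Lib
import Pool.Agent.P.MP_b8021b_nt.CM.StmtsW

/-! Package P18, first part: the laws of `JX`. -/

namespace Pool.Agent.P.MP_b8021b_nt.CM

open Complex hiding Gamma
open UpperHalfPlane hiding I
open MeasureTheory CongruenceSubgroup Filter
open scoped Real MatrixGroups ModularForm Topology ComplexConjugate Modular

noncomputable section

namespace JXLP

/-! ### a summable majorant -/

def hh (n : ℤ) : ℝ := 1 / (1 + (n : ℝ) ^ 2)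

theorem hh_nonneg (n : ℤ) : 0 ≤ hh n := by unfold hh; positivity

theorem summable_hh : Summable hh := by
  have h1 : Summable fun n : ℤ => 1 / (n : ℝ) ^ 2 := Real.summable_one_div_int_pow.2 one_lt_two
  refine Summable.of_norm_bounded_eventually h1 ?_
  filter_upwards [(Set.finite_singleton (0 : ℤ)).compl_mem_cofinite] with n hn
  have hn' : (n : ℝ) ≠ 0 := by exact_mod_cast hn
  rw [Real.norm_of_nonneg (hh_nonneg n), hh]
  exact one_div_le_one_div_of_le (by positivity) (by linarith)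

theorem summable_hh2 : Summable fun q : ℤ × ℤ => hh q.1 * hh q.2 :=
  summable_hh.mul_of_nonneg summable_hh hh_nonneg hh_nonneg

def WW : ℝ := ∑' q : ℤ × ℤ, hh q.1 * hh q.2

theorem WW_nonneg : 0 ≤ WW := tsum_nonneg fun _ => mul_nonneg (hh_nonneg _) (hh_nonneg _)

theorem sum_bound {f : ℚ × ℚ → ℝ} (h0 : ∀ p, 0 ≤ f p) {α β : ℚ} (hα : α ≠ 0) (hβ : β ≠ 0)
    {B : ℝ} (hB : 0 ≤ B) (h : ∀ p, f p ≠ 0 → ∃ μ ν : ℤ, α * p.1 = μ ∧ β * p.2 = ν ∧
      f p ≤ B * (hh μ * hh ν)) : Summable f ∧ ∑' p, f p ≤ B * WW := by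
  let g : ℤ × ℤ → ℚ × ℚ := fun q => (q.1 / α, q.2 / β)
  have hg : Function.Injective g := by
    rintro ⟨a, b⟩ ⟨a', b'⟩ e
    simp only [g, Prod.mk.injEq, div_left_inj' hα, div_left_inj' hβ, Int.cast_inj] at e
    exact Prod.ext e.1 e.2
  have hs : Function.support f ⊆ Set.range g := by
    intro p hp
    obtain ⟨μ, ν, h1, h2, -⟩ := h p hp
    refine ⟨(μ, ν), Prod.ext ?_ ?_⟩
    · simp only [g]; rw [← h1]; field_simp
    · simp only [g]; rw [← h2]; field_simp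
  have hle : ∀ q, f (g q) ≤ B * (hh q.1 * hh q.2) := by
    intro q
    by_cases hq : f (g q) = 0
    · rw [hq]; exact mul_nonneg hB (mul_nonneg (hh_nonneg _) (hh_nonneg _))
    · obtain ⟨μ, ν, h1, h2, h3⟩ := h _ hq
      simp only [g, mul_div_cancel₀ _ hα, mul_div_cancel₀ _ hβ, Int.cast_inj] at h1 h2
      rw [h1, h2]; exact h3
  have hsum : Summable (f ∘ g) :=
    Summable.of_nonneg_of_le (fun q => h0 _) hle (summable_hh2.mul_left B)
  refine ⟨(hg.summable_iff fun x hx => ?_).1 hsum, ?_⟩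
  · by_contra hne
    exact hx (hs hne)
  · rw [← hg.tsum_eq hs, WW, ← tsum_mul_left]
    exact hsum.tsum_le_tsum hle (summable_hh2.mul_left B)

theorem exp_six {a : ℝ} (ha : 0 < a) {μ : ℤ} (hμ : 0 < μ) :
    (1 + (μ : ℝ)) ^ 4 * Real.exp (-(a * μ)) ≤ 23040 / a ^ 6 * hh μ := by
  have h1 : (1 : ℝ) ≤ μ := by exact_mod_cast hμ
  have h2 := Real.pow_div_factorial_le_exp (a * μ) (by positivity) 6
  have h3 : Real.exp (-(a * μ)) ≤ 720 / (a * μ) ^ 6 := by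
    rw [Real.exp_neg, le_div_iff₀ (by positivity), inv_mul_le_iff₀ (Real.exp_pos _)]
    norm_num [Nat.factorial] at h2
    linarith
  have h4 : (1 + (μ : ℝ)) ^ 4 ≤ (2 * μ) ^ 4 := by gcongr; linarith
  calc (1 + (μ : ℝ)) ^ 4 * Real.exp (-(a * μ)) ≤ (2 * μ) ^ 4 * (720 / (a * μ) ^ 6) := by gcongr
    _ = 23040 / a ^ 6 * (1 / (2 * (μ : ℝ) ^ 2)) := by field_simp; norm_num
    _ ≤ 23040 / a ^ 6 * hh μ := by
      unfold hh
      gcongr
      nlinarith

theorem exp_sq {a : ℝ} (ha : 0 < a) (ν : ℤ) :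
    Real.exp (-(a * ν ^ 2)) ≤ (1 + 1 / a) * hh ν := by
  have h1 : Real.exp (-(a * ν ^ 2)) ≤ 1 := Real.exp_le_one_iff.2 (by
    have : 0 ≤ a * (ν : ℝ) ^ 2 := by positivity
    linarith)
  have h2 : a * ν ^ 2 * Real.exp (-(a * ν ^ 2)) ≤ 1 :=
    (Real.mul_exp_neg_le_exp_neg_one _).trans (Real.exp_le_one_iff.2 (by norm_num))
  have h3 : (ν : ℝ) ^ 2 * Real.exp (-(a * ν ^ 2)) ≤ 1 / a := by
    rw [le_div_iff₀ ha]; linarith
  rw [hh, mul_one_div, le_div_iff₀ (by positivity)]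
  linarith

/-! ### absolute convergence -/

variable {s : ℍ → ℍ → ℂ} {d M : ℕ} {v : U6 → U6 → ℂ}

/-- the absolute value of the general term at height `y` -/
def JB (s : ℍ → ℍ → ℂ) (d : ℕ) (v : U6 → U6 → ℂ) (x : Q2) (y : ℝ) (p : ℚ × ℚ) : ℝ :=
  ‖aa s d v x p.1 p.2‖ * Real.exp (-2 * π * (Nm d x * (y * (p.1 + d * p.2 ^ 2))))

/-- the general term -/
def JT (s : ℍ → ℍ → ℂ) (d : ℕ) (v : U6 → U6 → ℂ) (x : Q2) (τ : ℍ) (p : ℚ × ℚ) : ℂ :=
  aa s d v x p.1 p.2 * e (Nm d x * (τ * p.1 - conj (τ : ℂ) * d * p.2 ^ 2))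

theorem JX_eq (x : Q2) (τ : ℍ) : JX s d v x τ =
    (((4 * τ.im * Nm d x : ℝ) ^ (-(1 / 2) : ℝ) : ℝ) : ℂ) * ∑' p, JT s d v x τ p := rfl

theorem norm_JT (x : Q2) (τ : ℍ) (p : ℚ × ℚ) : ‖JT s d v x τ p‖ = JB s d v x τ.im p := by
  rw [JT, norm_mul, norm_e, JB]
  congr 3
  have e1 : ((Nm d x : ℚ) : ℂ) = ((Nm d x : ℝ) : ℂ) := by norm_cast
  have e2 : ((p.1 : ℚ) : ℂ) = ((p.1 : ℝ) : ℂ) := by norm_cast
  have e3 : (d : ℂ) * ((p.2 : ℚ) : ℂ) ^ 2 = ((d * (p.2 : ℝ) ^ 2 : ℝ) : ℂ) := by norm_cast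
  rw [mul_assoc (conj (τ : ℂ)), e1, e2, e3, im_ofReal_mul, sub_im, im_mul_ofReal, im_mul_ofReal,
    conj_im, UpperHalfPlane.coe_im]
  ring

theorem JB_nonneg (x : Q2) (y : ℝ) (p : ℚ × ℚ) : 0 ≤ JB s d v x y p := by
  unfold JB; positivity

theorem JB_bound (hAA : S_AAW) (hs : InW s) (hd : 0 < d) (hM : 0 < M) (hv : LevV d M v) :
    ∃ K : ℝ, 0 ≤ K ∧ ∀ (x : Q2) (y : ℝ), 0 < y → Summable (JB s d v x y) ∧
      ∑' p, JB s d v x y p ≤ K * Nm d x * (Nm d x / y) ^ 6 * (1 + Nm d x / y) := by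
  obtain ⟨C, hC, -, hb⟩ := hAA s hs d M hd hM v hv
  have hM' : (1 : ℝ) ≤ M := by exact_mod_cast hM
  have hd' : (1 : ℝ) ≤ d := by exact_mod_cast hd
  have hW := WW_nonneg
  refine ⟨C * 23040 * (M : ℝ) ^ 24 * (M : ℝ) ^ 4 * WW, by positivity, fun x y hy => ?_⟩
  by_cases hx : x = 0
  · have : JB s d v x y = 0 := by
      funext p
      have : aa s d v x p.1 p.2 = 0 := by
        by_contra h
        exact (aa_supp hv h).1 hx
      simp [JB, this]
    rw [this]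
    refine ⟨summable_zero, ?_⟩
    simp [hx, Nm]
  have hj : 0 < Nm d x := Nm_pos hd hx
  set j : ℚ := Nm d x with hjd
  have hj' : (0 : ℝ) < j := by exact_mod_cast hj
  set a : ℝ := y / (j * (M : ℝ) ^ 4) with ha
  have ha0 : 0 < a := by positivity
  have hMq : (M : ℚ) ≠ 0 := by exact_mod_cast hM.ne'
  obtain ⟨h1, h2⟩ := sum_bound (f := JB s d v x y) (JB_nonneg x y)
    (α := (M : ℚ) ^ 4 * (4 * j ^ 2)) (β := (M : ℚ) ^ 2 * j) (by positivity) (by positivity)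
    (B := C * j * (23040 / a ^ 6) * (1 + 1 / a)) (by positivity) (by
      intro p hp
      have hne : aa s d v x p.1 p.2 ≠ 0 := by
        intro h; apply hp; simp [JB, h]
      obtain ⟨-, -, hm, hl, hm', -⟩ := aa_supp hv hne
      obtain ⟨ν, hν⟩ := (isInt_rat _).1 hl
      obtain ⟨μ, hμ⟩ := (isInt_rat _).1 hm'
      rw [smul_eq_mul, ← hjd] at hν hμ
      have hμ0 : 0 < μ := by
        have : (0 : ℚ) < μ := by rw [← hμ]; positivity
        exact_mod_cast this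
      refine ⟨μ, ν, by rw [← hμ]; ring, by rw [← hν]; ring, ?_⟩
      have hμr : (M : ℝ) ^ 4 * (4 * (j : ℝ) ^ 2 * p.1) = μ := by exact_mod_cast hμ
      have hνr : (M : ℝ) ^ 2 * (p.2 * (j : ℝ)) = ν := by exact_mod_cast hν
      have hm0 : (0 : ℝ) < p.1 := by exact_mod_cast hm
      have e1 : (j : ℝ) ^ 2 * |(p.1 : ℝ)| ≤ μ := by
        rw [abs_of_pos hm0, ← hμr]
        have : (1 : ℝ) ≤ (M : ℝ) ^ 4 := one_le_pow₀ hM'
        have h0 : (0 : ℝ) ≤ (j : ℝ) ^ 2 * p.1 := by positivity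
        nlinarith
      have e2 : a * μ = 4 * (j * (y * p.1)) := by rw [← hμr, ha]; field_simp
      have e3 : a * ν ^ 2 = j * (y * p.2 ^ 2) := by rw [← hνr, ha]; field_simp
      have e4 : Real.exp (-2 * π * (j * (y * (p.1 + d * p.2 ^ 2)))) ≤
          Real.exp (-(a * μ)) * Real.exp (-(a * ν ^ 2)) := by
        rw [← Real.exp_add, Real.exp_le_exp, e2, e3]
        have hpi := Real.pi_gt_three
        have h5 : (0 : ℝ) ≤ j * (y * p.1) := by positivity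
        have h6 : (0 : ℝ) ≤ j * (y * p.2 ^ 2) := by positivity
        have h7 : (0 : ℝ) ≤ (π * d - 1) * (j * (y * p.2 ^ 2)) :=
          mul_nonneg (by nlinarith) h6
        have h8 : (0 : ℝ) ≤ (π - 2) * (j * (y * p.1)) := mul_nonneg (by linarith) h5
        nlinarith
      have e5 : ‖aa s d v x p.1 p.2‖ ≤ C * j * (1 + (μ : ℝ)) ^ 4 := by
        refine (hb x p.1 p.2).trans ?_
        rw [← hjd]
        gcongr
      calc JB s d v x y p ≤ C * j * (1 + (μ : ℝ)) ^ 4 *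
            (Real.exp (-(a * μ)) * Real.exp (-(a * ν ^ 2))) := by
            unfold JB
            rw [← hjd]
            gcongr
        _ = C * j * ((1 + (μ : ℝ)) ^ 4 * Real.exp (-(a * μ))) * Real.exp (-(a * ν ^ 2)) := by ring
        _ ≤ C * j * (23040 / a ^ 6 * hh μ) * ((1 + 1 / a) * hh ν) := by
            have := hh_nonneg μ
            exact mul_le_mul (mul_le_mul_of_nonneg_left (exp_six ha0 hμ0) (by positivity))
              (exp_sq ha0 ν) (Real.exp_pos _).le (by positivity)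
        _ = _ := by ring)
  refine ⟨h1, h2.trans ?_⟩
  have e1 : 1 / a = (M : ℝ) ^ 4 * (j / y) := by rw [ha]; field_simp
  have e2 : 23040 / a ^ 6 = 23040 * ((M : ℝ) ^ 4 * (j / y)) ^ 6 := by
    rw [← e1]; field_simp
  have e3 : 1 + (M : ℝ) ^ 4 * (j / y) ≤ (M : ℝ) ^ 4 * (1 + j / y) := by
    have : (1 : ℝ) ≤ (M : ℝ) ^ 4 := one_le_pow₀ hM'
    linarith
  rw [e1, e2]
  calc C * j * (23040 * ((M : ℝ) ^ 4 * (j / y)) ^ 6) * (1 + (M : ℝ) ^ 4 * (j / y)) * WW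
      ≤ C * j * (23040 * ((M : ℝ) ^ 4 * (j / y)) ^ 6) * ((M : ℝ) ^ 4 * (1 + j / y)) * WW := by
        gcongr
    _ = _ := by ring

theorem summable_JT (hAA : S_AAW) (hs : InW s) (hd : 0 < d) (hM : 0 < M) (hv : LevV d M v)
    (x : Q2) (τ : ℍ) : Summable (JT s d v x τ) := by
  obtain ⟨K, -, h⟩ := JB_bound hAA hs hd hM hv
  exact Summable.of_norm_bounded (h x τ.im τ.im_pos).1 fun p => (norm_JT x τ p).le

theorem JB_mono (hv : LevV d M v) (x : Q2) {y y' : ℝ} (h : y ≤ y') (p : ℚ × ℚ) :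
    JB s d v x y' p ≤ JB s d v x y p := by
  by_cases hne : aa s d v x p.1 p.2 = 0
  · simp [JB, hne]
  have hm : (0 : ℝ) < p.1 := by exact_mod_cast (aa_supp hv hne).2.2.1
  have hj : (0 : ℝ) ≤ Nm d x := by exact_mod_cast Nm_nonneg d x
  unfold JB
  refine mul_le_mul_of_nonneg_left (Real.exp_le_exp.2 ?_) (norm_nonneg _)
  have : (Nm d x : ℝ) * (y * (p.1 + d * p.2 ^ 2)) ≤ Nm d x * (y' * (p.1 + d * p.2 ^ 2)) := by
    gcongr
  nlinarith [Real.pi_pos]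

theorem continuous_e : Continuous e := by unfold e; fun_prop

theorem continuous_JT (x : Q2) (p : ℚ × ℚ) : Continuous fun τ => JT s d v x τ p := by
  unfold JT
  refine continuous_const.mul (continuous_e.comp ?_)
  fun_prop

theorem continuous_JX (hAA : S_AAW) (hs : InW s) (hd : 0 < d) (hM : 0 < M) (hv : LevV d M v)
    (x : Q2) : Continuous (JX s d v x) := by
  obtain ⟨K, -, h⟩ := JB_bound hAA hs hd hM hv
  have h1 : Continuous fun τ : ℍ => ∑' p, JT s d v x τ p := by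
    rw [continuous_iff_continuousAt]
    intro τ0
    have hy : 0 < τ0.im / 2 := half_pos τ0.im_pos
    have hc : ContinuousOn (fun τ : ℍ => ∑' p, JT s d v x τ p) {τ | τ0.im / 2 < τ.im} :=
      continuousOn_tsum (fun p => (continuous_JT x p).continuousOn) (h x _ hy).1
        fun p τ hτ => (norm_JT x τ p).le.trans (JB_mono hv x (le_of_lt hτ) p)
    exact hc.continuousAt ((isOpen_lt continuous_const UpperHalfPlane.continuous_im).mem_nhds
      (half_lt_self τ0.im_pos))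
  have h2 : Continuous fun τ : ℍ => (((4 * τ.im * Nm d x : ℝ) ^ (-(1 / 2) : ℝ) : ℝ) : ℂ) := by
    by_cases hx : x = 0
    · simp only [hx, Nm, Prod.fst_zero, Prod.snd_zero]
      simp only [ne_eq, OfNat.ofNat_ne_zero, not_false_eq_true, zero_pow, mul_zero, add_zero,
        Rat.cast_zero]
      exact continuous_const
    · have hj : (0 : ℝ) < Nm d x := by exact_mod_cast Nm_pos hd hx
      refine continuous_ofReal.comp (Continuous.rpow_const (by fun_prop) fun τ => Or.inl ?_)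
      have := τ.im_pos
      positivity
  exact h2.mul h1

/-! ### the action on the first variable -/

variable {ρ : SL → (U6 → ℂ) → U6 → ℂ}

theorem rho_zero (hρ : Weil6 d M ρ) (γ : SL) : ρ γ 0 = 0 := by
  have h0 : Lev6 d M (0 : U6 → ℂ) := (levV_zero d M).1 0
  have := hρ.smul γ 0 0 h0
  rwa [zero_smul, zero_smul] at this

theorem levV_r1 (hρ : Weil6 d M ρ) (hv : LevV d M v) (γ : SL) : LevV d M (r1 ρ γ v) := by
  have key : ∀ u' u, r1 ρ γ v u' u ≠ 0 → ∃ u'', v u'' u ≠ 0 := by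
    intro u' u h
    by_contra hn
    push Not at hn
    apply h
    have : (fun u'' => v u'' u) = 0 := funext hn
    rw [r1, this, rho_zero hρ]; rfl
  refine ⟨fun u => hρ.lev γ _ (hv.1 u), fun u' => ⟨fun x => ⟨fun Y k hk => ?_, fun Y h => ?_⟩,
    fun Y => ⟨fun x k l => ?_, fun x h => ?_⟩⟩⟩
  · have : (fun u'' => v u'' (Y + (M : ℚ) • k, x)) = fun u'' => v u'' (Y, x) :=
      funext fun u'' => ((hv.2 u'').1 x).1 Y k hk
    simp only [r1, this]
  · obtain ⟨u'', h'⟩ := key _ _ h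
    exact ((hv.2 u'').1 x).2 Y h'
  · have : (fun u'' => v u'' (Y, x + ((M : ℚ) / 2 * k, (M : ℚ) / (2 * d) * l))) =
        fun u'' => v u'' (Y, x) := funext fun u'' => ((hv.2 u'').2 Y).1 x k l
    simp only [r1, this]
  · obtain ⟨u'', h'⟩ := key _ _ h
    exact ((hv.2 u'').2 Y).2 x h'

theorem r1_mul (hρ : Weil6 d M ρ) (hv : LevV d M v) (γ δ : SL) :
    r1 ρ (γ * δ) v = r1 ρ δ (r1 ρ γ v) := by
  funext u' u
  simp only [r1]
  rw [hρ.mul γ δ _ (hv.1 u)]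

theorem r1_triv (hρ : Weil6 d M ρ) (hv : LevV d M v) {γ : SL} (h : γ ∈ Gamma (M ^ 2)) :
    r1 ρ γ v = v := by
  funext u' u
  simp only [r1]
  rw [hρ.triv γ h _ (hv.1 u)]

theorem QU_comb (x : Q2) (m l a : ℚ) {y' : M2} (h : y'.det = Nm d x * (m + a ^ 2)) :
    QU d (y', a • x + l • perp d x) = Nm d x * (m - d * l ^ 2) := by
  simp only [QU]
  rw [h, (Nm_comb d x a l).1]
  ring

theorem aa_T (hρ : Weil6 d M ρ) (hv : LevV d M v) (x : Q2) (m l : ℚ) :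
    aa s d (r1 ρ ModularGroup.T v) x m l = eq (Nm d x * (m - d * l ^ 2)) * aa s d v x m l := by
  unfold aa
  rw [← II_const_mul]
  congr 1
  funext a
  rw [← aS_smul]
  refine aS_congr fun Y Z hY _ _ => ?_
  simp only [r1, Pi.smul_apply, smul_eq_mul]
  rw [hρ.hT _ (hv.1 _)]
  simp only [QU_comb x m l a hY]

theorem JX_T (hρ : Weil6 d M ρ) (hv : LevV d M v) (x : Q2) (τ : ℍ) :
    JX s d v x (ModularGroup.T • τ) = JX s d (r1 ρ ModularGroup.T v) x τ := by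
  rw [JX_eq, JX_eq, ModularGroup.im_T_smul]
  congr 1
  refine tsum_congr fun p => ?_
  rw [JT, JT, aa_T hρ hv, coe_T, eq, mul_comm (e _), mul_assoc _ (e _), ← e_add]
  congr 2
  simp only [map_add, map_one]
  push_cast
  ring

theorem JX_law (hS : S_JXSW) (hs : InW s) (hd : 0 < d) (hM : 0 < M) (hρ : Weil6 d M ρ) (γ : SL) :
    ∀ v, LevV d M v → ∀ x τ,
      JX s d v x (γ • τ) = jf γ τ ^ 2 * conj (jf γ τ) * JX s d (r1 ρ γ v) x τ := by
  induction γ using SL_induction with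
  | hS =>
    intro v hv x τ
    rw [hS s hs d M hd hM v hv, jf_S]
    congr 2
    funext u' u
    rw [r1, hρ.hS _ (hv.1 u)]
  | hT =>
    intro v hv x τ
    rw [JX_T hρ hv, jf_T]; simp
  | hT' =>
    intro v hv x τ
    have h1 : jf ModularGroup.T⁻¹ τ = 1 := by
      have := jf_mul ModularGroup.T ModularGroup.T⁻¹ τ
      rwa [mul_inv_cancel, jf_one, jf_T, one_mul, eq_comm] at this
    have h2 := JX_T (s := s) hρ (levV_r1 hρ hv ModularGroup.T⁻¹) x (ModularGroup.T⁻¹ • τ)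
    rw [smul_inv_smul, ← r1_mul hρ hv, inv_mul_cancel, r1_triv hρ hv (one_mem _)] at h2
    rw [h1, h2]; simp
  | hmul γ δ hγ hδ =>
    intro v hv x τ
    rw [mul_smul, hγ v hv, hδ _ (levV_r1 hρ hv γ), r1_mul hρ hv, jf_mul, map_mul]
    ring

theorem exists_reps (hM : 0 < M) (hρ : Weil6 d M ρ) (hv : LevV d M v) :
    ∃ R : Finset SL, ∀ γ, ∃ r ∈ R, r1 ρ γ v = r1 ρ r v := by
  classical
  have : (Gamma (M ^ 2)).FiniteIndex := ⟨index_Gamma_ne_zero (pow_pos hM 2)⟩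
  have : Fintype (SL ⧸ Gamma (M ^ 2)) := Fintype.ofFinite _
  refine ⟨Finset.univ.image fun q : SL ⧸ Gamma (M ^ 2) => (Quotient.out q)⁻¹, fun γ => ?_⟩
  obtain ⟨h, hh⟩ := QuotientGroup.mk_out_eq_mul (Gamma (M ^ 2)) γ⁻¹
  refine ⟨_, Finset.mem_image.2 ⟨QuotientGroup.mk γ⁻¹, Finset.mem_univ _, rfl⟩, ?_⟩
  rw [hh, mul_inv_rev, inv_inv, r1_mul hρ hv, r1_triv hρ hv (inv_mem h.2)]

theorem rpow_aux {y j : ℝ} (hy : 0 < y) (hj : 0 ≤ j) :
    y ^ (3 / 2 : ℝ) * (4 * y * j) ^ (-(1 / 2) : ℝ) * j ≤ y * (1 + j) := by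
  rcases hj.eq_or_lt with rfl | hj
  · simp [hy.le]
  obtain ⟨a, ha, rfl⟩ : ∃ a : ℝ, 0 < a ∧ y = a ^ 2 :=
    ⟨√y, Real.sqrt_pos.2 hy, (Real.sq_sqrt hy.le).symm⟩
  obtain ⟨b, hb, rfl⟩ : ∃ b : ℝ, 0 < b ∧ j = b ^ 2 :=
    ⟨√j, Real.sqrt_pos.2 hj, (Real.sq_sqrt hj.le).symm⟩
  have e1 : (a ^ 2) ^ (3 / 2 : ℝ) = a ^ 3 := by
    rw [← Real.rpow_natCast, ← Real.rpow_mul ha.le, ← Real.rpow_natCast]; norm_num
  have e2 : (4 * a ^ 2 * b ^ 2) ^ (-(1 / 2) : ℝ) = (2 * a * b)⁻¹ := by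
    rw [show 4 * a ^ 2 * b ^ 2 = (2 * a * b) ^ 2 by ring, ← Real.rpow_natCast,
      ← Real.rpow_mul (by positivity), ← Real.rpow_neg_one]
    norm_num
  rw [e1, e2]
  have e3 : a ^ 3 * (2 * a * b)⁻¹ * b ^ 2 = a ^ 2 * (b / 2) := by field_simp
  rw [e3]
  gcongr
  nlinarith [sq_nonneg (b - 1)]

theorem bound_high (hAA : S_AAW) (hs : InW s) (hd : 0 < d) (hM : 0 < M) (hv : LevV d M v) :
    ∃ C : ℝ, 0 ≤ C ∧ ∀ (x : Q2) (τ : ℍ), 1 / 2 ≤ τ.im →
      τ.im ^ (3 / 2 : ℝ) * ‖JX s d v x τ‖ ≤ C * (1 + ((Nm d x : ℚ) : ℝ)) ^ 8 := by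
  obtain ⟨K, hK, h⟩ := JB_bound hAA hs hd hM hv
  refine ⟨K * 64, by positivity, fun x τ hτ => ?_⟩
  have hy := τ.im_pos
  set y := τ.im with hyd
  have hj : (0 : ℝ) ≤ Nm d x := by exact_mod_cast Nm_nonneg d x
  set j : ℝ := ((Nm d x : ℚ) : ℝ) with hjd
  obtain ⟨h1, h2⟩ := h x y hy
  have h3 : ‖∑' p, JT s d v x τ p‖ ≤ K * j * (j / y) ^ 6 * (1 + j / y) := by
    refine le_trans (norm_tsum_le_tsum_norm ?_) ?_
    · simpa only [norm_JT] using h1
    · simpa only [norm_JT] using h2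
  have h4 : 0 ≤ (4 * y * j) ^ (-(1 / 2) : ℝ) := by positivity
  have h5 : y * (j / y) ^ 6 ≤ 32 * j ^ 6 := by
    have e1 : y * (j / y) ^ 6 = j ^ 6 * (1 / y) ^ 5 := by field_simp
    have e2 : 1 / y ≤ 2 := by rw [div_le_iff₀ hy]; linarith
    rw [e1, mul_comm]
    gcongr
    calc (1 / y) ^ 5 ≤ 2 ^ 5 := by gcongr
      _ = 32 := by norm_num
  have h6 : 1 + j / y ≤ 2 * (1 + j) := by
    have : j / y ≤ 2 * j := by rw [div_le_iff₀ hy]; nlinarith
    linarith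
  rw [JX_eq, norm_mul, Complex.norm_real, Real.norm_of_nonneg h4]
  calc y ^ (3 / 2 : ℝ) * ((4 * y * j) ^ (-(1 / 2) : ℝ) * ‖∑' p, JT s d v x τ p‖)
      ≤ y ^ (3 / 2 : ℝ) * ((4 * y * j) ^ (-(1 / 2) : ℝ) * (K * j * (j / y) ^ 6 * (1 + j / y))) := by
        gcongr
    _ = (y ^ (3 / 2 : ℝ) * (4 * y * j) ^ (-(1 / 2) : ℝ) * j) * (K * (j / y) ^ 6 * (1 + j / y)) := by
        ring
    _ ≤ (y * (1 + j)) * (K * (j / y) ^ 6 * (1 + j / y)) :=
        mul_le_mul_of_nonneg_right (rpow_aux hy hj) (by positivity)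
    _ = K * (1 + j) * (y * (j / y) ^ 6) * (1 + j / y) := by ring
    _ ≤ K * (1 + j) * (32 * (1 + j) ^ 6) * (2 * (1 + j)) := by
        have h7 : y * (j / y) ^ 6 ≤ 32 * (1 + j) ^ 6 := by
          refine h5.trans ?_
          gcongr
          linarith
        exact mul_le_mul (mul_le_mul_of_nonneg_left h7 (by positivity)) h6 (by positivity)
          (by positivity)
    _ = _ := by ring

theorem bound_all (hAA : S_AAW) (hS : S_JXSW) (hs : InW s) (hd : 0 < d) (hM : 0 < M)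
    (hρ : Weil6 d M ρ) (hv : LevV d M v) : ∃ (C : ℝ) (A : ℕ), ∀ x (τ : ℍ),
      τ.im ^ (3 / 2 : ℝ) * ‖JX s d v x τ‖ ≤ C * (1 + ((Nm d x : ℚ) : ℝ)) ^ A := by
  obtain ⟨R, hR⟩ := exists_reps hM hρ hv
  choose C hC0 hC using fun γ => bound_high hAA hs hd hM (levV_r1 hρ hv γ)
  refine ⟨∑ r ∈ R, C r, 8, fun x τ => ?_⟩
  obtain ⟨γ, hγ⟩ := ModularGroup.exists_smul_mem_fd τ
  obtain ⟨r, hr, e1⟩ := hR γ⁻¹
  set σ := γ • τ with hσ
  have e2 : τ = γ⁻¹ • σ := by rw [hσ, inv_smul_smul]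
  have hy : 1 / 2 ≤ σ.im := by
    have := ModularGroup.three_le_four_mul_im_sq_of_mem_fd hγ
    have := σ.im_pos
    nlinarith
  have hn : 0 < ‖jf γ⁻¹ σ‖ := norm_pos_iff.2 (jf_ne_zero _ _)
  have e3 : τ.im ^ (3 / 2 : ℝ) * ‖JX s d v x τ‖ =
      σ.im ^ (3 / 2 : ℝ) * ‖JX s d (r1 ρ r v) x σ‖ := by
    rw [e2, JX_law hS hs hd hM hρ _ v hv, e1, im_SL, norm_mul, norm_mul, norm_pow, RCLike.norm_conj,
      Real.div_rpow σ.im_pos.le (by positivity), ← Real.rpow_natCast, ← Real.rpow_mul hn.le]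
    have : ‖jf γ⁻¹ σ‖ ^ (((2 : ℕ) : ℝ) * (3 / 2)) = ‖jf γ⁻¹ σ‖ ^ 3 := by
      rw [← Real.rpow_natCast]; norm_num
    rw [this, Real.rpow_natCast]
    field_simp
  rw [e3]
  refine (hC r x σ hy).trans ?_
  have hj : (0 : ℝ) ≤ Nm d x := by exact_mod_cast Nm_nonneg d x
  gcongr
  exact Finset.single_le_sum (fun i _ => hC0 i) hr

theorem integral_e_int (n : ℤ) :
    ∫ u in (0 : ℝ)..1, e (n * u) = if n = 0 then 1 else 0 := by
  split_ifs with h
  · simp [h, e_zero]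
  · have hc : (2 * π * I * n : ℂ) ≠ 0 := by
      simp [h, Real.pi_ne_zero]
    have : ∀ u : ℝ, e (n * u) = cexp (2 * π * I * n * u) := fun u => by rw [e, mul_assoc _ (n : ℂ)]
    simp only [this]
    rw [integral_exp_mul_complex hc]
    have := e_int n
    rw [e] at this
    simp [this]

theorem hasSum_ct (hAA : S_AAW) (hs : InW s) (hd : 0 < d) (hM : 0 < M) (hv : LevV d M v)
    (hT : ∀ u' u, v u' u ≠ 0 → IsInt (QU d u')) (x : Q2) {y : ℝ} (hy : 0 < y) :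
    HasSum (fun l : ℚ => aa s d v x (d * l ^ 2) l *
      (((4 * y * Nm d x : ℝ) ^ (-(1 / 2) : ℝ) *
        Real.exp (-4 * π * Nm d x * (y * d * l ^ 2)) : ℝ) : ℂ)) (ct (JX s d v x) y) := by
  obtain ⟨K, -, h⟩ := JB_bound hAA hs hd hM hv
  have him : ∀ u, (pt u y).im = y := fun u => by
    rw [← UpperHalfPlane.coe_im, coe_pt u hy]; simp
  have h1 : HasSum (fun p : ℚ × ℚ => ∫ u in (0 : ℝ)..1, JT s d v x (pt u y) p)
      (∫ u in (0 : ℝ)..1, ∑' p, JT s d v x (pt u y) p) := by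
    refine intervalIntegral.hasSum_integral_of_dominated_convergence
      (fun p _ => JB s d v x y p)
      (fun p => ((continuous_JT x p).comp (continuous_pt hy)).aestronglyMeasurable)
      (fun p => ae_of_all _ fun u _ => by rw [norm_JT, him]) (ae_of_all _ fun u _ => (h x y hy).1)
      intervalIntegrable_const (ae_of_all _ fun u _ => (summable_JT hAA hs hd hM hv x _).hasSum)
  have h2 : ∀ p : ℚ × ℚ, ∫ u in (0 : ℝ)..1, JT s d v x (pt u y) p =
      if p.1 = d * p.2 ^ 2 then aa s d v x p.1 p.2 *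
        (Real.exp (-4 * π * Nm d x * (y * d * p.2 ^ 2)) : ℝ) else 0 := by
    intro p
    by_cases hne : aa s d v x p.1 p.2 = 0
    · simp [JT, hne]
    obtain ⟨hx, -, -, -, -, a, y', y'', hdet, hv'⟩ := aa_supp hv hne
    have hi := hT _ _ hv'
    rw [QU_comb x p.1 p.2 a hdet] at hi
    obtain ⟨n, hn⟩ := (isInt_rat _).1 hi
    have hj := (Nm_pos hd hx).ne'
    have hn' : ((Nm d x : ℚ) : ℂ) * (p.1 - d * p.2 ^ 2) = n := by exact_mod_cast hn
    have e1 : ∀ u : ℝ, JT s d v x (pt u y) p = aa s d v x p.1 p.2 *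
        e (I * y * (Nm d x * (p.1 + d * p.2 ^ 2))) * e (n * u) := by
      intro u
      rw [JT, mul_assoc _ (e _), ← e_add, coe_pt u hy, ← hn']
      congr 2
      simp only [map_add, map_mul, conj_ofReal, conj_I]
      ring
    simp only [e1]
    rw [intervalIntegral.integral_const_mul, integral_e_int]
    have e2 : n = 0 ↔ p.1 = d * p.2 ^ 2 := by
      rw [← Int.cast_eq_zero (α := ℚ), ← hn, mul_eq_zero, sub_eq_zero]
      simp [hj]
    by_cases hp : p.1 = d * p.2 ^ 2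
    · rw [if_pos (e2.2 hp), if_pos hp, mul_one]
      congr 1
      rw [e, ofReal_exp, hp]
      congr 1
      push_cast
      linear_combination (4 * π * y * (Nm d x : ℂ) * d * (p.2 : ℂ) ^ 2) * I_mul_I
    · rw [if_neg (mt e2.1 hp), if_neg hp, mul_zero]
  simp only [h2] at h1
  let g : ℚ → ℚ × ℚ := fun l => (d * l ^ 2, l)
  have hg : Function.Injective g := fun a b h => congrArg Prod.snd h
  have h3 := (hg.hasSum_iff (fun p hp => if_neg fun h => hp ⟨p.2, Prod.ext h.symm rfl⟩)).2 h1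
  have h4 : ct (JX s d v x) y = (((4 * y * Nm d x : ℝ) ^ (-(1 / 2) : ℝ) : ℝ) : ℂ) *
      ∫ u in (0 : ℝ)..1, ∑' p, JT s d v x (pt u y) p := by
    rw [ct, ← intervalIntegral.integral_const_mul]
    simp only [JX_eq, him]
  rw [h4]
  refine (congrArg₂ HasSum (funext fun l => ?_) rfl).mp
    (h3.mul_left (((4 * y * Nm d x : ℝ) ^ (-(1 / 2) : ℝ) : ℝ) : ℂ))
  simp only [g, Function.comp_apply, if_true]
  push_cast
  ring

end JXLP

open JXLP in
theorem jx (hAA : S_AAW) (hS : S_JXSW) : S_JXW := by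
  intro s hs d M hd hM ρ hρ v hv
  refine ⟨levV_r1 hρ hv, fun x γ τ => JX_law hS hs hd hM hρ γ v hv x τ,
    continuous_JX hAA hs hd hM hv, fun v' hv' x => ?_, fun a x => ?_, fun x h => ?_,
    bound_all hAA hS hs hd hM hρ hv, fun hT x y hy => hasSum_ct hAA hs hd hM hv hT x hy⟩
  · funext τ
    rw [Pi.add_apply, JX_eq, JX_eq, JX_eq, ← mul_add,
      ← (summable_JT hAA hs hd hM hv x τ).tsum_add (summable_JT hAA hs hd hM hv' x τ)]
    congr 1
    refine tsum_congr fun p => ?_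
    rw [JT, JT, JT, aa_add hs.hasLevS hd hM hv hv', add_mul]
  · funext τ
    rw [Pi.smul_apply, JX_eq, JX_eq, smul_eq_mul, mul_left_comm, ← tsum_mul_left (a := a)]
    congr 1
    refine tsum_congr fun p => ?_
    rw [JT, JT, aa_smul, mul_assoc]
  · by_contra hn
    apply h
    funext τ
    have : ∀ p : ℚ × ℚ, JT s d v x τ p = 0 := fun p => by
      have : aa s d v x p.1 p.2 = 0 := by
        by_contra h'
        exact hn ⟨(aa_supp hv h').1, (aa_supp hv h').2.1⟩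
      rw [JT, this, zero_mul]
    simp [JX_eq, this]

end

end Pool.Agent.P.MP_b8021b_nt.CM
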