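import Pool.Agent.P.MP_b8021b_nt.CM.Lib

/-! Package P25, first part: exponential bounds for kernels on the line. -/

namespace Pool.Agent.P.MP_b8021b_nt.CM

open Complex hiding Gamma
open UpperHalfPlane hiding I
open MeasureTheory Filter
open scoped Real Topology

noncomputable section

namespace KerP

/-- `k` has the exponent `r` -/
def Bd (k : ℝ → ℂ) (r : ℝ) : Prop := ∃ C : ℝ, ∀ u, ‖k u‖ ≤ C * Real.exp (-(r * u))

theorem exp_bound {r a : ℝ} (hr : 0 ≤ r) (ha : 0 < a) :
    ∃ C : ℝ, 0 ≤ C ∧ ∀ u, Real.exp (-(a * Real.exp u)) ≤ C * Real.exp (-(r * u)) := by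
  have hl : 0 < (r + 1) / a := by positivity
  refine ⟨Real.exp (r * Real.log ((r + 1) / a)), (Real.exp_pos _).le, fun u => ?_⟩
  rw [← Real.exp_add]
  refine Real.exp_le_exp.2 ?_
  have h1 := Real.add_one_le_exp (u - Real.log ((r + 1) / a))
  rw [Real.exp_sub, Real.exp_log hl] at h1
  have h2 : r * (Real.exp u / ((r + 1) / a)) ≤ a * Real.exp u := by
    have e : r * (Real.exp u / ((r + 1) / a)) = a * Real.exp u * (r / (r + 1)) := by field_simp
    rw [e]
    exact mul_le_of_le_one_right (by positivity) (div_le_one_of_le₀ (by linarith) (by linarith))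
  nlinarith [mul_le_mul_of_nonneg_left h1 hr]

theorem Bd.nonneg {k : ℝ → ℂ} {r : ℝ} (h : Bd k r) :
    ∃ C : ℝ, 0 ≤ C ∧ ∀ u, ‖k u‖ ≤ C * Real.exp (-(r * u)) := by
  obtain ⟨C, hC⟩ := h
  exact ⟨|C|, abs_nonneg _, fun u => (hC u).trans (by gcongr; exact le_abs_self _)⟩

theorem Bd.interp {k : ℝ → ℂ} {a b r : ℝ} (h : Bd k a) (h' : Bd k b) (ha : a ≤ r) (hb : r ≤ b) :
    Bd k r := by
  obtain ⟨C, hC0, hC⟩ := h.nonneg
  obtain ⟨D, hD0, hD⟩ := h'.nonneg
  refine ⟨C + D, fun u => ?_⟩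
  have := Real.exp_pos (-(r * u))
  rcases le_total 0 u with hu | hu
  · refine (hD u).trans ?_
    have : Real.exp (-(b * u)) ≤ Real.exp (-(r * u)) := Real.exp_le_exp.2 (by nlinarith)
    nlinarith
  · refine (hC u).trans ?_
    have : Real.exp (-(a * u)) ≤ Real.exp (-(r * u)) := Real.exp_le_exp.2 (by nlinarith)
    nlinarith

theorem Bd.add {k k' : ℝ → ℂ} {r : ℝ} (h : Bd k r) (h' : Bd k' r) : Bd (fun u => k u + k' u) r := by
  obtain ⟨C, hC⟩ := h
  obtain ⟨D, hD⟩ := h'
  exact ⟨C + D, fun u => (norm_add_le _ _).trans (by linarith [hC u, hD u])⟩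

theorem Bd.const_mul {k : ℝ → ℂ} {r : ℝ} (h : Bd k r) (c : ℂ) : Bd (fun u => c * k u) r := by
  obtain ⟨C, hC⟩ := h
  refine ⟨‖c‖ * C, fun u => ?_⟩
  rw [norm_mul, mul_assoc]
  gcongr
  exact hC u

theorem Bd.shift {k : ℝ → ℂ} {r : ℝ} (h : Bd k r) (a : ℝ) : Bd (fun u => k (u + a)) r := by
  obtain ⟨C, hC⟩ := h
  refine ⟨C * Real.exp (-(r * a)), fun u => (hC _).trans_eq ?_⟩
  rw [mul_assoc, ← Real.exp_add]
  congr 2; ring

theorem Bd.flat {k : ℝ → ℂ} {r : ℝ} (h : Bd k r) : Bd (flat k) r := by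
  have := (h.add ((h.shift 2).const_mul (-(1 + cexp 1)))).add ((h.shift 4).const_mul (cexp 1))
  convert this using 2 with u
  simp only [CM.flat]; ring

/-- reflection of a kernel -/
theorem Bd.refl {k : ℝ → ℂ} {r : ℝ} (h : Bd k (-r - 1 / 2)) :
    Bd (fun u => (Real.exp (u / 2) : ℂ) * k (-u)) r := by
  obtain ⟨C, hC⟩ := h
  refine ⟨C, fun u => ?_⟩
  rw [norm_mul, Complex.norm_real, Real.norm_of_nonneg (Real.exp_pos _).le]
  refine (mul_le_mul_of_nonneg_left (hC _) (Real.exp_pos _).le).trans_eq ?_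
  rw [mul_left_comm, ← Real.exp_add]
  congr 2; ring

theorem full_of {k : ℝ → ℂ} (hm : Measurable k) (h : ∀ r, 0 ≤ r → Bd k r)
    (h' : ∀ r, r ≤ -1 / 2 → Bd k r) : Full k :=
  ⟨hm, fun r => (h' (min r (-1 / 2)) (min_le_right _ _)).interp (h (max r 0) (le_max_right _ _))
    (min_le_left _ _) (le_max_left _ _)⟩

theorem Bd.integrable {k : ℝ → ℂ} (hm : Measurable k) {a b r : ℝ} (h : Bd k a) (h' : Bd k b)
    (ha : a < r) (hb : r < b) : Integrable fun u => ‖k u‖ * Real.exp (r * u) := by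
  obtain ⟨C, hC⟩ := h
  obtain ⟨D, hD⟩ := h'
  have hm' : Measurable fun u => ‖k u‖ * Real.exp (r * u) := by fun_prop
  rw [← integrableOn_univ, ← Set.Iic_union_Ioi (a := (0 : ℝ)), integrableOn_union]
  constructor
  · refine ((integrableOn_exp_mul_Iic (a := r - a) (by linarith) 0).const_mul C).mono'
      hm'.aestronglyMeasurable (ae_of_all _ fun u => ?_)
    rw [Real.norm_of_nonneg (by positivity)]
    refine (mul_le_mul_of_nonneg_right (hC u) (Real.exp_pos _).le).trans_eq ?_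
    rw [mul_assoc, ← Real.exp_add]
    congr 2; ring
  · refine ((integrableOn_exp_mul_Ioi (a := r - b) (by linarith) 0).const_mul D).mono'
      hm'.aestronglyMeasurable (ae_of_all _ fun u => ?_)
    rw [Real.norm_of_nonneg (by positivity)]
    refine (mul_le_mul_of_nonneg_right (hD u) (Real.exp_pos _).le).trans_eq ?_
    rw [mul_assoc, ← Real.exp_add]
    congr 2; ring

theorem Bd.diffAt {k : ℝ → ℂ} (hm : Measurable k) {a b : ℝ} {z : ℂ} (h : Bd k a) (h' : Bd k b)
    (ha : a < z.re) (hb : z.re < b) : DifferentiableAt ℂ (LK k) z := by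
  obtain ⟨ε, hε, h1, h2⟩ : ∃ ε : ℝ, 0 < ε ∧ a < z.re - 2 * ε ∧ z.re + 2 * ε < b := by
    refine ⟨min (z.re - a) (b - z.re) / 3, by
      have := lt_min (sub_pos.2 ha) (sub_pos.2 hb); positivity, ?_, ?_⟩
    · linarith [min_le_left (z.re - a) (b - z.re), lt_min (sub_pos.2 ha) (sub_pos.2 hb)]
    · linarith [min_le_right (z.re - a) (b - z.re), lt_min (sub_pos.2 ha) (sub_pos.2 hb)]
  have i1 := h.integrable hm h' h1 (by linarith)
  have i2 := h.integrable hm h' (r := z.re + 2 * ε) (by linarith) h2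
  have i0 := h.integrable hm h' ha hb
  refine (hasDerivAt_integral_of_dominated_loc_of_deriv_le (μ := volume)
    (F := fun (x : ℂ) (u : ℝ) => k u * cexp (x * u))
    (F' := fun (x : ℂ) (u : ℝ) => k u * (cexp (x * u) * u))
    (bound := fun u => ε⁻¹ * (‖k u‖ * Real.exp ((z.re - 2 * ε) * u) +
      ‖k u‖ * Real.exp ((z.re + 2 * ε) * u))) (Metric.ball_mem_nhds z hε)
    (Eventually.of_forall fun x => Measurable.aestronglyMeasurable (by fun_prop)) ?_
    (Measurable.aestronglyMeasurable (by fun_prop)) (ae_of_all _ fun u x hx => ?_)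
    ((i1.add i2).const_mul _) (ae_of_all _ fun u x _ => ?_)).2.differentiableAt
  · refine i0.mono' (Measurable.aestronglyMeasurable (by fun_prop)) (ae_of_all _ fun u => ?_)
    rw [norm_mul, Complex.norm_exp]
    simp
  · have h3 : |x.re - z.re| < ε := by
      have := Complex.abs_re_le_norm (x - z)
      rw [Complex.sub_re] at this
      exact this.trans_lt (by rwa [Metric.mem_ball, dist_eq_norm] at hx)
    rw [norm_mul, norm_mul, Complex.norm_exp, ← mul_add, mul_left_comm ε⁻¹]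
    refine mul_le_mul_of_nonneg_left ?_ (norm_nonneg (k u))
    simp only [mul_re, ofReal_re, ofReal_im, mul_zero, sub_zero, Complex.norm_real,
      Real.norm_eq_abs]
    rw [abs_lt] at h3
    have h4 : ε * |u| ≤ Real.exp (ε * |u|) := by linarith [Real.add_one_le_exp (ε * |u|)]
    have h5 : Real.exp (x.re * u) * Real.exp (ε * |u|) ≤
        Real.exp ((z.re - 2 * ε) * u) + Real.exp ((z.re + 2 * ε) * u) := by
      rw [← Real.exp_add]
      rcases le_total 0 u with hu | hu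
      · rw [abs_of_nonneg hu]
        have : Real.exp (x.re * u + ε * u) ≤ Real.exp ((z.re + 2 * ε) * u) :=
          Real.exp_le_exp.2 (by nlinarith)
        linarith [Real.exp_pos ((z.re - 2 * ε) * u)]
      · rw [abs_of_nonpos hu]
        have : Real.exp (x.re * u + ε * -u) ≤ Real.exp ((z.re - 2 * ε) * u) :=
          Real.exp_le_exp.2 (by nlinarith)
        linarith [Real.exp_pos ((z.re + 2 * ε) * u)]
    rw [le_inv_mul_iff₀ hε]
    nlinarith [mul_le_mul_of_nonneg_left h4 (Real.exp_pos (x.re * u)).le]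
  · exact (((hasDerivAt_id x).mul_const (u : ℂ)).cexp.const_mul (k u)).congr_deriv (by simp)

open Classical in
/-- the kernels of both weights -/
def kerk (k : ℕ) (c : ℚ → ℂ) (u : ℝ) : ℂ := (Real.exp ((k + 1) / 2 * u) : ℂ) *
  ∑' n : ℚ, if 0 < n then c n * n ^ k * ((Real.exp (-π * n ^ 2 * Real.exp u) : ℝ) : ℂ) else 0

theorem ker0_eq (c : ℚ → ℂ) : ker0 c = kerk 0 c := by
  funext u
  simp only [ker0, kerk, pow_zero, mul_one, Nat.cast_zero, zero_add]
  rw [show u / 2 = 1 / 2 * u by ring]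

theorem ker1_eq (c : ℚ → ℂ) : ker1 c = kerk 1 c := by
  funext u
  simp only [ker1, kerk, pow_one, Nat.cast_one]
  rw [show ((1 : ℝ) + 1) / 2 * u = u by ring]

theorem measurable_kerk (k : ℕ) (c : ℚ → ℂ) : Measurable (kerk k c) := by
  unfold kerk
  refine Measurable.mul (by fun_prop) (Measurable.tsum fun n => ?_)
  split_ifs <;> fun_prop

theorem bd_kerk (k : ℕ) {c : ℚ → ℂ} (hc : SB c) {r : ℝ} (hr : 0 ≤ r) : Bd (kerk k c) r := by
  obtain ⟨B, hB0, hB⟩ := hc.bdd
  obtain ⟨M, hM, hl⟩ := hc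
  obtain ⟨K, hK⟩ := gauss_bound M hM k
  have hM' : (0 : ℝ) < M := by exact_mod_cast hM
  have ha : 0 < π / 2 * ((M : ℝ)⁻¹) ^ 2 := by positivity
  obtain ⟨C, hC0, hC⟩ := exp_bound hr ha
  obtain ⟨D, hD0, hD⟩ := exp_bound (r := r + 1 / 2) (by linarith) ha
  set L := Real.log (π / 2) with hL
  refine ⟨B * |K| * (Real.exp (L * (-(k : ℝ) / 2)) * D + Real.exp (L * (-((k : ℝ) + 1) / 2)) * C),
    fun u => ?_⟩
  have ht : π / 2 * Real.exp u = Real.exp (L + u) := by
    rw [Real.exp_add, hL, Real.exp_log (by positivity)]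
  obtain ⟨s1, s2⟩ := hK (π / 2 * Real.exp u) (by positivity) 0
  simp only [add_zero] at s1 s2
  set E := Real.exp (-(π / 2 * ((M : ℝ)⁻¹) ^ 2 * Real.exp u)) with hE
  have hE0 : 0 < E := Real.exp_pos _
  have key : ‖∑' n : ℚ, if 0 < n then
      c n * n ^ k * ((Real.exp (-π * n ^ 2 * Real.exp u) : ℝ) : ℂ) else 0‖ ≤
      B * E * ∑' n : ℤ, |(n : ℝ) / M| ^ k *
        Real.exp (-(π / 2 * Real.exp u) * ((n : ℝ) / M) ^ 2) := by
    rw [(tsum_lat hM _ fun x hx => hl.2 x fun h0 => hx (by simp [h0])).2, ← tsum_mul_left]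
    refine tsum_of_norm_bounded (s1.mul_left (B * E)).hasSum fun n => ?_
    split_ifs with hn
    · have h1 : (M : ℝ)⁻¹ ≤ (n : ℝ) / M := by
        have h2 : (0 : ℚ) < n := by
          have h3 : (0 : ℚ) < M := by exact_mod_cast hM
          exact (div_pos_iff_of_pos_right h3).1 hn
        have h3 : (1 : ℝ) ≤ n := by exact_mod_cast (show (1 : ℤ) ≤ n by exact_mod_cast h2)
        rw [inv_eq_one_div]; gcongr
      have h2 : Real.exp (-π * ((n : ℝ) / M) ^ 2 * Real.exp u) ≤
          E * Real.exp (-(π / 2 * Real.exp u) * ((n : ℝ) / M) ^ 2) := by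
        rw [hE, ← Real.exp_add]
        refine Real.exp_le_exp.2 ?_
        have h4 : ((M : ℝ)⁻¹) ^ 2 ≤ ((n : ℝ) / M) ^ 2 := by gcongr
        nlinarith [mul_le_mul_of_nonneg_left h4 (show 0 ≤ π / 2 * Real.exp u by positivity)]
      rw [norm_mul, norm_mul, norm_pow, Complex.norm_real, Real.norm_of_nonneg (Real.exp_pos _).le,
        Complex.norm_ratCast]
      push_cast
      calc _ ≤ B * |(n : ℝ) / M| ^ k *
            (E * Real.exp (-(π / 2 * Real.exp u) * ((n : ℝ) / M) ^ 2)) := by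
            gcongr
            exact hB _
        _ = _ := by ring
    · rw [norm_zero]; positivity
  rw [ht, Real.rpow_def_of_pos (Real.exp_pos _), Real.rpow_def_of_pos (Real.exp_pos _),
    Real.log_exp] at s2
  rw [ht] at key
  have s3 := s2.trans (mul_le_mul_of_nonneg_right (le_abs_self K) (by positivity))
  have e1 : Real.exp ((k + 1) / 2 * u) * Real.exp ((L + u) * (-(k : ℝ) / 2)) *
      Real.exp (-((r + 1 / 2) * u)) = Real.exp (L * (-(k : ℝ) / 2)) * Real.exp (-(r * u)) := by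
    simp only [← Real.exp_add]; congr 1; ring
  have e2 : Real.exp ((k + 1) / 2 * u) * Real.exp ((L + u) * (-((k : ℝ) + 1) / 2)) =
      Real.exp (L * (-((k : ℝ) + 1) / 2)) := by
    simp only [← Real.exp_add]; congr 1; ring
  rw [kerk, norm_mul, Complex.norm_real, Real.norm_of_nonneg (Real.exp_pos _).le]
  calc _ ≤ Real.exp ((k + 1) / 2 * u) * (B * E * (|K| * (Real.exp ((L + u) * (-(k : ℝ) / 2)) +
        Real.exp ((L + u) * (-((k : ℝ) + 1) / 2))))) := by
        gcongr
        exact key.trans (by gcongr)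
    _ = B * |K| * (Real.exp ((k + 1) / 2 * u) * Real.exp ((L + u) * (-(k : ℝ) / 2)) * E +
        Real.exp ((k + 1) / 2 * u) * Real.exp ((L + u) * (-((k : ℝ) + 1) / 2)) * E) := by ring
    _ ≤ B * |K| * (Real.exp ((k + 1) / 2 * u) * Real.exp ((L + u) * (-(k : ℝ) / 2)) *
          (D * Real.exp (-((r + 1 / 2) * u))) +
        Real.exp ((k + 1) / 2 * u) * Real.exp ((L + u) * (-((k : ℝ) + 1) / 2)) *
          (C * Real.exp (-(r * u)))) := by
        gcongr
        exacts [hD u, hC u]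
    _ = _ := by rw [e2]; linear_combination (B * |K| * D) * e1

theorem half_kerk (k : ℕ) {c : ℚ → ℂ} (hc : SB c) : Half (kerk k c) :=
  ⟨measurable_kerk k c, fun _ hr => bd_kerk k hc hr⟩

end KerP

end

end Pool.Agent.P.MP_b8021b_nt.CM
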