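import Pool.Agent.P.MP_b8021b_nt.CM.Ker0

/-! Package P25, second part: Poisson reflection and Laplace transforms of the kernels. -/

namespace Pool.Agent.P.MP_b8021b_nt.CM

open Complex hiding Gamma
open UpperHalfPlane hiding I
open MeasureTheory Filter
open scoped Real Topology

noncomputable section

namespace KerP

theorem tsum_even {f : ℚ → ℂ} (hf : Summable f) (he : ∀ x, f (-x) = f x) :
    ∑' x, f x = f 0 + 2 * ∑' x, if 0 < x then f x else 0 := by
  have s1 : Summable fun x : ℚ => if 0 < x then f x else 0 :=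
    (hf.indicator {x | 0 < x}).congr fun x => by simp [Set.indicator_apply]
  have s2 : HasSum (fun x : ℚ => if 0 < -x then f (-x) else 0) (∑' x, if 0 < x then f x else 0) :=
    (Equiv.neg ℚ).hasSum_iff.2 s1.hasSum
  have s3 : HasSum (fun x : ℚ => if x = 0 then f 0 else 0) (f 0) := hasSum_ite_eq 0 (f 0)
  rw [two_mul, ← add_assoc, ← ((s3.add s1.hasSum).add s2).tsum_eq]
  congr 1
  funext x
  rcases lt_trichotomy x 0 with h | rfl | h
  · simp [h, h.ne, h.not_gt, he]
  · simp
  · simp [h, h.ne', h.not_gt]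

/-- the Gaussian -/
def gs (t : ℝ) (x : ℚ) : ℂ := ((Real.exp (-π * x ^ 2 * t) : ℝ) : ℂ)

theorem gs_eq (t : ℝ) (x : ℚ) : cexp (-π * (t : ℂ) * x ^ 2 + 2 * π * 0 * x) = gs t x := by
  rw [gs]; push_cast; congr 1; ring

theorem gs_eq' (u : ℝ) (z : ℚ) :
    cexp (-π * (z + I * 0) ^ 2 / (Real.exp u : ℝ)) = gs (Real.exp (-u)) z := by
  rw [gs, Real.exp_neg]; push_cast; congr 1; ring

theorem summable_gs (k : ℕ) {c : ℚ → ℂ} (hc : SB c) {t : ℝ} (ht : 0 < t) :
    Summable fun x : ℚ => c x * x ^ k * gs t x := by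
  have := summable_gauss hc (a := t) (by simpa using ht) 0 k
  simp only [gs_eq] at this
  exact this.of_norm

theorem sum_kerk (k : ℕ) {c : ℚ → ℂ} (hc : SB c) (hp : ∀ x, c (-x) = (-1) ^ k * c x) (u : ℝ) :
    (Real.exp ((k + 1) / 2 * u) : ℂ) * ∑' x : ℚ, c x * x ^ k * gs (Real.exp u) x =
      (Real.exp ((k + 1) / 2 * u) : ℂ) * (c 0 * 0 ^ k) + 2 * kerk k c u := by
  rw [tsum_even (summable_gs k hc (Real.exp_pos u)) fun x => ?_]
  · simp only [kerk, gs]
    push_cast
    simp only [ne_eq, OfNat.ofNat_ne_zero, not_false_eq_true, zero_pow, mul_zero, zero_mul,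
      Complex.exp_zero, mul_one]
    ring
  · rw [hp, gs, gs]
    push_cast
    rw [neg_pow (x : ℂ) k, neg_sq]
    have : ((-1 : ℂ) ^ k) * (-1) ^ k = 1 := by rw [← mul_pow]; simp
    linear_combination (c x * x ^ k * cexp (-π * x ^ 2 * cexp u)) * this

theorem F1_par {c : ℚ → ℂ} {ε : ℂ} (hp : ∀ x, c (-x) = ε * c x) (z : ℚ) :
    F1 1 c (-z) = ε * F1 1 c z := by
  rw [F1, F1, ← II_neg, ← II_const_mul]
  congr 1
  funext x
  rw [hp, mul_assoc, show 1 * -x * -z = 1 * x * z by ring]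

theorem exp_cpow (u : ℝ) : ((Real.exp u : ℝ) : ℂ) ^ (-(1 / 2) : ℂ) = cexp (-u / 2) := by
  rw [Complex.ofReal_exp, Complex.cpow_def_of_ne_zero (Complex.exp_ne_zero _),
    Complex.log_exp (by simp [Real.pi_pos]) (by simp [Real.pi_pos.le])]
  congr 1; ring

theorem refl0 {c : ℚ → ℂ} (hc : SB c) (hp : ∀ x, c (-x) = c x) (h0 : c 0 = 0) (u : ℝ) :
    kerk 0 c u = F1 1 c 0 / 2 + (Real.exp (u / 2) : ℂ) * kerk 0 (F1 1 c) (-u) := by
  have h1 := sum_kerk 0 hc (fun x => by rw [hp]; simp) u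
  have h2 := sum_kerk 0 (hc.sb_F1 one_ne_zero)
    (F1_par (ε := (-1) ^ 0) fun x => by rw [hp]; simp) (-u)
  have h3 := poisson0 hc (a := (Real.exp u : ℝ)) (by rw [Complex.ofReal_re]; exact Real.exp_pos u) 0
  simp only [gs_eq, gs_eq', exp_cpow] at h3
  simp only [pow_zero, mul_one, h0, mul_zero, zero_add, Nat.cast_zero] at h1 h2
  rw [h3] at h1
  push_cast at h1 h2 ⊢
  have e1 : cexp (1 / 2 * (u : ℂ)) = cexp (u / 2) := by congr 1; ring
  have e2 : cexp (1 / 2 * -(u : ℂ)) = cexp (-u / 2) := by congr 1; ring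
  have e3 : cexp ((u : ℂ) / 2) * cexp (-u / 2) = 1 := by
    rw [← Complex.exp_add, ← Complex.exp_zero]; congr 1; ring
  rw [e1] at h1
  rw [e2] at h2
  linear_combination (-1 / 2) * h1 + cexp (u / 2) / 2 * h2 + F1 1 c 0 / 2 * e3

theorem refl1 {c : ℚ → ℂ} (hc : SB c) (hp : ∀ x, c (-x) = -c x) (u : ℝ) :
    kerk 1 c u = -I * ((Real.exp (u / 2) : ℂ) * kerk 1 (F1 1 c) (-u)) := by
  have h1 := sum_kerk 1 hc (fun x => by rw [hp]; simp) u
  have h2 := sum_kerk 1 (hc.sb_F1 one_ne_zero)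
    (F1_par (ε := (-1) ^ 1) fun x => by rw [hp]; simp) (-u)
  have h3 := poisson1 hc (a := (Real.exp u : ℝ)) (by rw [Complex.ofReal_re]; exact Real.exp_pos u) 0
  simp only [gs_eq, gs_eq', exp_cpow] at h3
  have h4 : ∑' z : ℚ, F1 1 c z * (-I * (z + I * 0) / (Real.exp u : ℝ)) * gs (Real.exp (-u)) z =
      -I * cexp (-u) * ∑' z : ℚ, F1 1 c z * z * gs (Real.exp (-u)) z := by
    rw [← tsum_mul_left]
    congr 1
    funext z
    rw [Complex.exp_neg]
    push_cast
    ring
  simp only [pow_one, mul_zero, zero_add, Nat.cast_one] at h1 h2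
  rw [h3, h4] at h1
  push_cast at h1 h2 ⊢
  have e1 : cexp ((1 + 1) / 2 * (u : ℂ)) * cexp (-u / 2) = cexp (u / 2) := by
    rw [← Complex.exp_add]; congr 1; ring
  have e2 : cexp ((1 + 1) / 2 * -(u : ℂ)) = cexp (-u) := by congr 1; ring
  rw [e2] at h2
  linear_combination (-1 / 2) * h1 - I * cexp (u / 2) / 2 * h2 +
    (-I * cexp (-u) * (∑' z : ℚ, F1 1 c z * z * gs (Real.exp (-u)) z) / 2) * e1

theorem measurable_flat {k : ℝ → ℂ} (h : Measurable k) : Measurable (flat k) := by
  unfold flat; fun_prop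

theorem full0 {c : ℚ → ℂ} (hc : SB c) (hp : ∀ x, c (-x) = c x) (h0 : c 0 = 0) :
    Full (flat (kerk 0 c)) := by
  refine full_of (measurable_flat (measurable_kerk 0 c)) (fun r hr => (bd_kerk 0 hc hr).flat)
    fun r hr => ?_
  have := (bd_kerk 0 (hc.sb_F1 one_ne_zero) (r := -r - 1 / 2) (by linarith)).refl.flat
  convert this using 1
  funext u
  simp only [flat, refl0 hc hp h0]
  ring

theorem full1 {c : ℚ → ℂ} (hc : SB c) (hp : ∀ x, c (-x) = -c x) : Full (kerk 1 c) := by
  refine full_of (measurable_kerk 1 c) (fun r hr => bd_kerk 1 hc hr) fun r hr => ?_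
  have := ((bd_kerk 1 (hc.sb_F1 one_ne_zero) (r := -r - 1 / 2) (by linarith)).refl).const_mul (-I)
  convert this using 1
  funext u
  exact refl1 hc hp u

theorem integral_eq_mellin (F : ℝ → ℂ) (s : ℂ) :
    ∫ u : ℝ, F (Real.exp u) * cexp (s * u) = mellin F s := by
  rw [mellin, ← Real.range_exp, ← Set.image_univ, integral_image_eq_integral_abs_deriv_smul
    MeasurableSet.univ (fun x _ => (Real.hasDerivAt_exp x).hasDerivWithinAt)
    Real.exp_injective.injOn, Measure.restrict_univ]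
  congr 1
  funext u
  rw [abs_of_pos (Real.exp_pos u), Complex.real_smul, smul_eq_mul, Complex.ofReal_exp,
    Complex.cpow_def_of_ne_zero (Complex.exp_ne_zero _),
    Complex.log_exp (by simp [Real.pi_pos]) (by simp [Real.pi_pos.le]), ← mul_assoc,
    ← Complex.exp_add, mul_comm]
  congr 2; ring

section chr

variable {N : ℕ} {c : ℚ → ℂ} (χ : DirichletCharacter ℂ N) (hχ : ∀ n : ℤ, χ n = c n)
  (hs : ∀ x, c x ≠ 0 → CM.IsInt x)

include hχ hs

theorem lev_of_chr : Lev N c := by
  refine ⟨fun x k hk => ?_, fun x hx => (hs x hx).nsmul N⟩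
  by_cases hx : CM.IsInt x
  · obtain ⟨a, rfl⟩ := (isInt_rat _).1 hx
    obtain ⟨b, rfl⟩ := (isInt_rat _).1 hk
    have : (a : ℚ) + (N : ℚ) • (b : ℚ) = ((a + N * b : ℤ) : ℚ) := by simp
    rw [this, ← hχ, ← hχ]
    simp
  · have h1 : c x = 0 := by_contra fun h => hx (hs x h)
    rw [h1]
    by_contra h
    exact hx (by simpa using (hs _ h).sub (hk.nsmul N))

theorem par_of_chr (x : ℚ) : c (-x) = χ (-1) * c x := by
  by_cases hx : CM.IsInt x
  · obtain ⟨a, rfl⟩ := (isInt_rat _).1 hx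
    rw [← Int.cast_neg, ← hχ, ← hχ, ← map_mul]
    simp
  · have h1 : c x = 0 := by_contra fun h => hx (hs x h)
    rw [h1, mul_zero]
    by_contra h
    exact hx (by simpa using (hs _ h).neg)

theorem LK_kerk (hN : 0 < N) (k : ℕ) {r : ℂ} (hr : 0 < r.re) :
    LK (kerk k c) r = Gammaℝ (2 * r + k + 1) * LSeries (fun n => χ n) (2 * r + 1) := by
  have hc : SB c := (lev_of_chr χ hχ hs).sb hN
  set F : ℝ → ℂ := fun t => ∑' n : ℚ, if 0 < n then c n * n ^ k * gs t n else 0 with hF
  have h1 : LK (kerk k c) r = mellin F ((2 * r + k + 1) / 2) := by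
    rw [← integral_eq_mellin, LK]
    congr 1
    funext u
    simp only [kerk, hF, gs]
    rw [mul_right_comm, mul_comm, Complex.ofReal_exp, ← Complex.exp_add]
    congr 2
    push_cast
    ring
  have hr1 : 1 < (2 * r + 1).re := by simp; linarith
  have h2 := hasSum_mellin_pi_mul_sq (a := fun n : ℕ => χ n * (n : ℂ) ^ k) (r := fun n : ℕ => (n : ℝ))
    (F := F) (s := 2 * r + k + 1) (by simp; positivity) (fun t ht => ?_) ?_
  · rw [h1, ← h2.tsum_eq, LSeries, ← tsum_mul_left]
    congr 1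
    funext n
    rcases Nat.eq_zero_or_pos n with rfl | hn
    · have : (2 * r + k + 1 : ℂ) ≠ 0 := fun h => by
        have := congrArg Complex.re h
        simp at this
        linarith [(Nat.cast_nonneg k : (0 : ℝ) ≤ k)]
      simp [this]
    · have hn' : (n : ℂ) ≠ 0 := by exact_mod_cast hn.ne'
      rw [LSeries.term_of_ne_zero hn.ne', Nat.abs_cast, Complex.ofReal_natCast,
        show 2 * r + k + 1 = (2 * r + 1) + k by ring, Complex.cpow_add _ _ hn', Complex.cpow_natCast]
      have : (n : ℂ) ^ (2 * r + 1) ≠ 0 := by simp [hn.ne']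
      field_simp
  · have s1 : Summable fun n : ℚ => if 0 < n then c n * n ^ k * gs t n else 0 :=
      ((summable_gs k hc ht).indicator {x | 0 < x}).congr fun x => by simp [Set.indicator_apply]
    have s2 := (hasSum_pos_lat (M := 1) one_pos _ (fun x hx => ?_) _).1 s1.hasSum
    · convert s2 using 2 with n
      rcases Nat.eq_zero_or_pos n with rfl | hn
      · simp
      · have := hχ n
        simp only [Int.cast_natCast] at this
        simp [hn, hn.ne', this, gs]
    · split_ifs at hx with h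
      · exact ⟨h.le, by simpa using hs x fun h0 => hx (by simp [h0])⟩
      · exact (hx rfl).elim
  · refine (Real.summable_nat_rpow_inv.2 hr1).of_nonneg_of_le (fun n => by positivity) fun n => ?_
    rcases Nat.eq_zero_or_pos n with rfl | hn
    · have : (2 * r + k + 1 : ℂ).re ≠ 0 := by
        simp
        linarith [(Nat.cast_nonneg k : (0 : ℝ) ≤ k)]
      rw [Nat.cast_zero (R := ℝ), abs_zero, Real.zero_rpow this, div_zero]
      positivity
    · have hn' : (0 : ℝ) < n := by exact_mod_cast hn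
      have e : (2 * r + k + 1 : ℂ).re = (2 * r + 1).re + k := by simp; ring
      rw [Nat.abs_cast, e, Real.rpow_add hn', Real.rpow_natCast, norm_mul, norm_pow,
        Complex.norm_natCast, mul_div_mul_right _ _ (by positivity), inv_eq_one_div]
      gcongr
      exact χ.norm_le_one _

end chr

theorem un_int {M : ℕ} {x : ℚ} (h : un M x ≠ 0) : CM.IsInt x := by
  rw [un] at h
  split_ifs at h with h1
  · exact (isInt_rat _).2 ⟨x.num, ((Rat.den_eq_one_iff x).1 h1.1).symm⟩
  · exact (h rfl).elim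

theorem one_eq_un (M : ℕ) (n : ℤ) : (1 : DirichletCharacter ℂ M) n = un M n := by
  simp only [un, Rat.den_intCast, Rat.num_intCast, true_and]
  split_ifs with h
  · exact MulChar.one_apply ((ZMod.coe_int_isUnit_iff_isCoprime _ _).2 h.symm)
  · exact MulChar.map_nonunit _ fun h1 => h ((ZMod.coe_int_isUnit_iff_isCoprime _ _).1 h1).symm

end KerP

open KerP in
theorem kerS : S_Ker := by
  refine ⟨fun c hc => by rw [ker0_eq, ker1_eq]; exact ⟨half_kerk 0 hc, half_kerk 1 hc⟩,
    fun d M hd hM hdM => ?_⟩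
  obtain ⟨χ, hχ1, hχ2, hχ⟩ := exists_chi_char hd hM hdM
  have hM2 : 0 < M ^ 2 := by positivity
  have : NeZero (M ^ 2) := ⟨hM2.ne'⟩
  have hs : ∀ x, chiq d M x ≠ 0 → CM.IsInt x := fun x hx => un_int (left_ne_zero_of_mul hx)
  have l1 := lev_of_chr _ (one_eq_un M) fun _ => un_int
  have l2 := lev_of_chr χ hχ hs
  have f1 : Full (kerk 1 (chiq d M)) :=
    full1 (l2.sb hM2) fun x => by rw [par_of_chr χ hχ hs, hχ2, neg_one_mul]
  have d1 : Differentiable ℂ (LK (kerk 1 (chiq d M))) := fun z =>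
    Bd.diffAt f1.1 (f1.2 (z.re - 1)) (f1.2 (z.re + 1)) (by linarith) (by linarith)
  have hG : ∀ s : ℂ, 0 < s.re → Gammaℝ s ≠ 0 := fun s => Gammaℝ_ne_zero_of_re_pos
  rw [ker0_eq, ker1_eq]
  refine ⟨l1, l2, full0 (l1.sb hM) (fun x => ?_) ?_, f1, fun z hz => ?_, ?_, d1, ?_, ?_⟩
  · rw [par_of_chr _ (one_eq_un M) fun _ => un_int, MulChar.one_apply isUnit_one.neg, one_mul]
  · have h1 : ¬ IsCoprime (0 : ℤ) M := fun h => by
      have h2 := Nat.le_of_dvd hM hdM
      rcases Int.isUnit_iff.1 (isCoprime_zero_left.1 h) with h | h <;> omega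
    simp [un, h1]
  · exact (Bd.diffAt (measurable_kerk 0 _) (bd_kerk 0 (l1.sb hM) le_rfl)
      (bd_kerk 0 (l1.sb hM) (r := z.re + 1) (by linarith [show 0 < z.re from hz])) hz
      (by linarith)).differentiableWithinAt
  · rw [LK_kerk _ (one_eq_un M) (fun _ => un_int) hM 0 (by simp)]
    exact mul_ne_zero (hG _ (by simp))
      (DirichletCharacter.LSeries_ne_zero_of_one_lt_re _ (by simp))
  · have c1 : ContinuousAt (fun r : ℂ => Gammaℝ (2 * r + (1 : ℕ) + 1) *
        DirichletCharacter.LFunction χ (2 * r + 1)) 0 := by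
      refine ContinuousAt.mul ?_
        ((DirichletCharacter.differentiable_LFunction hχ1).continuous.comp (by fun_prop)).continuousAt
      have := differentiable_Gammaℝ_inv.continuous
      have c2 : ContinuousAt (fun r : ℂ => ((Gammaℝ (2 * r + (1 : ℕ) + 1))⁻¹)⁻¹) 0 :=
        ((this.comp (by fun_prop)).continuousAt).inv₀ (inv_ne_zero (hG _ (by simp)))
      simpa using c2
    have t0 : Tendsto (fun x : ℝ => (x : ℂ)) (𝓝[>] 0) (𝓝 0) :=
      (Complex.continuous_ofReal.tendsto' 0 0 rfl).mono_left nhdsWithin_le_nhds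
    have e := tendsto_nhds_unique_of_eventuallyEq ((d1.continuous.tendsto 0).comp t0)
      (c1.tendsto.comp t0) (eventually_nhdsWithin_of_forall fun x hx => by
        have hx' : 0 < x := hx
        simp only [Function.comp]
        rw [LK_kerk χ hχ hs hM2 1 (by simpa using hx'),
          DirichletCharacter.LFunction_eq_LSeries _ (by simpa using hx')])
    rw [e]
    exact mul_ne_zero (hG _ (by simp))
      (by simpa using DirichletCharacter.LFunction_apply_one_ne_zero hχ1)
  · rw [LK_kerk χ hχ hs hM2 1 (by simp)]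
    exact mul_ne_zero (hG _ (by simp; norm_num))
      (DirichletCharacter.LSeries_ne_zero_of_one_lt_re _ (by simp))

end

end Pool.Agent.P.MP_b8021b_nt.CM
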