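import Pool.Agent.P.MP_b8021b_nt.CM.SB

/-! Library L6: Poisson summation and Gaussian sums. -/

namespace Pool.Agent.P.MP_b8021b_nt.CM

open Complex hiding Gamma
open UpperHalfPlane hiding I
open scoped Real

noncomputable section

namespace PoiP

theorem exp_abs_sum {c : ℝ} (hc : 0 < c) (v : ℝ) :
    (Summable fun n : ℤ => Real.exp (-c * |(n : ℝ) + v|)) ∧
      ∑' n : ℤ, Real.exp (-c * |(n : ℝ) + v|) ≤ 2 * (1 + 1 / c) := by
  have hq0 : 0 ≤ Real.exp (-c) := (Real.exp_pos _).le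
  have hq1 : Real.exp (-c) < 1 := Real.exp_lt_one_iff.2 (by linarith)
  have hg := hasSum_geometric_of_lt_one hq0 hq1
  have hG : (1 - Real.exp (-c))⁻¹ ≤ 1 + 1 / c := by
    have h1 : Real.exp (-c) ≤ 1 / (1 + c) := by
      rw [Real.exp_neg, one_div]
      exact inv_anti₀ (by positivity) (by linarith [Real.add_one_le_exp c])
    have h2 : c / (1 + c) ≤ 1 - Real.exp (-c) := by
      have : c / (1 + c) = 1 - 1 / (1 + c) := by field_simp; ring
      linarith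
    calc (1 - Real.exp (-c))⁻¹ ≤ (c / (1 + c))⁻¹ := inv_anti₀ (by positivity) h2
      _ = 1 + 1 / c := by field_simp; ring
  set f : ℤ → ℝ := fun n => Real.exp (-c * |(n : ℝ) + Int.fract v|) with hf
  have hf0 := Int.fract_nonneg v
  have hf1 := Int.fract_lt_one v
  have hp : ∀ n : ℕ, f n ≤ Real.exp (-c) ^ n := fun n => by
    rw [← Real.exp_nat_mul, hf]
    refine Real.exp_le_exp.2 ?_
    have : (n : ℝ) ≤ |((n : ℤ) : ℝ) + Int.fract v| := by
      refine le_trans ?_ (le_abs_self _)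
      push_cast; linarith
    nlinarith
  have hn : ∀ n : ℕ, f (-(n + 1)) ≤ Real.exp (-c) ^ n := fun n => by
    rw [← Real.exp_nat_mul, hf]
    refine Real.exp_le_exp.2 ?_
    have : (n : ℝ) ≤ |((-(n + 1) : ℤ) : ℝ) + Int.fract v| := by
      refine le_trans ?_ (neg_le_abs _)
      push_cast; linarith
    nlinarith
  have hpos : ∀ n, 0 ≤ f n := fun n => (Real.exp_pos _).le
  have s1 : Summable fun n : ℕ => f n := hg.summable.of_nonneg_of_le (fun n => hpos _) hp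
  have s2 : Summable fun n : ℕ => f (-(n + 1)) := hg.summable.of_nonneg_of_le (fun n => hpos _) hn
  have s : Summable f := Summable.of_nat_of_neg_add_one s1 s2
  have t : ∑' n, f n ≤ 2 * (1 + 1 / c) := by
    rw [tsum_of_nat_of_neg_add_one s1 s2]
    have a1 := s1.tsum_le_tsum hp hg.summable
    have a2 := s2.tsum_le_tsum hn hg.summable
    rw [hg.tsum_eq] at a1 a2
    linarith
  have e : (fun n : ℤ => Real.exp (-c * |(n : ℝ) + v|)) = f ∘ Equiv.addRight ⌊v⌋ := by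
    funext n
    simp only [hf, Function.comp, Equiv.coe_addRight]
    congr 3
    push_cast
    rw [add_assoc, Int.floor_add_fract]
  rw [e]
  exact ⟨(Equiv.summable_iff _).2 s, (Equiv.tsum_eq (Equiv.addRight ⌊v⌋) f).trans_le t⟩

theorem pow_gauss_le (k : ℕ) {t : ℝ} (ht : 0 < t) (x : ℝ) :
    |x| ^ k * Real.exp (-t * x ^ 2) ≤
      (k.factorial * Real.exp 1) * t ^ (-(k : ℝ) / 2) * Real.exp (-Real.sqrt t * |x|) := by
  set y := Real.sqrt t * |x| with hy
  have hs : 0 < Real.sqrt t := Real.sqrt_pos.2 ht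
  have hy0 : 0 ≤ y := by positivity
  have h1 : y ^ k ≤ k.factorial * Real.exp y := by
    have := Real.pow_div_factorial_le_exp y hy0 k
    rwa [div_le_iff₀ (by positivity), mul_comm] at this
  have h2 : t * x ^ 2 = y ^ 2 := by rw [hy, mul_pow, Real.sq_sqrt ht.le, sq_abs]
  have h3 : |x| ^ k = y ^ k * t ^ (-(k : ℝ) / 2) := by
    rw [hy, mul_pow, Real.sqrt_eq_rpow, ← Real.rpow_natCast (t ^ (1 / 2 : ℝ)),
      ← Real.rpow_mul ht.le, mul_right_comm, ← Real.rpow_add ht]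
    rw [show 1 / 2 * (k : ℝ) + -(k : ℝ) / 2 = 0 by ring, Real.rpow_zero, one_mul]
  have h4 : Real.exp y * Real.exp (-y ^ 2) ≤ Real.exp 1 * Real.exp (-y) := by
    rw [← Real.exp_add, ← Real.exp_add]
    exact Real.exp_le_exp.2 (by nlinarith [sq_nonneg (y - 1)])
  have h5 : 0 < t ^ (-(k : ℝ) / 2) := Real.rpow_pos_of_pos ht _
  rw [h3, neg_mul, h2, neg_mul, ← hy]
  calc y ^ k * t ^ (-(k : ℝ) / 2) * Real.exp (-y ^ 2)
      ≤ k.factorial * Real.exp y * t ^ (-(k : ℝ) / 2) * Real.exp (-y ^ 2) := by gcongr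
    _ = k.factorial * t ^ (-(k : ℝ) / 2) * (Real.exp y * Real.exp (-y ^ 2)) := by ring
    _ ≤ k.factorial * t ^ (-(k : ℝ) / 2) * (Real.exp 1 * Real.exp (-y)) := by gcongr
    _ = _ := by ring

end PoiP

/-- a uniform bound for one dimensional Gaussian sums -/
theorem gauss_bound (M : ℕ) (hM : 0 < M) (k : ℕ) : ∃ K : ℝ, ∀ (t : ℝ), 0 < t → ∀ (u : ℝ),
    (Summable fun n : ℤ => |(n : ℝ) / M + u| ^ k * Real.exp (-t * ((n : ℝ) / M + u) ^ 2)) ∧
    ∑' n : ℤ, |(n : ℝ) / M + u| ^ k * Real.exp (-t * ((n : ℝ) / M + u) ^ 2) ≤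
      K * (t ^ (-(k : ℝ) / 2) + t ^ (-((k : ℝ) + 1) / 2)) := by
  refine ⟨2 * (k.factorial * Real.exp 1) * M, fun t ht u => ?_⟩
  have hs : 0 < Real.sqrt t := Real.sqrt_pos.2 ht
  have hM' : (0 : ℝ) < M := by exact_mod_cast hM
  have hM1 : (1 : ℝ) ≤ M := by exact_mod_cast hM
  obtain ⟨s, b⟩ := PoiP.exp_abs_sum (c := Real.sqrt t / M) (by positivity) (M * u)
  set C := (k.factorial * Real.exp 1) * t ^ (-(k : ℝ) / 2) with hC
  have h5 : 0 < t ^ (-(k : ℝ) / 2) := Real.rpow_pos_of_pos ht _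
  have hC0 : 0 ≤ C := by positivity
  have le : ∀ n : ℤ, |(n : ℝ) / M + u| ^ k * Real.exp (-t * ((n : ℝ) / M + u) ^ 2) ≤
      C * Real.exp (-(Real.sqrt t / M) * |(n : ℝ) + M * u|) := fun n => by
    refine (PoiP.pow_gauss_le k ht _).trans (le_of_eq ?_)
    congr 2
    rw [show (n : ℝ) / M + u = (n + M * u) / M by field_simp, abs_div, abs_of_pos hM']
    ring
  have s' := (s.mul_left C).of_nonneg_of_le (fun n => by positivity) le
  refine ⟨s', (s'.tsum_le_tsum le (s.mul_left C)).trans ?_⟩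
  rw [tsum_mul_left]
  have h6 : t ^ (-((k : ℝ) + 1) / 2) = t ^ (-(k : ℝ) / 2) / Real.sqrt t := by
    rw [Real.sqrt_eq_rpow, ← Real.rpow_sub ht]
    congr 1; ring
  calc C * ∑' n : ℤ, Real.exp (-(Real.sqrt t / M) * |(n : ℝ) + M * u|)
      ≤ C * (2 * (1 + 1 / (Real.sqrt t / M))) := by gcongr
    _ ≤ C * (2 * (M + 1 / (Real.sqrt t / M))) := by gcongr
    _ = _ := by rw [h6, hC]; field_simp

namespace PoiP

theorem inj_div {M : ℕ} (hM : 0 < M) : Function.Injective fun n : ℤ => (n : ℚ) / M := by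
  intro a b h
  have hM' : (M : ℚ) ≠ 0 := by exact_mod_cast hM.ne'
  exact_mod_cast (div_left_inj' hM').1 h

theorem mem_range_div {M : ℕ} (hM : 0 < M) {x : ℚ} (h : IsInt ((M : ℚ) • x)) :
    x ∈ Set.range fun n : ℤ => (n : ℚ) / M := by
  have hM' : (M : ℚ) ≠ 0 := by exact_mod_cast hM.ne'
  obtain ⟨n, hn⟩ := (isInt_rat _).1 h
  exact ⟨n, by rw [smul_eq_mul] at hn; simp only [← hn]; field_simp⟩

theorem isInt_div {M : ℕ} (hM : 0 < M) (n : ℤ) : IsInt ((M : ℚ) • ((n : ℚ) / M)) := by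
  have hM' : (M : ℚ) ≠ 0 := by exact_mod_cast hM.ne'
  exact (isInt_rat _).2 ⟨n, by rw [smul_eq_mul]; field_simp⟩

open Classical in
/-- indicator function of the lattice -/
def ind (M : ℕ) (x : ℚ) : ℝ := if IsInt ((M : ℚ) • x) then 1 else 0

theorem ind_nonneg (M : ℕ) (x : ℚ) : 0 ≤ ind M x := by unfold ind; split_ifs <;> norm_num

theorem ind_sum {M : ℕ} (hM : 0 < M) (f : ℚ → ℝ) :
    ((Summable fun x => ind M x * f x) ↔ Summable fun n : ℤ => f (n / M)) ∧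
      ∑' x, ind M x * f x = ∑' n : ℤ, f (n / M) := by
  have e : (fun n : ℤ => f (n / M)) = (fun x => ind M x * f x) ∘ fun n : ℤ => (n : ℚ) / M := by
    funext n
    simp only [Function.comp, ind, if_pos (isInt_div hM n), one_mul]
  have z : ∀ x ∉ Set.range fun n : ℤ => (n : ℚ) / M, ind M x * f x = 0 := fun x hx => by
    rw [ind, if_neg fun h => hx (mem_range_div hM h), zero_mul]
  rw [e]
  exact ⟨((inj_div hM).summable_iff z).symm,
    ((inj_div hM).tsum_eq (f := fun x => ind M x * f x) fun x hx => by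
      by_contra h; exact hx (z x h)).symm⟩

theorem gaussQ {M : ℕ} (hM : 0 < M) (k : ℕ) {t : ℝ} (ht : 0 < t) : ∃ K : ℝ, ∀ u : ℝ,
    (Summable fun x : ℚ => ind M x * (|(x : ℝ) + u| ^ k * Real.exp (-t * ((x : ℝ) + u) ^ 2))) ∧
    ∑' x : ℚ, ind M x * (|(x : ℝ) + u| ^ k * Real.exp (-t * ((x : ℝ) + u) ^ 2)) ≤ K := by
  obtain ⟨K, hK⟩ := gauss_bound M hM k
  refine ⟨K * (t ^ (-(k : ℝ) / 2) + t ^ (-((k : ℝ) + 1) / 2)), fun u => ?_⟩
  obtain ⟨a, b⟩ := ind_sum hM fun x : ℚ => |(x : ℝ) + u| ^ k * Real.exp (-t * ((x : ℝ) + u) ^ 2)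
  rw [a, b]
  simpa using hK t ht u

theorem norm_le_ind {φ : ℚ → ℂ} {M : ℕ} (h : Lev M φ) {C : ℝ} (hC : ∀ x, ‖φ x‖ ≤ C) (x : ℚ) :
    ‖φ x‖ ≤ C * ind M x := by
  by_cases h0 : φ x = 0
  · rw [h0, norm_zero]
    exact mul_nonneg ((norm_nonneg _).trans (hC x)) (ind_nonneg _ _)
  · rw [ind, if_pos (h.2 x h0), mul_one]; exact hC x

theorem summable1 {φ : ℚ → ℂ} (h : SB φ) (k : ℕ) {t : ℝ} (ht : 0 < t) (u : ℝ) :
    Summable fun x : ℚ => ‖φ x‖ * (|(x : ℝ) + u| ^ k * Real.exp (-t * ((x : ℝ) + u) ^ 2)) := by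
  obtain ⟨C, -, hC⟩ := h.bdd
  obtain ⟨M, hM, hL⟩ := h
  obtain ⟨K, hK⟩ := gaussQ hM k ht
  refine ((hK u).1.mul_left C).of_nonneg_of_le (fun x => by positivity) fun x => ?_
  rw [← mul_assoc C]
  exact mul_le_mul_of_nonneg_right (norm_le_ind hL hC x) (by positivity)

theorem summable_prod_aux {F : ℚ → ℝ} {G : ℚ → ℚ → ℝ} {K : ℝ} (hF : ∀ x, 0 ≤ F x)
    (hG : ∀ x y, 0 ≤ G x y) (sF : Summable F) (sG : ∀ x, Summable (G x) ∧ ∑' y, G x y ≤ K) :
    Summable fun w : Q2 => F w.1 * G w.1 w.2 := by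
  refine (summable_prod_of_nonneg fun w => mul_nonneg (hF _) (hG _ _)).2
    ⟨fun x => (sG x).1.mul_left (F x), ?_⟩
  refine (sF.mul_right K).of_nonneg_of_le
    (fun x => tsum_nonneg fun y => mul_nonneg (hF _) (hG _ _)) fun x => ?_
  dsimp only
  rw [tsum_mul_left]
  exact mul_le_mul_of_nonneg_left (sG _).2 (hF _)

theorem summable2 {c : Q2 → ℂ} (h : SB c) (k l : ℕ) {A B : ℝ} (hA : 0 < A) (hB : 0 < B) (u : ℝ) :
    Summable fun w : Q2 => ‖c w‖ * ((|(w.1 : ℝ)| ^ k * Real.exp (-A * (w.1 : ℝ) ^ 2)) *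
      (|(w.2 : ℝ) + w.1 * u| ^ l * Real.exp (-B * ((w.2 : ℝ) + w.1 * u) ^ 2))) := by
  obtain ⟨C, hC0, hC⟩ := h.bdd
  obtain ⟨M, hM, hL⟩ := h
  obtain ⟨K, hK⟩ := gaussQ hM k hA
  obtain ⟨K', hK'⟩ := gaussQ hM l hB
  have s := summable_prod_aux (F := fun x : ℚ =>
      ind M x * (|(x : ℝ) + 0| ^ k * Real.exp (-A * ((x : ℝ) + 0) ^ 2)))
    (G := fun x y : ℚ =>
      ind M y * (|(y : ℝ) + x * u| ^ l * Real.exp (-B * ((y : ℝ) + x * u) ^ 2)))
    (fun x => mul_nonneg (ind_nonneg _ _) (by positivity))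
    (fun x y => mul_nonneg (ind_nonneg _ _) (by positivity)) (hK 0).1 fun x => hK' (x * u)
  refine (s.mul_left C).of_nonneg_of_le (fun x => by positivity) fun w => ?_
  have : ‖c w‖ ≤ C * (ind M w.1 * ind M w.2) := by
    by_cases h0 : c w = 0
    · rw [h0, norm_zero]
      exact mul_nonneg hC0 (mul_nonneg (ind_nonneg _ _) (ind_nonneg _ _))
    · obtain ⟨h1, h2⟩ := (isInt_prod _).1 (hL.2 w h0)
      rw [ind, ind, if_pos (by simpa using h1), if_pos (by simpa using h2), mul_one, mul_one]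
      exact hC w
  refine (mul_le_mul_of_nonneg_right this (by positivity)).trans (le_of_eq ?_)
  simp only [add_zero]
  ring

end PoiP

theorem summable_gauss {φ : ℚ → ℂ} (h : SB φ) {a : ℂ} (ha : 0 < a.re) (b : ℂ) (k : ℕ) :
    Summable fun x : ℚ => ‖φ x * (x : ℂ) ^ k * cexp (-π * a * x ^ 2 + 2 * π * b * x)‖ := by
  have ht : 0 < π * a.re / 2 := by have := Real.pi_pos; positivity
  refine ((PoiP.summable1 h k ht 0).mul_left
    (Real.exp (2 * π * b.re ^ 2 / a.re))).of_nonneg_of_le (fun x => norm_nonneg _) fun x => ?_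
  have e : (-π * a * x ^ 2 + 2 * π * b * x : ℂ).re = -π * a.re * x ^ 2 + 2 * π * b.re * x := by
    have : (-π * a * x ^ 2 + 2 * π * b * x : ℂ) =
        ((-π * (x : ℝ) ^ 2 : ℝ) : ℂ) * a + ((2 * π * (x : ℝ) : ℝ) : ℂ) * b := by push_cast; ring
    rw [this, add_re, re_ofReal_mul, re_ofReal_mul]; ring
  have e2 : ‖(x : ℂ)‖ = |(x : ℝ)| := by
    rw [← Complex.ofReal_ratCast, Complex.norm_real, Real.norm_eq_abs]
  rw [norm_mul, norm_mul, norm_pow, Complex.norm_exp, e, e2, add_zero]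
  have : Real.exp (-π * a.re * x ^ 2 + 2 * π * b.re * x) ≤
      Real.exp (2 * π * b.re ^ 2 / a.re) * Real.exp (-(π * a.re / 2) * (x : ℝ) ^ 2) := by
    rw [← Real.exp_add]
    refine Real.exp_le_exp.2 ?_
    have h1 : 0 ≤ π * a.re / 2 * (x - 2 * b.re / a.re) ^ 2 := by positivity
    have h2 : π * a.re / 2 * (x - 2 * b.re / a.re) ^ 2 =
      π * a.re / 2 * x ^ 2 - 2 * π * b.re * x + 2 * π * b.re ^ 2 / a.re := by field_simp; ring
    linarith
  calc ‖φ x‖ * |(x : ℝ)| ^ k * Real.exp (-π * a.re * x ^ 2 + 2 * π * b.re * x)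
      ≤ ‖φ x‖ * |(x : ℝ)| ^ k *
        (Real.exp (2 * π * b.re ^ 2 / a.re) * Real.exp (-(π * a.re / 2) * (x : ℝ) ^ 2)) := by gcongr
    _ = _ := by ring

open Classical in
/-- lattice sums of negative powers of the norm form -/
theorem summable_Nm {d M : ℕ} (hd : 0 < d) (hM : 0 < M) {s : ℝ} (hs : 1 < s) :
    Summable fun x : Q2 =>
      if CM.IsInt ((M : ℚ) • x) ∧ x ≠ 0 then ((Nm d x : ℚ) : ℝ) ^ (-s) else 0 := by
  have hM' : (0 : ℝ) < M := by exact_mod_cast hM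
  have hd' : (1 : ℝ) ≤ d := by exact_mod_cast hd
  let g : (Fin 2 → ℤ) → Q2 := fun n => ((n 0 : ℚ) / M, (n 1 : ℚ) / M)
  have hg : Function.Injective g := fun a b h => by
    have h1 := PoiP.inj_div hM (congrArg Prod.fst h)
    have h2 := PoiP.inj_div hM (congrArg Prod.snd h)
    funext i; fin_cases i; exacts [h1, h2]
  refine (hg.summable_iff fun x hx => if_neg fun h => hx ?_).1 ?_
  · obtain ⟨h1, h2⟩ := (isInt_prod _).1 h.1
    obtain ⟨a, ha⟩ := PoiP.mem_range_div hM (x := x.1) (by simpa using h1)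
    obtain ⟨b, hb⟩ := PoiP.mem_range_div hM (x := x.2) (by simpa using h2)
    exact ⟨![a, b], Prod.ext ha hb⟩
  refine ((EisensteinSeries.summable_one_div_norm_rpow (k := 2 * s) (by linarith)).mul_left
    ((M : ℝ) ^ (2 * s))).of_nonneg_of_le (fun n => ?_) fun n => ?_
  · simp only [Function.comp]
    split_ifs
    · refine Real.rpow_nonneg ?_ _
      simp only [Nm]; push_cast; positivity
    · exact le_rfl
  · simp only [Function.comp]
    split_ifs with h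
    · have hn : n ≠ 0 := fun h0 => h.2 (by simp [g, h0])
      have hp : 0 < ‖n‖ := norm_pos_iff.2 hn
      have h1 : (‖n‖ / M) ^ 2 ≤ ((Nm d (g n) : ℚ) : ℝ) := by
        simp only [Nm, g]
        push_cast
        rw [div_pow, div_pow, div_pow, ← mul_div_assoc, ← add_div]
        gcongr
        have : ‖n‖ ≤ Real.sqrt ((n 0 : ℝ) ^ 2 + d * (n 1 : ℝ) ^ 2) := by
          refine (pi_norm_le_iff_of_nonneg (Real.sqrt_nonneg _)).2 fun i => ?_
          rw [Int.norm_eq_abs]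
          refine Real.abs_le_sqrt ?_
          fin_cases i
          · simp only [Fin.zero_eta]; nlinarith [sq_nonneg (n 1 : ℝ)]
          · simp only [Fin.mk_one]; nlinarith [sq_nonneg (n 0 : ℝ), sq_nonneg (n 1 : ℝ)]
        exact (Real.le_sqrt hp.le (by positivity)).1 this
      refine (Real.rpow_le_rpow_of_nonpos (by positivity) h1 (by linarith)).trans (le_of_eq ?_)
      rw [← Real.rpow_natCast, ← Real.rpow_mul (by positivity), Real.div_rpow hp.le hM'.le,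
        show ((2 : ℕ) : ℝ) * -s = -(2 * s) by push_cast; ring, Real.rpow_neg hM'.le]
      field_simp
    · positivity

namespace PoiP

theorem inj_cls {M : ℕ} (hM : 0 < M) (r : ℚ) : Function.Injective fun n : ℤ => r + (M : ℚ) * n := by
  intro a b h
  have hM' : (M : ℚ) ≠ 0 := by exact_mod_cast hM.ne'
  exact_mod_cast mul_left_cancel₀ hM' (add_left_cancel h)

theorem cls_sum {M : ℕ} (hM : 0 < M) (r : ℚ) (f : ℚ → ℂ) :
    ((Summable fun x => cls M r x * f x) ↔ Summable fun n : ℤ => f (r + M * n)) ∧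
      ∑' x, cls M r x * f x = ∑' n : ℤ, f (r + M * n) := by
  have hM' : (M : ℚ) ≠ 0 := by exact_mod_cast hM.ne'
  have e : (fun n : ℤ => f (r + M * n)) =
      (fun x => cls M r x * f x) ∘ fun n : ℤ => r + (M : ℚ) * n := by
    funext n
    have : IsInt ((M : ℚ)⁻¹ • (r + (M : ℚ) * n - r)) :=
      (isInt_rat _).2 ⟨n, by rw [smul_eq_mul]; field_simp; ring⟩
    simp only [Function.comp, cls, if_pos this, one_mul]
  have z : ∀ x ∉ Set.range fun n : ℤ => r + (M : ℚ) * n, cls M r x * f x = 0 := fun x hx => by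
    rw [cls, if_neg fun h => hx ?_, zero_mul]
    obtain ⟨n, hn⟩ := (isInt_rat _).1 h
    rw [smul_eq_mul] at hn
    exact ⟨n, by simp only [← hn]; field_simp; ring⟩
  rw [e]
  exact ⟨((inj_cls hM r).summable_iff z).symm,
    ((inj_cls hM r).tsum_eq (f := fun x => cls M r x * f x) fun x hx => by
      by_contra h; exact hx (z x h)).symm⟩

theorem poisson_gen {φ : ℚ → ℂ} {M : ℕ} (hM : 0 < M) (h : Lev M φ) (f g : ℚ → ℂ)
    (sf : ∀ r : ℚ, Summable fun n : ℤ => f (r + M * n))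
    (sg : Summable fun n : ℤ => g (n / M))
    (e : ∀ r : ℚ, ∑' n : ℤ, f (r + M * n) =
      (M : ℂ)⁻¹ * ∑' n : ℤ, eq (r * (n / M)) * g (n / M)) :
    ∑' x, φ x * f x = ∑' z, F1 1 φ z * g z := by
  have hM' : (M : ℚ) ≠ 0 := by exact_mod_cast hM.ne'
  obtain ⟨R, -, -, hR, hd⟩ := exists_cls_reps ℚ hM
  have sg' : ∀ r : ℚ, Summable fun n : ℤ => eq (r * (n / M)) * g (n / M) := fun r =>
    Summable.of_norm (by simpa only [norm_mul, norm_eq, one_mul] using sg.norm)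
  have l : ∑' x, φ x * f x = ∑ r ∈ R, φ r * ∑' n : ℤ, f (r + M * n) := by
    have : ∀ x, φ x * f x = ∑ r ∈ R, φ r * (cls M r x * f x) := fun x => by
      conv_lhs => rw [hd φ h]
      simp only [Finset.sum_apply, Pi.smul_apply, smul_eq_mul, Finset.sum_mul, mul_assoc]
    simp only [this]
    rw [Summable.tsum_finsetSum fun r _ => ((cls_sum hM r f).1.2 (sf r)).mul_left (φ r)]
    exact Finset.sum_congr rfl fun r _ => by rw [tsum_mul_left, (cls_sum hM r f).2]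
  have hF : ∀ n : ℤ, F1 1 φ (n / M) = (M : ℂ)⁻¹ * ∑ r ∈ R, φ r * eq (r * (n / M)) := fun n => by
    have hl : Lev M fun x => φ x * eq (1 * x * (n / M)) := by
      refine ⟨fun x k hk => ?_, fun x hx => h.2 x (left_ne_zero_of_mul hx)⟩
      obtain ⟨m, rfl⟩ := (isInt_rat _).1 hk
      have : eq ((m * n : ℤ) : ℚ) = 1 := (eq_eq_one_iff _).2 ((isInt_rat _).2 ⟨_, rfl⟩)
      dsimp only
      rw [h.1 x _ hk, show 1 * (x + (M : ℚ) • (m : ℚ)) * (n / M) =
        1 * x * (n / M) + ((m * n : ℤ) : ℚ) by push_cast; rw [smul_eq_mul]; field_simp,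
        eq_add, this, mul_one]
    rw [F1, II_eq_sum hM hl R fun x hx => hR x (hl.2 x hx), idx_rat]
    simp only [one_mul]
    rw [div_eq_inv_mul]
  rw [l, (tsum_lat hM (fun z => F1 1 φ z * g z)
    fun x hx => (h.lev_F1 hM).2 x (left_ne_zero_of_mul hx)).2]
  have : ∀ n : ℤ, F1 1 φ (n / M) * g (n / M) =
      ∑ r ∈ R, φ r * ((M : ℂ)⁻¹ * (eq (r * (n / M)) * g (n / M))) := fun n => by
    rw [hF, Finset.mul_sum, Finset.sum_mul]
    exact Finset.sum_congr rfl fun r _ => by ring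
  simp only [this]
  rw [Summable.tsum_finsetSum fun r _ => ((sg' r).mul_left _).mul_left (φ r)]
  exact Finset.sum_congr rfl fun r _ => by rw [tsum_mul_left, tsum_mul_left, e]

theorem im_pos {a : ℂ} (ha : 0 < a.re) : 0 < (I * a).im := by simpa using ha

theorem sum_int0 {a : ℂ} (ha : 0 < a.re) (b : ℂ) :
    Summable fun n : ℤ => cexp (-π * a * n ^ 2 + 2 * π * b * n) := by
  refine ((summable_jacobiTheta₂_term_iff (-I * b) (I * a)).2 (im_pos ha)).congr fun n => ?_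
  rw [jacobiTheta₂_term]
  congr 1
  linear_combination (π * a * n ^ 2 - 2 * π * b * n) * I_sq

theorem sum_int1 {a : ℂ} (ha : 0 < a.re) (b : ℂ) :
    Summable fun n : ℤ => n * cexp (-π * a * n ^ 2 + 2 * π * b * n) := by
  have := (summable_jacobiTheta₂'_term_iff (-I * b) (I * a)).2 (im_pos ha)
  refine (this.mul_left (2 * π * I)⁻¹).congr fun n => ?_
  rw [jacobiTheta₂'_term, jacobiTheta₂_term]
  have h2 := two_pi_I_ne_zero
  rw [show 2 * π * I * n * (-I * b) + π * I * n ^ 2 * (I * a) = -π * a * n ^ 2 + 2 * π * b * n by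
    linear_combination (π * a * n ^ 2 - 2 * π * b * n) * I_sq]
  field_simp

theorem re_inv_pos {a : ℂ} (ha : 0 < a.re) : 0 < (a⁻¹).re := by
  have : a ≠ 0 := fun h => by simp [h] at ha
  rw [inv_re]
  exact div_pos ha (normSq_pos.2 this)

theorem dual_exp {a : ℂ} (b n : ℂ) : cexp (-π * (n + I * b) ^ 2 / a) =
    cexp (π * b ^ 2 / a) * cexp (-π * a⁻¹ * n ^ 2 + 2 * π * (-I * b / a) * n) := by
  rw [← Complex.exp_add]
  congr 1
  linear_combination (-π * b ^ 2 / a) * I_sq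

theorem sum_dual0 {a : ℂ} (ha : 0 < a.re) (b : ℂ) :
    Summable fun n : ℤ => cexp (-π * (n + I * b) ^ 2 / a) := by
  simp only [dual_exp]
  exact (sum_int0 (re_inv_pos ha) _).mul_left _

theorem sum_dual1 {a : ℂ} (ha : 0 < a.re) (b : ℂ) :
    Summable fun n : ℤ => n * cexp (-π * (n + I * b) ^ 2 / a) := by
  simp only [dual_exp, mul_left_comm (_ : ℂ) (cexp (π * b ^ 2 / a))]
  exact (sum_int1 (re_inv_pos ha) _).mul_left _

theorem poi_int0 {a : ℂ} (ha : 0 < a.re) (b : ℂ) :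
    ∑' n : ℤ, cexp (-π * a * n ^ 2 + 2 * π * b * n) =
      a ^ (-(1 / 2) : ℂ) * ∑' n : ℤ, cexp (-π * (n + I * b) ^ 2 / a) := by
  rw [Complex.tsum_exp_neg_quadratic ha, cpow_neg, one_div]
  congr 2
  funext n
  congr 1
  ring

theorem poi_int1 {a : ℂ} (ha : 0 < a.re) (b : ℂ) :
    ∑' n : ℤ, n * cexp (-π * a * n ^ 2 + 2 * π * b * n) =
      a ^ (-(1 / 2) : ℂ) * ∑' n : ℤ, (-I * (n + I * b) / a) * cexp (-π * (n + I * b) ^ 2 / a) := by
  have ha0 : a ≠ 0 := fun h => by simp [h] at ha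
  have h2 := two_pi_I_ne_zero
  have fe := jacobiTheta₂'_functional_equation (-I * b) (I * a)
  have l : jacobiTheta₂' (-I * b) (I * a) =
      2 * π * I * ∑' n : ℤ, n * cexp (-π * a * n ^ 2 + 2 * π * b * n) := by
    rw [jacobiTheta₂', ← tsum_mul_left]
    refine tsum_congr fun n => ?_
    rw [jacobiTheta₂'_term, jacobiTheta₂_term,
      show 2 * π * I * n * (-I * b) + π * I * n ^ 2 * (I * a) = -π * a * n ^ 2 + 2 * π * b * n by
        linear_combination (π * a * n ^ 2 - 2 * π * b * n) * I_sq]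
    ring
  have t : ∀ n : ℤ, jacobiTheta₂_term n (-I * b / (I * a)) (-1 / (I * a)) =
      cexp (-π * a⁻¹ * n ^ 2 + 2 * π * (-I * b / a) * n) := fun n => by
    rw [jacobiTheta₂_term]
    congr 1
    have := I_ne_zero
    field_simp
    ring
  have r0 : jacobiTheta₂ (-I * b / (I * a)) (-1 / (I * a)) =
      ∑' n : ℤ, cexp (-π * a⁻¹ * n ^ 2 + 2 * π * (-I * b / a) * n) := tsum_congr t
  have r1 : jacobiTheta₂' (-I * b / (I * a)) (-1 / (I * a)) =
      2 * π * I * ∑' n : ℤ, n * cexp (-π * a⁻¹ * n ^ 2 + 2 * π * (-I * b / a) * n) := by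
    rw [jacobiTheta₂', ← tsum_mul_left]
    refine tsum_congr fun n => ?_
    rw [jacobiTheta₂'_term, t]
    ring
  have r : ∑' n : ℤ, (-I * (n + I * b) / a) * cexp (-π * (n + I * b) ^ 2 / a) =
      (-I / a * cexp (π * b ^ 2 / a)) *
        (∑' n : ℤ, n * cexp (-π * a⁻¹ * n ^ 2 + 2 * π * (-I * b / a) * n) +
          I * b * ∑' n : ℤ, cexp (-π * a⁻¹ * n ^ 2 + 2 * π * (-I * b / a) * n)) := by
    rw [← tsum_mul_left, ← (sum_int1 (re_inv_pos ha) _).tsum_add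
      ((sum_int0 (re_inv_pos ha) _).mul_left _), ← tsum_mul_left]
    refine tsum_congr fun n => ?_
    rw [dual_exp]
    ring
  rw [l, r0, r1, show -I * (I * a) = a by linear_combination (-a) * I_sq,
    show -π * I * (-I * b) ^ 2 / (I * a) = π * b ^ 2 / a by
      have := I_ne_zero
      field_simp
      linear_combination (-b ^ 2) * I_sq] at fe
  rw [r, cpow_neg]
  refine mul_left_cancel₀ h2 (fe.trans ?_)
  rw [div_eq_mul_inv _ (I * a), mul_inv, inv_I]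
  ring

theorem cpow_scale {a : ℂ} (ha : 0 < a.re) {M : ℕ} (hM : 0 < M) :
    (a * M ^ 2) ^ (-(1 / 2) : ℂ) = (M : ℂ)⁻¹ * a ^ (-(1 / 2) : ℂ) := by
  have ha0 : a ≠ 0 := fun h => by simp [h] at ha
  have hM' : (0 : ℝ) < M := by exact_mod_cast hM
  have e : ((M : ℂ) ^ 2) = (((M : ℝ) ^ 2 : ℝ) : ℂ) := by push_cast; rfl
  have hM0 : (M : ℂ) ≠ 0 := by exact_mod_cast hM.ne'
  rw [cpow_def_of_ne_zero (mul_ne_zero ha0 (pow_ne_zero 2 hM0)), cpow_def_of_ne_zero ha0, e,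
    log_mul_ofReal _ (by positivity) _ ha0, add_mul, Complex.exp_add, Real.log_pow]
  congr 1
  rw [show (((2 : ℕ) * Real.log M : ℝ) : ℂ) * (-(1 / 2)) = -(Real.log M : ℝ) by push_cast; ring,
    Complex.exp_neg, ← ofReal_exp, Real.exp_log hM', ofReal_natCast]

theorem shift_exp (a b r : ℂ) (M n : ℂ) :
    cexp (-π * a * (r + M * n) ^ 2 + 2 * π * b * (r + M * n)) =
      cexp (-π * a * r ^ 2 + 2 * π * b * r) *
        cexp (-π * (a * M ^ 2) * n ^ 2 + 2 * π * (M * (b - a * r)) * n) := by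
  rw [← Complex.exp_add]
  congr 1
  ring

theorem shift_dual {a : ℂ} (ha : a ≠ 0) (b : ℂ) (r : ℚ) {M : ℕ} (hM : 0 < M) (n : ℤ) :
    cexp (-π * a * r ^ 2 + 2 * π * b * r) *
      cexp (-π * (n + I * (M * (b - a * r))) ^ 2 / (a * M ^ 2)) =
      eq (r * (n / M)) * cexp (-π * ((((n : ℚ) / M : ℚ) : ℂ) + I * b) ^ 2 / a) := by
  have hM' : (M : ℂ) ≠ 0 := by exact_mod_cast hM.ne'
  rw [eq, e, ← Complex.exp_add, ← Complex.exp_add]
  congr 1
  push_cast
  field_simp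
  linear_combination (-a * M ^ 2 * r * (a * r - 2 * b)) * I_sq

theorem re_scale {a : ℂ} (ha : 0 < a.re) {M : ℕ} (hM : 0 < M) : 0 < (a * M ^ 2).re := by
  have hM' : (0 : ℝ) < M := by exact_mod_cast hM
  have e : ((M : ℂ) ^ 2) = (((M : ℝ) ^ 2 : ℝ) : ℂ) := by push_cast; rfl
  rw [e, re_mul_ofReal]
  positivity

theorem div_dual {a : ℂ} (ha : a ≠ 0) (b : ℂ) {M : ℕ} (hM : 0 < M) (n : ℤ) :
    cexp (-π * ((((n : ℚ) / M : ℚ) : ℂ) + I * b) ^ 2 / a) =
      cexp (-π * (n + I * (M * b)) ^ 2 / (a * M ^ 2)) := by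
  have hM' : (M : ℂ) ≠ 0 := by exact_mod_cast hM.ne'
  congr 1
  push_cast
  field_simp

end PoiP

theorem poisson0 {φ : ℚ → ℂ} (h : SB φ) {a : ℂ} (ha : 0 < a.re) (b : ℂ) :
    ∑' x : ℚ, φ x * cexp (-π * a * x ^ 2 + 2 * π * b * x) =
      a ^ (-(1 / 2) : ℂ) * ∑' z : ℚ, F1 1 φ z * cexp (-π * (z + I * b) ^ 2 / a) := by
  have ha0 : a ≠ 0 := fun h => by simp [h] at ha
  obtain ⟨M, hM, hL⟩ := h
  have hA := PoiP.re_scale ha hM
  refine (PoiP.poisson_gen hM hL (fun x => cexp (-π * a * x ^ 2 + 2 * π * b * x))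
    (fun z => a ^ (-(1 / 2) : ℂ) * cexp (-π * (z + I * b) ^ 2 / a)) (fun r => ?_) ?_
    fun r => ?_).trans ?_
  · push_cast
    simp only [PoiP.shift_exp]
    exact (PoiP.sum_int0 hA _).mul_left _
  · simp only [PoiP.div_dual ha0 b hM]
    exact (PoiP.sum_dual0 hA _).mul_left _
  · simp only [mul_left_comm (eq _), ← PoiP.shift_dual ha0 b r hM]
    push_cast
    simp only [PoiP.shift_exp]
    rw [tsum_mul_left, tsum_mul_left, tsum_mul_left, PoiP.poi_int0 hA, PoiP.cpow_scale ha hM]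
    ring
  · rw [← tsum_mul_left]
    exact tsum_congr fun z => by ring

theorem poisson1 {φ : ℚ → ℂ} (h : SB φ) {a : ℂ} (ha : 0 < a.re) (b : ℂ) :
    ∑' x : ℚ, φ x * x * cexp (-π * a * x ^ 2 + 2 * π * b * x) =
      a ^ (-(1 / 2) : ℂ) *
        ∑' z : ℚ, F1 1 φ z * (-I * (z + I * b) / a) * cexp (-π * (z + I * b) ^ 2 / a) := by
  have ha0 : a ≠ 0 := fun h => by simp [h] at ha
  obtain ⟨M, hM, hL⟩ := h
  have hA := PoiP.re_scale ha hM
  have hM' : (M : ℂ) ≠ 0 := by exact_mod_cast hM.ne'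
  have sp : ∀ (r : ℚ) (n : ℤ), ((r + M * n : ℚ) : ℂ) *
      cexp (-π * a * ((r + M * n : ℚ) : ℂ) ^ 2 + 2 * π * b * ((r + M * n : ℚ) : ℂ)) =
      cexp (-π * a * r ^ 2 + 2 * π * b * r) *
        (r * cexp (-π * (a * M ^ 2) * n ^ 2 + 2 * π * (M * (b - a * r)) * n) +
          M * (n * cexp (-π * (a * M ^ 2) * n ^ 2 + 2 * π * (M * (b - a * r)) * n))) := by
    intro r n
    push_cast
    rw [PoiP.shift_exp]
    ring
  simp only [mul_assoc (φ _)]
  refine (PoiP.poisson_gen hM hL (fun x => x * cexp (-π * a * x ^ 2 + 2 * π * b * x))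
    (fun z => a ^ (-(1 / 2) : ℂ) * ((-I * (z + I * b) / a) * cexp (-π * (z + I * b) ^ 2 / a)))
    (fun r => ?_) ?_ fun r => ?_).trans ?_
  · simp only [sp]
    exact (((PoiP.sum_int0 hA _).mul_left _).add ((PoiP.sum_int1 hA _).mul_left _)).mul_left _
  · simp only [PoiP.div_dual ha0 b hM]
    refine ((((PoiP.sum_dual1 hA (M * b)).mul_left (-I / (a * M))).add
      ((PoiP.sum_dual0 hA (M * b)).mul_left (-I * (I * b) / a))).mul_left
        (a ^ (-(1 / 2) : ℂ))).congr fun n => ?_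
    push_cast
    field_simp
    ring
  · have s0 := PoiP.sum_dual0 hA (M * (b - a * r))
    have s1 : Summable fun n : ℤ => (-I * (n + I * (M * (b - a * r))) / (a * M ^ 2)) *
        cexp (-π * (n + I * (M * (b - a * r))) ^ 2 / (a * M ^ 2)) :=
      (((PoiP.sum_dual1 hA (M * (b - a * r))).mul_left (-I / (a * M ^ 2))).add
        (s0.mul_left (-I * (I * (M * (b - a * r))) / (a * M ^ 2)))).congr fun n => by ring
    simp only [sp]
    rw [tsum_mul_left, ((PoiP.sum_int0 hA _).mul_left _).tsum_add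
      ((PoiP.sum_int1 hA _).mul_left _), tsum_mul_left, tsum_mul_left, PoiP.poi_int0 hA,
      PoiP.poi_int1 hA, PoiP.cpow_scale ha hM, mul_left_comm (r : ℂ), mul_left_comm (M : ℂ),
      ← mul_add, ← tsum_mul_left (a := (r : ℂ)), ← tsum_mul_left (a := (M : ℂ)),
      ← (s0.mul_left _).tsum_add (s1.mul_left _), mul_left_comm, ← tsum_mul_left, mul_assoc,
      ← tsum_mul_left]
    congr 1
    refine tsum_congr fun n => ?_
    have := PoiP.shift_dual ha0 b r hM n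
    rw [mul_left_comm (eq _), mul_left_comm (eq _), ← this]
    push_cast
    generalize cexp (-π * a * r ^ 2 + 2 * π * b * r) = E1
    generalize cexp (-π * (n + I * (M * (b - a * r))) ^ 2 / (a * M ^ 2)) = E2
    generalize a ^ (-(1 / 2) : ℂ) = P
    field_simp
    linear_combination (P * E1 * E2 * a * r * M) * I_sq
  · rw [← tsum_mul_left]
    exact tsum_congr fun z => by ring

/-! ### theta kernels -/

namespace PoiP

theorem lin_eq (w : Q2) (τ : ℍ) :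
    lin w τ = (((w.2 : ℝ) + w.1 * τ.re : ℝ) : ℂ) + (((w.1 : ℝ) * τ.im : ℝ) : ℂ) * I := by
  rw [lin]
  conv_lhs => rw [← re_add_im (τ : ℂ), coe_re, coe_im]
  push_cast
  ring

theorem norm_lin_sq (w : Q2) (τ : ℍ) :
    ‖lin w τ‖ ^ 2 = ((w.2 : ℝ) + w.1 * τ.re) ^ 2 + ((w.1 : ℝ) * τ.im) ^ 2 := by
  rw [lin_eq, Complex.sq_norm, normSq_add_mul_I]

theorem gau_real (w : Q2) (τ : ℍ) (t : ℝ) : Real.exp (-π * t * ‖lin w τ‖ ^ 2 / τ.im) =
    Real.exp (-(π * t * τ.im) * (w.1 : ℝ) ^ 2) *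
      Real.exp (-(π * t / τ.im) * ((w.2 : ℝ) + w.1 * τ.re) ^ 2) := by
  have := τ.im_pos.ne'
  rw [← Real.exp_add, norm_lin_sq]
  congr 1
  field_simp
  ring

theorem norm_gau (w : Q2) (τ : ℍ) (t : ℝ) : ‖gau w τ t‖ =
    Real.exp (-(π * t * τ.im) * (w.1 : ℝ) ^ 2) *
      Real.exp (-(π * t / τ.im) * ((w.2 : ℝ) + w.1 * τ.re) ^ 2) := by
  rw [gau, Complex.norm_real, Real.norm_of_nonneg (Real.exp_pos _).le, gau_real]

theorem norm_lin_le (w : Q2) (τ : ℍ) :
    ‖lin w τ / τ.im‖ ≤ τ.im⁻¹ * |(w.2 : ℝ) + w.1 * τ.re| + |(w.1 : ℝ)| := by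
  have h := τ.im_pos
  rw [norm_div, Complex.norm_real, Real.norm_of_nonneg h.le, div_le_iff₀ h, lin_eq]
  refine (norm_add_le _ _).trans (le_of_eq ?_)
  rw [norm_mul, norm_I, Complex.norm_real, Complex.norm_real, Real.norm_eq_abs, Real.norm_eq_abs,
    abs_mul (w.1 : ℝ) τ.im, abs_of_pos h]
  field_simp

end PoiP

theorem summable_K0 {c : Q2 → ℂ} (h : SB c) (τ : ℍ) {t : ℝ} (ht : 0 < t) :
    Summable fun w : Q2 => ‖c w * gau w τ t‖ := by
  have := τ.im_pos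
  have := Real.pi_pos
  refine (PoiP.summable2 h 0 0 (A := π * t * τ.im) (B := π * t / τ.im) (by positivity)
    (by positivity) τ.re).congr fun w => ?_
  rw [norm_mul, PoiP.norm_gau, pow_zero, pow_zero, one_mul, one_mul]

theorem summable_K1 {c : Q2 → ℂ} (h : SB c) (τ : ℍ) {t : ℝ} (ht : 0 < t) :
    Summable fun w : Q2 => ‖c w * (lin w τ / τ.im) * gau w τ t‖ := by
  have := τ.im_pos
  have := Real.pi_pos
  refine (((PoiP.summable2 h 0 1 (A := π * t * τ.im) (B := π * t / τ.im) (by positivity)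
    (by positivity) τ.re).mul_left τ.im⁻¹).add (PoiP.summable2 h 1 0 (A := π * t * τ.im)
      (B := π * t / τ.im) (by positivity) (by positivity) τ.re)).of_nonneg_of_le
        (fun w => norm_nonneg _) fun w => ?_
  rw [norm_mul, norm_mul, PoiP.norm_gau]
  refine (mul_le_mul_of_nonneg_right (mul_le_mul_of_nonneg_left (PoiP.norm_lin_le w τ)
    (norm_nonneg _)) (by positivity)).trans (le_of_eq ?_)
  ring

theorem Lev.lev_ctil {M : ℕ} (hM : 0 < M) {c : Q2 → ℂ} (h : Lev M c) : Lev M (ctil c) := by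
  refine lev_prod (fun y => ⟨fun x k hk => ?_, fun x hx => ?_⟩) fun x => (h.snd x).lev_F1 hM
  · have : (fun z => c (x + (M : ℚ) • k, z)) = fun z => c (x, z) :=
      funext fun z => (h.fst z).1 x k hk
    simp only [ctil, this]
  · by_contra hn
    have : (fun z => c (x, z) * eq (1 * z * y)) = 0 := funext fun z => by
      have : c (x, z) = 0 := by by_contra h0; exact hn ((h.fst z).2 x h0)
      simp [this]
    exact hx (by simp only [ctil, F1, this, II_zero])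

theorem SB.sb_ctil {c : Q2 → ℂ} (h : SB c) : SB (ctil c) := by
  obtain ⟨M, hM, hL⟩ := h
  exact (hL.lev_ctil hM).sb hM

theorem ctil_FS {c : Q2 → ℂ} (h : SB c) (w : Q2) : ctil (FS c) w = ctil c (-w.2, -w.1) := by
  obtain ⟨M, hM, hL⟩ := id h
  have hG : SB fun v => ctil c (v, -w.1) := ((hL.lev_ctil hM).fst _).sb hM
  have e1 : (fun x => FS c (w.1, x)) = F1 1 fun v => ctil c (v, -w.1) := by
    funext x
    have hs := h.mul_eq (x • LinearMap.fst ℚ ℚ ℚ - w.1 • LinearMap.snd ℚ ℚ ℚ)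
    have e2 : (fun v : Q2 => c v * eq (v.1 * x - v.2 * w.1)) = fun v : Q2 =>
        c v * eq ((x • LinearMap.fst ℚ ℚ ℚ - w.1 • LinearMap.snd ℚ ℚ ℚ) v) := by
      funext v
      congr 2
      simp only [LinearMap.sub_apply, LinearMap.smul_apply, LinearMap.fst_apply,
        LinearMap.snd_apply, smul_eq_mul]
      ring
    rw [← e2] at hs
    simp only [FS, F1, ctil]
    rw [II_prod hs]
    congr 1
    funext v
    rw [mul_comm, ← II_const_mul]
    congr 1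
    funext z
    rw [mul_left_comm, ← eq_add]
    congr 2
    ring
  rw [ctil, e1, F1_inv one_ne_zero hG]
  simp

namespace PoiP

theorem gau_split (x z : ℚ) (τ : ℍ) (t : ℝ) : gau (x, z) τ t =
    ((Real.exp (-π * t * τ.im * x ^ 2 - π * (t / τ.im) * (x * τ.re) ^ 2) : ℝ) : ℂ) *
      cexp (-π * ((t / τ.im : ℝ) : ℂ) * z ^ 2 +
        2 * π * ((-(t / τ.im) * (x * τ.re) : ℝ) : ℂ) * z) := by
  rw [gau, gau_real, ← Real.exp_add, ofReal_exp, ofReal_exp, ← Complex.exp_add]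
  congr 1
  push_cast
  ring

theorem dual_split (x z : ℚ) (τ : ℍ) {t : ℝ} (ht : 0 < t) :
    ((Real.exp (-π * t * τ.im * x ^ 2 - π * (t / τ.im) * (x * τ.re) ^ 2) : ℝ) : ℂ) *
      cexp (-π * (z + I * ((-(t / τ.im) * (x * τ.re) : ℝ) : ℂ)) ^ 2 / ((t / τ.im : ℝ) : ℂ)) =
      e (x * z * τ.re) * ((Real.exp (-π * τ.im * (t * x ^ 2 + z ^ 2 / t)) : ℝ) : ℂ) := by
  have h1 : (t : ℂ) ≠ 0 := by exact_mod_cast ht.ne'
  have h2 : (τ.im : ℂ) ≠ 0 := by exact_mod_cast τ.im_pos.ne'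
  rw [e, ofReal_exp, ofReal_exp, ← Complex.exp_add, ← Complex.exp_add]
  congr 1
  push_cast
  field_simp
  linear_combination (-(t : ℂ) ^ 2 * x ^ 2 * τ.re ^ 2) * I_sq

theorem cpow_real (τ : ℍ) {t : ℝ} (ht : 0 < t) :
    ((t / τ.im : ℝ) : ℂ) ^ (-(1 / 2) : ℂ) = (Real.sqrt (τ.im / t) : ℝ) := by
  have h := τ.im_pos
  rw [Real.sqrt_eq_rpow, ← inv_div t, Real.inv_rpow (by positivity),
    ← Real.rpow_neg (by positivity), ofReal_cpow (by positivity)]
  push_cast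
  rfl

theorem norm_e_real (x z : ℚ) (u : ℝ) : ‖e (x * z * u)‖ = 1 := by
  have : ((x : ℂ) * z * u).im = 0 := by
    rw [show (x : ℂ) * z * u = (((x : ℝ) * z * u : ℝ) : ℂ) by push_cast; rfl, ofReal_im]
  rw [norm_e, this, mul_zero, Real.exp_zero]

theorem exp_half (w : Q2) (τ : ℍ) (t : ℝ) : Real.exp (-π * τ.im * (t * w.1 ^ 2 + w.2 ^ 2 / t)) =
    Real.exp (-(π * t * τ.im) * (w.1 : ℝ) ^ 2) *
      Real.exp (-(π * τ.im / t) * ((w.2 : ℝ) + w.1 * 0) ^ 2) := by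
  rw [← Real.exp_add]
  congr 1
  ring

theorem K0_half {c : Q2 → ℂ} (h : SB c) (τ : ℍ) {t : ℝ} (ht : 0 < t) :
    HasSum (fun w : Q2 => ctil c w * (e (w.1 * w.2 * τ.re) *
      ((Real.sqrt (τ.im / t) * Real.exp (-π * τ.im * (t * w.1 ^ 2 + w.2 ^ 2 / t)) : ℝ) : ℂ)))
      (∑' w : Q2, c w * gau w τ t) := by
  have := τ.im_pos
  have := Real.pi_pos
  have s : Summable fun w : Q2 => ctil c w * (e (w.1 * w.2 * τ.re) *
      ((Real.sqrt (τ.im / t) * Real.exp (-π * τ.im * (t * w.1 ^ 2 + w.2 ^ 2 / t)) : ℝ) : ℂ)) := by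
    refine Summable.of_norm (((summable2 h.sb_ctil 0 0 (A := π * t * τ.im) (B := π * τ.im / t)
      (by positivity) (by positivity) 0).mul_left (Real.sqrt (τ.im / t))).congr fun w => ?_)
    rw [norm_mul, norm_mul, norm_e_real, Complex.norm_real, Real.norm_of_nonneg (by positivity),
      exp_half]
    ring
  convert s.hasSum using 1
  rw [s.tsum_prod, (summable_K0 h τ ht).of_norm.tsum_prod]
  refine tsum_congr fun x => ?_
  obtain ⟨M, hM, hL⟩ := id h
  have p := poisson0 ((hL.snd x).sb hM) (a := ((t / τ.im : ℝ) : ℂ))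
    (by rw [ofReal_re]; positivity) ((-(t / τ.im) * (x * τ.re) : ℝ) : ℂ)
  simp only [gau_split, mul_left_comm (c _)]
  rw [tsum_mul_left, p, cpow_real τ ht, ← tsum_mul_left, ← tsum_mul_left]
  refine tsum_congr fun z => ?_
  have := dual_split x z τ ht
  rw [ofReal_mul (Real.sqrt _), mul_left_comm (e _), ← this, ctil]
  ring

/-- the involution that exchanges the two coordinates -/
def sw : Q2 ≃ Q2 where
  toFun w := (-w.2, -w.1)
  invFun w := (-w.2, -w.1)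
  left_inv w := by simp
  right_inv w := by simp

theorem sqrt_inv (τ : ℍ) {t : ℝ} (ht : 0 < t) :
    Real.sqrt (τ.im / t⁻¹) = t * Real.sqrt (τ.im / t) := by
  have := τ.im_pos
  rw [show τ.im / t⁻¹ = t ^ 2 * (τ.im / t) by field_simp, Real.sqrt_mul (by positivity),
    Real.sqrt_sq ht.le]

end PoiP

theorem K0_fe {c : Q2 → ℂ} (h : SB c) (τ : ℍ) {t : ℝ} (ht : 0 < t) :
    ∑' w : Q2, c w * gau w τ t = (t : ℂ)⁻¹ * ∑' w : Q2, FS c w * gau w τ t⁻¹ := by
  have h1 : (t : ℂ) ≠ 0 := by exact_mod_cast ht.ne'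
  obtain ⟨M, hM, hL⟩ := id h
  rw [← (PoiP.K0_half h τ ht).tsum_eq,
    ← (PoiP.K0_half ((hL.lev_FS hM).sb hM) τ (inv_pos.2 ht)).tsum_eq, ← tsum_mul_left,
    ← PoiP.sw.tsum_eq]
  refine tsum_congr fun w => ?_
  rw [ctil_FS h, PoiP.sqrt_inv τ ht]
  simp only [PoiP.sw, Equiv.coe_fn_mk]
  rw [show -π * τ.im * (t * ((-w.2 : ℚ) : ℝ) ^ 2 + ((-w.1 : ℚ) : ℝ) ^ 2 / t) =
    -π * τ.im * (t⁻¹ * w.1 ^ 2 + w.2 ^ 2 / t⁻¹) by push_cast; field_simp; ring,
    show ((-w.2 : ℚ) : ℂ) * ((-w.1 : ℚ) : ℂ) * τ.re = w.1 * w.2 * τ.re by push_cast; ring]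
  push_cast
  field_simp

/-- Poisson summation in the second coordinate -/
theorem K1_half {c : Q2 → ℂ} (h : SB c) (τ : ℍ) {t : ℝ} (ht : 0 < t) :
    HasSum (fun w : Q2 => ctil c w * (I * e (w.1 * w.2 * τ.re) *
      ((Real.sqrt (τ.im / t) * (w.1 - w.2 / t) *
        Real.exp (-π * τ.im * (t * w.1 ^ 2 + w.2 ^ 2 / t)) : ℝ) : ℂ))) (K1 c τ t) := by
  have := τ.im_pos
  have := Real.pi_pos
  have h1 : (t : ℂ) ≠ 0 := by exact_mod_cast ht.ne'
  have h2 : (τ.im : ℂ) ≠ 0 := by exact_mod_cast τ.im_pos.ne'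
  have s : Summable fun w : Q2 => ctil c w * (I * e (w.1 * w.2 * τ.re) *
      ((Real.sqrt (τ.im / t) * (w.1 - w.2 / t) *
        Real.exp (-π * τ.im * (t * w.1 ^ 2 + w.2 ^ 2 / t)) : ℝ) : ℂ)) := by
    refine Summable.of_norm ((((PoiP.summable2 h.sb_ctil 1 0 (A := π * t * τ.im)
      (B := π * τ.im / t) (by positivity) (by positivity) 0).add
      ((PoiP.summable2 h.sb_ctil 0 1 (A := π * t * τ.im) (B := π * τ.im / t)
      (by positivity) (by positivity) 0).mul_left t⁻¹)).mul_left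
        (Real.sqrt (τ.im / t))).of_nonneg_of_le (fun w => norm_nonneg _) fun w => ?_)
    have b : |(w.1 : ℝ) - w.2 / t| ≤ |(w.1 : ℝ)| + t⁻¹ * |(w.2 : ℝ) + w.1 * 0| := by
      refine (abs_sub _ _).trans (le_of_eq ?_)
      rw [abs_div, abs_of_pos ht, mul_zero, add_zero, div_eq_inv_mul]
    rw [norm_mul, norm_mul, norm_mul, norm_I, PoiP.norm_e_real, Complex.norm_real,
      Real.norm_eq_abs, abs_mul, abs_mul, abs_of_nonneg (Real.sqrt_nonneg _), Real.abs_exp,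
      PoiP.exp_half]
    calc _ ≤ ‖ctil c w‖ * (1 * 1 * (Real.sqrt (τ.im / t) *
          (|(w.1 : ℝ)| + t⁻¹ * |(w.2 : ℝ) + w.1 * 0|) *
          (Real.exp (-(π * t * τ.im) * (w.1 : ℝ) ^ 2) *
            Real.exp (-(π * τ.im / t) * ((w.2 : ℝ) + w.1 * 0) ^ 2)))) := by gcongr
      _ = _ := by ring
  convert s.hasSum using 1
  rw [s.tsum_prod, K1, (summable_K1 h τ ht).of_norm.tsum_prod]
  refine tsum_congr fun x => ?_
  obtain ⟨M, hM, hL⟩ := id h
  have hφ := (hL.snd x).sb hM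
  have ha : 0 < (((t / τ.im : ℝ) : ℂ)).re := by rw [ofReal_re]; positivity
  set b : ℂ := ((-(t / τ.im) * (x * τ.re) : ℝ) : ℂ) with hb
  set a : ℂ := ((t / τ.im : ℝ) : ℂ) with ha'
  set E : ℂ := ((Real.exp (-π * t * τ.im * x ^ 2 - π * (t / τ.im) * (x * τ.re) ^ 2) : ℝ) : ℂ)
    with hE
  have p0 := poisson0 hφ ha b
  have p1 := poisson1 hφ ha b
  have s0 : Summable fun z : ℚ => c (x, z) * cexp (-π * a * z ^ 2 + 2 * π * b * z) := by
    simpa using (summable_gauss hφ ha b 0).of_norm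
  have s1 : Summable fun z : ℚ => c (x, z) * z * cexp (-π * a * z ^ 2 + 2 * π * b * z) := by
    simpa using (summable_gauss hφ ha b 1).of_norm
  have hF := hφ.sb_F1 one_ne_zero
  have d0 : Summable fun z : ℚ => F1 1 (fun y => c (x, y)) z * cexp (-π * (z + I * b) ^ 2 / a) := by
    refine ((summable_gauss hF (PoiP.re_inv_pos ha) (-I * b / a) 0).of_norm.mul_left
      (cexp (π * b ^ 2 / a))).congr fun z => ?_
    rw [PoiP.dual_exp]
    ring
  have d1 : Summable fun z : ℚ => F1 1 (fun y => c (x, y)) z * (-I * (z + I * b) / a) *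
      cexp (-π * (z + I * b) ^ 2 / a) := by
    refine (((summable_gauss hF (PoiP.re_inv_pos ha) (-I * b / a) 1).of_norm.mul_left
      (cexp (π * b ^ 2 / a) * (-I / a))).add (d0.mul_left (-I * (I * b) / a))).congr fun z => ?_
    rw [PoiP.dual_exp]
    ring
  have l : ∀ z : ℚ, c (x, z) * (lin (x, z) τ / τ.im) * gau (x, z) τ t =
      E / τ.im * (c (x, z) * z * cexp (-π * a * z ^ 2 + 2 * π * b * z) +
        x * τ * (c (x, z) * cexp (-π * a * z ^ 2 + 2 * π * b * z))) := fun z => by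
    rw [PoiP.gau_split, lin]
    ring
  simp only [l]
  rw [tsum_mul_left, s1.tsum_add (s0.mul_left _), tsum_mul_left, p0, p1, mul_left_comm (x * τ : ℂ),
    ← mul_add, ← tsum_mul_left (a := (x * τ : ℂ)), ← d1.tsum_add (d0.mul_left _),
    PoiP.cpow_real τ ht, ← tsum_mul_left, ← tsum_mul_left]
  refine tsum_congr fun z => ?_
  have key := PoiP.dual_split x z τ ht
  rw [← hE, ← hb, ← ha'] at key
  have k2 : (-I * (z + I * b) / a + x * τ) / τ.im = I * (x - z / t) := by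
    rw [hb, ha']
    conv_lhs => rw [← re_add_im (τ : ℂ), coe_re, coe_im]
    push_cast
    field_simp
    linear_combination ((t : ℂ) * x * τ.re) * I_sq
  rw [ofReal_mul, ofReal_mul, ctil]
  push_cast at key ⊢
  linear_combination (F1 1 (fun y => c (x, y)) z * (Real.sqrt (τ.im / t) : ℝ) * E *
    cexp (-π * (z + I * b) ^ 2 / a)) * k2 +
    (F1 1 (fun y => c (x, y)) z * (Real.sqrt (τ.im / t) : ℝ) * I * (x - z / t)) * key

theorem K1_fe {c : Q2 → ℂ} (h : SB c) (τ : ℍ) {t : ℝ} (ht : 0 < t) :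
    K1 c τ t = ((t : ℂ) ^ 2)⁻¹ * K1 (FS c) τ t⁻¹ := by
  have h1 : (t : ℂ) ≠ 0 := by exact_mod_cast ht.ne'
  obtain ⟨M, hM, hL⟩ := id h
  rw [← (K1_half h τ ht).tsum_eq,
    ← (K1_half ((hL.lev_FS hM).sb hM) τ (inv_pos.2 ht)).tsum_eq, ← tsum_mul_left,
    ← PoiP.sw.tsum_eq]
  refine tsum_congr fun w => ?_
  rw [ctil_FS h, PoiP.sqrt_inv τ ht]
  simp only [PoiP.sw, Equiv.coe_fn_mk]
  rw [show -π * τ.im * (t * ((-w.2 : ℚ) : ℝ) ^ 2 + ((-w.1 : ℚ) : ℝ) ^ 2 / t) =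
    -π * τ.im * (t⁻¹ * w.1 ^ 2 + w.2 ^ 2 / t⁻¹) by push_cast; field_simp; ring,
    show ((-w.2 : ℚ) : ℂ) * ((-w.1 : ℚ) : ℂ) * τ.re = w.1 * w.2 * τ.re by push_cast; ring]
  push_cast
  field_simp
  ring

end

end Pool.Agent.P.MP_b8021b_nt.CM
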