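import Pool.Agent.P.MP_b8021b_nt.CM.SB0

/-! Library L5: Schwartz-Bruhat functions and the finite Haar integral. -/

namespace Pool.Agent.P.MP_b8021b_nt.CM

open Function

noncomputable section

section general

variable {W W' : Type} [AddCommGroup W] [Module ℚ W] [Lat W] [AddCommGroup W'] [Module ℚ W']
  [Lat W'] {φ ψ : W → ℂ} {M N : ℕ}

theorem idx_ne (W : Type) [AddCommGroup W] [Module ℚ W] [Lat W] (hM : 0 < M) :
    (idx W M : ℂ) ≠ 0 := by exact_mod_cast (idx_pos W hM).ne'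

theorem cls_congr {r x : W} {r' x' : W'}
    (h : IsInt ((M : ℚ)⁻¹ • (x - r)) ↔ IsInt ((N : ℚ)⁻¹ • (x' - r'))) :
    cls M r x = cls N r' x' := by
  by_cases h1 : IsInt ((M : ℚ)⁻¹ • (x - r))
  · rw [cls_of h1, cls_of (h.1 h1)]
  · rw [cls_of_not h1, cls_of_not (mt h.2 h1)]

theorem II_zero : II (0 : W → ℂ) = 0 := dmean_zero _ _
theorem II_add (h : SB φ) (h' : SB ψ) : II (φ + ψ) = II φ + II ψ := dmean_add h.dgood h'.dgood
theorem II_smul (c : ℂ) (φ : W → ℂ) : II (c • φ) = c * II φ := dmean_smul c φ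
theorem II_const_mul (c : ℂ) (φ : W → ℂ) : II (fun x => c * φ x) = c * II φ := II_smul c φ
theorem II_sum {ι : Type} (s : Finset ι) (f : ι → W → ℂ) (h : ∀ i ∈ s, SB (f i)) :
    II (fun x => ∑ i ∈ s, f i x) = ∑ i ∈ s, II (f i) := by
  have := dmean_sum s f fun i hi => (h i hi).dgood
  rw [Finset.sum_fn] at this
  exact this
theorem II_shift (φ : W → ℂ) (a : W) : II (fun x => φ (x + a)) = II φ :=
  (dmean_equiv (ρ := trA W) (ρ' := trA W) (Equiv.addRight a)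
    (fun γ _ x => add_assoc γ.toAdd x a) φ).2
theorem II_cls (hM : 0 < M) (r : W) : II (cls M r) = 1 / (idx W M : ℂ) := by
  rw [(II_eq_sum' hM (fun x k hk => cls_per hM r x hk) {r} fun x hx =>
    ⟨r, ⟨Finset.mem_singleton_self r, (cls_ne_zero_iff r x).1 hx⟩,
      fun y hy => Finset.mem_singleton.1 hy.1⟩).2, Finset.sum_singleton, cls_of (cong_refl _ r)]
theorem exists_ne_zero_of_II (h : II φ ≠ 0) : ∃ x, φ x ≠ 0 := by
  by_contra hcon
  push Not at hcon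
  exact h (by rw [show φ = 0 from funext hcon, II_zero])
/-- bound by the volume of the support: `φ` vanishes outside `K⁻¹ L` -/
theorem norm_II_le' (h : SB φ) {K : ℕ} (hK : 0 < K) (hs : ∀ x, φ x ≠ 0 → IsInt ((K : ℚ) • x))
    {C : ℝ} (hC : ∀ x, ‖φ x‖ ≤ C) : ‖II φ‖ ≤ idx W K * C := by
  obtain ⟨M, hM, h⟩ := h
  obtain ⟨R, -, r2, r3⟩ := exists_reps2 W hM hK
  have hp : (0 : ℝ) < idx W M := by exact_mod_cast idx_pos W hM
  rw [II_eq_sum hM h R fun x hx => r3 x (hs x hx), norm_div, Complex.norm_natCast,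
    div_le_iff₀ hp]
  refine (norm_sum_le _ _).trans ((Finset.sum_le_card_nsmul _ _ C fun r _ => hC r).trans ?_)
  rw [r2, nsmul_eq_mul]
  push_cast
  exact le_of_eq (by ring)
theorem norm_II_le (hM : 0 < M) (h : Lev M φ) {C : ℝ} (hC : ∀ x, ‖φ x‖ ≤ C) :
    ‖II φ‖ ≤ idx W M * C := norm_II_le' (h.sb hM) hM h.2 hC
theorem Lev.conj (h : Lev M φ) : Lev M fun x => (starRingEnd ℂ) (φ x) :=
  ⟨fun x k hk => congrArg _ (h.1 x k hk), fun x hx => h.2 x fun h0 => hx (by simp [h0])⟩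
theorem II_conj (φ : W → ℂ) :
    II (fun x => (starRingEnd ℂ) (φ x)) = (starRingEnd ℂ) (II φ) := by
  by_cases h : SB φ
  · obtain ⟨M, hM, h⟩ := h
    obtain ⟨R, -, -, r3⟩ := exists_reps2 W hM hM
    rw [II_eq_sum hM h R fun x hx => r3 x (h.2 x hx),
      II_eq_sum hM h.conj R fun x hx => r3 x (h.conj.2 x hx)]
    simp
  · rw [II_of_not_sb h, II_of_not_sb, map_zero]
    rintro ⟨M, hM, h'⟩
    exact h ⟨M, hM, by simpa using h'.conj⟩
theorem II_pos (h : SB φ) (h0 : ∀ x, 0 ≤ (φ x).re ∧ (φ x).im = 0) (h1 : φ ≠ 0) : II φ ≠ 0 := by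
  obtain ⟨M, hM, h⟩ := h
  obtain ⟨R, -, -, r3⟩ := exists_reps2 W hM hM
  obtain ⟨x, hx⟩ := Function.ne_iff.1 h1
  obtain ⟨r, ⟨hr, e1⟩, -⟩ := r3 x (h.2 x hx)
  rw [h.eq_of_cong hM e1] at hx
  rw [II_eq_sum hM h R fun x hx => r3 x (h.2 x hx)]
  refine div_ne_zero (fun e2 => ?_) (idx_ne W hM)
  have e3 := congrArg Complex.re e2
  rw [Complex.re_sum, Complex.zero_re, Finset.sum_eq_zero_iff_of_nonneg fun i _ => (h0 i).1] at e3
  exact hx (Complex.ext (e3 r hr) (h0 r).2)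
theorem Lev.II_snd (hM : 0 < M) {φ : W × W' → ℂ} (h : Lev M φ) :
    Lev M fun x => II fun y => φ (x, y) := by
  refine ⟨fun x k hk => congrArg II (funext fun y => (h.fst y).1 x k hk), fun x hx => ?_⟩
  obtain ⟨y, hy⟩ := exists_ne_zero_of_II hx
  exact (h.fst y).2 x hy
theorem SB.II_snd {φ : W × W' → ℂ} (h : SB φ) : SB fun x => II fun y => φ (x, y) := by
  obtain ⟨M, hM, h⟩ := h
  exact ⟨M, hM, h.II_snd hM⟩
theorem Lev.swap {φ : W × W' → ℂ} (h : Lev M φ) : Lev M fun p : W' × W => φ (p.2, p.1) :=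
  lev_prod (fun x => h.snd x) fun y => h.fst y
theorem SB.II_fst {φ : W × W' → ℂ} (h : SB φ) : SB fun y => II fun x => φ (x, y) := by
  obtain ⟨M, hM, h⟩ := h
  exact ⟨M, hM, h.swap.II_snd hM⟩

/-- the size of a system of representatives of `L / M L` -/
theorem card_reps (hM : 0 < M) (R : Finset W) (r1 : ∀ r ∈ R, IsInt r)
    (r3 : ∀ x, IsInt x → ∃! r, r ∈ R ∧ IsInt ((M : ℚ)⁻¹ • (x - r))) : R.card = idx W M := by
  have hc : ∀ x : W, IsInt (((1 : ℕ) : ℚ)⁻¹ • (x - 0)) ↔ IsInt x := by simp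
  have h1 := II_eq_sum hM ((lev_cls (W := W) one_pos (r := 0)
    (by simpa using isInt_zero)).mono (one_dvd M)) R
    fun x hx => r3 x ((hc x).1 ((cls_ne_zero_iff 0 x).1 hx))
  rw [II_cls one_pos, idx_one, Finset.sum_congr rfl fun r hr => cls_of ((hc r).2 (r1 r hr)),
    eq_div_iff (idx_ne W hM)] at h1
  simpa using h1.symm

theorem reps_prod {c : ℚ} {P : W → Prop} {P' : W' → Prop} {R : Finset W} {R' : Finset W'}
    (r3 : ∀ x, P x → ∃! r, r ∈ R ∧ IsInt (c • (x - r)))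
    (r3' : ∀ x, P' x → ∃! r, r ∈ R' ∧ IsInt (c • (x - r))) (p : W × W') (h : P p.1)
    (h' : P' p.2) : ∃! r, r ∈ R ×ˢ R' ∧ IsInt (c • (p - r)) := by
  obtain ⟨r, ⟨a1, a2⟩, a3⟩ := r3 _ h
  obtain ⟨r', ⟨b1, b2⟩, b3⟩ := r3' _ h'
  refine ⟨(r, r'), ⟨Finset.mem_product.2 ⟨a1, b1⟩, a2, b2⟩, fun q hq => ?_⟩
  have := Finset.mem_product.1 hq.1
  exact Prod.ext (a3 _ ⟨this.1, hq.2.1⟩) (b3 _ ⟨this.2, hq.2.2⟩)

theorem idx_zero : idx W 0 = Nat.card (Lat.lat (W := W)) := by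
  rw [← AddSubgroup.relIndex_bot_left]
  unfold idx
  congr 1
  rw [AddSubgroup.map_eq_bot_iff]
  intro x _
  simp

theorem idx_prod (M : ℕ) : idx (W × W') M = idx W M * idx W' M := by
  rcases Nat.eq_zero_or_pos M with rfl | hM
  · rw [idx_zero, idx_zero, idx_zero, ← Nat.card_prod]
    exact Nat.card_congr (AddSubgroup.prodEquiv _ _).toEquiv
  · obtain ⟨R, r1, r2, r3⟩ := exists_reps2 W hM one_pos
    obtain ⟨R', s1, s2, s3⟩ := exists_reps2 W' hM one_pos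
    simp only [Nat.cast_one, one_smul, idx_one, one_mul] at r1 r2 r3 s1 s2 s3
    rw [← r2, ← s2, ← Finset.card_product]
    refine (card_reps hM _ (fun r hr => ?_) fun p hp => reps_prod r3 s3 p hp.1 hp.2).symm
    have := Finset.mem_product.1 hr
    exact ⟨r1 _ this.1, s1 _ this.2⟩

theorem II_prod {φ : W × W' → ℂ} (h : SB φ) : II φ = II fun x => II fun y => φ (x, y) := by
  obtain ⟨M, hM, h⟩ := h
  obtain ⟨R, -, -, r3⟩ := exists_reps2 W hM hM
  obtain ⟨R', -, -, s3⟩ := exists_reps2 W' hM hM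
  rw [II_eq_sum hM h _ fun p hp => reps_prod r3 s3 p (h.2 p hp).1 (h.2 p hp).2,
    II_eq_sum hM (h.II_snd hM) R fun x hx => r3 x ((h.II_snd hM).2 x hx),
    Finset.sum_congr rfl fun x _ => II_eq_sum hM (h.snd x) R' fun y hy => s3 y ((h.snd x).2 y hy),
    Finset.sum_product, idx_prod, ← Finset.sum_div, div_div, Nat.cast_mul, mul_comm]

omit [Lat W] [Lat W'] in
theorem reps_equiv (L : W ≃ₗ[ℚ] W') {φ : W' → ℂ} {A : AddSubgroup W'} {R : Finset W'}
    (hR : ∀ x, φ x ≠ 0 → ∃! r, r ∈ R ∧ x - r ∈ A) (x : W) (hx : φ (L x) ≠ 0) :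
    ∃! r, r ∈ R.map L.symm.toEquiv.toEmbedding ∧
      x - r ∈ A.comap L.toLinearMap.toAddMonoidHom := by
  obtain ⟨r, ⟨a1, a2⟩, a3⟩ := hR _ hx
  refine ⟨L.symm r, ⟨Finset.mem_map_of_mem _ a1, by simpa using a2⟩, fun q hq => ?_⟩
  obtain ⟨q', b1, rfl⟩ := Finset.mem_map.1 hq.1
  rw [a3 q' ⟨b1, by simpa using hq.2⟩]
  rfl

theorem II_equiv (L : W ≃ₗ[ℚ] W') :
    ∃ c : ℝ, 0 < c ∧ ∀ φ : W' → ℂ, SB φ → II (fun x => φ (L x)) = c * II φ := by
  obtain ⟨K, hK, h2⟩ := exists_den L.symm.toLinearMap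
  obtain ⟨K1, hK1, h1⟩ := exists_den L.toLinearMap
  have hK' : (K : ℚ) ≠ 0 := by exact_mod_cast hK.ne'
  set f := L.toLinearMap.toAddMonoidHom with hf
  have hle : (latS W' K).comap f ≤ Lat.lat := by
    intro x hx
    refine IsInt.congr (h2 _ ((mem_latS hK' _).1 hx)) ?_
    simp [hf, smul_smul, mul_inv_cancel₀ hK']
  have hne : ((latS W' K).comap f).relIndex Lat.lat ≠ 0 := by
    have h3 : latS W ((K * K1 : ℕ) : ℚ) ≤ (latS W' K).comap f := by
      rintro _ ⟨x, hx, rfl⟩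
      rw [AddSubgroup.mem_comap, mem_latS hK']
      refine (h1 x hx).congr ?_
      simp [hf, smul_smul, inv_mul_cancel_left₀ hK']
    exact fun h0 => (idx_pos W (Nat.mul_pos hK hK1)).ne'
      (AddSubgroup.relIndex_eq_zero_of_le_left h3 h0)
  refine ⟨(idx W' K : ℝ) / ((latS W' K).comap f).relIndex Lat.lat,
    div_pos (by exact_mod_cast idx_pos W' hK) (by exact_mod_cast Nat.pos_of_ne_zero hne), ?_⟩
  rintro φ ⟨M, hM, h⟩
  have hKM : ((K * M : ℕ) : ℚ) ≠ 0 := by exact_mod_cast (Nat.mul_pos hK hM).ne'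
  have h' := h.mono (dvd_mul_left M K)
  obtain ⟨R, -, -, r3⟩ := exists_reps2 W' (Nat.mul_pos hK hM) hM
  have hle2 : (latS W' (K * M)).comap f ≤ (latS W' K).comap f :=
    AddSubgroup.comap_mono (latS_le hK' hM)
  have e1 : ((latS W' (K * M)).comap f).relIndex ((latS W' K).comap f) = idx W' M := by
    rw [AddSubgroup.relIndex_comap, AddSubgroup.map_comap_eq_self_of_surjective L.surjective,
      relIndex_latS hK']
  have e2 := AddSubgroup.relIndex_mul_relIndex _ _ _ hle2 hle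
  rw [e1] at e2
  have e3 := (II_eq_sum_sub (φ := fun x => φ (L x)) ((latS W' (K * M)).comap f) (hle2.trans hle)
    (by rw [← e2]; exact mul_ne_zero (idx_pos W' hM).ne' hne) (fun a ha x => by
      obtain ⟨k, hk, e4⟩ := ha
      have e5 : L a = ((K * M : ℕ) : ℚ) • k := by rw [Nat.cast_mul]; exact e4.symm
      show φ (L _) = φ (L x)
      rw [map_add, add_comm, e5, h'.1 _ k hk]) _
    (reps_equiv L (A := latS W' (K * M)) (R := R) fun x hx => by
      simpa only [← Nat.cast_mul, mem_latS hKM] using r3 x (h.2 x hx))).2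
  rw [e3, II_eq_sum (Nat.mul_pos hK hM) h' R fun x hx => r3 x (h.2 x hx), ← e2, idx_mul hK hM,
    Finset.sum_map]
  have := idx_ne W' hK
  have := idx_ne W' hM
  have : ((((latS W' K).comap f).relIndex Lat.lat : ℕ) : ℂ) ≠ 0 := by exact_mod_cast hne
  push_cast
  field_simp
  simp
theorem Lev.comp_lat {φ : W' → ℂ} (h : Lev M φ) (L : W ≃ₗ[ℚ] W')
    (hL : ∀ x, IsInt (L x) ↔ IsInt x) : Lev M fun x => φ (L x) := by
  refine ⟨fun x k hk => ?_, fun x hx => (hL _).1 (by rw [map_smul]; exact h.2 _ hx)⟩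
  show φ (L _) = φ (L x)
  rw [map_add, map_smul, h.1 _ _ ((hL k).2 hk)]
theorem II_equiv_lat (L : W ≃ₗ[ℚ] W') (hL : ∀ x, IsInt (L x) ↔ IsInt x) (φ : W' → ℂ) :
    II (fun x => φ (L x)) = II φ := by
  by_cases h : SB φ
  · obtain ⟨c, -, hc⟩ := II_equiv L
    have h1 := hc _ (sb_cls one_pos 0)
    have h2 : (fun x => cls 1 0 (L x)) = cls 1 (0 : W) :=
      funext fun x => cls_congr (by simp [hL])
    rw [h2, II_cls one_pos, II_cls one_pos, idx_one, idx_one] at h1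
    rw [hc φ h, show (c : ℂ) = 1 by simpa using h1.symm, one_mul]
  · rw [II_of_not_sb h, II_of_not_sb]
    rintro ⟨M, hM, h'⟩
    refine h ⟨M, hM, ?_⟩
    simpa using h'.comp_lat L.symm fun x => by rw [← hL]; simp
theorem II_prod' {φ : W × W' → ℂ} (h : SB φ) : II φ = II fun y => II fun x => φ (x, y) := by
  obtain ⟨M, hM, h⟩ := h
  rw [← II_equiv_lat (LinearEquiv.prodComm ℚ W' W) (fun x => and_comm) φ]
  exact II_prod (h.swap.sb hM)
theorem II_neg (φ : W → ℂ) : II (fun x => φ (-x)) = II φ :=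
  II_equiv_lat (LinearEquiv.neg ℚ) (fun x => ⟨fun h => by simpa using h.neg, fun h => h.neg⟩) φ

theorem idx_congr (L : W ≃ₗ[ℚ] W') (hL : ∀ x, IsInt (L x) ↔ IsInt x) (M : ℕ) :
    idx W M = idx W' M := by
  rcases Nat.eq_zero_or_pos M with rfl | hM
  · rw [idx_zero, idx_zero]
    exact Nat.card_congr (L.toEquiv.subtypeEquiv fun x => (hL x).symm)
  · have h1 := II_equiv_lat L hL (cls M 0)
    have h2 : (fun x => cls M 0 (L x)) = cls M (0 : W) :=
      funext fun x => cls_congr (by simp [← hL])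
    rw [h2, II_cls hM, II_cls hM] at h1
    simpa using h1

theorem idx_rat (M : ℕ) : idx ℚ M = M := by
  have h1 : (Lat.lat (W := ℚ)) = (⊤ : AddSubgroup ℤ).map (Int.castAddHom ℚ) :=
    AddMonoidHom.range_eq_map _
  have h2 : (Lat.lat (W := ℚ)).map (DistribSMul.toAddMonoidHom ℚ (M : ℚ)) =
      (AddSubgroup.zmultiples (M : ℤ)).map (Int.castAddHom ℚ) := by
    ext x
    constructor
    · rintro ⟨_, ⟨n, rfl⟩, rfl⟩
      exact ⟨n • (M : ℤ), ⟨n, rfl⟩, by simp [mul_comm]⟩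
    · rintro ⟨_, ⟨n, rfl⟩, rfl⟩
      exact ⟨n, ⟨n, rfl⟩, by simp [mul_comm]⟩
  unfold idx
  rw [h2, h1, AddSubgroup.relIndex_map_map_of_injective _ _ Int.cast_injective,
    AddSubgroup.relIndex_top_right, Int.index_zmultiples, Int.natAbs_natCast]

/-- coordinates of a matrix -/
def m2Equiv : M2 ≃ₗ[ℚ] Q2 × Q2 where
  toFun Y := ((Y 0 0, Y 0 1), (Y 1 0, Y 1 1))
  invFun p := !![p.1.1, p.1.2; p.2.1, p.2.2]
  map_add' _ _ := rfl
  map_smul' _ _ := rfl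
  left_inv Y := (Matrix.eta_fin_two Y).symm
  right_inv _ := rfl

theorem idx_M2 (M : ℕ) : idx M2 M = M ^ 4 := by
  rw [idx_congr m2Equiv (fun Y => ?_), idx_prod, idx_prod, idx_rat]
  · ring
  · rw [isInt_M2']
    simp only [Fin.forall_fin_two]
    rfl

/-- scaling by an integer prime to the level -/
theorem II_unit (hM : 0 < M) (h : Lev M φ) (h' : Lev M ψ) {n : ℤ} (hn : IsCoprime n M)
    (e : ∀ x, IsInt ((M : ℚ) • x) → ψ x = φ ((n : ℚ) • x)) : II ψ = II φ := by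
  classical
  have hM' : (M : ℚ) ≠ 0 := by exact_mod_cast hM.ne'
  obtain ⟨R, r1, -, r3⟩ := exists_reps2 W hM hM
  obtain ⟨u, v, huv⟩ := hn.mul_right hn
  have huv' : (u : ℚ) * n + v * (M * M) = 1 := by exact_mod_cast huv
  have key : ∀ x : W, IsInt ((M : ℚ) • x) → IsInt ((M : ℚ)⁻¹ • (x - (n : ℚ) • (u : ℚ) • x)) := by
    intro x hx
    refine (hx.zsmul v).congr ?_
    rw [smul_sub, smul_smul, smul_smul, smul_smul, ← sub_smul]
    congr 1
    field_simp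
    linear_combination huv'
  have hsc : ∀ (m : ℤ) (x y : W), IsInt ((M : ℚ)⁻¹ • (x - y)) →
      IsInt ((M : ℚ)⁻¹ • ((m : ℚ) • x - (m : ℚ) • y)) := fun m x y hxy =>
    (hxy.zsmul m).congr (by rw [← smul_sub, smul_comm])
  have hcan : ∀ x ∈ R, ∀ y ∈ R, IsInt ((M : ℚ)⁻¹ • ((n : ℚ) • x - (n : ℚ) • y)) → x = y := by
    intro x hx y hy hxy
    have h1 := hsc u _ _ hxy
    rw [smul_comm (u : ℚ), smul_comm (u : ℚ)] at h1
    exact (r3 x (r1 x hx)).unique ⟨hx, cong_refl _ x⟩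
      ⟨hy, cong_trans (cong_trans (key x (r1 x hx)) h1) (cong_symm (key y (r1 y hy)))⟩
  rw [II_eq_sum hM h' R fun x hx => r3 x (h'.2 x hx),
    II_eq_sum hM h (R.image fun r => (n : ℚ) • r) fun x hx => ?_,
    Finset.sum_image fun x hx y hy hxy => hcan x hx y hy (by rw [hxy]; exact cong_refl _ _),
    Finset.sum_congr rfl fun r hr => e r (r1 r hr)]
  have hx' := h.2 x hx
  obtain ⟨r, ⟨a1, a2⟩, -⟩ := r3 ((u : ℚ) • x) ((hx'.zsmul u).congr (smul_comm _ _ _))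
  have a3 := cong_trans (key x hx') (hsc n _ _ a2)
  refine ⟨(n : ℚ) • r, ⟨Finset.mem_image_of_mem _ a1, a3⟩, ?_⟩
  rintro _ ⟨b1, b2⟩
  obtain ⟨q, hq, rfl⟩ := Finset.mem_image.1 b1
  rw [hcan q hq r a1 (cong_trans (cong_symm b2) a3)]
/-- the integral is a finite linear combination of values, uniformly in the function -/
theorem exists_II_sum (W : Type) [AddCommGroup W] [Module ℚ W] [Lat W] (hM : 0 < M) :
    ∃ (R : Finset W) (c : ℝ), 0 < c ∧ ∀ φ : W → ℂ, Lev M φ → II φ = c * ∑ r ∈ R, φ r := by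
  obtain ⟨R, -, -, r3⟩ := exists_reps2 W hM hM
  refine ⟨R, (idx W M : ℝ)⁻¹, inv_pos.2 (by exact_mod_cast idx_pos W hM), fun φ h => ?_⟩
  rw [II_eq_sum hM h R fun x hx => r3 x (h.2 x hx), div_eq_inv_mul]
  simp

/-! ### general Fourier transforms: `B` is a bilinear form -/

theorem eq_add_int (a : ℚ) {b : ℚ} (hb : IsInt b) : eq (a + b) = eq a := by
  rw [eq_add, (eq_eq_one_iff b).2 hb, mul_one]

theorem SB.mul_eq (h : SB φ) (l : W →ₗ[ℚ] ℚ) : SB fun x => φ x * eq (l x) := by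
  obtain ⟨K, hK, hl⟩ := exists_den l
  have := h.mul_of_per (fun x => eq (l x)) fun _ _ => ⟨K, hK, fun x k _ hk => by
    rw [map_add, map_smul, eq_add_int _ (hl k hk)]⟩
  simpa only [mul_comm] using this

theorem four_per (φ : W → ℂ) (P P' : W → ℚ) (h : ∀ x, φ x ≠ 0 → IsInt (P x - P' x)) :
    II (fun x => φ x * eq (P x)) = II fun x => φ x * eq (P' x) := by
  refine congrArg II (funext fun x => ?_)
  by_cases hx : φ x = 0
  · simp [hx]
  · rw [← eq_add_int (P' x) (h x hx), add_sub_cancel]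

theorem four_supp {P : W → ℚ} (a : W) (c : ℚ) (hφ : ∀ x, φ (x + a) = φ x)
    (hP : ∀ x, P (x + a) = P x + c) (h : II (fun x => φ x * eq (P x)) ≠ 0) : IsInt c := by
  have h1 := II_shift (fun x => φ x * eq (P x)) a
  have h2 : (fun x => φ (x + a) * eq (P (x + a))) = fun x => eq c * (φ x * eq (P x)) := by
    funext x
    rw [hφ, hP, eq_add]
    ring
  rw [h2, II_const_mul] at h1
  exact (eq_eq_one_iff c).1 (mul_left_eq_self₀.1 h1 |>.resolve_right h)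

theorem IsInt.smul_rat {a : ℚ} (ha : IsInt a) {x : W} (hx : IsInt x) : IsInt (a • x) := by
  obtain ⟨n, rfl⟩ := (isInt_rat a).1 ha
  exact hx.zsmul n

theorem exists_den2 (B : W →ₗ[ℚ] W' →ₗ[ℚ] ℚ) :
    ∃ D : ℕ, 0 < D ∧ ∀ x z, IsInt x → IsInt z → IsInt ((D : ℚ) • B x z) := by
  obtain ⟨S, hS⟩ := Lat.fg (W := W)
  choose K hK h using fun s : W => exists_den (B s)
  refine ⟨∏ s ∈ S, K s, Finset.prod_pos fun s _ => hK s, fun x z hx hz => ?_⟩
  refine lat_induction (P := fun x => IsInt (((∏ s ∈ S, K s : ℕ) : ℚ) • B x z)) hS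
    (fun s hs => (h s z hz).smul_of_dvd (Finset.dvd_prod_of_mem K hs))
    (by simpa using isInt_zero) (fun x y hx hy => ?_) (fun x hx => ?_) hx
  · rw [map_add, LinearMap.add_apply, smul_add]
    exact hx.add hy
  · rw [map_neg, LinearMap.neg_apply, smul_neg]
    exact hx.neg

theorem exists_dual_den (B : W →ₗ[ℚ] W' →ₗ[ℚ] ℚ) (hB : ∀ z, (∀ x, B x z = 0) → z = 0) :
    ∃ D : ℕ, 0 < D ∧ ∀ z, (∀ x, IsInt x → IsInt (B x z)) → IsInt ((D : ℚ) • z) := by
  classical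
  obtain ⟨S, hS⟩ := Lat.fg (W := W)
  let T : W' →ₗ[ℚ] (S → ℚ) := LinearMap.pi fun s => B s
  have hT : LinearMap.ker T = ⊥ := by
    rw [LinearMap.ker_eq_bot']
    intro z hz
    refine hB z fun x => ?_
    obtain ⟨D, hD, hx⟩ := Lat.den x
    have h1 : B ((D : ℚ) • x) z = 0 :=
      lat_induction (P := fun x => B x z = 0) hS (fun s hs => congrFun hz ⟨s, hs⟩) (by simp)
        (fun x y hx hy => by simp [hx, hy]) (fun x hx => by simp [hx]) hx
    simpa [hD.ne'] using h1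
  obtain ⟨G, hG⟩ := T.exists_leftInverse_of_injective hT
  obtain ⟨D, hD, h⟩ := exists_den_finset (Finset.univ.image fun s : S => G (Pi.single s 1))
  refine ⟨D, hD, fun z hz => ?_⟩
  have h1 : z = ∑ s : S, B s z • G (Pi.single s 1) := by
    have h2 : G (T z) = z := LinearMap.congr_fun hG z
    refine h2.symm.trans ?_
    rw [pi_eq_sum_univ' (T z), map_sum]
    exact Finset.sum_congr rfl fun s _ => map_smul _ _ _
  rw [h1, Finset.smul_sum]
  refine IsInt.sum _ _ fun s _ => ?_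
  rw [smul_comm]
  refine (hz s ?_).smul_rat (h _ (Finset.mem_image_of_mem _ (Finset.mem_univ s)))
  show s.1 ∈ Lat.lat
  rw [← hS]
  exact AddSubgroup.subset_closure s.2

omit [Lat W'] in
theorem four_lev_per (h : ∀ x, φ x ≠ 0 → IsInt ((M : ℚ) • x)) (B : W →ₗ[ℚ] W' →ₗ[ℚ] ℚ) (z t : W')
    (ht : ∀ x, IsInt ((M : ℚ) • x) → IsInt (B x t)) :
    (II fun x => φ x * eq (B x (z + t))) = II fun x => φ x * eq (B x z) :=
  four_per φ _ _ fun x hx => (ht x (h x hx)).congr (by simp)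

omit [Lat W'] in
theorem four_lev_supp (B : W →ₗ[ℚ] W' →ₗ[ℚ] ℚ) {z : W'} (a : W) (ha : ∀ x, φ (x + a) = φ x)
    (hz : (II fun x => φ x * eq (B x z)) ≠ 0) : IsInt (B a z) :=
  four_supp (P := fun x => B x z) a _ ha (fun x => by simp) hz

theorem SB.fourier (h : SB φ) (B : W →ₗ[ℚ] W' →ₗ[ℚ] ℚ) (hB : ∀ z, (∀ x, B x z = 0) → z = 0) :
    SB fun z => II fun x => φ x * eq (B x z) := by
  obtain ⟨M, hM, h⟩ := h
  obtain ⟨D, hD, h1⟩ := exists_den2 B
  obtain ⟨D', hD', h2⟩ := exists_dual_den B hB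
  refine ⟨D * (D' * M), by positivity, fun z k hk => four_lev_per h.2 B z _ fun x hx => ?_,
    fun z hz => ?_⟩
  · refine ((h1 _ k hx hk).nsmul D').congr ?_
    simp only [map_smul, LinearMap.smul_apply, smul_eq_mul]
    push_cast
    ring
  · have h3 := h2 ((M : ℚ) • z) fun k hk =>
      (four_lev_supp B ((M : ℚ) • k) (fun x => h.1 x k hk) hz).congr (by simp)
    rw [smul_smul, ← Nat.cast_mul] at h3
    exact h3.smul_of_dvd (dvd_mul_left _ _)

/-- the lattice is self dual for `B` -/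
def SelfDual (B : W →ₗ[ℚ] W →ₗ[ℚ] ℚ) : Prop := ∀ z, (∀ k, IsInt k → IsInt (B k z)) ↔ IsInt z

theorem SelfDual.nondeg {B : W →ₗ[ℚ] W →ₗ[ℚ] ℚ} (hB : SelfDual B) (z : W) (h : ∀ x, B x z = 0) :
    z = 0 := by
  obtain ⟨R, -, -, r3⟩ := exists_reps2 W one_pos one_pos
  have h1 : ∀ c : ℚ, IsInt (c • z) := fun c => (hB _).1 fun k _ => by simpa [h] using isInt_zero
  by_contra h0
  obtain ⟨l, hl⟩ : ∃ l : W →ₗ[ℚ] ℚ, l z = 1 := Module.Projective.exists_dual_eq_one ℚ h0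
  obtain ⟨K, hK, h2⟩ := exists_den l
  have hK' : (K : ℚ) ≠ 0 := by exact_mod_cast hK.ne'
  obtain ⟨n, hn⟩ := (isInt_rat _).1 (h2 _ (h1 (1 / (2 * K))))
  rw [map_smul, hl, smul_eq_mul, smul_eq_mul] at hn
  have h3 : (2 * n : ℤ) = (1 : ℚ) := by
    push_cast
    rw [← hn]
    field_simp
  have h4 : 2 * n = 1 := by exact_mod_cast h3
  omega

theorem SelfDual.lev {B : W →ₗ[ℚ] W →ₗ[ℚ] ℚ} (hB : SelfDual B) (h : Lev M φ) :
    Lev M fun z => II fun x => φ x * eq (B x z) := by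
  refine ⟨fun z k hk => four_lev_per h.2 B z _ fun x hx => ?_, fun z hz => (hB _).1 fun k hk => ?_⟩
  · exact ((hB k).2 hk _ hx).congr (by simp)
  · exact (four_lev_supp B ((M : ℚ) • k) (fun x => h.1 x k hk) hz).congr (by simp)

open Classical in
theorem SelfDual.four_cls {B : W →ₗ[ℚ] W →ₗ[ℚ] ℚ} (hB : SelfDual B) (hM : 0 < M) (r z : W) :
    (II fun x => cls M r x * eq (B x z)) =
      (if IsInt ((M : ℚ) • z) then 1 else 0) * eq (B r z) / idx W M := by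
  have hM' : (M : ℚ) ≠ 0 := by exact_mod_cast hM.ne'
  split_ifs with hz
  · rw [four_per _ _ (fun _ => B r z) fun x hx => ?_]
    · simp only [mul_comm (cls M r _)]
      rw [II_const_mul, II_cls hM]
      ring
    · refine ((hB _).2 hz _ ((cls_ne_zero_iff r x).1 hx)).congr ?_
      simp only [map_smul, map_sub, LinearMap.smul_apply, LinearMap.sub_apply, smul_eq_mul]
      field_simp
  · rw [zero_mul, zero_div]
    by_contra h0
    exact hz ((hB _).1 fun k hk =>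
      (four_lev_supp B ((M : ℚ) • k) (fun x => cls_per hM r x hk) h0).congr (by simp))

open Classical in
theorem SelfDual.four_ind {B : W →ₗ[ℚ] W →ₗ[ℚ] ℚ} (hB : SelfDual B) (hM : 0 < M) (w : W) :
    (II fun z : W => (if IsInt ((M : ℚ) • z) then (1 : ℂ) else 0) * eq (B z w)) =
      cls M 0 w * idx W M := by
  have hM' : (M : ℚ) ≠ 0 := by exact_mod_cast hM.ne'
  by_cases hw : IsInt ((M : ℚ)⁻¹ • (w - 0))
  · rw [cls_of hw, four_per _ _ (fun _ => 0) fun x hx => ?_]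
    · obtain ⟨R, r1, r2, r3⟩ := exists_reps2 W one_pos hM
      have hi : ∀ x : W, (if IsInt ((M : ℚ) • x) then (1 : ℂ) else 0) * eq 0 ≠ 0 →
          IsInt ((M : ℚ) • x) := fun x hx => by
        by_contra h0
        simp [h0] at hx
      rw [(II_eq_sum' one_pos (fun x k hk => ?_) R fun x hx => r3 x (hi x hx)).2,
        Finset.sum_congr rfl fun r hr => by rw [if_pos (r1 r hr), eq_zero, mul_one]]
      · simp [r2, idx_one]
      · have : IsInt ((M : ℚ) • (x + ((1 : ℕ) : ℚ) • k)) ↔ IsInt ((M : ℚ) • x) := by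
          rw [Nat.cast_one, one_smul, smul_add]
          exact ⟨fun h => (h.sub (hk.nsmul M)).congr (by simp), fun h => h.add (hk.nsmul M)⟩
        simp only [this]
    · have hx' : IsInt ((M : ℚ) • x) := by
        by_contra h0
        simp [h0] at hx
      refine ((hB _).2 hw _ hx').congr ?_
      simp only [map_smul, LinearMap.smul_apply, smul_eq_mul, sub_zero]
      field_simp
  · rw [cls_of_not hw, zero_mul]
    by_contra h0
    refine hw ((hB _).1 fun k hk =>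
      (four_lev_supp B ((M : ℚ)⁻¹ • k) (fun x => ?_) h0).congr (by simp))
    have : IsInt ((M : ℚ) • (x + (M : ℚ)⁻¹ • k)) ↔ IsInt ((M : ℚ) • x) := by
      rw [smul_add, smul_smul, mul_inv_cancel₀ hM', one_smul]
      exact ⟨fun h => (h.sub hk).congr (by simp), fun h => h.add hk⟩
    simp only [this]

/-- Fourier inversion for a symmetric self dual form -/
theorem SelfDual.inv {B : W →ₗ[ℚ] W →ₗ[ℚ] ℚ} (hB : SelfDual B) (hs : ∀ x z, B x z = B z x)
    (h : SB φ) (w : W) :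
    (II fun z => (II fun x => φ x * eq (B x z)) * eq (B z w)) = φ (-w) := by
  classical
  obtain ⟨M, hM, h⟩ := h
  obtain ⟨R, r1, -, r3⟩ := exists_reps2 W hM hM
  have e1 := eq_sum_cls hM r1 r3 φ h.1 h.2
  have e2 : ∀ z, (II fun x => φ x * eq (B x z)) * eq (B z w) =
      ∑ r ∈ R, φ r * ((II fun x => cls M r x * eq (B x z)) * eq (B z w)) := by
    intro z
    have e3 := II_sum R (fun r x => φ r * (cls M r x * eq (B x z))) fun r _ =>
      ((sb_cls hM r).mul_eq (B.flip z)).smul (φ r)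
    simp only [II_const_mul] at e3
    simp only [← mul_assoc]
    rw [← Finset.sum_mul, ← e3]
    congr 2
    funext x
    rw [e1 x, Finset.sum_mul]
    exact Finset.sum_congr rfl fun r _ => by rw [smul_eq_mul]; ring
  simp only [e2]
  rw [II_sum R (fun r z => φ r * ((II fun x => cls M r x * eq (B x z)) * eq (B z w))) fun r _ =>
    (((sb_cls hM r).fourier B hB.nondeg).mul_eq (B.flip w)).smul (φ r), e1 (-w)]
  refine Finset.sum_congr rfl fun r _ => ?_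
  have e4 : ∀ z, (II fun x => cls M r x * eq (B x z)) * eq (B z w) =
      (idx W M : ℂ)⁻¹ * ((if IsInt ((M : ℚ) • z) then (1 : ℂ) else 0) * eq (B z (r + w))) := by
    intro z
    rw [hB.four_cls hM, map_add, eq_add, hs r z]
    ring
  have e5 : cls M 0 (r + w) = cls M r (-w) := cls_congr
    ⟨fun h => h.neg.congr (by rw [← smul_neg]; congr 1; abel),
      fun h => h.neg.congr (by rw [← smul_neg]; congr 1; abel)⟩
  rw [II_const_mul]
  simp only [e4]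
  rw [II_const_mul, hB.four_ind hM, e5, smul_eq_mul]
  have := idx_ne W hM
  field_simp

end general

theorem isInt_int (n : ℤ) : IsInt (n : ℚ) := ⟨n, rfl⟩

theorem IsInt.mul {a b : ℚ} (ha : IsInt a) (hb : IsInt b) : IsInt (a * b) := ha.smul_rat hb

theorem isInt_one : IsInt (1 : ℚ) := ⟨1, by simp⟩

theorem isInt_nat (n : ℕ) : IsInt (n : ℚ) := ⟨n, by simp⟩

/-- sums over `M⁻¹ ℤ` -/
theorem tsum_lat {M : ℕ} (hM : 0 < M) (f : ℚ → ℂ) (h : ∀ x, f x ≠ 0 → IsInt ((M : ℚ) • x)) :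
    (Summable f ↔ Summable fun n : ℤ => f (n / M)) ∧ ∑' x, f x = ∑' n : ℤ, f (n / M) := by
  have hM' : (M : ℚ) ≠ 0 := by exact_mod_cast hM.ne'
  have hg : Injective fun n : ℤ => (n : ℚ) / M := fun a b e =>
    Int.cast_injective ((div_left_inj' hM').1 e)
  have hs : support f ⊆ Set.range fun n : ℤ => (n : ℚ) / M := fun x hx => by
    obtain ⟨n, hn⟩ := (isInt_rat _).1 (h x hx)
    refine ⟨n, ?_⟩
    show (n : ℚ) / M = x
    rw [← hn, smul_eq_mul, mul_div_cancel_left₀ _ hM']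
  exact ⟨(hg.summable_iff fun x hx => by_contra fun h0 => hx (hs h0)).symm, (hg.tsum_eq hs).symm⟩

/-- sums over the positive elements of `M⁻¹ ℤ` -/
theorem hasSum_pos_lat {M : ℕ} (hM : 0 < M) (f : ℚ → ℂ)
    (h : ∀ x, f x ≠ 0 → 0 ≤ x ∧ IsInt ((M : ℚ) • x)) (a : ℂ) :
    HasSum f a ↔ HasSum (fun n : ℕ => f (n / M)) a := by
  have hM' : (M : ℚ) ≠ 0 := by exact_mod_cast hM.ne'
  have hg : Injective fun n : ℕ => (n : ℚ) / M := fun a b e =>
    Nat.cast_injective ((div_left_inj' hM').1 e)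
  refine (hg.hasSum_iff fun x hx => by_contra fun h0 => hx ?_).symm
  obtain ⟨n, hn⟩ := (isInt_rat _).1 (h x h0).2
  rw [smul_eq_mul] at hn
  have h1 : (0 : ℚ) ≤ n := hn ▸ mul_nonneg (Nat.cast_nonneg M) (h x h0).1
  lift n to ℕ using by exact_mod_cast h1
  refine ⟨n, ?_⟩
  show (n : ℚ) / M = x
  rw [div_eq_iff hM', mul_comm, hn, Int.cast_natCast]

theorem II_scale {s : ℚ} (hs : s ≠ 0) {φ : ℚ → ℂ} (h : SB φ) :
    II (fun x => φ (s * x)) = ((|s| : ℚ) : ℂ) * II φ := by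
  obtain ⟨c, -, hc⟩ := II_equiv (LinearEquiv.smulOfNeZero ℚ ℚ s hs)
  have ha : 0 < s.num.natAbs := Int.natAbs_pos.2 (Rat.num_ne_zero.2 hs)
  have ha' : (s.num.natAbs : ℚ) ≠ 0 := by exact_mod_cast ha.ne'
  have hb : (s.den : ℚ) ≠ 0 := by exact_mod_cast s.den_nz
  have habs : |s| = s.num.natAbs / s.den := by
    rw [Nat.cast_natAbs, Int.cast_abs, ← abs_of_pos (a := (s.den : ℚ)) (by positivity),
      ← abs_div, Rat.num_div_den]
  have h1 := hc _ (sb_cls ha 0)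
  have h2 : (fun x => cls s.num.natAbs 0 (LinearEquiv.smulOfNeZero ℚ ℚ s hs x)) =
      cls s.den (0 : ℚ) := funext fun x => cls_congr (by
    show IsInt (_ * (s * x - 0)) ↔ IsInt (_ * _)
    have h3 : (s.den : ℚ)⁻¹ = (s.num.natAbs : ℚ)⁻¹ * |s| := by
      rw [habs]
      field_simp
    rw [h3, sub_zero, sub_zero, mul_assoc]
    rcases abs_choice s with h4 | h4 <;> rw [h4]
    exact ⟨fun h => h.neg.congr (by ring), fun h => h.neg.congr (by ring)⟩)
  rw [h2, II_cls ha, II_cls s.den_pos, idx_rat, idx_rat] at h1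
  have h5 : (c : ℂ) = ((|s| : ℚ) : ℂ) := by
    have ha'' : (s.num.natAbs : ℂ) ≠ 0 := by exact_mod_cast ha.ne'
    rw [habs, Rat.cast_div, Rat.cast_natCast, Rat.cast_natCast, div_eq_mul_one_div, h1]
    field_simp
  rw [← h5]
  exact hc φ h

/-- the forms that define the Fourier transforms -/
def B1 (s : ℚ) : ℚ →ₗ[ℚ] ℚ →ₗ[ℚ] ℚ := LinearMap.mk₂ ℚ (fun x z => s * x * z)
  (fun _ _ _ => by ring) (fun _ _ _ => by simp only [smul_eq_mul]; ring)
  (fun _ _ _ => by ring) (fun _ _ _ => by simp only [smul_eq_mul]; ring)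

def BS : Q2 →ₗ[ℚ] Q2 →ₗ[ℚ] ℚ := LinearMap.mk₂ ℚ (fun v w => v.1 * w.2 - v.2 * w.1)
  (fun _ _ _ => by simp; ring) (fun _ _ _ => by simp; ring)
  (fun _ _ _ => by simp; ring) (fun _ _ _ => by simp; ring)

def BV : M2 →ₗ[ℚ] M2 →ₗ[ℚ] ℚ := LinearMap.mk₂ ℚ (fun Y Z => -bil Y Z)
  (fun _ _ _ => by simp [bil]; ring) (fun _ _ _ => by simp [bil]; ring)
  (fun _ _ _ => by simp [bil]; ring) (fun _ _ _ => by simp [bil]; ring)

def B3 : Q3 →ₗ[ℚ] Q3 →ₗ[ℚ] ℚ := LinearMap.mk₂ ℚ (fun Y Z => -bil3 Y Z)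
  (fun _ _ _ => by simp [bil3]; ring) (fun _ _ _ => by simp [bil3]; ring)
  (fun _ _ _ => by simp [bil3]; ring) (fun _ _ _ => by simp [bil3]; ring)

def B4 (d : ℕ) : Q3 × ℚ →ₗ[ℚ] Q3 × ℚ →ₗ[ℚ] ℚ :=
  LinearMap.mk₂ ℚ (fun Y Z => -bil3 Y.1 Z.1 + 2 * d * Y.2 * Z.2)
  (fun _ _ _ => by simp [bil3]; ring) (fun _ _ _ => by simp [bil3]; ring)
  (fun _ _ _ => by simp [bil3]; ring) (fun _ _ _ => by simp [bil3]; ring)

def BL (d : ℕ) : Q2 →ₗ[ℚ] Q2 →ₗ[ℚ] ℚ := LinearMap.mk₂ ℚ (bilN d)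
  (fun _ _ _ => by simp [bilN]; ring) (fun _ _ _ => by simp [bilN]; ring)
  (fun _ _ _ => by simp [bilN]; ring) (fun _ _ _ => by simp [bilN]; ring)

def B0 : Q2 →ₗ[ℚ] Q2 →ₗ[ℚ] ℚ := LinearMap.mk₂ ℚ (fun x z => x.1 * z.1 + x.2 * z.2)
  (fun _ _ _ => by simp; ring) (fun _ _ _ => by simp; ring)
  (fun _ _ _ => by simp; ring) (fun _ _ _ => by simp; ring)

theorem selfDual_B1 : SelfDual (B1 1) := fun z =>
  ⟨fun h => by simpa [B1] using h 1 isInt_one, fun h k hk => by simpa [B1] using hk.mul h⟩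

theorem selfDual_BS : SelfDual BS := fun z =>
  ⟨fun h => ⟨IsInt.congr (h (0, 1) ⟨isInt_zero, isInt_one⟩).neg (by simp [BS]),
      IsInt.congr (h (1, 0) ⟨isInt_one, isInt_zero⟩) (by simp [BS])⟩,
    fun h k hk => (IsInt.mul hk.1 h.2).sub (IsInt.mul hk.2 h.1)⟩

theorem selfDual_B0 : SelfDual B0 := fun z =>
  ⟨fun h => ⟨IsInt.congr (h (1, 0) ⟨isInt_one, isInt_zero⟩) (by simp [B0]),
      IsInt.congr (h (0, 1) ⟨isInt_zero, isInt_one⟩) (by simp [B0])⟩,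
    fun h k hk => (IsInt.mul hk.1 h.1).add (IsInt.mul hk.2 h.2)⟩

theorem selfDual_BV : SelfDual BV := by
  intro Z
  simp only [isInt_M2']
  constructor
  · intro h
    have h0 := @isInt_zero ℚ _ _ _
    have h1 := isInt_one
    have a1 := (h !![0, 0; 0, 1] (by simp [Fin.forall_fin_two, h0, h1])).neg
    have a2 := h !![0, 0; 1, 0] (by simp [Fin.forall_fin_two, h0, h1])
    have a3 := h !![0, 1; 0, 0] (by simp [Fin.forall_fin_two, h0, h1])
    have a4 := (h !![1, 0; 0, 0] (by simp [Fin.forall_fin_two, h0, h1])).neg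
    simp only [Fin.forall_fin_two]
    exact ⟨⟨by simpa [BV, bil] using a1, by simpa [BV, bil] using a2⟩,
      by simpa [BV, bil] using a3, by simpa [BV, bil] using a4⟩
  · intro h k hk
    exact (((((hk 0 0).mul (h 1 1)).add ((hk 1 1).mul (h 0 0))).sub ((hk 0 1).mul (h 1 0))).sub
      ((hk 1 0).mul (h 0 1))).neg

theorem Lev.lev_F1 {M : ℕ} (hM : 0 < M) {φ : ℚ → ℂ} (h : Lev M φ) : Lev M (F1 1 φ) :=
  selfDual_B1.lev h
theorem SB.sb_F1 {s : ℚ} (hs : s ≠ 0) {φ : ℚ → ℂ} (h : SB φ) : SB (F1 s φ) :=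
  h.fourier (B1 s) fun z hz => by simpa [B1, hs] using hz 1
/-- inversion in one variable -/
theorem F1_inv {s : ℚ} (hs : s ≠ 0) {φ : ℚ → ℂ} (h : SB φ) (x : ℚ) :
    F1 s (F1 s φ) x = ((|s| : ℚ) : ℂ) * φ (-x) := by
  rw [← selfDual_B1.inv (fun x z => by simp [B1, mul_comm]) h x]
  refine Eq.trans ?_ (II_scale hs
    (φ := fun z => (II fun y => φ y * eq (B1 1 y z)) * eq (B1 1 z x))
    ((h.fourier _ selfDual_B1.nondeg).mul_eq ((B1 1).flip x)))
  refine congrArg II (funext fun z => ?_)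
  simp only [F1, B1, LinearMap.mk₂_apply, one_mul, mul_assoc, mul_left_comm s]
theorem Lev.lev_FS {M : ℕ} (hM : 0 < M) {c : Q2 → ℂ} (h : Lev M c) : Lev M (FS c) :=
  selfDual_BS.lev h

theorem isInt_vm {v : Q2} (h : IsInt v) (γ : SL) : IsInt (vm v γ) :=
  ⟨(IsInt.mul h.1 (isInt_int _)).add (IsInt.mul h.2 (isInt_int _)),
    (IsInt.mul h.1 (isInt_int _)).add (IsInt.mul h.2 (isInt_int _))⟩

/-- right multiplication by `γ` -/
def vmE (γ : SL) : Q2 ≃ₗ[ℚ] Q2 where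
  toFun v := vm v γ
  invFun v := vm v γ⁻¹
  map_add' _ _ := by ext <;> simp [vm] <;> ring
  map_smul' _ _ := by ext <;> simp [vm] <;> ring
  left_inv v := by simp only [← vm_mul, mul_inv_cancel, vm_one]
  right_inv v := by simp only [← vm_mul, inv_mul_cancel, vm_one]

theorem FS_vm (c : Q2 → ℂ) (γ : SL) (w : Q2) :
    FS (fun v => c (vm v γ)) w = FS c (vm w γ) := by
  have h := γ.det_coe
  rw [Matrix.det_fin_two] at h
  have h' : ((γ 0 0 : ℤ) : ℚ) * γ 1 1 - γ 0 1 * γ 1 0 = 1 := by exact_mod_cast h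
  refine Eq.trans (congrArg II (funext fun v => ?_)) (II_equiv_lat (vmE γ) (fun v =>
    ⟨fun hv => (isInt_vm hv γ⁻¹).congr ((vmE γ).left_inv v), fun hv => isInt_vm hv γ⟩) _)
  show c (vm v γ) * _ = c (vm v γ) * eq ((vm v γ).1 * _ - (vm v γ).2 * _)
  congr 2
  simp only [vm]
  linear_combination (-(v.1 * w.2 - v.2 * w.1)) * h'
theorem Lev.lev_FV {M : ℕ} (hM : 0 < M) {φ : M2 → ℂ} (h : Lev M φ) : Lev M (FV φ) :=
  selfDual_BV.lev h
theorem FV_FV {φ : M2 → ℂ} (h : SB φ) (Y : M2) : FV (FV φ) Y = φ (-Y) :=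
  selfDual_BV.inv (fun x z => by simp [BV, bil]; ring) h Y
theorem SB.sb_F3 {ω : Q3 → ℂ} (h : SB ω) : SB (F3 ω) :=
  h.fourier B3 fun z hz => by
    have a1 := hz (1, 0, 0)
    have a2 := hz (0, 1, 0)
    have a3 := hz (0, 0, 1)
    simp [B3, bil3] at a1 a2 a3
    exact Prod.ext a3 (Prod.ext a2 a1)
theorem SB.sb_F4 {d : ℕ} (hd : 0 < d) {ω : Q3 × ℚ → ℂ} (h : SB ω) : SB (F4 d ω) :=
  h.fourier (B4 d) fun z hz => by
    have a1 := hz ((1, 0, 0), 0)
    have a2 := hz ((0, 1, 0), 0)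
    have a3 := hz ((0, 0, 1), 0)
    have a4 := hz ((0, 0, 0), 1)
    simp [B4, bil3, hd.ne'] at a1 a2 a3 a4
    exact Prod.ext (Prod.ext a3 (Prod.ext a2 a1)) a4
theorem LevL.lev {d M : ℕ} (hd : 0 < d) (hM : 0 < M) {φ : Q2 → ℂ} (h : LevL d M φ) :
    Lev M φ := by
  refine ⟨fun x k hk => ?_, h.2⟩
  obtain ⟨a, ha⟩ := (isInt_rat _).1 hk.1
  obtain ⟨b, hb⟩ := (isInt_rat _).1 hk.2
  have hd' : (d : ℚ) ≠ 0 := by exact_mod_cast hd.ne'
  rw [← h.1 x (2 * a) (2 * d * b)]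
  congr 2
  ext
  · simp [ha]
    ring
  · simp [hb]
    field_simp
theorem Lev.levL {d M : ℕ} (hd : 0 < d) {φ : Q2 → ℂ} (h : Lev M φ) :
    LevL d (2 * d * M) φ := by
  refine ⟨fun x k l => ?_, fun x hx => (h.2 x hx).smul_of_dvd (dvd_mul_left _ _)⟩
  have hd' : (d : ℚ) ≠ 0 := by exact_mod_cast hd.ne'
  rw [← h.1 x (d * k, l) ⟨(isInt_nat d).mul (isInt_int k), isInt_int l⟩]
  congr 2
  ext
  · simp
    ring
  · simp
    field_simp
    simp
theorem LevL.levL_FL {d M : ℕ} (hd : 0 < d) (hM : 0 < M) {φ : Q2 → ℂ} (h : LevL d M φ) :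
    LevL d M (FL d φ) := by
  have hd' : (d : ℚ) ≠ 0 := by exact_mod_cast hd.ne'
  refine ⟨fun z k l => four_lev_per h.2 (BL d) z _ fun x hx => ?_, fun z hz => ⟨?_, ?_⟩⟩
  · refine ((IsInt.mul hx.1 (isInt_int k)).add (IsInt.mul hx.2 (isInt_int l))).congr ?_
    simp [BL, bilN]
    field_simp
  · refine (four_lev_supp (BL d) _ (fun x => h.1 x 1 0) hz).congr ?_
    simp [BL, bilN]
    left
    ring
  · refine (four_lev_supp (BL d) _ (fun x => h.1 x 0 1) hz).congr ?_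
    simp [BL, bilN]
    left
    field_simp
theorem SB.sb_FL {d : ℕ} (hd : 0 < d) {φ : Q2 → ℂ} (h : SB φ) : SB (FL d φ) :=
  h.fourier (BL d) fun z hz => by
    have a1 := hz (1, 0)
    have a2 := hz (0, 1)
    simp [BL, bilN, hd.ne'] at a1 a2
    exact Prod.ext a1 a2

theorem II_scale2 {s t : ℚ} (hs : s ≠ 0) (ht : t ≠ 0) {φ : Q2 → ℂ} (h : SB φ) :
    II (fun x : Q2 => φ (s * x.1, t * x.2)) = ((|s| : ℚ) : ℂ) * ((|t| : ℚ) : ℂ) * II φ := by
  have h1 : SB fun x : Q2 => φ (s * x.1, t * x.2) :=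
    h.comp_inj ((LinearEquiv.smulOfNeZero ℚ ℚ s hs).prodCongr
      (LinearEquiv.smulOfNeZero ℚ ℚ t ht)).toLinearMap (LinearEquiv.injective _)
  obtain ⟨M, hM, h'⟩ := id h
  rw [II_prod h1, II_prod h, mul_comm ((|s| : ℚ) : ℂ), mul_assoc, ← II_scale hs h.II_snd,
    ← II_const_mul]
  exact congrArg II (funext fun x => II_scale ht ((h'.snd (s * x)).sb hM))

theorem FL_FL {d : ℕ} (hd : 0 < d) {φ : Q2 → ℂ} (h : SB φ) (x : Q2) :
    FL d (FL d φ) x = (4 * d : ℂ) * φ (-x) := by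
  have hd' : (0 : ℚ) < 2 * d := by positivity
  have h1 := II_scale2 two_ne_zero hd'.ne'
    ((h.fourier _ selfDual_B0.nondeg).mul_eq (B0.flip x))
  rw [abs_two, abs_of_pos hd'] at h1
  rw [← selfDual_B0.inv (fun x z => by simp [B0, mul_comm]) h x]
  refine Eq.trans (congrArg II (funext fun z => ?_)) (h1.trans ?_)
  · simp only [FL, B0, bilN, LinearMap.flip_apply, LinearMap.mk₂_apply]
    congr 2
    funext y
    congr 2
    ring
  · push_cast
    congr 1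
    ring
theorem Lev6.lev {d M : ℕ} (hd : 0 < d) (hM : 0 < M) {ψ : U6 → ℂ} (h : Lev6 d M ψ) : Lev M ψ :=
  lev_prod h.1 fun Y => (h.2 Y).lev hd hM
theorem LevV.lev {d M : ℕ} (hd : 0 < d) (hM : 0 < M) {v : U6 → U6 → ℂ} (h : LevV d M v) :
    Lev M (unc v) :=
  lev_prod (fun u => (h.1 u).lev hd hM) fun u' => (h.2 u').lev hd hM
theorem LevL.add {d M : ℕ} {φ ψ : Q2 → ℂ} (h : LevL d M φ) (h' : LevL d M ψ) :
    LevL d M (φ + ψ) := by
  refine ⟨fun x k l => by simp only [Pi.add_apply, h.1 x k l, h'.1 x k l], fun x hx => ?_⟩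
  by_cases h1 : φ x = 0
  · exact h'.2 x fun h2 => hx (by simp [h1, h2])
  · exact h.2 x h1
theorem LevL.smul {d M : ℕ} (c : ℂ) {φ : Q2 → ℂ} (h : LevL d M φ) : LevL d M (c • φ) :=
  ⟨fun x k l => by simp only [Pi.smul_apply, h.1 x k l],
    fun x hx => h.2 x fun h2 => hx (by simp [h2])⟩
theorem Lev6.add {d M : ℕ} {φ ψ : U6 → ℂ} (h : Lev6 d M φ) (h' : Lev6 d M ψ) :
    Lev6 d M (φ + ψ) := ⟨fun x => (h.1 x).add (h'.1 x), fun Y => (h.2 Y).add (h'.2 Y)⟩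
theorem Lev6.smul {d M : ℕ} (c : ℂ) {φ : U6 → ℂ} (h : Lev6 d M φ) : Lev6 d M (c • φ) :=
  ⟨fun x => (h.1 x).smul c, fun Y => (h.2 Y).smul c⟩
theorem lev6_zero (d M : ℕ) : Lev6 d M 0 :=
  ⟨fun _ => lev_zero M, fun _ => ⟨fun _ _ _ => rfl, fun _ hx => absurd rfl hx⟩⟩
theorem LevV.add {d M : ℕ} {v v' : U6 → U6 → ℂ} (h : LevV d M v) (h' : LevV d M v') :
    LevV d M (v + v') := ⟨fun u => (h.1 u).add (h'.1 u), fun u => (h.2 u).add (h'.2 u)⟩
theorem LevV.smul {d M : ℕ} (c : ℂ) {v : U6 → U6 → ℂ} (h : LevV d M v) : LevV d M (c • v) :=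
  ⟨fun u => (h.1 u).smul c, fun u => (h.2 u).smul c⟩
theorem levV_zero (d M : ℕ) : LevV d M 0 := ⟨fun _ => lev6_zero d M, fun _ => lev6_zero d M⟩

/-- the periods of functions in `Lev6` -/
def Per6 (d M : ℕ) (t : U6) : Prop :=
  ∃ (K : M2) (k l : ℤ), IsInt K ∧ t = ((M : ℚ) • K, ((M : ℚ) / 2 * k, (M : ℚ) / (2 * d) * l))

theorem Per6.zsmul {d M : ℕ} {t : U6} (h : Per6 d M t) (n : ℤ) : Per6 d M (n • t) := by
  obtain ⟨K, k, l, hK, rfl⟩ := h
  refine ⟨(n : ℚ) • K, n * k, n * l, hK.zsmul n, ?_⟩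
  rw [← Int.cast_smul_eq_zsmul ℚ]
  refine Prod.ext (smul_comm _ _ _) (Prod.ext ?_ ?_) <;> simp <;> ring

theorem lev6_iff {d M : ℕ} {ψ : U6 → ℂ} : Lev6 d M ψ ↔
    (∀ u t, Per6 d M t → ψ (u + t) = ψ u) ∧ ∀ u, ψ u ≠ 0 → IsInt ((M : ℚ) • u) := by
  constructor
  · intro h
    refine ⟨?_, fun u hu => ⟨(h.1 u.2).2 u.1 hu, (h.2 u.1).2 u.2 hu⟩⟩
    rintro u _ ⟨K, k, l, hK, rfl⟩
    exact ((h.1 _).1 u.1 K hK).trans ((h.2 u.1).1 u.2 k l)
  · rintro ⟨h1, h2⟩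
    refine ⟨fun x => ⟨fun Y K hK => ?_, fun Y hY => (h2 _ hY).1⟩,
      fun Y => ⟨fun x k l => ?_, fun x hx => (h2 _ hx).2⟩⟩
    · simpa [Prod.mk_zero_zero] using h1 (Y, x) _ ⟨K, 0, 0, hK, rfl⟩
    · simpa using h1 (Y, x) _ ⟨0, k, l, isInt_zero, rfl⟩

theorem kp_mul {W : Type} [AddCommGroup W] (γ δ : SL) (p : W × W) :
    kp (γ * δ) p = kp δ (kp γ p) := by
  ext <;> simp only [kp, Matrix.SpecialLinearGroup.coe_mul, Matrix.mul_apply, Fin.sum_univ_two] <;>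
    module

theorem kp_one {W : Type} [AddCommGroup W] (p : W × W) : kp 1 p = p := by simp [kp]

theorem kp_add {W : Type} [AddCommGroup W] (γ : SL) (p q : W × W) :
    kp γ (p + q) = kp γ p + kp γ q := by
  ext <;> simp only [kp, Prod.fst_add, Prod.snd_add] <;> module

theorem LevV.levV_kap2 {d M : ℕ} {v : U6 → U6 → ℂ} (h : LevV d M v) (γ : SL) :
    LevV d M (kap2 γ v) := by
  have h1 : ∀ u' u t' t, Per6 d M t' → Per6 d M t → v (u' + t') (u + t) = v u' u :=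
    fun u' u t' t a b => ((lev6_iff.1 (h.1 _)).1 u' t' a).trans ((lev6_iff.1 (h.2 u')).1 u t b)
  have hz : ∀ (n : ℤ) (x : U6), IsInt ((M : ℚ) • x) → IsInt ((M : ℚ) • n • x) := fun n x hx =>
    (hx.zsmul n).congr (by rw [Int.cast_smul_eq_zsmul, smul_comm])
  have h2 : ∀ u' u, kap2 γ v u' u ≠ 0 → IsInt ((M : ℚ) • u') ∧ IsInt ((M : ℚ) • u) := by
    intro u' u hu
    have a := (lev6_iff.1 (h.1 _)).2 _ hu
    have b := (lev6_iff.1 (h.2 _)).2 _ hu
    have e1 : kp γ (kp γ⁻¹ (u', u)) = (u', u) := by rw [← kp_mul, inv_mul_cancel, kp_one]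
    exact ⟨((hz _ _ a).add (hz _ _ b)).congr ((smul_add _ _ _).symm.trans
        (congrArg (fun p => (M : ℚ) • p.1) e1)),
      ((hz _ _ a).add (hz _ _ b)).congr ((smul_add _ _ _).symm.trans
        (congrArg (fun p => (M : ℚ) • p.2) e1))⟩
  refine ⟨fun u => lev6_iff.2 ⟨fun u' t ht => ?_, fun u' hu => (h2 u' u hu).1⟩,
    fun u' => lev6_iff.2 ⟨fun u t ht => ?_, fun u hu => (h2 u' u hu).2⟩⟩
  · have e1 : (u' + t, u) = (u', u) + (t, 0) := by simp
    simp only [kap2, e1, kp_add]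
    exact h1 _ _ _ _ (by simpa [kp] using ht.zsmul _) (by simpa [kp] using ht.zsmul _)
  · have e1 : (u', u + t) = (u', u) + (0, t) := by simp
    simp only [kap2, e1, kp_add]
    exact h1 _ _ _ _ (by simpa [kp] using ht.zsmul _) (by simpa [kp] using ht.zsmul _)
theorem kap2_mul (γ δ : SL) (v : U6 → U6 → ℂ) : kap2 (γ * δ) v = kap2 δ (kap2 γ v) := by
  funext u' u
  simp only [kap2, mul_inv_rev, kp_mul]

end

end Pool.Agent.P.MP_b8021b_nt.CM
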