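import Pool.Agent.P.MP_b8021b_nt.CM.QExp0
import Pool.Agent.P.MP_b8021b_nt.CM.SB

/-! Library L8: Laurent expansions at infinity and `q`-series. -/

namespace Pool.Agent.P.MP_b8021b_nt.CM

open Complex hiding Gamma
open UpperHalfPlane hiding I
open CongruenceSubgroup Filter
open scoped Real MatrixGroups Modular Topology

noncomputable section

variable {f g : ℍ → ℂ} {M : ℕ}

namespace QE

theorem norm_e_real (x : ℝ) (z : ℂ) : ‖e (x * z)‖ = Real.exp (-(2 * π * x * z.im)) := by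
  rw [norm_e, im_ofReal_mul]
  congr 1
  ring

/-- a bound for series whose exponents are at least `r` -/
theorem tail {ι : Type} {c : ι → ℂ} {x : ι → ℝ} {y0 r : ℝ}
    (hs : Summable fun i => ‖c i‖ * Real.exp (-(2 * π * x i * y0)))
    (hr : ∀ i, c i ≠ 0 → r ≤ x i) : ∃ K : ℝ, ∀ τ : ℍ, y0 ≤ τ.im → ∀ S : ℂ,
      HasSum (fun i => c i * e (x i * τ)) S → ‖S‖ ≤ K * Real.exp (-(2 * π * r * τ.im)) := by
  refine ⟨(∑' i, ‖c i‖ * Real.exp (-(2 * π * x i * y0))) * Real.exp (2 * π * r * y0),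
    fun τ hτ S hS => ?_⟩
  rw [mul_assoc]
  refine hS.norm_le_of_bounded (hs.hasSum.mul_right _) fun i => ?_
  by_cases hc : c i = 0
  · simp [hc]
  rw [norm_mul, norm_e_real, mul_assoc ‖c i‖, ← Real.exp_add, ← Real.exp_add, coe_im]
  refine mul_le_mul_of_nonneg_left (Real.exp_le_exp.2 ?_) (norm_nonneg _)
  have := mul_nonneg Real.pi_pos.le (mul_nonneg (sub_nonneg.2 (hr i hc)) (sub_nonneg.2 hτ))
  nlinarith

theorem tailZ (hM : 0 < M) {c : ℤ → ℂ} {r : ℝ}
    (hs : Summable fun n : ℤ => ‖c n‖ * Real.exp (-(2 * π * n * 1 / M)))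
    (hr : ∀ n : ℤ, (n : ℝ) < r * M → c n = 0) : ∃ K : ℝ, ∀ τ : ℍ, 1 ≤ τ.im → ∀ S : ℂ,
      HasSum (fun n : ℤ => c n * e (n * τ / M)) S →
        ‖S‖ ≤ K * Real.exp (-(2 * π * r * τ.im)) := by
  have hM' : (0 : ℝ) < M := by exact_mod_cast hM
  obtain ⟨K, hK⟩ := tail (c := c) (x := fun n : ℤ => (n : ℝ) / M) (y0 := 1) (r := r)
    (by convert hs using 4 with n; ring)
    (fun n hn => (le_div_iff₀ hM').2 (not_lt.1 fun h => hn (hr n h)))
  refine ⟨K, fun τ hτ S hS => hK τ hτ S ?_⟩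
  convert hS using 4 with n
  push_cast
  ring

theorem tendsto_exp_im {c : ℝ} (hc : 0 < c) (K : ℝ) :
    Tendsto (fun y : ℝ => K * Real.exp (-(c * y))) atTop (𝓝 0) := by
  have := (Real.tendsto_exp_neg_atTop_nhds_zero.comp
    (tendsto_id.const_mul_atTop hc)).const_mul K
  simpa using this

theorem kap_pt (u : ℝ) {y : ℝ} (hy : 0 < y) (h0 : 0 ≤ u) (h1 : u ≤ M) :
    kap (pt u y) ≤ (1 + M ^ 2) / y + y := by
  have : ‖((pt u y : ℍ) : ℂ)‖ ^ 2 = u ^ 2 + y ^ 2 := by
    rw [coe_pt u hy, Complex.sq_norm, normSq_add_mul_I]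
  rw [kap, this, im_pt u hy, div_add' _ _ _ hy.ne']
  refine div_le_div_of_nonneg_right ?_ hy.le
  nlinarith

theorem bound_pt (h : InG f) : ∃ C : ℝ, 0 ≤ C ∧ ∀ (M : ℕ) (u y : ℝ), 0 < y → 0 ≤ u → u ≤ M →
    ‖f (pt u y)‖ ≤ Real.exp (C * ((1 + M ^ 2) / y + y)) := by
  obtain ⟨C, hC⟩ := h.2
  refine ⟨|C|, abs_nonneg C, fun M u y hy h0 h1 => (hC _).trans (Real.exp_le_exp.2 ?_)⟩
  have h2 : 0 ≤ kap (pt u y) := le_trans (by norm_num) (kap_pos _)
  exact (mul_le_mul_of_nonneg_right (le_abs_self C) h2).trans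
    (mul_le_mul_of_nonneg_left (kap_pt u hy h0 h1) (abs_nonneg C))

theorem eM_inj [NeZero M] {a b : ZMod M} (h : eM M a = eM M b) : a = b := by
  by_contra hab
  have h1 := sum_eM M (a - b)
  rw [if_neg (sub_ne_zero.2 hab)] at h1
  have h0 : ∀ x : ZMod M, eM M x ≠ 0 := fun x => e_ne_zero _
  have h2 : eM M (a - b) = 1 := by
    have := eM_add M (a - b) b
    rw [sub_add_cancel, h] at this
    exact (mul_left_eq_self₀.1 this.symm).resolve_right (h0 b)
  have h3 : ∀ k : ℕ, eM M ((k : ZMod M) * (a - b)) = 1 := by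
    intro k
    induction k with
    | zero => simp [eM, eq_zero]
    | succ k ih => rw [Nat.cast_succ, add_mul, one_mul, eM_add, ih, h2, one_mul]
  have h4 : ∀ x : ZMod M, eM M (x * (a - b)) = 1 := fun x => by
    simpa using h3 x.val
  simp only [h4, Finset.sum_const, Finset.card_univ, ZMod.card, nsmul_eq_mul, mul_one] at h1
  exact NeZero.ne M (by exact_mod_cast h1)

end QE

open QE

/-- eigenfunctions of the translation by one -/
theorem coef_eq_zero_of_T [NeZero M] (h : Hol f) {a : ZMod M}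
    (hT : ∀ τ, f (ModularGroup.T • τ) = eM M a * f τ) :
    Per M f ∧ ∀ n : ℤ, (n : ZMod M) ≠ a → coef M f n = 0 := by
  have hM : 0 < M := Nat.pos_of_ne_zero (NeZero.ne M)
  have h1 : ∀ (k : ℕ) (τ : ℍ), f ((k : ℝ) +ᵥ τ) = eM M (k * a) * f τ := by
    intro k
    induction k with
    | zero => intro τ; simp [eM, eq_zero]
    | succ k ih =>
      intro τ
      have : ((k + 1 : ℕ) : ℝ) +ᵥ τ = ModularGroup.T • ((k : ℝ) +ᵥ τ) := by
        rw [modular_T_smul, vadd_vadd]; congr 1; push_cast; ring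
      rw [this, hT, ih, Nat.cast_succ, add_mul, one_mul, eM_add]
      ring
  have hp : Per M f := fun τ => by simp [h1, eM, eq_zero]
  refine ⟨hp, fun n hn => ?_⟩
  have h2 := seq_unique hM (a := fun n : ℤ => coef M f n * (eM M n - eM M a)) (Y := 0)
    (fun τ _ => by
      have h3 := (hasSum_coef hM h hp (ModularGroup.T • τ)).sub
        ((hasSum_coef hM h hp τ).mul_left (eM M a))
      rw [hT, sub_self] at h3
      refine h3.congr_fun fun k => ?_
      rw [coe_T, eM_intCast, show (k * (τ + 1) / M : ℂ) = k / M + k * τ / M by ring, e_add, eq]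
      push_cast
      ring) n
  exact (mul_eq_zero.1 h2).resolve_right fun h4 => hn (eM_inj (sub_eq_zero.1 h4))

theorem InG.gro (hM : 0 < M) (h : InG f) (hp : Per M f) : ∃ w : ℕ, Gro w f := by
  obtain ⟨C, hC0, hC⟩ := bound_pt h
  refine ⟨⌈C⌉₊, Real.exp (C * (1 + M ^ 2)), fun τ hτ => ?_⟩
  obtain ⟨u, h0, h1, e1⟩ := exists_red hM hp τ
  rw [e1, ← Real.exp_add]
  refine (hC M u τ.im τ.im_pos h0 h1).trans (Real.exp_le_exp.2 ?_)
  have h2 : (1 + (M : ℝ) ^ 2) / τ.im ≤ 1 + M ^ 2 := div_le_self (by positivity) hτ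
  have h3 : C ≤ 2 * π * ⌈C⌉₊ := by
    have := Nat.le_ceil C
    nlinarith [Real.pi_gt_three]
  nlinarith [mul_le_mul_of_nonneg_left h2 hC0, mul_le_mul_of_nonneg_right h3 τ.im_pos.le]

theorem gro_iff (hM : 0 < M) (h : Hol f) (hp : Per M f) (w : ℝ) :
    Gro w f ↔ ∀ n : ℤ, (n : ℝ) < -w * M → coef M f n = 0 := by
  have hM' : (0 : ℝ) < M := by exact_mod_cast hM
  constructor
  · rintro ⟨K, hK⟩ n hn
    have hc : 0 < -(2 * π * (w + n / M)) := by
      have : w + n / M < 0 := by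
        have := (div_lt_iff₀ hM').2 hn
        linarith
      nlinarith [Real.pi_pos]
    rw [← norm_le_zero_iff]
    refine ge_of_tendsto (tendsto_exp_im hc K) ((eventually_ge_atTop 1).mono fun y hy => ?_)
    have hy0 : 0 < y := lt_of_lt_of_le one_pos hy
    refine (norm_coef_le hM h hp n hy0 (B := K * Real.exp (2 * π * w * y)) fun u _ _ => ?_).trans
      (le_of_eq ?_)
    · simpa only [im_pt u hy0] using hK (pt u y) (by rwa [im_pt u hy0])
    · rw [mul_assoc, ← Real.exp_add]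
      congr 2
      ring
  · intro hn
    obtain ⟨K, hK⟩ := tailZ hM (summable_coef hM h hp one_pos) hn
    refine ⟨K, fun τ hτ => (hK τ hτ _ (hasSum_coef hM h hp τ)).trans (le_of_eq ?_)⟩
    congr 2
    ring

theorem InG.exists_pole (hM : 0 < M) (h : InG f) (hp : Per M f) :
    ∃ n0 : ℕ, ∀ n : ℤ, n < -n0 → coef M f n = 0 := by
  obtain ⟨w, hw⟩ := h.gro hM hp
  refine ⟨w * M, fun n hn => (gro_iff hM h.1 hp w).1 hw n ?_⟩
  have : (n : ℝ) < ((-((w * M : ℕ) : ℤ) : ℤ) : ℝ) := by exact_mod_cast hn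
  push_cast at this
  linarith

theorem InG.coef_bound (hM : 0 < M) (h : InG f) (hp : Per M f) :
    ∃ C : ℝ, ∀ n : ℤ, ‖coef M f n‖ ≤ Real.exp (C * (1 + Real.sqrt |(n : ℝ)|)) := by
  obtain ⟨C, hC0, hC⟩ := bound_pt h
  have hM' : (1 : ℝ) ≤ M := by exact_mod_cast hM
  refine ⟨C * (2 + M ^ 2) + 2 * π, fun n => ?_⟩
  set s := Real.sqrt |(n : ℝ)| with hs
  have hs0 : 0 ≤ s := Real.sqrt_nonneg _
  have hs2 : s * s = |(n : ℝ)| := Real.mul_self_sqrt (abs_nonneg _)
  have hy : 0 < (1 + s)⁻¹ := by positivity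
  refine (norm_coef_le hM h.1 hp n hy fun u h0 h1 => hC M u _ hy h0 h1).trans ?_
  rw [← Real.exp_add, Real.exp_le_exp, div_inv_eq_mul]
  have h1 : (1 + s)⁻¹ ≤ 1 + s := (inv_le_one_of_one_le₀ (by linarith)).trans (by linarith)
  have h2 : (n : ℝ) * (1 + s)⁻¹ ≤ 1 + s := by
    rw [← div_eq_mul_inv, div_le_iff₀ (by positivity)]
    nlinarith [le_abs_self (n : ℝ)]
  have h3 : 2 * π * n * (1 + s)⁻¹ / M ≤ 2 * π * (1 + s) := by
    rw [div_le_iff₀ (by linarith), mul_assoc, mul_assoc (2 * π)]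
    refine mul_le_mul_of_nonneg_left (h2.trans ?_) (by positivity)
    nlinarith
  nlinarith [mul_le_mul_of_nonneg_left h1 hC0]

theorem coef_mul (hM : 0 < M) (h : Hol f) (hp : Per M f) (h' : Hol g) (hp' : Per M g) {a b : ℤ}
    (ha : ∀ n < a, coef M f n = 0) (hb : ∀ n < b, coef M g n = 0) (n : ℤ) :
    coef M (f * g) n = ∑ k ∈ Finset.Icc a (n - b), coef M f k * coef M g (n - k) := by
  have key := (hasSum_int (M := M) (a := coef M f) (y := 1) (F := fun u => f (pt u 1))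
    (G := fun u : ℝ => g (pt u 1) * e (-(n * (u + I)) / M))
    ((h'.continuous.comp (continuous_pt one_pos)).mul (continuous_e.comp (by fun_prop)))
    (fun u => by simpa only [coe_pt u one_pos] using hasSum_coef hM h hp (pt u 1))).div_const
    (M : ℂ)
  have h1 : ∀ k : ℤ, (coef M f k * ∫ u in (0 : ℝ)..M, e (k * (u + (1 : ℝ) * I) / M) *
      (g (pt u 1) * e (-(n * (u + I)) / M))) / M = coef M f k * coef M g (n - k) := by
    intro k
    rw [mul_div_assoc, coef.eq_1 M g]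
    congr 2
    refine intervalIntegral.integral_congr fun u _ => ?_
    rw [mul_left_comm, ← e_add]
    congr 2
    push_cast
    ring
  simp only [h1] at key
  have h2 : HasSum (fun k : ℤ => coef M f k * coef M g (n - k))
      (∑ k ∈ Finset.Icc a (n - b), coef M f k * coef M g (n - k)) := by
    refine hasSum_sum_of_ne_finset_zero fun k hk => ?_
    rw [Finset.mem_Icc, not_and_or, not_le, not_le] at hk
    rcases hk with hk | hk
    · rw [ha k hk, zero_mul]
    · rw [hb (n - k) (by omega), mul_zero]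
  rw [← key.unique h2, coef]
  simp only [Pi.mul_apply, mul_assoc]

/-- asymptotics given by the leading coefficient -/
theorem tendsto_leading (hM : 0 < M) (h : Hol f) (hp : Per M f) {a : ℤ}
    (ha : ∀ n < a, coef M f n = 0) :
    Tendsto (fun τ : ℍ => f τ * e (-(a * τ / M))) atImInfty (𝓝 (coef M f a)) := by
  have hM' : (0 : ℝ) < M := by exact_mod_cast hM
  obtain ⟨K, hK⟩ := tailZ hM (c := fun n => if n = a then 0 else coef M f n) (r := (a + 1) / M)
    (Summable.of_nonneg_of_le (fun n => by positivity) (fun n => by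
      refine mul_le_mul_of_nonneg_right ?_ (Real.exp_pos _).le
      split_ifs <;> simp) (summable_coef hM h hp one_pos))
    (fun n hn => by
      rw [div_mul_cancel₀ _ hM'.ne'] at hn
      have : n < a + 1 := by exact_mod_cast hn
      split_ifs with h1
      · rfl
      · exact ha n (by omega))
  rw [tendsto_iff_norm_sub_tendsto_zero]
  have hlim : Tendsto (fun τ : ℍ => K * Real.exp (-(2 * π / M * τ.im))) atImInfty (𝓝 0) :=
    (tendsto_exp_im (c := 2 * π / M) (by positivity) K).comp tendsto_comap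
  refine squeeze_zero' (Eventually.of_forall fun _ => norm_nonneg _)
    ((atImInfty_mem _).2 ⟨1, fun τ hτ => ?_⟩) hlim
  have h1 := hK τ hτ (f τ - coef M f a * e (a * τ / M)) (by
    refine ((hasSum_coef hM h hp τ).sub
      (hasSum_ite_eq a (coef M f a * e (a * τ / M)))).congr_fun fun k => ?_
    split_ifs with hk
    · simp [hk]
    · simp)
  have h2 : f τ * e (-(a * τ / M)) - coef M f a =
      (f τ - coef M f a * e (a * τ / M)) * e (-(a * τ) / M) := by
    rw [sub_mul, mul_assoc, ← e_add, neg_div, add_neg_cancel, e_zero, mul_one]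
  change ‖f τ * e (-(a * τ / M)) - coef M f a‖ ≤ _
  rw [h2, norm_mul, norm_e_neg]
  refine (mul_le_mul_of_nonneg_right h1 (Real.exp_pos _).le).trans (le_of_eq ?_)
  rw [mul_assoc, ← Real.exp_add, coe_im]
  congr 2
  ring

theorem InG.ne_zero_high (hM : 0 < M) (h : InG f) (hp : Per M f) (h0 : f ≠ 0) :
    ∃ (Y c w : ℝ), 0 < c ∧ ∀ τ : ℍ, Y < τ.im → c * Real.exp (-w * τ.im) ≤ ‖f τ‖ := by
  obtain ⟨n0, hn0⟩ := h.exists_pole hM hp
  have hex : ∃ n, coef M f n ≠ 0 := by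
    by_contra hc
    push Not at hc
    refine h0 (eq_of_coef hM h.1 hp (hol_const 0) (fun _ => rfl) fun n => ?_)
    rw [hc]
    simp [coef]
  obtain ⟨a, ha, hmin⟩ := Int.exists_least_of_bdd (P := fun n => coef M f n ≠ 0)
    ⟨-n0, fun z hz => not_lt.1 fun hl => hz (hn0 z hl)⟩ hex
  have hl := (tendsto_leading hM h.1 hp (a := a)
    fun n hn => by_contra fun hc => absurd (hmin n hc) (not_le.2 hn)).norm
  have hpos : 0 < ‖coef M f a‖ := norm_pos_iff.2 ha
  obtain ⟨Y, hY⟩ := (atImInfty_mem _).1 (hl.eventually_const_le (half_lt_self hpos))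
  refine ⟨Y, ‖coef M f a‖ / 2, 2 * π * a / M, half_pos hpos, fun τ hτ => ?_⟩
  have h1 : ‖coef M f a‖ / 2 ≤ ‖f τ * e (-(a * τ / M))‖ := hY τ hτ.le
  rw [norm_mul, ← neg_div, norm_e_neg, coe_im] at h1
  refine (mul_le_mul_of_nonneg_right h1 (Real.exp_pos _).le).trans (le_of_eq ?_)
  rw [mul_assoc, ← Real.exp_add, show 2 * π * a * τ.im / M + -(2 * π * a / M) * τ.im = 0 by ring,
    Real.exp_zero, mul_one]

namespace QE

theorem finite_zeros_one (hM : 0 < M) (h : InG f) (hp : Per M f) (h0 : f ≠ 0) :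
    {τ : ℍ | τ ∈ 𝒟 ∧ f τ = 0}.Finite := by
  obtain ⟨Y, c, w, hc, hY⟩ := h.ne_zero_high hM hp h0
  by_contra hinf
  obtain ⟨τ, -, hτ⟩ := Set.Infinite.exists_accPt_of_subset_isCompact hinf
    (ModularGroup.isCompact_truncatedFundamentalDomain Y) (fun τ hτ => ⟨hτ.1, not_lt.1 fun hl => by
      have := hY τ hl
      rw [hτ.2, norm_zero] at this
      exact absurd this (not_le.2 (mul_pos hc (Real.exp_pos _)))⟩)
  exact h0 (h.1.eq_zero_of_frequently ((accPt_iff_frequently_nhdsNE.1 hτ).mono fun σ hσ => hσ.2))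

end QE

theorem InO.finite_zeros (hM : 0 < M) (h : InO M f) (h0 : f ≠ 0) :
    {τ : ℍ | τ ∈ 𝒟 ∧ ∃ γ : SL, f (γ • τ) = 0}.Finite := by
  have : NeZero M := ⟨hM.ne'⟩
  have h1 : ∀ γ : SL, {τ : ℍ | τ ∈ 𝒟 ∧ f (γ • τ) = 0}.Finite := fun γ =>
    finite_zeros_one hM (h.smulSL γ).1 (h.smulSL γ).2.per fun hz => h0 (funext fun τ => by
      simpa using congrFun hz (γ⁻¹ • τ))
  refine (Set.finite_iUnion fun q : SL ⧸ Gamma M => h1 q.out).subset ?_
  rintro τ ⟨hτ, γ, hγ⟩
  obtain ⟨δ, hδ⟩ := QuotientGroup.mk_out_eq_mul (Gamma M) γ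
  refine Set.mem_iUnion.2 ⟨QuotientGroup.mk γ, hτ, ?_⟩
  rw [hδ, mul_smul]
  exact ((h.smulSL γ).2 δ δ.2 τ).trans hγ

theorem RatExp.mul (hM : 0 < M) (h : InG f) (hp : Per M f) (h' : InG g) (hp' : Per M g)
    (r : RatExp M f) (r' : RatExp M g) : RatExp M (f * g) := by
  obtain ⟨a, ha⟩ := h.exists_pole hM hp
  obtain ⟨b, hb⟩ := h'.exists_pole hM hp'
  choose q hq using r
  choose q' hq' using r'
  refine fun n => ⟨∑ k ∈ Finset.Icc (-(a : ℤ)) (n - -(b : ℤ)), q k * q' (n - k), ?_⟩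
  rw [coef_mul hM h.1 hp h'.1 hp' ha hb]
  simp only [hq, hq']
  push_cast
  rfl

theorem Cusp.coef_bound (hM : 0 < M) (h : Cusp M f) :
    (∀ n ≤ 0, coef M f n = 0) ∧ ∃ C : ℝ, ∀ n : ℤ, ‖coef M f n‖ ≤ C * |(n : ℝ)| := by
  have hM' : (0 : ℝ) < M := by exact_mod_cast hM
  have h1 : ∀ n ≤ 0, coef M f n = 0 := by
    obtain ⟨C, c, hc, hC⟩ := h.2.2 1
    rw [sl_one] at hC
    have hg : Gro (-(c / (2 * π))) f := ⟨C, fun τ hτ => (hC τ (by linarith)).trans (le_of_eq (by
      congr 2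
      field_simp))⟩
    intro n hn
    refine (gro_iff hM h.1 h.per _).1 hg n ?_
    have : (n : ℝ) ≤ 0 := by exact_mod_cast hn
    have h2 : 0 < c / (2 * π) * M := by positivity
    linarith
  refine ⟨h1, ?_⟩
  obtain ⟨τ0, hτ0⟩ := h.exists_max hM
  refine ⟨τ0.im * ‖f τ0‖ * Real.exp (2 * π / M), fun n => ?_⟩
  rcases le_or_gt n 0 with hn | hn
  · rw [h1 n hn, norm_zero]
    have := τ0.im_pos
    positivity
  have hn' : (0 : ℝ) < n := by exact_mod_cast hn
  have hy : 0 < (n : ℝ)⁻¹ := inv_pos.2 hn'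
  refine (norm_coef_le hM h.1 h.per n hy (B := τ0.im * ‖f τ0‖ * n) fun u _ _ => ?_).trans
    (le_of_eq ?_)
  · have := hτ0 (pt u (n : ℝ)⁻¹)
    rwa [im_pt u hy, inv_mul_le_iff₀ hn', mul_comm] at this
  · rw [abs_of_pos hn', mul_assoc (2 * π), mul_inv_cancel₀ hn'.ne', mul_one]
    ring

/-- the link with the power series of Mathlib -/
theorem coef_eq_qExpansion {k : ℤ} (F : ModularForm 𝒮ℒ k) (n : ℤ) :
    coef 1 F n = if 0 ≤ n then (qExpansion 1 F).coeff n.toNat else 0 := by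
  have : Fact (IsCusp OnePoint.infty 𝒮ℒ) :=
    ⟨(𝒮ℒ).isCusp_of_mem_strictPeriods one_pos one_mem_strictPeriods_SL⟩
  have hp : Per 1 F := fun τ => by
    have := congrFun ((inG_levelOne F).2 ModularGroup.T) τ
    rw [sl, jf_T, one_zpow, mul_one, modular_T_smul] at this
    simpa using this
  refine coef_unique one_pos (inG_levelOne F).1.1 hp
    (a := fun n => if 0 ≤ n then (qExpansion 1 F).coeff n.toNat else 0) (Y := 0) (fun τ _ => ?_) n
  rw [← (Nat.cast_injective (R := ℤ)).hasSum_iff]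
  · convert ModularForm.hasSum_qExpansion F one_pos one_mem_strictPeriods_SL τ using 2 with m
    simp only [Function.comp_apply, Int.natCast_nonneg, if_true, Int.toNat_natCast]
    congr 1
    rw [Function.Periodic.qParam, ← Complex.exp_nat_mul, e]
    congr 1
    push_cast
    ring
  · intro x hx
    rw [if_neg, zero_mul]
    exact fun h0 => hx ⟨x.toNat, Int.toNat_of_nonneg h0⟩

/-! ### series with rational exponents -/

namespace QE

theorem norm_term (c : ℚ → ℂ) (m : ℚ) (τ : ℍ) :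
    ‖c m * e (m * τ)‖ = ‖c m‖ * Real.exp (-(2 * π * m * τ.im)) := by
  rw [norm_mul, ← coe_im, ← norm_e_real, ofReal_ratCast]

theorem conv_iff {c : ℚ → ℂ} :
    Conv c ↔ ∀ y : ℝ, 0 < y → Summable fun m : ℚ => ‖c m‖ * Real.exp (-(2 * π * m * y)) := by
  simp only [Conv, norm_term]
  exact ⟨fun h y hy => by simpa only [im_pt 0 hy] using h (pt 0 y), fun h τ => h _ τ.im_pos⟩

theorem hasSum_qs {c : ℚ → ℂ} (h : Conv c) (τ : ℍ) :
    HasSum (fun m : ℚ => c m * e (m * τ)) (qs c τ) := (h τ).of_norm.hasSum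

end QE

theorem Conv.hol {c : ℚ → ℂ} (h : Conv c) : Hol (qs c) := by
  refine hol_tsum (F := fun (m : ℚ) (τ : ℍ) => c m * e (m * τ))
    (fun m => (hol_e m).smul (c m)) fun K hK => ?_
  rcases K.eq_empty_or_nonempty with rfl | hne
  · exact ⟨0, summable_zero, fun _ _ h => h.elim⟩
  obtain ⟨a, -, ha⟩ := hK.exists_isMinOn hne continuous_im.continuousOn
  obtain ⟨b, -, hb⟩ := hK.exists_isMaxOn hne continuous_im.continuousOn
  refine ⟨_, (h a).add (h b), fun m τ hτ => ?_⟩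
  have h1 : a.im ≤ τ.im := ha hτ
  have h2 : τ.im ≤ b.im := hb hτ
  rw [norm_term, norm_term, norm_term, ← mul_add]
  refine mul_le_mul_of_nonneg_left ?_ (norm_nonneg _)
  rcases le_total 0 (m : ℝ) with hm | hm
  · refine le_add_of_le_of_nonneg (Real.exp_le_exp.2 ?_) (Real.exp_pos _).le
    nlinarith [mul_nonneg Real.pi_pos.le (mul_nonneg hm (sub_nonneg.2 h1))]
  · refine le_add_of_nonneg_of_le (Real.exp_pos _).le (Real.exp_le_exp.2 ?_)
    nlinarith [mul_nonneg Real.pi_pos.le (mul_nonneg (neg_nonneg.2 hm) (sub_nonneg.2 h2))]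

theorem Conv.add {c c' : ℚ → ℂ} (h : Conv c) (h' : Conv c') :
    Conv (c + c') ∧ qs (c + c') = qs c + qs c' := by
  refine ⟨fun τ => Summable.of_nonneg_of_le (fun _ => norm_nonneg _) (fun m => ?_)
    ((h τ).add (h' τ)), funext fun τ => ?_⟩
  · rw [Pi.add_apply, add_mul]
    exact norm_add_le _ _
  · simp only [qs, Pi.add_apply, add_mul]
    exact (h τ).of_norm.tsum_add (h' τ).of_norm

theorem Conv.smul (a : ℂ) {c : ℚ → ℂ} (h : Conv c) : Conv (a • c) ∧ qs (a • c) = a • qs c := by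
  refine ⟨fun τ => ?_, funext fun τ => ?_⟩
  · simpa only [Pi.smul_apply, smul_eq_mul, mul_assoc, norm_mul a] using (h τ).mul_left ‖a‖
  · simp only [qs, Pi.smul_apply, smul_eq_mul, mul_assoc, tsum_mul_left]

theorem Conv.sum {ι : Type} (s : Finset ι) (c : ι → ℚ → ℂ) (h : ∀ i ∈ s, Conv (c i)) :
    Conv (∑ i ∈ s, c i) ∧ qs (∑ i ∈ s, c i) = ∑ i ∈ s, qs (c i) := by
  classical
  induction s using Finset.induction_on with
  | empty => exact ⟨fun τ => by simp, funext fun τ => by simp [qs]⟩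
  | insert i s hi ih =>
    obtain ⟨h1, h2⟩ := ih fun j hj => h j (Finset.mem_insert_of_mem hj)
    obtain ⟨h3, h4⟩ := (h i (Finset.mem_insert_self i s)).add h1
    rw [Finset.sum_insert hi, Finset.sum_insert hi]
    exact ⟨h3, by rw [h4, h2]⟩

theorem Conv.coef_eq {c : ℚ → ℂ} (h : Conv c) (hM : 0 < M)
    (hs : ∀ m, c m ≠ 0 → IsInt ((M : ℚ) • m)) :
    Per M (qs c) ∧ ∀ n : ℤ, coef M (qs c) n = c (n / M) := by
  have hM' : (M : ℚ) ≠ 0 := by exact_mod_cast hM.ne'
  have hp : Per M (qs c) := fun τ => by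
    refine tsum_congr fun m => ?_
    by_cases hm : c m = 0
    · simp [hm]
    obtain ⟨n, hn⟩ := (isInt_rat _).1 (hs m hm)
    have h1 : (M : ℂ) * m = n := by exact_mod_cast hn
    rw [coe_vadd, mul_add, e_add, ofReal_natCast, mul_comm (m : ℂ), h1, e_int, one_mul]
  refine ⟨hp, coef_unique hM h.hol hp (Y := 0) fun τ _ => ?_⟩
  have hinj : Function.Injective fun n : ℤ => (n : ℚ) / M := fun a b hab => by
    exact_mod_cast (div_left_inj' hM').1 hab
  have := (hinj.hasSum_iff (f := fun m : ℚ => c m * e (m * τ)) (fun m hm => by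
    by_contra hc
    obtain ⟨n, hn⟩ := (isInt_rat _).1 (hs m (left_ne_zero_of_mul hc))
    exact hm ⟨n, by simp only [← hn, smul_eq_mul]; field_simp⟩)).2 (hasSum_qs h τ)
  convert this using 2 with n
  simp only [Function.comp_apply]
  congr 2
  push_cast
  ring

theorem Conv.dec {c : ℚ → ℂ} (h : Conv c) {δ : ℚ} (hδ : 0 < δ) (hs : ∀ m, c m ≠ 0 → δ ≤ m) :
    Dec (qs c) := by
  have hδ' : (0 : ℝ) < δ := by exact_mod_cast hδ
  obtain ⟨K, hK⟩ := tail (c := c) (x := fun m : ℚ => (m : ℝ)) (y0 := 1 / 2) (r := δ)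
    (conv_iff.1 h _ one_half_pos) fun m hm => by exact_mod_cast hs m hm
  refine ⟨K, 2 * π * δ, by positivity, fun τ hτ => ?_⟩
  rw [neg_mul]
  exact hK τ hτ _ (by simpa only [ofReal_ratCast] using hasSum_qs h τ)

theorem conv_of_poly {c : ℚ → ℂ} (hM : 0 < M) (hs : ∀ m, c m ≠ 0 → 0 ≤ m ∧ IsInt ((M : ℚ) • m))
    {C : ℝ} {k : ℕ} (hb : ∀ m, ‖c m‖ ≤ C * (1 + |(m : ℝ)|) ^ k) : Conv c := by
  have hM' : (M : ℚ) ≠ 0 := by exact_mod_cast hM.ne'
  have hM1 : (1 : ℝ) ≤ M := by exact_mod_cast hM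
  have hC : 0 ≤ C := by simpa using (norm_nonneg _).trans (hb 0)
  refine conv_iff.2 fun y hy => ?_
  have hinj : Function.Injective fun n : ℕ => (n : ℚ) / M := fun a b hab => by
    exact_mod_cast (div_left_inj' hM').1 hab
  rw [← hinj.summable_iff]
  · have hr : 0 < 2 * π * y / M := by positivity
    have h1 := ((summable_nat_add_iff 1).2 (Real.summable_pow_mul_exp_neg_nat_mul k hr)).mul_left
      (C * Real.exp (2 * π * y / M))
    refine Summable.of_nonneg_of_le (fun n => by simp only [Function.comp_apply]; positivity)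
      (fun n => ?_) h1
    have h2 : (1 + |(((n : ℚ) / M : ℚ) : ℝ)|) ^ k ≤ ((n + 1 : ℕ) : ℝ) ^ k := by
      refine pow_le_pow_left₀ (by positivity) ?_ k
      push_cast
      rw [abs_of_nonneg (by positivity), add_comm]
      exact add_le_add_left (div_le_self (by positivity) hM1) 1
    simp only [Function.comp_apply]
    refine (mul_le_mul_of_nonneg_right ((hb _).trans (mul_le_mul_of_nonneg_left h2 hC))
      (Real.exp_pos _).le).trans (le_of_eq ?_)
    rw [mul_assoc, mul_assoc C, mul_left_comm (Real.exp _), ← Real.exp_add]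
    congr 3
    push_cast
    ring
  · intro m hm
    by_contra hc
    obtain ⟨h0, h1⟩ := hs m (norm_ne_zero_iff.1 (left_ne_zero_of_mul hc))
    obtain ⟨n, hn⟩ := (isInt_rat _).1 h1
    have h2 : (0 : ℚ) ≤ n := hn ▸ mul_nonneg (Nat.cast_nonneg M) h0
    obtain ⟨n, rfl⟩ := Int.eq_ofNat_of_zero_le (show (0 : ℤ) ≤ n by exact_mod_cast h2)
    refine hm ⟨n, ?_⟩
    rw [Int.cast_natCast, smul_eq_mul] at hn
    simp only [← hn]
    field_simp

end

end Pool.Agent.P.MP_b8021b_nt.CM
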