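import Pool.Agent.P.MP_b8021b_nt.CM.Cyc
import Pool.Agent.P.MP_b8021b_nt.CM.QExp

/-! Library L10: closure properties of `Rec` and `InS`; support and linearity of `bX`, `aa`. -/

namespace Pool.Agent.P.MP_b8021b_nt.CM

open UpperHalfPlane hiding I
open CongruenceSubgroup Function
open scoped MatrixGroups

noncomputable section

variable {u u' : ℍ → ℂ} {s s' : ℍ → ℍ → ℂ} {d M N : ℕ}

theorem ord_good (hu : HasLev u) (hM : 0 < M) {h : ℍ → ℂ} (hh : InO M h) (h0 : h ≠ 0) :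
    DGood actH G0 fun τ => (ordAt h τ : ℂ) * u τ := by
  classical
  obtain ⟨N, hN, hu⟩ := hu
  have hK := fi_Gam (Nat.mul_pos hN hM)
  obtain ⟨R, -, -, hR⟩ := hK.exists_reps
  have hF := hh.finite_zeros hM h0
  refine dgood_of_reps hK ?_ ((R ×ˢ hF.toFinset).image fun p => actH p.1 p.2) (fun τ hτ => ?_)
    fun τ _ => (finite_stab_G0 τ).subset fun γ hγ => ⟨Gam_le_G0 _ hγ.1, hγ.2⟩
  · rintro _ ⟨δ, hδ, rfl⟩ τ
    have e : (fun σ => h (δ • σ)) = h := funext (hh.2.mono (dvd_mul_left M N) δ hδ)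
    beta_reduce
    rw [actH_iota, ← hh.1.1.ord_SL, e, hu.mono (dvd_mul_right N M) δ hδ]
  · have h1 : h τ = 0 := by
      by_contra h1
      rw [(hh.1.1.ord_eq_zero_iff h0 τ).2 h1] at hτ
      simp at hτ
    obtain ⟨γ, hγ⟩ := ModularGroup.exists_smul_mem_fd τ
    obtain ⟨r, ⟨hr, h2⟩, -⟩ := hR (iota γ⁻¹) ⟨_, rfl⟩
    refine ⟨_, inv_mem h2, Finset.mem_image.2 ⟨(r, γ • τ), Finset.mem_product.2
      ⟨hr, hF.mem_toFinset.2 ⟨hγ, γ⁻¹, by rwa [inv_smul_smul]⟩⟩, ?_⟩⟩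
    rw [mul_inv_rev, inv_inv, map_inv, inv_inv, actH_mul, actH_iota]

theorem Rec.hasLev (h : Rec u) : HasLev u := h.1

theorem rec_zero : Rec 0 := ⟨⟨1, one_pos, fun _ _ _ => rfl⟩, fun M _ h _ _ => by
  simp only [Pi.zero_apply, mul_zero]
  exact dmean_zero actH G0⟩

theorem Rec.add (h : Rec u) (h' : Rec u') : Rec (u + u') := by
  refine ⟨h.hasLev.add h'.hasLev, fun M hM f hf h0 => ?_⟩
  have e := dmean_add (ord_good h.hasLev hM hf h0) (ord_good h'.hasLev hM hf h0)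
  rw [h.2 M hM f hf h0, h'.2 M hM f hf h0, add_zero] at e
  rw [← e]
  congr 1
  ext τ
  simp only [Pi.add_apply, mul_add]

theorem Rec.smul (c : ℂ) (h : Rec u) : Rec (c • u) := by
  refine ⟨h.hasLev.smul c, fun M hM f hf h0 => ?_⟩
  have e := dmean_smul (ρ := actH) (Γ0 := G0) c fun τ => (ordAt f τ : ℂ) * u τ
  rw [h.2 M hM f hf h0, mul_zero] at e
  rw [← e]
  congr 1
  ext τ
  simp only [Pi.smul_apply, smul_eq_mul]
  ring

theorem Rec.sum {ι : Type} (t : Finset ι) (f : ι → ℍ → ℂ) (h : ∀ i ∈ t, Rec (f i)) :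
    Rec (∑ i ∈ t, f i) :=
  Finset.sum_induction f Rec (fun _ _ => Rec.add) rec_zero h

theorem RecP.det_inv_pos {g : GQ} (hg : 0 < g.1.det) : 0 < (g⁻¹).1.det := by
  have h1 := congrArg Matrix.det (val_mul_inv g)
  rw [Matrix.det_mul, Matrix.det_one] at h1
  exact (pos_iff_pos_of_mul_pos (h1 ▸ one_pos)).1 hg

theorem RecP.det_mul_pos {g g' : GQ} (hg : 0 < g.1.det) (hg' : 0 < g'.1.det) :
    0 < (g * g').1.det := by
  rw [Units.val_mul, Matrix.det_mul]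
  exact mul_pos hg hg'

open RecP

theorem Rec.comp_act (h : Rec u) (g : GQ) (hg : 0 < g.1.det) : Rec fun τ => u (actH g τ) := by
  refine ⟨h.hasLev.comp_act g, fun M hM f hf h0 => ?_⟩
  obtain ⟨K, hK, -, h1⟩ := hf.comp_act hM (det_inv_pos hg)
  have h2 : (fun τ => f (act (g⁻¹).1 τ)) ≠ 0 := fun h2 => h0 (funext fun τ => by
    have h3 := congrFun h2 (actH g τ)
    simp only [act_val, actH_inv_actH] at h3
    exact h3)
  refine Eq.trans ?_ ((dmean_act uni_G0 _ g).trans (h.2 K hK _ h1 h2))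
  congr 1
  ext τ
  rw [hf.1.1.ord_act (det_inv_pos hg), act_val, actH_inv_actH]

theorem RecP.det_iota (γ : SL) : 0 < (iota γ).1.det := by
  rw [iota_val, det_castZ_SL]
  exact one_pos

theorem Rec.smulSL (h : Rec u) (γ : SL) : Rec fun τ => u (γ • τ) := by
  simpa only [actH_iota] using h.comp_act (iota γ) (det_iota γ)

theorem Rec.rec_G2 (h : Rec u) {φ : M2 → ℂ} (hφ : SB φ) (n : ℚ) : Rec fun σ => G2 u σ φ n := by
  obtain ⟨N, hN, hu⟩ := h.1
  obtain ⟨R, c, h1, h2⟩ := G2_eq_sum hN hφ n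
  have h3 := Rec.sum R (fun Y => c Y • fun σ => u (actH Y σ)) fun Y hY =>
    (h.comp_act Y (h1 Y hY)).smul (c Y)
  refine (congrArg Rec (funext fun σ => ?_)).mp h3
  rw [h2 u hu, Finset.sum_apply]
  rfl

theorem Rec.rec_HK (h : Rec u) (hN : 0 < N) (μ : R2 N) (n : ℕ) : Rec (HK N μ n u) :=
  (h.rec_G2 ((lev_ind hN μ).sb hN) n).smul ((Gamma N).index : ℂ)

theorem InS.hasLevS (h : InS s) : HasLevS s := h.1

theorem inS_zero : InS 0 :=
  ⟨⟨1, one_pos, fun _ _ _ _ => rfl, fun _ _ _ _ => rfl⟩, fun _ _ => rec_zero, fun _ => rec_zero,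
    fun _ => rec_zero⟩

theorem RecP.hasLevS_add (h : HasLevS s) (h' : HasLevS s') : HasLevS (s + s') := by
  obtain ⟨N, hN, h⟩ := h
  obtain ⟨N', hN', h'⟩ := h'
  exact ⟨N * N', Nat.mul_pos hN hN', (h.mono (dvd_mul_right _ _)).add (h'.mono (dvd_mul_left _ _))⟩

theorem InS.add (h : InS s) (h' : InS s') : InS (s + s') :=
  ⟨hasLevS_add h.hasLevS h'.hasLevS, fun g hg => (h.2.1 g hg).add (h'.2.1 g hg),
    fun σ => (h.2.2.1 σ).add (h'.2.2.1 σ), fun τ => (h.2.2.2 τ).add (h'.2.2.2 τ)⟩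

theorem InS.smul (c : ℂ) (h : InS s) : InS (c • s) :=
  ⟨h.1.imp fun _ h1 => ⟨h1.1, h1.2.smul c⟩, fun g hg => (h.2.1 g hg).smul c,
    fun σ => (h.2.2.1 σ).smul c, fun τ => (h.2.2.2 τ).smul c⟩

theorem InS.sum {ι : Type} (t : Finset ι) (f : ι → ℍ → ℍ → ℂ) (h : ∀ i ∈ t, InS (f i)) :
    InS (∑ i ∈ t, f i) :=
  Finset.sum_induction f InS (fun _ _ => InS.add) inS_zero h

theorem InS.comp_act (h : InS s) (g g' : GQ) (hg : 0 < g.1.det) (hg' : 0 < g'.1.det) :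
    InS fun τ σ => s (actH g τ) (actH g' σ) := by
  refine ⟨h.hasLevS.comp_act g g', fun k hk => ?_, fun σ => (h.2.2.1 _).comp_act g hg,
    fun τ => (h.2.2.2 _).comp_act g' hg'⟩
  have h1 := (h.2.1 (g' * k * g⁻¹)
    (det_mul_pos (det_mul_pos hg' hk) (det_inv_pos hg))).comp_act g hg
  simpa only [actH_mul, actH_inv_actH] using h1

theorem RecP.HK_sum (hN : 0 < N) (μ : R2 N) (n : ℕ) : ∃ R : Finset GQ, (∀ Y ∈ R, 0 < Y.1.det) ∧
    ∀ u, LevU N u → ∀ σ, HK N μ n u σ = ∑ Y ∈ R, u (actH Y σ) := by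
  rcases n.eq_zero_or_pos with rfl | hn
  · refine ⟨∅, by simp, fun u _ σ => ?_⟩
    have h1 : G2 u σ (ind N μ) (0 : ℕ) = 0 := by
      by_contra h1
      simpa using (G2_supp h1).1
    rw [HK, h1, mul_zero, Finset.sum_empty]
  · obtain ⟨R, h1, -, h2⟩ := HK_reps hN μ hn
    exact ⟨R, fun Y hY => by rw [(h1 Y hY).1]; exact_mod_cast hn, h2⟩

theorem RecP.levS_fst (hN : 0 < N) (hl : LevS N s) (μ : R2 N) (n : ℕ) :
    LevS N (op2 (HK N μ n) id s) :=
  ⟨fun σ => (hl.1 σ).levU_HK hN μ n, fun τ γ hγ σ =>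
    congrArg (fun w => HK N μ n w τ) (funext fun τ' => hl.2 τ' γ hγ σ)⟩

theorem RecP.levS_snd (hN : 0 < N) (hl : LevS N s) (μ : R2 N) (n : ℕ) :
    LevS N (op2 id (HK N μ n) s) :=
  ⟨fun σ γ hγ τ => congrArg (fun w => HK N μ n w σ) (funext fun σ' => hl.1 σ' γ hγ τ),
    fun τ => (hl.2 τ).levU_HK hN μ n⟩

theorem RecP.det_one_pos : 0 < (1 : GQ).1.det := by simp

theorem InS.HK_fst (h : InS s) (hN : 0 < N) (hl : LevS N s) (μ : R2 N) (n : ℕ) :
    InS (op2 (HK N μ n) id s) ∧ LevS N (op2 (HK N μ n) id s) := by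
  refine ⟨?_, levS_fst hN hl μ n⟩
  obtain ⟨R, h1, h2⟩ := HK_sum hN μ n
  have h3 := InS.sum R (fun Y τ σ => s (actH Y τ) (actH 1 σ)) fun Y hY =>
    h.comp_act Y 1 (h1 Y hY) det_one_pos
  refine (congrArg InS (funext fun τ => funext fun σ => ?_)).mp h3
  refine Eq.trans ?_ (h2 _ (hl.1 σ) τ).symm
  simp only [Finset.sum_apply, map_one, Equiv.Perm.one_apply]

theorem InS.HK_snd (h : InS s) (hN : 0 < N) (hl : LevS N s) (μ : R2 N) (n : ℕ) :
    InS (op2 id (HK N μ n) s) ∧ LevS N (op2 id (HK N μ n) s) := by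
  refine ⟨?_, levS_snd hN hl μ n⟩
  obtain ⟨R, h1, h2⟩ := HK_sum hN μ n
  have h3 := InS.sum R (fun Y τ σ => s (actH 1 τ) (actH Y σ)) fun Y hY =>
    h.comp_act 1 Y det_one_pos (h1 Y hY)
  refine (congrArg InS (funext fun τ => funext fun σ => ?_)).mp h3
  refine Eq.trans ?_ (h2 _ (hl.2 τ) σ).symm
  simp only [Finset.sum_apply, map_one, Equiv.Perm.one_apply]

theorem op2_comm (hN : 0 < N) (hl : LevS N s) (μ ν : R2 N) (m n : ℕ) :
    op2 (HK N μ m) (HK N ν n) s = op2 (HK N μ m) id (op2 id (HK N ν n) s) ∧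
    op2 (HK N μ m) (HK N ν n) s = op2 id (HK N ν n) (op2 (HK N μ m) id s) := by
  refine ⟨rfl, funext fun τ => funext fun σ => ?_⟩
  obtain ⟨R, -, h1⟩ := HK_sum hN μ m
  obtain ⟨R', -, h2⟩ := HK_sum hN ν n
  refine (h1 _ ((levS_snd hN hl ν n).1 σ) τ).trans
    (Eq.trans ?_ (h2 _ ((levS_fst hN hl μ m).2 τ) σ).symm)
  refine (Finset.sum_congr rfl fun Y _ => h2 _ (hl.2 (actH Y τ)) σ).trans
    (Finset.sum_comm.trans ?_)
  exact Finset.sum_congr rfl fun Z _ => (h1 _ (hl.1 (actH Z σ)) τ).symm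

theorem HK_add (hN : 0 < N) (hu : LevU N u) (hu' : LevU N u') (μ : R2 N) (n : ℕ) :
    HK N μ n (u + u') = HK N μ n u + HK N μ n u' := by
  obtain ⟨R, -, h1⟩ := HK_sum hN μ n
  have h2 : LevU N (u + u') := fun γ hγ τ => by
    rw [Pi.add_apply, Pi.add_apply, hu γ hγ, hu' γ hγ]
  ext σ
  rw [Pi.add_apply, h1 _ h2, h1 _ hu, h1 _ hu', ← Finset.sum_add_distrib]
  rfl

theorem HK_smul (c : ℂ) (μ : R2 N) (n : ℕ) : HK N μ n (c • u) = c • HK N μ n u := by
  ext σ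
  have e : g2W (c • u) σ (ind N μ) n = c • g2W u σ (ind N μ) n := by
    ext Y
    simp only [g2W, Pi.smul_apply, smul_eq_mul]
    split_ifs <;> ring
  rw [Pi.smul_apply, HK, HK, G2, G2, e, dmean_smul, smul_eq_mul]
  ring

/-! ### `bX` and `aa` -/

variable {v v' : U6 → U6 → ℂ}

theorem Nm_nonneg (d : ℕ) (x : Q2) : 0 ≤ Nm d x := by
  unfold Nm
  positivity

theorem Nm_pos (hd : 0 < d) {x : Q2} (hx : x ≠ 0) : 0 < Nm d x := by
  have h1 : (0 : ℚ) < d := by exact_mod_cast hd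
  unfold Nm
  by_cases h2 : x.1 = 0
  · have h3 : x.2 ≠ 0 := fun h3 => hx (Prod.ext h2 h3)
    positivity
  · positivity

theorem Nm_comb (d : ℕ) (x : Q2) (a l : ℚ) :
    Nm d (a • x + l • perp d x) = Nm d x * (d * l ^ 2 + a ^ 2) ∧
    bilN d (a • x + l • perp d x) x = 2 * Nm d x * a ∧
    det2 (a • x + l • perp d x, x) = -(l * Nm d x) := by
  simp only [Nm, bilN, det2, perp, Prod.fst_add, Prod.snd_add, Prod.smul_fst, Prod.smul_snd,
    smul_eq_mul]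
  refine ⟨?_, ?_, ?_⟩ <;> ring

theorem disc_Nm (d : ℕ) (x' x : Q2) :
    4 * Nm d x' * Nm d x - bilN d x' x ^ 2 = 4 * d * det2 (x', x) ^ 2 := by
  simp only [Nm, bilN, det2]
  ring

theorem lev_slice (hd : 0 < d) (hM : 0 < M) (hv : LevV d M v) (x' x : Q2) :
    Lev M (unc fun y' y : M2 => v (y', x') (y, x)) :=
  lev_prod (fun y => (hv.1 (y, x)).1 x') fun y' => (hv.2 (y', x')).1 x

theorem bX_add (hs : HasLevS s) (hd : 0 < d) (hM : 0 < M) (hv : LevV d M v) (hv' : LevV d M v')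
    (x' x : Q2) : bX s d (v + v') x' x = bX s d v x' x + bX s d v' x' x :=
  aS_add hs ((lev_slice hd hM hv x' x).sb hM) ((lev_slice hd hM hv' x' x).sb hM) _ _ _

theorem bX_smul (c : ℂ) (x' x : Q2) : bX s d (c • v) x' x = c * bX s d v x' x :=
  aS_smul c (fun y' y => v (y', x') (y, x)) _ _ _

theorem RecP.supp_int (hv : LevV d M v) {y' y : M2} {x' x : Q2} (h : v (y', x') (y, x) ≠ 0) :
    IsInt ((M : ℚ) • y') ∧ IsInt ((M : ℚ) • x') ∧ IsInt ((M : ℚ) • y) ∧ IsInt ((M : ℚ) • x) :=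
  ⟨((hv.1 (y, x)).1 x').2 y' h, ((hv.1 (y, x)).2 y').2 x' h, ((hv.2 (y', x')).1 x).2 y h,
    ((hv.2 (y', x')).2 y).2 x h⟩

theorem bX_supp (hv : LevV d M v) {x' x : Q2} (h : bX s d v x' x ≠ 0) :
    IsInt ((M : ℚ) • x') ∧ IsInt ((M : ℚ) • x) ∧ det2 (x', x) ≠ 0 ∧
      ∃ y' y, v (y', x') (y, x) ≠ 0 := by
  obtain ⟨-, h1, Y, Z, -, -, -, h2⟩ := aS_supp h
  refine ⟨(supp_int hv h2).2.1, (supp_int hv h2).2.2.2, fun h3 => ?_, Y, Z, h2⟩
  have h4 := disc_Nm d x' x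
  rw [h3] at h4
  linarith

theorem RecP.kp_inv {W : Type} [AddCommGroup W] (γ : SL) (p : W × W) : kp γ⁻¹ (kp γ p) = p := by
  have h := ar_SL_det γ
  have e1 : (γ⁻¹ : SL) 0 0 = γ 1 1 := by simp [Matrix.adjugate_fin_two]
  have e2 : (γ⁻¹ : SL) 0 1 = -γ 0 1 := by simp [Matrix.adjugate_fin_two]
  have e3 : (γ⁻¹ : SL) 1 0 = -γ 1 0 := by simp [Matrix.adjugate_fin_two]
  have e4 : (γ⁻¹ : SL) 1 1 = γ 0 0 := by simp [Matrix.adjugate_fin_two]
  simp only [kp, e1, e2, e3, e4]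
  refine Prod.ext ?_ ?_
  · linear_combination (norm := module) h • p.1
  · linear_combination (norm := module) h • p.2

theorem bX_kap2 (γ : SL) (x' x : Q2) :
    bX s d (kap2 γ v) (kp γ (x', x)).1 (kp γ (x', x)).2 = bX s d v x' x := by
  have h : ((γ 1 1 : ℤ) : ℚ) * (γ 0 0 : ℤ) - (γ 0 1 : ℤ) * (γ 1 0 : ℤ) ≠ 0 := by
    have h1 := ar_SL_det γ
    have h2 : γ 1 1 * γ 0 0 - γ 0 1 * γ 1 0 ≠ 0 := by rw [mul_comm, h1]; exact one_ne_zero
    exact_mod_cast h2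
  have h1 := aS_gl2 (s := s) h
    (fun y' y => kap2 γ v (y', (kp γ (x', x)).1) (y, (kp γ (x', x)).2))
    (Nm d x') (bilN d x' x) (Nm d x)
  refine Eq.trans ?_ (h1.trans ?_)
  · unfold bX
    congr 1 <;>
      simp only [Nm, bilN, kp, ← Int.cast_smul_eq_zsmul ℚ, Prod.fst_add, Prod.snd_add,
        Prod.smul_fst, Prod.smul_snd, smul_eq_mul] <;> ring
  · unfold bX
    congr 1
    ext Y Z
    have h2 := kp_inv γ (((Y, x'), (Z, x)) : U6 × U6)
    simp only [Int.cast_smul_eq_zsmul]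
    exact congrArg (fun p : U6 × U6 => v p.1 p.2) h2

theorem RecP.shear (j m a : ℚ) (φ : M2 → M2 → ℂ) :
    aS s (j * (m + a ^ 2)) (2 * j * a) j φ = aS s (j * m) 0 j fun Y Z => φ (Y + a • Z) Z := by
  have h1 := aS_gl2 (s := s) (a := 1) (b := a) (c := 0) (d := 1) (by simp) φ (j * m) 0 j
  simp only [one_smul, zero_smul, zero_add] at h1
  rw [← h1]
  congr 1 <;> ring

theorem RecP.int_bilN {x' x : Q2} (h' : IsInt ((M : ℚ) • x')) (h : IsInt ((M : ℚ) • x)) :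
    IsInt (((M : ℚ) ^ 2) • bilN d x' x) ∧ IsInt (((M : ℚ) ^ 2) • det2 (x', x)) := by
  rw [isInt_prod, isInt_rat, isInt_rat] at h h'
  obtain ⟨⟨a, ha⟩, b, hb⟩ := h'
  obtain ⟨⟨c, hc⟩, e, he⟩ := h
  simp only [Prod.smul_fst, Prod.smul_snd, smul_eq_mul] at ha hb hc he
  refine ⟨(isInt_rat _).2 ⟨2 * a * c + 2 * d * b * e, ?_⟩, (isInt_rat _).2 ⟨a * e - b * c, ?_⟩⟩
  · push_cast
    rw [← ha, ← hb, ← hc, ← he, bilN, smul_eq_mul]
    ring
  · push_cast
    rw [← ha, ← hb, ← hc, ← he, det2, smul_eq_mul]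
    ring

theorem RecP.int_disc {Y Z : M2} (h' : IsInt ((M : ℚ) • Y)) (h : IsInt ((M : ℚ) • Z)) :
    IsInt (((M : ℚ) ^ 4) • (4 * Y.det * Z.det - bil Y Z ^ 2)) := by
  simp only [isInt_M2', isInt_rat, Matrix.smul_apply, smul_eq_mul] at h h'
  choose A hA using h'
  choose B hB using h
  refine (isInt_rat _).2 ⟨4 * (A 0 0 * A 1 1 - A 0 1 * A 1 0) * (B 0 0 * B 1 1 - B 0 1 * B 1 0) -
    (A 0 0 * B 1 1 + A 1 1 * B 0 0 - A 0 1 * B 1 0 - A 1 0 * B 0 1) ^ 2, ?_⟩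
  push_cast
  simp only [← hA, ← hB, Matrix.det_fin_two, bil, smul_eq_mul]
  ring

theorem aa_sb (hs : HasLevS s) (hd : 0 < d) (hM : 0 < M) (hv : LevV d M v) (x : Q2) (m l : ℚ) :
    SB fun a : ℚ => aS s (Nm d x * (m + a ^ 2)) (2 * Nm d x * a) (Nm d x)
      fun y' y => v (y', a • x + l • perp d x) (y, x) := by
  obtain ⟨K, hK, h1⟩ := Lat.den ((M : ℚ) ^ 2 * (2 * Nm d x))⁻¹
  obtain ⟨t, ht⟩ := (isInt_rat _).1 h1
  refine ⟨M * (M * K), by positivity, fun a k hk => ?_, fun a ha => ?_⟩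
  · obtain ⟨k, rfl⟩ := (isInt_rat _).1 hk
    simp only [shear]
    congr 1
    ext Y Z
    by_cases h2 : IsInt ((M : ℚ) • ((Z, x) : U6))
    · have h3 := ((hv.1 (Z, x)).lev hd hM).1 (Y + a • Z, a • x + l • perp d x) _
        (h2.zsmul (K * k))
      refine Eq.trans ?_ h3
      beta_reduce
      congr 1
      push_cast
      refine Prod.ext ?_ ?_ <;>
        simp only [Prod.fst_add, Prod.snd_add, Prod.smul_fst, Prod.smul_snd, smul_eq_mul] <;>
        module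
    · have h3 : ∀ u', v u' (Z, x) = 0 := fun u' => by
        by_contra h3
        exact h2 (((hv.2 u').lev hd hM).2 _ h3)
      rw [h3, h3]
  · obtain ⟨h2, -, Y, Z, -, -, -, h3⟩ := aS_supp ha
    have h4 := (int_bilN (d := d) (supp_int hv h3).2.1 (supp_int hv h3).2.2.2).1
    rw [(Nm_comb d x a l).2.1] at h4
    obtain ⟨n, hn⟩ := (isInt_rat _).1 h4
    refine (isInt_rat _).2 ⟨M * M * t * n, ?_⟩
    have h5 : (M : ℚ) ≠ 0 := by positivity
    push_cast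
    rw [← hn, ← ht]
    simp only [smul_eq_mul]
    field_simp

theorem aa_add (hs : HasLevS s) (hd : 0 < d) (hM : 0 < M) (hv : LevV d M v) (hv' : LevV d M v')
    (x : Q2) (m l : ℚ) : aa s d (v + v') x m l = aa s d v x m l + aa s d v' x m l := by
  rw [aa, aa, aa, ← II_add (aa_sb hs hd hM hv x m l) (aa_sb hs hd hM hv' x m l)]
  congr 1
  ext a
  exact aS_add hs ((lev_slice hd hM hv _ x).sb hM) ((lev_slice hd hM hv' _ x).sb hM) _ _ _

theorem aa_smul (c : ℂ) (x : Q2) (m l : ℚ) : aa s d (c • v) x m l = c * aa s d v x m l := by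
  rw [aa, aa, ← II_const_mul]
  congr 1
  ext a
  exact aS_smul c (fun y' y => v (y', a • x + l • perp d x) (y, x)) _ _ _

theorem aa_supp (hv : LevV d M v) {x : Q2} {m l : ℚ} (h : aa s d v x m l ≠ 0) :
    x ≠ 0 ∧ IsInt ((M : ℚ) • x) ∧ 0 < m ∧ IsInt (((M : ℚ) ^ 2) • (l * Nm d x)) ∧
      IsInt (((M : ℚ) ^ 4) • (4 * Nm d x ^ 2 * m)) ∧
      ∃ (a : ℚ) (y' y : M2), y'.det = Nm d x * (m + a ^ 2) ∧
        v (y', a • x + l • perp d x) (y, x) ≠ 0 := by
  obtain ⟨a, ha⟩ : ∃ a : ℚ, (aS s (Nm d x * (m + a ^ 2)) (2 * Nm d x * a) (Nm d x)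
      fun y' y => v (y', a • x + l • perp d x) (y, x)) ≠ 0 := by
    by_contra h1
    push Not at h1
    exact h ((congrArg II (funext h1)).trans II_zero)
  obtain ⟨h1, h2, Y, Z, h3, h4, h5, h6⟩ := aS_supp ha
  obtain ⟨i1, i2, i3, i4⟩ := supp_int hv h6
  refine ⟨?_, i4, ?_, ?_, ?_, a, Y, Z, h3, h6⟩
  · rintro rfl
    simp [Nm] at h1
  · have h7 : 0 < Nm d x ^ 2 * m := by nlinarith
    exact (pos_iff_pos_of_mul_pos h7).1 (by positivity)
  · have h7 := (int_bilN (d := d) i2 i4).2.neg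
    rwa [(Nm_comb d x a l).2.2, smul_neg, neg_neg] at h7
  · have h7 := int_disc i1 i3
    rw [h3, h4, h5] at h7
    convert h7 using 2
    ring

theorem aa_kT (hs : HasLevS s) (x : Q2) (m l : ℚ) :
    aa s d (kap2 ModularGroup.T v) x m l = aa s d v x m l := by
  have e : ∀ u' u, kap2 ModularGroup.T v u' u = v (u' - u) u := fun u' u => by
    have h1 := kp_inv ModularGroup.T (u' - u, u)
    have h2 : kp ModularGroup.T (u' - u, u) = (u', u) := by simp [kp, ModularGroup.T]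
    rw [h2] at h1
    rw [kap2, h1]
  rw [aa, aa]
  refine Eq.trans ?_ (II_shift _ (-1))
  simp only [shear, e]
  congr 1
  ext a
  congr 1
  ext Y Z
  congr 1
  refine Prod.ext ?_ ?_ <;> simp only [Prod.fst_sub, Prod.snd_sub] <;> module

theorem aa_eq_bX (x : Q2) (l : ℚ) :
    aa s d v x (d * l ^ 2) l = II fun a : ℚ => bX s d v (a • x + l • perp d x) x := by
  simp only [aa, bX, (Nm_comb d x _ l).1, (Nm_comb d x _ l).2.1]

theorem om_sb (hd : 0 < d) (hM : 0 < M) (hv : LevV d M v) {y : M2} (hy : y.det ≠ 0) {x : Q2}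
    (hx : x ≠ 0) : SB (fun p : (Q3 × ℚ) × ℚ =>
      v (y * (tz p.1.1 + p.2 • (1 : M2)), p.2 • x + p.1.2 • perp d x) (y, x)) ∧
      SB (om d v y x) := by
  let L : (Q3 × ℚ) × ℚ →ₗ[ℚ] U6 :=
    { toFun := fun p => (y * (tz p.1.1 + p.2 • (1 : M2)), p.2 • x + p.1.2 • perp d x)
      map_add' := fun p q => by
        have e : tz (p.1.1 + q.1.1) = tz p.1.1 + tz q.1.1 := by
          ext i j
          fin_cases i <;> fin_cases j <;> simp [tz] <;> ring
        refine Prod.ext ?_ ?_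
        · simp only [Prod.fst_add, Prod.snd_add, e, ← mul_add]
          congr 1
          module
        · simp only [Prod.fst_add, Prod.snd_add]
          module
      map_smul' := fun c p => by
        have e : tz (c • p.1.1) = c • tz p.1.1 := by
          ext i j
          fin_cases i <;> fin_cases j <;> simp [tz]
        refine Prod.ext ?_ ?_
        · simp only [Prod.smul_fst, Prod.smul_snd, e, RingHom.id_apply, ← mul_smul_comm,
            smul_eq_mul]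
          congr 1
          module
        · simp only [Prod.smul_fst, Prod.smul_snd, RingHom.id_apply, smul_eq_mul]
          module }
  have hL : Injective L := by
    refine (injective_iff_map_eq_zero L).2 fun p hp => ?_
    obtain ⟨⟨Y, l⟩, a⟩ := p
    have h1 : y * (tz Y + a • (1 : M2)) = 0 := congrArg Prod.fst hp
    have h2 : a • x + l • perp d x = 0 := congrArg Prod.snd hp
    have h3 := Nm_comb d x a l
    have h4 := (Nm_pos hd hx).ne'
    rw [h2] at h3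
    have ha : a = 0 := by simpa [bilN, h4] using h3.2.1
    have hl : l = 0 := by simpa [det2, h4] using h3.2.2
    have h5 : tz Y = 0 := by
      have h6 := congrArg (fun Z => ((toG y)⁻¹).1 * Z) h1
      rw [ha, zero_smul, add_zero, ← mul_assoc, mul_zero] at h6
      nth_rw 2 [← toG_val hy] at h6
      rwa [val_inv_mul, one_mul] at h6
    have hY : Y = 0 := by
      rw [← co_tz Y, h5]
      simp [co]
    rw [ha, hl, hY]
    rfl
  have h1 := (((hv.1 (y, x)).lev hd hM).sb hM).comp_inj L hL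
  exact ⟨h1, h1.II_snd⟩

end

end Pool.Agent.P.MP_b8021b_nt.CM
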