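import Pool.Agent.P.MP_7ebcb6_ag.Defs

/-!
Zero-cycles modulo rational equivalence on a closed subvariety of complex affine space, affine
models of products of two open modular curves, and special pairs of matrices.
-/

open scoped WithZero MatrixGroups UpperHalfPlane
open Pool.Agent.P.MP_7ebcb6_ag

namespace Pool.Agent.P.MP_b8021b_nt.CM

noncomputable section

/-- The zero-cycles on `X ⊆ 𝔸^ι` that are rationally equivalent to zero: the subgroup generated by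
the push-forwards `φ_* div f`, where `K` is the function field of a curve, `η : ι → K`, the curve
`C` is the set of places where all `η i` are regular, `φ = η : C → X`, and `f ∈ K` is nonzero. -/
def ratTrivialAff {ι : Type} (X : Set (ι → ℂ)) : AddSubgroup (X →₀ ℤ) :=
  AddSubgroup.closure {D | ∃ (K : Type) (_ : Field K) (_ : Algebra ℂ K), IsCurveField K ∧
    ∃ (η : ι → K) (φ : Valuation K ℤᵐ⁰ → X) (f : K) (S : Finset (Valuation K ℤᵐ⁰)),
      (∀ v, IsPlace v → (∀ i, v (η i) ≤ 1) → ∀ i, v (η i - algebraMap ℂ K ((φ v).1 i)) < 1) ∧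
      f ≠ 0 ∧ (∀ v ∈ S, IsPlace v ∧ ∀ i, v (η i) ≤ 1) ∧
      (∀ v, IsPlace v → (∀ i, v (η i) ≤ 1) → v ∉ S → ord v f = 0) ∧
      D = ∑ v ∈ S, Finsupp.single (φ v) (ord v f)}

/-- The affine coordinates `j = E₄³/Δ` and `Φ i / Δ ^ a` on the modular curve `Y(N)`. -/
def coord {N a n : ℕ}
    (Φ : Fin n → ModularForm (CongruenceSubgroup.Gamma N : Subgroup SL(2, ℤ)) (12 * a))
    (τ : ℍ) : Option (Fin n) → ℂ
  | none => ModularForm.E₄ τ ^ 3 / ModularForm.discriminant τ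
  | some i => Φ i τ / ModularForm.discriminant τ ^ a

/-- The point of `𝔸 × 𝔸'` attached to a pair of points of the upper half plane. -/
def coord₂ {N a n n' : ℕ}
    (Φ : Fin n → ModularForm (CongruenceSubgroup.Gamma N : Subgroup SL(2, ℤ)) (12 * a))
    (Ψ : Fin n' → ModularForm (CongruenceSubgroup.Gamma N : Subgroup SL(2, ℤ)) (12 * a))
    (p : ℍ × ℍ) : Option (Fin n) ⊕ Option (Fin n') → ℂ :=
  Sum.elim (coord Φ p.1) (coord Ψ p.2)

/-- The Moebius transformation given by `y` sends `p.1` to `p.2`. -/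
def Sends (y : Matrix (Fin 2) (Fin 2) ℤ) (p : ℍ × ℍ) : Prop :=
  (p.2 : ℂ) * (y 1 0 * (p.1 : ℂ) + y 1 1) = y 0 0 * (p.1 : ℂ) + y 0 1

/-- The pair `y` has Gram matrix `(m, r, j)` for the quadratic form `det` and reduces to `μ`. -/
def Special (N : ℕ) (m r j : ℤ)
    (μ : Matrix (Fin 2) (Fin 2) (ZMod N) × Matrix (Fin 2) (Fin 2) (ZMod N))
    (y : Matrix (Fin 2) (Fin 2) ℤ × Matrix (Fin 2) (Fin 2) ℤ) : Prop :=
  y.1.det = m ∧ (y.1 + y.2).det - y.1.det - y.2.det = r ∧ y.2.det = j ∧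
    y.1.map (Int.cast : ℤ → ZMod N) = μ.1 ∧ y.2.map (Int.cast : ℤ → ZMod N) = μ.2

/-- The pairs `y` and `z` are in the same orbit of `Γ(N) × Γ(N)` acting by `y ↦ γ₂ y γ₁⁻¹`. -/
def SameOrbit (N : ℕ) (y z : Matrix (Fin 2) (Fin 2) ℤ × Matrix (Fin 2) (Fin 2) ℤ) : Prop :=
  ∃ γ₁ ∈ CongruenceSubgroup.Gamma N, ∃ γ₂ ∈ CongruenceSubgroup.Gamma N,
    y.1 * γ₁.1 = γ₂.1 * z.1 ∧ y.2 * γ₁.1 = γ₂.1 * z.2

/-- `R` is a system of representatives for the orbits of special pairs, and `P y` is the point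
`(τ, σ)` with `y.1 τ = y.2 τ = σ`. -/
def IsSystem (N : ℕ) (m r j : ℤ)
    (μ : Matrix (Fin 2) (Fin 2) (ZMod N) × Matrix (Fin 2) (Fin 2) (ZMod N))
    (R : Finset (Matrix (Fin 2) (Fin 2) ℤ × Matrix (Fin 2) (Fin 2) ℤ))
    (P : Matrix (Fin 2) (Fin 2) ℤ × Matrix (Fin 2) (Fin 2) ℤ → ℍ × ℍ) : Prop :=
  (∀ y ∈ R, Special N m r j μ y ∧ Sends y.1 (P y) ∧ Sends y.2 (P y)) ∧
    ∀ y, Special N m r j μ y → ∃! z, z ∈ R ∧ SameOrbit N y z

end

end Pool.Agent.P.MP_b8021b_nt.CM
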