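import Pool.Agent.P.MP_b8021b_nt.CM.Defs
import Pool.Agent.P.MP_b8021b_nt.CM.StDefs

/-! The statements of the packages. Proofs on paper: h95_README.md in the team store. -/

namespace Pool.Agent.P.MP_b8021b_nt.CM

open Complex hiding Gamma
open UpperHalfPlane hiding I
open MeasureTheory CongruenceSubgroup Filter
open scoped Real MatrixGroups ModularForm Topology ComplexConjugate Modular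

noncomputable section

/-! ### Block A: modular functions -/

/-- level one functions are polynomials in `j` -/
def S_L1 : Prop := ∀ f, InO 1 f → ∃ P : Polynomial ℂ, (∀ τ, f τ = P.eval (jj τ)) ∧
  ∀ w : ℝ, P ≠ 0 → Gro w f → (P.natDegree : ℝ) ≤ w

def S_FD : Prop := ∀ M : ℕ, 0 < M →
  (∀ w : ℝ, ∃ S : Finset (ℍ → ℂ), ∀ f, InO M f → (∀ γ : SL, Gro w fun τ => f (γ • τ)) →
    f ∈ Submodule.span ℂ (S : Set (ℍ → ℂ))) ∧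
  ∃ S : Finset (ℍ → ℂ), ∀ f, Cusp M f → f ∈ Submodule.span ℂ (S : Set (ℍ → ℂ))

def S_J : Prop :=
  (∀ τ σ : ℍ, jj τ = jj σ ↔ ∃ γ : SL, γ • τ = σ) ∧ Function.Surjective jj ∧
  (∀ τ : ℍ, 2 * ordAt (fun σ => jj σ - jj τ) τ = Nat.card {γ : SL // γ • τ = τ}) ∧
  (∀ n : ℤ, n < -1 → coef 1 jj n = 0) ∧ coef 1 jj (-1) = 1 ∧
  RatExp 1 ModularForm.E₄ ∧ RatExp 1 ModularForm.E₆ ∧
  RatExp 1 (fun τ => (ModularForm.discriminant τ)⁻¹) ∧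
  ∀ τ : ℍ, ModularForm.E₄ τ ≠ 0 ∨ ModularForm.E₆ τ ≠ 0

def S_Eis : Prop := ∀ (M : ℕ) [NeZero M],
  (∀ k, 3 ≤ k → ∀ a, InG (GS M k a)) ∧
  (∀ k, 3 ≤ k → ∀ (a : ZMod M × ZMod M) (γ : SL) (τ : ℍ), GS M k a (γ • τ) = jf γ τ ^ k *
    GS M k (a.1 * (γ 0 0 : ℤ) + a.2 * (γ 1 0 : ℤ), a.1 * (γ 0 1 : ℤ) + a.2 * (γ 1 1 : ℤ)) τ) ∧
  (∀ k, 3 ≤ k → ∀ m κ : ZMod M, RatExp M fun τ =>
    (∑ n : ZMod M, eM M (κ * n) * GS M k (m, n) τ) / (2 * π * I) ^ k) ∧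
  ∀ (τ : ℍ) (c : ZMod M × ZMod M → ℂ), (∀ k, 3 ≤ k → ∑ a, c a * GS M k a τ = 0) → c = 0

def S_Sharp : Prop := ∀ (M : ℕ) [NeZero M],
  (∀ F, Inp M F → ∀ A (γ : SL) τ, sharp M F A (γ • τ) = sharp M F (A * red M γ.1) τ) ∧
  (∀ H : R2 M → ℍ → ℂ, (∀ A, InG (H A)) → (∀ A (γ : SL) τ, H A (γ • τ) = H (A * red M γ.1) τ) →
    Inp M (unsharp M H)) ∧
  (∀ F, unsharp M (sharp M F) = F) ∧ (∀ H, sharp M (unsharp M H) = H) ∧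
  (∀ F, Inp M F → (∀ μ, F (-μ) = F μ) ∧ Inp M (fun μ => F μ.adjugate) ∧ ∀ γ : SL,
    Inp M (fun μ => F (μ * red M γ.1)) ∧ Inp M (fun μ => F (red M γ.1 * μ))) ∧
  ∀ F (γ : SL) A, sharp M (fun μ => F (μ * red M (γ⁻¹).1)) A =
    sharp M F (red M (γ⁻¹).1.transpose * A)

def S_Fplus : Prop := ∀ (M : ℕ) [NeZero M] (n0 : ℕ), ∃ F, Inp M F ∧ ∀ μ (n : ℕ), 0 < n →
  ∃ k : ℕ, coef M (F μ) (-n) = k ∧ (n ≤ n0 → (n : ZMod M) = μ.det → 1 ≤ k)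

/-! ### Block B: Borcherds products and modularity of generating series -/

def S_BA1 : Prop := ∀ (M : ℕ) [NeZero M] (F : R2 M → ℍ → ℂ), Inp M F → ∀ m : ℕ, 0 < m →
  InO M (Am M F m) ∧ (∀ n, coef M (Am M F m) n = alpha M F m n) ∧
  ∀ (γ : SL) (τ : ℍ), Am M F m (γ • τ) = Am M (fun μ => F (μ * red M (γ⁻¹).1)) m τ

def S_BorchA : Prop := ∀ (M : ℕ) [NeZero M] (F : R2 M → ℍ → ℂ) (C : Z2 → ℕ) (n0 : ℕ),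
  Inp M F → PPN M F C n0 → ∃ E, Tens M E ∧ (∀ τ, E τ ≠ 0) ∧
  (∀ τ (γ : SL), Gro ((wpole M n0 C γ : ℝ) / M) fun σ => E τ (γ • σ)) ∧
  ∃ Y0 : ℝ, ∀ (γ : SL) (τ0 σ0 : ℍ), Y0 < τ0.im → Y0 < σ0.im → ∃ K : ℝ,
    ∀ᶠ p : ℍ × ℍ in 𝓝 (τ0, σ0), ‖E (γ • p.1) p.2‖ ≤ K * ∏ t ∈ box M n0,
      ‖e (t.1 * p.1 / M) - e ((t.2.2 * p.2 - t.2.1) / M)‖ ^ C (ut t.1 t.2.1 t.2.2 * (γ⁻¹).1)

def S_BorchG : Prop := ∀ (M : ℕ) [NeZero M] (F : R2 M → ℍ → ℂ) (C : Z2 → ℕ) (n0 : ℕ),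
  Inp M F → PPN M F C n0 → ∃ E, Tens M E ∧ (∀ τ, E τ ≠ 0) ∧
  ∀ τ, Gen τ → ∀ (σ : ℍ) (S : Finset Z2),
    (∀ Y, Y ∈ S ↔ 0 < Y.det ∧ Y.det ≤ n0 ∧ act (castZ Y) τ = σ) →
    2 * ordAt (E τ) σ = ∑ Y ∈ S, C Y

def S_Borch : Prop := ∀ (M : ℕ) [NeZero M] (F : R2 M → ℍ → ℂ) (C : Z2 → ℕ) (n0 : ℕ),
  Inp M F → PPN M F C n0 → ∃ E, Tens M E ∧ (∀ τ, E τ ≠ 0) ∧
  ∀ τ0 σ0 : ℍ, ∃ (S : Finset Z2) (c K : ℝ), 0 < c ∧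
    (∀ Y, Y ∈ S ↔ 0 < Y.det ∧ Y.det ≤ n0 ∧ act (castZ Y) τ0 = σ0) ∧
    ∀ᶠ p : ℍ × ℍ in 𝓝 (τ0, σ0),
      c * ∏ Y ∈ S, ‖(p.2 : ℂ) - act (castZ Y) p.1‖ ^ C Y ≤ ‖E p.1 p.2‖ ^ 2 ∧
      ‖E p.1 p.2‖ ^ 2 ≤ K * ∏ Y ∈ S, ‖(p.2 : ℂ) - act (castZ Y) p.1‖ ^ C Y

def S_Dual : Prop := ∀ (M : ℕ) [NeZero M] (g : R2 M → ℕ → ℂ), (∀ μ, g μ 0 = 0) →
  (∀ μ n, g μ n ≠ 0 → (n : ZMod M) = μ.det) → (∀ μ n, g (-μ) n = g μ n) →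
  (∀ (F : R2 M → ℍ → ℂ) (C : R2 M → ℕ → ℕ) (n0 : ℕ), Inp M F →
    (∀ μ (n : ℕ), 0 < n → coef M (F μ) (-n) = C μ n) → (∀ μ n, n0 < n → C μ n = 0) →
    ∑ μ, ∑ n ∈ Finset.Icc 1 n0, (C μ n : ℂ) * g μ n = 0) →
  (∀ μ (τ : ℍ), Summable fun n : ℕ => ‖g μ n * e (n * τ / M)‖) ∧
  ∀ μ (τ : ℍ), ∑' n : ℕ, g μ n * e (n * (ModularGroup.S • τ : ℍ) / M) =
    (τ : ℂ) ^ 2 / (M : ℂ) ^ 2 * ∑ ν, eM M (-bil μ ν) * ∑' n : ℕ, g ν n * e (n * τ / M)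

/-- the same for functionals on Schwartz-Bruhat functions -/
def S_DualQ : Prop := ∀ G : (M2 → ℂ) → ℚ → ℂ,
  (∀ φ ψ n, SB φ → SB ψ → G (φ + ψ) n = G φ n + G ψ n) →
  (∀ (c : ℂ) φ n, G (c • φ) n = c * G φ n) →
  (∀ φ ψ n, (∀ Y : M2, Y.det = n → φ Y = ψ Y) → G φ n = G ψ n) →
  (∀ φ n, n ≤ 0 → G φ n = 0) → (∀ φ n, G (fun Y => φ (-Y)) n = G φ n) →
  (∀ (M : ℕ) [NeZero (M ^ 2)] (F : R2 (M ^ 2) → ℍ → ℂ) (C : Z2 → ℕ) (n0 : ℕ), 0 < M →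
    Inp (M ^ 2) F → PPN (M ^ 2) F C n0 → ∑ n ∈ Finset.Icc 1 n0,
      G (liftZ M fun Z => coef (M ^ 2) (F (red (M ^ 2) Z)) (-n)) ((n : ℚ) / M ^ 2) = 0) →
  ∀ φ, SB φ → Conv (G φ) ∧
    ∀ τ : ℍ, qs (G φ) (ModularGroup.S • τ) = (τ : ℂ) ^ 2 * qs (G (FV φ)) τ

def S_G1 : Prop := ∀ u, Rec u → ∀ φ, SB φ → Conv (G1 u φ) ∧
  ∀ τ : ℍ, qs (G1 u φ) (ModularGroup.S • τ) = (τ : ℂ) ^ 2 * qs (G1 u (FV φ)) τ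

def S_G2 : Prop := ∀ u, Rec u → ∀ σ φ, SB φ → Conv (G2 u σ φ) ∧
  ∀ τ : ℍ, qs (G2 u σ φ) (ModularGroup.S • τ) = (τ : ℂ) ^ 2 * qs (G2 u σ (FV φ)) τ

def S_H : Prop := ∃ c : ℝ, 0 < c ∧ ∀ u, Rec u → ∀ ω, SB ω → Conv (gam u ω) ∧
  ∀ τ : ℍ, qs (gam u ω) (ModularGroup.S • τ) * (-I * τ) ^ (1 / 2 : ℂ) =
    c * (τ : ℂ) ^ 2 * qs (gam u (F3 ω)) τ

def S_JF : Prop := ∀ d : ℕ, 0 < d → ∃ c : ℝ, 0 < c ∧ ∀ u, Rec u → ∀ ω, SB ω →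
  (∀ τ : ℍ, Summable fun p : ℚ × ℚ => ‖gam u (fun Y => ω (Y, p.2)) p.1 * e (p.1 * τ) *
    e (-(conj (τ : ℂ)) * d * p.2 ^ 2)‖) ∧
  Continuous (JF d u ω) ∧ Dec (JF d u ω) ∧
  (∀ τ : ℍ, JF d u ω (ModularGroup.S • τ) =
    c * I * (τ : ℂ) ^ 2 * conj (τ : ℂ) * JF d u (F4 d ω) τ) ∧
  (∀ (b : ℚ) τ, JF d u ω (actH (nn b) τ) =
    JF d u (fun Y => eq (b * (q3 Y.1 - d * Y.2 ^ 2)) * ω Y) τ) ∧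
  (∀ j : ℚ, 0 < j → ∀ τ, JF d u ω (dil j⁻¹ τ) = j * JF d u (fun Y => ω (j • Y)) (dil j τ)) ∧
  JF d u (fun Y => ω (-Y)) = JF d u ω ∧
  (∀ g : GQ, JF d (fun τ => u (actH g τ))
    (fun Y => ω (co (g.1 * tz Y.1 * (g⁻¹).1), Y.2)) = JF d u ω) ∧
  (∀ ω', SB ω' → JF d u (ω + ω') = JF d u ω + JF d u ω') ∧
  (∀ a : ℂ, JF d u (a • ω) = a • JF d u ω ∧ JF d (a • u) ω = a • JF d u ω) ∧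
  ∀ u', Rec u' → JF d (u + u') ω = JF d u ω + JF d u' ω

/-! ### Block C: Weil representations -/

def S_WV : Prop := ∀ M : ℕ, 0 < M →
  IsWeil (Lev M) M (M ^ 2) (fun Y : M2 => Y.det) FV (fun _ => 1) omV

def S_WL : Prop := ∀ d M : ℕ, 0 < d → 0 < M → 2 * d ∣ M → ∃ ρ, WeilL d M ρ

def S_Rho : Prop := ∀ d M : ℕ, 0 < d → 0 < M → 2 * d ∣ M → ∃ ρ, Weil6 d M ρ

def S_Mix : Prop := ∀ d : ℕ, 0 < d →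
  (∀ ω, SB ω → ∃ Ω, SB Ω ∧ unsh Ω = ω) ∧ ∀ Ω, SB Ω → SB (unsh Ω) ∧
  (∀ Ω', SB Ω' → unsh (Ω + Ω') = unsh Ω + unsh Ω') ∧ (∀ a : ℂ, unsh (a • Ω) = a • unsh Ω) ∧
  (∀ b, SB (nO d b Ω) ∧ unsh (nO d b Ω) = fun Y => eq (b * (q3 Y.1 - d * Y.2 ^ 2)) * unsh Ω Y) ∧
  (SB (sO d Ω) ∧ unsh (sO d Ω) = F4 d (unsh Ω)) ∧
  (∀ β, SB (cO β Ω) ∧ unsh (cO β Ω) =
    fun Y => unsh Ω (co ((nn β).1 * tz Y.1 * ((nn β)⁻¹).1), Y.2)) ∧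
  unsh (fun p => Ω (-p)) = fun Y => unsh Ω (-Y)

def S_JF2 : Prop := ∀ d : ℕ, 0 < d → ∀ u, Rec u → ∀ ω, SB ω →
  (∃ N, 0 < N ∧ ∀ γ ∈ Gamma N, ∀ τ,
    JF d u ω (γ • τ) = jf γ τ ^ 2 * conj (jf γ τ) * JF d u ω τ) ∧
  (∀ γ : SL, ∃ ω', SB ω' ∧ ∀ τ,
    JF d u ω (γ • τ) = jf γ τ ^ 2 * conj (jf γ τ) * JF d u ω' τ) ∧
  ∃ K : ℝ, ∀ τ : ℍ, τ.im ^ (3 / 2 : ℝ) * ‖JF d u ω τ‖ ≤ K

/-! ### Block D: cusp forms, growth -/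

def S_G2full : Prop := ∀ u, Rec u → ∀ (σ : ℍ) (M : ℕ), 0 < M → ∀ φ, Lev M φ →
  Conv (G2 u σ φ) ∧ (∀ γ : SL, sl 2 γ (qs (G2 u σ φ)) = qs (G2 u σ (omV γ φ))) ∧
  Cusp (M ^ 2) (qs (G2 u σ φ))

def S_HL : Prop := ∀ N : ℕ, 0 < N → ∀ φ, SB φ →
  ∃ (r : ℕ) (u0 : Fin r → ℍ → ℂ) (σ0 : Fin r → ℍ) (S : Finset ℚ) (c : Fin r → ℚ → ℂ),
    (∀ i, Rec (u0 i)) ∧ ∀ u, Rec u → LevU N u → ∀ σ n,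
      G2 u σ φ n = ∑ i, G2 (u0 i) (σ0 i) φ n * ∑ k ∈ S, c i k * G2 u σ φ k

def S_Cusp : Prop := ∀ Λ : (ℍ → ℂ) → ℂ,
  (∀ u u', Rec u → Rec u' → Λ (u + u') = Λ u + Λ u') → (∀ (c : ℂ) u, Rec u → Λ (c • u) = c * Λ u) →
  (∃ M, 0 < M ∧ ∀ γ ∈ Gamma M, ∀ u, Rec u → Λ (fun τ => u (γ • τ)) = Λ u) →
  (∃ q N : ℕ, q.Prime ∧ 0 < N ∧ ∀ (a : ℤ) (k : ℕ) u, Rec u →
    Λ (fun τ => u (actH (nn (N * a / q ^ k)) τ)) = Λ u) →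
  ∀ u, Rec u → Λ u = 0

def S_Vec : Prop := ∃ C0 : ℝ, ∀ (ι : Type) [Fintype ι] (c : ι → ℚ → ℂ) (δ : ℚ) (L : ℝ), 0 < δ →
  0 ≤ L → (∀ i, Conv (c i)) → (∀ i m, c i m ≠ 0 → δ ≤ m) →
  (∀ i m m', c i m ≠ 0 → c i m' ≠ 0 → IsInt (m - m')) →
  (∀ τ : ℍ, ∑ i, ‖qs (c i) (ModularGroup.S • τ)‖ ^ 2 = ‖(τ : ℂ)‖ ^ 3 * ∑ i, ‖qs (c i) τ‖ ^ 2) →
  (∀ i m, m ≤ 1 / 4 → ‖c i m‖ ≤ L) →
  ∀ i m, ‖c i m‖ ≤ C0 * Real.sqrt (Fintype.card ι) * L * (1 + 1 / δ) * (1 + |(m : ℝ)|)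

def S_Poly : Prop := ∀ s, InS s → ∀ M : ℕ, 0 < M → ∃ C : ℝ, ∀ φ : M2 → M2 → ℂ, Lev M (unc φ) →
  ∀ B : ℝ, (∀ Y Z, ‖φ Y Z‖ ≤ B) → ∀ n r j : ℚ,
    ‖aS s n r j φ‖ ≤ C * B * (1 + |((4 * n * j - r ^ 2 : ℚ) : ℝ)|) ^ 4

/-- bounds for `bX` and `aa` -/
def S_AA : Prop := ∀ s, InS s → ∀ d M : ℕ, 0 < d → 0 < M → ∀ v, LevV d M v → ∃ C : ℝ, 0 ≤ C ∧
  (∀ x' x, ‖bX s d v x' x‖ ≤ C * (1 + |((det2 (x', x) : ℚ) : ℝ)|) ^ 8) ∧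
  ∀ x m l, ‖aa s d v x m l‖ ≤ C * ((Nm d x : ℚ) : ℝ) * (1 + ((Nm d x : ℚ) : ℝ) ^ 2 * |(m : ℝ)|) ^ 4

def S_JRed : Prop := ∀ s, InS s → ∀ d M : ℕ, 0 < d → 0 < M → ∀ x : Q2, x ≠ 0 →
  ∃ (R : Finset GQ) (c : ℝ), (∀ y ∈ R, y.1.det = Nm d x) ∧ ∀ v, LevV d M v → ∀ τ,
    JX s d v x τ = c * ∑ y ∈ R, JF d (fun σ => s σ (actH y σ)) (om d v y.1 x) (dil (Nm d x) τ)

def S_JXS : Prop := ∀ s, InS s → ∀ d M : ℕ, 0 < d → 0 < M → ∀ v, LevV d M v → ∀ (x : Q2) (τ : ℍ),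
  JX s d v x (ModularGroup.S • τ) =
    (τ : ℂ) ^ 2 * conj (τ : ℂ) * JX s d (fun u' u => F6n d (fun w => v w u) u') x τ

def S_JX : Prop := ∀ s, InS s → ∀ d M : ℕ, 0 < d → 0 < M → ∀ ρ, Weil6 d M ρ → ∀ v, LevV d M v →
  (∀ γ, LevV d M (r1 ρ γ v)) ∧
  (∀ x (γ : SL) τ, JX s d v x (γ • τ) = jf γ τ ^ 2 * conj (jf γ τ) * JX s d (r1 ρ γ v) x τ) ∧
  (∀ x, Continuous (JX s d v x)) ∧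
  (∀ v', LevV d M v' → ∀ x, JX s d (v + v') x = JX s d v x + JX s d v' x) ∧
  (∀ (a : ℂ) x, JX s d (a • v) x = a • JX s d v x) ∧
  (∀ x, JX s d v x ≠ 0 → x ≠ 0 ∧ IsInt ((M : ℚ) • x)) ∧
  (∃ (C : ℝ) (A : ℕ), ∀ x (τ : ℍ),
    τ.im ^ (3 / 2 : ℝ) * ‖JX s d v x τ‖ ≤ C * (1 + ((Nm d x : ℚ) : ℝ)) ^ A) ∧
  ((∀ u' u, v u' u ≠ 0 → IsInt (QU d u')) → ∀ x (y : ℝ), 0 < y →
    HasSum (fun l : ℚ => aa s d v x (d * l ^ 2) l *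
      (((4 * y * Nm d x : ℝ) ^ (-(1 / 2) : ℝ) *
        Real.exp (-4 * π * Nm d x * (y * d * l ^ 2)) : ℝ) : ℂ)) (ct (JX s d v x) y))

/-! ### Block E: Rankin-Selberg integrals -/

def S_RS0 : Prop := ∀ (M : ℕ) (C : ℝ) (F : Q2 → ℍ → ℂ), 0 < M → Fam0 M C F →
  Fam0 M (M ^ 2 * C) (Fhat F) ∧ HGood (F 0) ∧
  (∀ t : ℝ, 0 < t → (∀ n : ℚ, 0 < n → IntegrableOn (fun y : ℝ =>
      (Real.exp (-π * t * n ^ 2 / y) : ℂ) * ct (F (0, n)) y / (y : ℂ) ^ 2) (Set.Ioi 0)) ∧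
    HasSum (fun n : ℚ => if 0 < n then ∫ y in Set.Ioi (0 : ℝ),
      (Real.exp (-π * t * n ^ 2 / y) : ℂ) * ct (F (0, n)) y / (y : ℂ) ^ 2 else 0) (R0 F t)) ∧
  (∀ t : ℝ, 0 < t →
    R0 F t + hmean (F 0) = (t : ℂ)⁻¹ * (R0 (Fhat F) t⁻¹ + hmean (Fhat F 0))) ∧
  ContinuousOn (R0 F) (Set.Ioi 0)

def S_EE : Prop := ∀ c, SB c → Continuous (EE c) ∧
  (∀ τ, IntegrableOn (K1 c τ) (Set.Ioi 0)) ∧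
  (∀ (γ : SL) τ, EE (fun w => c (vm w γ)) (γ • τ) = conj (jf γ τ) * EE c τ) ∧
  (∀ (b : ℚ) τ, EE c (actH (nn b) τ) = EE (nC b c) τ) ∧
  (∀ j : ℚ, 0 < j → ∃ a : ℂ, ∀ τ, EE c (dil j⁻¹ τ) = a * EE (fun w => c (j * w.1, w.2)) τ) ∧
  (∀ c', SB c' → EE (c + c') = EE c + EE c') ∧ (∀ a : ℂ, EE (a • c) = a • EE c) ∧
  ∃ K : ℝ, ∀ τ ∈ 𝒟, ‖EE c τ‖ ≤ K * τ.im ^ (1 / 4 : ℝ)

def S_RS1 : Prop := ∀ M : ℕ, 0 < M → ∃ K : ℝ, ∀ (C : ℝ) (F : Q2 → ℍ → ℂ), Fam1 M C F →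
  Fam1 M (M ^ 2 * C) (Fhat F) ∧
  (∀ t : ℝ, 0 < t → (∀ n : ℚ, 0 < n → IntegrableOn (fun y : ℝ =>
      (Real.exp (-π * t * n ^ 2 / y) : ℂ) * ct (F (0, n)) y / (y : ℂ)) (Set.Ioi 0)) ∧
    HasSum (fun n : ℚ => if 0 < n then n * ∫ y in Set.Ioi (0 : ℝ),
      (Real.exp (-π * t * n ^ 2 / y) : ℂ) * ct (F (0, n)) y / (y : ℂ) else 0) (R1 F t)) ∧
  (∀ t : ℝ, 0 < t → R1 F t = ((t : ℂ) ^ 2)⁻¹ * R1 (Fhat F) t⁻¹) ∧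
  IntegrableOn (R1 F) (Set.Ioi 0) ∧ (∫ t in Set.Ioi (0 : ℝ), ‖R1 F t‖) ≤ K * C ∧
  ∫ t in Set.Ioi (0 : ℝ), R1 F t = hmean fun τ => (τ.im : ℂ) ^ 2 * EE (fun w => F w τ) τ

def S_E0 : Prop := ∀ (d M : ℕ) (c : Q2 → ℂ), 0 < M → SBM M c → ChiEq d M c → Incoh d M c →
  EE c = 0

def S_Hil : Prop := ∀ d M : ℕ, Squarefree d → 0 < M → 2 * d ∣ M →
  (∃ p : ℕ, p.Prime ∧ p ∣ M ∧ Aniso d p) ∧ ∀ (z : Q2) (n : ℚ), Nm d z ≠ 0 → n < 0 →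
    (∀ p : ℕ, p.Prime → p ∣ M → Aniso d p → pdiv p (padicValRat p (Nm d z) + 3) (n - Nm d z)) →
    ∃ p : ℕ, p.Prime ∧ ¬ p ∣ M ∧ chi d p = -1 ∧ Odd (padicValRat p n)

/-- the invariance properties of the trilinear form -/
structure LocData (d M : ℕ) {U : Type} (sh : ℚ → U → U)
    (T : U → (Q2 × Q2 → ℂ) → (Q2 → ℂ) → ℂ) : Prop where
  addO : ∀ u Ω Ω' c, SB Ω → SB Ω' → SB c → T u (Ω + Ω') c = T u Ω c + T u Ω' c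
  smulO : ∀ u (a : ℂ) Ω c, SB Ω → SB c → T u (a • Ω) c = a * T u Ω c
  addC : ∀ u Ω c c', SB Ω → SB c → SB c' → T u Ω (c + c') = T u Ω c + T u Ω c'
  smulC : ∀ u (a : ℂ) Ω c, SB Ω → SB c → T u Ω (a • c) = a * T u Ω c
  hn : ∀ u b Ω c, SB Ω → SB c → T u (nO d b Ω) (nC b c) = T u Ω c
  hs : ∃ κ : ℂ, κ ≠ 0 ∧ ∀ u Ω c, SB Ω → SB c → T u Ω c = κ * T u (sO d Ω) (sC c)
  hc : ∀ u β Ω c, SB Ω → SB c → T u (cO β Ω) c = T (sh β u) Ω c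
  cusp : ∀ Ω c, SB Ω → SB c → ∀ q N : ℕ, q.Prime → 0 < N →
    (∀ u (a : ℤ) (k : ℕ), T (sh (N * a / q ^ k) u) Ω c = T u Ω c) → ∀ u, T u Ω c = 0
  e0 : ∀ u Ω c, SB Ω → SBM M c → ChiEq d M c → Incoh d M c → T u Ω c = 0

open Classical in
/-- indicator function of `M ^ K ℤ × (g + M ^ L ℤ)` -/
def boxF (M K L : ℕ) (g : ℚ) (v : Q2) : ℂ :=
  if IsInt (((M : ℚ) ^ K)⁻¹ • v.1) ∧ IsInt (((M : ℚ) ^ L)⁻¹ • (v.2 - g)) then 1 else 0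

/-- vanishing on small boxes -/
def BoxVan (d M : ℕ) {U : Type} (T : U → (Q2 × Q2 → ℂ) → (Q2 → ℂ) → ℂ) : Prop :=
  ∀ k : ℕ, ∃ K0 : ℕ, ∀ K L : ℕ, K0 ≤ K → K0 ≤ L → ∀ (u : U) (g : ℚ) (φ c : Q2 → ℂ),
    IsInt (((M ^ k : ℕ) : ℚ) • g) → (∀ p : ℕ, p.Prime → p ∣ M → ¬ pdiv p k g) →
    Lev (M ^ k) φ → Lev (M ^ k) c → ChiEq d M c →
    T u (fun p => boxF M K L g p.1 * φ p.2) c = 0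

def S_LocB : Prop := ∀ (d M : ℕ) (U : Type) (sh : ℚ → U → U)
  (T : U → (Q2 × Q2 → ℂ) → (Q2 → ℂ) → ℂ), Squarefree d → 0 < M → 2 * d ∣ M →
  LocData d M sh T → BoxVan d M T

def S_LocA : Prop := ∀ (d M : ℕ) (U : Type) (sh : ℚ → U → U)
  (T : U → (Q2 × Q2 → ℂ) → (Q2 → ℂ) → ℂ), 0 < d → 0 < M → 2 * d ∣ M →
  LocData d M sh T → BoxVan d M T →
  ∀ u Ω c, SBM M Ω → SBM M c → ChiEq d M c → T u Ω c = 0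

def S_BB : Prop := ∀ d : ℕ, 0 < d →
  (∀ u, Rec u → ∀ ω c, SB ω → SB c → HGood fun τ => (τ.im : ℂ) ^ 2 * JF d u ω τ * EE c τ) ∧
  ∀ M : ℕ, 0 < M → ∃ sh : ℚ → {u // Rec u} → {u // Rec u},
    LocData d M sh fun u Ω c => BB d u.1 (unsh Ω) c

def S_Van : Prop := ∀ d M : ℕ, Squarefree d → 0 < M → 2 * d ∣ M → ∀ u, Rec u → ∀ ω c, SB ω →
  SBM M c → ChiEq d M c → ∀ j : ℚ, 0 < j →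
    HGood (fun τ => (τ.im : ℂ) ^ 2 * JF d u ω (dil j τ) * EE c τ) ∧
    hmean (fun τ => (τ.im : ℂ) ^ 2 * JF d u ω (dil j τ) * EE c τ) = 0

/-! ### Block F: the double Dirichlet series -/

def S_Asm : Prop := ∀ (A : ℝ) (g : ℝ × ℝ → ℂ) (k0 κ kχ P : ℝ → ℂ) (m : ℕ)
  (gm hm : Fin m → ℝ × ℝ → ℂ) (km Pm : Fin m → ℝ → ℂ), 0 ≤ A → Base A g →
  (∀ i, Base A (gm i) ∧ Base A (hm i) ∧ Half (km i)) → Half k0 → Full (flat k0) → Half κ →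
  Full kχ → (∀ ξ, cv (-1, 1) g k0 ξ = cv (-1, 1) g κ ξ.swap + resT P ξ) →
  (∀ ξ, cv (1, 0) g kχ ξ = ∑ i, cv (1, 0) (gm i) (km i) (-ξ.1, ξ.2)) →
  (∀ i ξ, cv (-1, 1) (gm i) k0 ξ = hm i ξ.swap + resT (Pm i) ξ) →
  (∀ ξ : ℝ × ℝ, ∫ u : ℝ, cv (1, 0) g kχ (u, ξ.2) = 0) →
  ∃ H : ℂ → ℂ, Differentiable ℂ H ∧ H 0 = 0 ∧ ∀ w : ℝ, 2 * A + 4 < w →
    H w = 2 * (1 - cexp (-1)) * (∫ σ : ℝ, P σ * cexp ((1 / 4 + w / 2) * σ)) *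
      LK kχ (w / 2) * LK kχ (1 / 2 + w / 2) *
      ((1 - cexp (-2 * (1 / 2 + w))) * (1 - cexp (1 - 2 * (1 / 2 + w))) * LK k0 (1 / 2 + w))

def S_Ker : Prop := (∀ c, SB c → Half (ker0 c) ∧ Half (ker1 c)) ∧
  ∀ d M : ℕ, 0 < d → 0 < M → 2 * d ∣ M → Lev M (un M) ∧ Lev (M ^ 2) (chiq d M) ∧
    Full (flat (ker0 (un M))) ∧ Full (ker1 (chiq d M)) ∧
    DifferentiableOn ℂ (LK (ker0 (un M))) {r | 0 < r.re} ∧ LK (ker0 (un M)) (1 / 2) ≠ 0 ∧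
    Differentiable ℂ (LK (ker1 (chiq d M))) ∧ LK (ker1 (chiq d M)) 0 ≠ 0 ∧
    LK (ker1 (chiq d M)) (1 / 2) ≠ 0

/-- the general term of `gv` -/
def gvT (s : ℍ → ℍ → ℂ) (d : ℕ) (v : U6 → U6 → ℂ) (ξ : ℝ × ℝ) (p : Q2 × ℚ) : ℂ :=
  aa s d v p.1 (d * p.2 ^ 2) p.2 *
    ((Real.exp (ξ.1 / 2 + ξ.2 / 2) * (4 * Nm d p.1 : ℝ) ^ (-(1 / 2) : ℝ) *
      Real.exp (-4 * π * Nm d p.1 * (Real.exp ξ.2 + Real.exp ξ.1 * d * p.2 ^ 2)) : ℝ) : ℂ)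

def S_B0 : Prop := ∃ A : ℝ, 0 ≤ A ∧ ∀ s, InS s → ∀ d M : ℕ, 0 < d → 0 < M → ∀ v, LevV d M v →
  Base A (gv s d v) ∧ (∀ ξ, Summable fun p => ‖gvT s d v ξ p‖) ∧
  Base A (fun ξ => ((∑' p, ‖gvT s d v ξ p‖ : ℝ) : ℂ)) ∧
  (∀ v', LevV d M v' → gv s d (v + v') = gv s d v + gv s d v') ∧
  (∀ a : ℂ, gv s d (a • v) = a • gv s d v) ∧ gv s d (kap2 ModularGroup.T v) = gv s d v ∧
  ∀ α : ℝ × ℝ, α = (-1, 1) ∨ α = (1, 0) → ∀ k, Half k →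
    Base A (cv α (gv s d v) k) ∧ ∀ ξ, Integrable fun u : ℝ => gv s d v (ξ - u • α) * k u

def S_GZ : Prop := ∀ s, InS s → ∀ d M : ℕ, 0 < d → 0 < M → ∀ v, LevV d M v → ∀ ρ : ℝ, 0 < ρ →
  Continuous (GZ s d v ρ) ∧ (∃ C : ℝ, ∀ z, ‖GZ s d v ρ z‖ ≤ C) ∧
  (∀ (γ : SL) z, GZ s d v ρ (γ • z) = GZ s d (kap2 γ v) ρ z) ∧
  (∀ v', LevV d M v' → GZ s d (v + v') ρ = GZ s d v ρ + GZ s d v' ρ) ∧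
  (∀ a : ℂ, GZ s d (a • v) ρ = a • GZ s d v ρ) ∧
  (kap2 ModularGroup.T v = v → ∀ y : ℝ, 0 < y →
    gv s d v (Real.log (ρ / y), Real.log (ρ * y)) =
      ((ρ ^ (3 / 2 : ℝ) * y ^ (-(1 / 2) : ℝ) : ℝ) : ℂ) * ct (GZ s d v ρ) y)

def S_Mel : Prop := ∀ d : ℕ, 0 < d → ∃ Gf : ℂ → ℂ, DifferentiableOn ℂ Gf {w | -1 < w.re} ∧
  Gf 0 ≠ 0 ∧ ∀ s, InS s → ∀ M : ℕ, 0 < M → ∀ v, Nice d M v → ∃ w0 : ℝ, ∀ w : ℝ, w0 < w →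
    LSeriesSummable (Dco s d v) (2 + w) ∧
    ∫ σ : ℝ, (Real.exp (3 * σ / 4) : ℂ) * hmean (GZ s d v (Real.exp (σ / 2))) *
      cexp ((1 / 4 + w / 2) * σ) = Gf w * LSeries (Dco s d v) (2 + w)

def S_RSG : Prop := ∀ d M : ℕ, 0 < d → 1 < M →
  (∀ s, InS s → ∀ v, Nice0 d M v → ∃ (m : ℕ) (vm : Fin m → U6 → U6 → ℂ) (km : Fin m → ℝ → ℂ)
    (P : ℝ → ℂ), (∀ i, LevV d M (vm i) ∧ Half (km i)) ∧ ∀ ξ,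
      cv (-1, 1) (gv s d v) (ker0 (un M)) ξ =
        ∑ i, cv (-1, 1) (gv s d (vm i)) (km i) ξ.swap + resT P ξ) ∧
  ∃ (κ : ℝ → ℂ) (c0 : ℂ), Half κ ∧ c0 ≠ 0 ∧ ∀ s, InS s → ∀ v, Nice d M v → ∀ ξ,
    cv (-1, 1) (gv s d v) (ker0 (un M)) ξ = cv (-1, 1) (gv s d v) κ ξ.swap +
      resT (fun σ => c0 * ((Real.exp (3 * σ / 4) : ℂ) * hmean (GZ s d v (Real.exp (σ / 2))))) ξ

/-- the section attached to a nice vector -/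
structure Sec (d M : ℕ) (ρ : SL → (U6 → ℂ) → U6 → ℂ) (v : U6 → U6 → ℂ)
    (f : Q2 → U6 → U6 → ℂ) : Prop where
  lev : ∀ w, LevV d M (f w)
  per : ∀ w k : Q2, IsInt k → f (w + ((M ^ 2 : ℕ) : ℚ) • k) = f w
  supp : ∀ w, f w ≠ 0 → IsInt w
  eqv : ∀ w γ, f (vm w γ) = r1 ρ γ (f w)
  val : ∀ n : ℚ, 0 < n → f (0, n) = chiq d M n • v
  chi : ∀ n : ℤ, IsCoprime n M → ∀ w : Q2, (∃ k : ℕ, IsInt (((M ^ k : ℕ) : ℚ) • w)) →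
    f ((n : ℚ) • w) = chi d n • f w
  sc2 : ∀ w (a : ℤ), IsCoprime a M → ∀ u' u, IsInt ((M : ℚ) • u) →
    f w u' ((a : ℚ) • u) = f w u' u

/-- the section, its Fourier transform, and the link with `gv` -/
def S_Sec : Prop := ∀ d M : ℕ, 0 < d → 0 < M → 2 * d ∣ M → ∀ ρ, Weil6 d M ρ → ∀ v, Nice d M v →
  ∃ f, Sec d M ρ v f ∧ ∀ n : ℚ, IsInt (((M ^ 2 : ℕ) : ℚ) • n) →
    LevV d M (fun u' u => FS (fun w => f w u' u) (0, n)) ∧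
    (∀ u' u, FS (fun w => f w u' u) (0, n) ≠ 0 → IsInt (QU d u')) ∧
    ∃ v'', Nice0 d M v'' ∧ ∀ s, InS s →
      gv s d v'' = gv s d fun u' u => FS (fun w => f w u' u) (0, n)

/-- the general term of the unfolded weight one integral -/
def lstT (s : ℍ → ℍ → ℂ) (d : ℕ) (v : U6 → U6 → ℂ) (c : ℚ → ℂ) (t : ℝ) (x : Q2) (n : ℚ) : ℂ :=
  if 0 < n then c n * (n * ∫ y in Set.Ioi (0 : ℝ),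
    (Real.exp (-π * t * n ^ 2 / y) : ℂ) * ct (JX s d v x) y / (y : ℂ)) else 0

def S_Lst : Prop := ∀ d M : ℕ, 0 < d → 0 < M → 2 * d ∣ M → ∀ s, InS s → ∀ v, LevV d M v →
  (∀ u' u, v u' u ≠ 0 → IsInt (QU d u')) → ∀ c, SB c → ∀ ξ : ℝ × ℝ,
    (∀ x, Summable (lstT s d v c (Real.exp ξ.1) x)) ∧
    HasSum (fun x : Q2 => ((Real.exp (ξ.2 / 2) * Real.exp (-4 * π * Nm d x * Real.exp ξ.2) *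
      Real.exp ξ.1 : ℝ) : ℂ) * ∑' n, lstT s d v c (Real.exp ξ.1) x n)
      (cv (1, 0) (gv s d v) (ker1 c) ξ)

def S_RSJ2 : Prop := ∀ d M : ℕ, 0 < d → 0 < M → 2 * d ∣ M → ∀ s, InS s → ∀ v, Nice d M v →
  ∃ (m : ℕ) (vm : Fin m → U6 → U6 → ℂ) (km : Fin m → ℝ → ℂ),
    (∀ i, Nice0 d M (vm i) ∧ Half (km i)) ∧ ∀ ξ : ℝ × ℝ,
      cv (1, 0) (gv s d v) (ker1 (chiq d M)) ξ =
        ∑ i, cv (1, 0) (gv s d (vm i)) (km i) (-ξ.1, ξ.2)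

def S_RSJ4 : Prop := ∀ d M : ℕ, Squarefree d → 0 < M → 2 * d ∣ M → ∀ s, InS s → ∀ v, Nice d M v →
  ∀ ξ : ℝ × ℝ, ∫ u : ℝ, cv (1, 0) (gv s d v) (ker1 (chiq d M)) (u, ξ.2) = 0

def S_An : Prop := ∀ d M : ℕ, Squarefree d → 0 < M → 2 * d ∣ M → ∃ (κ : ℂ → ℂ) (κ0 : ℂ),
  DifferentiableOn ℂ κ {w | 0 < w.re} ∧ κ0 ≠ 0 ∧
  Tendsto (fun w : ℝ => κ w / w) (𝓝[>] 0) (𝓝 κ0) ∧ ∀ s, InS s → ∀ v, Nice d M v →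
    ∃ H : ℂ → ℂ, Differentiable ℂ H ∧ H 0 = 0 ∧ ∃ w0 : ℝ, ∀ w : ℝ, w0 < w →
      LSeriesSummable (Dco s d v) (2 + w) ∧ H w = κ w * LSeries (Dco s d v) (2 + w)

/-! ### Block G: Hecke operators and Euler products -/

def S_Hk : Prop := ∀ N : ℕ, 0 < N → ∀ u, LevU N u → Tn N 1 u = u ∧ Dia N 1 u = u ∧
  (∀ a b : ZMod N, IsUnit a → IsUnit b → Dia N a (Dia N b u) = Dia N (a * b) u) ∧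
  (∀ (a : ZMod N) (n : ℕ), IsUnit a → 0 < n → n.Coprime N →
    Dia N a (Tn N n u) = Tn N n (Dia N a u) ∧
    HK N !![a⁻¹, 0; 0, a * n] n u = Dia N a (Tn N n u)) ∧
  (∀ p n : ℕ, p.Prime → p.Coprime N → 0 < n → n.Coprime N → Tn N p (Tn N n u) =
    Tn N (p * n) u + if p ∣ n then (p : ℂ) • Dia N p (Tn N (n / p) u) else 0) ∧
  ∀ m n : ℕ, 0 < m → m.Coprime N → 0 < n → n.Coprime N → Tn N m (Tn N n u) = Tn N n (Tn N m u)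

def S_Eig : Prop := ∀ s, InS s → ∀ d N : ℕ, 0 < N → LevS N s → ∀ μ, ell s d N μ ≠ 0 →
  ∃ (s0 : ℍ → ℍ → ℂ) (l1 l2 : ℕ → ℂ) (ε1 ε2 : DirichletCharacter ℂ N) (A : Finset (ZMod N))
    (c : ZMod N → ℂ), InS s0 ∧ LevS N s0 ∧ IsEig N l1 ε1 ∧ IsEig N l2 ε2 ∧
    ∀ m : ℕ, 0 < m → m.Coprime N →
      ∑ a ∈ A, c a * ell (op2 (Tn N m) (Tn N m) s0) d N (tw N m (tw N a μ)) = l1 m * l2 m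

/-- lattices in `ℚ²` are written `g ℤ²` (columns); `y.1`, `y.2` have Gram matrix `(1, 0, d)` -/
def S_Count : Prop := ∀ d N : ℕ, 0 < N → 2 * d ∣ N → ∀ y1 y2 : M2, y1.det = 1 → bil y1 y2 = 0 →
  y2.det = d → (∃ t : ℕ, t.Coprime N ∧ IsInt ((t : ℚ) • y1) ∧ IsInt ((t : ℚ) • y2)) →
  ∀ n : ℕ, 0 < n → n.Coprime N →
    ∑ k ∈ n.divisors, (Nat.card {X : Z2 // X ∈ hnf k ∧
        IsInt ((X 0 0 : ℚ) • y1 + (X 0 1 : ℚ) • y2) ∧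
        IsInt ((X 1 0 : ℚ) • y1 + (X 1 1 : ℚ) • y2)} : ℂ) * rK d (n / k) =
    ∑ m ∈ n.divisors, (ArithmeticFunction.sigma 1 (n / m) : ℂ) *
      (Nat.card {g : Z2 × Z2 // g.1 ∈ hnf m ∧ g.2 ∈ hnf m ∧
        IsInt ((castZ g.2.transpose)⁻¹ * y1 * castZ g.1.transpose) ∧
        IsInt ((castZ g.2.transpose)⁻¹ * y2 * castZ g.1.transpose)} : ℂ)

def S_Nice : Prop := ∀ d N : ℕ, 0 < d → 0 < N → ∀ μ, Nice d (2 * d * N) (vmu N μ)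

def S_Euler : Prop := ∀ (s : ℍ → ℍ → ℂ) (d N : ℕ), 0 < d → 0 < N → 2 * d ∣ N → LevS N s → ∀ μ,
  (∀ n : ℕ, Dco s d (vmu N μ) n ≠ 0 → n.Coprime N) ∧ ∀ n : ℕ, 0 < n → n.Coprime N →
    ∑ k ∈ n.divisors, Dco s d (vmu N μ) k * rK d (n / k) =
      2 * ∑ m ∈ n.divisors, (ArithmeticFunction.sigma 1 (n / m) : ℂ) *
        ell (op2 (Tn N m) (Tn N m) s) d N (tw N m μ)

def S_NV1 : Prop := ∀ N : ℕ, 1 < N → ∀ (l1 l2 : ℕ → ℂ) (ε1 ε2 : DirichletCharacter ℂ N),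
  IsEig N l1 ε1 → IsEig N l2 ε2 → IsEig N (fun n => conj (l1 n)) ε1⁻¹ ∧
  ∃ Λ : ℂ → ℂ, Differentiable ℂ Λ ∧ Λ (-1) = 0 ∧ ∀ w : ℂ, 2 < w.re →
    LSeriesSummable (fun n => l1 n * l2 n) (2 + w) ∧
    Λ w = w * LSeries (fun n => (ε1 * ε2) n) (2 + 2 * w) * LSeries (fun n => l1 n * l2 n) (2 + w)

def S_NV : Prop := ∀ N : ℕ, 1 < N → ∀ (l1 l2 : ℕ → ℂ) (ε1 ε2 : DirichletCharacter ℂ N),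
  IsEig N l1 ε1 → IsEig N l2 ε2 →
  ∃ Λ : ℂ → ℂ, Differentiable ℂ Λ ∧ ¬ (Λ 0 = 0 ∧ deriv Λ 0 = 0) ∧ ∀ w : ℂ, 2 < w.re →
    LSeriesSummable (fun n => l1 n * l2 n) (2 + w) ∧
    Λ w = w * LSeries (fun n => (ε1 * ε2) n) (2 + 2 * w) * LSeries (fun n => l1 n * l2 n) (2 + w)

def S_Main0 : Prop := ∀ s, InS s → ∀ d N : ℕ, Squarefree d → 0 < N → 2 * d ∣ N → LevS N s →
  ∀ μ, ell s d N μ = 0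

def S_Main : Prop := ∀ s, InS s → ∀ φ : M2 → M2 → ℂ, SB (unc φ) → ∀ n r j, aS s n r j φ = 0

def S_R0 : Prop := ∀ (ι : Type) (X : Set (ι → ℂ)) (M : ℕ) (xi : ι → ℍ → ℂ) (p : ℍ → X)
  (f : (X →₀ ℤ) →+ ℂ), 0 < M → (∀ i, InO M (xi i)) → (∃ i, xi i = jj) →
  (∀ τ i, (p τ).1 i = xi i τ) → (∀ D ∈ ratTrivialAff X, f D = 0) →
  Rec fun τ => f (Finsupp.single (p τ) 1)

end

end Pool.Agent.P.MP_b8021b_nt.CM
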