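import Pool.Agent.P.MP_b8021b_nt.CM.HMean
import Pool.Agent.P.MP_b8021b_nt.CM.Poi
import Pool.Agent.P.MP_b8021b_nt.CM.RecL
import Pool.Agent.P.MP_b8021b_nt.CM.Stmts
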