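import Pool.Agent.P.MP_b8021b_nt.CM.Lib

/-! Package P34, part a: the conjugate form and the constant term of a product of two forms. -/

namespace Pool.Agent.P.MP_b8021b_nt.CM

open Complex hiding Gamma
open UpperHalfPlane hiding I
open MeasureTheory CongruenceSubgroup Filter
open scoped Real MatrixGroups ModularForm Topology ComplexConjugate Modular

noncomputable section

namespace NV1P

/-- the reflection in the imaginary axis -/
def ng (τ : ℍ) : ℍ := ⟨-conj (τ : ℂ), by simpa using τ.im_pos⟩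

theorem coe_ng (τ : ℍ) : (ng τ : ℂ) = -conj (τ : ℂ) := rfl

theorem im_ng (τ : ℍ) : (ng τ).im = τ.im := by
  rw [← coe_im, coe_ng]; simp

/-- the conjugate function -/
def st (f : ℍ → ℂ) (τ : ℍ) : ℂ := conj (f (ng τ))

/-- conjugation by `diag (1, -1)` -/
def cs (γ : SL) : SL := ⟨!![γ 0 0, -γ 0 1; -γ 1 0, γ 1 1], by
  have h := γ.det_coe
  rw [Matrix.det_fin_two] at h
  rw [Matrix.det_fin_two_of]
  linarith⟩

theorem cs00 (γ : SL) : cs γ 0 0 = γ 0 0 := rfl
theorem cs01 (γ : SL) : cs γ 0 1 = -γ 0 1 := rfl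
theorem cs10 (γ : SL) : cs γ 1 0 = -γ 1 0 := rfl
theorem cs11 (γ : SL) : cs γ 1 1 = γ 1 1 := rfl

theorem jf_cs (γ : SL) (τ : ℍ) : jf (cs γ) (ng τ) = conj (jf γ τ) := by
  simp [jf, cs10, cs11, coe_ng]

theorem ng_smul (γ : SL) (τ : ℍ) : ng (γ • τ) = cs γ • ng τ := by
  apply UpperHalfPlane.ext
  rw [coe_ng, coe_SL, coe_SL, jf_cs, cs00, cs01, coe_ng, map_div₀]
  simp only [map_add, map_mul, map_intCast]
  push_cast
  ring

theorem sl_st (γ : SL) (f : ℍ → ℂ) : sl 2 γ (st f) = st (sl 2 (cs γ) f) := by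
  funext τ
  simp only [sl, st, ng_smul, jf_cs, map_mul, map_zpow₀, Complex.conj_conj]

theorem hol_st {f : ℍ → ℂ} (h : Hol f) : Hol (st f) := by
  have h1 : DifferentiableOn ℂ (conj ∘ (fun z : ℂ => (f ∘ ofComplex) (-z)) ∘ conj)
      {z | 0 < z.im} := by
    intro z hz
    refine (differentiableAt_conj_conj_iff.2 ?_).differentiableWithinAt
    have hz' : 0 < (-conj z).im := by simpa using hz
    have h2 : DifferentiableAt ℂ (f ∘ ofComplex) (-conj z) :=
      (h.analyticAt ⟨_, hz'⟩).differentiableAt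
    exact h2.comp (conj z) differentiableAt_id.neg
  have h2 := hol_of_differentiableOn h1
  have h3 : st f = fun τ : ℍ =>
      (conj ∘ (fun z : ℂ => (f ∘ ofComplex) (-z)) ∘ conj) (τ : ℂ) := by
    funext τ
    simp only [st, Function.comp_apply]
    rw [← coe_ng, ofComplex_apply]
  rw [h3]
  exact h2

theorem conj_e (z : ℂ) : conj (e z) = e (-conj z) := by
  rw [e, e, ← exp_conj]
  congr 1
  simp only [map_mul, conj_I, conj_ofReal, map_ofNat]
  ring

theorem cusp_st {M : ℕ} {f : ℍ → ℂ} (h : Cusp M f) : Cusp M (st f) := by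
  refine ⟨hol_st h.1, fun γ hγ => ?_, fun γ => ?_⟩
  · rw [sl_st, h.2.1]
    rw [Gamma_mem] at hγ ⊢
    rw [cs00, cs01, cs10, cs11]
    push_cast
    rw [hγ.2.1, hγ.2.2.1]
    exact ⟨hγ.1, neg_zero, neg_zero, hγ.2.2.2⟩
  · obtain ⟨C, c, hc, hb⟩ := h.2.2 (cs γ)
    refine ⟨C, c, hc, fun τ hτ => ?_⟩
    rw [sl_st, st, RCLike.norm_conj, ← im_ng τ]
    exact hb _ (by rwa [im_ng])

theorem hasSum_st {l : ℕ → ℂ} {f : ℍ → ℂ}
    (h : ∀ τ : ℍ, HasSum (fun n : ℕ => l n * e (n * τ)) (f τ)) (τ : ℍ) :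
    HasSum (fun n : ℕ => conj (l n) * e (n * τ)) (st f τ) := by
  have h1 := (h (ng τ)).mapL conjCLE.toContinuousLinearMap
  simp only [ContinuousLinearEquiv.coe_coe, conjCLE_apply, map_mul, conj_e, coe_ng, map_natCast,
    map_neg, Complex.conj_conj, mul_neg, neg_neg] at h1
  exact h1

theorem isEig_conj {N : ℕ} (hN : 1 < N) {l : ℕ → ℂ} {ε : DirichletCharacter ℂ N}
    (h : IsEig N l ε) : IsEig N (fun n => conj (l n)) ε⁻¹ := by
  have : NeZero N := ⟨by omega⟩
  have hε : ∀ a : ZMod N, conj (ε a) = ε⁻¹ a := fun a => MulChar.star_apply' ε a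
  refine ⟨by simp [h.one], fun n hn => h.supp n (by simpa using hn), fun p n hp h1 h2 hn => ?_, ?_⟩
  · have := congrArg conj (h.hecke p n hp h1 h2 hn)
    rw [map_mul, map_add] at this
    rw [this]
    split_ifs
    · rw [map_mul, map_mul, hε, map_natCast]
    · rw [map_zero]
  · obtain ⟨f, hf, hs, hc⟩ := h.form
    refine ⟨st f, cusp_st hf, hasSum_st hs, fun γ hγ => ?_⟩
    rw [sl_st, hc _ (by rw [cs10]; exact hγ.neg_right), cs11]
    funext τ
    simp only [st, Pi.smul_apply, smul_eq_mul, map_mul, hε]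

/-! ### coefficients -/

theorem per_one {l : ℕ → ℂ} {f : ℍ → ℂ}
    (h : ∀ τ : ℍ, HasSum (fun n : ℕ => l n * e (n * τ)) (f τ)) : Per 1 f := by
  intro τ
  refine (h _).unique ?_
  convert h τ using 3 with n
  rw [coe_vadd]
  push_cast
  rw [mul_add, e_add, mul_one, ← Int.cast_natCast, e_int, one_mul]

theorem coef_one {l : ℕ → ℂ} {f : ℍ → ℂ} (hf : Hol f)
    (h : ∀ τ : ℍ, HasSum (fun n : ℕ => l n * e (n * τ)) (f τ)) (n : ℕ) : coef 1 f n = l n := by
  have := coef_unique one_pos hf (per_one h) (a := fun n : ℤ => if 0 ≤ n then l n.toNat else 0)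
    (Y := 0) (fun τ _ => ?_) n
  · simpa using this
  · rw [← Nat.cast_injective.hasSum_iff]
    · convert h τ using 2 with n
      simp
    · intro n hn
      have : ¬ 0 ≤ n := fun h0 => hn ⟨n.toNat, Int.toNat_of_nonneg h0⟩
      simp [this]

theorem coef_le {M : ℕ} (hM : 0 < M) {l : ℕ → ℂ} {f : ℍ → ℂ} (hf : Cusp M f)
    (h : ∀ τ : ℍ, HasSum (fun n : ℕ => l n * e (n * τ)) (f τ)) :
    ∃ C : ℝ, 0 ≤ C ∧ ∀ n : ℕ, ‖l n‖ ≤ C * n := by
  obtain ⟨-, C, hC⟩ := Cusp.coef_bound hM hf
  refine ⟨|C| * M, by positivity, fun n => ?_⟩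
  have h1 := coef_level one_pos hf.1 (per_one h) hM ((M : ℤ) * n)
  rw [if_pos (dvd_mul_right _ _), mul_one,
    Int.mul_ediv_cancel_left _ (by exact_mod_cast hM.ne'), coef_one hf.1 h] at h1
  rw [← h1]
  refine (hC _).trans ?_
  push_cast
  rw [abs_of_nonneg (by positivity), mul_assoc]
  exact mul_le_mul_of_nonneg_right (le_abs_self C) (by positivity)

/-- the constant term of `f * conj g` -/
theorem hasSum_ct {l m : ℕ → ℂ} {f g : ℍ → ℂ} (hf : Hol f)
    (h : ∀ τ : ℍ, HasSum (fun n : ℕ => l n * e (n * τ)) (f τ))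
    (h' : ∀ τ : ℍ, HasSum (fun n : ℕ => conj (m n) * e (n * τ)) (g τ)) {y : ℝ} (hy : 0 < y) :
    HasSum (fun n : ℕ => l n * m n * (Real.exp (-(4 * π * n) * y) : ℝ))
      (ct (fun τ => f τ * conj (g τ)) y) := by
  have hc : Continuous fun u => f (pt u y) := hf.continuous.comp (continuous_pt hy)
  let F : ℕ → ℝ → ℂ := fun n u => f (pt u y) * (m n * e (-(n * (u - y * I))))
  have hFc : ∀ n, Continuous (F n) := fun n => by
    refine hc.mul (continuous_const.mul ?_)
    unfold e
    fun_prop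
  have hsum : ∀ u, HasSum (fun n => F n u) (f (pt u y) * conj (g (pt u y))) := by
    intro u
    refine HasSum.mul_left _ ?_
    have h1 := (h' (pt u y)).mapL conjCLE.toContinuousLinearMap
    simp only [ContinuousLinearEquiv.coe_coe, conjCLE_apply, map_mul, conj_e, coe_pt u hy,
      map_natCast, Complex.conj_conj, map_add, conj_ofReal, conj_I] at h1
    simpa only [mul_neg, ← sub_eq_add_neg] using h1
  obtain ⟨K, hK⟩ := (isCompact_Icc (a := (0 : ℝ)) (b := 1)).exists_bound_of_continuousOn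
    hc.continuousOn
  have hnorm : ∀ (n : ℕ) (u : ℝ), ‖m n * e (-(n * (u - y * I)))‖ =
      ‖conj (m n) * e (n * (pt 0 y : ℂ))‖ := by
    intro n u
    rw [norm_mul, norm_mul, norm_e, norm_e, coe_pt 0 hy, RCLike.norm_conj]
    simp
  have hs : Summable fun n : ℕ => ‖conj (m n) * e (n * (pt 0 y : ℂ))‖ :=
    summable_norm_iff.2 (h' _).summable
  have key := hasSum_integral_of_summable_integral_norm (μ := volume.restrict (Set.Ioc 0 1))
    (F := F) (fun n => ((hFc n).integrableOn_Icc).mono_set Set.Ioc_subset_Icc_self) ?_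
  · have e1 : ct (fun τ => f τ * conj (g τ)) y = ∫ u in Set.Ioc (0 : ℝ) 1, ∑' n, F n u := by
      rw [ct, intervalIntegral.integral_of_le zero_le_one]
      simp only [(hsum _).tsum_eq]
    have e3 : (fun n : ℕ => l n * m n * (Real.exp (-(4 * π * n) * y) : ℝ)) =
        fun n => ∫ a in Set.Ioc (0 : ℝ) 1, F n a := by
      funext n
      have h2 := coef_height one_pos hf (per_one h) n hy
      rw [coef_one hf h] at h2
      simp only [Nat.cast_one, div_one, Int.cast_natCast] at h2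
      rw [h2, intervalIntegral.integral_of_le zero_le_one, mul_assoc, ← integral_mul_const]
      refine integral_congr_ae (Eventually.of_forall fun u => ?_)
      have e2 : e (-(n * (u - y * I))) =
          e (-(n * (u + y * I))) * (Real.exp (-(4 * π * n) * y) : ℝ) := by
        rw [e, e, ofReal_exp, ← Complex.exp_add]
        congr 1
        push_cast
        linear_combination (4 * π * n * y) * I_mul_I
      simp only [F, e2, neg_mul]
      ring
    rw [e1, e3]
    exact key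
  · refine Summable.of_nonneg_of_le (fun n => integral_nonneg fun u => norm_nonneg _)
      (fun n => ?_) (hs.mul_left K)
    have h3 : ∀ u ∈ Set.Ioc (0 : ℝ) 1, ‖‖F n u‖‖ ≤ K * ‖conj (m n) * e (n * (pt 0 y : ℂ))‖ := by
      intro u hu
      rw [norm_norm, norm_mul, hnorm]
      exact mul_le_mul_of_nonneg_right (hK u (Set.Ioc_subset_Icc_self hu)) (norm_nonneg _)
    have h4 := norm_setIntegral_le_of_norm_le_const (μ := volume) (s := Set.Ioc (0 : ℝ) 1)
      (by simp) h3
    simp only [Real.volume_real_Ioc, sub_zero, zero_le_one, sup_of_le_left, mul_one] at h4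
    exact (le_abs_self _).trans h4

end NV1P

end

end Pool.Agent.P.MP_b8021b_nt.CM
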