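import Pool.Agent.P.MP_b8021b_nt.CM.NV1a

/-! Package P34, part b: Mellin transforms and decay of the unfolded integral. -/

namespace Pool.Agent.P.MP_b8021b_nt.CM

open Complex hiding Gamma
open UpperHalfPlane hiding I
open MeasureTheory CongruenceSubgroup Filter
open scoped Real MatrixGroups ModularForm Topology ComplexConjugate Modular

noncomputable section

namespace NV1P

theorem int_rpow_exp {s b : ℝ} (hs : -1 < s) (hb : 0 < b) :
    IntegrableOn (fun x : ℝ => x ^ s * Real.exp (-(b * x))) (Set.Ioi 0) := by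
  have := integrableOn_rpow_mul_exp_neg_mul_rpow hs one_pos hb
  simpa only [Real.rpow_one, neg_mul] using this

theorem mellin_A {h : ℝ → ℂ} (hm : Measurable h) {s : ℂ} (hs : 0 < s.re)
    (hi : IntegrableOn (fun y : ℝ => y ^ s.re * ‖h y‖) (Set.Ioi 0)) :
    HasMellin (fun t => ∫ y in Set.Ioi (0 : ℝ), (Real.exp (-π * t / y) : ℂ) * h y) s
      (Complex.Gamma s * (π : ℂ) ^ (-s) * mellin h (s + 1)) := by
  let K : ℝ → ℝ → ℂ := fun t y => (t : ℂ) ^ (s - 1) * ((Real.exp (-π * t / y) : ℂ) * h y)
  have hn : ∀ t y : ℝ, 0 < t →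
      ‖K t y‖ = t ^ (s.re - 1) * Real.exp (-(π / y * t)) * ‖h y‖ := by
    intro t y ht
    simp only [K, norm_mul, norm_cpow_eq_rpow_re_of_pos ht, sub_re, one_re, norm_real,
      Real.norm_eq_abs, Real.abs_exp, mul_assoc]
    congr 3
    ring
  have hmK : Measurable (Function.uncurry K) := by
    refine Measurable.mul ?_ (Measurable.mul ?_ (hm.comp measurable_snd))
    · exact (measurable_ofReal.comp measurable_fst).pow_const _
    · fun_prop
  have hK : Integrable (Function.uncurry K)
      ((volume.restrict (Set.Ioi 0)).prod (volume.restrict (Set.Ioi 0))) := by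
    rw [integrable_prod_iff' hmK.aestronglyMeasurable]
    constructor
    · filter_upwards [ae_restrict_mem measurableSet_Ioi] with y (hy : 0 < y)
      refine ((int_rpow_exp (s := s.re - 1) (by linarith) (div_pos Real.pi_pos hy)).mul_const
        ‖h y‖).mono' (hmK.comp measurable_prodMk_right).aestronglyMeasurable ?_
      filter_upwards [ae_restrict_mem measurableSet_Ioi] with t (ht : 0 < t)
      exact (hn t y ht).le
    · refine (hi.const_mul (π ^ (-s.re) * Real.Gamma s.re)).congr ?_
      filter_upwards [ae_restrict_mem measurableSet_Ioi] with y (hy : 0 < y)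
      have e1 : ∫ t in Set.Ioi (0 : ℝ), ‖Function.uncurry K (t, y)‖ =
          ∫ t in Set.Ioi (0 : ℝ), t ^ (s.re - 1) * Real.exp (-(π / y * t)) * ‖h y‖ :=
        setIntegral_congr_fun measurableSet_Ioi fun t ht => hn t y ht
      rw [e1, integral_mul_const, Real.integral_rpow_mul_exp_neg_mul_Ioi hs
        (div_pos Real.pi_pos hy), one_div_div, Real.div_rpow hy.le Real.pi_pos.le,
        Real.rpow_neg Real.pi_pos.le]
      ring
  have e2 : ∀ t : ℝ, (t : ℂ) ^ (s - 1) •
      ∫ y in Set.Ioi (0 : ℝ), (Real.exp (-π * t / y) : ℂ) * h y = ∫ y in Set.Ioi (0 : ℝ), K t y :=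
    fun t => (integral_const_mul _ _).symm
  constructor
  · unfold MellinConvergent
    simp only [e2]
    exact hK.integral_prod_left
  · unfold mellin
    simp only [e2]
    rw [integral_integral_swap hK, ← integral_const_mul]
    refine setIntegral_congr_fun measurableSet_Ioi fun y (hy : 0 < y) => ?_
    have e3 : ∀ t : ℝ, K t y = (t : ℂ) ^ (s - 1) * cexp (-((π / y : ℝ) * t)) * h y := by
      intro t
      simp only [K, ofReal_exp, mul_assoc]
      congr 3
      push_cast
      ring
    simp only [e3]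
    rw [integral_mul_const, integral_cpow_mul_exp_neg_mul_Ioi hs (div_pos Real.pi_pos hy),
      add_sub_cancel_right, smul_eq_mul]
    have e4 : (1 / ((π / y : ℝ) : ℂ)) ^ s = (π : ℂ) ^ (-s) * (y : ℂ) ^ s := by
      have : (1 / ((π / y : ℝ) : ℂ)) = ((π⁻¹ : ℝ) : ℂ) * (y : ℂ) := by
        push_cast
        field_simp
      rw [this, mul_cpow_ofReal_nonneg (by positivity) hy.le, cpow_neg, ofReal_inv,
        inv_cpow _ _ (by rw [arg_ofReal_of_nonneg Real.pi_pos.le]; exact Real.pi_pos.ne)]
    rw [e4]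
    ring

theorem mellin_sum {A R : ℝ → ℂ} {ψ : ℕ → ℂ} {s : ℂ} (hA : MellinConvergent A s) (hs : 1 ≤ s.re)
    (h1 : ∀ n, ‖ψ n‖ ≤ 1) (h0 : ψ 0 = 0)
    (hR : ∀ t : ℝ, 0 < t → HasSum (fun n : ℕ => ψ n * A ((n : ℝ) ^ 2 * t)) (R t)) :
    HasSum (fun n : ℕ => ψ n * ((((n : ℝ) ^ 2 : ℝ) : ℂ) ^ (-s) * mellin A s)) (mellin R s) := by
  let F : ℕ → ℝ → ℂ := fun n t => ψ n * ((t : ℂ) ^ (s - 1) • A ((n : ℝ) ^ 2 * t))
  have hF0 : F 0 = 0 := by funext t; simp [F, h0]
  have hFi : ∀ n, Integrable (F n) (volume.restrict (Set.Ioi 0)) := by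
    intro n
    rcases Nat.eq_zero_or_pos n with rfl | hn
    · rw [hF0]; exact integrable_zero _ _ _
    · exact Integrable.const_mul ((MellinConvergent.comp_mul_left (by positivity)).2 hA) _
  let G : ℝ → ℝ := fun t => ‖(t : ℂ) ^ (s - 1) • A t‖
  have hG : IntegrableOn G (Set.Ioi 0) := Integrable.norm hA
  have key := hasSum_integral_of_summable_integral_norm hFi ?_
  · have e1 : mellin R s = ∫ t in Set.Ioi (0 : ℝ), ∑' n, F n t := by
      refine setIntegral_congr_fun measurableSet_Ioi fun t ht => ?_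
      have := ((hR t ht).mul_left ((t : ℂ) ^ (s - 1))).tsum_eq
      simp only [F, smul_eq_mul, ← this]
      exact tsum_congr fun n => by ring
    have e2 : (fun n : ℕ => ψ n * ((((n : ℝ) ^ 2 : ℝ) : ℂ) ^ (-s) * mellin A s)) =
        fun n => ∫ t in Set.Ioi (0 : ℝ), F n t := by
      funext n
      rcases Nat.eq_zero_or_pos n with rfl | hn
      · rw [hF0, h0]; simp
      · rw [integral_const_mul, ← smul_eq_mul _ (mellin A s),
          ← mellin_comp_mul_left A s (by positivity)]
        rfl
    rw [e1, e2]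
    exact key
  · refine Summable.of_nonneg_of_le (fun n => integral_nonneg fun u => norm_nonneg _)
      (fun n => ?_) ((Real.summable_nat_pow_inv.2 one_lt_two).mul_right
        (∫ t in Set.Ioi (0 : ℝ), G t))
    rcases Nat.eq_zero_or_pos n with rfl | hn
    · rw [hF0]; simp
    · have hn' : (1 : ℝ) ≤ (n : ℝ) ^ 2 := one_le_pow₀ (by exact_mod_cast hn)
      have h2 := integral_comp_mul_left_Ioi G 0 (b := (n : ℝ) ^ 2) (by positivity)
      rw [mul_zero, smul_eq_mul] at h2
      rw [← h2]
      refine integral_mono_ae (hFi n).norm ?_ ?_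
      · have := (integrableOn_Ioi_comp_mul_left_iff G 0 (a := (n : ℝ) ^ 2) (by positivity)).2
          (by rwa [mul_zero])
        exact this
      · filter_upwards [ae_restrict_mem measurableSet_Ioi] with t (ht : 0 < t)
        simp only [F, G, norm_mul, norm_smul]
        rw [norm_cpow_eq_rpow_re_of_pos ht, norm_cpow_eq_rpow_re_of_pos (by positivity), sub_re,
          one_re]
        refine (mul_le_of_le_one_left (by positivity) (h1 n)).trans ?_
        refine mul_le_mul_of_nonneg_right ?_ (norm_nonneg _)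
        exact Real.rpow_le_rpow ht.le (le_mul_of_one_le_left ht.le hn') (by linarith)

theorem im_pt (u : ℝ) {y : ℝ} (hy : 0 < y) : (pt u y).im = y := by
  rw [← coe_im, coe_pt u hy]; simp

theorem norm_ct_le {f : ℍ → ℂ} {y B : ℝ} (h : ∀ u, ‖f (pt u y)‖ ≤ B) : ‖ct f y‖ ≤ B := by
  have := intervalIntegral.norm_integral_le_of_norm_le_const (a := 0) (b := 1)
    (f := fun u => f (pt u y)) (C := B) fun u _ => h u
  simpa [ct] using this

theorem measurable_ct {f : ℍ → ℂ} (h : Continuous f) : Measurable (ct f) := by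
  have h1 : Measurable fun p : ℝ × ℝ => f (pt p.2 p.1) :=
    (h.measurable.comp measurable_pt).comp measurable_swap
  have h2 := (h1.stronglyMeasurable.integral_prod_right'
    (ν := volume.restrict (Set.Ioc (0 : ℝ) 1))).measurable
  have e : ct f = fun y => ∫ u in Set.Ioc (0 : ℝ) 1, f (pt u y) := by
    funext y
    rw [ct, intervalIntegral.integral_of_le zero_le_one]
  rw [e]
  exact h2

theorem exp_neg_le {x : ℝ} (hx : 0 < x) (k : ℕ) : Real.exp (-x) ≤ k.factorial / x ^ k := by
  have h := Real.pow_div_factorial_le_exp x hx.le k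
  rw [Real.exp_neg, ← one_div, div_le_div_iff₀ (Real.exp_pos _) (by positivity), one_mul]
  rw [div_le_iff₀ (by positivity)] at h
  linarith

theorem decay (hRS : S_RS0) {M : ℕ} {C : ℝ} {G : Q2 → ℍ → ℂ} (hM : 0 < M) (hG : Fam0 M C G)
    {a c : ℝ} (hc : 0 < c) (hb : ∀ w τ, ‖G w τ‖ ≤ a * Real.exp (-(c * τ.im))) (r : ℝ) :
    R0 G =O[atTop] (· ^ r) := by
  obtain ⟨j, hj⟩ := exists_nat_ge (-r)
  have ha : 0 ≤ a := by
    have := (norm_nonneg _).trans (hb 0 UpperHalfPlane.I)
    exact nonneg_of_mul_nonneg_left this (Real.exp_pos _)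
  set J : ℝ := ∫ y in Set.Ioi (0 : ℝ), y ^ (j : ℝ) * Real.exp (-(c * y)) with hJ
  set K : ℝ := (j + 2).factorial * a * J * ((M : ℝ) ^ 2 / π) ^ (j + 2) with hK
  have hS : Summable fun n : ℕ => ((n : ℝ) ^ (2 * (j + 2)))⁻¹ :=
    Real.summable_nat_pow_inv.2 (by omega)
  have main : ∀ t : ℝ, 0 < t →
      ‖R0 G t‖ ≤ K / t ^ (j + 2) * ∑' n : ℕ, ((n : ℝ) ^ (2 * (j + 2)))⁻¹ := by
    intro t ht
    have h1 := ((hRS M C G hM hG).2.2.1 t ht).2
    rw [hasSum_pos_lat hM] at h1
    · refine h1.norm_le_of_bounded (hS.hasSum.mul_left _) fun n => ?_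
      rcases Nat.eq_zero_or_pos n with rfl | hn
      · simp
      · rw [if_pos (by positivity)]
        have hi := (int_rpow_exp (s := j) (by linarith [Nat.cast_nonneg (α := ℝ) j]) hc).const_mul
          ((j + 2).factorial * a * ((M : ℝ) ^ 2 / π) ^ (j + 2) / t ^ (j + 2) *
            ((n : ℝ) ^ (2 * (j + 2)))⁻¹)
        refine (norm_integral_le_of_norm_le hi ?_).trans ?_
        · filter_upwards [ae_restrict_mem measurableSet_Ioi] with y (hy : 0 < y)
          have h2 : ‖ct (G (0, (n : ℚ) / M)) y‖ ≤ a * Real.exp (-(c * y)) :=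
            norm_ct_le fun u => by simpa only [im_pt u hy] using hb _ (pt u y)
          have h3 := exp_neg_le (x := π * t * ((n : ℝ) / M) ^ 2 / y) (by positivity) (j + 2)
          rw [norm_div, norm_mul, norm_real, Real.norm_eq_abs, Real.abs_exp, norm_pow, norm_real,
            Real.norm_eq_abs, abs_of_pos hy, div_le_iff₀ (by positivity)]
          push_cast
          rw [neg_mul, neg_mul, neg_div]
          refine (mul_le_mul h3 h2 (norm_nonneg _) (by positivity)).trans (le_of_eq ?_)
          rw [Real.rpow_natCast]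
          simp only [div_pow, mul_pow]
          field_simp
          ring
        · rw [integral_const_mul, ← hJ, hK]
          exact le_of_eq (by ring)
    · intro x hx
      by_cases h0 : 0 < x
      · refine ⟨h0.le, ?_⟩
        by_contra hne
        have h2 : G (0, x) = 0 := by
          funext τ
          by_contra h3
          exact hne ((isInt_prod _).1 ((hG.lev τ).2 _ h3)).2
        apply hx
        simp [h2, ct]
      · exact absurd (if_neg h0) hx
  refine Asymptotics.IsBigO.of_bound (|K| * ∑' n : ℕ, ((n : ℝ) ^ (2 * (j + 2)))⁻¹) ?_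
  filter_upwards [eventually_ge_atTop (1 : ℝ)] with t ht
  have ht' : 0 < t := by linarith
  refine (main t ht').trans ?_
  have h4 : 0 ≤ ∑' n : ℕ, ((n : ℝ) ^ (2 * (j + 2)))⁻¹ := tsum_nonneg fun n => by positivity
  rw [Real.norm_eq_abs, abs_of_pos (Real.rpow_pos_of_pos ht' _), mul_right_comm]
  refine mul_le_mul_of_nonneg_right ?_ h4
  rw [div_eq_mul_inv, ← Real.rpow_natCast, ← Real.rpow_neg ht'.le]
  refine mul_le_mul (le_abs_self K) ?_ (by positivity) (abs_nonneg _)
  refine Real.rpow_le_rpow_of_exponent_le ht ?_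
  push_cast
  linarith

end NV1P

end

end Pool.Agent.P.MP_b8021b_nt.CM
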