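import Pool.Agent.P.MP_b8021b_nt.CM.Stmts2
import Pool.Agent.P.MP_b8021b_nt.CM.R0

/-! Orders along a filter, the places attached to them, and values of tuples at places. -/

namespace Pool.Agent.P.MP_b8021b_nt.CM

open UpperHalfPlane hiding I
open CongruenceSubgroup WithZero Pool.Agent.P.MP_7ebcb6_ag Filter R0P
open scoped MatrixGroups WithZero IntermediateField Polynomial Topology
open scoped LinearAlgebra.Projectivization

noncomputable section

namespace R1P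

/-- `t` is a local parameter along `l`. -/
structure Par (l : Filter ℍ) (t : ℍ → ℂ) : Prop where
  neBot : l.NeBot
  lim : Tendsto t l (𝓝 0)
  ne : ∀ᶠ τ in l, t τ ≠ 0

/-- `f` has order `n` with respect to the parameter `t`. -/
def Ld (l : Filter ℍ) (t : ℍ → ℂ) (n : ℤ) (f : ℍ → ℂ) : Prop :=
  ∃ c : ℂ, c ≠ 0 ∧ Tendsto (fun τ => f τ * t τ ^ (-n)) l (𝓝 c)

variable {l : Filter ℍ} {t f g : ℍ → ℂ} {m n k : ℤ}

theorem Ld.zero (hp : Par l t) (h : Ld l t m f) (hn : n < m) :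
    Tendsto (fun τ => f τ * t τ ^ (-n)) l (𝓝 0) := by
  obtain ⟨c, -, hc⟩ := h
  obtain ⟨j, hj⟩ : ∃ j : ℕ, m = n + (j + 1 : ℕ) := ⟨(m - n - 1).toNat, by omega⟩
  have h1 := hc.mul (hp.lim.pow (j + 1))
  rw [zero_pow j.succ_ne_zero, mul_zero] at h1
  refine h1.congr' (hp.ne.mono fun τ hτ => ?_)
  simp only [mul_assoc]
  rw [← zpow_natCast, ← zpow_add₀ hτ, hj]
  congr 2
  ring

theorem Ld.conv (hp : Par l t) (h : Ld l t m f) (hn : n ≤ m) :
    ∃ c, Tendsto (fun τ => f τ * t τ ^ (-n)) l (𝓝 c) := by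
  rcases hn.eq_or_lt with rfl | hn
  · exact ⟨_, h.choose_spec.2⟩
  · exact ⟨0, h.zero hp hn⟩

theorem Ld.not_zero (hp : Par l t) (h : Ld l t m f)
    (h0 : Tendsto (fun τ => f τ * t τ ^ (-m)) l (𝓝 0)) : False := by
  obtain ⟨c, hc0, hc⟩ := h
  have := hp.neBot
  exact hc0 (tendsto_nhds_unique hc h0)

theorem Ld.unique (hp : Par l t) (h : Ld l t m f) (h' : Ld l t n f) : m = n := by
  rcases lt_trichotomy m n with e | e | e
  · exact (h.not_zero hp (h'.zero hp e)).elim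
  · exact e
  · exact (h'.not_zero hp (h.zero hp e)).elim

theorem Ld.mul (hp : Par l t) (h : Ld l t m f) (h' : Ld l t n g) : Ld l t (m + n) (f * g) := by
  obtain ⟨c, hc0, hc⟩ := h
  obtain ⟨d, hd0, hd⟩ := h'
  refine ⟨c * d, mul_ne_zero hc0 hd0, (hc.mul hd).congr' (hp.ne.mono fun τ hτ => ?_)⟩
  simp only [Pi.mul_apply]
  rw [neg_add, zpow_add₀ hτ]
  ring

theorem Ld.add (hp : Par l t) (h : Ld l t m f) (h' : Ld l t n g) (h2 : Ld l t k (f + g)) :
    min m n ≤ k := by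
  by_contra e
  rw [not_le, lt_min_iff] at e
  have h3 := (h.zero hp e.1).add (h'.zero hp e.2)
  rw [add_zero] at h3
  refine h2.not_zero hp (h3.congr fun τ => ?_)
  rw [Pi.add_apply, add_mul]

theorem ld_const (l : Filter ℍ) (t : ℍ → ℂ) {c : ℂ} (hc : c ≠ 0) : Ld l t 0 fun _ => c :=
  ⟨c, hc, by simpa using tendsto_const_nhds⟩

theorem Ld.lt (hp : Par l t) (h : Ld l t m f) (h' : Ld l t n g) {u : ℍ → ℂ} {a : ℂ} (ha : a ≠ 0)
    (hg : Tendsto (fun τ => u τ * g τ) l (𝓝 a)) (hf : Tendsto (fun τ => u τ * f τ) l (𝓝 0)) :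
    n < m := by
  by_contra e
  obtain ⟨d, hd⟩ := h'.conv hp (not_lt.1 e)
  obtain ⟨c, hc0, hc⟩ := h
  have h1 := hf.mul hd
  rw [zero_mul] at h1
  have := hp.neBot
  refine mul_ne_zero ha hc0 (tendsto_nhds_unique (hg.mul hc) (h1.congr fun τ => ?_))
  ring

/-! ### the two kinds of parameters -/

theorem par_pt (τ : ℍ) : Par (𝓝[≠] τ) fun σ : ℍ => (σ : ℂ) - τ := by
  refine ⟨inferInstance, ?_, ?_⟩
  · have h2 : Continuous fun σ : ℍ => (σ : ℂ) - τ := by fun_prop
    simpa using (h2.tendsto τ).mono_left nhdsWithin_le_nhds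
  · filter_upwards [self_mem_nhdsWithin] with σ hσ
    exact sub_ne_zero.2 fun e => hσ (UpperHalfPlane.ext e)

theorem ld_pt (h : Hol f) (h0 : f ≠ 0) (τ : ℍ) :
    Ld (𝓝[≠] τ) (fun σ : ℍ => (σ : ℂ) - τ) (ordAt f τ) f := by
  obtain ⟨G, hG, hG0, e⟩ := (h.analyticAt τ).analyticOrderAt_ne_top.1 (h.ne_top h0 τ)
  have h2 : Tendsto (fun σ : ℍ => G σ) (𝓝 τ) (𝓝 (G τ)) :=
    hG.continuousAt.tendsto.comp (continuous_coe.tendsto τ)
  refine ⟨G τ, hG0, (h2.mono_left nhdsWithin_le_nhds).congr' ?_⟩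
  filter_upwards [(HolP.ev_iff.2 e).filter_mono nhdsWithin_le_nhds, (par_pt τ).ne] with σ hσ hne
  have h4 : f σ = ((σ : ℂ) - τ) ^ ordAt f τ * G σ := by
    simpa only [Function.comp_apply, ofComplex_apply, smul_eq_mul, ordAt] using hσ
  rw [h4, zpow_neg, zpow_natCast]
  field_simp

/-- The parameter at the cusp. -/
def tq (M : ℕ) (τ : ℍ) : ℂ := e (τ / M)

theorem tq_zpow (M : ℕ) (n : ℤ) (τ : ℍ) : tq M τ ^ (-n) = e (-(n * τ) / M) := by
  rw [tq, e, e, ← Complex.exp_int_mul]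
  congr 1
  push_cast
  ring

theorem lead_iff {M : ℕ} : Lead M n f ↔ Ld atImInfty (tq M) n f := by
  simp only [Lead, Ld, tq_zpow]

theorem par_inf {M : ℕ} (hM : 0 < M) : Par atImInfty (tq M) := by
  refine ⟨inferInstance, ?_, Eventually.of_forall fun τ => e_ne_zero _⟩
  have hM' : (0 : ℝ) < M := by exact_mod_cast hM
  rw [tendsto_zero_iff_norm_tendsto_zero]
  have h1 : Tendsto (fun τ : ℍ => τ.im) atImInfty atTop := tendsto_comap
  have h2 : Tendsto (fun τ : ℍ => -(2 * Real.pi / M * τ.im)) atImInfty atBot :=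
    tendsto_neg_atTop_atBot.comp (h1.const_mul_atTop (by positivity))
  refine (Real.tendsto_exp_atBot.comp h2).congr fun τ => ?_
  rw [Function.comp_apply, tq, norm_e, Complex.div_natCast_im, coe_im]
  congr 1
  ring

theorem ld_jj (hJ : S_J) {M : ℕ} (hM : 0 < M) : Ld atImInfty (tq M) (-M) jj := by
  have h1 := tendsto_leading one_pos inO_jj.1.1 inO_jj.2.per (a := -1) hJ.2.2.2.1
  rw [hJ.2.2.2.2.1] at h1
  refine ⟨1, one_ne_zero, h1.congr fun τ => ?_⟩
  have hM' : (M : ℂ) ≠ 0 := by exact_mod_cast hM.ne'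
  rw [tq_zpow]
  congr 2
  push_cast
  field_simp

/-! ### values at places -/

section Val

variable {K : Type} [Field K] [Algebra ℂ K] {N : ℕ} {v : Valuation K ℤᵐ⁰} {η : Fin (N + 1) → K}

theorem res_mul (hv : IsPlace v) {x y : K} {a b : ℂ} (ha : v (x - algebraMap ℂ K a) < 1)
    (hb : v (y - algebraMap ℂ K b) < 1) : v (x * y - algebraMap ℂ K (a * b)) < 1 := by
  have e : x * y - algebraMap ℂ K (a * b) =
      (x - algebraMap ℂ K a) * y + (y - algebraMap ℂ K b) * algebraMap ℂ K a := by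
    rw [map_mul]
    ring
  rw [e]
  refine Valuation.map_add_lt v ?_ ?_ <;> rw [map_mul]
  · exact mul_lt_one_of_lt_of_le ha (le_one_of_res hv hb)
  · exact mul_lt_one_of_lt_of_le hb (hv.const_le_one a)

theorem value_unique (hv : IsPlace v) {x y : ℙ ℂ (Fin (N + 1) → ℂ)} (hx : IsValueAt v η x)
    (hy : IsValueAt v η y) : x = y := by
  obtain ⟨c, hc⟩ := hx
  obtain ⟨d, hd⟩ := hy
  obtain ⟨i, hi⟩ := Function.ne_iff.1 y.rep_nonzero
  have key : ∀ j, x.rep i * y.rep j = x.rep j * y.rep i := fun j => by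
    refine res_unique hv (res_mul hv (hc i) (hd j)) ?_
    rw [show c * η i * (d * η j) = c * η j * (d * η i) by ring]
    exact res_mul hv (hc j) (hd i)
  rw [← x.mk_rep, ← y.mk_rep, Projectivization.mk_eq_mk_iff']
  refine ⟨x.rep i / y.rep i, funext fun j => ?_⟩
  rw [Pi.smul_apply, smul_eq_mul, div_mul_eq_mul_div, key, mul_div_cancel_right₀ _ hi]

theorem value_pull (σ : K ≃ₐ[ℂ] K) {x : ℙ ℂ (Fin (N + 1) → ℂ)}
    (hx : IsValueAt v (fun i => σ (η i)) x) : IsValueAt (pull v σ) η x := by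
  obtain ⟨c, hc⟩ := hx
  refine ⟨σ.symm c, fun i => ?_⟩
  rw [pull_apply, map_sub, map_mul, AlgEquiv.apply_symm_apply, AlgEquiv.commutes]
  exact hc i

omit [Algebra ℂ K] in
theorem lt_of_ord {x y : K} (hx : x ≠ 0) (hy : y ≠ 0) (h : ord v y < ord v x) : v (x / y) < 1 := by
  have h1 : v x ≠ 0 := by simpa using hx
  have h2 : v y ≠ 0 := by simpa using hy
  rw [map_div₀, ← exp_log h1, ← exp_log h2, ← exp_sub, ← exp_zero, exp_lt_exp]
  simp only [ord] at h
  omega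

theorem adjoin_inv (J : K) : ℂ⟮J⁻¹⟯ = ℂ⟮J⟯ := by
  apply le_antisymm <;> rw [IntermediateField.adjoin_simple_le_iff]
  · exact inv_mem (IntermediateField.mem_adjoin_simple_self ℂ J)
  · have := inv_mem (IntermediateField.mem_adjoin_simple_self ℂ J⁻¹)
    rwa [inv_inv] at this

end Val

/-! ### places attached to parameters -/

variable {M : ℕ}

/-- The order along `l` is `c` times the order at the place `v`. -/
def Lnk (M : ℕ) (l : Filter ℍ) (t : ℍ → ℂ) (v : Valuation (KK M) ℤᵐ⁰) (c : ℤ) : Prop :=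
  IsPlace v ∧ 0 < c ∧ ∀ a : OO M, a ≠ 0 → Ld l t (c * ord v (algebraMap _ (KK M) a)) a.1

theorem lnk_pt {τ : ℍ} {v : Valuation (KK M) ℤᵐ⁰} {c : ℤ} (h : Lk M τ v c) :
    Lnk M (𝓝[≠] τ) (fun σ : ℍ => (σ : ℂ) - τ) v c :=
  ⟨h.1, h.2.1, fun a ha => h.2.2 a ha ▸ ld_pt (OO.hol a) (OO.ne ha) τ⟩

theorem Lnk.value (hp : Par l t) {v : Valuation (KK M) ℤᵐ⁰} {c : ℤ} (h : Lnk M l t v c) {N : ℕ}
    (xO : Fin (N + 1) → OO M) {x : ℙ ℂ (Fin (N + 1) → ℂ)} (hx : IsLimit (fun i => (xO i).1) l x) :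
    IsValueAt v (fun i => algebraMap _ (KK M) (xO i)) x := by
  obtain ⟨u, hu⟩ := hx
  have hu' : ∀ i, Tendsto (fun τ => u τ * (xO i).1 τ) l (𝓝 (x.rep i)) := fun i =>
    tendsto_pi_nhds.1 hu i
  obtain ⟨i, hi⟩ := Function.ne_iff.1 x.rep_nonzero
  have hi0 : xO i ≠ 0 := fun e => by
    have h1 := hu' i
    have := hp.neBot
    rw [e] at h1
    refine hi (tendsto_nhds_unique h1 ?_)
    simp
  have e0 := map_ne hi0
  refine ⟨algebraMap ℂ (KK M) (x.rep i) / algebraMap _ (KK M) (xO i), fun j => ?_⟩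
  set b : OO M := x.rep i • xO j - x.rep j • xO i with hb
  have e1 : algebraMap ℂ (KK M) (x.rep i) / algebraMap _ (KK M) (xO i) *
      algebraMap _ (KK M) (xO j) - algebraMap ℂ (KK M) (x.rep j) =
      algebraMap _ (KK M) b / algebraMap _ (KK M) (xO i) := by
    rw [hb, map_sub, Algebra.smul_def, Algebra.smul_def, map_mul, map_mul,
      ← IsScalarTower.algebraMap_apply, ← IsScalarTower.algebraMap_apply]
    field_simp
  rw [e1]
  by_cases hb0 : b = 0
  · simp [hb0]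
  refine lt_of_ord (map_ne hb0) e0 (lt_of_mul_lt_mul_left ?_ h.2.1.le)
  refine (h.2.2 b hb0).lt hp (h.2.2 _ hi0) hi (hu' i) ?_
  have h2 := ((hu' j).const_mul (x.rep i)).sub ((hu' i).const_mul (x.rep j))
  rw [mul_comm (x.rep i), sub_self] at h2
  refine h2.congr fun τ => ?_
  change _ = u τ * (x.rep i * (xO j).1 τ - x.rep j * (xO i).1 τ)
  ring

open Classical in
/-- The order along a filter as a valuation. -/
def V1 (hp : Par l t) (o : OO M → ℤ) (ho : ∀ a : OO M, a ≠ 0 → Ld l t (o a) a.1) :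
    Valuation (OO M) ℤᵐ⁰ where
  toFun a := if a = 0 then 0 else exp (-o a)
  map_zero' := if_pos rfl
  map_one' := by
    rw [if_neg one_ne_zero, (ho 1 one_ne_zero).unique hp (ld_const l t one_ne_zero)]
    simp
  map_mul' a b := by
    by_cases ha : a = 0
    · simp [ha]
    by_cases hb : b = 0
    · simp [hb]
    rw [if_neg (mul_ne_zero ha hb), if_neg ha, if_neg hb, ← exp_add,
      (ho _ (mul_ne_zero ha hb)).unique hp ((ho a ha).mul hp (ho b hb)), neg_add]
  map_add_le_max' a b := by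
    by_cases hab : a + b = 0
    · simp [hab]
    by_cases ha : a = 0
    · simp [ha]
    by_cases hb : b = 0
    · simp [hb]
    simp only [if_neg hab, if_neg ha, if_neg hb]
    have := (ho a ha).add hp (ho b hb) (ho _ hab)
    rw [le_max_iff, exp_le_exp, exp_le_exp]
    omega

theorem exists_lnk (hC : IsCurveField (KK M)) (hp : Par l t)
    (hex : ∀ a : OO M, a ≠ 0 → ∃ n, Ld l t n a.1) {b : OO M} (hb : b ≠ 0) (hm : m < 0)
    (hbm : Ld l t m b.1) : ∃ v c, Lnk M l t v c := by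
  classical
  choose! o ho using hex
  have hV1 : ∀ a : OO M, a ≠ 0 → V1 hp o ho a = exp (-o a) := fun a ha => if_neg ha
  have hS : nonZeroDivisors (OO M) ≤ (V1 hp o ho).supp.primeCompl := fun a ha h => by
    rw [SetLike.mem_coe, Valuation.mem_supp_iff, hV1 a (nonZeroDivisors.ne_zero ha)] at h
    exact exp_ne_zero h
  set V := (V1 hp o ho).extendToLocalization hS (KK M) with hV
  have hVa : ∀ a : OO M, V (algebraMap _ (KK M) a) = V1 hp o ho a := fun a =>
    (V1 hp o ho).extendToLocalization_apply_map_apply hS (KK M) a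
  obtain ⟨w, hw, hwV⟩ := hC.exists_place V.valuationSubring
    (fun c => by
      rw [Valuation.mem_valuationSubring_iff, IsScalarTower.algebraMap_apply ℂ (OO M) (KK M), hVa]
      by_cases hc : c = 0
      · simp [hc]
      have h0 : algebraMap ℂ (OO M) c ≠ 0 := by simpa using hc
      rw [hV1 _ h0, (ho _ h0).unique hp (ld_const l t hc)]
      simp)
    (fun htop => by
      have h1 : algebraMap _ (KK M) b ∈ V.valuationSubring := by
        rw [htop]; trivial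
      rw [Valuation.mem_valuationSubring_iff, hVa, hV1 b hb, (ho b hb).unique hp hbm, ← exp_zero,
        exp_le_exp] at h1
      omega)
  obtain ⟨c, hc, h⟩ := exists_mult hw ((Valuation.isEquiv_iff_valuationSubring _ _).2 hwV)
  refine ⟨w, c, hw, hc, fun a ha => ?_⟩
  rw [← h _ (map_ne ha), ord, hVa, hV1 a ha, log_exp, neg_neg]
  exact ho a ha

theorem sum_reps {R : Finset SL} (hR : CosetReps M R) [Fintype (SL ⧸ Gamma M)]
    (G : SL ⧸ Gamma M → ℂ) : ∑ γ ∈ R, G (γ⁻¹ : SL) = ∑ q, G q := by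
  refine Finset.sum_bij (fun γ _ => ((γ⁻¹ : SL) : SL ⧸ Gamma M)) (fun _ _ => Finset.mem_univ _)
    (fun a ha b hb e => ?_) (fun q _ => ?_) fun _ _ => rfl
  · rw [QuotientGroup.eq, inv_inv] at e
    exact (hR a).unique ⟨ha, by simp⟩ ⟨hb, e⟩
  · obtain ⟨γ, rfl⟩ := QuotientGroup.mk_surjective q
    obtain ⟨r, ⟨hr, e⟩, -⟩ := hR γ⁻¹
    exact ⟨r, hr, (QuotientGroup.eq.2 e).symm⟩

end R1P

end

end Pool.Agent.P.MP_b8021b_nt.CM
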