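import Pool.Agent.P.MP_b8021b_nt.CM.OBas
import Pool.Agent.P.MP_b8021b_nt.CM.R0
import Pool.Agent.P.MP_b8021b_nt.CM.R1a

/-! Level one, rational curves, and rational cusps. -/

namespace Pool.Agent.P.MP_b8021b_nt.CM.O

open Complex hiding Gamma
open UpperHalfPlane hiding I
open CongruenceSubgroup Filter
open scoped Real MatrixGroups Topology

noncomputable section

theorem jj_inv (γ : SL) (τ : ℍ) : jj (γ • τ) = jj τ := inO_jj.2 γ (by simp [Gamma_one_top]) τ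

theorem jj_sub_ne (hJ : S_J) (c : ℂ) : (fun σ => jj σ - c) ≠ 0 := fun e => by
  obtain ⟨τ, hτ⟩ := hJ.2.1 (c + 1)
  have := congrFun e τ
  simp [hτ] at this

theorem oneS (hJ : S_J) : S_One := by
  classical
  intro u hu hl τ0
  have hO : InO 1 fun σ => jj σ - jj τ0 := inO_jj.sub (inO_const 1 _)
  have h1 := hu.2 1 one_pos _ hO (jj_sub_ne hJ _)
  have h2 := R0P.mean_one hJ (fun c => if c = jj τ0 then u τ0 / 2 else 0) {jj τ0}
    fun c hc => Finset.mem_singleton.2 (by by_contra h; exact hc (if_neg h))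
  rw [Finset.sum_singleton, if_pos rfl] at h2
  have e : (fun τ => (ordAt (fun σ => jj σ - jj τ0) τ : ℂ) * u τ) =
      fun τ => (R0P.stab τ : ℂ) * if jj τ = jj τ0 then u τ0 / 2 else 0 := by
    funext τ
    by_cases h : jj τ = jj τ0
    · obtain ⟨γ, hγ⟩ := (hJ.1 _ _).1 h
      have h3 : u τ0 = u τ := by rw [← hγ, hl γ (by simp [Gamma_one_top])]
      rw [if_pos h, ← h, R0P.stab, ← hJ.2.2.1 τ, h3]
      push_cast
      ring
    · rw [if_neg h, (hO.1.1.ord_eq_zero_iff (jj_sub_ne hJ _) τ).2 (sub_ne_zero.2 h)]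
      simp
  rw [e, h2] at h1
  simpa using h1

theorem punct_SL (γ : SL) (τ : ℍ) : Tendsto (fun σ : ℍ => γ • σ) (𝓝[≠] τ) (𝓝[≠] (γ • τ)) :=
  tendsto_nhdsWithin_iff.2 ⟨((continuous_SL γ).tendsto τ).mono_left nhdsWithin_le_nhds,
    eventually_mem_nhdsWithin.mono fun _ h e => h (MulAction.injective γ e)⟩

theorem punct_jj (hJ : S_J) (τ : ℍ) : Tendsto jj (𝓝[≠] τ) (𝓝[≠] (jj τ)) := by
  refine tendsto_nhdsWithin_iff.2
    ⟨(inO_jj.1.1.continuous.tendsto τ).mono_left nhdsWithin_le_nhds, ?_⟩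
  by_contra h
  refine jj_sub_ne hJ (jj τ) ((inO_jj.1.1.sub (hol_const _)).eq_zero_of_frequently (τ := τ) ?_)
  refine (not_eventually.1 h).mono fun σ hσ => ?_
  simpa [sub_eq_zero] using hσ

theorem inf_jj (hJ : S_J) : Tendsto jj atImInfty (Bornology.cobounded ℂ) := by
  obtain ⟨c, hc, h⟩ := R1P.ld_jj hJ one_pos
  have hp := R1P.par_inf one_pos
  simp only [Nat.cast_one, neg_neg, zpow_one] at h
  have h0 : ∀ᶠ τ in atImInfty, jj τ ≠ 0 :=
    (h.eventually_ne hc).mono fun τ hτ => left_ne_zero_of_mul hτ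
  have h1 : Tendsto (fun τ => (jj τ)⁻¹) atImInfty (𝓝[≠] 0) := by
    refine tendsto_nhdsWithin_iff.2 ⟨?_, h0.mono fun τ hτ => inv_ne_zero hτ⟩
    have h2 := hp.lim.mul (h.inv₀ hc)
    rw [zero_mul] at h2
    refine h2.congr' (hp.ne.mono fun τ hτ => ?_)
    simp only [mul_inv]
    rw [mul_left_comm, mul_inv_cancel₀ hτ, mul_one]
  simpa only [Function.comp_def, inv_inv] using tendsto_inv₀_nhdsNE_zero.comp h1

theorem inG_poly (P : Polynomial ℂ) : InG fun τ => P.eval (jj τ) := by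
  induction P using Polynomial.induction_on' with
  | add p q hp hq => simp only [Polynomial.eval_add]; exact hp.add hq
  | monomial n a => simp only [Polynomial.eval_monomial]; exact (inO_jj.1.pow n).smul a

theorem p1S (hJ : S_J) (h1 : S_One) : S_P1 := by
  intro n C lam hC hV P hP s v hv
  let Φ : ℂ → Vec n := fun u i => (P i).eval u
  have hM : MT C 1 0 fun τ => Φ (jj τ) := by
    refine ⟨fun i => inG_poly _, fun γ _ τ => by rw [jj_inv, zpow_zero, one_smul], fun e => ?_,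
      fun τ => hP _⟩
    refine hv.ne (funext fun t => ?_)
    obtain ⟨τ, rfl⟩ := hJ.2.1 t
    exact congrFun e τ
  have h2 := h1 _ (hV 1 0 _ one_pos hM).1 fun γ _ τ => by
    have := lc_comp hC (lim_pt (fun i => (hM.inG i).1) hM.ne (γ • τ)) (punct_SL γ τ)
    simp only [jj_inv] at this
    simp only [this]
  have h3 : ∀ t w, Lim Φ (𝓝[≠] t) w → lam w = lc lam (fun τ => Φ (jj τ)) atImInfty := by
    intro t w hw
    obtain ⟨τ, rfl⟩ := hJ.2.1 t
    rw [← (hw.comp (punct_jj hJ τ)).lc_eq hC]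
    exact sub_eq_zero.1 (h2 τ)
  exact ⟨fun t w hw => (h3 s v hv).trans (h3 t w hw).symm,
    fun w hw => (h3 s v hv).trans ((hw.comp (inf_jj hJ)).lc_eq hC)⟩

theorem triS : S_Tri := by
  intro Y hY
  have hd := hY
  rw [Matrix.det_fin_two] at hd
  obtain ⟨γ, g, h0, h1⟩ : ∃ (γ : SL) (g : ℚ), Y 0 0 = g * (γ 0 0 : ℤ) ∧ Y 1 0 = g * (γ 1 0 : ℤ) := by
    by_cases h : Y 1 0 = 0
    · exact ⟨1, Y 0 0, by simp, by simp [h]⟩
    · obtain ⟨γ, e0, e1⟩ := exists_SL_col (Rat.isCoprime_num_den (Y 0 0 / Y 1 0))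
      have h2 : ((Y 0 0 / Y 1 0).den : ℚ) ≠ 0 := by exact_mod_cast (Y 0 0 / Y 1 0).den_ne_zero
      refine ⟨γ, Y 1 0 / (Y 0 0 / Y 1 0).den, ?_, ?_⟩
      · rw [e0, div_mul_comm, Rat.num_div_den, div_mul_cancel₀ _ h]
      · rw [e1, Int.cast_natCast, div_mul_cancel₀ _ h2]
  have hγ : ((γ 0 0 : ℤ) : ℚ) * (γ 1 1 : ℤ) - (γ 0 1 : ℤ) * (γ 1 0 : ℤ) = 1 := by
    have := γ.det_coe
    rw [Matrix.det_fin_two] at this
    exact_mod_cast this
  obtain ⟨d, hdd⟩ : ∃ d, d = (γ 0 0 : ℤ) * Y 1 1 - (γ 1 0 : ℤ) * Y 0 1 := ⟨_, rfl⟩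
  have h2 : 0 < g * d := by
    rw [h0, h1] at hd
    rw [hdd]
    linarith
  have hd0 : d ≠ 0 := right_ne_zero_of_mul h2.ne'
  have h3 : 0 < g / d := by
    rw [← mul_div_mul_right _ _ hd0]
    exact div_pos h2 (mul_self_pos.2 hd0)
  refine ⟨γ, g / d, ((γ 1 1 : ℤ) * Y 0 1 - (γ 0 1 : ℤ) * Y 1 1) / d, h3, fun τ => ?_⟩
  rw [← act_SL, ← act_mul (by rw [det_castZ_SL]; exact one_ne_zero) (by simpa using h3.ne'),
    ← act_smul hd0 (_ * _)]
  congr 1
  ext i j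
  fin_cases i <;> fin_cases j <;>
    simp [Matrix.mul_apply, Fin.sum_univ_two, castZ_apply] <;> field_simp
  · linear_combination h0
  · linear_combination (-Y 0 1) * hγ - ((γ 0 1 : ℤ) : ℚ) * hdd
  · linear_combination h1
  · linear_combination (-Y 1 1) * hγ - ((γ 1 1 : ℤ) : ℚ) * hdd

theorem upS : S_Up := by
  intro α β M hα hM
  have hU : (0 : ℚ) < (!![α, β; 0, 1] : M2).det := by simpa using hα
  obtain ⟨N, hN, hd, h⟩ := exists_Gam_conj (toG !![α, β; 0, 1]) hM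
  refine ⟨N, hN, hd, fun δ hδ => ?_⟩
  obtain ⟨δ', hδ', e⟩ := h _ ⟨δ, hδ, rfl⟩
  rw [eq_mul_inv_iff_mul_eq] at e
  refine ⟨δ', hδ', fun τ => ⟨?_, ?_⟩⟩
  · rw [act, ← actH_iota, ← actH_iota, ← Equiv.Perm.mul_apply, ← map_mul, ← e, map_mul]
    rfl
  · have e1 := congrArg Units.val e
    rw [Units.val_mul, Units.val_mul, toG_val hU.ne', iota_val, iota_val] at e1
    have a0 := congrFun (congrFun e1 1) 0
    have a1 := congrFun (congrFun e1 1) 1
    simp [Matrix.mul_apply, Fin.sum_univ_two, castZ_apply] at a0 a1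
    have b0 := congrArg (Rat.cast : ℚ → ℂ) a0
    have b1 := congrArg (Rat.cast : ℚ → ℂ) a1
    push_cast at b0 b1
    rw [jf, jf, coe_act hU]
    simp
    linear_combination (τ : ℂ) * b0 + b1

theorem mdqS (hT : S_Tri) : S_MDQ := by
  intro n C lam hC M k Φ hM hΦ Y hY
  obtain ⟨γ, α, β, hα, e⟩ := hT Y hY
  have hU : (0 : ℚ) < (!![α, β; 0, 1] : M2).det := by simpa using hα
  have h1 : ∃ v, Lim (fun τ : ℍ => Φ (γ • τ)) atImInfty v := by
    refine (lim_inf (Φ := fun τ => jf γ τ ^ (-k) • Φ (γ • τ)) hM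
      (fun i => (inG_jf_zpow γ (-k)).mul ((hΦ.inG i).smulSL γ)) (fun τ => ?_) fun e0 => ?_).imp
      fun v hv => hv.of_smul (Eventually.of_forall fun τ =>
        ⟨jf γ τ ^ k, zpow_ne_zero _ (jf_ne_zero _ _), ?_⟩)
    rotate_left 2
    · rw [smul_smul, ← zpow_add₀ (jf_ne_zero _ _), add_neg_cancel, zpow_zero, one_smul]
    · obtain ⟨δ, hδ, h2⟩ := HolP.conj_mem (HolP.T_mem M) γ
      have h3 := jf_mul γ (ModularGroup.T ^ (M : ℤ)) τ
      rw [h2, jf_mul, jf_T_zpow, mul_one] at h3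
      rw [← HolP.T_smul, ← mul_smul, h2, mul_smul, hΦ.law δ hδ, ← h3, smul_smul, mul_zpow,
        mul_right_comm, ← zpow_add₀ (jf_ne_zero _ _), neg_add_cancel, zpow_zero, one_mul]
    · refine hΦ.ne (funext fun τ => ?_)
      have := congrFun e0 (γ⁻¹ • τ)
      rw [smul_inv_smul] at this
      exact (smul_eq_zero.1 this).resolve_left (zpow_ne_zero _ (jf_ne_zero _ _))
  have h2 : Tendsto (act !![α, β; 0, 1]) atImInfty atImInfty := by
    have h3 : Tendsto (fun τ : ℍ => τ.im) atImInfty atTop := tendsto_comap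
    have h4 : (0 : ℝ) < α := by exact_mod_cast hα
    refine tendsto_comap_iff.2 ((h3.const_mul_atTop h4).congr fun τ => ?_)
    rw [Function.comp_apply, im_act hU]
    simp
  simp only [e]
  exact (lc_comp hC.cone h1 h2).trans ((hC.cv M k Φ hM hΦ).2 γ)

end

end Pool.Agent.P.MP_b8021b_nt.CM.O
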