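import Pool.Agent.P.MP_b8021b_nt.CM.OBas
import Pool.Agent.P.MP_b8021b_nt.CM.Proj

/-! Principal divisors on modular curves that map to a projective variety. -/

namespace Pool.Agent.P.MP_b8021b_nt.CM.O

open Complex hiding Gamma
open UpperHalfPlane hiding I
open CongruenceSubgroup Filter Pool.Agent.P.MP_7ebcb6_ag
open scoped Real MatrixGroups Topology LinearAlgebra.Projectivization

noncomputable section

namespace OCVP

variable {n : ℕ}

/-- a nowhere vanishing form of weight `-12 k` and level one -/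
theorem exists_d (k : ℤ) : ∃ d : ℍ → ℂ, InG d ∧ (∀ τ, d τ ≠ 0) ∧
    ∀ (γ : SL) τ, d (γ • τ) = jf γ τ ^ (-(12 * k)) * d τ := by
  have hl : ∀ (γ : SL) τ, ModularForm.discriminant (γ • τ) =
      jf γ τ ^ (12 : ℤ) * ModularForm.discriminant τ := fun γ τ => by
    have e := congrFun (inG_Delta.2 γ) τ
    simp only [sl] at e
    rw [← e, mul_left_comm, ← zpow_add₀ (jf_ne_zero γ τ)]
    simp
  refine ⟨fun τ => ModularForm.discriminant τ ^ (-k), ?_,
    fun τ => zpow_ne_zero _ (ModularForm.discriminant_ne_zero τ), fun γ τ => ?_⟩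
  · rcases Int.eq_nat_or_neg k with ⟨m, rfl | rfl⟩
    · convert inG_Delta_inv.pow m using 1
      ext τ; simp
    · convert inG_Delta.1.pow m using 1
      ext τ; simp
  · simp only [hl, mul_zpow, ← zpow_mul, mul_neg]

/-- a multiplier that turns a tuple of forms into a tuple of modular functions -/
theorem exists_mult {C : Set (Vec n)} {M : ℕ} {k : ℤ} {Φ : ℍ → Vec n} (h : MT C M k Φ) :
    ∃ (a : ℍ → ℂ) (i0 : Fin (n + 1)), (∀ i, InO M fun τ => a τ * Φ τ i) ∧
      (fun τ => a τ * Φ τ i0) ≠ 0 := by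
  obtain ⟨i0, h0⟩ := Function.ne_iff.1 (swap_ne h.ne)
  obtain ⟨d, hd, hd0, hdl⟩ := exists_d k
  have hlaw : ∀ i, ∀ γ ∈ Gamma M, ∀ τ, Φ (γ • τ) i = jf γ τ ^ k * Φ τ i := fun i γ hγ τ =>
    congrFun (h.law γ hγ τ) i
  refine ⟨fun τ => Φ τ i0 ^ 11 * d τ, i0, fun i =>
    ⟨(((h.inG i0).pow 11).mul hd).mul (h.inG i), fun γ hγ τ => ?_⟩, fun e => h0 ?_⟩
  · have hj := jf_ne_zero γ τ
    simp only [hlaw _ γ hγ, hdl, mul_pow, ← zpow_natCast (jf γ τ ^ k), ← zpow_mul]
    have : jf γ τ ^ (k * (11 : ℕ)) * jf γ τ ^ (-(12 * k)) * jf γ τ ^ k = 1 := by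
      rw [← zpow_add₀ hj, ← zpow_add₀ hj]
      convert zpow_zero _ using 2
      push_cast; ring
    linear_combination (Φ τ i0 ^ 11 * d τ * Φ τ i) * this
  · have e1 : (fun τ => Φ τ i0) ^ 12 * d = 0 := funext fun τ => by
      have := congrFun e τ
      simp only [Pi.zero_apply] at this
      simp only [Pi.mul_apply, Pi.pow_apply, Pi.zero_apply]
      linear_combination this
    rcases ((h.inG i0).1.pow 12).mul_eq_zero hd.1 e1 with e2 | e2
    · exact funext fun τ => pow_eq_zero_iff (n := 12) (by norm_num) |>.1 (congrFun e2 τ)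
    · exact absurd (congrFun e2 UpperHalfPlane.I) (hd0 _)

/-- the projection to the first factor preserves rational equivalence -/
theorem kill_fst {X : Set (ℙ ℂ (Vec n))} {f : (X →₀ ℤ) →+ ℂ} (hf : ∀ D ∈ ratTrivial X, f D = 0) :
    ∀ D ∈ ratTrivial₂ X X, f.comp (Finsupp.mapDomain.addMonoidHom Prod.fst) D = 0 := by
  intro D hD
  have : ratTrivial₂ X X ≤ (f.comp (Finsupp.mapDomain.addMonoidHom Prod.fst)).ker := by
    refine (AddSubgroup.closure_le _).2 ?_
    rintro D ⟨K, _, _, hK, η, η', φ, g, S, h1, h2, h3, h4, rfl⟩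
    refine hf _ (AddSubgroup.subset_closure ⟨K, _, _, hK, η, fun v => (φ v).1, g, S,
      fun v hv => (h1 v hv).1, h2, h3, h4, ?_⟩)
    rw [map_sum]
    exact Finset.sum_congr rfl fun v _ => Finsupp.mapDomain_single
  exact this hD

end OCVP

open OCVP ProjP in
theorem cvS (hR : S_R1) (hU : S_Unit) (hD : S_MD) : S_CV := by
  intro n Z f hf M k Φ hM h
  have hC := cone_cone Z f
  obtain ⟨a, i0, hξ, h0⟩ := exists_mult h
  have ev1 : ∀ τ : ℍ, ∀ᶠ σ in 𝓝[≠] τ, a σ ≠ 0 := fun τ => by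
    by_contra hc
    refine h0 ((hξ i0).1.1.eq_zero_of_frequently (τ := τ) ?_)
    exact (not_eventually.1 hc).mono fun σ e => by simp only [not_not.1 e, zero_mul]
  have ne2 : ∀ γ : SL, (fun τ : ℍ => a (γ • τ) * Φ (γ • τ) i0) ≠ 0 := fun γ e =>
    h0 (funext fun τ => by simpa using congrFun e (γ⁻¹ • τ))
  have ev2 : ∀ γ : SL, ∀ᶠ τ in atImInfty, a (γ • τ) ≠ 0 := fun γ => by
    obtain ⟨Y, c, w, hc, H⟩ := ((hξ i0).smulSL γ).1.ne_zero_high hM ((hξ i0).smulSL γ).2.per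
      (ne2 γ)
    refine (atImInfty_mem _).2 ⟨Y + 1, fun τ hτ e => ?_⟩
    have := H τ (by linarith)
    simp only [e, zero_mul, norm_zero] at this
    exact absurd this (not_le.2 (by positivity))
  choose v hv using lim_pt (fun i => (h.inG i).1) h.ne
  have hv' : ∀ τ, Lim (fun σ => a σ • Φ σ) (𝓝[≠] τ) (v τ) := fun τ =>
    (hv τ).of_smul ((ev1 τ).mono fun σ hσ => ⟨a σ, hσ, rfl⟩)
  choose w hw using fun γ : SL => lim_inf (Φ := fun τ => a (γ • τ) • Φ (γ • τ)) hM
    (fun i => ((hξ i).smulSL γ).1) (fun τ => funext fun i => ((hξ i).smulSL γ).2.per τ)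
    fun e => ne2 γ (funext fun τ => congrFun (congrFun e τ) i0)
  let p : ℍ → zariskiClosure Z := fun τ =>
    ⟨_, (hv τ).mem hC (Eventually.of_forall h.mem) (hv τ).1⟩
  let q : SL → zariskiClosure Z := fun γ =>
    ⟨_, (hw γ).mem hC (Eventually.of_forall fun τ => hC.smul _ _ (h.mem _)) (hw γ).1⟩
  have br : Br M _ (fun i τ => a τ * Φ τ i) p q :=
    ⟨hξ, fun τ => (hv' τ).isLimit, fun γ => (hw γ).isLimit⟩
  have e1 : ∀ τ, lc (lamX _ f) Φ (𝓝[≠] τ) = f (Finsupp.single (p τ) 1) := fun τ => by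
    rw [(hv τ).lc_eq hC, lamX_eq (x := p τ) (hv τ).1 rfl]
  have e2 : ∀ γ : SL, lc (lamX _ f) (fun τ => Φ (γ • τ)) atImInfty = f (Finsupp.single (q γ) 1) :=
    fun γ => by
      rw [← lc_congr ((ev2 γ).mono fun τ hτ => ⟨_, hτ, rfl⟩), (hw γ).lc_eq hC,
        lamX_eq (x := q γ) (hw γ).1 rfl]
  have e3 : lc (lamX _ f) Φ atImInfty = f (Finsupp.single (q 1) 1) := by
    simpa only [one_smul] using e2 1
  have e4 : ∀ x y : zariskiClosure Z, f.comp (Finsupp.mapDomain.addMonoidHom Prod.fst)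
      (Finsupp.single (x, y) 1) = f (Finsupp.single x 1) := fun x y =>
    congrArg f Finsupp.mapDomain_single
  refine ⟨?_, fun γ => ?_⟩
  · have := rec_br hR hU hD limS (kill_fst hf) hM br (br_const M (q 1))
    simpa only [e1, e3, e4] using this
  · have := md hR hU hD limS (kill_fst hf) hM br (br_const M (q 1)) γ
    rwa [e4, e4, ← e2, ← e3] at this

end

end Pool.Agent.P.MP_b8021b_nt.CM.O
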