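import Pool.Agent.P.MP_b8021b_nt.CM.OFr

/-! The two components of the negative cone. -/

namespace Pool.Agent.P.MP_b8021b_nt.CM.O

open Complex hiding Gamma
open Matrix

noncomputable section

namespace ODomP

variable {m : ℕ} {S : ZM m} {z0 : CW m}

theorem bf_ofReal (x y : Fin m → ℝ) :
    bf S (fun i => (x i : ℂ)) (fun i => (y i : ℂ)) = ((bf S x y : ℝ) : ℂ) :=
  bf_map Complex.ofRealHom x y

theorem continuous_bf {X : Type} [TopologicalSpace X] {f g : X → CW m} (hf : Continuous f)
    (hg : Continuous g) : Continuous fun x => bf S (f x) (g x) := by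
  unfold bf
  exact hf.dotProduct (continuous_const.matrix_mulVec hg)

theorem herm_real (hS : S.IsSymm) (z : CW m) :
    bf S z (star z) = ((bf S z (star z)).re : ℂ) := by
  have h : star (bf S z (star z)) = bf S z (star z) := by
    rw [← bf_star, star_star, bf_comm hS]
  exact (Complex.conj_eq_iff_re.1 h).symm

theorem smul_mem {z : CW m} (hz : z ∈ negCone S) {c : ℂ} (hc : c ≠ 0) : c • z ∈ negCone S := by
  refine ⟨by rw [bf_smul_left, bf_smul_right, hz.1]; ring, ?_⟩
  rw [star_smul, bf_smul_left, bf_smul_right, ← mul_assoc, Complex.star_def, Complex.mul_conj,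
    Complex.re_ofReal_mul]
  exact mul_neg_of_pos_of_neg (Complex.normSq_pos.2 hc) hz.2

theorem star_mem (hS : S.IsSymm) {z : CW m} (hz : z ∈ negCone S) : star z ∈ negCone S := by
  refine ⟨by rw [bf_star, hz.1, star_zero], ?_⟩
  rw [star_star, bf_comm hS]
  exact hz.2

theorem pos' (H : Ctx S z0) {y : CW m} (hy : star y = y) (h0 : y ≠ 0) (ho : bf S y z0 = 0) :
    0 < (bf S y y).re := by
  have e : (fun i => (((y i).re : ℝ) : ℂ)) = y := by
    funext i
    exact Complex.conj_eq_iff_re.1 (congrFun hy i)
  have h := H.pos (fun i => (y i).re) (fun h => h0 (by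
    rw [← e]; funext i; simp [congrFun h i])) (by rw [e]; exact ho)
  have e2 := bf_ofReal (S := S) (fun i => (y i).re) (fun i => (y i).re)
  rw [e] at e2
  rw [e2, Complex.ofReal_re]
  exact h

theorem nonneg' (H : Ctx S z0) {y : CW m} (hy : star y = y) (ho : bf S y z0 = 0) :
    0 ≤ (bf S y y).re := by
  by_cases h0 : y = 0
  · rw [h0, bf_zero_left]; simp
  · exact (pos' H hy h0 ho).le

/-- the real part of `(w, w)` is at most `(w, w̄)` on the complement of the negative plane -/
theorem re_le (H : Ctx S z0) {w : CW m} (h1 : bf S w z0 = 0) (h2 : bf S w (star z0) = 0) :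
    (bf S w w).re ≤ (bf S w (star w)).re := by
  have h3 : bf S (star w) z0 = 0 := by
    have := bf_star (S := S) w (star z0)
    rw [star_star, h2, star_zero] at this
    exact this
  have h := nonneg' H (y := I • (w - star w)) (by
    rw [star_smul, star_sub, star_star, Complex.star_def, Complex.conj_I, ← neg_sub w (star w),
      smul_neg, neg_smul, neg_neg]) (by rw [bf_smul_left, bf_sub_left, h1, h3]; ring)
  rw [bf_smul_left, bf_smul_right, bf_sub_left, bf_sub_right, bf_sub_right, bf_star,
    bf_comm H.symm (star w) w, ← mul_assoc, I_mul_I] at h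
  simp only [Complex.star_def, neg_mul, one_mul, neg_re, sub_re, conj_re] at h
  linarith

theorem norm_le (H : Ctx S z0) {w : CW m} (h1 : bf S w z0 = 0) (h2 : bf S w (star z0) = 0) :
    ‖bf S w w‖ ≤ (bf S w (star w)).re := by
  obtain ⟨u, hu, e⟩ : ∃ u : ℂ, ‖u‖ = 1 ∧ u * bf S w w = ‖bf S w w‖ := by
    by_cases h0 : bf S w w = 0
    · exact ⟨1, by simp, by simp [h0]⟩
    · have hn : (‖bf S w w‖ : ℂ) ≠ 0 := by simpa using h0
      refine ⟨‖bf S w w‖ / bf S w w, by simp [h0], by field_simp⟩
  obtain ⟨c, hc⟩ := IsAlgClosed.exists_eq_mul_self u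
  have hc1 : Complex.normSq c = 1 := by
    rw [hc, norm_mul] at hu
    rw [Complex.normSq_eq_norm_sq, sq, hu]
  have h := re_le H (w := c • w) (by rw [bf_smul_left, h1, mul_zero])
    (by rw [bf_smul_left, h2, mul_zero])
  rw [star_smul, bf_smul_left, bf_smul_right, bf_smul_left, bf_smul_right, ← mul_assoc, ← hc, e,
    ← mul_assoc, Complex.star_def, Complex.mul_conj, hc1] at h
  simpa using h

theorem dec (H : Ctx S z0) (z : CW m) : ∃ (al be : ℂ) (w : CW m),
    z = al • z0 + be • star z0 + w ∧ bf S w z0 = 0 ∧ bf S w (star z0) = 0 ∧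
    bf S z (star z0) = al * bf S z0 (star z0) ∧ bf S z z0 = be * bf S z0 (star z0) := by
  have hne : bf S z0 (star z0) ≠ 0 := fun h => by
    have := H.neg.2
    rw [h] at this
    simp at this
  have hs : bf S (star z0) (star z0) = 0 := (star_mem H.symm H.neg).1
  refine ⟨bf S z (star z0) / bf S z0 (star z0), bf S z z0 / bf S z0 (star z0),
    z - (bf S z (star z0) / bf S z0 (star z0)) • z0 - (bf S z z0 / bf S z0 (star z0)) • star z0,
    by abel, ?_, ?_, by field_simp, by field_simp⟩
  · rw [bf_sub_left, bf_sub_left, bf_smul_left, bf_smul_left, H.neg.1, bf_comm H.symm (star z0) z0]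
    field_simp
    ring
  · rw [bf_sub_left, bf_sub_left, bf_smul_left, bf_smul_left, hs]
    field_simp
    ring

theorem form_dec (H : Ctx S z0) (al be : ℂ) {w : CW m} (h1 : bf S w z0 = 0)
    (h2 : bf S w (star z0) = 0) :
    bf S (al • z0 + be • star z0 + w) (al • z0 + be • star z0 + w) =
      2 * al * be * bf S z0 (star z0) + bf S w w := by
  have hs : bf S (star z0) (star z0) = 0 := (star_mem H.symm H.neg).1
  simp only [bf_add_left, bf_add_right, bf_smul_left, bf_smul_right, H.neg.1, hs, h1, h2,
    bf_comm H.symm (star z0) z0, bf_comm H.symm z0 w, bf_comm H.symm (star z0) w]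
  ring

theorem herm_dec (H : Ctx S z0) (al be : ℂ) {w : CW m} (h1 : bf S w z0 = 0)
    (h2 : bf S w (star z0) = 0) :
    (bf S (al • z0 + be • star z0 + w) (star (al • z0 + be • star z0 + w))).re =
      (‖al‖ ^ 2 + ‖be‖ ^ 2) * (bf S z0 (star z0)).re + (bf S w (star w)).re := by
  have hs : bf S (star z0) (star z0) = 0 := (star_mem H.symm H.neg).1
  have h3 : bf S z0 (star w) = 0 := by
    have := bf_star (S := S) (star z0) w
    rw [star_star, bf_comm H.symm (star z0) w, h2, star_zero] at this
    exact this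
  have h4 : bf S (star z0) (star w) = 0 := by
    rw [bf_star, bf_comm H.symm, h1, star_zero]
  have e : bf S (al • z0 + be • star z0 + w) (star (al • z0 + be • star z0 + w)) =
      ((‖al‖ ^ 2 + ‖be‖ ^ 2 : ℝ) : ℂ) * bf S z0 (star z0) + bf S w (star w) := by
    simp only [star_add, star_smul, star_star, bf_add_left, bf_add_right, bf_smul_left,
      bf_smul_right, H.neg.1, hs, h1, h2, h3, h4, bf_comm H.symm (star z0) z0]
    have a1 : al * star al = ((‖al‖ ^ 2 : ℝ) : ℂ) := by
      rw [Complex.star_def, Complex.mul_conj, Complex.normSq_eq_norm_sq]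
    have a2 : be * star be = ((‖be‖ ^ 2 : ℝ) : ℂ) := by
      rw [Complex.star_def, Complex.mul_conj, Complex.normSq_eq_norm_sq]
    rw [Complex.ofReal_add, ← a1, ← a2]
    ring
  rw [e, Complex.add_re, Complex.re_ofReal_mul]

theorem norm_herm (H : Ctx S z0) : ‖bf S z0 (star z0)‖ = -(bf S z0 (star z0)).re := by
  conv_lhs => rw [herm_real H.symm z0]
  rw [Complex.norm_real, Real.norm_eq_abs, abs_of_neg H.neg.2]

theorem norm_ne (H : Ctx S z0) {z : CW m} (hz : z ∈ negCone S) :
    ‖bf S z z0‖ ≠ ‖bf S z (star z0)‖ := by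
  obtain ⟨al, be, w, rfl, h1, h2, e1, e2⟩ := dec H z
  have hn := H.neg.2
  have a := hz.1
  have b := hz.2
  rw [form_dec H al be h1 h2] at a
  rw [herm_dec H al be h1 h2] at b
  have c := norm_le H h1 h2
  have d : bf S w w = -(2 * al * be * bf S z0 (star z0)) := by linear_combination a
  rw [d, norm_neg, norm_mul, norm_mul, norm_mul, norm_herm H] at c
  rw [e1, e2, norm_mul, norm_mul, norm_herm H]
  intro h
  have h' : ‖be‖ = ‖al‖ := mul_right_cancel₀ (by linarith) h
  rw [h'] at b c
  have : ‖(2 : ℂ)‖ = 2 := by simp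
  rw [this] at c
  nlinarith

theorem mem_of_lt (H : Ctx S z0) {z : CW m} (hz : z ∈ negCone S)
    (hl : ‖bf S z z0‖ < ‖bf S z (star z0)‖) : z ∈ dom S z0 := by
  obtain ⟨al, be, w, rfl, h1, h2, e1, e2⟩ := dec H z
  have hn := H.neg.2
  have a := hz.1
  have b := hz.2
  rw [form_dec H al be h1 h2] at a
  rw [herm_dec H al be h1 h2] at b
  rw [e1, e2, norm_mul, norm_mul, norm_herm H] at hl
  have hl' : ‖be‖ < ‖al‖ := lt_of_mul_lt_mul_right hl (by linarith)
  have hal : al ≠ 0 := by
    intro h
    rw [h, norm_zero] at hl'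
    exact absurd hl' (not_lt.2 (norm_nonneg _))
  let γ : ℝ → CW m := fun t => al • z0 + ((t : ℂ) ^ 2 * be) • star z0 + (t : ℂ) • w
  have hγ : Continuous γ := by fun_prop
  have p1 : IsPreconnected (γ '' Set.Icc 0 1) := isPreconnected_Icc.image _ hγ.continuousOn
  have p2 : IsPreconnected ((fun c : ℂ => c • z0) '' {0}ᶜ) :=
    (isConnected_compl_singleton_of_one_lt_rank (by simp) (0 : ℂ)).isPreconnected.image _
      (by fun_prop)
  have p3 : IsPreconnected (γ '' Set.Icc 0 1 ∪ (fun c : ℂ => c • z0) '' {0}ᶜ) :=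
    IsPreconnected.union (al • z0) ⟨0, by simp, by simp [γ]⟩ ⟨al, hal, rfl⟩ p1 p2
  refine p3.subset_connectedComponentIn (Or.inr ⟨1, by simp, by simp⟩) ?_
    (Or.inl ⟨1, by simp, by simp [γ]⟩)
  rintro _ (⟨t, ⟨t0, t1⟩, rfl⟩ | ⟨c, hc, rfl⟩)
  · have k1 : bf S ((t : ℂ) • w) z0 = 0 := by rw [bf_smul_left, h1, mul_zero]
    have k2 : bf S ((t : ℂ) • w) (star z0) = 0 := by rw [bf_smul_left, h2, mul_zero]
    refine ⟨?_, ?_⟩
    · simp only [γ]
      rw [form_dec H _ _ k1 k2, bf_smul_left, bf_smul_right]
      linear_combination (t : ℂ) ^ 2 * a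
    · simp only [γ]
      rw [herm_dec H _ _ k1 k2, star_smul, bf_smul_left, bf_smul_right, ← mul_assoc,
        Complex.star_def, Complex.conj_ofReal, ← Complex.ofReal_mul, Complex.re_ofReal_mul,
        norm_mul, norm_pow, Complex.norm_real, Real.norm_eq_abs, sq_abs]
      have hb := norm_nonneg be
      have hab : ‖be‖ ^ 2 < ‖al‖ ^ 2 := by gcongr
      generalize ‖be‖ = B at *
      generalize ‖al‖ = A at *
      generalize (bf S z0 (star z0)).re = h at *
      generalize (bf S w (star w)).re = W at *
      have hs0 : 0 ≤ t ^ 2 := sq_nonneg t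
      have hs1 : t ^ 2 ≤ 1 := by nlinarith
      have hB := sq_nonneg B
      have q1 : 0 ≤ (1 - t ^ 2) * (A ^ 2 - t ^ 2 * B ^ 2) :=
        mul_nonneg (by linarith) (by nlinarith)
      rcases eq_or_lt_of_le hs0 with hs | hs
      · have : t = 0 := pow_eq_zero_iff (n := 2) (by norm_num) |>.1 hs.symm
        subst this
        nlinarith
      · have q2 := mul_neg_of_pos_of_neg hs b
        have q3 := mul_nonneg q1 (neg_nonneg.2 hn.le)
        nlinarith
  · exact smul_mem H.neg hc

theorem lt_of_mem (H : Ctx S z0) {z : CW m} (hz : z ∈ dom S z0) :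
    ‖bf S z z0‖ < ‖bf S z (star z0)‖ := by
  have c1 : Continuous fun z : CW m => ‖bf S z z0‖ :=
    (continuous_bf continuous_id continuous_const).norm
  have c2 : Continuous fun z : CW m => ‖bf S z (star z0)‖ :=
    (continuous_bf continuous_id continuous_const).norm
  have h := IsPreconnected.subset_left_of_subset_union (s := dom S z0)
    (u := {z | ‖bf S z z0‖ < ‖bf S z (star z0)‖}) (v := {z | ‖bf S z (star z0)‖ < ‖bf S z z0‖})
    (isOpen_lt c1 c2) (isOpen_lt c2 c1)
    (Set.disjoint_left.2 fun _ a b => lt_asymm (α := ℝ) a b)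
    (fun y hy => lt_or_gt_of_ne (norm_ne H (connectedComponentIn_subset _ _ hy)))
    ⟨z0, mem_connectedComponentIn H.neg, by
      have := H.neg.2
      show ‖bf S z0 z0‖ < ‖bf S z0 (star z0)‖
      rw [H.neg.1, norm_zero, norm_herm H]
      linarith⟩ isPreconnected_connectedComponentIn
  exact h hz

theorem norm_star1 (z : CW m) : ‖bf S (star z) z0‖ = ‖bf S z (star z0)‖ := by
  rw [← norm_star, ← bf_star, star_star]

theorem norm_star2 (z : CW m) : ‖bf S (star z) (star z0)‖ = ‖bf S z z0‖ := by
  rw [bf_star, norm_star]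

theorem pos_of_neg (H : Ctx S z0) {z : CW m} (hz : z ∈ negCone S) {x : CW m} (hx : star x = x)
    (h0 : x ≠ 0) (ho : bf S x z = 0) : 0 < (bf S x x).re := by
  have hne := norm_ne H hz
  have ho' : bf S x (star z) = 0 := by rw [← hx, bf_star, ho, star_zero]
  obtain ⟨c, hc⟩ : ∃ c : ℂ, c * bf S z z0 + star c * bf S (star z) z0 = -bf S x z0 := by
    rw [← norm_star1] at hne
    generalize bf S z z0 = B at *
    generalize bf S (star z) z0 = A at *
    generalize bf S x z0 = β at *
    have hd : B * star B - A * star A ≠ 0 := by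
      rw [Complex.star_def, Complex.mul_conj, Complex.mul_conj, Complex.normSq_eq_norm_sq,
        Complex.normSq_eq_norm_sq, ← Complex.ofReal_sub, Complex.ofReal_ne_zero, sub_ne_zero]
      exact fun h => hne ((sq_eq_sq₀ (norm_nonneg _) (norm_nonneg _)).1 h)
    have hd' : star (B * star B - A * star A) = B * star B - A * star A := by
      simp only [star_sub, star_mul', star_star]; ring
    refine ⟨(star β * A - β * star B) / (B * star B - A * star A), ?_⟩
    rw [star_div₀, hd']
    simp only [star_sub, star_mul', star_star]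
    rw [div_mul_eq_mul_div, div_mul_eq_mul_div, ← add_div, div_eq_iff hd]
    ring
  have hzz := hz.1
  have hs : bf S (star z) (star z) = 0 := (star_mem H.symm hz).1
  have hy : star (x + c • z + star c • star z) = x + c • z + star c • star z := by
    simp only [star_add, star_smul, star_star, hx]; abel
  have hyo : bf S (x + c • z + star c • star z) z0 = 0 := by
    simp only [bf_add_left, bf_smul_left]; linear_combination hc
  have hyy : (bf S (x + c • z + star c • star z) (x + c • z + star c • star z)).re =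
      (bf S x x).re + 2 * Complex.normSq c * (bf S z (star z)).re := by
    have e : bf S (x + c • z + star c • star z) (x + c • z + star c • star z) =
        bf S x x + ((2 * Complex.normSq c : ℝ) : ℂ) * bf S z (star z) := by
      simp only [bf_add_left, bf_add_right, bf_smul_left, bf_smul_right, ho, ho', hzz, hs,
        bf_comm H.symm z x, bf_comm H.symm (star z) x, bf_comm H.symm (star z) z]
      rw [Complex.ofReal_mul, ← Complex.mul_conj, Complex.star_def]
      push_cast
      ring
    rw [e, Complex.add_re, Complex.re_ofReal_mul]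
  by_cases hc0 : c = 0
  · subst hc0
    simp only [zero_smul, star_zero, add_zero] at hyo
    exact pos' H hx h0 hyo
  · have a := nonneg' H hy hyo
    have b := mul_neg_of_pos_of_neg (Complex.normSq_pos.2 hc0) hz.2
    rw [hyy] at a
    linarith

end ODomP

open ODomP in
theorem domS : S_Dom := by
  intro m S z0 H
  refine ⟨fun z hz c hc => ?_, fun z hz => ?_, fun z hz hs => ?_, fun z hz x h0 ho => ?_,
    fun hd => ?_, fun g hg z hz hgz z' hz' => ?_⟩
  · refine mem_of_lt H (smul_mem (connectedComponentIn_subset _ _ hz) hc) ?_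
    rw [bf_smul_left, bf_smul_left, norm_mul, norm_mul]
    exact mul_lt_mul_of_pos_left (lt_of_mem H hz) (norm_pos_iff.2 hc)
  · rcases lt_or_gt_of_ne (norm_ne H hz) with h | h
    · exact Or.inl (mem_of_lt H hz h)
    · refine Or.inr (mem_of_lt H (star_mem H.symm hz) ?_)
      rw [norm_star1, norm_star2]
      exact h
  · have a := lt_of_mem H hz
    have b := lt_of_mem H hs
    rw [norm_star1, norm_star2] at b
    exact lt_asymm a b
  · have h := pos_of_neg H hz (x := fun i => (x i : ℂ)) (funext fun i => Complex.conj_ofReal _)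
      (fun h => h0 (funext fun i => by simpa using congrFun h i)) ho
    rwa [bf_ofReal, Complex.ofReal_re] at h
  · have hd' : (S.map (Int.cast : ℤ → ℝ)).det = 0 := by
      have := (Int.castRingHom ℝ).map_det S
      rw [hd, map_zero] at this
      exact this.symm
    obtain ⟨x, h0, hx⟩ := Matrix.exists_mulVec_eq_zero_iff.2 hd'
    have hx' : mv S x = 0 := hx
    have h := H.pos x h0 (by
      have e := mv_map (g := S) Complex.ofRealHom x
      rw [hx'] at e
      rw [bf_comm H.symm, bf_eq]
      have e' : mv S (fun i => (x i : ℂ)) = 0 := e.trans (funext fun i => by simp)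
      rw [e', dotProduct_zero])
    rw [bf_eq, hx', dotProduct_zero] at h
    exact lt_irrefl _ h
  · have hc : Continuous fun y : CW m => mv g y := continuous_const.matrix_mulVec continuous_id
    have p : IsPreconnected ((fun y : CW m => mv g y) '' dom S z0) :=
      isPreconnected_connectedComponentIn.image _ hc.continuousOn
    have q := p.subset_connectedComponentIn (F := negCone S) ⟨z, hz, rfl⟩ (by
      rintro _ ⟨y, hy, rfl⟩
      have hy' : y ∈ negCone S := connectedComponentIn_subset _ _ hy
      refine ⟨by rw [bf_mv hg]; exact hy'.1, ?_⟩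
      rw [← mv_star, bf_mv hg]
      exact hy'.2)
    have e : dom S z0 = connectedComponentIn (negCone S) (mv g z) := connectedComponentIn_eq hgz
    rw [e]
    exact q ⟨z', hz', rfl⟩

end

end Pool.Agent.P.MP_b8021b_nt.CM.O
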