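import Pool.Agent.P.MP_b8021b_nt.CM.OEL0

/-! Elliptic curves: the fibres of the Weierstrass function are rationally equivalent. -/

namespace Pool.Agent.P.MP_b8021b_nt.CM.O

open UpperHalfPlane hiding I
open Filter Pool.Agent.P.MP_7ebcb6_ag WithZero R0P R1P
open scoped Topology WithZero IntermediateField Polynomial LinearAlgebra.Projectivization

noncomputable section

namespace OELP

/-- the periods `1, τ` -/
def pp (τ : ℍ) : PeriodPair := ⟨1, τ, by
  rw [LinearIndependent.pair_iff]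
  intro s t h
  have h1 := congrArg Complex.im h
  have h2 := congrArg Complex.re h
  simp [τ.im_pos.ne'] at h1
  simp [h1] at h2
  exact ⟨h2, h1⟩⟩

variable {n : ℕ} {L : PeriodPair} {Φ : ℂ → Vec n}

theorem per {τ : ℍ} (h1 : ∀ u, ∃ c : ℂ, c ≠ 0 ∧ Φ (u + 1) = c • Φ u)
    (h2 : ∀ u, ∃ c : ℂ, c ≠ 0 ∧ Φ (u + τ) = c • Φ u) (i j : Fin (n + 1)) :
    ∀ l ∈ (pp τ).lattice, ∀ z, Φ (z + l) i / Φ (z + l) j = Φ z i / Φ z j := by
  intro l hl
  obtain ⟨a, b, rfl⟩ := PeriodPair.mem_lattice.1 hl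
  have key : ∀ t : ℂ, (∀ u, ∃ c : ℂ, c ≠ 0 ∧ Φ (u + t) = c • Φ u) →
      Function.Periodic (fun z => Φ z i / Φ z j) t := fun t h u => by
    obtain ⟨c, hc, e⟩ := h u
    simp only [e, Pi.smul_apply, smul_eq_mul, mul_div_mul_left _ _ hc]
  exact ((key 1 h1).int_mul a).add_period ((key τ h2).int_mul b)

theorem mero (hd : Differentiable ℂ Φ) (i : Fin (n + 1)) : Meromorphic fun z => Φ z i :=
  fun x => ((differentiable_pi.1 hd i).analyticAt x).meromorphicAt

theorem Link.value {w : ℂ} {v : Valuation (KE L) ℤᵐ⁰} (h : Link w v)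
    (r : Fin (n + 1) → Fin (n + 1) → RR L) (hr : ∀ i j z, (r i j).1 z = Φ z i / Φ z j)
    {i0 : Fin (n + 1)} (h0 : ∀ᶠ z in 𝓝[≠] w, Φ z i0 ≠ 0) {x : Vec n} (hx : Lim Φ (𝓝[≠] w) x) :
    IsValueAt v (fun i => mk (r i i0)) (Projectivization.mk ℂ x hx.1) := by
  obtain ⟨a, ha⟩ := Projectivization.exists_smul_eq_mk_rep ℂ x hx.1
  obtain ⟨hy, u, hu⟩ := hx.smul a.ne_zero
  rw [← Units.smul_def, ha] at hy hu
  unfold IsValueAt
  generalize (Projectivization.mk ℂ x hx.1).rep = y at hy hu ⊢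
  have hu' : ∀ i, Tendsto (fun z => u z * Φ z i) (𝓝[≠] w) (𝓝 (y i)) := fun i =>
    tendsto_pi_nhds.1 hu i
  obtain ⟨i, hi⟩ := Function.ne_iff.1 hy
  refine ⟨mk (algebraMap ℂ _ (y i) * r i0 i), fun j => ?_⟩
  rw [← map_mul, ← mk.commutes, ← map_sub]
  refine h.2 _ ?_
  have h2 := (((hu' j).div (hu' i) hi).const_mul (y i)).sub_const (y j)
  rw [mul_div_cancel₀ _ hi, sub_self] at h2
  refine h2.congr' ?_
  filter_upwards [h0, (hu' i).eventually_ne hi] with z h3 h4
  change _ = y i * (r i0 i).1 z * (r j i0).1 z - y j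
  obtain ⟨h5, h6⟩ := mul_ne_zero_iff.1 h4
  rw [hr, hr, Pi.div_apply]
  field_simp

end OELP

open OELP in
theorem elS : S_Even → S_EL := by
  classical
  intro hE n Z f hf τ Φ hd hΦ hm h1 h2 w
  have hcone := cone_cone Z f
  let L := pp τ
  have hC := curve (th L) wp_transc (fixed hE)
  let r : Fin (n + 1) → Fin (n + 1) → RR L := fun i j =>
    ⟨fun z => Φ z i / Φ z j, (mero hd i).div (mero hd j), per h1 h2 i j⟩
  obtain ⟨i0, h0⟩ : ∃ i, ∀ᶠ z in codiscrete ℂ, Φ z i ≠ 0 := by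
    obtain ⟨z, hz⟩ := Function.ne_iff.1 hΦ
    obtain ⟨i, hi⟩ := Function.ne_iff.1 hz
    refine ⟨i, ne_zero_of (mero hd i) fun e => ?_⟩
    have h3 : ∀ᶠ u in 𝓝 z, Φ u i ≠ 0 :=
      (differentiable_pi.1 hd i).continuous.continuousAt.eventually_ne hi
    obtain ⟨u, h4, h5⟩ := ((ev_iff.1 e z).and (nhdsWithin_le_nhds h3)).exists
    exact h5 h4
  have hlim : ∀ u, ∃ x, Lim Φ (𝓝[≠] u) x := fun u =>
    lim_analytic (hd.analyticAt u) fun e => by
      obtain ⟨z, h4, h5⟩ := ((ev_iff.1 h0 u).and (nhdsWithin_le_nhds e)).exists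
      exact h4 (congrFun h5 i0)
  choose x hx using hlim
  let p : ℂ → zariskiClosure Z := fun u => ⟨Projectivization.mk ℂ (x u) (hx u).1,
    (hx u).mem hcone (Eventually.of_forall hm) _⟩
  let η : Fin (n + 1) → KE L := fun i => mk (r i i0)
  have hval : ∀ {u v}, Link u v → IsValueAt v η (p u) := fun {u v} h =>
    h.value r (fun _ _ _ => rfl) (ev_iff.1 h0 u) (hx u)
  let φ : Valuation (KE L) ℤᵐ⁰ → zariskiClosure Z := fun v =>
    if e : ∃ u, Link u v then p e.choose else p 0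
  have hφ : ∀ {u v}, Link u v → φ v = p u := fun {u v} h => by
    have e : ∃ u, Link u v := ⟨u, h⟩
    simp only [φ, dif_pos e]
    exact Subtype.ext (value_unique h.1 (hval e.choose_spec) (hval h))
  let F : Valuation (KE L) ℤᵐ⁰ → ℂ := fun v => f (Finsupp.single (φ v) 1)
  have hF : ∀ {u v}, Link u v → F v = lc (lamX _ f) Φ (𝓝[≠] u) := fun {u v} h => by
    rw [(hx u).lc_eq hcone, lamX_eq (x := p u) (hx u).1 rfl, ← hφ h]
  obtain ⟨v0, hv0⟩ := exists_link hC 0
  by_cases hw : w ∈ L.lattice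
  · have e1 := hF (hv0.add hw)
    have e2 := hF (hv0.add (L.lattice.neg_mem hw))
    rw [zero_add] at e1 e2
    rw [← e1, ← e2, ← hF hv0, two_mul]
  obtain ⟨v, hv⟩ := exists_link hC w
  have key := fibres (th L) wp_transc wp_fix (fixed hE) F (fun g hg S hS hout => by
    have := hf (∑ v ∈ S, Finsupp.single (φ v) (ord v g)) (AddSubgroup.subset_closure
      ⟨KE L, inferInstance, inferInstance, hC, η, φ, g, S, fun v hv => by
        obtain ⟨u, hu⟩ := all_link hE hv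
        rw [hφ hu]
        exact hval hu, hg, hS, hout, rfl⟩)
    rw [map_sum] at this
    rw [← this]
    refine Finset.sum_congr rfl fun v _ => ?_
    rw [← zsmul_eq_mul, ← map_zsmul, Finsupp.smul_single, smul_eq_mul, mul_one])
    hv.1 hv0.1 (hv.res hw) (hv0.res' L.lattice.zero_mem)
  simp only [hF (hv.pull _), hF (hv0.pull _)] at key
  rw [UnitsInt.univ, Finset.sum_pair (by decide), Finset.sum_pair (by decide), sg_one, sg_one,
    sg_neg, sg_neg, neg_zero] at key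
  rw [key, two_mul]

end

end Pool.Agent.P.MP_b8021b_nt.CM.O
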