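import Pool.Agent.P.MP_b8021b_nt.CM.OBas

/-! Even elliptic functions are rational functions of the Weierstrass function. -/

namespace Pool.Agent.P.MP_b8021b_nt.CM.O

open Filter Set Polynomial
open scoped Topology

namespace OEvenP

theorem ev_iff {p : ℂ → Prop} : (∀ᶠ z in codiscrete ℂ, p z) ↔ ∀ x, ∀ᶠ z in 𝓝[≠] x, p z := by
  simp only [Filter.Eventually, mem_codiscrete, disjoint_principal_right, compl_compl]

theorem tendsto_add (x l : ℂ) : Tendsto (fun z => z + l) (𝓝[≠] x) (𝓝[≠] (x + l)) := by
  refine tendsto_nhdsWithin_iff.mpr ⟨?_, ?_⟩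
  · exact ((continuous_add_const l).tendsto x).mono_left nhdsWithin_le_nhds
  · filter_upwards [self_mem_nhdsWithin] with z hz
    simpa using hz

variable {L : PeriodPair} {f : ℂ → ℂ}

/-- elliptic functions -/
structure El (L : PeriodPair) (f : ℂ → ℂ) : Prop where
  mer : Meromorphic f
  per : ∀ l ∈ L.lattice, ∀ᶠ z in codiscrete ℂ, f (z + l) = f z

theorem El.ord (h : El L f) {l : ℂ} (hl : l ∈ L.lattice) (x : ℂ) :
    meromorphicOrderAt f (x + l) = meromorphicOrderAt f x := by
  rw [← meromorphicOrderAt_comp_add_const_eq_meromorphicOrderAt]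
  exact meromorphicOrderAt_congr (ev_iff.mp (h.per l hl) x)

theorem El.liouville (h : El L f) (h0 : ∀ x, 0 ≤ meromorphicOrderAt f x) :
    ∃ c, ∀ᶠ z in codiscrete ℂ, f z = c := by
  have hm : MeromorphicOn f univ := fun x _ => h.mer x
  set g := toMeromorphicNFOn f univ
  have hg : ∀ x, g =ᶠ[𝓝[≠] x] f := fun x => hm.toMeromorphicNFOn_eq_self_on_nhdsNE (mem_univ x)
  have ha : ∀ x, AnalyticAt ℂ g x := fun x =>
    (meromorphicNFOn_toMeromorphicNFOn f univ (mem_univ x)).meromorphicOrderAt_nonneg_iff_analyticAt.mp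
      (by rw [meromorphicOrderAt_congr (hg x)]; exact h0 x)
  have hd : Differentiable ℂ g := fun x => (ha x).differentiableAt
  have hp : ∀ z w, w ∈ L.lattice → g (z + w) = g z := fun z w hw => by
    have e : (fun y => g (y + w)) =ᶠ[𝓝[≠] z] g := by
      filter_upwards [(tendsto_add z w).eventually (hg (z + w)), ev_iff.mp (h.per w hw) z, hg z]
        with y h1 h2 h3
      rw [h1, h2, h3]
    exact tendsto_nhds_unique_of_eventuallyEq
      (((hd.continuous.comp (continuous_add_const w)).tendsto z).mono_left nhdsWithin_le_nhds)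
      ((hd.continuous.tendsto z).mono_left nhdsWithin_le_nhds) e
  refine ⟨g 0, ev_iff.mpr fun x => ?_⟩
  filter_upwards [hg x] with z hz
  rw [← hz]
  exact hd.apply_eq_apply_of_bounded
    (IsZLattice.isCompact_range_of_periodic L.lattice _ hd.continuous hp).isBounded z 0

theorem wp_per {l : ℂ} (hl : l ∈ L.lattice) (z : ℂ) : L.weierstrassP (z + l) = L.weierstrassP z :=
  L.weierstrassP_add_coe z ⟨l, hl⟩

theorem onto (L : PeriodPair) (c : ℂ) : ∃ z, z ∉ L.lattice ∧ L.weierstrassP z = c := by
  classical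
  by_contra hc
  push Not at hc
  have hm : Meromorphic fun z => L.weierstrassP z - c := by fun_prop
  have ho : ∀ x ∈ L.lattice, meromorphicOrderAt (fun z => L.weierstrassP z - c)⁻¹ x = 2 := by
    intro x hx
    have : meromorphicOrderAt (L.weierstrassP + fun _ => -c) x = -2 := by
      rw [meromorphicOrderAt_add_eq_left_of_lt (MeromorphicAt.const _ _), L.order_weierstrassP x hx]
      rw [L.order_weierstrassP x hx]
      exact lt_of_lt_of_le (by decide) analyticAt_const.meromorphicOrderAt_nonneg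
    have e : (fun z => L.weierstrassP z - c) = L.weierstrassP + fun _ => -c := by
      funext z; simp [sub_eq_add_neg]
    rw [meromorphicOrderAt_inv, e, this]
    rfl
  have he : El L (fun z => L.weierstrassP z - c)⁻¹ :=
    ⟨fun x => (hm x).inv, fun l hl => Eventually.of_forall fun z => by simp [wp_per hl]⟩
  obtain ⟨d, hd⟩ := he.liouville fun x => by
    by_cases hx : x ∈ L.lattice
    · rw [ho x hx]; decide
    · exact (((L.analyticOnNhd_weierstrassP x hx).sub analyticAt_const).inv
        (sub_ne_zero.mpr (hc x hx))).meromorphicOrderAt_nonneg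
  have := ho 0 L.lattice.zero_mem
  rw [meromorphicOrderAt_congr (f₂ := fun _ => d) (ev_iff.mp hd 0), meromorphicOrderAt_const] at this
  split_ifs at this
  · exact absurd this (by decide)
  · exact absurd this (by decide)

theorem even_ord (hf : MeromorphicAt f 0) (he : ∀ᶠ z in 𝓝[≠] (0 : ℂ), f (-z) = f z) {m : ℤ}
    (hm : meromorphicOrderAt f 0 = m) : Even m := by
  obtain ⟨u, hu, hu0, h⟩ := (meromorphicOrderAt_eq_int_iff hf).mp hm
  by_contra hodd
  rw [Int.not_even_iff_odd] at hodd
  have ht : Tendsto (fun z : ℂ => -z) (𝓝[≠] 0) (𝓝[≠] 0) := by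
    refine tendsto_nhdsWithin_iff.mpr ⟨?_, ?_⟩
    · simpa using (continuous_neg.tendsto (0 : ℂ)).mono_left nhdsWithin_le_nhds
    · filter_upwards [self_mem_nhdsWithin] with z hz
      simpa using hz
  have e : (fun z => u (-z)) =ᶠ[𝓝[≠] 0] fun z => -u z := by
    filter_upwards [h, ht.eventually h, he, self_mem_nhdsWithin] with z h1 h2 h3 hz
    rw [h1, h2, sub_zero, sub_zero, hodd.neg_zpow, smul_eq_mul, smul_eq_mul] at h3
    have hz' : z ^ m ≠ 0 := zpow_ne_zero _ hz
    apply mul_left_cancel₀ hz'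
    linear_combination -h3
  have h1 : Tendsto u (𝓝[≠] 0) (𝓝 (u 0)) := hu.continuousAt.tendsto.mono_left nhdsWithin_le_nhds
  have := tendsto_nhds_unique_of_eventuallyEq (h1.comp ht) h1.neg e
  exact hu0 (by linear_combination this / 2)

theorem sub_ord {g : ℂ → ℂ} {x : ℂ} {m : ℤ} (hf : MeromorphicAt f x) (hg : MeromorphicAt g x)
    (h1 : meromorphicOrderAt f x = m) (h2 : meromorphicOrderAt g x = m) :
    ∃ c : ℂ, (m : WithTop ℤ) < meromorphicOrderAt (fun z => f z - c * g z) x := by
  obtain ⟨u, hu, -, h⟩ := (meromorphicOrderAt_eq_int_iff hf).mp h1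
  obtain ⟨w, hw, hw0, h'⟩ := (meromorphicOrderAt_eq_int_iff hg).mp h2
  refine ⟨u x / w x, ?_⟩
  have ha : AnalyticAt ℂ (fun z => u z - u x / w x * w z) x := hu.sub (analyticAt_const.mul hw)
  have e : (fun z => f z - u x / w x * g z) =ᶠ[𝓝[≠] x]
      ((· - x) ^ m) * fun z => u z - u x / w x * w z := by
    filter_upwards [h, h'] with z k1 k2
    simp only [k1, k2, smul_eq_mul, Pi.mul_apply, Pi.pow_apply]
    ring
  have hp : 0 < meromorphicOrderAt (fun z => u z - u x / w x * w z) x := by
    rw [← tendsto_zero_iff_meromorphicOrderAt_pos ha.meromorphicAt]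
    have := ha.continuousAt.tendsto.mono_left (nhdsWithin_le_nhds (s := {x}ᶜ))
    simpa [div_mul_cancel₀ _ hw0] using this
  rw [meromorphicOrderAt_congr e, meromorphicOrderAt_mul (by fun_prop) ha.meromorphicAt,
    meromorphicOrderAt_zpow_id_sub_const]
  generalize meromorphicOrderAt (fun z => u z - u x / w x * w z) x = o at hp
  induction o using WithTop.recTopCoe with
  | top => simp
  | coe o =>
    have : 0 < o := by exact_mod_cast hp
    exact_mod_cast (by linarith : m < m + o)

theorem poly (k : ℕ) : ∀ {f : ℂ → ℂ}, El L f → (∀ᶠ z in codiscrete ℂ, f (-z) = f z) →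
    (∀ x, x ∉ L.lattice → 0 ≤ meromorphicOrderAt f x) →
    ((-k : ℤ) : WithTop ℤ) ≤ meromorphicOrderAt f 0 →
    ∃ P : ℂ[X], ∀ᶠ z in codiscrete ℂ, f z = P.eval (L.weierstrassP z) := by
  induction k with
  | zero =>
    intro f h _ h1 h2
    obtain ⟨c, hc⟩ := h.liouville fun x => by
      by_cases hx : x ∈ L.lattice
      · have := h.ord hx 0
        rw [zero_add] at this
        rw [this]
        simpa using h2
      · exact h1 x hx
    exact ⟨C c, by simpa using hc⟩
  | succ k ih =>
    intro f h he h1 h2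
    by_cases h3 : ((-k : ℤ) : WithTop ℤ) ≤ meromorphicOrderAt f 0
    · exact ih h he h1 h3
    have hm : meromorphicOrderAt f 0 = ((-(k + 1 : ℕ) : ℤ) : WithTop ℤ) := by
      generalize meromorphicOrderAt f 0 = o at h2 h3
      induction o using WithTop.recTopCoe with
      | top => simp at h3
      | coe o =>
        have a1 : (-(k + 1 : ℕ) : ℤ) ≤ o := by exact_mod_cast h2
        have a2 : ¬ (-k : ℤ) ≤ o := by exact_mod_cast h3
        exact congrArg _ (by push_cast at a1 ⊢; omega)
    obtain ⟨j, hj⟩ : Even (k + 1) := by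
      have := even_ord (h.mer 0) (ev_iff.mp he 0) hm
      rwa [even_neg, Int.even_coe_nat] at this
    have hw : meromorphicOrderAt (L.weierstrassP ^ j) 0 = ((-(k + 1 : ℕ) : ℤ) : WithTop ℤ) := by
      rw [meromorphicOrderAt_pow (L.meromorphic_weierstrassP 0),
        L.order_weierstrassP 0 L.lattice.zero_mem, hj]
      have : (-2 : WithTop ℤ) = ((-2 : ℤ) : WithTop ℤ) := rfl
      rw [this, ← WithTop.coe_natCast, ← WithTop.coe_mul]
      exact congrArg _ (by push_cast; ring)
    obtain ⟨c, hc⟩ := sub_ord (h.mer 0) ((L.meromorphic_weierstrassP 0).pow j) hm hw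
    have hmer := h.mer
    obtain ⟨P, hP⟩ := ih (f := fun z => f z - c * (L.weierstrassP ^ j) z)
      ⟨by fun_prop, fun l hl => by
        filter_upwards [h.per l hl] with z hz
        simp [hz, wp_per hl]⟩
      (by
        filter_upwards [he] with z hz
        simp [hz, L.weierstrassP_neg])
      (fun x hx => by
        have ha : AnalyticAt ℂ (fun z => -(c * (L.weierstrassP ^ j) z)) x :=
          (analyticAt_const.mul ((L.analyticOnNhd_weierstrassP x hx).pow j)).neg
        have := meromorphicOrderAt_add (h.mer x) ha.meromorphicAt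
        refine le_trans (le_min (h1 x hx) ha.meromorphicOrderAt_nonneg) (this.trans_eq ?_)
        congr 1)
      (by
        generalize meromorphicOrderAt (fun z => f z - c * (L.weierstrassP ^ j) z) 0 = o at hc
        induction o using WithTop.recTopCoe with
        | top => simp
        | coe o =>
          have a1 : (-(k + 1 : ℕ) : ℤ) < o := by exact_mod_cast hc
          exact_mod_cast (by push_cast at a1; omega : (-k : ℤ) ≤ o))
    refine ⟨P + C c * X ^ j, ?_⟩
    filter_upwards [hP] with z hz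
    simp only [eval_add, eval_mul, eval_C, eval_pow, eval_X, ← hz, Pi.pow_apply]
    ring

theorem exists_rep (L : PeriodPair) :
    ∃ K : Set ℂ, IsCompact K ∧ ∀ z, ∃ a ∈ K, ∃ l ∈ L.lattice, z = a + l := by
  refine ⟨closure (ZSpan.fundamentalDomain L.basis),
    (ZSpan.fundamentalDomain_isBounded _).isCompact_closure, fun z =>
      ⟨ZSpan.fract L.basis z, subset_closure (ZSpan.fract_mem_fundamentalDomain _ _),
        ZSpan.floor L.basis z, ?_, ?_⟩⟩
  · rw [L.lattice_eq_span_range_basis]
    exact (ZSpan.floor L.basis z).2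
  · simp [ZSpan.fract]

theorem low (o : WithTop ℤ) : ∃ N : ℕ, ((-N : ℤ) : WithTop ℤ) ≤ o := by
  induction o using WithTop.recTopCoe with
  | top => exact ⟨0, le_top⟩
  | coe o => exact ⟨o.natAbs, by exact_mod_cast (by omega : (-(o.natAbs : ℕ) : ℤ) ≤ o)⟩

theorem mer_eval (Q : ℂ[X]) : Meromorphic fun z => Q.eval (L.weierstrassP z) := by
  induction Q using Polynomial.induction_on' with
  | add p q hp hq => simpa using hp.fun_add hq
  | monomial n a =>
    simp only [eval_monomial]
    fun_prop

theorem clear (h : El L f) : ∃ Q : ℂ[X], Q ≠ 0 ∧ ∀ x, x ∉ L.lattice →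
    0 ≤ meromorphicOrderAt (fun z => f z * Q.eval (L.weierstrassP z)) x := by
  classical
  obtain ⟨K, hK, hrep⟩ := exists_rep L
  have hm : MeromorphicOn f K := fun x _ => h.mer x
  have hS := hK.finite_sdiff_of_mem_codiscreteWithin hm.analyticAt_mem_codiscreteWithin
  choose N hN using fun a => low (meromorphicOrderAt f a)
  set R : ℂ[X] := ∏ a ∈ hS.toFinset, (X - C (L.weierstrassP a)) with hR
  set M := ∑ a ∈ hS.toFinset, N a
  refine ⟨R ^ M, pow_ne_zero _ (Finset.prod_ne_zero_iff.mpr fun a _ => X_sub_C_ne_zero _),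
    fun x hx => ?_⟩
  have hRa : AnalyticAt ℂ (fun z => R.eval (L.weierstrassP z)) x :=
    (R.differentiable.analyticAt _).comp (L.analyticOnNhd_weierstrassP x hx)
  have e : (fun z => f z * (R ^ M).eval (L.weierstrassP z)) =
      f * (fun z => R.eval (L.weierstrassP z)) ^ M := by
    funext z; simp
  rw [e, meromorphicOrderAt_mul (h.mer x) (hRa.pow M).meromorphicAt]
  obtain ⟨a, ha, l, hl, rfl⟩ := hrep x
  rw [h.ord hl]
  by_cases haa : AnalyticAt ℂ f a
  · exact add_nonneg haa.meromorphicOrderAt_nonneg (hRa.pow M).meromorphicOrderAt_nonneg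
  have hmem : a ∈ hS.toFinset := hS.mem_toFinset.mpr ⟨ha, haa⟩
  have hz : R.eval (L.weierstrassP (a + l)) = 0 := by
    rw [hR, eval_prod, wp_per hl]
    exact Finset.prod_eq_zero hmem (by simp)
  have hp : 0 < meromorphicOrderAt (fun z => R.eval (L.weierstrassP z)) (a + l) := by
    rw [← tendsto_zero_iff_meromorphicOrderAt_pos hRa.meromorphicAt, ← hz]
    exact hRa.continuousAt.tendsto.mono_left nhdsWithin_le_nhds
  have hle : N a ≤ M := Finset.single_le_sum (fun _ _ => Nat.zero_le _) hmem
  rw [meromorphicOrderAt_pow hRa.meromorphicAt]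
  have hNa := hN a
  generalize meromorphicOrderAt (fun z => R.eval (L.weierstrassP z)) (a + l) = o at hp
  generalize meromorphicOrderAt f a = o' at hNa
  have h1 : ((M : ℤ) : WithTop ℤ) ≤ (M : WithTop ℤ) * o := by
    induction o using WithTop.recTopCoe with
    | top =>
      rcases Nat.eq_zero_or_pos M with h0 | h0
      · simp [h0]
      · rw [WithTop.mul_top (by exact_mod_cast h0.ne')]
        exact le_top
    | coe o =>
      have : 0 < o := by exact_mod_cast hp
      rw [← WithTop.coe_natCast, ← WithTop.coe_mul, WithTop.coe_le_coe]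
      nlinarith [Int.natCast_nonneg M]
  refine le_trans ?_ (add_le_add hNa h1)
  rw [← WithTop.coe_add]
  exact_mod_cast (by omega : (0 : ℤ) ≤ -(N a : ℤ) + M)

end OEvenP

open OEvenP

theorem evenS : S_Even := fun L => ⟨onto L, fun f hf hp he => by
  obtain ⟨Q, hQ, h⟩ := clear ⟨hf, hp⟩
  obtain ⟨k, hk⟩ := low (meromorphicOrderAt (fun z => f z * Q.eval (L.weierstrassP z)) 0)
  obtain ⟨P, hP⟩ := poly k (L := L) ⟨hf.fun_mul (mer_eval Q), fun l hl => by
    filter_upwards [hp l hl] with z hz
    rw [hz, wp_per hl]⟩ (by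
    filter_upwards [he] with z hz
    rw [hz, L.weierstrassP_neg]) h hk
  exact ⟨P, Q, hQ, hP⟩⟩

end Pool.Agent.P.MP_b8021b_nt.CM.O
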