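import Pool.Agent.P.MP_b8021b_nt.CM.Hol

/-! Library L8, first part: the Laurent expansion at infinity. -/

namespace Pool.Agent.P.MP_b8021b_nt.CM

open Complex hiding Gamma
open UpperHalfPlane hiding I
open CongruenceSubgroup Filter
open scoped Real MatrixGroups Modular Topology

noncomputable section

variable {f g : ℍ → ℂ} {M : ℕ}

namespace QE

theorem ofC_add {z : ℂ} (hz : 0 < z.im) (a : ℝ) : ofComplex (z + a) = a +ᵥ ofComplex z := by
  have hz' : 0 < (z + a).im := by simpa using hz
  rw [ofComplex_apply_of_im_pos hz, ofComplex_apply_of_im_pos hz']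
  ext1
  simp [add_comm]

theorem im_pt (u : ℝ) {y : ℝ} (hy : 0 < y) : (pt u y).im = y := by
  rw [← coe_im, coe_pt u hy]; simp

theorem re_pt (u : ℝ) {y : ℝ} (hy : 0 < y) : (pt u y).re = u := by
  rw [← coe_re, coe_pt u hy]; simp

theorem pt_add (u a : ℝ) {y : ℝ} (hy : 0 < y) : pt (u + a) y = a +ᵥ pt u y := by
  have hz : 0 < ((u : ℂ) + y * I).im := by simpa using hy
  rw [pt, pt, ← ofC_add hz]
  congr 1
  push_cast
  ring

theorem periodic_pt (hp : Per M f) {y : ℝ} (hy : 0 < y) :
    Function.Periodic (fun u : ℝ => f (pt u y)) M := fun u => by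
  simp only [pt_add u M hy, hp _]

theorem exists_red (hM : 0 < M) (hp : Per M f) (τ : ℍ) :
    ∃ u : ℝ, 0 ≤ u ∧ u ≤ M ∧ f τ = f (pt u τ.im) := by
  obtain ⟨u, hu, e⟩ := (periodic_pt hp τ.im_pos).exists_mem_Ico₀ (by exact_mod_cast hM) τ.re
  exact ⟨u, hu.1, hu.2.le, by simpa [pt_self] using e⟩

theorem per_nat (hp : Per M f) (k : ℕ) : Per (k * M) f := by
  induction k with
  | zero => intro τ; simp
  | succ k ih =>
    intro τ
    have : (((k + 1) * M : ℕ) : ℝ) +ᵥ τ = ((k * M : ℕ) : ℝ) +ᵥ ((M : ℝ) +ᵥ τ) := by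
      rw [vadd_vadd]; congr 1; push_cast; ring
    rw [this, ih, hp]

theorem hasDerivAt_e (c z : ℂ) : HasDerivAt (fun w => e (c * w)) (2 * π * I * c * e (c * z)) z := by
  have h1 : HasDerivAt (fun w : ℂ => 2 * π * I * (c * w)) (2 * π * I * c) z := by
    simpa using ((hasDerivAt_id z).const_mul c).const_mul (2 * π * I)
  simpa [e, mul_comm] using h1.cexp

theorem continuous_e : Continuous e := by
  unfold e; fun_prop

theorem norm_e_div (n : ℤ) (z : ℂ) : ‖e (n * z / M)‖ = Real.exp (-(2 * π * n * z.im / M)) := by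
  rw [norm_e]
  congr 1
  have : (n * z / M : ℂ) = ((n / M : ℝ) : ℂ) * z := by push_cast; ring
  rw [this, im_ofReal_mul]
  ring

theorem norm_e_neg (n : ℤ) (z : ℂ) : ‖e (-(n * z) / M)‖ = Real.exp (2 * π * n * z.im / M) := by
  have := norm_e_div (M := M) (-n) z
  rw [show (-(n * z) / M : ℂ) = ((-n : ℤ) : ℂ) * z / M by push_cast; ring, this]
  congr 1
  push_cast
  ring

theorem im_line (u y : ℝ) : ((u : ℂ) + y * I).im = y := by simp

/-- orthogonality -/
theorem integral_e (hM : 0 < M) (k : ℤ) (y : ℝ) :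
    ∫ u in (0 : ℝ)..M, e (k * (u + y * I) / M) = if k = 0 then (M : ℂ) else 0 := by
  have hM' : (M : ℂ) ≠ 0 := by exact_mod_cast hM.ne'
  split_ifs with hk
  · simp [hk, e_zero]
  · have hk' : (k : ℂ) ≠ 0 := by exact_mod_cast hk
    have hc : (2 * π * I * (k / M) : ℂ) ≠ 0 :=
      mul_ne_zero two_pi_I_ne_zero (div_ne_zero hk' hM')
    have hd : ∀ u ∈ Set.uIcc (0 : ℝ) M, HasDerivAt
        (fun u : ℝ => e (k / M * (u + y * I)) / (2 * π * I * (k / M)))
        (e (k * (u + y * I) / M)) u := by
      intro u _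
      have h1 := (hasDerivAt_e (k / M) (u + y * I)).comp_add_const (u : ℂ) (y * I)
      have h2 := (h1.comp_ofReal).div_const (2 * π * I * (k / M))
      rw [mul_div_cancel_left₀ _ hc] at h2
      rw [show (k * (u + y * I) / M : ℂ) = k / M * (u + y * I) by ring]
      exact h2
    have hi : IntervalIntegrable (fun u : ℝ => e (k * (u + y * I) / M)) MeasureTheory.volume 0 M :=
      (continuous_e.comp (by fun_prop)).intervalIntegrable _ _
    rw [intervalIntegral.integral_eq_sub_of_hasDerivAt hd hi]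
    have : (k / M * (((M : ℝ) : ℂ) + y * I) : ℂ) = k + k / M * (((0 : ℝ) : ℂ) + y * I) := by
      push_cast; field_simp; ring
    rw [this, e_add, e_int, one_mul, sub_self]

/-- termwise integration -/
theorem hasSum_int {a : ℤ → ℂ} {y : ℝ} {F G : ℝ → ℂ} (hG : Continuous G)
    (hF : ∀ u : ℝ, HasSum (fun k : ℤ => a k * e (k * (u + y * I) / M)) (F u)) :
    HasSum (fun k : ℤ => a k * ∫ u in (0 : ℝ)..M, e (k * (u + y * I) / M) * G u)
      (∫ u in (0 : ℝ)..M, F u * G u) := by
  have hs : Summable fun k : ℤ => ‖a k‖ * Real.exp (-(2 * π * k * y / M)) := by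
    have := (hF 0).summable.norm
    simpa only [norm_mul, norm_e_div, im_line] using this
  have key := intervalIntegral.hasSum_integral_of_dominated_convergence
    (μ := MeasureTheory.volume) (a := (0 : ℝ)) (b := M)
    (F := fun (k : ℤ) (u : ℝ) => a k * (e (k * (u + y * I) / M) * G u)) (f := fun u => F u * G u)
    (fun k u => ‖a k‖ * Real.exp (-(2 * π * k * y / M)) * ‖G u‖)
    (fun k => (continuous_const.mul
      ((continuous_e.comp (by fun_prop)).mul hG)).aestronglyMeasurable)
    (fun k => Eventually.of_forall fun u _ => by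
      rw [norm_mul, norm_mul, norm_e_div, im_line, ← mul_assoc])
    (Eventually.of_forall fun u _ => hs.mul_right _)
    (by
      simp only [tsum_mul_right]
      exact (continuous_const.mul hG.norm).intervalIntegrable _ _)
    (Eventually.of_forall fun u _ => by
      simpa only [mul_assoc] using (hF u).mul_right (G u))
  simpa only [intervalIntegral.integral_const_mul] using key

theorem int_of_hasSum (hM : 0 < M) {a : ℤ → ℂ} {y : ℝ} {F : ℝ → ℂ}
    (hF : ∀ u : ℝ, HasSum (fun k : ℤ => a k * e (k * (u + y * I) / M)) (F u)) (n : ℤ) :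
    (∫ u in (0 : ℝ)..M, F u * e (-(n * (u + y * I)) / M)) / M = a n := by
  have hM' : (M : ℂ) ≠ 0 := by exact_mod_cast hM.ne'
  have h := hasSum_int (G := fun u : ℝ => e (-(n * (u + y * I)) / M))
    (continuous_e.comp (by fun_prop)) hF
  have h2 : ∀ k : ℤ, (a k * ∫ u in (0 : ℝ)..M, e (k * (u + y * I) / M) *
      e (-(n * (u + y * I)) / M)) = if k = n then a n * M else 0 := by
    intro k
    have : ∀ u : ℝ, e (k * (u + y * I) / M) * e (-(n * (u + y * I)) / M) =
        e (((k - n : ℤ) : ℂ) * (u + y * I) / M) := fun u => by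
      rw [← e_add]; congr 1; push_cast; ring
    simp only [this, integral_e hM, sub_eq_zero]
    split_ifs with hk
    · rw [hk]
    · simp
  simp only [h2] at h
  rw [h.unique (hasSum_ite_eq n (a n * M)), mul_div_cancel_right₀ _ hM']

end QE

open QE

theorem coef_height (hM : 0 < M) (h : Hol f) (hp : Per M f) (n : ℤ) {y : ℝ} (hy : 0 < y) :
    coef M f n = (∫ u in (0 : ℝ)..M, f (pt u y) * e (-(n * (u + y * I)) / M)) / M := by
  have hM' : (M : ℂ) ≠ 0 := by exact_mod_cast hM.ne'
  set G : ℂ → ℂ := fun z => f (ofComplex z) * e (-(n * z) / M) with hG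
  have hd : DifferentiableOn ℂ G {z | 0 < z.im} := by
    refine DifferentiableOn.mul h ?_
    unfold e
    fun_prop
  have hper : ∀ z : ℂ, 0 < z.im → G (M + z) = G z := by
    intro z hz
    have h1 : ofComplex (M + z) = (M : ℝ) +ᵥ ofComplex z := by
      rw [← ofC_add hz]; congr 1; push_cast; ring
    have h2 : (-(n * (M + z)) / M : ℂ) = ((-n : ℤ) : ℂ) + -(n * z) / M := by
      push_cast; field_simp; ring
    simp only [hG, h1, hp _, h2, e_add, e_int, one_mul]
  have key := integral_boundary_rect_eq_zero_of_differentiableOn G ⟨0, y⟩ ⟨M, 1⟩ (hd.mono (by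
    intro z hz
    have h2 := (mem_reProdIm.1 hz).2
    have : min y 1 ≤ z.im := h2.1
    exact lt_of_lt_of_le (lt_min hy one_pos) this))
  have hv : (∫ t : ℝ in y..1, G (((M : ℝ) : ℂ) + t * I)) =
      ∫ t : ℝ in y..1, G (((0 : ℝ) : ℂ) + t * I) := by
    refine intervalIntegral.integral_congr fun t ht => ?_
    have : min y 1 ≤ t := ht.1
    have ht0 : 0 < t := lt_of_lt_of_le (lt_min hy one_pos) this
    simpa using hper (t * I) (by simpa using ht0)
  simp only at key
  rw [hv, add_sub_cancel_right, sub_eq_zero] at key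
  unfold coef
  congr 1
  simpa [hG, pt] using key.symm

theorem norm_coef_le (hM : 0 < M) (h : Hol f) (hp : Per M f) (n : ℤ) {y B : ℝ} (hy : 0 < y)
    (hB : ∀ u : ℝ, 0 ≤ u → u ≤ M → ‖f (pt u y)‖ ≤ B) :
    ‖coef M f n‖ ≤ B * Real.exp (2 * π * n * y / M) := by
  have hM' : (0 : ℝ) < M := by exact_mod_cast hM
  rw [coef_height hM h hp n hy, norm_div, Complex.norm_natCast, div_le_iff₀ hM']
  have := intervalIntegral.norm_integral_le_of_norm_le_const (a := 0) (b := M)
    (C := B * Real.exp (2 * π * n * y / M))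
    (f := fun u : ℝ => f (pt u y) * e (-(n * (u + y * I)) / M)) (by
      intro u hu
      rw [Set.uIoc_of_le hM'.le] at hu
      rw [norm_mul, norm_e_neg, im_line]
      exact mul_le_mul_of_nonneg_right (hB u hu.1.le hu.2) (Real.exp_pos _).le)
  simpa [abs_of_pos hM'] using this

namespace QE

theorem exists_bound (h : Hol f) {y : ℝ} (hy : 0 < y) (M : ℕ) :
    ∃ B : ℝ, ∀ u : ℝ, 0 ≤ u → u ≤ M → ‖f (pt u y)‖ ≤ B := by
  obtain ⟨B, hB⟩ := (isCompact_Icc (a := (0 : ℝ)) (b := M)).exists_bound_of_continuousOn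
    (h.continuous.comp (continuous_pt hy)).continuousOn
  exact ⟨B, fun u h1 h2 => hB u ⟨h1, h2⟩⟩

theorem summable_coef (hM : 0 < M) (h : Hol f) (hp : Per M f) {y : ℝ} (hy : 0 < y) :
    Summable fun n : ℤ => ‖coef M f n‖ * Real.exp (-(2 * π * n * y / M)) := by
  have hM' : (0 : ℝ) < M := by exact_mod_cast hM
  have hr : Real.exp (-(π * y / M)) < 1 :=
    Real.exp_lt_one_iff.2 (neg_lt_zero.2 (div_pos (mul_pos Real.pi_pos hy) hM'))
  have hg := summable_geometric_of_lt_one (Real.exp_pos _).le hr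
  obtain ⟨B, hB⟩ := exists_bound h (half_pos hy) M
  obtain ⟨B', hB'⟩ := exists_bound h (y := 3 * y / 2) (by positivity) M
  refine Summable.of_nat_of_neg ?_ ?_
  · refine Summable.of_nonneg_of_le (fun n => by positivity) (fun n => ?_) (hg.mul_left B)
    refine (mul_le_mul_of_nonneg_right (norm_coef_le hM h hp n (half_pos hy) hB)
      (Real.exp_pos _).le).trans (le_of_eq ?_)
    rw [mul_assoc, ← Real.exp_add, ← Real.exp_nat_mul]
    congr 2
    push_cast
    ring
  · refine Summable.of_nonneg_of_le (fun n => by positivity) (fun n => ?_) (hg.mul_left B')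
    refine (mul_le_mul_of_nonneg_right (norm_coef_le hM h hp (-n) (by positivity) hB')
      (Real.exp_pos _).le).trans (le_of_eq ?_)
    rw [mul_assoc, ← Real.exp_add, ← Real.exp_nat_mul]
    congr 2
    push_cast
    ring

end QE

theorem hasSum_coef (hM : 0 < M) (h : Hol f) (hp : Per M f) (τ : ℍ) :
    HasSum (fun n : ℤ => coef M f n * e (n * τ / M)) (f τ) := by
  have hM' : (0 : ℝ) < M := by exact_mod_cast hM
  have hM'' : (M : ℂ) ≠ 0 := by exact_mod_cast hM.ne'
  have : Fact ((0 : ℝ) < M) := ⟨hM'⟩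
  have hy := τ.im_pos
  let F : C(AddCircle (M : ℝ), ℂ) := ⟨(periodic_pt hp hy).lift,
    continuous_coinduced_dom.mpr (h.continuous.comp (continuous_pt hy))⟩
  have hF : ∀ u : ℝ, F (u : AddCircle (M : ℝ)) = f (pt u τ.im) := fun u => rfl
  have hc : ∀ n : ℤ, fourierCoeff F n = coef M f n * e (n * (τ.im * I) / M) := by
    intro n
    rw [fourierCoeff_eq_intervalIntegral F n 0, coef_height hM h hp n hy, zero_add,
      div_mul_eq_mul_div, ← intervalIntegral.integral_mul_const, real_smul]
    have : ∀ u : ℝ, fourier (-n) (u : AddCircle (M : ℝ)) • F u =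
        f (pt u τ.im) * e (-(n * (u + τ.im * I)) / M) * e (n * (τ.im * I) / M) := by
      intro u
      rw [hF, fourier_coe_apply, mul_assoc (f _), ← e_add, smul_eq_mul, mul_comm, e]
      congr 2
      push_cast
      ring
    simp only [this]
    push_cast
    ring
  have hs : Summable (fourierCoeff F) := by
    refine Summable.of_norm ?_
    simp only [hc, norm_mul, norm_e_div]
    simpa using summable_coef hM h hp hy
  have := has_pointwise_sum_fourier_series_of_summable hs (τ.re : AddCircle (M : ℝ))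
  rw [hF, pt_self] at this
  convert this using 2 with n
  rw [hc, fourier_coe_apply, smul_eq_mul, mul_assoc]
  congr 1
  rw [e, e, ← Complex.exp_add]
  congr 1
  have : (τ : ℂ) = τ.re + τ.im * I := (UpperHalfPlane.re_add_im τ).symm
  push_cast
  linear_combination (2 * π * I * n / M : ℂ) * this

theorem coef_unique (hM : 0 < M) (h : Hol f) (hp : Per M f) {a : ℤ → ℂ} {Y : ℝ}
    (ha : ∀ τ : ℍ, Y < τ.im → HasSum (fun n : ℤ => a n * e (n * τ / M)) (f τ)) (n : ℤ) :
    coef M f n = a n := by
  have hy : 0 < max Y 0 + 1 := by positivity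
  rw [coef_height hM h hp n hy]
  refine int_of_hasSum hM (F := fun u => f (pt u (max Y 0 + 1))) (fun u => ?_) n
  have := ha (pt u (max Y 0 + 1)) (by rw [im_pt u hy]; linarith [le_max_left Y 0])
  rwa [coe_pt u hy] at this

theorem seq_unique (hM : 0 < M) {a : ℤ → ℂ} {Y : ℝ}
    (ha : ∀ τ : ℍ, Y < τ.im → HasSum (fun n : ℤ => a n * e (n * τ / M)) 0) (n : ℤ) : a n = 0 := by
  rw [← coef_unique hM (f := fun _ => 0) (hol_const 0) (fun _ => rfl) ha n]
  simp [coef]

theorem eq_of_coef (hM : 0 < M) (h : Hol f) (hp : Per M f) (h' : Hol g) (hp' : Per M g)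
    (e : ∀ n, coef M f n = coef M g n) : f = g := by
  funext τ
  have h1 := hasSum_coef hM h hp τ
  simp only [e] at h1
  exact h1.unique (hasSum_coef hM h' hp' τ)

namespace QE

theorem ii (h : Continuous f) (n : ℤ) : IntervalIntegrable
    (fun u : ℝ => f (pt u 1) * e (-(n * (u + I)) / M)) MeasureTheory.volume 0 M :=
  ((h.comp (continuous_pt one_pos)).mul (continuous_e.comp (by fun_prop))).intervalIntegrable _ _

end QE

theorem coef_add (h : Continuous f) (h' : Continuous g) (n : ℤ) :
    coef M (f + g) n = coef M f n + coef M g n := by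
  simp only [coef, Pi.add_apply, add_mul]
  rw [intervalIntegral.integral_add (ii h n) (ii h' n), add_div]

theorem coef_smul (c : ℂ) (f : ℍ → ℂ) (n : ℤ) : coef M (c • f) n = c * coef M f n := by
  simp only [coef, Pi.smul_apply, smul_eq_mul, mul_assoc]
  rw [intervalIntegral.integral_const_mul, mul_div_assoc]

theorem coef_sum {ι : Type} (s : Finset ι) (F : ι → ℍ → ℂ) (h : ∀ i ∈ s, Continuous (F i))
    (n : ℤ) : coef M (∑ i ∈ s, F i) n = ∑ i ∈ s, coef M (F i) n := by
  simp only [coef, Finset.sum_apply, Finset.sum_mul]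
  rw [intervalIntegral.integral_finsetSum fun i hi => ii (h i hi) n, Finset.sum_div]

theorem coef_const (hM : 0 < M) (c : ℂ) (n : ℤ) :
    coef M (fun _ => c) n = if n = 0 then c else 0 := by
  refine coef_unique hM (hol_const c) (fun _ => rfl) (a := fun n => if n = 0 then c else 0)
    (Y := 0) (fun τ _ => ?_) n
  convert hasSum_ite_eq (0 : ℤ) c using 2 with k
  split_ifs with hk
  · simp [hk, e_zero]
  · simp

theorem coef_level (hM : 0 < M) (h : Hol f) (hp : Per M f) {k : ℕ} (hk : 0 < k) (n : ℤ) :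
    coef (k * M) f n = if (k : ℤ) ∣ n then coef M f (n / k) else 0 := by
  have hk' : (k : ℤ) ≠ 0 := by exact_mod_cast hk.ne'
  have hk'' : (k : ℂ) ≠ 0 := by exact_mod_cast hk.ne'
  refine coef_unique (Nat.mul_pos hk hM) h (per_nat hp k)
    (a := fun n => if (k : ℤ) ∣ n then coef M f (n / k) else 0) (Y := 0) (fun τ _ => ?_) n
  have hinj : Function.Injective fun m : ℤ => (k : ℤ) * m := mul_right_injective₀ hk'
  rw [← hinj.hasSum_iff]
  · convert hasSum_coef hM h hp τ using 2 with m
    simp only [Function.comp_apply, dvd_mul_right, if_true, Int.mul_ediv_cancel_left _ hk']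
    congr 2
    push_cast
    field_simp
  · intro x hx
    rw [if_neg, zero_mul]
    rintro ⟨m, rfl⟩
    exact hx ⟨m, rfl⟩

theorem coef_der (hM : 0 < M) (h : Hol f) (hp : Per M f) (n : ℤ) :
    coef M (der f) n = 2 * π * I * n / M * coef M f n := by
  have hM'' : (M : ℂ) ≠ 0 := by exact_mod_cast hM.ne'
  have hd : ∀ u ∈ Set.uIcc (0 : ℝ) M, HasDerivAt
      (fun u : ℝ => f (pt u 1) * e (-(n * (u + I)) / M))
      (der f (pt u 1) * e (-(n * (u + I)) / M) -
        2 * π * I * n / M * (f (pt u 1) * e (-(n * (u + I)) / M))) u := by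
    intro u _
    have h0 : HasDerivAt (f ∘ ofComplex) (der f (pt u 1)) (u + I) := by
      have := (h.analyticAt (pt u 1)).differentiableAt.hasDerivAt
      rw [der]
      simpa [coe_pt u one_pos] using this
    have h1 := ((h0.mul (hasDerivAt_e (-(n / M)) (u + I))).comp_add_const (u : ℂ) I).comp_ofReal
    have e1 : ∀ z : ℂ, -(n / M : ℂ) * z = -(n * z) / M := fun z => by ring
    simp only [e1, Pi.mul_apply, Function.comp_apply] at h1
    convert h1 using 1
    · funext v; simp [pt]
    · simp only [pt]; push_cast; rw [one_mul]; ring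
  have hi1 := ii (M := M) h.deriv.continuous n
  have hi2 := (ii (M := M) h.continuous n).const_mul (2 * π * I * n / M)
  have key := intervalIntegral.integral_eq_sub_of_hasDerivAt hd (hi1.sub hi2)
  have h2 : (-(n * (((M : ℝ) : ℂ) + I)) / M : ℂ) =
      ((-n : ℤ) : ℂ) + -(n * (((0 : ℝ) : ℂ) + I)) / M := by
    push_cast; field_simp; ring
  have h3 : f (pt M 1) = f (pt 0 1) := by simpa using periodic_pt hp one_pos 0
  rw [intervalIntegral.integral_sub hi1 hi2, h2, e_add, e_int, one_mul, h3, sub_self, sub_eq_zero,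
    intervalIntegral.integral_const_mul] at key
  rw [coef, coef, key, mul_div_assoc]

end

end Pool.Agent.P.MP_b8021b_nt.CM
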