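import Pool.Agent.P.MP_b8021b_nt.CM.OBas
import Pool.Agent.P.MP_b8021b_nt.CM.QExp0

/-! Expansion in two variables. -/

namespace Pool.Agent.P.MP_b8021b_nt.CM.O

open Complex hiding Gamma
open UpperHalfPlane hiding I
open CongruenceSubgroup Filter Pool.Agent.P.MP_7ebcb6_ag QE
open scoped Real MatrixGroups Topology

noncomputable section

namespace OExpP

theorem zero_of_le {z : ℂ} {K : ℝ} {p : ℤ} (hp : p < 0)
    (h : ∀ s : ℝ, 0 < s → ‖z‖ ≤ K * Real.exp (π * s) * Real.exp (2 * π * p * s)) : z = 0 := by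
  have hp' : (p : ℝ) ≤ -1 := by exact_mod_cast (show p ≤ -1 by omega)
  have hK : 0 ≤ K := by
    have h1 := (norm_nonneg z).trans (h 1 one_pos)
    by_contra hK
    have : K * Real.exp (π * 1) * Real.exp (2 * π * p * 1) < 0 :=
      mul_neg_of_neg_of_pos (mul_neg_of_neg_of_pos (not_le.1 hK) (Real.exp_pos _))
        (Real.exp_pos _)
    linarith
  have ht : Tendsto (fun s : ℝ => K * Real.exp (-(π * s))) atTop (𝓝 (K * 0)) :=
    (Real.tendsto_exp_neg_atTop_nhds_zero.comp
      (tendsto_id.const_mul_atTop Real.pi_pos)).const_mul K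
  rw [mul_zero] at ht
  refine norm_le_zero_iff.1 (ge_of_tendsto ht ?_)
  filter_upwards [eventually_gt_atTop 0] with s hs
  refine (h s hs).trans ?_
  rw [mul_assoc, ← Real.exp_add]
  refine mul_le_mul_of_nonneg_left (Real.exp_le_exp.2 ?_) hK
  have : 0 ≤ π * s := (mul_pos Real.pi_pos hs).le
  nlinarith

theorem per_one {g : ℍ → ℂ} (h : ∀ x, g ((1 : ℝ) +ᵥ x) = g x) : Per 1 g := fun x => by
  simpa using h x

theorem bound {g : ℍ → ℂ} {K : ℝ} (h : Hol g) (hp : Per 1 g)
    (hK : ∀ x, ‖g x‖ ≤ K * Real.exp (π * x.im)) (p : ℤ) {s : ℝ} (hs : 0 < s) :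
    ‖coef 1 g p‖ ≤ K * Real.exp (π * s) * Real.exp (2 * π * p * s) := by
  have := norm_coef_le one_pos h hp p hs (B := K * Real.exp (π * s))
    fun u _ _ => by simpa only [im_pt u hs] using hK (pt u s)
  simpa using this

theorem nat_iff {a : ℤ → ℂ} (ha : ∀ p < 0, a p = 0) (z w : ℂ) :
    HasSum (fun p : ℕ => a p * e (p * z)) w ↔
      HasSum (fun p : ℤ => a p * e (p * z / (1 : ℕ))) w := by
  rw [← (Nat.cast_injective (R := ℤ)).hasSum_iff]
  · simp [Function.comp_def]
  · intro p hp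
    rw [ha p, zero_mul]
    by_contra h0
    exact hp ⟨p.toNat, Int.toNat_of_nonneg (not_lt.1 h0)⟩

theorem hasSum_nat {g : ℍ → ℂ} {K : ℝ} (h : Hol g) (hp : Per 1 g)
    (hK : ∀ x, ‖g x‖ ≤ K * Real.exp (π * x.im)) (x : ℍ) :
    HasSum (fun p : ℕ => coef 1 g p * e (p * x)) (g x) :=
  (nat_iff (fun _ hp' => zero_of_le hp' fun _ hs => bound h hp hK _ hs) _ _).2
    (hasSum_coef one_pos h hp x)

theorem norm_en (p : ℕ) (x : ℍ) : ‖e (p * x)‖ = Real.exp (-(2 * π * p * x.im)) := by
  rw [norm_e]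
  congr 1
  simp
  ring

theorem geo (p : ℕ) (t : ℝ) : Real.exp (2 * π * ((p : ℤ) : ℝ) * (t / 2)) *
    Real.exp (-(2 * π * p * t)) = Real.exp (-(π * t)) ^ p := by
  rw [← Real.exp_add, ← Real.exp_nat_mul]
  congr 1
  push_cast
  ring

theorem geo_sum {t : ℝ} (ht : 0 < t) : Summable fun p : ℕ => Real.exp (-(π * t)) ^ p :=
  summable_geometric_of_lt_one (Real.exp_pos _).le
    (Real.exp_lt_one_iff.2 (neg_lt_zero.2 (mul_pos Real.pi_pos ht)))

structure Sc (f : ℍ → ℍ → ℂ) (K : ℝ) : Prop where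
  hol1 : ∀ y, Hol fun x => f x y
  hol2 : ∀ x, Hol fun y => f x y
  cont : Continuous fun p : ℍ × ℍ => f p.1 p.2
  per1 : ∀ y, Per 1 fun x => f x y
  per2 : ∀ x, Per 1 fun y => f x y
  gro : ∀ x y, ‖f x y‖ ≤ K * Real.exp (π * x.im) * Real.exp (π * y.im)

variable {f : ℍ → ℍ → ℂ} {K : ℝ}

def ca (f : ℍ → ℍ → ℂ) (p : ℤ) (y : ℍ) : ℂ := coef 1 (fun x => f x y) p

def cb (f : ℍ → ℍ → ℂ) (r : ℤ) (x : ℍ) : ℂ := coef 1 (fun y => f x y) r

def cc (f : ℍ → ℍ → ℂ) (p r : ℤ) : ℂ := coef 1 (cb f r) p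

theorem Sc.gro' (h : Sc f K) (y x : ℍ) :
    ‖f x y‖ ≤ K * Real.exp (π * y.im) * Real.exp (π * x.im) := by
  rw [mul_right_comm]; exact h.gro x y

theorem Sc.cb_le (h : Sc f K) (r : ℤ) (x : ℍ) {t : ℝ} (ht : 0 < t) :
    ‖cb f r x‖ ≤ K * Real.exp (π * x.im) * Real.exp (π * t) * Real.exp (2 * π * r * t) :=
  bound (h.hol2 x) (h.per2 x) (h.gro x) r ht

theorem Sc.ca_le (h : Sc f K) (p : ℤ) (y : ℍ) {s : ℝ} (hs : 0 < s) :
    ‖ca f p y‖ ≤ K * Real.exp (π * y.im) * Real.exp (π * s) * Real.exp (2 * π * p * s) :=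
  bound (h.hol1 y) (h.per1 y) (h.gro' y) p hs

theorem Sc.cb_cont (h : Sc f K) (r : ℤ) : Continuous (cb f r) := by
  unfold cb coef
  refine Continuous.div_const ?_ _
  refine intervalIntegral.continuous_parametric_intervalIntegral_of_continuous' ?_ _ _
  refine Continuous.mul ?_ (continuous_e.comp (by fun_prop))
  exact h.cont.comp (continuous_fst.prodMk ((continuous_pt one_pos).comp continuous_snd))

theorem Sc.cc_neg (h : Sc f K) (p : ℤ) (r : ℤ) (hr : r < 0) : cc f p r = 0 := by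
  have : cb f r = fun _ => 0 := funext fun x => zero_of_le hr fun _ ht => h.cb_le r x ht
  simp [cc, this, coef]

theorem Sc.hasSum_ca (h : Sc f K) (p : ℤ) (y : ℍ) :
    HasSum (fun r : ℕ => cc f p r * e (r * y)) (ca f p y) := by
  have hy := y.im_pos
  have hG : Continuous fun u : ℝ => e (-(p * (u + I)) / (1 : ℕ)) :=
    continuous_e.comp (by fun_prop)
  have key := intervalIntegral.hasSum_integral_of_dominated_convergence
    (μ := MeasureTheory.volume) (a := (0 : ℝ)) (b := ((1 : ℕ) : ℝ))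
    (F := fun (r : ℕ) (u : ℝ) =>
      cb f r (pt u 1) * e (-(p * (u + I)) / (1 : ℕ)) * e (r * y))
    (f := fun u => f (pt u 1) y * e (-(p * (u + I)) / (1 : ℕ)))
    (fun r u => Real.exp (-(π * y.im)) ^ r *
      (K * Real.exp (π * 1) * Real.exp (π * (y.im / 2)) * ‖e (-(p * (u + I)) / (1 : ℕ))‖))
    (fun r => ((((h.cb_cont r).comp (continuous_pt one_pos)).mul hG).mul
      continuous_const).aestronglyMeasurable)
    (fun r => Eventually.of_forall fun u _ => by
      have h1 := h.cb_le r (pt u 1) (half_pos hy)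
      rw [im_pt u one_pos] at h1
      rw [norm_mul, norm_mul, norm_en, ← geo]
      have h2 := mul_le_mul_of_nonneg_right h1 (mul_nonneg
        (norm_nonneg (e (-(p * (u + I)) / (1 : ℕ))))
        (Real.exp_pos (-(2 * π * r * y.im))).le)
      calc _ = _ := by ring
        _ ≤ _ := h2
        _ = _ := by ring)
    (Eventually.of_forall fun u _ => (geo_sum hy).mul_right _)
    (by
      simp only [tsum_mul_right]
      exact (continuous_const.mul (continuous_const.mul hG.norm)).intervalIntegrable _ _)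
    (Eventually.of_forall fun u _ => by
      have := (hasSum_nat (h.hol2 (pt u 1)) (h.per2 _) (h.gro _) y).mul_right
        (e (-(p * (u + I)) / (1 : ℕ)))
      simpa only [cb, mul_right_comm] using this)
  simp only [intervalIntegral.integral_mul_const] at key
  have := key.div_const ((1 : ℕ) : ℂ)
  simpa only [cc, ca, coef, div_mul_eq_mul_div] using this

theorem Sc.cc_le (h : Sc f K) (p r : ℤ) {s t : ℝ} (hs : 0 < s) (ht : 0 < t) :
    ‖cc f p r‖ ≤ K * Real.exp (π * t) * Real.exp (π * s) * Real.exp (2 * π * p * s) *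
      Real.exp (2 * π * r * t) := by
  have h1 := int_of_hasSum one_pos (a := cc f p) (y := t) (F := fun v => ca f p (pt v t))
    (fun v => by
      have := (nat_iff (h.cc_neg p) _ _).1 (h.hasSum_ca p (pt v t))
      rwa [coe_pt v ht] at this) r
  rw [← h1]
  have := intervalIntegral.norm_integral_le_of_norm_le_const (a := 0) (b := ((1 : ℕ) : ℝ))
    (C := K * Real.exp (π * t) * Real.exp (π * s) * Real.exp (2 * π * p * s) *
      Real.exp (2 * π * r * t))
    (f := fun v : ℝ => ca f p (pt v t) * e (-(r * (v + t * I)) / (1 : ℕ))) (by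
      intro v _
      rw [norm_mul, norm_e_neg, im_line]
      have h2 := h.ca_le p (pt v t) hs
      rw [im_pt v ht] at h2
      simpa using mul_le_mul_of_nonneg_right h2 (Real.exp_pos (2 * π * r * t)).le)
  simpa using this

theorem Sc.hasSum (h : Sc f K) (x y : ℍ) :
    HasSum (fun q : ℕ × ℕ => e (q.1 * x + q.2 * y) * cc f q.1 q.2) (f x y) := by
  have hx := x.im_pos
  have hy := y.im_pos
  have hs : Summable fun q : ℕ × ℕ => e (q.1 * x + q.2 * y) * cc f q.1 q.2 := by
    have h0 := ((geo_sum hx).mul_of_nonneg (geo_sum hy) (fun _ => by positivity)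
      (fun _ => by positivity)).mul_left
      (K * Real.exp (π * (y.im / 2)) * Real.exp (π * (x.im / 2)))
    refine Summable.of_norm_bounded h0 fun q => ?_
    rw [e_add, norm_mul, norm_mul, norm_en, norm_en, ← geo, ← geo]
    have h2 := mul_le_mul_of_nonneg_left (h.cc_le q.1 q.2 (half_pos hx) (half_pos hy))
      (mul_nonneg (Real.exp_pos (-(2 * π * q.1 * x.im))).le
        (Real.exp_pos (-(2 * π * q.2 * y.im))).le)
    calc _ ≤ _ := h2
      _ = _ := by ring
  have h1 : HasSum (fun p : ℕ => ca f p y * e (p * x)) _ := hs.hasSum.prod_fiberwise fun p => by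
    have := (h.hasSum_ca p y).mul_right (e (p * x))
    have e1 : (fun r : ℕ => e (p * x + r * y) * cc f p r) =
        fun r : ℕ => cc f p r * e (r * y) * e (p * x) := funext fun r => by
      rw [e_add]
      ring
    exact e1 ▸ this
  have h2 := hasSum_nat (h.hol1 y) (h.per1 y) (h.gro' y) x
  have h3 := h1.unique h2
  rw [← h3]
  exact hs.hasSum

end OExpP

open OExpP in
theorem expS : S_Exp := by
  intro n H h
  obtain ⟨K, hK⟩ := h.gro
  have hs : ∀ i, Sc (fun x y => H x y i) K := fun i =>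
    ⟨fun y => h.hol1 y i, fun x => h.hol2 x i, (continuous_apply i).comp h.cont,
      fun y => per_one fun x => by rw [h.per1], fun x => per_one fun y => by rw [h.per2],
      fun x y => (norm_le_pi_norm _ i).trans (hK x y)⟩
  exact ⟨fun q i => cc (fun x y => H x y i) q.1 q.2, fun x y =>
    Pi.hasSum.2 fun i => (hs i).hasSum x y⟩

end

end Pool.Agent.P.MP_b8021b_nt.CM.O
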