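import Pool.Agent.P.MP_b8021b_nt.CM.OFr

/-! Existence of a frame, and extension of isometries. -/

namespace Pool.Agent.P.MP_b8021b_nt.CM.O

noncomputable section

namespace OExtP

section abstract

variable {V : Type} [AddCommGroup V] [Module ℚ V] {B : LinearMap.BilinForm ℚ V}

/-- the reflection in a vector of nonzero length -/
theorem exists_refl (hB : ∀ x y, B x y = B y x) {v : V} (hv : B v v ≠ 0) :
    ∃ g : V ≃ₗ[ℚ] V, (∀ x y, B (g x) (g y) = B x y) ∧ ∀ x, g x = x - (2 / B v v * B v x) • v := by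
  have h2 : ((2 / B v v) • B v) v = 2 := by
    rw [LinearMap.smul_apply, smul_eq_mul, div_mul_cancel₀ _ hv]
  have e : ∀ x, Module.reflection h2 x = x - (2 / B v v * B v x) • v := fun x => by
    rw [Module.reflection_apply, LinearMap.smul_apply, smul_eq_mul]
  refine ⟨Module.reflection h2, fun x y => ?_, e⟩
  rw [e, e]
  simp only [map_sub, map_smul, LinearMap.sub_apply, LinearMap.smul_apply, smul_eq_mul, hB x v]
  field_simp
  ring

/-- two vectors of the same nonzero length are related by an isometry that fixes the vectors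
orthogonal to both -/
theorem exists_move (hB : ∀ x y, B x y = B y x) {x y : V} (hxy : B x x = B y y) (hy : B y y ≠ 0) :
    ∃ g : V ≃ₗ[ℚ] V, (∀ a b, B (g a) (g b) = B a b) ∧ g x = y ∧
      ∀ z, B x z = 0 → B y z = 0 → g z = z := by
  by_cases h : B (x - y) (x - y) = 0
  · have h1 : B x y = B y y := by
      simp only [map_sub, LinearMap.sub_apply, hB y x, hxy] at h
      linarith
    have h2 : B (x + y) (x + y) = 4 * B y y := by
      simp only [map_add, LinearMap.add_apply, hB y x, hxy, h1]
      ring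
    have h3 : B (x + y) x = 2 * B y y := by
      simp only [map_add, LinearMap.add_apply, hB y x, hxy, h1]
      ring
    obtain ⟨g, i1, e1⟩ := exists_refl hB (v := x + y) (by rw [h2]; exact mul_ne_zero four_ne_zero hy)
    obtain ⟨g', i2, e2⟩ := exists_refl hB hy
    have f1 : g x = -y := by
      rw [e1, h2, h3, show 2 / (4 * B y y) * (2 * B y y) = 1 by field_simp; norm_num, one_smul]
      abel
    refine ⟨g.trans g', fun a b => ?_, ?_, fun z hx hz => ?_⟩
    · rw [LinearEquiv.trans_apply, LinearEquiv.trans_apply, i2, i1]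
    · rw [LinearEquiv.trans_apply, f1, map_neg, e2, div_mul_cancel₀ _ hy, two_smul]
      abel
    · have : g z = z := by
        have h4 : B (x + y) z = 0 := by rw [map_add, LinearMap.add_apply, hx, hz, add_zero]
        rw [e1, h4, mul_zero, zero_smul, sub_zero]
      rw [LinearEquiv.trans_apply, this, e2, hz, mul_zero, zero_smul, sub_zero]
  · obtain ⟨g, i1, e1⟩ := exists_refl hB h
    have h2 : B (x - y) (x - y) = 2 * B (x - y) x := by
      simp only [map_sub, LinearMap.sub_apply, hB y x, hxy]
      ring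
    have h3 : B (x - y) x ≠ 0 := fun h0 => h (by rw [h2, h0, mul_zero])
    refine ⟨g, i1, ?_, fun z hx hz => ?_⟩
    · rw [e1, h2, show 2 / (2 * B (x - y) x) * B (x - y) x = 1 by field_simp, one_smul]
      abel
    · have h4 : B (x - y) z = 0 := by rw [map_sub, LinearMap.sub_apply, hx, hz, sub_zero]
      rw [e1, h4, mul_zero, zero_smul, sub_zero]

theorem ext_orth (hB : ∀ x y, B x y = B y x) {ι : Type} (u u' : ι → V)
    (h : ∀ i l, B (u i) (u l) = B (u' i) (u' l)) (ho : ∀ i l, i ≠ l → B (u i) (u l) = 0)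
    (hn : ∀ i, B (u i) (u i) ≠ 0) (s : Finset ι) :
    ∃ g : V ≃ₗ[ℚ] V, (∀ a b, B (g a) (g b) = B a b) ∧ ∀ i ∈ s, g (u i) = u' i := by
  classical
  induction s using Finset.induction_on with
  | empty => exact ⟨LinearEquiv.refl _ _, fun _ _ => rfl, fun i hi => by simp at hi⟩
  | insert a s ha ih =>
    obtain ⟨g, i1, e1⟩ := ih
    obtain ⟨g', i2, e2, f2⟩ := exists_move hB (x := g (u a)) (y := u' a) (by rw [i1, h])
      (by rw [← h]; exact hn a)
    refine ⟨g.trans g', fun x y => ?_, fun i hi => ?_⟩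
    · rw [LinearEquiv.trans_apply, LinearEquiv.trans_apply, i2, i1]
    · rw [LinearEquiv.trans_apply]
      rcases Finset.mem_insert.mp hi with rfl | hi
      · exact e2
      · have hne : a ≠ i := fun e => ha (e ▸ hi)
        rw [e1 i hi]
        refine f2 _ ?_ ?_
        · rw [← e1 i hi, i1]
          exact ho _ _ hne
        · rw [← h]
          exact ho _ _ hne

theorem ext_gen (hB : ∀ x y, B x y = B y x) {r : ℕ} (u u' : Fin r → V)
    (h : ∀ i l, B (u i) (u l) = B (u' i) (u' l))
    (hd : (Matrix.of fun i l => B (u i) (u l)).det ≠ 0) :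
    ∃ g : V ≃ₗ[ℚ] V, (∀ a b, B (g a) (g b) = B a b) ∧ ∀ i, g (u i) = u' i := by
  let p := Fintype.linearCombination ℚ u
  let p' := Fintype.linearCombination ℚ u'
  have hp : ∀ c d, B (p c) (p d) = B (p' c) (p' d) := fun c d => by
    simp only [p, p', Fintype.linearCombination_apply, map_sum, map_smul, LinearMap.sum_apply,
      LinearMap.smul_apply, h]
  let G : LinearMap.BilinForm ℚ (Fin r → ℚ) := B.compl₁₂ p p
  have hG : ∀ c d, G c d = B (p c) (p d) := fun _ _ => rfl
  have : Invertible (2 : ℚ) := invertibleOfNonzero two_ne_zero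
  obtain ⟨v, hv⟩ := LinearMap.BilinForm.exists_orthogonal_basis (B := G)
    ⟨fun c d => by rw [hG, hG, hB]; rfl⟩
  have ho : ∀ i l, i ≠ l → B (p (v i)) (p (v l)) = 0 := fun i l hil => hv hil
  have hn : ∀ i, B (p (v i)) (p (v i)) ≠ 0 := fun i h0 => by
    have h1 : G (v i) = 0 := v.ext fun l => by
      by_cases hil : i = l
      · rw [← hil]; exact h0
      · exact ho i l hil
    refine v.ne_zero i (Matrix.eq_zero_of_vecMul_eq_zero hd ?_)
    ext l
    have h2 : G (v i) (Pi.single l 1) = 0 := by rw [h1]; rfl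
    rw [hG, Fintype.linearCombination_apply_single, one_smul] at h2
    simpa only [p, Fintype.linearCombination_apply, map_sum, map_smul, LinearMap.sum_apply,
      LinearMap.smul_apply, smul_eq_mul, Matrix.vecMul, dotProduct, Matrix.of_apply,
      Pi.zero_apply] using h2
  obtain ⟨g, i1, e1⟩ := ext_orth hB (fun k => p (v k)) (fun k => p' (v k)) (fun i l => hp _ _) ho hn
    Finset.univ
  have e2 : g.toLinearMap.comp p = p' := v.ext fun k => e1 k (Finset.mem_univ k)
  refine ⟨g, i1, fun i => ?_⟩
  have := LinearMap.congr_fun e2 (Pi.single i 1)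
  simpa only [p, p', LinearMap.comp_apply, Fintype.linearCombination_apply_single, one_smul,
    LinearEquiv.coe_coe] using this

end abstract

variable {m : ℕ}

/-- the form as a bilinear map -/
def bl (S : ZM m) : LinearMap.BilinForm ℚ (QV m) :=
  LinearMap.mk₂ ℚ (bf S) bf_add_left bf_smul_left (fun z x y => bf_add_right x y z)
    fun c z x => bf_smul_right c x z

theorem bl_apply (S : ZM m) (x y : QV m) : bl S x y = bf S x y := rfl

/-- every linear form is given by a vector -/
theorem exists_vec {S : ZM m} (hd : S.det ≠ 0) (f : QV m →ₗ[ℚ] ℚ) :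
    ∃ x : QV m, ∀ y, bf S y x = f y := by
  have h1 : IsUnit (S.map (Int.cast : ℤ → ℚ)) := by
    rw [Matrix.isUnit_iff_isUnit_det, isUnit_iff_ne_zero]
    have := (Int.castRingHom ℚ).map_det S
    change ((S.det : ℤ) : ℚ) = (S.map (Int.cast : ℤ → ℚ)).det at this
    rw [← this]
    exact_mod_cast hd
  obtain ⟨x, hx⟩ := Matrix.mulVec_surjective_iff_isUnit.mpr h1
    fun i => f fun j => if i = j then 1 else 0
  refine ⟨x, fun y => ?_⟩
  rw [bf, hx, LinearMap.pi_apply_eq_sum_univ f y]
  rfl

end OExtP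

open OExtP

theorem extS : S_Ext := fun _ S hS _ u u' h hd =>
  ext_gen (B := bl S) (fun x y => bf_comm hS x y) u u' h hd

theorem fr0S : S_Fr0 := by
  intro m S hS hd e he h0
  obtain ⟨g, hg⟩ := LinearMap.exists_leftInverse_of_injective (Fintype.linearCombination ℚ e)
    (LinearMap.ker_eq_bot.mpr
      (linearIndependent_iff_injective_fintypeLinearCombination.mp he))
  have hg' : ∀ l, g (e l) = Pi.single l 1 := fun l => by
    have := LinearMap.congr_fun hg (Pi.single l 1)
    rwa [LinearMap.comp_apply, Fintype.linearCombination_apply_single, one_smul] at this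
  obtain ⟨x, hx⟩ := exists_vec hd ((LinearMap.proj 0).comp g)
  obtain ⟨y, hy⟩ := exists_vec hd ((LinearMap.proj 1).comp g)
  have x0 : bf S (e 0) x = 1 := by rw [hx]; simp [hg']
  have x1 : bf S (e 1) x = 0 := by rw [hx]; simp [hg']
  have y0 : bf S (e 0) y = 0 := by rw [hy]; simp [hg']
  have y1 : bf S (e 1) y = 1 := by rw [hy]; simp [hg']
  have x0' := (bf_comm hS _ _).trans x0
  have y0' := (bf_comm hS _ _).trans y0
  have y1' := (bf_comm hS _ _).trans y1
  refine ⟨⟨e 0, e 1, -y + (bf S y y / 2) • e 1 + bf S y x • e 0, x - (bf S x x / 2) • e 0⟩,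
    ?_, ?_, ?_, ?_, ?_, ?_, ?_, ?_, ?_, ?_⟩ <;>
  simp only [bf_add_left, bf_add_right, bf_sub_left, bf_sub_right, bf_neg_left, bf_neg_right,
    bf_smul_left, bf_smul_right, h0, x0, x1, y0, y1, x0', y0', y1'] <;>
  ring

end

end Pool.Agent.P.MP_b8021b_nt.CM.O
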