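import Pool.Agent.P.MP_b8021b_nt.CM.OFr
import Pool.Agent.P.MP_b8021b_nt.CM.Final

/-! A fibre of the regrouping map is a union of special cycles on a product of modular curves. -/

namespace Pool.Agent.P.MP_b8021b_nt.CM.O

open UpperHalfPlane hiding I
open CongruenceSubgroup Matrix
open scoped MatrixGroups

noncomputable section

namespace OFibreP

theorem den_map {A ι : Type} [AddCommGroup A] [Module.Finite ℤ A] [Fintype ι] (f : ι → A → ℚ)
    (hf : ∀ c a b, f c (a + b) = f c a + f c b) :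
    ∃ D : ℕ, 0 < D ∧ ∀ c a, ∃ z : ℤ, (D : ℚ) * f c a = z := by
  obtain ⟨s, hs⟩ := Module.Finite.fg_top (R := ℤ) (M := A)
  refine ⟨∏ c, ∏ a ∈ s, (f c a).den, Finset.prod_pos fun c _ => Finset.prod_pos fun a _ =>
    (f c a).den_pos, fun c a => ?_⟩
  let F : A →+ ℚ := AddMonoidHom.mk' (f c) (hf c)
  have ha : a ∈ Submodule.span ℤ (s : Set A) := hs ▸ Submodule.mem_top
  change ∃ z : ℤ, _ * F a = z
  induction ha using Submodule.span_induction with
  | mem a ha =>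
    obtain ⟨t, ht⟩ : (f c a).den ∣ ∏ c, ∏ a ∈ s, (f c a).den :=
      (Finset.dvd_prod_of_mem (fun a => (f c a).den) ha).trans
        (Finset.dvd_prod_of_mem (fun c => ∏ a ∈ s, (f c a).den) (Finset.mem_univ c))
    refine ⟨t * (f c a).num, ?_⟩
    rw [ht, Int.cast_mul, ← Rat.den_mul_eq_num]
    push_cast
    change _ * f c a = _
    ring
  | zero => exact ⟨0, by simp⟩
  | add a b _ _ ha hb =>
    obtain ⟨z, hz⟩ := ha
    obtain ⟨w, hw⟩ := hb
    exact ⟨z + w, by rw [map_add, mul_add, hz, hw, Int.cast_add]⟩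
  | smul t a _ ha =>
    obtain ⟨z, hz⟩ := ha
    exact ⟨t * z, by rw [map_zsmul, zsmul_eq_mul, mul_left_comm, hz, Int.cast_mul]⟩

variable {m b : ℕ} {S : ZM m} {T : ZM b} {a1 a2 α β : QV b} {n1 n2 : ℚ} {j : Fr m}
  {x y : Matrix (Fin m) (Fin b) ℤ}

/-- the columns, as rational vectors -/
def cq (y : Matrix (Fin m) (Fin b) ℤ) (i : Fin b) : QV m := fun r => y r i

theorem col_inj (h : ∀ i, cq x i = cq y i) : x = y := by
  ext r i
  exact Int.cast_injective (α := ℚ) (congrFun (h i) r)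

theorem col_mul (g : ZM m) (i : Fin b) : cq (g * x) i = mv g (cq x i) := by
  ext r
  simp [cq, mv, Matrix.mul_apply, mulVec, dotProduct]

theorem xq_sum (a : QV b) : xq x a = ∑ i, a i • cq x i := by
  ext r
  simp [xq, cq, mulVec, dotProduct, mul_comm]

theorem bf_col (i l : Fin b) : bf S (cq x i) (cq x l) = (x.transpose * S * x) i l := by
  rw [gram_apply]
  exact bf_map (Int.castRingHom ℚ) _ _

theorem bf_col_xq (i : Fin b) (a : QV b) :
    bf S (cq x i) (xq x a) = mv (x.transpose * S * x) a i := by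
  have := map_sum (AddMonoidHom.mk' (bf S (cq x i)) fun a b => bf_add_right a b _)
    (fun l => a l • cq x l) Finset.univ
  simp only [AddMonoidHom.mk'_apply, bf_smul_right, bf_col] at this
  rw [xq_sum, this]
  simp [mv, mulVec, dotProduct, mul_comm]

theorem bf_xq (a : QV b) (w : QV m) : bf S (xq x a) w = a ⬝ᵥ fun i => bf S (cq x i) w := by
  have := map_sum (AddMonoidHom.mk' (fun v => bf S v w) fun a b => bf_add_left a b _)
    (fun l => a l • cq x l) Finset.univ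
  simp only [AddMonoidHom.mk'_apply, bf_smul_left] at this
  rw [xq_sum, this, dotProduct]

theorem col_eq (i : Fin b) : cq x i = kk a1 a2 α β x i + α i • xq x a1 + β i • xq x a2 := by
  change _ = cq x i - _ - _ + _ + _
  abel

theorem xq_gram (h : FD T a1 a2 α β n1 n2) (e : x.transpose * S * x = T) :
    bf S (xq x a1) (xq x a1) = 2 * n1 ∧ bf S (xq x a1) (xq x a2) = 0 ∧
    bf S (xq x a2) (xq x a1) = 0 ∧ bf S (xq x a2) (xq x a2) = 2 * n2 ∧
    ∀ i, bf S (kk a1 a2 α β x i) (xq x a1) = 0 ∧ bf S (kk a1 a2 α β x i) (xq x a2) = 0 := by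
  have k1 : ∀ i, bf S (cq x i) (xq x a1) = 2 * n1 * α i := fun i => by
    rw [bf_col_xq, e, h.t1]; rfl
  have k2 : ∀ i, bf S (cq x i) (xq x a2) = 2 * n2 * β i := fun i => by
    rw [bf_col_xq, e, h.t2]; rfl
  have l1 : ∀ a, bf S (xq x a) (xq x a1) = 2 * n1 * (α ⬝ᵥ a) := fun a => by
    simp only [bf_xq, k1, dotProduct, Finset.mul_sum]
    exact Finset.sum_congr rfl fun i _ => by ring
  have l2 : ∀ a, bf S (xq x a) (xq x a2) = 2 * n2 * (β ⬝ᵥ a) := fun a => by
    simp only [bf_xq, k2, dotProduct, Finset.mul_sum]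
    exact Finset.sum_congr rfl fun i _ => by ring
  refine ⟨by rw [l1, h.e11, mul_one], by rw [l2, h.e21, mul_zero], by rw [l1, h.e12, mul_zero],
    by rw [l2, h.e22, mul_one], fun i => ⟨?_, ?_⟩⟩
  · change bf S (cq x i - _ - _) _ = 0
    simp only [bf_sub_left, bf_smul_left, k1, l1, h.e11, h.e12]
    ring
  · change bf S (cq x i - _ - _) _ = 0
    simp only [bf_sub_left, bf_smul_left, k2, l2, h.e21, h.e22]
    ring

theorem sum_comb (a : QV b) (k : Fin b → QV m) (y1 y2 : QV m) :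
    ∑ i, a i • (k i + α i • y1 + β i • y2) =
      ∑ i, a i • k i + (α ⬝ᵥ a) • y1 + (β ⬝ᵥ a) • y2 := by
  simp only [smul_add, Finset.sum_add_distrib, smul_smul, dotProduct, Finset.sum_smul, mul_comm]

theorem sum_kk (h : FD T a1 a2 α β n1 n2) :
    ∑ i, a1 i • kk a1 a2 α β x i = 0 ∧ ∑ i, a2 i • kk a1 a2 α β x i = 0 := by
  have e := fun a => sum_comb (α := α) (β := β) a (kk a1 a2 α β x) (xq x a1) (xq x a2)
  simp only [← col_eq, ← xq_sum] at e
  have e1 := e a1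
  have e2 := e a2
  simp only [h.e11, h.e12, h.e21, h.e22, one_smul, zero_smul, add_zero] at e1 e2
  exact ⟨by simpa using e1, by simpa using e2⟩

/-- a matrix with the right columns lies in the fibre -/
theorem of_cols (hS : S.IsSymm) (hj : Ok S j) (h : FD T a1 a2 α β n1 n2)
    (e : x.transpose * S * x = T) (hp : ∀ i, Perp S j (kk a1 a2 α β x i)) {Y1 Y2 : M2}
    (h1 : Y1.det = n1) (h2 : Y2.det = n2) (h3 : bil Y1 Y2 = 0)
    (hy : ∀ i, cq y i = kk a1 a2 α β x i + α i • j.ap Y1 + β i • j.ap Y2) :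
    y.transpose * S * y = T ∧ kk a1 a2 α β y = kk a1 a2 α β x := by
  obtain ⟨g1, g2, g3, g4, g5⟩ := xq_gram h e
  constructor
  · ext i l
    apply Int.cast_injective (α := ℚ)
    have h4 : bil Y2 Y1 = 0 := by rw [← h3, bil, bil]; ring
    rw [← e, ← bf_col, ← bf_col, hy, hy, col_eq (a1 := a1) (a2 := a2) (α := α) (β := β) i,
      col_eq (a1 := a1) (a2 := a2) (α := α) (β := β) l]
    simp only [bf_add_left, bf_add_right, bf_smul_left, bf_smul_right, bf_ap hS hj, bil_self, h1,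
      h2, h3, h4, g1, g2, g3, g4, (g5 _).1, (g5 _).2, (hp _).ap, bf_comm hS _ (j.ap _),
      bf_comm hS (xq x _) (kk a1 a2 α β x _)]
  · have e1 : xq y a1 = j.ap Y1 := by
      simp only [xq_sum, hy, sum_comb, (sum_kk h).1, h.e11, h.e21, one_smul, zero_smul, zero_add,
        add_zero]
    have e2 : xq y a2 = j.ap Y2 := by
      simp only [xq_sum, hy, sum_comb, (sum_kk h).2, h.e12, h.e22, one_smul, zero_smul, zero_add]
    funext i
    change cq y i - _ - _ = _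
    rw [e1, e2, hy]
    abel

theorem adj_cast (γ : SL) : (castZ γ.1).adjugate = castZ (γ⁻¹).1 := by
  rw [Matrix.SpecialLinearGroup.coe_inv]
  exact ((Int.castRingHom ℚ).map_adjugate γ.1).symm

/-- the subgroup that comes from two copies of `Γ(M)` -/
def Del (S : ZM m) (j : Fr m) (Γ : Subgroup (GL (Fin m) ℤ)) (M : ℕ) :
    Subgroup (GL (Fin m) ℤ) where
  carrier := {g | g ∈ Γ ∧ ∃ γ1 ∈ Gamma M, ∃ γ2 ∈ Gamma M,
    (∀ Y, mv g.1 (j.ap Y) = j.ap (castZ γ2.1 * Y * castZ (γ1⁻¹).1)) ∧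
    ∀ w, Perp S j w → mv g.1 w = w}
  one_mem' := ⟨one_mem _, 1, one_mem _, 1, one_mem _, fun Y => by simp [mv_one, castZ_one],
    fun w _ => mv_one w⟩
  mul_mem' := by
    rintro g h ⟨hg, γ1, h1, γ2, h2, e1, e2⟩ ⟨hh, δ1, h3, δ2, h4, e3, e4⟩
    refine ⟨mul_mem hg hh, γ1 * δ1, mul_mem h1 h3, γ2 * δ2, mul_mem h2 h4, fun Y => ?_,
      fun w hw => by rw [Units.val_mul, mv_mul, e4 w hw, e2 w hw]⟩
    rw [Units.val_mul, mv_mul, e3, e1, _root_.mul_inv_rev]
    simp only [Matrix.SpecialLinearGroup.coe_mul, castZ_mul, Matrix.mul_assoc]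
  inv_mem' := by
    rintro g ⟨hg, γ1, h1, γ2, h2, e1, e2⟩
    have e0 : ∀ w : QV m, mv (g⁻¹).1 (mv g.1 w) = w := fun w => by
      rw [← mv_mul, Units.inv_mul, mv_one]
    refine ⟨inv_mem hg, γ1⁻¹, inv_mem h1, γ2⁻¹, inv_mem h2, fun Y => ?_,
      fun w hw => by simpa only [e2 w hw] using e0 w⟩
    rw [← e0 (j.ap (castZ (γ2⁻¹).1 * Y * _)), e1]
    simp only [← Matrix.mul_assoc, ← castZ_mul, ← Matrix.SpecialLinearGroup.coe_mul,
      mul_inv_cancel]
    simp only [Matrix.mul_assoc, ← castZ_mul, ← Matrix.SpecialLinearGroup.coe_mul, inv_mul_cancel,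
      Matrix.SpecialLinearGroup.coe_one, castZ_one, Matrix.one_mul, Matrix.mul_one]

end OFibreP

open OFibreP FinalP in
theorem fibreS (hMain : S_Main) (hGam : S_Gam) (hLev : S_Lev) : S_Fibre := by
  classical
  intro m b S z0 N hx hN Γ hΓ T μ a1 a2 α β n1 n2 hF u U hU x hs j hj hk hI
  have hS := hx.symm
  set k := kk a1 a2 α β x with hkdef
  have hp : ∀ i, Perp S j (k i) := fun i => perp_iff.2 fun Y => by
    rw [bf_comm hS]; exact (hk _).2 ⟨Y, rfl⟩ i
  obtain ⟨D, hD, hDi⟩ := den_map (A := Matrix (Fin m) (Fin b) ℤ) (ι := Fin 2 × Fin 2 × Fin 2)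
    (fun c y => j.co S (xq y (![a1, a2] c.1)) c.2.1 c.2.2) fun c y y' => by
      have : ∀ a, xq (y + y') a = xq y a + xq y' a := fun a => by
        rw [xq, Matrix.map_add _ Int.cast_add, add_mulVec]; rfl
      obtain ⟨c, i, l⟩ := c
      fin_cases i <;> fin_cases l <;> simp [Fr.co, this, bf_add_right, add_comm]
  have hD0 : (D : ℚ) ≠ 0 := by exact_mod_cast hD.ne'
  let th : Z2 × Z2 → Fin b → QV m := fun p i =>
    k i + α i • j.ap ((D : ℚ)⁻¹ • castZ p.1) + β i • j.ap ((D : ℚ)⁻¹ • castZ p.2)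
  have hA : ∀ y, y.transpose * S * y = T → kk a1 a2 α β y = k → ∃ p : Z2 × Z2,
      (p.1.det : ℚ) = D ^ 2 * n1 ∧ bil (castZ p.1) (castZ p.2) = 0 ∧ (p.2.det : ℚ) = D ^ 2 * n2 ∧
      ∀ i, cq y i = th p i := by
    intro y e1 e2
    obtain ⟨g1, g2, -, g4, g5⟩ := xq_gram hF e1
    rw [e2] at g5
    obtain ⟨Y1, f1⟩ := (hk _).1 fun i => (g5 i).1
    obtain ⟨Y2, f2⟩ := (hk _).1 fun i => (g5 i).2
    choose z hz using fun c => hDi c y
    have q1 : castZ (Matrix.of fun i l => z (0, i, l)) = (D : ℚ) • Y1 := by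
      ext i l
      simpa [f1, co_ap hS hj.ok, castZ_apply] using (hz (0, i, l)).symm
    have q2 : castZ (Matrix.of fun i l => z (1, i, l)) = (D : ℚ) • Y2 := by
      ext i l
      simpa [f2, co_ap hS hj.ok, castZ_apply] using (hz (1, i, l)).symm
    rw [f1, bf_ap hS hj.ok, bil_self] at g1
    rw [f1, f2, bf_ap hS hj.ok] at g2
    rw [f2, bf_ap hS hj.ok, bil_self] at g4
    refine ⟨(Matrix.of fun i l => z (0, i, l), Matrix.of fun i l => z (1, i, l)), ?_, ?_, ?_,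
      fun i => ?_⟩
    · rw [← castZ_det, q1, Matrix.det_smul, Fintype.card_fin]
      linear_combination (D : ℚ) ^ 2 / 2 * g1
    · rw [q1, q2]
      simp only [bil, Matrix.smul_apply, smul_eq_mul] at g2 ⊢
      linear_combination (D : ℚ) ^ 2 * g2
    · rw [← castZ_det, q2, Matrix.det_smul, Fintype.card_fin]
      linear_combination (D : ℚ) ^ 2 / 2 * g4
    · simp only [th]
      rw [q1, q2, inv_smul_smul₀ hD0, inv_smul_smul₀ hD0, ← f1, ← f2, ← e2, ← col_eq]
  have hinj : ∀ p q, th p = th q → p = q := by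
    intro p q e
    have e0 := fun a : QV b => congrArg (fun t : Fin b → QV m => ∑ i, a i • t i) e
    have e1 := e0 a1
    have e2 := e0 a2
    simp only [th, sum_comb, hF.e11, hF.e12, hF.e21, hF.e22, one_smul, zero_smul, add_zero,
      add_right_inj] at e1 e2
    exact Prod.ext (castZ_injective (smul_right_injective _ (inv_ne_zero hD0)
      (ap_injective hS hj.ok e1))) (castZ_injective (smul_right_injective _ (inv_ne_zero hD0)
      (ap_injective hS hj.ok e2)))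
  obtain ⟨p0, hm, -, hj', -⟩ := hA x hs.1 rfl
  have hm0 : 0 < p0.1.det := by
    have := hF.p1
    have : (0 : ℚ) < p0.1.det := by rw [hm]; positivity
    exact_mod_cast this
  have hj0 : 0 < p0.2.det := by
    have := hF.p2
    have : (0 : ℚ) < p0.2.det := by rw [hj']; positivity
    exact_mod_cast this
  have hdisc : (0 : ℤ) ^ 2 < 4 * p0.1.det * p0.2.det := by positivity
  obtain ⟨D', hD', hD'i⟩ := den_map (A := Z2 × Z2) (ι := Fin m × Fin b)
    (fun c p => (th p c.2 - k c.2) c.1) fun c p q => by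
      simp only [th, Prod.fst_add, Prod.snd_add, castZ_add, smul_add, ap_add, Pi.sub_apply,
        Pi.add_apply]
      ring
  obtain ⟨M, hM, hL⟩ := hLev m S z0 N hx hN j hj
  obtain ⟨N', hN', hlev⟩ := hI.1
  obtain ⟨M', hM3, d1, d2, c3, d3⟩ : ∃ M', 3 ≤ M' ∧ M ∣ M' ∧ N' ∣ M' ∧ N * D' ∣ M' :=
    ⟨3 * (M * N' * (N * D')), Nat.le_mul_of_pos_right _ (by positivity),
      ⟨3 * N' * (N * D'), by ring⟩, ⟨3 * M * (N * D'), by ring⟩, ⟨3 * M * N', by ring⟩⟩
  have hM'0 : 0 < M' := by omega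
  have : NeZero M' := ⟨hM'0.ne'⟩
  let Good : Z2 × Z2 → Prop := fun p => ∃ y : Matrix (Fin m) (Fin b) ℤ,
    (∀ i, cq y i = th p i) ∧ y.map (Int.cast : ℤ → ZMod N) = μ
  have hgood : ∀ p q, red M' p.1 = red M' q.1 → red M' p.2 = red M' q.2 → Good q → Good p := by
    rintro p q e1 e2 ⟨y, h1, h2⟩
    obtain ⟨K1, e1⟩ := (red_eq_iff _ _ _).1 e1
    obtain ⟨K2, e2⟩ := (red_eq_iff _ _ _).1 e2
    choose z hz using fun c => hD'i c (K1, K2)
    refine ⟨y + Matrix.of fun r i => N * c3 * z (r, i), fun i => funext fun r => ?_, ?_⟩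
    · have h3 := congrFun (h1 i) r
      have h4 := hz (r, i)
      simp only [cq, th, e1, e2, d3, castZ_add, castZ_smul, smul_add, ap_add, ap_smul,
        Matrix.add_apply, Matrix.of_apply, Pi.add_apply, Pi.sub_apply, Pi.smul_apply,
        smul_eq_mul] at h3 h4 ⊢
      push_cast
      linear_combination h3 - N * c3 * h4
    · rw [← h2]
      ext r i
      simp
  let yy : Z2 × Z2 → Matrix (Fin m) (Fin b) ℤ := fun p => if h : Good p then h.choose else 0
  have hyy : ∀ p, Good p → (∀ i, cq (yy p) i = th p i) ∧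
      (yy p).map (Int.cast : ℤ → ZMod N) = μ := fun p h => by
    simp only [yy, dif_pos h]
    exact h.choose_spec
  choose R P hR using fun ν : R2 M' × R2 M' => exists_system hM'0 hj0 hdisc ν
  let A : Finset (R2 M' × R2 M') :=
    Finset.univ.filter fun ν => ∃ q, Good q ∧ red M' q.1 = ν.1 ∧ red M' q.2 = ν.2
  have hAg : ∀ ν ∈ A, ∀ p ∈ R ν, Good p := fun ν hν p hp => by
    obtain ⟨q, h1, h2, h3⟩ := (Finset.mem_filter.1 hν).2
    obtain ⟨-, -, -, h4, h5⟩ := ((hR ν).1 p hp).1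
    exact hgood p q (h4.trans h2.symm) (h5.trans h3.symm) h1
  have hp' := hp
  have hfib : ∀ ν ∈ A, ∀ p ∈ R ν, OSpecial S N T μ (yy p) ∧ kk a1 a2 α β (yy p) = k := by
    intro ν hν p hp
    obtain ⟨h1, h2⟩ := hyy p (hAg ν hν p hp)
    obtain ⟨h3, h4, h5, -, -⟩ := ((hR ν).1 p hp).1
    have := of_cols hS hj.ok hF hs.1 hp' (Y1 := (D : ℚ)⁻¹ • castZ p.1)
      (Y2 := (D : ℚ)⁻¹ • castZ p.2) ?_ ?_ ?_ h1
    · exact ⟨⟨this.1, h2⟩, this.2⟩
    · rw [Matrix.det_smul, castZ_det, h3, hm, Fintype.card_fin]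
      field_simp
    · rw [Matrix.det_smul, castZ_det, h5, hj', Fintype.card_fin]
      field_simp
    · have := bil_castZ p.1 p.2
      rw [h4] at this
      simp only [bil, Matrix.smul_apply, smul_eq_mul, Int.cast_zero] at this ⊢
      linear_combination (D : ℚ)⁻¹ ^ 2 * this
  have hact : ∀ (g : ZM m) (γ1 γ2 : SL) (p q : Z2 × Z2),
      (∀ Y, mv g (j.ap Y) = j.ap (castZ γ2.1 * Y * castZ (γ1⁻¹).1)) →
      (∀ w, Perp S j w → mv g w = w) → ((∀ i, th p i = mv g (th q i)) ↔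
        p.1 * γ1.1 = γ2.1 * q.1 ∧ p.2 * γ1.1 = γ2.1 * q.2) := by
    intro g γ1 γ2 p q e1 e2
    have e3 : ∀ i, mv g (th q i) = th (γ2.1 * q.1 * (γ1⁻¹).1, γ2.1 * q.2 * (γ1⁻¹).1) i :=
      fun i => by simp only [th, mv_add, mv_smul, ap_smul, e1, e2 _ (hp i), castZ_mul]
    have e4 : ∀ Y Z : Z2, Y = Z * (γ1⁻¹).1 ↔ Y * γ1.1 = Z := fun Y Z => by
      constructor <;> rintro rfl <;> rw [Matrix.mul_assoc, ← Matrix.SpecialLinearGroup.coe_mul] <;>
        simp
    simp only [e3, ← e4, ← Prod.ext_iff (x := p) (y := (_, _))]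
    exact ⟨fun h => hinj _ _ (funext h), fun h i => h ▸ rfl⟩
  refine ⟨Del S j Γ M', (A.sigma R).image fun t => yy t.2, fun g hg => hg.1, ?_, ⟨?_, ?_⟩, ?_⟩
  · rintro g ⟨-, γ1, -, γ2, -, e1, e2⟩
    funext i
    have e3 : ∀ a, xq (g.1 * x) a = mv g.1 (xq x a) := fun a => by
      rw [xq, xq, mv, mulVec_mulVec]
      exact congrArg (· *ᵥ a) (Matrix.map_mul (f := Int.castRingHom ℚ))
    change cq (g.1 * x) i - α i • xq (g.1 * x) a1 - β i • xq (g.1 * x) a2 = _
    rw [col_mul, e3, e3, ← mv_smul, ← mv_smul, ← mv_sub, ← mv_sub]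
    exact e2 _ (hp i)
  · intro y hy
    obtain ⟨t, ht, rfl⟩ := Finset.mem_image.1 hy
    exact hfib t.1 (Finset.mem_sigma.1 ht).1 t.2 (Finset.mem_sigma.1 ht).2
  · rintro y ⟨h1, h2⟩
    obtain ⟨p, e1, e2, e3, e4⟩ := hA y h1.1 h2
    have hν : (red M' p.1, red M' p.2) ∈ A :=
      Finset.mem_filter.2 ⟨Finset.mem_univ _, p, ⟨y, e4, h1.2⟩, rfl, rfl⟩
    have hsp : Special M' p0.1.det 0 p0.2.det (red M' p.1, red M' p.2) p := by
      rw [bil_castZ] at e2
      exact ⟨by exact_mod_cast e1.trans hm.symm, by exact_mod_cast e2,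
        by exact_mod_cast e3.trans hj'.symm, rfl, rfl⟩
    obtain ⟨q, ⟨hq, γ1, g1, γ2, g2, ho⟩, hu⟩ := (hR _).2 p hsp
    refine ⟨yy q, ⟨Finset.mem_image.2 ⟨⟨_, q⟩, Finset.mem_sigma.2 ⟨hν, hq⟩, rfl⟩, ?_⟩, ?_⟩
    · obtain ⟨g, hg, f1, f2⟩ := hL γ1 (Gamma_le d1 g1) γ2 (Gamma_le d1 g2)
      obtain ⟨g, rfl⟩ := ((hGam m S z0 N hx).2 g hg).1
      simp only [adj_cast] at f1
      refine ⟨g, ⟨(hΓ g).2 hg, γ1, g1, γ2, g2, f1, f2⟩, col_inj fun i => ?_⟩
      change _ = cq (g.1 * yy q) i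
      rw [col_mul, (hyy q (hAg _ hν q hq)).1, e4]
      exact (hact _ _ _ p q f1 f2).2 ho i
    · rintro _ ⟨h3, g, ⟨-, δ1, g3, δ2, g4, f1, f2⟩, rfl⟩
      obtain ⟨⟨ν, q'⟩, ht, rfl⟩ := Finset.mem_image.1 h3
      obtain ⟨hν', hq'⟩ := Finset.mem_sigma.1 ht
      have ho' := (hact _ _ _ p q' f1 f2).1 fun i => by
        rw [← e4, ← (hyy q' (hAg _ hν' q' hq')).1, ← col_mul]; rfl
      have e5 : ν = (red M' p.1, red M' p.2) := by
        obtain ⟨-, -, -, h4, h5⟩ := ((hR ν).1 q' hq').1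
        have h6 := congrArg (red M') ho'.1
        have h7 := congrArg (red M') ho'.2
        rw [red_mul, red_mul, (mem_Gamma_iff_red _ _).1 g3, (mem_Gamma_iff_red _ _).1 g4,
          Matrix.mul_one, Matrix.one_mul] at h6 h7
        exact Prod.ext (h4.symm.trans h6.symm) (h5.symm.trans h7.symm)
      subst e5
      rw [hu q' ⟨hq', δ1, g3, δ2, g4, ho'⟩]
  · rw [Finset.sum_image, Finset.sum_sigma]
    · refine Finset.sum_eq_zero fun ν hν => ?_
      rw [← sum_eq_zero hMain hM3 hj0 hdisc (hR ν) hI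
        ⟨fun σ => (hlev.1 σ).mono d2, fun τ => (hlev.2 τ).mono d2⟩]
      refine Finset.sum_congr rfl fun p hp' => hU _ (hfib ν hν p hp').1 _ (hj.pos _ _) fun i => ?_
      have e1 : (fun r => (yy p r i : ℂ)) = cC (th p i) := by
        rw [← (hyy p (hAg ν hν p hp')).1]
        ext r
        simp [cC, cq]
      obtain ⟨-, s1, s2⟩ := (hR ν).1 p hp'
      simp only [Sends] at s1 s2
      simp only [e1, th, ap_smul, cC_add, cC_smul, bf_add_left, bf_smul_left,
        bf_perp_zp hS (hp i), bf_ap_zp hS hj.ok, castZ_apply, Rat.cast_intCast, s1, s2, sub_self,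
        mul_zero, add_zero]
    · rintro ⟨ν, p⟩ ht ⟨ν', p'⟩ ht' e
      obtain ⟨h1, h2⟩ := Finset.mem_sigma.1 (Finset.mem_coe.1 ht)
      obtain ⟨h3, h4⟩ := Finset.mem_sigma.1 (Finset.mem_coe.1 ht')
      obtain rfl : p = p' := hinj _ _ (funext fun i => by
        rw [← (hyy p (hAg _ h1 _ h2)).1, ← (hyy p' (hAg _ h3 _ h4)).1]
        exact congrArg (cq · i) e)
      obtain ⟨-, -, -, h5, h6⟩ := ((hR ν).1 p h2).1
      obtain ⟨-, -, -, h7, h8⟩ := ((hR ν').1 p h4).1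
      obtain rfl : ν = ν' := Prod.ext (h5.symm.trans h7) (h6.symm.trans h8)
      rfl

end

end Pool.Agent.P.MP_b8021b_nt.CM.O
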