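import Pool.Agent.P.MP_b8021b_nt.CM.OFr

/-! Restrictions of modular forms to frames: modularity and growth. -/

namespace Pool.Agent.P.MP_b8021b_nt.CM.O

open Complex hiding Gamma
open UpperHalfPlane hiding I
open CongruenceSubgroup Matrix
open scoped MatrixGroups Real

noncomputable section

namespace OGFP

variable {m n N : ℕ} {S : ZM m} {z0 : CW m} {k : ℤ} {C : Set (Vec n)}
  {F : Fin (n + 1) → CW m → ℂ} {j : Fr m} {v : QV m}

theorem herm_smul (t : ℝ) (z : CW m) :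
    (bf S ((t : ℂ) • z) (star ((t : ℂ) • z))).re = t ^ 2 * (bf S z (star z)).re := by
  rw [star_smul, bf_smul_left, bf_smul_right, ← mul_assoc, RCLike.star_def, conj_ofReal,
    ← ofReal_mul, re_ofReal_mul, sq]

theorem smul_dom {z : CW m} (hz : z ∈ dom S z0) {t : ℝ} (ht : 0 < t) : (t : ℂ) • z ∈ dom S z0 := by
  have h0 : z ∈ negCone S := connectedComponentIn_subset _ _ hz
  have h1 : IsPreconnected ((fun t : ℝ => (t : ℂ) • z) '' Set.Ioi 0) :=
    isPreconnected_Ioi.image _ (by fun_prop)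
  have h2 := h1.subset_connectedComponentIn (x := z) (F := negCone S)
    ⟨1, Set.mem_Ioi.2 one_pos, by simp⟩ (by
      rintro _ ⟨t, ht, rfl⟩
      refine ⟨by rw [bf_smul_left, bf_smul_right, h0.1, mul_zero, mul_zero], ?_⟩
      rw [herm_smul]
      exact mul_neg_of_pos_of_neg (pow_pos ht 2) h0.2)
  rw [dom, connectedComponentIn_eq hz]
  exact h2 ⟨t, ht, rfl⟩

theorem gro1 {f : CW m → ℂ} (h : IsForm S z0 N k f) : ∃ (K : ℝ) (r : ℕ), 0 ≤ K ∧
    ∀ z ∈ dom S z0, ∀ B : ℝ, ‖z‖ ≤ B → ‖z‖⁻¹ ≤ B → |(bf S z (star z)).re|⁻¹ ≤ B →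
      ‖f z‖ ≤ K * B ^ r := by
  obtain ⟨K, r, hK⟩ := h.gro
  refine ⟨|K|, k.natAbs + 3 * r, abs_nonneg _, fun z hz B h1 h2 h3 => ?_⟩
  have h0 : (bf S z (star z)).re < 0 := (connectedComponentIn_subset _ _ hz : z ∈ negCone S).2
  have hz0 : z ≠ 0 := by
    rintro rfl
    simp [bf_zero_left] at h0
  have ht : 0 < ‖z‖ := norm_pos_iff.2 hz0
  have hB : 0 ≤ B := ht.le.trans h1
  have hw := smul_dom hz (inv_pos.2 ht)
  have e1 := h.hom _ hw (‖z‖ : ℂ) (ofReal_ne_zero.2 ht.ne')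
  rw [smul_smul, ← ofReal_mul, mul_inv_cancel₀ ht.ne', ofReal_one, one_smul] at e1
  have e2 := hK _ hw (by rw [norm_smul, norm_real, norm_inv, norm_norm, inv_mul_cancel₀ ht.ne'])
  rw [herm_smul, abs_mul, abs_of_nonneg (sq_nonneg _)] at e2
  have hp : 0 < |(bf S z (star z)).re| := abs_pos.2 h0.ne
  generalize |(bf S z (star z)).re| = p at h3 e2 hp
  have e3 : ‖z‖ ^ (-k) ≤ B ^ k.natAbs := by
    obtain ⟨a, rfl | rfl⟩ := k.eq_nat_or_neg
    · rw [_root_.zpow_neg, zpow_natCast, ← inv_pow, Int.natAbs_natCast]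
      exact pow_le_pow_left₀ (inv_pos.2 ht).le h2 a
    · rw [neg_neg, zpow_natCast, Int.natAbs_neg, Int.natAbs_natCast]
      exact pow_le_pow_left₀ ht.le h1 a
  have e4 : ‖f (((‖z‖⁻¹ : ℝ) : ℂ) • z)‖ ≤ |K| * B ^ (3 * r) := by
    have a1 : (‖z‖⁻¹ ^ 2 * p)⁻¹ ≤ B ^ 3 := by
      rw [mul_inv, inv_pow, inv_inv, pow_succ B 2]
      exact mul_le_mul (pow_le_pow_left₀ ht.le h1 2) h3 (inv_pos.2 hp).le (pow_nonneg hB 2)
    have a2 : 0 < ‖z‖⁻¹ ^ 2 * p := by positivity
    rw [← le_div_iff₀ (pow_pos a2 r), div_eq_mul_inv, ← inv_pow] at e2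
    rw [pow_mul]
    exact e2.trans (mul_le_mul (le_abs_self K) (pow_le_pow_left₀ (inv_pos.2 a2).le a1 r)
      (pow_nonneg (inv_pos.2 a2).le r) (abs_nonneg K))
  rw [e1, norm_mul, norm_zpow, norm_real, norm_norm, pow_add, mul_left_comm]
  exact mul_le_mul e3 e4 (norm_nonneg _) (pow_nonneg hB _)

theorem gro (h : Fm S z0 N k C F) : ∃ (K : ℝ) (r : ℕ), 0 ≤ K ∧
    ∀ z ∈ dom S z0, ∀ B : ℝ, 1 ≤ B → ‖z‖ ≤ B → ‖z‖⁻¹ ≤ B → |(bf S z (star z)).re|⁻¹ ≤ B →
      ‖fun i => F i z‖ ≤ K * B ^ r := by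
  choose K r hK hb using fun i => gro1 (h.form i)
  have h0 : 0 ≤ ∑ i, K i := Finset.sum_nonneg fun i _ => hK i
  refine ⟨∑ i, K i, ∑ i, r i, h0, fun z hz B hB h1 h2 h3 => ?_⟩
  refine (pi_norm_le_iff_of_nonneg (by positivity)).2 fun i => (hb i z hz B h1 h2 h3).trans ?_
  exact mul_le_mul (Finset.single_le_sum (fun i _ => hK i) (Finset.mem_univ i))
    (pow_le_pow_right₀ hB (Finset.single_le_sum (fun i _ => Nat.zero_le (r i)) (Finset.mem_univ i)))
    (by positivity) h0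

theorem inv_le (hS : S.IsSymm) (hj : Ok S j) : ∃ A : ℝ, 0 ≤ A ∧ ∀ v, Perp S j v → ∀ τ σ u : ℂ,
    ‖z3 S j v τ σ u‖⁻¹ ≤ A := by
  refine ⟨∑ i, ‖mv S.transpose (cC j.b) i‖, by positivity, fun v hv τ σ u => ?_⟩
  have h := bf_b_z3 hS hj hv τ σ u
  generalize z3 S j v τ σ u = z at h
  have h1 : 1 ≤ (∑ i, ‖mv S.transpose (cC j.b) i‖) * ‖z‖ := by
    rw [bf_eq, dot_mv, dotProduct] at h
    rw [← norm_one (α := ℂ), ← h, Finset.sum_mul]
    refine (norm_sum_le _ _).trans (Finset.sum_le_sum fun i _ => ?_)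
    rw [norm_mul]
    exact mul_le_mul_of_nonneg_left (norm_le_pi_norm z i) (norm_nonneg _)
  rcases (norm_nonneg z).eq_or_lt with h0 | h0
  · rw [← h0, mul_zero] at h1
    exact absurd h1 (by norm_num)
  · rwa [inv_eq_one_div, div_le_iff₀ h0]

theorem perp0 : Perp S j 0 :=
  ⟨bf_zero_right _, bf_zero_right _, bf_zero_right _, bf_zero_right _⟩

theorem law (h : Fm S z0 N k C F) (hj : PF S z0 j) {γ1 γ2 : SL} {g : ZM m} (hg : InGam S z0 N g)
    (e : ∀ Y, mv g (j.ap Y) = j.ap (castZ γ2.1 * Y * (castZ γ1.1).adjugate)) (τ σ : ℍ) :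
    GF F j (γ1 • τ) (γ2 • σ) = (jf γ1 τ * jf γ2 σ) ^ k • GF F j τ σ := by
  funext i
  have h0 := mul_ne_zero (jf_ne_zero γ1 τ) (jf_ne_zero γ2 σ)
  have h1 : F i (mv g (zp j τ σ)) = F i (zp j τ σ) := (h.form i).inv g hg _ (hj.pos τ σ)
  rw [mv_zp e, zp_act (HolP.det_SL_pos γ1) (HolP.det_SL_pos γ2), ← jf_eq, ← jf_eq, act_SL, act_SL,
    (h.form i).hom _ (hj.pos _ _) _ h0] at h1
  simp only [GF, Pi.smul_apply, smul_eq_mul]
  rw [← h1, ← mul_assoc, ← zpow_add₀ h0, add_neg_cancel, zpow_zero, one_mul]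

theorem pow_le_exp (r : ℕ) {c : ℝ} (hc : 0 < c) :
    ∃ D : ℝ, ∀ y, 0 ≤ y → (1 + y) ^ r ≤ D * Real.exp (c * y) := by
  refine ⟨r.factorial * Real.exp c / c ^ r, fun y hy => ?_⟩
  have h := Real.pow_div_factorial_le_exp (c * (1 + y)) (by positivity) r
  rw [div_le_iff₀ (by positivity), mul_pow, mul_add c, mul_one, Real.exp_add] at h
  rw [div_mul_eq_mul_div, le_div_iff₀ (by positivity)]
  linarith

theorem mv_z3 {M : ℕ} {g : ZM m} (e : ∀ Y, mv g (j.ap Y) =
    j.ap (castZ (ModularGroup.T ^ (M : ℤ) : SL).1 * Y * (castZ (1 : SL).1).adjugate))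
    (hv : mv g v = v) (τ s u : ℂ) : mv g (z3 S j v τ s u) = z3 S j v τ (s + M) u := by
  have e1 : castZ (ModularGroup.T ^ (M : ℤ) : SL).1 = !![1, (M : ℚ); 0, 1] := by
    rw [ModularGroup.coe_T_zpow]
    ext a b
    fin_cases a <;> fin_cases b <;> simp [castZ]
  have e2 : castZ (1 : SL).1 = 1 := castZ_one
  rw [e1, e2] at e
  have e3 : mv g j.b = j.b := by
    rw [← ap_b, e]
    congr 1
    ext a b
    fin_cases a <;> fin_cases b <;> simp
  rw [z3, mv_sub, mv_add, mv_smul, mv_smul, mv_cC, mv_cC, hv, e3, mv_zp e,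
    zp_act' _ _ τ s τ (s + M) (by simp) (by simp)]
  simp [z3]

end OGFP

open OGFP

theorem gfS : S_Dom → S_Lev → S_GF := by
  intro _ hL m n S z0 N k C F hc hN h j hj
  obtain ⟨M, hM, hl⟩ := hL m S z0 N hc hN j hj
  have l1 : ∀ γ ∈ Gamma M, ∀ τ σ : ℍ, GF F j (γ • τ) σ = jf γ τ ^ k • GF F j τ σ := by
    intro γ hγ τ σ
    obtain ⟨g, hg, e, -⟩ := hl γ hγ 1 (one_mem _)
    simpa only [one_smul, jf_one, mul_one] using law h hj hg e τ σ
  have l2 : ∀ γ ∈ Gamma M, ∀ σ τ : ℍ, GF F j τ (γ • σ) = jf γ σ ^ k • GF F j τ σ := by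
    intro γ hγ σ τ
    obtain ⟨g, hg, e, -⟩ := hl 1 (one_mem _) γ hγ
    simpa only [one_smul, jf_one, one_mul] using law h hj hg e τ σ
  have hol : ∀ p q : ℍ → ℍ, Hol (fun τ => (p τ : ℂ)) → Hol (fun τ => (q τ : ℂ)) →
      ∀ i, Hol fun τ => GF F j (p τ) (q τ) i := by
    intro p q hp hq i
    have h1 : DifferentiableOn ℂ (fun z => zp j (p (ofComplex z)) (q (ofComplex z)))
        {z | 0 < z.im} := by
      have a : DifferentiableOn ℂ (fun z => (p (ofComplex z) : ℂ)) {z | 0 < z.im} := hp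
      have b : DifferentiableOn ℂ (fun z => (q (ofComplex z) : ℂ)) {z | 0 < z.im} := hq
      unfold zp
      fun_prop
    exact (h.form i).hol.differentiableOn.comp h1 fun z _ => hj.pos _ _
  have cont : Continuous fun p : ℍ × ℍ => GF F j p.1 p.2 :=
    continuous_pi fun i => (h.form i).hol.continuousOn.comp_continuous
      (f := fun p : ℍ × ℍ => zp j p.1 p.2) (by unfold zp; fun_prop) fun _ => hj.pos _ _
  have bd : ∃ (K : ℝ) (r : ℕ), ∀ τ σ, ‖GF F j τ σ‖ ≤ K * (kap τ * kap σ) ^ r := by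
    obtain ⟨K, r, -, hb⟩ := gro h
    obtain ⟨A, hA, hi⟩ := inv_le hc.symm hj.ok
    set D := 1 + A + ‖cC j.a‖ + ‖cC j.b‖ + ‖cC j.c‖ + ‖cC j.d‖ with hD
    refine ⟨K * D ^ r, r, fun τ σ => ?_⟩
    rw [mul_assoc, ← mul_pow]
    have k1 := kap_pos τ
    have k2 := kap_pos σ
    have k3 : 1 ≤ kap τ * kap σ := by nlinarith
    have na := norm_nonneg (cC j.a)
    have nb := norm_nonneg (cC j.b)
    have nc := norm_nonneg (cC j.c)
    have nd := norm_nonneg (cC j.d)
    have k4 : kap τ * kap σ ≤ D * (kap τ * kap σ) := le_mul_of_one_le_left (by linarith)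
      (by linarith)
    refine hb _ (hj.pos τ σ) _ (k3.trans k4) ?_ ?_ ?_
    · have t1 := norm_le_kap τ
      have t2 := norm_le_kap σ
      have t3 : ‖(σ : ℂ)‖ * ‖(τ : ℂ)‖ ≤ kap τ * kap σ := by
        rw [mul_comm]
        exact mul_le_mul t1 t2 (norm_nonneg _) (by linarith)
      have t4 : ‖(τ : ℂ)‖ ≤ kap τ * kap σ := by nlinarith
      have t5 : ‖(σ : ℂ)‖ ≤ kap τ * kap σ := by nlinarith
      refine (norm_add_le _ _).trans ((add_le_add_left ((norm_sub_le _ _).trans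
        (add_le_add_left (norm_add_le _ _) _)) _).trans ?_)
      simp only [norm_smul, norm_neg, norm_mul]
      rw [hD]
      generalize kap τ * kap σ = P at *
      nlinarith [mul_le_mul_of_nonneg_right t3 nb, mul_le_mul_of_nonneg_right t4 nd,
        mul_le_mul_of_nonneg_right t5 na, mul_le_mul_of_nonneg_right k3 nc]
    · rw [← z3_zero (S := S) (v := 0)]
      refine (hi _ perp0 _ _ _).trans ?_
      exact (by linarith : A ≤ D).trans (le_mul_of_one_le_right (by linarith) k3)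
    · rw [← z3_zero (S := S) (v := 0), herm_z3 hc.symm hj.ok perp0]
      refine le_trans ?_ k4
      have t1 := τ.im_pos
      have t2 := σ.im_pos
      simp only [zero_im, coe_im]
      rw [sq, mul_zero, mul_zero, zero_sub, mul_neg, abs_neg, abs_of_pos (by positivity), mul_inv,
        mul_inv]
      refine le_trans (mul_le_of_le_one_left (by positivity) (by norm_num)) ?_
      exact mul_le_mul (inv_im_le_kap τ) (inv_im_le_kap σ) (by positivity) (by linarith)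
  refine ⟨M, hM, ⟨hol, cont, bd, l1, fun τ σ => ?_, fun τ σ => h.ne _ (hj.pos _ _),
    fun τ σ => h.mem _ (hj.pos _ _)⟩, fun p q hp hq => hol q p hq hp, cont.comp continuous_swap,
    ?_, l2, fun σ τ => ?_, fun τ σ => h.ne _ (hj.pos _ _), fun τ σ => h.mem _ (hj.pos _ _)⟩
  · rw [← HolP.T_smul, l2 _ (HolP.T_mem M), jf_T_zpow, _root_.one_zpow, one_smul]
  · exact bd.imp fun K hK => hK.imp fun r hr σ τ => mul_comm (kap τ) (kap σ) ▸ hr τ σ
  · rw [← HolP.T_smul, l1 _ (HolP.T_mem M), jf_T_zpow, _root_.one_zpow, one_smul]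

theorem loc3S : S_Tube → S_Lev → S_Loc3 := by
  intro hT hL m n S z0 N k C F hc hN h j hj v hv
  obtain ⟨M, hM, hl⟩ := hL m S z0 N hc hN j hj
  obtain ⟨g, hg, e, e'⟩ := hl 1 (one_mem _) _ (HolP.T_mem M)
  refine ⟨M, hM, fun τ u0 => ?_⟩
  have hM' : (0 : ℝ) < M := Nat.cast_pos.2 hM
  have hτ := τ.im_pos
  set q : ℝ := ((bf S v v / 2 : ℚ) : ℝ) with hq
  set Y := (|q| * (|u0.im| + 1) ^ 2 + 1) / τ.im with hY
  have hY0 : 0 < Y := by positivity
  have gap : ∀ u ∈ Metric.ball u0 1, ∀ s : ℂ, Y < s.im → q * u.im ^ 2 + 1 < τ.im * s.im := by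
    intro u hu s hs
    rw [hY, div_lt_iff₀ hτ, mul_comm s.im] at hs
    have a1 : |u.im| ≤ |u0.im| + 1 := by
      have := abs_im_le_norm (u - u0)
      rw [sub_im] at this
      linarith [abs_sub_abs_le_abs_sub u.im u0.im, mem_ball_iff_norm.1 hu]
    have a2 : u.im ^ 2 ≤ (|u0.im| + 1) ^ 2 := by
      rw [← sq_abs]
      exact pow_le_pow_left₀ (abs_nonneg _) a1 2
    have a3 := mul_le_mul (le_abs_self q) a2 (sq_nonneg _) (abs_nonneg q)
    linarith
  have mem : ∀ u ∈ Metric.ball u0 1, ∀ s : ℂ, Y < s.im → z3 S j v τ s u ∈ dom S z0 :=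
    fun u hu s hs => (hT m S z0 hc j hj).1 v hv τ s u hτ (by
      have := gap u hu s hs
      rw [coe_im]
      linarith)
  have per : ∀ u ∈ Metric.ball u0 1, ∀ s : ℂ, Y < s.im →
      (fun i => F i (z3 S j v τ (s + M) u)) = fun i => F i (z3 S j v τ s u) := by
    intro u hu s hs
    funext i
    rw [← mv_z3 e (e' v hv)]
    exact (h.form i).inv g hg _ (mem u hu s hs)
  obtain ⟨K, r, hK, hb⟩ := gro h
  obtain ⟨A, hA, hi⟩ := inv_le hc.symm hj.ok
  obtain ⟨W, hW⟩ := (isCompact_closedBall u0 1).exists_bound_of_continuousOn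
    (f := fun u => z3 S j v τ 0 u) (by unfold z3; fun_prop)
  obtain ⟨D, hD⟩ := pow_le_exp r (div_pos Real.pi_pos hM')
  set X := ‖-cC j.a + (τ : ℂ) • cC j.b‖ with hX
  have hX0 : 0 ≤ X := norm_nonneg _
  have hW0 : 0 ≤ W := (norm_nonneg _).trans (hW u0 (Metric.mem_closedBall_self zero_le_one))
  set E := 1 + A + W + X + M * X with hE
  have hMX : 0 ≤ M * X := by positivity
  refine ⟨1, Y, K * E ^ r * D, one_pos, fun s hs => ?_, fun u hu => ?_, ?_, fun u hu s hs =>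
    ⟨per u hu s hs, h.mem _ (mem u hu s hs), h.ne _ (mem u hu s hs), ?_⟩⟩
  · exact differentiableOn_pi.2 fun i => (h.form i).hol.differentiableOn.comp
      (f := fun u => z3 S j v τ s u) (by unfold z3; fun_prop) fun u hu => mem u hu s hs
  · exact differentiableOn_pi.2 fun i => (h.form i).hol.differentiableOn.comp
      (f := fun s => z3 S j v τ s u) (by unfold z3 zp; fun_prop) fun s hs => mem u hu s hs
  · exact continuousOn_pi.2 fun i => (h.form i).hol.continuousOn.comp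
      (f := fun p : ℂ × ℂ => z3 S j v τ p.2 p.1) (by unfold z3 zp; fun_prop)
      fun p hp => mem _ hp.1 _ hp.2
  · have pe : Function.Periodic (fun x : ℝ => fun i => F i (z3 S j v τ (x + s.im * I) u))
        (M : ℝ) := fun x => by
      beta_reduce
      rw [← per u hu (x + s.im * I) (by simpa using hs)]
      simp only [ofReal_add, ofReal_natCast, add_right_comm]
    obtain ⟨x, hx, ex⟩ := pe.exists_mem_Ico₀ hM' s.re
    simp only [Complex.re_add_im] at ex
    have hy : 0 < s.im := hY0.trans hs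
    have hs' : Y < ((x : ℂ) + s.im * I).im := by simpa using hs
    have k1 : 1 ≤ 1 + s.im := by linarith
    have k2 : E ≤ E * (1 + s.im) := le_mul_of_one_le_right (by linarith) k1
    rw [ex]
    refine (hb _ (mem u hu _ hs') (E * (1 + s.im)) (by linarith) ?_ ?_ ?_).trans ?_
    · have a1 : z3 S j v τ (x + s.im * I) u =
          ((x : ℂ) + s.im * I) • (-cC j.a + (τ : ℂ) • cC j.b) + z3 S j v τ 0 u := by
        simp only [z3, zp]
        module
      have a2 : ‖(x : ℂ) + s.im * I‖ ≤ M + s.im := by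
        refine (norm_add_le _ _).trans ?_
        rw [norm_mul, norm_I, mul_one, norm_real, norm_real, Real.norm_of_nonneg hx.1,
          Real.norm_of_nonneg hy.le]
        linarith [hx.2]
      have a3 := hW u (Metric.ball_subset_closedBall hu)
      rw [a1]
      refine (norm_add_le _ _).trans ?_
      rw [norm_smul, ← hX, hE]
      nlinarith [mul_le_mul_of_nonneg_right a2 hX0, mul_nonneg hMX hy.le, mul_nonneg hA hy.le,
        mul_nonneg hW0 hy.le]
    · linarith [hi v hv τ (x + s.im * I) u]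
    · have a1 := gap u hu _ hs'
      rw [herm_z3 hc.symm hj.ok hv, ← hq, coe_im, abs_of_neg (by linarith)]
      exact (inv_le_one_of_one_le₀ (by linarith)).trans (by linarith)
    · rw [mul_pow, ← mul_assoc, mul_assoc _ D, mul_div_right_comm]
      exact mul_le_mul_of_nonneg_left (hD _ hy.le) (by positivity)

end

end Pool.Agent.P.MP_b8021b_nt.CM.O
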