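import Pool.Agent.P.MP_b8021b_nt.CM.OFr

/-! The congruence subgroup is a group that acts freely on non-degenerate tuples of vectors. -/

namespace Pool.Agent.P.MP_b8021b_nt.CM.O

open Matrix Filter
open scoped Topology

namespace OGamP

variable {m b : ℕ} {S g : ZM m} {z z0 : CW m} {x : Matrix (Fin m) (Fin b) ℤ}

theorem unit_of_iso (hS : S.det ≠ 0) (e : g.transpose * S * g = S) : IsUnit g := by
  have h := congrArg Matrix.det e
  rw [det_mul, det_mul, det_transpose] at h
  refine (Matrix.isUnit_iff_isUnit_det g).2 (IsUnit.of_mul_eq_one g.det ?_)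
  exact mul_right_cancel₀ hS (by linear_combination h)

/-- a complex combination of the columns of `x` -/
noncomputable def xc (x : Matrix (Fin m) (Fin b) ℤ) (c : Fin b → ℂ) : CW m :=
  (x.map (Int.cast : ℤ → ℂ)).mulVec c

theorem map_mul' {k l r : ℕ} (A : Matrix (Fin k) (Fin l) ℤ) (B : Matrix (Fin l) (Fin r) ℤ) :
    (A * B).map (Int.cast : ℤ → ℂ) =
      A.map (Int.cast : ℤ → ℂ) * B.map (Int.cast : ℤ → ℂ) :=
  Matrix.map_mul (f := Int.castRingHom ℂ)

theorem bf_xc (h : Orth S x z) (c : Fin b → ℂ) : bf S (xc x c) z = 0 := by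
  rw [bf_eq, xc, dotProduct_comm, dotProduct_mulVec]
  have : mv S z ᵥ* x.map (Int.cast : ℤ → ℂ) = 0 := funext fun i => by
    have := h i
    rw [bf_eq, dotProduct_comm] at this
    exact this
  rw [this, zero_dotProduct]

theorem orth_star (h : Orth S x z) : Orth S x (star z) := fun i => by
  have e : star (fun r => (x r i : ℂ)) = fun r => (x r i : ℂ) := funext fun r => by simp
  rw [← e, bf_star, h i, star_zero]

theorem xc_zero (hx : (x.transpose * S * x).det ≠ 0) {c : Fin b → ℂ} (h : Orth S x (xc x c)) :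
    c = 0 := by
  refine Matrix.eq_zero_of_mulVec_eq_zero
    (M := (x.transpose * S * x).map (Int.cast : ℤ → ℂ)) ?_ ?_
  · rw [show ((x.transpose * S * x).map (Int.cast : ℤ → ℂ)).det =
      ((x.transpose * S * x).det : ℤ) from ((Int.castRingHom ℂ).map_det _).symm]
    exact Int.cast_ne_zero.2 hx
  · rw [map_mul', map_mul', ← mulVec_mulVec, ← mulVec_mulVec]
    exact funext fun i => h i

theorem mv_xc (g : ZM m) (c : Fin b → ℂ) : mv g (xc x c) = xc (g * x) c := by
  rw [xc, xc, mv, mulVec_mulVec, map_mul']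

theorem herm_ne (hz : z ∈ negCone S) : bf S z (star z) ≠ 0 := fun e => by
  have := hz.2
  rw [e] at this
  simp at this

theorem star_iso (hz : z ∈ negCone S) : bf S (star z) (star z) = 0 := by
  rw [bf_star, hz.1, star_zero]

theorem ne_zero (hz : z ∈ negCone S) : z ≠ 0 := fun e => herm_ne hz (by rw [e, bf_zero_left])

theorem span {S : ZM (b + 2)} {z : CW (b + 2)} {x : Matrix (Fin (b + 2)) (Fin b) ℤ}
    (hS : S.IsSymm) (hx : (x.transpose * S * x).det ≠ 0) (hz : z ∈ negCone S) (h : Orth S x z)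
    (y : CW (b + 2)) : ∃ (α β : ℂ) (c : Fin b → ℂ), y = α • z + β • star z + xc x c := by
  let L : (ℂ × ℂ × (Fin b → ℂ)) →ₗ[ℂ] CW (b + 2) :=
    (LinearMap.toSpanSingleton ℂ _ z).coprod ((LinearMap.toSpanSingleton ℂ _ (star z)).coprod
      (x.map (Int.cast : ℤ → ℂ)).mulVecLin)
  have e : ∀ p, L p = p.1 • z + p.2.1 • star z + xc x p.2.2 := fun p => by
    rw [add_assoc]; rfl
  have hi : Function.Injective L := (injective_iff_map_eq_zero L).2 fun p hp => by
    rw [e] at hp
    have h1 := congrArg (fun y => bf S y (star z)) hp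
    have h2 := congrArg (fun y => bf S y z) hp
    simp only [bf_add_left, bf_smul_left, bf_zero_left, bf_xc h, bf_xc (orth_star h), hz.1,
      star_iso hz, bf_comm hS (star z) z, mul_zero, add_zero, zero_add, mul_eq_zero, herm_ne hz,
      or_false] at h1 h2
    rw [h1, h2, zero_smul, zero_smul, zero_add, zero_add] at hp
    exact Prod.ext h1 (Prod.ext h2 (xc_zero hx fun i => by rw [hp, bf_zero_right]))
  obtain ⟨p, hp⟩ := (LinearMap.injective_iff_surjective_of_finrank_eq_finrank (by
    simp [Module.finrank_prod]; omega)).1 hi y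
  exact ⟨_, _, _, hp.symm.trans (e p)⟩

theorem pow_eig {h : ZM m} {μ : ℂ} (e : mv h z = μ • z) (k : ℕ) : mv (h ^ k) z = μ ^ k • z := by
  induction k with
  | zero => rw [pow_zero, pow_zero, mv_one, one_smul]
  | succ k ih => rw [pow_succ, mv_mul, e, mv_smul, ih, smul_smul, pow_succ']

theorem nil {h : ZM m} {μ : ℂ} (hz : z ≠ 0) (e : mv h z = μ • z) (hμ : ‖μ‖ < 1) (hx : h * x = 0)
    (hs : ∀ y, ∃ (α β : ℂ) (c : Fin b → ℂ), y = α • z + β • star z + xc x c) : h = 0 := by
  have e' : mv h (star z) = star μ • star z := by rw [mv_star, e, star_smul]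
  have key : ∀ r j, ∃ α β : ℂ, ∀ k : ℕ,
      (((h ^ (k + 1)) r j : ℤ) : ℂ) = μ ^ (k + 1) * α + star μ ^ (k + 1) * β := fun r j => by
    obtain ⟨α, β, c, hy⟩ := hs (Pi.single j 1)
    refine ⟨α * z r, β * star z r, fun k => ?_⟩
    have h1 := congrFun (congrArg (mv (h ^ (k + 1))) hy) r
    rw [mv_add, mv_add, mv_smul, mv_smul, pow_eig e, pow_eig e', mv_xc, pow_succ h,
      Matrix.mul_assoc, hx, Matrix.mul_zero, ← pow_succ h] at h1
    simp only [mv, xc, mulVec_single_one, Matrix.map_zero _ Int.cast_zero, zero_mulVec, add_zero,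
      Pi.zero_apply, Pi.add_apply, Pi.smul_apply, smul_eq_mul, col_apply, map_apply] at h1
    rw [h1]; ring
  have h0 : μ = 0 := by
    have h1 : ∀ᶠ k : ℕ in atTop, ∀ r j, (h ^ (k + 1)) r j = 0 := by
      refine eventually_all.2 fun r => eventually_all.2 fun j => ?_
      obtain ⟨α, β, hk⟩ := key r j
      have t1 := (tendsto_pow_atTop_nhds_zero_of_norm_lt_one hμ).comp (tendsto_add_atTop_nat 1)
      have t2 := (tendsto_pow_atTop_nhds_zero_of_norm_lt_one
        (show ‖star μ‖ < 1 by rwa [norm_star])).comp (tendsto_add_atTop_nat 1)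
      have t3 := ((t1.mul_const α).add (t2.mul_const β)).norm
      simp only [zero_mul, add_zero, norm_zero] at t3
      filter_upwards [t3.eventually (gt_mem_nhds zero_lt_one)] with k h2
      simp only [Function.comp_apply] at h2
      rw [← hk, Complex.norm_intCast, ← Int.cast_abs, ← Int.cast_one, Int.cast_lt] at h2
      exact Int.abs_lt_one_iff.1 h2
    obtain ⟨k, hk⟩ := h1.exists
    have h2 := pow_eig e (k + 1)
    rw [show h ^ (k + 1) = 0 from Matrix.ext hk] at h2
    have h3 : μ ^ (k + 1) • z = 0 := by rw [← h2]; simp [mv]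
    exact pow_eq_zero_iff (Nat.succ_ne_zero k) |>.1 ((smul_eq_zero.1 h3).resolve_right hz)
  ext r j
  obtain ⟨α, β, hk⟩ := key r j
  have := hk 0
  simpa [h0] using this

theorem exists_div {N : ℕ} (e : g.map (Int.cast : ℤ → ZMod N) = 1) :
    ∃ h : ZM m, g = 1 + (N : ℤ) • h := by
  have : ∀ r j, ∃ t : ℤ, (g - 1) r j = N * t := fun r j => by
    refine (ZMod.intCast_zmod_eq_zero_iff_dvd _ N).1 ?_
    have := congrFun (congrFun e r) j
    rw [map_apply] at this
    rw [Matrix.sub_apply, Int.cast_sub, this, one_apply, one_apply]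
    split_ifs <;> simp
  choose t ht using this
  exact ⟨Matrix.of t, eq_add_of_sub_eq' (Matrix.ext fun r j => by rw [ht]; rfl)⟩

end OGamP

open OGamP

theorem gamS : S_Dom → S_Gam := by
  intro hD m S z0 N hc
  obtain ⟨-, -, -, -, hS, hg⟩ := hD m S z0 hc
  have h0 : z0 ∈ dom S z0 := mem_connectedComponentIn hc.neg
  have mm : ∀ A B : ZM m, (A * B).map (Int.cast : ℤ → ZMod N) = A.map Int.cast * B.map Int.cast :=
    fun A B => Matrix.map_mul (f := Int.castRingHom (ZMod N))
  have m1 : (1 : ZM m).map (Int.cast : ℤ → ZMod N) = 1 :=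
    Matrix.map_one _ Int.cast_zero Int.cast_one
  have inv : ∀ g : GL (Fin m) ℤ, g.1.transpose * S * g.1 = S →
      (g⁻¹).1.transpose * S * (g⁻¹).1 = S := fun g e => by
    calc _ = (g⁻¹).1.transpose * (g.1.transpose * S * g.1) * (g⁻¹).1 := by rw [e]
      _ = (g.1 * (g⁻¹).1).transpose * S * (g.1 * (g⁻¹).1) := by
        simp only [transpose_mul, Matrix.mul_assoc]
      _ = S := by rw [Units.mul_inv, transpose_one, Matrix.one_mul, Matrix.mul_one]
  refine ⟨⟨⟨⟨⟨{g | InGam S z0 N g.1}, fun {g h} h1 h2 => ⟨?_, ?_, ?_⟩⟩, ⟨by simp, m1, ?_⟩⟩,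
    fun {g} h1 => ⟨?_, ?_, ?_⟩⟩, fun _ => Iff.rfl⟩,
    fun g h1 => ⟨unit_of_iso hS h1.1, hg g h1.1 z0 h0 h1.2.2⟩⟩
  · rw [Units.val_mul, transpose_mul]
    calc _ = h.1.transpose * (g.1.transpose * S * g.1) * h.1 := by simp only [Matrix.mul_assoc]
      _ = S := by rw [h1.1, h2.1]
  · rw [Units.val_mul, mm, h1.2.1, h2.2.1, Matrix.mul_one]
  · have := hg _ h1.1 z0 h0 h1.2.2 _ h2.2.2
    change mv (g.1 * h.1) z0 ∈ _
    rwa [mv_mul]
  · change mv 1 z0 ∈ _
    rwa [mv_one]
  · exact inv g h1.1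
  · have := mm (g⁻¹).1 g.1
    rw [Units.inv_mul, m1, h1.2.1, Matrix.mul_one] at this
    exact this.symm
  · refine hg _ (inv g h1.1) (mv g.1 z0) h1.2.2 ?_ z0 h0
    rwa [← mv_mul, Units.inv_mul, mv_one]

theorem uniqS : S_Dom → S_Gam → S_Uniq := by
  intro hD hG b S z0 hc x hx z hz ho
  obtain ⟨d1, -, d3, -, -, -⟩ := hD _ S z0 hc
  have hn : ∀ z ∈ dom S z0, z ∈ negCone S := fun z hz => connectedComponentIn_subset _ _ hz
  have sp := span hc.symm hx (hn z hz) ho
  have u : ∀ z' ∈ dom S z0, Orth S x z' → ∃ c : ℂ, c ≠ 0 ∧ z' = c • z := fun z' hz' ho' => by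
    obtain ⟨α, β, c, e⟩ := sp z'
    have h1 : c = 0 := xc_zero hx fun i => by
      have := ho' i
      rwa [e, bf_add_right, bf_add_right, bf_smul_right, bf_smul_right, ho i, orth_star ho i,
        mul_zero, mul_zero, zero_add, zero_add] at this
    rw [h1, xc, mulVec_zero, add_zero] at e
    have h2 := (hn z' hz').1
    rw [e] at h2
    simp only [bf_add_left, bf_add_right, bf_smul_left, bf_smul_right, (hn z hz).1,
      star_iso (hn z hz), bf_comm hc.symm (star z) z] at h2
    have h3 : α * β = 0 := by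
      refine (mul_eq_zero.1 (?_ : α * β * (2 * bf S z (star z)) = 0)).resolve_right
        (mul_ne_zero two_ne_zero (herm_ne (hn z hz)))
      linear_combination h2
    by_cases h4 : β = 0
    · rw [h4, zero_smul, add_zero] at e
      exact ⟨α, fun h5 => ne_zero (hn z' hz') (by rw [e, h5, zero_smul]), e⟩
    · rw [(mul_eq_zero.1 h3).resolve_right h4, zero_smul, zero_add] at e
      have := d1 z' hz' β⁻¹ (inv_ne_zero h4)
      rw [e, inv_smul_smul₀ h4] at this
      exact absurd this (d3 z hz)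
  refine ⟨u, fun N g hN hg e => ?_⟩
  obtain ⟨l, -, hl⟩ := u (mv g z) (((hG _ S z0 N hc).2 g hg).2 z hz) fun i => by
    have h1 : mv g (fun r => (x r i : ℂ)) = fun r => (x r i : ℂ) := by
      have := mv_map (g := g) (Int.castRingHom ℂ) fun r => x r i
      refine this.trans (funext fun r => ?_)
      conv_rhs => rw [← e]
      rfl
    rw [← h1, bf_mv hg.1, ho i]
  have h1 : ‖l‖ = 1 := by
    have := bf_mv hg.1 z (star z)
    rw [mv_star, hl, star_smul, bf_smul_left, bf_smul_right, ← mul_assoc] at this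
    have h2 : l * star l = 1 := mul_right_cancel₀ (herm_ne (hn z hz)) (by rw [this, one_mul])
    have h3 := congrArg norm h2
    rw [norm_mul, norm_star, norm_one] at h3
    nlinarith [norm_nonneg l]
  obtain ⟨h, rfl⟩ := exists_div hg.2.1
  have hN' : (3 : ℝ) ≤ N := by exact_mod_cast hN
  have hN0 : (N : ℂ) ≠ 0 := Nat.cast_ne_zero.2 (by omega)
  have h2 : h = 0 := by
    refine nil (μ := (l - 1) / N) (ne_zero (hn z hz)) ?_ ?_ ?_ sp
    · have h3 : mv (1 + (N : ℤ) • h) z = z + (N : ℂ) • mv h z := by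
        have h4 : (1 + (N : ℤ) • h).map (Int.cast : ℤ → ℂ) =
            1 + (N : ℂ) • h.map (Int.cast : ℤ → ℂ) := by
          ext r j
          simp only [map_apply, Matrix.add_apply, Matrix.smul_apply, smul_eq_mul, one_apply]
          split_ifs <;> simp
        rw [mv, h4, add_mulVec, one_mulVec, smul_mulVec, mv]
      rw [h3] at hl
      rw [div_eq_inv_mul, ← smul_smul, eq_inv_smul_iff₀ hN0, sub_smul, one_smul, ← hl,
        add_sub_cancel_left]
    · rw [norm_div, Complex.norm_natCast, div_lt_one (by linarith)]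
      have := norm_sub_le l 1
      rw [h1, norm_one] at this
      linarith
    · rw [Matrix.add_mul, Matrix.one_mul, Matrix.smul_mul, add_eq_left] at e
      exact (smul_eq_zero.1 e).resolve_left (Int.natCast_ne_zero.2 (by omega))
  rw [h2, smul_zero, add_zero]

end Pool.Agent.P.MP_b8021b_nt.CM.O
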