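import Pool.Agent.P.MP_b8021b_nt.CM.OFr
import Pool.Agent.P.MP_b8021b_nt.CM.Final

/-! From the packages to the theorem on special zero-cycles. -/

namespace Pool.Agent.P.MP_b8021b_nt.CM.O

open Complex hiding Gamma
open UpperHalfPlane hiding I
open CongruenceSubgroup Filter Pool.Agent.P.MP_7ebcb6_ag Matrix
open scoped Real MatrixGroups Topology LinearAlgebra.Projectivization

noncomputable section

variable {m b n N : ℕ} {k : ℤ} {C : Set (Vec n)} {lam : Vec n → ℂ}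

theorem gf_sw (F : Fin (n + 1) → CW m → ℂ) (j : Fr m) : GF F j.sw = fun σ τ => GF F j τ σ := by
  ext σ τ i
  simp only [GF, zp_sw]

/-- all boundary points of all frames have the same class -/
theorem beta_const (hOne : S_One) (hSurf : S_Surf) (hT : S_Tube) (hGF : S_GF) (h1 : S_I1)
    (h2 : S_I2) (hInv : S_Inv) (hMove : S_Move) {S : ZM m} {z0 : CW m}
    {F : Fin (n + 1) → CW m → ℂ} (hC : Cyc C lam) (hx : Ctx S z0) (hm : 4 < m) (hN : 0 < N)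
    (hF : Fm S z0 N k C F) {j j' : Fr m} (hj : PF S z0 j) (hj' : PF S z0 j') (τ τ' : ℍ) :
    beta lam (GF F j) τ = beta lam (GF F j') τ' := by
  have i1 := h1 m n S z0 N k C F lam hC hx hN hF
  have i2 := h2 m n S z0 N k C F lam hC hx hN hF
  have key : ∀ j, PF S z0 j → ∀ τ, beta lam (GF F j) τ = kappa lam (GF F j) := by
    intro j hj τ
    obtain ⟨M, hM, hG⟩ := hGF m n S z0 N k C F hx hN hF j hj
    have hl := hInv m S z0 hx hm (fun j => beta lam (GF F j)) i1 i2 j hj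
    exact sub_eq_zero.1 (hOne _ (hSurf n C lam hC M k _ hM hG.1)
      (fun γ hγ σ => by simp only [hl γ hγ σ]) τ)
  rw [key j hj, key j' hj']
  refine hMove m S z0 hx (fun j => kappa lam (GF F j)) (fun j hj A B hA e => ?_)
    (fun j hj w hw => ?_) (fun j _ => ?_) j j' hj hj'
  · rw [← key _ ((hT m S z0 hx j hj).2.2.1 A B hA e) τ, i1 j hj A B hA e, key j hj]
  · rw [← key _ ((hT m S z0 hx j hj).2.2.2.1 w hw) τ, i2 j hj w hw, key j hj]
  · simp only [kappa, gf_sw]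

theorem col_mul {R : Type} [CommRing R] (g : ZM m) (x : Matrix (Fin m) (Fin b) ℤ) (i : Fin b) :
    (fun r => ((g * x) r i : R)) = mv g fun r => (x r i : R) := by
  ext r
  simp [mv, Matrix.mul_apply, mulVec, dotProduct]

theorem xq_mul (g : ZM m) (x : Matrix (Fin m) (Fin b) ℤ) (a : QV b) :
    xq (g * x) a = mv g (xq x a) := by
  rw [xq, xq, mv, mulVec_mulVec]
  exact congrArg (· *ᵥ a) (Matrix.map_mul (f := Int.castRingHom ℚ))

theorem kk_mul (a1 a2 α β : QV b) (g : ZM m) (x : Matrix (Fin m) (Fin b) ℤ) (i : Fin b) :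
    kk a1 a2 α β (g * x) i = mv g (kk a1 a2 α β x i) := by
  simp only [kk, col_mul, xq_mul, mv_sub, mv_smul]

theorem Orth.mul {S g : ZM m} (e : g.transpose * S * g = S) {x : Matrix (Fin m) (Fin b) ℤ}
    {z : CW m} (h : Orth S x z) : Orth S (g * x) (mv g z) := fun i => by
  rw [col_mul, bf_mv e, h i]

theorem special_mul {S g : ZM m} {z0 : CW m} (hg : InGam S z0 N g) {T : ZM b}
    {μ : Matrix (Fin m) (Fin b) (ZMod N)} {x : Matrix (Fin m) (Fin b) ℤ}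
    (h : OSpecial S N T μ x) : OSpecial S N T μ (g * x) := by
  refine ⟨?_, ?_⟩
  · rw [← h.1, transpose_mul]
    conv_rhs => rw [← hg.1]
    simp only [Matrix.mul_assoc]
  · have := Matrix.map_mul (L := g) (M := x) (f := Int.castRingHom (ZMod N))
    simp only [Int.coe_castRingHom] at this
    rw [this, hg.2.1, Matrix.one_mul, h.2]

theorem det_ne_of_posDef {T : ZM b} (h : T.PosDef) : T.det ≠ 0 := fun h0 => by
  obtain ⟨v, hv, e⟩ := Matrix.exists_mulVec_eq_zero_iff.2 h0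
  have := h.dotProduct_mulVec_pos hv
  rw [e, dotProduct_zero] at this
  exact lt_irrefl _ this

theorem sum_zero (hM : S_InS) (hT : S_Tube) (hGF : S_GF) (hG : S_Gam) (hU : S_Uniq)
    (hFib : S_Fib) (hO : S_Orb) (hFi : S_Fibre) {S : ZM (b + 2)} {z0 : CW (b + 2)}
    {F : Fin (n + 1) → CW (b + 2) → ℂ} (hC : Cyc C lam) (hx : Ctx S z0) (hN : 3 ≤ N)
    (hF : Fm S z0 N k C F) (h0 : ∃ j, Ok S j) {κ : ℂ}
    (hκ : ∀ j, PF S z0 j → ∀ τ, beta lam (GF F j) τ = κ) {T : ZM b} (hT0 : T.det ≠ 0)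
    {μ : Matrix (Fin (b + 2)) (Fin b) (ZMod N)} {R : Finset (Matrix (Fin (b + 2)) (Fin b) ℤ)}
    {P : Matrix (Fin (b + 2)) (Fin b) ℤ → CW (b + 2)} (h : IsOSystem S z0 N T μ R P) :
    ∑ x ∈ R, (lam (fun i => F i (P x)) - κ) = 0 := by
  classical
  rcases R.eq_empty_or_nonempty with rfl | ⟨x0, hx0⟩
  · simp
  have hN0 : 0 < N := by omega
  obtain ⟨⟨Γ, hΓ⟩, hG2⟩ := hG _ S z0 N hx
  let u : CW (b + 2) → ℂ := fun z => lam (fun i => F i z) - κ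
  let U : Matrix (Fin (b + 2)) (Fin b) ℤ → ℂ := fun x =>
    if e : ∃ z ∈ dom S z0, Orth S x z then u e.choose else 0
  have hdet : ∀ y, OSpecial S N T μ y → (y.transpose * S * y).det ≠ 0 := fun y hy => by
    rwa [hy.1]
  have hUu : ∀ y, OSpecial S N T μ y → ∀ z ∈ dom S z0, Orth S y z → U y = u z := by
    intro y hy z hz ho
    have e : ∃ z ∈ dom S z0, Orth S y z := ⟨z, hz, ho⟩
    obtain ⟨c, hc, e1⟩ := (hU b S z0 hx y (hdet y hy) z hz ho).1 _ e.choose_spec.1 e.choose_spec.2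
    simp only [U, dif_pos e, u]
    rw [e1, ← hC.cone.inv _ (zpow_ne_zero (-k) hc) fun i => F i z]
    congr 2
    exact funext fun i => (hF.form i).hom z hz c hc
  have hex : ∀ x, OSpecial S N T μ x → ∃ z ∈ dom S z0, Orth S x z := fun x hx => by
    obtain ⟨y, ⟨hy, g, hg, rfl⟩, -⟩ := h.2 x hx
    exact ⟨_, (hG2 g hg).2 _ (h.1 y hy).2.1, Orth.mul hg.1 (h.1 y hy).2.2⟩
  obtain ⟨a1, a2, α, β, n1, n2, hFD, hfr⟩ := hFib b S z0 hx h0 x0 (hdet x0 (h.1 x0 hx0).1)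
    (hex x0 (h.1 x0 hx0).1)
  rw [(h.1 x0 hx0).1.1] at hFD hfr
  have key := hO _ _ _ (rho (b + 2) b) Γ {x | OSpecial S N T μ x} (kk a1 a2 α β) U R
    (fun g hg x hx => ?_) (fun g hg x hs e => ?_) (fun g _ x _ y _ e => ?_)
    ⟨fun y hy => (h.1 y hy).1, fun x hx => ?_⟩ fun x hs => ?_
  · rw [← key]
    exact Finset.sum_congr rfl fun y hy =>
      (hUu y (h.1 y hy).1 _ (h.1 y hy).2.1 (h.1 y hy).2.2).symm
  · have hg' := (hΓ g).1 hg
    obtain ⟨z, hz, ho⟩ := hex x hx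
    refine ⟨special_mul hg' hx, ?_⟩
    rw [hUu x hx z hz ho]
    refine (hUu _ (special_mul hg' hx) _ ((hG2 _ hg').2 z hz) (Orth.mul hg'.1 ho)).trans ?_
    simp only [u]
    congr 2
    exact funext fun i => (hF.form i).inv _ hg' z hz
  · obtain ⟨z, hz, ho⟩ := hex x hs
    exact Units.ext ((hU b S z0 hx x (hdet x hs) z hz ho).2 N g.1 hN ((hΓ g).1 hg) e)
  · exact funext fun i => (kk_mul _ _ _ _ _ _ i).trans (e ▸ (kk_mul _ _ _ _ _ _ i).symm)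
  · obtain ⟨y, ⟨hy, g, hg, e⟩, hu⟩ := h.2 x hx
    obtain ⟨g', rfl⟩ := (hG2 g hg).1
    exact ⟨y, ⟨hy, g', (hΓ g').2 hg, e⟩, fun y' ⟨h1, g, hg, e⟩ => hu y' ⟨h1, g.1, (hΓ g).1 hg, e⟩⟩
  · obtain ⟨j, hj, hk⟩ := hfr x hs.1
    obtain ⟨M, hM0, hMM⟩ := hGF _ n S z0 N k C F hx hN0 hF j hj
    exact hFi _ b S z0 N hx hN0 Γ hΓ T μ a1 a2 α β n1 n2 hFD u U hUu x hs j hj hk
      (hM n C lam hC M k _ κ hM0 hMM (hκ j hj)
        (by rw [← gf_sw]; exact hκ _ (hT _ S z0 hx j hj).2.2.2.2)).1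

theorem finalO (hCV : S_CV) (hEL : S_EL) (hP1 : S_P1) (hOne : S_One) (hSurf : S_Surf)
    (hM : S_InS) (hD : S_Dom) (hG : S_Gam) (hU : S_Uniq) (hT : S_Tube) (hE : S_Eps) (hGF : S_GF)
    (h1 : S_I1) (h2 : S_I2) (hInv : S_Inv) (hMove : S_Move) (h0 : S_Fr0) (hFib : S_Fib)
    (hO : S_Orb) (hFi : S_Fibre) (hb : 3 ≤ b) (hN : 3 ≤ N) {S : ZM (b + 2)} {z0 : CW (b + 2)}
    (hx : Ctx S z0) {e : Fin 2 → QV (b + 2)} (he : LinearIndependent ℚ e)
    (he' : ∀ i l, bf S (e i) (e l) = 0) {F : Fin (n + 1) → CW (b + 2) → ℂ}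
    (hF : ∀ i, IsForm S z0 N k (F i)) {φ : CW (b + 2) → oVar S z0 F}
    (hφ : ∀ z ∈ dom S z0, ∃ h : (fun i => F i z) ≠ 0, (φ z).1 = Projectivization.mk ℂ _ h) :
    ∃ o : oVar S z0 F, ∀ T : ZM b, T.PosDef → ∀ μ R P, IsOSystem S z0 N T μ R P →
      ∃ t : ℕ, 0 < t ∧ t • (∑ x ∈ R, Finsupp.single (φ (P x)) (1 : ℤ) -
        Finsupp.single o (R.card : ℤ)) ∈ ratTrivial (oVar S z0 F) := by
  have hN0 : 0 < N := by omega
  have hFm : Fm S z0 N k (cone (oVar S z0 F)) F :=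
    ⟨hF, fun z hz => (hφ z hz).1, fun z hz h => (hφ z hz).2 ▸ (φ z).2⟩
  obtain ⟨j1, hj1⟩ := h0 _ S hx.symm (hD _ S z0 hx).2.2.2.2.1 e he he'
  obtain ⟨j, hj⟩ : ∃ j, PF S z0 j := (hE _ S z0 hx j1 hj1).1.elim (⟨_, ·⟩) (⟨_, ·⟩)
  obtain ⟨M, hM0, hMM⟩ := hGF _ n S z0 N k _ F hx hN0 hFm j hj
  obtain ⟨v, hv⟩ := hMM.1.lim_inf hM0 UpperHalfPlane.I
  have hvC := hv.mem (cone_cone _ 0) (Eventually.of_forall (hMM.1.mem _))
  refine ⟨⟨_, hvC hv.1⟩, fun T hT0 μ R P h => ?_⟩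
  by_contra hne
  obtain ⟨f, hf, hz⟩ := FinalP.exists_functional _ _ hne
  have hc := cone_cone _ f
  have hC : Cyc _ _ := ⟨hc, hCV n _ f hf, hEL n _ f hf, hP1 n _ _ hc (hCV n _ f hf)⟩
  have key := sum_zero hM hT hGF hG hU hFib hO hFi hC hx hN hFm ⟨j1, hj1⟩
    (fun j' hj' τ => (beta_const hOne hSurf hT hGF h1 h2 hInv hMove hC hx (by omega) hN0 hFm hj' hj
      τ UpperHalfPlane.I).trans (hv.lc_eq hc)) (det_ne_of_posDef hT0) h
  apply hz
  rw [map_sub, map_sum, ← mul_one (R.card : ℤ), ← smul_eq_mul, ← Finsupp.smul_single, map_zsmul,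
    ← lamX_eq hv.1 rfl, natCast_zsmul, ← Finset.sum_const, ← Finset.sum_sub_distrib, ← key]
  refine Finset.sum_congr rfl fun x hx => ?_
  obtain ⟨h3, h4⟩ := hφ _ (h.1 x hx).2.1
  exact congrArg (· - _) (lamX_eq h3 h4).symm

end

end Pool.Agent.P.MP_b8021b_nt.CM.O
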