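import Pool.Agent.P.MP_b8021b_nt.CM.OFr

/-! The boundary class does not change under the Eichler move. -/

namespace Pool.Agent.P.MP_b8021b_nt.CM.O

open Complex hiding Gamma
open UpperHalfPlane hiding I
open Filter
open scoped Topology

noncomputable section

namespace OI2P

theorem tendsto_shift (d : ℂ) : Tendsto (fun s : ℂ => s + d) atI atI := by
  refine tendsto_comap_iff.2 ?_
  have h : Tendsto (fun s : ℂ => s.im + d.im) atI atTop :=
    tendsto_atTop_add_const_right _ _ tendsto_comap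
  exact h.congr fun s => by simp

theorem tendsto_punct (x y : ℂ) : Tendsto (fun u : ℂ => x + u) (𝓝[≠] y) (𝓝[≠] (x + y)) :=
  tendsto_nhdsWithin_iff.2
    ⟨((continuous_const.add continuous_id).tendsto y).mono_left nhdsWithin_le_nhds,
      eventually_mem_nhdsWithin.mono fun _ h e => h (add_left_cancel e)⟩

theorem jensen {l : ℂ → ℂ} (h : ∀ x y, l (x + y) + l (x + -y) = 2 * l (x + 0))
    (hp : l 1 = l 0) {t : ℕ} (ht : 0 < t) : l (1 / t) = l 0 := by
  have ht' : (t : ℂ) ≠ 0 := by exact_mod_cast ht.ne'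
  have key : ∀ r : ℕ, l ((r + 1 : ℕ) / t) - l (r / t) = l (1 / t) - l 0 ∧
      l (r / t) - l 0 = r * (l (1 / t) - l 0) := by
    intro r
    induction r with
    | zero => simp
    | succ r ih =>
      have h1 := h ((r + 1 : ℕ) / t) (1 / t)
      have e1 : ((r + 1 : ℕ) : ℂ) / t + 1 / t = (r + 1 + 1 : ℕ) / t := by push_cast; ring
      have e2 : ((r + 1 : ℕ) : ℂ) / t + -(1 / t) = r / t := by push_cast; ring
      rw [e1, e2, add_zero] at h1
      refine ⟨by linear_combination h1 + ih.1, ?_⟩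
      push_cast at ih ⊢
      linear_combination ih.1 + ih.2
  have h2 := (key t).2
  rw [div_self ht', hp, sub_self] at h2
  exact sub_eq_zero.1 ((mul_eq_zero.1 h2.symm).resolve_left ht')

end OI2P

open OI2P in
theorem i2S : S_Tube → S_Eich → S_Loc3 → S_LF → S_I2 := by
  intro hT hE hL hLF m n S z0 N k C F lam hC hx hN hF j hj w hw τ
  obtain ⟨t, v, g, g', ht, hv, hg, hg', hmv⟩ := hE m S z0 N hx hN j hj w hw
  have hvp : Perp S j v := hv ▸ hw.smul t
  obtain ⟨M, hM, hloc⟩ := hL m n S z0 N k C F hx hN hF j hj v hvp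
  set H : ℂ → ℂ → Vec n := fun u s i => F i (z3 S j v τ s u) with hH
  obtain ⟨a, φ, hd, ⟨u1, -, hu1⟩, hφ⟩ := hLF n C lam hC M Set.univ H hM isPreconnected_univ
    Set.univ_nonempty fun u0 _ =>
      let ⟨ρ, Y, K, h⟩ := hloc τ u0
      ⟨ρ, Y, K, Set.subset_univ _, h⟩
  have hdom : ∀ u : ℂ, ∀ᶠ s in atI, z3 S j v τ s u ∈ dom S z0 := fun u => by
    filter_upwards [ev_atI (((bf S v v / 2 : ℚ) : ℝ) * u.im ^ 2 / τ.im)] with s hs
    refine (hT m S z0 hx j hj).1 v hvp τ s u τ.im_pos ?_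
    rw [div_lt_iff₀ τ.im_pos] at hs
    rw [coe_im]
    linarith
  have h1 : ∀ u, φ (u + 1) = φ u := fun u => by
    refine tendsto_nhds_unique (hφ (u + 1) trivial).2.1 ((hφ u trivial).2.1.congr' ?_)
    filter_upwards [hdom u] with s hs
    congr 1
    funext i
    simp only [hH]
    rw [← (hmv τ s u).1]
    exact ((hF.form i).inv g hg _ hs).symm
  have h2 : ∀ u, ∃ c : ℂ, c ≠ 0 ∧ φ (u + τ) = c • φ u := fun u => by
    set d : ℂ := ((bf S v v / 2 : ℚ) : ℂ) * (2 * u + τ) with hd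
    refine ⟨e (-(a * d) / M), exp_ne_zero _, tendsto_nhds_unique
      ((hφ (u + τ) trivial).2.1.comp (tendsto_shift d))
      (((hφ u trivial).2.1.const_smul (e (-(a * d) / M))).congr' ?_)⟩
    filter_upwards [hdom u] with s hs
    have e1 : H (u + τ) (s + d) = H u s := by
      funext i
      simp only [hH]
      rw [hd, ← (hmv τ s u).2]
      exact (hF.form i).inv g' hg' _ hs
    have e2 : e (-(a * d) / M) * e (-(a * s) / M) = e (-(a * (s + d)) / M) := by
      rw [e, e, e, ← exp_add]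
      congr 1
      ring
    simp only [Function.comp_apply]
    rw [e1, smul_smul, e2]
  have hex : ∀ u, ∃ v, Lim φ (𝓝[≠] u) v := fun u =>
    let ⟨v, _, h, _⟩ := (hφ u trivial).2.2
    ⟨v, h⟩
  set l : ℂ → ℂ := fun u => lc lam φ (𝓝[≠] u) with hl
  have hsh : ∀ x y, lc lam (fun u => φ (x + u)) (𝓝[≠] y) = l (x + y) := fun x y =>
    lc_comp hC.cone (hex _) (tendsto_punct x y)
  have hJ : ∀ x y, l (x + y) + l (x + -y) = 2 * l (x + 0) := fun x y => by
    rw [← hsh, ← hsh, ← hsh]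
    refine hC.el τ (fun u => φ (x + u))
      ((differentiableOn_univ.1 hd).comp (differentiable_id.const_add x)) (fun h0 => hu1 ?_)
      (fun u => (hφ _ trivial).1) (fun u => ⟨1, one_ne_zero, ?_⟩) (fun u => ?_) y
    · simpa using congrFun h0 (u1 - x)
    · rw [← add_assoc, h1, one_smul]
    · rw [← add_assoc]
      exact h2 _
  have hp : l 1 = l 0 := by
    have := hsh 1 0
    simp only [add_comm (1 : ℂ), h1, zero_add] at this
    exact this.symm
  have hb : ∀ u, lc lam (fun σ : ℍ => H u σ) atImInfty = l u := fun u => by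
    obtain ⟨v, w, a1, a2, a3⟩ := (hφ u trivial).2.2
    rw [lc_comp hC.cone ⟨w, a2⟩ tendsto_coe_atI, a2.lc_eq hC.cone, ← a3]
    exact (a1.lc_eq hC.cone).symm
  have ht' : (t : ℂ) ≠ 0 := by exact_mod_cast ht.ne'
  have e1 : GF F (j.eb S w) τ = fun σ : ℍ => H (1 / t) σ := by
    funext σ i
    simp only [GF, hH, zp_eb, hv, z3_smul]
    rw [Rat.cast_natCast, mul_one_div_cancel ht']
  have e2 : GF F j τ = fun σ : ℍ => H 0 σ := by
    funext σ i
    simp only [GF, hH, z3_zero]
  rw [beta, beta, e1, e2, hb, hb]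
  exact jensen hJ hp ht

end

end Pool.Agent.P.MP_b8021b_nt.CM.O
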