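import Pool.Agent.P.MP_b8021b_nt.CM.OBas

/-! The class function of a family that is modular in both variables. -/

namespace Pool.Agent.P.MP_b8021b_nt.CM.O

open Complex hiding Gamma
open UpperHalfPlane hiding I
open CongruenceSubgroup Filter Pool.Agent.P.MP_7ebcb6_ag
open scoped Real MatrixGroups Topology LinearAlgebra.Projectivization

noncomputable section

namespace OInSP

variable {n M : ℕ} {C : Set (Vec n)} {lam : Vec n → ℂ} {k : ℤ}

theorem hol_comp {f : ℍ → ℂ} {q : ℍ → ℍ} (hf : Hol f) (hq : Hol fun τ => (q τ : ℂ)) :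
    Hol fun τ => f (q τ) := by
  rw [Hol, HolP.comp_smul_eq f q]
  exact DifferentiableOn.comp hf hq fun z _ => (q (ofComplex z)).im_pos

theorem rec_mt (hC : Cyc C lam) (hM : 0 < M) {Φ : ℍ → Vec n} (h : MT C M k Φ)
    (h0 : ∀ τ, Φ τ ≠ 0) : Rec fun τ => lam (Φ τ) - lc lam Φ atImInfty := by
  have hc : Continuous Φ := continuous_pi fun i => (h.inG i).1.continuous
  have e : ∀ τ, lc lam Φ (𝓝[≠] τ) = lam (Φ τ) := fun τ =>
    (lim_of_tendsto (h0 τ) ((hc.tendsto τ).mono_left nhdsWithin_le_nhds)).lc_eq hC.cone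
  simpa only [e] using (hC.cv M k Φ hM h).1

theorem one_le_kap (τ : ℍ) : 1 ≤ kap τ := by linarith [kap_pos τ]

theorem jf_bound (γ : SL) (k : ℤ) :
    ∃ (K : ℝ) (r : ℕ), 0 ≤ K ∧ ∀ σ, ‖jf γ σ ^ k‖ ≤ K * kap σ ^ r := by
  obtain ⟨m, rfl | rfl⟩ := k.eq_nat_or_neg
  · obtain ⟨K, hK, h⟩ := kap_act_le (HolP.det_SL_pos γ)
    refine ⟨K ^ m, m, by positivity, fun σ => ?_⟩
    rw [zpow_natCast, norm_pow, ← mul_pow]
    refine pow_le_pow_left₀ (norm_nonneg _) ((norm_jf_le_kap γ σ).trans ?_) m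
    rw [← act_SL]
    exact h σ
  · refine ⟨1, m, zero_le_one, fun σ => ?_⟩
    rw [zpow_neg, zpow_natCast, ← inv_pow, ← jf_inv, norm_pow, one_mul]
    refine pow_le_pow_left₀ (norm_nonneg _) ((norm_jf_le_kap γ⁻¹ _).trans ?_) m
    rw [inv_smul_smul]

/-- the family moved by a rational matrix in the second variable -/
def mvd (k : ℤ) (γ : SL) (U : M2) (G : ℍ → ℍ → Vec n) (τ σ : ℍ) : Vec n :=
  jf γ (act U σ) ^ (-k) • G τ (γ • act U σ)

variable {G : ℍ → ℍ → Vec n} {γ : SL} {U : M2} {M' : ℕ}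

theorem law2 (h : MM C M k G) {δ δ' : SL} (hδ : δ' ∈ Gamma M) (τ σ : ℍ)
    (e1 : act U (δ • σ) = δ' • act U σ) (e2 : jf δ' (act U σ) = jf δ σ) :
    mvd k γ U G τ (δ • σ) = jf δ σ ^ k • mvd k γ U G τ σ := by
  obtain ⟨δ'', h1, h2⟩ := HolP.conj_mem hδ γ
  have e3 : jf γ (δ' • act U σ) * jf δ σ = jf δ'' (γ • act U σ) * jf γ (act U σ) := by
    rw [← e2, ← jf_mul, h2, jf_mul]
  have e4 : G τ (δ'' • γ • act U σ) = jf δ'' (γ • act U σ) ^ k • G τ (γ • act U σ) :=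
    h.2.law δ'' h1 _ τ
  rw [mvd, mvd, e1, ← mul_smul γ δ', h2, mul_smul δ'' γ, e4, smul_smul, smul_smul]
  congr 1
  have a1 := zpow_ne_zero k (jf_ne_zero γ (δ' • act U σ))
  have a2 := zpow_ne_zero k (jf_ne_zero γ (act U σ))
  have e5 := congrArg (· ^ k) e3
  simp only [mul_zpow] at e5
  rw [zpow_neg, zpow_neg]
  field_simp
  linear_combination -e5

theorem m1_mvd (hC : Cone C lam) (h : MM C M k G) (hU : 0 < U.det) (hd : M ∣ M')
    (hδ : ∀ δ ∈ Gamma M', ∀ τ σ, mvd k γ U G τ (δ • σ) = jf δ σ ^ k • mvd k γ U G τ σ) :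
    M1 C M' k (mvd k γ U G) := by
  refine ⟨fun p q hp hq i => ?_, ?_, ?_, fun δ hδ τ σ => ?_, fun τ σ => ?_, fun τ σ => ?_,
    fun τ σ => hC.smul _ _ (h.1.mem _ _)⟩
  · exact (hol_comp ((hol_jf_zpow γ (-k)).comp_act hU) hq).mul
      (h.1.hol p (fun τ => γ • act U (q τ)) hp
        (hol_comp (f := fun σ => ((γ • act U σ : ℍ) : ℂ)) ((hol_coe.smulSL γ).comp_act hU) hq) i)
  · exact ((((hol_jf_zpow γ (-k)).comp_act hU).continuous).comp continuous_snd).smul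
      (h.1.cont.comp (continuous_fst.prodMk
        ((continuous_SL γ).comp ((continuous_act U).comp continuous_snd))))
  · obtain ⟨K, r, hb⟩ := h.1.gro
    obtain ⟨K1, r1, hK1, h1⟩ := jf_bound γ (-k)
    obtain ⟨C1, hC1, h2⟩ := kap_act_le hU
    obtain ⟨C2, hC2, h3⟩ := kap_act_le (HolP.det_SL_pos γ)
    refine ⟨K1 * C1 ^ r1 * (|K| * (C2 * C1) ^ r), r1 + r, fun τ σ => ?_⟩
    have a1 := one_le_kap τ
    have a2 := one_le_kap σ
    have a3 := one_le_kap (act U σ)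
    have a4 := one_le_kap (γ • act U σ)
    have b1 : kap (act U σ) ≤ C1 * (kap τ * kap σ) :=
      (h2 σ).trans (mul_le_mul_of_nonneg_left (by nlinarith) hC1)
    have b2 : kap (γ • act U σ) ≤ C2 * C1 * kap σ := by
      rw [← act_SL, mul_assoc]
      exact (h3 _).trans (mul_le_mul_of_nonneg_left (h2 σ) hC2)
    have b3 : kap τ * kap (γ • act U σ) ≤ C2 * C1 * (kap τ * kap σ) := by
      rw [mul_left_comm]
      gcongr
    rw [mvd, norm_smul]
    calc _ ≤ K1 * (C1 * (kap τ * kap σ)) ^ r1 * (|K| * (C2 * C1 * (kap τ * kap σ)) ^ r) := by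
          refine mul_le_mul ((h1 _).trans (by gcongr)) ((hb _ _).trans ?_) (norm_nonneg _)
            (by positivity)
          exact mul_le_mul (le_abs_self K) (by gcongr) (by positivity) (abs_nonneg K)
      _ = _ := by simp only [mul_pow, pow_add]; ring
  · rw [mvd, mvd, h.1.law δ (Gamma_le hd hδ), smul_comm]
  · rw [← HolP.T_smul, hδ _ (HolP.T_mem M'), jf_T_zpow, one_zpow, one_smul]
  · exact smul_ne_zero (zpow_ne_zero _ (jf_ne_zero _ _)) (h.1.ne _ _)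

theorem mt_diag {G : ℍ → ℍ → Vec n} (h : M1 C M k G)
    (hδ : ∀ δ ∈ Gamma M, ∀ τ σ, G τ (δ • σ) = jf δ σ ^ k • G τ σ) :
    MT C M (k + k) fun τ => G τ τ := by
  refine ⟨fun i => ?_, fun δ hd τ => ?_, fun e => h.ne UpperHalfPlane.I _ (congrFun e _),
    fun τ => h.mem τ τ⟩
  · obtain ⟨K, r, hb⟩ := h.gro
    refine inG_of_pow (h.hol id id hol_coe hol_coe i) K (r + r) fun τ =>
      (norm_le_pi_norm (G τ τ) i).trans ((hb τ τ).trans_eq ?_)
    rw [mul_pow, pow_add]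
  · rw [h.law δ hd, hδ δ hd, smul_smul, zpow_add₀ (jf_ne_zero δ τ)]

end OInSP

open OInSP in
theorem insS : S_One → S_Tri → S_Up → S_MDQ → S_Surf → S_InS := by
  intro hOne hTri hUp hMD hSurf n C lam hC M k G κ hM h hβ hβ'
  have hlev : LevS M fun τ σ => lam (G τ σ) - κ := by
    refine ⟨fun σ γ hγ τ => ?_, fun τ γ hγ σ => ?_⟩
    · simp only [h.1.law γ hγ, hC.cone.inv _ (zpow_ne_zero k (jf_ne_zero γ τ))]
    · have e : G τ (γ • σ) = jf γ σ ^ k • G τ σ := h.2.law γ hγ σ τ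
      simp only [e, hC.cone.inv _ (zpow_ne_zero k (jf_ne_zero γ σ))]
  refine ⟨⟨⟨M, hM, hlev⟩, fun g hg => ?_, fun σ => ?_, fun τ => ?_⟩, hlev⟩
  · obtain ⟨γ, α, β, hα, hY⟩ := hTri g.1 hg
    obtain ⟨M', hM', hd, hup⟩ := hUp α β M hα hM
    have hU : 0 < (!![α, β; 0, 1] : M2).det := by simpa using hα
    generalize (!![α, β; 0, 1] : M2) = U at hY hup hU
    have hδ : ∀ δ ∈ Gamma M', ∀ τ σ, mvd k γ U G τ (δ • σ) = jf δ σ ^ k • mvd k γ U G τ σ :=
      fun δ hδ τ σ =>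
        let ⟨_, h1, h2⟩ := hup δ hδ
        law2 h h1 τ σ (h2 σ).1 (h2 σ).2
    have h1 := m1_mvd hC.cone h hU hd hδ
    have hb : ∀ τ, beta lam (mvd k γ U G) τ = κ := fun τ => by
      rw [← hβ τ, beta, beta, ← hMD n C lam hC M k (G τ) hM (h.2.mt τ) g.1 hg]
      exact lc_congr (Eventually.of_forall fun σ =>
        ⟨_, zpow_ne_zero (-k) (jf_ne_zero γ (act U σ)), by rw [hY]; rfl⟩)
    have h2 := hSurf n C lam hC M' k _ hM' h1
    simp only [hb] at h2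
    have h3 := sub_eq_zero.1 (hOne _ h2 (fun _ _ _ => rfl) UpperHalfPlane.I)
    have h4 := rec_mt hC hM' (mt_diag h1 hδ) fun τ => h1.ne τ τ
    have h5 : ∀ τ, lam (mvd k γ U G τ τ) = lam (G τ (actH g τ)) := fun τ => by
      rw [mvd, hC.cone.inv _ (zpow_ne_zero (-k) (jf_ne_zero γ (act U τ))), ← hY, act_val]
    simp only [h5] at h4
    rw [h3]
    exact h4
  · have h4 := rec_mt hC hM (h.1.mt σ) fun τ => h.1.ne τ σ
    rw [← hβ' σ]
    exact h4
  · have h4 := rec_mt hC hM (h.2.mt τ) fun σ => h.1.ne τ σ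
    rw [← hβ τ]
    exact h4

end

end Pool.Agent.P.MP_b8021b_nt.CM.O
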