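import Pool.Agent.P.MP_b8021b_nt.CM.OFr

/-! A function of positive frames that is invariant under Eichler moves has level one. -/

namespace Pool.Agent.P.MP_b8021b_nt.CM.O

open UpperHalfPlane hiding I
open Matrix
open scoped MatrixGroups

namespace OInvP

variable {m : ℕ} {S : ZM m} {j : Fr m} {w : QV m}

/-- the Eichler move that changes the first vector -/
def ed (S : ZM m) (j : Fr m) (w : QV m) : Fr m :=
  ⟨j.a + w - (bf S w w / 2) • j.d, j.b, j.c, j.d⟩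

theorem ed_eq : ed S j w = ((j.act 1 !![0, -1; 1, 0]).eb S w).act 1 !![0, 1; -1, 0] := by
  ext1
  · simp [ed, Fr.act, Fr.eb, Fr.ap]
    module
  · simp [ed, Fr.act, Fr.eb, Fr.ap]
  · simp [ed, Fr.act, Fr.eb, Fr.ap]
  · simp [ed, Fr.act, Fr.eb, Fr.ap]

theorem exists_perp (hm : 4 < m) (S : ZM m) (j : Fr m) : ∃ w, Perp S j w ∧ w ≠ 0 := by
  let f : QV m →ₗ[ℚ] (Fin 4 → ℚ) :=
    { toFun := fun x => ![bf S j.a x, bf S j.b x, bf S j.c x, bf S j.d x]
      map_add' := fun x y => by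
        ext i
        fin_cases i <;> simp [bf_add_right]
      map_smul' := fun c x => by
        ext i
        fin_cases i <;> simp [bf_smul_right] }
  have h : LinearMap.ker f ≠ ⊥ := LinearMap.ker_ne_bot_of_finrank_lt (by simpa using hm)
  obtain ⟨w, hw, h0⟩ := Submodule.exists_mem_ne_zero_of_ne_bot h
  have e : ∀ i, f w i = 0 := fun i => congrFun (LinearMap.mem_ker.1 hw) i
  exact ⟨w, ⟨e 0, e 1, e 2, e 3⟩, h0⟩

theorem q_b (hS : S.IsSymm) (hj : Ok S j) (hw : Perp S j w) (c : ℚ) :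
    bf S (w - c • j.b) (w - c • j.b) = bf S w w := by
  simp [bf_sub_left, bf_sub_right, bf_smul_left, bf_smul_right, hj.bb, hw.2.1,
    bf_comm hS w j.b]

theorem q_d (hS : S.IsSymm) (hj : Ok S j) (hw : Perp S j w) (c : ℚ) :
    bf S (w - c • j.d) (w - c • j.d) = bf S w w := by
  simp [bf_sub_left, bf_sub_right, bf_smul_left, bf_smul_right, hj.dd, hw.2.2.2,
    bf_comm hS w j.d]

theorem perp_eb (hS : S.IsSymm) (hj : Ok S j) (hw : Perp S j w) (s : ℚ) {q : ℚ}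
    (hq : bf S w w = q) : Perp S (j.eb S (s • w)) (w - (s * q) • j.b) := by
  refine ⟨?_, ?_, ?_, ?_⟩ <;>
    simp [Fr.eb, bf_add_left, bf_sub_left, bf_sub_right, bf_smul_left, bf_smul_right, hj.ab,
      hj.bb, hj.cb hS, hj.db hS, hw.1, hw.2.1, hw.2.2.1, hw.2.2.2, bf_comm hS w j.b, hq]

theorem perp_ed (hS : S.IsSymm) (hj : Ok S j) (hw : Perp S j w) (t : ℚ) {q : ℚ}
    (hq : bf S w w = q) : Perp S (ed S j (t • w)) (w - (t * q) • j.d) := by
  refine ⟨?_, ?_, ?_, ?_⟩ <;>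
    simp [ed, bf_add_left, bf_sub_left, bf_sub_right, bf_smul_left, bf_smul_right, hj.ad,
      hj.bd, hj.cd, hj.dd, hw.1, hw.2.1, hw.2.2.1, hw.2.2.2, bf_comm hS w j.d, hq]

theorem eb_smul (s : ℚ) {q : ℚ} (hq : bf S w w = q) :
    j.eb S (s • w) = ⟨j.a, j.b, j.c - s • w + (s * (s * q) / 2) • j.b, j.d⟩ := by
  rw [Fr.eb, bf_smul_left, bf_smul_right, hq]

theorem ed_smul (s : ℚ) {q : ℚ} (hq : bf S w w = q) :
    ed S j (s • w) = ⟨j.a + s • w - (s * (s * q) / 2) • j.d, j.b, j.c, j.d⟩ := by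
  rw [ed, bf_smul_left, bf_smul_right, hq]

end OInvP

open OInvP

theorem invS (hT : S_Tube) : S_Inv := by
  intro m S z0 hc hm β hA hE
  have hS := hc.symm
  have hact : ∀ j, PF S z0 j → ∀ A B : M2, 0 < A.det → A.det * B.det = 1 → PF S z0 (j.act A B) :=
    fun j hj => (hT m S z0 hc j hj).2.2.1
  have heb : ∀ j, PF S z0 j → ∀ w, Perp S j w → PF S z0 (j.eb S w) :=
    fun j hj => (hT m S z0 hc j hj).2.2.2.1
  have hed : ∀ j, PF S z0 j → ∀ w, Perp S j w →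
      PF S z0 (ed S j w) ∧ ∀ τ, β (ed S j w) τ = β j τ := by
    intro j hj w hw
    have d1 : (1 : M2).det * (!![0, -1; 1, 0] : M2).det = 1 := by simp [Matrix.det_fin_two]
    have d2 : (1 : M2).det * (!![0, 1; -1, 0] : M2).det = 1 := by simp [Matrix.det_fin_two]
    have p : 0 < (1 : M2).det := by simp
    have h1 := hact j hj _ _ p d1
    have h2 := heb _ h1 w (hw.act _ _)
    rw [ed_eq]
    refine ⟨hact _ h2 _ _ p d2, fun τ => ?_⟩
    rw [hA _ h2 _ _ p d2, CM.act_one, hE _ h1 w (hw.act _ _), hA _ hj _ _ p d1, CM.act_one]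
  have hn : ∀ (x : ℚ) j, PF S z0 j → ∀ τ, β j (act !![1, x; 0, 1] τ) = β j τ := by
    intro x j hj τ
    obtain ⟨w, hw, h0⟩ := exists_perp hm S j
    have hq : bf S w w ≠ 0 := ((hT m S z0 hc j hj).2.1 w hw h0).ne'
    obtain ⟨t, ht⟩ : ∃ t : ℚ, t * bf S w w = x := ⟨x / bf S w w, div_mul_cancel₀ _ hq⟩
    generalize q0 : bf S w w = q at ht
    have f1 := heb j hj _ (hw.smul 1)
    have p1 := perp_eb hS hj.ok hw 1 q0
    have q1 := (q_b hS hj.ok hw (1 * q)).trans q0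
    have e1 := hE j hj _ (hw.smul 1)
    obtain ⟨f2, e2⟩ := hed _ f1 _ (p1.smul t)
    have p2 := perp_ed hS f1.ok p1 t q1
    have q2 := (q_d hS f1.ok p1 (t * q)).trans q1
    have f3 := heb _ f2 _ (p2.smul (-1))
    have p3 := perp_eb hS f2.ok p2 (-1) q2
    have q3 := (q_b hS f2.ok p2 (-1 * q)).trans q2
    have e3 := hE _ f2 _ (p2.smul (-1))
    obtain ⟨-, e4⟩ := hed _ f3 _ (p3.smul (-t))
    have pd : 0 < (!![1, x; 0, 1] : M2).det := by simp [Matrix.det_fin_two]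
    have dd : (!![1, x; 0, 1] : M2).det * (1 : M2).det = 1 := by simp [Matrix.det_fin_two]
    rw [← hA j hj _ _ pd dd, ← e1, ← e2, ← e3, ← e4]
    congr 1
    rw [ed_smul _ q3, eb_smul _ q2, ed_smul _ q1, eb_smul _ q0, ← ht]
    ext1
    · simp [Fr.act, Fr.ap]
      module
    · simp [Fr.act, Fr.ap]
    · simp [Fr.act, Fr.ap]
      module
    · simp [Fr.act, Fr.ap]
  have hconj : ∀ γ g : SL, (∀ j, PF S z0 j → ∀ τ : ℍ, β j (γ • τ) = β j τ) →
      ∀ j, PF S z0 j → ∀ τ : ℍ, β j ((g * γ * g⁻¹) • τ) = β j τ := by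
    intro γ g h j hj τ
    have d0 : (castZ g.1).det = 1 := by rw [castZ_det, g.2]; simp
    have pd : 0 < (castZ g.1).det := by rw [d0]; exact one_pos
    have dd : (castZ g.1).det * (1 : M2).det = 1 := by rw [d0]; simp
    have e := hA j hj _ _ pd dd
    simp only [act_SL] at e
    rw [mul_smul, mul_smul, ← e, h _ (hact j hj _ _ pd dd), e, smul_inv_smul]
  have hmul : ∀ γ δ : SL, (∀ j, PF S z0 j → ∀ τ : ℍ, β j (γ • τ) = β j τ) →
      (∀ j, PF S z0 j → ∀ τ : ℍ, β j (δ • τ) = β j τ) →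
      ∀ j, PF S z0 j → ∀ τ : ℍ, β j ((γ * δ) • τ) = β j τ := by
    intro γ δ h1 h2 j hj τ
    rw [mul_smul, h1 j hj, h2 j hj]
  have h1 : ∀ j, PF S z0 j → ∀ τ : ℍ, β j (ModularGroup.T • τ) = β j τ := by
    intro j hj τ
    have e : castZ ModularGroup.T.1 = !![1, 1; 0, 1] := by
      ext i l
      fin_cases i <;> fin_cases l <;> simp [castZ_apply, ModularGroup.T]
    rw [← act_SL, e, hn 1 j hj]
  have h2 : ∀ j, PF S z0 j → ∀ τ : ℍ, β j (ModularGroup.T⁻¹ • τ) = β j τ := by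
    intro j hj τ
    rw [← h1 j hj (ModularGroup.T⁻¹ • τ), smul_inv_smul]
  have h3 : ∀ j, PF S z0 j → ∀ τ : ℍ, β j (ModularGroup.S • τ) = β j τ := by
    have e : ModularGroup.S = ModularGroup.T⁻¹ *
        (ModularGroup.S * ModularGroup.T⁻¹ * ModularGroup.S⁻¹) * ModularGroup.T⁻¹ := by decide
    have := hmul _ _ (hmul _ _ h2 (hconj _ ModularGroup.S h2)) h2
    rwa [← e] at this
  intro j hj γ _ τ
  exact SL_induction (P := fun γ => ∀ j, PF S z0 j → ∀ τ : ℍ, β j (γ • τ) = β j τ) h3 h1 h2 hmul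
    γ j hj τ

end Pool.Agent.P.MP_b8021b_nt.CM.O
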