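import Pool.Agent.P.MP_b8021b_nt.CM.OFr

/-! Elements of the congruence group attached to a frame. -/

namespace Pool.Agent.P.MP_b8021b_nt.CM.O

open Complex hiding Gamma
open UpperHalfPlane hiding I
open Matrix CongruenceSubgroup
open scoped MatrixGroups

noncomputable section

namespace OLevP

variable {m : ℕ} {S g : ZM m}

theorem exists_den {ι : Type} [Fintype ι] (a : ι → ℚ) :
    ∃ D : ℕ, 0 < D ∧ ∀ i, ∃ z : ℤ, (z : ℚ) = D * a i := by
  refine ⟨∏ i, (a i).den, Finset.prod_pos fun i _ => (a i).den_pos, fun i => ?_⟩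
  obtain ⟨k, hk⟩ := Finset.dvd_prod_of_mem (fun i => (a i).den) (Finset.mem_univ i)
  refine ⟨k * (a i).num, ?_⟩
  rw [hk]
  push_cast
  rw [mul_comm ((a i).den : ℚ), mul_assoc, Rat.den_mul_eq_num]

theorem exists_lev {ι : Type} [Fintype ι] (L : ι → QV m →ₗ[ℚ] QV m) {N : ℕ} (hN : 0 < N) :
    ∃ M : ℕ, 0 < M ∧ ∀ c : ι → ℤ, (∀ i, (M : ℤ) ∣ c i) → ∃ g : ZM m,
      g.map (Int.cast : ℤ → ZMod N) = 1 ∧ ∀ x : QV m, mv g x = x + ∑ i, (c i : ℚ) • L i x := by
  obtain ⟨D, hD, h⟩ := exists_den fun p : ι × Fin m × Fin m =>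
    LinearMap.toMatrix' (L p.1) p.2.1 p.2.2
  choose B hB using h
  refine ⟨D * N, Nat.mul_pos hD hN, fun c hc => ?_⟩
  choose c' hc' using hc
  refine ⟨1 + Matrix.of fun r l => N * ∑ i, c' i * B (i, r, l), ?_, fun x => ?_⟩
  · ext r l
    simp [Matrix.one_apply]
  · have e : (1 + Matrix.of fun r l => (N : ℤ) * ∑ i, c' i * B (i, r, l)).map (Int.cast : ℤ → ℚ) =
        1 + ∑ i, (c i : ℚ) • LinearMap.toMatrix' (L i) := by
      ext r l
      simp only [Matrix.map_apply, Matrix.add_apply, Matrix.of_apply, Matrix.sum_apply,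
        Matrix.smul_apply, smul_eq_mul, Matrix.one_apply]
      push_cast
      rw [Finset.mul_sum]
      congr 1
      refine Finset.sum_congr rfl fun i _ => ?_
      rw [hB, hc']
      push_cast
      ring
    rw [mv, e, add_mulVec, one_mulVec, sum_mulVec]
    congr 1
    refine Finset.sum_congr rfl fun i _ => ?_
    rw [smul_mulVec, LinearMap.toMatrix'_mulVec]

theorem iso_of_bf (h : ∀ x y : QV m, bf S (mv g x) (mv g y) = bf S x y) :
    g.transpose * S * g = S := by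
  ext i l
  have e : ∀ i, (fun r => ((g r i : ℤ) : ℚ)) = mv g (Pi.single i (1 : ℚ)) := fun i => by
    ext r
    simp [mv]
  have h1 := bf_map (S := S) (Int.castRingHom ℚ) (fun r => g r i) fun r => g r l
  simp only [eq_intCast] at h1
  rw [e, e, h] at h1
  rw [gram_apply]
  refine Int.cast_injective (α := ℚ) (h1.symm.trans ?_)
  simp [bf]

theorem inGam {z0 : CW m} {N : ℕ} (hD : S_Dom) (hc : Ctx S z0)
    (h : ∀ x y : QV m, bf S (mv g x) (mv g y) = bf S x y)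
    (h1 : g.map (Int.cast : ℤ → ZMod N) = 1) {z : CW m} (hz : z ∈ dom S z0)
    (hz' : mv g z ∈ dom S z0) : InGam S z0 N g :=
  ⟨iso_of_bf h, h1, (hD m S z0 hc).2.2.2.2.2 g (iso_of_bf h) z hz hz' z0
    (mem_connectedComponentIn hc.neg)⟩

/-- a map of rank at most one -/
def rk (S : ZM m) (u v : QV m) : QV m →ₗ[ℚ] QV m where
  toFun x := bf S u x • v
  map_add' x y := by rw [bf_add_right, add_smul]
  map_smul' c x := by rw [bf_smul_right, mul_smul]; rfl

theorem rk_apply (u v x : QV m) : rk S u v x = bf S u x • v := rfl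

theorem eich (hS : S.IsSymm) {N : ℕ} (hN : 0 < N) {e w : QV m} (he : bf S e e = 0)
    (hw : bf S e w = 0) : ∃ M : ℕ, 0 < M ∧ ∀ t : ℕ, M ∣ t → ∀ v, v = (t : ℚ) • w → ∃ g : ZM m,
      g.map (Int.cast : ℤ → ZMod N) = 1 ∧
      (∀ x y : QV m, bf S (mv g x) (mv g y) = bf S x y) ∧
      ∀ x : QV m, mv g x = x - bf S v x • e + bf S e x • v - (bf S v v / 2 * bf S e x) • e := by
  obtain ⟨M, hM, H⟩ := exists_lev ![rk S w e, rk S e w, rk S e ((bf S w w / 2) • e)] hN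
  refine ⟨M, hM, fun t ht v hv => ?_⟩
  have ht' : (M : ℤ) ∣ t := Int.natCast_dvd_natCast.2 ht
  obtain ⟨g, h1, h2⟩ := H ![-t, t, -(t * t)] fun i => by
    fin_cases i
    · exact ht'.neg_right
    · exact ht'
    · exact (ht'.mul_right _).neg_right
  have h3 : ∀ x : QV m,
      mv g x = x - bf S v x • e + bf S e x • v - (bf S v v / 2 * bf S e x) • e := fun x => by
    rw [h2, hv]
    simp only [Fin.sum_univ_three, Matrix.cons_val_zero, Matrix.cons_val_one, Matrix.cons_val_two,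
      Matrix.head_cons, Matrix.tail_cons, rk_apply, bf_smul_left, bf_smul_right]
    push_cast
    module
  refine ⟨g, h1, fun x y => ?_, h3⟩
  have hev : bf S e v = 0 := by rw [hv, bf_smul_right, hw, mul_zero]
  rw [h3, h3]
  simp only [bf_add_left, bf_add_right, bf_sub_left, bf_sub_right, bf_smul_left, bf_smul_right,
    he, hev, bf_comm hS v e, bf_comm hS x e, bf_comm hS x v]
  ring

theorem det_castZ (γ : SL) : (castZ γ.1).det = 1 := by
  rw [castZ_det, γ.2, Int.cast_one]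

end OLevP

open OLevP

theorem levS (hD : S_Dom) (hT : S_Tube) : S_Lev := by
  intro m S z0 N hc hN j hj
  have hS := hc.symm
  obtain ⟨M, hM, H⟩ := exists_lev (fun p : Fin 2 × Fin 2 × Fin 2 × Fin 2 =>
    rk S (![![j.d, -j.c], ![-j.b, j.a]] p.2.2.1 p.2.2.2) (![![j.a, j.b], ![j.c, j.d]] p.1 p.2.1)) hN
  refine ⟨M, hM, fun γ1 h1 γ2 h2 => ?_⟩
  obtain ⟨g, g1, g2⟩ := H (fun p => γ2.1 p.1 p.2.2.1 * γ1.1.adjugate p.2.2.2 p.2.1 -
      (1 : Z2) p.1 p.2.2.1 * (1 : Z2) p.2.2.2 p.2.1) fun p => by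
    rw [Gamma_mem] at h1 h2
    have e2 : ∀ r s, ((γ2.1 r s : ℤ) : ZMod M) = (((1 : Z2) r s : ℤ) : ZMod M) := fun r s => by
      fin_cases r <;> fin_cases s <;> simp [h2.1, h2.2.1, h2.2.2.1, h2.2.2.2]
    have e1 : ∀ r s, ((γ1.1.adjugate r s : ℤ) : ZMod M) = (((1 : Z2) r s : ℤ) : ZMod M) :=
      fun r s => by
      rw [Matrix.adjugate_fin_two]
      fin_cases r <;> fin_cases s <;> simp [h1.1, h1.2.1, h1.2.2.1, h1.2.2.2]
    rw [← ZMod.intCast_zmod_eq_zero_iff_dvd]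
    push_cast
    rw [e1, e2, sub_self]
  have g3 : ∀ x : QV m, mv g x =
      x + j.ap (castZ γ2.1 * j.co S x * (castZ γ1.1).adjugate - j.co S x) := fun x => by
    rw [g2]
    congr 1
    simp only [Fintype.sum_prod_type, Fin.sum_univ_two, rk_apply, Fr.ap, Fr.co, bf_neg_left,
      Matrix.adjugate_fin_two, Matrix.mul_apply, Matrix.sub_apply, Matrix.of_apply,
      Matrix.cons_val', Matrix.cons_val_zero, Matrix.cons_val_one, Matrix.cons_val_fin_one,
      castZ_apply, Matrix.one_apply_eq, Matrix.one_apply_ne (zero_ne_one' (Fin 2)),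
      Matrix.one_apply_ne (zero_ne_one' (Fin 2)).symm]
    push_cast
    module
  have g4 : ∀ Y, mv g (j.ap Y) = j.ap (castZ γ2.1 * Y * (castZ γ1.1).adjugate) := fun Y => by
    rw [g3, co_ap hS hj.ok, ap_sub, add_sub_cancel]
  have g5 : ∀ w, Perp S j w → mv g w = w := fun w hw => by
    rw [g3, hw.co, Matrix.mul_zero, Matrix.zero_mul, sub_zero, ap_zero, add_zero]
  refine ⟨g, inGam hD hc (fun x y => ?_) g1 (hj.pos UpperHalfPlane.I UpperHalfPlane.I) ?_, g4, g5⟩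
  · obtain ⟨Y, w, hw, rfl⟩ := exists_dec hS hj.ok x
    obtain ⟨Z, w', hw', rfl⟩ := exists_dec hS hj.ok y
    simp only [mv_add, g4, g5 w hw, g5 w' hw', bf_add_left, bf_add_right, bf_ap hS hj.ok, bil_mul,
      det_castZ, one_mul, hw'.ap, bf_comm hS w (j.ap _), hw.ap]
  · rw [mv_zp g4]
    exact ((hT m S z0 hc j hj).2.2.1 _ _ (by rw [det_castZ]; exact one_pos)
      (by rw [det_castZ, det_castZ, one_mul])).pos _ _

theorem eichS (hD : S_Dom) (hT : S_Tube) : S_Eich := by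
  intro m S z0 N hc hN j hj w hw
  have hS := hc.symm
  have ok := hj.ok
  obtain ⟨M, hM, H⟩ := eich hS hN ok.bb hw.2.1
  obtain ⟨M', hM', H'⟩ := eich hS hN ok.aa hw.1
  obtain ⟨v, hv⟩ : ∃ v, v = ((M * M' : ℕ) : ℚ) • w := ⟨_, rfl⟩
  have pv : Perp S j v := hv ▸ hw.smul _
  obtain ⟨g, g1, g2, g3⟩ := H (M * M') (Dvd.intro _ rfl) v hv
  obtain ⟨g', g1', g2', g3'⟩ := H' (M * M') (Dvd.intro_left _ rfl) v hv
  have va : bf S v j.a = 0 := (bf_comm hS _ _).trans pv.1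
  have vb : bf S v j.b = 0 := (bf_comm hS _ _).trans pv.2.1
  have vc : bf S v j.c = 0 := (bf_comm hS _ _).trans pv.2.2.1
  have vd : bf S v j.d = 0 := (bf_comm hS _ _).trans pv.2.2.2
  have e1 : ∀ τ σ u : ℂ, mv g (z3 S j v τ σ u) = z3 S j v τ σ (u + 1) := fun τ σ u => by
    simp only [z3, zp, mv_add, mv_sub, mv_smul, mv_cC, g3, va, vb, vc, vd, ok.ba hS, ok.bb, ok.bc,
      ok.bd, pv.2.1, cC_add, cC_sub, cC_smul]
    push_cast
    module
  have e2 : ∀ τ σ u : ℂ, mv g' (z3 S j v τ σ u) =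
      z3 S j v τ (σ + ((bf S v v / 2 : ℚ) : ℂ) * (2 * u + τ)) (u + τ) := fun τ σ u => by
    simp only [z3, zp, mv_add, mv_sub, mv_smul, mv_cC, g3', va, vb, vc, vd, ok.aa, ok.ab, ok.ac,
      ok.ad, pv.1, cC_add, cC_sub, cC_smul]
    push_cast
    module
  have tb := (hT m S z0 hc j hj).1 v pv
  have hz : z3 S j v I I 0 ∈ dom S z0 := tb I I 0 (by simp) (by simp)
  refine ⟨M * M', v, g, g', Nat.mul_pos hM hM', hv, inGam hD hc g2 g1 hz ?_,
    inGam hD hc g2' g1' hz ?_, fun τ σ u => ⟨e1 τ σ u, e2 τ σ u⟩⟩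
  · rw [e1]
    exact tb _ _ _ (by simp) (by simp)
  · rw [e2]
    refine tb _ _ _ (by simp) ?_
    rw [← ofReal_ratCast]
    generalize ((bf S v v / 2 : ℚ) : ℝ) = q
    simp

end

end Pool.Agent.P.MP_b8021b_nt.CM.O
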