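import Pool.Agent.P.MP_b8021b_nt.CM.OFr

/-! Any two positive frames are joined by moves. -/

namespace Pool.Agent.P.MP_b8021b_nt.CM.O

open Matrix

namespace OMoveP

variable {m : ℕ} {S : ZM m}

/-- a class of frames that is closed under the moves -/
structure Cl (S : ZM m) (P : Fr m → Prop) : Prop where
  symm : S.IsSymm
  ok : ∀ j, P j → Ok S j
  pos : ∀ j, P j → ∀ w, Perp S j w → w ≠ 0 → 0 < bf S w w
  act : ∀ j, P j → ∀ A B : M2, 0 < A.det → A.det * B.det = 1 → P (j.act A B)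
  eb : ∀ j, P j → ∀ w, Perp S j w → P (j.eb S w)
  sw : ∀ j, P j → P j.sw

variable {P : Fr m → Prop} (h : Cl S P) {j : Fr m} {x : QV m}
include h

theorem rot1 (hj : P j) : P ⟨j.c, j.d, -j.a, -j.b⟩ := by
  have := h.act j hj 1 !![0, -1; 1, 0] (by simp) (by simp [det_fin_two])
  convert this using 1
  ext1 <;> simp [Fr.act, Fr.ap]

theorem rot2 (hj : P j) : P ⟨-j.c, -j.d, j.a, j.b⟩ := by
  have := h.act j hj 1 !![0, 1; -1, 0] (by simp) (by simp [det_fin_two])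
  convert this using 1
  ext1 <;> simp [Fr.act, Fr.ap]

theorem repC (hj : P j) (hx : bf S x x = 0) (ha : bf S j.a x = 0) (hb : bf S j.b x = -1)
    (hd : bf S j.d x = 0) : P ⟨j.a, j.b, x, j.d⟩ := by
  have ok := h.ok j hj
  have hw := perp_sub_co h.symm ok x
  have e : j.ap (j.co S x) = j.c - bf S j.c x • j.b := by
    simp only [Fr.ap, Fr.co, ha, hb, hd, of_apply, cons_val', cons_val_zero, cons_val_one,
      cons_val_fin_one]
    module
  rw [e] at hw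
  have := h.eb j hj _ hw.neg
  convert this using 1
  have e2 : bf S (-(x - (j.c - bf S j.c x • j.b))) (-(x - (j.c - bf S j.c x • j.b))) / 2 =
      -bf S j.c x := by
    simp only [bf_neg_left, bf_neg_right, bf_sub_left, bf_sub_right, bf_smul_left, bf_smul_right,
      hx, hb, bf_comm h.symm x j.c, bf_comm h.symm x j.b, ok.bb, ok.cc, ok.bc, ok.cb h.symm]
    ring
  ext1
  · rfl
  · rfl
  · simp only [Fr.eb, e2]
    module
  · rfl

theorem repA (hj : P j) (hx : bf S x x = 0) (hb : bf S j.b x = 0) (hc : bf S j.c x = 0)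
    (hd : bf S j.d x = 1) : P ⟨x, j.b, j.c, j.d⟩ := by
  have h1 := rot1 h (repC h (rot2 h hj) hx (by simp [bf_neg_left, hc]) (by simp [bf_neg_left, hd])
    hb)
  simpa using h1

theorem repD (hj : P j) (hx : bf S x x = 0) (ha : bf S j.a x = 1) (hb : bf S j.b x = 0)
    (hc : bf S j.c x = 0) : P ⟨j.a, j.b, j.c, x⟩ := by
  have h1 := h.sw _ (repA h (x := -x) (h.sw j hj) (by simp [bf_neg_left, bf_neg_right, hx])
    (by simp [Fr.sw, bf_neg_right, hb]) (by simp [Fr.sw, bf_neg_right, hc])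
    (by simp [Fr.sw, bf_neg_left, bf_neg_right, ha]))
  simpa [Fr.sw] using h1

theorem moveC (hj : P j) (hx : bf S x x = 0) {t : ℚ} (ht : t ≠ 0) (hb : bf S j.b x = -t) :
    ∃ j1, P j1 ∧ j1.c = x ∧ j1.b = t⁻¹ • j.b := by
  obtain ⟨p, hp⟩ : ∃ p, p = bf S j.d x := ⟨_, rfl⟩
  obtain ⟨s, hs⟩ : ∃ s, s = bf S j.a x := ⟨_, rfl⟩
  have h1 := h.act j hj !![1, -(s / t); 0, 1] !![t⁻¹, p; 0, t] (by simp [det_fin_two])
    (by simp [det_fin_two, ht])
  obtain ⟨j2, hj2⟩ : ∃ j2, j2 = j.act !![1, -(s / t); 0, 1] !![t⁻¹, p; 0, t] := ⟨_, rfl⟩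
  rw [← hj2] at h1
  have ea : j2.a = t⁻¹ • j.a + (t⁻¹ * (s / t)) • j.b := by simp [hj2, Fr.act, Fr.ap]
  have eb : j2.b = t⁻¹ • j.b := by simp [hj2, Fr.act, Fr.ap]
  have ed : j2.d = p • j.b + t • j.d := by simp [hj2, Fr.act, Fr.ap]
  refine ⟨_, repC h h1 hx ?_ ?_ ?_, rfl, eb⟩
  · rw [ea, bf_add_left, bf_smul_left, bf_smul_left, ← hs, hb]
    field_simp
    ring
  · rw [eb, bf_smul_left, hb]
    field_simp
  · rw [ed, bf_add_left, bf_smul_left, bf_smul_left, ← hp, hb]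
    ring

theorem not_perp (hj : P j) (hx : bf S x x = 0) (h0 : x ≠ 0) : ¬ Perp S j x := fun hp =>
  (h.pos j hj x hp h0).ne' hx

theorem moveB (hj : P j) (hx : bf S x x = 0) (h0 : x ≠ 0) : ∃ j1, P j1 ∧ j1.b = x := by
  obtain ⟨j1, h1, hb⟩ : ∃ j1, P j1 ∧ bf S j1.b x ≠ 0 := by
    by_contra hn
    push Not at hn
    refine not_perp h hj hx h0 ⟨?_, hn j hj, ?_, hn _ (rot1 h hj)⟩
    · simpa [Fr.sw, bf_neg_left] using hn _ (rot1 h (h.sw j hj))
    · simpa [Fr.sw, bf_neg_left] using hn _ (rot1 h (h.sw _ (rot1 h hj)))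
  obtain ⟨j2, h2, hc, -⟩ := moveC h h1 hx (neg_ne_zero.2 hb) (neg_neg _).symm
  refine ⟨_, rot1 h (h.sw _ (rot2 h h2)), ?_⟩
  simp [Fr.sw, hc]

theorem fin {j' : Fr m} (hj : P j) (ok : Ok S j') (hb : j.b = j'.b) (hc : j.c = j'.c)
    (hd : bf S j.d j'.a ≠ 0) : P j' ∨ P j'.eps := by
  obtain ⟨t, ht⟩ : ∃ t, t = bf S j.d j'.a := ⟨_, rfl⟩
  rw [← ht] at hd
  have h1 := repA h (x := t⁻¹ • j'.a) hj (by simp [bf_smul_left, bf_smul_right, ok.aa])
    (by simp [bf_smul_right, hb, ok.ba h.symm]) (by simp [bf_smul_right, hc, ok.ca h.symm])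
    (by simp [bf_smul_right, ← ht, hd])
  have h2 := repD h (x := t • j'.d) h1 (by simp [bf_smul_left, bf_smul_right, ok.dd])
    (by simp [bf_smul_left, bf_smul_right, ok.ad, hd]) (by simp [bf_smul_right, hb, ok.bd])
    (by simp [bf_smul_right, hc, ok.cd])
  rcases lt_or_gt_of_ne hd with hn | hp
  · right
    have h3 := h.act _ h2 !![1, 0; 0, -t] !![-1, 0; 0, t⁻¹] (by simpa [det_fin_two] using hn)
      (by simp [det_fin_two, hd])
    convert h3 using 1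
    ext1 <;> simp [Fr.act, Fr.ap, Fr.eps, hb, hc, smul_smul, hd]
  · left
    have h3 := h.act _ h2 !![1, 0; 0, t] !![1, 0; 0, t⁻¹] (by simpa [det_fin_two] using hp)
      (by simp [det_fin_two, hd])
    convert h3 using 1
    ext1 <;> simp [Fr.act, Fr.ap, hb, hc, smul_smul, hd]

theorem all {j' : Fr m} (hj : P j) (ok : Ok S j') : P j' ∨ P j'.eps := by
  have hb0 : j'.b ≠ 0 := fun e => by simpa [e, bf_zero_left] using ok.bc
  have ha0 : j'.a ≠ 0 := fun e => by simpa [e, bf_zero_left] using ok.ad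
  obtain ⟨j1, h1, hb1⟩ := moveB h hj ok.bb hb0
  obtain ⟨j2, h2, hc, hb⟩ := moveC h h1 ok.cc one_ne_zero (by rw [hb1, ok.bc])
  rw [inv_one, one_smul, hb1] at hb
  by_cases hd : bf S j2.d j'.a = 0
  · refine fin h (h.sw _ h2) ok hb hc fun e => not_perp h h2 ok.aa ha0 ⟨?_, ?_, ?_, hd⟩
    · simpa [Fr.sw, bf_neg_left] using e
    · rw [hb, ok.ba h.symm]
    · rw [hc, ok.ca h.symm]
  · exact fin h h2 ok hb hc hd

end OMoveP

theorem moveS (hT : S_Tube) (hE : S_Eps) : S_Move := by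
  intro m S z0 hc κ k1 k2 k3 j j' hj hj'
  have h : OMoveP.Cl S fun i => PF S z0 i ∧ κ i = κ j :=
    { symm := hc.symm
      ok := fun i hi => hi.1.ok
      pos := fun i hi => (hT m S z0 hc i hi.1).2.1
      act := fun i hi A B h1 h2 =>
        ⟨(hT m S z0 hc i hi.1).2.2.1 A B h1 h2, (k1 i hi.1 A B h1 h2).trans hi.2⟩
      eb := fun i hi w hw => ⟨(hT m S z0 hc i hi.1).2.2.2.1 w hw, (k2 i hi.1 w hw).trans hi.2⟩
      sw := fun i hi => ⟨(hT m S z0 hc i hi.1).2.2.2.2, (k3 i hi.1).trans hi.2⟩ }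
  rcases OMoveP.all h ⟨hj, rfl⟩ hj'.ok with h1 | h1
  · exact h1.2.symm
  · exact absurd ⟨hj', h1.1⟩ (hE m S z0 hc j' hj'.ok).2

end Pool.Agent.P.MP_b8021b_nt.CM.O
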