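import Pool.Agent.P.MP_b8021b_nt.CM.OBas

/-! Limits of two-variable expansions: the class of the limit does not depend on the order. -/

namespace Pool.Agent.P.MP_b8021b_nt.CM.O

open Complex hiding Gamma
open UpperHalfPlane hiding I
open CongruenceSubgroup Filter Pool.Agent.P.MP_7ebcb6_ag
open scoped Real MatrixGroups Topology LinearAlgebra.Projectivization

noncomputable section

namespace ONP

variable {ι α β : Type} {n : ℕ} {C : Set (Vec n)} {lam : Vec n → ℂ} {c d : ι → Vec n}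
  {a b w : ι → ℕ} {A B : ι}

/-- the leading term of a power series -/
theorem lead {ρ : ℂ} (hρ : ρ ≠ 0) (hs : Summable fun i => ρ ^ w i • d i) {k : ℕ}
    (hk : ∀ i, d i ≠ 0 → k ≤ w i) :
    Tendsto (fun u : ℂ => (u ^ k)⁻¹ • ∑' i, u ^ w i • d i) (𝓝[≠] 0)
      (𝓝 (∑' i, if w i = k then d i else 0)) := by
  have h1 : Summable fun i => ‖(ρ ^ k)⁻¹ • ρ ^ w i • d i‖ :=
    summable_norm_iff.2 (hs.const_smul _)
  have key : ∀ u : ℂ, u ≠ 0 → ∀ i, (u ^ k)⁻¹ • u ^ w i • d i = u ^ (w i - k) • d i := by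
    intro u hu i
    by_cases h0 : d i = 0
    · simp [h0]
    rw [smul_smul, pow_sub₀ u hu (hk i h0), mul_comm]
  simp_rw [← tsum_const_smul'']
  refine tendsto_tsum_of_dominated_convergence h1 (fun i => ?_) ?_
  · have h2 : Tendsto (fun u : ℂ => u ^ (w i - k) • d i) (𝓝 0)
        (𝓝 ((0 : ℂ) ^ (w i - k) • d i)) := Continuous.tendsto (by fun_prop) 0
    have h3 : (0 : ℂ) ^ (w i - k) • d i = if w i = k then d i else 0 := by
      by_cases h0 : d i = 0
      · simp [h0]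
      have := hk i h0
      split_ifs with h
      · simp [h]
      · rw [zero_pow (by omega), zero_smul]
    rw [h3] at h2
    refine (h2.mono_left nhdsWithin_le_nhds).congr' ?_
    filter_upwards [self_mem_nhdsWithin] with u hu
    exact (key u hu i).symm
  · filter_upwards [self_mem_nhdsWithin,
      nhdsWithin_le_nhds (Metric.ball_mem_nhds (0 : ℂ) (norm_pos_iff.2 hρ))] with u hu h i
    rw [key u hu, key ρ hρ, norm_smul, norm_smul, norm_pow, norm_pow]
    have := (mem_ball_zero_iff.1 h).le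
    gcongr

/-- the punctured unit disc -/
def D (s : ℂ) : Prop := s ≠ 0 ∧ ‖s‖ < 1

theorem D.mul {s t : ℂ} (h : D s) (h' : D t) : D (s * t) :=
  ⟨mul_ne_zero h.1 h'.1, by
    rw [norm_mul]
    exact mul_lt_one_of_nonneg_of_lt_one_left (norm_nonneg _) h.2 h'.2.le⟩

theorem ev_D : ∀ᶠ u in 𝓝[≠] (0 : ℂ), D u := by
  filter_upwards [self_mem_nhdsWithin,
    nhdsWithin_le_nhds (Metric.ball_mem_nhds (0 : ℂ) one_pos)] with u hu h
  exact ⟨hu, mem_ball_zero_iff.1 h⟩

theorem ev_D2 {t : ℂ} (ht : t ≠ 0) : ∀ᶠ u in 𝓝[≠] (0 : ℂ), D u ∧ D (u * t) := by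
  have h1 : Tendsto (fun u : ℂ => ‖u * t‖) (𝓝 0) (𝓝 ‖(0 : ℂ) * t‖) :=
    Continuous.tendsto (by fun_prop) 0
  rw [zero_mul, norm_zero] at h1
  filter_upwards [ev_D, nhdsWithin_le_nhds (h1.eventually (gt_mem_nhds one_pos))] with u hu h
  exact ⟨hu, mul_ne_zero hu.1 ht, h⟩

theorem D_half : D 2⁻¹ := ⟨by norm_num, by norm_num⟩

theorem D_e (x : ℍ) : D (e x) := ⟨e_ne_zero _, by
  rw [norm_e, Real.exp_lt_one_iff]
  have := x.im_pos
  have := Real.pi_pos
  rw [UpperHalfPlane.coe_im]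
  nlinarith⟩

theorem D.ex {s : ℂ} (h : D s) : ∃ x : ℍ, e x = s := by
  have h1 : e (log s / (2 * π * I)) = s := by
    rw [e, mul_div_cancel₀ _ two_pi_I_ne_zero, exp_log h.1]
  refine ⟨⟨log s / (2 * π * I), ?_⟩, h1⟩
  have h2 := h.2
  rw [← h1, norm_e, Real.exp_lt_one_iff] at h2
  have := Real.pi_pos
  nlinarith

theorem tendsto_e : Tendsto (fun x : ℍ => e x) atImInfty (𝓝[≠] 0) := by
  refine tendsto_nhdsWithin_iff.2 ⟨?_, .of_forall fun x => e_ne_zero _⟩
  rw [tendsto_zero_iff_norm_tendsto_zero]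
  simp only [norm_e]
  refine Real.tendsto_exp_atBot.comp (Tendsto.const_mul_atTop_of_neg ?_ tendsto_comap)
  have := Real.pi_pos
  linarith

def Fs (c : ι → Vec n) (a b : ι → ℕ) (s t : ℂ) : Vec n := ∑' i, (s ^ a i * t ^ b i) • c i

structure Good (C : Set (Vec n)) (c : ι → Vec n) (a b : ι → ℕ) : Prop where
  inj : ∀ i j, a i = a j → b i = b j → i = j
  sum : ∀ s t, D s → D t → Summable fun i => (s ^ a i * t ^ b i) • c i
  mem : ∀ s t, D s → D t → Fs c a b s t ∈ C

theorem Fs_swap (s t : ℂ) : Fs c b a t s = Fs c a b s t := by simp only [Fs, mul_comm]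

theorem Good.swap (h : Good C c a b) : Good C c b a :=
  ⟨fun i j h1 h2 => h.inj i j h2 h1, fun s t hs ht => by
    simpa only [mul_comm] using h.sum t s ht hs, fun s t hs ht => Fs_swap (c := c) t s ▸
      h.mem t s ht hs⟩

theorem pw (s t : ℂ) (p r : ℕ) : s ^ (p + r) * t ^ r = s ^ p * (s * t) ^ r := by ring

theorem Good.blow (h : Good C c a b) : Good C c (fun i => a i + b i) b :=
  ⟨fun i j h1 h2 => h.inj i j (by omega) h2, fun s t hs ht => by
    simpa only [pw] using h.sum s _ hs (hs.mul ht), fun s t hs ht => by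
    simpa only [Fs, pw] using h.mem s _ hs (hs.mul ht)⟩

/-- `A` is the point of the support with least `b`, and among these with least `a` -/
def V (c : ι → Vec n) (a b : ι → ℕ) (A : ι) : Prop :=
  c A ≠ 0 ∧ ∀ i, c i ≠ 0 → b A < b i ∨ (b A = b i ∧ a A ≤ a i)

theorem ex_V (a b : ι → ℕ) (h : ∃ i, c i ≠ 0) : ∃ A, V c a b A := by
  obtain ⟨A, hA, hm⟩ :=
    (InvImage.wf (fun i => toLex (b i, a i)) wellFounded_lt).has_min {i | c i ≠ 0} h
  refine ⟨A, hA, fun i hi => ?_⟩
  have := hm i hi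
  simp only [InvImage, Prod.Lex.toLex_lt_toLex] at this
  omega

/-- the terms with `b = k` -/
def Ed (c : ι → Vec n) (a b : ι → ℕ) (k : ℕ) (s : ℂ) : Vec n :=
  ∑' i, s ^ a i • if b i = k then c i else 0

theorem lim_Ed {ρ σ : ℂ} (hρ : ρ ≠ 0) (hσ : σ ≠ 0)
    (hs : Summable fun i => (ρ ^ a i * σ ^ b i) • c i)
    (inj : ∀ i j, a i = a j → b i = b j → i = j) (hA : V c a b A) :
    Lim (Ed c a b (b A)) (𝓝[≠] 0) (c A) := by
  refine ⟨hA.1, fun u => (u ^ a A)⁻¹, ?_⟩
  have h1 : Summable fun i => ρ ^ a i • if b i = b A then c i else 0 := by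
    refine ((hs.const_smul (σ ^ b A)⁻¹).indicator {i | b i = b A}).congr fun i => ?_
    by_cases h : b i = b A
    · rw [Set.indicator_of_mem (by exact h), if_pos h, smul_smul, h, mul_comm,
        mul_inv_cancel_right₀ (pow_ne_zero _ hσ)]
    · rw [Set.indicator_of_notMem (by exact h), if_neg h, smul_zero]
  have h2 := lead hρ h1 (k := a A) fun i hi => by
    have h3 : b i = b A := by_contra fun h => hi (if_neg h)
    have := hA.2 i (by rwa [if_pos h3] at hi)
    omega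
  rwa [tsum_eq_single A (fun i hi => by
    split_ifs with h3 h4
    exacts [absurd (inj _ _ h3 h4) hi, rfl, rfl]), if_pos rfl, if_pos rfl] at h2

theorem lead_Fs {s ρ : ℂ} (hρ : ρ ≠ 0) (hs : Summable fun i => (s ^ a i * ρ ^ b i) • c i) {k : ℕ}
    (hk : ∀ i, c i ≠ 0 → k ≤ b i) :
    Tendsto (fun t : ℂ => (t ^ k)⁻¹ • Fs c a b s t) (𝓝[≠] 0) (𝓝 (Ed c a b k s)) := by
  have h1 := lead (d := fun i => s ^ a i • c i) (w := b) hρ
    (by simpa only [smul_smul, mul_comm] using hs) (k := k) fun i hi =>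
      hk i (smul_ne_zero_iff.1 hi).2
  simpa only [Fs, Ed, smul_smul, mul_comm, smul_ite, smul_zero] using h1

theorem not_zero {Φ : α → Vec n} {l : Filter α} [l.NeBot] {v : Vec n} (h : Lim Φ l v) :
    ¬ ∀ᶠ x in l, Φ x = 0 := fun h0 => by
  obtain ⟨hv, c, hc⟩ := h
  refine hv (tendsto_nhds_unique hc (tendsto_const_nhds.congr' (h0.mono fun x hx => ?_)))
  simp only [hx, smul_zero]

theorem lower {l : Filter β} [l.NeBot] {q : β → ℂ} (hq : Tendsto q l (𝓝[≠] 0)) {f : β → Vec n}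
    {k k' : ℕ} (hk : k < k') {v v' : Vec n} (h : Tendsto (fun y => (q y ^ k)⁻¹ • f y) l (𝓝 v))
    (h' : Tendsto (fun y => (q y ^ k')⁻¹ • f y) l (𝓝 v')) : v = 0 := by
  have h1 := ((hq.mono_right nhdsWithin_le_nhds).pow (k' - k)).smul h'
  rw [zero_pow (by omega), zero_smul] at h1
  refine tendsto_nhds_unique h (h1.congr' ?_)
  filter_upwards [hq.eventually self_mem_nhdsWithin] with y hy
  rw [smul_smul, pow_sub₀ _ hy hk.le, mul_assoc, mul_comm _ (q y ^ k')⁻¹,
    mul_inv_cancel_left₀ (pow_ne_zero _ hy)]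

/-- an iterated limit is the coefficient at a vertex -/
theorem lead_vertex {l : Filter α} {l' : Filter β} [l.NeBot] [l'.NeBot] {q : α → ℂ} {q' : β → ℂ}
    (hq : Tendsto q l (𝓝[≠] 0)) (hq' : Tendsto q' l' (𝓝[≠] 0)) (hC : Cone C lam)
    (hG : Good C c a b) {φ : α → Vec n} {k : ℕ} {v : Vec n}
    (hφ : ∀ᶠ x in l, Tendsto (fun y => (q' y ^ k)⁻¹ • Fs c a b (q x) (q' y)) l' (𝓝 (φ x)))
    (hv : Lim φ l v) : ∃ A, V c a b A ∧ lam v = lam (c A) := by
  have h0 : ∃ i, c i ≠ 0 := by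
    by_contra! h
    refine not_zero hv (hφ.mono fun x hx => tendsto_nhds_unique hx ?_)
    simp [Fs, h]
  obtain ⟨A, hA⟩ := ex_V a b h0
  refine ⟨A, hA, ?_⟩
  have h1 := (lim_Ed D_half.1 D_half.1 (hG.sum _ _ D_half D_half) hG.inj hA).comp hq
  have h2 : ∀ᶠ x in l, Tendsto (fun y => (q' y ^ b A)⁻¹ • Fs c a b (q x) (q' y)) l'
      (𝓝 (Ed c a b (b A) (q x))) := (hq.eventually ev_D).mono fun x hx =>
    (lead_Fs D_half.1 (hG.sum _ _ hx D_half) fun i hi => by have := hA.2 i hi; omega).comp hq'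
  rcases lt_trichotomy k (b A) with h | h | h
  · exact absurd ((hφ.and h2).mono fun x hx => lower hq' h hx.1 hx.2) (not_zero hv)
  · refine hv.lam_eq hC (h1.of_smul ((hφ.and h2).mono fun x hx => ⟨1, one_ne_zero, ?_⟩))
    rw [one_smul]
    exact tendsto_nhds_unique (h ▸ hx.1) hx.2
  · exact absurd ((hφ.and h2).mono fun x hx => lower hq' h hx.2 hx.1) (not_zero h1)

theorem Good.fin (h : Good C c a b) (s : ℕ) : {i | a i + b i = s}.Finite := by
  refine Set.Finite.of_finite_image (f := fun i => (a i, b i))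
    (((Set.finite_le_nat s).prod (Set.finite_le_nat s)).subset ?_) fun i _ j _ e =>
      h.inj i j (congrArg Prod.fst e) (congrArg Prod.snd e)
  rintro _ ⟨i, hi, rfl⟩
  have : a i + b i = s := hi
  constructor <;> simp only [Set.mem_ofPred_eq] <;> omega

theorem Good.poly (h : Good C c a b) (s : ℕ) : ∃ P : Fin (n + 1) → Polynomial ℂ,
    (fun u j => (P j).eval u) = Ed c b (fun i => a i + b i) s := by
  refine ⟨fun j => ∑ i ∈ (h.fin s).toFinset, Polynomial.monomial (b i) (c i j),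
    funext fun u => ?_⟩
  rw [Ed, tsum_eq_sum (s := (h.fin s).toFinset) fun i hi => by
    rw [if_neg (by simpa using hi), smul_zero]]
  funext j
  rw [Finset.sum_apply, Polynomial.eval_finsetSum]
  refine Finset.sum_congr rfl fun i hi => ?_
  rw [if_pos (by simpa using hi), Polynomial.eval_monomial, Pi.smul_apply, smul_eq_mul, mul_comm]

theorem Good.lead_diag (h : Good C c a b) {s : ℕ} (hs : ∀ i, c i ≠ 0 → s ≤ a i + b i) {t : ℂ}
    (ht : t ≠ 0) : Tendsto (fun u : ℂ => (u ^ s)⁻¹ • Fs c a b u (u * t)) (𝓝[≠] 0)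
      (𝓝 (Ed c b (fun i => a i + b i) s t)) := by
  obtain ⟨ρ, h1, h2⟩ := (ev_D2 ht).exists
  have h3 := lead_Fs (c := c) (a := b) (b := fun i => a i + b i) (s := t) h1.1
    (by simpa only [mul_comm (t ^ _), pw] using h.sum _ _ h1 h2) hs
  simpa only [Fs, mul_comm (t ^ _), pw] using h3

/-- the edge polynomial -/
theorem Good.edge (hC : Cyc C lam) (h : Good C c a b) (hA : V c b (fun i => a i + b i) A) :
    (∀ B, V c a (fun i => a i + b i) B → lam (c A) = lam (c B)) ∧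
    ∃ v, Lim (Ed c b (fun i => a i + b i) (a A + b A)) (𝓝[≠] 1) v ∧ lam (c A) = lam v := by
  have hs : ∀ i, c i ≠ 0 → a A + b A ≤ a i + b i := fun i hi => by
    have := hA.2 i hi
    beta_reduce at this
    omega
  obtain ⟨P, hP⟩ := h.poly (a A + b A)
  have h1 := lim_Ed D_half.1 D_half.1 (h.blow.swap.sum _ _ D_half D_half) h.blow.swap.inj hA
  have hc : Differentiable ℂ fun u j => (P j).eval u :=
    differentiable_pi.2 fun j => (P j).differentiable
  have hm : ∀ t, t ≠ 0 → (fun j => (P j).eval t) ∈ C := fun t ht => by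
    rw [congrFun hP t]
    exact hC.cone.closed.mem_of_tendsto (h.lead_diag hs ht)
      ((ev_D2 ht).mono fun u hu => hC.cone.smul _ _ (h.mem _ _ hu.1 hu.2))
  have hm' : ∀ t, (fun j => (P j).eval t) ∈ C := fun t => by
    by_cases ht : t = 0
    · subst ht
      exact hC.cone.closed.mem_of_tendsto
        ((hc.continuous.tendsto 0).mono_left (nhdsWithin_le_nhds (s := {0}ᶜ)))
        (eventually_mem_nhdsWithin.mono fun u hu => hm u hu)
    · exact hm t ht
  simp only [← hP] at h1 ⊢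
  obtain ⟨p1, p2⟩ := hC.p1 P hm' 0 _ h1
  refine ⟨fun B hB => p2 _ ?_, ?_⟩
  · have e : a B + b B = a A + b A := by
      have h2 := hA.2 B hB.1
      have h3 := hB.2 A hA.1
      beta_reduce at h2 h3
      omega
    have h' : Good C c a fun i => a i + b i := by
      simpa only [add_comm] using h.swap.blow.swap
    have h2 := (lim_Ed D_half.1 D_half.1 (h'.sum _ _ D_half D_half) h'.inj hB).comp
      (tendsto_inv₀_cobounded' (α := ℂ))
    refine h2.of_smul ?_
    filter_upwards [Bornology.eventually_ne_cobounded 0] with t ht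
    refine ⟨t ^ (a A + b A), pow_ne_zero _ ht, ?_⟩
    rw [congrFun hP t, Ed, Ed, ← tsum_const_smul'', e]
    refine tsum_congr fun i => ?_
    split_ifs with h3
    · rw [smul_smul, ← h3, pow_add, inv_pow, mul_comm (t ^ a i),
        mul_inv_cancel_right₀ (pow_ne_zero _ ht)]
    · simp
  · obtain ⟨v, hv⟩ := lim_analytic (hc.analyticAt 1) fun h0 => h1.ne
      ((hc.differentiableOn.analyticOnNhd isOpen_univ).eq_of_eventuallyEq
        analyticOnNhd_const h0)
    exact ⟨v, hv, p1 1 v hv⟩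

/-- the two vertices have the same class -/
theorem vertices (hC : Cyc C lam) (N : ℕ) : ∀ (a b : ι → ℕ) (A B : ι), Good C c a b →
    V c a b A → V c b a B → a A - a B + (b B - b A) = N → lam (c A) = lam (c B) := by
  induction N using Nat.strong_induction_on with
  | _ N ih =>
  intro a b A B h hA hB hN
  have h1 := hA.2 B hB.1
  have h2 := hB.2 A hA.1
  by_cases h3 : a A = a B ∨ b A = b B
  · rw [h.inj A B (by omega) (by omega)]
  obtain ⟨E, hE⟩ := ex_V b (fun i => a i + b i) ⟨A, hA.1⟩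
  obtain ⟨E', hE'⟩ := ex_V a (fun i => a i + b i) ⟨A, hA.1⟩
  have h' : Good C c a fun i => a i + b i := by
    simpa only [add_comm] using h.swap.blow.swap
  have e1 : lam (c A) = lam (c E) := by
    refine ih _ ?_ _ _ A E h.blow ⟨hA.1, fun i hi => ?_⟩ hE rfl
    · have h4 := hE.2 A hA.1
      have h5 := hA.2 E hE.1
      have h6 := hB.2 E hE.1
      beta_reduce at h4 ⊢
      omega
    · have := hA.2 i hi
      beta_reduce
      omega
  have e2 : lam (c E') = lam (c B) := by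
    refine ih _ ?_ _ _ E' B h' hE' ⟨hB.1, fun i hi => ?_⟩ rfl
    · have h4 := hE'.2 B hB.1
      have h5 := hA.2 E' hE'.1
      have h6 := hB.2 E' hE'.1
      beta_reduce at h4 ⊢
      omega
    · have := hB.2 i hi
      beta_reduce
      omega
  rw [e1, (h.edge hC hE).1 E' hE', e2]

theorem bin {R : Type} [CommSemiring R] [TopologicalSpace R] (t : R) (m : ℕ) :
    HasSum (fun k => t ^ k * (m.choose k : R)) ((t + 1) ^ m) := by
  rw [add_pow]
  simp only [one_pow, mul_one]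
  refine hasSum_sum_of_ne_finset_zero fun k hk => ?_
  rw [Nat.choose_eq_zero_of_lt (by simpa using hk), Nat.cast_zero, mul_zero]

/-- coefficients of the expansion along the diagonal -/
def cc (c : ι → Vec n) (a b : ι → ℕ) (p : ℕ × ℕ) : Vec n :=
  ∑' j : (fun j : ι × ℕ => (a j.1 + b j.1, j.2)) ⁻¹' {p},
    ((2⁻¹ : ℂ) ^ (a j.1.1 + b j.1.1) * (b j.1.1).choose j.1.2) • c j.1.1

theorem D.aux {s t : ℂ} (hs : D s) (ht : ‖t‖ < 1) : D (s * 2⁻¹ * (t + 1)) := by
  rw [mul_assoc]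
  refine hs.mul ⟨mul_ne_zero D_half.1 fun h => ?_, ?_⟩
  · rw [eq_neg_of_add_eq_zero_left h] at ht
    simp at ht
  · have := norm_add_le t 1
    rw [norm_mul, norm_inv, Complex.norm_two]
    rw [norm_one] at this
    linarith

theorem Good.hasSum_cc (h : Good C c a b) {s t : ℂ} (hs : D s) (ht : ‖t‖ < 1) :
    HasSum (fun p : ℕ × ℕ => (s ^ p.1 * t ^ p.2) • cc c a b p)
      (Fs c a b (s * 2⁻¹) (s * 2⁻¹ * (t + 1))) := by
  set f : ι × ℕ → Vec n := fun j => (s ^ (a j.1 + b j.1) * t ^ j.2) •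
    ((2⁻¹ : ℂ) ^ (a j.1 + b j.1) * (b j.1).choose j.2) • c j.1 with hf
  have h1 : ∀ i, HasSum (fun k => f (i, k))
      (((s * 2⁻¹) ^ a i * (s * 2⁻¹ * (t + 1)) ^ b i) • c i) := fun i => by
    have e1 : ∀ k, f (i, k) =
        ((s * 2⁻¹) ^ (a i + b i) * (t ^ k * ((b i).choose k : ℂ))) • c i := fun k => by
      simp only [hf, smul_smul, mul_pow]
      congr 1
      ring
    simp only [e1, mul_pow (s * 2⁻¹), ← mul_assoc _ _ (_ ^ b i), ← pow_add]
    exact ((bin t (b i)).mul_left _).smul_const (c i)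
  have h2 : ∀ i, HasSum (fun k => ‖f (i, k)‖)
      ‖((s * 2⁻¹) ^ a i * (s * 2⁻¹ * ((‖t‖ : ℂ) + 1)) ^ b i) • c i‖ := fun i => by
    have e : ‖(‖t‖ : ℂ) + 1‖ = ‖t‖ + 1 := by
      rw [← ofReal_one, ← ofReal_add, Complex.norm_of_nonneg (by positivity)]
    have e1 : ∀ k, ‖f (i, k)‖ =
        ‖s * 2⁻¹‖ ^ (a i + b i) * (‖t‖ ^ k * ((b i).choose k : ℝ)) * ‖c i‖ := fun k => by
      simp only [hf, norm_smul, norm_mul, norm_pow, Complex.norm_natCast, mul_pow]
      ring
    rw [mul_pow (s * 2⁻¹), ← mul_assoc, ← pow_add, norm_smul, norm_mul, norm_pow, norm_pow, e]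
    simp only [e1]
    exact ((bin ‖t‖ (b i)).mul_left _).mul_right ‖c i‖
  have h3 : Summable f := by
    refine .of_norm ((summable_prod_of_nonneg fun _ => norm_nonneg _).2
      ⟨fun i => (h2 i).summable, ?_⟩)
    simp only [fun i => (h2 i).tsum_eq]
    exact summable_norm_iff.2 (h.sum _ _ (hs.mul D_half) (hs.aux (by simpa using ht)))
  rw [Fs, (h3.hasSum.prod_fiberwise h1).tsum_eq]
  refine (congrArg (fun F => HasSum F _) (funext fun p => ?_)).mpr
    (h3.hasSum.tsum_fiberwise fun j : ι × ℕ => (a j.1 + b j.1, j.2))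
  rw [cc, ← tsum_const_smul'']
  refine tsum_congr fun ⟨j, hj⟩ => ?_
  obtain rfl : (a j.1 + b j.1, j.2) = p := hj
  rfl

theorem Good.diag (h : Good C c a b) : Good C (cc c a b) Prod.fst Prod.snd :=
  ⟨fun _ _ => Prod.ext, fun _ _ hs ht => (h.hasSum_cc hs ht.2).summable, fun _ _ hs ht => by
    rw [Fs, (h.hasSum_cc hs ht.2).tsum_eq]
    exact h.mem _ _ (hs.mul D_half) (hs.aux ht.2)⟩

theorem tendsto_mul {u : ℂ} (hu : u ≠ 0) :
    Tendsto (fun s : ℂ => s * u) (𝓝[≠] 0) (𝓝[≠] 0) := by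
  refine tendsto_nhdsWithin_iff.2 ⟨?_,
    eventually_mem_nhdsWithin.mono fun s hs => mul_ne_zero hs hu⟩
  have : Tendsto (fun s : ℂ => s * u) (𝓝 0) (𝓝 (0 * u)) := Continuous.tendsto (by fun_prop) 0
  rw [zero_mul] at this
  exact this.mono_left nhdsWithin_le_nhds

/-- the limit along the diagonal -/
theorem diagonal (hC : Cyc C lam) (h : Good C c a b) (hA : V c a b A) {l : Filter α} [l.NeBot]
    {q : α → ℂ} (hq : Tendsto q l (𝓝[≠] 0)) {v : Vec n}
    (hv : Lim (fun x => Fs c a b (q x) (q x)) l v) : lam (c A) = lam v := by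
  obtain ⟨E, hE⟩ := ex_V b (fun i => a i + b i) ⟨A, hA.1⟩
  have e1 : lam (c A) = lam (c E) := vertices hC _ _ _ A E h.blow ⟨hA.1, fun i hi => by
    have := hA.2 i hi
    beta_reduce
    omega⟩ hE rfl
  obtain ⟨v', hv', e2⟩ := (h.edge hC hE).2
  have hq2 := (tendsto_mul (two_ne_zero (α := ℂ))).comp hq
  obtain ⟨A', hA', e3⟩ := lead_vertex (k := 0) hq2 (tendsto_id (x := 𝓝[≠] 0)) hC.cone h.diag
    ((hq2.eventually ev_D).mono fun x hx => by
      have h1 := lead_Fs D_half.1 (h.diag.sum _ _ hx D_half) (k := 0) fun _ _ => Nat.zero_le _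
      have h2 := (h.hasSum_cc hx (t := 0) (by simp)).tsum_eq
      have h3 : q x * 2 * 2⁻¹ = q x := mul_inv_cancel_right₀ two_ne_zero _
      simp only [Function.comp_apply, zero_add, mul_one, h3] at h2
      have h4 : Ed (cc c a b) Prod.fst Prod.snd 0 (q x * 2) = Fs c a b (q x) (q x) := by
        rw [← h2]
        refine tsum_congr fun p => ?_
        split_ifs with h4 <;> simp [h4]
      exact h4 ▸ h1) hv
  have h5 : Tendsto (fun t : ℂ => t + 1) (𝓝[≠] 0) (𝓝[≠] 1) := by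
    refine tendsto_nhdsWithin_iff.2 ⟨?_,
      eventually_mem_nhdsWithin.mono fun s hs e => hs (by simpa using e)⟩
    have : Tendsto (fun s : ℂ => s + 1) (𝓝 0) (𝓝 (0 + 1)) := Continuous.tendsto (by fun_prop) 0
    rw [zero_add] at this
    exact this.mono_left nhdsWithin_le_nhds
  obtain ⟨B', hB', e4⟩ := lead_vertex (k := a E + b E) (tendsto_id (x := 𝓝[≠] 0))
    (tendsto_id (x := 𝓝[≠] 0)) hC.cone h.diag.swap
    (φ := fun t => (2⁻¹ : ℂ) ^ (a E + b E) • Ed c b (fun i => a i + b i) (a E + b E) (t + 1))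
    (ev_D.mono fun t ht => by
      have h0 : t + 1 ≠ 0 := (mul_ne_zero_iff.1 (D_half.aux ht.2).1).2
      have h1 := ((h.lead_diag (s := a E + b E) (fun i hi => by
        have := hE.2 i hi
        beta_reduce at this
        omega) h0).comp (tendsto_mul D_half.1)).const_smul ((2⁻¹ : ℂ) ^ (a E + b E))
      refine h1.congr' (ev_D.mono fun s hs => ?_)
      simp only [Function.comp_apply, id]
      rw [Fs_swap (c := cc c a b), Fs.eq_1 (cc c a b), (h.hasSum_cc hs ht.2).tsum_eq, smul_smul,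
        mul_pow, mul_inv_rev,
        mul_inv_cancel_left₀ (pow_ne_zero _ D_half.1)])
    ((hv'.comp h5).of_smul (.of_forall fun t => ⟨_, pow_ne_zero _ D_half.1, rfl⟩))
  rw [e1, e2, e4, e3, vertices hC _ _ _ A' B' h.diag hA' hB' rfl]

theorem ex_iff {c : ℕ × ℕ → Vec n} {H : ℍ → ℍ → Vec n} (h : Ex c H) (x y : ℍ) :
    HasSum (fun p : ℕ × ℕ => (e x ^ p.1 * e y ^ p.2) • c p) (H x y) := by
  simpa only [e_add, e_nat_mul] using h x y

theorem e_neg (k : ℕ) (y : ℂ) : e (-(k * y)) = (e y ^ k)⁻¹ := by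
  refine eq_inv_of_mul_eq_one_left ?_
  rw [← e_nat_mul, ← e_add, neg_add_cancel, e_zero]

end ONP

open ONP in
theorem nS : S_Exp → S_N := by
  intro hE n C lam hC H hP hm k φ v hφ hv
  obtain ⟨c, hc⟩ := hE n H hP
  have hF : ∀ x y : ℍ, Fs c Prod.fst Prod.snd (e x) (e y) = H x y := fun x y =>
    (ex_iff hc x y).tsum_eq
  have hG : Good C c Prod.fst Prod.snd := by
    refine ⟨fun _ _ => Prod.ext, fun s t hs ht => ?_, fun s t hs ht => ?_⟩ <;>
      obtain ⟨x, rfl⟩ := hs.ex <;> obtain ⟨y, rfl⟩ := ht.ex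
    exacts [(ex_iff hc x y).summable, hF x y ▸ hm x y]
  obtain ⟨A, hA, e1⟩ := lead_vertex (k := k) tendsto_e tendsto_e hC.cone hG
    (.of_forall fun x => by simpa only [hF, ← e_neg] using hφ.2 x) hv
  refine ⟨fun k' ψ w hψ hw => ?_, fun w hw => ?_⟩
  · obtain ⟨B, hB, e2⟩ := lead_vertex (k := k') tendsto_e tendsto_e hC.cone hG.swap
      (.of_forall fun x => by simpa only [Fs_swap (a := Prod.fst), hF, ← e_neg] using hψ.2 x) hw
    rw [e1, e2, vertices hC _ _ _ A B hG hA hB rfl]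
  · rw [e1]
    exact diagonal hC hG hA tendsto_e (by simpa only [hF] using hw)

end

end Pool.Agent.P.MP_b8021b_nt.CM.O
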