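import Pool.Agent.P.MP_b8021b_nt.CM.OSt

/-! Regrouping a sum over the orbits of a free action along the fibres of a map. -/

namespace Pool.Agent.P.MP_b8021b_nt.CM.O

theorem orbS : S_Orb := by
  classical
  intro G Y Z _ ρ Γ Ω pr U R h1 h2 h3 hR h4
  have mul : ∀ (g h : G) x, ρ (g * h) x = ρ g (ρ h x) := fun g h x => by rw [map_mul]; rfl
  have inv : ∀ (g : G) x, ρ g⁻¹ (ρ g x) = x := fun g x => by
    rw [← mul, inv_mul_cancel, map_one]; rfl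
  let cl : Y → Set Z := fun x => {z | ∃ g ∈ Γ, pr (ρ g x) = z}
  have cl1 : ∀ g ∈ Γ, ∀ x, cl (ρ g x) = cl x := fun g hg x => Set.ext fun z =>
    ⟨fun ⟨h, hh, e⟩ => ⟨h * g, mul_mem hh hg, by rw [mul, e]⟩,
      fun ⟨h, hh, e⟩ => ⟨h * g⁻¹, mul_mem hh (inv_mem hg), by rw [mul, inv, e]⟩⟩
  have cl2 : ∀ x ∈ Ω, ∀ y ∈ Ω, pr x = pr y → cl x = cl y := fun x hx y hy e => Set.ext fun z =>
    exists_congr fun g => and_congr_right fun hg => by rw [h3 g hg x hx y hy e]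
  rw [← Finset.sum_fiberwise_of_maps_to (s := R) (t := R.image cl) (g := cl)
    fun x hx => Finset.mem_image_of_mem _ hx]
  refine Finset.sum_eq_zero fun c hc => ?_
  obtain ⟨x0, hx0, rfl⟩ := Finset.mem_image.1 hc
  obtain ⟨Δ, R', hΔ, -, hR', h0⟩ := h4 x0 (hR.1 x0 hx0)
  choose! r hr hru using fun x hx => (hR.2 x hx).imp fun _ h => h
  choose! t ht htu using fun x hx => (hR'.2 x hx).imp fun _ h => h
  have hmap : ∀ y ∈ R', r y ∈ R.filter fun x => cl x = cl x0 := fun y hy => by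
    obtain ⟨e1, e2⟩ := hR'.1 y hy
    obtain ⟨e3, g, hg, e4⟩ := hr y e1
    exact Finset.mem_filter.2 ⟨e3, by rw [← cl1 g hg, ← e4, cl2 y e1 x0 (hR.1 x0 hx0) e2]⟩
  have hex : ∀ x ∈ R.filter fun x => cl x = cl x0, ∃ g ∈ Γ, ρ g x ∈ Ω ∧ pr (ρ g x) = pr x0 := by
    intro x hx
    obtain ⟨e1, e2⟩ := Finset.mem_filter.1 hx
    obtain ⟨g, hg, e⟩ : pr x0 ∈ cl x := e2 ▸ ⟨1, one_mem _, by rw [map_one]; rfl⟩
    exact ⟨g, hg, (h1 g hg x (hR.1 x e1)).1, e⟩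
  have hrt : ∀ x ∈ R, ∀ g ∈ Γ, pr (ρ g x) = pr x0 → t (ρ g x) ∈ R'.filter fun y => r y = x := by
    intro x hx g hg e
    obtain ⟨e1, δ, hδ, e2⟩ := ht (ρ g x) ⟨(h1 g hg x (hR.1 x hx)).1, e⟩
    refine Finset.mem_filter.2 ⟨e1, (hru _ (hR'.1 _ e1).1 x ⟨hx, δ⁻¹ * g,
      mul_mem (inv_mem (hΔ hδ)) hg, ?_⟩).symm⟩
    rw [mul]
    conv_rhs => rw [e2, inv]
  have hle : ∀ x ∈ R.filter fun x => cl x = cl x0, ∀ x' ∈ R.filter fun x => cl x = cl x0,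
      (R'.filter fun y => r y = x).card ≤ (R'.filter fun y => r y = x').card := by
    intro x hx x' hx'
    obtain ⟨g, hg, e1, e2⟩ := hex x hx
    obtain ⟨g', hg', e1', e2'⟩ := hex x' hx'
    have : ∀ y ∈ R'.filter fun y => r y = x, ∃ s ∈ Γ, y = ρ s (ρ g x) := fun y hy => by
      obtain ⟨e3, e4⟩ := Finset.mem_filter.1 hy
      obtain ⟨-, s, hs, e5⟩ := hr y (hR'.1 y e3).1
      exact ⟨s * g⁻¹, mul_mem hs (inv_mem hg), by rw [mul, inv, ← e4, ← e5]⟩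
    choose! s hs hs' using this
    have hp : ∀ y ∈ R'.filter fun y => r y = x, pr (ρ (s y * g') x') = pr x0 := fun y hy => by
      rw [mul, h3 _ (hs y hy) _ e1' _ e1 (e2'.trans e2.symm), ← hs' y hy]
      exact (hR'.1 y (Finset.mem_filter.1 hy).1).2
    have hx1 := (Finset.mem_filter.1 hx').1
    refine Finset.card_le_card_of_injOn (fun y => t (ρ (s y * g') x'))
      (fun y hy => hrt x' hx1 _ (mul_mem (hs y hy) hg') (hp y hy)) fun y hy y' hy' e => ?_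
    obtain ⟨-, δ, hδ, e3⟩ := ht _ ⟨(h1 _ (mul_mem (hs y hy) hg') x' (hR.1 x' hx1)).1, hp y hy⟩
    obtain ⟨-, δ', hδ', e4⟩ := ht _ ⟨(h1 _ (mul_mem (hs y' hy') hg') x' (hR.1 x' hx1)).1, hp y' hy'⟩
    have e5 : (s y)⁻¹ * (δ * δ'⁻¹ * s y') = 1 := by
      refine h2 _ (mul_mem (inv_mem (hs y hy)) (mul_mem (hΔ (mul_mem hδ (inv_mem hδ')))
        (hs y' hy'))) _ e1' ?_
      simp only at e
      rw [mul, mul, ← mul (s y'), e4, mul, inv, ← e, ← e3, mul, inv]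
    have hy1 := (Finset.mem_filter.1 hy).1
    rw [htu y (hR'.1 y hy1) y ⟨hy1, 1, one_mem _, by rw [map_one]; rfl⟩,
      htu y (hR'.1 y hy1) y' ⟨(Finset.mem_filter.1 hy').1, δ * δ'⁻¹, mul_mem hδ (inv_mem hδ'), by
        rw [hs' y' hy', ← mul, ← inv_mul_eq_one.1 e5, ← hs' y hy]⟩]
  have hx0' : x0 ∈ R.filter fun x => cl x = cl x0 := Finset.mem_filter.2 ⟨hx0, rfl⟩
  have hne : ((R'.filter fun y => r y = x0).card : ℂ) ≠ 0 := by
    obtain ⟨g, hg, -, e⟩ := hex x0 hx0'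
    exact Nat.cast_ne_zero.2 (Finset.card_ne_zero_of_mem (hrt x0 hx0 g hg e))
  refine mul_left_cancel₀ hne ?_
  rw [mul_zero, ← h0, ← Finset.sum_fiberwise_of_maps_to hmap, Finset.mul_sum]
  refine Finset.sum_congr rfl fun x hx => ?_
  rw [le_antisymm (hle _ hx0' _ hx) (hle _ hx _ hx0'), ← nsmul_eq_mul, ← Finset.sum_const]
  refine Finset.sum_congr rfl fun y hy => ?_
  obtain ⟨e3, e4⟩ := Finset.mem_filter.1 hy
  obtain ⟨e5, g, hg, e6⟩ := hr y (hR'.1 y e3).1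
  rw [← e4, ← (h1 g hg _ (hR.1 _ e5)).2, ← e6]

end Pool.Agent.P.MP_b8021b_nt.CM.O
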