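import Pool.Agent.P.MP_b8021b_nt.CM.OBas
import Pool.Agent.P.MP_b8021b_nt.CM.QExp

/-! Surfaces: the classes at infinity of a family of modular curves. -/

namespace Pool.Agent.P.MP_b8021b_nt.CM.O

open Complex hiding Gamma
open UpperHalfPlane hiding I
open CongruenceSubgroup Filter Pool.Agent.P.MP_7ebcb6_ag
open scoped Real MatrixGroups Topology LinearAlgebra.Projectivization

noncomputable section

namespace OSurfP

variable {n M : ℕ} {C : Set (Vec n)} {k : ℤ} {G : ℍ → ℍ → Vec n}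

theorem pow_le (r : ℕ) {A c : ℝ} (hA : 0 ≤ A) (hc : 0 < c) :
    ∃ D : ℝ, 0 ≤ D ∧ ∀ y : ℝ, 0 ≤ y → (A + y) ^ r ≤ D * Real.exp (c * y) := by
  refine ⟨r.factorial * Real.exp (c * A) / c ^ r, by positivity, fun y hy => ?_⟩
  have h1 := Real.pow_div_factorial_le_exp (c * (A + y)) (by positivity) r
  rw [div_le_iff₀ (by positivity), mul_pow, mul_add, Real.exp_add] at h1
  rw [div_mul_eq_mul_div, le_div_iff₀ (by positivity)]
  linarith

/-- periodic functions of moderate growth -/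
theorem red (hM : 0 < M) (r : ℕ) : ∃ D : ℝ, 0 ≤ D ∧ ∀ (f : ℍ → Vec n) (A : ℝ), 0 ≤ A →
    (∀ σ, f ((M : ℝ) +ᵥ σ) = f σ) → ∀ σ : ℍ, 1 ≤ σ.im →
    (∀ σ' : ℍ, σ'.im = σ.im → ‖f σ'‖ ≤ A * kap σ' ^ r) →
    ‖f σ‖ ≤ A * D * Real.exp (π * σ.im / M) := by
  have hM' : (0 : ℝ) < M := by exact_mod_cast hM
  obtain ⟨D, hD, h⟩ := pow_le r (A := 1 + (M : ℝ) ^ 2) (c := π / M) (by positivity)
    (div_pos Real.pi_pos hM')
  refine ⟨D, hD, fun f A hA hp σ h1 hb => ?_⟩
  obtain ⟨u, h0, hu, e⟩ := QE.exists_red hM (f := fun σ => ((‖f σ‖ : ℝ) : ℂ))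
    (fun σ => by simp only [hp]) σ
  rw [ofReal_inj.1 e]
  have h2 : kap (pt u σ.im) ≤ 1 + (M : ℝ) ^ 2 + σ.im := by
    refine (QE.kap_pt u σ.im_pos h0 hu).trans ?_
    have : (1 + (M : ℝ) ^ 2) / σ.im ≤ 1 + (M : ℝ) ^ 2 := div_le_self (by positivity) h1
    linarith
  refine (hb _ (QE.im_pt u σ.im_pos)).trans ?_
  rw [mul_assoc]
  refine mul_le_mul_of_nonneg_left ((pow_le_pow_left₀ (by linarith [kap_pos (pt u σ.im)]) h2 r).trans
    ((h _ σ.im_pos.le).trans_eq ?_)) hA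
  rw [div_mul_eq_mul_div]

theorem kap_nonneg (τ : ℍ) : 0 ≤ kap τ := by linarith [kap_pos τ]

theorem gro1 (hM : 0 < M) (h : M1 C M k G) : ∃ (K : ℝ) (r : ℕ), 0 ≤ K ∧ ∀ τ σ : ℍ, 1 ≤ σ.im →
    ‖G τ σ‖ ≤ K * kap τ ^ r * Real.exp (π * σ.im / M) := by
  obtain ⟨K, r, hb⟩ := h.gro
  obtain ⟨D, hD, hr⟩ := red (n := n) hM r
  refine ⟨|K| * D, r, by positivity, fun τ σ h1 => ?_⟩
  have h0 := kap_nonneg τ
  refine (hr (G τ) (|K| * kap τ ^ r) (by positivity) (h.per τ) σ h1 fun σ' _ =>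
    (hb τ σ').trans ?_).trans_eq (by ring)
  have h0' := kap_nonneg σ'
  rw [mul_assoc, ← mul_pow]
  exact mul_le_mul_of_nonneg_right (le_abs_self K) (by positivity)

theorem gro2 (hM : 0 < M) (h : M1 C M k G) : ∃ K : ℝ, ∀ τ σ : ℍ, 1 ≤ τ.im → 1 ≤ σ.im →
    ‖G τ σ‖ ≤ K * Real.exp (π * τ.im / M) * Real.exp (π * σ.im / M) := by
  obtain ⟨K, r, hK, hb⟩ := gro1 hM h
  obtain ⟨D, hD, hr⟩ := red (n := n) hM r
  refine ⟨K * D, fun τ σ h1 h2 => ?_⟩
  exact (hr (fun τ => G τ σ) (K * Real.exp (π * σ.im / M)) (by positivity) (h.mt σ).per τ h1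
    fun τ' _ => (hb τ' σ h2).trans_eq (by ring)).trans_eq (by ring)

/-- the limit at infinity is bounded by the values on a horizontal line -/
theorem lim_le (hM : 0 < M) {g : ℍ → ℂ} (h : Hol g) (hp : Per M g) {L : ℂ} {B : ℝ}
    (hl : Tendsto g atImInfty (𝓝 L)) (hB : ∀ u : ℝ, ‖g (pt u 1)‖ ≤ B) : ‖L‖ ≤ B := by
  refine le_of_forall_pos_le_add fun ε hε => ?_
  obtain ⟨Y, hY⟩ := (atImInfty_mem _).1 (hl.eventually (Metric.closedBall_mem_nhds L hε))
  have hy : 0 < max Y 1 := lt_max_of_lt_right one_pos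
  have h1 := norm_coef_le hM h hp 0 one_pos fun u _ _ => hB u
  have h2 := norm_coef_le hM (f := g + fun _ => -L) (h.add (hol_const _))
    (fun τ => by simp only [Pi.add_apply, hp τ]) 0 (B := ε) hy fun u _ _ => by
      have := hY (pt u (max Y 1)) (by rw [QE.im_pt u hy]; exact le_max_left _ _)
      simpa [dist_eq_norm, sub_eq_add_neg] using this
  rw [coef_add h.continuous continuous_const, coef_const hM, if_pos rfl] at h2
  simp only [Int.cast_zero, mul_zero, zero_mul, zero_div, Real.exp_zero, mul_one] at h1 h2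
  have h3 := norm_sub_le (coef M g 0) (coef M g 0 + -L)
  rw [show coef M g 0 - (coef M g 0 + -L) = L by ring] at h3
  linarith

theorem loc (hM : 0 < M) (h : M1 C M k G) {u0 : ℂ} (h0 : 0 < u0.im) :
    ∃ ρ Y K, Metric.ball u0 ρ ⊆ {z : ℂ | 0 < z.im} ∧
      Loc C M (fun u s => G (ofComplex u) (ofComplex s)) u0 ρ Y K := by
  obtain ⟨K, r, hK, hb⟩ := gro1 hM h
  have hi : ∀ u ∈ Metric.ball u0 (u0.im / 2), u0.im / 2 < u.im := fun u hu => by
    have h1 := abs_im_le_norm (u - u0)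
    rw [Metric.mem_ball, dist_eq_norm] at hu
    rw [sub_im] at h1
    linarith [neg_abs_le (u.im - u0.im)]
  have hs : Metric.ball u0 (u0.im / 2) ⊆ {z : ℂ | 0 < z.im} := fun u hu =>
    lt_trans (half_pos h0) (hi u hu)
  have hs' : {s : ℂ | 1 < s.im} ⊆ {z : ℂ | 0 < z.im} := fun s (hs : 1 < s.im) =>
    lt_trans one_pos hs
  have hc : ContinuousOn ofComplex {z : ℂ | 0 < z.im} := fun z hz =>
    (mdifferentiableAt_ofComplex hz).continuousAt.continuousWithinAt
  refine ⟨u0.im / 2, 1, K * ((1 + (‖u0‖ + u0.im / 2) ^ 2) / (u0.im / 2)) ^ r, hs, half_pos h0,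
    fun s _ => differentiableOn_pi.2 fun i => DifferentiableOn.mono (h.hol1 _ i) hs,
    fun u _ => differentiableOn_pi.2 fun i => DifferentiableOn.mono (h.hol2 _ i) hs', ?_,
    fun u hu s h1 => ⟨?_, h.mem _ _, h.ne _ _, ?_⟩⟩
  · exact h.cont.comp_continuousOn
      ((hc.comp continuousOn_fst fun p hp => hs hp.1).prodMk
        (hc.comp continuousOn_snd fun p hp => hs' hp.2))
  · have := QE.ofC_add (hs' h1) (M : ℝ)
    rw [ofReal_natCast] at this
    simp only [this, h.per]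
  · have e1 : (ofComplex s).im = s.im := by rw [ofComplex_apply_of_im_pos (hs' h1)]; rfl
    refine (hb _ _ (e1 ▸ h1.le)).trans ?_
    rw [e1]
    refine mul_le_mul_of_nonneg_right (mul_le_mul_of_nonneg_left
      (pow_le_pow_left₀ (kap_nonneg _) ?_ r) hK) (Real.exp_pos _).le
    rw [ofComplex_apply_of_im_pos (hs hu), kap]
    have h2 : ‖u‖ ≤ ‖u0‖ + u0.im / 2 := by
      rw [Metric.mem_ball, dist_eq_norm] at hu
      linarith [norm_le_insert' u u0]
    exact div_le_div₀ (by positivity) (by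
      have := pow_le_pow_left₀ (norm_nonneg u) h2 2
      simpa using this) (half_pos h0) (hi u hu).le

/-- the point `M (x + i)` -/
def up (M : ℕ) (x : ℍ) : ℍ := ofComplex (M * (x + I))

theorem im_aux (x : ℍ) : ((M : ℂ) * (x + I)).im = M * (x.im + 1) := by simp

theorem coe_up (hM : 0 < M) (x : ℍ) : (up M x : ℂ) = M * (x + I) := by
  have hM' : (0 : ℝ) < M := by exact_mod_cast hM
  have := x.im_pos
  rw [up, ofComplex_apply_of_im_pos (by rw [im_aux]; positivity)]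

theorem im_up (hM : 0 < M) (x : ℍ) : (up M x).im = M * (x.im + 1) := by
  rw [← coe_im, coe_up hM, im_aux]

theorem le_im_up (hM : 0 < M) (x : ℍ) : x.im + 1 ≤ (up M x).im := by
  have hM' : (1 : ℝ) ≤ M := by exact_mod_cast hM
  have := x.im_pos
  rw [im_up hM]
  nlinarith

theorem hol_up (hM : 0 < M) : Hol fun x => (up M x : ℂ) := by
  simp only [coe_up hM]
  exact hol_of_differentiableOn (F := fun z => M * (z + I)) (by fun_prop)

theorem cont_up (hM : 0 < M) : Continuous (up M) :=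
  isOpenEmbedding_coe.isInducing.continuous_iff.2 (hol_up hM).continuous

theorem up_vadd (hM : 0 < M) (x : ℍ) : up M ((1 : ℝ) +ᵥ x) = (M : ℝ) +ᵥ up M x := by
  ext1
  simp only [coe_up hM, coe_vadd]
  push_cast
  ring

theorem tendsto_up (hM : 0 < M) : Tendsto (up M) atImInfty atImInfty :=
  tendsto_comap_iff.2 (tendsto_atTop_mono (fun x => by
    have := le_im_up hM x
    simp only [Function.comp_apply]
    linarith) tendsto_comap)

theorem p2 (hM : 0 < M) (h : M1 C M k G) : P2 fun x y => G (up M x) (up M y) := by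
  have hM' : (M : ℝ) ≠ 0 := by exact_mod_cast hM.ne'
  obtain ⟨K, hb⟩ := gro2 hM h
  refine ⟨fun y i => h.hol _ _ (hol_up hM) (hol_const _) i,
    fun x i => h.hol _ _ (hol_const _) (hol_up hM) i,
    h.cont.comp (((cont_up hM).comp continuous_fst).prodMk ((cont_up hM).comp continuous_snd)),
    fun x y => ?_, fun x y => ?_, K * Real.exp π * Real.exp π, fun x y => ?_⟩
  · simp only [up_vadd hM]
    exact (h.mt _).per _
  · simp only [up_vadd hM, h.per]
  · have e1 : ∀ x : ℍ, Real.exp (π * (up M x).im / M) = Real.exp π * Real.exp (π * x.im) :=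
      fun x => by
        rw [← Real.exp_add, im_up hM]
        congr 1
        field_simp
        ring
    refine (hb _ _ (by linarith [le_im_up hM x, x.im_pos])
      (by linarith [le_im_up hM y, y.im_pos])).trans_eq ?_
    rw [e1, e1]
    ring

theorem mt_lead (hM : 0 < M) (h : M1 C M k G) {a : ℕ} {ψ : ℍ → Vec n}
    (hh : ∀ i, Hol fun τ => ψ τ i) (h0 : ψ ≠ 0) (hm : ∀ τ, ψ τ ∈ C)
    (hl : ∀ τ, Tendsto (fun σ : ℍ => e (-(a * σ) / M) • G τ σ) atImInfty (𝓝 (ψ τ))) :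
    MT C M k ψ := by
  have hM' : (M : ℂ) ≠ 0 := by exact_mod_cast hM.ne'
  obtain ⟨K, r, hK, hb⟩ := gro1 hM h
  refine ⟨fun i => inG_of_pow (hh i) (Real.exp (2 * π * (a : ℤ) * 1 / M) * K *
    Real.exp (π * 1 / M)) r fun τ => ?_, fun γ hγ τ => ?_, h0, hm⟩
  · refine lim_le hM (g := fun σ : ℍ => e (-(a * σ) / M) * G τ σ i) ?_ (fun σ => ?_)
      (tendsto_pi_nhds.1 (hl τ) i) fun u => ?_
    · refine Hol.mul ?_ (h.hol2 τ i)
      exact hol_of_differentiableOn (F := fun z => e (-(a * z) / M)) (by unfold e; fun_prop)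
    · have e1 : (-(a * (((M : ℝ) +ᵥ σ : ℍ) : ℂ)) / M : ℂ) = -(a * σ) / M + ((-a : ℤ) : ℂ) := by
        simp only [coe_vadd]
        push_cast
        field_simp
        ring
      simp only [h.per, e1, e_add, e_int, mul_one]
    · have e1 := QE.norm_e_neg (M := M) (a : ℤ) (pt u 1 : ℍ)
      have e2 := hb τ (pt u 1) (QE.im_pt u one_pos).ge
      rw [coe_im, QE.im_pt u one_pos, Int.cast_natCast (R := ℂ)] at e1
      rw [QE.im_pt u one_pos] at e2
      rw [norm_mul, e1]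
      exact (mul_le_mul_of_nonneg_left ((norm_le_pi_norm _ i).trans e2)
        (Real.exp_pos _).le).trans_eq (by ring)
  · refine tendsto_nhds_unique (hl (γ • τ)) (((hl τ).const_smul (jf γ τ ^ k)).congr fun σ => ?_)
    rw [h.law γ hγ, smul_comm]

theorem diag (hM : 0 < M) (h : M1 C M k G) : ∃ w, Lim (fun τ => G τ τ) atImInfty w := by
  obtain ⟨K, r, hb⟩ := h.gro
  refine lim_inf hM (fun i => inG_of_pow (h.hol id id hol_coe hol_coe i) K (2 * r) fun τ =>
    (norm_le_pi_norm (G τ τ) i).trans ((hb τ τ).trans_eq (by ring))) (fun τ => ?_)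
    fun e => h.ne UpperHalfPlane.I UpperHalfPlane.I (congrFun e _)
  rw [h.per]
  exact (h.mt τ).per τ

end OSurfP

open OSurfP

theorem surfS : S_N → S_LF → S_Surf := by
  intro hN hLF n C lam hC M k G hM h
  have hM' : (M : ℂ) ≠ 0 := by exact_mod_cast hM.ne'
  obtain ⟨a, φ, hd, ⟨u1, hu1, hne⟩, hφ⟩ := hLF n C lam hC M {z : ℂ | 0 < z.im}
    (fun u s => G (ofComplex u) (ofComplex s)) hM (convex_halfSpace_im_gt 0).isPreconnected
    ⟨I, by simp⟩ fun u0 h0 => loc hM h h0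
  have hl : ∀ τ : ℍ, Tendsto (fun σ : ℍ => e (-(a * σ) / M) • G τ σ) atImInfty (𝓝 (φ τ)) :=
    fun τ => by
      have := (hφ τ τ.im_pos).2.1.comp tendsto_coe_atI
      simpa only [Function.comp_def, ofComplex_apply] using this
  have hmt : MT C M k fun τ : ℍ => φ τ :=
    mt_lead hM h (fun i => hol_of_differentiableOn (differentiableOn_pi.1 hd i))
      (fun e => hne (congrFun e ⟨u1, hu1⟩)) (fun τ => (hφ τ τ.im_pos).1) hl
  obtain ⟨v, hv⟩ := hmt.lim_inf hM
  obtain ⟨w, hw⟩ := diag hM h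
  have hv' : Lim (fun x => e (a * I) • φ (up M x)) atImInfty v :=
    (hv.comp (tendsto_up hM)).of_smul (Eventually.of_forall fun x => ⟨_, e_ne_zero _, rfl⟩)
  have key : lam v = lam w := by
    refine (hN n C lam hC _ (p2 hM h) (fun x y => h.mem _ _) a _ v ⟨hv'.ne, fun x => ?_⟩ hv').2 w
      (hw.comp (tendsto_up hM))
    refine ((((hl (up M x)).comp (tendsto_up hM))).const_smul (e (a * I))).congr fun y => ?_
    simp only [Function.comp_apply, smul_smul, ← e_add, coe_up hM]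
    congr 2
    field_simp
    ring
  have e1 : (fun τ => beta lam G τ - kappa lam G) = fun τ : ℍ =>
      lc lam (fun τ : ℍ => φ τ) (𝓝[≠] τ) - lc lam (fun τ : ℍ => φ τ) atImInfty := by
    funext τ
    obtain ⟨v', w', h1, h2, h3⟩ := (hφ τ τ.im_pos).2.2
    have h4 : Lim (G τ) atImInfty w' := by
      simpa only [ofComplex_apply] using h2.comp tendsto_coe_atI
    rw [beta, kappa, h4.lc_eq hC.cone, hw.lc_eq hC.cone, hv.lc_eq hC.cone,
      (h1.comp (tendsto_coe_punct τ)).lc_eq hC.cone, key, h3]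
  rw [e1]
  exact (hC.cv M k _ hM hmt).1

end

end Pool.Agent.P.MP_b8021b_nt.CM.O
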