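import Pool.Agent.P.MP_b8021b_nt.CM.OFr

/-! Systems of representatives for the special cycles exist. -/

namespace Pool.Agent.P.MP_b8021b_nt.CM.O

open Matrix

noncomputable section

namespace OSysP

/-- an integral matrix with coefficients in `R` -/
def cm (R : Type) [CommRing R] {p q : ℕ} (A : Matrix (Fin p) (Fin q) ℤ) :
    Matrix (Fin p) (Fin q) R := A.map (Int.cast : ℤ → R)

section ring
variable {R : Type} [CommRing R] {p q r m : ℕ}

theorem cm_mul (A : Matrix (Fin p) (Fin q) ℤ) (B : Matrix (Fin q) (Fin r) ℤ) :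
    cm R (A * B) = cm R A * cm R B := Matrix.map_mul (f := Int.castRingHom R)

theorem cm_add (A B : Matrix (Fin p) (Fin q) ℤ) : cm R (A + B) = cm R A + cm R B := by
  ext i l; simp [cm]

theorem cm_zero : cm R (0 : Matrix (Fin p) (Fin q) ℤ) = 0 := by
  ext i l; simp [cm]

theorem cm_scalar (d : ℤ) (u : Fin p → R) : cm R (d • (1 : ZM p)) *ᵥ u = (d : R) • u := by
  have : cm R (d • (1 : ZM p)) = (d : R) • 1 := by
    ext i l
    simp only [cm, map_apply, Matrix.smul_apply, one_apply, smul_eq_mul]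
    split_ifs <;> simp
  rw [this, smul_mulVec, one_mulVec]

theorem bf_mul (S : ZM m) (x : Matrix (Fin m) (Fin p) ℤ) (w : Matrix (Fin m) (Fin q) ℤ)
    (a : Fin p → R) (c : Fin q → R) :
    bf S (cm R x *ᵥ a) (cm R w *ᵥ c) = a ⬝ᵥ cm R (xᵀ * S * w) *ᵥ c := by
  rw [cm_mul, cm_mul, ← mulVec_mulVec, ← mulVec_mulVec, dotProduct_mulVec a]
  have : cm R xᵀ = (cm R x)ᵀ := rfl
  rw [this, vecMul_transpose]
  rfl

theorem bf_two (G : ZM 2) (u v : Fin 2 → R) : bf G u v =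
    G 0 0 * u 0 * v 0 + G 0 1 * u 0 * v 1 + G 1 0 * u 1 * v 0 + G 1 1 * u 1 * v 1 := by
  simp only [bf, dotProduct, mulVec, Fin.sum_univ_two, Matrix.map_apply]
  ring

end ring

variable {m b : ℕ} {S : ZM m} {T : ZM b} {z0 : CW m}

theorem det_ne (h : T.PosDef) : T.det ≠ 0 := fun h0 => by
  obtain ⟨v, hv, e⟩ := Matrix.exists_mulVec_eq_zero_iff.2 h0
  have := h.dotProduct_mulVec_pos hv
  rw [e, dotProduct_zero] at this
  exact lt_irrefl _ this

theorem psd_real (h : T.PosDef) (v : Fin b → ℝ) : 0 ≤ bf T v v := by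
  have hd : DenseRange (Pi.map fun (_ : Fin b) => ((↑) : ℚ → ℝ)) :=
    DenseRange.piMap fun _ => Rat.denseRange_cast
  refine hd.induction_on v (isClosed_le continuous_const ?_) fun u => ?_
  · simp only [bf, dotProduct, mulVec]
    fun_prop
  · obtain ⟨c, hc⟩ := IsLocalization.exist_integer_multiples_of_finite (nonZeroDivisors ℤ) u
    choose y hy using hc
    have h1 : (0 : ℤ) ≤ bf T y y := by
      have := h.posSemidef.dotProduct_mulVec_nonneg y
      exact this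
    have h2 : (fun i => ((y i : ℤ) : ℝ)) = ((c : ℤ) : ℝ) • Pi.map (fun _ => ((↑) : ℚ → ℝ)) u := by
      ext i
      have := congrArg ((↑) : ℚ → ℝ) (hy i)
      simpa using this
    have h3 := bf_map (S := T) (Int.castRingHom ℝ) y y
    simp only [Int.coe_castRingHom] at h3
    rw [h2, bf_smul_left, bf_smul_right, ← mul_assoc] at h3
    have h4 : (0 : ℝ) < ((c : ℤ) : ℝ) * (c : ℤ) :=
      mul_self_pos.2 (Int.cast_ne_zero.2 (nonZeroDivisors.coe_ne_zero c))
    have h5 : (0 : ℝ) ≤ ((bf T y y : ℤ) : ℝ) := Int.cast_nonneg h1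
    rw [← h3] at h5
    exact nonneg_of_mul_nonneg_right h5 h4

/-- the columns of `w` generate enough of the orthogonal complement of `x` -/
structure Good (S : ZM m) (T : ZM b) (x : Matrix (Fin m) (Fin b) ℤ)
    (w : Matrix (Fin m) (Fin 2) ℤ) : Prop where
  orth : xᵀ * S * w = 0
  span : ∃ β : Matrix (Fin 2) (Fin m) ℤ, x * (T.adjugate * (xᵀ * S)) + w * β = T.det • 1

variable {x x' : Matrix (Fin m) (Fin b) ℤ} {w w' : Matrix (Fin m) (Fin 2) ℤ}

theorem Good.mul (h : Good S T x w) {E E' : ZM 2} (e : E * E' = 1) : Good S T x (w * E) := by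
  obtain ⟨β, hβ⟩ := h.span
  refine ⟨by rw [← Matrix.mul_assoc, h.orth, Matrix.zero_mul], E' * β, ?_⟩
  rw [Matrix.mul_assoc w, ← Matrix.mul_assoc E, e, Matrix.one_mul, hβ]

theorem Good.orth' (hS : S.IsSymm) (h : Good S T x w) : wᵀ * S * x = 0 := by
  have := congrArg transpose h.orth
  rwa [transpose_mul, transpose_mul, transpose_transpose, hS.eq, transpose_zero,
    ← Matrix.mul_assoc] at this

theorem exists_good {S : ZM (b + 2)} {x : Matrix (Fin (b + 2)) (Fin b) ℤ}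
    (hx : xᵀ * S * x = T) (hT : T.det ≠ 0) : ∃ w, Good S T x w := by
  let f := (xᵀ * S).mulVecLin
  have h1 : Module.finrank ℤ (LinearMap.range f) = b := by
    apply le_antisymm
    · simpa using Submodule.finrank_le (LinearMap.range f)
    · have hi : Function.Injective T.mulVecLin := by
        rw [injective_iff_map_eq_zero]
        intro v hv
        by_contra h0
        exact hT (Matrix.exists_mulVec_eq_zero_iff.1 ⟨v, h0, hv⟩)
      have hle : LinearMap.range T.mulVecLin ≤ LinearMap.range f := by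
        rintro _ ⟨v, rfl⟩
        exact ⟨x *ᵥ v, by simp [f, ← hx]⟩
      have := Submodule.finrank_mono hle
      rwa [LinearMap.finrank_range_of_inj hi, Module.finrank_fin_fun] at this
  have h2 : Module.finrank ℤ (LinearMap.ker f) = 2 := by
    have := Submodule.finrank_quotient_add_finrank (LinearMap.ker f)
    rw [f.quotKerEquivRange.finrank_eq, h1, Module.finrank_fin_fun] at this
    omega
  let B := Module.finBasisOfFinrankEq ℤ (LinearMap.ker f) h2
  let M : ZM (b + 2) := T.det • 1 - x * (T.adjugate * (xᵀ * S))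
  have hM : xᵀ * S * M = 0 := by
    simp only [M, Matrix.mul_sub, Matrix.mul_smul, Matrix.mul_one]
    rw [← Matrix.mul_assoc, hx, ← Matrix.mul_assoc, mul_adjugate, Matrix.smul_mul,
      Matrix.one_mul, sub_self]
  have hk : ∀ l, (fun r => M r l) ∈ LinearMap.ker f := fun l => by
    ext i
    exact congrFun (congrFun hM i) l
  refine ⟨fun r i => (B i).1 r, ?_, fun i l => B.repr ⟨_, hk l⟩ i, ?_⟩
  · ext i l
    exact congrFun (B l).2 i
  · rw [← eq_sub_iff_add_eq']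
    ext r l
    have := congrArg (fun v : LinearMap.ker f => v.1 r) (B.sum_repr ⟨_, hk l⟩)
    simp only [Submodule.coe_sum, Finset.sum_apply, Submodule.coe_smul, Pi.smul_apply,
      smul_eq_mul] at this
    rw [Matrix.mul_apply]
    exact (Finset.sum_congr rfl fun i _ => mul_comm _ _).trans this

theorem gram_symm (hS : S.IsSymm) (w : Matrix (Fin m) (Fin 2) ℤ) :
    (wᵀ * S * w) 1 0 = (wᵀ * S * w) 0 1 := by
  rw [gram_apply, gram_apply, bf_comm hS]

theorem negdef_aux {a e c p0 p1 q0 q1 : ℝ} (h : ∀ s t : ℝ, s ≠ 0 ∨ t ≠ 0 →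
    a * (s * p0 + t * q0) ^ 2 + 2 * e * (s * p0 + t * q0) * (s * p1 + t * q1) +
      c * (s * p1 + t * q1) ^ 2 < 0) : a < 0 ∧ c < 0 ∧ e ^ 2 < a * c := by
  have hA := h 1 0 (Or.inl one_ne_zero)
  simp only [one_mul, zero_mul, add_zero] at hA
  set A := a * p0 ^ 2 + 2 * e * p0 * p1 + c * p1 ^ 2 with eA
  have h2 := h (a * p0 * q0 + e * (p0 * q1 + p1 * q0) + c * p1 * q1) (-A)
    (Or.inr (neg_ne_zero.2 hA.ne))
  have h3 : A * ((p0 * q1 - p1 * q0) ^ 2 * (a * c - e ^ 2)) < 0 := by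
    convert h2 using 1
    rw [eA]; ring
  have h4 : 0 < (p0 * q1 - p1 * q0) ^ 2 * (a * c - e ^ 2) := by nlinarith
  have h5 : 0 < a * c - e ^ 2 := by
    by_contra h6
    have := mul_nonpos_of_nonneg_of_nonpos (sq_nonneg (p0 * q1 - p1 * q0)) (not_lt.1 h6)
    linarith
  have h6 : 0 < a * c := by nlinarith [sq_nonneg e]
  have h7 : 0 ≤ a * A := by
    have : a * A = (a * p0 + e * p1) ^ 2 + (a * c - e ^ 2) * p1 ^ 2 := by rw [eA]; ring
    rw [this]; positivity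
  have h8 : a < 0 := by
    by_contra h9
    rcases (not_lt.1 h9).eq_or_lt with h0 | h0
    · rw [← h0] at h6; simp at h6
    · nlinarith
  exact ⟨h8, by nlinarith, by linarith⟩

theorem plane (hS : S.IsSymm) (hz : z0 ∈ negCone S) : ∃ p q : Fin m → ℝ, ∀ s t : ℝ,
    s ≠ 0 ∨ t ≠ 0 → bf S (s • p + t • q) (s • p + t • q) < 0 := by
  let p : Fin m → ℝ := fun i => (z0 i).re
  let q : Fin m → ℝ := fun i => (z0 i).im
  let P : CW m := fun i => p i
  let Q : CW m := fun i => q i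
  have e1 : z0 = P + Complex.I • Q := by
    ext i
    simp [P, Q, p, q, mul_comm Complex.I]
  have e2 : star z0 = P - Complex.I • Q := by
    ext i
    apply Complex.ext <;> simp [P, Q, p, q]
  have pp : bf S P P = (bf S p p : ℝ) := bf_map Complex.ofRealHom p p
  have pq : bf S P Q = (bf S p q : ℝ) := bf_map Complex.ofRealHom p q
  have qq : bf S Q Q = (bf S q q : ℝ) := bf_map Complex.ofRealHom q q
  obtain ⟨h1, h2⟩ := hz
  rw [e2] at h2
  rw [e1] at h1 h2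
  simp only [bf_add_left, bf_add_right, bf_sub_right, bf_smul_left, bf_smul_right,
    bf_comm hS Q P, pp, pq, qq] at h1 h2
  have h3 := congrArg Complex.re h1
  have h4 := congrArg Complex.im h1
  simp at h2 h3 h4
  refine ⟨p, q, fun s t hst => ?_⟩
  simp only [bf_add_left, bf_add_right, bf_smul_left, bf_smul_right, bf_comm hS q p]
  have h5 : 0 < s ^ 2 + t ^ 2 := by rcases hst with h | h <;> positivity
  have h6 : bf S q q = bf S p p := by linarith
  have h7 : bf S p q = 0 := by linarith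
  rw [h6, h7]
  nlinarith

theorem Good.neg (hS : S.IsSymm) (hz : z0 ∈ negCone S) (hT : T.PosDef) (hx : xᵀ * S * x = T)
    (h : Good S T x w) : (wᵀ * S * w) 0 0 < 0 ∧ (wᵀ * S * w) 1 1 < 0 ∧
      (wᵀ * S * w) 0 1 ^ 2 < (wᵀ * S * w) 0 0 * (wᵀ * S * w) 1 1 := by
  obtain ⟨β, hβ⟩ := h.span
  obtain ⟨p, q, hpq⟩ := plane hS hz
  have key : ∀ u : Fin m → ℝ, bf S u u < 0 →
      bf (wᵀ * S * w) (cm ℝ β *ᵥ u) (cm ℝ β *ᵥ u) < 0 := fun u hu => by
    have e := cm_scalar T.det u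
    rw [← hβ, cm_add, add_mulVec, cm_mul, cm_mul w, ← mulVec_mulVec, ← mulVec_mulVec] at e
    have e2 := congrArg (fun v => bf S v v) e
    simp only [bf_add_left, bf_add_right, bf_mul, h.orth, h.orth' hS, hx, cm_zero, zero_mulVec,
      dotProduct_zero, bf_smul_left, bf_smul_right, add_zero, zero_add] at e2
    have h1 := psd_real hT (cm ℝ (T.adjugate * (xᵀ * S)) *ᵥ u)
    have h2 : (0 : ℝ) < (T.det : ℝ) * T.det := mul_self_pos.2 (Int.cast_ne_zero.2 (det_ne hT))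
    have h3 := mul_neg_of_pos_of_neg h2 hu
    rw [mul_assoc, ← e2] at h3
    exact lt_of_le_of_lt (le_add_of_nonneg_left h1) h3
  have := negdef_aux (a := (wᵀ * S * w) 0 0) (e := (wᵀ * S * w) 0 1) (c := (wᵀ * S * w) 1 1)
    (p0 := (cm ℝ β *ᵥ p) 0) (p1 := (cm ℝ β *ᵥ p) 1) (q0 := (cm ℝ β *ᵥ q) 0)
    (q1 := (cm ℝ β *ᵥ q) 1) fun s t hst => by
      have := key _ (hpq s t hst)
      rw [bf_two, gram_symm hS, mulVec_add, mulVec_smul, mulVec_smul] at this
      simp only [Pi.add_apply, Pi.smul_apply, smul_eq_mul] at this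
      convert this using 1
      ring
  exact_mod_cast this

theorem gram_mul (w : Matrix (Fin m) (Fin 2) ℤ) (E : ZM 2) :
    (w * E)ᵀ * S * (w * E) = Eᵀ * (wᵀ * S * w) * E := by
  simp only [transpose_mul, Matrix.mul_assoc]

theorem Good.reduce (hS : S.IsSymm) (hz : z0 ∈ negCone S) (hT : T.PosDef) (hx : xᵀ * S * x = T)
    (h : Good S T x w) : ∃ w, Good S T x w ∧ 2 * |(wᵀ * S * w) 0 1| ≤ -(wᵀ * S * w) 0 0 ∧
      2 * |(wᵀ * S * w) 0 1| ≤ -(wᵀ * S * w) 1 1 := by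
  obtain ⟨w, hw, hmin⟩ := (measure fun w : Matrix (Fin m) (Fin 2) ℤ =>
    (-(wᵀ * S * w) 0 0 - (wᵀ * S * w) 1 1).toNat).wf.has_min {w | Good S T x w} ⟨w, h⟩
  have key : ∀ E E' : ZM 2, E * E' = 1 → (Eᵀ * (wᵀ * S * w) * E) 0 0 +
      (Eᵀ * (wᵀ * S * w) * E) 1 1 ≤ (wᵀ * S * w) 0 0 + (wᵀ * S * w) 1 1 := fun E E' e => by
    have h1 : ¬ (-((w * E)ᵀ * S * (w * E)) 0 0 - ((w * E)ᵀ * S * (w * E)) 1 1).toNat <
        (-(wᵀ * S * w) 0 0 - (wᵀ * S * w) 1 1).toNat := hmin _ (Good.mul hw e)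
    have h2 := (Good.mul hw e).neg hS hz hT hx
    have h3 := Good.neg hS hz hT hx hw
    rw [gram_mul] at h1 h2
    omega
  have hs := gram_symm hS w
  refine ⟨w, hw, ?_⟩
  generalize wᵀ * S * w = G at key hs
  have k1 := key !![1, 1; 0, 1] !![1, -1; 0, 1] (by decide)
  have k2 := key !![1, -1; 0, 1] !![1, 1; 0, 1] (by decide)
  have k3 := key !![1, 0; 1, 1] !![1, 0; -1, 1] (by decide)
  have k4 := key !![1, 0; -1, 1] !![1, 0; 1, 1] (by decide)
  simp [Matrix.mul_apply, Fin.sum_univ_two, hs] at k1 k2 k3 k4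
  rcases abs_cases (G 0 1) with h | h <;> omega

section pieces
variable {β : Matrix (Fin 2) (Fin m) ℤ}

theorem cancel {G : ZM 2} (hG : G.det ≠ 0) {q : ℕ} {A B : Matrix (Fin 2) (Fin q) ℤ}
    (e : G * A = G * B) : A = B := by
  have := congrArg (G.adjugate * ·) e
  simp only [← Matrix.mul_assoc, adjugate_mul, Matrix.smul_mul, Matrix.one_mul] at this
  exact smul_right_injective _ hG this

theorem gram_beta (hS : S.IsSymm) (h : Good S T x w)
    (hβ : x * (T.adjugate * (xᵀ * S)) + w * β = T.det • 1) :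
    wᵀ * S * w * β = T.det • (wᵀ * S) := by
  have := congrArg (wᵀ * S * ·) hβ
  simp only [Matrix.mul_add, Matrix.mul_smul, Matrix.mul_one] at this
  rwa [← Matrix.mul_assoc, h.orth' hS, Matrix.zero_mul, zero_add, ← Matrix.mul_assoc] at this

theorem Good.det_dvd (hS : S.IsSymm) (h : Good S T x w) (hG : (wᵀ * S * w).det ≠ 0) :
    (wᵀ * S * w).det ∣ (T.det ^ 2 * S.det) ^ 2 := by
  obtain ⟨β, hβ⟩ := h.span
  have h1 := gram_beta hS h hβ
  have h2 : βᵀ * (wᵀ * S * w) = T.det • (S * w) := by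
    have := congrArg transpose h1
    simpa only [transpose_mul, transpose_smul, transpose_transpose, hS.eq, Matrix.mul_assoc]
      using this
  have h3 : β * S.adjugate * βᵀ * (wᵀ * S * w) = (T.det ^ 2 * S.det) • 1 := by
    apply cancel hG
    rw [Matrix.mul_assoc _ βᵀ, h2, ← Matrix.mul_assoc, ← Matrix.mul_assoc, h1]
    simp only [Matrix.smul_mul, Matrix.mul_smul, Matrix.mul_one, smul_smul]
    rw [Matrix.mul_assoc _ S.adjugate, ← Matrix.mul_assoc S.adjugate, adjugate_mul]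
    simp only [Matrix.smul_mul, Matrix.mul_smul, Matrix.one_mul, smul_smul, sq]
  have h4 := congrArg det h3
  rw [det_mul, det_smul, det_one, mul_one, Fintype.card_fin] at h4
  exact Dvd.intro_left _ h4

end pieces

/-- the Gram matrix can be bounded -/
theorem exists_bdd {S : ZM (b + 2)} {z0 : CW (b + 2)} (hS : S.IsSymm) (hd : S.det ≠ 0)
    (hz : z0 ∈ negCone S) (hT : T.PosDef) {x : Matrix (Fin (b + 2)) (Fin b) ℤ}
    (hx : xᵀ * S * x = T) : ∃ w, Good S T x w ∧ ∀ i l, (wᵀ * S * w) i l ∈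
      Set.Icc (-(2 * (T.det ^ 2 * S.det) ^ 2)) (2 * (T.det ^ 2 * S.det) ^ 2) := by
  obtain ⟨w, hw⟩ := exists_good hx (det_ne hT)
  obtain ⟨w, hw, r1, r2⟩ := hw.reduce hS hz hT hx
  obtain ⟨n1, n2, n3⟩ := hw.neg hS hz hT hx
  have hs := gram_symm hS w
  have hD : (wᵀ * S * w).det = (wᵀ * S * w) 0 0 * (wᵀ * S * w) 1 1 - (wᵀ * S * w) 0 1 ^ 2 := by
    rw [det_fin_two, hs, sq]
  have h1 := Int.le_of_dvd (by have := det_ne hT; positivity)
    (hw.det_dvd hS (by rw [hD]; omega))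
  refine ⟨w, hw, ?_⟩
  rw [hD] at h1
  generalize (T.det ^ 2 * S.det) ^ 2 = B at h1 ⊢
  generalize wᵀ * S * w = G at *
  have h2 : 4 * G 0 1 ^ 2 ≤ G 0 0 * G 1 1 := by
    have := mul_le_mul r1 r2 (by positivity) (by omega)
    rw [← sq_abs]
    nlinarith
  have h3 : G 0 0 * G 1 1 ≤ 2 * B := by nlinarith [sq_nonneg (G 0 1)]
  have h4 : -G 0 0 ≤ G 0 0 * G 1 1 := by nlinarith
  have h5 : -G 1 1 ≤ G 0 0 * G 1 1 := by nlinarith
  have h6 := abs_cases (G 0 1)
  simp only [Fin.forall_fin_two, Set.mem_Icc, hs]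
  generalize G 0 0 * G 1 1 = p at *
  omega

theorem exists_zeta {G : ZM 2} (hs : G 1 0 = G 0 1) (h1 : G 0 0 < 0)
    (h2 : G 0 1 ^ 2 < G 0 0 * G 1 1) : ∃ ζ, ζ ∈ negCone G := by
  have h3 : (0 : ℝ) < G 0 0 * G 1 1 - G 0 1 ^ 2 := by exact_mod_cast sub_pos.2 h2
  have h4 : (G 0 0 : ℝ) < 0 := by exact_mod_cast h1
  obtain ⟨r, hr⟩ : ∃ r : ℝ, r ^ 2 = G 0 0 * G 1 1 - G 0 1 ^ 2 := ⟨_, Real.sq_sqrt h3.le⟩
  refine ⟨![-G 0 1 + r * Complex.I, G 0 0], ?_, ?_⟩
  · have := congrArg ((↑) : ℝ → ℂ) hr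
    push_cast at this
    simp only [bf_two, hs, cons_val_zero, cons_val_one]
    linear_combination (G 0 0 * r ^ 2 : ℂ) * Complex.I_sq - (G 0 0 : ℂ) * this
  · simp [bf_two, hs]
    nlinarith

theorem star_cm (w : Matrix (Fin m) (Fin 2) ℤ) (ζ : CW 2) :
    star (cm ℂ w *ᵥ ζ) = cm ℂ w *ᵥ star ζ := by
  ext i
  simp [cm, mulVec, dotProduct]

theorem mem_neg {ζ : CW 2} (h : ζ ∈ negCone (wᵀ * S * w)) : cm ℂ w *ᵥ ζ ∈ negCone S :=
  ⟨by rw [bf_mul]; exact h.1, by rw [star_cm, bf_mul]; exact h.2⟩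

theorem Good.orth_pt (h : Good S T x w) (ζ : CW 2) (i : Fin b) :
    bf S (fun r => (x r i : ℂ)) (cm ℂ w *ᵥ ζ) = 0 := by
  have : (fun r => (x r i : ℂ)) = cm ℂ x *ᵥ Pi.single i 1 := by
    rw [mulVec_single_one]; rfl
  rw [this, bf_mul, h.orth, cm_zero, zero_mulVec, dotProduct_zero]

theorem congr_mod {p q : ℕ} {c : ℤ} {A B : Matrix (Fin p) (Fin q) ℤ}
    (e : A.map (Int.cast : ℤ → ZMod c.natAbs) = B.map Int.cast) : ∃ U, B = A + c • U := by
  have : ∀ i l, ∃ u, B i l - A i l = c * u := fun i l =>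
    Int.natAbs_dvd.1 ((ZMod.intCast_eq_intCast_iff_dvd_sub _ _ _).1 (congrFun (congrFun e i) l))
  choose U hU using this
  exact ⟨U, by ext i l; simp [← hU]⟩

/-- congruent data with the same Gram matrix differ by an element of the congruence group -/
theorem exists_iso (hS : S.IsSymm) (hT : T.det ≠ 0) (hx : xᵀ * S * x = T)
    (hx' : x'ᵀ * S * x' = T) (h : Good S T x w) (h' : Good S T x' w')
    (hG : (wᵀ * S * w).det ≠ 0) (eG : w'ᵀ * S * w' = wᵀ * S * w) {N : ℕ} {U V}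
    (e1 : x' = x + ((N : ℤ) * T.det) • U) (e2 : w' = w + ((N : ℤ) * T.det) • V) :
    ∃ g : ZM m, gᵀ * S * g = S ∧ g.map (Int.cast : ℤ → ZMod N) = 1 ∧ g * x = x' ∧
      g * w = w' := by
  obtain ⟨β, hβ⟩ := h.span
  have h1 := gram_beta hS h hβ
  set α := T.adjugate * (xᵀ * S) with hα
  have ax : α * x = T.det • 1 := by rw [hα, Matrix.mul_assoc, hx, adjugate_mul]
  have aw : α * w = 0 := by rw [hα, Matrix.mul_assoc, h.orth, Matrix.mul_zero]
  have bx : β * x = 0 := cancel hG (by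
    rw [← Matrix.mul_assoc, h1, Matrix.smul_mul, h.orth' hS, smul_zero, Matrix.mul_zero])
  have bw : β * w = T.det • 1 := cancel hG (by
    rw [← Matrix.mul_assoc, h1, Matrix.smul_mul, Matrix.mul_smul, Matrix.mul_one])
  set g : ZM m := 1 + (N : ℤ) • (U * α + V * β) with hg
  have gx : g * x = x' := by
    simp only [hg, e1, Matrix.add_mul, Matrix.one_mul, Matrix.smul_mul, Matrix.mul_assoc, ax, bx,
      Matrix.mul_zero, add_zero, Matrix.mul_smul, Matrix.mul_one, smul_smul]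
  have gw : g * w = w' := by
    simp only [hg, e2, Matrix.add_mul, Matrix.one_mul, Matrix.smul_mul, Matrix.mul_assoc, aw, bw,
      Matrix.mul_zero, zero_add, Matrix.mul_smul, Matrix.mul_one, smul_smul]
  refine ⟨g, ?_, ?_, gx, gw⟩
  · have ex : ∀ (x : Matrix (Fin m) (Fin b) ℤ) (w : Matrix (Fin m) (Fin 2) ℤ),
        (x * α + w * β)ᵀ * S * (x * α + w * β) = αᵀ * (xᵀ * S * x) * α + αᵀ * (xᵀ * S * w) * β +
          βᵀ * (wᵀ * S * x) * α + βᵀ * (wᵀ * S * w) * β := fun x w => by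
      simp only [transpose_add, transpose_mul, Matrix.add_mul, Matrix.mul_add, Matrix.mul_assoc]
      abel
    have e3 : x' * α + w' * β = T.det • g := by
      rw [← gx, ← gw, Matrix.mul_assoc, Matrix.mul_assoc, ← Matrix.mul_add, hβ, Matrix.mul_smul,
        Matrix.mul_one]
    have e4 := ex x' w'
    rw [hx', eG, h'.orth, h'.orth' hS, ← hx, ← h.orth, ← h.orth' hS, ← ex x w, hβ, e3] at e4
    simp only [transpose_smul, Matrix.smul_mul, Matrix.mul_smul, transpose_one, Matrix.one_mul,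
      Matrix.mul_one] at e4
    exact smul_right_injective _ hT (smul_right_injective _ hT e4)
  · ext i l
    simp only [hg, map_apply, Matrix.add_apply (A := 1), Matrix.smul_apply, one_apply,
      smul_eq_mul]
    split_ifs <;> simp

end OSysP

open OSysP in
theorem sysS : S_Dom → S_Gam → S_Sys := by
  intro hD hG b S z0 N hx hN T hT μ
  classical
  obtain ⟨-, d2, -, -, d5, d6⟩ := hD _ S z0 hx
  obtain ⟨⟨Γ, hΓ⟩, hG2⟩ := hG _ S z0 N hx
  have hz0 : z0 ∈ dom S z0 := mem_connectedComponentIn hx.neg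
  have hT0 := det_ne hT
  let Ω := {x : Matrix (Fin (b + 2)) (Fin b) ℤ // OSpecial S N T μ x}
  let s : Setoid Ω := ⟨fun x y => ∃ g, InGam S z0 N g ∧ x.1 = g * y.1,
    fun x => ⟨1, (hΓ 1).1 Γ.one_mem, (Matrix.one_mul _).symm⟩,
    fun ⟨g, hg, e⟩ => by
      obtain ⟨g, rfl⟩ := (hG2 g hg).1
      exact ⟨(g⁻¹).1, (hΓ _).1 (Γ.inv_mem ((hΓ _).2 hg)), by
        rw [e, ← Matrix.mul_assoc, Units.inv_mul, Matrix.one_mul]⟩,
    fun ⟨g, hg, e⟩ ⟨g', hg', e'⟩ => by
      obtain ⟨g, rfl⟩ := (hG2 g hg).1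
      obtain ⟨g', rfl⟩ := (hG2 g' hg').1
      exact ⟨(g * g').1, (hΓ _).1 (Γ.mul_mem ((hΓ _).2 hg) ((hΓ _).2 hg')), by
        rw [e, e', Units.val_mul, Matrix.mul_assoc]⟩⟩
  choose w hw hb using fun x : Ω => exists_bdd hx.symm d5 hx.neg hT x.2.1
  have hn := fun x : Ω => (hw x).neg hx.symm hx.neg hT x.2.1
  have hζ : ∀ G : ZM 2, ∃ ζ, G 1 0 = G 0 1 → G 0 0 < 0 → G 0 1 ^ 2 < G 0 0 * G 1 1 →
      ζ ∈ negCone G := fun G => by
    by_cases h : G 1 0 = G 0 1 ∧ G 0 0 < 0 ∧ G 0 1 ^ 2 < G 0 0 * G 1 1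
    · obtain ⟨ζ, hζ⟩ := exists_zeta h.1 h.2.1 h.2.2
      exact ⟨ζ, fun _ _ _ => hζ⟩
    · exact ⟨0, fun h1 h2 h3 => absurd ⟨h1, h2, h3⟩ h⟩
  choose ζ hζ using hζ
  have hc : ∀ x : Ω, cm ℂ (w x) *ᵥ ζ ((w x)ᵀ * S * w x) ∈ dom S z0 ∨
      cm ℂ (w x) *ᵥ star (ζ ((w x)ᵀ * S * w x)) ∈ dom S z0 := fun x => by
    rw [← star_cm]
    exact d2 _ (mem_neg (hζ _ (gram_symm hx.symm _) (hn x).1 (hn x).2.2))
  have : NeZero ((N : ℤ) * T.det).natAbs :=
    ⟨Int.natAbs_ne_zero.2 (mul_ne_zero (Int.natCast_ne_zero.2 hN.ne') hT0)⟩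
  let f : Ω → (Fin 2 → Fin 2 → Set.Icc (-(2 * (T.det ^ 2 * S.det) ^ 2))
      (2 * (T.det ^ 2 * S.det) ^ 2)) ×
      Matrix (Fin (b + 2)) (Fin b) (ZMod ((N : ℤ) * T.det).natAbs) ×
      Matrix (Fin (b + 2)) (Fin 2) (ZMod ((N : ℤ) * T.det).natAbs) × Prop := fun x =>
    (fun i l => ⟨_, hb x i l⟩, x.1.map Int.cast, (w x).map Int.cast,
      cm ℂ (w x) *ᵥ ζ ((w x)ᵀ * S * w x) ∈ dom S z0)
  have hf : ∀ x y, f x = f y → s y x := fun x y e => by
    simp only [f, Prod.mk.injEq, eq_iff_iff] at e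
    obtain ⟨e1, e2, e3, e4⟩ := e
    have eG : (w y)ᵀ * S * w y = (w x)ᵀ * S * w x := by
      ext i l
      exact (congrArg Subtype.val (congrFun (congrFun e1 i) l)).symm
    obtain ⟨U, hU⟩ := congr_mod e2
    obtain ⟨V, hV⟩ := congr_mod e3
    obtain ⟨g, g1, g2, g3, g4⟩ := exists_iso hx.symm hT0 x.2.1 y.2.1 (hw x) (hw y) (by
      have := (hn x).2.2
      rw [det_fin_two, gram_symm hx.symm, ← sq]
      omega) eG hU hV
    have hm : ∀ η, mv g (cm ℂ (w x) *ᵥ η) = cm ℂ (w y) *ᵥ η := fun η => by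
      rw [← g4, cm_mul, ← mulVec_mulVec]; rfl
    refine ⟨g, ⟨g1, g2, ?_⟩, g3.symm⟩
    have hy := hc y
    rw [eG] at e4 hy
    by_cases h : cm ℂ (w x) *ᵥ ζ ((w x)ᵀ * S * w x) ∈ dom S z0
    · exact d6 g g1 _ h (by rw [hm]; exact e4.1 h) z0 hz0
    · exact d6 g g1 _ ((hc x).resolve_left h)
        (by rw [hm]; exact hy.resolve_left fun h' => h (e4.2 h')) z0 hz0
  have : Finite (Quotient s) := Finite.of_injective (fun q : Quotient s => f q.out)
    fun q q' e => Quotient.out_equiv_out.1 (s.symm (hf _ _ e))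
  have := Fintype.ofFinite (Quotient s)
  have hP : ∀ x : Matrix (Fin (b + 2)) (Fin b) ℤ, ∃ z, OSpecial S N T μ x → z ∈ dom S z0 ∧
      ∀ i, bf S (fun r => (x r i : ℂ)) z = 0 := fun x => by
    by_cases h : OSpecial S N T μ x
    · rcases hc ⟨x, h⟩ with h1 | h1 <;> exact ⟨_, fun _ => ⟨h1, (hw ⟨x, h⟩).orth_pt _⟩⟩
    · exact ⟨0, fun h' => absurd h' h⟩
  choose P hP using hP
  refine ⟨Finset.univ.image fun q : Quotient s => q.out.1, P, fun x hx => ?_, fun x hx => ?_⟩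
  · obtain ⟨q, -, rfl⟩ := Finset.mem_image.1 hx
    exact ⟨q.out.2, hP _ q.out.2⟩
  · refine ⟨(Quotient.mk s ⟨x, hx⟩).out.1, ⟨Finset.mem_image_of_mem _ (Finset.mem_univ _),
      s.symm (Quotient.mk_out (s := s) ⟨x, hx⟩)⟩, ?_⟩
    rintro y ⟨hy, hr⟩
    obtain ⟨q, -, rfl⟩ := Finset.mem_image.1 hy
    have : Quotient.mk s ⟨x, hx⟩ = q := (Quotient.sound (s := s) hr).trans q.out_eq
    rw [this]

end

end Pool.Agent.P.MP_b8021b_nt.CM.O
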