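import Pool.Agent.P.MP_b8021b_nt.CM.OFr

/-! Tube domains of positive frames. -/

namespace Pool.Agent.P.MP_b8021b_nt.CM.O

open Complex hiding Gamma
open UpperHalfPlane hiding I
open Matrix Filter
open scoped MatrixGroups Topology

noncomputable section

namespace OTubeP

variable {m : ℕ} {S : ZM m} {z0 : CW m} {j : Fr m}

theorem sub_dom {P : Set (CW m)} (hP : IsPreconnected P) (hs : P ⊆ negCone S) {z : CW m}
    (hz : z ∈ P) (hd : z ∈ dom S z0) : P ⊆ dom S z0 := by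
  rw [dom, connectedComponentIn_eq hd]
  exact hP.subset_connectedComponentIn hz hs

theorem pf_of (hS : S.IsSymm) (hj : Ok S j) {τ σ : ℍ} (h : zp j τ σ ∈ dom S z0) : PF S z0 j := by
  have hc : Continuous fun p : ℍ × ℍ => zp j p.1 p.2 := by
    unfold zp
    fun_prop
  refine ⟨hj, fun τ' σ' => sub_dom (isPreconnected_range hc) ?_ ⟨(τ, σ), rfl⟩ h ⟨(τ', σ'), rfl⟩⟩
  rintro _ ⟨p, rfl⟩
  exact zp_mem hS hj (mul_pos p.1.im_pos p.2.im_pos)

theorem perp_pos (hD : S_Dom) (hc : Ctx S z0) (hj : Ok S j) {w : QV m} (hw : Perp S j w)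
    (h0 : w ≠ 0) : 0 < bf S w w := by
  have h1 := (hD m S z0 hc).2.2.2.1 (zp j I I) (zp_mem hc.symm hj (by simp))
    (fun i => (w i : ℝ)) (fun e => h0 (funext fun i => by simpa using congrFun e i))
    (by simpa only [ofReal_ratCast] using! bf_perp_zp hc.symm hw I I)
  have h2 := bf_map (S := S) (Rat.castHom ℝ) w w
  simp only [Rat.coe_castHom] at h2
  rw [h2] at h1
  exact_mod_cast h1

theorem det_pos {A B : M2} (hA : 0 < A.det) (e : A.det * B.det = 1) : 0 < B.det :=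
  pos_of_mul_pos_right (e ▸ one_pos : 0 < A.det * B.det) hA.le

theorem eps_I (j : Fr m) : zp j.eps I I = (-1 : ℂ) • star (zp j I I) := by
  rw [zp_eps, star_zp]
  simp

end OTubeP

open OTubeP

theorem tubeS (hD : S_Dom) : S_Tube := by
  intro m S z0 hc j hj
  have hS := hc.symm
  have h1 : ∀ v, Perp S j v → ∀ τ σ u : ℂ, 0 < τ.im →
      ((bf S v v / 2 : ℚ) : ℝ) * u.im ^ 2 < τ.im * σ.im → z3 S j v τ σ u ∈ dom S z0 := by
    intro v hv τ σ u hτ h
    have hq : (0 : ℝ) ≤ ((bf S v v / 2 : ℚ) : ℝ) := by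
      have : 0 ≤ bf S v v := by
        by_cases h0 : v = 0
        · rw [h0, bf_zero_left]
        · exact (perp_pos hD hc hj.ok hv h0).le
      exact_mod_cast div_nonneg this zero_le_two
    have hσ : 0 < σ.im :=
      pos_of_mul_pos_right ((mul_nonneg hq (sq_nonneg _)).trans_lt h) hτ.le
    have hcont : Continuous fun t : ℝ => z3 S j v τ σ (t * u) := by
      unfold z3
      fun_prop
    refine sub_dom (isPreconnected_Icc.image _ hcont.continuousOn) ?_
      (z := zp j τ σ) ⟨0, ⟨le_rfl, zero_le_one⟩, by simp [z3_zero]⟩ (hj.pos ⟨τ, hτ⟩ ⟨σ, hσ⟩)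
      ⟨1, ⟨zero_le_one, le_rfl⟩, by simp⟩
    rintro _ ⟨t, ht, rfl⟩
    refine z3_mem hS hj.ok hv (lt_of_le_of_lt (mul_le_mul_of_nonneg_left ?_ hq) h)
    rw [im_ofReal_mul, mul_pow]
    exact mul_le_of_le_one_left (sq_nonneg _) (pow_le_one₀ ht.1 ht.2)
  refine ⟨h1, fun w hw h0 => perp_pos hD hc hj.ok hw h0, fun A B hA e => ⟨hj.ok.act hS e,
    fun τ σ => ?_⟩, fun w hw => ⟨hj.ok.eb hS hw, fun τ σ => ?_⟩, hj.ok.sw hS, fun τ σ => ?_⟩
  · rw [zp_act hA (det_pos hA e)]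
    exact (hD m S z0 hc).1 _ (hj.pos _ _) _
      (mul_ne_zero (den_ne_zero hA.ne' τ) (den_ne_zero (det_pos hA e).ne' σ))
  · rw [zp_eb]
    exact h1 w hw _ _ _ τ.im_pos (by simpa using mul_pos τ.im_pos σ.im_pos)
  · rw [zp_sw]
    exact hj.pos σ τ

theorem epsS (hD : S_Dom) : S_Eps := by
  intro m S z0 hc j hj
  obtain ⟨d1, d2, d3, -⟩ := hD m S z0 hc
  refine ⟨?_, fun h => ?_⟩
  · refine (d2 (zp j I I) (zp_mem hc.symm hj (by simp))).imp
      (fun h => pf_of hc.symm hj (τ := UpperHalfPlane.I) (σ := UpperHalfPlane.I) h) fun h => ?_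
    refine pf_of hc.symm hj.eps (τ := UpperHalfPlane.I) (σ := UpperHalfPlane.I) ?_
    exact eps_I j ▸ d1 _ h (-1) (by simp)
  · have h1 : zp j.eps I I ∈ dom S z0 := h.2.pos UpperHalfPlane.I UpperHalfPlane.I
    have h2 := d1 _ h1 (-1) (by simp)
    rw [eps_I, smul_smul, neg_mul_neg, one_mul, one_smul] at h2
    exact d3 _ (h.1.pos UpperHalfPlane.I UpperHalfPlane.I) h2

theorem i1S (_ : S_Dom) (hM : S_MDQ) (hG : S_GF) : S_I1 := by
  intro m n S z0 N k C F lam hC hc hN hF j hj A B hA e τ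
  obtain ⟨M, hM0, hMM⟩ := hG m n S z0 N k C F hc hN hF j hj
  have hB := det_pos hA e
  rw [beta, beta, ← hM n C lam hC M k _ hM0 (hMM.2.mt (act A τ)) B hB]
  refine lc_congr (Eventually.of_forall fun σ => ?_)
  have h0 := mul_ne_zero (den_ne_zero hA.ne' τ) (den_ne_zero hB.ne' σ)
  refine ⟨_, zpow_ne_zero (-k) h0, funext fun i => ?_⟩
  rw [GF, zp_act hA hB, (hF.form i).hom _ (hj.pos _ _) _ h0]
  rfl

end

end Pool.Agent.P.MP_b8021b_nt.CM.O
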