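import Pool.Agent.P.MP_b8021b_nt.CM.All
import Pool.Agent.P.MP_b8021b_nt.CM.R1
import Pool.Agent.P.MP_b8021b_nt.CM.Unit
import Pool.Agent.P.MP_b8021b_nt.CM.MD
import Pool.Agent.P.MP_b8021b_nt.CM.OGlue
import Pool.Agent.P.MP_b8021b_nt.CM.OCV
import Pool.Agent.P.MP_b8021b_nt.CM.OEven
import Pool.Agent.P.MP_b8021b_nt.CM.OEL
import Pool.Agent.P.MP_b8021b_nt.CM.OAu
import Pool.Agent.P.MP_b8021b_nt.CM.OExp
import Pool.Agent.P.MP_b8021b_nt.CM.ON
import Pool.Agent.P.MP_b8021b_nt.CM.OLF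
import Pool.Agent.P.MP_b8021b_nt.CM.OSurf
import Pool.Agent.P.MP_b8021b_nt.CM.OInS
import Pool.Agent.P.MP_b8021b_nt.CM.ODom
import Pool.Agent.P.MP_b8021b_nt.CM.OGam
import Pool.Agent.P.MP_b8021b_nt.CM.OTube
import Pool.Agent.P.MP_b8021b_nt.CM.OLev
import Pool.Agent.P.MP_b8021b_nt.CM.OGF
import Pool.Agent.P.MP_b8021b_nt.CM.OI2
import Pool.Agent.P.MP_b8021b_nt.CM.OInv
import Pool.Agent.P.MP_b8021b_nt.CM.OMove
import Pool.Agent.P.MP_b8021b_nt.CM.OExt
import Pool.Agent.P.MP_b8021b_nt.CM.OFib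
import Pool.Agent.P.MP_b8021b_nt.CM.OOrb
import Pool.Agent.P.MP_b8021b_nt.CM.OFibre
import Pool.Agent.P.MP_b8021b_nt.CM.OSys

/-! Assembly of the packages for orthogonal Shimura varieties. -/

namespace Pool.Agent.P.MP_b8021b_nt.CM.O

theorem cvAll : S_CV := cvS (r1S l1All jinv limS) (unitS eis) mdS
theorem elAll : S_EL := elS evenS
theorem oneAll : S_One := oneS jinv
theorem p1All : S_P1 := p1S jinv oneAll
theorem mdqAll : S_MDQ := mdqS triS
theorem nAll : S_N := nS expS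
theorem lfAll : S_LF := lfS nAll
theorem surfAll : S_Surf := surfS nAll lfAll
theorem insAll : S_InS := insS oneAll triS upS mdqAll surfAll
theorem gamAll : S_Gam := gamS domS
theorem uniqAll : S_Uniq := uniqS domS gamAll
theorem tubeAll : S_Tube := tubeS domS
theorem epsAll : S_Eps := epsS domS
theorem levAll : S_Lev := levS domS tubeAll
theorem eichAll : S_Eich := eichS domS tubeAll
theorem gfAll : S_GF := gfS domS levAll
theorem loc3All : S_Loc3 := loc3S tubeAll levAll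
theorem i1All : S_I1 := i1S domS mdqAll gfAll
theorem i2All : S_I2 := i2S tubeAll eichAll loc3All lfAll
theorem invAll : S_Inv := invS tubeAll
theorem moveAll : S_Move := moveS tubeAll epsAll
theorem fibAll : S_Fib := fibS domS epsAll extS
theorem fibreAll : S_Fibre := fibreS mainAll gamAll levAll
theorem sysAll : S_Sys := sysS domS gamAll

end Pool.Agent.P.MP_b8021b_nt.CM.O
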