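import Pool.Agent.P.MP_b8021b_nt.CM.OSt
import Pool.Agent.P.MP_b8021b_nt.CM.Lim

/-! Basic facts on limits in projective space. -/

namespace Pool.Agent.P.MP_b8021b_nt.CM.O

open Complex hiding Gamma
open UpperHalfPlane hiding I
open CongruenceSubgroup Filter Pool.Agent.P.MP_7ebcb6_ag
open scoped Real MatrixGroups Topology LinearAlgebra.Projectivization

noncomputable section

variable {n M : ℕ} {α α' : Type} {Φ Ψ : α → Vec n} {l : Filter α} {v w : Vec n}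
  {C : Set (Vec n)} {lam : Vec n → ℂ} {k : ℤ}

theorem Lim.prop [l.NeBot] (h : Lim Φ l v) (h' : Lim Φ l w) : ∃ c : ℂ, c ≠ 0 ∧ w = c • v := by
  obtain ⟨hv, c, hc⟩ := h
  obtain ⟨hw, d, hd⟩ := h'
  have hc' := tendsto_pi_nhds.1 hc
  have hd' := tendsto_pi_nhds.1 hd
  have key : ∀ i j, w i * v j = w j * v i := fun i j =>
    tendsto_nhds_unique ((hd' i).mul (hc' j)) (((hd' j).mul (hc' i)).congr fun τ => by
      simp only [Pi.smul_apply, smul_eq_mul]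
      ring)
  obtain ⟨i, hi⟩ := Function.ne_iff.1 hv
  have e : w = (w i / v i) • v := funext fun j => by
    rw [Pi.smul_apply, smul_eq_mul, div_mul_eq_mul_div, key, mul_div_cancel_right₀ _ hi]
  exact ⟨_, fun h0 => hw (by rw [e, h0, zero_smul]), e⟩

theorem Lim.lam_eq [l.NeBot] (hC : Cone C lam) (h : Lim Φ l v) (h' : Lim Φ l w) :
    lam v = lam w := by
  obtain ⟨c, hc, rfl⟩ := h.prop h'
  exact (hC.inv c hc v).symm

theorem Lim.lc_eq [l.NeBot] (hC : Cone C lam) (h : Lim Φ l v) : lc lam Φ l = lam v := by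
  have e : ∃ v, Lim Φ l v := ⟨v, h⟩
  rw [lc, dif_pos e]
  exact e.choose_spec.lam_eq hC h

theorem Lim.comp (h : Lim Φ l v) {l' : Filter α'} {g : α' → α} (hg : Tendsto g l' l) :
    Lim (fun x => Φ (g x)) l' v :=
  let ⟨hv, c, hc⟩ := h
  ⟨hv, fun x => c (g x), hc.comp hg⟩

theorem lc_comp [l.NeBot] (hC : Cone C lam) (h : ∃ v, Lim Φ l v) {l' : Filter α'} [l'.NeBot]
    {g : α' → α} (hg : Tendsto g l' l) : lc lam (fun x => Φ (g x)) l' = lc lam Φ l := by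
  obtain ⟨v, h⟩ := h
  rw [h.lc_eq hC, (h.comp hg).lc_eq hC]

/-- proportional families have the same limits -/
theorem Lim.of_smul (h : Lim Φ l v) (e : ∀ᶠ x in l, ∃ a : ℂ, a ≠ 0 ∧ Ψ x = a • Φ x) :
    Lim Ψ l v := by
  classical
  obtain ⟨hv, c, hc⟩ := h
  refine ⟨hv, fun x => if h : ∃ a : ℂ, a ≠ 0 ∧ Ψ x = a • Φ x then c x / h.choose else 0,
    hc.congr' (e.mono fun x hx => ?_)⟩
  simp only [dif_pos hx]
  have := hx.choose_spec
  generalize hx.choose = a at this ⊢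
  rw [this.2, smul_smul, div_mul_cancel₀ _ this.1]

theorem lim_congr (e : ∀ᶠ x in l, ∃ a : ℂ, a ≠ 0 ∧ Ψ x = a • Φ x) : Lim Ψ l v ↔ Lim Φ l v :=
  ⟨fun h => h.of_smul (e.mono fun x ⟨a, ha, h⟩ =>
    ⟨a⁻¹, inv_ne_zero ha, by rw [h, inv_smul_smul₀ ha]⟩), fun h => h.of_smul e⟩

theorem lc_congr (e : ∀ᶠ x in l, ∃ a : ℂ, a ≠ 0 ∧ Ψ x = a • Φ x) : lc lam Ψ l = lc lam Φ l := by
  have : Lim Ψ l = Lim Φ l := funext fun v => propext (lim_congr e)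
  unfold lc
  generalize Lim Ψ l = A at this ⊢
  subst this
  rfl

theorem lim_of_tendsto (hv : v ≠ 0) (h : Tendsto Φ l (𝓝 v)) : Lim Φ l v :=
  ⟨hv, fun _ => 1, by simpa using h⟩

theorem Lim.smul (h : Lim Φ l v) {a : ℂ} (ha : a ≠ 0) : Lim Φ l (a • v) := by
  obtain ⟨hv, c, hc⟩ := h
  refine ⟨smul_ne_zero ha hv, fun x => a * c x, ?_⟩
  simpa only [mul_smul] using hc.const_smul a

theorem Lim.mem [l.NeBot] (hC : Cone C lam) (h : Lim Φ l v) (hm : ∀ᶠ x in l, Φ x ∈ C) : v ∈ C :=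
  let ⟨_, c, hc⟩ := h
  hC.closed.mem_of_tendsto hc (hm.mono fun x hx => hC.smul (c x) _ hx)

theorem Lim.ne [l.NeBot] (h : Lim Φ l v) : Φ ≠ 0 := by
  rintro rfl
  obtain ⟨hv, c, hc⟩ := h
  exact hv (tendsto_nhds_unique hc (by simp))

theorem lim_of_isLimit {Φ : ℍ → Vec n} {l : Filter ℍ} {x : ℙ ℂ (Vec n)}
    (h : IsLimit (fun i τ => Φ τ i) l x) : Lim Φ l x.rep := ⟨x.rep_nonzero, h⟩

theorem Lim.isLimit {Φ : ℍ → Vec n} {l : Filter ℍ} (h : Lim Φ l v) :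
    IsLimit (fun i τ => Φ τ i) l (Projectivization.mk ℂ v h.1) := by
  obtain ⟨a, ha⟩ := Projectivization.exists_smul_eq_mk_rep ℂ v h.1
  have := (h.smul a.ne_zero).2
  rwa [← Units.smul_def, ha] at this

theorem swap_ne {Φ : ℍ → Vec n} (h0 : Φ ≠ 0) : (fun i τ => Φ τ i) ≠ 0 := fun e =>
  h0 (funext fun τ => funext fun i => congrFun (congrFun e i) τ)

theorem lim_pt {Φ : ℍ → Vec n} (h : ∀ i, Hol fun τ => Φ τ i) (h0 : Φ ≠ 0) (τ : ℍ) :
    ∃ v, Lim Φ (𝓝[≠] τ) v :=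
  let ⟨_, hx⟩ := LimP.ex_fin n _ h (swap_ne h0) τ
  ⟨_, lim_of_isLimit hx⟩

theorem lim_inf {Φ : ℍ → Vec n} (hM : 0 < M) (h : ∀ i, InG fun τ => Φ τ i)
    (hp : ∀ τ, Φ ((M : ℝ) +ᵥ τ) = Φ τ) (h0 : Φ ≠ 0) : ∃ v, Lim Φ atImInfty v :=
  let ⟨_, hx⟩ := LimP.ex_inf n M _ hM (fun i => ⟨h i, fun τ => congrFun (hp τ) i⟩) (swap_ne h0)
  ⟨_, lim_of_isLimit hx⟩

/-- limits of analytic tuples at a point -/
theorem lim_analytic {Φ : ℂ → Vec n} {u : ℂ} (h : AnalyticAt ℂ Φ u)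
    (h0 : ¬ ∀ᶠ z in 𝓝 u, Φ z = 0) : ∃ v, Lim Φ (𝓝[≠] u) v := by
  obtain ⟨m, G, hG, hG0, e⟩ := (h.exists_eventuallyEq_pow_smul_nonzero_iff).2 h0
  refine ⟨G u, (lim_of_tendsto hG0
    (hG.continuousAt.tendsto.mono_left nhdsWithin_le_nhds)).of_smul ?_⟩
  filter_upwards [nhdsWithin_le_nhds e, self_mem_nhdsWithin] with z h1 h2
  exact ⟨_, pow_ne_zero m (sub_ne_zero.2 h2), h1⟩

theorem jf_T_zpow (a : ℤ) (τ : ℍ) : jf (ModularGroup.T ^ a) τ = 1 := by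
  have h1 := ModularGroup.coe_T_zpow a
  rw [jf, congrFun (congrFun h1 1) 0, congrFun (congrFun h1 1) 1]
  simp

theorem MT.per {Φ : ℍ → Vec n} (h : MT C M k Φ) (τ : ℍ) : Φ ((M : ℝ) +ᵥ τ) = Φ τ := by
  rw [← HolP.T_smul, h.law _ (HolP.T_mem M), jf_T_zpow, one_zpow, one_smul]

theorem MT.lim_inf {Φ : ℍ → Vec n} (h : MT C M k Φ) (hM : 0 < M) : ∃ v, Lim Φ atImInfty v :=
  O.lim_inf hM h.inG h.per h.ne

theorem MT.mono {Φ : ℍ → Vec n} {K : ℕ} (h : MT C M k Φ) (hd : M ∣ K) : MT C K k Φ :=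
  ⟨h.inG, fun γ hγ => h.law γ (Gamma_le hd hγ), h.ne, h.mem⟩

theorem M1.hol1 {G : ℍ → ℍ → Vec n} (h : M1 C M k G) (σ : ℍ) (i : Fin (n + 1)) :
    Hol fun τ => G τ σ i := h.hol id (fun _ => σ) hol_coe (hol_const _) i

theorem M1.hol2 {G : ℍ → ℍ → Vec n} (h : M1 C M k G) (τ : ℍ) (i : Fin (n + 1)) :
    Hol fun σ => G τ σ i := h.hol (fun _ => τ) id (hol_const _) hol_coe i

theorem inG_of_pow {f : ℍ → ℂ} (h : Hol f) (K : ℝ) (r : ℕ) (hb : ∀ τ, ‖f τ‖ ≤ K * kap τ ^ r) :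
    InG f := by
  refine inG_of_le h |K| r fun τ => (hb τ).trans ?_
  have h0 : 0 ≤ kap τ := by linarith [kap_pos τ]
  rw [Real.exp_nat_mul]
  exact mul_le_mul (le_abs_self K) (pow_le_pow_left₀ h0 (HolP.le_exp _) r) (pow_nonneg h0 r)
    (abs_nonneg K)

theorem M1.inG1 {G : ℍ → ℍ → Vec n} (h : M1 C M k G) (σ : ℍ) (i : Fin (n + 1)) :
    InG fun τ => G τ σ i := by
  obtain ⟨K, r, hb⟩ := h.gro
  refine inG_of_pow (h.hol1 σ i) (K * kap σ ^ r) r fun τ =>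
    (norm_le_pi_norm (G τ σ) i).trans ((hb τ σ).trans_eq (by ring))

theorem M1.inG2 {G : ℍ → ℍ → Vec n} (h : M1 C M k G) (τ : ℍ) (i : Fin (n + 1)) :
    InG fun σ => G τ σ i := by
  obtain ⟨K, r, hb⟩ := h.gro
  refine inG_of_pow (h.hol2 τ i) (K * kap τ ^ r) r fun σ =>
    (norm_le_pi_norm (G τ σ) i).trans ((hb τ σ).trans_eq (by ring))

theorem M1.mt {G : ℍ → ℍ → Vec n} (h : M1 C M k G) (σ : ℍ) : MT C M k fun τ => G τ σ :=
  ⟨h.inG1 σ, fun γ hγ τ => h.law γ hγ τ σ, fun e => h.ne σ σ (congrFun e σ), fun τ => h.mem τ σ⟩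

theorem M1.lim_inf {G : ℍ → ℍ → Vec n} (h : M1 C M k G) (hM : 0 < M) (τ : ℍ) :
    ∃ v, Lim (G τ) atImInfty v :=
  O.lim_inf hM (h.inG2 τ) (h.per τ) fun e => h.ne τ τ (congrFun e τ)

instance : atI.NeBot := Filter.comap_neBot fun s hs => by
  obtain ⟨y, hy⟩ := Filter.nonempty_of_mem hs
  exact ⟨y * I, by simpa using hy⟩

theorem tendsto_coe_atI : Tendsto (fun τ : ℍ => (τ : ℂ)) atImInfty atI :=
  tendsto_comap_iff.2 tendsto_comap

theorem ev_atI (Y : ℝ) : ∀ᶠ s in atI, Y < s.im := tendsto_comap.eventually (eventually_gt_atTop Y)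

theorem tendsto_ofComplex_atI : Tendsto ofComplex atI atImInfty := by
  refine tendsto_comap_iff.2 (tendsto_comap.congr' ?_)
  filter_upwards [ev_atI 0] with s hs
  simp [ofComplex_apply_of_im_pos hs]

theorem tendsto_coe_punct (τ : ℍ) : Tendsto (fun σ : ℍ => (σ : ℂ)) (𝓝[≠] τ) (𝓝[≠] (τ : ℂ)) :=
  tendsto_nhdsWithin_iff.2 ⟨(continuous_coe.tendsto τ).mono_left nhdsWithin_le_nhds,
    eventually_mem_nhdsWithin.mono fun _ h e => h (UpperHalfPlane.ext e)⟩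

/-! ### the cone over a projective variety -/

variable {X : Set (ℙ ℂ (Vec n))} {f : (X →₀ ℤ) →+ ℂ}

theorem lamX_eq {x : X} (h0 : v ≠ 0) (e : x.1 = Projectivization.mk ℂ v h0) :
    lamX X f v = f (Finsupp.single x 1) := by
  have h : ∃ h0 : v ≠ 0, Projectivization.mk ℂ v h0 ∈ X := ⟨h0, e ▸ x.2⟩
  rw [lamX, dif_pos h]
  congr 2
  exact Subtype.ext e.symm

theorem mk_smul {c : ℂ} (hc : c ≠ 0) (h0 : v ≠ 0) :
    Projectivization.mk ℂ (c • v) (smul_ne_zero hc h0) = Projectivization.mk ℂ v h0 :=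
  (Projectivization.mk_eq_mk_iff' ℂ _ _ _ _).2 ⟨c, rfl⟩

theorem mem_cone_iff {Z : Set (ℙ ℂ (Vec n))} (h0 : v ≠ 0) : v ∈ cone (zariskiClosure Z) ↔
    ∀ (P : MvPolynomial (Fin (n + 1)) ℂ) (d : ℕ), P.IsHomogeneous d →
      (∀ z ∈ Z, MvPolynomial.eval z.rep P = 0) → MvPolynomial.eval v P = 0 := by
  obtain ⟨a, ha⟩ := Projectivization.exists_smul_eq_mk_rep ℂ v h0
  refine ⟨fun h P d hP hZ => ?_, fun h _ P d hP hZ => ?_⟩
  · have := h h0 P d hP hZ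
    rw [← ha, Units.smul_def, LimP.eval_smul hP] at this
    exact (mul_eq_zero.1 this).resolve_left (pow_ne_zero _ a.ne_zero)
  · rw [← ha, Units.smul_def, LimP.eval_smul hP, h P d hP hZ, mul_zero]

theorem cone_cone (Z : Set (ℙ ℂ (Vec n))) (f : (zariskiClosure Z →₀ ℤ) →+ ℂ) :
    Cone (cone (zariskiClosure Z)) (lamX _ f) := by
  refine ⟨isClosed_iff_clusterPt.2 fun v hv h0 => ?_, fun c v hv h => ?_, fun c hc v => ?_⟩
  · refine (mem_cone_iff h0).2 (fun P d hP hZ => ?_) h0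
    have h1 : (𝓝 v ⊓ 𝓟 (cone (zariskiClosure Z))).NeBot := hv
    refine tendsto_nhds_unique (((MvPolynomial.continuous_eval P).tendsto v).mono_left
      (inf_le_left (b := 𝓟 (cone (zariskiClosure Z))))) (tendsto_const_nhds.congr' ?_)
    filter_upwards [mem_inf_of_left (isOpen_ne.mem_nhds h0),
      mem_inf_of_right (mem_principal_self _)] with w h1 h2
    exact ((mem_cone_iff h1).1 h2 P d hP hZ).symm
  · have h1 := smul_ne_zero_iff.1 h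
    rw [mk_smul h1.1 h1.2]
    exact hv _
  · by_cases h : ∃ h0 : v ≠ 0, Projectivization.mk ℂ v h0 ∈ zariskiClosure Z
    · obtain ⟨h0, h⟩ := h
      rw [lamX_eq (x := ⟨_, h⟩) h0 rfl,
        lamX_eq (x := ⟨_, h⟩) (smul_ne_zero hc h0) (mk_smul hc h0).symm]
    · rw [lamX, lamX, dif_neg h, dif_neg]
      rintro ⟨h0, h1⟩
      have h2 := (smul_ne_zero_iff.1 h0).2
      exact h ⟨h2, by rwa [mk_smul hc h2] at h1⟩

end

end Pool.Agent.P.MP_b8021b_nt.CM.O
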