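import Pool.Agent.P.MP_7ebcb6_ag.Defs

/-!
Orthogonal Shimura varieties of signature `(b, 2)`: the Hermitian domain, congruence subgroups,
modular forms, projective models and special zero-cycles.
-/

open scoped LinearAlgebra.Projectivization
open Pool.Agent.P.MP_7ebcb6_ag

namespace Pool.Agent.P.MP_b8021b_nt.CM

noncomputable section

variable {m b n : ℕ}

/-- The bilinear form with Gram matrix `S`, with coefficients in a ring `R`. -/
def bf {R : Type} [CommRing R] (S : Matrix (Fin m) (Fin m) ℤ) (x y : Fin m → R) : R :=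
  x ⬝ᵥ (S.map (Int.cast : ℤ → R)).mulVec y

/-- The isotropic complex vectors `z` with `(z, z̄) < 0`. -/
def negCone (S : Matrix (Fin m) (Fin m) ℤ) : Set (Fin m → ℂ) :=
  {z | bf S z z = 0 ∧ (bf S z (star z)).re < 0}

/-- The component of `z₀`: the affine cone over the Hermitian symmetric domain. -/
def dom (S : Matrix (Fin m) (Fin m) ℤ) (z₀ : Fin m → ℂ) : Set (Fin m → ℂ) :=
  connectedComponentIn (negCone S) z₀

/-- `g` is an integral isometry, congruent to `1` modulo `N`, that preserves the component. -/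
def InGam (S : Matrix (Fin m) (Fin m) ℤ) (z₀ : Fin m → ℂ) (N : ℕ)
    (g : Matrix (Fin m) (Fin m) ℤ) : Prop :=
  g.transpose * S * g = S ∧ g.map (Int.cast : ℤ → ZMod N) = 1 ∧
    (g.map (Int.cast : ℤ → ℂ)).mulVec z₀ ∈ dom S z₀

/-- A modular form of weight `k` and level `N`: holomorphic, homogeneous of degree `-k`,
invariant, and of moderate growth. -/
structure IsForm (S : Matrix (Fin m) (Fin m) ℤ) (z₀ : Fin m → ℂ) (N : ℕ) (k : ℤ)
    (F : (Fin m → ℂ) → ℂ) : Prop where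
  hol : AnalyticOn ℂ F (dom S z₀)
  hom : ∀ z ∈ dom S z₀, ∀ c : ℂ, c ≠ 0 → F (c • z) = c ^ (-k) * F z
  inv : ∀ g, InGam S z₀ N g → ∀ z ∈ dom S z₀, F ((g.map (Int.cast : ℤ → ℂ)).mulVec z) = F z
  gro : ∃ (C : ℝ) (r : ℕ), ∀ z ∈ dom S z₀, ‖z‖ = 1 → ‖F z‖ * |(bf S z (star z)).re| ^ r ≤ C

/-- The projective variety parametrised by `F`: the Zariski closure of the set of points
`(F₀ z : … : Fₙ z)`. -/
def oVar (S : Matrix (Fin m) (Fin m) ℤ) (z₀ : Fin m → ℂ) (F : Fin (n + 1) → (Fin m → ℂ) → ℂ) :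
    Set (ℙ ℂ (Fin (n + 1) → ℂ)) :=
  zariskiClosure {x | ∃ z ∈ dom S z₀, ∃ h : (fun i => F i z) ≠ 0, x = Projectivization.mk ℂ _ h}

/-- The columns of `x` have Gram matrix `T`, and `x` reduces to `μ`. -/
def OSpecial (S : Matrix (Fin m) (Fin m) ℤ) (N : ℕ) (T : Matrix (Fin b) (Fin b) ℤ)
    (μ : Matrix (Fin m) (Fin b) (ZMod N)) (x : Matrix (Fin m) (Fin b) ℤ) : Prop :=
  x.transpose * S * x = T ∧ x.map (Int.cast : ℤ → ZMod N) = μ

/-- `R` is a system of representatives for the orbits of such `x`, and `P x` is the point of the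
domain that is orthogonal to the columns of `x`. -/
def IsOSystem (S : Matrix (Fin m) (Fin m) ℤ) (z₀ : Fin m → ℂ) (N : ℕ)
    (T : Matrix (Fin b) (Fin b) ℤ) (μ : Matrix (Fin m) (Fin b) (ZMod N))
    (R : Finset (Matrix (Fin m) (Fin b) ℤ)) (P : Matrix (Fin m) (Fin b) ℤ → Fin m → ℂ) : Prop :=
  (∀ x ∈ R, OSpecial S N T μ x ∧ P x ∈ dom S z₀ ∧ ∀ i, bf S (fun r => (x r i : ℂ)) (P x) = 0) ∧
    ∀ x, OSpecial S N T μ x → ∃! y, y ∈ R ∧ ∃ g, InGam S z₀ N g ∧ x = g * y

end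

end Pool.Agent.P.MP_b8021b_nt.CM
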