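import Pool.Agent.P.MP_b8021b_nt.CM.OBas
import Pool.Agent.P.MP_b8021b_nt.CM.R1a

/-! The field of elliptic functions of a lattice and its places. -/

namespace Pool.Agent.P.MP_b8021b_nt.CM.O

open Filter Pool.Agent.P.MP_7ebcb6_ag WithZero R0P R1P
open scoped Topology WithZero IntermediateField Polynomial

noncomputable section

namespace OELP

/-- two fibres of `J` are rationally equivalent -/
theorem fibres {K : Type} [Field K] [Algebra ℂ K] {Q : Type} [Group Q] [Fintype Q]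
    (θ : Q →* (K ≃ₐ[ℂ] K)) {J : K} (hT : Transcendental ℂ J) (hfix : ∀ q, θ q J = J)
    (hK : ∀ x, (∀ q, θ q x = x) → x ∈ ℂ⟮J⟯) (F : Valuation K ℤᵐ⁰ → ℂ)
    (hF : ∀ g : K, g ≠ 0 → ∀ S : Finset (Valuation K ℤᵐ⁰), (∀ v ∈ S, IsPlace v) →
      (∀ v, IsPlace v → v ∉ S → ord v g = 0) → ∑ v ∈ S, (ord v g : ℂ) * F v = 0)
    {c : ℂ} {u w : Valuation K ℤᵐ⁰} (hu : IsPlace u) (hw : IsPlace w)
    (huc : u (J - algebraMap ℂ K c) < 1) (hwc : w (J⁻¹ - algebraMap ℂ K 0) < 1) :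
    ∑ q, F (pull u (θ q)) = ∑ q, F (pull w (θ q)) := by
  classical
  have hC := curve θ hT hK
  have hJ0 : J ≠ 0 := fun e => hT (e ▸ isAlgebraic_zero)
  have hT' : Transcendental ℂ J⁻¹ := fun e => hT (IsAlgebraic.inv_iff.1 e)
  have hfix' : ∀ r, θ r J⁻¹ = J⁻¹ := fun r => by rw [map_inv₀, hfix]
  have hK' : ∀ x, (∀ r, θ r x = x) → x ∈ ℂ⟮J⁻¹⟯ := fun x hx => by
    rw [adjoin_inv]
    exact hK x hx
  have hinv : ∀ v : Valuation K ℤᵐ⁰, v (J⁻¹ - algebraMap ℂ K 0) < 1 ↔ 1 < v J := fun v => by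
    rw [map_zero, sub_zero, map_inv₀, inv_lt_one₀ (zero_lt_iff.2 (by simpa using hJ0))]
  obtain ⟨Sc, hSc, -⟩ := hC.sum_ord_zeros (sub_transc hT c)
  obtain ⟨Si, hSi, -⟩ := hC.sum_ord_zeros (sub_transc hT' 0)
  have hg0 : J - algebraMap ℂ K c ≠ 0 := fun e => sub_transc hT c (e ▸ isAlgebraic_zero)
  have hdisj : Disjoint Sc Si := Finset.disjoint_left.2 fun v h1 h2 =>
    absurd (le_one_of_res ((hSc v).1 h1).1 ((hSc v).1 h1).2)
      (not_le.2 ((hinv v).1 ((hSi v).1 h2).2))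
  have h0 := hF _ hg0 (Sc ∪ Si)
    (fun v hv => (Finset.mem_union.1 hv).elim (fun h => ((hSc v).1 h).1) fun h => ((hSi v).1 h).1)
    (fun v hv hn => by
      rw [Finset.mem_union, not_or, hSc, hSi, hinv] at hn
      refine ord_eq_zero_of_eq_one (le_antisymm ?_ (not_lt.1 fun h => hn.1 ⟨hv, h⟩))
      exact Valuation.map_sub_le v (not_lt.1 fun h => hn.2 ⟨hv, h⟩) (hv.const_le_one c))
  rw [Finset.sum_union hdisj] at h0
  have e1 : ∑ v ∈ Sc, (ord v (J - algebraMap ℂ K c) : ℂ) * F v =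
      (ord u (J - algebraMap ℂ K c) : ℂ) * ∑ v ∈ Sc, F v := by
    rw [Finset.mul_sum]
    refine Finset.sum_congr rfl fun v hv => ?_
    obtain ⟨q, rfl⟩ := transitive θ hT hfix hK hu ((hSc v).1 hv).1 huc ((hSc v).1 hv).2
    simp only [ord, pull_J θ hfix]
  have e2 : ∑ v ∈ Si, (ord v (J - algebraMap ℂ K c) : ℂ) * F v =
      -(ord w (J⁻¹ - algebraMap ℂ K 0) : ℂ) * ∑ v ∈ Si, F v := by
    rw [Finset.mul_sum]
    refine Finset.sum_congr rfl fun v hv => ?_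
    obtain ⟨h1, h2⟩ := (hSi v).1 hv
    have e : v (J - algebraMap ℂ K c) = v J :=
      Valuation.map_sub_eq_of_lt_left v ((h1.const_le_one c).trans_lt ((hinv v).1 h2))
    obtain ⟨q, rfl⟩ := transitive θ hT' hfix' hK' hw h1 hwc h2
    have e' : ord (pull w (θ q)) (J - algebraMap ℂ K c) = -ord w (J⁻¹ - algebraMap ℂ K 0) := by
      rw [map_zero, sub_zero, ord_inv, neg_neg, ord, e, pull_apply, hfix, ord]
    rw [e', Int.cast_neg]
  have c1 := count θ hT hfix hK hu huc Sc hSc F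
  have c2 := count θ hT' hfix' hK' hw hwc Si hSi F
  rw [adjoin_inv] at c2
  have hn0 : (Module.finrank ℂ⟮J⟯ K : ℂ) ≠ 0 := by
    have := hC.finite hT
    exact_mod_cast (Module.finrank_pos (R := ℂ⟮J⟯) (M := K)).ne'
  refine mul_left_cancel₀ hn0 ?_
  rw [e1, e2] at h0
  linear_combination c1 - c2 + (Fintype.card Q : ℂ) * h0

theorem ev_iff {p : ℂ → Prop} : (∀ᶠ z in codiscrete ℂ, p z) ↔ ∀ w, ∀ᶠ z in 𝓝[≠] w, p z := by
  simp [codiscrete, Filter.Eventually, mem_codiscreteWithin_iff_forall_mem_nhdsNE]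

theorem ne_zero_of {f : ℂ → ℂ} (hf : Meromorphic f) (h : ¬ ∀ᶠ z in codiscrete ℂ, f z = 0) :
    ∀ᶠ z in codiscrete ℂ, f z ≠ 0 := by
  rw [ev_iff, not_forall] at h
  obtain ⟨x, hx⟩ := h
  refine ev_iff.2 fun w => (meromorphicOrderAt_ne_top_iff_eventually_ne_zero (hf w)).1 ?_
  exact (hf.meromorphicOn (s := Set.univ)).meromorphicOrderAt_ne_top_of_isPreconnected
    isPreconnected_univ (Set.mem_univ x) (Set.mem_univ w)
    (fun e => hx (meromorphicOrderAt_eq_top_iff.1 e))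

/-- multiplication by a sign -/
def sg (q : ℤˣ) (z : ℂ) : ℂ := ((q : ℤ) : ℂ) * z

theorem sg_sg (q r : ℤˣ) (z : ℂ) : sg q (sg r z) = sg (q * r) z := by
  simp [sg, mul_assoc]

theorem sg_one (z : ℂ) : sg 1 z = z := by simp [sg]

theorem sg_neg (z : ℂ) : sg (-1) z = -z := by simp [sg]

theorem sg_tendsto (q : ℤˣ) (w : ℂ) : Tendsto (sg q) (𝓝[≠] w) (𝓝[≠] (sg q w)) := by
  have hq : ((q : ℤ) : ℂ) ≠ 0 := by exact_mod_cast q.ne_zero
  refine tendsto_nhdsWithin_iff.2 ⟨?_, eventually_mem_nhdsWithin.mono fun z hz e =>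
    hz (mul_left_cancel₀ hq e)⟩
  exact ((continuous_const.mul continuous_id).tendsto w).mono_left nhdsWithin_le_nhds

theorem sg_cod (q : ℤˣ) {p : ℂ → Prop} (h : ∀ᶠ z in codiscrete ℂ, p z) :
    ∀ᶠ z in codiscrete ℂ, p (sg q z) :=
  ev_iff.2 fun w => (sg_tendsto q w).eventually (ev_iff.1 h _)

variable (L : PeriodPair)

/-- meromorphic functions that are periodic for the lattice -/
def RR : Subalgebra ℂ (ℂ → ℂ) where
  carrier := {f | Meromorphic f ∧ ∀ l ∈ L.lattice, ∀ z, f (z + l) = f z}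
  mul_mem' := fun ha hb => ⟨ha.1.mul hb.1, fun l hl z => by
    simp only [Pi.mul_apply, ha.2 l hl, hb.2 l hl]⟩
  add_mem' := fun ha hb => ⟨ha.1.add hb.1, fun l hl z => by
    simp only [Pi.add_apply, ha.2 l hl, hb.2 l hl]⟩
  algebraMap_mem' := fun c => ⟨Meromorphic.const c, fun _ _ _ => rfl⟩

/-- functions that vanish outside a discrete set -/
def II : Ideal (RR L) where
  carrier := {f | ∀ᶠ z in codiscrete ℂ, f.1 z = 0}
  add_mem' := fun {a b} ha hb => by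
    change ∀ᶠ z in codiscrete ℂ, a.1 z + b.1 z = 0
    filter_upwards [ha, hb] with z h1 h2
    rw [h1, h2, add_zero]
  zero_mem' := by
    change ∀ᶠ z in codiscrete ℂ, (0 : ℂ) = 0
    exact Eventually.of_forall fun _ => rfl
  smul_mem' := fun c x hx => by
    change ∀ᶠ z in codiscrete ℂ, c.1 z * x.1 z = 0
    filter_upwards [hx] with z h
    rw [h, mul_zero]

variable {L}

theorem mem_II {f : RR L} : f ∈ II L ↔ ∀ᶠ z in codiscrete ℂ, f.1 z = 0 := Iff.rfl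

/-- the pointwise inverse -/
def inv (f : RR L) : RR L := ⟨f.1⁻¹, f.2.1.inv, fun l hl z => by
  simp only [Pi.inv_apply, f.2.2 l hl]⟩

theorem mul_inv_mem {f : RR L} (h : f ∉ II L) : f * inv f - 1 ∈ II L := by
  filter_upwards [ne_zero_of f.2.1 h] with z hz
  change f.1 z * (f.1 z)⁻¹ - 1 = 0
  rw [mul_inv_cancel₀ hz, sub_self]

instance : (II L).IsMaximal := by
  refine Ideal.isMaximal_iff.2 ⟨fun h => ?_, fun J x hJ hx hxJ => ?_⟩
  · obtain ⟨z, hz⟩ := (ev_iff.1 (mem_II.1 h) 0).exists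
    exact one_ne_zero (α := ℂ) hz
  · have := J.sub_mem (J.mul_mem_right (inv x) hxJ) (hJ (mul_inv_mem hx))
    rwa [sub_sub_cancel] at this

/-- the field of elliptic functions -/
abbrev KE (L : PeriodPair) : Type := RR L ⧸ II L

instance : Field (KE L) := Ideal.Quotient.field _

/-- the class of a function -/
def mk : RR L →ₐ[ℂ] KE L := Ideal.Quotient.mkₐ ℂ (II L)

theorem mk_surj (x : KE L) : ∃ f, mk f = x := Ideal.Quotient.mkₐ_surjective ℂ _ x

theorem mk_eq_zero {f : RR L} : mk f = 0 ↔ ∀ᶠ z in codiscrete ℂ, f.1 z = 0 :=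
  Ideal.Quotient.eq_zero_iff_mem

theorem mk_eq {f g : RR L} : mk f = mk g ↔ ∀ᶠ z in codiscrete ℂ, f.1 z = g.1 z := by
  rw [← sub_eq_zero, ← map_sub, mk_eq_zero]
  exact eventually_congr (Eventually.of_forall fun z => sub_eq_zero (a := f.1 z) (b := g.1 z))

theorem mk_inv (f : RR L) : mk (inv f) = (mk f)⁻¹ := by
  by_cases h : f ∈ II L
  · rw [mk_eq_zero.2 h, inv_zero, mk_eq_zero]
    filter_upwards [h] with z hz
    change (f.1 z)⁻¹ = 0
    rw [hz, inv_zero]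
  · have := mk_eq_zero.2 (mul_inv_mem h)
    rw [map_sub, map_mul, map_one, sub_eq_zero] at this
    exact eq_inv_of_mul_eq_one_right this

/-- composition with a sign -/
def cs (q : ℤˣ) : RR L →ₐ[ℂ] RR L where
  toFun f := ⟨fun z => f.1 (sg q z), fun x => by
    have : AnalyticAt ℂ (sg q) x := analyticAt_const.mul analyticAt_id
    exact (f.2.1 _).comp_analyticAt this, fun l hl z => by
    have := L.lattice.smul_mem (q : ℤ) hl
    rw [zsmul_eq_mul] at this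
    simp only [sg, mul_add, f.2.2 _ this]⟩
  map_one' := rfl
  map_mul' _ _ := rfl
  map_zero' := rfl
  map_add' _ _ := rfl
  commutes' _ := rfl

/-- the induced map on the field -/
def ck (q : ℤˣ) : KE L →ₐ[ℂ] KE L :=
  Ideal.Quotient.liftₐ (II L) (mk.comp (cs q)) fun _ hf => mk_eq_zero.2 (sg_cod q hf)

theorem ck_mk (q : ℤˣ) (f : RR L) : ck q (mk f) = mk (cs q f) := rfl

theorem ck_ck (q r : ℤˣ) (x : KE L) : ck q (ck r x) = ck (q * r) x := by
  obtain ⟨f, rfl⟩ := mk_surj x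
  rw [ck_mk, ck_mk, ck_mk]
  congr 1
  ext z
  change f.1 (sg r (sg q z)) = f.1 (sg (q * r) z)
  rw [sg_sg, mul_comm]

theorem ck_one (x : KE L) : ck 1 x = x := by
  obtain ⟨f, rfl⟩ := mk_surj x
  rw [ck_mk]
  congr 1
  ext z
  change f.1 (sg 1 z) = f.1 z
  rw [sg_one]

/-- the action of the signs -/
def th (L : PeriodPair) : ℤˣ →* (KE L ≃ₐ[ℂ] KE L) where
  toFun q := AlgEquiv.ofAlgHom (ck q) (ck q⁻¹)
    (AlgHom.ext fun x => by rw [AlgHom.comp_apply, ck_ck, mul_inv_cancel, ck_one]; rfl)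
    (AlgHom.ext fun x => by rw [AlgHom.comp_apply, ck_ck, inv_mul_cancel, ck_one]; rfl)
  map_one' := AlgEquiv.ext fun x => ck_one x
  map_mul' q r := AlgEquiv.ext fun x => (ck_ck q r x).symm

theorem th_mk (q : ℤˣ) (f : RR L) : th L q (mk f) = mk (cs q f) := rfl

/-- the Weierstrass function -/
def wp (L : PeriodPair) : RR L :=
  ⟨L.weierstrassP, L.meromorphic_weierstrassP, fun l hl z => L.weierstrassP_add_coe z ⟨l, hl⟩⟩

theorem wp_fix (q : ℤˣ) : th L q (mk (wp L)) = mk (wp L) := by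
  rw [th_mk]
  congr 1
  ext z
  change L.weierstrassP (sg q z) = L.weierstrassP z
  rcases Int.units_eq_one_or q with rfl | rfl
  · rw [sg_one]
  · rw [sg_neg, L.weierstrassP_neg]

theorem wp_cob {l : ℂ} (hl : l ∈ L.lattice) :
    Tendsto L.weierstrassP (𝓝[≠] l) (Bornology.cobounded ℂ) := by
  refine tendsto_cobounded_of_meromorphicOrderAt_neg ?_
  rw [L.order_weierstrassP l hl]
  decide

theorem wp_transc : Transcendental ℂ (mk (wp L)) := by
  refine transcendental_of_notMem_range fun c hc => ?_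
  rw [← mk.commutes, mk_eq] at hc
  have h1 : Tendsto L.weierstrassP (𝓝[≠] 0) (𝓝 c) :=
    tendsto_const_nhds.congr' ((ev_iff.1 hc 0).mono fun z hz => hz.symm)
  exact h1.not_tendsto (Metric.disjoint_nhds_cobounded c) (wp_cob L.lattice.zero_mem)

theorem aeval_wp (P : ℂ[X]) (z : ℂ) :
    (Polynomial.aeval (wp L) P).1 z = P.eval (L.weierstrassP z) := by
  have := Polynomial.aeval_algHom_apply ((Pi.evalAlgHom ℂ (fun _ : ℂ => ℂ) z).comp (RR L).val)
    (wp L) P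
  rw [Polynomial.coe_aeval_eq_eval] at this
  exact this.symm

theorem fixed (hE : S_Even) (x : KE L) (hx : ∀ q, th L q x = x) : x ∈ ℂ⟮mk (wp L)⟯ := by
  obtain ⟨f, rfl⟩ := mk_surj x
  have h1 := hx (-1)
  rw [th_mk, mk_eq] at h1
  obtain ⟨P, Q, hQ, h⟩ := (hE L).2 f.1 f.2.1
    (fun l hl => Eventually.of_forall (f.2.2 l hl)) (h1.mono fun z hz => by
      rw [← sg_neg]; exact hz)
  have h2 : mk (f * Polynomial.aeval (wp L) Q) = mk (Polynomial.aeval (wp L) P) :=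
    mk_eq.2 (h.mono fun z hz => by
      rw [aeval_wp, ← hz, ← aeval_wp]; rfl)
  rw [map_mul, ← Polynomial.aeval_algHom_apply, ← Polynomial.aeval_algHom_apply] at h2
  have h3 : Polynomial.aeval (mk (wp L)) Q ≠ 0 := fun e => wp_transc ⟨Q, hQ, e⟩
  exact (IntermediateField.mem_adjoin_simple_iff ℂ _).2 ⟨P, Q, eq_div_of_mul_eq h3 h2⟩

/-- the place `v` lies at the point `w` -/
def Link (w : ℂ) (v : Valuation (KE L) ℤᵐ⁰) : Prop :=
  IsPlace v ∧ ∀ f : RR L, Tendsto f.1 (𝓝[≠] w) (𝓝 0) → v (mk f) < 1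

/-- the functions with a limit at `w` -/
def OO (L : PeriodPair) (w : ℂ) : ValuationSubring (KE L) where
  carrier := {x | ∃ f : RR L, mk f = x ∧ ∃ c, Tendsto f.1 (𝓝[≠] w) (𝓝 c)}
  mul_mem' := by
    rintro _ _ ⟨f, rfl, a, ha⟩ ⟨g, rfl, b, hb⟩
    exact ⟨f * g, map_mul _ _ _, a * b, ha.mul hb⟩
  add_mem' := by
    rintro _ _ ⟨f, rfl, a, ha⟩ ⟨g, rfl, b, hb⟩
    exact ⟨f + g, map_add _ _ _, a + b, ha.add hb⟩
  one_mem' := ⟨1, map_one _, 1, tendsto_const_nhds⟩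
  zero_mem' := ⟨0, map_zero _, 0, tendsto_const_nhds⟩
  neg_mem' := by
    rintro _ ⟨f, rfl, a, ha⟩
    exact ⟨-f, map_neg _ _, -a, ha.neg⟩
  mem_or_inv_mem' x := by
    obtain ⟨f, rfl⟩ := mk_surj x
    rcases le_or_gt 0 (meromorphicOrderAt f.1 w) with h | h
    · exact Or.inl ⟨f, rfl, tendsto_nhds_of_meromorphicOrderAt_nonneg (f.2.1 w) h⟩
    · exact Or.inr ⟨inv f, mk_inv f, 0,
        tendsto_inv₀_cobounded.comp (tendsto_cobounded_of_meromorphicOrderAt_neg h)⟩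

theorem inv_notMem {w : ℂ} {f : RR L} (h0 : mk f ≠ 0) (h : Tendsto f.1 (𝓝[≠] w) (𝓝 0)) :
    (mk f)⁻¹ ∉ OO L w := by
  rintro ⟨g, hg, c, hc⟩
  have h1 : mk (f * g) = mk 1 := by rw [map_mul, hg, mul_inv_cancel₀ h0, map_one]
  have h2 := h.mul hc
  rw [zero_mul] at h2
  exact zero_ne_one (tendsto_nhds_unique (h2.congr' (ev_iff.1 (mk_eq.1 h1) w))
    (tendsto_const_nhds (x := (1 : ℂ))))

theorem wp_sub {w : ℂ} (hw : w ∉ L.lattice) :
    Tendsto (wp L - algebraMap ℂ (RR L) (L.weierstrassP w)).1 (𝓝[≠] w) (𝓝 0) := by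
  have := ((L.analyticOnNhd_weierstrassP w hw).continuousAt.tendsto.sub_const
    (L.weierstrassP w)).mono_left (nhdsWithin_le_nhds (s := {w}ᶜ))
  rw [sub_self] at this
  exact this

theorem wp_inv {w : ℂ} (hw : w ∈ L.lattice) : Tendsto (inv (wp L)).1 (𝓝[≠] w) (𝓝 0) :=
  tendsto_inv₀_cobounded.comp (wp_cob hw)

theorem exists_link (hC : IsCurveField (KE L)) (w : ℂ) :
    ∃ v : Valuation (KE L) ℤᵐ⁰, Link w v := by
  obtain ⟨f, h0, hf⟩ : ∃ f : RR L, mk f ≠ 0 ∧ Tendsto f.1 (𝓝[≠] w) (𝓝 0) := by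
    by_cases hw : w ∈ L.lattice
    · refine ⟨_, ?_, wp_inv hw⟩
      rw [mk_inv]
      exact inv_ne_zero fun e => wp_transc (e ▸ isAlgebraic_zero)
    · refine ⟨_, fun e => ?_, wp_sub hw⟩
      rw [map_sub, mk.commutes] at e
      exact sub_transc wp_transc _ (e ▸ isAlgebraic_zero)
  obtain ⟨v, hv, e⟩ := hC.exists_place (OO L w)
    (fun c => ⟨algebraMap ℂ _ c, mk.commutes c, c, tendsto_const_nhds⟩)
    (fun h => inv_notMem h0 hf (h ▸ ValuationSubring.mem_top _))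
  refine ⟨v, hv, fun g hg => ?_⟩
  by_contra h
  rw [not_lt] at h
  have hg0 : mk g ≠ 0 := fun e => by simp [e] at h
  refine inv_notMem hg0 hg ?_
  rw [← e, Valuation.mem_valuationSubring_iff, map_inv₀]
  exact inv_le_one_of_one_le₀ h

theorem Link.pull {w : ℂ} {v : Valuation (KE L) ℤᵐ⁰} (h : Link w v) (q : ℤˣ) :
    Link (sg q w) (pull v (th L q)) :=
  ⟨place_pull h.1 _, fun f hf => h.2 (cs q f) (hf.comp (sg_tendsto q w))⟩

theorem Link.add {w l : ℂ} {v : Valuation (KE L) ℤᵐ⁰} (h : Link w v) (hl : l ∈ L.lattice) :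
    Link (w + l) v := by
  refine ⟨h.1, fun f hf => h.2 f ?_⟩
  have h1 : Tendsto (fun z => z + l) (𝓝[≠] w) (𝓝[≠] (w + l)) :=
    tendsto_nhdsWithin_iff.2 ⟨((continuous_add_const l).tendsto w).mono_left nhdsWithin_le_nhds,
      eventually_mem_nhdsWithin.mono fun z hz e => hz (add_right_cancel e)⟩
  exact (hf.comp h1).congr fun z => f.2.2 l hl z

theorem Link.res {w : ℂ} {v : Valuation (KE L) ℤᵐ⁰} (h : Link w v) (hw : w ∉ L.lattice) :
    v (mk (wp L) - algebraMap ℂ _ (L.weierstrassP w)) < 1 := by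
  have := h.2 _ (wp_sub hw)
  rwa [map_sub, mk.commutes] at this

theorem Link.res' {w : ℂ} {v : Valuation (KE L) ℤᵐ⁰} (h : Link w v) (hw : w ∈ L.lattice) :
    v ((mk (wp L))⁻¹ - algebraMap ℂ _ 0) < 1 := by
  have := h.2 _ (wp_inv hw)
  rwa [map_zero, sub_zero, ← mk_inv]

theorem all_link (hE : S_Even) {v : Valuation (KE L) ℤᵐ⁰} (hv : IsPlace v) : ∃ w, Link w v := by
  have hC := curve (th L) wp_transc (fixed hE)
  by_cases e : v (mk (wp L)) ≤ 1
  · obtain ⟨c, hc⟩ := hC.exists_residue hv _ e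
    obtain ⟨z, hz, rfl⟩ := (hE L).1 c
    obtain ⟨u, hu⟩ := exists_link hC z
    obtain ⟨q, rfl⟩ := transitive (th L) wp_transc wp_fix (fixed hE) hu.1 hv (hu.res hz) hc
    exact ⟨_, hu.pull q⟩
  · obtain ⟨u, hu⟩ := exists_link hC 0
    have hJ0 : mk (wp L) ≠ 0 := fun e => wp_transc (e ▸ isAlgebraic_zero)
    obtain ⟨q, rfl⟩ := transitive (th L) (J := (mk (wp L))⁻¹)
      (fun e => wp_transc (IsAlgebraic.inv_iff.1 e)) (fun r => by rw [map_inv₀, wp_fix])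
      (fun x hx => by rw [adjoin_inv]; exact fixed hE x hx) hu.1 hv (hu.res' L.lattice.zero_mem)
      (by
        rw [map_zero, sub_zero, map_inv₀, inv_lt_one₀ (zero_lt_iff.2 (by simpa using hJ0))]
        exact not_le.1 e)
    exact ⟨_, hu.pull q⟩

end OELP

end

end Pool.Agent.P.MP_b8021b_nt.CM.O
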