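import Pool.Agent.P.MP_b8021b_nt.CM.OFr

/-! The frame attached to a special cycle. -/

namespace Pool.Agent.P.MP_b8021b_nt.CM.O

open Complex hiding Gamma
open UpperHalfPlane hiding I
open Matrix
open scoped MatrixGroups

noncomputable section

namespace OFibP

variable {m b : ℕ} {S : ZM m}

section ring
variable {R : Type} [CommRing R]

/-- the columns -/
def col (R : Type) [CommRing R] (x : Matrix (Fin m) (Fin b) ℤ) (i : Fin b) : Fin m → R :=
  fun r => (x r i : R)

/-- combinations of the columns -/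
def xr (x : Matrix (Fin m) (Fin b) ℤ) (a : Fin b → R) : Fin m → R :=
  (x.map (Int.cast : ℤ → R)).mulVec a

theorem xr_eq_sum (x : Matrix (Fin m) (Fin b) ℤ) (a : Fin b → R) :
    xr x a = ∑ i, a i • col R x i := by
  ext r
  simp [xr, col, mulVec, dotProduct, Finset.sum_apply, mul_comm]

theorem xr_add (x : Matrix (Fin m) (Fin b) ℤ) (a a' : Fin b → R) :
    xr x (a + a') = xr x a + xr x a' := mulVec_add _ _ _

theorem xr_smul (x : Matrix (Fin m) (Fin b) ℤ) (c : R) (a : Fin b → R) :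
    xr x (c • a) = c • xr x a := mulVec_smul _ _ _

theorem xr_zero (x : Matrix (Fin m) (Fin b) ℤ) : xr x (0 : Fin b → R) = 0 := mulVec_zero _

theorem bf_col_col (x : Matrix (Fin m) (Fin b) ℤ) (i l : Fin b) :
    bf S (col R x i) (col R x l) = ((x.transpose * S * x) i l : R) := by
  rw [gram_apply]
  exact bf_map (Int.castRingHom R) (fun r => x r i) fun r => x r l

theorem bf_xr_left (x : Matrix (Fin m) (Fin b) ℤ) (a : Fin b → R) (y : Fin m → R) :
    bf S (xr x a) y = a ⬝ᵥ fun i => bf S (col R x i) y := by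
  rw [xr_eq_sum, bf_eq, sum_dotProduct]
  simp [bf_eq, dotProduct, Finset.mul_sum, mul_assoc]

theorem bf_col_xr (x : Matrix (Fin m) (Fin b) ℤ) (a : Fin b → R) (i : Fin b) :
    bf S (col R x i) (xr x a) = mv (x.transpose * S * x) a i := by
  have h : ∀ s : Finset (Fin b), bf S (col R x i) (∑ l ∈ s, a l • col R x l) =
      ∑ l ∈ s, a l * bf S (col R x i) (col R x l) := by
    intro s
    induction s using Finset.induction_on with
    | empty => simp [bf_zero_right]
    | insert l s hl ih => rw [Finset.sum_insert hl, Finset.sum_insert hl, bf_add_right, ih,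
        bf_smul_right]
  rw [xr_eq_sum, h]
  simp only [bf_col_col, mv, mulVec, dotProduct, Matrix.map_apply, mul_comm]

end ring

section field
variable {K : Type} [Field K] [CharZero K]

theorem mv_inj {T : ZM b} (hT : T.det ≠ 0) {a : Fin b → K} (h : mv T a = 0) : a = 0 := by
  refine Matrix.eq_zero_of_mulVec_eq_zero ?_ h
  have := RingHom.map_det (Int.castRingHom K) T
  rw [RingHom.mapMatrix_apply] at this
  change ((T.det : ℤ) : K) = (T.map (Int.cast : ℤ → K)).det at this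
  rw [← this]
  exact_mod_cast hT

/-- the columns and two further vectors span the space -/
theorem exists_dec2 {S : ZM (b + 2)} (x : Matrix (Fin (b + 2)) (Fin b) ℤ)
    (hT : (x.transpose * S * x).det ≠ 0) (p q : Fin (b + 2) → K)
    (hp : ∀ i, bf S (col K x i) p = 0) (hq : ∀ i, bf S (col K x i) q = 0)
    (hpq : ∀ s t : K, s • p + t • q = 0 → s = 0 ∧ t = 0) (y : Fin (b + 2) → K) :
    ∃ (a : Fin b → K) (s t : K), y = xr x a + s • p + t • q := by
  let φ : ((Fin b → K) × K × K) →ₗ[K] (Fin (b + 2) → K) :=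
    { toFun := fun v => xr x v.1 + v.2.1 • p + v.2.2 • q
      map_add' := fun v w => by
        simp only [Prod.fst_add, Prod.snd_add, xr_add]; module
      map_smul' := fun c v => by
        simp only [Prod.smul_fst, Prod.smul_snd, xr_smul, RingHom.id_apply, smul_eq_mul]; module }
  have hinj : Function.Injective φ := by
    rw [injective_iff_map_eq_zero]
    rintro ⟨a, s, t⟩ h
    change xr x a + s • p + t • q = 0 at h
    have ha : a = 0 := by
      refine mv_inj hT (funext fun i => ?_)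
      have := congrArg (bf S (col K x i)) h
      rwa [bf_add_right, bf_add_right, bf_smul_right, bf_smul_right, hp, hq, bf_col_xr,
        bf_zero_right, mul_zero, mul_zero, add_zero, add_zero] at this
    rw [ha, xr_zero, zero_add] at h
    obtain ⟨hs, ht⟩ := hpq s t h
    rw [ha, hs, ht]; rfl
  have hsur := (LinearMap.injective_iff_surjective_of_finrank_eq_finrank (f := φ)
    (by simp [Module.finrank_prod])).1 hinj
  obtain ⟨⟨a, s, t⟩, h⟩ := hsur y
  exact ⟨a, s, t, h.symm⟩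

theorem dec_perp {S : ZM (b + 2)} (x : Matrix (Fin (b + 2)) (Fin b) ℤ)
    (hT : (x.transpose * S * x).det ≠ 0) (p q : Fin (b + 2) → K)
    (hp : ∀ i, bf S (col K x i) p = 0) (hq : ∀ i, bf S (col K x i) q = 0)
    (hpq : ∀ s t : K, s • p + t • q = 0 → s = 0 ∧ t = 0) (y : Fin (b + 2) → K)
    (hy : ∀ i, bf S (col K x i) y = 0) : ∃ s t : K, y = s • p + t • q := by
  obtain ⟨a, s, t, h⟩ := exists_dec2 x hT p q hp hq hpq y
  have ha : a = 0 := by
    refine mv_inj hT (funext fun i => ?_)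
    have := hy i
    rwa [h, bf_add_right, bf_add_right, bf_smul_right, bf_smul_right, hp, hq, bf_col_xr,
      mul_zero, mul_zero, add_zero, add_zero] at this
  exact ⟨s, t, by rw [h, ha, xr_zero, zero_add]⟩

end field

/-- the orthogonal complement of the columns is negative definite -/
theorem neg_def {S : ZM (b + 2)} (hS : S.IsSymm) (x : Matrix (Fin (b + 2)) (Fin b) ℤ)
    (hT : (x.transpose * S * x).det ≠ 0) {z : CW (b + 2)} (hz : z ∈ negCone S) (ho : Orth S x z)
    (w : QV (b + 2)) (hw : ∀ i, bf S (col ℚ x i) w = 0) (h0 : w ≠ 0) : bf S w w < 0 := by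
  have hcol : ∀ i, col ℂ x i = cC (col ℚ x i) := fun i => funext fun r => by simp [col, cC]
  have hs : ∀ i, bf S (col ℂ x i) (star z) = 0 := fun i => by
    have : bf S (star (col ℂ x i)) (star z) = 0 := by
      rw [bf_star, show bf S (col ℂ x i) z = 0 from ho i, star_zero]
    rwa [hcol, star_cC, ← hcol] at this
  have h1 : bf S z z = 0 := hz.1
  have h2 : bf S (star z) (star z) = 0 := by rw [bf_star, h1, star_zero]
  have h3 : bf S z (star z) ≠ 0 := fun h => by
    have := hz.2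
    rw [h] at this
    simp at this
  have h4 : bf S (star z) z = bf S z (star z) := bf_comm hS _ _
  have hpq : ∀ s t : ℂ, s • z + t • star z = 0 → s = 0 ∧ t = 0 := fun s t h => by
    have e1 := congrArg (bf S z) h
    have e2 := congrArg (bf S (star z)) h
    rw [bf_add_right, bf_smul_right, bf_smul_right, bf_zero_right] at e1 e2
    rw [h1, mul_zero, zero_add] at e1
    rw [h2, h4, mul_zero, add_zero] at e2
    exact ⟨(mul_eq_zero.1 e2).resolve_right h3, (mul_eq_zero.1 e1).resolve_right h3⟩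
  obtain ⟨s, t, h⟩ := dec_perp x hT z (star z) ho hs hpq (cC w) fun i => by
    rw [hcol, bf_cC, hw]; simp
  have hst : t = star s := by
    have e : star (cC w) = star (s • z + t • star z) := congrArg star h
    rw [star_cC, h, star_add, star_smul, star_smul, star_star] at e
    have := hpq (s - star t) (t - star s) (by linear_combination (norm := module) e)
    exact sub_eq_zero.1 this.2
  have hs0 : s ≠ 0 := by
    rintro rfl
    apply h0
    apply cC_injective
    rw [h, hst]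
    ext i
    simp [cC]
  have e : ((bf S w w : ℚ) : ℂ) = 2 * (s * star s) * bf S z (star z) := by
    rw [← bf_cC, h, hst]
    simp only [bf_add_left, bf_add_right, bf_smul_left, bf_smul_right, h1, h2, h4]
    ring
  have e' := congrArg Complex.re e
  rw [show s * star s = (normSq s : ℂ) from Complex.mul_conj s] at e'
  have hn : 0 < normSq s := normSq_pos.2 hs0
  have e2 : ((bf S w w : ℚ) : ℝ) = 2 * normSq s * (bf S z (star z)).re := by
    simpa using e'
  have : ((bf S w w : ℚ) : ℝ) < 0 := by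
    rw [e2]
    exact mul_neg_of_pos_of_neg (by positivity) hz.2
  exact_mod_cast this

theorem exists_perp {S : ZM (b + 2)} (x : Matrix (Fin (b + 2)) (Fin b) ℤ) (v : QV (b + 2)) :
    ∃ w : QV (b + 2), w ≠ 0 ∧ (∀ i, bf S (col ℚ x i) w = 0) ∧ bf S v w = 0 := by
  let φ : QV (b + 2) →ₗ[ℚ] ((Fin b → ℚ) × ℚ) :=
    { toFun := fun y => (fun i => bf S (col ℚ x i) y, bf S v y)
      map_add' := fun y y' => by ext <;> simp [bf_add_right]
      map_smul' := fun c y => by ext <;> simp [bf_smul_right] }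
  obtain ⟨w, hw, h0⟩ := Submodule.exists_mem_ne_zero_of_ne_bot
    (φ.ker_ne_bot_of_finrank_lt (by simp [Module.finrank_prod]))
  have h : φ w = 0 := hw
  exact ⟨w, h0, fun i => congrFun (congrArg Prod.fst h) i, congrArg Prod.snd h⟩

/-- the image of a frame -/
def fmap (g : QV m ≃ₗ[ℚ] QV m) (j : Fr m) : Fr m := ⟨g j.a, g j.b, g j.c, g j.d⟩

theorem ap_fmap (g : QV m ≃ₗ[ℚ] QV m) (j : Fr m) (Y : M2) : (fmap g j).ap Y = g (j.ap Y) := by
  simp [fmap, Fr.ap]

theorem ok_fmap (hS : S.IsSymm) {g : QV m ≃ₗ[ℚ] QV m} (hg : ∀ x y, bf S (g x) (g y) = bf S x y)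
    {j : Fr m} (hj : Ok S j) : Ok S (fmap g j) :=
  ok_of_bil fun Y Z => by rw [ap_fmap, ap_fmap, hg, bf_ap hS hj]

theorem base {S : ZM (b + 2)} (hS : S.IsSymm) (hE : S_Ext) {j0 : Fr (b + 2)} (hj0 : Ok S j0)
    (x : Matrix (Fin (b + 2)) (Fin b) ℤ) (hT : (x.transpose * S * x).det ≠ 0) {z : CW (b + 2)}
    (hz : z ∈ negCone S) (ho : Orth S x z) : ∃ a1 a2 α β n1 n2,
      FD (x.transpose * S * x) a1 a2 α β n1 n2 ∧ ∃ j, Ok S j ∧
        ∀ y, (∀ i, bf S (kk a1 a2 α β x i) y = 0) ↔ ∃ Y, y = j.ap Y := by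
  obtain ⟨w1, h1, p1, -⟩ := exists_perp (S := S) x 0
  obtain ⟨w2, h2, p2, p12⟩ := exists_perp (S := S) x w1
  have q1 := neg_def hS x hT hz ho w1 p1 h1
  have q2 := neg_def hS x hT hz ho w2 p2 h2
  have p21 : bf S w2 w1 = 0 := (bf_comm hS _ _).trans p12
  obtain ⟨n1, hn1⟩ : ∃ n1 : ℚ, bf S w1 w1 = -(2 * n1) := ⟨-bf S w1 w1 / 2, by ring⟩
  obtain ⟨n2, hn2⟩ : ∃ n2 : ℚ, bf S w2 w2 = -(2 * n2) := ⟨-bf S w2 w2 / 2, by ring⟩
  have hp1 : 0 < n1 := by linarith
  have hp2 : 0 < n2 := by linarith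
  obtain ⟨g, hg, hgu⟩ := hE (b + 2) S hS 2 ![j0.ap !![1, 0; 0, -n1], j0.ap !![0, n2; 1, 0]]
    ![w1, w2] (by
      intro i l
      fin_cases i <;> fin_cases l <;> simp [bf_ap hS hj0, bil, hn1, hn2, p12, p21] <;> ring)
    (by
      rw [Matrix.det_fin_two]
      simp [bf_ap hS hj0, bil]
      constructor <;> linarith)
  have hj : Ok S (fmap g j0) := ok_fmap hS hg hj0
  set j := fmap g j0 with hjdef
  have e1 : w1 = j.ap !![1, 0; 0, -n1] := by rw [ap_fmap]; exact (hgu 0).symm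
  have e2 : w2 = j.ap !![0, n2; 1, 0] := by rw [ap_fmap]; exact (hgu 1).symm
  have hpq : ∀ s t : ℚ, s • w1 + t • w2 = 0 → s = 0 ∧ t = 0 := fun s t h => by
    have f1 := congrArg (bf S w1) h
    have f2 := congrArg (bf S w2) h
    rw [bf_add_right, bf_smul_right, bf_smul_right, bf_zero_right] at f1 f2
    rw [p12, mul_zero, add_zero] at f1
    rw [p21, mul_zero, zero_add] at f2
    exact ⟨(mul_eq_zero.1 f1).resolve_right q1.ne, (mul_eq_zero.1 f2).resolve_right q2.ne⟩
  have hx : ∀ (a : QV b) (w : QV (b + 2)), (∀ i, bf S (col ℚ x i) w = 0) →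
      bf S (xr x a) w = 0 := fun a w hw => by
    rw [bf_xr_left]; simp [hw, dotProduct]
  have key : ∀ y, bf S y w1 = 0 → bf S y w2 = 0 → ∃ a, y = xr x a := fun y r1 r2 => by
    obtain ⟨a, s, t, h⟩ := exists_dec2 x hT w1 w2 p1 p2 hpq y
    rw [h, bf_add_left, bf_add_left, bf_smul_left, bf_smul_left] at r1 r2
    rw [hx a w1 p1, p21, mul_zero, add_zero, zero_add] at r1
    rw [hx a w2 p2, p12, mul_zero, add_zero, zero_add] at r2
    refine ⟨a, ?_⟩
    rw [h, (mul_eq_zero.1 r1).resolve_right q1.ne, (mul_eq_zero.1 r2).resolve_right q2.ne]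
    simp
  obtain ⟨a1, ha1⟩ := key (j.ap !![1, 0; 0, n1]) (by rw [e1, bf_ap hS hj]; simp [bil])
    (by rw [e2, bf_ap hS hj]; simp [bil])
  obtain ⟨a2, ha2⟩ := key (j.ap !![0, -n2; 1, 0]) (by rw [e1, bf_ap hS hj]; simp [bil])
    (by rw [e2, bf_ap hS hj]; simp [bil])
  set T := x.transpose * S * x with hTdef
  have hxx : ∀ a a' : QV b, bf S (xr x a) (xr x a') = mv T a' ⬝ᵥ a := fun a a' => by
    rw [bf_xr_left, dotProduct_comm]
    simp only [bf_col_xr]
    rfl
  have t11 : mv T a1 ⬝ᵥ a1 = 2 * n1 := by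
    rw [← hxx, ← ha1, bf_ap hS hj]; simp [bil]; ring
  have t12 : mv T a1 ⬝ᵥ a2 = 0 := by
    rw [← hxx, ← ha1, ← ha2, bf_ap hS hj]; simp [bil]
  have t21 : mv T a2 ⬝ᵥ a1 = 0 := by
    rw [← hxx, ← ha1, ← ha2, bf_ap hS hj]; simp [bil]
  have t22 : mv T a2 ⬝ᵥ a2 = 2 * n2 := by
    rw [← hxx, ← ha2, bf_ap hS hj]; simp [bil]; ring
  have u1 : (2 * n1 : ℚ) ≠ 0 := by positivity
  have u2 : (2 * n2 : ℚ) ≠ 0 := by positivity
  refine ⟨a1, a2, (2 * n1)⁻¹ • mv T a1, (2 * n2)⁻¹ • mv T a2, n1, n2,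
    ⟨hp1, hp2, by rw [smul_smul, mul_inv_cancel₀ u1, one_smul],
      by rw [smul_smul, mul_inv_cancel₀ u2, one_smul],
      by rw [smul_dotProduct, t11, smul_eq_mul, inv_mul_cancel₀ u1],
      by rw [smul_dotProduct, t12, smul_zero], by rw [smul_dotProduct, t21, smul_zero],
      by rw [smul_dotProduct, t22, smul_eq_mul, inv_mul_cancel₀ u2]⟩, j, hj, fun y => ?_⟩
  have hk : ∀ i y, bf S (kk a1 a2 ((2 * n1)⁻¹ • mv T a1) ((2 * n2)⁻¹ • mv T a2) x i) y =
      bf S (col ℚ x i) y - (2 * n1)⁻¹ * mv T a1 i * bf S (xr x a1) y -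
        (2 * n2)⁻¹ * mv T a2 i * bf S (xr x a2) y := fun i y => by
    rw [kk, bf_sub_left, bf_sub_left, bf_smul_left, bf_smul_left]
    rfl
  have hkw : ∀ i w, (∀ i, bf S (col ℚ x i) w = 0) →
      bf S (kk a1 a2 ((2 * n1)⁻¹ • mv T a1) ((2 * n2)⁻¹ • mv T a2) x i) w = 0 := fun i w hw => by
    rw [hk, hw, hx a1 w hw, hx a2 w hw]; ring
  constructor
  · intro h
    obtain ⟨a, s, t, hy⟩ := exists_dec2 x hT w1 w2 p1 p2 hpq y
    have ha : a - ((2 * n1)⁻¹ * (mv T a ⬝ᵥ a1)) • a1 - ((2 * n2)⁻¹ * (mv T a ⬝ᵥ a2)) • a2 = 0 := by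
      refine mv_inj hT (funext fun i => ?_)
      have := h i
      rw [hy, bf_add_right, bf_add_right, bf_smul_right, bf_smul_right, hkw i w1 p1, hkw i w2 p2,
        hk, bf_col_xr, hxx, hxx] at this
      rw [mv_sub, mv_sub, mv_smul, mv_smul]
      simp only [Pi.sub_apply, Pi.smul_apply, smul_eq_mul, Pi.zero_apply]
      linear_combination this
    refine ⟨((2 * n1)⁻¹ * (mv T a ⬝ᵥ a1)) • !![1, 0; 0, n1] +
      ((2 * n2)⁻¹ * (mv T a ⬝ᵥ a2)) • !![0, -n2; 1, 0] + s • !![1, 0; 0, -n1] +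
      t • !![0, n2; 1, 0], ?_⟩
    rw [ap_add, ap_add, ap_add, ap_smul, ap_smul, ap_smul, ap_smul, ← e1, ← e2, ha1, ha2,
      ← xr_smul, ← xr_smul, ← xr_add, hy]
    congr 3
    linear_combination (norm := module) ha
  · rintro ⟨Y, rfl⟩ i
    have hY : Y = ((Y 0 0 + Y 1 1 / n1) / 2) • !![1, 0; 0, n1] +
        ((Y 1 0 - Y 0 1 / n2) / 2) • !![0, -n2; 1, 0] +
        ((Y 0 0 - Y 1 1 / n1) / 2) • !![1, 0; 0, -n1] +
        ((Y 1 0 + Y 0 1 / n2) / 2) • !![0, n2; 1, 0] := by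
      have v1 := hp1.ne'
      have v2 := hp2.ne'
      ext r c
      fin_cases r <;> fin_cases c <;> simp <;> field_simp <;> ring
    rw [hY, ap_add, ap_add, ap_add, ap_smul, ap_smul, ap_smul, ap_smul, ← e1, ← e2, ha1, ha2,
      bf_add_right, bf_add_right, bf_add_right, bf_smul_right, bf_smul_right, bf_smul_right,
      bf_smul_right, hkw i w1 p1, hkw i w2 p2, hk, hk, bf_col_xr, bf_col_xr, hxx, hxx, hxx, hxx,
      t11, t12, t21, t22]
    field_simp
    ring

end OFibP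

open OFibP in
theorem fibS (_ : S_Dom) (hP : S_Eps) (hE : S_Ext) : S_Fib := by
  rintro b S z0 hc ⟨j0, hj0⟩ x0 hT ⟨z, hz, ho⟩
  obtain ⟨a1, a2, α, β, n1, n2, hF, j, hj, h⟩ :=
    base hc.symm hE hj0 x0 hT (connectedComponentIn_subset _ _ hz) ho
  refine ⟨a1, a2, α, β, n1, n2, hF, fun x hx => ?_⟩
  obtain ⟨g, hg, hgu⟩ := hE (b + 2) S hc.symm b (col ℚ x0) (col ℚ x)
    (fun i l => by rw [bf_col_col, bf_col_col, hx]) (by
      have := RingHom.map_det (Int.castRingHom ℚ) (x0.transpose * S * x0)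
      have e : (Matrix.of fun i l => bf S (col ℚ x0 i) (col ℚ x0 l)) =
          (Int.castRingHom ℚ).mapMatrix (x0.transpose * S * x0) := by
        ext i l
        simp [bf_col_col]
      rw [e, ← this]
      simpa using hT)
  have gx : ∀ a : QV b, g (xq x0 a) = xq x a := fun a => by
    change g (xr x0 a) = xr x a
    simp [xr_eq_sum, hgu]
  have gk : ∀ i, kk a1 a2 α β x i = g (kk a1 a2 α β x0 i) := fun i => by
    rw [kk, kk, map_sub, map_sub, map_smul, map_smul, gx, gx]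
    exact congrArg (· - _ - _) (hgu i).symm
  have h' : ∀ y, (∀ i, bf S (kk a1 a2 α β x i) y = 0) ↔ ∃ Y, y = (fmap g j).ap Y := fun y => by
    obtain ⟨y', rfl⟩ := g.surjective y
    simp only [gk, hg, ap_fmap, g.injective.eq_iff]
    exact h y'
  rcases (hP (b + 2) S z0 hc _ (ok_fmap hc.symm hg hj)).1 with h1 | h1
  · exact ⟨_, h1, h'⟩
  · refine ⟨_, h1, fun y => (h' y).trans ⟨?_, ?_⟩⟩
    · rintro ⟨Y, rfl⟩
      refine ⟨!![Y 0 0, -Y 0 1; -Y 1 0, Y 1 1], ?_⟩
      rw [ap_eps]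
      congr 1
      ext r c
      fin_cases r <;> fin_cases c <;> simp
    · rintro ⟨Y, rfl⟩
      exact ⟨_, ap_eps Y⟩

end

end Pool.Agent.P.MP_b8021b_nt.CM.O
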