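import Pool.Agent.P.MP_b8021b_nt.CM.OBas

/-! Algebra of the bilinear form and of frames. -/

namespace Pool.Agent.P.MP_b8021b_nt.CM.O

open Complex hiding Gamma
open UpperHalfPlane hiding I
open Matrix
open scoped MatrixGroups

noncomputable section

variable {m : ℕ} {S g h : ZM m}

section ring
variable {R : Type} [CommRing R]

theorem bf_eq (x y : Fin m → R) : bf S x y = x ⬝ᵥ mv S y := rfl
theorem mv_add (x y : Fin m → R) : mv g (x + y) = mv g x + mv g y := mulVec_add _ _ _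
theorem mv_sub (x y : Fin m → R) : mv g (x - y) = mv g x - mv g y := mulVec_sub _ _ _
theorem mv_neg (x : Fin m → R) : mv g (-x) = -mv g x := mulVec_neg _ _
theorem mv_smul (c : R) (x : Fin m → R) : mv g (c • x) = c • mv g x := mulVec_smul _ _ _
theorem mv_zero : mv g (0 : Fin m → R) = 0 := mulVec_zero _
theorem mv_one (x : Fin m → R) : mv 1 x = x := by simp [mv]
theorem mv_mul (x : Fin m → R) : mv (g * h) x = mv g (mv h x) := by
  rw [mv, mv, mv, mulVec_mulVec]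
  exact congrArg (· *ᵥ x) (Matrix.map_mul (f := Int.castRingHom R))

theorem bf_add_left (x y z : Fin m → R) : bf S (x + y) z = bf S x z + bf S y z :=
  add_dotProduct _ _ _
theorem bf_sub_left (x y z : Fin m → R) : bf S (x - y) z = bf S x z - bf S y z :=
  sub_dotProduct _ _ _
theorem bf_neg_left (x z : Fin m → R) : bf S (-x) z = -bf S x z := neg_dotProduct _ _
theorem bf_smul_left (c : R) (x z : Fin m → R) : bf S (c • x) z = c * bf S x z :=
  smul_dotProduct _ _ _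
theorem bf_zero_left (z : Fin m → R) : bf S 0 z = 0 := zero_dotProduct _
theorem bf_add_right (x y z : Fin m → R) : bf S z (x + y) = bf S z x + bf S z y := by
  rw [bf_eq, mv_add, dotProduct_add]; rfl
theorem bf_sub_right (x y z : Fin m → R) : bf S z (x - y) = bf S z x - bf S z y := by
  rw [bf_eq, mv_sub, dotProduct_sub]; rfl
theorem bf_neg_right (x z : Fin m → R) : bf S z (-x) = -bf S z x := by
  rw [bf_eq, mv_neg, dotProduct_neg]; rfl
theorem bf_smul_right (c : R) (x z : Fin m → R) : bf S z (c • x) = c * bf S z x := by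
  rw [bf_eq, mv_smul, dotProduct_smul]; rfl
theorem bf_zero_right (z : Fin m → R) : bf S z 0 = 0 := by
  rw [bf_eq, mv_zero, dotProduct_zero]

theorem dot_mv (x y : Fin m → R) : x ⬝ᵥ mv g y = mv g.transpose x ⬝ᵥ y := by
  rw [mv, mv, dotProduct_mulVec, transpose_map, mulVec_transpose]

theorem bf_comm (hS : S.IsSymm) (x y : Fin m → R) : bf S x y = bf S y x := by
  rw [bf_eq, dot_mv, hS.eq, dotProduct_comm, bf_eq]

theorem bf_mv (e : g.transpose * S * g = S) (x y : Fin m → R) :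
    bf S (mv g x) (mv g y) = bf S x y := by
  conv_rhs => rw [← e, bf_eq, mv_mul, mv_mul, dot_mv, transpose_transpose]
  rfl

theorem bf_map {R' : Type} [CommRing R'] (φ : R →+* R') (x y : Fin m → R) :
    bf S (fun i => φ (x i)) (fun i => φ (y i)) = φ (bf S x y) := by
  simp [bf, dotProduct, mulVec, map_sum]

theorem mv_map {R' : Type} [CommRing R'] (φ : R →+* R') (x : Fin m → R) :
    mv g (fun i => φ (x i)) = fun i => φ (mv g x i) := by
  ext i
  simp [mv, dotProduct, mulVec, map_sum]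

end ring

theorem bf_cC (x y : QV m) : bf S (cC x) (cC y) = (bf S x y : ℚ) := bf_map (Rat.castHom ℂ) x y
theorem mv_cC (x : QV m) : mv g (cC x) = cC (mv g x) := mv_map (Rat.castHom ℂ) x
theorem cC_add (x y : QV m) : cC (x + y) = cC x + cC y := funext fun i => by simp [cC]
theorem cC_sub (x y : QV m) : cC (x - y) = cC x - cC y := funext fun i => by simp [cC]
theorem cC_neg (x : QV m) : cC (-x) = -cC x := funext fun i => by simp [cC]
theorem cC_smul (c : ℚ) (x : QV m) : cC (c • x) = (c : ℂ) • cC x := funext fun i => by simp [cC]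
theorem star_cC (x : QV m) : star (cC x) = cC x := funext fun i => by simp [cC]
theorem cC_injective : Function.Injective (cC (m := m)) := fun _ _ e =>
  funext fun i => Rat.cast_injective (α := ℂ) (congrFun e i)

theorem bf_star (x y : CW m) : bf S (star x) (star y) = star (bf S x y) :=
  bf_map (starRingEnd ℂ) x y

theorem mv_star (x : CW m) : mv g (star x) = star (mv g x) := mv_map (starRingEnd ℂ) x

theorem gram_apply {b : ℕ} (x : Matrix (Fin m) (Fin b) ℤ) (i l : Fin b) :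
    (x.transpose * S * x) i l = bf S (fun r => x r i) fun r => x r l := by
  simp only [bf, Matrix.mul_assoc, Matrix.mul_apply (M := x.transpose)]
  rfl

variable {j : Fr m} {w v : QV m}

theorem ap_add (Y Z : M2) : j.ap (Y + Z) = j.ap Y + j.ap Z := by
  simp only [Fr.ap, Matrix.add_apply]; module
theorem ap_sub (Y Z : M2) : j.ap (Y - Z) = j.ap Y - j.ap Z := by
  simp only [Fr.ap, Matrix.sub_apply]; module
theorem ap_smul (c : ℚ) (Y : M2) : j.ap (c • Y) = c • j.ap Y := by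
  simp only [Fr.ap, Matrix.smul_apply, smul_eq_mul]; module
theorem ap_zero : j.ap 0 = 0 := by simp [Fr.ap]
theorem ap_a : j.ap !![1, 0; 0, 0] = j.a := by simp [Fr.ap]
theorem ap_b : j.ap !![0, 1; 0, 0] = j.b := by simp [Fr.ap]
theorem ap_c : j.ap !![0, 0; 1, 0] = j.c := by simp [Fr.ap]
theorem ap_d : j.ap !![0, 0; 0, 1] = j.d := by simp [Fr.ap]

theorem ap_act (A B Y : M2) : (j.act A B).ap Y = j.ap (B * Y * A.adjugate) := by
  simp only [Fr.act, Fr.ap, Matrix.mul_apply, Fin.sum_univ_two, Matrix.of_apply, Matrix.cons_val',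
    Matrix.cons_val_zero, Matrix.cons_val_one, Matrix.cons_val_fin_one]
  module

theorem act_act (A B A' B' : M2) : (j.act A B).act A' B' = j.act (A * A') (B * B') := by
  ext1 <;> simp only [Fr.act.eq_1 (j.act A B), Fr.act.eq_1 j (A * A'), ap_act,
    Matrix.adjugate_mul_distrib, Matrix.mul_assoc]

theorem act_one : j.act 1 1 = j := by
  ext1 <;> simp [Fr.act, Fr.ap]

section ok
variable (hS : S.IsSymm) (hj : Ok S j)
include hS hj

theorem Ok.ba : bf S j.b j.a = 0 := (bf_comm hS _ _).trans hj.ab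
theorem Ok.ca : bf S j.c j.a = 0 := (bf_comm hS _ _).trans hj.ac
theorem Ok.da : bf S j.d j.a = 1 := (bf_comm hS _ _).trans hj.ad
theorem Ok.cb : bf S j.c j.b = -1 := (bf_comm hS _ _).trans hj.bc
theorem Ok.db : bf S j.d j.b = 0 := (bf_comm hS _ _).trans hj.bd
theorem Ok.dc : bf S j.d j.c = 0 := (bf_comm hS _ _).trans hj.cd

theorem bf_ap (Y Z : M2) : bf S (j.ap Y) (j.ap Z) = bil Y Z := by
  simp only [Fr.ap, bil, bf_add_left, bf_add_right, bf_smul_left, bf_smul_right, hj.aa, hj.ab,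
    hj.ac, hj.ad, hj.bb, hj.bc, hj.bd, hj.cc, hj.cd, hj.dd, hj.ba hS, hj.ca hS, hj.da hS, hj.cb hS,
    hj.db hS, hj.dc hS]
  ring

theorem co_ap (Y : M2) : j.co S (j.ap Y) = Y := by
  ext i l
  fin_cases i <;> fin_cases l <;>
    simp [Fr.co, Fr.ap, bf_add_right, bf_smul_right, hj.aa, hj.ab, hj.ac, hj.ad, hj.bb, hj.bc,
      hj.bd, hj.cc, hj.cd, hj.dd, hj.ba hS, hj.ca hS, hj.da hS, hj.cb hS, hj.db hS, hj.dc hS]

theorem ap_injective : Function.Injective j.ap := fun Y Z e => by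
  rw [← co_ap hS hj Y, e, co_ap hS hj]

theorem perp_sub_co (x : QV m) : Perp S j (x - j.ap (j.co S x)) := by
  refine ⟨?_, ?_, ?_, ?_⟩ <;>
    simp [Fr.co, Fr.ap, bf_add_right, bf_sub_right, bf_neg_right, bf_smul_right, hj.aa, hj.ab,
      hj.ac, hj.ad, hj.bb, hj.bc, hj.bd, hj.cc, hj.cd, hj.dd, hj.ba hS, hj.ca hS, hj.da hS,
      hj.cb hS, hj.db hS, hj.dc hS]

/-- every vector is the sum of a vector in the image of the frame and an orthogonal vector -/
theorem exists_dec (x : QV m) : ∃ Y w, Perp S j w ∧ x = j.ap Y + w :=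
  ⟨_, _, perp_sub_co hS hj x, (add_sub_cancel _ _).symm⟩

end ok

theorem ok_of_bil (h : ∀ Y Z, bf S (j.ap Y) (j.ap Z) = bil Y Z) : Ok S j := by
  have e := fun Y Z x y (h1 : j.ap Y = x) (h2 : j.ap Z = y) => h1 ▸ h2 ▸ h Y Z
  refine ⟨(e _ _ _ _ ap_a ap_a).trans ?_, (e _ _ _ _ ap_a ap_b).trans ?_,
    (e _ _ _ _ ap_a ap_c).trans ?_, (e _ _ _ _ ap_a ap_d).trans ?_, (e _ _ _ _ ap_b ap_b).trans ?_,
    (e _ _ _ _ ap_b ap_c).trans ?_, (e _ _ _ _ ap_b ap_d).trans ?_, (e _ _ _ _ ap_c ap_c).trans ?_,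
    (e _ _ _ _ ap_c ap_d).trans ?_, (e _ _ _ _ ap_d ap_d).trans ?_⟩ <;> simp [bil]

theorem bil_mul (A B Y Z : M2) :
    bil (B * Y * A.adjugate) (B * Z * A.adjugate) = A.det * B.det * bil Y Z := by
  simp only [bil, Matrix.adjugate_fin_two, Matrix.det_fin_two, Matrix.mul_apply, Fin.sum_univ_two,
    Matrix.of_apply, Matrix.cons_val', Matrix.cons_val_zero, Matrix.cons_val_one,
    Matrix.cons_val_fin_one]
  ring

theorem bil_self (Y : M2) : bil Y Y = 2 * Y.det := by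
  rw [bil, Matrix.det_fin_two]; ring

theorem Ok.act (hS : S.IsSymm) (hj : Ok S j) {A B : M2} (e : A.det * B.det = 1) :
    Ok S (j.act A B) := ok_of_bil fun Y Z => by
  rw [ap_act, ap_act, bf_ap hS hj, bil_mul, e, one_mul]

theorem Perp.ap (hw : Perp S j w) (Y : M2) : bf S (j.ap Y) w = 0 := by
  simp [Fr.ap, bf_add_left, bf_smul_left, hw.1, hw.2.1, hw.2.2.1, hw.2.2.2]

theorem perp_iff : Perp S j w ↔ ∀ Y, bf S (j.ap Y) w = 0 :=
  ⟨Perp.ap, fun h => ⟨ap_a (j := j) ▸ h _, ap_b (j := j) ▸ h _, ap_c (j := j) ▸ h _,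
    ap_d (j := j) ▸ h _⟩⟩

theorem Perp.act (hw : Perp S j w) (A B : M2) : Perp S (j.act A B) w :=
  perp_iff.2 fun Y => by rw [ap_act, hw.ap]

theorem Perp.smul (hw : Perp S j w) (c : ℚ) : Perp S j (c • w) :=
  perp_iff.2 fun Y => by rw [bf_smul_right, hw.ap, mul_zero]

theorem Perp.neg (hw : Perp S j w) : Perp S j (-w) :=
  perp_iff.2 fun Y => by rw [bf_neg_right, hw.ap, neg_zero]

theorem Perp.co (hw : Perp S j w) : j.co S w = 0 := by
  ext i l
  fin_cases i <;> fin_cases l <;> simp [Fr.co, hw.1, hw.2.1, hw.2.2.1, hw.2.2.2]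

theorem Ok.eb (hS : S.IsSymm) (hj : Ok S j) (hw : Perp S j w) : Ok S (j.eb S w) := by
  constructor <;>
    simp [Fr.eb, bf_add_left, bf_add_right, bf_sub_left, bf_sub_right, bf_smul_left,
      bf_smul_right, hj.aa, hj.ab, hj.ac, hj.ad, hj.bb, hj.bc, hj.bd, hj.cc, hj.cd, hj.dd,
      hj.cb hS, hw.1, hw.2.1, hw.2.2.1, hw.2.2.2, bf_comm hS w j.b, bf_comm hS w j.c,
      bf_comm hS w j.d]
  ring

theorem Ok.sw (hS : S.IsSymm) (hj : Ok S j) : Ok S j.sw := by
  constructor <;>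
    simp [Fr.sw, bf_neg_left, bf_neg_right, hj.aa, hj.bb, hj.bc, hj.cc, hj.dd, hj.ba hS, hj.ca hS,
      hj.da hS, hj.db hS, hj.dc hS]

theorem Ok.eps (hj : Ok S j) : Ok S j.eps := by
  constructor <;>
    simp [Fr.eps, bf_neg_left, bf_neg_right, hj.aa, hj.ab, hj.ac, hj.ad, hj.bb, hj.bc, hj.bd,
      hj.cc, hj.cd, hj.dd]

theorem ap_eps (Y : M2) : j.eps.ap Y = j.ap !![Y 0 0, -Y 0 1; -Y 1 0, Y 1 1] := by
  simp [Fr.ap, Fr.eps]

theorem zp_sw (τ σ : ℂ) : zp j.sw τ σ = zp j σ τ := by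
  simp only [zp, Fr.sw, cC_neg]; module

theorem zp_eps (τ σ : ℂ) : zp j.eps τ σ = -zp j (-τ) (-σ) := by
  simp only [zp, Fr.eps, cC_neg]; module

theorem zp_eb (τ σ : ℂ) : zp (j.eb S w) τ σ = z3 S j w τ σ 1 := by
  simp only [zp, z3, Fr.eb, cC_add, cC_sub, cC_smul]; module

theorem z3_zero (τ σ : ℂ) : z3 S j v τ σ 0 = zp j τ σ := by simp [z3]

theorem z3_smul (c : ℚ) (τ σ u : ℂ) : z3 S j (c • v) τ σ u = z3 S j v τ σ (c * u) := by
  simp only [z3, cC_smul, bf_smul_left, bf_smul_right]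
  push_cast
  module

theorem star_zp (τ σ : ℂ) : star (zp j τ σ) = zp j (star τ) (star σ) := by
  simp only [zp, star_add, star_sub, star_smul, star_cC, star_neg, star_mul']

theorem star_z3 (τ σ u : ℂ) : star (z3 S j v τ σ u) = z3 S j v (star τ) (star σ) (star u) := by
  simp only [z3, star_zp, star_add, star_sub, star_smul, star_cC, star_mul', star_pow,
    star_ratCast]

theorem zp_act' (A B : M2) (τ σ τ' σ' : ℂ) (h1 : τ' * (A 1 0 * τ + A 1 1) = A 0 0 * τ + A 0 1)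
    (h2 : σ' * (B 1 0 * σ + B 1 1) = B 0 0 * σ + B 0 1) : zp (j.act A B) τ σ =
      ((A 1 0 * τ + A 1 1) * (B 1 0 * σ + B 1 1)) • zp j τ' σ' := by
  simp only [zp, Fr.act, Fr.ap, cC_add, cC_smul, Matrix.adjugate_fin_two, Matrix.mul_apply,
    Fin.sum_univ_two, Matrix.of_apply, Matrix.cons_val', Matrix.cons_val_zero,
    Matrix.cons_val_one, Matrix.cons_val_fin_one]
  push_cast
  match_scalars
  · linear_combination (A 1 0 * τ + A 1 1) * h2
  · linear_combination -(σ' * (B 1 0 * σ + B 1 1)) * h1 - (A 0 0 * τ + A 0 1) * h2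
  · ring
  · linear_combination -(B 1 0 * σ + B 1 1) * h1

theorem zp_act {A B : M2} (hA : 0 < A.det) (hB : 0 < B.det) (τ σ : ℍ) : zp (j.act A B) τ σ =
    ((A 1 0 * (τ : ℂ) + A 1 1) * (B 1 0 * (σ : ℂ) + B 1 1)) • zp j (act A τ) (act B σ) :=
  zp_act' A B _ _ _ _ ((act_eq_iff hA _ _).1 rfl) ((act_eq_iff hB _ _).1 rfl)

/-- an integral matrix that acts on the frame as `act` does -/
theorem mv_zp {A B : M2} (e : ∀ Y, mv g (j.ap Y) = j.ap (B * Y * A.adjugate)) (τ σ : ℂ) :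
    mv g (zp j τ σ) = zp (j.act A B) τ σ := by
  simp only [zp, mv_add, mv_sub, mv_smul, mv_cC, Fr.act, ← e, ap_a, ap_b, ap_c, ap_d]

theorem bf_perp_zp (hS : S.IsSymm) (hw : Perp S j w) (τ σ : ℂ) : bf S (cC w) (zp j τ σ) = 0 := by
  simp [zp, bf_add_right, bf_sub_right, bf_neg_right, bf_smul_right, bf_cC, bf_comm hS w, hw.1,
    hw.2.1, hw.2.2.1, hw.2.2.2]

section ok2
variable (hS : S.IsSymm) (hj : Ok S j)
include hS hj

theorem bf_ap_zp (Y : M2) (τ σ : ℂ) :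
    bf S (cC (j.ap Y)) (zp j τ σ) = Y 0 0 * τ + Y 0 1 - σ * (Y 1 0 * τ + Y 1 1) := by
  simp only [zp, Fr.ap, cC_add, cC_smul, bf_add_left, bf_add_right, bf_sub_right, bf_smul_left,
    bf_smul_right, bf_cC, hj.aa, hj.ab, hj.ac, hj.ad, hj.bb, hj.bc, hj.bd, hj.cc, hj.cd, hj.dd,
    hj.ba hS, hj.ca hS, hj.da hS, hj.cb hS, hj.db hS, hj.dc hS]
  push_cast
  ring

theorem bf_z3 (hv : Perp S j v) (τ σ u τ' σ' u' : ℂ) :
    bf S (z3 S j v τ σ u) (z3 S j v τ' σ' u') =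
      (τ - τ') * (σ - σ') - ((bf S v v / 2 : ℚ) : ℂ) * (u - u') ^ 2 := by
  simp only [z3, zp, bf_add_left, bf_add_right, bf_sub_left, bf_sub_right, bf_smul_left,
    bf_smul_right, bf_cC, hj.aa, hj.ab, hj.ac, hj.ad, hj.bb, hj.bc, hj.bd, hj.cc, hj.cd, hj.dd,
    hj.ba hS, hj.ca hS, hj.da hS, hj.cb hS, hj.db hS, hj.dc hS, hv.1, hv.2.1, hv.2.2.1, hv.2.2.2,
    bf_comm hS v j.a, bf_comm hS v j.b, bf_comm hS v j.c, bf_comm hS v j.d]
  push_cast
  ring

theorem herm_z3 (hv : Perp S j v) (τ σ u : ℂ) :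
    (bf S (z3 S j v τ σ u) (star (z3 S j v τ σ u))).re =
      4 * (((bf S v v / 2 : ℚ) : ℝ) * u.im ^ 2 - τ.im * σ.im) := by
  rw [star_z3, bf_z3 hS hj hv, ← ofReal_ratCast]
  generalize ((bf S v v / 2 : ℚ) : ℝ) = q
  simp [sq]
  ring

theorem bf_b_z3 (hv : Perp S j v) (τ σ u : ℂ) : bf S (cC j.b) (z3 S j v τ σ u) = 1 := by
  simp [z3, zp, bf_add_right, bf_sub_right, bf_neg_right, bf_smul_right, bf_cC, hj.bb, hj.bc,
    hj.bd, hj.ba hS, hv.2.1]

theorem z3_mem (hv : Perp S j v) {τ σ u : ℂ}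
    (h : ((bf S v v / 2 : ℚ) : ℝ) * u.im ^ 2 < τ.im * σ.im) : z3 S j v τ σ u ∈ negCone S :=
  ⟨by rw [bf_z3 hS hj hv]; ring, by rw [herm_z3 hS hj hv]; linarith⟩

theorem zp_mem {τ σ : ℂ} (h : 0 < τ.im * σ.im) : zp j τ σ ∈ negCone S := by
  have h0 : Perp S j 0 := ⟨bf_zero_right _, bf_zero_right _, bf_zero_right _, bf_zero_right _⟩
  exact z3_zero (S := S) (v := 0) τ σ ▸ z3_mem hS hj h0 (by simpa using h)

end ok2

end

end Pool.Agent.P.MP_b8021b_nt.CM.O
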