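import Pool.Agent.P.MP_b8021b_nt.CM.OBas

/-! Leading coefficients of families of periodic functions. -/

namespace Pool.Agent.P.MP_b8021b_nt.CM.O

open Complex hiding Gamma
open UpperHalfPlane hiding I
open CongruenceSubgroup Filter Pool.Agent.P.MP_7ebcb6_ag
open scoped Real MatrixGroups Topology LinearAlgebra.Projectivization

noncomputable section

namespace OLFP

variable {n M : ℕ}

theorem coef_neg {f : ℍ → ℂ} {K : ℝ} (hM : 0 < M) (h : Hol f) (hp : Per M f)
    (hK : ∀ τ : ℍ, ‖f τ‖ ≤ K * Real.exp (π * τ.im / M)) (k : ℤ) (hk : k < 0) :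
    coef M f k = 0 := by
  have hM' : (0 : ℝ) < M := by exact_mod_cast hM
  refine (gro_iff hM h hp (1 / (2 * M))).1 ⟨K, fun τ _ => (hK τ).trans (le_of_eq ?_)⟩ k ?_
  · congr 2
    field_simp
  · have h1 : (k : ℝ) ≤ -1 := by exact_mod_cast Int.le_sub_one_of_lt hk
    have h2 : -(1 / (2 * (M : ℝ))) * M = -(1 / 2) := by field_simp
    rw [h2]
    linarith

/-- a bound for the tail of the expansion that is uniform in the function -/
theorem tail1 (hM : 0 < M) (a : ℕ) : ∃ D : ℝ, 0 ≤ D ∧ ∀ (f : ℍ → ℂ) (K : ℝ), Hol f → Per M f →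
    (∀ τ : ℍ, ‖f τ‖ ≤ K * Real.exp (π * τ.im / M)) → (∀ k : ℤ, k < a → coef M f k = 0) →
    ∀ τ : ℍ, 2 ≤ τ.im →
      ‖e (-(a * τ) / M) * f τ - coef M f a‖ ≤ K * D * Real.exp (-(2 * π / M * τ.im)) := by
  have hM' : (0 : ℝ) < M := by exact_mod_cast hM
  have hM'' : (M : ℂ) ≠ 0 := by exact_mod_cast hM.ne'
  set r : ℝ := Real.exp (-(2 * π / M)) with hr
  have hr0 : 0 ≤ r := (Real.exp_pos _).le
  have hr1 : r < 1 := Real.exp_lt_one_iff.2 (neg_neg_of_pos (by positivity))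
  refine ⟨Real.exp (π / M) * Real.exp (2 * π * (a + 1) / M) * (1 - r)⁻¹,
    mul_nonneg (by positivity) (inv_nonneg.2 (by linarith)), fun f K h hp hK ha τ hτ => ?_⟩
  have hK0 : 0 ≤ K := by
    have := (norm_nonneg _).trans (hK τ)
    exact nonneg_of_mul_nonneg_left this (Real.exp_pos _)
  have hc : ∀ k : ℤ, ‖coef M f k‖ ≤ K * Real.exp (π / M) * Real.exp (2 * π * k * 1 / M) :=
    fun k => norm_coef_le hM h hp k one_pos fun u _ _ => by
      simpa only [QE.im_pt u one_pos, mul_one] using hK (pt u 1)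
  have h1 := (hasSum_coef hM h hp τ).mul_left (e (-(a * τ) / M))
  have h2 := hasSum_ite_sub_hasSum h1 (a : ℤ)
  have h3 : e (-(a * τ) / M) * (coef M f a * e (((a : ℤ) : ℂ) * τ / M)) = coef M f a := by
    rw [mul_left_comm, ← e_add]
    have : (-((a : ℂ) * τ) / M + ((a : ℤ) : ℂ) * τ / M) = 0 := by
      push_cast
      ring
    rw [this, e_zero, mul_one]
  rw [h3] at h2
  have hinj : Function.Injective fun k : ℕ => (a : ℤ) + 1 + k := fun k l hkl => by
    simpa using hkl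
  have h4 := (hinj.hasSum_iff (by
    intro k hk
    have hk' : k ≤ a := by
      by_contra hh
      exact hk ⟨(k - a - 1).toNat, by simp only; omega⟩
    rcases hk'.lt_or_eq with hl | he
    · rw [ha k hl]
      simp
    · simp [he])).2 h2
  rw [← h4.tsum_eq]
  have h5 := (hasSum_geometric_of_lt_one hr0 hr1).mul_left
    (K * Real.exp (π / M) * Real.exp (2 * π * (a + 1) / M) * Real.exp (-(2 * π / M * τ.im)))
  refine (tsum_of_norm_bounded h5 fun k => ?_).trans (le_of_eq (by ring))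
  have hne : (a : ℤ) + 1 + k ≠ a := by omega
  simp only [Function.comp_apply, if_neg hne]
  rw [mul_left_comm, ← e_add, norm_mul]
  have h6 : (-((a : ℂ) * τ) / M + (((a : ℤ) + 1 + k : ℤ) : ℂ) * τ / M)
      = (((k : ℤ) + 1 : ℤ) : ℂ) * τ / M := by
    push_cast
    ring
  rw [h6, QE.norm_e_div]
  refine (mul_le_mul_of_nonneg_right (hc _) (Real.exp_pos _).le).trans ?_
  rw [hr, ← Real.exp_nat_mul]
  simp only [mul_assoc, ← Real.exp_add]
  refine mul_le_mul_of_nonneg_left (Real.exp_le_exp.2 ?_) hK0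
  push_cast
  rw [coe_im]
  have h7 : (0 : ℝ) ≤ 2 * π / M * (k * (τ.im - 2)) :=
    mul_nonneg (by positivity) (mul_nonneg (Nat.cast_nonneg k) (by linarith))
  have h8 : π / M + (2 * (π * (a + 1)) / M + (-(2 * π / M * τ.im) + k * -(2 * π / M))) -
      (π / M + (2 * (π * ((a + 1 + k) * 1)) / M + -(2 * (π * ((k + 1) * τ.im)) / M)))
      = 2 * π / M * (k * (τ.im - 2)) := by
    field_simp
    ring
  linarith

/-- a periodic function of moderate growth on a half plane -/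
structure One (M : ℕ) (g : ℂ → Vec n) (Y K : ℝ) : Prop where
  d : DifferentiableOn ℂ g {s | Y < s.im}
  per : ∀ s : ℂ, Y < s.im → g (s + M) = g s
  bd : ∀ s : ℂ, Y < s.im → ‖g s‖ ≤ K * Real.exp (π * s.im / M)

/-- the shifted coordinate function -/
def sh (g : ℂ → Vec n) (Y : ℝ) (i : Fin (n + 1)) (τ : ℍ) : ℂ := g (τ + Y * I) i

theorem im_sh (Y : ℝ) (τ : ℍ) : Y < ((τ : ℂ) + Y * I).im := by
  simpa using τ.im_pos

variable {g : ℂ → Vec n} {Y K : ℝ}

theorem One.hol (h : One M g Y K) (i : Fin (n + 1)) : Hol (sh g Y i) := by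
  refine hol_of_differentiableOn (F := fun z => g (z + Y * I) i) ?_
  refine (differentiableOn_pi.1 h.d i).comp (f := fun z => z + Y * I) (by fun_prop) ?_
  intro z hz
  simpa using hz

theorem One.shper (h : One M g Y K) (i : Fin (n + 1)) : Per M (sh g Y i) := by
  intro τ
  unfold sh
  rw [← h.per _ (im_sh Y τ), coe_vadd]
  congr 1
  push_cast
  ring

theorem One.shbd (h : One M g Y K) (i : Fin (n + 1)) (τ : ℍ) :
    ‖sh g Y i τ‖ ≤ K * Real.exp (π * Y / M) * Real.exp (π * τ.im / M) := by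
  refine (norm_le_pi_norm _ i).trans ((h.bd _ (im_sh Y τ)).trans (le_of_eq ?_))
  rw [mul_assoc, ← Real.exp_add]
  congr 2
  have : ((τ : ℂ) + Y * I).im = τ.im + Y := by simp
  rw [this]
  ring

/-- the coefficient vector -/
def cf (M : ℕ) (g : ℂ → Vec n) (Y : ℝ) (a : ℕ) : Vec n :=
  fun i => e (-(a * (Y * I)) / M) * coef M (sh g Y i) a

theorem tail2 (hM : 0 < M) (a : ℕ) (Y : ℝ) : ∃ D : ℝ, ∀ (g : ℂ → Vec n) (K : ℝ), One M g Y K →
    (∀ i, ∀ k : ℤ, k < a → coef M (sh g Y i) k = 0) → ∀ s : ℂ, Y + 2 ≤ s.im →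
      ‖e (-(a * s) / M) • g s - cf M g Y a‖ ≤ K * D * Real.exp (-(2 * π / M * s.im)) := by
  obtain ⟨D, hD, h1⟩ := tail1 hM a
  refine ⟨‖e (-(a * (Y * I)) / M)‖ * Real.exp (π * Y / M) * D * Real.exp (2 * π / M * Y),
    fun g K h ha s hs => ?_⟩
  have hK0 : 0 ≤ K := by
    have := (norm_nonneg _).trans (h.bd s (by linarith))
    exact nonneg_of_mul_nonneg_left this (Real.exp_pos _)
  refine (pi_norm_le_iff_of_nonneg (by positivity)).2 fun i => ?_
  have hpos : 0 < (s - Y * I).im := by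
    have : (s - Y * I).im = s.im - Y := by simp
    rw [this]
    linarith
  set τ : ℍ := ⟨s - Y * I, hpos⟩ with hτ
  have hc : (τ : ℂ) = s - Y * I := rfl
  have him : τ.im = s.im - Y := by
    rw [← coe_im, hc]
    simp
  have h2 := h1 _ _ (h.hol i) (h.shper i) (h.shbd i) (ha i) τ (by rw [him]; linarith)
  have h3 : (e (-(a * s) / M) • g s - cf M g Y a) i = e (-(a * (Y * I)) / M) *
      (e (-(a * τ) / M) * sh g Y i τ - coef M (sh g Y i) a) := by
    simp only [Pi.sub_apply, Pi.smul_apply, smul_eq_mul, cf, sh, hc, sub_add_cancel]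
    have : -((a : ℂ) * s) / M = -(a * (Y * I)) / M + -(a * (s - Y * I)) / M := by ring
    rw [this, e_add]
    ring
  rw [h3, norm_mul]
  refine (mul_le_mul_of_nonneg_left h2 (norm_nonneg _)).trans (le_of_eq ?_)
  rw [him, show -(2 * π / M * (s.im - Y)) = 2 * π / M * Y + -(2 * π / M * s.im) by ring,
    Real.exp_add]
  ring

theorem tendsto_bd (hM : 0 < M) (D : ℝ) :
    Tendsto (fun s : ℂ => D * Real.exp (-(2 * π / M * s.im))) atI (𝓝 0) := by
  have hM' : (0 : ℝ) < M := by exact_mod_cast hM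
  exact (QE.tendsto_exp_im (c := 2 * π / M) (by positivity) D).comp tendsto_comap

/-- convergence after division by a power of the parameter -/
def Cv (M : ℕ) (g : ℂ → Vec n) (a : ℕ) (z : Vec n) : Prop :=
  Tendsto (fun s : ℂ => e (-(a * s) / M) • g s) atI (𝓝 z)

theorem One.cv0 (hM : 0 < M) (h : One M g Y K) {a : ℕ}
    (ha : ∀ i, ∀ k : ℤ, k < a → coef M (sh g Y i) k = 0) : Cv M g a (cf M g Y a) := by
  obtain ⟨D, hD⟩ := tail2 (n := n) hM a Y
  refine tendsto_iff_norm_sub_tendsto_zero.2 (squeeze_zero' (Eventually.of_forall fun _ =>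
    norm_nonneg _) ?_ (tendsto_bd hM (K * D)))
  filter_upwards [ev_atI (Y + 2)] with s hs
  exact hD g K h ha s hs.le

theorem One.coef_zero (hM : 0 < M) (h : One M g Y K) (a : ℕ) (h0 : ∀ j < a, Cv M g j 0) :
    ∀ i, ∀ k : ℤ, k < a → coef M (sh g Y i) k = 0 := by
  induction a with
  | zero => exact fun i k hk => coef_neg hM (h.hol i) (h.shper i) (h.shbd i) k (by simpa using hk)
  | succ a ih =>
    have h1 := ih fun j hj => h0 j (Nat.lt_succ_of_lt hj)
    have h2 : cf M g Y a = 0 := tendsto_nhds_unique (h.cv0 hM h1) (h0 a (Nat.lt_succ_self a))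
    intro i k hk
    have hk' : k ≤ a := by
      push_cast at hk
      omega
    rcases hk'.lt_or_eq with hl | he
    · exact h1 i k hl
    · rw [he]
      exact (mul_eq_zero.1 (congrFun h2 i)).resolve_left (e_ne_zero _)

theorem One.cv (hM : 0 < M) (h : One M g Y K) {a : ℕ} (h0 : ∀ j < a, Cv M g j 0) :
    Cv M g a (cf M g Y a) := h.cv0 hM (h.coef_zero hM a h0)

theorem One.ex (hM : 0 < M) (h : One M g Y K) (hne : ∀ s : ℂ, Y < s.im → g s ≠ 0) :
    ∃ a, ¬ Cv M g a 0 := by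
  by_contra hc
  push Not at hc
  refine hne _ (im_sh Y UpperHalfPlane.I) (funext fun i => ?_)
  have h1 : ∀ k : ℤ, coef M (sh g Y i) k = 0 := fun k =>
    h.coef_zero hM (k.toNat + 1) (fun j _ => hc j) i k (by push_cast; omega)
  have h2 := hasSum_coef hM (h.hol i) (h.shper i) UpperHalfPlane.I
  simp only [h1, zero_mul] at h2
  exact h2.unique hasSum_zero

theorem One.lim (hM : 0 < M) (h : One M g Y K) (hne : ∀ s : ℂ, Y < s.im → g s ≠ 0) :
    ∃ w, Lim g atI w := by
  classical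
  have hex := h.ex hM hne
  have h1 := h.cv hM (a := Nat.find hex) fun j hj => not_not.1 (Nat.find_min hex hj)
  refine ⟨_, fun h0 => Nat.find_spec hex ?_, _, h1⟩
  rwa [h0] at h1

variable {C : Set (Vec n)} {H : ℂ → ℂ → Vec n} {u0 : ℂ} {ρ : ℝ}

theorem one_of_loc (h : Loc C M H u0 ρ Y K) {u : ℂ} (hu : u ∈ Metric.ball u0 ρ) :
    One M (H u) Y K :=
  ⟨h.d2 u hu, fun s hs => (h.val u hu s hs).1, fun s hs => (h.val u hu s hs).2.2.2⟩

theorem diff_loc (hM : 0 < M) (h : Loc C M H u0 ρ Y K) {a : ℕ} {φ : ℂ → Vec n}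
    (h0 : ∀ u ∈ Metric.ball u0 ρ, ∀ j < a, Cv M (H u) j 0)
    (hφ : ∀ u ∈ Metric.ball u0 ρ, Cv M (H u) a (φ u)) :
    DifferentiableOn ℂ φ (Metric.ball u0 ρ) := by
  obtain ⟨D, hD⟩ := tail2 (n := n) hM a Y
  have hu : TendstoUniformlyOn (fun (s : ℂ) (u : ℂ) => e (-(a * s) / M) • H u s) φ atI
      (Metric.ball u0 ρ) := by
    refine Metric.tendstoUniformlyOn_iff.2 fun ε hε => ?_
    filter_upwards [ev_atI (Y + 2), (tendsto_bd hM (K * D)).eventually (gt_mem_nhds hε)]
      with s hs hs' u hu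
    have h1 := one_of_loc h hu
    rw [tendsto_nhds_unique (hφ u hu) (h1.cv hM (h0 u hu)), dist_comm, dist_eq_norm]
    exact (hD _ _ h1 (h1.coef_zero hM a (h0 u hu)) s hs.le).trans_lt hs'
  refine hu.tendstoLocallyUniformlyOn.differentiableOn ?_ Metric.isOpen_ball
  filter_upwards [ev_atI Y] with s hs
  exact (h.d1 s hs).const_smul (e (-(a * s) / M))

/-- the parameter in the first variable -/
def pu (u0 : ℂ) (ρ : ℝ) (x : ℂ) : ℂ := u0 + (ρ / 2 : ℝ) * e x

/-- the parameter in the second variable -/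
def ps (M : ℕ) (Y : ℝ) (y : ℂ) : ℂ := M * y + Y * I

theorem pu_mem (hρ : 0 < ρ) {x : ℂ} (hx : 0 < x.im) : pu u0 ρ x ∈ Metric.ball u0 ρ := by
  rw [mem_ball_iff_norm, pu, add_sub_cancel_left, norm_mul, norm_e, norm_real,
    Real.norm_of_nonneg (by positivity)]
  have : Real.exp (-2 * π * x.im) ≤ 1 :=
    Real.exp_le_one_iff.2 (by nlinarith [Real.pi_pos, mul_pos Real.pi_pos hx])
  nlinarith

theorem im_ps (M : ℕ) (Y : ℝ) (y : ℂ) : (ps M Y y).im = M * y.im + Y := by
  simp [ps]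

theorem ps_mem (hM : 0 < M) (Y : ℝ) {y : ℂ} (hy : 0 < y.im) : Y < (ps M Y y).im := by
  have hM' : (0 : ℝ) < M := by exact_mod_cast hM
  rw [im_ps]
  nlinarith [mul_pos hM' hy]

theorem diff_e : Differentiable ℂ e := by
  unfold e
  fun_prop

theorem diff_pu : Differentiable ℂ (pu u0 ρ) :=
  (differentiable_const _).add (diff_e.const_mul _)

theorem diff_ps (M : ℕ) (Y : ℝ) : Differentiable ℂ (ps M Y) := by
  unfold ps
  fun_prop

theorem tendsto_pu (hρ : 0 < ρ) : Tendsto (fun x : ℍ => pu u0 ρ x) atImInfty (𝓝[≠] u0) := by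
  refine tendsto_nhdsWithin_iff.2 ⟨?_, Eventually.of_forall fun x => ?_⟩
  · have h1 : Tendsto (fun x : ℍ => e x) atImInfty (𝓝 0) := by
      refine tendsto_zero_iff_norm_tendsto_zero.2 ?_
      have := (QE.tendsto_exp_im (c := 2 * π) (by positivity) 1).comp
        (tendsto_comap (f := UpperHalfPlane.im) (x := atTop))
      refine this.congr fun x => ?_
      simp [norm_e]
    simpa [pu] using (h1.const_mul ((ρ / 2 : ℝ) : ℂ)).const_add u0
  · have h1 : ((ρ / 2 : ℝ) : ℂ) ≠ 0 := ofReal_ne_zero.2 (by positivity)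
    simpa [pu] using ⟨hρ.ne', e_ne_zero _⟩

theorem tendsto_ps (hM : 0 < M) (Y : ℝ) : Tendsto (fun y : ℍ => ps M Y y) atImInfty atI := by
  have hM' : (0 : ℝ) < M := by exact_mod_cast hM
  refine tendsto_comap_iff.2 ?_
  have := tendsto_atTop_add_const_right _ Y
    ((tendsto_comap (f := UpperHalfPlane.im) (x := atTop)).const_mul_atTop hM')
  refine this.congr fun y => ?_
  simp [im_ps]

theorem p2 (hM : 0 < M) (h : Loc C M H u0 ρ Y K) :
    P2 fun x y : ℍ => H (pu u0 ρ x) (ps M Y y) := by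
  have hM' : (0 : ℝ) < M := by exact_mod_cast hM
  refine ⟨fun y i => ?_, fun x i => ?_, ?_, fun x y => ?_, fun x y => ?_, ?_⟩
  · exact hol_of_differentiableOn (F := fun z => H (pu u0 ρ z) (ps M Y y) i)
      ((differentiableOn_pi.1 (h.d1 _ (ps_mem hM Y y.im_pos)) i).comp diff_pu.differentiableOn
        fun z hz => pu_mem h.pos hz)
  · exact hol_of_differentiableOn (F := fun z => H (pu u0 ρ x) (ps M Y z) i)
      ((differentiableOn_pi.1 (h.d2 _ (pu_mem h.pos x.im_pos)) i).comp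
        (diff_ps M Y).differentiableOn fun z hz => ps_mem hM Y hz)
  · exact h.cont.comp_continuous (f := fun p : ℍ × ℍ => (pu u0 ρ p.1, ps M Y p.2))
      ((diff_pu.continuous.comp (continuous_coe.comp continuous_fst)).prodMk
        ((diff_ps M Y).continuous.comp (continuous_coe.comp continuous_snd)))
      fun p => ⟨pu_mem h.pos p.1.im_pos, ps_mem hM Y p.2.im_pos⟩
  · have h1 : e (1 : ℂ) = 1 := by simpa using e_int 1
    simp only [pu, coe_vadd, ofReal_one, e_add, h1, one_mul]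
  · rw [← (h.val _ (pu_mem h.pos x.im_pos) _ (ps_mem hM Y y.im_pos)).1]
    congr 1
    simp only [ps, coe_vadd, ofReal_one]
    ring
  · refine ⟨|K| * Real.exp (π * Y / M), fun x y => ?_⟩
    refine (h.val _ (pu_mem h.pos x.im_pos) _ (ps_mem hM Y y.im_pos)).2.2.2.trans ?_
    have h1 : π * (ps M Y y).im / M = π * Y / M + π * y.im := by
      rw [im_ps, coe_im]
      field_simp
      ring
    have h2 : 1 ≤ Real.exp (π * x.im) := Real.one_le_exp (mul_pos Real.pi_pos x.im_pos).le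
    rw [h1, Real.exp_add, ← mul_assoc]
    refine mul_le_mul_of_nonneg_right ?_ (Real.exp_pos _).le
    exact (mul_le_mul_of_nonneg_right (le_abs_self K) (Real.exp_pos _).le).trans
      (le_mul_of_one_le_right (by positivity) h2)

theorem compare (hN : S_N) {lam : Vec n → ℂ} (hC : Cyc C lam) (hM : 0 < M)
    (h : Loc C M H u0 ρ Y K) {a : ℕ} {φ : ℂ → Vec n}
    (hφ : ∀ u ∈ Metric.ball u0 ρ, Cv M (H u) a (φ u)) {v w : Vec n}
    (hv : Lim φ (𝓝[≠] u0) v) (hw : Lim (H u0) atI w) : lam v = lam w := by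
  have hM'' : (M : ℂ) ≠ 0 := by exact_mod_cast hM.ne'
  have hv' : Lim (fun x : ℍ => e (a * (Y * I) / M) • φ (pu u0 ρ x)) atImInfty v :=
    (hv.comp (tendsto_pu h.pos)).of_smul (Eventually.of_forall fun x => ⟨_, e_ne_zero _, rfl⟩)
  have hw' : Lim (fun y : ℍ => H u0 (ps M Y y)) atImInfty w := hw.comp (tendsto_ps hM Y)
  refine (hN n C lam hC _ (p2 hM h) (fun x y =>
    (h.val _ (pu_mem h.pos x.im_pos) _ (ps_mem hM Y y.im_pos)).2.1) a _ v ⟨hv'.ne, fun x => ?_⟩
    hv').1 0 _ w ⟨hw'.ne, fun y => ?_⟩ hw'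
  · refine (((hφ _ (pu_mem h.pos x.im_pos)).comp (tendsto_ps hM Y)).const_smul
      (e (a * (Y * I) / M))).congr fun y => ?_
    simp only [Function.comp_apply, smul_smul, ← e_add]
    congr 2
    unfold ps
    field_simp
    ring
  · have h1 : ContinuousAt (fun u => H u (ps M Y y)) u0 :=
      (h.d1 _ (ps_mem hM Y y.im_pos)).continuousOn.continuousAt (Metric.ball_mem_nhds _ h.pos)
    refine (h1.tendsto.comp ((tendsto_pu h.pos).mono_right nhdsWithin_le_nhds)).congr fun x => ?_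
    simp [e_zero]

end OLFP

open OLFP in
theorem lfS (hN : S_N) : S_LF := by
  classical
  intro n C lam hC M Ω H hM hΩ hne hloc
  have hex : ∃ a, ¬ ∀ u ∈ Ω, Cv M (H u) a 0 := by
    obtain ⟨u0, hu0⟩ := hne
    obtain ⟨ρ, Y, K, -, h⟩ := hloc u0 hu0
    obtain ⟨a, ha⟩ := (one_of_loc h (Metric.mem_ball_self h.pos)).ex hM
      fun s hs => (h.val _ (Metric.mem_ball_self h.pos) s hs).2.2.1
    exact ⟨a, fun h' => ha (h' u0 hu0)⟩
  set a := Nat.find hex with ha
  have h0 : ∀ u ∈ Ω, ∀ j < a, Cv M (H u) j 0 := fun u hu j hj =>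
    not_not.1 (Nat.find_min hex hj) u hu
  have h1 : ∀ u, ∃ z, u ∈ Ω → Cv M (H u) a z := by
    intro u
    by_cases hu : u ∈ Ω
    · obtain ⟨ρ, Y, K, -, h⟩ := hloc u hu
      exact ⟨_, fun _ => (one_of_loc h (Metric.mem_ball_self h.pos)).cv hM (h0 u hu)⟩
    · exact ⟨0, fun h => absurd h hu⟩
  choose φ hφ using h1
  have hop : IsOpen Ω := Metric.isOpen_iff.2 fun u hu =>
    let ⟨ρ, _, _, hs, h⟩ := hloc u hu
    ⟨ρ, h.pos, hs⟩
  have hd : DifferentiableOn ℂ φ Ω := by
    intro u hu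
    obtain ⟨ρ, Y, K, hs, h⟩ := hloc u hu
    exact ((diff_loc hM h (fun u' hu' => h0 u' (hs hu')) fun u' hu' =>
      hφ u' (hs hu')).differentiableAt (Metric.ball_mem_nhds _ h.pos)).differentiableWithinAt
  have hnz : ∃ u ∈ Ω, φ u ≠ 0 := by
    by_contra hc
    push Not at hc
    refine Nat.find_spec hex fun u hu => ?_
    have := hφ u hu
    rwa [hc u hu] at this
  refine ⟨a, φ, hd, hnz, fun u hu => ?_⟩
  obtain ⟨ρ, Y, K, hs, h⟩ := hloc u hu
  have hm := Metric.mem_ball_self (x := u) h.pos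
  refine ⟨hC.cone.closed.mem_of_tendsto (hφ u hu) ?_, hφ u hu, ?_⟩
  · filter_upwards [ev_atI Y] with s hs'
    exact hC.cone.smul _ _ (h.val u hm s hs').2.1
  · have han := hd.analyticOnNhd hop
    obtain ⟨v, hv⟩ := lim_analytic (han u hu) fun hz => by
      obtain ⟨u', hu', hne'⟩ := hnz
      exact hne' (han.eqOn_zero_of_preconnected_of_eventuallyEq_zero hΩ hu hz hu')
    obtain ⟨w, hw⟩ := (one_of_loc h hm).lim hM fun s hs' => (h.val u hm s hs').2.2.1
    exact ⟨v, w, hv, hw, compare hN hC hM h (fun u' hu' => hφ u' (hs hu')) hv hw⟩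

end

end Pool.Agent.P.MP_b8021b_nt.CM.O
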