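import Pool.Agent.P.MP_b8021b_nt.CM.Stmts2
import Pool.Agent.P.MP_b8021b_nt.CM.ODefs

/-! Statements of the packages for orthogonal Shimura varieties. Proofs: h95_O_proof.md. -/

namespace Pool.Agent.P.MP_b8021b_nt.CM.O

open Complex hiding Gamma
open UpperHalfPlane hiding I
open CongruenceSubgroup Filter Pool.Agent.P.MP_7ebcb6_ag
open scoped Real MatrixGroups Topology LinearAlgebra.Projectivization

noncomputable section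

abbrev Vec (n : ℕ) := Fin (n + 1) → ℂ
abbrev ZM (m : ℕ) := Matrix (Fin m) (Fin m) ℤ
abbrev QV (m : ℕ) := Fin m → ℚ
abbrev CW (m : ℕ) := Fin m → ℂ

variable {n m b : ℕ}

/-! ### limits in projective space and their classes -/

/-- the lines spanned by `Φ x` tend to the line spanned by `v` -/
def Lim {α : Type} (Φ : α → Vec n) (l : Filter α) (v : Vec n) : Prop :=
  v ≠ 0 ∧ ∃ c : α → ℂ, Tendsto (fun x => c x • Φ x) l (𝓝 v)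

open Classical in
/-- the class of the limit -/
def lc {α : Type} (lam : Vec n → ℂ) (Φ : α → Vec n) (l : Filter α) : ℂ :=
  if h : ∃ v, Lim Φ l v then lam h.choose else 0

/-- imaginary part tends to infinity -/
def atI : Filter ℂ := Filter.comap Complex.im atTop

/-- tuples of weakly holomorphic modular forms with values in `C` -/
structure MT (C : Set (Vec n)) (M : ℕ) (k : ℤ) (Φ : ℍ → Vec n) : Prop where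
  inG : ∀ i, InG fun τ => Φ τ i
  law : ∀ γ ∈ Gamma M, ∀ τ : ℍ, Φ (γ • τ) = jf γ τ ^ k • Φ τ
  ne : Φ ≠ 0
  mem : ∀ τ, Φ τ ∈ C

structure Cone (C : Set (Vec n)) (lam : Vec n → ℂ) : Prop where
  closed : IsClosed C
  smul : ∀ c : ℂ, ∀ v ∈ C, c • v ∈ C
  inv : ∀ c : ℂ, c ≠ 0 → ∀ v, lam (c • v) = lam v

/-- principal divisors on modular curves, and the theorem of Manin and Drinfeld -/
def CV (C : Set (Vec n)) (lam : Vec n → ℂ) : Prop :=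
  ∀ (M : ℕ) (k : ℤ) (Φ : ℍ → Vec n), 0 < M → MT C M k Φ →
    Rec (fun τ => lc lam Φ (𝓝[≠] τ) - lc lam Φ atImInfty) ∧
    ∀ γ : SL, lc lam (fun τ => Φ (γ • τ)) atImInfty = lc lam Φ atImInfty

/-- elliptic curves -/
def EL (C : Set (Vec n)) (lam : Vec n → ℂ) : Prop :=
  ∀ (τ : ℍ) (Φ : ℂ → Vec n), Differentiable ℂ Φ → Φ ≠ 0 → (∀ u, Φ u ∈ C) →
    (∀ u, ∃ c : ℂ, c ≠ 0 ∧ Φ (u + 1) = c • Φ u) → (∀ u, ∃ c : ℂ, c ≠ 0 ∧ Φ (u + τ) = c • Φ u) →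
    ∀ w, lc lam Φ (𝓝[≠] w) + lc lam Φ (𝓝[≠] (-w)) = 2 * lc lam Φ (𝓝[≠] 0)

/-- rational curves -/
def P1 (C : Set (Vec n)) (lam : Vec n → ℂ) : Prop :=
  ∀ P : Fin (n + 1) → Polynomial ℂ, (∀ t, (fun i => (P i).eval t) ∈ C) →
    ∀ s v, Lim (fun u i => (P i).eval u) (𝓝[≠] s) v →
      (∀ t w, Lim (fun u i => (P i).eval u) (𝓝[≠] t) w → lam v = lam w) ∧
      ∀ w, Lim (fun u i => (P i).eval u) (Bornology.cobounded ℂ) w → lam v = lam w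

structure Cyc (C : Set (Vec n)) (lam : Vec n → ℂ) : Prop where
  cone : Cone C lam
  cv : CV C lam
  el : EL C lam
  p1 : P1 C lam

/-- the cone over `X` -/
def cone (X : Set (ℙ ℂ (Vec n))) : Set (Vec n) :=
  {v | ∀ h : v ≠ 0, Projectivization.mk ℂ v h ∈ X}

open Classical in
/-- the value of `f` on the point with homogeneous coordinates `v` -/
def lamX (X : Set (ℙ ℂ (Vec n))) (f : (X →₀ ℤ) →+ ℂ) (v : Vec n) : ℂ :=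
  if h : ∃ h0 : v ≠ 0, Projectivization.mk ℂ v h0 ∈ X then
    f (Finsupp.single ⟨_, h.choose_spec⟩ 1) else 0

def S_CV : Prop := ∀ (n : ℕ) (Z : Set (ℙ ℂ (Vec n))) (f : (zariskiClosure Z →₀ ℤ) →+ ℂ),
  (∀ D ∈ ratTrivial (zariskiClosure Z), f D = 0) → CV (cone (zariskiClosure Z)) (lamX _ f)

def S_EL : Prop := ∀ (n : ℕ) (Z : Set (ℙ ℂ (Vec n))) (f : (zariskiClosure Z →₀ ℤ) →+ ℂ),
  (∀ D ∈ ratTrivial (zariskiClosure Z), f D = 0) → EL (cone (zariskiClosure Z)) (lamX _ f)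

/-- `℘` is onto, and even elliptic functions are rational functions of `℘` -/
def S_Even : Prop := ∀ L : PeriodPair,
  (∀ c : ℂ, ∃ z, z ∉ L.lattice ∧ L.weierstrassP z = c) ∧
  ∀ f : ℂ → ℂ, Meromorphic f → (∀ l ∈ L.lattice, ∀ᶠ z in codiscrete ℂ, f (z + l) = f z) →
    (∀ᶠ z in codiscrete ℂ, f (-z) = f z) → ∃ P Q : Polynomial ℂ, Q ≠ 0 ∧
      ∀ᶠ z in codiscrete ℂ, f z * Q.eval (L.weierstrassP z) = P.eval (L.weierstrassP z)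

def S_One : Prop := ∀ u, Rec u → LevU 1 u → ∀ τ, u τ = 0

def S_P1 : Prop := ∀ (n : ℕ) (C : Set (Vec n)) lam, Cone C lam → CV C lam → P1 C lam

def S_Tri : Prop := ∀ Y : M2, 0 < Y.det → ∃ (γ : SL) (α β : ℚ), 0 < α ∧
  ∀ τ, act Y τ = γ • act !![α, β; 0, 1] τ

def S_Up : Prop := ∀ (α β : ℚ) (M : ℕ), 0 < α → 0 < M → ∃ M', 0 < M' ∧ M ∣ M' ∧
  ∀ δ ∈ Gamma M', ∃ δ' ∈ Gamma M, ∀ τ : ℍ,
    act !![α, β; 0, 1] (δ • τ) = δ' • act !![α, β; 0, 1] τ ∧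
    jf δ' (act !![α, β; 0, 1] τ) = jf δ τ

def S_MDQ : Prop := ∀ (n : ℕ) (C : Set (Vec n)) lam, Cyc C lam → ∀ (M : ℕ) (k : ℤ) Φ, 0 < M →
  MT C M k Φ → ∀ Y : M2, 0 < Y.det →
    lc lam (fun τ => Φ (act Y τ)) atImInfty = lc lam Φ atImInfty

/-! ### expansions in two variables -/

structure P2 (H : ℍ → ℍ → Vec n) : Prop where
  hol1 : ∀ y i, Hol fun x => H x y i
  hol2 : ∀ x i, Hol fun y => H x y i
  cont : Continuous fun p : ℍ × ℍ => H p.1 p.2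
  per1 : ∀ x y, H ((1 : ℝ) +ᵥ x) y = H x y
  per2 : ∀ x y, H x ((1 : ℝ) +ᵥ y) = H x y
  gro : ∃ K : ℝ, ∀ x y, ‖H x y‖ ≤ K * Real.exp (π * x.im) * Real.exp (π * y.im)

def Ex (c : ℕ × ℕ → Vec n) (H : ℍ → ℍ → Vec n) : Prop :=
  ∀ x y : ℍ, HasSum (fun p : ℕ × ℕ => e (p.1 * x + p.2 * y) • c p) (H x y)

def S_Exp : Prop := ∀ (n : ℕ) (H : ℍ → ℍ → Vec n), P2 H → ∃ c, Ex c H

/-- `φ x` is the leading coefficient of `H x y` as a function of `y` -/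
def Lead2 (H : ℍ → ℍ → Vec n) (a : ℕ) (φ : ℍ → Vec n) : Prop :=
  φ ≠ 0 ∧ ∀ x, Tendsto (fun y : ℍ => e (-(a * y)) • H x y) atImInfty (𝓝 (φ x))

def S_N : Prop := ∀ (n : ℕ) (C : Set (Vec n)) lam, Cyc C lam → ∀ H, P2 H → (∀ x y, H x y ∈ C) →
  ∀ a φ v, Lead2 H a φ → Lim φ atImInfty v →
    (∀ a' ψ w, Lead2 (fun y x => H x y) a' ψ → Lim ψ atImInfty w → lam v = lam w) ∧
    ∀ w, Lim (fun x => H x x) atImInfty w → lam v = lam w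

/-- a family of periodic functions, near the parameter `u0` -/
structure Loc (C : Set (Vec n)) (M : ℕ) (H : ℂ → ℂ → Vec n) (u0 : ℂ) (ρ Y K : ℝ) : Prop where
  pos : 0 < ρ
  d1 : ∀ s : ℂ, Y < s.im → DifferentiableOn ℂ (fun u => H u s) (Metric.ball u0 ρ)
  d2 : ∀ u ∈ Metric.ball u0 ρ, DifferentiableOn ℂ (H u) {s | Y < s.im}
  cont : ContinuousOn (fun p : ℂ × ℂ => H p.1 p.2) (Metric.ball u0 ρ ×ˢ {s | Y < s.im})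
  val : ∀ u ∈ Metric.ball u0 ρ, ∀ s : ℂ, Y < s.im → H u (s + M) = H u s ∧ H u s ∈ C ∧ H u s ≠ 0 ∧
    ‖H u s‖ ≤ K * Real.exp (π * s.im / M)

def S_LF : Prop := ∀ (n : ℕ) (C : Set (Vec n)) lam, Cyc C lam → ∀ (M : ℕ) (Ω : Set ℂ)
  (H : ℂ → ℂ → Vec n), 0 < M → IsPreconnected Ω → Ω.Nonempty →
  (∀ u0 ∈ Ω, ∃ ρ Y K, Metric.ball u0 ρ ⊆ Ω ∧ Loc C M H u0 ρ Y K) →
  ∃ (a : ℕ) (φ : ℂ → Vec n), DifferentiableOn ℂ φ Ω ∧ (∃ u ∈ Ω, φ u ≠ 0) ∧ ∀ u ∈ Ω, φ u ∈ C ∧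
    Tendsto (fun s : ℂ => e (-(a * s) / M) • H u s) atI (𝓝 (φ u)) ∧
    ∃ v w, Lim φ (𝓝[≠] u) v ∧ Lim (H u) atI w ∧ lam v = lam w

/-- modular in the first variable, periodic in the second -/
structure M1 (C : Set (Vec n)) (M : ℕ) (k : ℤ) (G : ℍ → ℍ → Vec n) : Prop where
  hol : ∀ p q : ℍ → ℍ, Hol (fun τ => (p τ : ℂ)) → Hol (fun τ => (q τ : ℂ)) →
    ∀ i, Hol fun τ => G (p τ) (q τ) i
  cont : Continuous fun p : ℍ × ℍ => G p.1 p.2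
  gro : ∃ (K : ℝ) (r : ℕ), ∀ τ σ, ‖G τ σ‖ ≤ K * (kap τ * kap σ) ^ r
  law : ∀ γ ∈ Gamma M, ∀ τ σ : ℍ, G (γ • τ) σ = jf γ τ ^ k • G τ σ
  per : ∀ τ σ, G τ ((M : ℝ) +ᵥ σ) = G τ σ
  ne : ∀ τ σ, G τ σ ≠ 0
  mem : ∀ τ σ, G τ σ ∈ C

/-- modular in both variables -/
def MM (C : Set (Vec n)) (M : ℕ) (k : ℤ) (G : ℍ → ℍ → Vec n) : Prop :=
  M1 C M k G ∧ M1 C M k fun σ τ => G τ σ

def beta (lam : Vec n → ℂ) (G : ℍ → ℍ → Vec n) (τ : ℍ) : ℂ := lc lam (G τ) atImInfty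

def kappa (lam : Vec n → ℂ) (G : ℍ → ℍ → Vec n) : ℂ := lc lam (fun τ => G τ τ) atImInfty

def S_Surf : Prop := ∀ (n : ℕ) (C : Set (Vec n)) lam, Cyc C lam → ∀ (M : ℕ) (k : ℤ) G, 0 < M →
  M1 C M k G → Rec fun τ => beta lam G τ - kappa lam G

def S_InS : Prop := ∀ (n : ℕ) (C : Set (Vec n)) lam, Cyc C lam → ∀ (M : ℕ) (k : ℤ) G (κ : ℂ),
  0 < M → MM C M k G → (∀ τ, beta lam G τ = κ) → (∀ σ, beta lam (fun σ τ => G τ σ) σ = κ) →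
  InS (fun τ σ => lam (G τ σ) - κ) ∧ LevS M fun τ σ => lam (G τ σ) - κ

/-! ### the domain and the group -/

structure Ctx (S : ZM m) (z0 : CW m) : Prop where
  symm : S.IsSymm
  neg : z0 ∈ negCone S
  pos : ∀ x : Fin m → ℝ, x ≠ 0 → bf S (fun i => (x i : ℂ)) z0 = 0 → 0 < bf S x x

/-- an integral matrix applied to a vector -/
def mv {R : Type} [CommRing R] (g : ZM m) (z : Fin m → R) : Fin m → R :=
  (g.map (Int.cast : ℤ → R)).mulVec z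

def cC (x : QV m) : CW m := fun i => x i

def S_Dom : Prop := ∀ (m : ℕ) (S : ZM m) (z0 : CW m), Ctx S z0 →
  (∀ z ∈ dom S z0, ∀ c : ℂ, c ≠ 0 → c • z ∈ dom S z0) ∧
  (∀ z ∈ negCone S, z ∈ dom S z0 ∨ star z ∈ dom S z0) ∧
  (∀ z ∈ dom S z0, star z ∉ dom S z0) ∧
  (∀ z ∈ negCone S, ∀ x : Fin m → ℝ, x ≠ 0 → bf S (fun i => (x i : ℂ)) z = 0 → 0 < bf S x x) ∧
  S.det ≠ 0 ∧
  ∀ g : ZM m, g.transpose * S * g = S → ∀ z ∈ dom S z0, mv g z ∈ dom S z0 →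
    ∀ z' ∈ dom S z0, mv g z' ∈ dom S z0

def S_Gam : Prop := ∀ (m : ℕ) (S : ZM m) (z0 : CW m) (N : ℕ), Ctx S z0 →
  (∃ Γ : Subgroup (GL (Fin m) ℤ), ∀ g, g ∈ Γ ↔ InGam S z0 N g.1) ∧
  ∀ g, InGam S z0 N g → (∃ g' : GL (Fin m) ℤ, g'.1 = g) ∧ ∀ z ∈ dom S z0, mv g z ∈ dom S z0

/-- `z` is orthogonal to the columns of `x` -/
def Orth (S : ZM m) (x : Matrix (Fin m) (Fin b) ℤ) (z : CW m) : Prop :=
  ∀ i, bf S (fun r => (x r i : ℂ)) z = 0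

def S_Uniq : Prop := ∀ (b : ℕ) (S : ZM (b + 2)) (z0 : CW (b + 2)), Ctx S z0 →
  ∀ x : Matrix (Fin (b + 2)) (Fin b) ℤ, (x.transpose * S * x).det ≠ 0 →
  ∀ z ∈ dom S z0, Orth S x z → (∀ z' ∈ dom S z0, Orth S x z' → ∃ c : ℂ, c ≠ 0 ∧ z' = c • z) ∧
    ∀ (N : ℕ) (g : ZM (b + 2)), 3 ≤ N → InGam S z0 N g → g * x = x → g = 1

/-- tuples of modular forms without common zero, with values in `C` -/
structure Fm (S : ZM m) (z0 : CW m) (N : ℕ) (k : ℤ) (C : Set (Vec n))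
    (F : Fin (n + 1) → CW m → ℂ) : Prop where
  form : ∀ i, IsForm S z0 N k (F i)
  ne : ∀ z ∈ dom S z0, (fun i => F i z) ≠ 0
  mem : ∀ z ∈ dom S z0, (fun i => F i z) ∈ C

/-! ### frames -/

@[ext] structure Fr (m : ℕ) where
  a : QV m
  b : QV m
  c : QV m
  d : QV m

def Fr.ap (j : Fr m) (Y : M2) : QV m := Y 0 0 • j.a + Y 0 1 • j.b + Y 1 0 • j.c + Y 1 1 • j.d

structure Ok (S : ZM m) (j : Fr m) : Prop where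
  aa : bf S j.a j.a = 0
  ab : bf S j.a j.b = 0
  ac : bf S j.a j.c = 0
  ad : bf S j.a j.d = 1
  bb : bf S j.b j.b = 0
  bc : bf S j.b j.c = -1
  bd : bf S j.b j.d = 0
  cc : bf S j.c j.c = 0
  cd : bf S j.c j.d = 0
  dd : bf S j.d j.d = 0

def Perp (S : ZM m) (j : Fr m) (w : QV m) : Prop :=
  bf S j.a w = 0 ∧ bf S j.b w = 0 ∧ bf S j.c w = 0 ∧ bf S j.d w = 0

def zp (j : Fr m) (τ σ : ℂ) : CW m :=
  -σ • cC j.a + (σ * τ) • cC j.b - cC j.c + τ • cC j.d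

def z3 (S : ZM m) (j : Fr m) (v : QV m) (τ σ u : ℂ) : CW m :=
  zp j τ σ + u • cC v - (((bf S v v / 2 : ℚ) : ℂ) * u ^ 2) • cC j.b

/-- positive frames -/
structure PF (S : ZM m) (z0 : CW m) (j : Fr m) : Prop where
  ok : Ok S j
  pos : ∀ τ σ : ℍ, zp j τ σ ∈ dom S z0

/-- the frame `Y ↦ j (B Y adj A)` -/
def Fr.act (j : Fr m) (A B : M2) : Fr m :=
  ⟨j.ap (B * !![1, 0; 0, 0] * A.adjugate), j.ap (B * !![0, 1; 0, 0] * A.adjugate),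
    j.ap (B * !![0, 0; 1, 0] * A.adjugate), j.ap (B * !![0, 0; 0, 1] * A.adjugate)⟩

def Fr.eb (S : ZM m) (j : Fr m) (w : QV m) : Fr m :=
  ⟨j.a, j.b, j.c - w + (bf S w w / 2) • j.b, j.d⟩

def Fr.sw (j : Fr m) : Fr m := ⟨-j.d, j.b, j.c, -j.a⟩

def Fr.eps (j : Fr m) : Fr m := ⟨j.a, -j.b, -j.c, j.d⟩

/-- the coordinates of the projection to the image of the frame -/
def Fr.co (S : ZM m) (j : Fr m) (x : QV m) : M2 :=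
  !![bf S j.d x, -bf S j.c x; -bf S j.b x, bf S j.a x]

def GF (F : Fin (n + 1) → CW m → ℂ) (j : Fr m) (τ σ : ℍ) : Vec n := fun i => F i (zp j τ σ)

def S_Tube : Prop := ∀ (m : ℕ) (S : ZM m) (z0 : CW m), Ctx S z0 → ∀ j, PF S z0 j →
  (∀ v, Perp S j v → ∀ τ σ u : ℂ, 0 < τ.im →
    ((bf S v v / 2 : ℚ) : ℝ) * u.im ^ 2 < τ.im * σ.im → z3 S j v τ σ u ∈ dom S z0) ∧
  (∀ w, Perp S j w → w ≠ 0 → 0 < bf S w w) ∧
  (∀ A B : M2, 0 < A.det → A.det * B.det = 1 → PF S z0 (j.act A B)) ∧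
  (∀ w, Perp S j w → PF S z0 (j.eb S w)) ∧ PF S z0 j.sw

def S_Eps : Prop := ∀ (m : ℕ) (S : ZM m) (z0 : CW m), Ctx S z0 → ∀ j, Ok S j →
  (PF S z0 j ∨ PF S z0 j.eps) ∧ ¬ (PF S z0 j ∧ PF S z0 j.eps)

def S_Lev : Prop := ∀ (m : ℕ) (S : ZM m) (z0 : CW m) (N : ℕ), Ctx S z0 → 0 < N →
  ∀ j, PF S z0 j → ∃ M, 0 < M ∧ ∀ γ1 ∈ Gamma M, ∀ γ2 ∈ Gamma M, ∃ g, InGam S z0 N g ∧
    (∀ Y, mv g (j.ap Y) = j.ap (castZ γ2.1 * Y * (castZ γ1.1).adjugate)) ∧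
    ∀ w, Perp S j w → mv g w = w

def S_Eich : Prop := ∀ (m : ℕ) (S : ZM m) (z0 : CW m) (N : ℕ), Ctx S z0 → 0 < N →
  ∀ j, PF S z0 j → ∀ w, Perp S j w → ∃ (t : ℕ) (v : QV m) (g g' : ZM m), 0 < t ∧
    v = (t : ℚ) • w ∧ InGam S z0 N g ∧ InGam S z0 N g' ∧ ∀ τ σ u : ℂ,
      mv g (z3 S j v τ σ u) = z3 S j v τ σ (u + 1) ∧
      mv g' (z3 S j v τ σ u) =
        z3 S j v τ (σ + ((bf S v v / 2 : ℚ) : ℂ) * (2 * u + τ)) (u + τ)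

def S_GF : Prop := ∀ (m n : ℕ) (S : ZM m) (z0 : CW m) (N : ℕ) (k : ℤ) (C : Set (Vec n)) F,
  Ctx S z0 → 0 < N → Fm S z0 N k C F → ∀ j, PF S z0 j → ∃ M, 0 < M ∧ MM C M k (GF F j)

def S_Loc3 : Prop := ∀ (m n : ℕ) (S : ZM m) (z0 : CW m) (N : ℕ) (k : ℤ) (C : Set (Vec n)) F,
  Ctx S z0 → 0 < N → Fm S z0 N k C F → ∀ j, PF S z0 j → ∀ v, Perp S j v → ∃ M, 0 < M ∧
    ∀ (τ : ℍ) (u0 : ℂ), ∃ ρ Y K, Loc C M (fun u s i => F i (z3 S j v τ s u)) u0 ρ Y K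

def S_I1 : Prop := ∀ (m n : ℕ) (S : ZM m) (z0 : CW m) (N : ℕ) (k : ℤ) (C : Set (Vec n)) F lam,
  Cyc C lam → Ctx S z0 → 0 < N → Fm S z0 N k C F → ∀ j, PF S z0 j → ∀ A B : M2, 0 < A.det →
    A.det * B.det = 1 → ∀ τ, beta lam (GF F (j.act A B)) τ = beta lam (GF F j) (act A τ)

def S_I2 : Prop := ∀ (m n : ℕ) (S : ZM m) (z0 : CW m) (N : ℕ) (k : ℤ) (C : Set (Vec n)) F lam,
  Cyc C lam → Ctx S z0 → 0 < N → Fm S z0 N k C F → ∀ j, PF S z0 j → ∀ w, Perp S j w →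
    ∀ τ, beta lam (GF F (j.eb S w)) τ = beta lam (GF F j) τ

def S_Inv : Prop := ∀ (m : ℕ) (S : ZM m) (z0 : CW m), Ctx S z0 → 4 < m → ∀ β : Fr m → ℍ → ℂ,
  (∀ j, PF S z0 j → ∀ A B : M2, 0 < A.det → A.det * B.det = 1 →
    ∀ τ, β (j.act A B) τ = β j (act A τ)) →
  (∀ j, PF S z0 j → ∀ w, Perp S j w → ∀ τ, β (j.eb S w) τ = β j τ) →
  ∀ j, PF S z0 j → LevU 1 (β j)

def S_Move : Prop := ∀ (m : ℕ) (S : ZM m) (z0 : CW m), Ctx S z0 → ∀ κ : Fr m → ℂ,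
  (∀ j, PF S z0 j → ∀ A B : M2, 0 < A.det → A.det * B.det = 1 → κ (j.act A B) = κ j) →
  (∀ j, PF S z0 j → ∀ w, Perp S j w → κ (j.eb S w) = κ j) →
  (∀ j, PF S z0 j → κ j.sw = κ j) → ∀ j j', PF S z0 j → PF S z0 j' → κ j = κ j'

/-! ### regrouping the special cycles -/

def S_Fr0 : Prop := ∀ (m : ℕ) (S : ZM m), S.IsSymm → S.det ≠ 0 → ∀ e : Fin 2 → QV m,
  LinearIndependent ℚ e → (∀ i l, bf S (e i) (e l) = 0) → ∃ j, Ok S j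

def S_Ext : Prop := ∀ (m : ℕ) (S : ZM m), S.IsSymm → ∀ (r : ℕ) (u u' : Fin r → QV m),
  (∀ i l, bf S (u i) (u l) = bf S (u' i) (u' l)) →
  (Matrix.of fun i l => bf S (u i) (u l)).det ≠ 0 →
  ∃ g : QV m ≃ₗ[ℚ] QV m, (∀ x y, bf S (g x) (g y) = bf S x y) ∧ ∀ i, g (u i) = u' i

/-- a rational combination of the columns of `x` -/
def xq (x : Matrix (Fin m) (Fin b) ℤ) (a : QV b) : QV m := (x.map (Int.cast : ℤ → ℚ)).mulVec a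

/-- two `T`-orthogonal vectors and the dual linear forms -/
structure FD (T : ZM b) (a1 a2 α β : QV b) (n1 n2 : ℚ) : Prop where
  p1 : 0 < n1
  p2 : 0 < n2
  t1 : mv T a1 = (2 * n1) • α
  t2 : mv T a2 = (2 * n2) • β
  e11 : α ⬝ᵥ a1 = 1
  e12 : α ⬝ᵥ a2 = 0
  e21 : β ⬝ᵥ a1 = 0
  e22 : β ⬝ᵥ a2 = 1

/-- the components of the columns of `x` orthogonal to `x a1` and `x a2` -/
def kk (a1 a2 α β : QV b) (x : Matrix (Fin m) (Fin b) ℤ) (i : Fin b) : QV m :=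
  (fun r => (x r i : ℚ)) - α i • xq x a1 - β i • xq x a2

def S_Fib : Prop := ∀ (b : ℕ) (S : ZM (b + 2)) (z0 : CW (b + 2)), Ctx S z0 → (∃ j, Ok S j) →
  ∀ x0 : Matrix (Fin (b + 2)) (Fin b) ℤ, (x0.transpose * S * x0).det ≠ 0 →
  (∃ z ∈ dom S z0, Orth S x0 z) → ∃ a1 a2 α β n1 n2,
    FD (x0.transpose * S * x0) a1 a2 α β n1 n2 ∧
    ∀ x : Matrix (Fin (b + 2)) (Fin b) ℤ, x.transpose * S * x = x0.transpose * S * x0 →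
      ∃ j, PF S z0 j ∧ ∀ y, (∀ i, bf S (kk a1 a2 α β x i) y = 0) ↔ ∃ Y, y = j.ap Y

/-- left multiplication -/
def rho (m b : ℕ) : GL (Fin m) ℤ →* Equiv.Perm (Matrix (Fin m) (Fin b) ℤ) where
  toFun g := ⟨fun x => g.1 * x, fun x => (g⁻¹).1 * x,
    fun x => by simp only [← Matrix.mul_assoc, Units.inv_mul, Matrix.one_mul],
    fun x => by simp only [← Matrix.mul_assoc, Units.mul_inv, Matrix.one_mul]⟩
  map_one' := by ext1 x; simp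
  map_mul' g h := by ext1 x; simp [Matrix.mul_assoc]

def Reps {G Y : Type} [Group G] (ρ : G →* Equiv.Perm Y) (Γ : Subgroup G) (Ω : Set Y)
    (R : Finset Y) : Prop :=
  (∀ y ∈ R, y ∈ Ω) ∧ ∀ x ∈ Ω, ∃! y, y ∈ R ∧ ∃ g ∈ Γ, x = ρ g y

def S_Orb : Prop := ∀ (G Y Z : Type) [Group G] (ρ : G →* Equiv.Perm Y) (Γ : Subgroup G)
  (Ω : Set Y) (pr : Y → Z) (U : Y → ℂ) (R : Finset Y),
  (∀ g ∈ Γ, ∀ x ∈ Ω, ρ g x ∈ Ω ∧ U (ρ g x) = U x) → (∀ g ∈ Γ, ∀ x ∈ Ω, ρ g x = x → g = 1) →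
  (∀ g ∈ Γ, ∀ x ∈ Ω, ∀ y ∈ Ω, pr x = pr y → pr (ρ g x) = pr (ρ g y)) → Reps ρ Γ Ω R →
  (∀ x ∈ Ω, ∃ (Δ : Subgroup G) (R' : Finset Y), Δ ≤ Γ ∧ (∀ δ ∈ Δ, pr (ρ δ x) = pr x) ∧
    Reps ρ Δ {y | y ∈ Ω ∧ pr y = pr x} R' ∧ ∑ y ∈ R', U y = 0) →
  ∑ y ∈ R, U y = 0

def S_Fibre : Prop := ∀ (m b : ℕ) (S : ZM m) (z0 : CW m) (N : ℕ), Ctx S z0 → 0 < N →
  ∀ Γ : Subgroup (GL (Fin m) ℤ), (∀ g, g ∈ Γ ↔ InGam S z0 N g.1) →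
  ∀ (T : ZM b) (μ : Matrix (Fin m) (Fin b) (ZMod N)) a1 a2 α β n1 n2, FD T a1 a2 α β n1 n2 →
  ∀ (u : CW m → ℂ) (U : Matrix (Fin m) (Fin b) ℤ → ℂ),
  (∀ y, OSpecial S N T μ y → ∀ z ∈ dom S z0, Orth S y z → U y = u z) →
  ∀ x, OSpecial S N T μ x → ∀ j, PF S z0 j →
  (∀ y, (∀ i, bf S (kk a1 a2 α β x i) y = 0) ↔ ∃ Y, y = j.ap Y) →
  InS (fun τ σ => u (zp j τ σ)) →
  ∃ (Δ : Subgroup (GL (Fin m) ℤ)) (R' : Finset (Matrix (Fin m) (Fin b) ℤ)), Δ ≤ Γ ∧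
    (∀ δ ∈ Δ, kk a1 a2 α β (rho m b δ x) = kk a1 a2 α β x) ∧
    Reps (rho m b) Δ {y | OSpecial S N T μ y ∧ kk a1 a2 α β y = kk a1 a2 α β x} R' ∧
    ∑ y ∈ R', U y = 0

def S_Sys : Prop := ∀ (b : ℕ) (S : ZM (b + 2)) (z0 : CW (b + 2)) (N : ℕ), Ctx S z0 → 0 < N →
  ∀ T : ZM b, T.PosDef → ∀ μ, ∃ R P, IsOSystem S z0 N T μ R P

end

end Pool.Agent.P.MP_b8021b_nt.CM.O
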