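import Pool.Agent.P.MP_b8021b_nt.CM.Lib

/-! Package P16, first file: vector valued transformation laws and finite Fourier analysis. -/

namespace Pool.Agent.P.MP_b8021b_nt.CM

open Complex hiding Gamma
open UpperHalfPlane hiding I
open MeasureTheory CongruenceSubgroup Filter
open scoped Real MatrixGroups ModularForm Topology ComplexConjugate Modular

noncomputable section

namespace PolyP

section law

variable {ι : Type} [Fintype ι] [DecidableEq ι]

theorem parseval (V : ι → ι → ℂ) (Q : ℝ)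
    (hV : ∀ k k', ∑ i, V i k * conj (V i k') = if k = k' then (Q : ℂ) else 0) (x : ι → ℂ) :
    ∑ i, ‖∑ k, V i k * x k‖ ^ 2 = Q * ∑ k, ‖x k‖ ^ 2 := by
  have h1 : ∀ i, ((‖∑ k, V i k * x k‖ : ℝ) : ℂ) ^ 2 =
      ∑ k, ∑ k', x k * conj (x k') * (V i k * conj (V i k')) := fun i => by
    rw [← Complex.mul_conj', map_sum, Finset.sum_mul_sum]
    refine Finset.sum_congr rfl fun k _ => Finset.sum_congr rfl fun k' _ => ?_
    rw [map_mul]
    ring
  apply Complex.ofReal_injective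
  push_cast
  simp only [h1]
  rw [Finset.sum_comm, Finset.mul_sum]
  refine Finset.sum_congr rfl fun k _ => ?_
  rw [Finset.sum_comm]
  simp only [← Finset.mul_sum, hV, mul_ite, mul_zero, Finset.sum_ite_eq, Finset.mem_univ, if_true]
  rw [Complex.mul_conj']
  ring

/-- the transformation law under `S` -/
def Law (V : ι → ι → ℂ) (κ : ℝ) (f : ι → ℍ → ℂ) : Prop :=
  ∀ i (τ : ℍ), f i (ModularGroup.S • τ) * (-I * τ) ^ (1 / 2 : ℂ) =
    κ * (τ : ℂ) ^ 2 * ∑ k, V i k * f k τ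

theorem norm_half (τ : ℍ) : ‖(-I * τ : ℂ) ^ (1 / 2 : ℂ)‖ ^ 2 = ‖(τ : ℂ)‖ := by
  have h := Complex.cpow_nat_inv_pow (-I * τ : ℂ) (n := 2) two_ne_zero
  have h2 : ((2 : ℕ) : ℂ)⁻¹ = 1 / 2 := by norm_num
  rw [h2] at h
  rw [← norm_pow, h]
  simp

theorem norm_pos (τ : ℍ) : 0 < ‖(τ : ℂ)‖ := norm_pos_iff.2 τ.ne_zero

theorem Law.norm {V : ι → ι → ℂ} {Q κ : ℝ} {f : ι → ℍ → ℂ}
    (hV : ∀ k k', ∑ i, V i k * conj (V i k') = if k = k' then (Q : ℂ) else 0) (h : Law V κ f)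
    (τ : ℍ) : ∑ i, ‖f i (ModularGroup.S • τ)‖ ^ 2 =
      κ ^ 2 * Q * (‖(τ : ℂ)‖ ^ 3 * ∑ i, ‖f i τ‖ ^ 2) := by
  have h1 : ∀ i, ‖f i (ModularGroup.S • τ)‖ ^ 2 =
      κ ^ 2 * ‖(τ : ℂ)‖ ^ 3 * ‖∑ k, V i k * f k τ‖ ^ 2 := fun i => by
    have h2 := congrArg (fun z => ‖z‖ ^ 2) (h i τ)
    simp only [norm_mul, mul_pow, norm_half, norm_pow, Complex.norm_real, Real.norm_eq_abs,
      sq_abs] at h2
    apply mul_right_cancel₀ (norm_pos τ).ne'
    rw [h2]
    ring
  simp only [h1]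
  rw [← Finset.mul_sum, parseval V Q hV]
  ring

theorem SS (τ : ℍ) : ModularGroup.S • (ModularGroup.S • τ) = τ := by
  apply UpperHalfPlane.ext
  rw [coe_S, coe_S]
  have := τ.ne_zero
  field_simp

theorem Law.normalise {V : ι → ι → ℂ} {Q κ : ℝ} {f : ι → ℍ → ℂ} (hQ : 0 < Q) (hκ : 0 < κ)
    (hV : ∀ k k', ∑ i, V i k * conj (V i k') = if k = k' then (Q : ℂ) else 0) (h : Law V κ f) :
    Law V (Real.sqrt Q)⁻¹ f := by
  by_cases h1 : κ ^ 2 * Q = 1
  · have h2 : κ = (Real.sqrt Q)⁻¹ := by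
      have hs : 0 < Real.sqrt Q := Real.sqrt_pos.2 hQ
      have h3 : (κ * Real.sqrt Q) ^ 2 = 1 ^ 2 := by
        rw [mul_pow, Real.sq_sqrt hQ.le, h1, one_pow]
      have h4 : κ * Real.sqrt Q = 1 := (pow_left_inj₀ (by positivity) zero_le_one two_ne_zero).1 h3
      exact eq_inv_of_mul_eq_one_left h4
    rwa [← h2]
  · have h0 : ∀ i τ, f i τ = 0 := fun i τ => by
      have e1 := h.norm hV τ
      have e2 := h.norm hV (ModularGroup.S • τ)
      rw [SS, e1, coe_S, norm_div, norm_neg, norm_one] at e2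
      have hp := norm_pos τ
      have e3 : ((κ ^ 2 * Q) ^ 2 - 1) * ∑ i, ‖f i τ‖ ^ 2 = 0 := by
        have e4 : κ ^ 2 * Q * ((1 / ‖(τ : ℂ)‖) ^ 3 *
            (κ ^ 2 * Q * (‖(τ : ℂ)‖ ^ 3 * ∑ i, ‖f i τ‖ ^ 2))) =
            (κ ^ 2 * Q) ^ 2 * ∑ i, ‖f i τ‖ ^ 2 := by
          field_simp
        rw [e4] at e2
        linarith
      have e5 : (κ ^ 2 * Q) ^ 2 - 1 ≠ 0 := fun e => h1 <|
        (pow_left_inj₀ (by positivity) zero_le_one two_ne_zero).1 (by rw [one_pow]; linarith)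
      have e6 := (mul_eq_zero.1 e3).resolve_left e5
      have e7 := (Finset.sum_eq_zero_iff_of_nonneg fun i _ => sq_nonneg ‖f i τ‖).1 e6 i
        (Finset.mem_univ _)
      exact norm_eq_zero.1 (pow_eq_zero_iff two_ne_zero |>.1 e7)
    intro i τ
    simp [h0]

omit [DecidableEq ι] in
theorem Law.sum {V : ι → ι → ℂ} {κ : ℝ} {Y : Type} (t : Finset Y) (a : Y → ℂ)
    (f : Y → ι → ℍ → ℂ) (h : ∀ y ∈ t, a y ≠ 0 → Law V κ (f y)) :
    Law V κ fun i τ => ∑ y ∈ t, a y * f y i τ := by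
  intro i τ
  have h1 : ∀ y ∈ t, a y * f y i (ModularGroup.S • τ) * (-I * τ) ^ (1 / 2 : ℂ) =
      κ * (τ : ℂ) ^ 2 * ∑ k, V i k * (a y * f y k τ) := fun y hy => by
    by_cases ha : a y = 0
    · simp [ha]
    · rw [mul_assoc, h y hy ha i τ, Finset.mul_sum, Finset.mul_sum, Finset.mul_sum]
      exact Finset.sum_congr rfl fun k _ => by ring
  rw [Finset.sum_mul, Finset.sum_congr rfl h1, ← Finset.mul_sum, Finset.sum_comm]
  simp only [Finset.mul_sum]

end law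

/-! ### series -/

theorem qs_lin {Y : Type} (t : Finset Y) (a : Y → ℂ) (c : Y → ℚ → ℂ) (h : ∀ y ∈ t, Conv (c y)) :
    Conv (fun m => ∑ y ∈ t, a y * c y m) ∧
      ∀ τ, qs (fun m => ∑ y ∈ t, a y * c y m) τ = ∑ y ∈ t, a y * qs (c y) τ := by
  have h1 := Conv.sum t (fun y => a y • c y) fun y hy => (Conv.smul (a y) (h y hy)).1
  have h2 : (fun m => ∑ y ∈ t, a y * c y m) = ∑ y ∈ t, a y • c y := by
    funext m
    simp [Finset.sum_apply]
  rw [h2]
  refine ⟨h1.1, fun τ => ?_⟩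
  rw [h1.2, Finset.sum_apply]
  exact Finset.sum_congr rfl fun y hy => by rw [(Conv.smul (a y) (h y hy)).2]; rfl

theorem qs_sc {j : ℚ} (hj : 0 < j) (g : ℚ → ℂ) :
    (Conv g → Conv fun x => g (x / j)) ∧ ∀ τ, qs (fun x => g (x / j)) τ = qs g (dil j τ) := by
  have key : ∀ (τ : ℍ) (m : ℚ), g (Equiv.mulLeft₀ j hj.ne' m / j) *
      e ((Equiv.mulLeft₀ j hj.ne' m : ℚ) * τ) = g m * e (m * dil j τ) := fun τ m => by
    rw [Equiv.mulLeft₀_apply, mul_div_cancel_left₀ _ hj.ne', coe_dil hj]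
    congr 2
    push_cast
    ring
  refine ⟨fun h τ => ?_, fun τ => ?_⟩
  · rw [← (Equiv.mulLeft₀ j hj.ne').summable_iff]
    refine (h (dil j τ)).congr fun m => ?_
    simp only [Function.comp_apply, key]
  · unfold qs
    rw [← (Equiv.mulLeft₀ j hj.ne').tsum_eq]
    exact tsum_congr fun m => key τ m

theorem dil_S {j : ℚ} (hj : 0 < j) (τ : ℍ) :
    dil j (ModularGroup.S • τ) = ModularGroup.S • dil j⁻¹ τ := by
  apply UpperHalfPlane.ext
  rw [coe_dil hj, coe_S, coe_S, coe_dil (inv_pos.2 hj)]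
  have := τ.ne_zero
  have h2 : (j : ℂ) ≠ 0 := by exact_mod_cast hj.ne'
  push_cast
  field_simp

theorem half_dil {j : ℚ} (hj : 0 < j) : ∃ a : ℝ, 0 < a ∧ ∀ τ : ℍ,
    (-I * dil j τ : ℂ) ^ (1 / 2 : ℂ) = a * (-I * τ : ℂ) ^ (1 / 2 : ℂ) := by
  refine ⟨Real.exp (Real.log j / 2), Real.exp_pos _, fun τ => ?_⟩
  have h0 : (-I * τ : ℂ) ≠ 0 := mul_ne_zero (neg_ne_zero.2 I_ne_zero) τ.ne_zero
  have hj' : (0 : ℝ) < j := by exact_mod_cast hj
  have h1 : (-I * dil j τ : ℂ) = ((j : ℝ) : ℂ) * (-I * τ) := by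
    rw [coe_dil hj]
    push_cast
    ring
  rw [h1, Complex.cpow_def_of_ne_zero (mul_ne_zero (by exact_mod_cast hj'.ne') h0),
    Complex.cpow_def_of_ne_zero h0, Complex.log_ofReal_mul hj' h0, add_mul, Complex.exp_add]
  congr 1
  push_cast
  congr 1
  ring

/-! ### integrals of periodic functions of one variable -/

theorem cls_rat (P : ℕ) (hP : 0 < P) (r x : ℚ) :
    (cls P r x = 1 ↔ ∃ k : ℤ, x = r + P * k) ∧ (cls P r x = 0 ↔ ¬ ∃ k : ℤ, x = r + P * k) := by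
  have hP' : (P : ℚ) ≠ 0 := by exact_mod_cast hP.ne'
  have h : IsInt ((P : ℚ)⁻¹ • (x - r)) ↔ ∃ k : ℤ, x = r + P * k := by
    rw [isInt_rat, smul_eq_mul]
    refine exists_congr fun k => ⟨fun e => ?_, fun e => ?_⟩
    · rw [← e]
      field_simp
      ring
    · rw [e]
      field_simp
      ring
  unfold cls
  rw [h]
  constructor <;> split_ifs with h1 <;> simp [h1]

theorem II_per (K P : ℕ) (hK : 0 < K) (hP : 0 < P) [NeZero (K * P)] (g : ℚ → ℂ)
    (h1 : ∀ (b : ℚ) (k : ℤ), g (b + P * k) = g b) (h2 : ∀ b, g b ≠ 0 → ∃ n : ℤ, b = n / K) :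
    II g = (∑ t : ZMod (K * P), g (t.val / K)) / P := by
  have hK' : (K : ℚ) ≠ 0 := by exact_mod_cast hK.ne'
  have h3 : g = fun b => ∑ t : ZMod (K * P), (g (t.val / K) • cls P ((t.val : ℚ) / K)) b := by
    funext b
    simp only [Pi.smul_apply, smul_eq_mul]
    by_cases hb : ∃ n : ℤ, b = n / K
    · obtain ⟨n, rfl⟩ := hb
      have key : ∀ t : ZMod (K * P), (∃ k : ℤ, (n : ℚ) / K = (t.val : ℚ) / K + P * k) ↔
          t = (n : ZMod (K * P)) := fun t => by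
        have e1 : t = ((t.val : ℤ) : ZMod (K * P)) := by simp
        conv_rhs => rw [e1, ZMod.intCast_eq_intCast_iff_dvd_sub]
        refine exists_congr fun k => ⟨fun e => ?_, fun e => ?_⟩
        · have e2 : (n : ℚ) = t.val + K * P * k := by
            field_simp at e
            linarith
          have e3 : n = (t.val : ℤ) + K * P * k := by exact_mod_cast e2
          push_cast
          linarith
        · have e2 : n = (t.val : ℤ) + K * P * k := by
            push_cast at e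
            linarith
          have e3 : (n : ℚ) = t.val + K * P * k := by exact_mod_cast e2
          rw [e3]
          field_simp
      rw [Finset.sum_eq_single (n : ZMod (K * P))]
      · obtain ⟨k, hk⟩ := (key _).2 rfl
        rw [(cls_rat P hP _ _).1.2 ⟨k, hk⟩, mul_one, hk, h1]
      · intro t _ ht
        rw [(cls_rat P hP _ _).2.2 fun e => ht ((key t).1 e), mul_zero]
      · intro h
        exact absurd (Finset.mem_univ _) h
    · have e1 : g b = 0 := by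
        by_contra e
        exact hb (h2 b e)
      rw [e1]
      refine (Finset.sum_eq_zero fun t _ => ?_).symm
      rw [(cls_rat P hP _ _).2.2 ?_, mul_zero]
      rintro ⟨k, rfl⟩
      refine hb ⟨t.val + K * P * k, ?_⟩
      push_cast
      field_simp
  conv_lhs => rw [h3]
  rw [II_sum _ _ fun t _ => (sb_cls hP _).smul _, Finset.sum_div]
  refine Finset.sum_congr rfl fun t _ => ?_
  rw [II_smul, II_cls hP, idx_rat]
  ring

theorem conj_eM (Q : ℕ) [NeZero Q] (x : ZMod Q) : conj (eM Q x) = eM Q (-x) := by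
  have h : -x = ((-(x.val : ℤ) : ℤ) : ZMod Q) := by simp
  rw [h, eM_intCast, eM, conj_eq]
  congr 1
  push_cast
  ring

theorem eM_orth (Q : ℕ) [NeZero Q] (a b : ZMod Q) :
    ∑ t : ZMod Q, eM Q (t * a) * conj (eM Q (t * b)) = if a = b then (Q : ℂ) else 0 := by
  simp only [conj_eM, ← eM_add]
  have h := sum_eM Q (a - b)
  simp only [sub_eq_zero] at h
  rw [← h]
  exact Finset.sum_congr rfl fun t _ => by congr 1; ring

/-! ### the Fourier transform on classes of matrices -/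

theorem isInt_bil {A B : M2} (hA : IsInt A) (hB : IsInt B) : IsInt (bil A B) := by
  obtain ⟨A', rfl⟩ := (isInt_M2 A).1 hA
  obtain ⟨B', rfl⟩ := (isInt_M2 B).1 hB
  refine (isInt_rat _).2 ⟨bil A' B', ?_⟩
  simp [bil, castZ]

theorem isInt_det {A : M2} (hA : IsInt A) : IsInt A.det := by
  obtain ⟨A', rfl⟩ := (isInt_M2 A).1 hA
  exact (isInt_rat _).2 ⟨A'.det, castZ_det A'⟩

theorem bil_smul (a b : ℚ) (A B : M2) : bil (a • A) (b • B) = a * b * bil A B := by
  simp [bil]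
  ring

theorem bil_comm (A B : M2) : bil A B = bil B A := by
  simp [bil]
  ring

/-- the bilinear form as a linear map in the first variable -/
def bilL (Z : M2) : M2 →ₗ[ℚ] ℚ where
  toFun Y := -bil Y Z
  map_add' A B := by
    simp [bil]
    ring
  map_smul' a A := by
    simp [bil]
    ring

theorem FV_cls {M : ℕ} (hM : 0 < M) (ν : M2) {Z : M2} (hZ : IsInt ((M : ℚ) • Z)) :
    FV (cls M ν) Z = eq (-bil ν Z) / (M : ℂ) ^ 4 := by
  have hM' : (M : ℚ) ≠ 0 := by exact_mod_cast hM.ne'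
  have h : (fun Y => cls M ν Y * eq (-bil Y Z)) = fun Y => eq (-bil ν Z) * cls M ν Y := by
    funext Y
    unfold cls
    split_ifs with h1
    · have h2 := isInt_bil h1 hZ
      rw [bil_smul, inv_mul_cancel₀ hM', one_mul] at h2
      have h3 : -bil Y Z = -bil ν Z + -bil (Y - ν) Z := by
        simp [bil]
        ring
      rw [h3, eq_add, (eq_eq_one_iff _).2 h2.neg]
      ring
    · simp
  rw [FV, h, II_const_mul, II_cls hM, idx_M2]
  push_cast
  ring

theorem FV_sum {Y : Type} (t : Finset Y) (a : Y → ℂ) (φ : Y → M2 → ℂ) (h : ∀ y ∈ t, SB (φ y))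
    (Z : M2) : FV (∑ y ∈ t, a y • φ y) Z = ∑ y ∈ t, a y * FV (φ y) Z := by
  have h1 : (fun X => (∑ y ∈ t, a y • φ y) X * eq (-bil X Z)) =
      fun X => ∑ y ∈ t, (a y • fun X => φ y X * eq (bilL Z X)) X := by
    funext X
    simp only [Finset.sum_apply, Pi.smul_apply, smul_eq_mul, Finset.sum_mul, mul_assoc]
    rfl
  rw [FV, h1, II_sum _ _ fun y hy => ((h y hy).mul_eq _).smul _]
  exact Finset.sum_congr rfl fun y _ => II_smul _ _

/-- `R` is a system of representatives for the classes of level `M` -/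
def Reps (M : ℕ) (R : Finset M2) : Prop :=
  (∀ r ∈ R, IsInt ((M : ℚ) • r)) ∧
    (∀ x, IsInt ((M : ℚ) • x) → ∃! r, r ∈ R ∧ IsInt ((M : ℚ)⁻¹ • (x - r))) ∧
    ∀ φ : M2 → ℂ, Lev M φ → φ = ∑ r ∈ R, φ r • cls M r

theorem exists_reps {M : ℕ} (hM : 0 < M) : ∃ R, Reps M R := by
  obtain ⟨R, h1, -, h2, h3⟩ := exists_cls_reps M2 hM
  exact ⟨R, h1, h2, h3⟩

theorem FV_orth {M : ℕ} (hM : 0 < M) {R : Finset M2} (hR : Reps M R) (μ μ' : R) :
    ∑ ν : R, FV (cls M ν.1) μ.1 * conj (FV (cls M ν.1) μ'.1) = if μ = μ' then 1 else 0 := by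
  have h1 := FV_FV (sb_cls hM μ.1) (-μ'.1)
  rw [hR.2.2 _ ((lev_cls hM (hR.1 _ μ.2)).lev_FV hM), FV_sum _ _ _ fun y _ => sb_cls hM y,
    neg_neg, ← Finset.sum_coe_sort] at h1
  have h2 : cls M μ.1 μ'.1 = if μ = μ' then 1 else 0 := by
    have h3 : IsInt ((M : ℚ)⁻¹ • (μ'.1 - μ'.1)) := by
      rw [sub_self, smul_zero]
      exact isInt_zero
    unfold cls
    split_ifs with h4 h5 h5
    · rfl
    · exact absurd (Subtype.ext ((hR.2.1 _ (hR.1 _ μ'.2)).unique ⟨μ.2, h4⟩ ⟨μ'.2, h3⟩)) h5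
    · exact absurd (h5 ▸ h3) h4
    · rfl
  rw [← h2, ← h1]
  refine Finset.sum_congr rfl fun ν _ => ?_
  have h6 : IsInt ((M : ℚ) • (-μ'.1)) := by
    rw [smul_neg]
    exact (hR.1 _ μ'.2).neg
  rw [FV_cls hM _ (hR.1 _ μ.2), FV_cls hM _ (hR.1 _ μ'.2), FV_cls hM _ (hR.1 _ ν.2),
    FV_cls hM _ h6, map_div₀, conj_eq, bil_comm ν.1 μ.1]
  congr 2
  · congr 1
    simp [bil]
    ring
  · simp

/-- the matrix of the transformation law -/
def VV (M Q : ℕ) (R : Finset M2) (i k : R × ZMod Q) : ℂ :=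
  FV (cls M i.1.1) k.1.1 * eM Q (i.2 * k.2)

theorem VV_orth {M Q : ℕ} [NeZero Q] (hM : 0 < M) {R : Finset M2} (hR : Reps M R)
    (k k' : R × ZMod Q) :
    ∑ i, VV M Q R i k * conj (VV M Q R i k') = if k = k' then ((Q : ℝ) : ℂ) else 0 := by
  have h : ∑ i, VV M Q R i k * conj (VV M Q R i k') =
      (∑ ν : R, FV (cls M ν.1) k.1.1 * conj (FV (cls M ν.1) k'.1.1)) *
        ∑ t : ZMod Q, eM Q (t * k.2) * conj (eM Q (t * k'.2)) := by
    rw [Fintype.sum_prod_type, Finset.sum_mul_sum]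
    refine Finset.sum_congr rfl fun ν _ => Finset.sum_congr rfl fun t _ => ?_
    simp only [VV, map_mul]
    ring
  rw [h, FV_orth hM hR, eM_orth]
  by_cases h1 : k.1 = k'.1 <;> by_cases h2 : k.2 = k'.2 <;> simp [Prod.ext_iff, h1, h2]

end PolyP

end

end Pool.Agent.P.MP_b8021b_nt.CM
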