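import Pool.Agent.P.MP_b8021b_nt.CM.PolyA

/-! Package P16, second file: the transformation law of the weight three halves series. -/

namespace Pool.Agent.P.MP_b8021b_nt.CM

open Complex hiding Gamma
open UpperHalfPlane hiding I
open MeasureTheory CongruenceSubgroup Filter
open scoped Real MatrixGroups ModularForm Topology ComplexConjugate Modular

noncomputable section

namespace PolyP

/-- decomposition along the trace -/
def T4 : (Q3 × ℚ) ≃ₗ[ℚ] M2 where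
  toFun p := tz p.1 + p.2 • (1 : M2)
  invFun X := ((X 0 1, (X 0 0 - X 1 1) / 2, -X 1 0), (X 0 0 + X 1 1) / 2)
  map_add' p q := by
    ext i j
    fin_cases i <;> fin_cases j <;> simp [tz] <;> ring
  map_smul' a p := by
    ext i j
    fin_cases i <;> fin_cases j <;> simp [tz] <;> ring
  left_inv p := by
    ext <;> simp [tz]
    ring
  right_inv X := by
    ext i j
    fin_cases i <;> fin_cases j <;> simp [tz] <;> ring

/-- left multiplication -/
def mulL (y : GQ) : M2 ≃ₗ[ℚ] M2 where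
  toFun X := y.1 * X
  invFun X := (y⁻¹).1 * X
  map_add' A B := mul_add _ _ _
  map_smul' a A := by simp
  left_inv X := by simp [← mul_assoc]
  right_inv X := by simp [← mul_assoc]

def L4 (y : GQ) : (Q3 × ℚ) ≃ₗ[ℚ] M2 := T4.trans (mulL y)

theorem L4_apply (y : GQ) (Y : Q3) (a : ℚ) : L4 y (Y, a) = y.1 * (tz Y + a • (1 : M2)) := rfl

theorem bil_L4 (y : GQ) (Y Z : Q3) (a b : ℚ) :
    bil (L4 y (Y, a)) (L4 y (Z, b)) = y.1.det * (bil3 Y Z + 2 * a * b) := by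
  simp [L4_apply, bil, bil3, tz, Matrix.mul_apply, Fin.sum_univ_two, Matrix.det_fin_two]
  ring

theorem bil_L4_self (y : GQ) (Z : Q3) (b : ℚ) : bil (L4 y (Z, b)) y.1 = 2 * y.1.det * b := by
  simp [L4_apply, bil, tz, Matrix.mul_apply, Fin.sum_univ_two, Matrix.det_fin_two]
  ring

theorem L4_shift (y : GQ) (Z : Q3) (b c : ℚ) : L4 y (Z, b + c) = L4 y (Z, b) + c • y.1 := by
  simp [L4_apply, add_smul, mul_add, add_assoc]

/-- the slice with fixed trace -/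
def omg (y : GQ) (φ : M2 → ℂ) (a : ℚ) (Y : Q3) : ℂ := φ (L4 y (Y, a))

theorem omg_sb (y : GQ) {φ : M2 → ℂ} (h : SB φ) (a : ℚ) : SB (omg y φ a) := by
  obtain ⟨M, hM, h1⟩ := h.comp_inj (L4 y).toLinearMap (L4 y).injective
  exact (h1.fst a).sb hM

def l3 (Z : Q3) : Q3 × ℚ →ₗ[ℚ] ℚ where
  toFun p := -bil3 p.1 Z
  map_add' p q := by
    simp [bil3]
    ring
  map_smul' a p := by
    simp [bil3]
    ring

theorem fourier_aux (y : GQ) : ∃ c : ℝ, 0 < c ∧ ∀ φ : M2 → ℂ, SB φ → ∀ Z : Q3,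
    SB (fun a => F3 (omg y φ a) (y.1.det • Z)) ∧ ∀ b : ℚ, c * FV φ (L4 y (Z, b)) =
      F1 (-2 * y.1.det) (fun a => F3 (omg y φ a) (y.1.det • Z)) b := by
  obtain ⟨c, hc, H⟩ := II_equiv (L4 y)
  refine ⟨c, hc, fun φ hφ Z => ⟨?_, fun b => ?_⟩⟩
  · exact ((hφ.comp_inj (L4 y).toLinearMap (L4 y).injective).mul_eq (l3 (y.1.det • Z))).II_fst
  · have h1 := hφ.mul_eq (bilL (L4 y (Z, b)))
    have h2 := (II_prod' (h1.comp_inj (L4 y).toLinearMap (L4 y).injective)).symm.trans (H _ h1)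
    refine h2.symm.trans ?_
    unfold F1
    congr 1
    funext a
    beta_reduce
    rw [F3, mul_comm (II _), ← II_const_mul]
    congr 1
    funext Y
    change φ (L4 y (Y, a)) * eq (-bil (L4 y (Y, a)) (L4 y (Z, b))) = _
    have h3 : -bil (L4 y (Y, a)) (L4 y (Z, b)) =
        -2 * y.1.det * a * b + -bil3 Y (y.1.det • Z) := by
      rw [bil_L4]
      simp [bil3]
      ring
    rw [h3, eq_add, omg]
    ring

theorem fourier_id {M j : ℕ} (hM : 0 < M) (hj : 0 < j) [NeZero (2 * j * M ^ 2)] (y : GQ)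
    (hy : y.1.det = j / M ^ 2) (hyM : IsInt ((M : ℚ) • y.1)) : ∃ κ : ℝ, 0 < κ ∧
    ∀ φ : M2 → ℂ, Lev M φ → ∀ (t : ZMod (2 * j * M ^ 2)) (Z : Q3),
      F3 (omg y φ (t.val / (2 * j : ℕ))) (y.1.det • Z) =
        κ * ∑ t' : ZMod (2 * j * M ^ 2), eM _ (t * t') * omg y (FV φ) (t'.val / (2 * j : ℕ)) Z := by
  obtain ⟨c, hc, H⟩ := fourier_aux y
  have hM' : (M : ℚ) ≠ 0 := by exact_mod_cast hM.ne'
  have hj' : (j : ℚ) ≠ 0 := by exact_mod_cast hj.ne'
  have hd : 0 < y.1.det := by rw [hy]; positivity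
  refine ⟨c / (2 * j), by positivity, fun φ hφ t Z => ?_⟩
  obtain ⟨h1, h2⟩ := H φ (hφ.sb hM) Z
  have h3 := F1_inv (s := -2 * y.1.det) (by linarith) h1 (-(t.val / (2 * j : ℕ)))
  rw [neg_neg, F1] at h3
  simp only [← h2] at h3
  have hF := hφ.lev_FV hM
  rw [II_per (2 * j) (M ^ 2) (by positivity) (by positivity) _ ?_ ?_] at h3
  · have h4 : |(-2 * y.1.det : ℚ)| = 2 * j / M ^ 2 := by
      rw [abs_of_neg (by linarith), hy]
      ring
    rw [h4] at h3
    have hMc : (M : ℂ) ≠ 0 := by exact_mod_cast hM.ne'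
    have hjc : (j : ℂ) ≠ 0 := by exact_mod_cast hj.ne'
    have h5 : ∀ t' : ZMod (2 * j * M ^ 2), eq (-2 * y.1.det * (t'.val / (2 * j : ℕ)) *
        (-(t.val / (2 * j : ℕ)))) = eM _ (t * t') := fun t' => by
      have h6 : t * t' = (((t.val : ℤ) * t'.val : ℤ) : ZMod (2 * j * M ^ 2)) := by simp
      rw [h6, eM_intCast, hy]
      congr 1
      push_cast
      field_simp
    simp only [h5] at h3
    have h7 : ∑ t' : ZMod (2 * j * M ^ 2), (c : ℂ) * FV φ (L4 y (Z, t'.val / (2 * j : ℕ))) *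
        eM _ (t * t') = c * ∑ t' : ZMod (2 * j * M ^ 2),
          eM _ (t * t') * omg y (FV φ) (t'.val / (2 * j : ℕ)) Z := by
      rw [Finset.mul_sum]
      exact Finset.sum_congr rfl fun t' _ => by rw [omg]; ring
    rw [h7] at h3
    push_cast at h3 ⊢
    field_simp at h3 ⊢
    exact h3.symm
  · intro b k
    have h4 : L4 y (Z, b + (M ^ 2 : ℕ) * k) =
        L4 y (Z, b) + (M : ℚ) • ((k : ℚ) • (M : ℚ) • y.1) := by
      rw [L4_shift, smul_smul, smul_smul]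
      congr 2
      push_cast
      ring
    have h5 : -2 * y.1.det * (b + (M ^ 2 : ℕ) * k) * (-(t.val / (2 * j : ℕ))) =
        -2 * y.1.det * b * (-(t.val / (2 * j : ℕ))) + ((k * t.val : ℤ) : ℚ) := by
      rw [hy]
      push_cast
      field_simp
    rw [h4, hF.1 _ _ (hyM.zsmul k), h5, eq_add,
      (eq_eq_one_iff ((k * t.val : ℤ) : ℚ)).2 ((isInt_rat _).2 ⟨_, rfl⟩), mul_one]
  · intro b hb
    have h4 : FV φ (L4 y (Z, b)) ≠ 0 := fun e => hb (by rw [e]; simp)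
    have h5 := isInt_bil (hF.2 _ h4) hyM
    rw [bil_smul, bil_L4_self, hy] at h5
    obtain ⟨n, hn⟩ := (isInt_rat _).1 h5
    refine ⟨n, ?_⟩
    rw [← hn]
    push_cast
    field_simp

/-- the coefficients attached to one matrix `y` -/
def cy (M j : ℕ) (R : Finset M2) (u : ℍ → ℂ) (y : GQ) (i : R × ZMod (2 * j * M ^ 2)) (x : ℚ) : ℂ :=
  gam u (omg y (cls M i.1.1) (i.2.val / (2 * j : ℕ))) (x / (j / M ^ 2))

theorem cy_conv (hH : S_H) {M j : ℕ} (hM : 0 < M) (hj : 0 < j) (R : Finset M2) {u : ℍ → ℂ}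
    (hu : Rec u) (y : GQ) (i : R × ZMod (2 * j * M ^ 2)) : Conv (cy M j R u y i) := by
  obtain ⟨c, -, H⟩ := hH
  exact (qs_sc (by positivity) _).1 (H u hu _ (omg_sb y (sb_cls hM _) _)).1

theorem cy_law (hH : S_H) {M j : ℕ} (hM : 0 < M) (hj : 0 < j) [NeZero (2 * j * M ^ 2)]
    {R : Finset M2} (hR : Reps M R) {u : ℍ → ℂ} (hu : Rec u) (y : GQ)
    (hy : y.1.det = j / M ^ 2) (hyM : IsInt ((M : ℚ) • y.1)) :
    Law (VV M (2 * j * M ^ 2) R) (Real.sqrt (2 * j * M ^ 2 : ℕ))⁻¹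
      fun i => qs (cy M j R u y i) := by
  classical
  have hconv := fun i => cy_conv hH hM hj R hu y i
  obtain ⟨c, hc, H⟩ := hH
  obtain ⟨κ, hκ, H1⟩ := fourier_id hM hj y hy hyM
  have hd : (0 : ℚ) < j / M ^ 2 := by positivity
  obtain ⟨a, ha, H2⟩ := half_dil (inv_pos.2 hd)
  have hQ : (0 : ℝ) < (2 * j * M ^ 2 : ℕ) := by positivity
  refine Law.normalise (κ := c * κ * ((j / M ^ 2 : ℚ) : ℝ)⁻¹ ^ 2 / a) hQ (by positivity)
    (VV_orth hM hR) fun i τ => ?_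
  set ω := omg y (cls M i.1.1) (i.2.val / (2 * j : ℕ)) with hω
  have hsb : SB ω := omg_sb y (sb_cls hM _) _
  have h1 := (H u hu ω hsb).2 (dil (j / M ^ 2 : ℚ)⁻¹ τ)
  have h2 : qs (cy M j R u y i) (ModularGroup.S • τ) =
      qs (gam u ω) (ModularGroup.S • dil (j / M ^ 2 : ℚ)⁻¹ τ) := by
    rw [← dil_S hd]
    exact (qs_sc hd _).2 _
  have h3 : (fun Z => F3 ω ((j / M ^ 2 : ℚ) • Z)) = ∑ k : R × ZMod (2 * j * M ^ 2),
      ((κ : ℂ) * VV M _ R i k) • omg y (cls M k.1.1) (k.2.val / (2 * j : ℕ)) := by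
    funext Z
    rw [← hy, hω, H1 _ (lev_cls hM (hR.1 _ i.1.2)), Finset.sum_apply, Fintype.sum_prod_type_right,
      Finset.mul_sum]
    refine Finset.sum_congr rfl fun t _ => ?_
    have h4 := congrFun (hR.2.2 _ ((lev_cls hM (hR.1 _ i.1.2)).lev_FV hM))
      (L4 y (Z, t.val / (2 * j : ℕ)))
    rw [Finset.sum_apply, ← Finset.sum_coe_sort] at h4
    rw [omg, h4, Finset.mul_sum, Finset.mul_sum]
    refine Finset.sum_congr rfl fun ν _ => ?_
    simp only [VV, omg, Pi.smul_apply, smul_eq_mul]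
    ring
  have h4 : (fun x => gam u (F3 ω) (x / (j / M ^ 2 : ℚ)⁻¹)) =
      fun x => ∑ k, ((κ : ℂ) * VV M _ R i k) * cy M j R u y k x := by
    funext x
    have h5 := gam_scale (u := u) hd.ne' (F3 ω) (x / (j / M ^ 2))
    have h6 : (j / M ^ 2 : ℚ) ^ 2 * (x / (j / M ^ 2)) = x / (j / M ^ 2 : ℚ)⁻¹ := by
      field_simp
    rw [h6, h3, gam_sum hu.hasLev _ _ fun k _ => (omg_sb y (sb_cls hM _) _).smul _] at h5
    rw [← h5]
    exact Finset.sum_congr rfl fun k _ => gam_smul _ _ _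
  have h5 := (qs_sc (inv_pos.2 hd) (gam u (F3 ω))).2 τ
  rw [h4, (qs_lin _ _ _ fun k _ => hconv k).2] at h5
  rw [← h2, ← h5, H2, coe_dil (inv_pos.2 hd)] at h1
  have hac : (a : ℂ) ≠ 0 := by exact_mod_cast ha.ne'
  have h6 : ∑ k, (κ : ℂ) * VV M _ R i k * qs (cy M j R u y k) τ =
      κ * ∑ k, VV M _ R i k * qs (cy M j R u y k) τ := by
    rw [Finset.mul_sum]
    exact Finset.sum_congr rfl fun k _ => mul_assoc _ _ _
  rw [h6] at h1
  apply mul_left_cancel₀ hac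
  refine Eq.trans (by ring) (h1.trans ?_)
  push_cast
  field_simp

end PolyP

end

end Pool.Agent.P.MP_b8021b_nt.CM
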