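import Pool.Agent.P.MP_b8021b_nt.CM.Lib

/-! Majorants for the theta kernels. -/

namespace Pool.Agent.P.MP_b8021b_nt.CM

open Complex hiding Gamma
open UpperHalfPlane hiding I
open MeasureTheory CongruenceSubgroup Filter
open scoped Real MatrixGroups ModularForm Topology ComplexConjugate Modular

noncomputable section

namespace RS0P

variable {M : ℕ}

open Classical in
def p1 (M : ℕ) (x : ℚ) : ℝ := if IsInt ((M : ℚ) • x) then |(x : ℝ)| ^ (-(3 / 2) : ℝ) else 0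

theorem p1_nonneg (x : ℚ) : 0 ≤ p1 M x := by
  unfold p1; split_ifs <;> positivity

theorem p1_zero : p1 M 0 = 0 := by
  unfold p1; split_ifs <;> simp

theorem summable_p1 (hM : 0 < M) : Summable (p1 M) := by
  have hM' : (M : ℚ) ≠ 0 := by exact_mod_cast hM.ne'
  have hM0 : (0 : ℝ) < M := by exact_mod_cast hM
  have hinj : Function.Injective fun n : ℤ => (n : ℚ) / M := fun a b h => by
    exact_mod_cast (div_left_inj' hM').1 h
  refine (hinj.summable_iff fun x hx => ?_).1 ?_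
  · rw [p1, if_neg]
    intro h
    obtain ⟨n, hn⟩ := (isInt_rat _).1 h
    exact hx ⟨n, by simp only [← hn, smul_eq_mul]; field_simp⟩
  · refine ((Real.summable_abs_int_rpow (b := 3 / 2) (by norm_num)).mul_left
      ((M : ℝ) ^ (3 / 2 : ℝ))).congr fun n => ?_
    have h1 : IsInt ((M : ℚ) • ((n : ℚ) / M)) := (isInt_rat _).2 ⟨n, by
      rw [smul_eq_mul]; field_simp⟩
    simp only [Function.comp, p1, if_pos h1]
    push_cast
    rw [abs_div, abs_of_pos hM0, Real.div_rpow (abs_nonneg _) hM0.le, Real.rpow_neg hM0.le]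
    field_simp

def KK (M : ℕ) : ℝ := ∑' x, p1 M x

theorem KK_nonneg : 0 ≤ KK M := tsum_nonneg p1_nonneg

def m1 (M : ℕ) (s : ℝ) (x : ℚ) : ℝ := (if x = 0 then 1 else 0) + s ^ (-(3 / 4) : ℝ) * p1 M x

theorem m1_nonneg {s : ℝ} (hs : 0 < s) (x : ℚ) : 0 ≤ m1 M s x := by
  have := p1_nonneg (M := M) x
  unfold m1; split_ifs <;> positivity

theorem hasSum_m1 (hM : 0 < M) (s : ℝ) : HasSum (m1 M s) (1 + s ^ (-(3 / 4) : ℝ) * KK M) :=
  (hasSum_ite_eq (0 : ℚ) (1 : ℝ)).add ((summable_p1 hM).hasSum.mul_left _)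

theorem exp_le_rpow {x : ℝ} (hx : 0 < x) : Real.exp (-x) ≤ x ^ (-(3 / 4) : ℝ) := by
  rw [Real.rpow_def_of_pos hx, Real.exp_le_exp]
  linarith [Real.log_le_sub_one_of_pos hx]

theorem exp_le_m1 {s : ℝ} (hs : 0 < s) {x : ℚ} (hx : IsInt ((M : ℚ) • x)) :
    Real.exp (-(s * (x : ℝ) ^ 2)) ≤ m1 M s x := by
  by_cases h0 : x = 0
  · subst h0; simp [m1, p1_zero]
  · have h1 : (0 : ℝ) < |(x : ℝ)| := abs_pos.2 (by exact_mod_cast h0)
    rw [m1, if_neg h0, zero_add, p1, if_pos hx, ← sq_abs]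
    refine (exp_le_rpow (by positivity)).trans (le_of_eq ?_)
    rw [Real.mul_rpow hs.le (by positivity), ← Real.rpow_natCast, ← Real.rpow_mul h1.le]
    norm_num

/-- the majorant on the plane -/
def mj (M : ℕ) (a b : ℝ) (w : Q2) : ℝ := m1 M a w.1 * m1 M b w.2 - if w = 0 then 1 else 0

/-- its sum -/
def Psi (M : ℕ) (a b : ℝ) : ℝ :=
  (1 + a ^ (-(3 / 4) : ℝ) * KK M) * (1 + b ^ (-(3 / 4) : ℝ) * KK M) - 1

theorem mj_nonneg {a b : ℝ} (ha : 0 < a) (hb : 0 < b) (w : Q2) : 0 ≤ mj M a b w := by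
  unfold mj
  split_ifs with h
  · subst h; simp [m1, p1_zero]
  · rw [sub_zero]; exact mul_nonneg (m1_nonneg ha _) (m1_nonneg hb _)

theorem hasSum_mj (hM : 0 < M) {a b : ℝ} (ha : 0 < a) (hb : 0 < b) :
    HasSum (mj M a b) (Psi M a b) := by
  have h1 := hasSum_m1 hM a
  have h2 := hasSum_m1 hM b
  exact (h1.mul h2 (h1.summable.mul_of_nonneg h2.summable (m1_nonneg ha) (m1_nonneg hb))).sub
    (hasSum_ite_eq (0 : Q2) (1 : ℝ))

theorem Psi_nonneg {a b : ℝ} (ha : 0 < a) (hb : 0 < b) : 0 ≤ Psi M a b := by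
  have hK := KK_nonneg (M := M)
  have h1 : 0 ≤ a ^ (-(3 / 4) : ℝ) * KK M := by positivity
  have h2 : 0 ≤ b ^ (-(3 / 4) : ℝ) * KK M := by positivity
  unfold Psi
  nlinarith [mul_nonneg h1 h2]

theorem Psi_scale {a b t : ℝ} (ha : 0 < a) (hb : 0 < b) (ht : 0 < t) :
    Psi M (t * a) (t * b) ≤ (t ^ (-(3 / 4) : ℝ) + (t ^ (-(3 / 4) : ℝ)) ^ 2) * Psi M a b := by
  have hK := KK_nonneg (M := M)
  have h1 : 0 ≤ a ^ (-(3 / 4) : ℝ) * KK M := by positivity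
  have h2 : 0 ≤ b ^ (-(3 / 4) : ℝ) * KK M := by positivity
  have h3 : 0 ≤ t ^ (-(3 / 4) : ℝ) := by positivity
  unfold Psi
  rw [Real.mul_rpow ht.le ha.le, Real.mul_rpow ht.le hb.le, mul_assoc, mul_assoc]
  generalize a ^ (-(3 / 4) : ℝ) * KK M = x at *
  generalize b ^ (-(3 / 4) : ℝ) * KK M = y at *
  generalize t ^ (-(3 / 4) : ℝ) = s at *
  nlinarith [mul_nonneg h3 (mul_nonneg h1 h2), mul_nonneg (mul_nonneg h3 h3) h1,
    mul_nonneg (mul_nonneg h3 h3) h2]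

theorem exp_le_mj {a b : ℝ} (ha : 0 < a) (hb : 0 < b) {w : Q2} (hw : IsInt ((M : ℚ) • w))
    (h0 : w ≠ 0) : Real.exp (-(a * (w.1 : ℝ) ^ 2 + b * (w.2 : ℝ) ^ 2)) ≤ mj M a b w := by
  rw [mj, if_neg h0, sub_zero, neg_add, Real.exp_add]
  exact mul_le_mul (exp_le_m1 ha hw.1) (exp_le_m1 hb hw.2) (Real.exp_pos _).le (m1_nonneg ha _)

/-- a diagonal form below the quadratic form attached to `τ` -/
def Dom (τ : ℍ) (a b : ℝ) : Prop :=
  0 < a ∧ 0 < b ∧ ∀ w : Q2, a * (w.1 : ℝ) ^ 2 + b * (w.2 : ℝ) ^ 2 ≤ ‖lin w τ‖ ^ 2 / τ.im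

theorem norm_lin_sq (w : Q2) (τ : ℍ) :
    ‖lin w τ‖ ^ 2 = ((w.1 : ℝ) * τ.re + w.2) ^ 2 + (w.1 : ℝ) ^ 2 * τ.im ^ 2 := by
  rw [Complex.sq_norm, Complex.normSq_apply]
  simp [lin]
  ring

theorem half_le_im {τ : ℍ} (h : τ ∈ 𝒟) : 1 / 2 ≤ τ.im := by
  have h1 := ModularGroup.three_le_four_mul_im_sq_of_mem_fd h
  have := τ.im_pos
  nlinarith

theorem dom_D {τ : ℍ} (h : τ ∈ 𝒟) : Dom τ (τ.im / 2) (1 / (2 * τ.im)) := by
  have hy := τ.im_pos
  refine ⟨by positivity, by positivity, fun w => ?_⟩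
  have h1 := ModularGroup.three_le_four_mul_im_sq_of_mem_fd h
  have h2 : τ.re ^ 2 ≤ 1 / 4 := by
    have := abs_le.1 h.2
    nlinarith
  rw [norm_lin_sq, le_div_iff₀ hy]
  have e1 : (τ.im / 2 * (w.1 : ℝ) ^ 2 + 1 / (2 * τ.im) * (w.2 : ℝ) ^ 2) * τ.im =
      ((w.1 : ℝ) ^ 2 * τ.im ^ 2 + (w.2 : ℝ) ^ 2) / 2 := by field_simp
  rw [e1]
  nlinarith [sq_nonneg (2 * (w.1 : ℝ) * τ.re + w.2), mul_le_mul_of_nonneg_left h1 (sq_nonneg (w.1 : ℝ)),
    mul_le_mul_of_nonneg_left h2 (sq_nonneg (w.1 : ℝ))]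

theorem Psi_D (M : ℕ) : ∃ K : ℝ, 0 ≤ K ∧ ∀ τ ∈ 𝒟,
    Psi M (τ.im / 2) (1 / (2 * τ.im)) ≤ K * τ.im ^ (3 / 4 : ℝ) := by
  have hK := KK_nonneg (M := M)
  refine ⟨2 * (5 * KK M + 4 * KK M ^ 2), by positivity, fun τ hτ => ?_⟩
  have hy := τ.im_pos
  have h1 := half_le_im hτ
  have ha : (τ.im / 2) ^ (-(3 / 4) : ℝ) ≤ 4 := by
    calc (τ.im / 2) ^ (-(3 / 4) : ℝ) ≤ (4⁻¹ : ℝ) ^ (-(3 / 4) : ℝ) :=
          Real.rpow_le_rpow_of_nonpos (by norm_num) (by linarith) (by norm_num)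
      _ = 4 ^ (3 / 4 : ℝ) := by rw [Real.inv_rpow (by norm_num), Real.rpow_neg (by norm_num), inv_inv]
      _ ≤ 4 ^ (1 : ℝ) := Real.rpow_le_rpow_of_exponent_le (by norm_num) (by norm_num)
      _ = 4 := Real.rpow_one _
  have ha0 : 0 ≤ (τ.im / 2) ^ (-(3 / 4) : ℝ) := by positivity
  have hb : (1 / (2 * τ.im)) ^ (-(3 / 4) : ℝ) = (2 * τ.im) ^ (3 / 4 : ℝ) := by
    rw [one_div, Real.inv_rpow (by positivity), Real.rpow_neg (by positivity), inv_inv]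
  have hb1 : 1 ≤ (2 * τ.im) ^ (3 / 4 : ℝ) := Real.one_le_rpow (by linarith) (by norm_num)
  have hb2 : (2 * τ.im) ^ (3 / 4 : ℝ) ≤ 2 * τ.im ^ (3 / 4 : ℝ) := by
    rw [Real.mul_rpow (by norm_num) hy.le]
    refine mul_le_mul_of_nonneg_right ?_ (by positivity)
    calc (2 : ℝ) ^ (3 / 4 : ℝ) ≤ 2 ^ (1 : ℝ) :=
          Real.rpow_le_rpow_of_exponent_le (by norm_num) (by norm_num)
      _ = 2 := Real.rpow_one _
  unfold Psi
  rw [hb]
  generalize (τ.im / 2) ^ (-(3 / 4) : ℝ) = x at *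
  generalize (2 * τ.im) ^ (3 / 4 : ℝ) = z at *
  generalize τ.im ^ (3 / 4 : ℝ) = v at *
  have h2 : x * KK M ≤ 4 * KK M * z := by nlinarith [mul_le_mul_of_nonneg_right ha hK]
  have h3 : x * KK M * (z * KK M) ≤ 4 * KK M ^ 2 * z := by
    have := mul_le_mul_of_nonneg_right ha (mul_nonneg (sq_nonneg (KK M)) (zero_le_one.trans hb1))
    nlinarith
  have h4 : (5 * KK M + 4 * KK M ^ 2) * z ≤ (5 * KK M + 4 * KK M ^ 2) * (2 * v) :=
    mul_le_mul_of_nonneg_left hb2 (by positivity)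
  nlinarith

def kq (τ : ℍ) : ℝ := 2 * τ.im + (1 + 2 * τ.re ^ 2) / τ.im

theorem kq_pos (τ : ℍ) : 0 < kq τ := by
  have := τ.im_pos
  unfold kq; positivity

theorem continuous_kq : Continuous kq := by
  have h1 := UpperHalfPlane.continuous_im
  have h2 := UpperHalfPlane.continuous_re
  exact (continuous_const.mul h1).add (Continuous.div (by fun_prop) h1 fun τ => τ.im_pos.ne')

theorem dom_kq {τ : ℍ} {k : ℝ} (h : kq τ ≤ k) : Dom τ k⁻¹ k⁻¹ := by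
  have hy := τ.im_pos
  have hk := kq_pos τ
  have hk' : 0 < k := hk.trans_le h
  refine ⟨by positivity, by positivity, fun w => ?_⟩
  rw [← mul_add, inv_mul_le_iff₀ hk']
  refine le_trans ?_ (mul_le_mul_of_nonneg_right h (by positivity))
  rw [norm_lin_sq, kq]
  have e1 : (2 * τ.im + (1 + 2 * τ.re ^ 2) / τ.im) *
      ((((w.1 : ℝ) * τ.re + w.2) ^ 2 + (w.1 : ℝ) ^ 2 * τ.im ^ 2) / τ.im) =
      2 * ((w.1 : ℝ) * τ.re + w.2) ^ 2 + (1 + 2 * τ.re ^ 2) * (w.1 : ℝ) ^ 2 +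
        (2 * (w.1 : ℝ) ^ 2 * τ.im ^ 2 + (1 + 2 * τ.re ^ 2) * ((w.1 : ℝ) * τ.re + w.2) ^ 2 / τ.im ^ 2) := by
    field_simp
    ring
  rw [e1]
  have h2 : 0 ≤ 2 * (w.1 : ℝ) ^ 2 * τ.im ^ 2 +
      (1 + 2 * τ.re ^ 2) * ((w.1 : ℝ) * τ.re + w.2) ^ 2 / τ.im ^ 2 := by positivity
  nlinarith [sq_nonneg (2 * (w.1 : ℝ) * τ.re + w.2)]

theorem norm_gau (w : Q2) (τ : ℍ) (t : ℝ) :
    ‖gau w τ t‖ = Real.exp (-(π * t * (‖lin w τ‖ ^ 2 / τ.im))) := by
  rw [gau, Complex.norm_real, Real.norm_of_nonneg (Real.exp_pos _).le]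
  congr 1; ring

theorem norm_gau_mono (w : Q2) (τ : ℍ) {s t : ℝ} (h : s ≤ t) : ‖gau w τ t‖ ≤ ‖gau w τ s‖ := by
  have hy := τ.im_pos
  rw [norm_gau, norm_gau, Real.exp_le_exp, neg_le_neg_iff]
  exact mul_le_mul_of_nonneg_right (mul_le_mul_of_nonneg_left h Real.pi_pos.le) (by positivity)

theorem exp_Q_le {τ : ℍ} {a b t : ℝ} (hD : Dom τ a b) (ht : 0 < t) {w : Q2}
    (hw : IsInt ((M : ℚ) • w)) (h0 : w ≠ 0) :
    Real.exp (-(t * (‖lin w τ‖ ^ 2 / τ.im))) ≤ mj M (t * a) (t * b) w := by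
  refine le_trans ?_ (exp_le_mj (mul_pos ht hD.1) (mul_pos ht hD.2.1) hw h0)
  rw [Real.exp_le_exp, neg_le_neg_iff, mul_assoc, mul_assoc, ← mul_add]
  exact mul_le_mul_of_nonneg_left (hD.2.2 w) ht.le

theorem bound0 {c : Q2 → ℂ} (hc : Lev M c) {C : ℝ} (hC : ∀ w, ‖c w‖ ≤ C) {τ : ℍ} {a b t : ℝ}
    (hD : Dom τ a b) (ht : 0 < t) {w : Q2} (h0 : w ≠ 0) :
    ‖c w * gau w τ t‖ ≤ C * mj M (t * a) (t * b) w := by
  have hC0 : 0 ≤ C := (norm_nonneg _).trans (hC 0)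
  have hm := mj_nonneg (M := M) (mul_pos ht hD.1) (mul_pos ht hD.2.1) w
  by_cases h : c w = 0
  · rw [h, zero_mul, norm_zero]; positivity
  rw [norm_mul]
  refine mul_le_mul (hC w) ?_ (norm_nonneg _) hC0
  refine le_trans ?_ (exp_Q_le hD ht (hc.2 w h) h0)
  have hy := τ.im_pos
  rw [norm_gau, Real.exp_le_exp, neg_le_neg_iff, mul_assoc]
  exact le_mul_of_one_le_left (by positivity) (by linarith [Real.pi_gt_three])

theorem bound1 {c : Q2 → ℂ} (hc : Lev M c) {C : ℝ} (hC : ∀ w, ‖c w‖ ≤ C) {τ : ℍ} {a b t : ℝ}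
    (hD : Dom τ a b) (ht : 0 < t) (w : Q2) :
    ‖c w * (lin w τ / τ.im) * gau w τ t‖ ≤
      C * τ.im ^ (-(1 / 2) : ℝ) * t ^ (-(1 / 2) : ℝ) * mj M (t * a) (t * b) w := by
  have hC0 : 0 ≤ C := (norm_nonneg _).trans (hC 0)
  have hy := τ.im_pos
  have hm := mj_nonneg (M := M) (mul_pos ht hD.1) (mul_pos ht hD.2.1) w
  by_cases h : c w = 0
  · rw [h, zero_mul, zero_mul, norm_zero]; positivity
  by_cases h0 : w = 0
  · have : lin w τ = 0 := by simp [h0, lin]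
    rw [this, zero_div, mul_zero, zero_mul, norm_zero]; positivity
  rw [mul_assoc, norm_mul, mul_assoc, mul_assoc]
  refine mul_le_mul (hC w) ?_ (norm_nonneg _) hC0
  have h1 := exp_Q_le hD ht (hc.2 w h) h0
  rw [norm_mul, norm_gau, norm_div, Complex.norm_real, Real.norm_of_nonneg hy.le]
  set Q : ℝ := ‖lin w τ‖ ^ 2 / τ.im with hQ
  have hQ0 : 0 ≤ Q := by positivity
  have h2 : ‖lin w τ‖ / τ.im = τ.im ^ (-(1 / 2) : ℝ) * (t ^ (-(1 / 2) : ℝ) * √(t * Q)) := by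
    have h3 : √τ.im ≠ 0 := (Real.sqrt_pos.2 hy).ne'
    have h4 : √t ≠ 0 := (Real.sqrt_pos.2 ht).ne'
    rw [Real.rpow_neg hy.le, Real.rpow_neg ht.le, ← Real.sqrt_eq_rpow, ← Real.sqrt_eq_rpow,
      Real.sqrt_mul ht.le, hQ, Real.sqrt_div (sq_nonneg _), Real.sqrt_sq (norm_nonneg _)]
    field_simp
    rw [Real.sq_sqrt hy.le]
  rw [h2, mul_assoc, mul_assoc]
  refine mul_le_mul_of_nonneg_left (mul_le_mul_of_nonneg_left (le_trans ?_ h1) (by positivity))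
    (by positivity)
  have h5 : √(t * Q) ≤ Real.exp (t * Q) := by
    rw [Real.sqrt_le_left (Real.exp_pos _).le]
    have h6 := Real.add_one_le_exp (t * Q)
    have h7 : 0 ≤ t * Q := by positivity
    nlinarith
  refine (mul_le_mul_of_nonneg_right h5 (Real.exp_pos _).le).trans ?_
  rw [← Real.exp_add, Real.exp_le_exp]
  have h7 : 0 ≤ t * Q := by positivity
  nlinarith [Real.pi_gt_three]

theorem continuous_lin (w : Q2) : Continuous (lin w) :=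
  (continuous_const.mul UpperHalfPlane.continuous_coe).add continuous_const

theorem continuous_gau (w : Q2) : Continuous fun p : ℍ × ℝ => gau w p.1 p.2 := by
  have h1 := continuous_lin w
  have h2 := UpperHalfPlane.continuous_im
  refine Complex.continuous_ofReal.comp (Real.continuous_exp.comp ?_)
  exact Continuous.div (by fun_prop) (by fun_prop) fun p => p.1.im_pos.ne'

/-- the right action of `γ` as a permutation -/
def vmE (γ : SL) : Q2 ≃ Q2 where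
  toFun w := vm w γ
  invFun w := vm w γ⁻¹
  left_inv w := by simp only [← vm_mul, mul_inv_cancel, vm_one]
  right_inv w := by simp only [← vm_mul, inv_mul_cancel, vm_one]

theorem vm_zero (γ : SL) : vm 0 γ = 0 := by ext <;> simp [vm]

theorem vm_eq_zero {w : Q2} {γ : SL} : vm w γ = 0 ↔ w = 0 :=
  ⟨fun h => (vmE γ).injective (h.trans (vm_zero γ).symm), fun h => by rw [h, vm_zero]⟩

end RS0P

end

end Pool.Agent.P.MP_b8021b_nt.CM
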