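import Pool.Agent.P.MP_b8021b_nt.CM.Lib

/-! Package P20: the Rankin-Selberg integral of weight one. -/

namespace Pool.Agent.P.MP_b8021b_nt.CM

open Complex hiding Gamma
open UpperHalfPlane hiding I
open MeasureTheory CongruenceSubgroup Filter
open scoped Real MatrixGroups ModularForm Topology ComplexConjugate Modular

noncomputable section

namespace RS1P

theorem exp_bd {a : ℝ} (ha : 0 ≤ a) :
    ∃ K : ℝ, 0 ≤ K ∧ ∀ x : ℝ, 0 < x → Real.exp (-x) ≤ K * x ^ (-a) := by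
  refine ⟨1 + (⌈a⌉₊).factorial, by positivity, fun x hx => ?_⟩
  have h1 : x ^ a ≤ 1 + x ^ ⌈a⌉₊ := by
    rcases le_total x 1 with h | h
    · have := Real.rpow_le_one hx.le h ha
      have h2 : 0 ≤ x ^ ⌈a⌉₊ := by positivity
      linarith
    · have := Real.rpow_le_rpow_of_exponent_le h (Nat.le_ceil a)
      rw [Real.rpow_natCast] at this
      linarith
  have h2 := Real.pow_div_factorial_le_exp x hx.le ⌈a⌉₊
  have hf : (0 : ℝ) < (⌈a⌉₊).factorial := by positivity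
  rw [div_le_iff₀ hf] at h2
  have h3 : 1 ≤ Real.exp x := Real.one_le_exp hx.le
  have h4 : x ^ a ≤ (1 + (⌈a⌉₊).factorial) * Real.exp x := by nlinarith
  have h5 : 0 < x ^ a := Real.rpow_pos_of_pos hx a
  rw [Real.rpow_neg hx.le, Real.exp_neg, ← div_eq_mul_inv, le_div_iff₀ h5, inv_mul_eq_div,
    div_le_iff₀ (Real.exp_pos x)]
  exact h4

theorem sqrt_exp_bd {a : ℝ} (ha : 0 ≤ a) : ∃ K : ℝ, 0 ≤ K ∧ ∀ t Q : ℝ, 0 < t → 0 < Q →
    Q ^ (1 / 2 : ℝ) * Real.exp (-π * t * Q) ≤ K * t ^ (-a) * Q ^ (1 / 2 - a) := by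
  obtain ⟨K, hK, h⟩ := exp_bd ha
  refine ⟨K * π ^ (-a), by positivity, fun t Q ht hQ => ?_⟩
  have h1 := h (π * t * Q) (by positivity)
  rw [Real.mul_rpow (by positivity) hQ.le, Real.mul_rpow Real.pi_pos.le ht.le] at h1
  have h2 : -π * t * Q = -(π * t * Q) := by ring
  rw [h2, sub_eq_add_neg, Real.rpow_add hQ]
  have h3 : 0 ≤ Q ^ (1 / 2 : ℝ) := by positivity
  calc Q ^ (1 / 2 : ℝ) * Real.exp (-(π * t * Q))
      ≤ Q ^ (1 / 2 : ℝ) * (K * (π ^ (-a) * t ^ (-a) * Q ^ (-a))) := by gcongr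
    _ = _ := by ring

open Classical in
/-- a summable weight on the lattice -/
def sw (M : ℕ) (w : Q2) : ℝ :=
  (if CM.IsInt ((M : ℚ) • w) ∧ w ≠ 0 then ((Nm 1 w : ℚ) : ℝ) ^ (-(3 / 2 : ℝ)) else 0) +
    (if CM.IsInt ((M : ℚ) • w) ∧ w.1 = 0 then |(w.2 : ℝ)| ^ (-(3 / 2 : ℝ)) else 0)

theorem Nm_nonneg (w : Q2) : (0 : ℝ) ≤ ((Nm 1 w : ℚ) : ℝ) := by
  have : (0 : ℚ) ≤ Nm 1 w := by unfold Nm; positivity
  exact_mod_cast this

theorem sw_nonneg (M : ℕ) (w : Q2) : 0 ≤ sw M w := by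
  have := Nm_nonneg w
  unfold sw
  refine add_nonneg ?_ ?_ <;> split_ifs <;> positivity

theorem summable_sw {M : ℕ} (hM : 0 < M) : Summable (sw M) := by
  classical
  refine Summable.add (summable_Nm one_pos hM (by norm_num)) ?_
  have hM' : (M : ℚ) ≠ 0 := by exact_mod_cast hM.ne'
  have hi : Function.Injective fun n : ℤ => ((0, (n : ℚ) / M) : Q2) := by
    intro a b h
    have h2 : (a : ℚ) / M = b / M := congrArg Prod.snd h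
    rw [div_left_inj' hM'] at h2
    exact_mod_cast h2
  rw [← hi.summable_iff]
  · refine Summable.of_nonneg_of_le (fun n => ?_) (fun n => ?_)
      ((Real.summable_abs_int_rpow (b := 3 / 2) (by norm_num)).mul_right
        ((M : ℝ)⁻¹ ^ (-(3 / 2 : ℝ))))
    · simp only [Function.comp]
      split_ifs <;> positivity
    · simp only [Function.comp]
      split_ifs
      · rw [← Real.mul_rpow (abs_nonneg _) (by positivity)]
        apply le_of_eq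
        congr 1
        push_cast
        rw [abs_div, Nat.abs_cast, div_eq_mul_inv]
      · positivity
  · intro w hw
    rw [if_neg]
    rintro ⟨h1, h2⟩
    obtain ⟨n, hn⟩ := (isInt_rat _).1 ((isInt_prod _).1 h1).2
    refine hw ⟨n, Prod.ext h2.symm ?_⟩
    change (n : ℚ) / M = w.2
    rw [div_eq_iff hM', ← hn, mul_comm]
    rfl

theorem norm_lin_sq (w : Q2) (τ : ℍ) :
    ‖lin w τ‖ ^ 2 = ((w.1 : ℝ) * τ.re + w.2) ^ 2 + ((w.1 : ℝ) * τ.im) ^ 2 := by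
  rw [Complex.sq_norm, Complex.normSq_apply]
  simp [lin]
  ring

/-- the basic estimate on the fundamental domain -/
theorem key_bd {M : ℕ} (hM : 0 < M) : ∃ K : ℝ, 0 ≤ K ∧ ∀ τ ∈ 𝒟, ∀ t : ℝ, 0 < t → ∀ w : Q2,
    CM.IsInt ((M : ℚ) • w) →
    (‖lin w τ‖ ^ 2 / τ.im) ^ (1 / 2 : ℝ) * Real.exp (-π * t * (‖lin w τ‖ ^ 2 / τ.im)) ≤
      K * (t ^ (-(5 / 4 : ℝ)) + t ^ (-(7 / 2 : ℝ))) * τ.im ^ (3 / 4 : ℝ) * sw M w := by
  classical
  obtain ⟨K1, hK1, h1⟩ := sqrt_exp_bd (a := 5 / 4) (by norm_num)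
  obtain ⟨K2, hK2, h2⟩ := sqrt_exp_bd (a := 7 / 2) (by norm_num)
  have hM' : (0 : ℝ) < M := by exact_mod_cast hM
  set c : ℝ := ((M : ℝ)⁻¹ ^ 2 / 2) ^ (-(3 / 2 : ℝ)) with hc
  have hc0 : 0 ≤ c := by positivity
  refine ⟨K1 + 2 * c * K2, by positivity, fun τ hτ t ht w hw => ?_⟩
  have hy := τ.im_pos
  have hy3 := ModularGroup.three_le_four_mul_im_sq_of_mem_fd hτ
  have hx : |τ.re| ≤ 1 / 2 := hτ.2
  have hx2 : τ.re ^ 2 ≤ 1 / 4 := by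
    have := abs_le.1 hx
    nlinarith
  have ha1 : 0 ≤ t ^ (-(5 / 4 : ℝ)) := by positivity
  have ha2 : 0 ≤ t ^ (-(7 / 2 : ℝ)) := by positivity
  have hy34 : 0 ≤ τ.im ^ (3 / 4 : ℝ) := by positivity
  have hsw := sw_nonneg M w
  by_cases hw0 : w = 0
  · subst hw0
    have : lin 0 τ = 0 := by simp [lin]
    rw [this, norm_zero, zero_pow two_ne_zero, zero_div, Real.zero_rpow (by norm_num), zero_mul]
    positivity
  by_cases hw1 : w.1 = 0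
  · have hw2 : w.2 ≠ 0 := fun h => hw0 (Prod.ext hw1 h)
    have hw2' : (0 : ℝ) < |(w.2 : ℝ)| := abs_pos.2 (by exact_mod_cast hw2)
    have hQ : ‖lin w τ‖ ^ 2 / τ.im = |(w.2 : ℝ)| ^ (2 : ℝ) / τ.im := by
      rw [norm_lin_sq, hw1, Real.rpow_two, sq_abs]; simp
    have h3 := h1 t (‖lin w τ‖ ^ 2 / τ.im) ht (by rw [hQ]; positivity)
    have h4 : (‖lin w τ‖ ^ 2 / τ.im) ^ (1 / 2 - 5 / 4 : ℝ) =
        τ.im ^ (3 / 4 : ℝ) * |(w.2 : ℝ)| ^ (-(3 / 2 : ℝ)) := by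
      rw [hQ, Real.div_rpow (by positivity) hy.le, ← Real.rpow_mul hw2'.le, div_eq_mul_inv,
        ← Real.rpow_neg hy.le, mul_comm]
      norm_num
    have h5 : |(w.2 : ℝ)| ^ (-(3 / 2 : ℝ)) ≤ sw M w := by
      unfold sw
      rw [if_pos ⟨hw, hw0⟩, if_pos ⟨hw, hw1⟩]
      have := Nm_nonneg w
      have : 0 ≤ ((Nm 1 w : ℚ) : ℝ) ^ (-(3 / 2 : ℝ)) := by positivity
      linarith
    rw [h4] at h3
    refine h3.trans ?_
    rw [← mul_assoc]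
    gcongr
    · linarith [show 0 ≤ 2 * c * K2 by positivity]
    · linarith
  · have hB := inv_le_abs_of_isInt hM ((isInt_prod _).1 hw).1 hw1
    have hB2 : (M : ℝ)⁻¹ ^ 2 ≤ (w.1 : ℝ) ^ 2 := by
      rw [← sq_abs (w.1 : ℝ)]; gcongr
    have hB0 : 0 < (M : ℝ)⁻¹ ^ 2 := by positivity
    obtain ⟨A, hA⟩ : ∃ A : ℝ, A = (w.1 : ℝ) * τ.re + w.2 := ⟨_, rfl⟩
    obtain ⟨Q, hQ⟩ : ∃ Q : ℝ, Q = ‖lin w τ‖ ^ 2 / τ.im := ⟨_, rfl⟩
    have hQe : Q = A ^ 2 / τ.im + (w.1 : ℝ) ^ 2 * τ.im := by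
      rw [hQ, norm_lin_sq, hA]; field_simp
    have hQ0 : 0 < Q := by
      rw [hQe]
      have : 0 < (w.1 : ℝ) ^ 2 := hB0.trans_le hB2
      positivity
    have hN : ((Nm 1 w : ℚ) : ℝ) = (w.1 : ℝ) ^ 2 + (w.2 : ℝ) ^ 2 := by
      unfold Nm; push_cast; ring
    have hN0 : 0 < ((Nm 1 w : ℚ) : ℝ) := by
      rw [hN]
      have : 0 < (w.1 : ℝ) ^ 2 := hB0.trans_le hB2
      positivity
    have hw2 : (w.2 : ℝ) ^ 2 ≤ 2 * A ^ 2 + (w.1 : ℝ) ^ 2 / 2 := by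
      have e : (w.2 : ℝ) = A - w.1 * τ.re := by rw [hA]; ring
      rw [e]
      nlinarith [sq_nonneg (A + w.1 * τ.re), mul_le_mul_of_nonneg_left hx2 (sq_nonneg (w.1 : ℝ))]
    have hQ2 : (M : ℝ)⁻¹ ^ 2 / 2 * ((Nm 1 w : ℚ) : ℝ) ≤ Q ^ (2 : ℝ) := by
      rw [Real.rpow_two]
      have e : Q ^ 2 = (A ^ 2 / τ.im) ^ 2 + (w.1 : ℝ) ^ 2 * (2 * A ^ 2 + (w.1 : ℝ) ^ 2 * τ.im ^ 2) := by
        rw [hQe]; field_simp; ring
      have e1 : ((Nm 1 w : ℚ) : ℝ) / 2 ≤ 2 * A ^ 2 + (w.1 : ℝ) ^ 2 * τ.im ^ 2 := by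
        rw [hN]
        nlinarith [mul_le_mul_of_nonneg_left hy3 (sq_nonneg (w.1 : ℝ)), sq_nonneg A]
      have e2 : (M : ℝ)⁻¹ ^ 2 * (((Nm 1 w : ℚ) : ℝ) / 2) ≤
          (w.1 : ℝ) ^ 2 * (2 * A ^ 2 + (w.1 : ℝ) ^ 2 * τ.im ^ 2) := by gcongr
      rw [e]
      nlinarith [sq_nonneg (A ^ 2 / τ.im)]
    have h4 : Q ^ (1 / 2 - 7 / 2 : ℝ) ≤ c * ((Nm 1 w : ℚ) : ℝ) ^ (-(3 / 2 : ℝ)) := by
      rw [hc, ← Real.mul_rpow (by positivity) hN0.le]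
      have e : Q ^ (1 / 2 - 7 / 2 : ℝ) = (Q ^ (2 : ℝ)) ^ (-(3 / 2 : ℝ)) := by
        rw [← Real.rpow_mul hQ0.le]; norm_num
      rw [e]
      exact Real.rpow_le_rpow_of_nonpos (by positivity) hQ2 (by norm_num)
    have h5 : ((Nm 1 w : ℚ) : ℝ) ^ (-(3 / 2 : ℝ)) ≤ sw M w := by
      unfold sw
      rw [if_pos ⟨hw, hw0⟩, if_neg fun h => hw1 h.2, add_zero]
    have h6 : 1 ≤ 2 * τ.im ^ (3 / 4 : ℝ) := by
      have e1 : (1 / 2 : ℝ) ≤ τ.im := by nlinarith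
      have e2 : (1 / 2 : ℝ) ^ (3 / 4 : ℝ) ≤ τ.im ^ (3 / 4 : ℝ) := by gcongr
      have e3 : (1 / 2 : ℝ) ^ (1 : ℝ) ≤ (1 / 2 : ℝ) ^ (3 / 4 : ℝ) :=
        Real.rpow_le_rpow_of_exponent_ge (by norm_num) (by norm_num) (by norm_num)
      rw [Real.rpow_one] at e3
      linarith
    rw [← hQ]
    refine (h2 t Q ht hQ0).trans ?_
    calc K2 * t ^ (-(7 / 2 : ℝ)) * Q ^ (1 / 2 - 7 / 2 : ℝ)
        ≤ K2 * t ^ (-(7 / 2 : ℝ)) * (c * sw M w) := by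
          gcongr
          exact h4.trans (by gcongr)
      _ = c * K2 * t ^ (-(7 / 2 : ℝ)) * 1 * sw M w := by ring
      _ ≤ c * K2 * t ^ (-(7 / 2 : ℝ)) * (2 * τ.im ^ (3 / 4 : ℝ)) * sw M w := by gcongr
      _ = 2 * c * K2 * t ^ (-(7 / 2 : ℝ)) * τ.im ^ (3 / 4 : ℝ) * sw M w := by ring
      _ ≤ _ := by
          gcongr
          · linarith
          · linarith

end RS1P

end

end Pool.Agent.P.MP_b8021b_nt.CM
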