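import Pool.Agent.P.MP_b8021b_nt.CM.Act
import Pool.Agent.P.MP_b8021b_nt.CM.DMean

/-! Library L5, first part: levels, representatives, indices. -/

namespace Pool.Agent.P.MP_b8021b_nt.CM

open Function

noncomputable section

section general

variable {W W' : Type} [AddCommGroup W] [Module ℚ W] [Lat W] [AddCommGroup W'] [Module ℚ W']
  [Lat W'] {φ ψ : W → ℂ} {M N : ℕ}

theorem IsInt.add {x y : W} (h : IsInt x) (h' : IsInt y) : IsInt (x + y) :=
  (Lat.lat (W := W)).add_mem h h'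
theorem IsInt.neg {x : W} (h : IsInt x) : IsInt (-x) := (Lat.lat (W := W)).neg_mem h
theorem IsInt.sub {x y : W} (h : IsInt x) (h' : IsInt y) : IsInt (x - y) :=
  (Lat.lat (W := W)).sub_mem h h'
theorem IsInt.zsmul {x : W} (h : IsInt x) (n : ℤ) : IsInt ((n : ℚ) • x) := by
  rw [Int.cast_smul_eq_zsmul]
  exact (Lat.lat (W := W)).zsmul_mem h n
theorem IsInt.nsmul {x : W} (h : IsInt x) (n : ℕ) : IsInt ((n : ℚ) • x) := by
  rw [Nat.cast_smul_eq_nsmul]
  exact (Lat.lat (W := W)).nsmul_mem h n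
theorem isInt_zero : IsInt (0 : W) := (Lat.lat (W := W)).zero_mem
/-- an element that is integral after two coprime scalings is integral -/
theorem IsInt.of_coprime {x : W} {a b : ℤ} (h : IsCoprime a b) (ha : IsInt ((a : ℚ) • x))
    (hb : IsInt ((b : ℚ) • x)) : IsInt x := by
  obtain ⟨u, v, huv⟩ := h
  have h1 := (ha.zsmul u).add (hb.zsmul v)
  rw [smul_smul, smul_smul, ← add_smul] at h1
  have h2 : (u : ℚ) * a + v * b = 1 := by exact_mod_cast huv
  rwa [h2, one_smul] at h1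

theorem IsInt.congr {x y : W} (h : IsInt x) (e : x = y) : IsInt y := e ▸ h

theorem IsInt.smul_of_dvd {x : W} (h : IsInt ((M : ℚ) • x)) (hd : M ∣ N) :
    IsInt ((N : ℚ) • x) := by
  obtain ⟨c, rfl⟩ := hd
  refine (h.nsmul c).congr ?_
  rw [smul_smul]
  push_cast
  rw [mul_comm]

theorem IsInt.sum {ι : Type} (s : Finset ι) (f : ι → W) (h : ∀ i ∈ s, IsInt (f i)) :
    IsInt (∑ i ∈ s, f i) := (Lat.lat (W := W)).sum_mem h

theorem Lev.mono (h : Lev M φ) (hd : M ∣ N) : Lev N φ := by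
  refine ⟨fun x k hk => ?_, fun x hx => (h.2 x hx).smul_of_dvd hd⟩
  obtain ⟨c, rfl⟩ := hd
  rw [← h.1 x ((c : ℚ) • k) (hk.nsmul c), smul_smul]
  push_cast
  rfl
theorem Lev.sb (h : Lev M φ) (hM : 0 < M) : SB φ := ⟨M, hM, h⟩
theorem SBM.sb (h : SBM M φ) (hM : 0 < M) : SB φ := by
  obtain ⟨k, hk⟩ := h
  exact ⟨_, pow_pos hM k, hk⟩
theorem Lev.add (h : Lev M φ) (h' : Lev M ψ) : Lev M (φ + ψ) := by
  refine ⟨fun x k hk => by simp only [Pi.add_apply, h.1 x k hk, h'.1 x k hk], fun x hx => ?_⟩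
  by_cases h1 : φ x = 0
  · exact h'.2 x fun h2 => hx (by simp [h1, h2])
  · exact h.2 x h1
theorem Lev.smul (c : ℂ) (h : Lev M φ) : Lev M (c • φ) :=
  ⟨fun x k hk => by simp only [Pi.smul_apply, h.1 x k hk],
    fun x hx => h.2 x fun h2 => hx (by simp [h2])⟩
theorem lev_zero (M : ℕ) : Lev M (0 : W → ℂ) := ⟨fun _ _ _ => rfl, fun _ hx => absurd rfl hx⟩
theorem Lev.sum {ι : Type} (s : Finset ι) (f : ι → W → ℂ) (h : ∀ i ∈ s, Lev M (f i)) :
    Lev M (∑ i ∈ s, f i) :=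
  Finset.sum_induction f (Lev M) (fun _ _ => Lev.add) (lev_zero M) h
theorem Lev.neg_arg (h : Lev M φ) : Lev M fun x => φ (-x) := by
  refine ⟨fun x k hk => ?_, fun x hx => (h.2 _ hx).neg.congr (by simp)⟩
  show φ (-(x + (M : ℚ) • k)) = φ (-x)
  rw [← h.1 (-x) (-k) hk.neg, smul_neg, neg_add]
theorem SB.common (h : SB φ) {ψ : W' → ℂ} (h' : SB ψ) (K : ℕ) (hK : 0 < K) :
    ∃ M, 0 < M ∧ K ∣ M ∧ Lev M φ ∧ Lev M ψ := by
  obtain ⟨A, hA, h⟩ := h
  obtain ⟨B, hB, h'⟩ := h'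
  exact ⟨K * A * B, by positivity, ⟨A * B, by ring⟩, h.mono ⟨K * B, by ring⟩,
    h'.mono ⟨K * A, by ring⟩⟩
theorem SB.add (h : SB φ) (h' : SB ψ) : SB (φ + ψ) := by
  obtain ⟨M, hM, -, h1, h2⟩ := h.common h' 1 one_pos
  exact ⟨M, hM, h1.add h2⟩
theorem SB.smul (c : ℂ) (h : SB φ) : SB (c • φ) := by
  obtain ⟨M, hM, h⟩ := h
  exact ⟨M, hM, h.smul c⟩
theorem sb_zero : SB (0 : W → ℂ) := ⟨1, one_pos, lev_zero 1⟩
theorem SB.sum {ι : Type} (s : Finset ι) (f : ι → W → ℂ) (h : ∀ i ∈ s, SB (f i)) :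
    SB (∑ i ∈ s, f i) :=
  Finset.sum_induction f SB (fun _ _ => SB.add) sb_zero h

/-- a function of level `M` is constant on classes -/
theorem Lev.eq_of_cong (h : Lev M φ) (hM : 0 < M) {x r : W}
    (e : IsInt ((M : ℚ)⁻¹ • (x - r))) : φ x = φ r := by
  rw [← h.1 r _ e, smul_smul, mul_inv_cancel₀ (by exact_mod_cast hM.ne'), one_smul,
    add_sub_cancel]

theorem exists_den_finset (S : Finset W) : ∃ K : ℕ, 0 < K ∧ ∀ s ∈ S, IsInt ((K : ℚ) • s) := by
  choose D hD hD' using fun x : W => Lat.den x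
  exact ⟨∏ s ∈ S, D s, Finset.prod_pos fun s _ => hD s, fun s hs =>
    IsInt.smul_of_dvd (hD' s) (Finset.dvd_prod_of_mem D hs)⟩

theorem SB.shift (h : SB φ) (a : W) : SB fun x => φ (x + a) := by
  obtain ⟨M, hM, h⟩ := h
  obtain ⟨D, hD, ha⟩ := Lat.den a
  have h' := h.mono (dvd_mul_right M D)
  refine ⟨M * D, by positivity, fun x k hk => ?_, fun x hx => ?_⟩
  · show φ (x + _ + a) = φ (x + a)
    rw [add_right_comm, h'.1 _ k hk]
  · refine ((h'.2 _ hx).sub (IsInt.smul_of_dvd ha (dvd_mul_left D M))).congr ?_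
    rw [smul_add, add_sub_cancel_right]
/-- multiplication by a function that is periodic on the support -/
theorem SB.mul_of_per (h : SB φ) (f : W → ℂ) (hf : ∀ M : ℕ, 0 < M → ∃ K : ℕ, 0 < K ∧
    ∀ x k : W, IsInt ((M : ℚ) • x) → IsInt k → f (x + (K : ℚ) • k) = f x) :
    SB fun x => f x * φ x := by
  obtain ⟨M, hM, h⟩ := h
  obtain ⟨K, hK, hf⟩ := hf M hM
  have h' := h.mono (dvd_mul_left M K)
  refine ⟨K * M, by positivity, fun x k hk => ?_, fun x hx => h'.2 x (right_ne_zero_of_mul hx)⟩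
  show f _ * φ _ = f x * φ x
  rw [h'.1 x k hk]
  by_cases h0 : φ x = 0
  · simp [h0]
  · rw [← hf x _ (h.2 x h0) (hk.nsmul M), smul_smul]
    push_cast
    rfl

theorem lat_induction {P : W → Prop} {S : Finset W}
    (hS : AddSubgroup.closure (S : Set W) = Lat.lat (W := W)) (h1 : ∀ s ∈ S, P s) (h0 : P 0)
    (hadd : ∀ x y, P x → P y → P (x + y)) (hneg : ∀ x, P x → P (-x)) {x : W} (hx : IsInt x) :
    P x := by
  unfold IsInt at hx
  rw [← hS] at hx
  induction hx using AddSubgroup.closure_induction with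
  | mem x hx => exact h1 x hx
  | zero => exact h0
  | add x y _ _ hx hy => exact hadd x y hx hy
  | neg x _ hx => exact hneg x hx

/-- linear maps have bounded denominators -/
theorem exists_den (L : W →ₗ[ℚ] W') : ∃ K : ℕ, 0 < K ∧ ∀ x, IsInt x → IsInt ((K : ℚ) • L x) := by
  classical
  obtain ⟨S, hS⟩ := Lat.fg (W := W)
  obtain ⟨K, hK, h⟩ := exists_den_finset (S.image L)
  refine ⟨K, hK, fun x hx => ?_⟩
  refine lat_induction (P := fun x => IsInt ((K : ℚ) • L x)) hS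
    (fun s hs => h _ (Finset.mem_image_of_mem _ hs)) (by simpa using isInt_zero)
    (fun x y hx hy => ?_) (fun x hx => ?_) hx
  · rw [map_add, smul_add]
    exact hx.add hy
  · rw [map_neg, smul_neg]
    exact hx.neg
theorem SB.comp_inj {φ : W' → ℂ} (h : SB φ) (L : W →ₗ[ℚ] W') (hL : Injective L) :
    SB fun x => φ (L x) := by
  obtain ⟨M, hM, h⟩ := h
  obtain ⟨G, hG⟩ := L.exists_leftInverse_of_injective (LinearMap.ker_eq_bot.2 hL)
  obtain ⟨K1, hK1, h1⟩ := exists_den L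
  obtain ⟨K2, hK2, h2⟩ := exists_den G
  refine ⟨M * K2 * K1, by positivity, fun x k hk => ?_, fun x hx => ?_⟩
  · show φ (L _) = φ (L x)
    rw [← (h.mono (dvd_mul_right M K2)).1 (L x) _ (h1 k hk), map_add, map_smul, smul_smul]
    push_cast
    rfl
  · have h3 := h2 _ (h.2 _ hx)
    have h4 : G (L x) = x := LinearMap.congr_fun hG x
    rw [map_smul, h4, smul_smul, ← Nat.cast_mul] at h3
    exact h3.smul_of_dvd ⟨K1, by ring⟩
theorem SB.comp_affine {φ : W' → ℂ} (h : SB φ) (L : W →ₗ[ℚ] W') (hL : Injective L) (a : W') :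
    SB fun x => φ (L x + a) := (h.shift a).comp_inj L hL
theorem Lev.fst {φ : W × W' → ℂ} (h : Lev M φ) (y : W') : Lev M fun x => φ (x, y) := by
  refine ⟨fun x k hk => ?_, fun x hx => (h.2 _ hx).1⟩
  have := h.1 (x, y) (k, 0) ⟨hk, isInt_zero⟩
  simpa using this
theorem Lev.snd {φ : W × W' → ℂ} (h : Lev M φ) (x : W) : Lev M fun y => φ (x, y) := by
  refine ⟨fun y k hk => ?_, fun y hy => (h.2 _ hy).2⟩
  have := h.1 (x, y) (0, k) ⟨isInt_zero, hk⟩
  simpa using this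
theorem lev_prod {φ : W × W' → ℂ} (h : ∀ y, Lev M fun x => φ (x, y))
    (h' : ∀ x, Lev M fun y => φ (x, y)) : Lev M φ := by
  refine ⟨fun p k hk => ?_, fun p hp => ⟨(h p.2).2 p.1 hp, (h' p.1).2 p.2 hp⟩⟩
  exact ((h _).1 p.1 k.1 hk.1).trans ((h' p.1).1 p.2 k.2 hk.2)
theorem Lev.tensor (h : Lev M φ) {ψ : W' → ℂ} (h' : Lev M ψ) :
    Lev M fun p : W × W' => φ p.1 * ψ p.2 := by
  refine ⟨fun p k hk => ?_, fun p hp =>
    ⟨h.2 _ (left_ne_zero_of_mul hp), h'.2 _ (right_ne_zero_of_mul hp)⟩⟩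
  exact congrArg₂ (· * ·) (h.1 p.1 k.1 hk.1) (h'.1 p.2 k.2 hk.2)
theorem SB.tensor (h : SB φ) {ψ : W' → ℂ} (h' : SB ψ) :
    SB fun p : W × W' => φ p.1 * ψ p.2 := by
  obtain ⟨M, hM, -, h1, h2⟩ := h.common h' 1 one_pos
  exact ⟨M, hM, h1.tensor h2⟩

theorem cong_add_iff (hM : 0 < M) (x r : W) {k : W} (hk : IsInt k) :
    IsInt ((M : ℚ)⁻¹ • (x + (M : ℚ) • k - r)) ↔ IsInt ((M : ℚ)⁻¹ • (x - r)) := by
  have e : (M : ℚ)⁻¹ • (x + (M : ℚ) • k - r) = (M : ℚ)⁻¹ • (x - r) + k := by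
    rw [add_sub_right_comm, smul_add, smul_smul, inv_mul_cancel₀ (by exact_mod_cast hM.ne'),
      one_smul]
  rw [e]
  exact ⟨fun h => (h.sub hk).congr (by simp), fun h => h.add hk⟩

theorem cong_symm {c : ℚ} {x r : W} (h : IsInt (c • (x - r))) : IsInt (c • (r - x)) :=
  h.neg.congr (by rw [← smul_neg, neg_sub])

theorem cong_trans {c : ℚ} {x y z : W} (h : IsInt (c • (x - y))) (h' : IsInt (c • (y - z))) :
    IsInt (c • (x - z)) :=
  (h.add h').congr (by rw [← smul_add, sub_add_sub_cancel])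

theorem cong_refl (c : ℚ) (x : W) : IsInt (c • (x - x)) := by simpa using isInt_zero

theorem IsInt.of_inv_smul (hM : 0 < M) {x : W} (h : IsInt ((M : ℚ)⁻¹ • x)) : IsInt x :=
  (h.nsmul M).congr (by
    rw [smul_smul, mul_inv_cancel₀ (by exact_mod_cast hM.ne'), one_smul])

theorem cls_ne_zero_iff (r x : W) : cls M r x ≠ 0 ↔ IsInt ((M : ℚ)⁻¹ • (x - r)) := by
  unfold cls
  split_ifs with h <;> simp [h]

theorem cls_of {r x : W} (h : IsInt ((M : ℚ)⁻¹ • (x - r))) : cls M r x = 1 := if_pos h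

theorem cls_of_not {r x : W} (h : ¬ IsInt ((M : ℚ)⁻¹ • (x - r))) : cls M r x = 0 := if_neg h

theorem cls_per (hM : 0 < M) (r x : W) {k : W} (hk : IsInt k) :
    cls M r (x + (M : ℚ) • k) = cls M r x := by
  by_cases h : IsInt ((M : ℚ)⁻¹ • (x - r))
  · rw [cls_of h, cls_of ((cong_add_iff hM x r hk).2 h)]
  · rw [cls_of_not h, cls_of_not (mt (cong_add_iff hM x r hk).1 h)]

theorem lev_cls (hM : 0 < M) {r : W} (hr : IsInt ((M : ℚ) • r)) : Lev M (cls M r) := by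
  refine ⟨fun x k hk => cls_per hM r x hk, fun x hx => ?_⟩
  refine (((((cls_ne_zero_iff r x).1 hx).of_inv_smul hM).nsmul M).add hr).congr ?_
  rw [← smul_add, sub_add_cancel]
theorem sb_cls (hM : 0 < M) (r : W) : SB (cls M r) := by
  have := ((lev_cls (W := W) hM (r := 0) (by simpa using isInt_zero)).sb hM).shift (-r)
  convert this using 2 with x
  unfold cls
  rw [sub_zero, ← sub_eq_add_neg]

/-! ### subgroups and representatives -/

/-- the lattice scaled by `c` -/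
def latS (W : Type) [AddCommGroup W] [Module ℚ W] [Lat W] (c : ℚ) : AddSubgroup W :=
  (Lat.lat (W := W)).map (DistribSMul.toAddMonoidHom W c)

theorem mem_latS {c : ℚ} (hc : c ≠ 0) (x : W) : x ∈ latS W c ↔ IsInt (c⁻¹ • x) := by
  constructor
  · rintro ⟨y, hy, rfl⟩
    show IsInt (c⁻¹ • c • y)
    rw [smul_smul, inv_mul_cancel₀ hc, one_smul]
    exact hy
  · intro h
    refine ⟨_, h, ?_⟩
    show c • c⁻¹ • x = x
    rw [smul_smul, mul_inv_cancel₀ hc, one_smul]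

theorem latS_one : latS W 1 = Lat.lat := by
  ext x
  rw [mem_latS one_ne_zero]
  simp [IsInt]

theorem latS_map (c c' : ℚ) :
    (latS W c).map (DistribSMul.toAddMonoidHom W c') = latS W (c' * c) := by
  unfold latS
  rw [AddSubgroup.map_map]
  congr 1
  ext x
  simp [smul_smul]

theorem latS_le {c : ℚ} (hc : c ≠ 0) (hM : 0 < M) : latS W (c * M) ≤ latS W c := by
  have hM' : (M : ℚ) ≠ 0 := by exact_mod_cast hM.ne'
  intro x hx
  rw [mem_latS (mul_ne_zero hc hM')] at hx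
  rw [mem_latS hc]
  refine IsInt.of_inv_smul hM ?_
  rwa [smul_smul, ← mul_inv, mul_comm]

theorem relIndex_latS {c : ℚ} (hc : c ≠ 0) (M : ℕ) :
    (latS W (c * M)).relIndex (latS W c) = idx W M := by
  have hinj : Injective (DistribSMul.toAddMonoidHom W c) := smul_right_injective W hc
  have := AddSubgroup.relIndex_map_map_of_injective (latS W M) (latS W 1) hinj
  rw [latS_map, latS_map, mul_one, latS_one] at this
  exact this

theorem idx_pos (W : Type) [AddCommGroup W] [Module ℚ W] [Lat W] (hM : 0 < M) : 0 < idx W M := by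
  obtain ⟨R, hR⟩ := Lat.fin (W := W) M hM
  have hM' : (M : ℚ) ≠ 0 := by exact_mod_cast hM.ne'
  have : Finite (Lat.lat (W := W) ⧸ (latS W M).addSubgroupOf (Lat.lat (W := W))) := by
    have : Finite {r : W // r ∈ R ∧ IsInt r} :=
      Set.Finite.subset R.finite_toSet fun r hr => hr.1
    refine Finite.of_surjective (fun r : {r : W // r ∈ R ∧ IsInt r} =>
      (QuotientAddGroup.mk ⟨r.1, r.2.2⟩ : Lat.lat (W := W) ⧸ (latS W M).addSubgroupOf _)) ?_
    intro q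
    obtain ⟨x, rfl⟩ := QuotientAddGroup.mk_surjective q
    obtain ⟨r, hr, k, hk, e1⟩ := hR x.1 x.2
    have hri : IsInt r := (IsInt.sub x.2 (IsInt.nsmul hk M)).congr (by rw [e1]; simp)
    refine ⟨⟨r, hr, hri⟩, ?_⟩
    rw [QuotientAddGroup.eq, AddSubgroup.mem_addSubgroupOf, mem_latS hM']
    refine IsInt.congr hk ?_
    simp [e1, smul_smul, inv_mul_cancel₀ hM']
  exact Nat.pos_of_ne_zero (AddSubgroup.index_ne_zero_of_finite (hH := this))

theorem idx_one : idx W 1 = 1 := by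
  have := relIndex_latS (W := W) one_ne_zero 1
  rw [← this]
  simp

theorem idx_mul (hM : 0 < M) (hN : 0 < N) : idx W (M * N) = idx W M * idx W N := by
  have hM' : (M : ℚ) ≠ 0 := by exact_mod_cast hM.ne'
  have h1 := relIndex_latS (W := W) hM' N
  have h2 := relIndex_latS (W := W) one_ne_zero M
  have h3 := relIndex_latS (W := W) one_ne_zero (M * N)
  rw [one_mul] at h2 h3
  rw [mul_comm (idx W M), ← h1, ← h2, ← h3, Nat.cast_mul]
  have h4 := latS_le (W := W) one_ne_zero hM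
  rw [one_mul] at h4
  exact (AddSubgroup.relIndex_mul_relIndex _ _ _ (latS_le hM' hN) h4).symm

theorem exists_reps_sub {V : Type} [AddCommGroup V] (A B : AddSubgroup V)
    (h : A.relIndex B ≠ 0) : ∃ R : Finset V, (∀ r ∈ R, r ∈ B) ∧ R.card = A.relIndex B ∧
      ∀ x ∈ B, ∃! r, r ∈ R ∧ x - r ∈ A := by
  classical
  have hfin : Finite (B ⧸ A.addSubgroupOf B) := Nat.finite_of_card_ne_zero h
  have := Fintype.ofFinite (B ⧸ A.addSubgroupOf B)
  let f : (B ⧸ A.addSubgroupOf B) → V := fun q => (q.out : B)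
  have hf : ∀ q (x : B), (x : V) - f q ∈ A ↔ q = QuotientAddGroup.mk x := by
    intro q x
    rw [← QuotientAddGroup.out_eq' q, QuotientAddGroup.eq, AddSubgroup.mem_addSubgroupOf,
      QuotientAddGroup.out_eq']
    simp [f, neg_add_eq_sub]
  have hinj : Injective f := fun q q' e =>
    Quotient.out_injective (Subtype.ext e)
  refine ⟨Finset.univ.image f, ?_, ?_, fun x hx => ?_⟩
  · intro r hr
    obtain ⟨q, -, rfl⟩ := Finset.mem_image.1 hr
    exact q.out.2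
  · rw [Finset.card_image_of_injective _ hinj, Finset.card_univ, ← Nat.card_eq_fintype_card]
    rfl
  · refine ⟨f (QuotientAddGroup.mk ⟨x, hx⟩), ⟨Finset.mem_image_of_mem _ (Finset.mem_univ _),
      (hf _ ⟨x, hx⟩).2 rfl⟩, ?_⟩
    rintro r ⟨hr, h2⟩
    obtain ⟨q, -, rfl⟩ := Finset.mem_image.1 hr
    rw [(hf q ⟨x, hx⟩).1 h2]

/-- representatives of `K⁻¹ L / M L` -/
theorem exists_reps2 (W : Type) [AddCommGroup W] [Module ℚ W] [Lat W] (hM : 0 < M) {K : ℕ}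
    (hK : 0 < K) : ∃ R : Finset W, (∀ r ∈ R, IsInt ((K : ℚ) • r)) ∧
      R.card = idx W K * idx W M ∧
      ∀ x, IsInt ((K : ℚ) • x) → ∃! r, r ∈ R ∧ IsInt ((M : ℚ)⁻¹ • (x - r)) := by
  have hM' : (M : ℚ) ≠ 0 := by exact_mod_cast hM.ne'
  have hK' : (K : ℚ) ≠ 0 := by exact_mod_cast hK.ne'
  have h1 := relIndex_latS (W := W) (inv_ne_zero hK') (K * M)
  rw [idx_mul hK hM, Nat.cast_mul, inv_mul_cancel_left₀ hK'] at h1
  obtain ⟨R, r1, r2, r3⟩ := exists_reps_sub (latS W M) (latS W (K : ℚ)⁻¹)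
    (by rw [h1]; exact (Nat.mul_pos (idx_pos W hK) (idx_pos W hM)).ne')
  simp only [mem_latS (inv_ne_zero hK'), mem_latS hM', inv_inv] at r1 r3
  exact ⟨R, r1, r2.trans h1, r3⟩

theorem eq_sum_cls {V : Type} [AddCommMonoid V] [Module ℂ V] (hM : 0 < M) {R : Finset W}
    (r1 : ∀ r ∈ R, IsInt ((M : ℚ) • r))
    (r3 : ∀ x, IsInt ((M : ℚ) • x) → ∃! r, r ∈ R ∧ IsInt ((M : ℚ)⁻¹ • (x - r)))
    (F : W → V) (h1 : ∀ x k : W, IsInt k → F (x + (M : ℚ) • k) = F x)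
    (h2 : ∀ x, F x ≠ 0 → IsInt ((M : ℚ) • x)) (x : W) : F x = ∑ r ∈ R, cls M r x • F r := by
  by_cases hx : IsInt ((M : ℚ) • x)
  · obtain ⟨r, ⟨hr, e1⟩, hu⟩ := r3 x hx
    rw [Finset.sum_eq_single r, cls_of e1, one_smul, ← h1 r _ e1, smul_smul,
      mul_inv_cancel₀ (by exact_mod_cast hM.ne'), one_smul, add_sub_cancel]
    · intro b hb hne
      rw [cls_of_not fun h => hne (hu b ⟨hb, h⟩), zero_smul]
    · exact fun h => absurd hr h
  · rw [Finset.sum_eq_zero]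
    · by_contra h0
      exact hx (h2 x h0)
    · intro r hr
      have : cls M r x = 0 := by
        by_contra h0
        exact hx ((lev_cls hM (r1 r hr)).2 x h0)
      rw [this, zero_smul]

/-- representatives of `M⁻¹ L / M L` -/
theorem exists_cls_reps (W : Type) [AddCommGroup W] [Module ℚ W] [Lat W] (hM : 0 < M) :
    ∃ R : Finset W, (∀ r ∈ R, IsInt ((M : ℚ) • r)) ∧ R.card = idx W M ^ 2 ∧
      (∀ x, IsInt ((M : ℚ) • x) → ∃! r, r ∈ R ∧ IsInt ((M : ℚ)⁻¹ • (x - r))) ∧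
      ∀ φ : W → ℂ, Lev M φ → φ = ∑ r ∈ R, φ r • cls M r := by
  obtain ⟨R, r1, r2, r3⟩ := exists_reps2 W hM hM
  refine ⟨R, r1, by rw [r2, sq], r3, fun φ h => funext fun x => ?_⟩
  rw [eq_sum_cls hM r1 r3 φ h.1 h.2 x, Finset.sum_apply]
  exact Finset.sum_congr rfl fun r _ => by simp [mul_comm]

theorem SB.bdd (h : SB φ) : ∃ C : ℝ, 0 ≤ C ∧ ∀ x, ‖φ x‖ ≤ C := by
  obtain ⟨M, hM, h⟩ := h
  obtain ⟨R, -, -, r3⟩ := exists_reps2 W hM hM
  refine ⟨∑ r ∈ R, ‖φ r‖, Finset.sum_nonneg fun _ _ => norm_nonneg _, fun x => ?_⟩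
  by_cases hx : φ x = 0
  · rw [hx, norm_zero]
    exact Finset.sum_nonneg fun _ _ => norm_nonneg _
  · obtain ⟨r, ⟨hr, e1⟩, -⟩ := r3 x (h.2 x hx)
    rw [h.eq_of_cong hM e1]
    exact Finset.single_le_sum (f := fun r => ‖φ r‖) (fun _ _ => norm_nonneg _) hr

/-- induction on pure tensors -/
theorem SB.tensor_induction {P : (W × W' → ℂ) → Prop} (h0 : P 0)
    (hadd : ∀ φ ψ, SB φ → SB ψ → P φ → P ψ → P (φ + ψ))
    (hten : ∀ (φ : W → ℂ) (ψ : W' → ℂ), SB φ → SB ψ → P fun p => φ p.1 * ψ p.2)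
    {φ : W × W' → ℂ} (h : SB φ) : P φ := by
  obtain ⟨M, hM, h⟩ := h
  obtain ⟨R, r1, -, r3⟩ := exists_reps2 W hM hM
  have e1 : φ = ∑ r ∈ R, fun p : W × W' => cls M r p.1 * φ (r, p.2) := by
    funext p
    rw [Finset.sum_apply]
    exact eq_sum_cls hM r1 r3 (fun x => φ (x, p.2)) (h.fst p.2).1 (h.fst p.2).2 p.1
  rw [e1]
  exact (Finset.sum_induction _ (fun f => SB f ∧ P f)
    (fun a b ha hb => ⟨ha.1.add hb.1, hadd a b ha.1 hb.1 ha.2 hb.2⟩) ⟨sb_zero, h0⟩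
    fun r _ => ⟨(sb_cls hM r).tensor ((h.snd r).sb hM),
      hten _ (fun y => φ (r, y)) (sb_cls hM r) ((h.snd r).sb hM)⟩).2

/-- a function of finite level with values in a vector space is a finite sum of tensors -/
theorem exists_coords {V : Type} [AddCommGroup V] [Module ℂ V] (hM : 0 < M) (F : W → V)
    (h1 : ∀ x k : W, IsInt k → F (x + (M : ℚ) • k) = F x)
    (h2 : ∀ x, F x ≠ 0 → IsInt ((M : ℚ) • x)) :
    ∃ (r : ℕ) (x : Fin r → W) (l : Fin r → V →ₗ[ℂ] ℂ), ∀ y, F y = ∑ i, l i (F y) • F (x i) := by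
  obtain ⟨R, r1, -, r3⟩ := exists_reps2 W hM hM
  obtain ⟨κ, a, ha, hsp, hli⟩ := exists_linearIndependent' ℂ (fun r : R => F r)
  have : Finite κ := Finite.of_injective a ha
  obtain ⟨n, ⟨ε⟩⟩ := Finite.exists_equiv_fin κ
  have hli' := hli.comp ε.symm ε.symm.injective
  set b := ((fun r : R => F r) ∘ a) ∘ ε.symm with hb
  choose l hl using fun i => LinearMap.exists_extend ((Module.Basis.span hli').coord i)
  refine ⟨n, fun i => (a (ε.symm i)).1, l, fun y => ?_⟩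
  have hy : F y ∈ Submodule.span ℂ (Set.range b) := by
    rw [hb, ε.symm.surjective.range_comp, hsp, eq_sum_cls hM r1 r3 F h1 h2 y]
    exact Submodule.sum_mem _ fun r hr =>
      Submodule.smul_mem _ _ (Submodule.subset_span ⟨⟨r, hr⟩, rfl⟩)
  have e1 := congrArg Subtype.val ((Module.Basis.span hli').sum_repr ⟨F y, hy⟩)
  rw [AddSubmonoidClass.coe_finsetSum] at e1
  refine e1.symm.trans (Finset.sum_congr rfl fun i _ => ?_)
  have e2 := LinearMap.congr_fun (hl i) ⟨F y, hy⟩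
  rw [Submodule.coe_smul, Module.Basis.coe_span_apply]
  exact congrArg₂ (· • ·) e2.symm rfl

/-! ### the integral as a finite sum -/

omit [Module ℚ W] [Lat W] in
theorem trA_apply (g : Multiplicative W) (x : W) : trA W g x = g.toAdd + x := rfl

theorem II_eq_sum_sub (A : AddSubgroup W) (hA : A ≤ Lat.lat) (h0 : A.relIndex Lat.lat ≠ 0)
    (h : ∀ a ∈ A, ∀ x, φ (a + x) = φ x) (R : Finset W)
    (hR : ∀ x, φ x ≠ 0 → ∃! r, r ∈ R ∧ x - r ∈ A) :
    DGood (trA W) (AddSubgroup.toSubgroup (Lat.lat (W := W))) φ ∧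
      II φ = (∑ r ∈ R, φ r) / (A.relIndex Lat.lat : ℂ) := by
  have := dmean_reps (ρ := trA W) (Γ0 := AddSubgroup.toSubgroup (Lat.lat (W := W)))
    (Γ := AddSubgroup.toSubgroup A) (w := φ)
    ⟨fun x hx => hA hx, by rwa [AddSubgroup.relIndex_toSubgroup]⟩
    (fun γ hγ x => h _ hγ x) R (fun x hx => ?_) (fun x _ γ _ e1 => ?_)
  · rw [AddSubgroup.relIndex_toSubgroup] at this
    exact this
  · refine (existsUnique_congr fun r => and_congr_right fun _ => ⟨?_, ?_⟩).1 (hR x hx)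
    · exact fun h1 => ⟨Multiplicative.ofAdd (x - r), h1, sub_add_cancel x r⟩
    · rintro ⟨γ, hγ, rfl⟩
      simpa [trA_apply] using hγ
  · simpa [trA_apply] using e1

theorem II_eq_sum' (hM : 0 < M) (h : ∀ x k : W, IsInt k → φ (x + (M : ℚ) • k) = φ x)
    (R : Finset W) (hR : ∀ x, φ x ≠ 0 → ∃! r, r ∈ R ∧ IsInt ((M : ℚ)⁻¹ • (x - r))) :
    DGood (trA W) (AddSubgroup.toSubgroup (Lat.lat (W := W))) φ ∧
      II φ = (∑ r ∈ R, φ r) / (idx W M : ℂ) := by
  have hM' : (M : ℚ) ≠ 0 := by exact_mod_cast hM.ne'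
  refine II_eq_sum_sub (latS W M) (fun x hx => ((mem_latS hM' x).1 hx).of_inv_smul hM)
    (idx_pos W hM).ne' ?_ R (by simpa only [mem_latS hM'] using hR)
  rintro _ ⟨k, hk, rfl⟩ x
  rw [add_comm]
  exact h x k hk

theorem SB.dgood (h : SB φ) :
    DGood (trA W) (AddSubgroup.toSubgroup (Lat.lat (W := W))) φ := by
  obtain ⟨M, hM, h⟩ := h
  obtain ⟨R, -, -, r3⟩ := exists_reps2 W hM hM
  exact (II_eq_sum' hM h.1 R fun x hx => r3 x (h.2 x hx)).1
theorem sb_of_dgood (h : DGood (trA W) (AddSubgroup.toSubgroup (Lat.lat (W := W))) φ) :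
    SB φ := by
  obtain ⟨⟨Γ, β⟩, hFI, hinv, hwt, hfin⟩ := h
  obtain ⟨K, hK, hS⟩ := exists_den_finset hfin.toFinset
  refine ⟨Γ.relIndex (AddSubgroup.toSubgroup (Lat.lat (W := W))) * K,
    Nat.mul_pos (Nat.pos_of_ne_zero hFI.2) hK, fun x k hk => ?_, fun x hx => ?_⟩
  · have h1 := hinv _ (Subgroup.pow_relIndex_mem Γ
      (g := Multiplicative.ofAdd ((K : ℚ) • k)) (K := AddSubgroup.toSubgroup (Lat.lat (W := W)))
      (hk.nsmul K)) x
    rw [trA_apply, toAdd_pow, toAdd_ofAdd, ← Nat.cast_smul_eq_nsmul ℚ, smul_smul, add_comm] at h1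
    rw [Nat.cast_mul]
    exact h1
  · have h1 : ∃ γ : Γ, β (trA W γ x) ≠ 0 := by
      by_contra hcon
      push Not at hcon
      have := (hwt x hx).2
      simp [hcon] at this
    obtain ⟨γ, hγ⟩ := h1
    have h2 := hS (trA W γ x) (by
      rw [Set.Finite.mem_toFinset, mem_support, hinv γ γ.2 x]
      exact mul_ne_zero hγ hx)
    have h3 : IsInt (γ.1.toAdd) := hFI.1 γ.2
    refine IsInt.smul_of_dvd (M := K) ((h2.sub (h3.nsmul K)).congr ?_) (dvd_mul_left _ _)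
    rw [trA_apply, smul_add, add_sub_cancel_left]
theorem II_eq_sum (hM : 0 < M) (h : Lev M φ) (R : Finset W)
    (hR : ∀ x, φ x ≠ 0 → ∃! r, r ∈ R ∧ IsInt ((M : ℚ)⁻¹ • (x - r))) :
    II φ = (∑ r ∈ R, φ r) / (idx W M : ℂ) := (II_eq_sum' hM h.1 R hR).2

theorem II_of_not_sb (h : ¬ SB φ) : II φ = 0 := dif_neg fun h' => h (sb_of_dgood h')

end general

end

end Pool.Agent.P.MP_b8021b_nt.CM
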