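import Pool.Agent.P.MP_b8021b_nt.CM.Lib

/-! Package P28, first part: the test vectors are nice. -/

namespace Pool.Agent.P.MP_b8021b_nt.CM

open Complex hiding Gamma
open UpperHalfPlane hiding I
open MeasureTheory CongruenceSubgroup Filter
open scoped Real MatrixGroups ModularForm Topology ComplexConjugate Modular

noncomputable section

namespace SecP

theorem isInt_U6 (u : U6) : IsInt u ↔ ∃ (Z : Z2) (a b : ℤ), u = (castZ Z, ((a : ℚ), (b : ℚ))) := by
  rw [isInt_prod, isInt_prod, isInt_M2, isInt_rat, isInt_rat]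
  constructor
  · rintro ⟨⟨Z, h1⟩, ⟨a, h2⟩, b, h3⟩
    exact ⟨Z, a, b, Prod.ext h1.symm (Prod.ext h2 h3)⟩
  · rintro ⟨Z, a, b, rfl⟩
    exact ⟨⟨Z, rfl⟩, ⟨a, rfl⟩, b, rfl⟩

theorem isInt_QU (d : ℕ) {u : U6} (h : IsInt u) : IsInt (QU d u) := by
  obtain ⟨Z, a, b, rfl⟩ := (isInt_U6 u).1 h
  exact (isInt_rat _).2 ⟨Z.det - (a ^ 2 + d * b ^ 2), by simp [QU, Nm, castZ_det]⟩

theorem QU_smul (d : ℕ) (a : ℚ) (u : U6) : QU d (a • u) = a ^ 2 * QU d u := by
  simp [QU, Nm]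
  ring

theorem red_add (N : ℕ) (Y Z : Z2) : red N (Y + Z) = red N Y + red N Z := by
  ext i j
  simp [red]

theorem red_smul (N : ℕ) (a : ℤ) (Y : Z2) : red N (a • Y) = (a : ZMod N) • red N Y := by
  ext i j
  simp only [red, Matrix.map_apply, Matrix.smul_apply, smul_eq_mul, Int.cast_mul]

/-- the support of the test vector -/
def Cond (N : ℕ) (μ : R2 N × R2 N) (u' u : U6) : Prop :=
  ∃ (a b c e : ℤ) (Z' Z : Z2), u' = (castZ Z', ((a : ℚ), (b : ℚ))) ∧
    u = (castZ Z, ((c : ℚ), (e : ℚ))) ∧ IsCoprime (a * e - b * c) N ∧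
    red N Z' = (a : ZMod N) • μ.1 + (b : ZMod N) • μ.2 ∧
    red N Z = (c : ZMod N) • μ.1 + (e : ZMod N) • μ.2

variable {N : ℕ} {μ : R2 N × R2 N} {u' u : U6}

open Classical in
theorem vmu_eq (u' u : U6) : vmu N μ u' u = if Cond N μ u' u then 1 else 0 := by
  have hn : ∀ a b c e : ℤ, (det2 (((a : ℚ), (b : ℚ)), ((c : ℚ), (e : ℚ)))).num = a * e - b * c :=
    fun a b c e => by
      rw [← Rat.num_intCast (a * e - b * c)]
      simp [det2]
  have hi : ∀ a b : ℤ, IsInt ((a : ℚ), (b : ℚ)) := fun a b =>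
    (isInt_prod _).2 ⟨(isInt_rat _).2 ⟨a, rfl⟩, (isInt_rat _).2 ⟨b, rfl⟩⟩
  split_ifs with h
  · obtain ⟨a, b, c, e, Z', Z, rfl, rfl, h1, h2, h3⟩ := h
    rw [vmu, if_pos ⟨hi a b, hi c e, by rwa [hn]⟩]
    simp [ind_castZ, h2, h3]
  · by_contra h0
    refine h ?_
    unfold vmu at h0
    split_ifs at h0 with h1
    · obtain ⟨h1, h2, h3⟩ := h1
      obtain ⟨⟨a, ha⟩, b, hb⟩ : (∃ a : ℤ, u'.2.1 = a) ∧ ∃ b : ℤ, u'.2.2 = b := by
        simpa only [isInt_prod, isInt_rat] using h1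
      obtain ⟨⟨c, hc⟩, e, he⟩ : (∃ a : ℤ, u.2.1 = a) ∧ ∃ b : ℤ, u.2.2 = b := by
        simpa only [isInt_prod, isInt_rat] using h2
      obtain ⟨Z', a1, a2⟩ : ∃ Z : Z2, castZ Z = u'.1 ∧ red N Z = _ :=
        by_contra fun h' => left_ne_zero_of_mul h0 (if_neg h')
      obtain ⟨Z, b1, b2⟩ : ∃ Z : Z2, castZ Z = u.1 ∧ red N Z = _ :=
        by_contra fun h' => right_ne_zero_of_mul h0 (if_neg h')
      have e1 : u'.2 = ((a : ℚ), (b : ℚ)) := Prod.ext ha hb
      have e2 : u.2 = ((c : ℚ), (e : ℚ)) := Prod.ext hc he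
      refine ⟨a, b, c, e, Z', Z, Prod.ext a1.symm e1, Prod.ext b1.symm e2, ?_, ?_, ?_⟩
      · rwa [e1, e2, hn] at h3
      · simpa [ha, hb] using a2
      · simpa [hc, he] using b2
    · exact (h0 rfl).elim

theorem vmu_congr {w' w : U6} (h : Cond N μ u' u ↔ Cond N μ w' w) :
    vmu N μ u' u = vmu N μ w' w := by
  classical
  rw [vmu_eq, vmu_eq]
  exact if_congr h rfl rfl

theorem cond_of_ne (h : vmu N μ u' u ≠ 0) : Cond N μ u' u := by
  classical
  exact by_contra fun h' => h (by rw [vmu_eq, if_neg h'])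

theorem Cond.symm (h : Cond N μ u' u) : Cond N μ u u' := by
  obtain ⟨a, b, c, e, Z', Z, h1, h2, h3, h4, h5⟩ := h
  refine ⟨c, e, a, b, Z, Z', h2, h1, ?_, h5, h4⟩
  have : c * b - e * a = -(a * e - b * c) := by ring
  rw [this]
  exact h3.neg_left

theorem vmu_symm (u' u : U6) : vmu N μ u' u = vmu N μ u u' := vmu_congr ⟨Cond.symm, Cond.symm⟩

theorem Cond.isInt (h : Cond N μ u' u) : IsInt u' := by
  obtain ⟨a, b, c, e, Z', Z, h1, -⟩ := h
  exact (isInt_U6 _).2 ⟨Z', a, b, h1⟩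

theorem Cond.shift (h : Cond N μ u' u) {k : U6} (hk : IsInt k) : Cond N μ (u' + (N : ℚ) • k) u := by
  obtain ⟨a, b, c, e, Z', Z, rfl, rfl, h3, h4, h5⟩ := h
  obtain ⟨K, k1, k2, rfl⟩ := (isInt_U6 k).1 hk
  refine ⟨a + N * k1, b + N * k2, c, e, Z' + (N : ℤ) • K, Z, ?_, rfl, ?_, ?_, h5⟩
  · rw [castZ_add, castZ_smul]
    simp
  · have : (a + N * k1) * e - (b + N * k2) * c = a * e - b * c + N * (k1 * e - k2 * c) := by ring
    rw [this]
    exact h3.add_mul_left_left _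
  · rw [red_add, red_smul, h4]
    simp

theorem lev_vmu (u : U6) : Lev N fun u' => vmu N μ u' u := by
  refine ⟨fun x k hk => vmu_congr ⟨fun h => ?_, fun h => h.shift hk⟩,
    fun x hx => (cond_of_ne hx).isInt.nsmul N⟩
  simpa using h.shift hk.neg

theorem cond_smul {a : ℤ} {M : ℕ} (ha : IsCoprime a M) (hN : N ∣ M) (h : IsInt ((M : ℚ) • u')) :
    Cond N μ ((a : ℚ) • u') u ↔ Cond N μ u' u := by
  have haN : IsCoprime a N := ha.of_isCoprime_of_dvd_right (by exact_mod_cast hN)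
  constructor
  · intro h1
    obtain ⟨Z0, a0, b0, rfl⟩ := (isInt_U6 u').1 (IsInt.of_coprime ha h1.isInt (by exact_mod_cast h))
    obtain ⟨a1, b1, c, e, Z', Z, h2, rfl, h3, h4, h5⟩ := h1
    simp only [Prod.smul_mk, Prod.mk.injEq, smul_eq_mul, ← castZ_smul] at h2
    obtain ⟨e1, e2, e3⟩ := h2
    obtain rfl := castZ_injective e1
    obtain rfl : a * a0 = a1 := by exact_mod_cast e2
    obtain rfl : a * b0 = b1 := by exact_mod_cast e3
    refine ⟨a0, b0, c, e, Z0, Z, rfl, rfl, ?_, ?_, h5⟩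
    · have : a * a0 * e - a * b0 * c = a * (a0 * e - b0 * c) := by ring
      rw [this] at h3
      exact h3.of_mul_left_right
    · have hu : IsUnit (a : ZMod N) := (ZMod.coe_int_isUnit_iff_isCoprime a N).2 haN.symm
      rw [red_smul] at h4
      push_cast at h4
      rw [mul_smul, mul_smul, ← smul_add] at h4
      exact (hu.smul_left_cancel).1 h4
  · rintro ⟨a0, b0, c, e, Z0, Z, rfl, rfl, h3, h4, h5⟩
    refine ⟨a * a0, a * b0, c, e, a • Z0, Z, by rw [castZ_smul]; simp, rfl, ?_, ?_, h5⟩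
    · have : a * a0 * e - a * b0 * c = a * (a0 * e - b0 * c) := by ring
      rw [this]
      exact haN.mul_left h3
    · rw [red_smul, h4]
      push_cast
      rw [mul_smul, mul_smul, ← smul_add]

theorem Cond.kp (h : Cond N μ u' u) (γ : SL) :
    Cond N μ (kp γ (u', u)).1 (kp γ (u', u)).2 := by
  obtain ⟨a, b, c, e, Z', Z, rfl, rfl, h3, h4, h5⟩ := h
  have hd := γ.det_coe
  rw [Matrix.det_fin_two] at hd
  refine ⟨γ 1 1 * a + γ 0 1 * c, γ 1 1 * b + γ 0 1 * e, γ 1 0 * a + γ 0 0 * c,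
    γ 1 0 * b + γ 0 0 * e, γ 1 1 • Z' + γ 0 1 • Z, γ 1 0 • Z' + γ 0 0 • Z, ?_, ?_, ?_, ?_, ?_⟩
  · simp only [CM.kp, castZ_add, castZ_smul, Int.cast_smul_eq_zsmul]
    simp
  · simp only [CM.kp, castZ_add, castZ_smul, Int.cast_smul_eq_zsmul]
    simp
  · have : (γ 1 1 * a + γ 0 1 * c) * (γ 1 0 * b + γ 0 0 * e) -
        (γ 1 1 * b + γ 0 1 * e) * (γ 1 0 * a + γ 0 0 * c) = a * e - b * c := by
      linear_combination (a * e - b * c) * hd
    rwa [this]
  · rw [red_add, red_smul, red_smul, h4, h5]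
    push_cast
    module
  · rw [red_add, red_smul, red_smul, h4, h5]
    push_cast
    module

theorem kp_inv {W : Type} [AddCommGroup W] (γ : SL) (p : W × W) : kp γ (kp γ⁻¹ p) = p := by
  have hd := γ.det_coe
  rw [Matrix.det_fin_two] at hd
  ext
  · simp only [kp, Matrix.SpecialLinearGroup.coe_inv, Matrix.adjugate_fin_two, Matrix.of_apply,
      Matrix.cons_val', Matrix.cons_val_zero, Matrix.cons_val_one, Matrix.cons_val_fin_one]
    linear_combination (norm := module) hd • p.1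
  · simp only [kp, Matrix.SpecialLinearGroup.coe_inv, Matrix.adjugate_fin_two, Matrix.of_apply,
      Matrix.cons_val', Matrix.cons_val_zero, Matrix.cons_val_one, Matrix.cons_val_fin_one]
    linear_combination (norm := module) hd • p.2

end SecP

open SecP in
theorem nice : S_Nice := by
  intro d N hd hN μ
  have h6 : ∀ u, Lev6 d (2 * d * N) fun u' => vmu N μ u' u := fun u =>
    ⟨fun x => ((lev_vmu u).fst x).mono (dvd_mul_left _ _), fun Y => ((lev_vmu u).snd Y).levL hd⟩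
  have hk : ∀ γ, kap2 γ (vmu N μ) = vmu N μ := fun γ => by
    ext u' u
    refine vmu_congr ⟨fun h => ?_, fun h => h.kp γ⁻¹⟩
    simpa only [Prod.mk.eta, kp_inv] using h.kp γ
  refine ⟨⟨⟨h6, fun u' => ?_⟩, hk _, fun a ha u' u h => vmu_congr
    (cond_smul ha (dvd_mul_left _ _) h), fun a ha u' u h => ?_⟩,
    fun u' u h => isInt_QU d (cond_of_ne h).isInt, hk, fun u' u h => ?_⟩
  · have : vmu N μ u' = fun u => vmu N μ u u' := funext (vmu_symm u')
    rw [this]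
    exact h6 u'
  · rw [vmu_symm, vmu_symm u']
    exact vmu_congr (cond_smul ha (dvd_mul_left _ _) h)
  · obtain ⟨a, b, c, e, Z', Z, rfl, rfl, -⟩ := cond_of_ne h
    exact (isInt_rat _).2 ⟨a * e - b * c, by simp [det2]⟩

end

end Pool.Agent.P.MP_b8021b_nt.CM
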