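import Pool.Agent.P.MP_b8021b_nt.CM.Lib

/-! Package P4, first part: finite Fourier analysis on two by two matrices modulo `M`. -/

namespace Pool.Agent.P.MP_b8021b_nt.CM

open Complex hiding Gamma
open UpperHalfPlane hiding I
open CongruenceSubgroup
open scoped Real MatrixGroups

noncomputable section

namespace SharpP

variable {M : ℕ} [NeZero M]

theorem M_ne : (M : ℂ) ≠ 0 := by exact_mod_cast NeZero.ne M

theorem sum2 (x y : ZMod M) : ∑ k : ZMod M × ZMod M, eM M (k.1 * x + k.2 * y) =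
    if x = 0 ∧ y = 0 then (M : ℂ) ^ 2 else 0 := by
  simp only [eM_add]
  rw [Fintype.sum_prod_type]
  dsimp only
  rw [← Finset.sum_mul_sum, sum_eM, sum_eM]
  by_cases hx : x = 0 <;> by_cases hy : y = 0 <;> simp [hx, hy, sq]

/-- summation against the delta function -/
theorem sum_delta (G : ZMod M × ZMod M → ℂ) (x y : ZMod M) :
    ∑ n : ZMod M × ZMod M, G n * (if n.1 - x = 0 ∧ n.2 - y = 0 then (M : ℂ) ^ 2 else 0) =
      G (x, y) * (M : ℂ) ^ 2 := by
  rw [Finset.sum_eq_single (x, y)]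
  · simp
  · intro n _ hn
    rw [if_neg, mul_zero]
    rintro ⟨h1, h2⟩
    exact hn (Prod.ext (sub_eq_zero.1 h1) (sub_eq_zero.1 h2))
  · simp

def eqv (M : ℕ) : (ZMod M × ZMod M) × (ZMod M × ZMod M) ≃ R2 M where
  toFun p := !![-p.1.2, p.1.1; p.2.1, p.2.2]
  invFun A := ((A 0 1, -A 0 0), (A 1 0, A 1 1))
  left_inv p := by simp
  right_inv A := by ext i j; fin_cases i <;> fin_cases j <;> simp

theorem sum_R2 (G : R2 M → ℂ) : ∑ ν, G ν =
    ∑ k : ZMod M × ZMod M, ∑ r : ZMod M × ZMod M, G !![-k.2, k.1; r.1, r.2] := by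
  rw [← (eqv M).sum_comp, Fintype.sum_prod_type]; rfl

theorem un_sh (F : R2 M → ℍ → ℂ) : unsharp M (sharp M F) = F := by
  funext μ τ
  have hM := M_ne (M := M)
  simp only [unsharp, sharp, Matrix.of_apply, Matrix.cons_val', Matrix.cons_val_zero,
    Matrix.cons_val_one, Matrix.cons_val_fin_one, Finset.sum_div, Finset.sum_mul]
  rw [Finset.sum_comm]
  have : ∀ k : ZMod M × ZMod M, ∑ n : ZMod M × ZMod M,
      F !![-k.2, k.1; μ 1 0, μ 1 1] τ * eM M (k.1 * n.1 + k.2 * n.2) / (M : ℂ) ^ 2 *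
        eM M (-(μ 0 1 * n.1 - μ 0 0 * n.2)) = (F !![-k.2, k.1; μ 1 0, μ 1 1] τ / (M : ℂ) ^ 2) *
        (if k.1 - μ 0 1 = 0 ∧ k.2 - (-μ 0 0) = 0 then (M : ℂ) ^ 2 else 0) := fun k => by
    rw [← sum2, Finset.mul_sum]
    refine Finset.sum_congr rfl fun n _ => ?_
    rw [show n.1 * (k.1 - μ 0 1) + n.2 * (k.2 - (-μ 0 0)) =
      (k.1 * n.1 + k.2 * n.2) + -(μ 0 1 * n.1 - μ 0 0 * n.2) by ring,
      eM_add M (k.1 * n.1 + k.2 * n.2)]
    ring
  simp only [this]
  rw [sum_delta (fun k => F !![-k.2, k.1; μ 1 0, μ 1 1] τ / (M : ℂ) ^ 2)]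
  rw [div_mul_cancel₀ _ (pow_ne_zero 2 hM)]
  congr 1
  ext i j; fin_cases i <;> fin_cases j <;> simp

theorem sh_un (H : R2 M → ℍ → ℂ) : sharp M (unsharp M H) = H := by
  funext A τ
  have hM := M_ne (M := M)
  simp only [unsharp, sharp, Matrix.of_apply, Matrix.cons_val', Matrix.cons_val_zero,
    Matrix.cons_val_one, Matrix.cons_val_fin_one, Finset.sum_mul]
  rw [Finset.sum_comm]
  have : ∀ n : ZMod M × ZMod M, ∑ k : ZMod M × ZMod M,
      H !![A 0 0, n.1; A 1 0, n.2] τ * eM M (-(k.1 * n.1 - -k.2 * n.2)) *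
        eM M (k.1 * A 0 1 + k.2 * A 1 1) = H !![A 0 0, n.1; A 1 0, n.2] τ *
        (if n.1 - A 0 1 = 0 ∧ n.2 - A 1 1 = 0 then (M : ℂ) ^ 2 else 0) := fun n => by
    have e1 : (n.1 - A 0 1 = 0 ∧ n.2 - A 1 1 = 0) ↔ (A 0 1 - n.1 = 0 ∧ A 1 1 - n.2 = 0) := by
      simp only [sub_eq_zero]
      exact and_congr eq_comm eq_comm
    simp only [e1]
    rw [← sum2, Finset.mul_sum]
    refine Finset.sum_congr rfl fun k _ => ?_
    rw [show k.1 * (A 0 1 - n.1) + k.2 * (A 1 1 - n.2) =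
      -(k.1 * n.1 - -k.2 * n.2) + (k.1 * A 0 1 + k.2 * A 1 1) by ring,
      eM_add M (-(k.1 * n.1 - -k.2 * n.2))]
    ring
  simp only [this]
  rw [sum_delta (fun n => H !![A 0 0, n.1; A 1 0, n.2] τ), mul_div_cancel_right₀ _
    (pow_ne_zero 2 hM)]
  congr 1
  ext i j; fin_cases i <;> fin_cases j <;> simp

omit [NeZero M] in
theorem red_S : red M ModularGroup.S.1 = !![0, -1; 1, 0] := by
  ext i j; fin_cases i <;> fin_cases j <;> simp [red_apply, ModularGroup.S]

omit [NeZero M] in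
theorem red_T : red M ModularGroup.T.1 = !![1, 1; 0, 1] := by
  ext i j; fin_cases i <;> fin_cases j <;> simp [red_apply, ModularGroup.T]

theorem sh_T {F G : R2 M → ℍ → ℂ} {σ τ : ℍ} (h : ∀ μ, G μ σ = eM M (-μ.det) * F μ τ) (A : R2 M) :
    sharp M G A σ = sharp M F (A * red M ModularGroup.T.1) τ := by
  simp only [sharp, h, red_T]
  congr 1
  refine Finset.sum_congr rfl fun k _ => ?_
  simp only [Matrix.mul_apply, Fin.sum_univ_two, Matrix.of_apply, Matrix.cons_val',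
    Matrix.cons_val_zero, Matrix.cons_val_one, Matrix.cons_val_fin_one, mul_one, mul_zero,
    add_zero, Matrix.det_fin_two_of]
  rw [show k.1 * (A 0 0 + A 0 1) + k.2 * (A 1 0 + A 1 1) =
    -(-k.2 * A 1 0 - k.1 * A 0 0) + (k.1 * A 0 1 + k.2 * A 1 1) by ring,
    eM_add M (-(-k.2 * A 1 0 - k.1 * A 0 0))]
  ring

theorem sh_S {F G : R2 M → ℍ → ℂ} {σ τ : ℍ}
    (h : ∀ μ, G μ σ = (∑ ν, eM M (bil μ ν) * F ν τ) / (M : ℂ) ^ 2) (A : R2 M) :
    sharp M G A σ = sharp M F (A * red M ModularGroup.S.1) τ := by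
  have hM := M_ne (M := M)
  simp only [sharp, h, red_S]
  congr 1
  simp only [sum_R2 (M := M), Finset.sum_div, Finset.sum_mul]
  rw [Finset.sum_comm]
  refine Finset.sum_congr rfl fun l _ => ?_
  rw [Finset.sum_comm]
  have : ∀ r : ZMod M × ZMod M, ∑ k : ZMod M × ZMod M,
      eM M (bil !![-k.2, k.1; A 0 0, A 1 0] !![-l.2, l.1; r.1, r.2]) *
        F !![-l.2, l.1; r.1, r.2] τ / (M : ℂ) ^ 2 * eM M (k.1 * A 0 1 + k.2 * A 1 1) =
      (F !![-l.2, l.1; r.1, r.2] τ * eM M (l.1 * -A 0 0 + l.2 * -A 1 0) / (M : ℂ) ^ 2) *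
        (if r.1 - A 0 1 = 0 ∧ r.2 - A 1 1 = 0 then (M : ℂ) ^ 2 else 0) := fun r => by
    have e1 : (r.1 - A 0 1 = 0 ∧ r.2 - A 1 1 = 0) ↔ (A 0 1 - r.1 = 0 ∧ A 1 1 - r.2 = 0) := by
      simp only [sub_eq_zero]
      exact and_congr eq_comm eq_comm
    simp only [e1]
    rw [← sum2, Finset.mul_sum]
    refine Finset.sum_congr rfl fun k _ => ?_
    have e2 : eM M (bil !![-k.2, k.1; A 0 0, A 1 0] !![-l.2, l.1; r.1, r.2]) *
        eM M (k.1 * A 0 1 + k.2 * A 1 1) = eM M (l.1 * -A 0 0 + l.2 * -A 1 0) *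
          eM M (k.1 * (A 0 1 - r.1) + k.2 * (A 1 1 - r.2)) := by
      rw [← eM_add, ← eM_add]
      congr 1
      simp only [bil, Matrix.of_apply, Matrix.cons_val', Matrix.cons_val_zero,
        Matrix.cons_val_one, Matrix.cons_val_fin_one]
      ring
    linear_combination (F !![-l.2, l.1; r.1, r.2] τ / (M : ℂ) ^ 2) * e2
  simp only [this]
  rw [sum_delta (fun r => F !![-l.2, l.1; r.1, r.2] τ * eM M (l.1 * -A 0 0 + l.2 * -A 1 0) /
    (M : ℂ) ^ 2), div_mul_cancel₀ _ (pow_ne_zero 2 hM)]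
  simp [Matrix.mul_apply, Fin.sum_univ_two]

omit [NeZero M] in
theorem red_one : red M 1 = 1 := by
  ext i j; fin_cases i <;> fin_cases j <;> simp [red_apply]

omit [NeZero M] in
theorem red_SL_mul (γ δ : SL) : red M (γ * δ).1 = red M γ.1 * red M δ.1 := by
  rw [Matrix.SpecialLinearGroup.coe_mul, red_mul]

omit [NeZero M] in
theorem red_inv_mul (γ : SL) : red M (γ⁻¹).1 * red M γ.1 = 1 := by
  rw [← red_SL_mul, inv_mul_cancel]; exact red_one

omit [NeZero M] in
theorem red_mul_inv (γ : SL) : red M γ.1 * red M (γ⁻¹).1 = 1 := by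
  rw [← red_SL_mul, mul_inv_cancel]; exact red_one

theorem sh_eqv {F : R2 M → ℍ → ℂ} (h : Inp M F) (A : R2 M) (γ : SL) (τ : ℍ) :
    sharp M F A (γ • τ) = sharp M F (A * red M γ.1) τ := by
  induction γ using SL_induction generalizing A τ with
  | hS => exact sh_S (fun μ => h.hS μ τ) A
  | hT => exact sh_T (fun μ => h.hT μ τ) A
  | hT' =>
    have := sh_T (fun μ => h.hT μ (ModularGroup.T⁻¹ • τ)) (A * red M (ModularGroup.T⁻¹).1)
    rw [smul_inv_smul, mul_assoc, red_inv_mul, mul_one] at this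
    exact this.symm
  | hmul γ δ h1 h2 => rw [mul_smul, h1, h2, red_SL_mul, mul_assoc]

theorem inG_fsum {ι : Type} (s : Finset ι) (F : ι → ℍ → ℂ) (c : ι → ℂ)
    (h : ∀ i ∈ s, InG (F i)) : InG fun τ => ∑ i ∈ s, F i τ * c i := by
  have := InG.sum s (fun i => c i • F i) fun i hi => InG.smul _ (h i hi)
  convert this using 1
  funext τ
  simp [Finset.sum_apply, mul_comm]

theorem inG_sharp {F : R2 M → ℍ → ℂ} (h : ∀ μ, InG (F μ)) (A : R2 M) : InG (sharp M F A) := by
  have := InG.smul ((M : ℂ) ^ 2)⁻¹ (inG_fsum Finset.univ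
    (fun k : ZMod M × ZMod M => F !![-k.2, k.1; A 0 0, A 1 0])
    (fun k => eM M (k.1 * A 0 1 + k.2 * A 1 1)) fun k _ => h _)
  convert this using 1
  funext τ
  simp [sharp, div_eq_inv_mul]

theorem inp_un {H : R2 M → ℍ → ℂ} (h : ∀ A, InG (H A))
    (he : ∀ A (γ : SL) τ, H A (γ • τ) = H (A * red M γ.1) τ) : Inp M (unsharp M H) where
  cls μ := inG_fsum Finset.univ (fun n : ZMod M × ZMod M => H !![μ 1 0, n.1; μ 1 1, n.2]) _
    fun _ _ => h _
  hT μ τ := by
    set G : R2 M → ℍ → ℂ := fun ν _ => eM M (-ν.det) * unsharp M H ν τ with hG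
    have h1 : ∀ A, sharp M G A τ = H A (ModularGroup.T • τ) := fun A => by
      rw [sh_T (F := unsharp M H) (τ := τ) (fun _ => rfl), sh_un, he]
    have h2 : unsharp M (sharp M G) μ τ = G μ τ := by rw [un_sh]
    simp only [unsharp, h1] at h2
    exact h2
  hS μ τ := by
    set G : R2 M → ℍ → ℂ := fun μ _ =>
      (∑ ν, eM M (bil μ ν) * unsharp M H ν τ) / (M : ℂ) ^ 2 with hG
    have h1 : ∀ A, sharp M G A τ = H A (ModularGroup.S • τ) := fun A => by
      rw [sh_S (F := unsharp M H) (τ := τ) (fun _ => rfl), sh_un, he]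
    have h2 : unsharp M (sharp M G) μ τ = G μ τ := by rw [un_sh]
    simp only [unsharp, h1] at h2
    exact h2

theorem inp_comp {F : R2 M → ℍ → ℂ} (h : Inp M F) (φ : R2 M ≃ R2 M)
    (hd : ∀ μ, (φ μ).det = μ.det) (hb : ∀ μ ν, bil (φ μ) (φ ν) = bil μ ν) :
    Inp M fun μ => F (φ μ) where
  cls μ := h.cls _
  hT μ τ := by rw [h.hT, hd]
  hS μ τ := by
    rw [h.hS, ← φ.sum_comp]
    simp only [hb]

omit [NeZero M] in
theorem bil_eq (μ ν : R2 M) : bil μ ν = (μ + ν).det - μ.det - ν.det := by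
  simp only [bil, Matrix.det_fin_two, Matrix.add_apply]; ring

omit [NeZero M] in
theorem det_red_SL (γ : SL) : (red M γ.1).det = 1 := by rw [red_det, γ.det_coe]; simp

theorem inp_neg {F : R2 M → ℍ → ℂ} (h : Inp M F) (μ : R2 M) : F (-μ) = F μ := by
  have h1 : sharp M (fun μ => F (-μ)) = sharp M F := by
    funext A τ
    have e1 : ModularGroup.S * ModularGroup.S = -1 := by decide
    have e2 := sh_eqv h A (ModularGroup.S * ModularGroup.S) τ
    rw [e1, ModularGroup.SL_neg_smul, one_smul] at e2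
    rw [e2]
    have e3 : red M (-1 : SL).1 = -1 := by
      ext i j; fin_cases i <;> fin_cases j <;> simp [red_apply]
    rw [e3]
    simp only [sharp]
    congr 1
    refine Fintype.sum_equiv (Equiv.neg (ZMod M × ZMod M)) _ _ fun k => ?_
    simp
  have h2 := congrArg (unsharp M) h1
  rw [un_sh, un_sh] at h2
  exact congrFun h2 μ

theorem inp_adj {F : R2 M → ℍ → ℂ} (h : Inp M F) : Inp M fun μ => F μ.adjugate := by
  have hi : Function.Involutive (Matrix.adjugate : R2 M → R2 M) := fun μ => by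
    ext i j; fin_cases i <;> fin_cases j <;> simp [Matrix.adjugate_fin_two]
  refine inp_comp h hi.toPerm (fun μ => ?_) fun μ ν => ?_
  · simp [Matrix.adjugate_fin_two, Matrix.det_fin_two]; ring
  · simp [Matrix.adjugate_fin_two, bil]; ring

theorem inp_right {F : R2 M → ℍ → ℂ} (h : Inp M F) (γ : SL) :
    Inp M fun μ => F (μ * red M γ.1) := by
  let φ : R2 M ≃ R2 M :=
    { toFun := fun μ => μ * red M γ.1
      invFun := fun μ => μ * red M (γ⁻¹).1
      left_inv := fun μ => by simp only [mul_assoc, red_mul_inv, mul_one]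
      right_inv := fun μ => by simp only [mul_assoc, red_inv_mul, mul_one] }
  have hd : ∀ μ : R2 M, (μ * red M γ.1).det = μ.det := fun μ => by
    rw [Matrix.det_mul, det_red_SL, mul_one]
  refine inp_comp h φ hd fun μ ν => ?_
  change bil (μ * red M γ.1) (ν * red M γ.1) = _
  rw [bil_eq, bil_eq, ← add_mul, hd, hd, hd]

theorem inp_left {F : R2 M → ℍ → ℂ} (h : Inp M F) (γ : SL) :
    Inp M fun μ => F (red M γ.1 * μ) := by
  let φ : R2 M ≃ R2 M :=
    { toFun := fun μ => red M γ.1 * μ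
      invFun := fun μ => red M (γ⁻¹).1 * μ
      left_inv := fun μ => by simp only [← mul_assoc, red_inv_mul, one_mul]
      right_inv := fun μ => by simp only [← mul_assoc, red_mul_inv, one_mul] }
  have hd : ∀ μ : R2 M, (red M γ.1 * μ).det = μ.det := fun μ => by
    rw [Matrix.det_mul, det_red_SL, one_mul]
  refine inp_comp h φ hd fun μ ν => ?_
  change bil (red M γ.1 * μ) (red M γ.1 * ν) = _
  rw [bil_eq, bil_eq, ← mul_add, hd, hd, hd]

theorem sh_right (F : R2 M → ℍ → ℂ) (δ : R2 M) (hδ : δ.det = 1) (A : R2 M) :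
    sharp M (fun μ => F (μ * δ)) A = sharp M F (δ.transpose * A) := by
  funext τ
  rw [Matrix.det_fin_two] at hδ
  let φ : ZMod M × ZMod M ≃ ZMod M × ZMod M :=
    { toFun := fun k => (δ 1 1 * k.1 - δ 0 1 * k.2, δ 0 0 * k.2 - δ 1 0 * k.1)
      invFun := fun k => (δ 0 0 * k.1 + δ 0 1 * k.2, δ 1 0 * k.1 + δ 1 1 * k.2)
      left_inv := fun k => by
        ext
        · linear_combination k.1 * hδ
        · linear_combination k.2 * hδ
      right_inv := fun k => by
        ext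
        · linear_combination k.1 * hδ
        · linear_combination k.2 * hδ }
  simp only [sharp]
  congr 1
  refine Fintype.sum_equiv φ _ _ fun l => ?_
  have e1 : !![-(φ l).2, (φ l).1; (δ.transpose * A) 0 0, (δ.transpose * A) 1 0] =
      !![-l.2, l.1; A 0 0, A 1 0] * δ := by
    ext i j; fin_cases i <;> fin_cases j <;>
      simp [φ, Matrix.mul_apply, Fin.sum_univ_two] <;> ring
  have e2 : (φ l).1 * (δ.transpose * A) 0 1 + (φ l).2 * (δ.transpose * A) 1 1 =
      l.1 * A 0 1 + l.2 * A 1 1 := by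
    simp only [φ, Matrix.mul_apply, Fin.sum_univ_two, Matrix.transpose_apply, Equiv.coe_fn_mk]
    linear_combination (l.1 * A 0 1 + l.2 * A 1 1) * hδ
  rw [e1, e2]

end SharpP

open SharpP in
theorem sharpS : S_Sharp := fun M _ =>
  ⟨fun _ h => sh_eqv h, fun _ h he => inp_un h he, un_sh, sh_un,
    fun _ h => ⟨inp_neg h, inp_adj h, fun γ => ⟨inp_right h γ, inp_left h γ⟩⟩,
    fun F γ A => by
      have e1 : red M (γ⁻¹).1.transpose = (red M (γ⁻¹).1).transpose := rfl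
      rw [e1]
      exact sh_right F _ (det_red_SL _) A⟩

end

end Pool.Agent.P.MP_b8021b_nt.CM
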