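import Pool.Agent.P.MP_b8021b_nt.CM.Stmts2

/-! The leading term of the Eisenstein series with congruence conditions. -/

namespace Pool.Agent.P.MP_b8021b_nt.CM

open Complex hiding Gamma
open UpperHalfPlane hiding I
open MeasureTheory CongruenceSubgroup Filter
open scoped Real MatrixGroups ModularForm Topology ComplexConjugate Modular

noncomputable section

namespace UnitP

def Lp (k : ℕ) (z : ℂ) : ℂ := ∑' n : ℤ, (z + n) ^ (-(k : ℤ))

def ph (j : ℕ) (q : ℂ) : ℂ := ∑' n : ℕ, ((n + 1 : ℕ) : ℂ) ^ j * q ^ n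

def Ck (j : ℕ) : ℂ := (-2 * π * I) ^ (j + 1) / (j.factorial : ℂ)

theorem Ck_ne (j : ℕ) : Ck j ≠ 0 := by
  have h1 : (π : ℂ) ≠ 0 := ofReal_ne_zero.2 Real.pi_ne_zero
  have h2 : (j.factorial : ℂ) ≠ 0 := by exact_mod_cast j.factorial_ne_zero
  exact div_ne_zero (pow_ne_zero _ (mul_ne_zero (mul_ne_zero (by norm_num) h1) I_ne_zero)) h2

theorem sumR (j : ℕ) {ρ : ℝ} (h0 : 0 < ρ) (h1 : ρ < 1) :
    Summable fun n : ℕ => ((n + 1 : ℕ) : ℝ) ^ j * ρ ^ n := by
  have h2 := (summable_nat_add_iff 1).2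
    (summable_pow_mul_geometric_of_norm_lt_one j (r := ρ) (by rwa [Real.norm_of_nonneg h0.le]))
  refine (h2.mul_right ρ⁻¹).congr fun n => ?_
  rw [pow_succ, mul_assoc, mul_assoc, mul_inv_cancel₀ h0.ne', mul_one]

theorem term_le (j n : ℕ) {ρ : ℝ} {q : ℂ} (hq : ‖q‖ ≤ ρ) :
    ‖((n + 1 : ℕ) : ℂ) ^ j * q ^ n‖ ≤ ((n + 1 : ℕ) : ℝ) ^ j * ρ ^ n := by
  rw [norm_mul, norm_pow, norm_pow, Complex.norm_natCast]
  gcongr

theorem ph_bound (j : ℕ) {ρ : ℝ} (h0 : 0 < ρ) (h1 : ρ < 1) :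
    ∃ K : ℝ, 0 ≤ K ∧ ∀ q : ℂ, ‖q‖ ≤ ρ → ‖ph j q‖ ≤ K :=
  ⟨∑' n : ℕ, ((n + 1 : ℕ) : ℝ) ^ j * ρ ^ n, tsum_nonneg fun n => by positivity,
    fun _ hq => tsum_of_norm_bounded (sumR j h0 h1).hasSum fun n => term_le j n hq⟩

theorem ph_lim (j : ℕ) : Tendsto (ph j) (𝓝 0) (𝓝 1) := by
  have h := tendsto_tsum_of_dominated_convergence (𝓕 := 𝓝 (0 : ℂ))
    (f := fun (q : ℂ) (n : ℕ) => ((n + 1 : ℕ) : ℂ) ^ j * q ^ n)
    (g := fun n : ℕ => ((n + 1 : ℕ) : ℂ) ^ j * (0 : ℂ) ^ n)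
    (sumR j (ρ := 1 / 2) (by norm_num) (by norm_num))
    (fun n => (Continuous.tendsto (by fun_prop) 0))
    (by
      filter_upwards [Metric.closedBall_mem_nhds (0 : ℂ) (by norm_num : (0 : ℝ) < 1 / 2)] with q hq n
      exact term_le j n (mem_closedBall_zero_iff.1 hq))
  rw [tsum_eq_single 0 (fun n hn => by simp [hn]), pow_zero, zero_add, Nat.cast_one, one_pow,
    one_mul] at h
  exact h

theorem Lp_eq {j : ℕ} (hj : 1 ≤ j) {z : ℂ} (hz : 0 < z.im) :
    Lp (j + 1) z = Ck j * (e z * ph j (e z)) := by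
  have h := EisensteinSeries.qExpansion_identity hj ⟨z, hz⟩
  have hn : ‖e z‖ < 1 := by
    rw [norm_e, Real.exp_lt_one_iff]
    nlinarith [Real.pi_pos]
  have h2 : Summable fun n : ℕ => (n : ℂ) ^ j * e z ^ n :=
    summable_pow_mul_geometric_of_norm_lt_one j hn
  have h3 : ∑' n : ℕ, (n : ℂ) ^ j * e z ^ n = e z * ph j (e z) := by
    rw [h2.tsum_eq_zero_add, ph, ← tsum_mul_left]
    have h4 : ((0 : ℕ) : ℂ) ^ j = 0 := by
      rw [Nat.cast_zero]
      exact zero_pow (by omega)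
    rw [h4, zero_mul, zero_add]
    exact tsum_congr fun n => by ring
  rw [← h3, Lp, Ck]
  refine Eq.trans (tsum_congr fun n => ?_) h
  rw [zpow_neg, zpow_natCast, one_div]

theorem Lp_neg (k : ℕ) (z : ℂ) : Lp k (-z) = (-1) ^ k * Lp k z := by
  rw [Lp, Lp, ← tsum_mul_left, ← (Equiv.neg ℤ).tsum_eq]
  refine tsum_congr fun n => ?_
  have h1 : -z + ((Equiv.neg ℤ n : ℤ) : ℂ) = -1 * (z + n) := by
    simp only [Equiv.neg_apply, Int.cast_neg]
    ring
  rw [h1, mul_zpow, zpow_neg (-1 : ℂ), zpow_natCast, ← inv_pow, inv_neg, inv_one]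

variable {M : ℕ} [NeZero M]

theorem M_ne : (M : ℂ) ≠ 0 := by exact_mod_cast NeZero.ne M

theorem M_pos : (0 : ℝ) < M := by exact_mod_cast Nat.pos_of_ne_zero (NeZero.ne M)

theorem GS_eq {k : ℕ} (hk : 3 ≤ k) (a : ZMod M × ZMod M) (τ : ℍ) :
    GS M k a τ = ∑' w : ℤ, if (w : ZMod M) = a.1 then
      (M : ℂ) ^ (-(k : ℤ)) * Lp k ((w * τ + (a.2.val : ℤ)) / M) else 0 := by
  have hs : Summable fun w : ℤ × ℤ => if ((w.1 : ZMod M), (w.2 : ZMod M)) = a then
      ((w.1 : ℂ) * τ + w.2) ^ (-(k : ℤ)) else 0 := by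
    refine Summable.of_norm_bounded (summable_prod_eisSummand hk τ).norm fun w => ?_
    split_ifs
    · exact le_rfl
    · rw [norm_zero]
      exact norm_nonneg _
  rw [GS, hs.tsum_prod]
  refine tsum_congr fun w => ?_
  by_cases hw : (w : ZMod M) = a.1
  · rw [if_pos hw, Lp, ← tsum_mul_left]
    have hinj : Function.Injective fun l : ℤ => (a.2.val : ℤ) + M * l := fun l l' h => by
      have h0 : (M : ℤ) ≠ 0 := by exact_mod_cast NeZero.ne M
      exact mul_left_cancel₀ h0 (add_left_cancel h)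
    rw [← hinj.tsum_eq]
    · refine tsum_congr fun l => ?_
      rw [if_pos (Prod.ext hw (by simp)), ← mul_zpow]
      congr 1
      have := M_ne (M := M)
      push_cast
      field_simp
      ring
    · intro n hn
      have h1 : ((w : ZMod M), (n : ZMod M)) = a := by
        by_contra h
        exact hn (if_neg h)
      have h2 : (((a.2.val : ℤ) : ZMod M)) = (n : ZMod M) := by
        rw [← h1]
        simp
      obtain ⟨l, hl⟩ := (ZMod.intCast_eq_intCast_iff_dvd_sub _ _ _).1 h2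
      exact ⟨l, by simp only; omega⟩
  · rw [if_neg hw]
    refine (tsum_congr fun n => if_neg fun h => hw (congrArg Prod.fst h)).trans tsum_zero

omit [NeZero M] in
theorem Lp_sign (k : ℕ) {w : ℤ} (hw : w ≠ 0) (b : ℤ) (τ : ℂ) :
    Lp k ((w * τ + b) / M) =
      (w.sign : ℂ) ^ k * Lp k (((w.natAbs : ℕ) * τ + (w.sign * b : ℤ)) / M) := by
  rcases lt_or_gt_of_ne hw with h | h
  · have h1 : ((w.natAbs : ℕ) : ℂ) = -w := by
      rw [← Int.cast_natCast, Int.ofNat_natAbs_of_nonpos h.le, Int.cast_neg]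
    rw [Int.sign_eq_neg_one_of_neg h, h1]
    push_cast
    rw [← Lp_neg]
    congr 1
    ring
  · have h1 : ((w.natAbs : ℕ) : ℂ) = w := by
      rw [← Int.cast_natCast, Int.natAbs_of_nonneg h.le]
    rw [Int.sign_eq_one_of_pos h, h1]
    simp

omit [NeZero M] in
theorem norm_q (τ : ℍ) : ‖e (τ / M)‖ = Real.exp (-(2 * π / M) * τ.im) := by
  rw [norm_e, div_natCast_im, coe_im]
  congr 1
  ring

theorem q_lim : Tendsto (fun τ : ℍ => e (τ / M)) atImInfty (𝓝 0) := by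
  refine (qParam_tendsto_atImInfty (M_pos (M := M))).congr fun τ => ?_
  simp only [Function.Periodic.qParam, e, ofReal_natCast]
  congr 1
  ring

theorem pos_eq {j n r : ℕ} (hj : 1 ≤ j) (hn : 1 ≤ n) (hr : r ≤ n) (β : ℤ) (τ : ℍ) :
    Lp (j + 1) ((n * τ + β) / M) * e (-(r * τ) / M) =
      Ck j * ph j (e (τ / M) ^ n * e (β / M)) * e (β / M) * e (τ / M) ^ (n - r) := by
  have h1 : 0 < (((n : ℂ) * τ + β) / M).im := by
    rw [div_natCast_im]
    have h2 : (0 : ℝ) < n := by exact_mod_cast hn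
    have h3 : ((n : ℂ) * τ + β).im = n * τ.im := by simp
    rw [h3]
    exact div_pos (mul_pos h2 τ.im_pos) M_pos
  have h2 : e (((n : ℂ) * τ + β) / M) = e (τ / M) ^ n * e (β / M) := by
    rw [← e_nat_mul, ← e_add]
    congr 1
    ring
  have h3 : e (τ / M) ^ n * e (-(r * τ) / M) = e (τ / M) ^ (n - r) := by
    rw [← e_nat_mul, ← e_nat_mul, ← e_add, Nat.cast_sub hr]
    congr 1
    ring
  rw [Lp_eq hj h1, h2, ← h3]
  ring

theorem pos_lim {j n r : ℕ} (hj : 1 ≤ j) (hn : 1 ≤ n) (hr : r ≤ n) (β : ℤ) :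
    Tendsto (fun τ : ℍ => Lp (j + 1) ((n * τ + β) / M) * e (-(r * τ) / M)) atImInfty
      (𝓝 (if n = r then Ck j * e (β / M) else 0)) := by
  simp only [pos_eq hj hn hr]
  have h1 : Tendsto (fun τ : ℍ => e (τ / M) ^ n * e (β / M)) atImInfty (𝓝 0) := by
    have h2 := ((q_lim (M := M)).pow n).mul_const (e (β / M))
    rwa [zero_pow (by omega), zero_mul] at h2
  have h2 := ((((ph_lim j).comp h1).const_mul (Ck j)).mul_const (e (β / M))).mul
    ((q_lim (M := M)).pow (n - r))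
  have h3 : Ck j * 1 * e (β / M) * 0 ^ (n - r) = if n = r then Ck j * e (β / M) else 0 := by
    split_ifs with h
    · simp [h]
    · rw [zero_pow (by omega), mul_zero]
  rw [← h3]
  exact h2

theorem pos_bound {j : ℕ} (hj : 1 ≤ j) (r : ℕ) : ∃ K ρ : ℝ, 0 ≤ K ∧ 0 < ρ ∧ ρ < 1 ∧
    ∀ (n : ℕ) (β : ℤ) (τ : ℍ), 1 ≤ n → r ≤ n → 1 ≤ τ.im →
      ‖Lp (j + 1) ((n * τ + β) / M) * e (-(r * τ) / M)‖ ≤ K * ρ ^ n := by
  have hc : 0 < 2 * π / M := div_pos Real.two_pi_pos M_pos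
  have h0 : 0 < Real.exp (-(2 * π / M)) := Real.exp_pos _
  have h1 : Real.exp (-(2 * π / M)) < 1 := Real.exp_lt_one_iff.2 (by linarith)
  obtain ⟨K, hK, hb⟩ := ph_bound j h0 h1
  generalize hρ : Real.exp (-(2 * π / M)) = ρ at *
  refine ⟨‖Ck j‖ * K / ρ ^ r, ρ, by positivity, h0, h1, fun n β τ hn hr hτ => ?_⟩
  have h2 : ‖e (τ / M)‖ ≤ ρ := by
    rw [norm_q, ← hρ, Real.exp_le_exp]
    nlinarith
  have h3 : ‖e (β / M)‖ = 1 := by
    rw [norm_e, div_natCast_im]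
    simp
  have h4 : ‖e (τ / M) ^ n * e (β / M)‖ ≤ ρ := by
    rw [norm_mul, h3, mul_one, norm_pow]
    exact (pow_le_pow_left₀ (norm_nonneg _) h2 n).trans
      (pow_le_of_le_one h0.le h1.le (by omega))
  have h5 : ‖Ck j‖ * K / ρ ^ r * ρ ^ n = ‖Ck j‖ * K * ρ ^ (n - r) := by
    rw [pow_sub₀ ρ h0.ne' hr]
    ring
  rw [pos_eq hj hn hr, h5, norm_mul, norm_mul, norm_mul, h3, mul_one, norm_pow]
  gcongr
  exact hb _ h4

/-- distance to the nearest multiple of `M` -/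
def tt (x : ZMod M) : ℕ := x.valMinAbs.natAbs

theorem tt_le {x : ZMod M} {w : ℤ} (h : (w : ZMod M) = x) : tt x ≤ w.natAbs :=
  ZMod.natAbs_min_of_le_div_two M _ _ (by rw [ZMod.coe_valMinAbs, h]) (ZMod.natAbs_valMinAbs_le x)

/-- limit of one row -/
def gl (M j : ℕ) (a : ZMod M × ZMod M) (w : ℤ) : ℂ :=
  if (w : ZMod M) = a.1 then (M : ℂ) ^ (-((j + 1 : ℕ) : ℤ)) *
    (if w = 0 then Lp (j + 1) (((a.2.val : ℤ) : ℂ) / M) else (w.sign : ℂ) ^ (j + 1) *
      if w.natAbs = a.1.valMinAbs.natAbs then Ck j * e ((w.sign * a.2.val : ℤ) / M) else 0) else 0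

theorem GS_lim {j : ℕ} (hj : 2 ≤ j) (a : ZMod M × ZMod M) :
    Tendsto (fun τ : ℍ => GS M (j + 1) a τ * e (-((tt a.1 : ℕ) * τ) / M)) atImInfty
      (𝓝 (∑' w, gl M j a w)) := by
  obtain ⟨K, ρ, hK, h0, h1, hb⟩ := pos_bound (M := M) (j := j) (by omega) (tt a.1)
  simp only [GS_eq (k := j + 1) (by omega), ← tsum_mul_right]
  have hz : ∀ τ : ℍ, ((0 : ℤ) : ZMod M) = a.1 →
      Lp (j + 1) ((((0 : ℤ) : ℂ) * τ + (a.2.val : ℤ)) / M) * e (-((tt a.1 : ℕ) * τ) / M) =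
      Lp (j + 1) (((a.2.val : ℤ) : ℂ) / M) := fun τ h => by
    have h2 : tt a.1 = 0 := by simpa using tt_le h
    simp [h2, e_zero]
  refine tendsto_tsum_of_dominated_convergence
    (bound := fun w : ℤ => ‖(M : ℂ) ^ (-((j + 1 : ℕ) : ℤ))‖ *
      ((K + ‖Lp (j + 1) (((a.2.val : ℤ) : ℂ) / M)‖) * ρ ^ w.natAbs)) ?_ (fun w => ?_) ?_
  · have hs : Summable fun w : ℤ => ρ ^ w.natAbs := by
      refine Summable.of_nat_of_neg ?_ ?_ <;>
        simpa using summable_geometric_of_lt_one h0.le h1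
    exact (hs.mul_left _).mul_left _
  · rw [gl]
    by_cases hw : (w : ZMod M) = a.1
    · simp only [if_pos hw, mul_assoc]
      refine Tendsto.const_mul _ ?_
      by_cases h : w = 0
      · subst h
        simp only [hz _ hw, if_true]
        exact tendsto_const_nhds
      · simp only [if_neg h, Lp_sign _ h, mul_assoc]
        exact (pos_lim (by omega) (by omega) (tt_le hw) _).const_mul _
    · simp only [if_neg hw, zero_mul]
      exact tendsto_const_nhds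
  · refine (atImInfty_mem _).2 ⟨1, fun τ hτ w => ?_⟩
    by_cases hw : (w : ZMod M) = a.1
    · rw [if_pos hw, mul_assoc, norm_mul]
      refine mul_le_mul_of_nonneg_left ?_ (norm_nonneg _)
      by_cases h : w = 0
      · subst h
        rw [hz _ hw, Int.natAbs_zero, pow_zero, mul_one]
        linarith
      · have h2 : ‖(w.sign : ℂ)‖ = 1 := by
          rcases lt_or_gt_of_ne h with h | h
          · simp [Int.sign_eq_neg_one_of_neg h]
          · simp [Int.sign_eq_one_of_pos h]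
        rw [Lp_sign _ h, mul_assoc, norm_mul, norm_pow, h2, one_pow, one_mul]
        refine (hb _ _ τ (by omega) (tt_le hw) hτ).trans ?_
        gcongr
        linarith [norm_nonneg (Lp (j + 1) (((a.2.val : ℤ) : ℂ) / M))]
    · rw [if_neg hw, zero_mul, norm_zero]
      positivity

theorem gl_ne {j : ℕ} (a : ZMod M × ZMod M) (h1 : a.1 ≠ 0)
    (h2 : a.1 + a.1 ≠ 0 ∨ (a + a = 0 ∧ Even (j + 1))) : ∑' w, gl M j a w ≠ 0 := by
  have hv : a.1.valMinAbs ≠ 0 := fun h => h1 ((ZMod.valMinAbs_eq_zero _).1 h)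
  have hv' : -a.1.valMinAbs ≠ 0 := neg_ne_zero.2 hv
  have hs : ((a.1.valMinAbs.sign : ℤ) : ℂ) ≠ 0 := by
    rw [Int.cast_ne_zero, Ne, Int.sign_eq_zero_iff_zero]
    exact hv
  have hM : (M : ℂ) ^ (-((j + 1 : ℕ) : ℤ)) ≠ 0 := zpow_ne_zero _ M_ne
  rw [tsum_eq_sum (s := {a.1.valMinAbs, -a.1.valMinAbs}), Finset.sum_pair (by omega)]
  · rw [gl, gl, if_pos (ZMod.coe_valMinAbs _), if_neg hv, if_neg hv', if_pos rfl,
      if_pos (Int.natAbs_neg _), Int.cast_neg, ZMod.coe_valMinAbs]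
    rcases h2 with h2 | ⟨h2, h3⟩
    · rw [if_neg fun h => h2 (neg_eq_iff_add_eq_zero.1 h), add_zero]
      exact mul_ne_zero hM (mul_ne_zero (pow_ne_zero _ hs) (mul_ne_zero (Ck_ne j) (e_ne_zero _)))
    · rw [if_pos (neg_eq_iff_add_eq_zero.2 (congrArg Prod.fst h2)), Int.sign_neg, Int.cast_neg,
        h3.neg_pow]
      have h4 : (((a.2.val : ℤ) + a.2.val : ℤ) : ZMod M) = 0 := by
        simpa using congrArg Prod.snd h2
      obtain ⟨l, hl⟩ := (ZMod.intCast_zmod_eq_zero_iff_dvd _ _).1 h4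
      have h5 : e ((a.1.valMinAbs.sign * a.2.val : ℤ) / M) =
          e ((-a.1.valMinAbs.sign * a.2.val : ℤ) / M) := by
        rw [← mul_one (e ((-a.1.valMinAbs.sign * a.2.val : ℤ) / M)),
          ← e_int (a.1.valMinAbs.sign * l), ← e_add]
        congr 1
        have h6 : ((a.2.val : ℤ) : ℂ) + (a.2.val : ℤ) = M * l := by exact_mod_cast hl
        rw [div_add' _ _ _ M_ne]
        congr 1
        push_cast at h6 ⊢
        linear_combination (a.1.valMinAbs.sign : ℂ) * h6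
      rw [← h5, ← two_mul]
      exact mul_ne_zero two_ne_zero
        (mul_ne_zero hM (mul_ne_zero (pow_ne_zero _ hs) (mul_ne_zero (Ck_ne j) (e_ne_zero _))))
  · intro w hw
    rw [Finset.mem_insert, Finset.mem_singleton] at hw
    rw [gl]
    by_cases h : (w : ZMod M) = a.1
    · have h3 : w ≠ 0 := fun h0 => h1 (by rw [← h, h0, Int.cast_zero])
      rw [if_pos h, if_neg h3, if_neg (by omega), mul_zero, mul_zero]
    · exact if_neg h

end UnitP

end

end Pool.Agent.P.MP_b8021b_nt.CM
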