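import Pool.Agent.P.MP_b8021b_nt.CM.Lib

/-! Package P15, first file: series and the eta function. -/

namespace Pool.Agent.P.MP_b8021b_nt.CM

open Complex hiding Gamma
open UpperHalfPlane hiding I
open MeasureTheory CongruenceSubgroup Filter
open scoped Real MatrixGroups ModularForm Topology ComplexConjugate Modular

noncomputable section

namespace VecP

theorem norm_term (a : ℂ) (m : ℚ) (z : ℂ) :
    ‖a * e (m * z)‖ = ‖a‖ * Real.exp (-2 * π * (m * z.im)) := by
  rw [norm_mul, norm_e]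
  congr 3
  simp

theorem im_pt (u : ℝ) {y : ℝ} (h : 0 < y) : (pt u y).im = y := by
  have := congrArg Complex.im (coe_pt u h)
  simpa using this

theorem integral_e_int (k : ℤ) (hk : k ≠ 0) : ∫ u in (0 : ℝ)..1, e (k * u) = 0 := by
  have hc : (2 * π * I * k : ℂ) ≠ 0 := by
    have : (k : ℂ) ≠ 0 := by exact_mod_cast hk
    have h2 : (π : ℂ) ≠ 0 := by exact_mod_cast Real.pi_ne_zero
    simp [this, h2, I_ne_zero]
  have e1 : (fun u : ℝ => e (k * u)) = fun u : ℝ => cexp ((2 * π * I * k) * u) := by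
    funext u
    rw [e]
    congr 1
    ring
  rw [e1, integral_exp_mul_complex hc]
  have e2 : cexp (2 * π * I * k * (1 : ℝ)) = 1 := by
    have := e_int k
    rw [e] at this
    simpa using this
  rw [e2]
  simp

/-- extraction of a coefficient -/
theorem coef_int {c : ℚ → ℂ} (h : Conv c) (μ : ℚ) (hμ : ∀ m, c m ≠ 0 → IsInt (m - μ))
    {y : ℝ} (hy : 0 < y) :
    ∫ u in (0 : ℝ)..1, qs c (pt u y) * e (-μ * u) = c μ * e (μ * (y * I)) := by
  have hs : HasSum (fun m : ℚ => ∫ u in (0 : ℝ)..1, c m * e (m * (u + y * I)) * e (-μ * u))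
      (∫ u in (0 : ℝ)..1, qs c (pt u y) * e (-μ * u)) := by
    refine intervalIntegral.hasSum_integral_of_dominated_convergence
      (fun m _ => ‖c m * e (m * (pt 0 y))‖) (fun m => ?_) (fun m => ?_) ?_ ?_ ?_
    · refine Continuous.aestronglyMeasurable ?_
      unfold e
      fun_prop
    · refine Eventually.of_forall fun u _ => ?_
      rw [norm_mul, norm_term, norm_term, norm_e, coe_pt 0 hy]
      simp
    · exact Eventually.of_forall fun u _ => h (pt 0 y)
    · exact intervalIntegrable_const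
    · refine Eventually.of_forall fun u _ => ?_
      have := (h (pt u y)).of_norm.hasSum.mul_right (e (-μ * u))
      rw [coe_pt u hy] at this
      rw [qs, coe_pt u hy]
      exact this
  have h1 : ∀ m : ℚ, ∫ u in (0 : ℝ)..1, c m * e (m * (u + y * I)) * e (-μ * u)
      = c m * e (m * (y * I)) * ∫ u in (0 : ℝ)..1, e (((m - μ : ℚ) : ℂ) * u) := by
    intro m
    rw [← intervalIntegral.integral_const_mul]
    congr 1
    funext u
    rw [mul_assoc, mul_assoc, ← e_add, ← e_add]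
    congr 2
    push_cast
    ring
  have hs2 : HasSum (fun m : ℚ => ∫ u in (0 : ℝ)..1, c m * e (m * (u + y * I)) * e (-μ * u))
      (∫ u in (0 : ℝ)..1, c μ * e (μ * (u + y * I)) * e (-μ * u)) := by
    refine hasSum_single μ fun m hm => ?_
    rw [h1]
    by_cases hc : c m = 0
    · rw [hc, zero_mul, zero_mul]
    · obtain ⟨k, hk⟩ := (isInt_rat _).1 (hμ m hc)
      have hk0 : k ≠ 0 := by
        rintro rfl
        exact hm (sub_eq_zero.1 (by simpa using hk))
      have : ∫ u in (0 : ℝ)..1, e (((m - μ : ℚ) : ℂ) * u) = 0 := by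
        rw [hk]
        exact_mod_cast integral_e_int k hk0
      rw [this, mul_zero]
  rw [hs.unique hs2, h1]
  simp [e_zero]

/-- a representative of the class of the exponents -/
theorem exists_rep {c : ℚ → ℂ} (h : ∀ m m', c m ≠ 0 → c m' ≠ 0 → IsInt (m - m')) :
    ∃ b : ℚ, -3 / 4 < b ∧ b ≤ 1 / 4 ∧ ∀ m, c m ≠ 0 → IsInt (m - b) := by
  by_cases h0 : ∃ m, c m ≠ 0
  · obtain ⟨m0, hm0⟩ := h0
    refine ⟨m0 - ⌈m0 - 1 / 4⌉, ?_, ?_, fun m hm => ?_⟩
    · have := Int.ceil_lt_add_one (m0 - 1 / 4)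
      linarith
    · have := Int.le_ceil (m0 - 1 / 4)
      linarith
    · obtain ⟨k, hk⟩ := (isInt_rat _).1 (h m m0 hm hm0)
      exact (isInt_rat _).2 ⟨k + ⌈m0 - 1 / 4⌉, by push_cast; linarith⟩
  · exact ⟨0, by norm_num, by norm_num, fun m hm => absurd ⟨m, hm⟩ h0⟩

theorem hasSum_rep {c : ℚ → ℂ} (h : Conv c) {b : ℚ} (hb : b ≤ 1 / 4)
    (hc : ∀ m, c m ≠ 0 → IsInt (m - b)) (hp : ∀ m, c m ≠ 0 → 0 < m) (τ : ℍ) :
    HasSum (fun n : ℕ => c (b + (n + 1 : ℕ)) * e ((b + (n + 1 : ℕ) : ℚ) * τ))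
      (qs c τ - c b * e (b * τ)) := by
  have hinj : Function.Injective fun n : ℕ => (b + n : ℚ) := fun n n' hn => by
    simpa using hn
  have h1 : HasSum (fun n : ℕ => c (b + n) * e ((b + n : ℚ) * τ)) (qs c τ) := by
    have := (hinj.hasSum_iff (f := fun m : ℚ => c m * e (m * τ)) ?_).2 (h τ).of_norm.hasSum
    · exact this
    · intro m hm
      by_contra hne
      have hcm : c m ≠ 0 := fun h0 => hne (by rw [h0, zero_mul])
      obtain ⟨k, hk⟩ := (isInt_rat _).1 (hc m hcm)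
      have h2 := hp m hcm
      have h3 : (-1 : ℚ) < k := by linarith
      have h4 : 0 ≤ k := by
        have : (-1 : ℤ) < k := by exact_mod_cast h3
        omega
      refine hm ⟨k.toNat, ?_⟩
      have : ((k.toNat : ℤ) : ℚ) = k := by rw [Int.toNat_of_nonneg h4]
      push_cast at this
      simp only
      linarith
  have := (hasSum_nat_add_iff' 1).2 h1
  simpa using this

theorem norm_qs_T {c : ℚ → ℂ} {b : ℚ} (hc : ∀ m, c m ≠ 0 → IsInt (m - b)) (τ : ℍ) :
    ‖qs c (ModularGroup.T • τ)‖ = ‖qs c τ‖ := by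
  have : qs c (ModularGroup.T • τ) = qs c τ * eq b := by
    rw [qs, qs, ← tsum_mul_right]
    refine tsum_congr fun m => ?_
    by_cases h0 : c m = 0
    · simp [h0]
    · have h1 := (eq_eq_one_iff _).2 (hc m h0)
      have h2 : eq m = eq b := by
        have := eq_add (m - b) b
        rw [h1, one_mul, sub_add_cancel] at this
        exact this
      rw [coe_T, mul_add, mul_one, e_add, ← h2, eq, mul_assoc]
  rw [this, norm_mul, norm_eq, mul_one]

theorem inv_SL {f : ℍ → ℝ} (hS : ∀ τ, f (ModularGroup.S • τ) = f τ)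
    (hT : ∀ τ, f (ModularGroup.T • τ) = f τ) (γ : SL) : ∀ τ, f (γ • τ) = f τ := by
  refine SL_induction (P := fun γ => ∀ τ, f (γ • τ) = f τ) hS hT (fun τ => ?_)
    (fun γ δ h1 h2 τ => by rw [mul_smul, h1, h2]) γ
  rw [← hT, smul_inv_smul]

theorem im_SL_le (γ : SL) (τ : ℍ) : (γ • τ).im ≤ max τ.im (1 / τ.im) := by
  have hy := τ.im_pos
  rw [im_SL]
  have hj : 0 < ‖jf γ τ‖ := norm_pos_iff.2 (jf_ne_zero γ τ)
  by_cases hc : γ 1 0 = 0
  · refine le_trans ?_ (le_max_left _ _)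
    have hd : γ 1 1 ≠ 0 := by
      intro hd
      apply jf_ne_zero γ τ
      simp [jf, hc, hd]
    have h1 : 1 ≤ ‖jf γ τ‖ := by
      have : jf γ τ = (γ 1 1 : ℤ) := by simp [jf, hc]
      rw [this, Complex.norm_intCast]
      exact_mod_cast Int.one_le_abs hd
    exact div_le_self hy.le (one_le_pow₀ h1)
  · refine le_trans ?_ (le_max_right _ _)
    have h1 : τ.im ≤ ‖jf γ τ‖ := by
      refine le_trans ?_ (Complex.abs_im_le_norm _)
      have : (jf γ τ).im = (γ 1 0 : ℤ) * τ.im := by simp [jf]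
      rw [this, abs_mul, abs_of_pos hy]
      have h2 : (1 : ℝ) ≤ |((γ 1 0 : ℤ) : ℝ)| := by exact_mod_cast Int.one_le_abs hc
      nlinarith
    rw [div_le_div_iff₀ (by positivity) hy]
    nlinarith

/-- the cube of the modulus of the eta function -/
def w (τ : ℍ) : ℝ := ‖ModularForm.eta τ‖ ^ 3

theorem w_pos (τ : ℍ) : 0 < w τ :=
  pow_pos (norm_pos_iff.2 (ModularForm.eta_ne_zero τ.2)) 3

theorem w_pow (τ : ℍ) : w τ ^ 8 = ‖ModularForm.discriminant τ‖ := by
  rw [w, ModularForm.discriminant, norm_pow, ← pow_mul]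

theorem continuous_w : Continuous w := by
  refine Continuous.pow (Continuous.norm ?_) 3
  rw [continuous_iff_continuousAt]
  intro τ
  exact (ModularForm.differentiableAt_eta_of_mem_upperHalfPlaneSet τ.2).continuousAt.comp
    UpperHalfPlane.continuous_coe.continuousAt

theorem norm_Delta_SL (γ : SL) (τ : ℍ) :
    ‖ModularForm.discriminant (γ • τ)‖ = ‖jf γ τ‖ ^ 12 * ‖ModularForm.discriminant τ‖ := by
  have h := congrFun (inG_Delta.2 γ) τ
  rw [sl] at h
  have hj := jf_ne_zero γ τ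
  have : ModularForm.discriminant (γ • τ) = jf γ τ ^ 12 * ModularForm.discriminant τ := by
    rw [← h, zpow_neg, zpow_ofNat]
    field_simp
  rw [this, norm_mul, norm_pow]

theorem w_S (τ : ℍ) : w (ModularGroup.S • τ) ^ 2 = ‖(τ : ℂ)‖ ^ 3 * w τ ^ 2 := by
  have h := norm_Delta_SL ModularGroup.S τ
  rw [jf_S, ← w_pow, ← w_pow] at h
  have h1 := (w_pos τ).le
  refine (pow_left_inj₀ (n := 4) (by positivity) (by positivity) (by norm_num)).1 ?_
  linear_combination h

theorem w_T (τ : ℍ) : w (ModularGroup.T • τ) = w τ := by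
  have h := norm_Delta_SL ModularGroup.T τ
  rw [jf_T, ← w_pow, ← w_pow, norm_one, one_pow, one_mul] at h
  exact (pow_left_inj₀ (w_pos _).le (w_pos _).le (by norm_num)).1 h

theorem w_lower : ∃ C Y0 : ℝ, 1 ≤ C ∧ ∀ τ : ℍ, Y0 ≤ τ.im →
    Real.exp (-(π * τ.im / 4)) ≤ C * w τ := by
  obtain ⟨C, hC⟩ := ModularForm.exp_isBigO_discriminant.bound
  obtain ⟨Y0, hY⟩ := (atImInfty_mem _).1 hC
  have h1 : 1 ≤ |C| + 1 := by linarith [abs_nonneg C]
  refine ⟨|C| + 1, Y0, h1, fun τ hτ => ?_⟩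
  have h2 : ‖Real.exp (-2 * π * τ.im)‖ ≤ C * ‖ModularForm.discriminant τ‖ := hY τ hτ
  rw [Real.norm_of_nonneg (Real.exp_pos _).le, ← w_pow] at h2
  have hw := (w_pos τ).le
  refine (pow_le_pow_iff_left₀ (n := 8) (Real.exp_pos _).le (by positivity) (by norm_num)).1 ?_
  rw [← Real.exp_nat_mul, mul_pow]
  have e1 : ((8 : ℕ) : ℝ) * -(π * τ.im / 4) = -2 * π * τ.im := by push_cast; ring
  rw [e1]
  refine h2.trans (mul_le_mul_of_nonneg_right ?_ (by positivity))
  calc C ≤ |C| + 1 := by linarith [le_abs_self C]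
    _ ≤ (|C| + 1) ^ 8 := le_self_pow₀ h1 (by norm_num)

theorem w_line : ∃ E : ℝ, 0 ≤ E ∧ ∀ u ∈ Set.Icc (0 : ℝ) 1, w (pt u 1) ≤ E := by
  obtain ⟨E, hE⟩ := (isCompact_Icc (a := (0 : ℝ)) (b := 1)).bddAbove_image
    (continuous_w.comp (continuous_pt one_pos)).continuousOn
  have h : ∀ u ∈ Set.Icc (0 : ℝ) 1, w (pt u 1) ≤ E := fun u hu => hE ⟨u, hu, rfl⟩
  exact ⟨E, (w_pos _).le.trans (h 0 ⟨le_rfl, zero_le_one⟩), h⟩

theorem w_trunc (Y : ℝ) : ∃ E : ℝ, 0 ≤ E ∧ ∀ τ ∈ 𝒟, τ.im ≤ Y → w τ ≤ E := by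
  obtain ⟨E, hE⟩ := (ModularGroup.isCompact_truncatedFundamentalDomain Y).bddAbove_image
    continuous_w.continuousOn
  exact ⟨max E 0, le_max_right _ _, fun τ h1 h2 =>
    (hE ⟨τ, ⟨h1, h2⟩, rfl⟩).trans (le_max_left _ _)⟩

theorem half_le_im {τ : ℍ} (h : τ ∈ 𝒟) : 1 / 2 < τ.im := by
  have h1 := ModularGroup.three_le_four_mul_im_sq_of_mem_fd h
  have h2 := τ.im_pos
  nlinarith

end VecP

end

end Pool.Agent.P.MP_b8021b_nt.CM
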