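import Pool.Agent.P.MP_b8021b_nt.CM.Vec1

/-! Package P15, second file: the vector valued function. -/

namespace Pool.Agent.P.MP_b8021b_nt.CM

open Complex hiding Gamma
open UpperHalfPlane hiding I
open MeasureTheory CongruenceSubgroup Filter
open scoped Real MatrixGroups ModularForm Topology ComplexConjugate Modular

noncomputable section

namespace VecP

variable {ι : Type} [Fintype ι] {c : ι → ℚ → ℂ}

/-- the vector valued function -/
def HH (c : ι → ℚ → ℂ) (τ : ℍ) : EuclideanSpace ℂ ι := WithLp.toLp 2 fun i => qs (c i) τ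

theorem norm_HH_sq (τ : ℍ) : ‖HH c τ‖ ^ 2 = ∑ i, ‖qs (c i) τ‖ ^ 2 :=
  EuclideanSpace.norm_sq_eq _

theorem norm_qs_le (i : ι) (τ : ℍ) : ‖qs (c i) τ‖ ≤ ‖HH c τ‖ :=
  PiLp.norm_apply_le (HH c τ) i

omit [Fintype ι] in
theorem continuous_HH (h : ∀ i, Conv (c i)) : Continuous (HH c) :=
  (PiLp.continuous_toLp 2 _).comp (continuous_pi fun i => (h i).hol.continuous)

theorem norm_toLp_le {f g : ι → ℂ} {r : ℝ} (hr : 0 ≤ r) (h : ∀ i, ‖f i‖ ≤ r * ‖g i‖) :
    ‖(WithLp.toLp 2 f : EuclideanSpace ℂ ι)‖ ≤ r * ‖(WithLp.toLp 2 g : EuclideanSpace ℂ ι)‖ := by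
  refine (pow_le_pow_iff_left₀ (n := 2) (norm_nonneg _) (by positivity) (by norm_num)).1 ?_
  rw [mul_pow, EuclideanSpace.norm_sq_eq, EuclideanSpace.norm_sq_eq, Finset.mul_sum]
  refine Finset.sum_le_sum fun i _ => ?_
  rw [← mul_pow]
  exact pow_le_pow_left₀ (norm_nonneg _) (h i) 2

theorem norm_toLp_le_const {f : ι → ℂ} {r : ℝ} (hr : 0 ≤ r) (h : ∀ i, ‖f i‖ ≤ r) :
    ‖(WithLp.toLp 2 f : EuclideanSpace ℂ ι)‖ ≤ Real.sqrt (Fintype.card ι) * r := by
  refine (pow_le_pow_iff_left₀ (n := 2) (norm_nonneg _) (by positivity) (by norm_num)).1 ?_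
  rw [mul_pow, EuclideanSpace.norm_sq_eq, Real.sq_sqrt (Nat.cast_nonneg _)]
  calc ∑ i, ‖f i‖ ^ 2 ≤ ∑ _i : ι, r ^ 2 :=
        Finset.sum_le_sum fun i _ => pow_le_pow_left₀ (norm_nonneg _) (h i) 2
    _ = _ := by rw [Finset.sum_const, Finset.card_univ, nsmul_eq_mul]

theorem coef_vec (h : ∀ i, Conv (c i)) (μ : ι → ℚ) (hμ : ∀ i m, c i m ≠ 0 → IsInt (m - μ i))
    {B : ℝ} (hB : ∀ u ∈ Set.Icc (0 : ℝ) 1, ‖HH c (pt u 1)‖ ≤ B) :
    ‖(WithLp.toLp 2 fun i => c i (μ i) * e (μ i * I) : EuclideanSpace ℂ ι)‖ ≤ B := by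
  let G : ℝ → EuclideanSpace ℂ ι := fun u =>
    WithLp.toLp 2 fun i => qs (c i) (pt u 1) * e (-μ i * u)
  have hG : Continuous G := by
    refine (PiLp.continuous_toLp 2 _).comp (continuous_pi fun i => ?_)
    refine ((h i).hol.continuous.comp (continuous_pt one_pos)).mul ?_
    unfold e
    fun_prop
  have e1 : (WithLp.toLp 2 fun i => c i (μ i) * e (μ i * I) : EuclideanSpace ℂ ι)
      = ∫ u in (0 : ℝ)..1, G u := by
    ext i
    have a1 := (EuclideanSpace.proj (𝕜 := ℂ) i).intervalIntegral_comp_comm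
      (hG.intervalIntegrable (μ := volume) 0 1)
    have a2 := coef_int (h i) (μ i) (hμ i) one_pos
    rw [Complex.ofReal_one, one_mul] at a2
    exact a2.symm.trans a1
  rw [e1]
  have := intervalIntegral.norm_integral_le_of_norm_le_const (a := 0) (b := 1) (f := G) (C := B)
    fun u hu => by
      rw [Set.uIoc_of_le zero_le_one] at hu
      refine le_trans ?_ (hB u (Set.Ioc_subset_Icc_self hu))
      have := norm_toLp_le (f := fun i => qs (c i) (pt u 1) * e (-μ i * u))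
        (g := fun i => qs (c i) (pt u 1)) zero_le_one fun i => by
          rw [norm_mul, norm_e]
          simp
      rw [one_mul] at this
      exact this
  simpa using this

theorem exp_neg_le_half {x : ℝ} (hx : 1 ≤ x) : Real.exp (-x) ≤ 1 / 2 := by
  rw [Real.exp_neg, one_div]
  exact inv_anti₀ two_pos (by linarith [Real.add_one_le_exp x])

/-- upper bound high in the cusp -/
theorem high (h : ∀ i, Conv (c i)) {δ : ℚ} {L B : ℝ} (hδ : 0 < δ) (hL : 0 ≤ L)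
    (hs : ∀ i m, c i m ≠ 0 → δ ≤ m) {b : ι → ℚ} (hb1 : ∀ i, -3 / 4 < b i)
    (hb2 : ∀ i, b i ≤ 1 / 4) (hb : ∀ i m, c i m ≠ 0 → IsInt (m - b i))
    (hl : ∀ i m, m ≤ 1 / 4 → ‖c i m‖ ≤ L)
    (hB : ∀ u ∈ Set.Icc (0 : ℝ) 1, ‖HH c (pt u 1)‖ ≤ B) (τ : ℍ) (hτ : 2 ≤ τ.im) :
    ‖HH c τ‖ ≤ Real.sqrt (Fintype.card ι) * (L * Real.exp (-2 * π * (δ * τ.im)))
      + 2 * B * Real.exp (-(π * (τ.im - 1) / 2)) := by
  have hB0 : 0 ≤ B := (norm_nonneg _).trans (hB 0 ⟨le_rfl, zero_le_one⟩)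
  have hpi := Real.pi_gt_three
  let low : EuclideanSpace ℂ ι := WithLp.toLp 2 fun i => c i (b i) * e (b i * τ)
  let v : ℕ → EuclideanSpace ℂ ι := fun n =>
    WithLp.toLp 2 fun i => c i (b i + (n + 1 : ℕ)) * e ((b i + (n + 1 : ℕ) : ℚ) * τ)
  have h1 : HasSum v (HH c τ - low) := by
    have a1 : HasSum (fun (n : ℕ) i => c i (b i + (n + 1 : ℕ)) * e ((b i + (n + 1 : ℕ) : ℚ) * τ))
        (fun i => qs (c i) τ - c i (b i) * e (b i * τ)) :=
      Pi.hasSum.2 fun i => hasSum_rep (h i) (hb2 i) (hb i)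
        (fun m hm => hδ.trans_le (hs i m hm)) τ
    exact (PiLp.continuousLinearEquiv 2 ℂ fun _ : ι => ℂ).symm.hasSum.2 a1
  have h2 : ‖low‖ ≤ Real.sqrt (Fintype.card ι) * (L * Real.exp (-2 * π * (δ * τ.im))) := by
    refine norm_toLp_le_const (by positivity) fun i => ?_
    by_cases h0 : c i (b i) = 0
    · rw [h0, zero_mul, norm_zero]
      positivity
    · rw [norm_term]
      refine mul_le_mul (hl i _ (hb2 i)) (Real.exp_le_exp.2 ?_) (Real.exp_pos _).le hL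
      have a1 : (δ : ℝ) ≤ b i := by exact_mod_cast hs i _ h0
      have a2 : (δ : ℝ) * τ.im ≤ b i * τ.im := mul_le_mul_of_nonneg_right a1 (by linarith)
      rw [coe_im]
      nlinarith
  have h3 : ∀ n, ‖v n‖ ≤ B * Real.exp (-(π * (τ.im - 1) / 2)) * (1 / 2) ^ n := by
    intro n
    have a1 := coef_vec h (fun i => b i + (n + 1 : ℕ)) (fun i m hm => by
      obtain ⟨k, hk⟩ := (isInt_rat _).1 (hb i m hm)
      exact (isInt_rat _).2 ⟨k - (n + 1 : ℕ), by push_cast at hk ⊢; linarith⟩) hB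
    have a2 := norm_toLp_le
      (f := fun i => c i (b i + (n + 1 : ℕ)) * e ((b i + (n + 1 : ℕ) : ℚ) * τ))
      (g := fun i => c i (b i + (n + 1 : ℕ)) * e ((b i + (n + 1 : ℕ) : ℚ) * I))
      (r := Real.exp (-(π * (τ.im - 1) / 2)) * (1 / 2) ^ n) (by positivity) fun i => by
        rw [norm_term, norm_term, mul_left_comm (Real.exp (-(π * (τ.im - 1) / 2)) * (1 / 2) ^ n)]
        refine mul_le_mul_of_nonneg_left ?_ (norm_nonneg _)
        have b1 : Real.exp (-(2 * π * (τ.im - 1))) ^ n ≤ (1 / 2) ^ n :=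
          pow_le_pow_left₀ (Real.exp_pos _).le (exp_neg_le_half (by nlinarith)) n
        refine le_trans ?_ (mul_le_mul_of_nonneg_right
          (mul_le_mul_of_nonneg_left b1 (Real.exp_pos _).le) (Real.exp_pos _).le)
        rw [← Real.exp_nat_mul, ← Real.exp_add, ← Real.exp_add, Real.exp_le_exp, coe_im,
          Complex.I_im]
        have b2 : (-3 / 4 : ℝ) < b i := by
          have := (Rat.cast_lt (K := ℝ)).2 (hb1 i)
          push_cast at this
          exact this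
        have b3 : 0 ≤ π * (τ.im - 1) * (b i + 3 / 4) :=
          mul_nonneg (mul_nonneg (by linarith) (by linarith)) (by linarith)
        push_cast
        linarith only [b3]
    calc ‖v n‖ ≤ _ := a2
      _ ≤ Real.exp (-(π * (τ.im - 1) / 2)) * (1 / 2) ^ n * B :=
        mul_le_mul_of_nonneg_left a1 (by positivity)
      _ = _ := by ring
  have h4 := h1.norm_le_of_bounded
    (hasSum_geometric_two.mul_left (B * Real.exp (-(π * (τ.im - 1) / 2)))) h3
  have h5 := norm_add_le low (HH c τ - low)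
  rw [add_sub_cancel] at h5
  linarith

/-- the invariant quotient -/
def Phi (c : ι → ℚ → ℂ) (τ : ℍ) : ℝ := ‖HH c τ‖ / w τ

theorem Phi_nonneg (τ : ℍ) : 0 ≤ Phi c τ := div_nonneg (norm_nonneg _) (w_pos τ).le

theorem norm_HH_eq (τ : ℍ) : ‖HH c τ‖ = Phi c τ * w τ :=
  (div_mul_cancel₀ _ (w_pos τ).ne').symm

theorem norm_HH_T {b : ι → ℚ} (hb : ∀ i m, c i m ≠ 0 → IsInt (m - b i)) (τ : ℍ) :
    ‖HH c (ModularGroup.T • τ)‖ = ‖HH c τ‖ := by
  refine (pow_left_inj₀ (n := 2) (norm_nonneg _) (norm_nonneg _) (by norm_num)).1 ?_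
  rw [norm_HH_sq, norm_HH_sq]
  exact Finset.sum_congr rfl fun i _ => by rw [norm_qs_T (hb i)]

theorem Phi_SL {b : ι → ℚ} (hb : ∀ i m, c i m ≠ 0 → IsInt (m - b i))
    (hS : ∀ τ : ℍ, ‖HH c (ModularGroup.S • τ)‖ ^ 2 = ‖(τ : ℂ)‖ ^ 3 * ‖HH c τ‖ ^ 2) (γ : SL) :
    ∀ τ, Phi c (γ • τ) = Phi c τ := by
  refine inv_SL (fun τ => ?_) (fun τ => by rw [Phi, Phi, norm_HH_T hb, w_T]) γ
  refine (pow_left_inj₀ (n := 2) (Phi_nonneg _) (Phi_nonneg _) (by norm_num)).1 ?_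
  have h0 : ‖(τ : ℂ)‖ ≠ 0 := norm_ne_zero_iff.2 τ.ne_zero
  rw [Phi, Phi, div_pow, div_pow, hS, w_S, mul_div_mul_left _ _ (pow_ne_zero 3 h0)]

theorem Psi_SL {b : ι → ℚ} (hb : ∀ i m, c i m ≠ 0 → IsInt (m - b i))
    (hS : ∀ τ : ℍ, ‖HH c (ModularGroup.S • τ)‖ ^ 2 = ‖(τ : ℂ)‖ ^ 3 * ‖HH c τ‖ ^ 2) (γ : SL) :
    ∀ τ : ℍ, (γ • τ).im ^ 3 * ‖HH c (γ • τ)‖ ^ 4 = τ.im ^ 3 * ‖HH c τ‖ ^ 4 := by
  refine inv_SL (f := fun τ => τ.im ^ 3 * ‖HH c τ‖ ^ 4) (fun τ => ?_) (fun τ => ?_) γ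
  · have h0 : ‖(τ : ℂ)‖ ≠ 0 := norm_ne_zero_iff.2 τ.ne_zero
    have e1 : ∀ x : ℝ, x ^ 4 = (x ^ 2) ^ 2 := fun x => by ring
    rw [e1, hS, im_SL, jf_S]
    field_simp
  · rw [norm_HH_T hb, im_SL, jf_T, norm_one, one_pow, div_one]

/-- the maximum principle -/
theorem max_pr (h : ∀ i, Conv (c i)) (hinv : ∀ (γ : SL) τ, Phi c (γ • τ) = Phi c τ) {Y : ℝ}
    (hY : 2 ≤ Y) : ∃ τ1 : ℍ, Y - 1 ≤ τ1.im ∧ τ1.im ≤ Y ∧
      (∀ τ ∈ 𝒟, τ.im ≤ Y → Phi c τ ≤ Phi c τ1) ∧ ∀ u, Phi c (pt u 1) ≤ Phi c τ1 := by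
  have hc : Continuous (Phi c) :=
    (continuous_HH h).norm.div continuous_w fun τ => (w_pos τ).ne'
  have hne : (ModularGroup.truncatedFundamentalDomain Y).Nonempty :=
    ⟨UpperHalfPlane.I, by simp [ModularGroup.fd], by simp; linarith⟩
  obtain ⟨τ0, hτ0, hmax⟩ :=
    (ModularGroup.isCompact_truncatedFundamentalDomain Y).exists_isMaxOn hne hc.continuousOn
  have hD : ∀ τ ∈ 𝒟, τ.im ≤ Y → Phi c τ ≤ Phi c τ0 := fun τ h1 h2 => hmax ⟨h1, h2⟩
  have hY0 : 0 < Y := by linarith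
  have hU : ∀ τ : ℍ, 1 / Y < τ.im → τ.im < Y → Phi c τ ≤ Phi c τ0 := by
    intro τ h1 h2
    obtain ⟨γ, hγ⟩ := ModularGroup.exists_smul_mem_fd τ
    rw [← hinv γ τ]
    refine hD _ hγ ((im_SL_le γ τ).trans (max_le h2.le ?_))
    rw [div_le_iff₀ τ.im_pos]
    rw [div_lt_iff₀ hY0] at h1
    linarith
  have hY1 : 1 / Y ≤ 1 / 2 := one_div_le_one_div_of_le two_pos hY
  have hline : ∀ u, Phi c (pt u 1) ≤ Phi c τ0 := fun u =>
    hU _ (by rw [im_pt u one_pos]; linarith) (by rw [im_pt u one_pos]; linarith)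
  by_cases htop : Y - 1 ≤ τ0.im
  · exact ⟨τ0, htop, hτ0.2, hD, hline⟩
  · let U : Set ℂ := {z | 1 / Y < z.im} ∩ {z | z.im < Y}
    let F : ℂ → EuclideanSpace ℂ ι := fun z => (ModularForm.eta z ^ 3)⁻¹ • HH c (ofComplex z)
    have hUp : ∀ z ∈ U, 0 < z.im := fun z hz => lt_trans (by positivity) hz.1
    have hF : ∀ τ : ℍ, ‖F τ‖ = Phi c τ := by
      intro τ
      simp only [F]
      rw [norm_smul, norm_inv, norm_pow, ofComplex_apply, Phi, w, div_eq_inv_mul]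
    have hd : DifferentiableOn ℂ F U := by
      have d1 : DifferentiableOn ℂ (fun z => (ModularForm.eta z ^ 3)⁻¹) U := fun z hz => by
        refine DifferentiableAt.differentiableWithinAt (DifferentiableAt.inv ?_ ?_)
        · exact (ModularForm.differentiableAt_eta_of_mem_upperHalfPlaneSet (hUp z hz)).pow 3
        · exact pow_ne_zero 3 (ModularForm.eta_ne_zero (hUp z hz))
      have d2 : DifferentiableOn ℂ (fun z => HH c (ofComplex z)) U := by
        rw [differentiableOn_euclidean]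
        intro i
        exact (h i).hol.mono fun z hz => hUp z hz
      exact d1.smul d2
    have hconv : Convex ℝ U := (convex_halfSpace_im_gt _).inter (convex_halfSpace_im_lt _)
    have hopen : IsOpen U :=
      (isOpen_lt continuous_const Complex.continuous_im).inter
        (isOpen_lt Complex.continuous_im continuous_const)
    have h0U : (τ0 : ℂ) ∈ U := by
      have := half_le_im hτ0.1
      refine ⟨?_, ?_⟩
      · change 1 / Y < τ0.im
        linarith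
      · change τ0.im < Y
        linarith
    have hm : IsMaxOn (norm ∘ F) U τ0 := by
      intro z hz
      have := hU ⟨z, hUp z hz⟩ hz.1 hz.2
      rw [← hF, ← hF] at this
      exact this
    have hcst := Complex.norm_eqOn_of_isPreconnected_of_isMaxOn hconv.isPreconnected hopen hd
      h0U hm
    have hy1 : 0 < Y - 1 := by linarith
    have h1U : ((pt 0 (Y - 1) : ℍ) : ℂ) ∈ U := by
      refine ⟨?_, ?_⟩
      · change 1 / Y < (pt 0 (Y - 1)).im
        rw [im_pt 0 hy1]; linarith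
      · change (pt 0 (Y - 1)).im < Y
        rw [im_pt 0 hy1]; linarith
    have e1 : Phi c (pt 0 (Y - 1)) = Phi c τ0 := by
      rw [← hF, ← hF]
      exact hcst h1U
    refine ⟨pt 0 (Y - 1), (im_pt 0 hy1).ge, by rw [im_pt 0 hy1]; linarith, ?_, ?_⟩
    · rw [e1]; exact hD
    · rw [e1]; exact hline

theorem mul_exp_le {x : ℝ} : x * Real.exp (-x) ≤ 1 := by
  rw [Real.exp_neg, ← div_eq_mul_inv, div_le_one (Real.exp_pos _)]
  linarith [Real.add_one_le_exp x]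

end VecP

end

end Pool.Agent.P.MP_b8021b_nt.CM
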