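import Pool.Agent.P.MP_b8021b_nt.CM.Lib

/-! Package P12, part 1: theta functions of the norm form and their transformation laws. -/

namespace Pool.Agent.P.MP_b8021b_nt.CM

open Complex hiding Gamma
open UpperHalfPlane hiding I
open MeasureTheory CongruenceSubgroup Filter
open scoped Real MatrixGroups ModularForm Topology ComplexConjugate Modular

noncomputable section

namespace WLP

def NmC (d : ℕ) (z : ℂ × ℂ) : ℂ := z.1 ^ 2 + d * z.2 ^ 2

def ker (d : ℕ) (w : ℂ) (z : ℂ × ℂ) (x : Q2) : ℂ :=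
  e (-w * (Nm d x : ℚ) + (2 * (x.1 : ℚ) * z.1 + 2 * d * (x.2 : ℚ) * z.2))

def Th (d : ℕ) (φ : Q2 → ℂ) (w : ℂ) (z : ℂ × ℂ) : ℂ := ∑' x : Q2, φ x * ker d w z x

/-- the theta function of `φ'` is the transform of the theta function of `φ` -/
def Rel (d : ℕ) (a b c δ : ℚ) (φ φ' : Q2 → ℂ) : Prop :=
  ∀ w : ℂ, w.im < 0 → ∀ z : ℂ × ℂ,
    ((c : ℂ) * w + δ)⁻¹ * e (c * NmC d z / (c * w + δ)) *
      Th d φ ((a * w + b) / (c * w + δ)) (z.1 / (c * w + δ), z.2 / (c * w + δ)) = Th d φ' w z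

variable {d : ℕ} {a b c δ a' b' c' δ' : ℚ} {φ φ' φ'' ψ ψ' : Q2 → ℂ}

theorem den_ne (h : a * δ - b * c = 1) {w : ℂ} (hw : w.im < 0) : (c : ℂ) * w + δ ≠ 0 := by
  intro h0
  have h1 := congrArg Complex.im h0
  have h2 := congrArg Complex.re h0
  simp at h1 h2
  rcases h1 with h1 | h1
  · subst h1
    simp at h2
    subst h2
    simp at h
  · exact hw.ne h1

theorem im_neg (h : a * δ - b * c = 1) {w : ℂ} (hw : w.im < 0) :
    (((a : ℂ) * w + b) / (c * w + δ)).im < 0 := by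
  have h0 := den_ne h hw
  have hn : 0 < Complex.normSq ((c : ℂ) * w + δ) := Complex.normSq_pos.2 h0
  have hR : (a : ℝ) * δ - b * c = 1 := by exact_mod_cast h
  rw [Complex.div_im, ← sub_div]
  apply div_neg_of_neg_of_pos _ hn
  simp only [add_im, mul_im, ratCast_re, ratCast_im, add_re, mul_re]
  have : ((a : ℝ) * w.im + 0 * w.re + 0) * (c * w.re - 0 * w.im + δ) -
      (a * w.re - 0 * w.im + b) * (c * w.im + 0 * w.re + 0) = (a * δ - b * c) * w.im := by ring
  rw [this, hR, one_mul]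
  exact hw

theorem Rel.mul (h : a * δ - b * c = 1) (h' : a' * δ' - b' * c' = 1)
    (H : Rel d a b c δ φ φ') (H' : Rel d a' b' c' δ' φ' φ'') {A B C D : ℚ}
    (hA : A = a * a' + b * c') (hB : B = a * b' + b * δ') (hC : C = c * a' + δ * c')
    (hD : D = c * b' + δ * δ') : Rel d A B C D φ φ'' := by
  intro w hw z
  have hdet : A * D - B * C = 1 := by
    subst hA hB hC hD
    linear_combination (a' * δ' - b' * c') * h + h'
  have j1 := den_ne h' hw
  have j3 := den_ne hdet hw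
  have hc' : (a' : ℂ) * δ' - b' * c' = 1 := by exact_mod_cast h'
  have hC' : (C : ℂ) = c * a' + δ * c' := by rw [hC]; push_cast; rfl
  have hD' : (D : ℂ) = c * b' + δ * δ' := by rw [hD]; push_cast; rfl
  have hA' : (A : ℂ) = a * a' + b * c' := by rw [hA]; push_cast; rfl
  have hB' : (B : ℂ) = a * b' + b * δ' := by rw [hB]; push_cast; rfl
  have k1 : (c : ℂ) * ((a' * w + b') / (c' * w + δ')) + δ = (C * w + D) / (c' * w + δ') := by
    rw [eq_div_iff j1, add_mul, mul_assoc, div_mul_cancel₀ _ j1, hC', hD']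
    ring
  have k2 : ((a : ℂ) * ((a' * w + b') / (c' * w + δ')) + b) = (A * w + B) / (c' * w + δ') := by
    rw [eq_div_iff j1, add_mul, mul_assoc, div_mul_cancel₀ _ j1, hA', hB']
    ring
  have k0 : (c' : ℂ) * (C * w + D) + c = C * (c' * w + δ') := by
    rw [hC', hD']
    linear_combination (-c : ℂ) * hc'
  rw [← H' w hw z, ← H _ (im_neg h' hw), k1, k2]
  generalize (c' : ℂ) * w + δ' = J1 at j1 k0 ⊢
  generalize (C : ℂ) * w + D = J3 at j3 k0 ⊢
  have k4 : ∀ u : ℂ, u / J1 / (J3 / J1) = u / J3 := by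
    intro u; field_simp
  have k5 : (C : ℂ) * NmC d z / J3 = c' * NmC d z / J1 +
      c * NmC d (z.1 / J1, z.2 / J1) / (J3 / J1) := by
    unfold NmC
    field_simp
    linear_combination (-(z.1 ^ 2 + d * z.2 ^ 2)) * k0
  rw [k4, k4, k4, k5, e_add]
  field_simp

theorem Rel.one : Rel d 1 0 0 1 φ φ := by
  intro w _ z
  simp [e_zero]

theorem ker_split (d : ℕ) (w : ℂ) (z : ℂ × ℂ) (x : Q2) : ker d w z x =
    cexp (-π * (2 * I * w) * (x.1 : ℚ) ^ 2 + 2 * π * (2 * I * z.1) * (x.1 : ℚ)) *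
      cexp (-π * (2 * I * w * d) * (x.2 : ℚ) ^ 2 + 2 * π * (2 * I * d * z.2) * (x.2 : ℚ)) := by
  rw [← Complex.exp_add, ker, e, Nm]
  congr 1
  push_cast
  ring

theorem re_pos {w : ℂ} (hw : w.im < 0) : 0 < (2 * I * w).re := by
  simp
  linarith

theorem re_pos' (hd : 0 < d) {w : ℂ} (hw : w.im < 0) : 0 < (2 * I * w * d).re := by
  have : (0 : ℝ) < d := by exact_mod_cast hd
  simp
  nlinarith

theorem summable_Th (hd : 0 < d) (h : SB φ) {w : ℂ} (hw : w.im < 0) (z : ℂ × ℂ) :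
    Summable fun x : Q2 => ‖φ x * ker d w z x‖ := by
  refine SB.tensor_induction (P := fun φ => Summable fun x : Q2 => ‖φ x * ker d w z x‖)
    ?_ ?_ ?_ h
  · simp
  · intro φ ψ _ _ h1 h2
    refine Summable.of_nonneg_of_le (fun _ => norm_nonneg _) (fun x => ?_) (h1.add h2)
    rw [Pi.add_apply, add_mul]
    exact norm_add_le _ _
  · intro φ ψ h1 h2
    have s1 := summable_gauss h1 (re_pos hw) (2 * I * z.1) 0
    have s2 := summable_gauss h2 (re_pos' hd hw) (2 * I * d * z.2) 0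
    have := Summable.mul_norm s1 s2
    refine this.congr fun x => ?_
    rw [ker_split]
    congr 1
    ring

theorem Th_add (hd : 0 < d) (h : SB φ) (h' : SB ψ) {w : ℂ} (hw : w.im < 0) (z : ℂ × ℂ) :
    Th d (φ + ψ) w z = Th d φ w z + Th d ψ w z := by
  unfold Th
  rw [← (summable_Th hd h hw z).of_norm.tsum_add (summable_Th hd h' hw z).of_norm]
  simp only [Pi.add_apply, add_mul]

theorem Th_smul (k : ℂ) (φ : Q2 → ℂ) (w : ℂ) (z : ℂ × ℂ) : Th d (k • φ) w z = k * Th d φ w z := by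
  unfold Th
  rw [← tsum_mul_left]
  simp only [Pi.smul_apply, smul_eq_mul, mul_assoc]

theorem Rel.add (hd : 0 < d) (h : a * δ - b * c = 1) (H : Rel d a b c δ φ φ')
    (H' : Rel d a b c δ ψ ψ') (h1 : SB φ) (h2 : SB φ') (h3 : SB ψ) (h4 : SB ψ') :
    Rel d a b c δ (φ + ψ) (φ' + ψ') := by
  intro w hw z
  rw [Th_add hd h1 h3 (im_neg h hw), Th_add hd h2 h4 hw, ← H w hw z, ← H' w hw z, mul_add]

theorem Rel.smul (H : Rel d a b c δ φ φ') (k : ℂ) : Rel d a b c δ (k • φ) (k • φ') := by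
  intro w hw z
  rw [Th_smul, Th_smul, ← H w hw z]
  ring

theorem Nm_pos (hd : 0 < d) {x : Q2} (hx : x ≠ 0) : 0 < Nm d x := by
  have hd' : (0 : ℚ) < d := by exact_mod_cast hd
  unfold Nm
  by_cases h1 : x.1 = 0
  · have h2 : x.2 ≠ 0 := fun h2 => hx (Prod.ext h1 h2)
    positivity
  · positivity

/-- the theta function determines the coefficients -/
theorem eq_zero_of_Th (hd : 0 < d) (h : SB φ) (H : ∀ w : ℂ, w.im < 0 → ∀ z, Th d φ w z = 0) :
    φ = 0 := by
  funext x0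
  have key : ∀ (t : ℝ) (x : Q2), ker d (-I * t) (-I * t * (x0.1 : ℚ), -I * t * (x0.2 : ℚ)) x =
      cexp (2 * π * t * (Nm d x0 : ℚ)) * ((Real.exp (-2 * π * t * (Nm d (x - x0) : ℚ)) : ℝ) : ℂ) := by
    intro t x
    rw [Complex.ofReal_exp, ← Complex.exp_add, ker, e]
    congr 1
    simp only [Nm, Prod.fst_sub, Prod.snd_sub]
    push_cast
    linear_combination (2 * π * t * ((x.1 : ℂ) ^ 2 + d * (x.2 : ℂ) ^ 2 - 2 * x.1 * x0.1 -
      2 * d * x.2 * x0.2)) * I_sq
  have him : ∀ t : ℝ, 0 < t → (-I * t).im < 0 := by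
    intro t ht
    simpa using ht
  have z0 : ∀ t : ℝ, 0 < t →
      ∑' x : Q2, φ x * ((Real.exp (-2 * π * t * (Nm d (x - x0) : ℚ)) : ℝ) : ℂ) = 0 := by
    intro t ht
    have := H _ (him t ht) (-I * t * (x0.1 : ℚ), -I * t * (x0.2 : ℚ))
    unfold Th at this
    simp only [key] at this
    simp only [mul_left_comm (φ _)] at this
    rw [tsum_mul_left] at this
    exact (mul_eq_zero.1 this).resolve_left (Complex.exp_ne_zero _)
  have s1 : Summable fun x : Q2 => ‖φ x‖ * Real.exp (-2 * π * (1 : ℝ) * (Nm d (x - x0) : ℚ)) := by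
    have := summable_Th hd h (him 1 one_pos) (-I * (1 : ℝ) * (x0.1 : ℚ), -I * (1 : ℝ) * (x0.2 : ℚ))
    simp only [key] at this
    refine (this.mul_left ‖cexp (2 * π * (1 : ℝ) * (Nm d x0 : ℚ))‖⁻¹).congr fun x => ?_
    have hne : ‖cexp (2 * π * (1 : ℝ) * (Nm d x0 : ℚ))‖ ≠ 0 :=
      norm_ne_zero_iff.2 (Complex.exp_ne_zero _)
    rw [norm_mul, norm_mul, Complex.norm_real, Real.norm_of_nonneg (Real.exp_pos _).le]
    field_simp
  classical
  have lim : Tendsto (fun t : ℝ => ∑' x : Q2,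
      φ x * ((Real.exp (-2 * π * t * (Nm d (x - x0) : ℚ)) : ℝ) : ℂ)) atTop
      (𝓝 (∑' x : Q2, if x = x0 then φ x0 else 0)) := by
    refine tendsto_tsum_of_dominated_convergence s1 (fun x => ?_) ?_
    · split_ifs with hx
      · subst hx
        simp [Nm]
      · have hp : (0 : ℝ) < (Nm d (x - x0) : ℚ) := by
          exact_mod_cast Nm_pos hd (sub_ne_zero.2 hx)
        have h1 : Tendsto (fun t : ℝ => Real.exp (-2 * π * t * (Nm d (x - x0) : ℚ))) atTop
            (𝓝 0) := by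
          refine Real.tendsto_exp_atBot.comp ?_
          refine Tendsto.atBot_mul_const hp ?_
          exact tendsto_id.const_mul_atTop_of_neg (by have := Real.pi_pos; linarith)
        have h2 := ((Complex.continuous_ofReal.tendsto 0).comp h1).const_mul (φ x)
        simpa using h2
    · filter_upwards [eventually_ge_atTop (1 : ℝ)] with t ht x
      rw [norm_mul, Complex.norm_real, Real.norm_of_nonneg (Real.exp_pos _).le]
      refine mul_le_mul_of_nonneg_left (Real.exp_le_exp.2 ?_) (norm_nonneg _)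
      have hp : (0 : ℝ) ≤ (Nm d (x - x0) : ℚ) := by
        have : 0 ≤ Nm d (x - x0) := by unfold Nm; positivity
        exact_mod_cast this
      have := Real.pi_pos
      nlinarith [mul_nonneg (mul_nonneg this.le (sub_nonneg.2 ht)) hp]
  rw [tsum_ite_eq] at lim
  have lim0 : Tendsto (fun t : ℝ => ∑' x : Q2,
      φ x * ((Real.exp (-2 * π * t * (Nm d (x - x0) : ℚ)) : ℝ) : ℂ)) atTop (𝓝 0) := by
    refine tendsto_const_nhds.congr' ?_
    filter_upwards [eventually_gt_atTop (0 : ℝ)] with t ht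
    exact (z0 t ht).symm
  exact tendsto_nhds_unique lim lim0

theorem Rel.unique (hd : 0 < d) (H : Rel d a b c δ φ φ') (H' : Rel d a b c δ φ φ'')
    (h1 : SB φ') (h2 : SB φ'') : φ' = φ'' := by
  have h3 : SB (φ' + (-1 : ℂ) • φ'') := h1.add (h2.smul _)
  have := eq_zero_of_Th hd h3 fun w hw z => by
    rw [Th_add hd h1 (h2.smul _) hw, Th_smul, ← H w hw z, ← H' w hw z]
    ring
  funext x
  have := congrFun this x
  simp only [Pi.add_apply, Pi.smul_apply, smul_eq_mul, Pi.zero_apply] at this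
  linear_combination this

/-- translations -/
theorem rel_n (β : ℚ) (φ : Q2 → ℂ) : Rel d 1 β 0 1 φ fun x => eq (-(β * Nm d x)) * φ x := by
  intro w _ z
  simp only [Rat.cast_zero, zero_mul, Rat.cast_one, zero_add, inv_one, e_zero, one_mul,
    div_one, Th]
  refine tsum_congr fun x => ?_
  rw [mul_comm (eq _), mul_assoc, eq, ker, ker, ← e_add]
  congr 2
  push_cast
  ring

/-- the diagonal torus -/
theorem rel_diag {t : ℚ} (ht : t ≠ 0) (φ : Q2 → ℂ) :
    Rel d t⁻¹ 0 0 t φ fun x => (t : ℂ)⁻¹ * φ (t • x) := by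
  intro w _ z
  have ht' : (t : ℂ) ≠ 0 := by exact_mod_cast ht
  simp only [Rat.cast_zero, zero_mul, zero_add, zero_div, e_zero, mul_one, add_zero, Th]
  rw [← (Equiv.smulRight (β := Q2) ht).tsum_eq, ← tsum_mul_left]
  refine tsum_congr fun x => ?_
  simp only [Equiv.smulRight_apply]
  rw [← mul_assoc]
  congr 1
  unfold ker Nm
  congr 1
  simp only [Prod.smul_fst, Prod.smul_snd, smul_eq_mul]
  push_cast
  field_simp

/-- one dimensional theta sums -/
def T1 (φ : ℚ → ℂ) (a b : ℂ) : ℂ := ∑' x : ℚ, φ x * cexp (-π * a * x ^ 2 + 2 * π * b * x)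

theorem Th_tensor (hd : 0 < d) {φ ψ : ℚ → ℂ} (h1 : SB φ) (h2 : SB ψ) {w : ℂ} (hw : w.im < 0)
    (z : ℂ × ℂ) : Th d (fun p => φ p.1 * ψ p.2) w z =
      T1 φ (2 * I * w) (2 * I * z.1) * T1 ψ (2 * I * w * d) (2 * I * d * z.2) := by
  have s1 := summable_gauss h1 (re_pos hw) (2 * I * z.1) 0
  have s2 := summable_gauss h2 (re_pos' hd hw) (2 * I * d * z.2) 0
  simp only [pow_zero, mul_one] at s1 s2
  unfold T1 Th
  rw [tsum_mul_tsum_of_summable_norm s1 s2]
  refine tsum_congr fun x => ?_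
  rw [ker_split]
  ring

theorem pois {s : ℕ} (hs : 0 < s) {φ : ℚ → ℂ} (h : SB φ) {w : ℂ} (hw : w.im < 0) (z : ℂ) :
    T1 φ (2 * I * (-1 / w) * s) (2 * I * s * (z / w)) =
      (2 * I * (-1 / w) * s) ^ (-(1 / 2) : ℂ) * (e (-(s * z ^ 2 / w)) *
        T1 (F1 (2 * s) φ) (2 * I * w * s) (2 * I * s * z)) := by
  have hw0 : w ≠ 0 := fun h0 => by simp [h0] at hw
  have hw' : (-1 / w).im < 0 := by
    have := im_neg (a := 0) (b := -1) (c := 1) (δ := 0) (by norm_num) hw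
    simpa using this
  have hs0 : (s : ℂ) ≠ 0 := by exact_mod_cast hs.ne'
  have hs1 : (2 * s : ℚ) ≠ 0 := by positivity
  unfold T1
  rw [poisson0 h (re_pos' hs hw'), ← (Equiv.mulLeft₀ (2 * s : ℚ) hs1).tsum_eq]
  congr 1
  rw [← tsum_mul_left]
  refine tsum_congr fun y => ?_
  simp only [Equiv.mulLeft₀_apply]
  have e1 : F1 1 φ (2 * s * y) = F1 (2 * s) φ y := by
    unfold F1
    congr 1
    funext x
    congr 2
    ring
  rw [e1, mul_left_comm (e _), e, ← Complex.exp_add]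
  congr 2
  push_cast
  have hI : I ≠ 0 := I_ne_zero
  field_simp
  ring_nf
  simp only [I_sq, I_pow_four]
  ring

theorem cpow_aux (hd : 0 < d) {a : ℂ} (ha : a ≠ 0) :
    a ^ (-(1 / 2) : ℂ) * (a * d) ^ (-(1 / 2) : ℂ) = a⁻¹ * ((Real.sqrt d : ℝ) : ℂ)⁻¹ := by
  have hd' : (0 : ℝ) < d := by exact_mod_cast hd
  have hd0 : (d : ℂ) ≠ 0 := by exact_mod_cast hd.ne'
  have e1 : (d : ℂ) = ((d : ℝ) : ℂ) := by simp
  rw [cpow_def_of_ne_zero ha, cpow_def_of_ne_zero (mul_ne_zero ha hd0), e1,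
    log_mul_ofReal _ hd' _ ha, ← Complex.exp_add]
  have e2 : log a * -(1 / 2) + ((Real.log d : ℝ) + log a) * -(1 / 2) =
      -log a + -(((Real.log d / 2 : ℝ)) : ℂ) := by
    push_cast
    ring
  rw [e2, Complex.exp_add, Complex.exp_neg, Complex.exp_neg, Complex.exp_log ha,
    ← Complex.ofReal_exp, ← Real.log_sqrt hd'.le, Real.exp_log (Real.sqrt_pos.2 hd')]

/-- the form `bilN d · z` as a linear map -/
def bilL (d : ℕ) (z : Q2) : Q2 →ₗ[ℚ] ℚ :=
  (2 * z.1) • LinearMap.fst ℚ ℚ ℚ + (2 * d * z.2) • LinearMap.snd ℚ ℚ ℚ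

theorem bilL_apply (d : ℕ) (z x : Q2) : bilL d z x = bilN d x z := by
  simp [bilL, bilN]
  ring

theorem sb_mul_bil (h : SB φ) (z : Q2) : SB fun x => φ x * eq (bilN d x z) := by
  simpa only [bilL_apply] using h.mul_eq (bilL d z)

theorem FL_add (h : SB φ) (h' : SB ψ) : FL d (φ + ψ) = FL d φ + FL d ψ := by
  funext z
  simp only [FL, Pi.add_apply]
  rw [← II_add (sb_mul_bil h z) (sb_mul_bil h' z)]
  congr 1
  funext x
  simp [add_mul]

theorem FL_smul (k : ℂ) (φ : Q2 → ℂ) : FL d (k • φ) = k • FL d φ := by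
  funext z
  simp only [FL, Pi.smul_apply, smul_eq_mul, mul_assoc, II_const_mul]

theorem FL_tensor {φ ψ : ℚ → ℂ} (h1 : SB φ) (h2 : SB ψ) :
    FL d (fun p => φ p.1 * ψ p.2) = fun z => F1 (2 * (1 : ℕ)) φ z.1 * F1 (2 * d) ψ z.2 := by
  funext z
  unfold FL
  rw [II_prod (sb_mul_bil (h1.tensor h2) z)]
  have : ∀ x y : ℚ, φ x * ψ y * eq (bilN d (x, y) z) =
      (φ x * eq (2 * (1 : ℕ) * x * z.1)) * (ψ y * eq (2 * d * y * z.2)) := by
    intro x y
    rw [bilN, eq_add]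
    simp only [Nat.cast_one, mul_one]
    ring
  simp only [this, II_const_mul]
  rw [mul_comm (F1 _ _ _), F1, F1, ← II_const_mul (II fun y => ψ y * eq (2 * d * y * z.2))]
  congr 1
  funext x
  exact mul_comm _ _

theorem sb_FLn (hd : 0 < d) (h : SB φ) : SB (FLn d φ) := (h.sb_FL hd).smul _

/-- the inversion -/
theorem rel_S (hd : 0 < d) (h : SB φ) : Rel d 0 (-1) 1 0 φ (FLn d φ) := by
  refine SB.tensor_induction (P := fun φ => Rel d 0 (-1) 1 0 φ (FLn d φ)) ?_ ?_ ?_ h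
  · intro w _ z
    have : FLn d (0 : Q2 → ℂ) = 0 := by
      have := FL_smul (d := d) 0 (0 : Q2 → ℂ)
      rw [zero_smul, zero_smul] at this
      rw [FLn, this, smul_zero]
    rw [this]
    simp [Th]
  · intro φ ψ h1 h2 H1 H2
    have := H1.add hd (by norm_num) H2 h1 (sb_FLn hd h1) h2 (sb_FLn hd h2)
    rwa [FLn, FL_add h1 h2, smul_add]
  · intro φ ψ h1 h2 w hw z
    have hw0 : w ≠ 0 := fun h0 => by simp [h0] at hw
    have hw' : (-1 / w).im < 0 := by
      have := im_neg (a := 0) (b := -1) (c := 1) (δ := 0) (by norm_num) hw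
      simpa using this
    have hd1 : (2 * d : ℚ) ≠ 0 := by positivity
    have hd2 : ((Real.sqrt d : ℝ) : ℂ) ≠ 0 := by
      have : (0 : ℝ) < d := by exact_mod_cast hd
      exact_mod_cast (Real.sqrt_pos.2 this).ne'
    simp only [Rat.cast_zero, Rat.cast_one, Rat.cast_neg, zero_mul, one_mul, zero_add, add_zero]
    rw [FLn, Th_smul, FL_tensor h1 h2, Th_tensor hd h1 h2 hw',
      Th_tensor hd (h1.sb_F1 (by norm_num)) (h2.sb_F1 hd1) hw]
    have p1 := pois one_pos h1 hw z.1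
    have p2 := pois hd h2 hw z.2
    simp only [Nat.cast_one, mul_one, one_mul] at p1 ⊢
    rw [p1, p2]
    have c1 := cpow_aux hd (a := 2 * I * (-1 / w)) (by simp [hw0])
    have c2 : e (NmC d z / w) * e (-(z.1 ^ 2 / w)) * e (-(d * z.2 ^ 2 / w)) = 1 := by
      rw [← e_add, ← e_add, ← e_zero]
      congr 1
      unfold NmC
      ring
    have c3 : w⁻¹ * ((2 * I * (-1 / w))⁻¹ * ((Real.sqrt d : ℝ) : ℂ)⁻¹) =
        I / (2 * Real.sqrt d) := by
      have hI : I ≠ 0 := I_ne_zero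
      field_simp
      simp
    rw [← c3, ← c1]
    linear_combination (w⁻¹ * (2 * I * (-1 / w)) ^ (-(1 / 2) : ℂ) *
      (2 * I * (-1 / w) * d) ^ (-(1 / 2) : ℂ) * T1 (F1 2 φ) (2 * I * w) (2 * I * z.1) *
      T1 (F1 (2 * d) ψ) (2 * I * w * d) (2 * I * d * z.2)) * c2

end WLP

end

end Pool.Agent.P.MP_b8021b_nt.CM
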