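import Pool.Agent.P.MP_b8021b_nt.CM.Lib

/-! Package P11, first part: the split Weil representation on `M2`. -/

namespace Pool.Agent.P.MP_b8021b_nt.CM

open Complex hiding Gamma
open UpperHalfPlane hiding I
open MeasureTheory CongruenceSubgroup Filter
open scoped Real MatrixGroups ModularForm Topology ComplexConjugate Modular

noncomputable section

namespace WVP

section general

variable {W W' : Type} [AddCommGroup W] [Module ℚ W] [Lat W] [AddCommGroup W'] [Module ℚ W']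
  [Lat W'] {M : ℕ}

theorem isInt_mul {a b : ℚ} (ha : IsInt a) (hb : IsInt b) : IsInt (a * b) := by
  obtain ⟨m, rfl⟩ := (isInt_rat _).1 ha
  obtain ⟨n, rfl⟩ := (isInt_rat _).1 hb
  exact (isInt_rat _).2 ⟨m * n, by push_cast; ring⟩

theorem isInt_int (n : ℤ) : IsInt (n : ℚ) := (isInt_rat _).2 ⟨n, rfl⟩

theorem isInt_nat (n : ℕ) : IsInt (n : ℚ) := (isInt_rat _).2 ⟨n, by simp⟩

theorem eq_congr {a b : ℚ} (h : IsInt (a - b)) : eq a = eq b := by
  have := eq_add (a - b) b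
  rw [sub_add_cancel, (eq_eq_one_iff _).2 h, one_mul] at this
  exact this

theorem lev_comp {φ : W' → ℂ} (h : Lev M φ) (f : W → W')
    (h1 : ∀ x k, IsInt k → ∃ k', IsInt k' ∧ f (x + (M : ℚ) • k) = f x + (M : ℚ) • k')
    (h2 : ∀ x, IsInt ((M : ℚ) • f x) → IsInt ((M : ℚ) • x)) : Lev M fun x => φ (f x) := by
  refine ⟨fun x k hk => ?_, fun x hx => h2 x (h.2 _ hx)⟩
  obtain ⟨k', hk', e1⟩ := h1 x k hk
  simp only [e1]
  exact h.1 _ _ hk'

theorem lev_lin {φ : W' → ℂ} (h : Lev M φ) (L : W →ₗ[ℚ] W') (hL : ∀ x, IsInt (L x) ↔ IsInt x) :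
    Lev M fun x => φ (L x) :=
  lev_comp h L (fun x k hk => ⟨L k, (hL k).2 hk, by rw [map_add, map_smul]⟩)
    fun x hx => (hL _).1 (by rwa [map_smul])

theorem lev_equiv {φ : W' → ℂ} (L : W ≃ₗ[ℚ] W') (hL : ∀ x, IsInt (L x) ↔ IsInt x)
    (h : Lev M fun x => φ (L x)) : Lev M φ := by
  have := lev_lin h L.symm.toLinearMap fun y => by
    rw [← hL]
    simp
  simpa using this

theorem lev_shift {φ : W → ℂ} (h : Lev M φ) {a : W} (ha : IsInt ((M : ℚ) • a)) :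
    Lev M fun x => φ (x + a) :=
  lev_comp h (fun x => x + a) (fun x k hk => ⟨k, hk, by abel⟩) fun x hx => by
    have := hx.sub ha
    rwa [smul_add, add_sub_cancel_right] at this

theorem lev_param {V : Type} (F : W → V → ℂ) (h : ∀ v, Lev M fun x => F x v)
    (T : (V → ℂ) → ℂ) (hT : T 0 = 0) : Lev M fun x => T (F x) := by
  refine ⟨fun x k hk => ?_, fun x hx => ?_⟩
  · have : F (x + (M : ℚ) • k) = F x := funext fun v => (h v).1 x k hk
    simp only [this]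
  · by_contra hc
    apply hx
    have : F x = 0 := funext fun v => by
      by_contra h0
      exact hc ((h v).2 x h0)
    simp only [this, hT]

theorem lev_mul_eq {φ : W → ℂ} (h : Lev M φ) (l : W → ℚ)
    (hl : ∀ x k, IsInt k → IsInt (l (x + (M : ℚ) • k) - l x)) : Lev M fun x => φ x * eq (l x) := by
  refine ⟨fun x k hk => ?_, fun x hx => h.2 x (left_ne_zero_of_mul hx)⟩
  simp only [h.1 x k hk, eq_congr (hl x k hk)]

theorem II_zero' : II (fun _ : W => (0 : ℂ)) = 0 := II_zero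

theorem II_add' {φ ψ : W → ℂ} (h : SB φ) (h' : SB ψ) :
    II (fun x => φ x + ψ x) = II φ + II ψ := II_add h h'

theorem II_mul_const (c : ℂ) (φ : W → ℂ) : II (fun x => φ x * c) = II φ * c := by
  simp only [mul_comm _ c]
  exact II_const_mul c φ

theorem sb_fst {φ : W × W' → ℂ} (h : SB φ) (y : W') : SB fun x => φ (x, y) := by
  obtain ⟨M, hM, h⟩ := h
  exact ⟨M, hM, h.fst y⟩

theorem sb_snd {φ : W × W' → ℂ} (h : SB φ) (x : W) : SB fun y => φ (x, y) := by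
  obtain ⟨M, hM, h⟩ := h
  exact ⟨M, hM, h.snd x⟩

theorem sb_neg {φ : W → ℂ} (h : SB φ) : SB fun x => φ (-x) := by
  obtain ⟨M, hM, h⟩ := h
  exact ⟨M, hM, h.neg_arg⟩

theorem sb_lin {φ : W' → ℂ} (h : SB φ) (f : W → W') (h1 : ∀ x y, f (x + y) = f x + f y)
    (h2 : ∀ (c : ℚ) x, f (c • x) = c • f x) (h3 : Function.Injective f) : SB fun x => φ (f x) :=
  h.comp_inj (IsLinearMap.mk' f ⟨h1, h2⟩) h3

theorem sb_mul_lin {φ : W → ℂ} (h : SB φ) (f : W → ℚ) (h1 : ∀ x y, f (x + y) = f x + f y)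
    (h2 : ∀ (c : ℚ) x, f (c • x) = c • f x) : SB fun x => φ x * eq (f x) :=
  h.mul_eq (IsLinearMap.mk' f ⟨h1, h2⟩)

theorem sb_mul_quad {φ : W → ℂ} (h : SB φ) (l l' : W →ₗ[ℚ] ℚ) :
    SB fun x => eq (l x * l' x) * φ x := by
  obtain ⟨K, hK, h1⟩ := exists_den l
  obtain ⟨K', hK', h2⟩ := exists_den l'
  refine h.mul_of_per _ fun M hM => ⟨M * K * K', by positivity, fun x k hx hk => eq_congr ?_⟩
  have a1 := h1 _ hx
  have a2 := h2 _ hx
  have a3 := h1 _ hk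
  have a4 := h2 _ hk
  have := ((isInt_mul a1 a4).add (isInt_mul a3 a2)).add
    (isInt_mul (isInt_nat (M * K * K' * M)) (isInt_mul a3 a4))
  convert this using 1
  simp only [map_add, map_smul, smul_eq_mul]
  push_cast
  ring

end general

/-! ### the symplectic Fourier transform is an involution -/

theorem F1_apply (φ : ℚ → ℂ) (z : ℚ) : F1 1 φ z = II fun x => φ x * eq (x * z) := by
  simp only [F1, one_mul]

theorem F1_F1 {φ : ℚ → ℂ} (h : SB φ) (x : ℚ) : F1 1 (F1 1 φ) x = φ (-x) := by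
  rw [F1_inv one_ne_zero h]
  simp

theorem sb_FS {c : Q2 → ℂ} (h : SB c) : SB (FS c) := by
  obtain ⟨M, hM, h⟩ := h
  exact ⟨M, hM, h.lev_FS hM⟩

theorem sb_FS_int {c : Q2 → ℂ} (h : SB c) (w : Q2) :
    SB fun v : Q2 => c v * eq (v.1 * w.2 - v.2 * w.1) :=
  sb_mul_lin h _ (fun x y => by simp only [Prod.fst_add, Prod.snd_add]; ring)
    fun a x => by simp only [Prod.smul_fst, Prod.smul_snd, smul_eq_mul]; ring

theorem FS_eq {c : Q2 → ℂ} (h : SB c) (w : Q2) :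
    FS c w = F1 1 (fun a => F1 1 (fun b => c (a, b)) (-w.1)) w.2 := by
  rw [FS, II_prod (sb_FS_int h w), F1_apply]
  congr 1
  funext a
  rw [F1_apply, ← II_mul_const]
  congr 1
  funext b
  rw [mul_assoc, ← eq_add]
  congr 2
  ring

theorem FS_eq' {c : Q2 → ℂ} (h : SB c) (w : Q2) :
    FS c w = F1 1 (fun a => F1 1 (fun b => c (-a, b)) (-w.1)) (-w.2) := by
  rw [FS_eq h, F1_apply, F1_apply, ← II_neg]
  congr 1
  funext a
  congr 2
  ring

theorem FS_FS {c : Q2 → ℂ} (h : SB c) (x : Q2) : FS (FS c) x = c x := by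
  rw [FS_eq' (sb_FS h)]
  have h1 : ∀ a : ℚ, F1 1 (fun b => FS c (-a, b)) (-x.1) = F1 1 (fun b => c (x.1, b)) a := by
    intro a
    have h2 : SB fun t : ℚ => F1 1 (fun b => c (t, b)) a := by
      simp only [F1_apply]
      exact (sb_mul_lin h (fun v => v.2 * a) (fun x y => by simp only [Prod.snd_add]; ring)
        fun s x => by simp only [Prod.smul_snd, smul_eq_mul]; ring).II_snd
    have h3 : (fun b => FS c (-a, b)) = F1 1 fun t : ℚ => F1 1 (fun b => c (t, b)) a := by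
      funext b
      rw [FS_eq h]
      simp only [neg_neg]
    rw [h3, F1_F1 h2, neg_neg]
  simp only [h1]
  exact (F1_F1 (sb_snd h x.1) _).trans (by rw [neg_neg])

theorem FS_neg (c : Q2 → ℂ) (w : Q2) : FS (fun v => c (-v)) w = FS c (-w) := by
  rw [FS, FS, ← II_neg]
  congr 1
  funext v
  simp only [neg_neg, Prod.fst_neg, Prod.snd_neg]
  congr 2
  ring

/-- the transform in the second variable -/
def PT (Φ : Q2 × Q2 → ℂ) (z : Q2 × Q2) : ℂ := FS (fun p => Φ (z.1, p)) (-z.2)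

theorem PT_PT {Φ : Q2 × Q2 → ℂ} (h : ∀ q, SB fun p => Φ (q, p)) (z : Q2 × Q2) :
    PT (PT Φ) z = Φ z := by
  simp only [PT]
  rw [FS_neg (FS fun p => Φ (z.1, p)), neg_neg, FS_FS (h _)]

theorem lev_PT {M : ℕ} (hM : 0 < M) {Φ : Q2 × Q2 → ℂ} (h : Lev M Φ) : Lev M (PT Φ) := by
  refine lev_prod (fun y => ?_) fun x => ((h.snd x).lev_FS hM).neg_arg
  exact lev_param (fun x p => Φ (x, p)) (fun p => h.fst p) (fun c => FS c (-y))
    (by simp only [FS, Pi.zero_apply, zero_mul, II_zero'])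

/-- bottom row and top row -/
def RW : (Q2 × Q2) ≃ₗ[ℚ] M2 where
  toFun z := !![z.2.1, z.2.2; z.1.1, z.1.2]
  invFun Y := ((Y 1 0, Y 1 1), (Y 0 0, Y 0 1))
  map_add' x y := by ext i j; fin_cases i <;> fin_cases j <;> simp
  map_smul' a x := by ext i j; fin_cases i <;> fin_cases j <;> simp
  left_inv z := by simp
  right_inv Y := by ext i j; fin_cases i <;> fin_cases j <;> simp

/-- first column and second column -/
def CL : (Q2 × Q2) ≃ₗ[ℚ] M2 where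
  toFun z := !![z.1.1, z.2.1; z.1.2, z.2.2]
  invFun Y := ((Y 0 0, Y 1 0), (Y 0 1, Y 1 1))
  map_add' x y := by ext i j; fin_cases i <;> fin_cases j <;> simp
  map_smul' a x := by ext i j; fin_cases i <;> fin_cases j <;> simp
  left_inv z := by simp
  right_inv Y := by ext i j; fin_cases i <;> fin_cases j <;> simp

theorem RW_apply (z : Q2 × Q2) : RW z = !![z.2.1, z.2.2; z.1.1, z.1.2] := rfl

theorem CL_apply (z : Q2 × Q2) : CL z = !![z.1.1, z.2.1; z.1.2, z.2.2] := rfl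

theorem isInt_RW (z : Q2 × Q2) : IsInt (RW z) ↔ IsInt z := by
  simp only [isInt_M2', isInt_prod, RW_apply, Fin.forall_fin_two]
  simp
  tauto

theorem isInt_CL (z : Q2 × Q2) : IsInt (CL z) ↔ IsInt z := by
  simp only [isInt_M2', isInt_prod, CL_apply, Fin.forall_fin_two]
  simp
  tauto

theorem PV_CL (φ : M2 → ℂ) (z : Q2 × Q2) : PV φ (CL z) = PT (fun z => φ (RW z)) z := by
  simp only [PV, PT, FS]
  congr 1
  funext p
  change φ (RW (z.1, p)) * eq (p.2 * z.2.1 - p.1 * z.2.2) =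
    φ (RW (z.1, p)) * eq (p.1 * -z.2.2 - p.2 * -z.2.1)
  congr 2
  ring

theorem PVi_RW (H : M2 → ℂ) (z : Q2 × Q2) : PVi H (RW z) = PT (fun z => H (CL z)) z := by
  simp only [PVi, PT, FS]
  congr 1
  funext p
  change H (CL (z.1, p)) * eq (-(z.2.2 * p.1 - z.2.1 * p.2)) =
    H (CL (z.1, p)) * eq (p.1 * -z.2.2 - p.2 * -z.2.1)
  congr 2
  ring

theorem lev_PV {M : ℕ} (hM : 0 < M) {φ : M2 → ℂ} (h : Lev M φ) : Lev M (PV φ) := by
  refine lev_equiv CL isInt_CL ?_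
  simp only [PV_CL]
  exact lev_PT hM (lev_lin h RW.toLinearMap isInt_RW)

theorem lev_PVi {M : ℕ} (hM : 0 < M) {H : M2 → ℂ} (h : Lev M H) : Lev M (PVi H) := by
  refine lev_equiv RW isInt_RW ?_
  simp only [PVi_RW]
  exact lev_PT hM (lev_lin h CL.toLinearMap isInt_CL)

theorem PVi_PV {φ : M2 → ℂ} (h : ∀ q, SB fun p => φ (RW (q, p))) : PVi (PV φ) = φ := by
  funext Y
  obtain ⟨z, rfl⟩ := RW.surjective Y
  simp only [PVi_RW, PV_CL]
  exact PT_PT (Φ := fun z => φ (RW z)) h z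

theorem PV_PVi {H : M2 → ℂ} (h : ∀ q, SB fun p => H (CL (q, p))) : PV (PVi H) = H := by
  funext Y
  obtain ⟨z, rfl⟩ := CL.surjective Y
  simp only [PVi_RW, PV_CL]
  exact PT_PT (Φ := fun z => H (CL z)) h z

theorem sb_RW {M : ℕ} (hM : 0 < M) {φ : M2 → ℂ} (h : Lev M φ) (q : Q2) :
    SB fun p => φ (RW (q, p)) :=
  ⟨M, hM, (lev_lin h RW.toLinearMap isInt_RW).snd q⟩

theorem sb_CL {M : ℕ} (hM : 0 < M) {φ : M2 → ℂ} (h : Lev M φ) (q : Q2) :
    SB fun p => φ (CL (q, p)) :=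
  ⟨M, hM, (lev_lin h CL.toLinearMap isInt_CL).snd q⟩

theorem isInt_mul_castZ {A : M2} (h : IsInt A) (Z : Z2) : IsInt (A * castZ Z) := by
  obtain ⟨B, rfl⟩ := (isInt_M2 _).1 h
  exact (isInt_M2 _).2 ⟨B * Z, castZ_mul _ _⟩

theorem castZ_SL_mul (γ δ : SL) : castZ (γ * δ).1 = castZ γ.1 * castZ δ.1 := castZ_mul _ _

theorem isInt_mul_SL (A : M2) (γ : SL) : IsInt (A * castZ γ.1) ↔ IsInt A := by
  refine ⟨fun h => ?_, fun h => isInt_mul_castZ h _⟩
  have := isInt_mul_castZ h (γ⁻¹).1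
  rwa [mul_assoc, ← castZ_SL_mul, mul_inv_cancel, Matrix.SpecialLinearGroup.coe_one, castZ_one,
    mul_one] at this

theorem lev_mul_SL {M : ℕ} {H : M2 → ℂ} (h : Lev M H) (γ : SL) :
    Lev M fun A => H (A * castZ γ.1) :=
  lev_lin h (LinearMap.mulRight ℚ (castZ γ.1)) fun A => isInt_mul_SL A γ

theorem PT_add {Φ Ψ : Q2 × Q2 → ℂ} (h : ∀ q, SB fun p => Φ (q, p)) (h' : ∀ q, SB fun p => Ψ (q, p))
    (z : Q2 × Q2) : PT (fun z => Φ z + Ψ z) z = PT Φ z + PT Ψ z := by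
  simp only [PT, FS, add_mul]
  exact II_add' (sb_FS_int (h _) _) (sb_FS_int (h' _) _)

theorem inv_val (γ : SL) : castZ (γ⁻¹).1 =
    !![((γ 1 1 : ℤ) : ℚ), -((γ 0 1 : ℤ) : ℚ); -((γ 1 0 : ℤ) : ℚ), ((γ 0 0 : ℤ) : ℚ)] := by
  ext i j
  fin_cases i <;> fin_cases j <;>
    simp [castZ_apply, Matrix.SpecialLinearGroup.coe_inv, Matrix.adjugate_fin_two]

theorem CL_mul_inv (γ : SL) (q n : Q2) : CL (q, n) * castZ (γ⁻¹).1 =
    CL (((γ 1 1 : ℤ) : ℚ) • q - ((γ 1 0 : ℤ) : ℚ) • n,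
      ((γ 0 0 : ℤ) : ℚ) • n - ((γ 0 1 : ℤ) : ℚ) • q) := by
  rw [inv_val]
  ext i j
  fin_cases i <;> fin_cases j <;> simp [CL_apply, Matrix.mul_apply, Fin.sum_univ_two] <;> ring

theorem omV_RW (γ : SL) (φ : M2 → ℂ) (q p : Q2) : omV γ φ (RW (q, p)) =
    II fun n : Q2 => PV φ (CL (((γ 1 1 : ℤ) : ℚ) • q - ((γ 1 0 : ℤ) : ℚ) • n,
      ((γ 0 0 : ℤ) : ℚ) • n - ((γ 0 1 : ℤ) : ℚ) • q)) * eq (n.2 * p.1 - n.1 * p.2) := by
  rw [omV, PVi_RW, PT, FS]
  congr 1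
  funext n
  rw [CL_mul_inv]
  congr 2
  simp only [Prod.fst_neg, Prod.snd_neg]
  ring

theorem omV_S {M : ℕ} (hM : 0 < M) {φ : M2 → ℂ} (h : Lev M φ) : omV ModularGroup.S φ = FV φ := by
  funext Y
  obtain ⟨⟨q, p⟩, rfl⟩ := RW.surjective Y
  have h1 : SB fun z : Q2 × Q2 => φ (RW z) * eq (-bil (RW z) (RW (q, p))) :=
    sb_mul_lin ⟨M, hM, lev_lin h RW.toLinearMap isInt_RW⟩ _
      (fun x y => by simp [RW_apply, bil]; ring) fun a x => by simp [RW_apply, bil]; ring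
  rw [omV_RW, FV, ← II_equiv_lat RW isInt_RW, II_prod h1, ← II_neg]
  congr 1
  funext n
  have e1 : ((ModularGroup.S 1 1 : ℤ) : ℚ) • q - ((ModularGroup.S 1 0 : ℤ) : ℚ) • -n = n := by
    simp [ModularGroup.S]
  have e2 : ((ModularGroup.S 0 0 : ℤ) : ℚ) • -n - ((ModularGroup.S 0 1 : ℤ) : ℚ) • q = q := by
    simp [ModularGroup.S]
  rw [e1, e2, PV_CL, PT, FS, ← II_mul_const]
  congr 1
  funext v
  rw [mul_assoc, ← eq_add]
  congr 2
  simp [RW_apply, bil]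
  ring

theorem omV_T {M : ℕ} (hM : 0 < M) {φ : M2 → ℂ} (h : Lev M φ) :
    omV ModularGroup.T φ = fun Y => eq Y.det * φ Y := by
  have h1 : ∀ q, SB fun p => eq (RW (q, p)).det * φ (RW (q, p)) := fun q => by
    simp only [mul_comm (eq _)]
    exact sb_mul_lin (sb_RW hM h q) _
      (fun x y => by simp [RW_apply, Matrix.det_fin_two]; ring)
      fun a x => by simp [RW_apply, Matrix.det_fin_two]; ring
  rw [omV, ← PVi_PV (φ := fun Y => eq Y.det * φ Y) h1]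
  congr 1
  funext A
  obtain ⟨⟨q, n⟩, rfl⟩ := CL.surjective A
  rw [CL_mul_inv, PV_CL, PV_CL, PT, PT, FS, FS]
  congr 1
  funext v
  have e1 : ((ModularGroup.T 1 1 : ℤ) : ℚ) • q - ((ModularGroup.T 1 0 : ℤ) : ℚ) • n = q := by
    simp [ModularGroup.T]
  simp only [e1]
  rw [mul_comm (eq _) (φ _), mul_assoc, ← eq_add]
  congr 2
  simp [RW_apply, Matrix.det_fin_two, ModularGroup.T]
  ring

theorem omV_gam0 {M : ℕ} (hM : 0 < M) (γ : SL) (hγ : ((M ^ 2 : ℕ) : ℤ) ∣ γ 1 0) {φ : M2 → ℂ}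
    (h : Lev M φ) (Y : M2) (hY : IsInt ((M : ℚ) • Y)) :
    omV γ φ Y = eq ((γ 0 1 * γ 1 1 : ℤ) * Y.det) * φ (((γ 1 1 : ℤ) : ℚ) • Y) := by
  obtain ⟨⟨q, p⟩, rfl⟩ := RW.surjective Y
  rw [← map_smul, isInt_RW] at hY
  obtain ⟨hq, hp⟩ : IsInt ((M : ℚ) • q) ∧ IsInt ((M : ℚ) • p) := hY
  obtain ⟨c, hc⟩ := hγ
  have hd : γ 0 0 * γ 1 1 - γ 0 1 * γ 1 0 = 1 := by
    have := γ.det_coe
    rwa [Matrix.det_fin_two] at this
  have hd' : ((γ 0 0 : ℤ) : ℚ) * (γ 1 1 : ℤ) = 1 + (γ 0 1 : ℤ) * ((M : ℚ) ^ 2 * c) := by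
    rw [hc] at hd
    have : ((γ 0 0 * γ 1 1 : ℤ) : ℚ) = ((1 + γ 0 1 * (((M ^ 2 : ℕ) : ℤ) * c) : ℤ) : ℚ) := by
      congr 1
      linarith
    push_cast at this
    exact this
  have hc' : ((γ 1 0 : ℤ) : ℚ) = (M : ℚ) ^ 2 * c := by
    rw [hc]
    push_cast
    ring
  have hcop : IsCoprime (γ 0 0) (M : ℤ) := ⟨γ 1 1, -(γ 0 1 * M * c), by
    rw [hc] at hd
    push_cast at hd
    linear_combination hd⟩
  have hH := lev_PV hM h
  have hC : Lev M fun z => PV φ (CL z) := lev_lin hH CL.toLinearMap isInt_CL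
  have hp1 : IsInt ((M : ℚ) * p.1) := hp.1
  have hp2 : IsInt ((M : ℚ) * p.2) := hp.2
  have hbq : IsInt ((M : ℚ) • (((γ 0 1 : ℤ) : ℚ) • q)) := by
    rw [smul_comm]
    exact hq.zsmul _
  set a : ℚ := ((γ 0 0 : ℤ) : ℚ) with ha
  set b : ℚ := ((γ 0 1 : ℤ) : ℚ) with hb
  set d : ℚ := ((γ 1 1 : ℤ) : ℚ) with hdd
  have hL1 : Lev M fun n : Q2 => PV φ (CL (d • q, n + -(b • q))) *
      eq (d * (n.2 * p.1 - n.1 * p.2)) := by
    refine lev_mul_eq (lev_shift (hC.snd (d • q)) (by rw [smul_neg]; exact hbq.neg)) _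
      fun x k hk => ?_
    have := isInt_mul (isInt_int (γ 1 1)) ((isInt_mul hk.2 hp1).sub (isInt_mul hk.1 hp2))
    convert this using 1
    simp only [Prod.fst_add, Prod.snd_add, Prod.smul_fst, Prod.smul_snd, smul_eq_mul]
    ring
  have hL2 : Lev M fun n : Q2 => PV φ (CL (d • q - ((γ 1 0 : ℤ) : ℚ) • n, a • n - b • q)) *
      eq (n.2 * p.1 - n.1 * p.2) := by
    refine lev_mul_eq ?_ _ fun x k hk => ?_
    · have := (lev_lin (lev_mul_SL hH γ⁻¹) CL.toLinearMap isInt_CL).snd q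
      simp only [LinearEquiv.coe_coe, CL_mul_inv] at this
      exact this
    · have := (isInt_mul hk.2 hp1).sub (isInt_mul hk.1 hp2)
      convert this using 1
      simp only [Prod.fst_add, Prod.snd_add, Prod.smul_fst, Prod.smul_snd, smul_eq_mul]
      ring
  rw [omV_RW, II_unit hM hL1 hL2 hcop, ← II_shift _ (b • q)]
  · conv_rhs => rw [← PVi_PV (sb_RW hM h), ← map_smul, PVi_RW, PT, FS, ← II_const_mul]
    congr 1
    funext n
    simp only [add_neg_cancel_right, Prod.smul_mk]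
    rw [mul_left_comm, ← eq_add]
    congr 2
    simp [RW_apply, Matrix.det_fin_two, hb, hdd]
    ring
  · intro n hn
    have hn1 : IsInt ((M : ℚ) * n.1) := hn.1
    have hn2 : IsInt ((M : ℚ) * n.2) := hn.2
    have e1 : d • q - ((γ 1 0 : ℤ) : ℚ) • n = d • q + (M : ℚ) • (((-c : ℤ) : ℚ) • (M : ℚ) • n) := by
      rw [hc']
      push_cast
      module
    have e2 := (hC.fst (a • n - b • q)).1 (d • q) _ (hn.zsmul (-c))
    simp only at e2
    rw [e1, e2, ← sub_eq_add_neg, ← ha]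
    congr 1
    apply eq_congr
    have := isInt_mul (isInt_int (-(γ 0 1 * c))) ((isInt_mul hn2 hp1).sub (isInt_mul hn1 hp2))
    convert this using 1
    simp only [Prod.smul_fst, Prod.smul_snd, smul_eq_mul]
    push_cast
    linear_combination (n.1 * p.2 - n.2 * p.1) * hd'

theorem lev_omV {M : ℕ} (hM : 0 < M) (γ : SL) {φ : M2 → ℂ} (h : Lev M φ) : Lev M (omV γ φ) :=
  lev_PVi hM (lev_mul_SL (lev_PV hM h) γ⁻¹)

end WVP

open WVP

theorem wv : S_WV := by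
  intro M hM
  refine ⟨fun γ ψ h => lev_omV hM γ h, fun γ ψ ψ' h h' => ?_, fun γ c ψ _ => ?_,
    fun γ γ' ψ h => ?_, fun ψ h => omV_S hM h, fun ψ h => omV_T hM h,
    fun γ hγ ψ h Y hY => by rw [omV_gam0 hM γ hγ h Y hY, one_mul], fun γ hγ ψ h => ?_⟩
  · have h1 : ∀ A, PV (ψ + ψ') A = PV ψ A + PV ψ' A := fun A => by
      obtain ⟨z, rfl⟩ := CL.surjective A
      simp only [PV_CL, Pi.add_apply]
      exact PT_add (Φ := fun z => ψ (RW z)) (Ψ := fun z => ψ' (RW z)) (sb_RW hM h) (sb_RW hM h') z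
    funext Y
    obtain ⟨z, rfl⟩ := RW.surjective Y
    simp only [omV, PVi_RW, Pi.add_apply, h1]
    exact PT_add (Φ := fun z => PV ψ (CL z * castZ (γ⁻¹).1))
      (Ψ := fun z => PV ψ' (CL z * castZ (γ⁻¹).1))
      (sb_CL hM (lev_mul_SL (lev_PV hM h) γ⁻¹)) (sb_CL hM (lev_mul_SL (lev_PV hM h') γ⁻¹)) z
  · funext Y
    simp only [omV, PVi, PV, Pi.smul_apply, smul_eq_mul, mul_assoc, II_const_mul]
  · rw [omV, omV, omV, PV_PVi (sb_CL hM (lev_mul_SL (lev_PV hM h) γ⁻¹))]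
    simp only [mul_inv_rev, castZ_SL_mul, mul_assoc]
  · rw [Gamma_mem] at hγ
    obtain ⟨-, h01, h10, h11⟩ := hγ
    funext Y
    by_cases hY : IsInt ((M : ℚ) • Y)
    · rw [omV_gam0 hM γ ((ZMod.intCast_zmod_eq_zero_iff_dvd _ _).1 h10) h Y hY]
      obtain ⟨b, hb⟩ := (ZMod.intCast_zmod_eq_zero_iff_dvd _ _).1 h01
      obtain ⟨d, hd⟩ : ((M ^ 2 : ℕ) : ℤ) ∣ γ 1 1 - 1 := by
        rw [← ZMod.intCast_zmod_eq_zero_iff_dvd]
        push_cast
        rw [h11, sub_self]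
      obtain ⟨Z, hZ⟩ := (isInt_M2 _).1 hY
      have e1 : ((γ 1 1 : ℤ) : ℚ) • Y = Y + (M : ℚ) • ((d : ℚ) • (M : ℚ) • Y) := by
        have : ((γ 1 1 : ℤ) : ℚ) = 1 + M * (d * M) := by
          rw [show γ 1 1 = 1 + ((M ^ 2 : ℕ) : ℤ) * d by linarith]
          push_cast
          ring
        rw [this, add_smul, one_smul, smul_smul, smul_smul, mul_assoc]
      have e2 : (M : ℚ) ^ 2 * Y.det = Z.det := by
        rw [← castZ_det, hZ, Matrix.det_smul]
        simp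
      rw [e1, h.1 _ _ (hY.zsmul d), (eq_eq_one_iff _).2, one_mul]
      refine (isInt_rat _).2 ⟨b * γ 1 1 * Z.det, ?_⟩
      generalize Z.det = t at e2 ⊢
      rw [hb]
      push_cast
      rw [← e2]
      ring
    · have h1 : ψ Y = 0 := by
        by_contra h0
        exact hY (h.2 Y h0)
      rw [h1]
      by_contra h0
      exact hY ((lev_omV hM γ h).2 Y h0)

end

end Pool.Agent.P.MP_b8021b_nt.CM
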